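import Pool.Agent.Lib.MP_dd84fd_nt.HX.PlOv
import Pool.Agent.Lib.MP_dd84fd_nt.PL.LamTwo

/-!
# PL_H-Lam: a function independent of `a` against type II

As `PL.lam_two` (`PL/LamTwo.lean`; reuse `lt_one`, `lt_per`, `lt_cs`, `lt_D4`, `lt_D48`, `lt_harm`), with `tp K (cq q c)` in place of
`tp K c` and `bmass_c`: `∑_q Z(q) ≤ V = 12 L² (8N + X/(Mb)) S X/M` (`1 + log N ≤ 2L`).
`b² M² V ≤ C L² S X b (8NbM + X) ≤ C L² S X² b`, `b² · 2M(1+b) · U2 · V ≤ C L² (1+b) U2 S X² b/M`, `U2 ≤ 17 D X^(1/8)`, `M ≥ X^(1/3)`,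
`X^(1/8 - 1/3) ≤ X^(-1/10)`.
-/

set_option autoImplicit false

namespace Pool.MP_dd84fd_nt.HXP

open Finset Pool.MP_67663b_nt.Odd Pool.MP_dd84fd_nt.PL Pool.MP_dd84fd_nt.HX

theorem pll_ev (A1 : ℕ) (C : ℝ) : ∃ X0 : ℕ, ∀ X : ℕ, X0 ≤ X → 16 ≤ X ∧ 1 ≤ Real.log X ∧
    (Real.log X) ^ (A1 : ℝ) ≤ (X : ℝ) ^ (1 / 4 : ℝ) ∧ 128 * C ≤ X := by
  have h1 : ∀ᶠ x : ℝ in Filter.atTop, (Real.log x) ^ (A1 : ℝ) ≤ x ^ (1 / 4 : ℝ) := by
    have h := isLittleO_log_rpow_rpow_atTop (A1 : ℝ) (show (0 : ℝ) < 1 / 4 by norm_num)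
    filter_upwards [h.bound (show (0 : ℝ) < 1 by norm_num), Filter.eventually_ge_atTop (1 : ℝ)]
      with x hx hx1
    rw [Real.norm_of_nonneg (Real.rpow_nonneg (Real.log_nonneg hx1) _),
      Real.norm_of_nonneg (Real.rpow_nonneg (by linarith) _), one_mul] at hx
    exact hx
  have h2 : ∀ᶠ x : ℝ in Filter.atTop, 1 ≤ Real.log x :=
    Real.tendsto_log_atTop.eventually_ge_atTop 1
  have h3 := (h1.and h2).and ((Filter.eventually_ge_atTop (16 : ℝ)).and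
    (Filter.eventually_ge_atTop (128 * C)))
  have h4 := tendsto_natCast_atTop_atTop (R := ℝ) |>.eventually h3
  obtain ⟨X0, hX0⟩ := Filter.eventually_atTop.1 h4
  refine ⟨X0, fun X hX => ?_⟩
  have h5 := hX0 X hX
  exact ⟨by exact_mod_cast h5.2.1, h5.1.2, h5.1.1, h5.2.2⟩

theorem lam_two_h : ∃ C : ℝ, 0 < C ∧ ∀ (δ : ℝ) (A1 : ℕ), 0 < δ → δ ≤ 1 / 2000 → ∃ X0 : ℕ,
    ∀ X : ℕ, X0 ≤ X → ∀ (n : ℕ) (b N σ : ℝ) (QQ : Finset ℕ) (bq : ℕ → ℝ),
    StdH X n δ A1 b N σ QQ bq →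
    ∀ (lam : ℕ → ℝ → ℂ) (Λ0 : ℝ), (∀ q, Continuous (lam q)) → 0 ≤ Λ0 → Λ0 ≤ X →
    (∀ q ∈ QQ, ∀ x, ‖lam q x‖ ≤ Λ0 * X / q) →
    ∀ (M Am S : ℝ) (K : ℕ) (MM : Finset ℕ) (a c : ℕ → ℂ),
    0 ≤ Am → Am ≤ X → 0 ≤ S → S ≤ X → BlkH X δ M K MM a c Am S →
    ∑ q ∈ QQ, ‖Bq X (bq q) σ n q (fun _ x => lam q x) (f2f MM a (tp K (cq q c)) σ q)‖ ≤
      C * (Real.log X) ^ 2 * Λ0 * Am * Real.sqrt S * (1 + b) * X *
        (Real.sqrt (∑ q ∈ QQ, 1 / ((q : ℝ) * (hq q n : ℝ) ^ (1 / 4 : ℝ))) +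
          (X : ℝ) ^ (-(1 / 20) : ℝ)) + 1 := by
  obtain ⟨C, hC, h1⟩ := lt_one
  obtain ⟨D4, hD4, h4⟩ := lt_D4
  obtain ⟨D48, hD48, h48⟩ := lt_D48
  refine ⟨200 * C * (5 * D4 + 34 * D48), by positivity, ?_⟩
  intro δ A1 hδ hδ'
  obtain ⟨X0, hX0⟩ := pll_ev A1 C
  refine ⟨X0, ?_⟩
  intro X hX n b N σ QQ bq hstd lam Λ0 hlam hΛ0 hΛX hlb M Am S K MM a c hAm hAmX hS hSX hblk
  obtain ⟨h2n, hnX, hσ, hbA, hN1, hNb, hFam, -, hbq⟩ := hstd
  obtain ⟨hM1, hM2, hK, hMM, ha, hc⟩ := hblk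
  obtain ⟨hX16, hL1, hLA, hXC⟩ := hX0 X hX
  have hX16' : (16 : ℝ) ≤ X := by exact_mod_cast hX16
  have hXp : (0 : ℝ) < X := by linarith
  have hX1 : 1 ≤ X := by omega
  have hX1' : (1 : ℝ) ≤ X := by linarith
  have hn1 : 1 ≤ n := by omega
  -- powers
  obtain ⟨y, hy⟩ : ∃ y : ℝ, y = (X : ℝ) ^ (1 / 16 : ℝ) := ⟨_, rfl⟩
  have hy1 : 1 ≤ y := by rw [hy]; exact Real.one_le_rpow hX1' (by norm_num)
  have hy0 : 0 < y := by linarith
  have hyp : ∀ k : ℕ, y ^ k = (X : ℝ) ^ ((k : ℝ) / 16) := by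
    intro k
    rw [hy, ← Real.rpow_natCast, ← Real.rpow_mul hXp.le]
    congr 1
    ring
  have hyX : y ^ 16 = X := by
    rw [hyp 16]
    norm_num
  have e14 : (X : ℝ) ^ (1 / 4 : ℝ) = y ^ 4 := by
    rw [hyp 4]
    norm_num
  have em : 1 / y ≤ (X : ℝ) ^ (-(1 / 20) : ℝ) := by
    rw [hy, one_div, ← Real.rpow_neg hXp.le]
    exact Real.rpow_le_rpow_of_exponent_le hX1' (by norm_num)
  have hb0 : 0 < b := lt_of_lt_of_le (Real.rpow_pos_of_pos (by linarith) _) hbA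
  have hMy : y ^ 4 ≤ M := by
    rw [← e14]
    exact (Real.rpow_le_rpow_of_exponent_le hX1' (by norm_num)).trans hM1
  have hNb' : N * b ≤ (X : ℝ) ^ (3 / 4 : ℝ) := by
    refine hNb.trans ?_
    exact Real.rpow_le_rpow_of_exponent_le hX1' (by linarith)
  have h34X : (X : ℝ) ^ (3 / 4 : ℝ) ≤ X := by
    calc (X : ℝ) ^ (3 / 4 : ℝ) ≤ (X : ℝ) ^ (1 : ℝ) :=
          Real.rpow_le_rpow_of_exponent_le hX1' (by norm_num)
      _ = X := Real.rpow_one _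
  have hNX : N ≤ X := by
    have h2 : 1 ≤ b * (Real.log X) ^ (A1 : ℝ) := by
      have h3 : (0 : ℝ) < (Real.log X) ^ (A1 : ℝ) := Real.rpow_pos_of_pos (by linarith) _
      have h4 := mul_le_mul_of_nonneg_right hbA h3.le
      rwa [Real.rpow_neg (by linarith), inv_mul_cancel₀ h3.ne'] at h4
    calc N = N * 1 := (mul_one N).symm
      _ ≤ N * (b * (Real.log X) ^ (A1 : ℝ)) := mul_le_mul_of_nonneg_left h2 (by linarith)
      _ = (N * b) * (Real.log X) ^ (A1 : ℝ) := by ring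
      _ ≤ (X : ℝ) ^ (3 / 4 : ℝ) * (X : ℝ) ^ (1 / 4 : ℝ) :=
          mul_le_mul hNb' hLA (Real.rpow_nonneg (by linarith) _) (by positivity)
      _ = X := by
          rw [← Real.rpow_add hXp]
          norm_num
  have hbX : b ≤ X := by nlinarith
  have hM12 : 1 ≤ M := (one_le_pow₀ hy1).trans hMy
  have hM0 : 0 < M := by linarith
  have hMX' : M ≤ X := by
    calc M ≤ (X : ℝ) ^ (1 / 2 - 3 * δ) := hM2
      _ ≤ (X : ℝ) ^ (1 : ℝ) := Real.rpow_le_rpow_of_exponent_le hX1' (by linarith)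
      _ = X := Real.rpow_one _
  have hMX : M ≤ 2 * X := by linarith
  have hNbM : N * b * M ≤ X := by
    calc N * b * M ≤ (X : ℝ) ^ (1 / 2 + 5 / 2 * δ) * (X : ℝ) ^ (1 / 2 - 3 * δ) :=
          mul_le_mul hNb hM2 hM0.le (by positivity)
      _ = (X : ℝ) ^ (1 / 2 + 5 / 2 * δ + (1 / 2 - 3 * δ)) := (Real.rpow_add hXp _ _).symm
      _ ≤ (X : ℝ) ^ (1 : ℝ) := Real.rpow_le_rpow_of_exponent_le hX1' (by linarith)
      _ = X := Real.rpow_one _
  have hqq : ∀ q ∈ QQ, 1 ≤ q ∧ q ≤ X := by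
    intro q hqm
    refine ⟨hFam.1 q hqm, ?_⟩
    have h2 := hFam.2 q hqm q hqm
    rw [Nat.lcm_self] at h2
    exact_mod_cast h2.trans hNX
  -- bound of the inner polynomial
  have hcq : ∀ q k : ℕ, ‖cq q c k‖ ≤ ‖c k‖ := by
    intro q k
    unfold cq
    split_ifs
    · exact le_rfl
    · rw [norm_zero]
      exact norm_nonneg _
  have hBs : ∀ (q : ℕ) (x : ℝ), ‖tp K (cq q c) x‖ ≤ 2 * (X : ℝ) ^ 2 := by
    intro q x
    unfold tp
    refine (norm_sum_le _ _).trans ?_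
    have h2 : ∀ k ∈ Icc 1 K, ‖cq q c k * ee ((k : ℝ) * x)‖ ≤ 1 + ‖c k‖ ^ 2 := by
      intro k _
      have h3 : ‖ee ((k : ℝ) * x)‖ = 1 := by
        unfold ee
        rw [Complex.norm_exp]
        simp
      rw [norm_mul, h3, mul_one]
      refine (hcq q k).trans ?_
      nlinarith [sq_nonneg (‖c k‖ - 1), norm_nonneg (c k)]
    refine (Finset.sum_le_sum h2).trans ?_
    rw [Finset.sum_add_distrib]
    have h5 : ∑ _k ∈ Icc 1 K, (1 : ℝ) ≤ X := by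
      simp only [Finset.sum_const, Nat.card_Icc, nsmul_eq_mul, mul_one]
      have : K + 1 - 1 = K := by omega
      rw [this]
      exact_mod_cast hK
    have h6 : S * X / M ≤ X ^ 2 := by
      rw [div_le_iff₀ (by linarith)]
      nlinarith
    nlinarith [hc.trans h6]
  -- the masses
  obtain ⟨Z, hZ⟩ : ∃ Z : ℕ → ℝ, Z = fun q => ∑ r ∈ rr q, ∫ t in (0 : ℝ)..1,
    ‖tp K (cq q c) ((r : ℝ) / q + σ * (M * (bq q / X)) * Real.exp (2 * Int.fract t))‖ ^ 2 :=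
      ⟨_, rfl⟩
  have hZ0 : ∀ q ∈ QQ, 0 ≤ Z q := by
    intro q _
    rw [hZ]
    refine Finset.sum_nonneg fun r _ => ?_
    refine intervalIntegral.integral_nonneg (by norm_num) fun t _ => by positivity
  obtain ⟨S', hS'⟩ : ∃ S' : ℝ, S' = 12 * (Real.log X) ^ 2 * S := ⟨_, rfl⟩
  have hS'0 : 0 ≤ S' := by rw [hS']; positivity
  have hsS' : Real.sqrt S' ≤ 4 * Real.log X * Real.sqrt S := by
    rw [hS', Real.sqrt_mul (by positivity)]
    refine mul_le_mul_of_nonneg_right ?_ (Real.sqrt_nonneg _)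
    rw [Real.sqrt_le_left (by linarith)]
    nlinarith [sq_nonneg (Real.log X)]
  have hNlog : 3 * (1 + Real.log N) ^ 2 ≤ 12 * (Real.log X) ^ 2 := by
    have h2 : Real.log N ≤ Real.log X := Real.log_le_log (by linarith) hNX
    have h3 : 0 ≤ Real.log N := Real.log_nonneg hN1
    nlinarith
  have hZs : ∑ q ∈ QQ, Z q ≤ (8 * N + y ^ 16 / (M * b)) * (S' * y ^ 16 / M) := by
    have h2 := bmass_c X hX1 b N σ M hb0 hN1 (by linarith) hσ QQ hFam bq hbq K c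
    rw [hZ]
    refine h2.trans ?_
    rw [hyX, hS']
    have h3 : 0 ≤ 8 * N + X / (M * b) := by positivity
    calc 3 * (1 + Real.log N) ^ 2 * (8 * N + X / (M * b)) * ∑ k ∈ Icc 1 K, ‖c k‖ ^ 2
        ≤ 12 * (Real.log X) ^ 2 * (8 * N + X / (M * b)) * (S * X / M) :=
          mul_le_mul (mul_le_mul_of_nonneg_right hNlog h3) hc
            (Finset.sum_nonneg fun k _ => by positivity) (by positivity)
      _ = (8 * N + X / (M * b)) * (12 * (Real.log X) ^ 2 * S * X / M) := by ring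
  -- the bound for one modulus
  have hper : ∀ q ∈ QQ, ‖Bq X (bq q) σ n q (fun _ x => lam q x)
      (f2f MM a (tp K (cq q c)) σ q)‖ ≤
      50 * C * Real.log X * Λ0 * Am * (b * (ltK (hq q n) / Real.sqrt q * Real.sqrt (Z q) *
        (M + Real.sqrt (2 * M * (1 + b)) * Real.sqrt (hq q n)))) + 128 * C / (X : ℝ) ^ 3 := by
    intro q hqm
    obtain ⟨hq1, hqX⟩ := hqq q hqm
    have hq1' : (1 : ℝ) ≤ q := by exact_mod_cast hq1
    have hqX' : (q : ℝ) ≤ X := by exact_mod_cast hqX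
    have : NeZero q := ⟨by omega⟩
    have hβ := hbq q hqm
    have h2 := h1 X n q (bq q) σ hX1 hnX (by linarith) hσ hn1 (lam q) (Λ0 * X / q) (hlam q)
      (hlb q hqm) M Am K MM a (cq q c) hM12 hAm hMM ha (2 * (X : ℝ) ^ 2) (8 * (X : ℝ) ^ 4)
      (X ^ 24) (hBs q)
      (by
        rw [div_le_iff₀ (by linarith)]
        have h3 : Λ0 * X ≤ X * X := mul_le_mul_of_nonneg_right hΛX hXp.le
        have h5 : (X : ℝ) * X ≤ 8 * X ^ 4 := by nlinarith [pow_le_pow_left₀ (by norm_num) hX1' 2]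
        have h6 : 8 * (X : ℝ) ^ 4 ≤ 8 * (X : ℝ) ^ 4 * q := by nlinarith [pow_pos hXp 4]
        linarith)
      (by
        calc 2 * M * Am * (2 * (X : ℝ) ^ 2) ≤ 2 * (2 * X) * X * (2 * (X : ℝ) ^ 2) := by
              refine mul_le_mul_of_nonneg_right (mul_le_mul (by linarith) hAmX hAm (by linarith))
                (by positivity)
          _ = 8 * (X : ℝ) ^ 4 := by ring)
      (Nat.one_le_pow _ _ hX1)
      (by
        have h3 : bq q ≤ 2 * X := by linarith [hβ.2]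
        have h5 : (16 : ℝ) * X ≤ X ^ 24 := by
          calc (16 : ℝ) * X ≤ X * X := by nlinarith
            _ = X ^ 2 := by ring
            _ ≤ X ^ 24 := pow_le_pow_right₀ hX1' (by norm_num)
        push_cast
        linarith)
    refine h2.trans ?_
    have hlogJ : Real.log ((X ^ 24 : ℕ) : ℝ) = 24 * Real.log X := by
      push_cast
      rw [Real.log_pow]
      norm_num
    rw [hlogJ]
    have h3 := lt_per C X b (bq q) Λ0 q (Nat.totient q) (ltK (hq q n)) (Z q) Am M (hq q n)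
      (Real.log X) (8 * (X : ℝ) ^ 4) ((X ^ 24 : ℕ) : ℝ) hC hX1' hb0 hβ.1 hβ.2 hbX hΛ0 hq1' hqX'
      (Nat.cast_nonneg _) (by exact_mod_cast Nat.totient_le q) (ltK_nonneg _) hAm (by linarith)
      (Nat.cast_nonneg _) hL1 rfl (by push_cast; ring)
    rw [hZ] at h3 ⊢
    exact h3
  have hh1 : ∀ q ∈ QQ, 1 ≤ hq q n ∧ hq q n ≤ X := by
    intro q hqm
    obtain ⟨hq1, hqX⟩ := hqq q hqm
    unfold hq
    exact ⟨Nat.div_pos (Nat.le_of_dvd hq1 (Nat.gcd_dvd_left q n))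
      (Nat.gcd_pos_of_pos_left _ hq1), (Nat.div_le_self _ _).trans hqX⟩
  refine (Finset.sum_le_sum hper).trans ?_
  rw [Finset.sum_add_distrib]
  have htail : ∑ _q ∈ QQ, 128 * C / (X : ℝ) ^ 3 ≤ 1 := by
    rw [Finset.sum_const, nsmul_eq_mul]
    have hcard : (QQ.card : ℝ) ≤ X := by
      have : QQ.card ≤ X := by
        calc QQ.card ≤ (Icc 1 X).card := Finset.card_le_card fun q hqm => Finset.mem_Icc.2 (hqq q hqm)
          _ = X := by simp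
      exact_mod_cast this
    calc (QQ.card : ℝ) * (128 * C / (X : ℝ) ^ 3) ≤ X * (128 * C / (X : ℝ) ^ 3) :=
          mul_le_mul_of_nonneg_right hcard (by positivity)
      _ = 128 * C / X ^ 2 := by field_simp
      _ ≤ 1 := by
          rw [div_le_one (by positivity)]
          nlinarith
  refine add_le_add ?_ htail
  rw [← Finset.mul_sum, ← Finset.mul_sum]
  have hcs := lt_cs QQ (fun q => ltK (hq q n)) (fun q => (hq q n : ℝ)) Z M
    (Real.sqrt (2 * M * (1 + b))) (fun q _ => Nat.cast_nonneg _) hZ0 (by linarith)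
    (Real.sqrt_nonneg _)
  have hU1 : ∑ q ∈ QQ, ltK (hq q n) ^ 2 / q ≤
      D4 * ∑ q ∈ QQ, 1 / ((q : ℝ) * (hq q n : ℝ) ^ (1 / 4 : ℝ)) := by
    rw [Finset.mul_sum]
    refine Finset.sum_le_sum fun q hqm => ?_
    have hq0 : (0 : ℝ) < q := by exact_mod_cast (hqq q hqm).1
    calc ltK (hq q n) ^ 2 / q ≤ D4 * (1 / (hq q n : ℝ) ^ (1 / 4 : ℝ)) / q :=
          div_le_div_of_nonneg_right (h4 _ (hh1 q hqm).1) hq0.le
      _ = D4 * (1 / ((q : ℝ) * (hq q n : ℝ) ^ (1 / 4 : ℝ))) := by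
          rw [mul_div_assoc, div_div, mul_comm ((hq q n : ℝ) ^ (1 / 4 : ℝ))]
  have hU2 : ∑ q ∈ QQ, ltK (hq q n) ^ 2 * (hq q n : ℝ) / q ≤ 17 * D48 * y ^ 2 := by
    calc ∑ q ∈ QQ, ltK (hq q n) ^ 2 * (hq q n : ℝ) / q ≤ ∑ q ∈ QQ, (D48 * y) * (1 / (q : ℝ)) := by
          refine Finset.sum_le_sum fun q hqm => ?_
          have hq0 : (0 : ℝ) < q := by exact_mod_cast (hqq q hqm).1
          rw [mul_one_div]
          refine div_le_div_of_nonneg_right ?_ hq0.le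
          rw [hy]
          exact h48 _ X (hh1 q hqm).1 (hh1 q hqm).2
      _ = D48 * y * ∑ q ∈ QQ, 1 / (q : ℝ) := by rw [Finset.mul_sum]
      _ ≤ D48 * y * (17 * y) := by
          refine mul_le_mul_of_nonneg_left ?_ (by positivity)
          rw [hy]
          exact lt_harm X hX1 QQ hqq
      _ = 17 * D48 * y ^ 2 := by ring
  have hY0 : 0 ≤ ∑ q ∈ QQ, 1 / ((q : ℝ) * (hq q n : ℝ) ^ (1 / 4 : ℝ)) :=
    Finset.sum_nonneg fun q _ => by positivity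
  have hnum := lt_num y b N M S' (∑ q ∈ QQ, ltK (hq q n) ^ 2 / q)
    (∑ q ∈ QQ, ltK (hq q n) ^ 2 * (hq q n : ℝ) / q) (∑ q ∈ QQ, Z q)
    (∑ q ∈ QQ, 1 / ((q : ℝ) * (hq q n : ℝ) ^ (1 / 4 : ℝ))) D4 D48 hy0 hb0 (by linarith)
    (by
      have : 0 < y ^ 4 := by positivity
      linarith)
    (by
      rw [hyX]
      linarith) hS'0 hY0 (Finset.sum_nonneg hZ0) hZs
    (Finset.sum_nonneg fun q _ => by positivity) hU1 (Finset.sum_nonneg fun q _ => by positivity)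
    hU2 hD4 hD48
  have hfin := (mul_le_mul_of_nonneg_left hcs hb0.le).trans hnum
  have hc0 : 0 ≤ 50 * C * Real.log X * Λ0 * Am := by
    have : 0 ≤ Real.log X := by linarith
    positivity
  refine (mul_le_mul_of_nonneg_left hfin hc0).trans ?_
  rw [hyX]
  set Y := ∑ q ∈ QQ, 1 / ((q : ℝ) * (hq q n : ℝ) ^ (1 / 4 : ℝ)) with hYd
  have hL0 : 0 ≤ Real.log X := by linarith
  calc 50 * C * Real.log X * Λ0 * Am * ((5 * D4 + 34 * D48) * (1 + b) * Real.sqrt S' * X *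
        (Real.sqrt Y + 1 / y)) ≤
      50 * C * Real.log X * Λ0 * Am * ((5 * D4 + 34 * D48) * (1 + b) *
        (4 * Real.log X * Real.sqrt S) * X * (Real.sqrt Y + (X : ℝ) ^ (-(1 / 20) : ℝ))) := by
        refine mul_le_mul_of_nonneg_left ?_ hc0
        refine mul_le_mul (mul_le_mul_of_nonneg_right (mul_le_mul_of_nonneg_left hsS'
          (by positivity)) hXp.le) (by linarith) (by positivity) (by positivity)
    _ = _ := by ring

end Pool.MP_dd84fd_nt.HXP
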