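import Pool.Agent.Lib.MP_dd84fd_nt.HX.PlDefs
import Pool.Agent.Lib.MP_dd84fd_nt.L2G.MinSum

/-!
# PL_H-Iw: inner sums with weights of bounded variation

`iw_le`: Abel summation (see `ty_abel` in `PL/TypeI.lean`): with `a_k = ee(dkθ)`, all partial sums `≤ mn(X/d, dθ)`
(`L2G.geo_sum`), `∑_{k<K} |γ(d(k+1)) - γ(dk)| ≤ ∑_{n<X} |γ(n+1) - γ(n)| ≤ R` (`K = X/d`, disjoint blocks of `n`), `|γ(dK)| ≤ R`.
If `X < d` the sum is empty.
`iw_triv`: trivial.
`lam_iw`: `∑_{l ∈ S} R X/(lq) ≤ R (X/q)(1 + log X)` (`harmonic_le_one_add_log`, `D ≤ X`).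
`lam_iw_large`: `0 < lqx ≤ 1/4`, so `nrm(lqσx) = lqx` and `mn(X/(lq), lqσx) ≤ 1/(2lqx)`; `iw_le` and the harmonic sum.
-/

set_option autoImplicit false

namespace Pool.MP_dd84fd_nt.HXP

open Finset Pool.MP_67663b_nt.Odd Pool.MP_dd84fd_nt.PL Pool.MP_dd84fd_nt.HX

private theorem pliw_abel (a : ℕ → ℂ) (γ V : ℕ → ℝ) (B : ℝ) (m : ℕ)
    (h : ∀ l ≤ m, ‖∑ k ∈ Icc 1 l, a k‖ ≤ B) (hV0 : 0 ≤ V 1)
    (hV : ∀ l, 1 ≤ l → l < m → |γ (l + 1) - γ l| ≤ V (l + 1) - V l) (hm : 1 ≤ m) :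
    ‖∑ k ∈ Icc 1 m, ((γ k : ℝ) : ℂ) * a k‖ ≤ (V m + |γ m|) * B := by
  have hB : 0 ≤ B := (norm_nonneg _).trans (h 0 (Nat.zero_le _))
  have key : ∀ l, 1 ≤ l → l ≤ m → ‖∑ k ∈ Icc 1 l, ((γ k : ℝ) : ℂ) * a k -
      ((γ l : ℝ) : ℂ) * ∑ k ∈ Icc 1 l, a k‖ ≤ V l * B := by
    intro l hl
    induction l, hl using Nat.le_induction with
    | base =>
      intro _
      simp only [Finset.Icc_self, Finset.sum_singleton, sub_self, norm_zero]
      exact mul_nonneg hV0 hB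
    | succ l hl ih =>
      intro hlm
      have h1 := ih (by omega)
      have h2 := h l (by omega)
      have h3 := hV l hl (by omega)
      have e1 : ∑ k ∈ Icc 1 (l + 1), ((γ k : ℝ) : ℂ) * a k -
          ((γ (l + 1) : ℝ) : ℂ) * ∑ k ∈ Icc 1 (l + 1), a k =
          (∑ k ∈ Icc 1 l, ((γ k : ℝ) : ℂ) * a k - ((γ l : ℝ) : ℂ) * ∑ k ∈ Icc 1 l, a k) -
          ((γ (l + 1) - γ l : ℝ) : ℂ) * ∑ k ∈ Icc 1 l, a k := by
        rw [Finset.sum_Icc_succ_top (by omega), Finset.sum_Icc_succ_top (by omega)]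
        push_cast
        ring
      rw [e1]
      refine (norm_sub_le _ _).trans ?_
      rw [norm_mul, Complex.norm_real, Real.norm_eq_abs]
      have h4 : |γ (l + 1) - γ l| * ‖∑ k ∈ Icc 1 l, a k‖ ≤ (V (l + 1) - V l) * B :=
        mul_le_mul h3 h2 (norm_nonneg _) ((abs_nonneg _).trans h3)
      linarith
  have h1 := key m hm le_rfl
  have h2 := h m le_rfl
  have e : ∑ k ∈ Icc 1 m, ((γ k : ℝ) : ℂ) * a k =
      (∑ k ∈ Icc 1 m, ((γ k : ℝ) : ℂ) * a k - ((γ m : ℝ) : ℂ) * ∑ k ∈ Icc 1 m, a k) +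
      ((γ m : ℝ) : ℂ) * ∑ k ∈ Icc 1 m, a k := by ring
  rw [e]
  refine (norm_add_le _ _).trans ?_
  rw [norm_mul, Complex.norm_real, Real.norm_eq_abs]
  have h4 : |γ m| * ‖∑ k ∈ Icc 1 m, a k‖ ≤ |γ m| * B :=
    mul_le_mul_of_nonneg_left h2 (abs_nonneg _)
  linarith

/-- the variation along the multiples of `d` -/
private theorem pliw_var (d : ℕ) (hd : 1 ≤ d) (γ : ℕ → ℝ) (m : ℕ) (hm : 1 ≤ m) :
    ∑ k ∈ Ico 1 m, |γ (d * (k + 1)) - γ (d * k)| ≤ ∑ n ∈ Ico d (d * m), |γ (n + 1) - γ n| := by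
  induction m, hm using Nat.le_induction with
  | base => simp
  | succ m hm ih =>
    rw [Finset.sum_Ico_succ_top hm]
    have h1 : ∑ n ∈ Ico d (d * (m + 1)), |γ (n + 1) - γ n| =
        ∑ n ∈ Ico d (d * m), |γ (n + 1) - γ n| +
        ∑ n ∈ Ico (d * m) (d * (m + 1)), |γ (n + 1) - γ n| := by
      rw [Finset.sum_Ico_consecutive]
      · exact Nat.le_mul_of_pos_right d hm
      · exact Nat.mul_le_mul_left d (Nat.le_succ m)
    rw [h1]
    refine add_le_add ih ?_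
    have h2 := dist_le_Ico_sum_dist γ (Nat.mul_le_mul_left d (Nat.le_succ m))
    rw [dist_comm, Real.dist_eq] at h2
    refine h2.trans (le_of_eq ?_)
    refine Finset.sum_congr rfl fun n _ => ?_
    rw [Real.dist_eq, abs_sub_comm]

private theorem pliw_mn_nonneg (M x : ℝ) (hM : 0 ≤ M) : 0 ≤ L2G.mn M x := by
  unfold L2G.mn
  have h : 0 ≤ L2G.nrm x := abs_nonneg _
  split_ifs
  · exact hM
  · positivity

theorem iw_le (X d : ℕ) (γ : ℕ → ℝ) (R θ : ℝ) (hd : 1 ≤ d) (hR : 0 ≤ R) (h : BVw X R γ) :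
    ‖iw X d γ θ‖ ≤ 2 * R * L2G.mn ((X : ℝ) / d) ((d : ℝ) * θ) := by
  have hd0 : (0 : ℝ) < d := by exact_mod_cast hd
  have hM : 0 ≤ (X : ℝ) / d := by positivity
  have hmn := pliw_mn_nonneg ((X : ℝ) / d) ((d : ℝ) * θ) hM
  unfold iw
  rcases Nat.eq_zero_or_pos (X / d) with h0 | h0
  · rw [h0]
    simp only [show Icc 1 0 = (∅ : Finset ℕ) from rfl, Finset.sum_empty, norm_zero]
    positivity
  · have hKX : (((X / d : ℕ) : ℕ) : ℝ) ≤ (X : ℝ) / d := Nat.cast_div_le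
    have hdK : d * (X / d) ≤ X := Nat.mul_div_le X d
    have hpart : ∀ l ≤ X / d, ‖∑ k ∈ Icc 1 l, ee (((d * k : ℕ) : ℝ) * θ)‖ ≤
        L2G.mn ((X : ℝ) / d) ((d : ℝ) * θ) := by
      intro l hl
      have h1 := L2G.geo_sum 0 l ((X : ℝ) / d) ((d : ℝ) * θ) (by
        have : (l : ℝ) ≤ ((X / d : ℕ) : ℝ) := by exact_mod_cast hl
        simp only [Nat.cast_zero, sub_zero]
        linarith) hM
      refine le_trans (le_of_eq ?_) h1
      congr 1
      have h2 : Icc 1 l = Ioc 0 l := by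
        ext k
        rw [mem_Icc, mem_Ioc]
        omega
      rw [h2]
      refine Finset.sum_congr rfl fun k _ => ?_
      congr 1
      push_cast
      ring
    have hab := pliw_abel (fun k => ee (((d * k : ℕ) : ℝ) * θ)) (fun k => γ (d * k))
      (fun l => ∑ k ∈ Ico 1 l, |γ (d * (k + 1)) - γ (d * k)|)
      (L2G.mn ((X : ℝ) / d) ((d : ℝ) * θ)) (X / d) hpart (by simp) (by
        intro l hl _
        rw [Finset.sum_Ico_succ_top hl]
        linarith) h0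
    refine hab.trans ?_
    refine mul_le_mul_of_nonneg_right ?_ hmn
    have h3 : |γ (d * (X / d))| ≤ R := by
      refine h.1 _ ?_
      rw [mem_Icc]
      exact ⟨Nat.mul_pos hd h0, hdK⟩
    have h4 := pliw_var d hd γ (X / d) h0
    have h5 : ∑ n ∈ Ico d (d * (X / d)), |γ (n + 1) - γ n| ≤
        ∑ n ∈ Ico 1 X, |γ (n + 1) - γ n| :=
      Finset.sum_le_sum_of_subset_of_nonneg (Finset.Ico_subset_Ico hd hdK)
        fun _ _ _ => abs_nonneg _
    have h6 := h.2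
    linarith

theorem iw_triv (X d : ℕ) (γ : ℕ → ℝ) (R θ : ℝ) (hd : 1 ≤ d) (hR : 0 ≤ R) (h : BVw X R γ) :
    ‖iw X d γ θ‖ ≤ R * (X / d) := by
  unfold iw
  have hdK : d * (X / d) ≤ X := Nat.mul_div_le X d
  refine (norm_sum_le _ _).trans ?_
  refine (Finset.sum_le_card_nsmul _ _ R fun k hk => ?_).trans ?_
  · rw [mem_Icc] at hk
    rw [norm_mul, norm_ee, mul_one, Complex.norm_real, Real.norm_eq_abs]
    refine h.1 _ ?_
    rw [mem_Icc]
    exact ⟨Nat.mul_pos hd hk.1, (Nat.mul_le_mul_left d hk.2).trans hdK⟩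
  · rw [Nat.card_Icc, nsmul_eq_mul, Nat.add_sub_cancel, mul_comm]
    exact mul_le_mul_of_nonneg_left Nat.cast_div_le hR

theorem iw_cont (X d : ℕ) (γ : ℕ → ℝ) : Continuous (iw X d γ) := by
  unfold iw
  refine continuous_finsetSum _ fun k _ => ?_
  have h : Continuous ee := by
    unfold ee
    fun_prop
  exact continuous_const.mul (h.comp (continuous_const.mul continuous_id))

/-- the harmonic sum over `S` -/
private theorem pliw_harm (X D : ℕ) (S : Finset ℕ) (hD : D ≤ X) (hS : ∀ l ∈ S, 1 ≤ l ∧ l ≤ D) :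
    ∑ l ∈ S, 1 / (l : ℝ) ≤ 1 + Real.log X := by
  have h1 : ∑ l ∈ S, 1 / (l : ℝ) ≤ ∑ l ∈ Icc 1 X, 1 / (l : ℝ) := by
    refine Finset.sum_le_sum_of_subset_of_nonneg (fun l hl => ?_) fun _ _ _ => by positivity
    rw [mem_Icc]
    exact ⟨(hS l hl).1, (hS l hl).2.trans hD⟩
  refine h1.trans ?_
  have h2 := harmonic_le_one_add_log X
  rw [harmonic_eq_sum_Icc] at h2
  push_cast at h2
  simp only [one_div]
  exact h2

theorem lam_iw (X q D : ℕ) (S : Finset ℕ) (γ : ℕ → ℕ → ℝ) (R x σ : ℝ) (hX : 1 ≤ X) (hq : 1 ≤ q)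
    (hD : D ≤ X) (hS : ∀ l ∈ S, 1 ≤ l ∧ l ≤ D) (hR : 0 ≤ R) (h : ∀ l ∈ S, BVw X R (γ l)) :
    ‖∑ l ∈ S, iw X (l * q) (γ l) (σ * x)‖ ≤ R * (1 + Real.log X) * X / q := by
  have hq0 : (0 : ℝ) < q := by exact_mod_cast hq
  have h1 : ‖∑ l ∈ S, iw X (l * q) (γ l) (σ * x)‖ ≤ ∑ l ∈ S, R * X / q * (1 / (l : ℝ)) := by
    refine norm_sum_le_of_le _ fun l hl => ?_
    have hl0 : (0 : ℝ) < l := by exact_mod_cast (hS l hl).1
    refine (iw_triv X (l * q) (γ l) R (σ * x) (Nat.mul_pos (hS l hl).1 hq) hR (h l hl)).trans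
      (le_of_eq ?_)
    push_cast
    field_simp
  refine h1.trans ?_
  rw [← Finset.mul_sum]
  have h2 := pliw_harm X D S hD hS
  calc R * X / q * ∑ l ∈ S, 1 / (l : ℝ) ≤ R * X / q * (1 + Real.log X) :=
        mul_le_mul_of_nonneg_left h2 (by positivity)
    _ = R * (1 + Real.log X) * X / q := by ring

theorem lam_iw_large (X q D : ℕ) (S : Finset ℕ) (γ : ℕ → ℕ → ℝ) (R x σ : ℝ) (hX : 1 ≤ X)
    (hq : 1 ≤ q) (hD : D ≤ X) (hS : ∀ l ∈ S, 1 ≤ l ∧ l ≤ D) (hR : 0 ≤ R)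
    (h : ∀ l ∈ S, BVw X R (γ l)) (hσ : σ = 1 ∨ σ = -1) (hx : 0 < x)
    (hDq : 4 * (D : ℝ) * q * x ≤ 1) :
    ‖∑ l ∈ S, iw X (l * q) (γ l) (σ * x)‖ ≤ R * (1 + Real.log X) / (q * x) := by
  have hq0 : (0 : ℝ) < q := by exact_mod_cast hq
  have h1 : ‖∑ l ∈ S, iw X (l * q) (γ l) (σ * x)‖ ≤ ∑ l ∈ S, R / (q * x) * (1 / (l : ℝ)) := by
    refine norm_sum_le_of_le _ fun l hl => ?_
    have hl0 : (0 : ℝ) < l := by exact_mod_cast (hS l hl).1
    have hlD : (l : ℝ) ≤ D := by exact_mod_cast (hS l hl).2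
    refine (iw_le X (l * q) (γ l) R (σ * x) (Nat.mul_pos (hS l hl).1 hq) hR (h l hl)).trans ?_
    have hpos : 0 < (l : ℝ) * q * x := by positivity
    have hle : (l : ℝ) * q * x ≤ 1 / 4 := by
      have : (l : ℝ) * q * x ≤ D * q * x := by gcongr
      linarith
    have habs : |((l * q : ℕ) : ℝ) * (σ * x)| = (l : ℝ) * q * x := by
      rcases hσ with rfl | rfl
      · rw [one_mul]
        push_cast
        rw [abs_of_pos hpos]
      · have e1 : ((l * q : ℕ) : ℝ) * (-1 * x) = -((l : ℝ) * q * x) := by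
          push_cast
          ring
        rw [e1, abs_neg, abs_of_pos hpos]
    have hnrm : L2G.nrm (((l * q : ℕ) : ℝ) * (σ * x)) = (l : ℝ) * q * x := by
      unfold L2G.nrm
      have hr : round (((l * q : ℕ) : ℝ) * (σ * x)) = 0 := by
        rw [round_eq_zero_iff, Set.mem_Ico]
        have h2 : |((l * q : ℕ) : ℝ) * (σ * x)| ≤ 1 / 4 := by
          rw [habs]
          exact hle
        have h3 := abs_le.1 h2
        constructor <;> linarith [h3.1, h3.2]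
      rw [hr, Int.cast_zero, sub_zero, habs]
    have hmn : L2G.mn ((X : ℝ) / (l * q : ℕ)) (((l * q : ℕ) : ℝ) * (σ * x)) ≤
        1 / (2 * ((l : ℝ) * q * x)) := by
      unfold L2G.mn
      rw [hnrm]
      split_ifs with h4
      · rw [le_div_iff₀ (by positivity)]
        linarith
      · exact le_rfl
    calc 2 * R * L2G.mn ((X : ℝ) / (l * q : ℕ)) (((l * q : ℕ) : ℝ) * (σ * x))
        ≤ 2 * R * (1 / (2 * ((l : ℝ) * q * x))) :=
          mul_le_mul_of_nonneg_left hmn (by positivity)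
      _ = R / (q * x) * (1 / (l : ℝ)) := by field_simp
  refine h1.trans ?_
  rw [← Finset.mul_sum]
  have h2 := pliw_harm X D S hD hS
  calc R / (q * x) * ∑ l ∈ S, 1 / (l : ℝ) ≤ R / (q * x) * (1 + Real.log X) :=
        mul_le_mul_of_nonneg_left h2 (by positivity)
    _ = R * (1 + Real.log X) / (q * x) := by ring

end Pool.MP_dd84fd_nt.HXP
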