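import Pool.Agent.Lib.MP_dd84fd_nt.HX.PlIw

/-!
# PL_H-TI: type I sums at points of the arcs, terms which are not multiples of the denominator

`r = q/g`, `θ = a/q + σx`.  For `l ∈ S`: `lgθ ≡ la/r + σlgx`, `nrm(la/r) ≥ 1/r` (`r ∤ l`, `(a,r) = 1`),
`|lgx| ≤ Dgx ≤ g/(4q) = 1/(4r) ≤ nrm(la/r)/4`, so `nrm(lgθ) ≥ (3/4) nrm(la/r)` and
`mn(X/(lg), lgθ) ≤ 1/(2 nrm(lgθ)) ≤ (4/3) · 1/(2 nrm(la/r)) = (4/3) mn(r, la/r)` (`2 r nrm(la/r) ≥ 2 > 1`).
`iw_le`, then `L2G.min_sum` with `α = a/r`, `c = a`, `Y = D`, `M = r`: `∑_{l ≤ D} mn(r, la/r) ≤ C (D/r + 1)(r + r(1 + log r))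
≤ 2C (D + q)(1 + log q)`.  (`S ⊆ Icc 1 D`, the terms are `≥ 0`.)  If `r = 1` then `S = ∅`.
-/

set_option autoImplicit false

namespace Pool.MP_dd84fd_nt.HXP

open Finset Pool.MP_67663b_nt.Odd Pool.MP_dd84fd_nt.PL Pool.MP_dd84fd_nt.HX

private theorem plti_nrm_frac (z : ℤ) (k : ℕ) (hk : 1 ≤ k) (h : ¬ (k : ℤ) ∣ z) :
    1 / (k : ℝ) ≤ L2G.nrm ((z : ℝ) / k) := by
  have hk0 : (0 : ℝ) < k := by exact_mod_cast hk
  unfold L2G.nrm
  set N : ℤ := round ((z : ℝ) / k) with hN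
  have h1 : (z : ℝ) / k - N = ((z - N * k : ℤ) : ℝ) / k := by
    push_cast
    field_simp
  have h2 : z - N * k ≠ 0 := by
    intro h0
    apply h
    exact ⟨N, by linarith⟩
  have h3 : (1 : ℝ) ≤ |((z - N * k : ℤ) : ℝ)| := by
    have := Int.one_le_abs h2
    exact_mod_cast this
  rw [h1, abs_div, abs_of_pos hk0]
  exact div_le_div_of_nonneg_right h3 hk0.le

private theorem plti_nrm_add (x δ : ℝ) : L2G.nrm x - |δ| ≤ L2G.nrm (x + δ) := by
  unfold L2G.nrm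
  have h1 : |x - round x| ≤ |x - round (x + δ)| := round_le x _
  have h2 : |x - round (x + δ)| ≤ |x + δ - round (x + δ)| + |δ| := by
    have : x - round (x + δ) = (x + δ - round (x + δ)) - δ := by ring
    rw [this]
    exact abs_sub _ _
  linarith

private theorem plti_mn_le (M x : ℝ) (hx : 0 < L2G.nrm x) : L2G.mn M x ≤ 1 / (2 * L2G.nrm x) := by
  unfold L2G.mn
  split_ifs with h
  · rw [le_div_iff₀ (by positivity)]
    linarith
  · exact le_rfl

private theorem plti_mn_nonneg {M : ℝ} (hM : 0 ≤ M) (x : ℝ) : 0 ≤ L2G.mn M x := by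
  unfold L2G.mn
  split_ifs with h
  · exact hM
  · have : 0 ≤ L2G.nrm x := abs_nonneg _
    positivity

theorem ti_rest : ∃ C : ℝ, 0 < C ∧ ∀ (X q a g D : ℕ) (S : Finset ℕ) (γ : ℕ → ℕ → ℝ) (R x σ : ℝ),
    1 ≤ q → Nat.Coprime a q → g ∣ q → (∀ l ∈ S, 1 ≤ l ∧ l ≤ D ∧ ¬ (q / g) ∣ l) →
    (σ = 1 ∨ σ = -1) → 0 ≤ x → 4 * (D : ℝ) * q * x ≤ 1 → 0 ≤ R → (∀ l ∈ S, BVw X R (γ l)) →
    ‖∑ l ∈ S, iw X (l * g) (γ l) ((a : ℝ) / q + σ * x)‖ ≤
      C * R * ((D : ℝ) + q) * (1 + Real.log q) := by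
  obtain ⟨C0, hC0, hmin⟩ := L2G.min_sum
  refine ⟨6 * C0, by positivity, ?_⟩
  intro X q a g D S γ R x σ hq haq hgq hS hσ hx hDq hR hγ
  obtain ⟨r, hr⟩ := hgq
  have hg1 : 1 ≤ g := by
    rcases Nat.eq_zero_or_pos g with h0 | h0
    · rw [h0, zero_mul] at hr
      omega
    · exact h0
  have hr1 : 1 ≤ r := by
    rcases Nat.eq_zero_or_pos r with h0 | h0
    · rw [h0, mul_zero] at hr
      omega
    · exact h0
  have hqg : q / g = r := by
    rw [hr]
    exact Nat.mul_div_cancel_left r (by omega)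
  rw [hqg] at hS
  have hgR : (0 : ℝ) < g := by exact_mod_cast hg1
  have hrR : (0 : ℝ) < r := by exact_mod_cast hr1
  have hqR : (q : ℝ) = g * r := by exact_mod_cast hr
  have hq1R : (1 : ℝ) ≤ q := by exact_mod_cast hq
  have har : Nat.Coprime a r := Nat.Coprime.coprime_dvd_right ⟨g, by rw [hr, mul_comm]⟩ haq
  -- the single terms
  have hterm : ∀ l ∈ S, ‖iw X (l * g) (γ l) ((a : ℝ) / q + σ * x)‖ ≤
      8 / 3 * R * L2G.mn r ((l : ℝ) * ((a : ℝ) / r)) := by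
    intro l hl
    obtain ⟨hl1, hlD, hnd⟩ := hS l hl
    have hlR : (1 : ℝ) ≤ l := by exact_mod_cast hl1
    have hlDR : (l : ℝ) ≤ D := by exact_mod_cast hlD
    have h1 := iw_le X (l * g) (γ l) R ((a : ℝ) / q + σ * x) (Nat.mul_pos hl1 hg1) hR (hγ l hl)
    set v : ℝ := (l : ℝ) * ((a : ℝ) / r) with hv
    have hθ : ((l * g : ℕ) : ℝ) * ((a : ℝ) / q + σ * x) = v + σ * ((l : ℝ) * g * x) := by
      rw [hv, hqR]
      push_cast
      field_simp
    have hvn : 1 / (r : ℝ) ≤ L2G.nrm v := by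
      have h2 : v = (((l * a : ℕ) : ℤ) : ℝ) / r := by
        rw [hv]
        push_cast
        ring
      rw [h2]
      apply plti_nrm_frac _ _ hr1
      intro h3
      have h4 : r ∣ l * a := by exact_mod_cast h3
      exact hnd ((Nat.Coprime.dvd_mul_right har.symm).1 h4)
    have hw : |σ * ((l : ℝ) * g * x)| ≤ 1 / (4 * r) := by
      have h5 : |σ| = 1 := by
        rcases hσ with h | h <;> rw [h] <;> simp
      rw [abs_mul, h5, one_mul, abs_of_nonneg (by positivity), le_div_iff₀ (by positivity)]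
      calc (l : ℝ) * g * x * (4 * r) = 4 * l * (g * r) * x := by ring
        _ ≤ 4 * D * (g * r) * x := by gcongr
        _ = 4 * D * q * x := by rw [hqR]
        _ ≤ 1 := hDq
    have hvpos : 0 < L2G.nrm v := lt_of_lt_of_le (by positivity) hvn
    have hu : 3 / 4 * L2G.nrm v ≤ L2G.nrm (v + σ * ((l : ℝ) * g * x)) := by
      have h6 := plti_nrm_add v (σ * ((l : ℝ) * g * x))
      have h7 : 1 / (4 * (r : ℝ)) = 1 / 4 * (1 / r) := by
        field_simp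
      rw [h7] at hw
      linarith
    have hmnr : L2G.mn r v = 1 / (2 * L2G.nrm v) := by
      unfold L2G.mn
      rw [if_neg]
      intro h8
      have h9 : 1 ≤ L2G.nrm v * r := by
        rwa [div_le_iff₀ hrR] at hvn
      linarith
    rw [hθ] at h1
    have h10 : L2G.mn ((X : ℝ) / ((l * g : ℕ) : ℝ)) (v + σ * ((l : ℝ) * g * x)) ≤
        4 / 3 * L2G.mn r v := by
      refine (plti_mn_le _ _ (lt_of_lt_of_le (by positivity) hu)).trans ?_
      rw [hmnr]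
      have h11 : 1 / (2 * L2G.nrm (v + σ * ((l : ℝ) * g * x))) ≤
          1 / (2 * (3 / 4 * L2G.nrm v)) := by
        apply one_div_le_one_div_of_le (by positivity)
        linarith
      refine h11.trans (le_of_eq ?_)
      field_simp
    calc ‖iw X (l * g) (γ l) ((a : ℝ) / q + σ * x)‖ ≤
          2 * R * L2G.mn ((X : ℝ) / ((l * g : ℕ) : ℝ)) (v + σ * ((l : ℝ) * g * x)) := h1
      _ ≤ 2 * R * (4 / 3 * L2G.mn r v) := by gcongr
      _ = 8 / 3 * R * L2G.mn r v := by ring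
  have hlogq : 0 ≤ Real.log q := Real.log_nonneg hq1R
  have hrq : (r : ℝ) ≤ q := by
    rw [hqR]
    have : (1 : ℝ) ≤ g := by exact_mod_cast hg1
    nlinarith
  have hlogr : Real.log r ≤ Real.log q := Real.log_le_log hrR hrq
  have hlogr0 : 0 ≤ Real.log r := Real.log_nonneg (by exact_mod_cast hr1)
  have hm := hmin ((a : ℝ) / r) (a : ℤ) r hr1 (Nat.isCoprime_iff_coprime.2 har)
    (by rw [Int.cast_natCast, sub_self, abs_zero]; positivity) D r (by exact_mod_cast hr1)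
  calc ‖∑ l ∈ S, iw X (l * g) (γ l) ((a : ℝ) / q + σ * x)‖ ≤
        ∑ l ∈ S, ‖iw X (l * g) (γ l) ((a : ℝ) / q + σ * x)‖ := norm_sum_le _ _
    _ ≤ ∑ l ∈ S, 8 / 3 * R * L2G.mn r ((l : ℝ) * ((a : ℝ) / r)) := sum_le_sum hterm
    _ ≤ ∑ l ∈ Icc 1 D, 8 / 3 * R * L2G.mn r ((l : ℝ) * ((a : ℝ) / r)) := by
        refine sum_le_sum_of_subset_of_nonneg ?_ ?_
        · intro l hl
          obtain ⟨hl1, hlD, _⟩ := hS l hl
          exact mem_Icc.2 ⟨hl1, hlD⟩
        · intro l _ _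
          have := plti_mn_nonneg hrR.le ((l : ℝ) * ((a : ℝ) / r))
          positivity
    _ = 8 / 3 * R * ∑ l ∈ Icc 1 D, L2G.mn r ((l : ℝ) * ((a : ℝ) / r)) := by
        rw [mul_sum]
    _ ≤ 8 / 3 * R * (C0 * ((D : ℝ) / r + 1) * (r + r * (1 + Real.log r))) := by gcongr
    _ = 8 / 3 * R * C0 * ((D : ℝ) + r) * (2 + Real.log r) := by
        field_simp
        ring
    _ ≤ 8 / 3 * R * C0 * ((D : ℝ) + q) * (2 * (1 + Real.log q)) := by
        gcongr
        linarith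
    _ = 16 / 3 * C0 * R * ((D : ℝ) + q) * (1 + Real.log q) := by ring
    _ ≤ 6 * C0 * R * ((D : ℝ) + q) * (1 + Real.log q) := by
        gcongr
        norm_num

/-- the point `σx` in place of `a/q + σx` for multiples of `q` -/
theorem iw_shift (X l q a : ℕ) (hq : 1 ≤ q) (γ : ℕ → ℝ) (x σ : ℝ) :
    iw X (l * q) γ ((a : ℝ) / q + σ * x) = iw X (l * q) γ (σ * x) := by
  unfold iw
  have hqR : (q : ℝ) ≠ 0 := by
    have : (0 : ℝ) < q := by exact_mod_cast hq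
    exact this.ne'
  refine sum_congr rfl fun k _ => ?_
  have h1 : ((l * q * k : ℕ) : ℝ) * ((a : ℝ) / q + σ * x) =
      ((l * q * k : ℕ) : ℝ) * (σ * x) + (((l * k * a : ℕ) : ℤ) : ℝ) := by
    push_cast
    field_simp
    ring
  rw [h1, ee_add_int]

end Pool.MP_dd84fd_nt.HXP
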