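import Pool.Agent.Lib.MP_dd84fd_nt.HX.Defs
import Pool.Agent.Lib.MP_dd84fd_nt.PL.Defs

/-!
# Theorem H: the interface statements as propositions
(so that the parts can be proved independently of each other; `open HX` and take them as hypotheses)
-/

set_option autoImplicit false

namespace Pool.MP_dd84fd_nt.HX

open Finset Pool.MP_67663b_nt.Odd Pool.MP_dd84fd_nt.En Pool.MP_dd84fd_nt.E2 Pool.MP_dd84fd_nt.LS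
open Pool.MP_dd84fd_nt.L2G (nrm)
open Pool.MP_dd84fd_nt.GX

/-- bounds for `D` and `a` -/
def AnAbs : Prop := ∃ X0 : ℕ, ∀ X : ℕ, X0 ≤ X → ∀ δ : ℝ, 0 < δ → δ ≤ 1 / 2000 → ∀ n ∈ Icc 1 X,
  |Dn δ X n| ≤ 2 ^ 22 * Real.log n * rg (zz X) n ∧ |an δ X n| ≤ 2 ^ 22 * rg (zz X) n

/-- Proposition 1 -/
def Dec1 : Prop := ∀ B : ℕ, ∃ C : ℕ, ∀ δ : ℝ, 0 < δ → δ ≤ 1 / 2000 → ∃ X0 : ℕ, ∀ X : ℕ, X0 ≤ X →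
  ∃ (α β : ℕ → ℝ) (I : ℕ) (a c : ℕ → ℕ → ℝ) (err : ℕ → ℝ),
    (∀ l, |α l| ≤ 1 ∧ |β l| ≤ 2 * Real.log X) ∧
    (∀ l : ℕ, (X : ℝ) ^ (2 / 5 : ℝ) < l → α l = 0 ∧ β l = 0) ∧
    (I : ℝ) ≤ (Real.log X) ^ C ∧
    (∀ i n, |a i n| ≤ (Real.log X) ^ 2 ∧ |c i n| ≤ (Real.log X) ^ 2) ∧
    (∀ i m, a i m ≠ 0 → Uu δ X < m ∧ (m : ℝ) ≤ y2 δ X) ∧
    (∀ n ∈ Icc 1 X, aL δ X n = ∑ l ∈ n.divisors, (α l * Real.log n + β l) +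
      ∑ i ∈ range I, ∑ m ∈ n.divisors, a i m * c i (n / m) + err n) ∧
    ∑ n ∈ Icc 1 X, err n ^ 2 ≤ X / (Real.log X) ^ B

/-- Proposition 1' (blocks) -/
def Dec2 : Prop := ∀ B : ℕ, ∃ C : ℕ, ∀ δ : ℝ, 0 < δ → δ ≤ 1 / 2000 → ∃ X0 : ℕ, ∀ X : ℕ, X0 ≤ X →
  ∃ (α β : ℕ → ℝ) (I : ℕ) (M : ℕ → ℝ) (K : ℕ → ℕ) (a c : ℕ → ℕ → ℝ) (err : ℕ → ℝ),
    (∀ l, |α l| ≤ 1 ∧ |β l| ≤ 2 * Real.log X) ∧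
    (∀ l : ℕ, (X : ℝ) ^ (2 / 5 : ℝ) < l → α l = 0 ∧ β l = 0) ∧
    (I : ℝ) ≤ (Real.log X) ^ C ∧
    (∀ i n, |a i n| ≤ (Real.log X) ^ 2 ∧ |c i n| ≤ (Real.log X) ^ 2) ∧
    (∀ i, (Uu δ X : ℝ) ≤ M i ∧ M i ≤ y2 δ X ∧ (K i : ℝ) * M i ≤ X) ∧
    (∀ i m, a i m ≠ 0 → M i < m ∧ (m : ℝ) ≤ 2 * M i) ∧
    (∀ i m, a i m ≠ 0 → (m : ℝ) * K i ≤ X) ∧
    (∀ n ∈ Icc 1 X, an δ X n = ∑ l ∈ n.divisors, (α l + β l / Real.log n) +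
      ∑ i ∈ range I, ∑ m ∈ n.divisors, (if n / m ≤ K i then a i m * c i (n / m) else 0) +
      err n) ∧
    ∑ n ∈ Icc 1 X, err n ^ 2 ≤ X / (Real.log X) ^ B

/-- bounds for the density `w_D` -/
def WDabs : Prop := ∃ (C : ℝ) (X0 : ℕ), ∀ X : ℕ, X0 ≤ X → ∀ δ : ℝ, 0 < δ → δ ≤ 1 / 2000 →
  (∀ n ∈ Icc 1 X, |wD δ X n| ≤ C) ∧ ∑ n ∈ Ico 1 X, |wD δ X (n + 1) - wD δ X n| ≤ C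

/-- closeness on the major arcs -/
def MajH : Prop := ∀ A B : ℕ, ∃ D0 : ℕ, ∀ D' : ℕ, D0 ≤ D' → ∀ δ : ℝ, 0 < δ → δ ≤ 1 / 2000 →
  ∃ X0 : ℕ, ∀ X : ℕ, X0 ≤ X → ∀ θ : ℝ, Ht ((Real.log X) ^ B) X θ →
    ‖WH (-1) δ (wX D' X) X θ‖ ≤ X / (Real.log X) ^ A

/-- main term -/
def MainH : Prop := ∃ (C : ℝ) (D0 : ℕ), ∀ δ : ℝ, 0 < δ → δ ≤ 1 / 2000 → ∀ D' : ℕ, D0 ≤ D' →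
  ∃ X0 : ℕ, ∀ X : ℕ, X0 ≤ X → ∀ n : ℕ, X < 2 * n → n ≤ X → Even n →
    |cvv (fa δ X (wX D' X)) (fa δ X (wX D' X)) n - SS n * JJ n| ≤
      C * (δ + 1 / Real.log X) * (SS n * JJ n) + X / (Real.log X) ^ 10

/-- the gap functions are small pointwise -/
def GapH : Prop := ∃ C : ℝ, ∀ δ : ℝ, 0 < δ → δ ≤ 1 / 2000 → ∃ X0 : ℕ, ∀ X : ℕ, X0 ≤ X →
  ∀ n : ℕ, X < 2 * n → n ≤ X → Even n →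
    |(g n : ℝ) - cvv (an δ X) (an δ X) n| ≤
      C * (δ + 1 / Real.log X) * (SS n * n / (Real.log X) ^ 2) + (X : ℝ) ^ (1 - δ / 2)

/-- the reduction to type I and type II sums -/
def RedH : Prop := ∀ A : ℕ, ∃ C : ℕ, ∀ δ : ℝ, 0 < δ → δ ≤ 1 / 2000 → ∀ D' : ℕ, 1 ≤ D' →
  ∃ X0 : ℕ, ∀ X : ℕ, X0 ≤ X → ∀ (F : ℕ → ℂ) (B1 B2 B3 B4 : ℝ), TIH X F B1 → TIIH δ X F B2 →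
    ∑ n ∈ Icc 1 X, ‖F n‖ ^ 2 ≤ B3 ^ 2 → (∀ n, ‖F n‖ ≤ B4) → 0 ≤ B3 →
    ‖∑ n ∈ Icc 1 X, ((um δ X (wX D' X) n : ℝ) : ℂ) * F n‖ ≤
      (Real.log X) ^ C * (B1 + B2 + Real.sqrt X * B4) + Real.sqrt X * B3 / (Real.log X) ^ A

/-- the structure theorem -/
def StH : Prop := ∀ (A CV : ℕ) (δ η : ℝ), 0 < δ → δ ≤ 1 / 2000 → 0 < η → η ≤ δ → ∀ D' : ℕ, 1 ≤ D' →
  ∃ X0 : ℕ, ∀ X : ℕ, X0 ≤ X → ∀ (G : ℕ) [NeZero G], 3 * X ≤ G → ∀ V : ZMod G → ℂ,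
    VBH G X CV V → ∀ ω : ZMod G → ℂ, (∀ j, ‖ω j‖ ≤ 1) → ∀ E : Finset ℕ, E ⊆ Icc 1 X →
    (X : ℝ) ^ (1 / 2 - 2 * δ) ≤ E.card → ∀ e : ℕ → ℂ, (∀ n, ‖e n‖ ≤ 1) →
    NoAPH G δ X ω E ((X : ℝ) ^ (-η)) →
    ‖∑ n ∈ E, e n * PhH G δ X (wX D' X) V ω n‖ ≤ X * E.card / (Real.log X) ^ A

/-- the tree theorem -/
def TreeH : Prop := ∀ (A CV : ℕ) (δ : ℝ), 0 < δ → δ ≤ 1 / 2000 → ∀ D' : ℕ, 1 ≤ D' →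
  ∃ X0 : ℕ, ∀ X : ℕ, X0 ≤ X → ∀ (G : ℕ) [NeZero G], 3 * X ≤ G → ∀ V : ZMod G → ℂ,
    VBH G X CV V → ∀ B : Finset ℕ, B ⊆ Icc 1 X →
    (∀ n ∈ B, ∀ (Λ : ℕ) (bb : ℝ), 1 ≤ Λ → 1 ≤ bb →
      (Λ : ℝ) * bb ≤ 2 * (X : ℝ) ^ (1 / 2 + 2 * δ) →
      (X : ℝ) / (Real.log X) ^ A < ‖PhH G δ X (wX D' X) V (wS G δ X Λ bb) n‖) →
    (B.card : ℝ) ≤ (X : ℝ) ^ (1 / 2 - δ)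

open Pool.MP_dd84fd_nt.PL (rr)

/-- the pointwise lemma -/
def PlH : Prop := ∀ A : ℕ, ∃ K1 K2 : ℕ, ∀ (δ : ℝ) (D' A0 : ℕ), 0 < δ → δ ≤ 1 / 2000 → 1 ≤ D' →
  ∃ X0 : ℕ, ∀ X : ℕ, X0 ≤ X → ∀ n : ℕ, X < 2 * n → n ≤ X →
    ∀ (QQ : Finset ℕ) (N b : ℝ) (bq : ℕ → ℝ), (∀ q ∈ QQ, 1 ≤ q ∧ b ≤ bq q ∧ bq q ≤ 2 * b) →
    (∀ q ∈ QQ, ∀ q' ∈ QQ, (Nat.lcm q q' : ℝ) ≤ N) → (QQ.card : ℝ) ≤ (X : ℝ) ^ (1 / 50 : ℝ) →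
    1 / (Real.log X) ^ A0 ≤ b → N * b ≤ (X : ℝ) ^ (1 / 2 + 5 / 2 * δ) →
    ((Real.log X) ^ K2 < b ∨ ∀ q ∈ QQ, (Real.log X) ^ K1 * (Nat.gcd q n : ℝ) < q) →
    ∑ q ∈ QQ, ‖∑ a ∈ rr q,
      ((∫ x in (bq q / X)..(2 * bq q / X), FFH δ (wX D' X) X n ((a : ℝ) / q + x)) +
      ∫ x in (bq q / X)..(2 * bq q / X), FFH δ (wX D' X) X n ((a : ℝ) / q - x))‖ ≤
      X / (Real.log X) ^ A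

/-- greedy -/
def GreedyH : Prop := ∀ A K1 K2 : ℕ, ∃ C : ℕ, ∀ (K : ℕ) (δ : ℝ), 0 < δ → δ ≤ 1 / 2000 →
  ∃ D0 : ℕ, ∀ D' : ℕ, D0 ≤ D' → ∃ X0 : ℕ, ∀ X : ℕ, X0 ≤ X → ∃ D : Finset ℕ,
    (D.card : ℝ) ≤ (Real.log X) ^ C ∧
    (∀ d ∈ D, (Real.log X) ^ K ≤ (d : ℝ) ∧ (d : ℝ) ≤ (X : ℝ) ^ (1 / 2 + 3 * δ)) ∧
    ∀ n ∈ Icc 1 X, (∀ d ∈ D, ¬ d ∣ n) → ∀ (QQ : Finset ℕ) (N : ℝ),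
      (∀ q ∈ QQ, 1 ≤ q ∧ (q : ℝ) ≤ (Real.log X) ^ K1 * (Nat.gcd q n : ℝ)) →
      (∀ q ∈ QQ, ∀ q' ∈ QQ, (Nat.lcm q q' : ℝ) ≤ N) → N ≤ (X : ℝ) ^ (1 / 2 + 5 / 2 * δ) →
      ∑ q ∈ QQ, ∑ a ∈ rr q, ∫ x in (-(2 * (Real.log X) ^ K2) / X)..(2 * (Real.log X) ^ K2 / X),
        ‖WH (-1) δ (wX D' X) X ((a : ℝ) / q + x)‖ * ‖WH 1 δ (wX D' X) X ((a : ℝ) / q + x)‖ ≤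
        X / (Real.log X) ^ A

/-- centre -/
def CentreH : Prop := ∀ A : ℕ, ∃ A0 : ℕ, ∀ (δ : ℝ) (D' : ℕ), 0 < δ → δ ≤ 1 / 2000 → 1 ≤ D' →
  ∃ X0 : ℕ, ∀ X : ℕ, X0 ≤ X → ∀ (QQ : Finset ℕ) (N : ℝ), (∀ q ∈ QQ, 1 ≤ q) →
    (∀ q ∈ QQ, ∀ q' ∈ QQ, (Nat.lcm q q' : ℝ) ≤ N) → N ≤ X →
    ∑ q ∈ QQ, ∑ a ∈ rr q, ∫ x in (-(1 / (Real.log X) ^ A0) / X)..(1 / (Real.log X) ^ A0 / X),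
      ‖WH (-1) δ (wX D' X) X ((a : ℝ) / q + x)‖ * ‖WH 1 δ (wX D' X) X ((a : ℝ) / q + x)‖ ≤
      X / (Real.log X) ^ A

end Pool.MP_dd84fd_nt.HX
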