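import Pool.Agent.Lib.MP_dd84fd_nt.HX.Defs
import Pool.Agent.Lib.MP_dd84fd_nt.PL.Defs

/-!
# Theorem H, assembly: definitions
-/

set_option autoImplicit false

namespace Pool.MP_dd84fd_nt.HX

open Finset Pool.MP_67663b_nt.Odd Pool.MP_dd84fd_nt.En Pool.MP_dd84fd_nt.E2 Pool.MP_dd84fd_nt.LS
  Pool.MP_dd84fd_nt.GX

open Pool.MP_dd84fd_nt.L2G (nrm)

open Pool.MP_dd84fd_nt.PL (rr)

open Classical in
/-- the denominators of the discs: `lcm(Λ, q) ≤ X^(δ/10) Λ` -/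
noncomputable def QQd (δ : ℝ) (X Λ : ℕ) : Finset ℕ :=
  (Icc 1 ⌊y3 δ X⌋₊).filter (fun q : ℕ => (Nat.lcm Λ q : ℝ) ≤ (X : ℝ) ^ (δ / 10) * Λ)

/-- `X` times the radius of the discs with denominator `q` -/
noncomputable def rd (δ : ℝ) (X Λ : ℕ) (bb : ℝ) (q : ℕ) : ℝ :=
  min ((X : ℝ) ^ (δ / 10) * Λ * bb / (Nat.lcm Λ q : ℝ)) (y3 δ X / q)

open Classical in
/-- indicator function of the disc with centre `c` and radius `r` modulo 1 -/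
noncomputable def din (c r α : ℝ) : ℂ := if ∃ z : ℤ, |α - c - z| ≤ r then 1 else 0

/-- the integral over the disc of radius `v/X` around the reduced fractions with denominator `q` -/
noncomputable def dsc (F : ℝ → ℂ) (X q : ℕ) (v : ℝ) : ℂ :=
  ∑ a ∈ rr q, ∫ x in (-(v / X))..(v / X), F ((a : ℝ) / q + x)

/-- the integral over the annuli `u/X ≤ |x| ≤ v/X` around the reduced fractions with denominator `q` -/
noncomputable def ann (F : ℝ → ℂ) (X q : ℕ) (u v : ℝ) : ℂ :=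
  ∑ a ∈ rr q, ((∫ x in (u / X)..(v / X), F ((a : ℝ) / q + x)) +
    ∫ x in (u / X)..(v / X), F ((a : ℝ) / q - x))

/-- the integral of `|W_-| |W_+|` over the discs of radius `v/X` -/
noncomputable def dscN (δ : ℝ) (w X q : ℕ) (v : ℝ) : ℝ :=
  ∑ a ∈ rr q, ∫ x in (-(v) / X)..(v / X), ‖WH (-1) δ w X ((a : ℝ) / q + x)‖ *
    ‖WH 1 δ w X ((a : ℝ) / q + x)‖

/-- the conclusion of the greedy theorem for one `n` -/
def GoodN (δ : ℝ) (w X n A K1 K2 : ℕ) : Prop :=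
  ∀ (QQ : Finset ℕ) (N : ℝ),
    (∀ q ∈ QQ, 1 ≤ q ∧ (q : ℝ) ≤ (Real.log X) ^ K1 * (Nat.gcd q n : ℝ)) →
    (∀ q ∈ QQ, ∀ q' ∈ QQ, (Nat.lcm q q' : ℝ) ≤ N) → N ≤ (X : ℝ) ^ (1 / 2 + 5 / 2 * δ) →
    ∑ q ∈ QQ, dscN δ w X q (2 * (Real.log X) ^ K2) ≤ X / (Real.log X) ^ A

end Pool.MP_dd84fd_nt.HX
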