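import Pool.Agent.Lib.MP_dd84fd_nt.HX.MjDefs
import Pool.Agent.Lib.MP_dd84fd_nt.E2.ConvMain
import Pool.Agent.Lib.MP_dd84fd_nt.E2.SingRate
import Pool.Agent.Lib.MP_dd84fd_nt.E2.MinorP

/-!
# HX-MnA (0.4 h): the convolution of the model, `conv2 = S(n) J(n) + O(X/L^A)`

Proof. `D0 = A + 4`. `conv2_main (D := D')` with `w = wX D' X` (`2 ≤ w ≤ L^D'` for `X` large): `|conv2 w n - SW w n JJ n| ≤ X^(1-η) ≤ X/(2 L^A)`. `sing_rate`: `|SS n - SW w n| ≤ C (1 + log n)²/w ≤ 8 C L²/L^D'` (`w ≥ L^D'/2`, `4 (1 + log n) ≤ w`), `0 ≤ JJ n ≤ 3 n` (`JJ_le`, `JJ_nonneg`):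
product `≤ 24 C X L^(2-D') ≤ X/(2 L^A)`.
-/

set_option autoImplicit false

namespace Pool.MP_dd84fd_nt.HX

open Finset Pool.MP_67663b_nt.Odd Pool.MP_dd84fd_nt.En Pool.MP_dd84fd_nt.E2 Pool.MP_dd84fd_nt.LS
open Pool.MP_dd84fd_nt.L2G (nrm)
open Pool.MP_dd84fd_nt.GX

theorem conv2_ss (A : ℕ) : ∃ D0 : ℕ, 1 ≤ D0 ∧ ∀ D' : ℕ, D0 ≤ D' → ∃ X0 : ℕ, ∀ X : ℕ, X0 ≤ X →
    ∀ n : ℕ, 1 ≤ n → n ≤ X → Even n →
    |conv2 (wX D' X) n - SS n * JJ n| ≤ X / (Real.log X) ^ A := by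
  obtain ⟨C, hC0, hC⟩ := sing_rate
  refine ⟨A + 4, by omega, fun D' hD' => ?_⟩
  obtain ⟨η, hη0, hη1, X1, hX1⟩ := conv2_main D' (by omega)
  obtain ⟨X2, hX2⟩ := MP_log_pow 2 A hη0
  obtain ⟨X3, hX3⟩ := MP_log_large (48 * C + 16)
  refine ⟨max (max X1 X2) (max X3 1), fun X hX n hn1 hnX hn => ?_⟩
  have hXX1 : X1 ≤ X := ((le_max_left _ _).trans (le_max_left _ _)).trans hX
  have hXX2 : X2 ≤ X := ((le_max_right _ _).trans (le_max_left _ _)).trans hX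
  have hXX3 : X3 ≤ X := ((le_max_left _ _).trans (le_max_right _ _)).trans hX
  have hX1' : 1 ≤ X := ((le_max_right _ _).trans (le_max_right _ _)).trans hX
  have hXr : (1 : ℝ) ≤ X := by exact_mod_cast hX1'
  have hX0 : (0 : ℝ) < X := by linarith
  have hL := hX3 X hXX3
  have hpow := hX2 X hXX2
  set L := Real.log X with hLdef
  have hL16 : 16 ≤ L := by linarith
  have hL1 : 1 ≤ L := by linarith
  have hL0 : 0 < L := by linarith
  set w : ℕ := wX D' X with hw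
  have hwle : (w : ℝ) ≤ L ^ D' := Nat.floor_le (pow_nonneg hL0.le _)
  have hwlt : L ^ D' < (w : ℝ) + 1 := Nat.lt_floor_add_one _
  have hLD : L ^ 2 ≤ L ^ D' := pow_le_pow_right₀ hL1 (by omega)
  have hLL : 16 * L ≤ L ^ 2 := by nlinarith
  have hw2 : L ^ D' / 2 ≤ w := by linarith
  have hwL : 8 * L ≤ w := by linarith
  have hwN : 2 ≤ w := by
    have : (2 : ℝ) ≤ w := by linarith
    exact_mod_cast this
  have hw0 : (0 : ℝ) < w := by linarith
  have hnr : (n : ℝ) ≤ X := by exact_mod_cast hnX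
  have hn1r : (1 : ℝ) ≤ n := by exact_mod_cast hn1
  have hlogn : Real.log n ≤ L := Real.log_le_log (by linarith) hnr
  have hlogn0 : 0 ≤ Real.log n := Real.log_nonneg hn1r
  -- the main term
  have h1 : |conv2 w n - SW w n * JJ n| ≤ (X : ℝ) ^ (1 - η) :=
    hX1 X hXX1 w hwN hwle n hnX hn (by omega)
  have h2 : (X : ℝ) ^ (1 - η) ≤ X / (2 * L ^ A) := by
    rw [le_div_iff₀ (by positivity)]
    calc (X : ℝ) ^ (1 - η) * (2 * L ^ A) ≤ (X : ℝ) ^ (1 - η) * (X : ℝ) ^ η :=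
          mul_le_mul_of_nonneg_left hpow (Real.rpow_nonneg hX0.le _)
      _ = X := by rw [← Real.rpow_add hX0]; norm_num
  -- the singular series
  have h3 : |SS n - SW w n| ≤ C * (1 + Real.log n) ^ 2 / w :=
    hC n (by omega) w (by linarith)
  have h4 : C * (1 + Real.log n) ^ 2 / w ≤ 8 * C * L ^ 2 / L ^ D' := by
    rw [div_le_div_iff₀ hw0 (pow_pos hL0 _)]
    have h5 : (1 + Real.log n) ^ 2 ≤ (2 * L) ^ 2 :=
      pow_le_pow_left₀ (by linarith) (by linarith) 2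
    calc C * (1 + Real.log n) ^ 2 * L ^ D' ≤ C * (2 * L) ^ 2 * (2 * w) := by
          have h6 : L ^ D' ≤ 2 * w := by linarith
          gcongr
      _ = 8 * C * L ^ 2 * w := by ring
  have h5 : |JJ n| ≤ 3 * X := by
    rw [abs_of_nonneg (JJ_nonneg n)]
    exact (JJ_le n).trans (by linarith)
  have h6 : |SS n - SW w n| * |JJ n| ≤ X / (2 * L ^ A) := by
    calc |SS n - SW w n| * |JJ n| ≤ (8 * C * L ^ 2 / L ^ D') * (3 * X) :=
          mul_le_mul (h3.trans h4) h5 (abs_nonneg _) (by positivity)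
      _ ≤ X / (2 * L ^ A) := by
          rw [div_mul_eq_mul_div, div_le_div_iff₀ (pow_pos hL0 _) (by positivity)]
          have h7 : L ^ (A + 4) ≤ L ^ D' := pow_le_pow_right₀ hL1 hD'
          have h8 : 48 * C ≤ L ^ 2 := by nlinarith
          calc 8 * C * L ^ 2 * (3 * X) * (2 * L ^ A) = X * (L ^ 2 * L ^ A * (48 * C)) := by ring
            _ ≤ X * (L ^ 2 * L ^ A * L ^ 2) := by gcongr
            _ = X * L ^ (A + 4) := by ring
            _ ≤ X * L ^ D' := by gcongr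
  have h7 : conv2 w n - SS n * JJ n =
      (conv2 w n - SW w n * JJ n) - (SS n - SW w n) * JJ n := by ring
  rw [h7]
  calc |(conv2 w n - SW w n * JJ n) - (SS n - SW w n) * JJ n|
      ≤ |conv2 w n - SW w n * JJ n| + |(SS n - SW w n) * JJ n| := abs_sub _ _
    _ ≤ X / (2 * L ^ A) + X / (2 * L ^ A) := by
        rw [abs_mul]
        exact add_le_add (h1.trans h2) h6
    _ = X / L ^ A := by field_simp; norm_num

end Pool.MP_dd84fd_nt.HX
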