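import Pool.Agent.Lib.MP_dd84fd_nt.HX.DcDefs

/-!
# HX-DcRg: rough numbers, smooth and rough part
-/

set_option autoImplicit false

namespace Pool.MP_dd84fd_nt.HX

open Finset

theorem rgh_mul_iff (z m k : ℕ) : Rgh z (m * k) ↔ Rgh z m ∧ Rgh z k := by
  unfold Rgh
  constructor
  · rintro ⟨h0, h1⟩
    have hm : m ≠ 0 := left_ne_zero_of_mul h0
    have hk : k ≠ 0 := right_ne_zero_of_mul h0
    rw [Nat.primeFactors_mul hm hk] at h1
    exact ⟨⟨hm, fun p hp => h1 p (mem_union_left _ hp)⟩,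
      ⟨hk, fun p hp => h1 p (mem_union_right _ hp)⟩⟩
  · rintro ⟨⟨hm, h1⟩, ⟨hk, h2⟩⟩
    refine ⟨mul_ne_zero hm hk, fun p hp => ?_⟩
    rw [Nat.primeFactors_mul hm hk] at hp
    rcases mem_union.1 hp with h | h
    · exact h1 p h
    · exact h2 p h

theorem rg_mul (z m k : ℕ) : rg z (m * k) = rg z m * rg z k := by
  unfold rg
  by_cases h1 : Rgh z m
  · by_cases h2 : Rgh z k
    · rw [if_pos h1, if_pos h2, if_pos ((rgh_mul_iff z m k).2 ⟨h1, h2⟩), mul_one]
    · rw [if_neg h2, if_neg (fun h => h2 ((rgh_mul_iff z m k).1 h).2), mul_zero]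
  · rw [if_neg h1, if_neg (fun h => h1 ((rgh_mul_iff z m k).1 h).1), zero_mul]

theorem rg_nonneg (z n : ℕ) : 0 ≤ rg z n ∧ rg z n ≤ 1 := by
  unfold rg
  split_ifs
  · exact ⟨zero_le_one, le_refl _⟩
  · exact ⟨le_refl _, zero_le_one⟩

theorem card_divisors_le_two_pow (n : ℕ) (hn : n ≠ 0) :
    n.divisors.card ≤ 2 ^ ArithmeticFunction.cardFactors n := by
  rw [Nat.card_divisors hn, ArithmeticFunction.cardFactors_eq_sum_factorization,
    Finsupp.sum, ← Finset.prod_pow_eq_pow_sum, Nat.support_factorization]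
  refine Finset.prod_le_prod' fun p _ => ?_
  exact Nat.lt_two_pow_self

theorem rg_divisors : ∃ X0 : ℕ, ∀ X : ℕ, X0 ≤ X → ∀ n ∈ Icc 1 X, Rgh (zz X) n →
    n.divisors.card ≤ 2 ^ 20 := by
  refine ⟨2, fun X hX n hn hr => ?_⟩
  have hn1 := (mem_Icc.1 hn).1
  have hn2 := (mem_Icc.1 hn).2
  have hn0 : n ≠ 0 := by omega
  have hX1 : (1 : ℝ) < (X : ℝ) := by exact_mod_cast hX
  have hX0 : (0 : ℝ) ≤ (X : ℝ) := by linarith
  have hroot : (1 : ℝ) < (X : ℝ) ^ (1 / 20 : ℝ) := Real.one_lt_rpow hX1 (by norm_num)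
  have hz2 : 2 ≤ zz X := by
    unfold zz
    have : 1 < ⌈(X : ℝ) ^ (1 / 20 : ℝ)⌉₊ := by
      rw [Nat.lt_ceil]
      exact_mod_cast hroot
    omega
  have hzX : X ≤ zz X ^ 20 := by
    have h1 : (X : ℝ) ≤ ((zz X : ℕ) : ℝ) ^ 20 := by
      calc (X : ℝ) = ((X : ℝ) ^ (1 / 20 : ℝ)) ^ (20 : ℕ) := by
            rw [← Real.rpow_natCast, ← Real.rpow_mul hX0]
            norm_num
        _ ≤ ((zz X : ℕ) : ℝ) ^ 20 :=
            pow_le_pow_left₀ (by linarith) (Nat.le_ceil _) 20
    exact_mod_cast h1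
  have h3 : zz X ^ ArithmeticFunction.cardFactors n ≤ n := by
    rw [ArithmeticFunction.cardFactors_apply]
    calc zz X ^ n.primeFactorsList.length ≤ n.primeFactorsList.prod := by
          refine List.pow_card_le_prod _ _ fun p hp => ?_
          exact hr.2 p (by rwa [Nat.mem_primeFactors_iff_mem_primeFactorsList])
      _ = n := Nat.prod_primeFactorsList hn0
  have h4 : ArithmeticFunction.cardFactors n ≤ 20 := by
    have : zz X ^ ArithmeticFunction.cardFactors n ≤ zz X ^ 20 := h3.trans (hn2.trans hzX)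
    exact (Nat.pow_le_pow_iff_right (by omega)).1 this
  exact (card_divisors_le_two_pow n hn0).trans (Nat.pow_le_pow_right (by norm_num) h4)

theorem mr_le (n : ℕ) : |mr n| ≤ 1 := by
  unfold mr
  have h := ArithmeticFunction.abs_moebius_le_one (n := n)
  exact_mod_cast h

theorem c1_le (U n : ℕ) : |Pool.BV.c1 U n| ≤ Real.log n := by
  unfold Pool.BV.c1
  calc |∑ z ∈ n.divisorsAntidiagonal.filter (fun z => z.1 ≤ U ∧ z.2 ≤ U),
        ArithmeticFunction.vonMangoldt z.1 * ((ArithmeticFunction.moebius z.2 : ℤ) : ℝ)|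
      ≤ ∑ z ∈ n.divisorsAntidiagonal.filter (fun z => z.1 ≤ U ∧ z.2 ≤ U),
        |ArithmeticFunction.vonMangoldt z.1 * ((ArithmeticFunction.moebius z.2 : ℤ) : ℝ)| :=
        Finset.abs_sum_le_sum_abs _ _
    _ ≤ ∑ z ∈ n.divisorsAntidiagonal.filter (fun z => z.1 ≤ U ∧ z.2 ≤ U),
        ArithmeticFunction.vonMangoldt z.1 := by
        refine Finset.sum_le_sum fun z _ => ?_
        rw [abs_mul, abs_of_nonneg ArithmeticFunction.vonMangoldt_nonneg]
        have h1 : |((ArithmeticFunction.moebius z.2 : ℤ) : ℝ)| ≤ 1 := mr_le z.2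
        exact mul_le_of_le_one_right ArithmeticFunction.vonMangoldt_nonneg h1
    _ ≤ ∑ z ∈ n.divisorsAntidiagonal, ArithmeticFunction.vonMangoldt z.1 :=
        Finset.sum_le_sum_of_subset_of_nonneg (filter_subset _ _)
          (fun _ _ _ => ArithmeticFunction.vonMangoldt_nonneg)
    _ = ∑ i ∈ n.divisors, ArithmeticFunction.vonMangoldt i :=
        Nat.sum_divisorsAntidiagonal (fun a _ => ArithmeticFunction.vonMangoldt a)
    _ = Real.log n := ArithmeticFunction.vonMangoldt_sum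

theorem c2_le (U n : ℕ) : |Pool.BV.c2 U n| ≤ n.divisors.card := by
  unfold Pool.BV.c2
  rw [abs_neg]
  calc |∑ d ∈ n.divisors.filter (fun d => d ≤ U), ((ArithmeticFunction.moebius d : ℤ) : ℝ)|
      ≤ ∑ d ∈ n.divisors.filter (fun d => d ≤ U),
        |((ArithmeticFunction.moebius d : ℤ) : ℝ)| := Finset.abs_sum_le_sum_abs _ _
    _ ≤ ∑ d ∈ n.divisors.filter (fun d => d ≤ U), (1 : ℝ) :=
        Finset.sum_le_sum fun d _ => mr_le d
    _ = ((n.divisors.filter (fun d => d ≤ U)).card : ℝ) := by simp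
    _ ≤ n.divisors.card := by exact_mod_cast card_le_card (filter_subset _ _)

/-- the rough part as a product -/
noncomputable def roP (z n : ℕ) : ℕ :=
  ∏ p ∈ n.primeFactors.filter (fun p => ¬ p < z), p ^ n.factorization p

theorem sm_mul_roP (z n : ℕ) (hn : n ≠ 0) : sm z n * roP z n = n := by
  unfold sm roP
  rw [Finset.prod_filter_mul_prod_filter_not]
  have h := Nat.prod_factorization_pow_eq_self hn
  rw [Finsupp.prod, Nat.support_factorization] at h
  exact h

theorem sm_pos (z n : ℕ) : 0 < sm z n := by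
  unfold sm
  refine Finset.prod_pos fun p hp => ?_
  exact pow_pos (Nat.pos_of_mem_primeFactors (mem_filter.1 hp).1) _

theorem roP_pos (z n : ℕ) : 0 < roP z n := by
  unfold roP
  refine Finset.prod_pos fun p hp => ?_
  exact pow_pos (Nat.pos_of_mem_primeFactors (mem_filter.1 hp).1) _

theorem ro_eq_roP (z n : ℕ) (hn : n ≠ 0) : ro z n = roP z n := by
  unfold ro
  exact Nat.div_eq_of_eq_mul_right (sm_pos z n) (sm_mul_roP z n hn).symm

theorem ro_mul_sm (z n : ℕ) (hn : n ≠ 0) : ro z n * sm z n = n := by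
  rw [ro_eq_roP z n hn, mul_comm]
  exact sm_mul_roP z n hn

theorem prime_dvd_prod_pow {s : Finset ℕ} {f : ℕ → ℕ} (hs : ∀ p ∈ s, p.Prime) {q : ℕ}
    (hq : q.Prime) (h : q ∣ ∏ p ∈ s, p ^ f p) : q ∈ s := by
  obtain ⟨p, hp, hd⟩ := (Prime.dvd_finsetProd_iff hq.prime _).1 h
  have h1 : q ∣ p := hq.dvd_of_dvd_pow hd
  have h2 : q = p := (Nat.prime_dvd_prime_iff_eq hq (hs p hp)).1 h1
  rw [h2]
  exact hp

theorem ro_rgh (z n : ℕ) (hn : n ≠ 0) : Rgh z (ro z n) := by
  rw [ro_eq_roP z n hn]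
  refine ⟨(roP_pos z n).ne', fun q hq => ?_⟩
  have hqp := Nat.prime_of_mem_primeFactors hq
  have h := prime_dvd_prod_pow (s := n.primeFactors.filter (fun p => ¬ p < z))
    (f := fun p => n.factorization p)
    (fun p hp => Nat.prime_of_mem_primeFactors (mem_filter.1 hp).1) hqp
    (Nat.dvd_of_mem_primeFactors hq)
  exact not_lt.1 (mem_filter.1 h).2

theorem sm_smo (z n : ℕ) : Smo z (sm z n) := by
  intro q hq
  have hqp := Nat.prime_of_mem_primeFactors hq
  have h := prime_dvd_prod_pow (s := n.primeFactors.filter (fun p => p < z))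
    (f := fun p => n.factorization p)
    (fun p hp => Nat.prime_of_mem_primeFactors (mem_filter.1 hp).1) hqp
    (Nat.dvd_of_mem_primeFactors hq)
  exact (mem_filter.1 h).2

/-- a rough and a smooth number are coprime -/
theorem rgh_smo_coprime (z c f : ℕ) (hc : Rgh z c) (hf0 : f ≠ 0) (hf : Smo z f) :
    Nat.Coprime c f := by
  rw [← Nat.disjoint_primeFactors hc.1 hf0, Finset.disjoint_left]
  intro p hp1 hp2
  have h1 := hc.2 p hp1
  have h2 := hf p hp2
  omega

theorem ro_sm_unique (z c f : ℕ) (hc : Rgh z c) (hf0 : f ≠ 0) (hf : Smo z f) :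
    ro z (c * f) = c ∧ sm z (c * f) = f := by
  have hcop := rgh_smo_coprime z c f hc hf0 hf
  have hsm : sm z (c * f) = f := by
    have h1 : (c * f).primeFactors.filter (fun p => p < z) = f.primeFactors := by
      rw [Nat.primeFactors_mul hc.1 hf0]
      ext p
      simp only [mem_filter, mem_union]
      constructor
      · rintro ⟨h | h, h2⟩
        · have := hc.2 p h
          omega
        · exact h
      · intro h
        exact ⟨Or.inr h, hf p h⟩
    unfold sm
    rw [h1]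
    have h2 := Nat.prod_factorization_pow_eq_self hf0
    rw [Finsupp.prod, Nat.support_factorization] at h2
    rw [← h2]
    rw [h2]
    refine (Finset.prod_congr rfl fun p hp => ?_).trans h2
    have hpc : ¬ p ∣ c := by
      intro hd
      have hpp := Nat.prime_of_mem_primeFactors hp
      have := hc.2 p (Nat.mem_primeFactors.2 ⟨hpp, hd, hc.1⟩)
      have := hf p hp
      omega
    rw [Nat.factorization_mul_apply_of_coprime hcop, Nat.factorization_eq_zero_of_not_dvd hpc,
      zero_add]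
  refine ⟨?_, hsm⟩
  unfold ro
  rw [hsm]
  exact Nat.mul_div_cancel _ (Nat.pos_of_ne_zero hf0)

end Pool.MP_dd84fd_nt.HX
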