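import Pool.Agent.Lib.MP_dd84fd_nt.HX.GrDefs

/-!
# HX-GrFrac (0.5 h): distances between reduced fractions modulo 1

`fr_dist`: `a/q - a'/q' - z = m / lcm(q,q')` with `m` an integer (`lcm = q u = q' v`, `m = a u - a' v - z lcm`), `m ≠ 0`: otherwise `a/q - a'/q' = z`, both in `[0,1)`, so `z = 0` and
`a/q = a'/q'`, hence `q = q'`, `a = a'` (both reduced; compare the private theorem `ov_dist` in `PL/Overlap.lean`). `rr 1 = {0}`.
`sol_count`: the solutions `a ∈ [0,q)` of `a q' ≡ v mod q`: if there is one, `g = gcd(q,q') ∣ v`, and two solutions differ by a multiple of `q/g`, so there are at most `g ≤ |v|` of them.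
(Injection: `a ↦ a / (q/g)` into `range g`: if `a ≡ a' mod q/g` and `a/(q/g) = a'/(q/g)` then `a = a'`.)
-/

set_option autoImplicit false

namespace Pool.MP_dd84fd_nt.HX

open Finset Pool.MP_67663b_nt.Odd Pool.MP_dd84fd_nt.En Pool.MP_dd84fd_nt.E2 Pool.MP_dd84fd_nt.LS
open Pool.MP_dd84fd_nt.L2G (nrm)
open Pool.MP_dd84fd_nt.GX
open Pool.MP_dd84fd_nt.PL (rr Fam)

theorem fr_dist {q q' a a' : ℕ} (hq : 1 ≤ q) (hq' : 1 ≤ q') (ha : a ∈ rr q) (ha' : a' ∈ rr q')
    (hne : ¬ (q = q' ∧ a = a')) (z : ℤ) :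
    1 / (Nat.lcm q q' : ℝ) ≤ |(a : ℝ) / q - (a' : ℝ) / q' - z| := by
  unfold PL.rr at ha ha'
  rw [mem_filter, mem_range] at ha ha'
  obtain ⟨ha1, ha2⟩ := ha
  obtain ⟨ha1', ha2'⟩ := ha'
  set D : ℕ := Nat.lcm q q' with hD
  have hD0 : 0 < D := Nat.lcm_pos (by omega) (by omega)
  obtain ⟨u, hu⟩ : q ∣ D := Nat.dvd_lcm_left q q'
  obtain ⟨v, hv⟩ : q' ∣ D := Nat.dvd_lcm_right q q'
  have hq0 : (0 : ℝ) < q := by exact_mod_cast hq
  have hq0' : (0 : ℝ) < q' := by exact_mod_cast hq'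
  have hD0r : (0 : ℝ) < D := by exact_mod_cast hD0
  have hur : (D : ℝ) = q * u := by exact_mod_cast hu
  have hvr : (D : ℝ) = q' * v := by exact_mod_cast hv
  have hu0 : (u : ℝ) ≠ 0 := by
    intro h
    rw [h, mul_zero] at hur
    linarith
  have hv0 : (v : ℝ) ≠ 0 := by
    intro h
    rw [h, mul_zero] at hvr
    linarith
  set m : ℤ := (a : ℤ) * u - (a' : ℤ) * v - z * D with hm
  have hdiff : (a : ℝ) / q - (a' : ℝ) / q' - z = (m : ℝ) / D := by
    have e1 : (a : ℝ) / q = a * u / D := by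
      rw [hur]; field_simp
    have e2 : (a' : ℝ) / q' = a' * v / D := by
      rw [hvr]; field_simp
    have e3 : (z : ℝ) = z * D / D := by field_simp
    rw [e1, e2, hm]
    push_cast
    rw [sub_div, sub_div, ← e3]
  have hm0 : m ≠ 0 := by
    intro h0
    apply hne
    rw [h0, Int.cast_zero, zero_div] at hdiff
    have b1 : (a : ℝ) / q < 1 := by
      rw [div_lt_one hq0]; exact_mod_cast ha1
    have b2 : (a' : ℝ) / q' < 1 := by
      rw [div_lt_one hq0']; exact_mod_cast ha1'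
    have b3 : (0 : ℝ) ≤ (a : ℝ) / q := by positivity
    have b4 : (0 : ℝ) ≤ (a' : ℝ) / q' := by positivity
    have hz : z = 0 := by
      have h1 : (z : ℝ) < 1 := by linarith
      have h2 : (-1 : ℝ) < z := by linarith
      have h3 : z < 1 := by exact_mod_cast h1
      have h4 : -1 < z := by exact_mod_cast h2
      omega
    rw [hz, Int.cast_zero, sub_zero] at hdiff
    have h2 : (a : ℝ) / q = (a' : ℝ) / q' := by linarith
    have h3 : a * q' = a' * q := by
      rw [div_eq_div_iff hq0.ne' hq0'.ne'] at h2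
      exact_mod_cast h2
    have h4 : q ∣ q' := by
      have : q ∣ a * q' := ⟨a', by rw [h3]; ring⟩
      exact (Nat.Coprime.dvd_of_dvd_mul_left ha2.symm this)
    have h5 : q' ∣ q := by
      have : q' ∣ a' * q := ⟨a, by rw [← h3]; ring⟩
      exact (Nat.Coprime.dvd_of_dvd_mul_left ha2'.symm this)
    have h6 : q = q' := Nat.dvd_antisymm h4 h5
    refine ⟨h6, ?_⟩
    rw [← h6] at h3
    exact Nat.eq_of_mul_eq_mul_right (by omega) h3
  have hm1 : (1 : ℝ) ≤ |(m : ℝ)| := by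
    have : (1 : ℤ) ≤ |m| := Int.one_le_abs hm0
    exact_mod_cast this
  rw [hdiff, abs_div, abs_of_pos hD0r]
  exact div_le_div_of_nonneg_right hm1 hD0r.le

open Classical in
theorem sol_count (q q' : ℕ) (hq : 1 ≤ q) (hq' : 1 ≤ q') (v : ℤ) (hv : v ≠ 0) :
    ((range q).filter (fun a : ℕ => ∃ b : ℤ, (a : ℤ) * q' - b * q = v)).card ≤ v.natAbs := by
  set S := (range q).filter (fun a : ℕ => ∃ b : ℤ, (a : ℤ) * q' - b * q = v) with hS
  rcases S.eq_empty_or_nonempty with h0 | ⟨a0, ha0⟩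
  · rw [h0, card_empty]
    exact Nat.zero_le _
  set g : ℕ := Nat.gcd q q' with hg
  have hg0 : 0 < g := Nat.gcd_pos_of_pos_left _ (by omega)
  obtain ⟨t, ht⟩ : g ∣ q := Nat.gcd_dvd_left q q'
  obtain ⟨t', ht'⟩ : g ∣ q' := Nat.gcd_dvd_right q q'
  have ht0 : 0 < t := by
    rcases Nat.eq_zero_or_pos t with h | h
    · rw [h, mul_zero] at ht; omega
    · exact h
  have hcop : Nat.Coprime t t' := by
    have h1 := Nat.coprime_div_gcd_div_gcd (m := q) (n := q') hg0
    rw [← hg] at h1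
    have e1 : q / g = t := by
      conv_lhs => rw [ht]
      exact Nat.mul_div_cancel_left t hg0
    have e2 : q' / g = t' := by
      conv_lhs => rw [ht']
      exact Nat.mul_div_cancel_left t' hg0
    rwa [e1, e2] at h1
  -- `g ∣ v`
  have hgv : g ≤ v.natAbs := by
    rw [hS, mem_filter] at ha0
    obtain ⟨-, b, hb⟩ := ha0
    have h1 : (g : ℤ) ∣ v := by
      rw [← hb]
      have e1 : (g : ℤ) ∣ (q : ℤ) := by exact_mod_cast (Nat.gcd_dvd_left q q')
      have e2 : (g : ℤ) ∣ (q' : ℤ) := by exact_mod_cast (Nat.gcd_dvd_right q q')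
      exact dvd_sub (Dvd.dvd.mul_left e2 _) (Dvd.dvd.mul_left e1 _)
    have h2 : g ∣ v.natAbs := Int.natCast_dvd.1 h1
    exact Nat.le_of_dvd (Int.natAbs_pos.2 hv) h2
  refine le_trans ?_ hgv
  rw [← card_range g]
  refine card_le_card_of_injOn (fun a => a / t) ?_ ?_
  · intro a ha
    rw [mem_coe, hS, mem_filter, mem_range] at ha
    rw [mem_coe, mem_range]
    refine Nat.div_lt_of_lt_mul ?_
    rw [mul_comm]
    rw [← ht]
    exact ha.1
  · intro a ha a' ha' h
    rw [mem_coe, hS, mem_filter, mem_range] at ha ha'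
    obtain ⟨-, b, hb⟩ := ha
    obtain ⟨-, b', hb'⟩ := ha'
    simp only at h
    -- `t ∣ a - a'`
    have h1 : ((a : ℤ) - a') * q' = (b - b') * q := by linear_combination hb - hb'
    have h2 : ((a : ℤ) - a') * t' = (b - b') * t := by
      have e1 : (q : ℤ) = g * t := by exact_mod_cast ht
      have e2 : (q' : ℤ) = g * t' := by exact_mod_cast ht'
      rw [e1, e2] at h1
      have hgz : (g : ℤ) ≠ 0 := by exact_mod_cast hg0.ne'
      apply mul_left_cancel₀ hgz
      linear_combination h1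
    have h3 : (t : ℤ) ∣ (a : ℤ) - a' := by
      have h4 : (t : ℤ) ∣ ((a : ℤ) - a') * t' := ⟨b - b', by rw [h2]; ring⟩
      have h5 : IsCoprime (t : ℤ) (t' : ℤ) := Nat.isCoprime_iff_coprime.2 hcop
      exact h5.dvd_of_dvd_mul_right h4
    have h6 : a % t = a' % t := by
      have h7 : (a' : ℤ) ≡ a [ZMOD t] := (Int.modEq_iff_dvd).2 h3
      exact (Int.natCast_modEq_iff.1 h7).symm
    calc a = t * (a / t) + a % t := (Nat.div_add_mod a t).symm
      _ = t * (a' / t) + a' % t := by rw [h, h6]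
      _ = a' := Nat.div_add_mod a' t

end Pool.MP_dd84fd_nt.HX
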