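import Pool.Agent.Lib.MP_dd84fd_nt.HX.MjDefs
import Pool.Agent.Lib.MP_dd84fd_nt.HX.DcRg
import Pool.Agent.Lib.MP_dd84fd_nt.En.BT

/-!
# HX-SvRs (0.6 h): sums of reciprocals of rough numbers

Proof. `z = zz X`, `X^(1/20) ≤ z ≤ X^(1/20) + 1`, `log z ≥ L/20` (`L = log X`); `Rgh z k → Rough (z:ℝ) k` (prime divisors of `k ≠ 0` are prime factors).
`rs_sum`: cover `[A, B]` by the blocks `[2^i A, 2^(i+1) A)`, `0 ≤ i ≤ log_2 (B/A)` (at most `2 (log (B/A) + 1)` blocks). A block is contained in `(2^i A / 2, 2^(i+1) A]` (or use `Ioc ⌊x⌋₊ ⌊x+l⌋₊`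
with `x = 2^i A / 2`, `l = 2 · 2^i A`; `k ≥ 2^i A > x`), which has at most `C l / log z` rough numbers (`En.rough_short`, `√z ≤ A`), each with `1/k ≤ 1/(2^i A)`: at most `40 C / L` per block.
`rs_all`: `k = 1` gives `1`; `1 < k < z`: `rg z k = 0` (a prime factor `≤ k < z`); `k ≥ z ≥ X^(1/20)`: `rs_sum` with `A = X^(1/20)`, `B = X`: `≤ C (L + 1)/L ≤ 2 C`.
-/

set_option autoImplicit false

namespace Pool.MP_dd84fd_nt.HX

open Finset Pool.MP_67663b_nt.Odd Pool.MP_dd84fd_nt.En Pool.MP_dd84fd_nt.E2 Pool.MP_dd84fd_nt.LS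
open Pool.MP_dd84fd_nt.L2G (nrm)
open Pool.MP_dd84fd_nt.GX

open Classical in
/-- one dyadic block -/
private theorem rs_block : ∃ C : ℝ, 0 < C ∧ ∀ X : ℕ, 2 ≤ X → ∀ N : ℕ, ∀ a : ℝ,
    (X : ℝ) ^ (1 / 20 : ℝ) ≤ a →
    ∑ k ∈ (Icc 1 N).filter (fun k : ℕ => a ≤ (k : ℝ) ∧ (k : ℝ) < 2 * a), rg (zz X) k / k ≤
      C / Real.log X := by
  obtain ⟨C, hC, h⟩ := rough_short
  refine ⟨40 * C, by positivity, ?_⟩
  intro X hX N a ha
  have hX1 : (1 : ℝ) < (X : ℝ) := by exact_mod_cast hX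
  have hX0 : (0 : ℝ) < (X : ℝ) := by linarith
  have hL : 0 < Real.log X := Real.log_pos hX1
  have hroot : (1 : ℝ) < (X : ℝ) ^ (1 / 20 : ℝ) := Real.one_lt_rpow hX1 (by norm_num)
  have hz2 : (2 : ℝ) ≤ ((zz X : ℕ) : ℝ) := by
    have h1 : 1 < zz X := by
      unfold zz
      rw [Nat.lt_ceil]
      exact_mod_cast hroot
    exact_mod_cast h1
  have hzl : (X : ℝ) ^ (1 / 20 : ℝ) ≤ ((zz X : ℕ) : ℝ) := Nat.le_ceil _
  have hzu : ((zz X : ℕ) : ℝ) < (X : ℝ) ^ (1 / 20 : ℝ) + 1 := by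
    unfold zz
    exact Nat.ceil_lt_add_one (by linarith)
  have ha1 : 1 < a := lt_of_lt_of_le hroot ha
  have hlogz : Real.log X / 20 ≤ Real.log (zz X) := by
    have h1 := Real.log_le_log (by linarith) hzl
    rw [Real.log_rpow hX0] at h1
    linarith
  have hlz : 0 < Real.log (zz X) := by linarith
  have hsq : Real.sqrt (zz X) ≤ 2 * a := by
    have h1 : Real.sqrt (zz X) ≤ (zz X : ℝ) := by
      rw [Real.sqrt_le_left (by linarith)]
      nlinarith
    linarith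
  have h2 := h (zz X) hz2 (a / 2) (2 * a) (by linarith) hsq
  set S := (Icc 1 N).filter (fun k : ℕ => a ≤ (k : ℝ) ∧ (k : ℝ) < 2 * a) with hS
  have h3 : ∑ k ∈ S, rg (zz X) k / k ≤ ∑ k ∈ RN (zz X) (a / 2) (a / 2 + 2 * a), 1 / a := by
    rw [← Finset.sum_filter_add_sum_filter_not S (fun k => Rgh (zz X) k)]
    have h4 : ∑ k ∈ S.filter (fun k => ¬ Rgh (zz X) k), rg (zz X) k / k = 0 := by
      refine Finset.sum_eq_zero fun k hk => ?_
      unfold rg
      rw [if_neg (mem_filter.1 hk).2, zero_div]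
    rw [h4, add_zero]
    calc ∑ k ∈ S.filter (fun k => Rgh (zz X) k), rg (zz X) k / k
        ≤ ∑ k ∈ S.filter (fun k => Rgh (zz X) k), 1 / a := by
          refine Finset.sum_le_sum fun k hk => ?_
          have hk1 := (mem_filter.1 (mem_filter.1 hk).1).2
          have hk0 : (0 : ℝ) < k := by linarith [hk1.1]
          calc rg (zz X) k / k ≤ 1 / k :=
                div_le_div_of_nonneg_right (rg_nonneg _ _).2 hk0.le
            _ ≤ 1 / a := one_div_le_one_div_of_le (by linarith) hk1.1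
      _ ≤ ∑ k ∈ RN (zz X) (a / 2) (a / 2 + 2 * a), 1 / a := by
          refine Finset.sum_le_sum_of_subset_of_nonneg ?_ (fun _ _ _ => by positivity)
          intro k hk
          have hk1 := (mem_filter.1 (mem_filter.1 hk).1).2
          have hkr := (mem_filter.1 hk).2
          rw [RN, mem_filter, mem_Ioc]
          refine ⟨⟨?_, ?_⟩, ?_⟩
          · rw [Nat.floor_lt (by linarith)]
            linarith [hk1.1]
          · refine Nat.le_floor ?_
            linarith [hk1.2]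
          · intro p hp hd
            exact_mod_cast hkr.2 p (Nat.mem_primeFactors.2 ⟨hp, hd, hkr.1⟩)
  rw [Finset.sum_const, nsmul_eq_mul] at h3
  calc ∑ k ∈ S, rg (zz X) k / k
      ≤ ((RN (zz X) (a / 2) (a / 2 + 2 * a)).card : ℝ) * (1 / a) := h3
    _ ≤ (C * (2 * a) / Real.log (zz X)) * (1 / a) :=
        mul_le_mul_of_nonneg_right h2 (by positivity)
    _ = 2 * C / Real.log (zz X) := by
        field_simp
    _ ≤ 2 * C / (Real.log X / 20) :=
        div_le_div_of_nonneg_left (by positivity) (by positivity) hlogz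
    _ = 40 * C / Real.log X := by
        field_simp
        ring

open Classical in
/-- `n` dyadic blocks -/
private theorem rs_blocks : ∃ C : ℝ, 0 < C ∧ ∀ X : ℕ, 2 ≤ X → ∀ N : ℕ, ∀ A : ℝ,
    (X : ℝ) ^ (1 / 20 : ℝ) ≤ A → ∀ n : ℕ,
    ∑ k ∈ (Icc 1 N).filter (fun k : ℕ => A ≤ (k : ℝ) ∧ (k : ℝ) < 2 ^ n * A), rg (zz X) k / k ≤
      n * (C / Real.log X) := by
  obtain ⟨C, hC, h⟩ := rs_block
  refine ⟨C, hC, ?_⟩
  intro X hX N A hA n
  have hX1 : (1 : ℝ) < (X : ℝ) := by exact_mod_cast hX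
  have hroot : (1 : ℝ) < (X : ℝ) ^ (1 / 20 : ℝ) := Real.one_lt_rpow hX1 (by norm_num)
  induction n with
  | zero =>
    have h0 : (Icc 1 N).filter (fun k : ℕ => A ≤ (k : ℝ) ∧ (k : ℝ) < 2 ^ 0 * A) = ∅ := by
      refine Finset.filter_eq_empty_iff.2 fun k _ hk => ?_
      have := hk.1
      have := hk.2
      rw [pow_zero, one_mul] at this
      linarith
    rw [h0]
    simp
  | succ n ih =>
    have hpow : (1 : ℝ) ≤ 2 ^ n := one_le_pow₀ (by norm_num)
    have h1 := h X hX N (2 ^ n * A) (by nlinarith)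
    have h2 : ∑ k ∈ (Icc 1 N).filter
          (fun k : ℕ => A ≤ (k : ℝ) ∧ (k : ℝ) < 2 ^ (n + 1) * A), rg (zz X) k / k ≤
        ∑ k ∈ (Icc 1 N).filter
          (fun k : ℕ => A ≤ (k : ℝ) ∧ (k : ℝ) < 2 ^ n * A), rg (zz X) k / k +
        ∑ k ∈ (Icc 1 N).filter
          (fun k : ℕ => 2 ^ n * A ≤ (k : ℝ) ∧ (k : ℝ) < 2 * (2 ^ n * A)), rg (zz X) k / k := by
      rw [Finset.sum_filter, Finset.sum_filter, Finset.sum_filter, ← Finset.sum_add_distrib]
      refine Finset.sum_le_sum fun k _ => ?_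
      have hnn : 0 ≤ rg (zz X) k / (k : ℝ) := div_nonneg (rg_nonneg _ _).1 (Nat.cast_nonneg _)
      have hp : (2 : ℝ) ^ (n + 1) * A = 2 * (2 ^ n * A) := by ring
      rw [hp]
      by_cases hk1 : A ≤ (k : ℝ) ∧ (k : ℝ) < 2 * (2 ^ n * A)
      · rw [if_pos hk1]
        by_cases hk2 : (k : ℝ) < 2 ^ n * A
        · rw [if_pos ⟨hk1.1, hk2⟩]
          split_ifs <;> linarith
        · rw [if_pos (show 2 ^ n * A ≤ (k : ℝ) ∧ (k : ℝ) < 2 * (2 ^ n * A) from
            ⟨not_lt.1 hk2, hk1.2⟩)]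
          split_ifs <;> linarith
      · rw [if_neg hk1]
        split_ifs <;> linarith
    push_cast
    linarith

theorem rs_sum : ∃ (C : ℝ) (X0 : ℕ), 0 < C ∧ ∀ X : ℕ, X0 ≤ X → ∀ A B : ℝ,
    (X : ℝ) ^ (1 / 20 : ℝ) ≤ A → A ≤ B →
    ∑ k ∈ (Icc 1 ⌊B⌋₊).filter (fun k : ℕ => A ≤ (k : ℝ)), rg (zz X) k / k ≤
      C * (Real.log (B / A) + 1) / Real.log X := by
  classical
  obtain ⟨C, hC, h⟩ := rs_blocks
  refine ⟨2 * C, 2, by positivity, ?_⟩
  intro X hX A B hA hAB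
  have hX1 : (1 : ℝ) < (X : ℝ) := by exact_mod_cast hX
  have hL : 0 < Real.log X := Real.log_pos hX1
  have hroot : (1 : ℝ) < (X : ℝ) ^ (1 / 20 : ℝ) := Real.one_lt_rpow hX1 (by norm_num)
  have hA0 : 0 < A := by linarith
  have hB0 : 0 < B := by linarith
  have hr1 : 1 ≤ B / A := by
    rw [le_div_iff₀ hA0]
    linarith
  have hlog0 : 0 ≤ Real.log (B / A) := Real.log_nonneg hr1
  have hl2 : 0 < Real.log 2 := Real.log_pos (by norm_num)
  set n : ℕ := ⌊Real.log (B / A) / Real.log 2⌋₊ + 1 with hn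
  have hn1 : Real.log (B / A) / Real.log 2 < n := by
    rw [hn]
    push_cast
    exact Nat.lt_floor_add_one _
  have hn2 : (n : ℝ) ≤ 2 * (Real.log (B / A) + 1) := by
    have h1 : ((⌊Real.log (B / A) / Real.log 2⌋₊ : ℕ) : ℝ) ≤ Real.log (B / A) / Real.log 2 :=
      Nat.floor_le (div_nonneg hlog0 hl2.le)
    have h2 : Real.log (B / A) / Real.log 2 ≤ 2 * Real.log (B / A) := by
      rw [div_le_iff₀ hl2]
      nlinarith [Real.log_two_gt_d9]
    rw [hn]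
    push_cast
    linarith
  have hBn : B < 2 ^ n * A := by
    rw [← div_lt_iff₀ hA0]
    rw [div_lt_iff₀ hl2] at hn1
    have h1 : Real.log (B / A) < Real.log (2 ^ n) := by
      rw [Real.log_pow]
      exact hn1
    exact (Real.log_lt_log_iff (by linarith) (by positivity)).1 h1
  have h1 := h X hX ⌊B⌋₊ A hA n
  have h2 : (Icc 1 ⌊B⌋₊).filter (fun k : ℕ => A ≤ (k : ℝ)) =
      (Icc 1 ⌊B⌋₊).filter (fun k : ℕ => A ≤ (k : ℝ) ∧ (k : ℝ) < 2 ^ n * A) := by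
    refine Finset.filter_congr fun k hk => ?_
    have hkB : (k : ℝ) ≤ B := (Nat.le_floor_iff hB0.le).1 (mem_Icc.1 hk).2
    constructor
    · intro h3
      exact ⟨h3, lt_of_le_of_lt hkB hBn⟩
    · intro h3
      exact h3.1
  rw [h2]
  calc ∑ k ∈ (Icc 1 ⌊B⌋₊).filter
        (fun k : ℕ => A ≤ (k : ℝ) ∧ (k : ℝ) < 2 ^ n * A), rg (zz X) k / k
      ≤ n * (C / Real.log X) := h1
    _ ≤ (2 * (Real.log (B / A) + 1)) * (C / Real.log X) :=
        mul_le_mul_of_nonneg_right hn2 (by positivity)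
    _ = 2 * C * (Real.log (B / A) + 1) / Real.log X := by
        ring

theorem rs_all : ∃ (C : ℝ) (X0 : ℕ), 0 < C ∧ ∀ X : ℕ, X0 ≤ X →
    ∑ k ∈ Icc 1 X, rg (zz X) k / k ≤ C := by
  classical
  obtain ⟨C, X0, hC, h⟩ := rs_sum
  refine ⟨1 + 2 * C, max X0 3, by positivity, ?_⟩
  intro X hX
  have hX3 : 3 ≤ X := (le_max_right _ _).trans hX
  have hXX : X0 ≤ X := (le_max_left _ _).trans hX
  have hX3' : (3 : ℝ) ≤ (X : ℝ) := by exact_mod_cast hX3
  have hX1 : (1 : ℝ) < (X : ℝ) := by linarith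
  have hX0 : (0 : ℝ) < (X : ℝ) := by linarith
  have hL : 1 ≤ Real.log X := by
    rw [Real.le_log_iff_exp_le hX0]
    have := Real.exp_one_lt_d9
    linarith
  have hroot : (1 : ℝ) < (X : ℝ) ^ (1 / 20 : ℝ) := Real.one_lt_rpow hX1 (by norm_num)
  have hrX : (X : ℝ) ^ (1 / 20 : ℝ) ≤ X := by
    calc (X : ℝ) ^ (1 / 20 : ℝ) ≤ (X : ℝ) ^ (1 : ℝ) :=
          Real.rpow_le_rpow_of_exponent_le hX1.le (by norm_num)
      _ = X := Real.rpow_one _
  have h1 := h X hXX ((X : ℝ) ^ (1 / 20 : ℝ)) X le_rfl hrX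
  rw [Nat.floor_natCast] at h1
  have hzl : (X : ℝ) ^ (1 / 20 : ℝ) ≤ ((zz X : ℕ) : ℝ) := Nat.le_ceil _
  have h2 : Real.log ((X : ℝ) / (X : ℝ) ^ (1 / 20 : ℝ)) ≤ Real.log X := by
    refine Real.log_le_log (by positivity) ?_
    exact div_le_self hX0.le hroot.le
  have h3 : C * (Real.log ((X : ℝ) / (X : ℝ) ^ (1 / 20 : ℝ)) + 1) / Real.log X ≤ 2 * C := by
    rw [div_le_iff₀ (by linarith)]
    nlinarith
  have h4 : ∑ k ∈ Icc 1 X, rg (zz X) k / k ≤
      ∑ k ∈ Icc 1 X, ((if k = 1 then (1 : ℝ) else 0) +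
        (if (X : ℝ) ^ (1 / 20 : ℝ) ≤ (k : ℝ) then rg (zz X) k / k else 0)) := by
    refine Finset.sum_le_sum fun k hk => ?_
    have hk1 := (mem_Icc.1 hk).1
    have hnn : 0 ≤ rg (zz X) k / (k : ℝ) := div_nonneg (rg_nonneg _ _).1 (Nat.cast_nonneg _)
    by_cases hke : k = 1
    · rw [if_pos hke]
      have h5 : rg (zz X) k / (k : ℝ) ≤ 1 := by
        rw [hke]
        simpa using (rg_nonneg (zz X) 1).2
      split_ifs <;> linarith
    · rw [if_neg hke, zero_add]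
      by_cases hkA : (X : ℝ) ^ (1 / 20 : ℝ) ≤ (k : ℝ)
      · rw [if_pos hkA]
      · rw [if_neg hkA]
        have h5 : rg (zz X) k = 0 := by
          unfold rg
          rw [if_neg]
          intro hr
          have hp := Nat.minFac_prime hke
          have h6 := hr.2 k.minFac (Nat.mem_primeFactors.2 ⟨hp, Nat.minFac_dvd k, hr.1⟩)
          have h7 : k.minFac ≤ k := Nat.minFac_le (by omega)
          have h8 : ((zz X : ℕ) : ℝ) ≤ (k : ℝ) := by exact_mod_cast h6.trans h7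
          exact hkA (hzl.trans h8)
        rw [h5, zero_div]
  rw [Finset.sum_add_distrib, ← Finset.sum_filter] at h4
  have h5 : ∑ k ∈ Icc 1 X, (if k = 1 then (1 : ℝ) else 0) = 1 := by
    rw [Finset.sum_ite_eq']
    rw [if_pos (mem_Icc.2 ⟨le_rfl, by omega⟩)]
  rw [← Finset.sum_filter] at h4
  rw [← Finset.sum_filter] at h5
  rw [h5] at h4
  linarith

end Pool.MP_dd84fd_nt.HX
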