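import Pool.Agent.Lib.MP_dd84fd_nt.GX.Defs
import Pool.Agent.Lib.BV.Defs

/-!
# Goldbach exceptions below the square root (Theorem H): definitions

Paper: /team-store/H98_paper.md.  `δ ≤ 1/2000`.  `z = zz X = ⌈X^(1/20)⌉`, `rg z` = indicator of the
`z`-rough numbers, `Uu = ⌊X^(1/3+3δ)⌋`, `y2 = X^(1/2-3δ)`, `y3 = X^(1/2+3δ)` (`= H0`).
`BV.c1 U t = Σ_{m d = t, m, d ≤ U} Λ(m) μ(d)`, `BV.c2 U k = - Σ_{d ∣ k, d ≤ U} μ(d)`.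
-/

set_option autoImplicit false

namespace Pool.MP_dd84fd_nt.HX

open Finset Pool.MP_67663b_nt.Odd Pool.MP_dd84fd_nt.En Pool.MP_dd84fd_nt.E2 Pool.MP_dd84fd_nt.LS
open Pool.MP_dd84fd_nt.L2G (nrm)
open Pool.MP_dd84fd_nt.GX

/-- the sifting level `⌈X^(1/20)⌉` -/
noncomputable def zz (X : ℕ) : ℕ := ⌈(X : ℝ) ^ (1 / 20 : ℝ)⌉₊

/-- all prime factors of `n` are `≥ z` -/
def Rgh (z n : ℕ) : Prop := n ≠ 0 ∧ ∀ p ∈ n.primeFactors, z ≤ p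

instance (z n : ℕ) : Decidable (Rgh z n) := inferInstanceAs (Decidable (_ ∧ _))

/-- indicator function of the `z`-rough numbers -/
def rg (z n : ℕ) : ℝ := if Rgh z n then 1 else 0

/-- `⌊X^(1/3+3δ)⌋` -/
noncomputable def Uu (δ : ℝ) (X : ℕ) : ℕ := ⌊(X : ℝ) ^ (1 / 3 + 3 * δ)⌋₊

/-- `X^(1/2-3δ)` -/
noncomputable def y2 (δ : ℝ) (X : ℕ) : ℝ := (X : ℝ) ^ (1 / 2 - 3 * δ)

/-- `X^(1/2+3δ)` -/
noncomputable def y3 (δ : ℝ) (X : ℕ) : ℝ := (X : ℝ) ^ (1 / 2 + 3 * δ)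

/-- indicator of a proposition -/
noncomputable def ind (p : Prop) : ℝ := open Classical in if p then 1 else 0

/-- the coefficient function `v(m, k)` (`m` real) of the gap function `D` -/
noncomputable def vv (δ : ℝ) (X : ℕ) (m : ℝ) (k : ℕ) : ℝ :=
  rg (zz X) k * (- Pool.BV.c2 (Uu δ X) k * ind (y2 δ X < m ∧ m ≤ y3 δ X ∧ Uu δ X < k) +
    ∑ d ∈ k.divisors.filter (fun d => d ≤ Uu δ X), ((ArithmeticFunction.moebius d : ℤ) : ℝ) *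
      (ind (m ≤ Uu δ X ∧ y2 δ X < d * m ∧ d * m ≤ y3 δ X) +
        ind (m ≤ Uu δ X ∧ y3 δ X < d * m ∧ k / d ≤ Uu δ X)))

/-- the gap function `D(n) = - Σ_{m k = n} Λ(m) rg(m) v(m, k)` -/
noncomputable def Dn (δ : ℝ) (X n : ℕ) : ℝ :=
  - ∑ m ∈ n.divisors, ArithmeticFunction.vonMangoldt m * rg (zz X) m * vv δ X m (n / m)

/-- `a_L = rg Λ - D` -/
noncomputable def aL (δ : ℝ) (X n : ℕ) : ℝ :=
  rg (zz X) n * ArithmeticFunction.vonMangoldt n - Dn δ X n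

/-- `a(n) = a_L(n) / log n` -/
noncomputable def an (δ : ℝ) (X n : ℕ) : ℝ := aL δ X n / Real.log n

/-- the density of `D` -/
noncomputable def wD (δ : ℝ) (X n : ℕ) : ℝ :=
  - ∑ k ∈ Icc 1 X, if zz X * k ≤ n then 1 / (k : ℝ) * vv δ X ((n : ℝ) / k) k else 0

/-- the model of `a` -/
noncomputable def fa (δ : ℝ) (X w n : ℕ) : ℝ := (1 - wD δ X n) * f1 w n / Real.log n

/-- `u = a - f_a` -/
noncomputable def um (δ : ℝ) (X w n : ℕ) : ℝ := an δ X n - fa δ X w n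

/-- `a + f_a` -/
noncomputable def up (δ : ℝ) (X w n : ℕ) : ℝ := an δ X n + fa δ X w n

/-- `n` has a rough divisor in the gap ranges `(X^(1/2-3δ), X^(1/2+3δ)]` or
`[X^(1/3-7δ), X^(1/3+3δ)]` -/
def Gap (δ : ℝ) (X c : ℕ) : Prop :=
  Rgh (zz X) c ∧ ((y2 δ X < c ∧ (c : ℝ) ≤ y3 δ X) ∨
    ((X : ℝ) ^ (1 / 3 - 7 * δ) ≤ c ∧ (c : ℝ) ≤ (X : ℝ) ^ (1 / 3 + 3 * δ)))

/-- the `z`-smooth part of `n` -/
def sm (z n : ℕ) : ℕ := ∏ p ∈ n.primeFactors.filter (fun p => p < z), p ^ n.factorization p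

/-- the `z`-rough part of `n` -/
def ro (z n : ℕ) : ℕ := n / sm z n

/-- `(1/G) Σ_j ω(j) U(j) V(j) e(-n j / G)`, `U = tr u` -/
noncomputable def PhH (G : ℕ) [NeZero G] (δ : ℝ) (X w : ℕ) (V ω : ZMod G → ℂ) (n : ℕ) : ℂ :=
  (1 / (G : ℂ)) * ∑ j : ZMod G, ω j * tr G X (um δ X w) j * V j *
    ZMod.stdAddChar (-((n : ZMod G) * j))

/-- denominators `d ≤ H0` of the reduced fractions `a/d` with `X |d α - a| ≤ H0` -/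
noncomputable def Apd (δ : ℝ) (X : ℕ) (α : ℝ) : Finset ℕ :=
  open Classical in (Icc 1 ⌊y3 δ X⌋₊).filter
    (fun d : ℕ => X * nrm (d * α) ≤ y3 δ X ∧ Int.gcd (round (d * α)) d = 1)

/-- the height `max (d, X ‖d α‖)` -/
noncomputable def hd (X : ℕ) (α : ℝ) (d : ℕ) : ℝ := max (d : ℝ) (X * nrm (d * α))

/-- no progression whose difference is the denominator `d` of an approximation of a point of the
support of `ω`, of length `⌊X / (16·2^t)⌋`, `2^t ≤ height < 2^(t+1)`, contains more than `ρ |E|`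
elements of `E` -/
def NoAPH (G : ℕ) (δ : ℝ) (X : ℕ) (ω : ZMod G → ℂ) (E : Finset ℕ) (ρ : ℝ) : Prop :=
  ∀ j, ω j ≠ 0 → ∀ d ∈ Apd δ X (al G j), ∀ t : ℕ, (2 : ℝ) ^ t ≤ hd X (al G j) d →
    hd X (al G j) d < 2 ^ (t + 1) →
    ∀ c : ℤ, ((inAP E c d (X / (16 * 2 ^ t))).card : ℝ) ≤ ρ * E.card

/-- the bounds for the second function -/
def VBH (G : ℕ) [NeZero G] (X C : ℕ) (V : ZMod G → ℂ) : Prop :=
  nm2 G V ≤ X * (Real.log X) ^ C ∧ ∀ j, ‖V j‖ ≤ X * (Real.log X) ^ C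

/-- the structured set `S(Λ, b)` -/
def SSt (δ : ℝ) (X Λ : ℕ) (bb : ℝ) (α : ℝ) : Prop :=
  ∃ d ∈ Apd δ X α, (Nat.lcm Λ d : ℝ) * max bb (hd X α d / d) ≤ (X : ℝ) ^ (δ / 10) * Λ * bb

/-- the weight `1` outside `S(Λ, b)` -/
noncomputable def wS (G : ℕ) (δ : ℝ) (X Λ : ℕ) (bb : ℝ) (j : ZMod G) : ℂ :=
  open Classical in if SSt δ X Λ bb (al G j) then 0 else 1

/-- the resonance kernel -/
noncomputable def Res (δ : ℝ) (X : ℕ) (α α' : ℝ) : ℝ :=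
  ∑ d ∈ Apd δ X α, ∑ d' ∈ Apd δ X α', Real.sqrt ((d : ℝ) * d') /
    ((Nat.lcm d d' : ℝ) * Real.sqrt (hd X α d * hd X α' d'))

open Classical in
/-- the rank one kernel, `2^i ≤ 4 X^(1/6)` -/
noncomputable def RkH (X : ℕ) (α α' : ℝ) : ℝ :=
  ∑ i ∈ range (Nat.log 2 X / 6 + 4), if rel X (2 ^ i) α α' then (X : ℝ) / 2 ^ i else 0

/-- the type I bound `B1` for `F` at level `X^(2/5)` -/
def TIH (X : ℕ) (F : ℕ → ℂ) (B1 : ℝ) : Prop :=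
  ∀ (R : ℕ) (c : ℕ → ℂ) (y : ℕ → ℕ), (R : ℝ) ≤ (X : ℝ) ^ (2 / 5 : ℝ) → (∀ r, ‖c r‖ ≤ 1) →
    (∀ r ∈ Icc 1 R, r * y r ≤ X) →
    ‖∑ r ∈ Icc 1 R, c r * ∑ k ∈ Icc 1 (y r), F (r * k)‖ ≤ B1

/-- the type II bound `B2` for `F`: the small variable is in `(N, 2N]`, `U/2 ≤ N ≤ y2` -/
def TIIH (δ : ℝ) (X : ℕ) (F : ℕ → ℂ) (B2 : ℝ) : Prop :=
  ∀ (M N t : ℕ) (a b : ℕ → ℂ), t ≤ X → (∀ n, ‖a n‖ ≤ 1) → (∀ n, ‖b n‖ ≤ 1) →
    1 ≤ M → (Uu δ X : ℝ) / 2 ≤ N → (N : ℝ) ≤ y2 δ X → M * N ≤ X →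
    ‖∑ l ∈ Ioc M (2 * M), ∑ s ∈ (Ioc N (2 * N)).filter (fun s => l * s ≤ t),
      a l * b s * F (l * s)‖ ≤ B2

/-- exponential sum `Σ (a + s f_a)(n) e(n θ)` -/
noncomputable def WH (s : ℝ) (δ : ℝ) (w X : ℕ) (θ : ℝ) : ℂ :=
  ∑ n ∈ Icc 1 X, ((an δ X n + s * fa δ X w n : ℝ) : ℂ) * ee ((n : ℝ) * θ)

/-- the integrand `W_- W_+ e(-n .)` -/
noncomputable def FFH (δ : ℝ) (w X n : ℕ) (θ : ℝ) : ℂ :=
  WH (-1) δ w X θ * WH 1 δ w X θ * ee (-((n : ℝ) * θ))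

/-- convolution of two functions -/
noncomputable def cvv (f h : ℕ → ℝ) (n : ℕ) : ℝ := ∑ m ∈ Icc 1 (n - 1), f m * h (n - m)

/-- `n` is exceptional at level `η` -/
def ExcH (η : ℝ) (n : ℕ) : Prop := η * (SS n * JJ n) < |(g n : ℝ) - SS n * JJ n|

end Pool.MP_dd84fd_nt.HX
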