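import Pool.Agent.Lib.MP_dd84fd_nt.HX.DcDefs

/-!
# HX-DcEE: few integers have two prime factors in one class (helper33)
-/

set_option autoImplicit false

namespace Pool.MP_dd84fd_nt.HX

open Finset

theorem cl_lt (κ : ℝ) (h0 : 0 < κ) (p q : ℕ) (hp : 1 ≤ p) (hq : 1 ≤ q) (h : cl κ p = cl κ q) :
    (p : ℝ) < q * Real.exp κ := by
  unfold cl at h
  have hp' : (0 : ℝ) < p := by exact_mod_cast hp
  have hq' : (0 : ℝ) < q := by exact_mod_cast hq
  have h1 : Real.log p / κ < (⌊Real.log p / κ⌋₊ : ℝ) + 1 := Nat.lt_floor_add_one _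
  have h2 : (⌊Real.log q / κ⌋₊ : ℝ) ≤ Real.log q / κ :=
    Nat.floor_le (div_nonneg (Real.log_natCast_nonneg q) h0.le)
  rw [h] at h1
  have h3 : Real.log p / κ < Real.log q / κ + 1 := by linarith
  have h4 : Real.log p < Real.log q + κ := by
    have h5 := mul_lt_mul_of_pos_right h3 h0
    rw [div_mul_cancel₀ _ h0.ne', add_mul, div_mul_cancel₀ _ h0.ne', one_mul] at h5
    exact h5
  calc (p : ℝ) = Real.exp (Real.log p) := (Real.exp_log hp').symm
    _ < Real.exp (Real.log q + κ) := Real.exp_lt_exp.2 h4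
    _ = q * Real.exp κ := by rw [Real.exp_add, Real.exp_log hq']

theorem sum_inv_Icc (X : ℕ) : ∑ q ∈ Icc 1 X, (1 : ℝ) / q ≤ 1 + Real.log X := by
  have h := harmonic_le_one_add_log X
  rw [harmonic_eq_sum_Icc] at h
  push_cast at h
  simpa [one_div] using h

open Classical in
theorem cnt_near (κ : ℝ) (h0 : 0 < κ) (h1 : κ ≤ 1) (q X : ℕ) :
    (((Ioc q X).filter (fun p : ℕ => (p : ℝ) < q * Real.exp κ)).card : ℝ) ≤ 2 * κ * q := by
  have he : Real.exp κ - 1 ≤ 2 * κ := by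
    have h2 := Real.abs_exp_sub_one_le (x := κ) (by rw [abs_of_pos h0]; exact h1)
    rw [abs_of_pos h0] at h2
    exact (le_abs_self _).trans h2
  have he0 : 0 ≤ Real.exp κ - 1 := by
    have := Real.add_one_le_exp κ
    linarith
  have hsub : (Ioc q X).filter (fun p : ℕ => (p : ℝ) < q * Real.exp κ) ⊆
      Ioc q (q + ⌊(q : ℝ) * (Real.exp κ - 1)⌋₊) := by
    intro p hp
    rw [mem_filter, mem_Ioc] at hp
    rw [mem_Ioc]
    refine ⟨hp.1.1, ?_⟩
    have h3 : p - q ≤ ⌊(q : ℝ) * (Real.exp κ - 1)⌋₊ := by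
      apply Nat.le_floor
      rw [Nat.cast_sub hp.1.1.le]
      have := hp.2
      linarith
    omega
  have h3 := card_le_card hsub
  rw [Nat.card_Ioc, Nat.add_sub_cancel_left] at h3
  calc (((Ioc q X).filter (fun p : ℕ => (p : ℝ) < q * Real.exp κ)).card : ℝ)
      ≤ (⌊(q : ℝ) * (Real.exp κ - 1)⌋₊ : ℝ) := by exact_mod_cast h3
    _ ≤ (q : ℝ) * (Real.exp κ - 1) := Nat.floor_le (by positivity)
    _ ≤ (q : ℝ) * (2 * κ) := by gcongr
    _ = 2 * κ * q := by ring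

open Classical in
theorem ee_card (κ : ℝ) (z X : ℕ) (h0 : 0 < κ) (h1 : κ ≤ 1) (hX : 1 ≤ X) :
    (((Icc 1 X).filter (fun n => EEx κ z n)).card : ℝ) ≤ 4 * κ * X * (1 + Real.log X) := by
  have hsub : (Icc 1 X).filter (fun n => EEx κ z n) ⊆
      (Icc 1 X).biUnion fun q => ((Ioc q X).filter (fun p : ℕ => (p : ℝ) < q * Real.exp κ)).biUnion
        fun p => (Ioc 0 X).filter (fun n => p * q ∣ n) := by
    intro n hn
    rw [mem_filter, mem_Icc] at hn
    obtain ⟨⟨hn1, hnX⟩, p, hp, q, hq, hqp, _, hcl⟩ := hn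
    have hpp := Nat.prime_of_mem_primeFactors hp
    have hqq := Nat.prime_of_mem_primeFactors hq
    have hpn := Nat.dvd_of_mem_primeFactors hp
    have hqn := Nat.dvd_of_mem_primeFactors hq
    have hpX : p ≤ X := (Nat.le_of_dvd (by omega) hpn).trans hnX
    rw [mem_biUnion]
    refine ⟨q, mem_Icc.2 ⟨hqq.one_le, by omega⟩, ?_⟩
    rw [mem_biUnion]
    refine ⟨p, ?_, ?_⟩
    · rw [mem_filter, mem_Ioc]
      exact ⟨⟨hqp, hpX⟩, cl_lt κ h0 p q hpp.one_le hqq.one_le hcl⟩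
    · rw [mem_filter, mem_Ioc]
      refine ⟨⟨by omega, hnX⟩, ?_⟩
      exact Nat.Coprime.mul_dvd_of_dvd_of_dvd ((Nat.coprime_primes hpp hqq).2 (by omega)) hpn hqn
  have hmul : ∀ p q : ℕ, (((Ioc 0 X).filter (fun n => p * q ∣ n)).card : ℝ) ≤
      X / ((p : ℝ) * q) := by
    intro p q
    rw [Nat.Ioc_filter_dvd_card_eq_div]
    refine Nat.cast_div_le.trans ?_
    push_cast
    exact le_refl _
  have hX0 : (0 : ℝ) ≤ X := Nat.cast_nonneg X
  have h3 : (((Icc 1 X).filter (fun n => EEx κ z n)).card : ℝ) ≤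
      ∑ q ∈ Icc 1 X, ∑ p ∈ (Ioc q X).filter (fun p : ℕ => (p : ℝ) < q * Real.exp κ),
        X / ((p : ℝ) * q) := by
    have h4 := (card_le_card hsub).trans card_biUnion_le
    have h5 : (((Icc 1 X).filter (fun n => EEx κ z n)).card : ℝ) ≤
        ∑ q ∈ Icc 1 X, ((((Ioc q X).filter (fun p : ℕ => (p : ℝ) < q * Real.exp κ)).biUnion
        fun p => (Ioc 0 X).filter (fun n => p * q ∣ n)).card : ℝ) := by exact_mod_cast h4
    refine h5.trans (sum_le_sum fun q _ => ?_)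
    have h6 : ((((Ioc q X).filter (fun p : ℕ => (p : ℝ) < q * Real.exp κ)).biUnion
        fun p => (Ioc 0 X).filter (fun n => p * q ∣ n)).card : ℝ) ≤
        ∑ p ∈ (Ioc q X).filter (fun p : ℕ => (p : ℝ) < q * Real.exp κ),
          (((Ioc 0 X).filter (fun n => p * q ∣ n)).card : ℝ) := by exact_mod_cast card_biUnion_le
    exact h6.trans (sum_le_sum fun p _ => hmul p q)
  refine h3.trans ?_
  have h7 : ∀ q ∈ Icc 1 X, ∑ p ∈ (Ioc q X).filter (fun p : ℕ => (p : ℝ) < q * Real.exp κ),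
      X / ((p : ℝ) * q) ≤ 2 * κ * X * (1 / (q : ℝ)) := by
    intro q hq
    have hq1 : 1 ≤ q := (mem_Icc.1 hq).1
    have hq0 : (0 : ℝ) < q := by exact_mod_cast hq1
    calc ∑ p ∈ (Ioc q X).filter (fun p : ℕ => (p : ℝ) < q * Real.exp κ), X / ((p : ℝ) * q)
        ≤ ∑ p ∈ (Ioc q X).filter (fun p : ℕ => (p : ℝ) < q * Real.exp κ), X / ((q : ℝ) * q) := by
          refine sum_le_sum fun p hp => ?_
          rw [mem_filter, mem_Ioc] at hp
          have : (q : ℝ) ≤ p := by exact_mod_cast hp.1.1.le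
          gcongr
      _ = (((Ioc q X).filter (fun p : ℕ => (p : ℝ) < q * Real.exp κ)).card : ℝ) *
          (X / ((q : ℝ) * q)) := by rw [sum_const, nsmul_eq_mul]
      _ ≤ (2 * κ * q) * (X / ((q : ℝ) * q)) := by
          gcongr
          exact cnt_near κ h0 h1 q X
      _ = 2 * κ * X * (1 / (q : ℝ)) := by field_simp
  refine (sum_le_sum h7).trans ?_
  rw [← mul_sum]
  have h8 := sum_inv_Icc X
  have h9 : 0 ≤ ∑ q ∈ Icc 1 X, (1 : ℝ) / q := sum_nonneg fun _ _ => by positivity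
  have h10 : 0 ≤ 2 * κ * (X : ℝ) := by positivity
  calc 2 * κ * (X : ℝ) * ∑ q ∈ Icc 1 X, (1 : ℝ) / q ≤ 2 * κ * X * (1 + Real.log X) := by gcongr
    _ ≤ 4 * κ * X * (1 + Real.log X) := by
        have h11 : 0 ≤ 1 + Real.log (X : ℝ) := by
          have := Real.log_natCast_nonneg X
          linarith
        nlinarith [mul_nonneg h10 h11]

end Pool.MP_dd84fd_nt.HX
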