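import Pool.Agent.Lib.MP_dd84fd_nt.HX.Defs

/-!
# Theorem H, section 1: definitions for the decomposition (helper33)
-/

set_option autoImplicit false

namespace Pool.MP_dd84fd_nt.HX

open Finset Pool.MP_67663b_nt.Odd Pool.MP_dd84fd_nt.En Pool.MP_dd84fd_nt.E2 Pool.MP_dd84fd_nt.LS
open Pool.MP_dd84fd_nt.L2G (nrm)
open Pool.MP_dd84fd_nt.GX

/-- the Moebius function as a real number -/
noncomputable def mr (n : ℕ) : ℝ := ((ArithmeticFunction.moebius n : ℤ) : ℝ)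

/-- the von Mangoldt function -/
noncomputable def La (n : ℕ) : ℝ := ArithmeticFunction.vonMangoldt n

/-- `X^(7/20)` -/
noncomputable def Z1 (X : ℕ) : ℝ := (X : ℝ) ^ (7 / 20 : ℝ)

/-- all prime factors of `n` are `< z` -/
def Smo (z n : ℕ) : Prop := ∀ p ∈ n.primeFactors, p < z

open Classical in
/-- type I coefficient of `log n` -/
noncomputable def alC (z U : ℕ) (Z : ℝ) (l : ℕ) : ℝ :=
  if ro z l ≤ U ∧ (l : ℝ) < Z then mr l else 0

open Classical in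
/-- type I coefficient -/
noncomputable def beC (z U : ℕ) (Z : ℝ) (l : ℕ) : ℝ :=
  if ro z l ≤ U ∧ (l : ℝ) < Z then
    -((mr (ro z l) * Real.log (ro z l) + Pool.BV.c1 U (ro z l)) * mr (sm z l)) else 0

/-- `l = c e`, `c ≤ U` rough, `e` smooth, `l / P^-(e) < Z ≤ l` -/
def Cnd (z U : ℕ) (Z : ℝ) (l : ℕ) : Prop :=
  ro z l ≤ U ∧ Z ≤ (l : ℝ) ∧ (l : ℝ) < Z * ((sm z l).minFac : ℝ)

open Classical in
noncomputable def A1 (z U : ℕ) (Z : ℝ) (l : ℕ) : ℝ := if Cnd z U Z l then mr l else 0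

open Classical in
noncomputable def A2 (z U : ℕ) (Z : ℝ) (l : ℕ) : ℝ :=
  if Cnd z U Z l then
    (mr (ro z l) * Real.log (sm z l) - Pool.BV.c1 U (ro z l)) * mr (sm z l) else 0

open Classical in
/-- `Σ_{l s = n, P^-(s) ≥ P^-(e(l))} (A1(l) log s + A2(l))` -/
noncomputable def TS (z U : ℕ) (Z : ℝ) (n : ℕ) : ℝ :=
  ∑ l ∈ n.divisors, if (∀ p ∈ (n / l).primeFactors, (sm z l).minFac ≤ p) then
    A1 z U Z l * Real.log ((n / l : ℕ) : ℝ) + A2 z U Z l else 0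

/-- the class `⌊log p / κ⌋` of `p` -/
noncomputable def cl (κ : ℝ) (p : ℕ) : ℕ := ⌊Real.log p / κ⌋₊

open Classical in
/-- `TS` with the condition `P^-(s) ≥ P^-(e(l))` replaced by the same for the classes -/
noncomputable def TB (κ : ℝ) (z U : ℕ) (Z : ℝ) (n : ℕ) : ℝ :=
  ∑ l ∈ n.divisors, if (∀ p ∈ (n / l).primeFactors, cl κ (sm z l).minFac ≤ cl κ p) then
    A1 z U Z l * Real.log ((n / l : ℕ) : ℝ) + A2 z U Z l else 0

/-- `n` has two prime factors `q < p < z` of the same class -/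
def EEx (κ : ℝ) (z n : ℕ) : Prop :=
  ∃ p ∈ n.primeFactors, ∃ q ∈ n.primeFactors, q < p ∧ p < z ∧ cl κ p = cl κ q

/-- `F` is, up to a small error in mean square, a short sum of bilinear terms -/
def BRep (δ : ℝ) (X C B : ℕ) (F : ℕ → ℝ) : Prop :=
  ∃ (I : ℕ) (a c : ℕ → ℕ → ℝ) (err : ℕ → ℝ),
    (I : ℝ) ≤ (Real.log X) ^ C ∧
    (∀ i n, |a i n| ≤ (Real.log X) ^ 2 ∧ |c i n| ≤ (Real.log X) ^ 2) ∧
    (∀ i m, a i m ≠ 0 → Uu δ X < m ∧ (m : ℝ) ≤ y2 δ X) ∧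
    (∀ n ∈ Icc 1 X, F n = ∑ i ∈ range I, ∑ m ∈ n.divisors, a i m * c i (n / m) + err n) ∧
    ∑ n ∈ Icc 1 X, err n ^ 2 ≤ X / (Real.log X) ^ B

end Pool.MP_dd84fd_nt.HX
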