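import Pool.Agent.Lib.MP_dd84fd_nt.HX.GrDefs
import Pool.Agent.Lib.MP_dd84fd_nt.GX.TIexp
import Pool.Agent.Lib.MP_dd84fd_nt.E2.MinorP

/-!
# HX-GrBV (0.6 h): Abel summation with `(1 - wD(n))/log n`

`g(n) = (1 - wD n)/log n` (`g(1) = 0`). For `2 ≤ n < n+1 ≤ X`: `|g(n+1) - g(n)| ≤ |wD(n+1) - wD(n)|/log 2 + (1 + C)(1/log n - 1/log(n+1))`, and `|g(2) - g(1)| ≤ (1+C)/log 2`; so the total variation of `g` on `[1,X]` is
`≤ 2 C + 3 (1 + C)` (`WDabs`: `|wD| ≤ C`, `∑ |wD(n+1) - wD(n)| ≤ C`) and `|g| ≤ 2(1+C)`. For `d ≥ 1` the variation of `k ↦ g(dk)`, `k ≤ X/d`, is at most that of `g` (triangle inequality, disjoint intervals `[dk, d(k+1))`).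
Abel summation: `‖∑_{k ≤ m} g(dk) ee(dkθ)‖ ≤ (|g(dm)| + ∑_{k<m} |g(d(k+1)) - g(dk)|) max_l ‖∑_{k ≤ l} ee(k(dθ))‖ ≤ C' mn(X/d)(dθ)` (`L2G.geo_sum` as in `ti_geo`, `GX/TIexp.lean`).
`bv_abel` = abstract Abel summation. `C'` absolute.
-/

set_option autoImplicit false

namespace Pool.MP_dd84fd_nt.HX

open Finset Pool.MP_67663b_nt.Odd Pool.MP_dd84fd_nt.En Pool.MP_dd84fd_nt.E2 Pool.MP_dd84fd_nt.LS
open Pool.MP_dd84fd_nt.L2G (nrm)
open Pool.MP_dd84fd_nt.GX
open Pool.MP_dd84fd_nt.PL (rr Fam)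

theorem bv_abel (m : ℕ) (g : ℕ → ℝ) (a : ℕ → ℂ) (B T : ℝ) (hB : ∀ l ≤ m, ‖∑ k ∈ Icc 1 l, a k‖ ≤ B)
    (hT : |g m| + ∑ k ∈ Ico 1 m, |g (k + 1) - g k| ≤ T) :
    ‖∑ k ∈ Icc 1 m, (g k : ℂ) * a k‖ ≤ T * B := by
  have hB0 : 0 ≤ B := by
    have := hB 0 (Nat.zero_le _)
    simpa using this
  rcases Nat.eq_zero_or_pos m with hm | hm
  · subst hm
    have hT0 : 0 ≤ T := by
      have h1 : |g 0| + ∑ k ∈ Ico 1 0, |g (k + 1) - g k| ≤ T := hT
      simp only [show Ico 1 0 = ∅ by simp, Finset.sum_empty, add_zero] at h1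
      exact (abs_nonneg _).trans h1
    simpa using mul_nonneg hT0 hB0
  · have key : ∀ l, 1 ≤ l → ∑ k ∈ Icc 1 l, (g k : ℂ) * a k =
        (g l : ℂ) * ∑ k ∈ Icc 1 l, a k -
          ∑ k ∈ Ico 1 l, ((g (k + 1) - g k : ℝ) : ℂ) * ∑ i ∈ Icc 1 k, a i := by
      intro l hl
      induction l, hl using Nat.le_induction with
      | base => simp
      | succ l hl ih =>
        rw [Finset.sum_Icc_succ_top (by omega), ih, Finset.sum_Icc_succ_top (by omega),
          Finset.sum_Ico_succ_top hl]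
        push_cast
        ring
    rw [key m hm]
    refine (norm_sub_le _ _).trans ?_
    have h1 : ‖(g m : ℂ) * ∑ k ∈ Icc 1 m, a k‖ ≤ |g m| * B := by
      rw [norm_mul, Complex.norm_real, Real.norm_eq_abs]
      exact mul_le_mul_of_nonneg_left (hB m le_rfl) (abs_nonneg _)
    have h2 : ‖∑ k ∈ Ico 1 m, ((g (k + 1) - g k : ℝ) : ℂ) * ∑ i ∈ Icc 1 k, a i‖ ≤
        (∑ k ∈ Ico 1 m, |g (k + 1) - g k|) * B := by
      refine (norm_sum_le _ _).trans ?_
      rw [Finset.sum_mul]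
      refine Finset.sum_le_sum fun k hk => ?_
      rw [norm_mul, Complex.norm_real, Real.norm_eq_abs]
      exact mul_le_mul_of_nonneg_left (hB k (Finset.mem_Ico.1 hk).2.le) (abs_nonneg _)
    have h3 := mul_le_mul_of_nonneg_right hT hB0
    rw [add_mul] at h3
    linarith

private theorem grbv_log {n : ℕ} (hn : 2 ≤ n) : 1 / 2 ≤ Real.log n := by
  have h1 : Real.log 2 ≤ Real.log n := Real.log_le_log (by norm_num) (by exact_mod_cast hn)
  have := Real.log_two_gt_d9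
  linarith

private theorem grbv_tel (h : ℕ → ℝ) (X : ℕ) (hX : 1 ≤ X) :
    ∑ n ∈ Ico 1 X, (h n - h (n + 1)) = h 1 - h X := by
  induction X, hX using Nat.le_induction with
  | base => simp
  | succ l hl ih =>
    rw [Finset.sum_Ico_succ_top hl, ih]
    ring

theorem gw_var (h2 : WDabs) : ∃ (C : ℝ) (X0 : ℕ), 0 < C ∧ ∀ X : ℕ, X0 ≤ X → ∀ δ : ℝ, 0 < δ →
    δ ≤ 1 / 2000 → (∀ n ∈ Icc 1 X, |(1 - wD δ X n) / Real.log n| ≤ C) ∧
    ∑ n ∈ Ico 1 X, |(1 - wD δ X (n + 1)) / Real.log (n + 1 : ℕ) - (1 - wD δ X n) / Real.log n| ≤ C := by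
  obtain ⟨C0, X1, hC⟩ := h2
  refine ⟨2 * |C0| + 4 * (1 + |C0|), max X1 1, by positivity, fun X hX δ hδ hδ1 => ?_⟩
  obtain ⟨ha, hb⟩ := hC X (le_trans (le_max_left _ _) hX) δ hδ hδ1
  have hX1 : 1 ≤ X := le_trans (le_max_right _ _) hX
  have hC0 : C0 ≤ |C0| := le_abs_self _
  have hw : ∀ n ∈ Icc 1 X, |1 - wD δ X n| ≤ 1 + |C0| := by
    intro n hn
    have h1 := ha n hn
    have h3 := abs_sub (1 : ℝ) (wD δ X n)
    rw [abs_one] at h3
    linarith
  constructor
  · intro n hn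
    have hn1 : 1 ≤ n := (Finset.mem_Icc.1 hn).1
    rcases Nat.lt_or_ge n 2 with h | h
    · have : n = 1 := by omega
      subst this
      simp only [Nat.cast_one, Real.log_one, div_zero, abs_zero]
      positivity
    · have hl := grbv_log h
      rw [abs_div, abs_of_pos (by linarith : (0 : ℝ) < Real.log n),
        div_le_iff₀ (by linarith)]
      have h4 := hw n hn
      have h5 : (0 : ℝ) ≤ |C0| := abs_nonneg _
      nlinarith
  · set h' : ℕ → ℝ := fun n => if n ≤ 1 then 4 else 1 / Real.log n with hh'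
    have hstep : ∀ n ∈ Ico 1 X,
        |(1 - wD δ X (n + 1)) / Real.log (n + 1 : ℕ) - (1 - wD δ X n) / Real.log n| ≤
          2 * |wD δ X (n + 1) - wD δ X n| + (1 + |C0|) * (h' n - h' (n + 1)) := by
      intro n hn
      obtain ⟨hn1, hn2⟩ := Finset.mem_Ico.1 hn
      have h5 : (0 : ℝ) ≤ |C0| := abs_nonneg _
      have hl1 : 1 / 2 ≤ Real.log (n + 1 : ℕ) := grbv_log (by omega)
      have hinv1 : 1 / Real.log (n + 1 : ℕ) ≤ 2 := by
        rw [div_le_iff₀ (by linarith)]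
        linarith
      have hinv0 : 0 ≤ 1 / Real.log (n + 1 : ℕ) := by positivity
      have hh1 : h' (n + 1) = 1 / Real.log (n + 1 : ℕ) := by
        simp only [hh']
        rw [if_neg (by omega)]
      have hw1 := hw (n + 1) (Finset.mem_Icc.2 ⟨by omega, by omega⟩)
      rcases Nat.lt_or_ge n 2 with h | h
      · have hn' : n = 1 := by omega
        have hh0 : h' n = 4 := by
          simp only [hh']
          rw [if_pos (by omega)]
        rw [hh0, hh1]
        have e1 : (1 - wD δ X n) / Real.log n = 0 := by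
          rw [hn']
          simp
        rw [e1, sub_zero, abs_div, abs_of_pos (by linarith : (0 : ℝ) < Real.log (n + 1 : ℕ)),
          div_eq_mul_one_div]
        have h6 : |1 - wD δ X (n + 1)| * (1 / Real.log (n + 1 : ℕ)) ≤ (1 + |C0|) * 2 :=
          mul_le_mul hw1 hinv1 hinv0 (by positivity)
        have h7 : 0 ≤ |wD δ X (n + 1) - wD δ X n| := abs_nonneg _
        nlinarith
      · have hh0 : h' n = 1 / Real.log n := by
          simp only [hh']
          rw [if_neg (by omega)]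
        rw [hh0, hh1]
        have hl0 : 1 / 2 ≤ Real.log n := grbv_log h
        have hmono : 1 / Real.log (n + 1 : ℕ) ≤ 1 / Real.log n := by
          refine one_div_le_one_div_of_le (by linarith) ?_
          refine Real.log_le_log (by exact_mod_cast (by omega : 0 < n)) ?_
          push_cast
          linarith
        have e1 : (1 - wD δ X (n + 1)) / Real.log (n + 1 : ℕ) - (1 - wD δ X n) / Real.log n =
            (wD δ X n - wD δ X (n + 1)) * (1 / Real.log (n + 1 : ℕ)) +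
              (1 - wD δ X n) * (1 / Real.log (n + 1 : ℕ) - 1 / Real.log n) := by
          have a1 : (Real.log (n + 1 : ℕ)) ≠ 0 := by linarith
          have a2 : (Real.log n) ≠ 0 := by linarith
          field_simp
          ring
        rw [e1]
        refine (abs_add_le _ _).trans (add_le_add ?_ ?_)
        · rw [abs_mul, abs_sub_comm, abs_of_nonneg hinv0, mul_comm (2 : ℝ)]
          exact mul_le_mul_of_nonneg_left hinv1 (abs_nonneg _)
        · rw [abs_mul]
          refine mul_le_mul (hw n (Finset.mem_Icc.2 ⟨hn1, hn2.le⟩)) ?_ (abs_nonneg _)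
            (by positivity)
          rw [abs_of_nonpos (by linarith)]
          linarith
    refine (Finset.sum_le_sum hstep).trans ?_
    rw [Finset.sum_add_distrib, ← Finset.mul_sum, ← Finset.mul_sum, grbv_tel h' X hX1]
    have h6 : h' 1 = 4 := by simp [hh']
    have h7 : 0 ≤ h' X := by
      simp only [hh']
      split_ifs
      · norm_num
      · exact one_div_nonneg.2 (Real.log_natCast_nonneg X)
    have h8 : (1 + |C0|) * (h' 1 - h' X) ≤ (1 + |C0|) * 4 := by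
      refine mul_le_mul_of_nonneg_left ?_ (by positivity)
      linarith
    linarith

private theorem grbv_sub (g : ℕ → ℝ) (d m : ℕ) (hm : 1 ≤ m) :
    ∑ k ∈ Ico 1 m, |g (d * (k + 1)) - g (d * k)| ≤
      ∑ n ∈ Ico d (d * m), |g (n + 1) - g n| := by
  induction m, hm using Nat.le_induction with
  | base => simp
  | succ l hl ih =>
    rw [Finset.sum_Ico_succ_top hl]
    have h1 : ∑ n ∈ Ico d (d * l), |g (n + 1) - g n| +
        ∑ n ∈ Ico (d * l) (d * (l + 1)), |g (n + 1) - g n| =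
        ∑ n ∈ Ico d (d * (l + 1)), |g (n + 1) - g n| :=
      Finset.sum_Ico_consecutive _ (Nat.le_mul_of_pos_right d hl)
        (Nat.mul_le_mul_left d (Nat.le_succ l))
    rw [← h1]
    refine add_le_add ih ?_
    have h2 := dist_le_Ico_sum_dist g (Nat.mul_le_mul_left d (Nat.le_succ l))
    simp only [Real.dist_eq] at h2
    rw [abs_sub_comm]
    refine h2.trans (le_of_eq (Finset.sum_congr rfl fun n _ => abs_sub_comm _ _))

theorem gw_exp (h2 : WDabs) : ∃ (C : ℝ) (X0 : ℕ), 0 < C ∧ ∀ X : ℕ, X0 ≤ X → ∀ δ : ℝ, 0 < δ →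
    δ ≤ 1 / 2000 → ∀ (d : ℕ) (θ : ℝ), 1 ≤ d → d ≤ X →
    ‖∑ k ∈ Icc 1 (X / d), (((1 - wD δ X (d * k)) / Real.log (d * k : ℕ) : ℝ) : ℂ) *
      ee (((d * k : ℕ) : ℝ) * θ)‖ ≤ C * L2G.mn ((X : ℝ) / d) ((d : ℝ) * θ) := by
  obtain ⟨C, X0, hC, h⟩ := gw_var h2
  refine ⟨2 * C, X0, by positivity, fun X hX δ hδ hδ1 d θ hd hdX => ?_⟩
  obtain ⟨ha, hb⟩ := h X hX δ hδ hδ1
  set g : ℕ → ℝ := fun n => (1 - wD δ X n) / Real.log n with hg
  have hm1 : 1 ≤ X / d := (Nat.one_le_div_iff hd).2 hdX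
  have hmX : d * (X / d) ≤ X := Nat.mul_div_le X d
  refine bv_abel (X / d) (fun k => g (d * k)) (fun k => ee (((d * k : ℕ) : ℝ) * θ))
    (L2G.mn ((X : ℝ) / d) ((d : ℝ) * θ)) (2 * C) ?_ ?_
  · intro l hl
    have hd0 : (0 : ℝ) < d := by exact_mod_cast hd
    have hlX : (l : ℝ) ≤ (X : ℝ) / d := by
      rw [le_div_iff₀ hd0]
      have : l * d ≤ X := by nlinarith
      exact_mod_cast this
    have h3 := L2G.geo_sum 0 l ((X : ℝ) / d) ((d : ℝ) * θ) (by simpa using hlX)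
      ((Nat.cast_nonneg l).trans hlX)
    have e : Ioc 0 l = Icc 1 l := by
      ext k
      simp only [Finset.mem_Ioc, Finset.mem_Icc]
      omega
    rw [e] at h3
    refine le_trans (le_of_eq ?_) h3
    congr 1
    refine Finset.sum_congr rfl fun k _ => ?_
    congr 1
    push_cast
    ring
  · have h4 : |g (d * (X / d))| ≤ C :=
      ha _ (Finset.mem_Icc.2 ⟨Nat.mul_pos hd hm1, hmX⟩)
    have h5 : ∑ k ∈ Ico 1 (X / d), |g (d * (k + 1)) - g (d * k)| ≤ C := by
      refine (grbv_sub g d (X / d) hm1).trans (le_trans ?_ hb)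
      refine Finset.sum_le_sum_of_subset_of_nonneg ?_ (fun _ _ _ => abs_nonneg _)
      exact Finset.Ico_subset_Ico hd hmX
    have h6 : (fun k => g (d * k)) (X / d) = g (d * (X / d)) := rfl
    linarith

end Pool.MP_dd84fd_nt.HX
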