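import Mathlib

/-!
# HX-DcComb: the combinatorial identity behind Lemma 1 (helper33)
-/

set_option autoImplicit false

namespace Pool.MP_dd84fd_nt.HX

open Finset

/-- minimum of a finite set, `1` for the empty set -/
noncomputable def mn0 (J : Finset ℕ) : ℕ := open Classical in if h : J.Nonempty then J.min' h else 1

theorem mn0_empty : mn0 ∅ = 1 := by
  unfold mn0
  rw [dif_neg (by simp)]

theorem mn0_mem {J : Finset ℕ} (h : J.Nonempty) : mn0 J ∈ J := by
  unfold mn0
  rw [dif_pos h]
  exact J.min'_mem h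

theorem mn0_le {J : Finset ℕ} {p : ℕ} (h : p ∈ J) : mn0 J ≤ p := by
  unfold mn0
  rw [dif_pos ⟨p, h⟩]
  exact J.min'_le p h

theorem mn0_insert {J : Finset ℕ} {q : ℕ} (h : J.Nonempty) (hq : ∀ p ∈ J, p < q) :
    mn0 (insert q J) = mn0 J := by
  apply le_antisymm
  · exact mn0_le (mem_insert_of_mem (mn0_mem h))
  · have h1 := mn0_mem (insert_nonempty q J)
    rw [mem_insert] at h1
    rcases h1 with h1 | h1
    · rw [h1]
      exact (hq _ (mn0_mem h)).le
    · exact mn0_le h1

theorem mn0_singleton (q : ℕ) : mn0 {q} = q := by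
  have := mn0_mem (singleton_nonempty q)
  rwa [mem_singleton] at this

theorem mn0_le_prod {J : Finset ℕ} (hJ : ∀ p ∈ J, 1 ≤ p) : mn0 J ≤ ∏ p ∈ J, p := by
  rcases J.eq_empty_or_nonempty with h | h
  · rw [h, mn0_empty, prod_empty]
  · have h1 := mn0_mem h
    rw [← mul_prod_erase J (fun p => p) h1]
    have h2 : 1 ≤ ∏ p ∈ J.erase (mn0 J), p :=
      Finset.one_le_prod' fun p hp => hJ p (mem_of_mem_erase hp)
    exact Nat.le_mul_of_pos_right _ h2

open Classical in
theorem comb_id (Z : ℝ) (P : Finset ℕ) (hP : ∀ p ∈ P, 1 ≤ p) (c : ℝ) (hc0 : 0 ≤ c) (hc : c < Z) :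
    ∑ T ∈ P.powerset, (-1 : ℝ) ^ T.card =
      ∑ T ∈ P.powerset, (if c * ((∏ p ∈ T, p : ℕ) : ℝ) < Z then (-1 : ℝ) ^ T.card else 0) +
      ∑ J ∈ P.powerset, (if Z ≤ c * ((∏ p ∈ J, p : ℕ) : ℝ) ∧
        c * ((∏ p ∈ J, p : ℕ) : ℝ) < Z * (mn0 J : ℝ) ∧ (∀ p ∈ P, mn0 J ≤ p) then
        (-1 : ℝ) ^ J.card else 0) := by
  induction P using Finset.induction_on_max generalizing c with
  | empty =>
    rw [powerset_empty, sum_singleton, sum_singleton, sum_singleton, prod_empty, mn0_empty]
    simp only [Nat.cast_one, mul_one]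
    rw [if_pos hc, if_neg (fun h => absurd h.1 (by linarith)), add_zero]
  | insert q P' hq ih =>
    have hqP : q ∉ P' := fun h => lt_irrefl _ (hq q h)
    have hP' : ∀ p ∈ P', 1 ≤ p := fun p hp => hP p (mem_insert_of_mem hp)
    have hq1 : 1 ≤ q := hP q (mem_insert_self _ _)
    have hq1' : (1 : ℝ) ≤ q := by exact_mod_cast hq1
    rw [sum_powerset_insert hqP, sum_powerset_insert hqP, sum_powerset_insert hqP]
    have hcard : ∀ T ∈ P'.powerset, (insert q T).card = T.card + 1 := by
      intro T hT
      exact card_insert_of_notMem fun h => hqP (mem_powerset.1 hT h)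
    have hprod : ∀ T ∈ P'.powerset, ∏ p ∈ insert q T, p = q * ∏ p ∈ T, p := by
      intro T hT
      exact prod_insert fun h => hqP (mem_powerset.1 hT h)
    -- the part without `q`
    have i1 := ih hP' c hc0 hc
    have e1 : ∑ J ∈ P'.powerset, (if Z ≤ c * ((∏ p ∈ J, p : ℕ) : ℝ) ∧
        c * ((∏ p ∈ J, p : ℕ) : ℝ) < Z * (mn0 J : ℝ) ∧ (∀ p ∈ insert q P', mn0 J ≤ p) then
        (-1 : ℝ) ^ J.card else 0) = ∑ J ∈ P'.powerset, (if Z ≤ c * ((∏ p ∈ J, p : ℕ) : ℝ) ∧
        c * ((∏ p ∈ J, p : ℕ) : ℝ) < Z * (mn0 J : ℝ) ∧ (∀ p ∈ P', mn0 J ≤ p) then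
        (-1 : ℝ) ^ J.card else 0) := by
      refine sum_congr rfl fun J hJ => ?_
      have hJP := mem_powerset.1 hJ
      refine if_congr ?_ rfl rfl
      refine and_congr_right fun hZ => and_congr_right fun _ => ?_
      constructor
      · exact fun h p hp => h p (mem_insert_of_mem hp)
      · intro h p hp
        rw [mem_insert] at hp
        rcases hp with rfl | hp
        · have hJne : J.Nonempty := by
            rw [nonempty_iff_ne_empty]
            rintro rfl
            rw [prod_empty, Nat.cast_one, mul_one] at hZ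
            linarith
          exact (hq _ (hJP (mn0_mem hJne))).le
        · exact h p hp
    rw [e1]
    -- the part with `q`
    have key : ∑ T ∈ P'.powerset, (-1 : ℝ) ^ (insert q T).card =
        ∑ T ∈ P'.powerset, (if c * ((∏ p ∈ insert q T, p : ℕ) : ℝ) < Z then
          (-1 : ℝ) ^ (insert q T).card else 0) +
        ∑ J ∈ P'.powerset, (if Z ≤ c * ((∏ p ∈ insert q J, p : ℕ) : ℝ) ∧
          c * ((∏ p ∈ insert q J, p : ℕ) : ℝ) < Z * (mn0 (insert q J) : ℝ) ∧
          (∀ p ∈ insert q P', mn0 (insert q J) ≤ p) then (-1 : ℝ) ^ (insert q J).card else 0) := by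
      have f0 : ∑ T ∈ P'.powerset, (-1 : ℝ) ^ (insert q T).card =
          -∑ T ∈ P'.powerset, (-1 : ℝ) ^ T.card := by
        rw [← sum_neg_distrib]
        refine sum_congr rfl fun T hT => ?_
        rw [hcard T hT, pow_succ]
        ring
      by_cases hcq : c * q < Z
      · have i2 := ih hP' (c * q) (by positivity) hcq
        have f1 : ∑ T ∈ P'.powerset, (if c * ((∏ p ∈ insert q T, p : ℕ) : ℝ) < Z then
            (-1 : ℝ) ^ (insert q T).card else 0) =
            -∑ T ∈ P'.powerset, (if c * q * ((∏ p ∈ T, p : ℕ) : ℝ) < Z then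
              (-1 : ℝ) ^ T.card else 0) := by
          rw [← sum_neg_distrib]
          refine sum_congr rfl fun T hT => ?_
          rw [hcard T hT, hprod T hT, pow_succ, Nat.cast_mul, ← mul_assoc]
          split_ifs <;> ring
        have f2 : ∑ J ∈ P'.powerset, (if Z ≤ c * ((∏ p ∈ insert q J, p : ℕ) : ℝ) ∧
            c * ((∏ p ∈ insert q J, p : ℕ) : ℝ) < Z * (mn0 (insert q J) : ℝ) ∧
            (∀ p ∈ insert q P', mn0 (insert q J) ≤ p) then (-1 : ℝ) ^ (insert q J).card else 0) =
            -∑ J ∈ P'.powerset, (if Z ≤ c * q * ((∏ p ∈ J, p : ℕ) : ℝ) ∧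
              c * q * ((∏ p ∈ J, p : ℕ) : ℝ) < Z * (mn0 J : ℝ) ∧ (∀ p ∈ P', mn0 J ≤ p) then
              (-1 : ℝ) ^ J.card else 0) := by
          rw [← sum_neg_distrib]
          refine sum_congr rfl fun J hJ => ?_
          have hJP := mem_powerset.1 hJ
          rw [hcard J hJ, hprod J hJ, pow_succ, Nat.cast_mul, ← mul_assoc]
          rcases J.eq_empty_or_nonempty with hJe | hJne
          · rw [hJe, prod_empty, Nat.cast_one, mul_one]
            rw [if_neg (fun h => absurd h.1 (by linarith)),
              if_neg (fun h => absurd h.1 (by linarith)), neg_zero]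
          · rw [mn0_insert hJne (fun p hp => hq p (hJP hp))]
            have : (∀ p ∈ insert q P', mn0 J ≤ p) ↔ (∀ p ∈ P', mn0 J ≤ p) := by
              constructor
              · exact fun h p hp => h p (mem_insert_of_mem hp)
              · intro h p hp
                rw [mem_insert] at hp
                rcases hp with rfl | hp
                · exact (hq _ (hJP (mn0_mem hJne))).le
                · exact h p hp
            rw [if_congr (and_congr_right fun _ => and_congr_right fun _ => this) rfl rfl]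
            split_ifs <;> ring
        rw [f0, f1, f2, i2]
        ring
      · push Not at hcq
        have hone : ∀ T ∈ P'.powerset, (1 : ℝ) ≤ ((∏ p ∈ T, p : ℕ) : ℝ) := by
          intro T hT
          have : 1 ≤ ∏ p ∈ T, p :=
            Finset.one_le_prod' fun p hp => hP' p (mem_powerset.1 hT hp)
          exact_mod_cast this
        have hcq0 : 0 ≤ c * q := by positivity
        have f1 : ∑ T ∈ P'.powerset, (if c * ((∏ p ∈ insert q T, p : ℕ) : ℝ) < Z then
            (-1 : ℝ) ^ (insert q T).card else 0) = 0 := by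
          refine sum_eq_zero fun T hT => ?_
          rw [if_neg]
          rw [hprod T hT, Nat.cast_mul, ← mul_assoc]
          have := hone T hT
          nlinarith
        have f2 : ∀ J ∈ P'.powerset, J ≠ ∅ → (if Z ≤ c * ((∏ p ∈ insert q J, p : ℕ) : ℝ) ∧
            c * ((∏ p ∈ insert q J, p : ℕ) : ℝ) < Z * (mn0 (insert q J) : ℝ) ∧
            (∀ p ∈ insert q P', mn0 (insert q J) ≤ p) then (-1 : ℝ) ^ (insert q J).card else 0) =
            (0 : ℝ) := by
          intro J hJ hJe
          have hJP := mem_powerset.1 hJ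
          have hJne : J.Nonempty := nonempty_iff_ne_empty.2 hJe
          rw [if_neg]
          rintro ⟨_, h2, _⟩
          rw [hprod J hJ, Nat.cast_mul, ← mul_assoc,
            mn0_insert hJne (fun p hp => hq p (hJP hp))] at h2
          have h3 : (mn0 J : ℝ) ≤ ((∏ p ∈ J, p : ℕ) : ℝ) := by
            exact_mod_cast mn0_le_prod fun p hp => hP' p (hJP hp)
          have h4 : (0 : ℝ) ≤ mn0 J := Nat.cast_nonneg _
          have h5 : Z * (mn0 J : ℝ) ≤ c * q * ((∏ p ∈ J, p : ℕ) : ℝ) :=
            (mul_le_mul_of_nonneg_right hcq h4).trans (mul_le_mul_of_nonneg_left h3 hcq0)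
          linarith
        rw [f0, f1, zero_add, sum_eq_single ∅ f2 (fun h => absurd (empty_mem_powerset P') h)]
        rw [insert_empty_eq, prod_singleton, card_singleton, mn0_singleton, pow_one]
        by_cases hPe : P' = ∅
        · rw [hPe, powerset_empty, sum_singleton, card_empty, pow_zero, if_pos]
          refine ⟨hcq, ?_, ?_⟩
          · have : 0 < (q : ℝ) := by linarith
            exact mul_lt_mul_of_pos_right hc this
          · intro p hp
            rw [insert_empty_eq, mem_singleton] at hp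
            exact hp.ge
        · have hne : P'.Nonempty := nonempty_iff_ne_empty.2 hPe
          have h0 : ∑ T ∈ P'.powerset, (-1 : ℝ) ^ T.card = 0 := by
            have := sum_powerset_neg_one_pow_card_of_nonempty hne
            have h' : ((∑ T ∈ P'.powerset, (-1 : ℤ) ^ T.card : ℤ) : ℝ) = 0 := by
              rw [this]; simp
            push_cast at h'
            exact h'
          rw [h0, neg_zero, if_neg]
          rintro ⟨_, _, h3⟩
          obtain ⟨p, hp⟩ := hne
          have h4 := h3 p (mem_insert_of_mem hp)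
          have h5 := hq p hp
          omega
    rw [i1, key]
    ring

end Pool.MP_dd84fd_nt.HX
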