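import Pool.Agent.Lib.MP_dd84fd_nt.HX.DcDefs
import Pool.Agent.Lib.MP_dd84fd_nt.HX.DcComb

/-!
# HX-DcSmo (0.6 h): Lemma 1 (rough to smooth)

Proof. `P = k.primeFactors.filter (· < z)`. All sums run over squarefree divisors (otherwise `mr = 0`) which are `z`-smooth, i.e. over the products `∏ p ∈ T, p`, `T ⊆ P` (bijection `T ↦ ∏ T`, inverse `primeFactors`;
`Nat.sum_divisors_filter_squarefree` or `Finset.sum_nbij'`; `mr (∏ T) = (-1)^#T`: `ArithmeticFunction.moebius_apply_of_squarefree`, `(∏ T).minFac = mn0 T` for `T` nonempty). `rg z k = Σ_{T ⊆ P} (-1)^#T`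
(`Finset.sum_powerset_neg_one_pow_card`: `1` iff `P = ∅` iff `Rgh z k`). The condition `∀ p ∈ (k / e).primeFactors, e.minFac ≤ p` is equivalent to `∀ p ∈ P, mn0 T ≤ p` for `e = ∏ T ∣ k`, `T` nonempty: a prime factor `p < min T` of `k / e`
divides `k` and is `< z`; conversely a prime `p ∈ P`, `p < min T` does not divide `e`, so it divides `k / e`. Then `comb_id` with `c`.
-/

set_option autoImplicit false

namespace Pool.MP_dd84fd_nt.HX

open Finset

theorem DcSmo_mr {T : Finset ℕ} (hT : ∀ p ∈ T, p.Prime) :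
    mr (∏ p ∈ T, p) = (-1) ^ T.card := by
  have hsq : Squarefree (∏ p ∈ T, p) := by
    refine Finset.squarefree_prod_of_pairwise_isCoprime (fun p hp q hq hpq => ?_)
      fun p hp => (hT p hp).squarefree
    simp only [Function.onFun, ← Nat.coprime_iff_isRelPrime]
    exact (Nat.coprime_primes (hT p hp) (hT q hq)).2 hpq
  unfold mr
  rw [ArithmeticFunction.moebius_apply_of_squarefree hsq]
  have h1 : ArithmeticFunction.cardFactors (∏ p ∈ T, p) = T.card := by
    rw [← (ArithmeticFunction.cardDistinctFactors_eq_cardFactors_iff_squarefree hsq.ne_zero).2 hsq,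
      ArithmeticFunction.cardDistinctFactors_apply]
    have h2 : (∏ p ∈ T, p).primeFactors = T := Nat.primeFactors_prod hT
    calc (∏ p ∈ T, p).primeFactorsList.dedup.length = (∏ p ∈ T, p).primeFactors.card := by
          rfl
      _ = T.card := by rw [h2]
  rw [h1]
  push_cast
  rfl

open Classical in
theorem DcSmo_sum (z k : ℕ) (hk : k ≠ 0) (F : ℕ → ℝ) :
    ∑ T ∈ (k.primeFactors.filter (fun p => p < z)).powerset,
      (-1 : ℝ) ^ T.card * F (∏ p ∈ T, p) =
    ∑ f ∈ k.divisors, (if Smo z f then mr f * F f else 0) := by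
  have hpr : ∀ T ∈ (k.primeFactors.filter (fun p => p < z)).powerset, ∀ p ∈ T, p.Prime := by
    intro T hT p hp
    exact Nat.prime_of_mem_primeFactors (mem_filter.1 (mem_powerset.1 hT hp)).1
  apply Finset.sum_of_injOn (fun T : Finset ℕ => ∏ p ∈ T, p)
  · intro T hT T' hT' h
    have h1 : (∏ p ∈ T, p).primeFactors = (∏ p ∈ T', p).primeFactors := by
      show (∏ p ∈ T, p).primeFactors = (∏ p ∈ T', p).primeFactors
      have h' : (∏ p ∈ T, p) = ∏ p ∈ T', p := h
      rw [h']
    rwa [Nat.primeFactors_prod (hpr T hT), Nat.primeFactors_prod (hpr T' hT')] at h1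
  · intro T hT
    show (∏ p ∈ T, p) ∈ k.divisors
    rw [Nat.mem_divisors]
    refine ⟨?_, hk⟩
    refine (Finset.prod_dvd_prod_of_subset T k.primeFactors (fun p => p) ?_).trans
      (Nat.prod_primeFactors_dvd k)
    exact (mem_powerset.1 hT).trans (filter_subset _ _)
  · intro f hf hnot
    split_ifs with hs
    · by_cases hsq : Squarefree f
      · exfalso
        apply hnot
        refine ⟨f.primeFactors, ?_, Nat.prod_primeFactors_of_squarefree hsq⟩
        rw [Finset.mem_coe, mem_powerset]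
        intro p hp
        rw [mem_filter]
        exact ⟨Nat.primeFactors_mono (Nat.dvd_of_mem_divisors hf) hk hp, hs p hp⟩
      · unfold mr
        rw [ArithmeticFunction.moebius_eq_zero_of_not_squarefree hsq, Int.cast_zero, zero_mul]
    · rfl
  · intro T hT
    have hs : Smo z (∏ p ∈ T, p) := by
      intro p hp
      rw [Nat.primeFactors_prod (hpr T hT)] at hp
      exact (mem_filter.1 (mem_powerset.1 hT hp)).2
    show (-1 : ℝ) ^ T.card * F (∏ p ∈ T, p) =
      if Smo z (∏ p ∈ T, p) then mr (∏ p ∈ T, p) * F (∏ p ∈ T, p) else 0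
    rw [if_pos hs, DcSmo_mr (hpr T hT)]

theorem DcSmo_minFac {T : Finset ℕ} (hT : ∀ p ∈ T, p.Prime) (hne : T.Nonempty) :
    (∏ p ∈ T, p).minFac = mn0 T := by
  have h2 : (∏ p ∈ T, p).primeFactors = T := Nat.primeFactors_prod hT
  have hmn : mn0 T = T.min' hne := by
    unfold mn0
    rw [dif_pos hne]
  have h0 : (∏ p ∈ T, p) ≠ 0 := Finset.prod_ne_zero_iff.2 fun p hp => (hT p hp).ne_zero
  rw [hmn]
  have hmem := T.min'_mem hne
  have h1 : (∏ p ∈ T, p) ≠ 1 := by
    intro h
    rw [h, Nat.primeFactors_one] at h2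
    rw [← h2] at hne
    exact Finset.not_nonempty_empty hne
  apply le_antisymm
  · exact Nat.minFac_le_of_dvd (hT _ hmem).two_le (Finset.dvd_prod_of_mem (fun p => p) hmem)
  · apply T.min'_le
    rw [← h2, Nat.mem_primeFactors]
    exact ⟨by rw [h2]; exact Nat.minFac_prime h1, by rw [h2]; exact Nat.minFac_dvd _, h0⟩

open Classical in
theorem rg_smo (z c k : ℕ) (Z : ℝ) (hc : (c : ℝ) < Z) (hk : k ≠ 0) :
    rg z k = ∑ f ∈ k.divisors, (if Smo z f ∧ (c : ℝ) * f < Z then mr f else 0) +
      ∑ e ∈ k.divisors, (if Smo z e ∧ Z ≤ (c : ℝ) * e ∧ (c : ℝ) * e < Z * (e.minFac : ℝ) ∧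
        (∀ p ∈ (k / e).primeFactors, e.minFac ≤ p) then mr e else 0) := by
  set P := k.primeFactors.filter (fun p => p < z) with hPdef
  have hPpr : ∀ p ∈ P, p.Prime := fun p hp => Nat.prime_of_mem_primeFactors (mem_filter.1 hp).1
  have hpr : ∀ T ∈ P.powerset, ∀ p ∈ T, p.Prime := by
    intro T hT p hp
    exact hPpr p (mem_powerset.1 hT hp)
  have hL : rg z k = ∑ T ∈ P.powerset, (-1 : ℝ) ^ T.card := by
    have h1 := Finset.sum_powerset_neg_one_pow_card (x := P)
    have h2 : (∑ T ∈ P.powerset, (-1 : ℝ) ^ T.card) =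
        ((∑ T ∈ P.powerset, (-1 : ℤ) ^ T.card : ℤ) : ℝ) := by push_cast; rfl
    rw [h2, h1]
    have h3 : Rgh z k ↔ P = ∅ := by
      rw [hPdef, Finset.filter_eq_empty_iff]
      unfold Rgh
      constructor
      · intro h p hp
        exact not_lt.2 (h.2 p hp)
      · intro h
        exact ⟨hk, fun p hp => not_lt.1 (h hp)⟩
    unfold rg
    by_cases h4 : P = ∅
    · rw [if_pos (h3.2 h4), if_pos h4, Int.cast_one]
    · rw [if_neg (fun h => h4 (h3.1 h)), if_neg h4, Int.cast_zero]
  rw [hL, comb_id Z P (fun p hp => (hPpr p hp).one_lt.le) c (Nat.cast_nonneg c) hc]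
  congr 1
  · have h1 := DcSmo_sum z k hk (fun f => if (c : ℝ) * f < Z then 1 else 0)
    rw [← hPdef] at h1
    calc ∑ T ∈ P.powerset, (if (c : ℝ) * ((∏ p ∈ T, p : ℕ) : ℝ) < Z then (-1 : ℝ) ^ T.card else 0)
        = ∑ T ∈ P.powerset, (-1 : ℝ) ^ T.card *
          (if (c : ℝ) * ((∏ p ∈ T, p : ℕ) : ℝ) < Z then (1 : ℝ) else 0) := by
          refine Finset.sum_congr rfl fun T _ => ?_
          split_ifs <;> simp
      _ = ∑ f ∈ k.divisors, (if Smo z f then mr f * (if (c : ℝ) * f < Z then 1 else 0) else 0) :=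
          h1
      _ = _ := by
          refine Finset.sum_congr rfl fun f _ => ?_
          by_cases h2 : Smo z f <;> by_cases h3 : (c : ℝ) * f < Z <;> simp [h2, h3]
  · have h1 := DcSmo_sum z k hk (fun e => if Z ≤ (c : ℝ) * e ∧ (c : ℝ) * e < Z * (e.minFac : ℝ) ∧
        (∀ p ∈ (k / e).primeFactors, e.minFac ≤ p) then 1 else 0)
    rw [← hPdef] at h1
    calc ∑ J ∈ P.powerset, (if Z ≤ (c : ℝ) * ((∏ p ∈ J, p : ℕ) : ℝ) ∧
        (c : ℝ) * ((∏ p ∈ J, p : ℕ) : ℝ) < Z * (mn0 J : ℝ) ∧ (∀ p ∈ P, mn0 J ≤ p) then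
        (-1 : ℝ) ^ J.card else 0)
        = ∑ J ∈ P.powerset, (-1 : ℝ) ^ J.card *
          (if Z ≤ (c : ℝ) * ((∏ p ∈ J, p : ℕ) : ℝ) ∧
            (c : ℝ) * ((∏ p ∈ J, p : ℕ) : ℝ) < Z * ((∏ p ∈ J, p : ℕ).minFac : ℝ) ∧
            (∀ p ∈ (k / (∏ p ∈ J, p : ℕ)).primeFactors, (∏ p ∈ J, p : ℕ).minFac ≤ p)
            then (1 : ℝ) else 0) := by
          refine Finset.sum_congr rfl fun J hJ => ?_
          rcases J.eq_empty_or_nonempty with rfl | hne
          · have h2 : ¬ (Z ≤ (c : ℝ) * ((∏ p ∈ (∅ : Finset ℕ), p : ℕ) : ℝ)) := by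
              rw [Finset.prod_empty, Nat.cast_one, mul_one, not_le]
              exact hc
            rw [if_neg (fun h => h2 h.1), if_neg (fun h => h2 h.1), mul_zero]
          · have h3 := DcSmo_minFac (hpr J hJ) hne
            have hPF : (∏ p ∈ J, p).primeFactors = J := Nat.primeFactors_prod (hpr J hJ)
            have hmn : mn0 J = J.min' hne := by
              unfold mn0
              rw [dif_pos hne]
            have hmem : mn0 J ∈ J := by rw [hmn]; exact J.min'_mem hne
            have hle : ∀ p ∈ J, mn0 J ≤ p := fun p hp => by rw [hmn]; exact J.min'_le p hp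
            have hdvd : (∏ p ∈ J, p) ∣ k := by
              refine (Finset.prod_dvd_prod_of_subset J k.primeFactors (fun p => p) ?_).trans
                (Nat.prod_primeFactors_dvd k)
              exact (mem_powerset.1 hJ).trans (filter_subset _ _)
            obtain ⟨b, hb⟩ := hdvd
            have he0 : 0 < ∏ p ∈ J, p :=
              Nat.pos_of_ne_zero (Finset.prod_ne_zero_iff.2 fun p hp => (hpr J hJ p hp).ne_zero)
            have hkb : k / (∏ p ∈ J, p) = b := by
              rw [hb, Nat.mul_div_cancel_left _ he0]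
            have hb0 : b ≠ 0 := by
              rintro rfl
              exact hk (by rw [hb, mul_zero])
            have hiff : (∀ p ∈ P, mn0 J ≤ p) ↔
                (∀ p ∈ (k / (∏ p ∈ J, p : ℕ)).primeFactors, (∏ p ∈ J, p : ℕ).minFac ≤ p) := by
              rw [h3, hkb]
              constructor
              · intro h p hp
                have hp1 := Nat.prime_of_mem_primeFactors hp
                have hp2 : p ∣ k := by
                  rw [hb]
                  exact (Nat.dvd_of_mem_primeFactors hp).mul_left _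
                by_cases hpz : p < z
                · exact h p (mem_filter.2 ⟨Nat.mem_primeFactors.2 ⟨hp1, hp2, hk⟩, hpz⟩)
                · have h4 := (mem_filter.1 (mem_powerset.1 hJ hmem)).2
                  omega
              · intro h p hp
                by_cases hpJ : p ∈ J
                · exact hle p hpJ
                · apply h
                  have hp1 := hPpr p hp
                  have hp2 : p ∣ k := Nat.dvd_of_mem_primeFactors (mem_filter.1 hp).1
                  rw [hb] at hp2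
                  rcases (Nat.Prime.dvd_mul hp1).1 hp2 with h5 | h5
                  · exfalso
                    apply hpJ
                    rw [← hPF]
                    exact Nat.mem_primeFactors.2 ⟨hp1, h5, he0.ne'⟩
                  · exact Nat.mem_primeFactors.2 ⟨hp1, h5, hb0⟩
            have hcond : (Z ≤ (c : ℝ) * ((∏ p ∈ J, p : ℕ) : ℝ) ∧
                (c : ℝ) * ((∏ p ∈ J, p : ℕ) : ℝ) < Z * (mn0 J : ℝ) ∧ (∀ p ∈ P, mn0 J ≤ p)) ↔
              (Z ≤ (c : ℝ) * ((∏ p ∈ J, p : ℕ) : ℝ) ∧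
                (c : ℝ) * ((∏ p ∈ J, p : ℕ) : ℝ) < Z * ((∏ p ∈ J, p : ℕ).minFac : ℝ) ∧
                (∀ p ∈ (k / (∏ p ∈ J, p : ℕ)).primeFactors, (∏ p ∈ J, p : ℕ).minFac ≤ p)) := by
              rw [hiff, h3]
            by_cases h6 : (Z ≤ (c : ℝ) * ((∏ p ∈ J, p : ℕ) : ℝ) ∧
                (c : ℝ) * ((∏ p ∈ J, p : ℕ) : ℝ) < Z * (mn0 J : ℝ) ∧ (∀ p ∈ P, mn0 J ≤ p))
            · rw [if_pos h6, if_pos (hcond.1 h6), mul_one]
            · rw [if_neg h6, if_neg (fun h => h6 (hcond.2 h)), mul_zero]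
      _ = ∑ e ∈ k.divisors, (if Smo z e then mr e * (if Z ≤ (c : ℝ) * e ∧
            (c : ℝ) * e < Z * (e.minFac : ℝ) ∧
            (∀ p ∈ (k / e).primeFactors, e.minFac ≤ p) then 1 else 0) else 0) := h1
      _ = _ := by
          refine Finset.sum_congr rfl fun e _ => ?_
          by_cases h2 : Smo z e
          · rw [if_pos h2]
            by_cases h3 : Z ≤ (c : ℝ) * e ∧ (c : ℝ) * e < Z * (e.minFac : ℝ) ∧
              (∀ p ∈ (k / e).primeFactors, e.minFac ≤ p)
            · rw [if_pos h3, if_pos ⟨h2, h3⟩, mul_one]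
            · rw [if_neg h3, if_neg (fun h => h3 h.2), mul_zero]
          · rw [if_neg h2, if_neg (fun h => h2 h.1)]

end Pool.MP_dd84fd_nt.HX
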