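import Pool.Agent.Lib.MP_dd84fd_nt.HX.GrDefs
import Pool.Agent.Lib.MP_dd84fd_nt.PL.Model

/-!
# HX-GrMod (0.4 h): the model `f1` is a short divisor sum plus an `L²`-small remainder

Copy of the proof of `PL.model_split` (`PL/Model.lean`, copy the private lemmas `model_f1`, `model_wX`, `model_V0`, `model_tail`, `model_count`), without the factor `1/log n` and stated for the coefficients:
`v d = R μ(d)` for `d ∣ P`, `d ≤ V0 X`, `e n = R ∑_{d ∣ (n,P), d > V0 X} μ(d)`, `R = P/φ(P) ≤ log X`, `P = primorial (wX D' X)`.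
-/

set_option autoImplicit false

namespace Pool.MP_dd84fd_nt.HX

open Finset Pool.MP_67663b_nt.Odd Pool.MP_dd84fd_nt.En Pool.MP_dd84fd_nt.E2 Pool.MP_dd84fd_nt.LS
open Pool.MP_dd84fd_nt.L2G (nrm)
open Pool.MP_dd84fd_nt.GX
open Pool.MP_dd84fd_nt.PL (rr Fam V0)

/-- the sum over the multiples of `d` -/
private theorem grMod_mult (d t : ℕ) (hd : 0 < d) (g : ℕ → ℂ) :
    ∑ n ∈ (Icc 1 t).filter (fun n => d ∣ n), g n = ∑ k ∈ Icc 1 (t / d), g (d * k) := by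
  symm
  refine sum_bij (fun k _ => d * k) ?_ ?_ ?_ ?_
  · intro k hk
    rw [mem_Icc] at hk
    rw [mem_filter, mem_Icc]
    refine ⟨⟨Nat.mul_pos hd hk.1, ?_⟩, dvd_mul_right d k⟩
    calc d * k ≤ d * (t / d) := Nat.mul_le_mul_left d hk.2
      _ ≤ t := Nat.mul_div_le t d
  · intro k _ k' _ h
    exact Nat.eq_of_mul_eq_mul_left hd h
  · intro n hn
    rw [mem_filter, mem_Icc] at hn
    obtain ⟨k, rfl⟩ := hn.2
    refine ⟨k, ?_, rfl⟩
    rw [mem_Icc]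
    constructor
    · exact Nat.pos_of_mul_pos_left hn.1.1
    · rw [Nat.le_div_iff_mul_le hd, mul_comm]
      exact hn.1.2
  · intro k _
    rfl

/-- `f1` as a divisor sum -/
private theorem grMod_f1 (w n : ℕ) (hn : 0 < n) :
    f1 w n = (primorial w : ℝ) / (Nat.totient (primorial w) : ℝ) *
      ∑ d ∈ (primorial w).divisors.filter (fun d => d ∣ n),
        ((ArithmeticFunction.moebius d : ℤ) : ℝ) := by
  have hP : 0 < primorial w := primorial_pos w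
  set P := primorial w with hPdef
  have h2 : ∑ d ∈ P.divisors.filter (fun d => d ∣ n), ((ArithmeticFunction.moebius d : ℤ) : ℝ) =
      ((∑ d ∈ (Nat.gcd n P).divisors, ArithmeticFunction.moebius d : ℤ) : ℝ) := by
    push_cast
    refine sum_congr ?_ fun _ _ => rfl
    ext d
    rw [mem_filter, Nat.mem_divisors, Nat.mem_divisors]
    constructor
    · rintro ⟨⟨h3, _⟩, h4⟩
      exact ⟨Nat.dvd_gcd h4 h3, Nat.gcd_ne_zero_left hn.ne'⟩
    · rintro ⟨h3, _⟩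
      exact ⟨⟨h3.trans (Nat.gcd_dvd_right n P), hP.ne'⟩, h3.trans (Nat.gcd_dvd_left n P)⟩
  have h3 : (∑ d ∈ (Nat.gcd n P).divisors, ArithmeticFunction.moebius d : ℤ) =
      if Nat.gcd n P = 1 then 1 else 0 := by
    rw [← ArithmeticFunction.coe_mul_zeta_apply, ArithmeticFunction.moebius_mul_coe_zeta,
      ArithmeticFunction.one_apply]
  rw [h2, h3]
  unfold f1
  by_cases hc : Nat.Coprime n P
  · rw [if_pos hc, if_pos hc]
    push_cast
    ring
  · rw [if_neg hc, if_neg hc]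
    push_cast
    ring

private theorem grMod_wX (D' X : ℕ) (hL : 0 ≤ Real.log X) :
    ((wX D' X : ℕ) : ℝ) ≤ (Real.log X) ^ D' := by
  unfold wX
  exact Nat.floor_le (pow_nonneg hL D')

private theorem grMod_V0 (X : ℕ) (hX : 1 ≤ X) :
    (1 : ℝ) ≤ (V0 X : ℝ) ∧ (X : ℝ) ^ (1 / 4 : ℝ) / 2 ≤ (V0 X : ℝ) := by
  have ha : 1 ≤ Nat.sqrt X := Nat.sqrt_pos.2 hX
  have hb : 1 ≤ V0 X := Nat.sqrt_pos.2 ha
  have hbR : (1 : ℝ) ≤ (V0 X : ℝ) := by exact_mod_cast hb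
  refine ⟨hbR, ?_⟩
  have h1 : X < (Nat.sqrt X + 1) * (Nat.sqrt X + 1) := Nat.lt_succ_sqrt X
  have h2 : Nat.sqrt X < (V0 X + 1) * (V0 X + 1) := Nat.lt_succ_sqrt (Nat.sqrt X)
  have h3 : X < (V0 X + 1) ^ 4 := by
    have h4 : Nat.sqrt X + 1 ≤ (V0 X + 1) * (V0 X + 1) := h2
    calc X < (Nat.sqrt X + 1) * (Nat.sqrt X + 1) := h1
      _ ≤ ((V0 X + 1) * (V0 X + 1)) * ((V0 X + 1) * (V0 X + 1)) := Nat.mul_le_mul h4 h4
      _ = (V0 X + 1) ^ 4 := by ring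
  have h5 : (X : ℝ) ≤ ((V0 X : ℝ) + 1) ^ 4 := by exact_mod_cast h3.le
  have h6 : (X : ℝ) ^ (1 / 4 : ℝ) ≤ (V0 X : ℝ) + 1 := by
    calc (X : ℝ) ^ (1 / 4 : ℝ) ≤ (((V0 X : ℝ) + 1) ^ 4) ^ (1 / 4 : ℝ) :=
          Real.rpow_le_rpow (Nat.cast_nonneg X) h5 (by norm_num)
      _ = (V0 X : ℝ) + 1 := by
          rw [← Real.rpow_natCast, ← Real.rpow_mul (by positivity)]
          norm_num
  linarith

/-- the tail of the divisors of the primorial -/
private theorem grMod_tail (D' : ℕ) (hD : 1 ≤ D') : ∃ X0 : ℕ, ∀ X : ℕ, X0 ≤ X →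
    ∀ w : ℕ, (w : ℝ) ≤ (Real.log X) ^ D' →
    ∑ d ∈ (primorial w).divisors.filter (fun d : ℕ => (V0 X : ℝ) < (d : ℝ)), 1 / (d : ℝ) ≤
      2 * (X : ℝ) ^ (-(7 / (64 * (D' : ℝ)))) := by
  have hDR : (1 : ℝ) ≤ (D' : ℝ) := by exact_mod_cast hD
  obtain ⟨XR, hXR⟩ := rankin D' hD (ε := 1 / (64 * (D' : ℝ))) (by positivity)
  refine ⟨max XR 1, fun X hX w hw => ?_⟩
  have hX1 : 1 ≤ X := (le_max_right _ _).trans hX
  have hX0 : (0 : ℝ) < X := by exact_mod_cast hX1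
  obtain ⟨h1, h2⟩ := grMod_V0 X hX1
  refine (hXR X ((le_max_left _ _).trans hX) w hw _ h1).1.trans ?_
  have h3 : (0 : ℝ) < (X : ℝ) ^ (1 / 4 : ℝ) / 2 := by positivity
  have h4 : (V0 X : ℝ) ^ (-(1 / (2 * (D' : ℝ)))) ≤
      ((X : ℝ) ^ (1 / 4 : ℝ) / 2) ^ (-(1 / (2 * (D' : ℝ)))) :=
    Real.rpow_le_rpow_of_nonpos h3 h2 (by
      have : 0 ≤ 1 / (2 * (D' : ℝ)) := by positivity
      linarith)
  have h5 : ((X : ℝ) ^ (1 / 4 : ℝ) / 2) ^ (-(1 / (2 * (D' : ℝ)))) ≤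
      2 * (X : ℝ) ^ (-(8 / (64 * (D' : ℝ)))) := by
    rw [Real.div_rpow (by positivity) (by norm_num), ← Real.rpow_mul hX0.le,
      Real.rpow_neg (by norm_num : (0 : ℝ) ≤ 2), div_inv_eq_mul, mul_comm]
    have e1 : (1 / 4 : ℝ) * -(1 / (2 * (D' : ℝ))) = -(8 / (64 * (D' : ℝ))) := by
      field_simp
      norm_num
    rw [e1]
    refine mul_le_mul_of_nonneg_right ?_ (Real.rpow_nonneg hX0.le _)
    calc (2 : ℝ) ^ (1 / (2 * (D' : ℝ))) ≤ (2 : ℝ) ^ (1 : ℝ) := by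
          apply Real.rpow_le_rpow_of_exponent_le (by norm_num)
          rw [div_le_one (by positivity)]
          linarith
      _ = 2 := Real.rpow_one 2
  calc (X : ℝ) ^ (1 / (64 * (D' : ℝ))) * (V0 X : ℝ) ^ (-(1 / (2 * (D' : ℝ))))
      ≤ (X : ℝ) ^ (1 / (64 * (D' : ℝ))) * (2 * (X : ℝ) ^ (-(8 / (64 * (D' : ℝ))))) :=
        mul_le_mul_of_nonneg_left (h4.trans h5) (Real.rpow_nonneg hX0.le _)
    _ = 2 * ((X : ℝ) ^ (1 / (64 * (D' : ℝ))) * (X : ℝ) ^ (-(8 / (64 * (D' : ℝ))))) := by ring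
    _ = 2 * (X : ℝ) ^ (-(7 / (64 * (D' : ℝ)))) := by
        rw [← Real.rpow_add hX0]
        congr 2
        field_simp
        norm_num

/-- the number of `n ≤ X` with a divisor in `DD` -/
private theorem grMod_count (X : ℕ) (DD : Finset ℕ) (hDD : ∀ d ∈ DD, 0 < d) :
    ((((Icc 1 X).filter (fun n => ∃ d ∈ DD, d ∣ n)).card : ℕ) : ℝ) ≤
      X * ∑ d ∈ DD, 1 / (d : ℝ) := by
  have h1 : ((Icc 1 X).filter (fun n => ∃ d ∈ DD, d ∣ n)).card ≤
      ∑ d ∈ DD, ((Icc 1 X).filter (fun n => d ∣ n)).card := by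
    have h2 : (Icc 1 X).filter (fun n => ∃ d ∈ DD, d ∣ n) ⊆
        DD.biUnion (fun d => (Icc 1 X).filter (fun n => d ∣ n)) := by
      intro n hn
      rw [mem_filter] at hn
      obtain ⟨hn1, d, hd, hdn⟩ := hn
      rw [mem_biUnion]
      exact ⟨d, hd, mem_filter.2 ⟨hn1, hdn⟩⟩
    exact (card_le_card h2).trans card_biUnion_le
  have h3 : ∀ d ∈ DD, ((((Icc 1 X).filter (fun n => d ∣ n)).card : ℕ) : ℝ) ≤ X * (1 / (d : ℝ)) := by
    intro d hd
    have h4 : ((Icc 1 X).filter (fun n => d ∣ n)).card = X / d := by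
      have h5 := grMod_mult d X (hDD d hd) (fun _ => 1)
      rw [Finset.sum_const, Finset.sum_const, Nat.card_Icc] at h5
      simp only [nsmul_eq_mul, mul_one, Nat.add_sub_cancel] at h5
      exact_mod_cast h5
    rw [h4, mul_one_div]
    exact Nat.cast_div_le
  calc ((((Icc 1 X).filter (fun n => ∃ d ∈ DD, d ∣ n)).card : ℕ) : ℝ)
      ≤ ((∑ d ∈ DD, ((Icc 1 X).filter (fun n => d ∣ n)).card : ℕ) : ℝ) := by exact_mod_cast h1
    _ = ∑ d ∈ DD, ((((Icc 1 X).filter (fun n => d ∣ n)).card : ℕ) : ℝ) := by push_cast; rfl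
    _ ≤ ∑ d ∈ DD, X * (1 / (d : ℝ)) := Finset.sum_le_sum h3
    _ = X * ∑ d ∈ DD, 1 / (d : ℝ) := by rw [Finset.mul_sum]

theorem model_coef (D' : ℕ) (hD : 1 ≤ D') : ∃ η : ℝ, 0 < η ∧ ∃ X0 : ℕ, ∀ X : ℕ, X0 ≤ X →
    ∃ (v : ℕ → ℝ) (e : ℕ → ℝ), (∀ d, |v d| ≤ Real.log X) ∧
      (∀ d : ℕ, (X : ℝ) ^ (1 / 4 : ℝ) < d → v d = 0) ∧
      ∑ n ∈ Icc 1 X, e n ^ 2 ≤ (X : ℝ) ^ (1 - η) ∧
      ∀ n ∈ Icc 1 X, f1 (wX D' X) n = ∑ d ∈ n.divisors, v d + e n := by
  classical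
  have hDR : (1 : ℝ) ≤ (D' : ℝ) := by exact_mod_cast hD
  obtain ⟨C0, hC0⟩ := L2G.div_mom 4
  obtain ⟨X1, hX1⟩ := f1_le D'
  obtain ⟨X2, hX2⟩ := grMod_tail D' hD
  obtain ⟨X3, hX3⟩ := MP_log_large 1
  obtain ⟨X4, hX4⟩ := MP_log_pow (324 * 2 ^ C0) (4 + C0) (ε := 3 / (64 * (D' : ℝ))) (by positivity)
  refine ⟨1 / (32 * (D' : ℝ)), by positivity, max (max X1 X2) (max (max X3 X4) 1),
    fun X hX => ?_⟩
  simp only [max_le_iff] at hX
  obtain ⟨⟨hX1', hX2'⟩, ⟨hX3', hX4'⟩, hXone⟩ := hX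
  have hX0 : (0 : ℝ) < X := by exact_mod_cast hXone
  set L := Real.log X with hL
  have hL1 : 1 ≤ L := hX3 X hX3'
  have hL0 : 0 < L := by linarith
  obtain ⟨w, hw⟩ : ∃ w, wX D' X = w := ⟨_, rfl⟩
  have hwL : (w : ℝ) ≤ L ^ D' := by
    rw [← hw]
    exact grMod_wX D' X hL0.le
  rw [hw]
  obtain ⟨hPφ, -⟩ := hX1 X hX1' w hwL
  have htail := hX2 X hX2' w hwL
  obtain ⟨P, hP⟩ : ∃ P, primorial w = P := ⟨_, rfl⟩
  have hf1 := fun n hn => grMod_f1 w n hn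
  rw [hP] at hPφ htail hf1
  obtain ⟨R, hR⟩ : ∃ R : ℝ, (P : ℝ) / (Nat.totient P : ℝ) = R := ⟨_, rfl⟩
  rw [hR] at hPφ hf1
  have hR0 : 0 ≤ R := by rw [← hR]; positivity
  have hmu : ∀ d : ℕ, |((ArithmeticFunction.moebius d : ℤ) : ℝ)| ≤ 1 := fun d => by
    exact_mod_cast ArithmeticFunction.abs_moebius_le_one
  set z := V0 X with hz
  set DD := P.divisors.filter (fun d : ℕ => (z : ℝ) < (d : ℝ)) with hDD
  let v : ℕ → ℝ := fun d => if d ∈ P.divisors ∧ d ≤ z then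
    R * ((ArithmeticFunction.moebius d : ℤ) : ℝ) else 0
  let e : ℕ → ℝ := fun n => R * ∑ d ∈ DD.filter (fun d => d ∣ n),
    ((ArithmeticFunction.moebius d : ℤ) : ℝ)
  refine ⟨v, e, ?_, ?_, ?_, ?_⟩
  · intro d
    show |if d ∈ P.divisors ∧ d ≤ z then R * ((ArithmeticFunction.moebius d : ℤ) : ℝ) else 0| ≤ L
    split_ifs with h
    · rw [abs_mul, abs_of_nonneg hR0]
      calc R * |((ArithmeticFunction.moebius d : ℤ) : ℝ)| ≤ R * 1 :=
            mul_le_mul_of_nonneg_left (hmu d) hR0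
        _ ≤ L := by rw [mul_one]; exact hPφ
    · rw [abs_zero]
      exact hL0.le
  · intro d hd
    refine if_neg (fun h => ?_)
    have h1 : (d : ℝ) ≤ (z : ℝ) := by exact_mod_cast h.2
    have h2 : (z : ℝ) ≤ (X : ℝ) ^ (1 / 4 : ℝ) := by
      have h3 : z ^ 4 ≤ X := by
        have h4 : z * z ≤ Nat.sqrt X := Nat.sqrt_le (Nat.sqrt X)
        have h5 : Nat.sqrt X * Nat.sqrt X ≤ X := Nat.sqrt_le X
        calc z ^ 4 = (z * z) * (z * z) := by ring
          _ ≤ Nat.sqrt X * Nat.sqrt X := Nat.mul_le_mul h4 h4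
          _ ≤ X := h5
      have h6 : ((z : ℝ)) ^ 4 ≤ (X : ℝ) := by exact_mod_cast h3
      calc (z : ℝ) = (((z : ℝ)) ^ 4) ^ (1 / 4 : ℝ) := by
            rw [← Real.rpow_natCast, ← Real.rpow_mul (Nat.cast_nonneg z)]
            norm_num
        _ ≤ (X : ℝ) ^ (1 / 4 : ℝ) := Real.rpow_le_rpow (by positivity) h6 (by norm_num)
    linarith
  · -- the remainder in mean square
    have hDDpos : ∀ d ∈ DD, 0 < d := fun d hd =>
      Nat.pos_of_mem_divisors (Finset.mem_filter.1 hd).1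
    have he : ∀ n ∈ Icc 1 X, e n ^ 2 ≤ (9 / 4 * L ^ 2) *
        ((n.divisors.card : ℝ) ^ 2 * (if ∃ d ∈ DD, d ∣ n then 1 else 0)) := by
      intro n hn
      have hn1 : 0 < n := (mem_Icc.1 hn).1
      have hne : |e n| = R * |∑ d ∈ DD.filter (fun d => d ∣ n),
          ((ArithmeticFunction.moebius d : ℤ) : ℝ)| := by
        show |R * ∑ d ∈ DD.filter (fun d => d ∣ n), ((ArithmeticFunction.moebius d : ℤ) : ℝ)| = _
        rw [abs_mul, abs_of_nonneg hR0]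
      rw [← sq_abs (e n)]
      split_ifs with hex
      · have h1 : |∑ d ∈ DD.filter (fun d => d ∣ n),
            ((ArithmeticFunction.moebius d : ℤ) : ℝ)| ≤ n.divisors.card := by
          calc |∑ d ∈ DD.filter (fun d => d ∣ n), ((ArithmeticFunction.moebius d : ℤ) : ℝ)|
              ≤ ∑ d ∈ DD.filter (fun d => d ∣ n), |((ArithmeticFunction.moebius d : ℤ) : ℝ)| :=
                Finset.abs_sum_le_sum_abs _ _
            _ ≤ ∑ d ∈ DD.filter (fun d => d ∣ n), (1 : ℝ) := Finset.sum_le_sum fun d _ => hmu d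
            _ = ((DD.filter (fun d => d ∣ n)).card : ℝ) := by simp
            _ ≤ n.divisors.card := by
                have : DD.filter (fun d => d ∣ n) ⊆ n.divisors := by
                  intro d hd
                  rw [Nat.mem_divisors]
                  exact ⟨(mem_filter.1 hd).2, hn1.ne'⟩
                exact_mod_cast card_le_card this
        have h2 : |e n| ≤ 3 / 2 * (L * n.divisors.card) := by
          rw [hne]
          have h3 : R * |∑ d ∈ DD.filter (fun d => d ∣ n),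
              ((ArithmeticFunction.moebius d : ℤ) : ℝ)| ≤ L * n.divisors.card :=
            mul_le_mul hPφ h1 (abs_nonneg _) hL0.le
          have h4 : 0 ≤ L * (n.divisors.card : ℝ) := by positivity
          linarith
        calc |e n| ^ 2 ≤ (3 / 2 * (L * n.divisors.card)) ^ 2 :=
              pow_le_pow_left₀ (abs_nonneg _) h2 2
          _ = _ := by ring
      · have h1 : DD.filter (fun d => d ∣ n) = ∅ := by
          rw [Finset.filter_eq_empty_iff]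
          intro d hd hdn
          exact hex ⟨d, hd, hdn⟩
        rw [hne, h1]
        simp
    have hS : ∑ n ∈ Icc 1 X, e n ^ 2 ≤ (9 / 4 * L ^ 2) *
        ∑ n ∈ Icc 1 X, ((n.divisors.card : ℝ) ^ 2 * (if ∃ d ∈ DD, d ∣ n then 1 else 0)) := by
      rw [Finset.mul_sum]
      exact Finset.sum_le_sum he
    set S := ∑ n ∈ Icc 1 X, ((n.divisors.card : ℝ) ^ 2 * (if ∃ d ∈ DD, d ∣ n then 1 else 0))
      with hSdef
    have hS0 : 0 ≤ S := Finset.sum_nonneg fun n _ => by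
      split_ifs <;> positivity
    have hcs : S ^ 2 ≤ (∑ n ∈ Icc 1 X, ((n.divisors.card : ℝ) ^ 2) ^ 2) *
        ∑ n ∈ Icc 1 X, (if ∃ d ∈ DD, d ∣ n then (1 : ℝ) else 0) ^ 2 :=
      Finset.sum_mul_sq_le_sq_mul_sq _ _ _
    have hA : ∑ n ∈ Icc 1 X, ((n.divisors.card : ℝ) ^ 2) ^ 2 ≤ X * (1 + L) ^ C0 := by
      refine le_trans (le_of_eq ?_) (hC0 X hXone).1
      refine Finset.sum_congr rfl fun n _ => ?_
      rw [← pow_mul]
    have hB : ∑ n ∈ Icc 1 X, (if ∃ d ∈ DD, d ∣ n then (1 : ℝ) else 0) ^ 2 ≤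
        X * (2 * (X : ℝ) ^ (-(7 / (64 * (D' : ℝ))))) := by
      have h1 : ∑ n ∈ Icc 1 X, (if ∃ d ∈ DD, d ∣ n then (1 : ℝ) else 0) ^ 2 =
          ((((Icc 1 X).filter (fun n => ∃ d ∈ DD, d ∣ n)).card : ℕ) : ℝ) := by
        rw [Finset.card_filter]
        push_cast
        refine Finset.sum_congr rfl fun n _ => ?_
        split_ifs <;> norm_num
      rw [h1]
      exact (grMod_count X DD hDDpos).trans (mul_le_mul_of_nonneg_left htail hX0.le)
    have hB0 : 0 ≤ ∑ n ∈ Icc 1 X, (if ∃ d ∈ DD, d ∣ n then (1 : ℝ) else 0) ^ 2 :=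
      Finset.sum_nonneg fun n _ => sq_nonneg _
    have hLL : 324 * 2 ^ C0 * L ^ (4 + C0) ≤ (X : ℝ) ^ (3 / (64 * (D' : ℝ))) := hX4 X hX4'
    have h1L : (1 + L) ^ C0 ≤ 2 ^ C0 * L ^ C0 := by
      rw [← mul_pow]
      exact pow_le_pow_left₀ (by positivity) (by linarith) C0
    have hsq : (9 / 4 * L ^ 2 * S) ^ 2 ≤ ((X : ℝ) ^ (1 - 1 / (32 * (D' : ℝ)))) ^ 2 := by
      have e1 : ((X : ℝ) ^ (1 - 1 / (32 * (D' : ℝ)))) ^ 2 =
          X * X * ((X : ℝ) ^ (3 / (64 * (D' : ℝ))) * (X : ℝ) ^ (-(7 / (64 * (D' : ℝ))))) := by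
        rw [← Real.rpow_natCast, ← Real.rpow_mul hX0.le, ← Real.rpow_add hX0]
        have e2 : (X : ℝ) * X = (X : ℝ) ^ (2 : ℝ) := by
          rw [show (2 : ℝ) = ((2 : ℕ) : ℝ) by norm_num, Real.rpow_natCast]
          ring
        rw [e2, ← Real.rpow_add hX0]
        congr 1
        push_cast
        field_simp
        ring
      rw [e1]
      calc (9 / 4 * L ^ 2 * S) ^ 2 = 81 / 16 * L ^ 4 * S ^ 2 := by ring
        _ ≤ 81 / 16 * L ^ 4 * ((X * (1 + L) ^ C0) *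
              (X * (2 * (X : ℝ) ^ (-(7 / (64 * (D' : ℝ))))))) := by
            apply mul_le_mul_of_nonneg_left _ (by positivity)
            exact hcs.trans (mul_le_mul hA hB hB0 (by positivity))
        _ = X * X * ((81 / 8 * L ^ 4 * (1 + L) ^ C0) * (X : ℝ) ^ (-(7 / (64 * (D' : ℝ))))) := by
            ring
        _ ≤ X * X * ((X : ℝ) ^ (3 / (64 * (D' : ℝ))) * (X : ℝ) ^ (-(7 / (64 * (D' : ℝ))))) := by
            apply mul_le_mul_of_nonneg_left _ (by positivity)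
            apply mul_le_mul_of_nonneg_right _ (Real.rpow_nonneg hX0.le _)
            refine le_trans ?_ hLL
            calc 81 / 8 * L ^ 4 * (1 + L) ^ C0 ≤ 81 / 8 * L ^ 4 * (2 ^ C0 * L ^ C0) :=
                  mul_le_mul_of_nonneg_left h1L (by positivity)
              _ = 81 / 8 * (2 ^ C0 * L ^ (4 + C0)) := by rw [pow_add]; ring
              _ ≤ 324 * (2 ^ C0 * L ^ (4 + C0)) :=
                  mul_le_mul_of_nonneg_right (by norm_num) (by positivity)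
              _ = 324 * 2 ^ C0 * L ^ (4 + C0) := by ring
    have hLL0 : 0 ≤ 9 / 4 * L ^ 2 := mul_nonneg (by norm_num) (sq_nonneg L)
    have hfin : 9 / 4 * L ^ 2 * S ≤ (X : ℝ) ^ (1 - 1 / (32 * (D' : ℝ))) :=
      (sq_le_sq₀ (mul_nonneg hLL0 hS0) (Real.rpow_nonneg hX0.le _)).1 hsq
    exact hS.trans hfin
  · intro n hn
    have hn1 : 0 < n := (mem_Icc.1 hn).1
    have hv : ∑ d ∈ n.divisors, v d = R * ∑ d ∈ P.divisors.filter (fun d => d ≤ z ∧ d ∣ n),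
        ((ArithmeticFunction.moebius d : ℤ) : ℝ) := by
      show ∑ d ∈ n.divisors, (if d ∈ P.divisors ∧ d ≤ z then
        R * ((ArithmeticFunction.moebius d : ℤ) : ℝ) else 0) = _
      rw [← Finset.sum_filter, Finset.mul_sum]
      refine Finset.sum_congr ?_ fun _ _ => rfl
      ext d
      simp only [mem_filter, Nat.mem_divisors]
      constructor
      · rintro ⟨⟨h1, _⟩, h2, h3⟩
        exact ⟨h2, h3, h1⟩
      · rintro ⟨h2, h3, h1⟩
        exact ⟨⟨h1, hn1.ne'⟩, h2, h3⟩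
    have h5 : ∑ d ∈ P.divisors.filter (fun d => d ∣ n), ((ArithmeticFunction.moebius d : ℤ) : ℝ) =
        ∑ d ∈ P.divisors.filter (fun d => d ≤ z ∧ d ∣ n),
          ((ArithmeticFunction.moebius d : ℤ) : ℝ) +
        ∑ d ∈ DD.filter (fun d => d ∣ n), ((ArithmeticFunction.moebius d : ℤ) : ℝ) := by
      rw [← Finset.sum_filter_add_sum_filter_not (P.divisors.filter (fun d => d ∣ n))
        (fun d => d ≤ z)]
      congr 1
      · refine Finset.sum_congr ?_ fun _ _ => rfl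
        ext d
        simp only [mem_filter]
        tauto
      · refine Finset.sum_congr ?_ fun _ _ => rfl
        ext d
        rw [hDD]
        simp only [mem_filter, not_le, Nat.cast_lt]
        tauto
    rw [hf1 n hn1, h5, hv, mul_add]

end Pool.MP_dd84fd_nt.HX
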