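import Pool.Agent.Lib.MP_dd84fd_nt.HX.GrDefs
import Pool.Agent.Lib.MP_dd84fd_nt.GX.Den2
import Pool.Agent.Lib.MP_dd84fd_nt.E2.MinorP
import Pool.Agent.Lib.MP_dd84fd_nt.L2G.MinSum

/-!
# HX-GrExpII (0.8 h): exponential sums of type II

`n = m k`: the sum is `∑_{k ≤ K} c_k ∑_{m ∈ (M,2M], m k ≤ X} a_m ee(mkθ)`. Cauchy-Schwarz in `k`: `‖.‖² ≤ (∑_{k≤K} c_k²) ∑_{k≤K} ‖∑_m ..‖² ≤ L^4 K ∑_{m,m'} |a_m a_m'| ‖∑_{k ≤ min(K, X/m, X/m')} ee((m-m')kθ)‖`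
`≤ L^8 K ∑_{m,m'} mn K ((m-m')θ)` (`L2G.geo_sum` (L2G/MinSum.lean), see `ti_geo` in `GX/TIexp.lean`; `mn` is monotone in the first argument). For fixed `m`: `∑_{m'} ≤ K + 2 ∑_{1 ≤ h ≤ M'} mn K (hθ)`, `M' = ⌊M⌋₊`
(`m'` = an integer in `(M,2M]`, `|m - m'| ≤ M`), `mn K (hθ) ≤ mn (X/h) (hθ)` (`K ≤ X/M ≤ X/h`), `typeI_ker`: `≤ K + C (X/ht + M) L`. The number of `m` is `≤ M + 1 ≤ 2M`, `K M ≤ X`, `K ≤ X/M`:
`‖.‖² ≤ 2 X L^8 (X/M + C (X/ht + M) L) ≤ X (X/M + X/ht + M) L^10` for large `X`. (`K = 0`: the sum is `0`.)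
-/

set_option autoImplicit false

namespace Pool.MP_dd84fd_nt.HX

open Finset Pool.MP_67663b_nt.Odd Pool.MP_dd84fd_nt.En Pool.MP_dd84fd_nt.E2 Pool.MP_dd84fd_nt.LS
open Pool.MP_dd84fd_nt.L2G (nrm)
open Pool.MP_dd84fd_nt.GX
open Pool.MP_dd84fd_nt.PL (rr Fam)

private theorem expII_div (X : ℕ) (g : ℕ → ℕ → ℂ) :
    ∑ n ∈ Icc 1 X, ∑ m ∈ n.divisors, g m (n / m) =
      ∑ m ∈ Icc 1 X, ∑ k ∈ Icc 1 X, (if m * k ≤ X then g m k else 0) := by
  have h1 : ∀ n ∈ Icc 1 X, ∑ m ∈ n.divisors, g m (n / m) =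
      ∑ m ∈ Icc 1 X, (if m ∣ n then g m (n / m) else 0) := by
    intro n hn
    rw [mem_Icc] at hn
    rw [← Finset.sum_filter]
    refine Finset.sum_congr ?_ fun _ _ => rfl
    ext m
    rw [Nat.mem_divisors, mem_filter, mem_Icc]
    constructor
    · rintro ⟨hd, _⟩
      exact ⟨⟨Nat.pos_of_dvd_of_pos hd (by omega), (Nat.le_of_dvd (by omega) hd).trans hn.2⟩, hd⟩
    · rintro ⟨_, hd⟩
      exact ⟨hd, by omega⟩
  rw [Finset.sum_congr rfl h1, Finset.sum_comm]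
  refine Finset.sum_congr rfl fun m hm => ?_
  rw [mem_Icc] at hm
  rw [← Finset.sum_filter, ← Finset.sum_filter]
  refine Finset.sum_nbij' (fun n => n / m) (fun k => m * k) ?_ ?_ ?_ ?_ ?_
  · intro n hn
    rw [mem_filter, mem_Icc] at hn
    rw [mem_filter, mem_Icc]
    obtain ⟨k, hk⟩ := hn.2
    have hk0 : 0 < k := by
      rcases Nat.eq_zero_or_pos k with h | h
      · rw [h, mul_zero] at hk; omega
      · exact h
    rw [hk, Nat.mul_div_cancel_left _ (by omega)]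
    have hkX : k ≤ m * k := Nat.le_mul_of_pos_left k (by omega)
    omega
  · intro k hk
    rw [mem_filter, mem_Icc] at hk
    rw [mem_filter, mem_Icc]
    have hkX : k ≤ m * k := Nat.le_mul_of_pos_left k (by omega)
    exact ⟨⟨by omega, hk.2⟩, Dvd.intro _ rfl⟩
  · intro n hn
    rw [mem_filter] at hn
    exact Nat.mul_div_cancel' hn.2
  · intro k _
    exact Nat.mul_div_cancel_left _ (by omega)
  · intro n _
    rfl

private theorem expII_rearr (X : ℕ) (M : ℝ) (K : ℕ) (a c : ℕ → ℝ) (θ : ℝ) (hM : 1 ≤ M)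
    (hKM : (K : ℝ) * M ≤ X) (hsupp : ∀ m : ℕ, a m ≠ 0 → M < m ∧ (m : ℝ) ≤ 2 * M) :
    ∑ n ∈ Icc 1 X, ((∑ m ∈ n.divisors, (if n / m ≤ K then a m * c (n / m) else 0) : ℝ) : ℂ) *
      ee ((n : ℝ) * θ) = ∑ k ∈ Icc 1 K, (c k : ℂ) * ∑ m ∈ Ioc ⌊M⌋₊ ⌊2 * M⌋₊,
        (if m * k ≤ X then (a m : ℂ) * ee (((m * k : ℕ) : ℝ) * θ) else 0) := by
  have hKX : K ≤ X := by
    have h1 : (K : ℝ) ≤ X := by
      have : (K : ℝ) ≤ K * M := le_mul_of_one_le_right (Nat.cast_nonneg K) hM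
      linarith
    exact_mod_cast h1
  have e1 : ∑ n ∈ Icc 1 X, ((∑ m ∈ n.divisors, (if n / m ≤ K then a m * c (n / m) else 0) : ℝ) : ℂ) *
      ee ((n : ℝ) * θ) = ∑ n ∈ Icc 1 X, ∑ m ∈ n.divisors,
        (fun m k : ℕ => (if k ≤ K then (a m : ℂ) * (c k : ℂ) else 0) *
          ee (((m * k : ℕ) : ℝ) * θ)) m (n / m) := by
    refine Finset.sum_congr rfl fun n _ => ?_
    rw [Complex.ofReal_sum, Finset.sum_mul]
    refine Finset.sum_congr rfl fun m hm => ?_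
    have hd := Nat.dvd_of_mem_divisors hm
    simp only []
    rw [Nat.mul_div_cancel' hd]
    split_ifs <;> push_cast <;> ring
  rw [e1, expII_div X (fun m k : ℕ => (if k ≤ K then (a m : ℂ) * (c k : ℂ) else 0) *
    ee (((m * k : ℕ) : ℝ) * θ)), Finset.sum_comm]
  have hsub : Icc 1 K ⊆ Icc 1 X := Finset.Icc_subset_Icc_right hKX
  rw [← Finset.sum_subset hsub]
  · refine Finset.sum_congr rfl fun k hk => ?_
    rw [mem_Icc] at hk
    rw [Finset.mul_sum]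
    refine Finset.sum_congr_of_eq_on_inter ?_ ?_ ?_
    · intro m _ hm
      have ha : a m = 0 := by
        by_contra hne
        obtain ⟨h1, h2⟩ := hsupp m hne
        exact hm (mem_Ioc.2 ⟨(Nat.floor_lt (by linarith)).2 h1,
          (Nat.le_floor_iff (by linarith)).2 h2⟩)
      rw [ha]
      simp
    · intro m _ hm
      have hmX : ¬ m * k ≤ X ∨ m = 0 := by
        rw [mem_Icc] at hm
        rcases Nat.eq_zero_or_pos m with h | h
        · exact Or.inr h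
        · left
          intro h3
          have h4 : m ≤ m * k := Nat.le_mul_of_pos_right m (by omega)
          exact hm ⟨h, h4.trans h3⟩
      rcases hmX with h | h
      · rw [if_neg h, mul_zero]
      · have ha : a m = 0 := by
          by_contra hne
          have := (hsupp m hne).1
          rw [h] at this
          push_cast at this
          linarith
        rw [ha]
        simp
    · intro m _ _
      rw [if_pos hk.2]
      split_ifs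
      · ring
      · rw [mul_zero]
  · intro k hk1 hk2
    refine Finset.sum_eq_zero fun m _ => ?_
    rw [mem_Icc] at hk2 hk1
    have : ¬ k ≤ K := fun h => hk2 ⟨hk1.1, h⟩
    simp only [if_neg this, zero_mul, ite_self]

private theorem expII_mn_mono (M M' x : ℝ) (hM : 0 ≤ M) (h : M ≤ M') :
    L2G.mn M x ≤ L2G.mn M' x := by
  rw [den2_mn, den2_mn]
  exact En.mn_mono hM h x

private theorem expII_mn_neg (M x : ℝ) : L2G.mn M (-x) = L2G.mn M x := by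
  have h : nrm (-x) = nrm x := by
    have h1 : ∀ y : ℝ, nrm (-y) ≤ nrm y := by
      intro y
      unfold nrm
      have h2 := round_le (-y) (-round y)
      have h3 : |(-y) - ((-round y : ℤ) : ℝ)| = |y - round y| := by
        push_cast
        rw [← abs_neg]
        congr 1
        ring
      rw [h3] at h2
      exact h2
    refine le_antisymm (h1 x) ?_
    have := h1 (-x)
    rwa [neg_neg] at this
  unfold L2G.mn
  rw [h]

/-- one side of the sum over `m'` -/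
private theorem expII_side (f : ℕ → ℝ) (hf : ∀ h, 0 ≤ f h) (T : Finset ℕ) (e : ℕ → ℕ) (R : ℕ)
    (he : Set.InjOn e T) (hR : ∀ m ∈ T, e m ∈ Icc 1 R) :
    ∑ m ∈ T, f (e m) ≤ ∑ h ∈ Icc 1 R, f h := by
  rw [← Finset.sum_image (f := f) he]
  refine Finset.sum_le_sum_of_subset_of_nonneg ?_ fun h _ _ => hf h
  intro h hh
  rw [mem_image] at hh
  obtain ⟨m, hm, rfl⟩ := hh
  exact hR m hm

private theorem expII_row (M : ℝ) (K : ℕ) (θ : ℝ) (hM : 1 ≤ M) (m : ℕ)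
    (hm : m ∈ Ioc ⌊M⌋₊ ⌊2 * M⌋₊) :
    ∑ m' ∈ Ioc ⌊M⌋₊ ⌊2 * M⌋₊, L2G.mn K (((m : ℝ) - m') * θ) ≤
      K + 2 * ∑ h ∈ Icc 1 ⌊M⌋₊, L2G.mn K ((h : ℝ) * θ) := by
  set S := Ioc ⌊M⌋₊ ⌊2 * M⌋₊ with hS
  have hfl : ⌊2 * M⌋₊ ≤ 2 * ⌊M⌋₊ + 1 := by
    have h1 : ⌊2 * M⌋₊ < 2 * ⌊M⌋₊ + 2 := by
      rw [Nat.floor_lt (by linarith)]
      have := Nat.lt_floor_add_one M
      push_cast
      linarith
    omega
  have hf0 : ∀ h : ℕ, 0 ≤ L2G.mn K ((h : ℝ) * θ) := fun h =>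
    L2G.mn_nonneg _ _ (Nat.cast_nonneg K)
  rw [← Finset.sum_filter_add_sum_filter_not S (fun m' => m' < m)]
  have h1 : ∑ m' ∈ S.filter (fun m' => m' < m), L2G.mn K (((m : ℝ) - m') * θ) ≤
      ∑ h ∈ Icc 1 ⌊M⌋₊, L2G.mn K ((h : ℝ) * θ) := by
    have e1 : ∑ m' ∈ S.filter (fun m' => m' < m), L2G.mn K (((m : ℝ) - m') * θ) =
        ∑ m' ∈ S.filter (fun m' => m' < m), (fun h : ℕ => L2G.mn K ((h : ℝ) * θ)) (m - m') := by
      refine Finset.sum_congr rfl fun m' hm' => ?_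
      rw [mem_filter] at hm'
      simp only []
      rw [Nat.cast_sub hm'.2.le]
    rw [e1]
    refine expII_side _ hf0 _ (fun m' => m - m') _ ?_ ?_
    · intro x hx y hy hxy
      rw [Finset.mem_coe, mem_filter] at hx hy
      simp only [] at hxy
      omega
    · intro x hx
      rw [mem_filter, hS, mem_Ioc] at hx
      rw [hS, mem_Ioc] at hm
      rw [mem_Icc]
      omega
  have h2 : ∑ m' ∈ S.filter (fun m' => ¬ m' < m), L2G.mn K (((m : ℝ) - m') * θ) ≤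
      K + ∑ h ∈ Icc 1 ⌊M⌋₊, L2G.mn K ((h : ℝ) * θ) := by
    have hmem : m ∈ S.filter (fun m' => ¬ m' < m) := mem_filter.2 ⟨hm, by omega⟩
    rw [← Finset.add_sum_erase _ _ hmem]
    refine add_le_add (L2G.mn_le _ _ (Nat.cast_nonneg K)) ?_
    have e1 : ∑ m' ∈ (S.filter (fun m' => ¬ m' < m)).erase m, L2G.mn K (((m : ℝ) - m') * θ) =
        ∑ m' ∈ (S.filter (fun m' => ¬ m' < m)).erase m,
          (fun h : ℕ => L2G.mn K ((h : ℝ) * θ)) (m' - m) := by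
      refine Finset.sum_congr rfl fun m' hm' => ?_
      rw [mem_erase, mem_filter] at hm'
      simp only []
      rw [Nat.cast_sub (by omega), ← expII_mn_neg]
      congr 1
      ring
    rw [e1]
    refine expII_side _ hf0 _ (fun m' => m' - m) _ ?_ ?_
    · intro x hx y hy hxy
      rw [Finset.mem_coe, mem_erase, mem_filter] at hx hy
      simp only [] at hxy
      omega
    · intro x hx
      rw [mem_erase, mem_filter, hS, mem_Ioc] at hx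
      rw [hS, mem_Ioc] at hm
      rw [mem_Icc]
      omega
  linarith

/-- the inner sum over `k` -/
private theorem expII_inner (X K m m' : ℕ) (θ : ℝ) (hm : 0 < m) (hm' : 0 < m') :
    ‖∑ k ∈ Icc 1 K, (if m * k ≤ X ∧ m' * k ≤ X then ee ((k : ℝ) * (((m : ℝ) - m') * θ)) else 0)‖ ≤
      L2G.mn K (((m : ℝ) - m') * θ) := by
  rw [← Finset.sum_filter]
  have e1 : (Icc 1 K).filter (fun k => m * k ≤ X ∧ m' * k ≤ X) =
      Ioc 0 (min K (min (X / m) (X / m'))) := by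
    ext k
    rw [mem_filter, mem_Icc, mem_Ioc, le_min_iff, le_min_iff, Nat.le_div_iff_mul_le hm,
      Nat.le_div_iff_mul_le hm', mul_comm m k, mul_comm m' k]
    constructor
    · rintro ⟨⟨h1, h2⟩, h3, h4⟩
      exact ⟨h1, h2, h3, h4⟩
    · rintro ⟨h1, h2, h3, h4⟩
      exact ⟨⟨h1, h2⟩, h3, h4⟩
  rw [e1]
  refine L2G.geo_sum _ _ _ _ ?_ (Nat.cast_nonneg K)
  rw [Nat.cast_zero, sub_zero]
  exact_mod_cast min_le_left _ _

/-- the sum of the squares -/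
private theorem expII_sq (X K : ℕ) (M : ℝ) (a : ℕ → ℝ) (θ B : ℝ) (hB : 0 ≤ B)
    (ha : ∀ n, |a n| ≤ B) :
    ∑ k ∈ Icc 1 K, ‖∑ m ∈ Ioc ⌊M⌋₊ ⌊2 * M⌋₊,
      (if m * k ≤ X then (a m : ℂ) * ee (((m * k : ℕ) : ℝ) * θ) else 0)‖ ^ 2 ≤
      B ^ 2 * ∑ m ∈ Ioc ⌊M⌋₊ ⌊2 * M⌋₊, ∑ m' ∈ Ioc ⌊M⌋₊ ⌊2 * M⌋₊,
        L2G.mn K (((m : ℝ) - m') * θ) := by
  set S := Ioc ⌊M⌋₊ ⌊2 * M⌋₊ with hS
  have e1 : ((∑ k ∈ Icc 1 K, ‖∑ m ∈ S,
      (if m * k ≤ X then (a m : ℂ) * ee (((m * k : ℕ) : ℝ) * θ) else 0)‖ ^ 2 : ℝ) : ℂ) =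
      ∑ m ∈ S, ∑ m' ∈ S, (a m * a m' : ℂ) * ∑ k ∈ Icc 1 K,
        (if m * k ≤ X ∧ m' * k ≤ X then ee ((k : ℝ) * (((m : ℝ) - m') * θ)) else 0) := by
    rw [Complex.ofReal_sum]
    have h1 : ∀ k ∈ Icc 1 K, ((‖∑ m ∈ S,
        (if m * k ≤ X then (a m : ℂ) * ee (((m * k : ℕ) : ℝ) * θ) else 0)‖ ^ 2 : ℝ) : ℂ) =
        ∑ m ∈ S, ∑ m' ∈ S, (a m * a m' : ℂ) *
          (if m * k ≤ X ∧ m' * k ≤ X then ee ((k : ℝ) * (((m : ℝ) - m') * θ)) else 0) := by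
      intro k _
      rw [Complex.ofReal_pow, ← Complex.mul_conj', map_sum, Finset.sum_mul_sum]
      refine Finset.sum_congr rfl fun m _ => Finset.sum_congr rfl fun m' _ => ?_
      by_cases h2 : m * k ≤ X
      · by_cases h3 : m' * k ≤ X
        · rw [if_pos h2, if_pos h3, if_pos ⟨h2, h3⟩, map_mul, Complex.conj_ofReal, conj_ee]
          have e2 : (k : ℝ) * (((m : ℝ) - m') * θ) =
              ((m * k : ℕ) : ℝ) * θ + -(((m' * k : ℕ) : ℝ) * θ) := by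
            push_cast
            ring
          rw [e2, ee_add]
          ring
        · have h4 : ¬ (m * k ≤ X ∧ m' * k ≤ X) := fun h => h3 h.2
          rw [if_neg h3, if_neg h4, map_zero, mul_zero, mul_zero]
      · have h4 : ¬ (m * k ≤ X ∧ m' * k ≤ X) := fun h => h2 h.1
        rw [if_neg h2, if_neg h4, zero_mul, mul_zero]
    rw [Finset.sum_congr rfl h1, Finset.sum_comm]
    refine Finset.sum_congr rfl fun m _ => ?_
    rw [Finset.sum_comm]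
    refine Finset.sum_congr rfl fun m' _ => ?_
    rw [Finset.mul_sum]
  have h0 : 0 ≤ ∑ k ∈ Icc 1 K, ‖∑ m ∈ S,
      (if m * k ≤ X then (a m : ℂ) * ee (((m * k : ℕ) : ℝ) * θ) else 0)‖ ^ 2 :=
    Finset.sum_nonneg fun k _ => by positivity
  have e3 : ∑ k ∈ Icc 1 K, ‖∑ m ∈ S,
      (if m * k ≤ X then (a m : ℂ) * ee (((m * k : ℕ) : ℝ) * θ) else 0)‖ ^ 2 =
      ‖∑ m ∈ S, ∑ m' ∈ S, (a m * a m' : ℂ) * ∑ k ∈ Icc 1 K,
        (if m * k ≤ X ∧ m' * k ≤ X then ee ((k : ℝ) * (((m : ℝ) - m') * θ)) else 0)‖ := by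
    rw [← e1, Complex.norm_real, Real.norm_of_nonneg h0]
  rw [e3, Finset.mul_sum]
  refine (norm_sum_le _ _).trans (Finset.sum_le_sum fun m hm => ?_)
  rw [Finset.mul_sum]
  refine (norm_sum_le _ _).trans (Finset.sum_le_sum fun m' hm' => ?_)
  rw [norm_mul, norm_mul, Complex.norm_real, Complex.norm_real, Real.norm_eq_abs,
    Real.norm_eq_abs]
  rw [hS, mem_Ioc] at hm hm'
  refine mul_le_mul ?_ (expII_inner X K m m' θ (by omega) (by omega)) (norm_nonneg _)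
    (by positivity)
  rw [pow_two]
  exact mul_le_mul (ha m) (ha m') (abs_nonneg _) hB

theorem expII_h : ∃ X0 : ℕ, ∀ X : ℕ, X0 ≤ X → ∀ (M : ℝ) (K : ℕ) (a c : ℕ → ℝ) (θ : ℝ),
    1 ≤ M → M ≤ X → (K : ℝ) * M ≤ X → (∀ n, |a n| ≤ (Real.log X) ^ 2 ∧ |c n| ≤ (Real.log X) ^ 2) →
    (∀ m : ℕ, a m ≠ 0 → M < m ∧ (m : ℝ) ≤ 2 * M) →
    ‖∑ n ∈ Icc 1 X, ((∑ m ∈ n.divisors, (if n / m ≤ K then a m * c (n / m) else 0) : ℝ) : ℂ) *
      ee ((n : ℝ) * θ)‖ ^ 2 ≤ X * ((X : ℝ) / M + X / ht X θ + M) * (Real.log X) ^ 10 := by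
  obtain ⟨C, hC, X1, hker⟩ := typeI_ker
  obtain ⟨X2, hlarge⟩ := MP_log_large (4 * C + 2)
  refine ⟨max X1 (max X2 1), ?_⟩
  intro X hX M K a c θ hM hMX hKM hac hsupp
  have hX1 : X1 ≤ X := (le_max_left _ _).trans hX
  have hX2 : X2 ≤ X := ((le_max_left _ _).trans (le_max_right _ _)).trans hX
  have hX3 : 1 ≤ X := ((le_max_right _ _).trans (le_max_right _ _)).trans hX
  have hL := hlarge X hX2
  set L := Real.log X with hLdef
  have hL2 : 2 ≤ L := by linarith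
  have hX0 : (1 : ℝ) ≤ X := by exact_mod_cast hX3
  have hM0 : 0 < M := by linarith
  have hK0 : (0 : ℝ) ≤ K := Nat.cast_nonneg K
  obtain ⟨g1, -, -, -⟩ := ht_spec X (by omega) θ
  rw [expII_rearr X M K a c θ hM hKM hsupp]
  set S := Ioc ⌊M⌋₊ ⌊2 * M⌋₊ with hS
  set Bk : ℕ → ℂ := fun k => ∑ m ∈ S,
    (if m * k ≤ X then (a m : ℂ) * ee (((m * k : ℕ) : ℝ) * θ) else 0) with hBk
  -- Cauchy-Schwarz
  have hcs : ‖∑ k ∈ Icc 1 K, (c k : ℂ) * Bk k‖ ^ 2 ≤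
      (K * L ^ 4) * ∑ k ∈ Icc 1 K, ‖Bk k‖ ^ 2 := by
    have h1 : ‖∑ k ∈ Icc 1 K, (c k : ℂ) * Bk k‖ ≤ ∑ k ∈ Icc 1 K, |c k| * ‖Bk k‖ := by
      refine (norm_sum_le _ _).trans (le_of_eq (Finset.sum_congr rfl fun k _ => ?_))
      rw [norm_mul, Complex.norm_real, Real.norm_eq_abs]
    have h2 := Finset.sum_mul_sq_le_sq_mul_sq (Icc 1 K) (fun k => |c k|) (fun k => ‖Bk k‖)
    have h3 : ∑ k ∈ Icc 1 K, |c k| ^ 2 ≤ K * L ^ 4 := by
      calc ∑ k ∈ Icc 1 K, |c k| ^ 2 ≤ ∑ k ∈ Icc 1 K, L ^ 4 := by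
            refine Finset.sum_le_sum fun k _ => ?_
            calc |c k| ^ 2 ≤ (L ^ 2) ^ 2 := pow_le_pow_left₀ (abs_nonneg _) (hac k).2 2
              _ = L ^ 4 := by ring
        _ = K * L ^ 4 := by
            rw [Finset.sum_const, Nat.card_Icc, nsmul_eq_mul, Nat.add_sub_cancel]
    calc ‖∑ k ∈ Icc 1 K, (c k : ℂ) * Bk k‖ ^ 2 ≤ (∑ k ∈ Icc 1 K, |c k| * ‖Bk k‖) ^ 2 :=
          pow_le_pow_left₀ (norm_nonneg _) h1 2
      _ ≤ (∑ k ∈ Icc 1 K, |c k| ^ 2) * ∑ k ∈ Icc 1 K, ‖Bk k‖ ^ 2 := h2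
      _ ≤ _ := mul_le_mul_of_nonneg_right h3 (Finset.sum_nonneg fun k _ => by positivity)
  -- the squares
  have hsq := expII_sq X K M a θ (L ^ 2) (by positivity) (fun n => (hac n).1)
  rw [← hS] at hsq
  -- the rows
  have hMf : (⌊M⌋₊ : ℝ) ≤ M := Nat.floor_le hM0.le
  have hrow : ∀ m ∈ S, ∑ m' ∈ S, L2G.mn K (((m : ℝ) - m') * θ) ≤
      X / M + 2 * (C * ((X : ℝ) / ht X θ + M) * L) := by
    intro m hm
    have h1 := expII_row M K θ hM m hm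
    have h2 : ∑ h ∈ Icc 1 ⌊M⌋₊, L2G.mn K ((h : ℝ) * θ) ≤
        ∑ h ∈ Icc 1 ⌊M⌋₊, L2G.mn ((X : ℝ) / h) ((h : ℝ) * θ) := by
      refine Finset.sum_le_sum fun h hh => expII_mn_mono _ _ _ hK0 ?_
      rw [mem_Icc] at hh
      have hh0 : (0 : ℝ) < h := by exact_mod_cast hh.1
      have hhM : (h : ℝ) ≤ M := le_trans (by exact_mod_cast hh.2) hMf
      rw [le_div_iff₀ hh0]
      calc (K : ℝ) * h ≤ K * M := mul_le_mul_of_nonneg_left hhM hK0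
        _ ≤ X := hKM
    have hR : ⌊M⌋₊ ≤ X := by
      have : (⌊M⌋₊ : ℝ) ≤ X := hMf.trans hMX
      exact_mod_cast this
    have h3 := hker X hX1 θ ⌊M⌋₊ hR
    have h4 : C * ((X : ℝ) / ht X θ + ⌊M⌋₊) * L ≤ C * ((X : ℝ) / ht X θ + M) * L := by
      refine mul_le_mul_of_nonneg_right ?_ (by linarith)
      exact mul_le_mul_of_nonneg_left (by linarith) hC.le
    have h5 : (K : ℝ) ≤ X / M := by
      rw [le_div_iff₀ hM0]
      exact hKM
    linarith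
  have hcard : ((#S : ℕ) : ℝ) ≤ 2 * M := by
    rw [hS, Nat.card_Ioc]
    have h1 : ⌊2 * M⌋₊ < 2 * ⌊M⌋₊ + 2 := by
      rw [Nat.floor_lt (by linarith)]
      have := Nat.lt_floor_add_one M
      push_cast
      linarith
    have h2 : ⌊2 * M⌋₊ - ⌊M⌋₊ ≤ ⌊M⌋₊ + 1 := by omega
    have h3 : ((⌊2 * M⌋₊ - ⌊M⌋₊ : ℕ) : ℝ) ≤ (⌊M⌋₊ : ℝ) + 1 := by exact_mod_cast h2
    linarith
  set Rw : ℝ := X / M + 2 * (C * ((X : ℝ) / ht X θ + M) * L) with hRw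
  have hht0 : 0 < ht X θ := by linarith
  have hRw0 : 0 ≤ Rw := by positivity
  have hall : ∑ m ∈ S, ∑ m' ∈ S, L2G.mn K (((m : ℝ) - m') * θ) ≤ 2 * M * Rw := by
    calc ∑ m ∈ S, ∑ m' ∈ S, L2G.mn K (((m : ℝ) - m') * θ) ≤ ∑ m ∈ S, Rw :=
          Finset.sum_le_sum hrow
      _ = #S * Rw := by rw [Finset.sum_const, nsmul_eq_mul]
      _ ≤ 2 * M * Rw := mul_le_mul_of_nonneg_right hcard hRw0
  have hfin : 2 * Rw ≤ ((X : ℝ) / M + X / ht X θ + M) * L ^ 2 := by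
    have p1 : 0 ≤ (X : ℝ) / M := by positivity
    have p2 : 0 ≤ (X : ℝ) / ht X θ + M := by positivity
    have q1 : (2 : ℝ) ≤ L ^ 2 := by nlinarith
    have q2 : 4 * C * L ≤ L ^ 2 := by nlinarith
    have r1 : 2 * ((X : ℝ) / M) ≤ (X : ℝ) / M * L ^ 2 := by nlinarith
    have r2 : 4 * C * L * ((X : ℝ) / ht X θ + M) ≤ L ^ 2 * ((X : ℝ) / ht X θ + M) :=
      mul_le_mul_of_nonneg_right q2 p2
    rw [hRw]
    nlinarith
  calc ‖∑ k ∈ Icc 1 K, (c k : ℂ) * Bk k‖ ^ 2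
      ≤ (K * L ^ 4) * ∑ k ∈ Icc 1 K, ‖Bk k‖ ^ 2 := hcs
    _ ≤ (K * L ^ 4) * ((L ^ 2) ^ 2 * (2 * M * Rw)) := by
        refine mul_le_mul_of_nonneg_left ?_ (by positivity)
        exact hsq.trans (mul_le_mul_of_nonneg_left hall (by positivity))
    _ = (K * M) * (2 * Rw) * L ^ 8 := by ring
    _ ≤ X * (((X : ℝ) / M + X / ht X θ + M) * L ^ 2) * L ^ 8 := by
        refine mul_le_mul_of_nonneg_right ?_ (by positivity)
        exact mul_le_mul hKM hfin (by positivity) (by linarith)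
    _ = X * ((X : ℝ) / M + X / ht X θ + M) * L ^ 10 := by ring

end Pool.MP_dd84fd_nt.HX
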