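import Pool.Agent.Lib.MP_dd84fd_nt.HX.PlDefs
import Pool.Agent.Lib.MP_dd84fd_nt.PL.Model
import Pool.Agent.Lib.MP_dd84fd_nt.L2G.Avg

/-!
# PL_H-Mod: the model `f_a = (1 - w_D) f1 / log` is a short type I sum plus an `L²`-small remainder

As `PL.model_split` (`PL/Model.lean`, copy its private lemmas), with the factor `1 - w_D(n)`, `|1 - w_D| ≤ 1 + C` (`WDabs`):
`f1 w n = R ∑_{d ∣ (n,P)} μ(d)`, `P = primorial w`, `R = P/φ(P) ≤ L`; `d ≤ V0 X = ⌊X^(1/4)⌋`: `Γ d n = R μ(d) (1 - w_D(n))/log n` if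
`d ∣ P`, `0` otherwise; `e_n = (1 - w_D(n)) (R/log n) ∑_{d ∣ (n,P), d > V0 X} μ(d)`.
`bv_gam`: `γ(n) = (1 - w_D(n))/log n` on `[1,X]` (`γ(1) = 0`: division by zero): `|γ| ≤ (1+C)·3/2`, variation
`≤ |γ(2)| + ∑_{n≥2} (|w_D(n+1) - w_D(n)|/log n + (1+C)(1/log n - 1/log(n+1))) ≤ 3(1+C) + 2C`.
`WH_l2`: the coefficients are `≤ 2^22 + 2(1+C) L` (`|f1| ≤ R ≤ L`, `1/log n ≤ 3/2`), so `∑ ≤ X L^3`.
-/

set_option autoImplicit false

namespace Pool.MP_dd84fd_nt.HXP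

open Finset Pool.MP_67663b_nt.Odd Pool.MP_dd84fd_nt.E2 Pool.MP_dd84fd_nt.PL Pool.MP_dd84fd_nt.HX

/-- `1 / log n ≤ 3/2` in the form used -/
private theorem plMod_inv_log (n : ℕ) :
    0 ≤ 1 / Real.log (n : ℝ) ∧ 1 / Real.log (n : ℝ) ≤ 3 / 2 := by
  rcases Nat.lt_or_ge n 2 with h | h
  · have h1 : Real.log (n : ℝ) = 0 := by
      interval_cases n <;> simp
    rw [h1]
    norm_num
  · have h2 : (2 : ℝ) ≤ n := by exact_mod_cast h
    have h3 : Real.log 2 ≤ Real.log n := Real.log_le_log (by norm_num) h2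
    have h4 := Real.log_two_gt_d9
    have h5 : 0 < Real.log (n : ℝ) := by linarith
    refine ⟨by positivity, ?_⟩
    rw [div_le_iff₀ h5]
    linarith

/-- total variation of `1 / log n` -/
private theorem plMod_var_log (X : ℕ) :
    ∑ n ∈ Ico 1 X, |1 / Real.log ((n + 1 : ℕ) : ℝ) - 1 / Real.log (n : ℝ)| ≤ 3 := by
  have key : ∀ X : ℕ, 2 ≤ X →
      ∑ n ∈ Ico 1 X, |1 / Real.log ((n + 1 : ℕ) : ℝ) - 1 / Real.log (n : ℝ)| ≤
        3 - 1 / Real.log (X : ℝ) := by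
    intro X hX
    induction X, hX using Nat.le_induction with
    | base =>
      have h1 : Ico 1 2 = {1} := by decide
      rw [h1, Finset.sum_singleton]
      have h2 := (plMod_inv_log 2)
      have h3 : (1 : ℝ) / Real.log ((1 : ℕ) : ℝ) = 0 := by simp
      rw [h3, sub_zero, abs_of_nonneg h2.1]
      have h4 : ((1 + 1 : ℕ) : ℝ) = ((2 : ℕ) : ℝ) := by norm_num
      linarith [h2.2]
    | succ X hX ih =>
      rw [Finset.sum_Ico_succ_top (by omega)]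
      have h1 : (2 : ℝ) ≤ X := by exact_mod_cast hX
      have h2 : 0 < Real.log (X : ℝ) := Real.log_pos (by linarith)
      have h3 : Real.log (X : ℝ) ≤ Real.log ((X + 1 : ℕ) : ℝ) := by
        apply Real.log_le_log (by linarith)
        push_cast
        linarith
      have h4 : 1 / Real.log ((X + 1 : ℕ) : ℝ) ≤ 1 / Real.log (X : ℝ) :=
        one_div_le_one_div_of_le h2 h3
      rw [abs_of_nonpos (by linarith)]
      linarith
  rcases Nat.lt_or_ge X 2 with h | h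
  · have h1 : Ico 1 X = ∅ := Finset.Ico_eq_empty (by omega)
    rw [h1, Finset.sum_empty]
    norm_num
  · have := key X h
    have h2 := (plMod_inv_log X).1
    linarith

theorem bv_gam (h : WDabs) : ∃ (C : ℝ) (X0 : ℕ), 0 < C ∧ ∀ X : ℕ, X0 ≤ X → ∀ δ : ℝ, 0 < δ →
    δ ≤ 1 / 2000 → BVw X C (fun n => (1 - wD δ X n) / Real.log n) := by
  obtain ⟨C, X0, hC⟩ := h
  refine ⟨6 * (1 + |C|), X0, by positivity, fun X hX δ hδ hδ' => ?_⟩
  obtain ⟨h1, h2⟩ := hC X hX δ hδ hδ'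
  have hCa : C ≤ |C| := le_abs_self C
  have hC0 : 0 ≤ |C| := abs_nonneg C
  have hw : ∀ n ∈ Icc 1 X, |1 - wD δ X n| ≤ 1 + |C| := by
    intro n hn
    calc |1 - wD δ X n| ≤ |(1 : ℝ)| + |wD δ X n| := abs_sub _ _
      _ ≤ 1 + |C| := by
          rw [abs_one]
          linarith [h1 n hn]
  refine ⟨fun n hn => ?_, ?_⟩
  · obtain ⟨g1, g2⟩ := plMod_inv_log n
    have h3 : (1 - wD δ X n) / Real.log n = (1 - wD δ X n) * (1 / Real.log n) := by ring
    show |(1 - wD δ X n) / Real.log n| ≤ _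
    rw [h3, abs_mul, abs_of_nonneg g1]
    calc |1 - wD δ X n| * (1 / Real.log n) ≤ (1 + |C|) * (3 / 2) :=
          mul_le_mul (hw n hn) g2 g1 (by positivity)
      _ ≤ 6 * (1 + |C|) := by linarith
  · have h3 : ∀ n ∈ Ico 1 X, |(1 - wD δ X (n + 1)) / Real.log ((n + 1 : ℕ) : ℝ) -
        (1 - wD δ X n) / Real.log n| ≤
        (1 + |C|) * |1 / Real.log ((n + 1 : ℕ) : ℝ) - 1 / Real.log (n : ℝ)| +
          3 / 2 * |wD δ X (n + 1) - wD δ X n| := by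
      intro n hn
      rw [Finset.mem_Ico] at hn
      obtain ⟨g1, g2⟩ := plMod_inv_log n
      have e : (1 - wD δ X (n + 1)) / Real.log ((n + 1 : ℕ) : ℝ) - (1 - wD δ X n) / Real.log n =
          (1 - wD δ X (n + 1)) * (1 / Real.log ((n + 1 : ℕ) : ℝ) - 1 / Real.log (n : ℝ)) -
          (1 / Real.log (n : ℝ)) * (wD δ X (n + 1) - wD δ X n) := by ring
      rw [e]
      refine (abs_sub _ _).trans ?_
      rw [abs_mul, abs_mul, abs_of_nonneg g1]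
      apply add_le_add
      · apply mul_le_mul_of_nonneg_right _ (abs_nonneg _)
        exact hw (n + 1) (Finset.mem_Icc.2 ⟨by omega, by omega⟩)
      · exact mul_le_mul_of_nonneg_right g2 (abs_nonneg _)
    show ∑ n ∈ Ico 1 X, |(1 - wD δ X (n + 1)) / Real.log ((n + 1 : ℕ) : ℝ) -
        (1 - wD δ X n) / Real.log n| ≤ _
    refine (Finset.sum_le_sum h3).trans ?_
    rw [Finset.sum_add_distrib, ← Finset.mul_sum, ← Finset.mul_sum]
    have h4 := plMod_var_log X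
    have h5 : (1 + |C|) * ∑ n ∈ Ico 1 X,
        |1 / Real.log ((n + 1 : ℕ) : ℝ) - 1 / Real.log (n : ℝ)| ≤ (1 + |C|) * 3 :=
      mul_le_mul_of_nonneg_left h4 (by positivity)
    linarith

/-- the sum over the multiples of `d` -/
private theorem plMod_mult (d t : ℕ) (hd : 0 < d) (g : ℕ → ℂ) :
    ∑ n ∈ (Icc 1 t).filter (fun n => d ∣ n), g n = ∑ k ∈ Icc 1 (t / d), g (d * k) := by
  symm
  refine sum_bij (fun k _ => d * k) ?_ ?_ ?_ ?_
  · intro k hk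
    rw [mem_Icc] at hk
    rw [mem_filter, mem_Icc]
    refine ⟨⟨Nat.mul_pos hd hk.1, ?_⟩, dvd_mul_right d k⟩
    calc d * k ≤ d * (t / d) := Nat.mul_le_mul_left d hk.2
      _ ≤ t := Nat.mul_div_le t d
  · intro k _ k' _ h
    exact Nat.eq_of_mul_eq_mul_left hd h
  · intro n hn
    rw [mem_filter, mem_Icc] at hn
    obtain ⟨k, rfl⟩ := hn.2
    refine ⟨k, ?_, rfl⟩
    rw [mem_Icc]
    constructor
    · exact Nat.pos_of_mul_pos_left hn.1.1
    · rw [Nat.le_div_iff_mul_le hd, mul_comm]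
      exact hn.1.2
  · intro k _
    rfl

private theorem plMod_iw_sum (X D : ℕ) (γ : ℕ → ℕ → ℝ) (θ : ℝ) :
    ∑ d ∈ Icc 1 D, iw X d (γ d) θ =
      tp X (fun n => ((∑ d ∈ (Icc 1 D).filter (fun d => d ∣ n), γ d n : ℝ) : ℂ)) θ := by
  have h1 : ∀ d ∈ Icc 1 D, iw X d (γ d) θ =
      ∑ n ∈ Icc 1 X, if d ∣ n then ((γ d n : ℝ) : ℂ) * ee ((n : ℝ) * θ) else 0 := by
    intro d hd
    have hd0 : 0 < d := (Finset.mem_Icc.1 hd).1
    rw [← Finset.sum_filter, plMod_mult d X hd0 (fun n => ((γ d n : ℝ) : ℂ) * ee ((n : ℝ) * θ))]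
    rfl
  rw [Finset.sum_congr rfl h1, Finset.sum_comm]
  unfold tp
  refine Finset.sum_congr rfl fun n _ => ?_
  rw [← Finset.sum_filter]
  push_cast
  rw [Finset.sum_mul]

private theorem plMod_uniq (X : ℕ) (a : ℕ → ℂ) (h : ∀ θ : ℝ, tp X a θ = 0) :
    ∀ n ∈ Icc 1 X, a n = 0 := by
  intro n hn
  have h1 := L2G.parseval (N := X + 1) (Icc 1 X) (fun n hn => by
    have := (Finset.mem_Icc.1 hn).2
    omega) a
  have h2 : (fun θ : ℝ => ‖∑ n ∈ Icc 1 X, a n * ee (n * θ)‖ ^ 2) = fun _ => 0 := by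
    funext θ
    have := h θ
    unfold tp at this
    rw [this]
    simp
  rw [h2] at h1
  have h3 : ∑ n ∈ Icc 1 X, ‖a n‖ ^ 2 = 0 := by
    rw [← h1]
    unfold L2G.av
    simp
  have h4 := (Finset.sum_eq_zero_iff_of_nonneg (fun n _ => sq_nonneg ‖a n‖)).1 h3 n hn
  rw [sq_eq_zero_iff, norm_eq_zero] at h4
  exact h4

theorem model_h (h : WDabs) : ∃ C : ℝ, 0 < C ∧ ∀ D' : ℕ, 1 ≤ D' → ∃ η : ℝ, 0 < η ∧ ∃ X0 : ℕ,
    ∀ X : ℕ, X0 ≤ X → ∀ δ : ℝ, 0 < δ → δ ≤ 1 / 2000 → ∃ (Γ : ℕ → ℕ → ℝ) (e : ℕ → ℂ),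
      (∀ d, BVw X (C * Real.log X) (Γ d)) ∧ ∑ n ∈ Icc 1 X, ‖e n‖ ^ 2 ≤ (X : ℝ) ^ (1 - η) ∧
      ∀ θ : ℝ, tp X (fun n => (fa δ X (wX D' X) n : ℂ)) θ =
        ∑ d ∈ Icc 1 (V0 X), iw X d (Γ d) θ + tp X e θ := by
  obtain ⟨C, X1, hC0, hC⟩ := bv_gam h
  obtain ⟨B, X2, hB⟩ := h
  refine ⟨C, hC0, fun D' hD => ?_⟩
  obtain ⟨η, hη, X3, hX3⟩ := model_split D' hD
  obtain ⟨X4, hX4⟩ := MP_log_pow ((1 + |B|) ^ 2) 0 (ε := η / 2) (by positivity)
  obtain ⟨X5, hX5⟩ := MP_log_large 1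
  refine ⟨η / 2, by positivity, max (max X1 X2) (max (max X3 X4) (max X5 1)),
    fun X hX δ hδ hδ' => ?_⟩
  simp only [max_le_iff] at hX
  obtain ⟨⟨hX1', hX2'⟩, ⟨hX3', hX4'⟩, hX5', hXone⟩ := hX
  have hX0 : (0 : ℝ) < X := by exact_mod_cast hXone
  have hL1 := hX5 X hX5'
  have hL0 : 0 < Real.log X := by linarith
  obtain ⟨v, e, hv, -, he, hF⟩ := hX3 X hX3'
  obtain ⟨hg1, hg2⟩ := hC X hX1' δ hδ hδ'
  obtain ⟨hw1, -⟩ := hB X hX2' δ hδ hδ'
  obtain ⟨w, hw⟩ : ∃ w, wX D' X = w := ⟨_, rfl⟩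
  rw [hw] at hF ⊢
  have hBa : B ≤ |B| := le_abs_self B
  have hW : ∀ n ∈ Icc 1 X, |1 - wD δ X n| ≤ 1 + |B| := by
    intro n hn
    calc |1 - wD δ X n| ≤ |(1 : ℝ)| + |wD δ X n| := abs_sub _ _
      _ ≤ 1 + |B| := by
          rw [abs_one]
          linarith [hw1 n hn]
  -- comparison of coefficients
  have hco : ∀ n ∈ Icc 1 X, ((f2 w n : ℝ) : ℂ) =
      ((∑ d ∈ (Icc 1 (V0 X)).filter (fun d => d ∣ n), v d / Real.log n : ℝ) : ℂ) + e n := by
    intro n hn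
    have h1 := plMod_uniq X (fun n => ((f2 w n : ℝ) : ℂ) -
      (((∑ d ∈ (Icc 1 (V0 X)).filter (fun d => d ∣ n), v d / Real.log n : ℝ) : ℂ) + e n))
      (by
        intro θ
        have h2 : tp X (fun n => ((f2 w n : ℝ) : ℂ) -
            (((∑ d ∈ (Icc 1 (V0 X)).filter (fun d => d ∣ n), v d / Real.log n : ℝ) : ℂ) + e n)) θ =
            F2 w X θ - (tp X (fun n =>
              ((∑ d ∈ (Icc 1 (V0 X)).filter (fun d => d ∣ n), v d / Real.log n : ℝ) : ℂ)) θ +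
              tp X e θ) := by
          unfold tp F2
          rw [← Finset.sum_add_distrib, ← Finset.sum_sub_distrib]
          refine Finset.sum_congr rfl fun n _ => ?_
          ring
        rw [h2, hF θ, ← plMod_iw_sum X (V0 X) (fun d n => v d / Real.log n) θ]
        have h3 : TI X (V0 X) (fun _ => 0) v θ =
            ∑ d ∈ Icc 1 (V0 X), iw X d (fun n => v d / Real.log n) θ := by
          unfold TI ti iw
          refine Finset.sum_congr rfl fun d _ => Finset.sum_congr rfl fun k _ => ?_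
          rw [zero_mul, zero_add]
        rw [h3, sub_self]) n hn
    exact sub_eq_zero.1 h1
  refine ⟨fun d n => v d * ((1 - wD δ X n) / Real.log n), fun n => ((1 - wD δ X n : ℝ) : ℂ) * e n,
    fun d => ⟨fun n hn => ?_, ?_⟩, ?_, fun θ => ?_⟩
  · show |v d * ((1 - wD δ X n) / Real.log n)| ≤ C * Real.log X
    rw [abs_mul, mul_comm C]
    exact mul_le_mul (hv d) (hg1 n hn) (abs_nonneg _) hL0.le
  · show ∑ n ∈ Ico 1 X, |v d * ((1 - wD δ X (n + 1)) / Real.log ((n + 1 : ℕ) : ℝ)) -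
        v d * ((1 - wD δ X n) / Real.log n)| ≤ C * Real.log X
    have h1 : ∀ n ∈ Ico 1 X, |v d * ((1 - wD δ X (n + 1)) / Real.log ((n + 1 : ℕ) : ℝ)) -
        v d * ((1 - wD δ X n) / Real.log n)| ≤
        Real.log X * |(1 - wD δ X (n + 1)) / Real.log ((n + 1 : ℕ) : ℝ) -
          (1 - wD δ X n) / Real.log n| := by
      intro n _
      rw [← mul_sub, abs_mul]
      exact mul_le_mul_of_nonneg_right (hv d) (abs_nonneg _)
    refine (Finset.sum_le_sum h1).trans ?_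
    rw [← Finset.mul_sum, mul_comm C]
    exact mul_le_mul_of_nonneg_left hg2 hL0.le
  · have h1 : ∀ n ∈ Icc 1 X, ‖((1 - wD δ X n : ℝ) : ℂ) * e n‖ ^ 2 ≤
        (1 + |B|) ^ 2 * ‖e n‖ ^ 2 := by
      intro n hn
      rw [norm_mul, mul_pow, Complex.norm_real, Real.norm_eq_abs]
      apply mul_le_mul_of_nonneg_right _ (by positivity)
      exact pow_le_pow_left₀ (abs_nonneg _) (hW n hn) 2
    refine (Finset.sum_le_sum h1).trans ?_
    rw [← Finset.mul_sum]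
    have h2 := hX4 X hX4'
    rw [pow_zero, mul_one] at h2
    calc (1 + |B|) ^ 2 * ∑ n ∈ Icc 1 X, ‖e n‖ ^ 2 ≤ (X : ℝ) ^ (η / 2) * (X : ℝ) ^ (1 - η) :=
          mul_le_mul h2 he (Finset.sum_nonneg fun n _ => by positivity) (by positivity)
      _ = (X : ℝ) ^ (1 - η / 2) := by
          rw [← Real.rpow_add hX0]
          congr 1
          ring
  · rw [plMod_iw_sum X (V0 X) (fun d n => v d * ((1 - wD δ X n) / Real.log n)) θ]
    unfold tp
    rw [← Finset.sum_add_distrib]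
    refine Finset.sum_congr rfl fun n hn => ?_
    rw [← add_mul]
    congr 1
    beta_reduce
    have h1 : fa δ X w n = (1 - wD δ X n) * f2 w n := by
      unfold fa f2
      ring
    have h2 : ∑ d ∈ (Icc 1 (V0 X)).filter (fun d => d ∣ n), v d * ((1 - wD δ X n) / Real.log n) =
        (1 - wD δ X n) * ∑ d ∈ (Icc 1 (V0 X)).filter (fun d => d ∣ n), v d / Real.log n := by
      rw [Finset.mul_sum]
      refine Finset.sum_congr rfl fun d _ => ?_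
      ring
    rw [h1, h2, Complex.ofReal_mul, Complex.ofReal_mul, hco n hn]
    ring

theorem WH_l2 (h1 : AnAbs) (h2 : WDabs) (D' : ℕ) (hD : 1 ≤ D') : ∃ X0 : ℕ, ∀ X : ℕ, X0 ≤ X →
    ∀ δ : ℝ, 0 < δ → δ ≤ 1 / 2000 → ∀ s : ℝ, |s| ≤ 1 → ∃ e : ℕ → ℂ,
      ∑ n ∈ Icc 1 X, ‖e n‖ ^ 2 ≤ X * (Real.log X) ^ 3 ∧
      ∀ θ : ℝ, WH s δ (wX D' X) X θ = tp X e θ := by
  obtain ⟨X1, hX1⟩ := f1_le D'
  obtain ⟨X2, hX2⟩ := h1
  obtain ⟨B, X3, hX3⟩ := h2
  obtain ⟨X4, hX4⟩ := MP_log_large 1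
  obtain ⟨X5, hX5⟩ := MP_log_large ((2 ^ 22 + 3 / 2 * (1 + |B|)) ^ 2)
  refine ⟨max (max X1 X2) (max X3 (max X4 X5)), fun X hX δ hδ hδ' s hs => ?_⟩
  simp only [max_le_iff] at hX
  obtain ⟨⟨hX1', hX2'⟩, hX3', hX4', hX5'⟩ := hX
  have hL1 := hX4 X hX4'
  have hL2 := hX5 X hX5'
  set L := Real.log X with hL
  have hL0 : 0 < L := by linarith
  have hwle : ((wX D' X : ℕ) : ℝ) ≤ L ^ D' := by
    unfold wX
    exact Nat.floor_le (pow_nonneg hL0.le D')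
  obtain ⟨-, hf⟩ := hX1 X hX1' (wX D' X) hwle
  obtain ⟨w, hw⟩ : ∃ w, wX D' X = w := ⟨_, rfl⟩
  rw [hw] at hf ⊢
  obtain ⟨hw1, -⟩ := hX3 X hX3' δ hδ hδ'
  have hBa : B ≤ |B| := le_abs_self B
  refine ⟨fun n => ((an δ X n + s * fa δ X w n : ℝ) : ℂ), ?_, fun θ => rfl⟩
  have hb : ∀ n ∈ Icc 1 X, ‖((an δ X n + s * fa δ X w n : ℝ) : ℂ)‖ ^ 2 ≤ L ^ 3 := by
    intro n hn
    obtain ⟨g1, g2⟩ := plMod_inv_log n
    have e1 : |an δ X n| ≤ 2 ^ 22 := by
      refine (hX2 X hX2' δ hδ hδ' n hn).2.trans ?_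
      have : rg (zz X) n ≤ 1 := by
        unfold rg
        split_ifs <;> norm_num
      linarith
    have e2 : |fa δ X w n| ≤ 3 / 2 * (1 + |B|) * L := by
      have e3 : fa δ X w n = (1 - wD δ X n) * (En.f1 w n * (1 / Real.log n)) := by
        unfold fa
        ring
      have e4 : |1 - wD δ X n| ≤ 1 + |B| := by
        calc |1 - wD δ X n| ≤ |(1 : ℝ)| + |wD δ X n| := abs_sub _ _
          _ ≤ 1 + |B| := by
              rw [abs_one]
              linarith [hw1 n hn]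
      rw [e3, abs_mul, abs_mul, abs_of_nonneg g1, abs_of_nonneg (f1_nonneg w n)]
      calc |1 - wD δ X n| * (En.f1 w n * (1 / Real.log n)) ≤ (1 + |B|) * (L * (3 / 2)) := by
            apply mul_le_mul e4 _ (mul_nonneg (f1_nonneg w n) g1) (by positivity)
            exact mul_le_mul (hf n) g2 g1 hL0.le
        _ = 3 / 2 * (1 + |B|) * L := by ring
    have e5 : ‖((an δ X n + s * fa δ X w n : ℝ) : ℂ)‖ ≤ (2 ^ 22 + 3 / 2 * (1 + |B|)) * L := by
      rw [Complex.norm_real, Real.norm_eq_abs]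
      calc |an δ X n + s * fa δ X w n| ≤ |an δ X n| + |s * fa δ X w n| := abs_add_le _ _
        _ ≤ 2 ^ 22 + 1 * (3 / 2 * (1 + |B|) * L) := by
            rw [abs_mul]
            exact add_le_add e1 (mul_le_mul hs e2 (abs_nonneg _) (by norm_num))
        _ ≤ 2 ^ 22 * L + 1 * (3 / 2 * (1 + |B|) * L) := by
            have : (2 : ℝ) ^ 22 * 1 ≤ 2 ^ 22 * L := mul_le_mul_of_nonneg_left hL1 (by positivity)
            linarith
        _ = (2 ^ 22 + 3 / 2 * (1 + |B|)) * L := by ring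
    calc ‖((an δ X n + s * fa δ X w n : ℝ) : ℂ)‖ ^ 2 ≤
          ((2 ^ 22 + 3 / 2 * (1 + |B|)) * L) ^ 2 := pow_le_pow_left₀ (norm_nonneg _) e5 2
      _ = (2 ^ 22 + 3 / 2 * (1 + |B|)) ^ 2 * L ^ 2 := by ring
      _ ≤ L * L ^ 2 := mul_le_mul_of_nonneg_right hL2 (by positivity)
      _ = L ^ 3 := by ring
  refine (Finset.sum_le_sum hb).trans ?_
  rw [Finset.sum_const, Nat.card_Icc, Nat.add_sub_cancel, nsmul_eq_mul]

end Pool.MP_dd84fd_nt.HXP
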