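import Pool.Agent.Lib.MP_dd84fd_nt.HX.PlOvB
import Pool.Agent.Lib.MP_dd84fd_nt.PL.Overlap
import Pool.Agent.Lib.MP_dd84fd_nt.PL.BMass
import Pool.Agent.Lib.BV.Tot

/-!
# PL_H-Ov: overlap lemma with the condition `(k, q) = 1` (OVc)

`ovc`: for each `q ∈ QQ` integrate `ov_prod` (with `x` replaced by `σ x`) over `[s, t]` (finite sums, all functions
continuous); exchange: `∑_{q ∈ QQ} ∑_{d ∣ q} (1/φ(d)) ∑_{y ∈ rr (q/d)} ∫ |tp K (cq d c)(y/(q/d) + σx)|²`
`= ∑_{d ≤ N} (1/φ(d)) ∑_{r ∈ QQ_d} ∑_{y ∈ rr r} ∫ ..`, `QQ_d = {q/d : q ∈ QQ, d ∣ q}` (`Fam QQ_d N`: `q/d ≥ 1`,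
`lcm(q/d, q'/d) ≤ lcm(q, q') ≤ N`; `q ↦ q/d` is injective on the multiples of `d`; `d ≤ q ≤ N`).
`overlap_sigma` with `F = ‖tp K (cq d c) ·‖²` and `tp_l2`, `∑_k |cq d c k|² ≤ ∑_k |c_k|²`; `BV.tot_sum` with `Q = ⌊N⌋`.
`bmass_c`: as `PL.bmass` (`PL/BMass.lean`, its substitution lemma `bm_subst`): for `q ∈ QQ`, `r_q = M b_q/X ∈ [r, 2r]`, `r = Mb/X`:
`∫_0^1 ‖P_q(a/q + σ r_q e^{2t})‖² dt ≤ (1/(2r)) ∫_r^{16 r} ‖P_q(a/q+σy)‖² dy`, `P_q = tp K (cq q c)`, then `ovc` with `[s,t] = [r, 16r]`.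
`N2_tpc`: `ovc` on `[b/X, 4b/X]` (the integrals over `[bq/X, 2bq/X]` are smaller), `3 (b/X) N + 1 ≤ 4`.
-/

set_option autoImplicit false

namespace Pool.MP_dd84fd_nt.HXP

open Finset Pool.MP_67663b_nt.Odd Pool.MP_dd84fd_nt.PL Pool.MP_dd84fd_nt.HX

private theorem bm_ee_add (x y : ℝ) : ee (x + y) = ee x * ee y := by
  unfold ee
  rw [← Complex.exp_add]
  congr 1
  push_cast
  ring

private theorem bm_ee_cont : Continuous ee := by
  unfold ee
  fun_prop

private theorem bm_ee_int (m : ℤ) : ee (m : ℝ) = 1 := by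
  unfold ee
  have h : (2 * (Real.pi : ℂ) * ((m : ℝ) : ℂ) * Complex.I) = (m : ℂ) * (2 * Real.pi * Complex.I) := by
    push_cast
    ring
  rw [h]
  exact Complex.exp_int_mul_two_pi_mul_I m

private theorem bm_tp_cont (K : ℕ) (c : ℕ → ℂ) : Continuous (tp K c) := by
  unfold tp
  refine continuous_finsetSum _ fun k _ => ?_
  exact continuous_const.mul (bm_ee_cont.comp (continuous_const.mul continuous_id))

private theorem bm_tp_per (K : ℕ) (c : ℕ → ℂ) (x : ℝ) : tp K c (x + 1) = tp K c x := by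
  unfold tp
  refine sum_congr rfl fun k _ => ?_
  rw [mul_add, mul_one, bm_ee_add]
  have := bm_ee_int (k : ℤ)
  rw [Int.cast_natCast] at this
  rw [this, mul_one]

private theorem bm_mono {F : ℝ → ℝ} (hF : Continuous F) (h0 : ∀ x, 0 ≤ F x) {s s' t' t : ℝ}
    (h1 : s ≤ s') (h2 : s' ≤ t') (h3 : t' ≤ t) :
    ∫ x in s'..t', F x ≤ ∫ x in s..t, F x :=
  intervalIntegral.integral_mono_interval h1 h2 h3
    (Filter.Eventually.of_forall fun x => h0 x) (hF.intervalIntegrable _ _)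

private theorem bm_exp2 : Real.exp 2 < 8 := by
  have h1 := Real.exp_one_lt_d9
  have h2 : Real.exp 2 = Real.exp 1 * Real.exp 1 := by
    rw [← Real.exp_add]
    norm_num
  have h3 := Real.exp_pos 1
  rw [h2]
  nlinarith

private theorem bm_subst {g : ℝ → ℝ} (hg : Continuous g) (h0 : ∀ x, 0 ≤ g x) {r s : ℝ} (hr : 0 < r)
    (h1 : r ≤ s) (h2 : s ≤ 2 * r) :
    ∫ t in (0 : ℝ)..1, g (s * Real.exp (2 * Int.fract t)) ≤ (1 / (2 * r)) * ∫ y in r..(16 * r), g y := by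
  have hs : 0 < s := by linarith
  have e0 : ∫ t in (0 : ℝ)..1, g (s * Real.exp (2 * Int.fract t)) =
      ∫ t in (0 : ℝ)..1, g (s * Real.exp (2 * t)) := by
    rw [intervalIntegral.integral_of_le zero_le_one, intervalIntegral.integral_of_le zero_le_one,
      MeasureTheory.integral_Ioc_eq_integral_Ioo, MeasureTheory.integral_Ioc_eq_integral_Ioo]
    refine MeasureTheory.setIntegral_congr_fun measurableSet_Ioo fun t ht => ?_
    have : Int.fract t = t := Int.fract_eq_self.2 ⟨ht.1.le, ht.2⟩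
    simp only [this]
  have hd : ∀ t : ℝ, HasDerivAt (fun t => s * Real.exp (2 * t)) (s * (Real.exp (2 * t) * 2)) t := by
    intro t
    have h5 : HasDerivAt (fun t : ℝ => 2 * t) 2 t := by
      simpa using (hasDerivAt_id t).const_mul (2 : ℝ)
    exact (h5.exp).const_mul s
  have hy : ∀ t : ℝ, 0 < s * Real.exp (2 * t) := fun t => mul_pos hs (Real.exp_pos _)
  have hgc : ContinuousOn (fun y : ℝ => g y / (2 * y)) (Set.Ioi 0) := by
    refine hg.continuousOn.div (continuousOn_const.mul continuousOn_id) ?_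
    intro y hy
    have : (0 : ℝ) < y := hy
    show (2 * y : ℝ) ≠ 0
    positivity
  have e1 : ∫ t in (0 : ℝ)..1, g (s * Real.exp (2 * t)) =
      ∫ y in (s * Real.exp (2 * 0))..(s * Real.exp (2 * 1)), g y / (2 * y) := by
    rw [← intervalIntegral.integral_comp_mul_deriv' (f := fun t => s * Real.exp (2 * t))
      (f' := fun t => s * (Real.exp (2 * t) * 2)) (g := fun y => g y / (2 * y))
      (fun t _ => hd t) (by fun_prop) (hgc.mono ?_)]
    · refine intervalIntegral.integral_congr fun t _ => ?_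
      have := hy t
      simp only [Function.comp_apply]
      field_simp
    · rintro y ⟨t, _, rfl⟩
      exact hy t
  have e2 : s * Real.exp (2 * 0) = s := by
    rw [mul_zero, Real.exp_zero, mul_one]
  have he := bm_exp2
  have he1 : 1 ≤ Real.exp 2 := Real.one_le_exp (by norm_num)
  have hss : s ≤ s * Real.exp 2 := by nlinarith
  rw [e0, e1, e2, mul_one (2 : ℝ)]
  have e3 : ∫ y in s..(s * Real.exp 2), g y / (2 * y) ≤ ∫ y in s..(s * Real.exp 2), (1 / (2 * r)) * g y := by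
    refine intervalIntegral.integral_mono_on hss ?_ ?_ ?_
    · refine (hgc.mono ?_).intervalIntegrable
      rw [Set.uIcc_of_le hss]
      intro y hy
      exact lt_of_lt_of_le hs hy.1
    · exact (continuous_const.mul hg).intervalIntegrable _ _
    · intro y hy
      have h6 : r ≤ y := h1.trans hy.1
      have h7 : 0 < y := by linarith
      rw [div_eq_mul_one_div, mul_comm]
      exact mul_le_mul_of_nonneg_right (one_div_le_one_div_of_le (by linarith) (by linarith)) (h0 y)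
  refine e3.trans ?_
  rw [intervalIntegral.integral_const_mul]
  refine mul_le_mul_of_nonneg_left ?_ (by positivity)
  exact bm_mono hg h0 h1 hss (by nlinarith)

theorem ovc (QQ : Finset ℕ) (N : ℝ) (hN : Fam QQ N) (hN1 : 1 ≤ N) (K : ℕ) (c : ℕ → ℂ)
    (s t σ : ℝ) (hst : s ≤ t) (hσ : σ = 1 ∨ σ = -1) :
    ∑ q ∈ QQ, ∑ a ∈ rr q, ∫ x in s..t, ‖tp K (cq q c) ((a : ℝ) / q + σ * x)‖ ^ 2 ≤
      3 * (1 + Real.log N) ^ 2 * ((t - s) * N + 1) * ∑ k ∈ Icc 1 K, ‖c k‖ ^ 2 := by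
  have hS : 0 ≤ ∑ k ∈ Icc 1 K, ‖c k‖ ^ 2 := sum_nonneg fun k _ => by positivity
  have hB : 0 ≤ (t - s) * N + 1 := by
    have : 0 ≤ (t - s) * N := mul_nonneg (by linarith) (by linarith)
    linarith
  set E : ℕ → ℕ → ℝ := fun d r => ∑ y ∈ rr r, ∫ x in s..t, ‖tp K (cq d c) ((y : ℝ) / r + σ * x)‖ ^ 2 with hE
  have hcont : ∀ (e : ℕ → ℂ) (y : ℝ), Continuous (fun x : ℝ => ‖tp K e (y + σ * x)‖ ^ 2) := by
    intro e y
    exact ((bm_tp_cont K e).comp (continuous_const.add (continuous_const.mul continuous_id))).norm.pow 2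
  -- step 1
  have h1 : ∀ q ∈ QQ, ∑ a ∈ rr q, ∫ x in s..t, ‖tp K (cq q c) ((a : ℝ) / q + σ * x)‖ ^ 2 ≤
      ∑ d ∈ q.divisors, 1 / (Nat.totient d : ℝ) * E d (q / d) := by
    intro q hq
    have hq1 := hN.1 q hq
    have h2 : ∑ a ∈ rr q, ∫ x in s..t, ‖tp K (cq q c) ((a : ℝ) / q + σ * x)‖ ^ 2 =
        ∫ x in s..t, ∑ a ∈ rr q, ‖tp K (cq q c) ((a : ℝ) / q + σ * x)‖ ^ 2 := by
      rw [intervalIntegral.integral_finsetSum]
      intro a _
      exact (hcont _ _).intervalIntegrable _ _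
    have h3 : ∑ d ∈ q.divisors, 1 / (Nat.totient d : ℝ) * E d (q / d) =
        ∫ x in s..t, ∑ d ∈ q.divisors, 1 / (Nat.totient d : ℝ) *
          ∑ y ∈ rr (q / d), ‖tp K (cq d c) ((y : ℝ) / ((q / d : ℕ) : ℝ) + σ * x)‖ ^ 2 := by
      rw [intervalIntegral.integral_finsetSum]
      · refine sum_congr rfl fun d _ => ?_
        rw [intervalIntegral.integral_const_mul, intervalIntegral.integral_finsetSum]
        intro a _
        exact (hcont _ _).intervalIntegrable _ _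
      · intro d _
        exact (continuous_const.mul (continuous_finsetSum _ fun y _ => hcont _ _)).intervalIntegrable _ _
    rw [h2, h3]
    refine intervalIntegral.integral_mono_on hst ?_ ?_ ?_
    · exact (continuous_finsetSum _ fun a _ => hcont _ _).intervalIntegrable _ _
    · exact (continuous_finsetSum _ fun d _ => continuous_const.mul
        (continuous_finsetSum _ fun y _ => hcont _ _)).intervalIntegrable _ _
    · intro x _
      exact ov_prod q K hq1 c (σ * x)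
  -- step 2
  set Q : ℕ := ⌊N⌋₊ with hQ
  have hQ1 : 1 ≤ Q := by
    rw [hQ]
    exact Nat.le_floor (by exact_mod_cast hN1)
  have hQN : (Q : ℝ) ≤ N := Nat.floor_le (by linarith)
  have hqQ : ∀ q ∈ QQ, q ≤ Q := by
    intro q hq
    have h2 := hN.2 q hq q hq
    rw [Nat.lcm_self] at h2
    exact Nat.le_floor h2
  have h2 : ∀ q ∈ QQ, ∑ d ∈ q.divisors, 1 / (Nat.totient d : ℝ) * E d (q / d) =
      ∑ d ∈ Icc 1 Q, if d ∣ q then 1 / (Nat.totient d : ℝ) * E d (q / d) else 0 := by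
    intro q hq
    have hq1 := hN.1 q hq
    rw [← sum_filter]
    refine sum_congr ?_ fun _ _ => rfl
    ext d
    rw [Nat.mem_divisors, mem_filter, mem_Icc]
    constructor
    · rintro ⟨h3, _⟩
      exact ⟨⟨Nat.pos_of_dvd_of_pos h3 hq1, (Nat.le_of_dvd hq1 h3).trans (hqQ q hq)⟩, h3⟩
    · rintro ⟨_, h3⟩
      exact ⟨h3, by omega⟩
  -- step 3
  have h3 : ∀ d ∈ Icc 1 Q, ∑ q ∈ QQ, (if d ∣ q then 1 / (Nat.totient d : ℝ) * E d (q / d) else 0) ≤
      1 / (Nat.totient d : ℝ) * (((t - s) * N + 1) * ∑ k ∈ Icc 1 K, ‖c k‖ ^ 2) := by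
    intro d hd
    rw [mem_Icc] at hd
    have hd0 : 0 < d := hd.1
    rw [← sum_filter, ← mul_sum]
    refine mul_le_mul_of_nonneg_left ?_ (by positivity)
    have hinj : Set.InjOn (fun q : ℕ => q / d) ((QQ.filter (fun q => d ∣ q) : Finset ℕ) : Set ℕ) := by
      intro q hq q' hq' h
      rw [mem_coe, mem_filter] at hq hq'
      have h4 : q / d = q' / d := h
      rw [← Nat.div_mul_cancel hq.2, ← Nat.div_mul_cancel hq'.2, h4]
    have h5 := sum_image (s := QQ.filter (fun q => d ∣ q)) (g := fun q : ℕ => q / d)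
      (f := fun r => E d r) hinj
    rw [← h5]
    have hFam : Fam ((QQ.filter (fun q => d ∣ q)).image (fun q : ℕ => q / d)) N := by
      constructor
      · intro r hr
        rw [mem_image] at hr
        obtain ⟨q, hq, rfl⟩ := hr
        rw [mem_filter] at hq
        exact Nat.div_pos (Nat.le_of_dvd (hN.1 q hq.1) hq.2) hd0
      · intro r hr r' hr'
        rw [mem_image] at hr hr'
        obtain ⟨q, hq, rfl⟩ := hr
        obtain ⟨q', hq', rfl⟩ := hr'
        rw [mem_filter] at hq hq'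
        have h6 := hN.2 q hq.1 q' hq'.1
        refine le_trans ?_ h6
        have h7 : Nat.lcm (q / d) (q' / d) ∣ Nat.lcm q q' :=
          Nat.lcm_dvd ((Nat.div_dvd_of_dvd hq.2).trans (Nat.dvd_lcm_left q q'))
            ((Nat.div_dvd_of_dvd hq'.2).trans (Nat.dvd_lcm_right q q'))
        have h8 : 0 < Nat.lcm q q' := Nat.lcm_pos (hN.1 q hq.1) (hN.1 q' hq'.1)
        exact_mod_cast Nat.le_of_dvd h8 h7
    have hF : Continuous (fun x => ‖tp K (cq d c) x‖ ^ 2) := (bm_tp_cont K (cq d c)).norm.pow 2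
    have h0 : ∀ x, 0 ≤ ‖tp K (cq d c) x‖ ^ 2 := fun x => by positivity
    have hp : ∀ x, ‖tp K (cq d c) (x + 1)‖ ^ 2 = ‖tp K (cq d c) x‖ ^ 2 := fun x => by rw [bm_tp_per]
    have h6 := overlap_sigma _ N hFam hN1 _ hF h0 hp s t hst σ hσ
    rw [tp_l2] at h6
    refine h6.trans (mul_le_mul_of_nonneg_left ?_ hB)
    refine sum_le_sum fun k _ => ?_
    unfold cq
    split_ifs
    · exact le_refl _
    · rw [norm_zero, zero_pow two_ne_zero]
      positivity
  calc _ ≤ ∑ q ∈ QQ, ∑ d ∈ Icc 1 Q, (if d ∣ q then 1 / (Nat.totient d : ℝ) * E d (q / d) else 0) :=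
        sum_le_sum fun q hq => (h1 q hq).trans (le_of_eq (h2 q hq))
    _ = ∑ d ∈ Icc 1 Q, ∑ q ∈ QQ, (if d ∣ q then 1 / (Nat.totient d : ℝ) * E d (q / d) else 0) := sum_comm
    _ ≤ ∑ d ∈ Icc 1 Q, 1 / (Nat.totient d : ℝ) * (((t - s) * N + 1) * ∑ k ∈ Icc 1 K, ‖c k‖ ^ 2) :=
        sum_le_sum h3
    _ = (∑ d ∈ Icc 1 Q, 1 / (Nat.totient d : ℝ)) * (((t - s) * N + 1) * ∑ k ∈ Icc 1 K, ‖c k‖ ^ 2) := by
        rw [sum_mul]
    _ ≤ (3 * (1 + Real.log N) ^ 2) * (((t - s) * N + 1) * ∑ k ∈ Icc 1 K, ‖c k‖ ^ 2) := by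
        refine mul_le_mul_of_nonneg_right ?_ (mul_nonneg hB hS)
        refine (Pool.BV.tot_sum Q hQ1).trans ?_
        have h4 : 0 ≤ Real.log Q := Real.log_natCast_nonneg Q
        have h5 : Real.log Q ≤ Real.log N :=
          Real.log_le_log (by exact_mod_cast hQ1) hQN
        have h6 : (1 + Real.log Q) ^ 2 ≤ (1 + Real.log N) ^ 2 :=
          pow_le_pow_left₀ (by linarith) (by linarith) 2
        linarith
    _ = _ := by ring

theorem bmass_c (X : ℕ) (hX : 1 ≤ X) (b N σ M : ℝ) (hb : 0 < b) (hN1 : 1 ≤ N) (hM : 0 < M)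
    (hσ : σ = 1 ∨ σ = -1) (QQ : Finset ℕ) (hN : Fam QQ N) (bq : ℕ → ℝ)
    (hbq : ∀ q ∈ QQ, b ≤ bq q ∧ bq q ≤ 2 * b) (K : ℕ) (c : ℕ → ℂ) :
    ∑ q ∈ QQ, ∑ a ∈ rr q, ∫ t in (0 : ℝ)..1,
      ‖tp K (cq q c) ((a : ℝ) / q + σ * (M * (bq q / X)) * Real.exp (2 * Int.fract t))‖ ^ 2 ≤
      3 * (1 + Real.log N) ^ 2 * (8 * N + X / (M * b)) * ∑ k ∈ Icc 1 K, ‖c k‖ ^ 2 := by
  have hX0 : (0 : ℝ) < X := by exact_mod_cast hX
  set r : ℝ := M * (b / X) with hr
  have hr0 : 0 < r := by positivity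
  have h1 : ∀ q ∈ QQ, ∀ a ∈ rr q, ∫ t in (0 : ℝ)..1,
      ‖tp K (cq q c) ((a : ℝ) / q + σ * (M * (bq q / X)) * Real.exp (2 * Int.fract t))‖ ^ 2 ≤
      (1 / (2 * r)) * ∫ y in r..(16 * r), ‖tp K (cq q c) ((a : ℝ) / q + σ * y)‖ ^ 2 := by
    intro q hq a _
    obtain ⟨h2, h3⟩ := hbq q hq
    have h4 := bm_subst (g := fun y => ‖tp K (cq q c) ((a : ℝ) / q + σ * y)‖ ^ 2)
      ((((bm_tp_cont K (cq q c)).comp (continuous_const.add (continuous_const.mul continuous_id))).norm.pow 2))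
      (fun x => by positivity) (r := r) (s := M * (bq q / X)) hr0
      (by rw [hr]; gcongr)
      (by
        rw [hr]
        have : M * (bq q / X) ≤ M * (2 * b / X) := by gcongr
        refine this.trans (le_of_eq ?_)
        ring)
    simpa only [mul_assoc] using h4
  have h5 := ovc QQ N hN hN1 K c r (16 * r) σ (by linarith) hσ
  have hS : 0 ≤ ∑ k ∈ Icc 1 K, ‖c k‖ ^ 2 := sum_nonneg fun k _ => by positivity
  calc _ ≤ ∑ q ∈ QQ, ∑ a ∈ rr q, (1 / (2 * r)) *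
          ∫ y in r..(16 * r), ‖tp K (cq q c) ((a : ℝ) / q + σ * y)‖ ^ 2 :=
        sum_le_sum fun q hq => sum_le_sum fun a ha => h1 q hq a ha
    _ = (1 / (2 * r)) * ∑ q ∈ QQ, ∑ a ∈ rr q,
          ∫ y in r..(16 * r), ‖tp K (cq q c) ((a : ℝ) / q + σ * y)‖ ^ 2 := by
        rw [mul_sum]
        refine sum_congr rfl fun q _ => ?_
        rw [mul_sum]
    _ ≤ (1 / (2 * r)) * (3 * (1 + Real.log N) ^ 2 * ((16 * r - r) * N + 1) * ∑ k ∈ Icc 1 K, ‖c k‖ ^ 2) :=
        mul_le_mul_of_nonneg_left h5 (by positivity)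
    _ = 3 * (1 + Real.log N) ^ 2 * (15 / 2 * N + 1 / 2 * (X / (M * b))) * ∑ k ∈ Icc 1 K, ‖c k‖ ^ 2 := by
        rw [hr]
        field_simp
        ring
    _ ≤ _ := by
        refine mul_le_mul_of_nonneg_right ?_ hS
        refine mul_le_mul_of_nonneg_left ?_ (by positivity)
        have : 0 ≤ X / (M * b) := by positivity
        linarith

theorem N2_tpc (X : ℕ) (hX : 1 ≤ X) (b N σ : ℝ) (hb : 0 < b) (hN1 : 1 ≤ N) (hNb : N * b ≤ X)
    (hσ : σ = 1 ∨ σ = -1) (QQ : Finset ℕ) (hN : Fam QQ N) (bq : ℕ → ℝ)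
    (hbq : ∀ q ∈ QQ, b ≤ bq q ∧ bq q ≤ 2 * b) (K : ℕ) (c : ℕ → ℂ) :
    N2 X bq QQ (fun q a x => tp K (cq q c) ((a : ℝ) / q + σ * x)) ≤
      12 * (1 + Real.log N) ^ 2 * ∑ k ∈ Icc 1 K, ‖c k‖ ^ 2 := by
  have hX0 : (0 : ℝ) < X := by exact_mod_cast hX
  have hbX : 0 < b / X := by positivity
  have h5 := ovc QQ N hN hN1 K c (b / X) (4 * (b / X)) σ (by linarith) hσ
  have hS : 0 ≤ ∑ k ∈ Icc 1 K, ‖c k‖ ^ 2 := sum_nonneg fun k _ => by positivity
  unfold N2
  calc _ ≤ ∑ q ∈ QQ, ∑ a ∈ rr q, ∫ x in (b / X)..(4 * (b / X)), ‖tp K (cq q c) ((a : ℝ) / q + σ * x)‖ ^ 2 := by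
        refine sum_le_sum fun q hq => sum_le_sum fun a _ => ?_
        obtain ⟨h2, h3⟩ := hbq q hq
        have hbq0 : 0 < bq q := by linarith
        have h6 : 0 < bq q / X := by positivity
        refine bm_mono (F := fun x => ‖tp K (cq q c) ((a : ℝ) / q + σ * x)‖ ^ 2)
          ((((bm_tp_cont K (cq q c)).comp (continuous_const.add (continuous_const.mul continuous_id))).norm.pow 2))
          (fun x => by positivity) (by gcongr) ?_ ?_
        · rw [mul_div_assoc]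
          linarith
        · have : 2 * bq q / X ≤ 2 * (2 * b) / X := by gcongr
          refine this.trans (le_of_eq ?_)
          ring
    _ ≤ 3 * (1 + Real.log N) ^ 2 * ((4 * (b / X) - b / X) * N + 1) * ∑ k ∈ Icc 1 K, ‖c k‖ ^ 2 := h5
    _ ≤ _ := by
        refine mul_le_mul_of_nonneg_right ?_ hS
        have h7 : b / X * N ≤ 1 := by
          rw [div_mul_eq_mul_div, div_le_one hX0]
          linarith
        have h8 : (4 * (b / X) - b / X) * N + 1 ≤ 4 := by linarith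
        calc _ ≤ 3 * (1 + Real.log N) ^ 2 * 4 := mul_le_mul_of_nonneg_left h8 (by positivity)
          _ = _ := by ring

end Pool.MP_dd84fd_nt.HXP
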