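import Pool.Agent.Lib.MP_dd84fd_nt.HX.PlTIN
import Pool.Agent.Lib.MP_dd84fd_nt.HX.PlMod
import Pool.Agent.Lib.MP_dd84fd_nt.HX.PlNC
import Pool.Agent.Lib.MP_dd84fd_nt.HX.PlOv

/-!
# PL_H-Arc: decomposition of `WH` on the arcs

`L = log X`, `B = AE + 4` in `Dec2`, `C` = its constant, `D = ⌊X^(2/5)⌋`, `γ l n = α l + β l/log n` (`|γ| ≤ 1 + 3L`, variation
`≤ |β|·3 ≤ 6L`: `BVw X L²`), `MM i = {m : a i m ≠ 0} ∩ Icc 1 X`, complex coefficients `a i`, `c i`, `∑_{k ≤ K i} |c|² ≤ K L^4 ≤ L^4 X/M`,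
`M i ≥ Uu ≥ X^(1/3)`.  On the arcs (`θ = a/q + σx`, `q ∈ QQ`):
`WH s = tp X an + s tp X fa`, `tp X an = tp X (cq q an) + (part (n,q) > 1)` (`nc_part`), `cq q an` by `alg_I`, `alg_II` and `tp X (cq q err)`
(`N2_tpc`: `≤ 12 (1+log N)² X/L^B`).  In `alg_I` the term `g = q` is (`iw_shift`) `μ(q) ∑_{l ≤ D,(l,q)=1} iw X (lq) (γ l) (σx)`, the terms
`g < q`: `tia_N2`.  `model_h`: the `d` with `q ∣ d`: `∑_{l ≤ V0/q} iw X (lq) (Γ (lq)) (σx)` (`iw_shift`), the other `d`: `tim_N2`;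
`tp X e`: `N2_tp`.  `lam q x = μ(q) ∑.. + s ∑..`, `lam_iw`: `≤ 2 L² (1+L) X/q ≤ L^4 X/q`.
`N2` of a sum of 5 functions `≤ 16` times the sum (`N2_add`).  For `b > L^K2` also `N2(lam) ≤ 4 X L^10/b` (`tila_N2` twice).
-/

set_option autoImplicit false

namespace Pool.MP_dd84fd_nt.HXP

open Finset Pool.MP_67663b_nt.Odd Pool.MP_dd84fd_nt.E2 Pool.MP_dd84fd_nt.PL Pool.MP_dd84fd_nt.HX

/-! ### elementary estimates -/

private theorem pa_log (K : ℕ) (A η : ℝ) (hη : 0 < η) : ∃ X0 : ℕ, ∀ X : ℕ, X0 ≤ X →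
    A * (Real.log X) ^ K ≤ (X : ℝ) ^ η := by
  have h1 := (isLittleO_log_rpow_rpow_atTop (K : ℝ) hη).bound
    (show (0 : ℝ) < 1 / (|A| + 1) by positivity)
  obtain ⟨x0, hx0⟩ := Filter.eventually_atTop.1 h1
  refine ⟨max ⌈x0⌉₊ 1, fun X hX => ?_⟩
  have hX1 : 1 ≤ X := (le_max_right _ _).trans hX
  have hX2 : x0 ≤ X := (Nat.le_ceil x0).trans (by exact_mod_cast (le_max_left _ _).trans hX)
  have h2 := hx0 X hX2
  have hL : 0 ≤ Real.log X := Real.log_natCast_nonneg X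
  have hXp : (0 : ℝ) ≤ (X : ℝ) ^ η := Real.rpow_nonneg (Nat.cast_nonneg X) _
  rw [Real.rpow_natCast, Real.norm_eq_abs, Real.norm_eq_abs, abs_of_nonneg (pow_nonneg hL K),
    abs_of_nonneg hXp] at h2
  calc A * (Real.log X) ^ K ≤ |A| * (Real.log X) ^ K :=
        mul_le_mul_of_nonneg_right (le_abs_self A) (pow_nonneg hL K)
    _ ≤ |A| * (1 / (|A| + 1) * (X : ℝ) ^ η) := mul_le_mul_of_nonneg_left h2 (abs_nonneg A)
    _ = (|A| / (|A| + 1)) * (X : ℝ) ^ η := by ring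
    _ ≤ 1 * (X : ℝ) ^ η := by
        apply mul_le_mul_of_nonneg_right _ hXp
        rw [div_le_one (by positivity)]
        linarith
    _ = (X : ℝ) ^ η := one_mul _

private theorem pa_big (T : ℝ) : ∃ X0 : ℕ, ∀ X : ℕ, X0 ≤ X → T ≤ Real.log X := by
  refine ⟨⌈Real.exp T⌉₊, fun X hX => ?_⟩
  have h1 : Real.exp T ≤ X := (Nat.le_ceil _).trans (by exact_mod_cast hX)
  rw [Real.le_log_iff_exp_le ((Real.exp_pos T).trans_le h1)]
  exact h1

private theorem pa_inv (n : ℕ) : 0 ≤ 1 / Real.log (n : ℝ) ∧ 1 / Real.log (n : ℝ) ≤ 3 / 2 := by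
  rcases Nat.lt_or_ge n 2 with h | h
  · interval_cases n
    · norm_num
    · norm_num
  · have h1 : Real.log 2 ≤ Real.log n := Real.log_le_log (by norm_num) (by exact_mod_cast h)
    have h2 := Real.log_two_gt_d9
    constructor
    · positivity
    · rw [div_le_iff₀ (by linarith)]
      linarith

private theorem pa_var (X : ℕ) :
    ∑ n ∈ Ico 1 X, |1 / Real.log ((n + 1 : ℕ) : ℝ) - 1 / Real.log (n : ℝ)| ≤ 3 := by
  have key : ∀ X : ℕ, 2 ≤ X → ∑ n ∈ Ico 1 X, |1 / Real.log ((n + 1 : ℕ) : ℝ) -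
      1 / Real.log (n : ℝ)| ≤ 3 - 1 / Real.log (X : ℝ) := by
    intro X hX
    induction X, hX using Nat.le_induction with
    | base =>
      have h1 := pa_inv 2
      rw [sum_Ico_eq_sum_range]
      simp only [Nat.add_one_sub_one, range_one, sum_singleton, add_zero, Nat.cast_one,
        Real.log_one, div_zero, sub_zero]
      rw [show ((1 + 1 : ℕ) : ℝ) = ((2 : ℕ) : ℝ) by norm_num, abs_of_nonneg h1.1]
      linarith [h1.2]
    | succ X hX ih =>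
      rw [sum_Ico_succ_top (by omega)]
      have h1 : 0 < Real.log (X : ℝ) := Real.log_pos (by exact_mod_cast (by omega : 1 < X))
      have h2 : Real.log (X : ℝ) ≤ Real.log ((X + 1 : ℕ) : ℝ) :=
        Real.log_le_log (by exact_mod_cast (by omega : 0 < X)) (by push_cast; linarith)
      have h3 : 1 / Real.log ((X + 1 : ℕ) : ℝ) ≤ 1 / Real.log (X : ℝ) :=
        one_div_le_one_div_of_le h1 h2
      rw [abs_of_nonpos (by linarith)]
      linarith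
  rcases Nat.lt_or_ge X 2 with h | h
  · have : Ico 1 X = ∅ := Ico_eq_empty (by omega)
    rw [this]
    simp
  · have h1 := key X h
    have h2 := (pa_inv X).1
    linarith

private theorem pa_gam (X : ℕ) (α β L : ℝ) (hL : 6 ≤ L) (hα : |α| ≤ 1) (hβ : |β| ≤ 2 * L) :
    BVw X (L ^ 2) (fun n => α + β / Real.log n) := by
  constructor
  · intro n _
    have h1 := pa_inv n
    have h2 : |β / Real.log n| ≤ 2 * L * (3 / 2) := by
      rw [div_eq_mul_one_div, abs_mul, abs_of_nonneg h1.1]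
      exact mul_le_mul hβ h1.2 h1.1 (by linarith)
    refine (abs_add_le _ _).trans ?_
    nlinarith
  · have h1 : ∀ n ∈ Ico 1 X, |(α + β / Real.log ((n + 1 : ℕ) : ℝ)) - (α + β / Real.log (n : ℝ))| =
        |β| * |1 / Real.log ((n + 1 : ℕ) : ℝ) - 1 / Real.log (n : ℝ)| := by
      intro n _
      rw [← abs_mul]
      congr 1
      ring
    rw [sum_congr rfl h1, ← mul_sum]
    have h2 := pa_var X
    have h3 : 0 ≤ ∑ n ∈ Ico 1 X, |1 / Real.log ((n + 1 : ℕ) : ℝ) - 1 / Real.log (n : ℝ)| :=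
      sum_nonneg fun _ _ => abs_nonneg _
    calc _ ≤ (2 * L) * 3 := mul_le_mul hβ h2 h3 (by linarith)
      _ ≤ L ^ 2 := by nlinarith

private theorem pa_BVw_mono {X : ℕ} {R R' : ℝ} {γ : ℕ → ℝ} (h : BVw X R γ) (hR : R ≤ R') :
    BVw X R' γ := ⟨fun n hn => (h.1 n hn).trans hR, h.2.trans hR⟩

/-! ### the `L²` norm -/

private theorem pa_smul (X : ℕ) (bq : ℕ → ℝ) (QQ : Finset ℕ) (hb : ∀ q ∈ QQ, 0 < bq q)
    (f : ℕ → ℕ → ℝ → ℂ) (hf : ∀ q a, Continuous (f q a)) (c : ℕ → ℂ) (hc : ∀ q, ‖c q‖ ≤ 1) :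
    N2 X bq QQ (fun q a x => c q * f q a x) ≤ N2 X bq QQ f := by
  unfold N2
  refine sum_le_sum fun q hq => sum_le_sum fun a _ => ?_
  have hle : bq q / X ≤ 2 * bq q / X := by
    apply div_le_div_of_nonneg_right _ (Nat.cast_nonneg X)
    linarith [hb q hq]
  have hfq := hf q a
  apply intervalIntegral.integral_mono_on hle
  · apply Continuous.intervalIntegrable
    fun_prop
  · apply Continuous.intervalIntegrable
    fun_prop
  · intro x _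
    rw [norm_mul]
    have h1 : ‖c q‖ * ‖f q a x‖ ≤ 1 * ‖f q a x‖ :=
      mul_le_mul_of_nonneg_right (hc q) (norm_nonneg _)
    rw [one_mul] at h1
    exact pow_le_pow_left₀ (by positivity) h1 2

private theorem pa_five (X : ℕ) (bq : ℕ → ℝ) (QQ : Finset ℕ) (hb : ∀ q ∈ QQ, 0 < bq q)
    (f1 f2 f3 f4 f5 : ℕ → ℕ → ℝ → ℂ) (h1 : ∀ q a, Continuous (f1 q a))
    (h2 : ∀ q a, Continuous (f2 q a)) (h3 : ∀ q a, Continuous (f3 q a))
    (h4 : ∀ q a, Continuous (f4 q a)) (h5 : ∀ q a, Continuous (f5 q a)) :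
    N2 X bq QQ (fun q a x => (f1 q a x + f2 q a x) + ((f3 q a x + f4 q a x) + f5 q a x)) ≤
      8 * (N2 X bq QQ f1 + N2 X bq QQ f2 + N2 X bq QQ f3 + N2 X bq QQ f4 + N2 X bq QQ f5) := by
  have e1 := N2_add X bq QQ hb (fun q a x => f1 q a x + f2 q a x)
    (fun q a x => (f3 q a x + f4 q a x) + f5 q a x) (fun q a => (h1 q a).add (h2 q a))
    (fun q a => ((h3 q a).add (h4 q a)).add (h5 q a))
  have e2 := N2_add X bq QQ hb f1 f2 h1 h2
  have e3 := N2_add X bq QQ hb (fun q a x => f3 q a x + f4 q a x) f5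
    (fun q a => (h3 q a).add (h4 q a)) h5
  have e4 := N2_add X bq QQ hb f3 f4 h3 h4
  have p1 := N2_nonneg X bq QQ hb f1
  have p2 := N2_nonneg X bq QQ hb f2
  have p3 := N2_nonneg X bq QQ hb f3
  have p4 := N2_nonneg X bq QQ hb f4
  have p5 := N2_nonneg X bq QQ hb f5
  linarith

/-! ### algebra -/

private theorem pa_tp_cq (X q I : ℕ) (f F1 er : ℕ → ℝ) (F2 : ℕ → ℕ → ℝ)
    (h : ∀ n ∈ Icc 1 X, f n = F1 n + ∑ i ∈ range I, F2 i n + er n) (θ : ℝ) :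
    tp X (cq q (fun n => (f n : ℂ))) θ = tp X (cq q (fun n => ((F1 n : ℝ) : ℂ))) θ +
      ∑ i ∈ range I, tp X (cq q (fun n => ((F2 i n : ℝ) : ℂ))) θ +
      tp X (cq q (fun n => (er n : ℂ))) θ := by
  unfold tp
  rw [sum_comm, ← sum_add_distrib, ← sum_add_distrib]
  refine sum_congr rfl fun n hn => ?_
  rw [← sum_mul, ← add_mul, ← add_mul]
  congr 1
  unfold cq
  by_cases hc : Nat.Coprime n q
  · simp only [if_pos hc]
    rw [h n hn]
    push_cast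
    ring
  · simp only [if_neg hc, sum_const_zero, add_zero]

private theorem pa_tp_split (X q : ℕ) (f : ℕ → ℂ) (θ : ℝ) :
    tp X f θ = tp X (cq q f) θ + tp X (fun k => if Nat.Coprime k q then 0 else f k) θ := by
  unfold tp
  rw [← sum_add_distrib]
  refine sum_congr rfl fun n _ => ?_
  rw [← add_mul]
  congr 1
  unfold cq
  by_cases hc : Nat.Coprime n q
  · simp only [if_pos hc, add_zero]
  · simp only [if_neg hc, zero_add]

private theorem pa_WH (s δ : ℝ) (w X : ℕ) (θ : ℝ) :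
    WH s δ w X θ = tp X (fun n => (an δ X n : ℂ)) θ +
      (s : ℂ) * tp X (fun n => (fa δ X w n : ℂ)) θ := by
  unfold WH tp
  rw [mul_sum, ← sum_add_distrib]
  refine sum_congr rfl fun n _ => ?_
  push_cast
  ring

/-- the multiples of `q` -/
private theorem pa_mult (V q : ℕ) (hq : 1 ≤ q) (F : ℕ → ℂ) :
    ∑ d ∈ (Icc 1 V).filter (fun d => q ∣ d), F d = ∑ l ∈ Icc 1 (V / q), F (l * q) := by
  symm
  refine sum_bij (fun l _ => l * q) ?_ ?_ ?_ ?_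
  · intro l hl
    rw [mem_Icc] at hl
    rw [mem_filter, mem_Icc]
    refine ⟨⟨Nat.mul_pos hl.1 hq, ?_⟩, Dvd.intro_left l rfl⟩
    exact (Nat.le_div_iff_mul_le hq).1 hl.2
  · intro l _ l' _ h
    exact Nat.eq_of_mul_eq_mul_right hq h
  · intro d hd
    rw [mem_filter, mem_Icc] at hd
    obtain ⟨⟨h1, h2⟩, ⟨l, rfl⟩⟩ := hd
    refine ⟨l, ?_, mul_comm _ _⟩
    rw [mem_Icc]
    refine ⟨Nat.pos_of_ne_zero fun h0 => by simp [h0] at h1, ?_⟩
    rw [Nat.le_div_iff_mul_le hq, mul_comm]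
    exact h2
  · intro l _
    rfl

/-- the function independent of `a`: first part -/
noncomputable def paLam1 (X D : ℕ) (γ : ℕ → ℕ → ℝ) (σ : ℝ) (q : ℕ) (x : ℝ) : ℂ :=
  ∑ l ∈ (Icc 1 D).filter (fun l => Nat.Coprime l q), iw X (l * q) (γ l) (σ * x)

/-- the function independent of `a`: second part -/
noncomputable def paLam2 (X V : ℕ) (Γ : ℕ → ℕ → ℝ) (σ : ℝ) (q : ℕ) (x : ℝ) : ℂ :=
  ∑ l ∈ Icc 1 (V / q), iw X (l * q) (Γ (l * q)) (σ * x)

private theorem pa_id (X q a : ℕ) (hq : 1 ≤ q) (s δ σ x : ℝ) (w I D : ℕ) (γ : ℕ → ℕ → ℝ)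
    (K : ℕ → ℕ) (MM : ℕ → Finset ℕ) (α c : ℕ → ℕ → ℝ) (er : ℕ → ℝ) (Γ : ℕ → ℕ → ℝ) (e : ℕ → ℂ)
    (hγ : ∀ l, D < l → ∀ n, γ l n = 0)
    (hM0 : ∀ i, ∀ m ∈ MM i, 1 ≤ m) (hα : ∀ i m, α i m ≠ 0 → m ∈ MM i)
    (hK : ∀ i m, α i m ≠ 0 → m * K i ≤ X)
    (hdec : ∀ n ∈ Icc 1 X, an δ X n = ∑ l ∈ n.divisors, γ l n +
      ∑ i ∈ range I, ∑ m ∈ n.divisors, (if n / m ≤ K i then α i m * c i (n / m) else 0) + er n)
    (hmod : ∀ θ : ℝ, tp X (fun n => (fa δ X w n : ℂ)) θ =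
        ∑ d ∈ Icc 1 (V0 X), iw X d (Γ d) θ + tp X e θ) :
    WHa s δ σ w X q a x = ((ArithmeticFunction.moebius q : ℤ) : ℂ) * paLam1 X D γ σ q x +
      (s : ℂ) * paLam2 X (V0 X) Γ σ q x +
      ∑ i ∈ range I, f2f (MM i) (fun m => (α i m : ℂ))
        (tp (K i) (cq q (fun k => (c i k : ℂ)))) σ q a x +
      ((∑ g ∈ q.divisors.filter (fun g => g ≠ q), ((ArithmeticFunction.moebius g : ℤ) : ℂ) *
        ∑ l ∈ (Icc 1 D).filter (fun l => Nat.Coprime l q),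
          iw X (l * g) (γ l) ((a : ℝ) / q + σ * x) +
        (s : ℂ) * ∑ d ∈ (Icc 1 (V0 X)).filter (fun d => ¬ q ∣ d),
          iw X d (Γ d) ((a : ℝ) / q + σ * x)) +
      ((tp X (cq q (fun n => (er n : ℂ))) ((a : ℝ) / q + σ * x) +
        tp X (fun k => if Nat.Coprime k q then 0 else (an δ X k : ℂ)) ((a : ℝ) / q + σ * x)) +
        (s : ℂ) * tp X e ((a : ℝ) / q + σ * x))) := by
  set θ : ℝ := (a : ℝ) / q + σ * x with hθ
  have h1 : ∑ l ∈ (Icc 1 D).filter (fun l => Nat.Coprime l q), iw X (l * q) (γ l) θ =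
      paLam1 X D γ σ q x := by
    unfold paLam1
    refine sum_congr rfl fun l _ => ?_
    rw [hθ, iw_shift X l q a hq]
  have h2 : ∑ d ∈ (Icc 1 (V0 X)).filter (fun d => q ∣ d), iw X d (Γ d) θ =
      paLam2 X (V0 X) Γ σ q x := by
    rw [pa_mult (V0 X) q hq (fun d => iw X d (Γ d) θ)]
    unfold paLam2
    refine sum_congr rfl fun l _ => ?_
    rw [hθ, iw_shift X l q a hq]
  have h3 : ∑ g ∈ q.divisors, ((ArithmeticFunction.moebius g : ℤ) : ℂ) *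
        ∑ l ∈ (Icc 1 D).filter (fun l => Nat.Coprime l q), iw X (l * g) (γ l) θ =
      ∑ g ∈ q.divisors.filter (fun g => g ≠ q), ((ArithmeticFunction.moebius g : ℤ) : ℂ) *
        ∑ l ∈ (Icc 1 D).filter (fun l => Nat.Coprime l q), iw X (l * g) (γ l) θ +
      ((ArithmeticFunction.moebius q : ℤ) : ℂ) * paLam1 X D γ σ q x := by
    rw [← sum_filter_add_sum_filter_not q.divisors (fun g => g ≠ q)]
    congr 1
    have h4 : q.divisors.filter (fun g => ¬ g ≠ q) = {q} := by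
      ext g
      simp only [mem_filter, Nat.mem_divisors, not_not, mem_singleton]
      constructor
      · exact fun h => h.2
      · rintro rfl
        exact ⟨⟨dvd_rfl, by omega⟩, rfl⟩
    rw [h4, sum_singleton, h1]
  have h5 := alg_I X q D hq γ hγ θ
  have h6 : ∀ i ∈ range I, tp X (cq q (fun n => ((∑ m ∈ n.divisors,
      (if n / m ≤ K i then α i m * c i (n / m) else 0) : ℝ) : ℂ))) θ =
      f2f (MM i) (fun m => (α i m : ℂ)) (tp (K i) (cq q (fun k => (c i k : ℂ)))) σ q a x := by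
    intro i _
    rw [alg_II X q (K i) hq (MM i) (α i) (c i) (hM0 i) (hα i) (hK i) θ]
    rfl
  have h7 := pa_tp_cq X q I (an δ X) (fun n => ∑ l ∈ n.divisors, γ l n) er
    (fun i n => ∑ m ∈ n.divisors, (if n / m ≤ K i then α i m * c i (n / m) else 0)) hdec θ
  rw [h5, sum_congr rfl h6, h3] at h7
  have h8 : ∑ d ∈ Icc 1 (V0 X), iw X d (Γ d) θ = paLam2 X (V0 X) Γ σ q x +
      ∑ d ∈ (Icc 1 (V0 X)).filter (fun d => ¬ q ∣ d), iw X d (Γ d) θ := by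
    rw [← h2, sum_filter_add_sum_filter_not]
  unfold WHa
  rw [← hθ, pa_WH, hmod, pa_tp_split X q, h7, h8]
  ring

/-! ### the five error functions -/

/-- the multiples of `g`, `g ≠ q` -/
noncomputable def paT1 (X D : ℕ) (γ : ℕ → ℕ → ℝ) (σ : ℝ) (q a : ℕ) (x : ℝ) : ℂ :=
  ∑ g ∈ q.divisors.filter (fun g => g ≠ q), ((ArithmeticFunction.moebius g : ℤ) : ℂ) *
    ∑ l ∈ (Icc 1 D).filter (fun l => Nat.Coprime l q),
      iw X (l * g) (γ l) ((a : ℝ) / q + σ * x)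

/-- the model, `q ∤ d` -/
noncomputable def paT2 (X : ℕ) (Γ : ℕ → ℕ → ℝ) (σ : ℝ) (q a : ℕ) (x : ℝ) : ℂ :=
  ∑ d ∈ (Icc 1 (V0 X)).filter (fun d => ¬ q ∣ d), iw X d (Γ d) ((a : ℝ) / q + σ * x)

private theorem pa_T1_cont (X D : ℕ) (γ : ℕ → ℕ → ℝ) (σ : ℝ) (q a : ℕ) :
    Continuous (paT1 X D γ σ q a) := by
  unfold paT1
  refine continuous_finsetSum _ fun g _ => ?_
  refine continuous_const.mul (continuous_finsetSum _ fun l _ => ?_)
  exact (iw_cont X (l * g) (γ l)).comp (by fun_prop)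

private theorem pa_T2_cont (X : ℕ) (Γ : ℕ → ℕ → ℝ) (σ : ℝ) (q a : ℕ) :
    Continuous (paT2 X Γ σ q a) := by
  unfold paT2
  refine continuous_finsetSum _ fun d _ => ?_
  exact (iw_cont X d (Γ d)).comp (by fun_prop)

private theorem pa_L1_cont (X D : ℕ) (γ : ℕ → ℕ → ℝ) (σ : ℝ) (q : ℕ) :
    Continuous (paLam1 X D γ σ q) := by
  unfold paLam1
  refine continuous_finsetSum _ fun l _ => ?_
  exact (iw_cont X (l * q) (γ l)).comp (by fun_prop)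

private theorem pa_L2_cont (X V : ℕ) (Γ : ℕ → ℕ → ℝ) (σ : ℝ) (q : ℕ) :
    Continuous (paLam2 X V Γ σ q) := by
  unfold paLam2
  refine continuous_finsetSum _ fun l _ => ?_
  exact (iw_cont X (l * q) (Γ (l * q))).comp (by fun_prop)

private theorem pa_tp_cont (X : ℕ) (c : ℕ → ℂ) (σ : ℝ) (q a : ℕ) :
    Continuous (fun x : ℝ => tp X c ((a : ℝ) / q + σ * x)) :=
  (tp_cont X c).comp (by fun_prop)

private theorem pa_congr (X : ℕ) (bq : ℕ → ℝ) (QQ : Finset ℕ) (f g : ℕ → ℕ → ℝ → ℂ)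
    (h : ∀ q ∈ QQ, ∀ a x, f q a x = g q a x) : N2 X bq QQ f = N2 X bq QQ g := by
  unfold N2
  refine sum_congr rfl fun q hq => sum_congr rfl fun a _ => ?_
  have : f q a = g q a := funext fun x => h q hq a x
  rw [this]

/-- decomposition, the error -/
private theorem pa_core (X : ℕ) (bq : ℕ → ℝ) (QQ : Finset ℕ) (hb : ∀ q ∈ QQ, 0 < bq q)
    (hQ : ∀ q ∈ QQ, 1 ≤ q) (s δ σ : ℝ) (hs : |s| ≤ 1) (w I D : ℕ) (γ : ℕ → ℕ → ℝ)
    (K : ℕ → ℕ) (MM : ℕ → Finset ℕ) (α c : ℕ → ℕ → ℝ) (er : ℕ → ℝ) (Γ : ℕ → ℕ → ℝ) (e : ℕ → ℂ)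
    (hγ : ∀ l, D < l → ∀ n, γ l n = 0)
    (hM0 : ∀ i, ∀ m ∈ MM i, 1 ≤ m) (hα : ∀ i m, α i m ≠ 0 → m ∈ MM i)
    (hK : ∀ i m, α i m ≠ 0 → m * K i ≤ X)
    (hdec : ∀ n ∈ Icc 1 X, an δ X n = ∑ l ∈ n.divisors, γ l n +
      ∑ i ∈ range I, ∑ m ∈ n.divisors, (if n / m ≤ K i then α i m * c i (n / m) else 0) + er n)
    (hmod : ∀ θ : ℝ, tp X (fun n => (fa δ X w n : ℂ)) θ =
        ∑ d ∈ Icc 1 (V0 X), iw X d (Γ d) θ + tp X e θ)
    (B1 B2 B3 B4 B5 : ℝ)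
    (h1 : N2 X bq QQ (paT1 X D γ σ) ≤ B1) (h2 : N2 X bq QQ (paT2 X Γ σ) ≤ B2)
    (h3 : N2 X bq QQ (fun q a x => tp X (cq q (fun n => (er n : ℂ))) ((a : ℝ) / q + σ * x)) ≤ B3)
    (h4 : N2 X bq QQ (fun q a x => tp X (fun k => if Nat.Coprime k q then 0 else (an δ X k : ℂ))
      ((a : ℝ) / q + σ * x)) ≤ B4)
    (h5 : N2 X bq QQ (fun q a x => tp X e ((a : ℝ) / q + σ * x)) ≤ B5) :
    N2 X bq QQ (fun q a x => WHa s δ σ w X q a x -
      (((ArithmeticFunction.moebius q : ℤ) : ℂ) * paLam1 X D γ σ q x +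
        (s : ℂ) * paLam2 X (V0 X) Γ σ q x) -
      ∑ i ∈ range I, f2f (MM i) (fun m => (α i m : ℂ))
        (tp (K i) (cq q (fun k => (c i k : ℂ)))) σ q a x) ≤ 8 * (B1 + B2 + B3 + B4 + B5) := by
  have hs' : ‖(s : ℂ)‖ ≤ 1 := by
    rw [Complex.norm_real]
    exact hs
  have e2 := pa_smul X bq QQ hb (paT2 X Γ σ) (fun q a => pa_T2_cont X Γ σ q a)
    (fun _ => (s : ℂ)) (fun _ => hs')
  have e5 := pa_smul X bq QQ hb (fun q a x => tp X e ((a : ℝ) / q + σ * x))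
    (fun q a => pa_tp_cont X e σ q a) (fun _ => (s : ℂ)) (fun _ => hs')
  have e0 := pa_five X bq QQ hb (paT1 X D γ σ) (fun q a x => (s : ℂ) * paT2 X Γ σ q a x)
    (fun q a x => tp X (cq q (fun n => (er n : ℂ))) ((a : ℝ) / q + σ * x))
    (fun q a x => tp X (fun k => if Nat.Coprime k q then 0 else (an δ X k : ℂ))
      ((a : ℝ) / q + σ * x))
    (fun q a x => (s : ℂ) * tp X e ((a : ℝ) / q + σ * x))
    (fun q a => pa_T1_cont X D γ σ q a) (fun q a => continuous_const.mul (pa_T2_cont X Γ σ q a))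
    (fun q a => pa_tp_cont X _ σ q a) (fun q a => pa_tp_cont X _ σ q a)
    (fun q a => continuous_const.mul (pa_tp_cont X e σ q a))
  have ec := pa_congr X bq QQ (fun q a x => WHa s δ σ w X q a x -
      (((ArithmeticFunction.moebius q : ℤ) : ℂ) * paLam1 X D γ σ q x +
        (s : ℂ) * paLam2 X (V0 X) Γ σ q x) -
      ∑ i ∈ range I, f2f (MM i) (fun m => (α i m : ℂ))
        (tp (K i) (cq q (fun k => (c i k : ℂ)))) σ q a x)
    (fun q a x => (paT1 X D γ σ q a x + (s : ℂ) * paT2 X Γ σ q a x) +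
      ((tp X (cq q (fun n => (er n : ℂ))) ((a : ℝ) / q + σ * x) +
        tp X (fun k => if Nat.Coprime k q then 0 else (an δ X k : ℂ)) ((a : ℝ) / q + σ * x)) +
        (s : ℂ) * tp X e ((a : ℝ) / q + σ * x))) ?_
  · rw [ec]
    linarith
  · intro q hq a x
    have h := pa_id X q a (hQ q hq) s δ σ x w I D γ K MM α c er Γ e hγ hM0 hα hK hdec hmod
    show WHa s δ σ w X q a x - _ - _ = _
    rw [h]
    unfold paT1 paT2
    ring

/-! ### numerical parts -/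

private theorem pa_X1 (δ : ℝ) (hδ : 0 < δ) : ∃ X0 : ℕ, ∀ X : ℕ, X0 ≤ X →
    (X : ℝ) ^ (1 / 3 : ℝ) ≤ (Uu δ X : ℝ) ∧ 4 ≤ X := by
  obtain ⟨X1, h1⟩ := pa_log 0 2 (3 * δ) (by linarith)
  refine ⟨max X1 4, fun X hX => ?_⟩
  have hX4 : 4 ≤ X := (le_max_right _ _).trans hX
  refine ⟨?_, hX4⟩
  have hXp : (0 : ℝ) < X := by exact_mod_cast (by omega : 0 < X)
  have h2 := h1 X ((le_max_left _ _).trans hX)
  rw [pow_zero, mul_one] at h2
  have h3 : (1 : ℝ) ≤ (X : ℝ) ^ (1 / 3 : ℝ) :=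
    Real.one_le_rpow (by exact_mod_cast (by omega : 1 ≤ X)) (by norm_num)
  have h4 : (X : ℝ) ^ (1 / 3 + 3 * δ) = (X : ℝ) ^ (1 / 3 : ℝ) * (X : ℝ) ^ (3 * δ) :=
    Real.rpow_add hXp _ _
  have h5 : (X : ℝ) ^ (1 / 3 + 3 * δ) < (Uu δ X : ℝ) + 1 := by
    unfold Uu
    exact Nat.lt_floor_add_one _
  have h6 : (X : ℝ) ^ (1 / 3 : ℝ) * 2 ≤ (X : ℝ) ^ (1 / 3 : ℝ) * (X : ℝ) ^ (3 * δ) :=
    mul_le_mul_of_nonneg_left h2 (by linarith)
  rw [h4] at h5
  linarith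

private theorem pa_V0 (X : ℕ) (hX : 1 ≤ X) : (V0 X : ℝ) ≤ (X : ℝ) ^ (2 / 5 : ℝ) ∧ V0 X ≤ X := by
  have hXp : (1 : ℝ) ≤ X := by exact_mod_cast hX
  have h1 : V0 X * V0 X ≤ Nat.sqrt X := Nat.sqrt_le _
  have h2 : Nat.sqrt X * Nat.sqrt X ≤ X := Nat.sqrt_le _
  have h3 : (V0 X * V0 X) * (V0 X * V0 X) ≤ X := (Nat.mul_le_mul h1 h1).trans h2
  have h4 : (V0 X : ℝ) ^ (4 : ℝ) ≤ X := by
    have : (V0 X : ℝ) ^ (4 : ℝ) = (V0 X * V0 X) * (V0 X * V0 X) := by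
      rw [show (4 : ℝ) = ((4 : ℕ) : ℝ) by norm_num, Real.rpow_natCast]
      ring
    rw [this]
    exact_mod_cast h3
  have h5 : (V0 X : ℝ) ≤ (X : ℝ) ^ (1 / 4 : ℝ) := by
    calc (V0 X : ℝ) = ((V0 X : ℝ) ^ (4 : ℝ)) ^ (1 / 4 : ℝ) := by
          rw [← Real.rpow_mul (Nat.cast_nonneg _)]
          norm_num
      _ ≤ (X : ℝ) ^ (1 / 4 : ℝ) := Real.rpow_le_rpow (by positivity) h4 (by norm_num)
  have h6 : (X : ℝ) ^ (1 / 4 : ℝ) ≤ (X : ℝ) ^ (2 / 5 : ℝ) :=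
    Real.rpow_le_rpow_of_exponent_le hXp (by norm_num)
  exact ⟨h5.trans h6, (Nat.sqrt_le_self _).trans (Nat.sqrt_le_self _)⟩

private theorem pa_D (X : ℕ) (hX : 1 ≤ X) : ((⌊(X : ℝ) ^ (2 / 5 : ℝ)⌋₊ : ℕ) : ℝ) ≤
    (X : ℝ) ^ (2 / 5 : ℝ) ∧ ⌊(X : ℝ) ^ (2 / 5 : ℝ)⌋₊ ≤ X := by
  have hXp : (1 : ℝ) ≤ X := by exact_mod_cast hX
  have h1 := Nat.floor_le (show 0 ≤ (X : ℝ) ^ (2 / 5 : ℝ) by positivity)
  refine ⟨h1, ?_⟩
  have h2 : (X : ℝ) ^ (2 / 5 : ℝ) ≤ (X : ℝ) ^ (1 : ℝ) :=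
    Real.rpow_le_rpow_of_exponent_le hXp (by norm_num)
  rw [Real.rpow_one] at h2
  exact_mod_cast h1.trans h2

private theorem pa_lam (X D q : ℕ) (γ Γ : ℕ → ℕ → ℝ) (σ s x L : ℝ) (hX : 1 ≤ X) (hq : 1 ≤ q)
    (hs : |s| ≤ 1) (hD : D ≤ X) (hV : V0 X ≤ X) (hL : L = Real.log X) (hL3 : 3 ≤ L)
    (h1 : ∀ l, BVw X (L ^ 2) (γ l)) (h2 : ∀ l, BVw X (L ^ 2) (Γ l)) :
    ‖((ArithmeticFunction.moebius q : ℤ) : ℂ) * paLam1 X D γ σ q x +
        (s : ℂ) * paLam2 X (V0 X) Γ σ q x‖ ≤ L ^ 4 * X / q := by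
  have e1 := lam_iw X q D ((Icc 1 D).filter (fun l => Nat.Coprime l q)) γ (L ^ 2) x σ hX hq hD
    (fun l hl => by
      rw [mem_filter, mem_Icc] at hl
      exact hl.1) (by positivity) (fun l _ => h1 l)
  have e2 := lam_iw X q (V0 X) (Icc 1 (V0 X / q)) (fun l => Γ (l * q)) (L ^ 2) x σ hX hq hV
    (fun l hl => by
      rw [mem_Icc] at hl
      exact ⟨hl.1, hl.2.trans (Nat.div_le_self _ _)⟩) (by positivity) (fun l _ => h2 (l * q))
  rw [← hL] at e1 e2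
  have hμ : ‖((ArithmeticFunction.moebius q : ℤ) : ℂ)‖ ≤ 1 := by
    rw [Complex.norm_intCast]
    exact_mod_cast ArithmeticFunction.abs_moebius_le_one
  have hs' : ‖(s : ℂ)‖ ≤ 1 := by
    rw [Complex.norm_real]
    exact hs
  have hq0 : (0 : ℝ) < q := by exact_mod_cast hq
  have hX0 : (0 : ℝ) < X := by exact_mod_cast hX
  have e3 : ‖((ArithmeticFunction.moebius q : ℤ) : ℂ) * paLam1 X D γ σ q x‖ ≤
      L ^ 2 * (1 + L) * X / q := by
    rw [norm_mul]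
    calc _ ≤ 1 * ‖paLam1 X D γ σ q x‖ := mul_le_mul_of_nonneg_right hμ (norm_nonneg _)
      _ ≤ _ := by
        rw [one_mul]
        exact e1
  have e4 : ‖(s : ℂ) * paLam2 X (V0 X) Γ σ q x‖ ≤ L ^ 2 * (1 + L) * X / q := by
    rw [norm_mul]
    calc _ ≤ 1 * ‖paLam2 X (V0 X) Γ σ q x‖ := mul_le_mul_of_nonneg_right hs' (norm_nonneg _)
      _ ≤ _ := by
        rw [one_mul]
        exact e2
  calc _ ≤ L ^ 2 * (1 + L) * X / q + L ^ 2 * (1 + L) * X / q :=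
        (norm_add_le _ _).trans (add_le_add e3 e4)
    _ = (L ^ 2 * (2 * (1 + L)) * X) / q := by ring
    _ ≤ (L ^ 2 * L ^ 2 * X) / q := by
        apply div_le_div_of_nonneg_right _ hq0.le
        apply mul_le_mul_of_nonneg_right _ hX0.le
        apply mul_le_mul_of_nonneg_left _ (by positivity)
        nlinarith
    _ = L ^ 4 * X / q := by ring

/-- `N ≤ X` -/
private theorem pa_N (δ : ℝ) (A1 : ℕ) (hδ : 0 < δ) (hδ' : δ ≤ 1 / 2000) : ∃ X0 : ℕ, ∀ X : ℕ,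
    X0 ≤ X → ∀ (n : ℕ) (b N σ : ℝ) (QQ : Finset ℕ) (bq : ℕ → ℝ),
    StdH X n δ A1 b N σ QQ bq → N ≤ X ∧ N * b ≤ X ∧ 0 < b := by
  obtain ⟨X1, h1⟩ := pa_log A1 1 (1 / 10) (by norm_num)
  obtain ⟨X2, h2⟩ := pa_big 1
  refine ⟨max (max X1 X2) 1, fun X hX n b N σ QQ bq hstd => ?_⟩
  obtain ⟨-, -, -, hbL, hN1, hNb, -, -, -⟩ := hstd
  have g1 := h1 X ((le_max_left _ _).trans ((le_max_left _ _).trans hX))
  have g2 := h2 X ((le_max_right _ _).trans ((le_max_left _ _).trans hX))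
  have hX1 : 1 ≤ X := (le_max_right _ _).trans hX
  have hX1R : (1 : ℝ) ≤ X := by exact_mod_cast hX1
  have hX0 : (0 : ℝ) < X := by linarith
  have hL0 : 0 < Real.log X := by linarith
  rw [one_mul] at g1
  have hb0 : 0 < b := lt_of_lt_of_le (Real.rpow_pos_of_pos hL0 _) hbL
  have hb1 : 1 ≤ b * (Real.log X) ^ A1 := by
    rw [Real.rpow_neg hL0.le, Real.rpow_natCast] at hbL
    calc (1 : ℝ) = ((Real.log X) ^ A1)⁻¹ * (Real.log X) ^ A1 := by field_simp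
      _ ≤ b * (Real.log X) ^ A1 := mul_le_mul_of_nonneg_right hbL (by positivity)
  refine ⟨?_, ?_, hb0⟩
  · calc N ≤ N * (b * (Real.log X) ^ A1) := le_mul_of_one_le_right (by linarith) hb1
      _ = (N * b) * (Real.log X) ^ A1 := by ring
      _ ≤ (X : ℝ) ^ (1 / 2 + 5 / 2 * δ) * (X : ℝ) ^ (1 / 10 : ℝ) :=
          mul_le_mul hNb g1 (by positivity) (by positivity)
      _ = (X : ℝ) ^ (1 / 2 + 5 / 2 * δ + 1 / 10) := (Real.rpow_add hX0 _ _).symm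
      _ ≤ (X : ℝ) ^ (1 : ℝ) := Real.rpow_le_rpow_of_exponent_le hX1R (by linarith)
      _ = X := Real.rpow_one _
  · calc N * b ≤ (X : ℝ) ^ (1 / 2 + 5 / 2 * δ) := hNb
      _ ≤ (X : ℝ) ^ (1 : ℝ) := Real.rpow_le_rpow_of_exponent_le hX1R (by linarith)
      _ = X := Real.rpow_one _

/-- a power of `X` below `X / (c L^AE)` -/
private theorem pa_pow (X AE : ℕ) (c η Z L : ℝ) (hX : 1 ≤ X) (hL : 0 < L)
    (hZ : Z * L ^ AE = X) (h : c * L ^ AE ≤ (X : ℝ) ^ η) :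
    c * (X : ℝ) ^ (1 - η) ≤ Z := by
  have hX0 : (0 : ℝ) < X := by exact_mod_cast hX
  have h1 : (X : ℝ) ^ (1 - η) * (X : ℝ) ^ η = X := by
    rw [← Real.rpow_add hX0]
    have : 1 - η + η = 1 := by ring
    rw [this, Real.rpow_one]
  have h2 : 0 < (X : ℝ) ^ (1 - η) := Real.rpow_pos_of_pos hX0 _
  have h3 : (c * (X : ℝ) ^ (1 - η)) * L ^ AE ≤ Z * L ^ AE := by
    rw [hZ]
    calc (c * (X : ℝ) ^ (1 - η)) * L ^ AE = (X : ℝ) ^ (1 - η) * (c * L ^ AE) := by ring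
      _ ≤ (X : ℝ) ^ (1 - η) * (X : ℝ) ^ η := mul_le_mul_of_nonneg_left h h2.le
      _ = X := h1
  exact le_of_mul_le_mul_right h3 (by positivity)

theorem arc_h (h1 : AnAbs) (h2 : WDabs) (h3 : Dec2) (AE : ℕ) : ∃ C : ℕ,
    ∀ (δ : ℝ) (A1 K2 D' : ℕ), 0 < δ → δ ≤ 1 / 2000 → 1 ≤ D' → ∃ X0 : ℕ, ∀ X : ℕ, X0 ≤ X →
    ∃ (I : ℕ) (M : ℕ → ℝ) (K : ℕ → ℕ) (MM : ℕ → Finset ℕ) (a c : ℕ → ℕ → ℂ),
      (I : ℝ) ≤ (Real.log X) ^ C ∧
      (∀ i < I, BlkH X δ (M i) (K i) (MM i) (a i) (c i) ((Real.log X) ^ 2) ((Real.log X) ^ 4)) ∧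
      ∀ (n : ℕ) (b N σ : ℝ) (QQ : Finset ℕ) (bq : ℕ → ℝ), StdH X n δ A1 b N σ QQ bq →
      ∀ s : ℝ, |s| ≤ 1 →
      (b ≤ (Real.log X) ^ K2 → ∃ lam : ℕ → ℝ → ℂ, (∀ q, Continuous (lam q)) ∧
        (∀ q ∈ QQ, ∀ x, ‖lam q x‖ ≤ (Real.log X) ^ 4 * X / q) ∧
        N2 X bq QQ (fun q a' x => WHa s δ σ (wX D' X) X q a' x - lam q x -
          ∑ i ∈ range I, f2f (MM i) (a i) (tp (K i) (cq q (c i))) σ q a' x) ≤
            X / (Real.log X) ^ AE) ∧
      ((Real.log X) ^ K2 < b →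
        N2 X bq QQ (fun q a' x => WHa s δ σ (wX D' X) X q a' x -
          ∑ i ∈ range I, f2f (MM i) (a i) (tp (K i) (cq q (c i))) σ q a' x) ≤
          X / (Real.log X) ^ AE + X * (Real.log X) ^ 12 / (Real.log X) ^ K2) := by
  obtain ⟨C, hC⟩ := h3 (AE + 4)
  obtain ⟨Cm, hCm, hmod⟩ := model_h h2
  refine ⟨C, ?_⟩
  intro δ A1 K2 D' hδ hδ' hD'
  obtain ⟨Xd, hXd⟩ := hC δ hδ hδ'
  obtain ⟨η, hη, Xm, hXm⟩ := hmod D' hD'
  obtain ⟨Xa, hXa⟩ := tia_N2 δ A1 hδ hδ'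
  obtain ⟨Xb, hXb⟩ := tim_N2 δ A1 hδ hδ'
  obtain ⟨Xc, hXc⟩ := tila_N2 δ A1 hδ hδ'
  obtain ⟨Xe, hXe⟩ := nc_part h1 δ A1 hδ hδ'
  obtain ⟨Xn, hXn⟩ := pa_N δ A1 hδ hδ'
  obtain ⟨Xu, hXu⟩ := pa_X1 δ hδ
  obtain ⟨X1, hX1⟩ := pa_log AE 160 (1 / 4) (by norm_num)
  obtain ⟨X2, hX2⟩ := pa_log AE 160 (1 / 60) (by norm_num)
  obtain ⟨X3, hX3⟩ := pa_log AE 640 η hη
  obtain ⟨X4, hX4⟩ := pa_big (max 100 Cm)
  refine ⟨max (max (max Xd Xm) (max Xa Xb)) (max (max (max Xc Xe) (max Xn Xu))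
    (max (max X1 X2) (max X3 X4))), ?_⟩
  intro X hX
  rw [max_le_iff, max_le_iff, max_le_iff, max_le_iff, max_le_iff, max_le_iff, max_le_iff,
    max_le_iff, max_le_iff, max_le_iff, max_le_iff] at hX
  obtain ⟨⟨⟨gd, gm⟩, ⟨ga, gb⟩⟩, ⟨⟨⟨gc, ge⟩, ⟨gn, gu⟩⟩, ⟨⟨g1, g2⟩, ⟨g3, g4⟩⟩⟩⟩ := hX
  obtain ⟨α, β, I, M, K, a, c, err, hαβ, hαβ0, hI, hac, hM, haM, haK, hdec, herr⟩ := hXd X gd
  obtain ⟨Γ, e, hΓ, he, hfa⟩ := hXm X gm δ hδ hδ'
  obtain ⟨hUu, hX4'⟩ := hXu X gu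
  have f1 := hX1 X g1
  have f2 := hX2 X g2
  have f3 := hX3 X g3
  have f4 := hX4 X g4
  have hXa' := hXa X ga
  have hXb' := hXb X gb
  have hXc' := hXc X gc
  have hXe' := hXe X ge
  have hXn' := hXn X gn
  have hXone : 1 ≤ X := by omega
  have hX1R : (1 : ℝ) ≤ X := by exact_mod_cast hXone
  have hX0 : (0 : ℝ) < X := by linarith
  obtain ⟨L, hL⟩ : ∃ L : ℝ, L = Real.log X := ⟨_, rfl⟩
  rw [← hL] at f1 f2 f3 f4 hI hac herr hXa' hXb' hXc' hαβ hΓ ⊢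
  have hL100 : 100 ≤ L := (le_max_left _ _).trans f4
  have hLC : Cm ≤ L := (le_max_right _ _).trans f4
  have hL0 : 0 < L := by linarith
  have hL1 : 1 ≤ L := by linarith
  have hLA : 0 < L ^ AE := by positivity
  obtain ⟨Z, hZ⟩ : ∃ Z : ℝ, Z = X / L ^ AE := ⟨_, rfl⟩
  have hZX : Z * L ^ AE = X := by rw [hZ]; field_simp
  have hZ0 : 0 < Z := by rw [hZ]; positivity
  obtain ⟨D, hD⟩ : ∃ D : ℕ, D = ⌊(X : ℝ) ^ (2 / 5 : ℝ)⌋₊ := ⟨_, rfl⟩
  obtain ⟨hD1, hD2⟩ := pa_D X hXone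
  rw [← hD] at hD1 hD2
  obtain ⟨hV1, hV2⟩ := pa_V0 X hXone
  -- the weights
  obtain ⟨γ, hγdef⟩ : ∃ γ : ℕ → ℕ → ℝ, γ =
      fun (l n : ℕ) => α l + β l / Real.log (n : ℝ) := ⟨_, rfl⟩
  have hγB : ∀ l, BVw X (L ^ 2) (γ l) := by
    intro l
    rw [hγdef]
    exact pa_gam X (α l) (β l) L (by linarith) (hαβ l).1 (hαβ l).2
  have hΓB : ∀ l, BVw X (L ^ 2) (Γ l) := by
    intro l
    refine pa_BVw_mono (hΓ l) ?_
    calc Cm * L ≤ L * L := mul_le_mul_of_nonneg_right hLC hL0.le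
      _ = L ^ 2 := by ring
  have hγ0 : ∀ l, D < l → ∀ n, γ l n = 0 := by
    intro l hl n
    have h5 : (X : ℝ) ^ (2 / 5 : ℝ) < l := by
      rw [hD] at hl
      exact Nat.lt_of_floor_lt hl
    obtain ⟨h6, h7⟩ := hαβ0 l h5
    rw [hγdef]
    simp only [h6, h7, zero_div, add_zero]
  -- the blocks
  obtain ⟨MM, hMMdef⟩ : ∃ MM : ℕ → Finset ℕ, MM = fun i => (Icc 1 X).filter (fun m => a i m ≠ 0) :=
    ⟨_, rfl⟩
  have hM1 : ∀ i, (1 : ℝ) ≤ M i := fun i =>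
    (Real.one_le_rpow hX1R (by norm_num)).trans (hUu.trans (hM i).1)
  have hM0 : ∀ i, ∀ m ∈ MM i, 1 ≤ m := by
    intro i m hm
    rw [hMMdef, mem_filter, mem_Icc] at hm
    exact hm.1.1
  have hMX : ∀ i, 2 * M i ≤ X := by
    intro i
    have h5 : M i ≤ (X : ℝ) ^ (1 / 2 : ℝ) := by
      refine (hM i).2.1.trans ?_
      unfold y2
      exact Real.rpow_le_rpow_of_exponent_le hX1R (by linarith)
    have h6 : (X : ℝ) ^ (1 / 2 : ℝ) * (X : ℝ) ^ (1 / 2 : ℝ) = X := by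
      rw [← Real.rpow_add hX0]
      norm_num
    have h7 : (2 : ℝ) ≤ (X : ℝ) ^ (1 / 2 : ℝ) := by
      calc (2 : ℝ) = (4 : ℝ) ^ (1 / 2 : ℝ) := by
            rw [show (4 : ℝ) = 2 ^ (2 : ℝ) by norm_num, ← Real.rpow_mul (by norm_num)]
            norm_num
        _ ≤ (X : ℝ) ^ (1 / 2 : ℝ) :=
            Real.rpow_le_rpow (by norm_num) (by exact_mod_cast hX4') (by norm_num)
    nlinarith
  have hMMa : ∀ i m, a i m ≠ 0 → m ∈ MM i := by
    intro i m hm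
    rw [hMMdef, mem_filter, mem_Icc]
    obtain ⟨h5, h6⟩ := haM i m hm
    refine ⟨⟨?_, ?_⟩, hm⟩
    · have : (1 : ℝ) ≤ m := (hM1 i).trans h5.le
      exact_mod_cast this
    · exact_mod_cast h6.trans (hMX i)
  have haK' : ∀ i m, a i m ≠ 0 → m * K i ≤ X := by
    intro i m hm
    exact_mod_cast haK i m hm
  -- the remainders
  have hdec' : ∀ n ∈ Icc 1 X, an δ X n = ∑ l ∈ n.divisors, γ l n +
      ∑ i ∈ range I, ∑ m ∈ n.divisors, (if n / m ≤ K i then a i m * c i (n / m) else 0) +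
      err n := by
    intro n hn
    rw [hγdef]
    exact hdec n hn
  have b1 : 80 * (X : ℝ) ^ (3 / 4 : ℝ) ≤ Z / 2 := by
    have := pa_pow X AE 160 (1 / 4) Z L hXone hL0 hZX f1
    norm_num at this
    linarith
  have b2 : 80 * (X : ℝ) ^ (1 - 1 / 60 : ℝ) ≤ Z / 2 := by
    have := pa_pow X AE 160 (1 / 60) Z L hXone hL0 hZX f2
    linarith
  have b3 : 320 * (X : ℝ) ^ (1 - η) ≤ Z / 2 := by
    have := pa_pow X AE 640 η Z L hXone hL0 hZX f3
    linarith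
  refine ⟨I, M, K, MM, fun i m => (a i m : ℂ), fun i k => (c i k : ℂ), hI, ?_, ?_⟩
  · intro i _
    refine ⟨hUu.trans (hM i).1, (hM i).2.1, ?_, ?_, ?_, ?_⟩
    · have h5 : (K i : ℝ) ≤ X := by
        calc (K i : ℝ) ≤ K i * M i := le_mul_of_one_le_right (Nat.cast_nonneg _) (hM1 i)
          _ ≤ X := (hM i).2.2
      exact_mod_cast h5
    · intro m hm
      rw [hMMdef, mem_filter] at hm
      exact haM i m hm.2
    · intro m _
      rw [Complex.norm_real]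
      exact (hac i m).1
    · have hMp : 0 < M i := by linarith [hM1 i]
      calc ∑ k ∈ Icc 1 (K i), ‖((c i k : ℝ) : ℂ)‖ ^ 2 ≤ ∑ k ∈ Icc 1 (K i), L ^ 4 := by
            refine sum_le_sum fun k _ => ?_
            rw [Complex.norm_real, Real.norm_eq_abs]
            calc |c i k| ^ 2 ≤ (L ^ 2) ^ 2 := pow_le_pow_left₀ (abs_nonneg _) (hac i k).2 2
              _ = L ^ 4 := by ring
        _ = (K i : ℝ) * L ^ 4 := by
            rw [sum_const, Nat.card_Icc, nsmul_eq_mul]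
            simp
        _ ≤ L ^ 4 * X / M i := by
            rw [le_div_iff₀ hMp]
            calc (K i : ℝ) * L ^ 4 * M i = L ^ 4 * (K i * M i) := by ring
              _ ≤ L ^ 4 * X := mul_le_mul_of_nonneg_left (hM i).2.2 (by positivity)
  · intro n b N σ QQ bq hstd s hs
    obtain ⟨hNX, hNbX, hb0⟩ := hXn' n b N σ QQ bq hstd
    obtain ⟨-, -, hσ, -, hN1, -, hfam, -, hbq⟩ := id hstd
    have hQ : ∀ q ∈ QQ, 1 ≤ q := hfam.1
    have hb : ∀ q ∈ QQ, 0 < bq q := fun q hq => hb0.trans_le (hbq q hq).1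
    have e1 := hXa' n b N σ QQ bq hstd D γ hD1 hγB
    have e2 := hXb' n b N σ QQ bq hstd Γ hΓB
    have e3 := N2_tpc X hXone b N σ hb0 hN1 hNbX hσ QQ hfam bq hbq X (fun n => (err n : ℂ))
    have e4 := hXe' n b N σ QQ bq hstd
    have e5 := N2_tp X hXone b N σ hb0 hN1 hNbX hσ QQ hfam bq hbq X e
    have b4 : 12 * (1 + Real.log N) ^ 2 * ∑ k ∈ Icc 1 X, ‖((err k : ℝ) : ℂ)‖ ^ 2 ≤ Z / 80 := by
      have h5 : ∑ k ∈ Icc 1 X, ‖((err k : ℝ) : ℂ)‖ ^ 2 ≤ X / L ^ (AE + 4) := by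
        refine le_trans (le_of_eq ?_) herr
        refine sum_congr rfl fun k _ => ?_
        rw [Complex.norm_real, Real.norm_eq_abs, sq_abs]
      have h6 : Real.log N ≤ L := by
        rw [hL]
        exact Real.log_le_log (by linarith) hNX
      have h7 : 0 ≤ Real.log N := Real.log_nonneg hN1
      have h8 : (1 + Real.log N) ^ 2 ≤ (2 * L) ^ 2 := pow_le_pow_left₀ (by linarith) (by linarith) 2
      have h9 : 0 ≤ ∑ k ∈ Icc 1 X, ‖((err k : ℝ) : ℂ)‖ ^ 2 := sum_nonneg fun k _ => by positivity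
      calc 12 * (1 + Real.log N) ^ 2 * ∑ k ∈ Icc 1 X, ‖((err k : ℝ) : ℂ)‖ ^ 2 ≤
          12 * (2 * L) ^ 2 * (X / L ^ (AE + 4)) :=
            mul_le_mul (by linarith) h5 h9 (by positivity)
        _ = Z * (48 / L ^ 2) := by
            rw [hZ, pow_add]
            field_simp
            ring
        _ ≤ Z * (1 / 80) := by
            apply mul_le_mul_of_nonneg_left _ hZ0.le
            rw [div_le_iff₀ (by positivity)]
            nlinarith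
        _ = Z / 80 := by ring
    have hcore := pa_core X bq QQ hb hQ s δ σ hs (wX D' X) I D γ K MM a c err Γ e hγ0 hM0 hMMa
      haK' hdec' hfa ((X : ℝ) ^ (3 / 4 : ℝ)) ((X : ℝ) ^ (3 / 4 : ℝ)) (Z / 80)
      ((X : ℝ) ^ (1 - 1 / 60 : ℝ)) (4 * (X : ℝ) ^ (1 - η)) e1 e2 (e3.trans b4) e4
      (e5.trans (by linarith))
    have hcore2 : 8 * ((X : ℝ) ^ (3 / 4 : ℝ) + (X : ℝ) ^ (3 / 4 : ℝ) + Z / 80 +
      (X : ℝ) ^ (1 - 1 / 60 : ℝ) + 4 * (X : ℝ) ^ (1 - η)) ≤ Z / 2 := by linarith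
    constructor
    · intro _
      refine ⟨fun q x => ((ArithmeticFunction.moebius q : ℤ) : ℂ) * paLam1 X D γ σ q x +
        (s : ℂ) * paLam2 X (V0 X) Γ σ q x, ?_, ?_, ?_⟩
      · intro q
        exact (continuous_const.mul (pa_L1_cont X D γ σ q)).add
          (continuous_const.mul (pa_L2_cont X (V0 X) Γ σ q))
      · intro q hq x
        exact pa_lam X D q γ Γ σ s x L hXone (hQ q hq) hs hD2 hV2 hL (by linarith) hγB hΓB
      · refine (hcore.trans hcore2).trans ?_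
        rw [← hZ]
        linarith
    · intro hbig
      have hs' : ‖(s : ℂ)‖ ≤ 1 := by
        rw [Complex.norm_real]
        exact hs
      have hμ : ∀ q : ℕ, ‖((ArithmeticFunction.moebius q : ℤ) : ℂ)‖ ≤ 1 := by
        intro q
        rw [Complex.norm_intCast]
        exact_mod_cast ArithmeticFunction.abs_moebius_le_one
      have l1 := hXc' n b N σ QQ bq hstd (fun q => (Icc 1 D).filter (fun l => Nat.Coprime l q))
        (fun _ l => γ l) (fun q l hl => by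
          rw [mem_filter, mem_Icc] at hl
          exact ⟨hl.1.1, (Nat.cast_le.2 hl.1.2).trans hD1⟩) (fun _ l => hγB l)
      have l2 := hXc' n b N σ QQ bq hstd (fun q => Icc 1 (V0 X / q))
        (fun q l => Γ (l * q)) (fun q l hl => by
          rw [mem_Icc] at hl
          exact ⟨hl.1, (Nat.cast_le.2 (hl.2.trans (Nat.div_le_self _ _))).trans hV1⟩)
        (fun q l => hΓB (l * q))
      have m1 := pa_smul X bq QQ hb (fun q _ x => paLam1 X D γ σ q x)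
        (fun q _ => pa_L1_cont X D γ σ q) (fun q => ((ArithmeticFunction.moebius q : ℤ) : ℂ)) hμ
      have m2 := pa_smul X bq QQ hb (fun q _ x => paLam2 X (V0 X) Γ σ q x)
        (fun q _ => pa_L2_cont X (V0 X) Γ σ q) (fun _ => (s : ℂ)) (fun _ => hs')
      have m3 := N2_add X bq QQ hb
        (fun q _ x => ((ArithmeticFunction.moebius q : ℤ) : ℂ) * paLam1 X D γ σ q x)
        (fun q _ x => (s : ℂ) * paLam2 X (V0 X) Γ σ q x)
        (fun q _ => continuous_const.mul (pa_L1_cont X D γ σ q))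
        (fun q _ => continuous_const.mul (pa_L2_cont X (V0 X) Γ σ q))
      have hWc : Continuous (WH s δ (wX D' X) X) := by
        unfold WH
        refine continuous_finsetSum _ fun k _ => continuous_const.mul ?_
        unfold ee
        fun_prop
      have m4 := N2_add X bq QQ hb
        (fun q a' x => WHa s δ σ (wX D' X) X q a' x -
          (((ArithmeticFunction.moebius q : ℤ) : ℂ) * paLam1 X D γ σ q x +
            (s : ℂ) * paLam2 X (V0 X) Γ σ q x) -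
          ∑ i ∈ range I, f2f (MM i) (fun m => (a i m : ℂ))
            (tp (K i) (cq q (fun k => (c i k : ℂ)))) σ q a' x)
        (fun q _ x => ((ArithmeticFunction.moebius q : ℤ) : ℂ) * paLam1 X D γ σ q x +
            (s : ℂ) * paLam2 X (V0 X) Γ σ q x)
        (fun q a' => by
          refine Continuous.sub (Continuous.sub ?_ ?_) ?_
          · unfold WHa
            exact hWc.comp (by fun_prop)
          · exact (continuous_const.mul (pa_L1_cont X D γ σ q)).add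
              (continuous_const.mul (pa_L2_cont X (V0 X) Γ σ q))
          · exact continuous_finsetSum _ fun i _ => f2f_cont _ _ _ _ _ _ _)
        (fun q _ => (continuous_const.mul (pa_L1_cont X D γ σ q)).add
              (continuous_const.mul (pa_L2_cont X (V0 X) Γ σ q)))
      have m5 := pa_congr X bq QQ (fun q a' x => WHa s δ σ (wX D' X) X q a' x -
          ∑ i ∈ range I, f2f (MM i) (fun m => (a i m : ℂ))
            (tp (K i) (cq q (fun k => (c i k : ℂ)))) σ q a' x)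
        (fun q a' x => (WHa s δ σ (wX D' X) X q a' x -
          (((ArithmeticFunction.moebius q : ℤ) : ℂ) * paLam1 X D γ σ q x +
            (s : ℂ) * paLam2 X (V0 X) Γ σ q x) -
          ∑ i ∈ range I, f2f (MM i) (fun m => (a i m : ℂ))
            (tp (K i) (cq q (fun k => (c i k : ℂ)))) σ q a' x) +
          (((ArithmeticFunction.moebius q : ℤ) : ℂ) * paLam1 X D γ σ q x +
            (s : ℂ) * paLam2 X (V0 X) Γ σ q x)) (fun q _ a' x => by ring)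
      have m6 : 8 * (X * L ^ 10 / b) ≤ X * L ^ 12 / L ^ K2 := by
        have h5 : X * L ^ 10 / b ≤ X * L ^ 10 / L ^ K2 :=
          div_le_div_of_nonneg_left (by positivity) (by positivity) hbig.le
        calc 8 * (X * L ^ 10 / b) ≤ 8 * (X * L ^ 10 / L ^ K2) := by linarith
          _ = (X * (8 * L ^ 10)) / L ^ K2 := by ring
          _ ≤ (X * (L ^ 2 * L ^ 10)) / L ^ K2 := by
              apply div_le_div_of_nonneg_right _ (by positivity)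
              apply mul_le_mul_of_nonneg_left _ hX0.le
              apply mul_le_mul_of_nonneg_right _ (by positivity)
              nlinarith
          _ = X * L ^ 12 / L ^ K2 := by ring
      have l1' : N2 X bq QQ (fun q _ x => paLam1 X D γ σ q x) ≤ X * L ^ 10 / b := l1
      have l2' : N2 X bq QQ (fun q _ x => paLam2 X (V0 X) Γ σ q x) ≤ X * L ^ 10 / b := l2
      rw [← hZ]
      have m7 := (le_of_eq m5).trans m4
      refine m7.trans ?_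
      linarith

end Pool.MP_dd84fd_nt.HXP
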