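import Pool.Agent.Lib.MP_dd84fd_nt.HX.TrStep

/-!
# HX-TrFin (1 h): the tree theorem from the structure theorem

`k0 = ⌈10/δ⌉₊`, `η = δ/k0` (`0 < η ≤ δ`), `X0` from `StH` with `A`, `CV`, `δ`, `η`, `D'`, and large. Suppose `#B > X^(1/2-δ)`. Induction on `k ≤ k0`: there are `E ⊆ B`, `Λ ≥ 1`, `bb ≥ 1` with `Thin X Λ bb E`,
`#E ≥ X^(1/2-δ-kη)`, `Λ bb ≥ X^(k δ/10)`. `k = 0`: `E = B`, `Λ = bb = 1` (`B ⊆ Icc 1 X`). Step: `#E ≥ X^(1/2-δ-kη) ≥ X^(1/2-2δ) ≥ 2`, `tr_card`: `Λ bb ≤ X/(#E - 1) ≤ 2X/#E ≤ 2 X^(1/2+2δ)`, so the hypothesis of `TreeH` gives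
`X/L^A < ‖PhH .. n‖` for `n ∈ E`; `tr_step` with `ρ = X^(-η)`, `Q = X/L^A` (`StH`: `≤ X #E/L^A`, `‖wS‖ ≤ 1`): `E'`, `#E' > X^(-η) #E`, `Λ' bb' > X^(δ/10) Λ bb`. At `k = k0`: `Λ bb ≥ X^(k0 δ/10) ≥ X`, but
`Λ bb ≤ 2 X^(1/2+2δ) < X`: contradiction.
-/

set_option autoImplicit false

namespace Pool.MP_dd84fd_nt.HX

open Finset Pool.MP_67663b_nt.Odd Pool.MP_dd84fd_nt.En Pool.MP_dd84fd_nt.E2 Pool.MP_dd84fd_nt.LS
open Pool.MP_dd84fd_nt.L2G (nrm)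
open Pool.MP_dd84fd_nt.GX

private theorem trFin_wS (G : ℕ) (δ : ℝ) (X Λ : ℕ) (bb : ℝ) (j : ZMod G) :
    ‖wS G δ X Λ bb j‖ ≤ 1 := by
  unfold wS
  split_ifs <;> simp

/-- the bound for `Λ bb` -/
private theorem trFin_bd (δ : ℝ) (X : ℕ) (hX : 1 ≤ X) (hX2 : 2 ≤ (X : ℝ) ^ (1 / 2 - 2 * δ))
    (E : Finset ℕ) (Λ : ℕ) (bb : ℝ) (hΛ : 1 ≤ Λ) (hb : 1 ≤ bb) (hT : Thin X Λ bb E)
    (hE : (X : ℝ) ^ (1 / 2 - 2 * δ) ≤ E.card) :
    (Λ : ℝ) * bb ≤ 2 * (X : ℝ) ^ (1 / 2 + 2 * δ) := by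
  have hX0 : (0 : ℝ) < X := by exact_mod_cast hX
  have h1 := tr_card X Λ bb hΛ hb E hT
  have hΛR : (1 : ℝ) ≤ Λ := by exact_mod_cast hΛ
  have hm0 : 0 < (Λ : ℝ) * bb := by positivity
  have h2 : (X : ℝ) ^ (1 / 2 - 2 * δ) / 2 ≤ (E.card : ℝ) - 1 := by linarith
  have h3 : (X : ℝ) ^ (1 / 2 - 2 * δ) / 2 * ((Λ : ℝ) * bb) ≤ X :=
    (mul_le_mul_of_nonneg_right h2 hm0.le).trans h1
  have h4 : (X : ℝ) = (X : ℝ) ^ (1 / 2 - 2 * δ) * (X : ℝ) ^ (1 / 2 + 2 * δ) := by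
    rw [← Real.rpow_add hX0]
    have : (1 / 2 - 2 * δ) + (1 / 2 + 2 * δ) = 1 := by ring
    rw [this, Real.rpow_one]
  have h5 : 0 < (X : ℝ) ^ (1 / 2 - 2 * δ) := Real.rpow_pos_of_pos hX0 _
  have h6 : (X : ℝ) ^ (1 / 2 - 2 * δ) * ((Λ : ℝ) * bb) ≤
      (X : ℝ) ^ (1 / 2 - 2 * δ) * (2 * (X : ℝ) ^ (1 / 2 + 2 * δ)) := by
    have h7 : (X : ℝ) ^ (1 / 2 - 2 * δ) * (2 * (X : ℝ) ^ (1 / 2 + 2 * δ)) = 2 * X := by
      nth_rewrite 3 [h4]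
      ring
    rw [h7]
    linarith
  exact le_of_mul_le_mul_left h6 h5

theorem tree_h (h : StH) : TreeH := by
  intro A CV δ hδ hδ2 D' hD
  obtain ⟨k0, hk0⟩ : ∃ k0 : ℕ, k0 = ⌈10 / δ⌉₊ := ⟨_, rfl⟩
  have hk0n : 1 ≤ k0 := by
    rw [hk0]
    exact Nat.one_le_iff_ne_zero.2 (Nat.ceil_pos.2 (by positivity)).ne'
  have hk0R : (1 : ℝ) ≤ k0 := by exact_mod_cast hk0n
  have hk0p : (0 : ℝ) < k0 := by linarith
  have hk0c : 10 / δ ≤ k0 := by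
    rw [hk0]
    exact Nat.le_ceil _
  obtain ⟨η, hη⟩ : ∃ η : ℝ, η = δ / k0 := ⟨_, rfl⟩
  have hη0 : 0 < η := by rw [hη]; positivity
  have hηδ : η ≤ δ := by
    rw [hη]
    exact div_le_self hδ.le hk0R
  have hkη : (k0 : ℝ) * η = δ := by
    rw [hη]
    field_simp
  obtain ⟨X1, hX1⟩ := h A CV δ η hδ hδ2 hη0 hηδ D' hD
  refine ⟨X1 + 10000, ?_⟩
  intro X hX G _ hG V hV B hB hbad
  by_contra hlt
  push Not at hlt
  have hX4 : (10000 : ℝ) ≤ X := by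
    have : 10000 ≤ X := by omega
    exact_mod_cast this
  have hXn : 1 ≤ X := by omega
  have hX0 : (0 : ℝ) < X := by linarith
  have hX1r : (1 : ℝ) ≤ X := by linarith
  have hpow : (10 : ℝ) ≤ (X : ℝ) ^ (1 / 2 - 2 * δ) := by
    have e1 : (10 : ℝ) = (10000 : ℝ) ^ (1 / 4 : ℝ) := by
      rw [show (10000 : ℝ) = 10 ^ (4 : ℝ) by norm_num, ← Real.rpow_mul (by norm_num)]
      norm_num
    calc (10 : ℝ) = (10000 : ℝ) ^ (1 / 4 : ℝ) := e1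
      _ ≤ (X : ℝ) ^ (1 / 4 : ℝ) := Real.rpow_le_rpow (by norm_num) hX4 (by norm_num)
      _ ≤ (X : ℝ) ^ (1 / 2 - 2 * δ) := Real.rpow_le_rpow_of_exponent_le hX1r (by linarith)
  have key : ∀ k : ℕ, k ≤ k0 → ∃ (E : Finset ℕ) (Λ : ℕ) (bb : ℝ), E ⊆ B ∧ 1 ≤ Λ ∧ 1 ≤ bb ∧
      Thin X Λ bb E ∧ (X : ℝ) ^ (1 / 2 - δ - k * η) ≤ E.card ∧
      (X : ℝ) ^ (k * (δ / 10)) ≤ (Λ : ℝ) * bb := by
    intro k
    induction k with
    | zero =>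
      intro _
      refine ⟨B, 1, 1, subset_rfl, le_rfl, le_rfl, ?_, ?_, ?_⟩
      · intro n hn n' hn' _
        have h1 := Finset.mem_Icc.1 (hB hn)
        have h2 := Finset.mem_Icc.1 (hB hn')
        refine ⟨one_dvd _, ?_⟩
        have h3 : (n' : ℝ) ≤ X := by exact_mod_cast h2.2
        have h4 : (0 : ℝ) ≤ n := Nat.cast_nonneg n
        linarith
      · rw [Nat.cast_zero, zero_mul, sub_zero]
        exact hlt.le
      · rw [Nat.cast_zero, zero_mul, Real.rpow_zero]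
        norm_num
    | succ k ih =>
      intro hk
      obtain ⟨E, Λ, bb, hEB, hΛ, hb, hT, hcard, hm⟩ := ih (by omega)
      have hkR : (k : ℝ) * η ≤ δ := by
        have : (k : ℝ) ≤ k0 := by
          have : k ≤ k0 := by omega
          exact_mod_cast this
        calc (k : ℝ) * η ≤ k0 * η := mul_le_mul_of_nonneg_right this hη0.le
          _ = δ := hkη
      have hE2 : (X : ℝ) ^ (1 / 2 - 2 * δ) ≤ E.card :=
        (Real.rpow_le_rpow_of_exponent_le hX1r (by linarith)).trans hcard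
      have hne : E.Nonempty := by
        rw [← Finset.card_pos]
        have : (0 : ℝ) < E.card := by linarith
        exact_mod_cast this
      have hbd := trFin_bd δ X hXn (by linarith) E Λ bb hΛ hb hT hE2
      have hQ : ∀ n ∈ E, (X : ℝ) / (Real.log X) ^ A <
          ‖PhH G δ X (wX D' X) V (wS G δ X Λ bb) n‖ := fun n hn =>
        hbad n (hEB hn) Λ bb hΛ hb hbd
      have hst : NoAPH G δ X (wS G δ X Λ bb) E ((X : ℝ) ^ (-η)) → ∀ e : ℕ → ℂ,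
          (∀ n, ‖e n‖ ≤ 1) →
          ‖∑ n ∈ E, e n * PhH G δ X (wX D' X) V (wS G δ X Λ bb) n‖ ≤
            (X : ℝ) / (Real.log X) ^ A * E.card := by
        intro hno e he
        have h1 := hX1 X (by omega) G hG V hV (wS G δ X Λ bb) (trFin_wS G δ X Λ bb) E
          (hEB.trans hB) hE2 e he hno
        rw [mul_div_right_comm] at h1
        exact h1
      obtain ⟨E', Λ', bb', hE', hc', hΛ', hb', hT', hm'⟩ := tr_step G δ X (wX D' X) hXn V E Λ bb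
        hΛ hb hT ((X : ℝ) ^ (-η)) ((X : ℝ) / (Real.log X) ^ A) hne hQ hst
      refine ⟨E', Λ', bb', hE'.trans hEB, hΛ', hb', hT', ?_, ?_⟩
      · refine le_trans ?_ hc'.le
        have e1 : (X : ℝ) ^ (1 / 2 - δ - ((k + 1 : ℕ) : ℝ) * η) =
            (X : ℝ) ^ (-η) * (X : ℝ) ^ (1 / 2 - δ - k * η) := by
          rw [← Real.rpow_add hX0]
          congr 1
          push_cast
          ring
        rw [e1]
        exact mul_le_mul_of_nonneg_left hcard (Real.rpow_nonneg hX0.le _)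
      · refine le_trans ?_ hm'.le
        have e1 : (X : ℝ) ^ (((k + 1 : ℕ) : ℝ) * (δ / 10)) =
            (X : ℝ) ^ (δ / 10) * (X : ℝ) ^ (k * (δ / 10)) := by
          rw [← Real.rpow_add hX0]
          congr 1
          push_cast
          ring
        rw [e1]
        exact mul_le_mul_of_nonneg_left hm (Real.rpow_nonneg hX0.le _)
  obtain ⟨E, Λ, bb, hEB, hΛ, hb, hT, hcard, hm⟩ := key k0 le_rfl
  have hE2 : (X : ℝ) ^ (1 / 2 - 2 * δ) ≤ E.card :=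
    (Real.rpow_le_rpow_of_exponent_le hX1r (by rw [hkη]; linarith)).trans hcard
  have hbd := trFin_bd δ X hXn (by linarith) E Λ bb hΛ hb hT hE2
  have h1 : (X : ℝ) ≤ (X : ℝ) ^ ((k0 : ℝ) * (δ / 10)) := by
    have h2 : (1 : ℝ) ≤ (k0 : ℝ) * (δ / 10) := by
      have h3 := mul_le_mul_of_nonneg_right hk0c (by positivity : (0 : ℝ) ≤ δ / 10)
      have h4 : 10 / δ * (δ / 10) = 1 := by field_simp
      linarith
    calc (X : ℝ) = (X : ℝ) ^ (1 : ℝ) := (Real.rpow_one _).symm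
      _ ≤ _ := Real.rpow_le_rpow_of_exponent_le hX1r h2
  have h2 : (X : ℝ) ≤ 2 * (X : ℝ) ^ (1 / 2 + 2 * δ) := h1.trans (hm.trans hbd)
  have h4 : (X : ℝ) = (X : ℝ) ^ (1 / 2 - 2 * δ) * (X : ℝ) ^ (1 / 2 + 2 * δ) := by
    rw [← Real.rpow_add hX0]
    have : (1 / 2 - 2 * δ) + (1 / 2 + 2 * δ) = 1 := by ring
    rw [this, Real.rpow_one]
  have h5 : 0 < (X : ℝ) ^ (1 / 2 + 2 * δ) := Real.rpow_pos_of_pos hX0 _
  have h6 := mul_le_mul_of_nonneg_right hpow h5.le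
  rw [← h4] at h6
  linarith

end Pool.MP_dd84fd_nt.HX
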