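import Pool.Agent.Lib.MP_dd84fd_nt.HX.KsApd1
import Pool.Agent.Lib.MP_dd84fd_nt.HX.Iface
import Pool.Agent.Lib.MP_dd84fd_nt.GX.Tree

/-!
# HX-TrStep (1 h): one step of the tree

`tr_card`: the elements of `E` are congruent mod `Λ` and lie in an interval of length `X/bb`: `(#E - 1) Λ ≤ max - min ≤ X/bb` (injection `n ↦ (n - min)/Λ`), so `(#E - 1) Λ bb ≤ X`.
`tr_step`: by contradiction / `by_cases` on `NoAPH G δ X (wS G δ X Λ bb) E ρ`. If it holds: take `e n = conj(z)/‖z‖`, `z = PhH .. n` (`e n = 0` if `z = 0`), so `Σ_{n ∈ E} e n PhH n = Σ_{n ∈ E} ‖PhH n‖ > #E Q` (`E` nonempty), contradiction with `hst`.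
So there are `j` with `wS j ≠ 0`, `d ∈ Apd δ X α_j`, `t`, `c` with `ρ #E < #(inAP E c d T)`, `T = X/(16·2^t)`, `2^t ≤ hd < 2^(t+1)`. `E' = inAP E c d T`, `Λ' = lcm(Λ, d)`, `bb' = max bb (hd/d)`.
`wS j ≠ 0` means `¬ SSt` : `X^(δ/10) Λ bb < lcm(Λ,d) max bb (hd/d)`. Elements of `E'` are congruent mod `Λ` and mod `d`, so mod `lcm` (`Nat.modEq_and_modEq_iff_modEq_lcm` or similar; `(n:ℤ) = c + i d`); for `n, n' ∈ E'`: `n - n' ≤ X/bb` and
`n - n' ≤ d T ≤ d X/(16·2^t) ≤ d X/(8 hd) ≤ X/(hd/d)`, so `n - n' ≤ X/bb'`. (Compare with `GX/Tree.lean`.)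
-/

set_option autoImplicit false

namespace Pool.MP_dd84fd_nt.HX

open Finset Pool.MP_67663b_nt.Odd Pool.MP_dd84fd_nt.En Pool.MP_dd84fd_nt.E2 Pool.MP_dd84fd_nt.LS
open Pool.MP_dd84fd_nt.L2G (nrm)
open Pool.MP_dd84fd_nt.GX

/-- `E` lies in one residue class modulo `Λ` and in an interval of length `X / bb` -/
def Thin (X Λ : ℕ) (bb : ℝ) (E : Finset ℕ) : Prop :=
  ∀ n ∈ E, ∀ n' ∈ E, n ≤ n' → Λ ∣ n' - n ∧ ((n' : ℝ) - n) * bb ≤ X

theorem tr_card (X Λ : ℕ) (bb : ℝ) (hΛ : 1 ≤ Λ) (hb : 1 ≤ bb) (E : Finset ℕ)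
    (h : Thin X Λ bb E) : ((E.card : ℝ) - 1) * (Λ * bb) ≤ X := by
  have hΛ0 : (1 : ℝ) ≤ Λ := by exact_mod_cast hΛ
  rcases E.eq_empty_or_nonempty with h0 | hne
  · subst h0
    have h1 : (0 : ℝ) ≤ X := Nat.cast_nonneg _
    have h2 : 0 ≤ (Λ : ℝ) * bb := by positivity
    simp only [card_empty, Nat.cast_zero]
    linarith
  · set m := E.min' hne with hm
    set M := E.max' hne with hM
    have hmM : m ≤ M := E.min'_le _ (E.max'_mem hne)
    have hcard : E.card ≤ (M - m) / Λ + 1 := by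
      have h1 : E.card ≤ (range ((M - m) / Λ + 1)).card := by
        refine Finset.card_le_card_of_injOn (fun n => (n - m) / Λ) ?_ ?_
        · intro n hn
          rw [mem_coe] at hn
          rw [mem_coe, mem_range]
          have h2 : n ≤ M := E.le_max' n hn
          exact Nat.lt_succ_of_le (Nat.div_le_div_right (Nat.sub_le_sub_right h2 m))
        · intro n hn n' hn' hnn
          rw [mem_coe] at hn hn'
          have h2 : m ≤ n := E.min'_le n hn
          have h3 : m ≤ n' := E.min'_le n' hn'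
          obtain ⟨h4, -⟩ := h m (E.min'_mem hne) n hn h2
          obtain ⟨h5, -⟩ := h m (E.min'_mem hne) n' hn' h3
          have h6 := Nat.div_mul_cancel h4
          have h7 := Nat.div_mul_cancel h5
          have h8 : (n - m) / Λ = (n' - m) / Λ := hnn
          rw [h8, h7] at h6
          omega
      rwa [card_range] at h1
    obtain ⟨-, h2⟩ := h m (E.min'_mem hne) M (E.max'_mem hne) hmM
    have h3 : (E.card - 1) * Λ ≤ M - m := by
      have h4 : E.card - 1 ≤ (M - m) / Λ := Nat.sub_le_iff_le_add.2 hcard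
      exact (Nat.mul_le_mul_right Λ h4).trans (Nat.div_mul_le_self _ _)
    have hc1 : 1 ≤ E.card := hne.card_pos
    have h4 : ((E.card : ℝ) - 1) * Λ ≤ (M : ℝ) - m := by
      have h5 : (((E.card - 1) * Λ : ℕ) : ℝ) ≤ ((M - m : ℕ) : ℝ) := by exact_mod_cast h3
      rw [Nat.cast_mul, Nat.cast_sub hc1, Nat.cast_sub hmM, Nat.cast_one] at h5
      exact h5
    calc ((E.card : ℝ) - 1) * (Λ * bb) = (((E.card : ℝ) - 1) * Λ) * bb := by ring
      _ ≤ ((M : ℝ) - m) * bb := mul_le_mul_of_nonneg_right h4 (by linarith)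
      _ ≤ X := h2

theorem tr_step (G : ℕ) [NeZero G] (δ : ℝ) (X w : ℕ) (hX : 1 ≤ X) (V : ZMod G → ℂ)
    (E : Finset ℕ) (Λ : ℕ) (bb : ℝ) (hΛ : 1 ≤ Λ) (hb : 1 ≤ bb) (hT : Thin X Λ bb E) (ρ Q : ℝ)
    (hE : E.Nonempty) (hQ : ∀ n ∈ E, Q < ‖PhH G δ X w V (wS G δ X Λ bb) n‖)
    (hst : NoAPH G δ X (wS G δ X Λ bb) E ρ → ∀ e : ℕ → ℂ, (∀ n, ‖e n‖ ≤ 1) →
      ‖∑ n ∈ E, e n * PhH G δ X w V (wS G δ X Λ bb) n‖ ≤ Q * E.card) :
    ∃ (E' : Finset ℕ) (Λ' : ℕ) (bb' : ℝ), E' ⊆ E ∧ ρ * E.card < E'.card ∧ 1 ≤ Λ' ∧ 1 ≤ bb' ∧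
      Thin X Λ' bb' E' ∧ (X : ℝ) ^ (δ / 10) * (Λ * bb) < Λ' * bb' := by
  classical
  by_cases hN : NoAPH G δ X (wS G δ X Λ bb) E ρ
  · exfalso
    set z : ℕ → ℂ := fun n => PhH G δ X w V (wS G δ X Λ bb) n with hz
    set e : ℕ → ℂ := fun n => if z n = 0 then 0 else (starRingEnd ℂ) (z n) / (‖z n‖ : ℂ) with he
    have hez : ∀ n, e n * z n = (‖z n‖ : ℂ) := by
      intro n
      by_cases h0 : z n = 0
      · simp only [he, h0, if_true, norm_zero, zero_mul, Complex.ofReal_zero]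
      · have h1 : (‖z n‖ : ℂ) ≠ 0 := by
          rw [Ne, Complex.ofReal_eq_zero, norm_eq_zero]
          exact h0
        have h2 : (starRingEnd ℂ) (z n) * z n = (‖z n‖ : ℂ) * ‖z n‖ := by
          rw [mul_comm, Complex.mul_conj, Complex.normSq_eq_norm_sq]
          push_cast
          ring
        simp only [he, h0, if_false]
        rw [div_mul_eq_mul_div, h2, mul_div_assoc, div_self h1, mul_one]
    have hen : ∀ n, ‖e n‖ ≤ 1 := by
      intro n
      by_cases h0 : z n = 0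
      · simp only [he, h0, if_true, norm_zero]
        exact zero_le_one
      · simp only [he, h0, if_false]
        rw [norm_div, RCLike.norm_conj, Complex.norm_real, norm_norm]
        exact div_self_le_one _
    have h1 := hst hN e hen
    have h2 : ∑ n ∈ E, e n * PhH G δ X w V (wS G δ X Λ bb) n = ((∑ n ∈ E, ‖z n‖ : ℝ) : ℂ) := by
      rw [Complex.ofReal_sum]
      exact Finset.sum_congr rfl fun n _ => hez n
    rw [h2, Complex.norm_real, Real.norm_eq_abs,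
      abs_of_nonneg (Finset.sum_nonneg fun n _ => norm_nonneg _)] at h1
    have h3 : ∑ _n ∈ E, Q < ∑ n ∈ E, ‖z n‖ := Finset.sum_lt_sum_of_nonempty hE hQ
    rw [Finset.sum_const, nsmul_eq_mul] at h3
    linarith
  · unfold NoAPH at hN
    push Not at hN
    obtain ⟨j, hj, d, hd, t, ht1, ht2, c, hc⟩ := hN
    have hd1 : 1 ≤ d := ((apd_mem δ X (al G j) d).1 hd).1
    have hd0 : (0 : ℝ) < d := by exact_mod_cast hd1
    have hS : ¬ SSt δ X Λ bb (al G j) := by
      intro hS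
      apply hj
      unfold wS
      rw [if_pos hS]
    have hlt : (X : ℝ) ^ (δ / 10) * Λ * bb <
        (Nat.lcm Λ d : ℝ) * max bb (HX.hd X (al G j) d / d) := by
      by_contra hcon
      exact hS ⟨d, hd, not_lt.1 hcon⟩
    refine ⟨inAP E c d (X / (16 * 2 ^ t)), Nat.lcm Λ d, max bb (HX.hd X (al G j) d / d), ?_, hc,
      Nat.lcm_pos hΛ hd1, le_max_of_le_left hb, ?_, ?_⟩
    · exact filter_subset _ _
    · intro n hn n' hn' hnn
      obtain ⟨hnE, i, hi, hni⟩ := mem_filter.1 hn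
      obtain ⟨hnE', i', hi', hni'⟩ := mem_filter.1 hn'
      obtain ⟨h1, h2⟩ := hT n hnE n' hnE' hnn
      have h3 : ((n' - n : ℕ) : ℤ) = ((i' : ℤ) - i) * d := by
        rw [Nat.cast_sub hnn, hni, hni']
        ring
      have h4 : d ∣ n' - n := by
        have : (d : ℤ) ∣ ((n' - n : ℕ) : ℤ) := ⟨(i' : ℤ) - i, by rw [h3]; ring⟩
        exact_mod_cast this
      refine ⟨Nat.lcm_dvd h1 h4, ?_⟩
      have hnn0 : (0 : ℝ) ≤ (n' : ℝ) - n := by
        have : (n : ℝ) ≤ n' := by exact_mod_cast hnn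
        linarith
      rw [mul_max_of_nonneg _ _ hnn0]
      refine max_le h2 ?_
      have h5 : (n' : ℝ) - n ≤ ((X / (16 * 2 ^ t) : ℕ) : ℝ) * d := by
        have h6 : (n' : ℝ) - n = ((i' : ℝ) - i) * d := by
          have h7 : (((n' - n : ℕ) : ℤ) : ℝ) = ((((i' : ℤ) - i) * d : ℤ) : ℝ) := by rw [h3]
          rw [Int.cast_natCast, Nat.cast_sub hnn] at h7
          rw [h7]
          push_cast
          ring
        rw [h6]
        refine mul_le_mul_of_nonneg_right ?_ hd0.le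
        have h8 : (i' : ℝ) ≤ ((X / (16 * 2 ^ t) : ℕ) : ℝ) := by exact_mod_cast hi'.le
        have h9 : (0 : ℝ) ≤ i := Nat.cast_nonneg _
        linarith
      have hX0 : (0 : ℝ) ≤ X := Nat.cast_nonneg _
      have h6 : ((X / (16 * 2 ^ t) : ℕ) : ℝ) ≤ (X : ℝ) / (16 * 2 ^ t) := by
        have := Nat.cast_div_le (α := ℝ) (m := X) (n := 16 * 2 ^ t)
        push_cast at this
        exact this
      have hh0 : 0 ≤ HX.hd X (al G j) d := (by positivity : (0 : ℝ) ≤ 2 ^ t).trans ht1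
      calc ((n' : ℝ) - n) * (HX.hd X (al G j) d / d)
          ≤ (((X / (16 * 2 ^ t) : ℕ) : ℝ) * d) * (HX.hd X (al G j) d / d) :=
            mul_le_mul_of_nonneg_right h5 (div_nonneg hh0 hd0.le)
        _ = ((X / (16 * 2 ^ t) : ℕ) : ℝ) * HX.hd X (al G j) d := by field_simp
        _ ≤ ((X : ℝ) / (16 * 2 ^ t)) * 2 ^ (t + 1) :=
            mul_le_mul h6 ht2.le hh0 (by positivity)
        _ = X / 8 := by rw [pow_succ]; field_simp; norm_num
        _ ≤ X := by linarith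
    · rw [← mul_assoc]
      exact hlt

end Pool.MP_dd84fd_nt.HX
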