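import Pool.Agent.Lib.MP_dd84fd_nt.HX.KsDefs
import Pool.Agent.Lib.MP_dd84fd_nt.GX.Den

/-!
# HX-KsApd1 (0.8 h): elementary properties of the set `Apd`

* `apd_mem`: unfold (`Nat.le_floor` / `Nat.floor_le`).
* `hd_bd`: `1 ≤ d ≤ hd`, `X nrm (d α) ≤ hd` (`le_max_left/right`) and `hd ≤ y3` (`max_le`).
* `apd_det`: put `a = round (d α)`, `a' = round (d' α)`, `v = d a' - d' a`. `nrm x = |x - round x|` so
  `v = d (a' - d' α) - d' (a - d α)`, `|v| ≤ d nrm (d' α) + d' nrm (d α) ≤ (d + d') y3 / X ≤ 2 y3² / X`. `v ≠ 0`: if `d a' = d' a`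
  then `d ∣ d' a`, `gcd(a, d) = 1`: `d ∣ d'`; in the same way `d' ∣ d`, so `d = d'`. Since `|v| ≥ 1`: `d + d' ≥ X / y3`, so
  `max d d' ≥ X / (2 y3)`.
* `qd_apd`: `GX.qd_spec`, `qd X α ≤ Nat.sqrt X ≤ √X ≤ y3` (`δ ≥ 0`, `X ≥ 1`), `X nrm (qd α) ≤ X/(Nat.sqrt X + 1) ≤ √X` (or `GX.ht_spec`);
  the second part is `rfl` up to casts (`ht`, `hd` unfold to the same `max`).
-/

set_option autoImplicit false

namespace Pool.MP_dd84fd_nt.HX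

open Finset Pool.MP_67663b_nt.Odd Pool.MP_dd84fd_nt.En Pool.MP_dd84fd_nt.E2 Pool.MP_dd84fd_nt.LS
open Pool.MP_dd84fd_nt.L2G (nrm)
open Pool.MP_dd84fd_nt.GX

theorem apd_mem (δ : ℝ) (X : ℕ) (α : ℝ) (d : ℕ) : d ∈ Apd δ X α ↔
    1 ≤ d ∧ (d : ℝ) ≤ y3 δ X ∧ (X : ℝ) * nrm ((d : ℝ) * α) ≤ y3 δ X ∧
      Int.gcd (round ((d : ℝ) * α)) (d : ℤ) = 1 := by
  classical
  unfold Apd
  have hy : 0 ≤ y3 δ X := Real.rpow_nonneg (Nat.cast_nonneg _) _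
  rw [Finset.mem_filter, Finset.mem_Icc, Nat.le_floor_iff hy]
  tauto

theorem hd_bd (δ : ℝ) (X : ℕ) (α : ℝ) (d : ℕ) (h : d ∈ Apd δ X α) :
    1 ≤ hd X α d ∧ hd X α d ≤ y3 δ X ∧ (d : ℝ) ≤ hd X α d ∧
      (X : ℝ) * nrm ((d : ℝ) * α) ≤ hd X α d := by
  rw [apd_mem] at h
  unfold hd
  have h1 : (1 : ℝ) ≤ d := by exact_mod_cast h.1
  exact ⟨h1.trans (le_max_left _ _), max_le h.2.1 h.2.2.1, le_max_left _ _, le_max_right _ _⟩

theorem ap_det (α : ℝ) (d d' : ℕ) (a a' : ℤ) :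
    |(d : ℝ) * a' - d' * a| ≤ d * |d' * α - a'| + d' * |d * α - a| := by
  have h1 : (d : ℝ) * a' - d' * a = d' * (d * α - a) - d * (d' * α - a') := by ring
  rw [h1]
  refine (abs_sub _ _).trans ?_
  have e1 : |(d' : ℝ) * (d * α - a)| = d' * |d * α - a| := by
    rw [abs_mul, abs_of_nonneg (Nat.cast_nonneg d')]
  have e2 : |(d : ℝ) * (d' * α - a')| = d * |d' * α - a'| := by
    rw [abs_mul, abs_of_nonneg (Nat.cast_nonneg d)]
  rw [e1, e2]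
  linarith

/-- two primitive vectors on one line -/
theorem ap_prim (d d' : ℕ) (a a' : ℤ) (hd : 1 ≤ d) (hd' : 1 ≤ d') (h : (d : ℤ) * a' = d' * a)
    (hg : Int.gcd a d = 1) (hg' : Int.gcd a' d' = 1) : d = d' ∧ a = a' := by
  have h1 : (d : ℤ) ∣ d' := by
    have h2 : (d : ℤ) ∣ d' * a := ⟨a', h.symm⟩
    have hc : IsCoprime (d : ℤ) a := by
      rw [Int.isCoprime_iff_gcd_eq_one, Int.gcd_comm]
      exact hg
    exact hc.dvd_of_dvd_mul_right h2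
  have h3 : (d' : ℤ) ∣ d := by
    have h2 : (d' : ℤ) ∣ d * a' := ⟨a, h⟩
    have hc : IsCoprime (d' : ℤ) a' := by
      rw [Int.isCoprime_iff_gcd_eq_one, Int.gcd_comm]
      exact hg'
    exact hc.dvd_of_dvd_mul_right h2
  have h4 : d = d' := Nat.dvd_antisymm (Int.natCast_dvd_natCast.1 h1) (Int.natCast_dvd_natCast.1 h3)
  subst h4
  refine ⟨rfl, ?_⟩
  have hd0 : (d : ℤ) ≠ 0 := by
    have : (1 : ℤ) ≤ d := by exact_mod_cast hd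
    omega
  exact (mul_left_cancel₀ hd0 h).symm

theorem ap_det_ne (δ : ℝ) (X : ℕ) (α : ℝ) (d d' : ℕ) (hd : d ∈ Apd δ X α) (hd' : d' ∈ Apd δ X α)
    (hne : d ≠ d') : (d : ℤ) * round (d' * α) - d' * round (d * α) ≠ 0 := by
  intro h
  rw [apd_mem] at hd hd'
  exact hne (ap_prim d d' _ _ hd.1 hd'.1 (by linarith) hd.2.2.2 hd'.2.2.2).1

theorem ap_det_le (δ : ℝ) (X : ℕ) (hX : 1 ≤ X) (α : ℝ) (d d' : ℕ) (hd : d ∈ Apd δ X α)
    (hd' : d' ∈ Apd δ X α) :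
    |(d : ℝ) * (round (d' * α) : ℤ) - d' * (round (d * α) : ℤ)| ≤
      ((d : ℝ) + d') * y3 δ X / X := by
  have hX0 : (0 : ℝ) < X := by exact_mod_cast hX
  rw [apd_mem] at hd hd'
  have h1 := ap_det α d d' (round ((d : ℝ) * α)) (round ((d' : ℝ) * α))
  have h2 : |(d : ℝ) * α - (round ((d : ℝ) * α) : ℤ)| ≤ y3 δ X / X := by
    rw [le_div_iff₀ hX0, mul_comm]
    exact hd.2.2.1
  have h3 : |(d' : ℝ) * α - (round ((d' : ℝ) * α) : ℤ)| ≤ y3 δ X / X := by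
    rw [le_div_iff₀ hX0, mul_comm]
    exact hd'.2.2.1
  refine h1.trans ?_
  have h4 := mul_le_mul_of_nonneg_left h3 (Nat.cast_nonneg (α := ℝ) d)
  have h5 := mul_le_mul_of_nonneg_left h2 (Nat.cast_nonneg (α := ℝ) d')
  calc _ ≤ (d : ℝ) * (y3 δ X / X) + d' * (y3 δ X / X) := add_le_add h4 h5
    _ = _ := by ring

theorem ap_max (δ : ℝ) (X : ℕ) (hX : 1 ≤ X) (α : ℝ) (d d' : ℕ) (hd : d ∈ Apd δ X α)
    (hd' : d' ∈ Apd δ X α) (hne : d ≠ d') :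
    X ≤ ((d : ℝ) + d') * y3 δ X := by
  have hX0 : (0 : ℝ) < X := by exact_mod_cast hX
  have h1 := ap_det_le δ X hX α d d' hd hd'
  have h2 := ap_det_ne δ X α d d' hd hd' hne
  have h3 : (1 : ℝ) ≤ |(d : ℝ) * (round (d' * α) : ℤ) - d' * (round (d * α) : ℤ)| := by
    have h4 := Int.one_le_abs h2
    have h5 : ((1 : ℤ) : ℝ) ≤ ((|(d : ℤ) * round (d' * α) - d' * round (d * α)| : ℤ) : ℝ) := by
      exact_mod_cast h4
    rw [Int.cast_abs] at h5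
    push_cast at h5
    exact h5
  have h4 := h3.trans h1
  rwa [le_div_iff₀ hX0, one_mul] at h4

theorem apd_det (δ : ℝ) (X : ℕ) (hX : 1 ≤ X) (α : ℝ) (d d' : ℕ) (h : d ∈ Apd δ X α)
    (h' : d' ∈ Apd δ X α) (hne : d ≠ d') :
    (d : ℤ) * round ((d' : ℝ) * α) - d' * round ((d : ℝ) * α) ≠ 0 ∧
    |(d : ℝ) * round ((d' : ℝ) * α) - d' * round ((d : ℝ) * α)| ≤ 2 * y3 δ X ^ 2 / X ∧
    (X : ℝ) / (2 * y3 δ X) ≤ max (d : ℝ) d' := by
  have hX0 : (0 : ℝ) < X := by exact_mod_cast hX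
  have hy : 0 < y3 δ X := Real.rpow_pos_of_pos hX0 _
  have h1 := ap_det_le δ X hX α d d' h h'
  have h2 := ap_max δ X hX α d d' h h' hne
  refine ⟨ap_det_ne δ X α d d' h h' hne, ?_, ?_⟩
  · refine h1.trans (div_le_div_of_nonneg_right ?_ hX0.le)
    rw [apd_mem] at h h'
    calc ((d : ℝ) + d') * y3 δ X ≤ (2 * y3 δ X) * y3 δ X :=
          mul_le_mul_of_nonneg_right (by linarith [h.2.1, h'.2.1]) hy.le
      _ = 2 * y3 δ X ^ 2 := by ring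
  · rw [div_le_iff₀ (by positivity)]
    refine h2.trans ?_
    have h3 := le_max_left (d : ℝ) d'
    have h4 := le_max_right (d : ℝ) d'
    calc ((d : ℝ) + d') * y3 δ X ≤ (2 * max (d : ℝ) d') * y3 δ X :=
          mul_le_mul_of_nonneg_right (by linarith) hy.le
      _ = max (d : ℝ) d' * (2 * y3 δ X) := by ring

theorem qd_apd (δ : ℝ) (hδ : 0 ≤ δ) (X : ℕ) (hX : 1 ≤ X) (α : ℝ) :
    qd X α ∈ Apd δ X α ∧ hd X α (qd X α) = ht X α := by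
  have hX1 : (1 : ℝ) ≤ X := by exact_mod_cast hX
  obtain ⟨h1, h2, h3, h4⟩ := qd_spec X hX α
  obtain ⟨g1, g2, g3, g4⟩ := ht_spec X hX α
  have hs : Real.sqrt X ≤ y3 δ X := by
    rw [Real.sqrt_eq_rpow]
    unfold y3
    exact Real.rpow_le_rpow_of_exponent_le hX1 (by linarith)
  refine ⟨?_, rfl⟩
  rw [apd_mem]
  exact ⟨h1, g3.trans (g2.trans hs), g4.trans (g2.trans hs), h4⟩

end Pool.MP_dd84fd_nt.HX
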