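import Pool.Agent.Lib.MP_dd84fd_nt.HX.KsDefs
import Pool.Agent.Lib.MP_dd84fd_nt.E2.MinorP

/-!
# HX-StTII (1 h): the type II part of `a_L`

`Σ_{n ≤ t} (Σ_{m ∣ n} a_m c_(n/m)) F n = Σ_{m k ≤ t} a_m c_k F(m k)`. `k = 1`: `≤ Σ_{m ≤ y2} L² L² B4 ≤ √X L⁴ B4`. `k ≥ 2`: dyadic blocks `m ∈ (2^i', 2^(i'+1)]`, `k ∈ (2^i, 2^(i+1)]` (`m ≥ 2` since `m > Uu ≥ 1`),
`i, i' ≤ Nat.log 2 X`. A block with a nonzero term has `m ≤ y2`, `m > Uu`, so `N := 2^i' < m ≤ y2` and `N ≥ m/2 > Uu/2`; `M := 2^i ≥ 1`, and `M N < m k ≤ t ≤ X`; a block without such a term gives `0`. `TIIH` with the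
coefficients `c_l / L²` and `a_s / L²` (`l` = `k`-variable in `(M, 2M]`, `s` = `m`-variable in `(N, 2N]`): `≤ L⁴ B2`. Number of blocks `≤ (Nat.log 2 X + 1)² ≤ 9 L²` . Total `≤ L^7 (B2 + √X B4)` for `X ≥ X0`.
(`2^(i+1) = 2 * 2^i`. `B2, B4 ≥ 0` follow from the hypotheses.) `X0` does not depend on `δ`: only `Uu ≥ 1` is needed.
-/

set_option autoImplicit false

namespace Pool.MP_dd84fd_nt.HX

open Finset Pool.MP_67663b_nt.Odd Pool.MP_dd84fd_nt.En Pool.MP_dd84fd_nt.E2 Pool.MP_dd84fd_nt.LS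
open Pool.MP_dd84fd_nt.L2G (nrm)
open Pool.MP_dd84fd_nt.GX

/-- the divisor sum as a sum over pairs -/
private theorem st_pairs (t : ℕ) (a c : ℕ → ℝ) (F : ℕ → ℂ) :
    ∑ n ∈ Icc 1 t, ((∑ m ∈ n.divisors, a m * c (n / m) : ℝ) : ℂ) * F n =
      ∑ p ∈ (Icc 1 t ×ˢ Icc 1 t).filter (fun p : ℕ × ℕ => p.1 * p.2 ≤ t),
        ((a p.1 : ℝ) : ℂ) * ((c p.2 : ℝ) : ℂ) * F (p.1 * p.2) := by
  have h0 : ∀ n ∈ Icc 1 t, ((∑ m ∈ n.divisors, a m * c (n / m) : ℝ) : ℂ) * F n =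
      ∑ z ∈ n.divisorsAntidiagonal, ((a z.1 : ℝ) : ℂ) * ((c z.2 : ℝ) : ℂ) * F n := by
    intro n _
    rw [← Nat.sum_divisorsAntidiagonal (fun x y => a x * c y), ← Finset.sum_mul]
    congr 1
    push_cast
    rfl
  rw [Finset.sum_congr rfl h0, Finset.sum_sigma']
  refine Finset.sum_bij' (fun p _ => (p.2 : ℕ × ℕ))
    (fun p _ => (⟨p.1 * p.2, (p.1, p.2)⟩ : Σ _ : ℕ, ℕ × ℕ)) ?_ ?_ ?_ ?_ ?_
  · rintro ⟨n, m, k⟩ h
    rw [Finset.mem_sigma, Finset.mem_Icc, Nat.mem_divisorsAntidiagonal] at h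
    obtain ⟨⟨h1, h2⟩, h3, h4⟩ := h
    simp only at h1 h2 h3 h4
    have hm : 0 < m := by
      rcases Nat.eq_zero_or_pos m with h | h
      · rw [h, zero_mul] at h3
        omega
      · exact h
    have hk : 0 < k := by
      rcases Nat.eq_zero_or_pos k with h | h
      · rw [h, mul_zero] at h3
        omega
      · exact h
    rw [Finset.mem_filter, Finset.mem_product, Finset.mem_Icc, Finset.mem_Icc]
    have h5 : m ≤ m * k := Nat.le_mul_of_pos_right _ hk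
    have h6 : k ≤ m * k := Nat.le_mul_of_pos_left _ hm
    refine ⟨⟨⟨hm, ?_⟩, hk, ?_⟩, ?_⟩
    · show m ≤ t
      omega
    · show k ≤ t
      omega
    · show m * k ≤ t
      omega
  · rintro ⟨m, k⟩ h
    rw [Finset.mem_filter, Finset.mem_product, Finset.mem_Icc, Finset.mem_Icc] at h
    obtain ⟨⟨⟨h1, h2⟩, h3, h4⟩, h5⟩ := h
    simp only at h1 h2 h3 h4 h5
    rw [Finset.mem_sigma, Finset.mem_Icc, Nat.mem_divisorsAntidiagonal]
    exact ⟨⟨Nat.mul_pos h1 h3, h5⟩, rfl, (Nat.mul_pos h1 h3).ne'⟩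
  · rintro ⟨n, m, k⟩ h
    rw [Finset.mem_sigma, Finset.mem_Icc, Nat.mem_divisorsAntidiagonal] at h
    obtain ⟨⟨h1, h2⟩, h3, h4⟩ := h
    simp only at h3
    simp only [h3]
  · rintro ⟨m, k⟩ h
    rfl
  · rintro ⟨n, m, k⟩ h
    rw [Finset.mem_sigma, Finset.mem_Icc, Nat.mem_divisorsAntidiagonal] at h
    obtain ⟨⟨h1, h2⟩, h3, h4⟩ := h
    simp only at h3
    simp only [h3]

/-- dyadic interval of a number `≥ 2` -/
private theorem st_dy {m : ℕ} (hm : 2 ≤ m) :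
    2 ^ (Nat.log 2 (m - 1)) < m ∧ m ≤ 2 * 2 ^ (Nat.log 2 (m - 1)) := by
  have h1 : 2 ^ (Nat.log 2 (m - 1)) ≤ m - 1 := Nat.pow_log_le_self 2 (by omega)
  have h2 : m - 1 < 2 ^ (Nat.log 2 (m - 1) + 1) := Nat.lt_pow_succ_log_self (by norm_num) _
  rw [pow_succ] at h2
  omega

private theorem st_dy_eq {m i : ℕ} (h1 : 2 ^ i < m) (h2 : m ≤ 2 * 2 ^ i) :
    Nat.log 2 (m - 1) = i := by
  apply Nat.log_eq_of_pow_le_of_lt_pow
  · omega
  · rw [pow_succ]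
    omega

/-- a block -/
private theorem st_block (δ : ℝ) (X : ℕ) (F : ℕ → ℂ) (B2 L : ℝ) (hL : 0 < L)
    (hB : 0 ≤ B2) (hII : TIIH δ X F B2) (a c : ℕ → ℝ)
    (hac : ∀ n, |a n| ≤ L ^ 2 ∧ |c n| ≤ L ^ 2)
    (ha : ∀ m, a m ≠ 0 → Uu δ X < m ∧ (m : ℝ) ≤ y2 δ X) (t : ℕ) (ht : t ≤ X) (i' i : ℕ) :
    ‖∑ p ∈ ((Icc 1 t ×ˢ Icc 1 t).filter (fun p : ℕ × ℕ => p.1 * p.2 ≤ t ∧ 2 ≤ p.1 ∧
        2 ≤ p.2)).filter (fun p => (Nat.log 2 (p.1 - 1), Nat.log 2 (p.2 - 1)) = (i', i)),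
      ((a p.1 : ℝ) : ℂ) * ((c p.2 : ℝ) : ℂ) * F (p.1 * p.2)‖ ≤ L ^ 4 * B2 := by
  by_cases hex : ∃ p ∈ ((Icc 1 t ×ˢ Icc 1 t).filter (fun p : ℕ × ℕ => p.1 * p.2 ≤ t ∧ 2 ≤ p.1 ∧
        2 ≤ p.2)).filter (fun p => (Nat.log 2 (p.1 - 1), Nat.log 2 (p.2 - 1)) = (i', i)),
        a p.1 ≠ 0
  · obtain ⟨⟨m, k⟩, hp, hne⟩ := hex
    rw [Finset.mem_filter, Finset.mem_filter, Finset.mem_product, Finset.mem_Icc,
      Finset.mem_Icc] at hp
    obtain ⟨⟨⟨⟨h1, h2⟩, h3, h4⟩, h5, h6, h7⟩, h8⟩ := hp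
    simp only at h1 h2 h3 h4 h5 h6 h7 hne
    have hi' : Nat.log 2 (m - 1) = i' := (Prod.mk.inj h8).1
    have hi : Nat.log 2 (k - 1) = i := (Prod.mk.inj h8).2
    obtain ⟨g1, g2⟩ := st_dy h6
    obtain ⟨g3, g4⟩ := st_dy h7
    rw [hi'] at g1 g2
    rw [hi] at g3 g4
    obtain ⟨u1, u2⟩ := ha m hne
    have hN1 : (Uu δ X : ℝ) / 2 ≤ ((2 ^ i' : ℕ) : ℝ) := by
      have e1 : (Uu δ X : ℝ) ≤ ((2 * 2 ^ i' : ℕ) : ℝ) := by
        exact_mod_cast (u1.le.trans g2)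
      push_cast at e1 ⊢
      linarith
    have hN2 : ((2 ^ i' : ℕ) : ℝ) ≤ y2 δ X := by
      have e1 : ((2 ^ i' : ℕ) : ℝ) ≤ (m : ℝ) := by exact_mod_cast g1.le
      exact e1.trans u2
    have hMN : 2 ^ i * 2 ^ i' ≤ X := by
      calc 2 ^ i * 2 ^ i' ≤ k * m := Nat.mul_le_mul g3.le g1.le
        _ = m * k := mul_comm _ _
        _ ≤ X := h5.trans ht
    have hL2 : 0 < L ^ 2 := by positivity
    have key := hII (2 ^ i) (2 ^ i') t (fun n => ((c n / L ^ 2 : ℝ) : ℂ))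
      (fun n => ((a n / L ^ 2 : ℝ) : ℂ)) ht
      (fun n => by
        rw [Complex.norm_real, Real.norm_eq_abs, abs_div, abs_of_pos hL2, div_le_one hL2]
        exact (hac n).2)
      (fun n => by
        rw [Complex.norm_real, Real.norm_eq_abs, abs_div, abs_of_pos hL2, div_le_one hL2]
        exact (hac n).1)
      (Nat.one_le_two_pow) hN1 hN2 hMN
    have heq : ∑ p ∈ ((Icc 1 t ×ˢ Icc 1 t).filter (fun p : ℕ × ℕ => p.1 * p.2 ≤ t ∧ 2 ≤ p.1 ∧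
        2 ≤ p.2)).filter (fun p => (Nat.log 2 (p.1 - 1), Nat.log 2 (p.2 - 1)) = (i', i)),
      ((a p.1 : ℝ) : ℂ) * ((c p.2 : ℝ) : ℂ) * F (p.1 * p.2) =
      ((L ^ 4 : ℝ) : ℂ) * ∑ l ∈ Ioc (2 ^ i) (2 * 2 ^ i),
        ∑ s ∈ (Ioc (2 ^ i') (2 * 2 ^ i')).filter (fun s => l * s ≤ t),
          ((c l / L ^ 2 : ℝ) : ℂ) * ((a s / L ^ 2 : ℝ) : ℂ) * F (l * s) := by
      have e1 : ∑ l ∈ Ioc (2 ^ i) (2 * 2 ^ i),
        ∑ s ∈ (Ioc (2 ^ i') (2 * 2 ^ i')).filter (fun s => l * s ≤ t),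
          ((c l / L ^ 2 : ℝ) : ℂ) * ((a s / L ^ 2 : ℝ) : ℂ) * F (l * s) =
          ∑ q ∈ (Ioc (2 ^ i) (2 * 2 ^ i) ×ˢ Ioc (2 ^ i') (2 * 2 ^ i')).filter
            (fun q : ℕ × ℕ => q.1 * q.2 ≤ t),
          ((c q.1 / L ^ 2 : ℝ) : ℂ) * ((a q.2 / L ^ 2 : ℝ) : ℂ) * F (q.1 * q.2) := by
        rw [Finset.sum_filter, Finset.sum_product]
        refine Finset.sum_congr rfl (fun l _ => ?_)
        rw [Finset.sum_filter]
      rw [e1, Finset.mul_sum]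
      refine Finset.sum_bij' (fun p _ => (p.2, p.1)) (fun q _ => (q.2, q.1)) ?_ ?_ ?_ ?_ ?_
      · rintro ⟨x, y⟩ h
        rw [Finset.mem_filter, Finset.mem_filter, Finset.mem_product, Finset.mem_Icc,
          Finset.mem_Icc] at h
        obtain ⟨⟨⟨⟨k1, k2⟩, k3, k4⟩, k5, k6, k7⟩, k8⟩ := h
        simp only at k1 k2 k3 k4 k5 k6 k7
        have j' : Nat.log 2 (x - 1) = i' := (Prod.mk.inj k8).1
        have j : Nat.log 2 (y - 1) = i := (Prod.mk.inj k8).2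
        obtain ⟨w1, w2⟩ := st_dy k6
        obtain ⟨w3, w4⟩ := st_dy k7
        rw [j'] at w1 w2
        rw [j] at w3 w4
        rw [Finset.mem_filter, Finset.mem_product, Finset.mem_Ioc, Finset.mem_Ioc]
        refine ⟨⟨⟨w3, w4⟩, w1, w2⟩, ?_⟩
        show y * x ≤ t
        rw [mul_comm]
        exact k5
      · rintro ⟨y, x⟩ h
        rw [Finset.mem_filter, Finset.mem_product, Finset.mem_Ioc, Finset.mem_Ioc] at h
        obtain ⟨⟨⟨w3, w4⟩, w1, w2⟩, w5⟩ := h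
        simp only at w1 w2 w3 w4 w5
        have p1 : 1 ≤ 2 ^ i := Nat.one_le_two_pow
        have p2 : 1 ≤ 2 ^ i' := Nat.one_le_two_pow
        have k6 : 2 ≤ x := by omega
        have k7 : 2 ≤ y := by omega
        have k8 : x ≤ y * x := Nat.le_mul_of_pos_left _ (by omega)
        have k9 : y ≤ y * x := Nat.le_mul_of_pos_right _ (by omega)
        rw [Finset.mem_filter, Finset.mem_filter, Finset.mem_product, Finset.mem_Icc,
          Finset.mem_Icc]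
        refine ⟨⟨⟨⟨?_, ?_⟩, ?_, ?_⟩, ?_, k6, k7⟩, ?_⟩
        · show 1 ≤ x
          omega
        · show x ≤ t
          omega
        · show 1 ≤ y
          omega
        · show y ≤ t
          omega
        · show x * y ≤ t
          rw [mul_comm]
          exact w5
        · show (Nat.log 2 (x - 1), Nat.log 2 (y - 1)) = (i', i)
          rw [st_dy_eq w1 w2, st_dy_eq w3 w4]
      · rintro ⟨x, y⟩ _
        rfl
      · rintro ⟨x, y⟩ _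
        rfl
      · rintro ⟨x, y⟩ _
        show ((a x : ℝ) : ℂ) * ((c y : ℝ) : ℂ) * F (x * y) = ((L ^ 4 : ℝ) : ℂ) *
          (((c y / L ^ 2 : ℝ) : ℂ) * ((a x / L ^ 2 : ℝ) : ℂ) * F (y * x))
        rw [mul_comm y x]
        have e2 : ((L ^ 4 : ℝ) : ℂ) * (((c y / L ^ 2 : ℝ) : ℂ) * ((a x / L ^ 2 : ℝ) : ℂ)) =
            ((a x : ℝ) : ℂ) * ((c y : ℝ) : ℂ) := by
          rw [← Complex.ofReal_mul, ← Complex.ofReal_mul, ← Complex.ofReal_mul]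
          congr 1
          field_simp
        rw [← e2]
        ring
    rw [heq, norm_mul, Complex.norm_real, Real.norm_eq_abs, abs_of_pos (by positivity)]
    exact mul_le_mul_of_nonneg_left key (by positivity)
  · push Not at hex
    rw [Finset.sum_eq_zero (fun p hp => by rw [hex p hp]; simp)]
    rw [norm_zero]
    positivity

theorem st_tii : ∃ X0 : ℕ, ∀ X : ℕ, X0 ≤ X → ∀ δ : ℝ, 0 < δ → δ ≤ 1 / 2000 →
    ∀ (F : ℕ → ℂ) (B2 B4 : ℝ), TIIH δ X F B2 → (∀ n, ‖F n‖ ≤ B4) → ∀ a c : ℕ → ℝ,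
    (∀ n, |a n| ≤ (Real.log X) ^ 2 ∧ |c n| ≤ (Real.log X) ^ 2) →
    (∀ m, a m ≠ 0 → Uu δ X < m ∧ (m : ℝ) ≤ y2 δ X) → ∀ t : ℕ, t ≤ X →
    ‖∑ n ∈ Icc 1 t, ((∑ m ∈ n.divisors, a m * c (n / m) : ℝ) : ℂ) * F n‖ ≤
      (Real.log X) ^ 7 * (B2 + Real.sqrt X * B4) := by
  obtain ⟨X0, hX0⟩ := MP_log_large 9
  refine ⟨X0, fun X hX δ hδ0 hδ F B2 B4 hII hF a c hac ha t ht => ?_⟩
  have hL9 := hX0 X hX
  set L := Real.log X with hL
  have hL0 : 0 < L := by linarith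
  have hXpos : 1 ≤ X := by
    by_contra hcon
    have h1 : X = 0 := by omega
    rw [h1] at hL
    simp at hL
    linarith
  have hX1 : (1 : ℝ) ≤ X := by exact_mod_cast hXpos
  have hXp : (0 : ℝ) < X := by linarith
  have hB4 : 0 ≤ B4 := (norm_nonneg _).trans (hF 0)
  have hU1 : 1 ≤ Uu δ X := by
    unfold Uu
    apply Nat.le_floor
    rw [Nat.cast_one]
    exact Real.one_le_rpow hX1 (by linarith)
  have hUle : (Uu δ X : ℝ) ≤ (X : ℝ) ^ (1 / 3 + 3 * δ) :=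
    Nat.floor_le (Real.rpow_nonneg hXp.le _)
  have hUy : (Uu δ X : ℝ) ≤ y2 δ X := by
    refine hUle.trans ?_
    unfold y2
    exact Real.rpow_le_rpow_of_exponent_le hX1 (by linarith)
  have hUX : Uu δ X ≤ X := by
    have h1 : (Uu δ X : ℝ) ≤ X := by
      refine hUle.trans ?_
      calc (X : ℝ) ^ (1 / 3 + 3 * δ) ≤ (X : ℝ) ^ (1 : ℝ) :=
            Real.rpow_le_rpow_of_exponent_le hX1 (by linarith)
        _ = X := Real.rpow_one _
    exact_mod_cast h1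
  have hB2 : 0 ≤ B2 := by
    have h1 := hII 1 (Uu δ X) 0 (fun _ => 0) (fun _ => 0) (Nat.zero_le _) (by simp) (by simp)
      le_rfl (by have : (0 : ℝ) ≤ Uu δ X := Nat.cast_nonneg _; linarith) hUy (by omega)
    exact (norm_nonneg _).trans h1
  have hy2 : y2 δ X ≤ Real.sqrt X := by
    unfold y2
    rw [Real.sqrt_eq_rpow]
    exact Real.rpow_le_rpow_of_exponent_le hX1 (by linarith)
  rw [st_pairs]
  -- splitting
  have hsplit : ∑ p ∈ (Icc 1 t ×ˢ Icc 1 t).filter (fun p : ℕ × ℕ => p.1 * p.2 ≤ t),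
        ((a p.1 : ℝ) : ℂ) * ((c p.2 : ℝ) : ℂ) * F (p.1 * p.2) =
      ∑ m ∈ Icc 1 t, ((a m : ℝ) : ℂ) * ((c 1 : ℝ) : ℂ) * F m +
      ∑ p ∈ (Icc 1 t ×ˢ Icc 1 t).filter (fun p : ℕ × ℕ => p.1 * p.2 ≤ t ∧ 2 ≤ p.1 ∧ 2 ≤ p.2),
        ((a p.1 : ℝ) : ℂ) * ((c p.2 : ℝ) : ℂ) * F (p.1 * p.2) := by
    rw [← Finset.sum_filter_add_sum_filter_not
      ((Icc 1 t ×ˢ Icc 1 t).filter (fun p : ℕ × ℕ => p.1 * p.2 ≤ t)) (fun p => p.2 = 1)]
    congr 1
    · refine Finset.sum_bij' (fun p _ => p.1) (fun m _ => (m, 1)) ?_ ?_ ?_ ?_ ?_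
      · rintro ⟨m, k⟩ h
        rw [Finset.mem_filter, Finset.mem_filter, Finset.mem_product] at h
        exact h.1.1.1
      · intro m h
        rw [Finset.mem_Icc] at h
        rw [Finset.mem_filter, Finset.mem_filter, Finset.mem_product, Finset.mem_Icc,
          Finset.mem_Icc]
        refine ⟨⟨⟨h, ?_⟩, ?_⟩, rfl⟩
        · exact ⟨le_rfl, h.1.trans h.2⟩
        · show m * 1 ≤ t
          rw [mul_one]
          exact h.2
      · rintro ⟨m, k⟩ h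
        rw [Finset.mem_filter] at h
        have h2 : k = 1 := h.2
        rw [h2]
      · intro m h
        rfl
      · rintro ⟨m, k⟩ h
        rw [Finset.mem_filter] at h
        have h2 : k = 1 := h.2
        show ((a m : ℝ) : ℂ) * ((c k : ℝ) : ℂ) * F (m * k) = _
        rw [h2, mul_one]
    · symm
      apply Finset.sum_subset
      · rintro ⟨m, k⟩ h
        rw [Finset.mem_filter] at h
        rw [Finset.mem_filter, Finset.mem_filter]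
        obtain ⟨h1, h2, h3, h4⟩ := h
        refine ⟨⟨h1, h2⟩, ?_⟩
        show ¬ k = 1
        have h5 : 2 ≤ k := h4
        omega
      · rintro ⟨m, k⟩ h h'
        rw [Finset.mem_filter, Finset.mem_filter, Finset.mem_product, Finset.mem_Icc,
          Finset.mem_Icc] at h
        obtain ⟨⟨⟨⟨h1, h2⟩, h3, h4⟩, h5⟩, h6⟩ := h
        simp only at h1 h2 h3 h4 h5 h6
        have h7 : m = 1 := by
          by_contra hm
          apply h'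
          rw [Finset.mem_filter, Finset.mem_product, Finset.mem_Icc, Finset.mem_Icc]
          refine ⟨⟨⟨h1, h2⟩, h3, h4⟩, h5, ?_, ?_⟩
          · show 2 ≤ m
            omega
          · show 2 ≤ k
            omega
        have h8 : a 1 = 0 := by
          by_contra hc
          have := (ha 1 hc).1
          omega
        show ((a m : ℝ) : ℂ) * ((c k : ℝ) : ℂ) * F (m * k) = 0
        rw [h7, h8]
        simp
  rw [hsplit]
  have hfirst : ‖∑ m ∈ Icc 1 t, ((a m : ℝ) : ℂ) * ((c 1 : ℝ) : ℂ) * F m‖ ≤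
      Real.sqrt X * (L ^ 4 * B4) := by
    have e1 : ∑ m ∈ Icc 1 t, ((a m : ℝ) : ℂ) * ((c 1 : ℝ) : ℂ) * F m =
        ∑ m ∈ Icc 1 ⌊y2 δ X⌋₊ ∩ Icc 1 t, ((a m : ℝ) : ℂ) * ((c 1 : ℝ) : ℂ) * F m := by
      symm
      apply Finset.sum_subset Finset.inter_subset_right
      intro m h1 h2
      have h3 : a m = 0 := by
        by_contra hc
        apply h2
        rw [Finset.mem_inter]
        refine ⟨?_, h1⟩
        rw [Finset.mem_Icc] at h1 ⊢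
        exact ⟨h1.1, Nat.le_floor (ha m hc).2⟩
      rw [h3]
      simp
    rw [e1]
    calc ‖∑ m ∈ Icc 1 ⌊y2 δ X⌋₊ ∩ Icc 1 t, ((a m : ℝ) : ℂ) * ((c 1 : ℝ) : ℂ) * F m‖
        ≤ ∑ m ∈ Icc 1 ⌊y2 δ X⌋₊ ∩ Icc 1 t, (L ^ 4 * B4) := by
          refine (norm_sum_le _ _).trans (Finset.sum_le_sum (fun m _ => ?_))
          rw [norm_mul, norm_mul, Complex.norm_real, Complex.norm_real, Real.norm_eq_abs,
            Real.norm_eq_abs]
          have f1 := (hac m).1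
          have f2 := (hac 1).2
          have f3 := hF m
          have f4 : |a m| * |c 1| ≤ L ^ 2 * L ^ 2 :=
            mul_le_mul f1 f2 (abs_nonneg _) (by positivity)
          calc |a m| * |c 1| * ‖F m‖ ≤ (L ^ 2 * L ^ 2) * B4 :=
                mul_le_mul f4 f3 (norm_nonneg _) (by positivity)
            _ = L ^ 4 * B4 := by ring
      _ = ((Icc 1 ⌊y2 δ X⌋₊ ∩ Icc 1 t).card : ℝ) * (L ^ 4 * B4) := by
          rw [Finset.sum_const, nsmul_eq_mul]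
      _ ≤ Real.sqrt X * (L ^ 4 * B4) := by
          have e2 : (Icc 1 ⌊y2 δ X⌋₊ ∩ Icc 1 t).card ≤ ⌊y2 δ X⌋₊ := by
            calc (Icc 1 ⌊y2 δ X⌋₊ ∩ Icc 1 t).card ≤ (Icc 1 ⌊y2 δ X⌋₊).card :=
                  Finset.card_le_card Finset.inter_subset_left
              _ = ⌊y2 δ X⌋₊ := by rw [Nat.card_Icc]; omega
          have e3 : ((Icc 1 ⌊y2 δ X⌋₊ ∩ Icc 1 t).card : ℝ) ≤ (⌊y2 δ X⌋₊ : ℝ) := by
            exact_mod_cast e2
          have e4 : (⌊y2 δ X⌋₊ : ℝ) ≤ y2 δ X := Nat.floor_le (Real.rpow_nonneg hXp.le _)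
          have e5 : 0 ≤ L ^ 4 * B4 := by positivity
          exact mul_le_mul_of_nonneg_right (e3.trans (e4.trans hy2)) e5
  have hsecond : ‖∑ p ∈ (Icc 1 t ×ˢ Icc 1 t).filter
      (fun p : ℕ × ℕ => p.1 * p.2 ≤ t ∧ 2 ≤ p.1 ∧ 2 ≤ p.2),
        ((a p.1 : ℝ) : ℂ) * ((c p.2 : ℝ) : ℂ) * F (p.1 * p.2)‖ ≤ (9 * L ^ 2) * (L ^ 4 * B2) := by
    have hmaps : ∀ p ∈ (Icc 1 t ×ˢ Icc 1 t).filter
        (fun p : ℕ × ℕ => p.1 * p.2 ≤ t ∧ 2 ≤ p.1 ∧ 2 ≤ p.2),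
        (fun p : ℕ × ℕ => (Nat.log 2 (p.1 - 1), Nat.log 2 (p.2 - 1))) p ∈
          range (Nat.log 2 X + 1) ×ˢ range (Nat.log 2 X + 1) := by
      rintro ⟨m, k⟩ h
      rw [Finset.mem_filter, Finset.mem_product, Finset.mem_Icc, Finset.mem_Icc] at h
      obtain ⟨⟨⟨h1, h2⟩, h3, h4⟩, h5⟩ := h
      simp only at h1 h2 h3 h4
      rw [Finset.mem_product, Finset.mem_range, Finset.mem_range]
      refine ⟨?_, ?_⟩
      · show Nat.log 2 (m - 1) < Nat.log 2 X + 1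
        have := Nat.log_mono_right (b := 2) (show m - 1 ≤ X by omega)
        omega
      · show Nat.log 2 (k - 1) < Nat.log 2 X + 1
        have := Nat.log_mono_right (b := 2) (show k - 1 ≤ X by omega)
        omega
    rw [← Finset.sum_fiberwise_of_maps_to hmaps]
    refine (norm_sum_le _ _).trans ?_
    have h1 : ∀ q ∈ range (Nat.log 2 X + 1) ×ˢ range (Nat.log 2 X + 1),
        ‖∑ p ∈ ((Icc 1 t ×ˢ Icc 1 t).filter
          (fun p : ℕ × ℕ => p.1 * p.2 ≤ t ∧ 2 ≤ p.1 ∧ 2 ≤ p.2)).filter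
          (fun p => (fun p : ℕ × ℕ => (Nat.log 2 (p.1 - 1), Nat.log 2 (p.2 - 1))) p = q),
        ((a p.1 : ℝ) : ℂ) * ((c p.2 : ℝ) : ℂ) * F (p.1 * p.2)‖ ≤ L ^ 4 * B2 := by
      rintro ⟨i', i⟩ _
      exact st_block δ X F B2 L hL0 hB2 hII a c hac ha t ht i' i
    refine (Finset.sum_le_sum h1).trans ?_
    rw [Finset.sum_const, Finset.card_product, Finset.card_range, nsmul_eq_mul]
    have h2 : ((Nat.log 2 X : ℕ) : ℝ) ≤ 2 * L := by
      have e1 : 2 ^ (Nat.log 2 X) ≤ X := Nat.pow_log_le_self 2 (by omega)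
      have e2 : ((2 : ℝ) ^ (Nat.log 2 X)) ≤ X := by exact_mod_cast e1
      have e3 := Real.log_le_log (by positivity) e2
      rw [Real.log_pow] at e3
      have e4 : (1 / 2 : ℝ) ≤ Real.log 2 := by
        have := Real.log_two_gt_d9
        linarith
      have e5 : (0 : ℝ) ≤ ((Nat.log 2 X : ℕ) : ℝ) := Nat.cast_nonneg _
      nlinarith
    have h3 : (((Nat.log 2 X + 1) * (Nat.log 2 X + 1) : ℕ) : ℝ) ≤ 9 * L ^ 2 := by
      push_cast
      have e5 : (0 : ℝ) ≤ ((Nat.log 2 X : ℕ) : ℝ) := Nat.cast_nonneg _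
      nlinarith
    exact mul_le_mul_of_nonneg_right h3 (by positivity)
  refine (norm_add_le _ _).trans ?_
  refine (add_le_add hfirst hsecond).trans ?_
  have hs : 0 ≤ Real.sqrt X := Real.sqrt_nonneg _
  have k1 : L ^ 4 ≤ L ^ 7 := pow_le_pow_right₀ (by linarith) (by norm_num)
  have k2 : 9 * L ^ 2 * L ^ 4 ≤ L ^ 7 := by
    have e1 : L ^ 7 = L * (L ^ 2 * L ^ 4) := by ring
    have e2 : 0 ≤ L ^ 2 * L ^ 4 := by positivity
    rw [e1]
    nlinarith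
  have k3 : Real.sqrt X * (L ^ 4 * B4) ≤ L ^ 7 * (Real.sqrt X * B4) := by
    have e1 : 0 ≤ Real.sqrt X * B4 := by positivity
    calc Real.sqrt X * (L ^ 4 * B4) = L ^ 4 * (Real.sqrt X * B4) := by ring
      _ ≤ L ^ 7 * (Real.sqrt X * B4) := mul_le_mul_of_nonneg_right k1 e1
  have k4 : (9 * L ^ 2) * (L ^ 4 * B2) ≤ L ^ 7 * B2 := by
    calc (9 * L ^ 2) * (L ^ 4 * B2) = 9 * L ^ 2 * L ^ 4 * B2 := by ring
      _ ≤ L ^ 7 * B2 := mul_le_mul_of_nonneg_right k2 hB2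
  calc Real.sqrt X * (L ^ 4 * B4) + (9 * L ^ 2) * (L ^ 4 * B2) ≤
        L ^ 7 * (Real.sqrt X * B4) + L ^ 7 * B2 := add_le_add k3 k4
    _ = L ^ 7 * (B2 + Real.sqrt X * B4) := by ring

end Pool.MP_dd84fd_nt.HX
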