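import Pool.Agent.Lib.MP_dd84fd_nt.HX.StTI
import Pool.Agent.Lib.MP_dd84fd_nt.HX.StTII
import Pool.Agent.Lib.MP_dd84fd_nt.HX.StF1
import Pool.Agent.Lib.MP_dd84fd_nt.HX.Iface

/-!
# HX-StRed (1.2 h): the reduction theorem from Proposition 1

`B := 2A + 10` in `Dec1`; `C1` its constant, `C := C1 + 10`. `um n = (aL n - (1 - wD n) f1 n) / log n` (`log 1 = 0` and Lean's `x / 0 = 0`: the term `n = 1` is `0`).
1. For `t ≤ X`: `‖Σ_{n ≤ t} aL n F n‖ ≤ 5 L B1 + L^C1 L^7 (B2 + √X B4) + √(X/L^B) B3 =: Q` (`st_ti`, `st_tii` for each `i ∈ range I`, Cauchy-Schwarz for `err` with `Σ ‖F‖² ≤ B3²`).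
2. Abel summation with `g(n) = 1/log n` (`E2.MP_abel`).
3. `f_a` part: `abel_bv` for `1 - wD n` (`WDabs`), then `E2.MP_abel`.
4. Sum: `≤ L^C (B1 + B2 + √X B4) + √X B3/L^A` for `X ≥ X0`.
-/

set_option autoImplicit false

namespace Pool.MP_dd84fd_nt.HX

open Finset Pool.MP_67663b_nt.Odd Pool.MP_dd84fd_nt.En Pool.MP_dd84fd_nt.E2 Pool.MP_dd84fd_nt.LS
open Pool.MP_dd84fd_nt.L2G (nrm)
open Pool.MP_dd84fd_nt.GX

/-- Abel summation for a function of bounded variation -/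
theorem abel_bv (X : ℕ) (hX : 1 ≤ X) (s : ℕ → ℂ) (g : ℕ → ℝ) (Q G0 G1 : ℝ) (hQ : 0 ≤ Q)
    (hs : ∀ t ∈ Icc 1 X, ‖∑ n ∈ Icc 1 t, s n‖ ≤ Q) (hg : ∀ n ∈ Icc 1 X, |g n| ≤ G0)
    (hv : ∑ n ∈ Ico 1 X, |g (n + 1) - g n| ≤ G1) :
    ‖∑ n ∈ Icc 1 X, ((g n : ℝ) : ℂ) * s n‖ ≤ Q * (G0 + G1) := by
  have hid : ∀ X : ℕ, 1 ≤ X → ∑ n ∈ Icc 1 X, ((g n : ℝ) : ℂ) * s n =
      ((g X : ℝ) : ℂ) * ∑ n ∈ Icc 1 X, s n -
      ∑ t ∈ Ico 1 X, ((g (t + 1) - g t : ℝ) : ℂ) * ∑ n ∈ Icc 1 t, s n := by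
    intro X hX
    induction X, hX using Nat.le_induction with
    | base => simp
    | succ X hX ih =>
      rw [Finset.sum_Icc_succ_top (by omega), ih, Finset.sum_Ico_succ_top hX,
        Finset.sum_Icc_succ_top (by omega)]
      push_cast
      ring
  rw [hid X hX]
  refine (norm_sub_le _ _).trans ?_
  have h1 : ‖((g X : ℝ) : ℂ) * ∑ n ∈ Icc 1 X, s n‖ ≤ Q * G0 := by
    rw [norm_mul, Complex.norm_real, Real.norm_eq_abs, mul_comm]
    exact mul_le_mul (hs X (mem_Icc.mpr ⟨hX, le_rfl⟩)) (hg X (mem_Icc.mpr ⟨hX, le_rfl⟩))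
      (abs_nonneg _) hQ
  have h2 : ‖∑ t ∈ Ico 1 X, ((g (t + 1) - g t : ℝ) : ℂ) * ∑ n ∈ Icc 1 t, s n‖ ≤ Q * G1 := by
    refine (norm_sum_le _ _).trans ?_
    calc ∑ t ∈ Ico 1 X, ‖((g (t + 1) - g t : ℝ) : ℂ) * ∑ n ∈ Icc 1 t, s n‖
        ≤ ∑ t ∈ Ico 1 X, |g (t + 1) - g t| * Q := by
          refine sum_le_sum fun t ht => ?_
          rw [norm_mul, Complex.norm_real, Real.norm_eq_abs]
          have ht' := mem_Ico.mp ht
          exact mul_le_mul_of_nonneg_left (hs t (mem_Icc.mpr ⟨ht'.1, ht'.2.le⟩)) (abs_nonneg _)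
      _ = Q * ∑ t ∈ Ico 1 X, |g (t + 1) - g t| := by rw [← Finset.sum_mul, mul_comm]
      _ ≤ Q * G1 := mul_le_mul_of_nonneg_left hv hQ
  calc _ ≤ Q * G0 + Q * G1 := add_le_add h1 h2
    _ = Q * (G0 + G1) := by ring

/-- Cauchy-Schwarz for the error term -/
private theorem sr_cs (X t : ℕ) (ht : t ≤ X) (err : ℕ → ℝ) (F : ℕ → ℂ) (S B3 : ℝ) (hS : 0 ≤ S)
    (hB3 : 0 ≤ B3) (he : ∑ n ∈ Icc 1 X, err n ^ 2 ≤ S)
    (hF : ∑ n ∈ Icc 1 X, ‖F n‖ ^ 2 ≤ B3 ^ 2) :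
    ‖∑ n ∈ Icc 1 t, ((err n : ℝ) : ℂ) * F n‖ ≤ Real.sqrt S * B3 := by
  have h1 : ‖∑ n ∈ Icc 1 t, ((err n : ℝ) : ℂ) * F n‖ ≤ ∑ n ∈ Icc 1 t, |err n| * ‖F n‖ := by
    refine (norm_sum_le _ _).trans (le_of_eq ?_)
    refine sum_congr rfl fun n _ => ?_
    rw [norm_mul, Complex.norm_real, Real.norm_eq_abs]
  have hsub : Icc 1 t ⊆ Icc 1 X := Icc_subset_Icc le_rfl ht
  have h2 : (∑ n ∈ Icc 1 t, |err n| * ‖F n‖) ^ 2 ≤ S * B3 ^ 2 := by
    refine (Finset.sum_mul_sq_le_sq_mul_sq _ _ _).trans ?_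
    refine mul_le_mul ?_ ?_ (sum_nonneg fun _ _ => sq_nonneg _) hS
    · refine le_trans ?_ he
      refine le_trans (le_of_eq (sum_congr rfl fun n _ => sq_abs _)) ?_
      exact sum_le_sum_of_subset_of_nonneg hsub fun _ _ _ => sq_nonneg _
    · exact (sum_le_sum_of_subset_of_nonneg hsub fun _ _ _ => sq_nonneg _).trans hF
  refine h1.trans ?_
  have h3 : 0 ≤ Real.sqrt S * B3 := by positivity
  have h4 : (Real.sqrt S * B3) ^ 2 = S * B3 ^ 2 := by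
    rw [mul_pow, Real.sq_sqrt hS]
  exact abs_le_of_sq_le_sq' (by rw [h4]; exact h2) h3 |>.2

theorem red_h (h1 : Dec1) (h2 : WDabs) : RedH := by
  intro A
  obtain ⟨C1, hC1⟩ := h1 (2 * A + 10)
  obtain ⟨C0, X1, hX1⟩ := h2
  obtain ⟨X2, hX2⟩ := st_tii
  refine ⟨C1 + 10, fun δ hδ hδ' D' hD' => ?_⟩
  obtain ⟨X3, hX3⟩ := hC1 δ hδ hδ'
  obtain ⟨c, hc, X4, hX4⟩ := st_f1 D' hD'
  obtain ⟨X5, hX5⟩ := MP_log_large (max 15 (15 + 3 * (1 + 2 * |C0|)))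
  obtain ⟨X6, hX6⟩ := MP_log_pow (6 * (1 + 2 * |C0|)) A hc
  refine ⟨X1 + X2 + X3 + X4 + X5 + X6 + 3, fun X hX F B1 B2 B3 B4 hB1 hB2 hB3 hB4 hB30 => ?_⟩
  obtain ⟨hw1, hw2⟩ := hX1 X (by omega) δ hδ hδ'
  have htii := hX2 X (by omega) δ hδ hδ' F B2 B4 hB2 hB4
  obtain ⟨α, β, I, a, cc, err, hαβ, hsup, hI, hac, hasup, hdec, herr⟩ := hX3 X (by omega)
  have hf1 := hX4 X (by omega) (wX D' X) (by
    unfold wX
    exact Nat.floor_le (pow_nonneg (Real.log_nonneg (by exact_mod_cast (by omega : 1 ≤ X))) _)) F B1 B3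
  have hL := hX5 X (by omega)
  have hLX := hX6 X (by omega)
  have hX3' : 3 ≤ X := by omega
  have hx0 : (0 : ℝ) < X := by exact_mod_cast (by omega : 0 < X)
  set L := Real.log X with hLdef
  have hL15 : 15 ≤ L := (le_max_left _ _).trans hL
  have hLC : 15 + 3 * (1 + 2 * |C0|) ≤ L := (le_max_right _ _).trans hL
  have hL0 : 0 < L := by linarith
  have hC0 : 0 ≤ C0 := (abs_nonneg _).trans (hw1 1 (mem_Icc.mpr ⟨le_rfl, by omega⟩))
  rw [abs_of_nonneg hC0] at hLC hLX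
  -- nonnegativity
  have hB10 : 0 ≤ B1 := by
    have := hB1 0 (fun _ => 0) (fun _ => 0) (by simp; positivity) (by simp) (by simp)
    simpa using this
  have hB40 : 0 ≤ B4 := (norm_nonneg _).trans (hB4 0)
  have hs0 : 0 < Real.sqrt X := Real.sqrt_pos.mpr hx0
  set P : ℝ := B2 + Real.sqrt X * B4 with hPdef
  have hP0 : 0 ≤ P := by
    have h := htii (fun _ => 0) (fun _ => 0) (fun n => by simp; positivity) (fun m hm => by simp at hm)
      0 (Nat.zero_le _)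
    have h' : 0 ≤ L ^ 7 * P := (norm_nonneg _).trans h
    exact nonneg_of_mul_nonneg_right h' (by positivity)
  -- partial sums of `aL F`
  set S : ℝ := X / L ^ (2 * A + 10) with hSdef
  have hS0 : 0 ≤ S := by positivity
  set Q : ℝ := 5 * L * B1 + L ^ C1 * (L ^ 7 * P) + Real.sqrt S * B3 with hQdef
  have hQ : ∀ t ≤ X, ‖∑ n ∈ Icc 1 t, ((aL δ X n : ℝ) : ℂ) * F n‖ ≤ Q := by
    intro t ht
    have e1 : ∑ n ∈ Icc 1 t, ((aL δ X n : ℝ) : ℂ) * F n =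
        ∑ n ∈ Icc 1 t, ((∑ l ∈ n.divisors, (α l * Real.log n + β l) : ℝ) : ℂ) * F n +
        ∑ i ∈ range I, ∑ n ∈ Icc 1 t, ((∑ m ∈ n.divisors, a i m * cc i (n / m) : ℝ) : ℂ) * F n +
        ∑ n ∈ Icc 1 t, ((err n : ℝ) : ℂ) * F n := by
      rw [Finset.sum_comm (s := range I), ← sum_add_distrib, ← sum_add_distrib]
      refine sum_congr rfl fun n hn => ?_
      have hn' : n ∈ Icc 1 X := by
        have := mem_Icc.mp hn
        exact mem_Icc.mpr ⟨this.1, this.2.trans ht⟩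
      rw [hdec n hn', Complex.ofReal_add, Complex.ofReal_add, add_mul, add_mul, ← Finset.sum_mul]
      congr 3
      push_cast
      rfl
    rw [e1]
    refine (norm_add₃_le).trans ?_
    refine add_le_add (add_le_add ?_ ?_) ?_
    · exact st_ti X hX3' F B1 hB1 α β (fun l => (hαβ l).1) (fun l => (hαβ l).2) hsup t ht
    · refine (norm_sum_le _ _).trans ?_
      calc ∑ i ∈ range I, ‖∑ n ∈ Icc 1 t, ((∑ m ∈ n.divisors, a i m * cc i (n / m) : ℝ) : ℂ) * F n‖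
          ≤ ∑ _i ∈ range I, L ^ 7 * P := by
            refine sum_le_sum fun i _ => ?_
            exact htii (a i) (cc i) (fun n => hac i n) (fun m hm => hasup i m hm) t ht
        _ = (I : ℝ) * (L ^ 7 * P) := by simp
        _ ≤ L ^ C1 * (L ^ 7 * P) := mul_le_mul_of_nonneg_right hI (by positivity)
    · exact sr_cs X t ht err F S B3 hS0 hB30 herr hB3
  -- partial sums of the model
  set Q2 : ℝ := L * B1 + (X : ℝ) ^ (1 / 2 - c) * B3 with hQ2def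
  have hQ20 : 0 ≤ Q2 := by positivity
  have hQ2 : ∀ t ≤ X, ‖∑ n ∈ Icc 1 t, ((1 - wD δ X n : ℝ) : ℂ) * (((f1 (wX D' X) n : ℝ) : ℂ) * F n)‖ ≤
      Q2 * (1 + C0 + C0) := by
    intro t ht
    rcases Nat.eq_zero_or_pos t with rfl | ht0
    · simp; positivity
    refine abel_bv t ht0 _ (fun n => 1 - wD δ X n) Q2 (1 + C0) C0 hQ20 ?_ ?_ ?_
    · intro u hu
      exact hf1 hB10 hB30 hB1 hB3 u ((mem_Icc.mp hu).2.trans ht)
    · intro n hn
      have hn' : n ∈ Icc 1 X := mem_Icc.mpr ⟨(mem_Icc.mp hn).1, (mem_Icc.mp hn).2.trans ht⟩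
      have := hw1 n hn'
      rw [abs_le] at this ⊢
      constructor <;> linarith [this.1, this.2]
    · refine le_trans ?_ hw2
      have e2 : ∀ n, |(1 - wD δ X (n + 1)) - (1 - wD δ X n)| = |wD δ X (n + 1) - wD δ X n| := by
        intro n
        rw [← abs_neg]
        congr 1
        ring
      simp only [e2]
      exact sum_le_sum_of_subset_of_nonneg (Ico_subset_Ico le_rfl ht) fun _ _ _ => abs_nonneg _
  have a1 := MP_abel _ _ X hQ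
  have a2 := MP_abel _ _ X hQ2
  have e3 : ∑ n ∈ Icc 1 X, ((um δ X (wX D' X) n : ℝ) : ℂ) * F n =
      ∑ n ∈ Icc 1 X, ((1 / Real.log (n : ℝ) : ℝ) : ℂ) * (((aL δ X n : ℝ) : ℂ) * F n) -
      ∑ n ∈ Icc 1 X, ((1 / Real.log (n : ℝ) : ℝ) : ℂ) *
        (((1 - wD δ X n : ℝ) : ℂ) * (((f1 (wX D' X) n : ℝ) : ℂ) * F n)) := by
    rw [← sum_sub_distrib]
    refine sum_congr rfl fun n _ => ?_
    unfold um an fa
    push_cast
    ring
  rw [e3]
  refine (norm_sub_le _ _).trans ((add_le_add a1 a2).trans ?_)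
  -- final estimate
  have hsqS : Real.sqrt S = Real.sqrt X / L ^ (A + 5) := by
    have : S = (Real.sqrt X / L ^ (A + 5)) ^ 2 := by
      rw [hSdef, div_pow, Real.sq_sqrt hx0.le, ← pow_mul]
      congr 2
      ring
    rw [this, Real.sqrt_sq (by positivity)]
  have b1 : 3 * (5 * L * B1) + 3 * (L * B1 * (1 + C0 + C0)) ≤ L ^ (C1 + 10) * B1 := by
    have h3 : 3 * (5 * L * B1) + 3 * (L * B1 * (1 + C0 + C0)) = (15 + 3 * (1 + 2 * C0)) * L * B1 := by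
      ring
    rw [h3]
    refine mul_le_mul_of_nonneg_right ?_ hB10
    calc (15 + 3 * (1 + 2 * C0)) * L ≤ L * L := mul_le_mul_of_nonneg_right hLC hL0.le
      _ = L ^ 2 := by ring
      _ ≤ L ^ (C1 + 10) := pow_le_pow_right₀ (by linarith) (by omega)
  have b2 : 3 * (L ^ C1 * (L ^ 7 * P)) ≤ L ^ (C1 + 10) * P := by
    have h3 : 3 * (L ^ C1 * (L ^ 7 * P)) = 3 * L ^ (C1 + 7) * P := by ring
    rw [h3]
    refine mul_le_mul_of_nonneg_right ?_ hP0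
    calc 3 * L ^ (C1 + 7) ≤ L ^ 3 * L ^ (C1 + 7) := by
          refine mul_le_mul_of_nonneg_right ?_ (by positivity)
          nlinarith [sq_nonneg L, mul_pos hL0 hL0]
      _ = L ^ (C1 + 10) := by ring
  have b3 : 3 * (Real.sqrt S * B3) + 3 * ((X : ℝ) ^ (1 / 2 - c) * B3 * (1 + C0 + C0)) ≤
      Real.sqrt X * B3 / L ^ A := by
    have h4 : 3 * (Real.sqrt S * B3) ≤ Real.sqrt X * B3 / L ^ A / 2 := by
      rw [hsqS]
      have : 3 * (Real.sqrt X / L ^ (A + 5) * B3) = Real.sqrt X * B3 / L ^ A * (3 / L ^ 5) := by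
        rw [pow_add]
        field_simp
      rw [this]
      have h5 : 3 / L ^ 5 ≤ 1 / 2 := by
        rw [div_le_div_iff₀ (by positivity) (by norm_num)]
        have : (15 : ℝ) ^ 5 ≤ L ^ 5 := pow_le_pow_left₀ (by norm_num) hL15 5
        nlinarith
      have h6 : 0 ≤ Real.sqrt X * B3 / L ^ A := by positivity
      nlinarith
    have h7 : 3 * ((X : ℝ) ^ (1 / 2 - c) * B3 * (1 + C0 + C0)) ≤ Real.sqrt X * B3 / L ^ A / 2 := by
      have h8 : (X : ℝ) ^ (1 / 2 - c) * (X : ℝ) ^ c = Real.sqrt X := by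
        rw [← Real.rpow_add hx0, Real.sqrt_eq_rpow]
        congr 1
        ring
      rw [div_div, le_div_iff₀ (by positivity), ← h8]
      have h9 : 0 ≤ (X : ℝ) ^ (1 / 2 - c) * B3 := by positivity
      calc 3 * ((X : ℝ) ^ (1 / 2 - c) * B3 * (1 + C0 + C0)) * (L ^ A * 2)
          = ((X : ℝ) ^ (1 / 2 - c) * B3) * (6 * (1 + 2 * C0) * L ^ A) := by ring
        _ ≤ ((X : ℝ) ^ (1 / 2 - c) * B3) * (X : ℝ) ^ c := mul_le_mul_of_nonneg_left hLX h9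
        _ = (X : ℝ) ^ (1 / 2 - c) * (X : ℝ) ^ c * B3 := by ring
    linarith
  have e4 : L ^ (C1 + 10) * (B1 + B2 + Real.sqrt X * B4) = L ^ (C1 + 10) * B1 + L ^ (C1 + 10) * P := by
    rw [hPdef]; ring
  rw [e4, hQdef, hQ2def]
  have e5 : 3 * ((L * B1 + (X : ℝ) ^ (1 / 2 - c) * B3) * (1 + C0 + C0)) =
      3 * (L * B1 * (1 + C0 + C0)) + 3 * ((X : ℝ) ^ (1 / 2 - c) * B3 * (1 + C0 + C0)) := by ring
  rw [e5]
  linarith

end Pool.MP_dd84fd_nt.HX
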