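import Pool.Agent.Lib.MP_dd84fd_nt.HX.KsDefs
import Pool.Agent.Lib.MP_dd84fd_nt.GX.FFb
import Pool.Agent.Lib.MP_dd84fd_nt.GX.Nrm

/-!
# HX-KsNorm (0.5 h): the norms of `x = ω V K`

`‖x j‖ ≤ ‖V j‖ ‖K j‖`, `‖K j‖ ≤ |E|` (`GX.ke_sup`), `nm2 K ≤ |E|` (`GX.ke_l2`), `VBH`. `nm1 x ≤ √(nm2 V) √(nm2 K) ≤ √(X L^CV |E|)` (Cauchy) and
`√(L^CV) ≤ L^CV` (`L ≥ 1` for `X ≥ 3`). Copy `GX.norms` (`GX/Nrm.lean`). `nm_mono`: restricting the weight decreases the norms (not needed here).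
-/

set_option autoImplicit false

namespace Pool.MP_dd84fd_nt.HX

open Finset Pool.MP_67663b_nt.Odd Pool.MP_dd84fd_nt.En Pool.MP_dd84fd_nt.E2 Pool.MP_dd84fd_nt.LS
open Pool.MP_dd84fd_nt.L2G (nrm)
open Pool.MP_dd84fd_nt.GX

theorem norms_h (X G CV : ℕ) [NeZero G] (hX : 3 ≤ X) (hG : 3 * X ≤ G) (V ω : ZMod G → ℂ)
    (hV : VBH G X CV V) (hω : ∀ j, ‖ω j‖ ≤ 1) (E : Finset ℕ) (hE : E ⊆ Icc 1 X) (e : ℕ → ℂ)
    (he : ∀ n, ‖e n‖ ≤ 1) :
    nm1 G (xx G V ω E e) ≤ (Real.log X) ^ CV * Real.sqrt ((X : ℝ) * E.card) ∧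
      nm2 G (xx G V ω E e) ≤ X * (Real.log X) ^ CV * (E.card : ℝ) ^ 2 ∧
      ∀ j, ‖xx G V ω E e j‖ ≤ X * (Real.log X) ^ CV * E.card := by
  have hX3 : (3 : ℝ) ≤ X := by exact_mod_cast hX
  have hL1 : 1 ≤ Real.log (X : ℝ) := by
    rw [Real.le_log_iff_exp_le (by linarith)]
    have h1 := Real.exp_one_lt_d9
    linarith
  obtain ⟨hV2, hVs⟩ := hV
  set L : ℝ := Real.log (X : ℝ) with hLdef
  have hL0 : 0 < L := by linarith
  have hx : ∀ j, ‖xx G V ω E e j‖ ≤ ‖V j‖ * ‖KE G E e j‖ := by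
    intro j
    unfold xx
    rw [norm_mul, norm_mul]
    have h1 : ‖ω j‖ * ‖V j‖ ≤ 1 * ‖V j‖ :=
      mul_le_mul_of_nonneg_right (hω j) (norm_nonneg _)
    rw [one_mul] at h1
    exact mul_le_mul_of_nonneg_right h1 (norm_nonneg _)
  have hK2 := ke_l2 X G hG E hE e he
  refine ⟨?_, ?_, ?_⟩
  · have h1 : nm1 G (xx G V ω E e) ^ 2 ≤ nm2 G (V) * nm2 G (KE G E e) := by
      have h2 : nm1 G (xx G V ω E e) ≤
          (1 / (G : ℝ)) * ∑ j : ZMod G, ‖V j‖ * ‖KE G E e j‖ := by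
        unfold nm1
        exact mul_le_mul_of_nonneg_left (Finset.sum_le_sum fun j _ => hx j) (by positivity)
      have h3 : 0 ≤ nm1 G (xx G V ω E e) := by
        unfold nm1
        positivity
      have h4 := Finset.sum_mul_sq_le_sq_mul_sq (Finset.univ : Finset (ZMod G))
        (fun j => ‖V j‖) (fun j => ‖KE G E e j‖)
      calc nm1 G (xx G V ω E e) ^ 2
          ≤ ((1 / (G : ℝ)) * ∑ j : ZMod G, ‖V j‖ * ‖KE G E e j‖) ^ 2 :=
            pow_le_pow_left₀ h3 h2 2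
        _ = (1 / (G : ℝ)) ^ 2 * (∑ j : ZMod G, ‖V j‖ * ‖KE G E e j‖) ^ 2 := by
            rw [mul_pow]
        _ ≤ (1 / (G : ℝ)) ^ 2 * ((∑ j : ZMod G, ‖V j‖ ^ 2) *
            ∑ j : ZMod G, ‖KE G E e j‖ ^ 2) := mul_le_mul_of_nonneg_left h4 (by positivity)
        _ = nm2 G (V) * nm2 G (KE G E e) := by
            unfold nm2
            ring
    have h5 : nm2 G (V) * nm2 G (KE G E e) ≤ X * L ^ CV * E.card :=
      mul_le_mul hV2 hK2 (by unfold nm2; positivity) (by positivity)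
    have h6 : (L ^ CV * Real.sqrt ((X : ℝ) * E.card)) ^ 2 = L ^ CV * (X * L ^ CV * E.card) := by
      rw [mul_pow, Real.sq_sqrt (by positivity)]
      ring
    have h8 : X * L ^ CV * E.card ≤ L ^ CV * (X * L ^ CV * E.card) :=
      le_mul_of_one_le_left (by positivity) (one_le_pow₀ hL1)
    have h7 : nm1 G (xx G V ω E e) ^ 2 ≤ (L ^ CV * Real.sqrt ((X : ℝ) * E.card)) ^ 2 := by
      rw [h6]
      exact (h1.trans h5).trans h8
    exact le_of_sq_le_sq h7 (by positivity)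
  · have h1 : nm2 G (xx G V ω E e) ≤ nm2 G (V) * (E.card : ℝ) ^ 2 := by
      unfold nm2
      rw [mul_assoc, Finset.sum_mul]
      refine mul_le_mul_of_nonneg_left (Finset.sum_le_sum fun j _ => ?_) (by positivity)
      have h2 := hx j
      have h3 := ke_sup G E e he j
      calc ‖xx G V ω E e j‖ ^ 2 ≤ (‖V j‖ * ‖KE G E e j‖) ^ 2 :=
            pow_le_pow_left₀ (norm_nonneg _) h2 2
        _ = ‖V j‖ ^ 2 * ‖KE G E e j‖ ^ 2 := by rw [mul_pow]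
        _ ≤ ‖V j‖ ^ 2 * (E.card : ℝ) ^ 2 :=
            mul_le_mul_of_nonneg_left (pow_le_pow_left₀ (norm_nonneg _) h3 2) (by positivity)
    exact h1.trans (mul_le_mul_of_nonneg_right hV2 (by positivity))
  · intro j
    exact (hx j).trans (mul_le_mul (hVs j) (ke_sup G E e he j) (norm_nonneg _) (by positivity))

end Pool.MP_dd84fd_nt.HX
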