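import Pool.Agent.Lib.MP_dd84fd_nt.HX.KsMass
import Pool.Agent.Lib.MP_dd84fd_nt.HX.KsNorm
import Pool.Agent.Lib.MP_dd84fd_nt.GX.TIexp
import Pool.Agent.Lib.MP_dd84fd_nt.GX.Den2
import Pool.Agent.Lib.MP_dd84fd_nt.E2.MinorP

/-!
# HX-KsTI (1.3 h): the type I bound

* `ht_sum`: only `d = qd X α_j ∈ Apd` is used, `hd X α_j (qd) = ht X α_j` (`qd_apd`). For `x_j ≠ 0` (so `ω j ≠ 0`) let `2^t ≤ ht X α_j < 2^(t+1)`
  (`t < T0 = Nat.log 2 X + 1` as `1 ≤ ht ≤ √X`), `q = qd X α_j < 2^(t+1)`. `S(q, t) = {j : ω j ≠ 0, qd = q, 2^t ≤ ht < 2^(t+1)} ⊆ Jdt q t`. So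
  `(1/G) Σ_j ‖x j‖ / ht ≤ Σ_{t < T0} 2^(-t) Σ_{q < 2^(t+1)} A(q,t)`, `A(q,t) = (1/G) Σ_{j ∈ S(q,t)} ‖x j‖`. `jsum` with `m = ρ |E|` (hypothesis `NoAPH`; if
  `S(q,t)` is empty, `A = 0`): `A(q,t)² ≤ M(q,t) 128 (2^t/X) |E|² ρ`, `M(q,t) = (1/G) Σ_{S(q,t)} ‖V j‖²`, `Σ_q M(q,t) ≤ nm2 V`. Cauchy over the
  `≤ 2^(t+1)` values of `q`: `Σ_q A ≤ (2^(t+1))^(1/2) (nm2 V)^(1/2) (128 (2^t/X) |E|² ρ)^(1/2) = 16 · 2^t (ρ nm2 V / X)^(1/2) |E|`. Sum over `t`: the claim.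
* `ti_h`: `GX.typeI_exp`, `GX.typeI_ker` (`R ≤ X^(2/5) ≤ X`): `≤ C L ((1/G) Σ ‖x j‖ X/ht + R nm1 x) ≤ C L (X · 16 (log_2 X + 1) L^CV X^(-η/2) |E| + X^(2/5) L^CV √(X |E|))`,
  and `√(X |E|) = √X |E| / √|E| ≤ X^(1/2) X^(-1/4+δ) |E|`. `E2.MP_log_pow` for the powers of `log X`.
-/

set_option autoImplicit false

namespace Pool.MP_dd84fd_nt.HX

open Finset Pool.MP_67663b_nt.Odd Pool.MP_dd84fd_nt.En Pool.MP_dd84fd_nt.E2 Pool.MP_dd84fd_nt.LS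
open Pool.MP_dd84fd_nt.L2G (nrm)
open Pool.MP_dd84fd_nt.GX

private theorem ksti_t (X : ℕ) (δ : ℝ) (hX : 1 ≤ X) (hδ : 0 ≤ δ) (h16 : 16 * y3 δ X ≤ X) (α : ℝ) :
    (2 : ℝ) ^ (Nat.log 2 ⌊ht X α⌋₊) ≤ ht X α ∧ ht X α < 2 ^ (Nat.log 2 ⌊ht X α⌋₊ + 1) ∧
      Nat.log 2 ⌊ht X α⌋₊ < Nat.log 2 X + 1 := by
  obtain ⟨h1, h2⟩ := qd_apd δ hδ X hX α
  obtain ⟨h3, h4, -, -⟩ := hd_bd δ X α _ h1
  rw [h2] at h3 h4
  have hX0 : (0 : ℝ) < X := by exact_mod_cast hX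
  have hfl : 1 ≤ ⌊ht X α⌋₊ := Nat.le_floor (by exact_mod_cast h3)
  have hfl2 : (⌊ht X α⌋₊ : ℝ) ≤ ht X α := Nat.floor_le (by linarith)
  refine ⟨?_, ?_, ?_⟩
  · have h5 : 2 ^ Nat.log 2 ⌊ht X α⌋₊ ≤ ⌊ht X α⌋₊ := Nat.pow_log_le_self 2 (by omega)
    have h6 : (2 : ℝ) ^ Nat.log 2 ⌊ht X α⌋₊ ≤ (⌊ht X α⌋₊ : ℝ) := by exact_mod_cast h5
    exact h6.trans hfl2
  · have h5 : ⌊ht X α⌋₊ < 2 ^ (Nat.log 2 ⌊ht X α⌋₊ + 1) := Nat.lt_pow_succ_log_self (by norm_num) _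
    have h6 : (⌊ht X α⌋₊ : ℝ) + 1 ≤ (2 : ℝ) ^ (Nat.log 2 ⌊ht X α⌋₊ + 1) := by exact_mod_cast h5
    exact (Nat.lt_floor_add_one _).trans_le h6
  · have h5 : ⌊ht X α⌋₊ ≤ X := by
      have h6 : (⌊ht X α⌋₊ : ℝ) ≤ X := by
        have : 0 ≤ y3 δ X := by linarith
        linarith
      exact_mod_cast h6
    exact Nat.lt_succ_of_le (Nat.log_mono_right h5)

open Classical in
private theorem ksti_level (X G : ℕ) [NeZero G] (hX : 1 ≤ X) (hG : 3 * X ≤ G) (δ : ℝ) (hδ : 0 ≤ δ)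
    (h16 : 16 * y3 δ X ≤ X) (V ω : ZMod G → ℂ) (hω : ∀ j, ‖ω j‖ ≤ 1) (E : Finset ℕ)
    (hE : E ⊆ Icc 1 X) (e : ℕ → ℂ) (he : ∀ n, ‖e n‖ ≤ 1) (ρ : ℝ) (hρ : 0 ≤ ρ)
    (hN : NoAPH G δ X ω E ρ) (t : ℕ) (T : Finset (ZMod G))
    (hT : ∀ j ∈ T, ω j ≠ 0 ∧ (2 : ℝ) ^ t ≤ ht X (al G j) ∧ ht X (al G j) < 2 ^ (t + 1)) :
    (1 / (G : ℝ)) * ∑ j ∈ T, ‖xx G V ω E e j‖ ≤
      16 * 2 ^ t * (Real.sqrt (ρ * (nm2 G V / X)) * E.card) := by
  have hX0 : (0 : ℝ) < X := by exact_mod_cast hX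
  have hG0 : (0 : ℝ) ≤ 1 / (G : ℝ) := by positivity
  have hnm : 0 ≤ nm2 G V := mul_nonneg hG0 (Finset.sum_nonneg fun j _ => by positivity)
  set A : ℕ → ℝ := fun q => (1 / (G : ℝ)) *
    ∑ j ∈ T.filter (fun j => qd X (al G j) = q), ‖xx G V ω E e j‖ with hA
  set M : ℕ → ℝ := fun q => (1 / (G : ℝ)) *
    ∑ j ∈ T.filter (fun j => qd X (al G j) = q), ‖V j‖ ^ 2 with hM
  have hmaps : ∀ j ∈ T, qd X (al G j) ∈ Icc 1 (2 ^ (t + 1)) := by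
    intro j hj
    obtain ⟨h1, h2⟩ := qd_apd δ hδ X hX (al G j)
    obtain ⟨-, -, h3, -⟩ := hd_bd δ X (al G j) _ h1
    have h4 := ((apd_mem δ X (al G j) _).1 h1).1
    rw [h2] at h3
    have h5 : (qd X (al G j) : ℝ) ≤ 2 ^ (t + 1) := h3.trans (hT j hj).2.2.le
    exact mem_Icc.2 ⟨h4, by exact_mod_cast h5⟩
  have hsumA : (1 / (G : ℝ)) * ∑ j ∈ T, ‖xx G V ω E e j‖ = ∑ q ∈ Icc 1 (2 ^ (t + 1)), A q := by
    rw [hA, ← Finset.mul_sum, Finset.sum_fiberwise_of_maps_to hmaps]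
  have hsumM : ∑ q ∈ Icc 1 (2 ^ (t + 1)), M q ≤ nm2 G V := by
    rw [hM, ← Finset.mul_sum, Finset.sum_fiberwise_of_maps_to hmaps]
    unfold nm2
    refine mul_le_mul_of_nonneg_left ?_ hG0
    exact Finset.sum_le_sum_of_subset_of_nonneg (subset_univ _) fun j _ _ => by positivity
  have hM0 : ∀ q, 0 ≤ M q := fun q => mul_nonneg hG0 (Finset.sum_nonneg fun j _ => by positivity)
  have hAM : ∀ q, A q ^ 2 ≤ M q * (128 * (2 ^ t / X) * E.card * (ρ * E.card)) := by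
    intro q
    rcases (T.filter (fun j => qd X (al G j) = q)).eq_empty_or_nonempty with h0 | ⟨j₀, hj₀⟩
    · have hA0 : A q = 0 := by simp only [hA, h0, Finset.sum_empty, mul_zero]
      rw [hA0]
      have : 0 ≤ M q * (128 * (2 ^ t / X) * E.card * (ρ * E.card)) :=
        mul_nonneg (hM0 q) (by positivity)
      simpa using this
    · obtain ⟨hj1, hj2⟩ := mem_filter.1 hj₀
      have hsub : T.filter (fun j => qd X (al G j) = q) ⊆ Jdt G δ X ω q t := by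
        intro j hj
        obtain ⟨h1, h2⟩ := mem_filter.1 hj
        obtain ⟨h3, h4⟩ := qd_apd δ hδ X hX (al G j)
        rw [h2] at h3 h4
        obtain ⟨h5, h6, h7⟩ := hT j h1
        unfold Jdt
        rw [mem_filter]
        refine ⟨mem_univ _, h5, h3, ?_, ?_⟩
        · rw [h4]; exact h6
        · rw [h4]; exact h7
      have hm : ∀ c : ℤ, ((inAP E c q (X / (16 * 2 ^ t))).card : ℝ) ≤ ρ * E.card := by
        intro c
        obtain ⟨h3, h4⟩ := qd_apd δ hδ X hX (al G j₀)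
        rw [hj2] at h3 h4
        obtain ⟨h5, h6, h7⟩ := hT j₀ hj1
        exact hN j₀ h5 q h3 t (by rw [h4]; exact h6) (by rw [h4]; exact h7) c
      exact jsum X G hX hG δ h16 V ω hω E hE e he q t _ hm _ hsub
  have hcs : (∑ q ∈ Icc 1 (2 ^ (t + 1)), A q) ^ 2 ≤
      (2 ^ (t + 1) : ℝ) * ∑ q ∈ Icc 1 (2 ^ (t + 1)), A q ^ 2 := by
    have h := sq_sum_le_card_mul_sum_sq (s := Icc 1 (2 ^ (t + 1))) (f := A)
    rw [Nat.card_Icc, Nat.add_sub_cancel] at h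
    push_cast at h
    exact h
  have hB : (2 ^ (t + 1) : ℝ) * ∑ q ∈ Icc 1 (2 ^ (t + 1)), A q ^ 2 ≤
      (2 ^ (t + 1) : ℝ) * (nm2 G V * (128 * (2 ^ t / X) * E.card * (ρ * E.card))) := by
    refine mul_le_mul_of_nonneg_left ?_ (by positivity)
    calc ∑ q ∈ Icc 1 (2 ^ (t + 1)), A q ^ 2
        ≤ ∑ q ∈ Icc 1 (2 ^ (t + 1)), M q * (128 * (2 ^ t / X) * E.card * (ρ * E.card)) :=
          Finset.sum_le_sum fun q _ => hAM q
      _ = (∑ q ∈ Icc 1 (2 ^ (t + 1)), M q) * (128 * (2 ^ t / X) * E.card * (ρ * E.card)) := by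
          rw [Finset.sum_mul]
      _ ≤ _ := mul_le_mul_of_nonneg_right hsumM (by positivity)
  rw [hsumA]
  have hs : Real.sqrt (ρ * (nm2 G V / X)) ^ 2 = ρ * (nm2 G V / X) :=
    Real.sq_sqrt (mul_nonneg hρ (div_nonneg hnm hX0.le))
  have hfin : (2 ^ (t + 1) : ℝ) * (nm2 G V * (128 * (2 ^ t / X) * E.card * (ρ * E.card))) =
      (16 * 2 ^ t * (Real.sqrt (ρ * (nm2 G V / X)) * E.card)) ^ 2 := by
    rw [mul_pow, mul_pow, mul_pow, hs]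
    ring
  exact (abs_le_of_sq_le_sq' ((hcs.trans hB).trans hfin.le) (by positivity)).2

theorem ht_sum (X G : ℕ) [NeZero G] (hX : 1 ≤ X) (hG : 3 * X ≤ G) (δ : ℝ) (hδ : 0 ≤ δ)
    (h16 : 16 * y3 δ X ≤ X) (V ω : ZMod G → ℂ) (hω : ∀ j, ‖ω j‖ ≤ 1) (E : Finset ℕ)
    (hE : E ⊆ Icc 1 X) (e : ℕ → ℂ) (he : ∀ n, ‖e n‖ ≤ 1) (ρ : ℝ) (hρ : 0 ≤ ρ)
    (hN : NoAPH G δ X ω E ρ) :
    (1 / (G : ℝ)) * ∑ j : ZMod G, ‖xx G V ω E e j‖ / ht X (al G j) ≤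
      16 * (Nat.log 2 X + 1) * Real.sqrt (ρ * (nm2 G V / X)) * E.card := by
  classical
  have hG0 : (0 : ℝ) ≤ 1 / (G : ℝ) := by positivity
  set tj : ZMod G → ℕ := fun j => Nat.log 2 ⌊ht X (al G j)⌋₊ with htj
  set K : ℝ := Real.sqrt (ρ * (nm2 G V / X)) * E.card with hK
  have hlev : ∀ t, (1 / (G : ℝ)) * ∑ j ∈ (univ.filter (fun j => ω j ≠ 0)).filter
      (fun j => tj j = t), ‖xx G V ω E e j‖ ≤ 16 * 2 ^ t * K := by
    intro t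
    refine ksti_level X G hX hG δ hδ h16 V ω hω E hE e he ρ hρ hN t _ fun j hj => ?_
    obtain ⟨h1, h2⟩ := mem_filter.1 hj
    obtain ⟨-, h3⟩ := mem_filter.1 h1
    obtain ⟨h4, h5, -⟩ := ksti_t X δ hX hδ h16 (al G j)
    have h6 : Nat.log 2 ⌊ht X (al G j)⌋₊ = t := h2
    rw [h6] at h4 h5
    exact ⟨h3, h4, h5⟩
  have hdrop : ∑ j : ZMod G, ‖xx G V ω E e j‖ / ht X (al G j) =
      ∑ j ∈ univ.filter (fun j => ω j ≠ 0), ‖xx G V ω E e j‖ / ht X (al G j) := by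
    refine (Finset.sum_filter_of_ne fun j _ hj => ?_).symm
    intro h0
    apply hj
    unfold xx
    rw [h0, zero_mul, zero_mul, norm_zero, zero_div]
  have hmaps : ∀ j ∈ univ.filter (fun j => ω j ≠ 0), tj j ∈ range (Nat.log 2 X + 1) :=
    fun j _ => mem_range.2 (ksti_t X δ hX hδ h16 (al G j)).2.2
  rw [hdrop, ← Finset.sum_fiberwise_of_maps_to hmaps, Finset.mul_sum]
  have hterm : ∀ t ∈ range (Nat.log 2 X + 1), (1 / (G : ℝ)) *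
      ∑ j ∈ (univ.filter (fun j => ω j ≠ 0)).filter (fun j => tj j = t),
        ‖xx G V ω E e j‖ / ht X (al G j) ≤ 16 * K := by
    intro t _
    have h2t : (0 : ℝ) < 2 ^ t := by positivity
    have h1 : ∑ j ∈ (univ.filter (fun j => ω j ≠ 0)).filter (fun j => tj j = t),
        ‖xx G V ω E e j‖ / ht X (al G j) ≤
        (∑ j ∈ (univ.filter (fun j => ω j ≠ 0)).filter (fun j => tj j = t),
          ‖xx G V ω E e j‖) / 2 ^ t := by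
      rw [Finset.sum_div]
      refine Finset.sum_le_sum fun j hj => ?_
      obtain ⟨-, h2⟩ := mem_filter.1 hj
      obtain ⟨h4, -, -⟩ := ksti_t X δ hX hδ h16 (al G j)
      have h6 : Nat.log 2 ⌊ht X (al G j)⌋₊ = t := h2
      rw [h6] at h4
      exact div_le_div_of_nonneg_left (norm_nonneg _) h2t h4
    calc (1 / (G : ℝ)) * ∑ j ∈ (univ.filter (fun j => ω j ≠ 0)).filter (fun j => tj j = t),
        ‖xx G V ω E e j‖ / ht X (al G j)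
        ≤ (1 / (G : ℝ)) * ((∑ j ∈ (univ.filter (fun j => ω j ≠ 0)).filter (fun j => tj j = t),
          ‖xx G V ω E e j‖) / 2 ^ t) := mul_le_mul_of_nonneg_left h1 hG0
      _ = ((1 / (G : ℝ)) * ∑ j ∈ (univ.filter (fun j => ω j ≠ 0)).filter (fun j => tj j = t),
          ‖xx G V ω E e j‖) / 2 ^ t := by rw [mul_div_assoc]
      _ ≤ (16 * 2 ^ t * K) / 2 ^ t := by
          rw [div_le_div_iff_of_pos_right h2t]
          exact hlev t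
      _ = 16 * K := by field_simp
  refine (Finset.sum_le_sum hterm).trans ?_
  rw [Finset.sum_const, card_range, nsmul_eq_mul, hK]
  push_cast
  exact le_of_eq (by ring)

theorem ti_h (CV : ℕ) (δ η : ℝ) (hδ : 0 < δ) (hδ' : δ ≤ 1 / 2000) (hη : 0 < η) (hη' : η ≤ δ) :
    ∃ X0 : ℕ, ∀ X : ℕ, X0 ≤ X → ∀ (G : ℕ) [NeZero G], 3 * X ≤ G → ∀ V : ZMod G → ℂ,
    VBH G X CV V → ∀ ω : ZMod G → ℂ, (∀ j, ‖ω j‖ ≤ 1) → ∀ E : Finset ℕ, E ⊆ Icc 1 X →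
    (X : ℝ) ^ (1 / 2 - 2 * δ) ≤ E.card → ∀ e : ℕ → ℂ, (∀ n, ‖e n‖ ≤ 1) →
    NoAPH G δ X ω E ((X : ℝ) ^ (-η)) →
    TIH X (FF G (xx G V ω E e)) ((X : ℝ) ^ (1 - η / 4) * E.card) := by
  obtain ⟨C, hC, X1, hker⟩ := typeI_ker
  obtain ⟨X2, hX2⟩ := MP_log_pow (49 * C) (CV + 2) (ε := η / 4) (by linarith)
  refine ⟨max (max X1 X2) 4096, ?_⟩
  intro X hX G _ hG V hV ω hω E hE hcard e he hN R c y hR hc hy
  have hXX1 : X1 ≤ X := (le_max_left _ _).trans ((le_max_left _ _).trans hX)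
  have hXX2 : X2 ≤ X := (le_max_right _ _).trans ((le_max_left _ _).trans hX)
  have hX4 : 4096 ≤ X := (le_max_right _ _).trans hX
  have hX1 : 1 ≤ X := by omega
  have hXr : (4096 : ℝ) ≤ X := by exact_mod_cast hX4
  have hX0 : (0 : ℝ) < X := by linarith
  have hX1r : (1 : ℝ) ≤ X := by linarith
  have hG0 : (0 : ℝ) ≤ 1 / (G : ℝ) := by positivity
  set L := Real.log X with hL
  have hL1 : 1 ≤ L := by
    have h1 : Real.exp 1 ≤ X := by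
      have := Real.exp_one_lt_d9
      linarith
    rw [hL, ← Real.log_exp 1]
    exact Real.log_le_log (Real.exp_pos 1) h1
  have hL0 : 0 < L := by linarith
  have h16 : 16 * y3 δ X ≤ X := by
    have h1 : (16 : ℝ) ≤ (X : ℝ) ^ (1 / 3 : ℝ) := by
      have h2 : ((16 : ℝ) ^ (3 : ℝ)) ^ (1 / 3 : ℝ) ≤ (X : ℝ) ^ (1 / 3 : ℝ) := by
        refine Real.rpow_le_rpow (by positivity) ?_ (by norm_num)
        have : (16 : ℝ) ^ (3 : ℝ) = 4096 := by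
          rw [show (3 : ℝ) = ((3 : ℕ) : ℝ) by norm_num, Real.rpow_natCast]
          norm_num
        rw [this]
        exact hXr
      rw [← Real.rpow_mul (by norm_num)] at h2
      have h3 : (3 : ℝ) * (1 / 3) = 1 := by norm_num
      rw [h3, Real.rpow_one] at h2
      exact h2
    unfold y3
    calc 16 * (X : ℝ) ^ (1 / 2 + 3 * δ) ≤ (X : ℝ) ^ (1 / 3 : ℝ) * (X : ℝ) ^ (1 / 2 + 3 * δ) :=
          mul_le_mul_of_nonneg_right h1 (Real.rpow_nonneg hX0.le _)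
      _ = (X : ℝ) ^ (1 / 3 + (1 / 2 + 3 * δ)) := (Real.rpow_add hX0 _ _).symm
      _ ≤ (X : ℝ) ^ (1 : ℝ) := Real.rpow_le_rpow_of_exponent_le hX1r (by linarith)
      _ = X := Real.rpow_one _
  have hRX : R ≤ X := by
    have h1 : (R : ℝ) ≤ X := hR.trans (by
      calc (X : ℝ) ^ (2 / 5 : ℝ) ≤ (X : ℝ) ^ (1 : ℝ) :=
            Real.rpow_le_rpow_of_exponent_le hX1r (by norm_num)
        _ = X := Real.rpow_one _)
    exact_mod_cast h1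
  have hnm : 0 ≤ nm2 G V := mul_nonneg hG0 (Finset.sum_nonneg fun j _ => by positivity)
  have hE0 : (0 : ℝ) < E.card := (Real.rpow_pos_of_pos hX0 _).trans_le hcard
  -- the first part
  have hsum := ht_sum X G hX1 hG δ hδ.le h16 V ω hω E hE e he ((X : ℝ) ^ (-η))
    (Real.rpow_nonneg hX0.le _) hN
  have hlog2 : (Nat.log 2 X : ℝ) + 1 ≤ 3 * L := by
    have h1 : (2 : ℝ) ^ Nat.log 2 X ≤ X := by
      have : 2 ^ Nat.log 2 X ≤ X := Nat.pow_log_le_self 2 (by omega)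
      exact_mod_cast this
    have h2 : (Nat.log 2 X : ℝ) * Real.log 2 ≤ L := by
      have := Real.log_le_log (by positivity) h1
      rw [Real.log_pow] at this
      exact this
    have h3 : (1 / 2 : ℝ) ≤ Real.log 2 := by
      have := Real.log_two_gt_d9
      linarith
    have h4 : (0 : ℝ) ≤ (Nat.log 2 X : ℝ) := Nat.cast_nonneg _
    nlinarith
  have hsq : Real.sqrt ((X : ℝ) ^ (-η) * (nm2 G V / X)) ≤ (X : ℝ) ^ (-(η / 2)) * L ^ CV := by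
    have h1 : nm2 G V / X ≤ L ^ CV := by
      rw [div_le_iff₀ hX0]
      calc nm2 G V ≤ X * L ^ CV := hV.1
        _ = L ^ CV * X := mul_comm _ _
    have h2 : L ^ CV ≤ (L ^ CV) ^ 2 := by
      have := one_le_pow₀ (n := CV) hL1
      nlinarith
    refine Real.sqrt_le_iff.2 ⟨by positivity, ?_⟩
    rw [mul_pow, ← Real.rpow_natCast ((X : ℝ) ^ (-(η / 2))) 2, ← Real.rpow_mul hX0.le]
    have h3 : -(η / 2) * ((2 : ℕ) : ℝ) = -η := by push_cast; ring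
    rw [h3]
    exact mul_le_mul_of_nonneg_left (h1.trans h2) (Real.rpow_nonneg hX0.le _)
  have hP1 : (X : ℝ) * ((1 / (G : ℝ)) * ∑ j : ZMod G, ‖xx G V ω E e j‖ / ht X (al G j)) ≤
      48 * L ^ (CV + 1) * ((X : ℝ) ^ (1 - η / 2) * E.card) := by
    have h1 : (1 / (G : ℝ)) * ∑ j : ZMod G, ‖xx G V ω E e j‖ / ht X (al G j) ≤
        16 * (3 * L) * ((X : ℝ) ^ (-(η / 2)) * L ^ CV) * E.card := by
      refine hsum.trans ?_
      refine mul_le_mul_of_nonneg_right ?_ hE0.le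
      exact mul_le_mul (mul_le_mul_of_nonneg_left hlog2 (by norm_num)) hsq (Real.sqrt_nonneg _)
        (by positivity)
    have h2 : (X : ℝ) ^ (1 - η / 2) = X * (X : ℝ) ^ (-(η / 2)) := by
      rw [sub_eq_add_neg, Real.rpow_add hX0, Real.rpow_one]
    calc (X : ℝ) * ((1 / (G : ℝ)) * ∑ j : ZMod G, ‖xx G V ω E e j‖ / ht X (al G j))
        ≤ X * (16 * (3 * L) * ((X : ℝ) ^ (-(η / 2)) * L ^ CV) * E.card) :=
          mul_le_mul_of_nonneg_left h1 hX0.le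
      _ = _ := by rw [h2, pow_succ]; ring
  -- the second part
  have hnorm := (norms_h X G CV (by omega) hG V ω hV hω E hE e he).1
  have hsE : Real.sqrt ((X : ℝ) * E.card) ≤ (X : ℝ) ^ (1 / 4 + δ) * E.card := by
    refine Real.sqrt_le_iff.2 ⟨by positivity, ?_⟩
    rw [mul_pow, ← Real.rpow_natCast ((X : ℝ) ^ (1 / 4 + δ)) 2, ← Real.rpow_mul hX0.le]
    have h1 : (X : ℝ) = (X : ℝ) ^ ((1 / 4 + δ) * ((2 : ℕ) : ℝ)) * (X : ℝ) ^ (1 / 2 - 2 * δ) := by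
      rw [← Real.rpow_add hX0]
      have : (1 / 4 + δ) * ((2 : ℕ) : ℝ) + (1 / 2 - 2 * δ) = 1 := by push_cast; ring
      rw [this, Real.rpow_one]
    have h2 : (0 : ℝ) ≤ (X : ℝ) ^ ((1 / 4 + δ) * ((2 : ℕ) : ℝ)) := Real.rpow_nonneg hX0.le _
    calc (X : ℝ) * E.card
        = (X : ℝ) ^ ((1 / 4 + δ) * ((2 : ℕ) : ℝ)) * ((X : ℝ) ^ (1 / 2 - 2 * δ) * E.card) := by
          rw [← mul_assoc, ← h1]
      _ ≤ (X : ℝ) ^ ((1 / 4 + δ) * ((2 : ℕ) : ℝ)) * ((E.card : ℝ) * E.card) :=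
          mul_le_mul_of_nonneg_left (mul_le_mul_of_nonneg_right hcard hE0.le) h2
      _ = _ := by rw [sq]
  have hP2 : (R : ℝ) * nm1 G (xx G V ω E e) ≤ L ^ (CV + 1) * ((X : ℝ) ^ (1 - η / 2) * E.card) := by
    have h1 : (X : ℝ) ^ (2 / 5 : ℝ) * (X : ℝ) ^ (1 / 4 + δ) ≤ (X : ℝ) ^ (1 - η / 2) := by
      rw [← Real.rpow_add hX0]
      exact Real.rpow_le_rpow_of_exponent_le hX1r (by linarith)
    have h2 : L ^ CV ≤ L ^ (CV + 1) := pow_le_pow_right₀ hL1 (by omega)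
    have h3 : (0 : ℝ) ≤ (X : ℝ) ^ (2 / 5 : ℝ) := Real.rpow_nonneg hX0.le _
    have h4 : 0 ≤ nm1 G (xx G V ω E e) :=
      mul_nonneg hG0 (Finset.sum_nonneg fun j _ => norm_nonneg _)
    calc (R : ℝ) * nm1 G (xx G V ω E e)
        ≤ (X : ℝ) ^ (2 / 5 : ℝ) * (L ^ CV * ((X : ℝ) ^ (1 / 4 + δ) * E.card)) :=
          mul_le_mul hR (hnorm.trans (mul_le_mul_of_nonneg_left hsE (by positivity))) h4 h3
      _ = L ^ CV * (((X : ℝ) ^ (2 / 5 : ℝ) * (X : ℝ) ^ (1 / 4 + δ)) * E.card) := by ring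
      _ ≤ L ^ (CV + 1) * ((X : ℝ) ^ (1 - η / 2) * E.card) :=
          mul_le_mul h2 (mul_le_mul_of_nonneg_right h1 hE0.le) (by positivity) (by positivity)
  -- the kernel
  refine (typeI_exp X G hX1 _ R c hc y hy).trans ?_
  have hk : (1 / (G : ℝ)) * ∑ j : ZMod G, ‖xx G V ω E e j‖ *
      ∑ r ∈ Icc 1 R, L2G.mn ((X : ℝ) / r) ((r : ℝ) * al G j) ≤
      C * L * ((X : ℝ) * ((1 / (G : ℝ)) * ∑ j : ZMod G, ‖xx G V ω E e j‖ / ht X (al G j)) +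
        R * nm1 G (xx G V ω E e)) := by
    have h1 : ∑ j : ZMod G, ‖xx G V ω E e j‖ *
        ∑ r ∈ Icc 1 R, L2G.mn ((X : ℝ) / r) ((r : ℝ) * al G j) ≤
        ∑ j : ZMod G, ‖xx G V ω E e j‖ * (C * ((X : ℝ) / ht X (al G j) + R) * L) :=
      Finset.sum_le_sum fun j _ => mul_le_mul_of_nonneg_left (hker X hXX1 _ R hRX) (norm_nonneg _)
    refine (mul_le_mul_of_nonneg_left h1 hG0).trans (le_of_eq ?_)
    unfold nm1
    have h2 : ∑ j : ZMod G, ‖xx G V ω E e j‖ * (C * ((X : ℝ) / ht X (al G j) + R) * L) =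
        C * L * (X * ∑ j : ZMod G, ‖xx G V ω E e j‖ / ht X (al G j) +
          R * ∑ j : ZMod G, ‖xx G V ω E e j‖) := by
      rw [Finset.mul_sum, Finset.mul_sum, ← Finset.sum_add_distrib, Finset.mul_sum]
      refine Finset.sum_congr rfl fun j _ => ?_
      ring
    rw [h2]
    ring
  refine hk.trans ?_
  have hfin := hX2 X hXX2
  have hpow : (0 : ℝ) ≤ (X : ℝ) ^ (1 - η / 2) * E.card := by positivity
  calc C * L * ((X : ℝ) * ((1 / (G : ℝ)) * ∑ j : ZMod G, ‖xx G V ω E e j‖ / ht X (al G j)) +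
        R * nm1 G (xx G V ω E e))
      ≤ C * L * (48 * L ^ (CV + 1) * ((X : ℝ) ^ (1 - η / 2) * E.card) +
        L ^ (CV + 1) * ((X : ℝ) ^ (1 - η / 2) * E.card)) :=
        mul_le_mul_of_nonneg_left (add_le_add hP1 hP2) (by positivity)
    _ = (49 * C * L ^ (CV + 2)) * ((X : ℝ) ^ (1 - η / 2) * E.card) := by ring
    _ ≤ (X : ℝ) ^ (η / 4) * ((X : ℝ) ^ (1 - η / 2) * E.card) :=
        mul_le_mul_of_nonneg_right hfin hpow
    _ = (X : ℝ) ^ (1 - η / 4) * E.card := by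
        rw [← mul_assoc, ← Real.rpow_add hX0]
        congr 2
        ring

end Pool.MP_dd84fd_nt.HX
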