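import Pool.Agent.Lib.MP_dd84fd_nt.HX.PlDefs

/-!
# PL_H-Alg: the part `(n, q) = 1` of a decomposed function

`alg_I`: the left side is `∑_{l ≤ D, (l,q)=1} ∑_{k ≤ X/l, (k,q)=1} γ_l(lk) e(lkθ)` (write `n = lk`; `(n,q)=1` iff `(l,q)=(k,q)=1`; the
`l > D` vanish); `[(k,q)=1] = ∑_{g ∣ q, g ∣ k} μ(g)`, `k = g k'`, `k' ≤ (X/l)/g = X/(lg)`.
`alg_II`: write `n = mk`, `k ≤ K`; `a_m ≠ 0` forces `m ∈ MM` and `mk ≤ mK ≤ X` for all `k ≤ K`; the coefficients of
`tp K (cq q c) (mθ)` are `c_k [(k,q)=1]`.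
-/

set_option autoImplicit false

namespace Pool.MP_dd84fd_nt.HXP

open Finset Pool.MP_67663b_nt.Odd Pool.MP_dd84fd_nt.PL Pool.MP_dd84fd_nt.HX

private theorem hxAlg_mult (d t : ℕ) (hd : 0 < d) (F : ℕ → ℂ) :
    ∑ n ∈ (Icc 1 t).filter (fun n => d ∣ n), F n = ∑ k ∈ Icc 1 (t / d), F (d * k) := by
  symm
  refine sum_bij (fun k _ => d * k) ?_ ?_ ?_ ?_
  · intro k hk
    rw [mem_Icc] at hk
    rw [mem_filter, mem_Icc]
    refine ⟨⟨Nat.mul_pos hd hk.1, ?_⟩, dvd_mul_right d k⟩
    calc d * k ≤ d * (t / d) := Nat.mul_le_mul_left d hk.2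
      _ ≤ t := Nat.mul_div_le t d
  · intro k _ k' _ h
    exact Nat.eq_of_mul_eq_mul_left hd h
  · intro n hn
    rw [mem_filter, mem_Icc] at hn
    obtain ⟨k, rfl⟩ := hn.2
    refine ⟨k, ?_, rfl⟩
    rw [mem_Icc]
    constructor
    · exact Nat.pos_of_mul_pos_left hn.1.1
    · rw [Nat.le_div_iff_mul_le hd, mul_comm]
      exact hn.1.2
  · intro k _
    rfl

private theorem hxAlg_mu (q n : ℕ) (hq : 1 ≤ q) (x : ℂ) :
    (if Nat.Coprime n q then x else 0) =
      ∑ g ∈ q.divisors, if g ∣ n then ((ArithmeticFunction.moebius g : ℤ) : ℂ) * x else 0 := by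
  have h2 : ∑ g ∈ q.divisors,
      (if g ∣ n then ((ArithmeticFunction.moebius g : ℤ) : ℂ) * x else 0) =
      ((∑ d ∈ (Nat.gcd n q).divisors, ArithmeticFunction.moebius d : ℤ) : ℂ) * x := by
    rw [← Finset.sum_filter]
    push_cast
    rw [Finset.sum_mul]
    refine sum_congr ?_ fun _ _ => rfl
    ext d
    rw [mem_filter, Nat.mem_divisors, Nat.mem_divisors]
    constructor
    · rintro ⟨⟨h3, _⟩, h4⟩
      exact ⟨Nat.dvd_gcd h4 h3, Nat.gcd_ne_zero_right (by omega)⟩
    · rintro ⟨h3, _⟩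
      exact ⟨⟨h3.trans (Nat.gcd_dvd_right n q), by omega⟩, h3.trans (Nat.gcd_dvd_left n q)⟩
  have h3 : (∑ d ∈ (Nat.gcd n q).divisors, ArithmeticFunction.moebius d : ℤ) =
      if Nat.gcd n q = 1 then 1 else 0 := by
    rw [← ArithmeticFunction.coe_mul_zeta_apply, ArithmeticFunction.moebius_mul_coe_zeta,
      ArithmeticFunction.one_apply]
  rw [h2, h3]
  by_cases hc : Nat.Coprime n q
  · rw [if_pos hc, if_pos hc]
    push_cast
    ring
  · rw [if_neg hc, if_neg hc]
    push_cast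
    ring

theorem alg_I (X q D : ℕ) (hq : 1 ≤ q) (γ : ℕ → ℕ → ℝ) (hγ : ∀ l, D < l → ∀ n, γ l n = 0)
    (θ : ℝ) :
    tp X (cq q (fun n => ((∑ l ∈ n.divisors, γ l n : ℝ) : ℂ))) θ =
      ∑ g ∈ q.divisors, ((ArithmeticFunction.moebius g : ℤ) : ℂ) *
        ∑ l ∈ (Icc 1 D).filter (fun l => Nat.Coprime l q), iw X (l * g) (γ l) θ := by
  classical
  set S := (Icc 1 D).filter (fun l => Nat.Coprime l q) with hS
  -- the left side
  have h1 : ∀ n ∈ Icc 1 X, cq q (fun n => ((∑ l ∈ n.divisors, γ l n : ℝ) : ℂ)) n *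
      ee ((n : ℝ) * θ) = ∑ g ∈ q.divisors, ∑ l ∈ S, if l * g ∣ n then
        ((ArithmeticFunction.moebius g : ℤ) : ℂ) * (((γ l n : ℝ) : ℂ) * ee ((n : ℝ) * θ))
        else 0 := by
    intro n hn
    have hn1 := (mem_Icc.1 hn).1
    have h2 : cq q (fun n => ((∑ l ∈ n.divisors, γ l n : ℝ) : ℂ)) n * ee ((n : ℝ) * θ) =
        ∑ l ∈ S, if l ∣ n then (if Nat.Coprime n q then ((γ l n : ℝ) : ℂ) * ee ((n : ℝ) * θ)
          else 0) else 0 := by
      unfold cq
      by_cases hc : Nat.Coprime n q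
      · simp only [if_pos hc]
        rw [← sum_filter, Complex.ofReal_sum, Finset.sum_mul]
        symm
        refine sum_subset ?_ ?_
        · intro l hl
          rw [mem_filter] at hl
          exact Nat.mem_divisors.2 ⟨hl.2, by omega⟩
        · intro l hl hl'
          have hl1 := Nat.mem_divisors.1 hl
          have hl2 : D < l := by
            by_contra hcon
            apply hl'
            rw [mem_filter, hS, mem_filter, mem_Icc]
            exact ⟨⟨⟨Nat.pos_of_mem_divisors hl, by omega⟩, Nat.Coprime.coprime_dvd_left hl1.1 hc⟩,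
              hl1.1⟩
          rw [hγ l hl2 n]
          simp
      · simp only [if_neg hc, zero_mul, ite_self, sum_const_zero]
    rw [h2, sum_comm]
    refine sum_congr rfl fun l hl => ?_
    rw [hS, mem_filter] at hl
    by_cases hln : l ∣ n
    · rw [if_pos hln, hxAlg_mu q n hq]
      refine sum_congr rfl fun g hg => ?_
      have hgq := (Nat.mem_divisors.1 hg).1
      have hlg : Nat.Coprime l g := Nat.Coprime.coprime_dvd_right hgq hl.2
      by_cases hgn : g ∣ n
      · rw [if_pos hgn, if_pos (Nat.Coprime.mul_dvd_of_dvd_of_dvd hlg hln hgn)]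
      · rw [if_neg hgn, if_neg (fun h => hgn ((dvd_mul_left g l).trans h))]
    · rw [if_neg hln]
      symm
      refine sum_eq_zero fun g _ => ?_
      rw [if_neg (fun h => hln ((dvd_mul_right l g).trans h))]
  unfold tp
  rw [sum_congr rfl h1, sum_comm]
  refine sum_congr rfl fun g hg => ?_
  rw [sum_comm, mul_sum]
  refine sum_congr rfl fun l hl => ?_
  rw [hS, mem_filter, mem_Icc] at hl
  have hg0 : 0 < g := Nat.pos_of_mem_divisors hg
  rw [← sum_filter, ← mul_sum, hxAlg_mult (l * g) X (Nat.mul_pos hl.1.1 hg0)]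
  rfl

theorem alg_II (X q K : ℕ) (hq : 1 ≤ q) (MM : Finset ℕ) (a c : ℕ → ℝ)
    (hM0 : ∀ m ∈ MM, 1 ≤ m) (ha : ∀ m, a m ≠ 0 → m ∈ MM) (hK : ∀ m, a m ≠ 0 → m * K ≤ X) (θ : ℝ) :
    tp X (cq q (fun n => ((∑ m ∈ n.divisors, (if n / m ≤ K then a m * c (n / m) else 0) : ℝ) : ℂ)))
        θ =
      ∑ m ∈ MM.filter (fun m => Nat.Coprime m q),
        (a m : ℂ) * tp K (cq q (fun k => (c k : ℂ))) ((m : ℝ) * θ) := by
  classical
  have h1 : ∀ n ∈ Icc 1 X, cq q (fun n => ((∑ m ∈ n.divisors,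
      (if n / m ≤ K then a m * c (n / m) else 0) : ℝ) : ℂ)) n * ee ((n : ℝ) * θ) =
      ∑ m ∈ MM, if m ∣ n then (if Nat.Coprime n q then (if n / m ≤ K then
        (a m : ℂ) * ((c (n / m) : ℂ) * ee ((n : ℝ) * θ)) else 0) else 0) else 0 := by
    intro n hn
    have hn1 := (mem_Icc.1 hn).1
    unfold cq
    by_cases hc : Nat.Coprime n q
    · simp only [if_pos hc]
      rw [Complex.ofReal_sum, Finset.sum_mul]
      have h3 : ∀ m, ((if n / m ≤ K then a m * c (n / m) else 0 : ℝ) : ℂ) * ee ((n : ℝ) * θ) =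
          if n / m ≤ K then (a m : ℂ) * ((c (n / m) : ℂ) * ee ((n : ℝ) * θ)) else 0 := by
        intro m
        split_ifs
        · push_cast
          ring
        · simp
      simp only [h3]
      symm
      rw [← sum_filter]
      refine sum_subset ?_ ?_
      · intro m hm
        rw [mem_filter] at hm
        exact Nat.mem_divisors.2 ⟨hm.2, by omega⟩
      · intro m hm hm'
        have hm1 := Nat.mem_divisors.1 hm
        have h0 : a m = 0 := by
          by_contra hcon
          apply hm'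
          rw [mem_filter]
          exact ⟨ha m hcon, hm1.1⟩
        rw [h0]
        simp
    · simp only [if_neg hc, zero_mul, ite_self, sum_const_zero]
  unfold tp
  rw [sum_congr rfl h1, sum_comm, sum_filter]
  refine sum_congr rfl fun m hm => ?_
  have hm1 := hM0 m hm
  rw [← sum_filter, hxAlg_mult m X hm1]
  by_cases hc : Nat.Coprime m q
  · rw [if_pos hc]
    by_cases ha0 : a m = 0
    · rw [ha0]
      simp
    · have hKX : K ≤ X / m := by
        rw [Nat.le_div_iff_mul_le hm1, mul_comm]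
        exact hK m ha0
      rw [mul_sum]
      symm
      have h4 : ∀ k ∈ Icc 1 K, (a m : ℂ) * (cq q (fun k => (c k : ℂ)) k *
          ee ((k : ℝ) * ((m : ℝ) * θ))) = (if Nat.Coprime (m * k) q then
          (if m * k / m ≤ K then (a m : ℂ) * ((c (m * k / m) : ℂ) *
            ee (((m * k : ℕ) : ℝ) * θ)) else 0) else 0) := by
        intro k hk
        rw [Nat.mul_div_cancel_left k hm1, if_pos (mem_Icc.1 hk).2]
        unfold cq
        by_cases hk2 : Nat.Coprime k q
        · rw [if_pos hk2, if_pos (Nat.Coprime.mul_left hc hk2)]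
          have h5 : (k : ℝ) * ((m : ℝ) * θ) = ((m * k : ℕ) : ℝ) * θ := by
            push_cast
            ring
          rw [h5]
        · rw [if_neg hk2, if_neg (fun h => hk2 (Nat.Coprime.coprime_mul_left h))]
          simp
      rw [sum_congr rfl h4]
      refine sum_subset (Finset.Icc_subset_Icc_right hKX) ?_
      intro k _ hk'
      have hk2 : ¬ k ≤ K := by
        intro hcon
        apply hk'
        rw [mem_Icc] at *
        omega
      rw [Nat.mul_div_cancel_left k hm1, if_neg hk2, ite_self]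
  · rw [if_neg hc]
    refine sum_eq_zero fun k _ => ?_
    rw [if_neg (fun h => hc (Nat.Coprime.coprime_mul_right h))]

end Pool.MP_dd84fd_nt.HXP
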