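import Pool.Agent.Lib.MP_dd84fd_nt.HX.FaDefs

/-!
# HX-FaRiem (0.7 h): Riemann sums over a real interval

`riem_z`. `k0 = ⌈G s⌉`, `k1 = ⌊G t⌋`. If `k0 ≤ k1`: `∫_{k0/G}^{(k1+1)/G} F = Σ_{k ∈ Icc k0 k1} ∫_{k/G}^{(k+1)/G} F` (induction, or shift to natural numbers; compare `FA.riem`), each cell differs from `(1/G) F(k/G)` by at most `lam/G²`, the number of cells is
`≤ G (t - s) + 1`; `[s, t]` and `[k0/G, (k1+1)/G]` differ by two intervals of length `≤ 1/G` where `‖F‖ ≤ M`. If `k0 > k1`: `t - s < 1/G`, the sum is empty, `‖∫‖ ≤ M/G`. `0 ≤ lam`, `0 ≤ M` follow from the hypotheses.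
`grid_disc`. The `j` with `∃ z, |al j - c - z| ≤ r` are exactly the classes of the integers `k` with `|k/G - c| ≤ r`, i.e. `k ∈ Icc ⌈G(c-r)⌉ ⌊G(c+r)⌋` (`k = j.val - G z`; conversely `al (k : ZMod G) = k/G - z'`), and `k ↦ (k : ZMod G)` is injective on this
set because its diameter is `≤ 2 r G < G`; `F (al k) = F (k/G)` (period 1). Then `riem_z` with `s = c - r`, `t = c + r` and the substitution `x → c + x`.
-/

set_option autoImplicit false

namespace Pool.MP_dd84fd_nt.HX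

open Finset Pool.MP_67663b_nt.Odd Pool.MP_dd84fd_nt.En Pool.MP_dd84fd_nt.E2 Pool.MP_dd84fd_nt.LS
  Pool.MP_dd84fd_nt.GX

open Pool.MP_dd84fd_nt.L2G (nrm)

open Pool.MP_dd84fd_nt.PL (rr)

private theorem zriem_nonneg (F : ℝ → ℂ) (lam : ℝ) (hF : ∀ x y, ‖F x - F y‖ ≤ lam * |x - y|) :
    0 ≤ lam := by
  have h := (norm_nonneg _).trans (hF 1 0)
  simpa using h

private theorem zriem_cont (F : ℝ → ℂ) (lam : ℝ) (hF : ∀ x y, ‖F x - F y‖ ≤ lam * |x - y|) :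
    Continuous F := by
  have h0 := zriem_nonneg F lam hF
  have hl : LipschitzWith ⟨lam, h0⟩ F := by
    refine LipschitzWith.of_dist_le_mul ?_
    intro x y
    rw [dist_eq_norm, Real.dist_eq]
    exact hF x y
  exact hl.continuous

private theorem zriem_cell (F : ℝ → ℂ) (lam : ℝ) (hF : ∀ x y, ‖F x - F y‖ ≤ lam * |x - y|)
    (a b : ℝ) (hab : a ≤ b) :
    ‖((b - a : ℝ) : ℂ) * F a - ∫ x in a..b, F x‖ ≤ lam * (b - a) ^ 2 := by
  have hc := zriem_cont F lam hF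
  have h0 := zriem_nonneg F lam hF
  have h1 : ((b - a : ℝ) : ℂ) * F a - ∫ x in a..b, F x = ∫ x in a..b, (F a - F x) := by
    rw [intervalIntegral.integral_sub (intervalIntegrable_const) (hc.intervalIntegrable _ _),
      intervalIntegral.integral_const, Complex.real_smul]
  rw [h1]
  have h2 : ∀ x ∈ Set.uIoc a b, ‖F a - F x‖ ≤ lam * (b - a) := by
    intro x hx
    rw [Set.uIoc_of_le hab] at hx
    refine (hF a x).trans ?_
    refine mul_le_mul_of_nonneg_left ?_ h0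
    rw [abs_le]
    constructor <;> linarith [hx.1, hx.2]
  have h3 := intervalIntegral.norm_integral_le_of_norm_le_const h2
  rw [abs_of_nonneg (by linarith)] at h3
  calc _ ≤ lam * (b - a) * (b - a) := h3
    _ = lam * (b - a) ^ 2 := by ring

private theorem zriem_range (F : ℝ → ℂ) (lam : ℝ) (hF : ∀ x y, ‖F x - F y‖ ≤ lam * |x - y|)
    (G : ℕ) (hG : 0 < G) (k0 : ℤ) (n : ℕ) :
    ‖(1 / (G : ℂ)) * ∑ i ∈ range n, F (((k0 : ℝ) + i) / G) -
      ∫ x in ((k0 : ℝ) / G)..(((k0 : ℝ) + n) / G), F x‖ ≤ lam * (n : ℝ) / (G : ℝ) ^ 2 := by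
  have hc := zriem_cont F lam hF
  have hGr : (0 : ℝ) < G := by exact_mod_cast hG
  have h1 := intervalIntegral.sum_integral_adjacent_intervals (f := F) (n := n)
    (a := fun i : ℕ => ((k0 : ℝ) + i) / G) (μ := MeasureTheory.volume)
    (fun k _ => hc.intervalIntegrable _ _)
  have h2 : (∫ x in ((k0 : ℝ) / G)..(((k0 : ℝ) + n) / G), F x) =
      ∑ i ∈ range n, ∫ x in (((k0 : ℝ) + i) / G)..(((k0 : ℝ) + ((i + 1 : ℕ) : ℝ)) / G), F x := by
    rw [h1]
    simp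
  rw [h2, mul_sum, ← sum_sub_distrib]
  refine (norm_sum_le _ _).trans ?_
  have h3 : ∀ i ∈ range n, ‖1 / (G : ℂ) * F (((k0 : ℝ) + i) / G) -
      ∫ x in (((k0 : ℝ) + i) / G)..(((k0 : ℝ) + ((i + 1 : ℕ) : ℝ)) / G), F x‖ ≤
        lam / (G : ℝ) ^ 2 := by
    intro i _
    have h4 := zriem_cell F lam hF (((k0 : ℝ) + i) / G) (((k0 : ℝ) + ((i + 1 : ℕ) : ℝ)) / G)
      (by rw [div_le_div_iff_of_pos_right hGr]; push_cast; linarith)
    have h5 : (((k0 : ℝ) + ((i + 1 : ℕ) : ℝ)) / G) - (((k0 : ℝ) + i) / G) = 1 / G := by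
      push_cast
      rw [← sub_div]
      congr 1
      ring
    rw [h5] at h4
    have h6 : (((1 / G : ℝ)) : ℂ) = 1 / (G : ℂ) := by push_cast; rfl
    rw [h6] at h4
    refine h4.trans (le_of_eq ?_)
    rw [one_div, inv_pow]
    rfl
  refine (sum_le_sum h3).trans (le_of_eq ?_)
  rw [sum_const, card_range, nsmul_eq_mul]
  ring

private theorem zriem_sum (f : ℤ → ℂ) (k0 k1 : ℤ) (n : ℕ) (hn : (n : ℤ) = k1 + 1 - k0) :
    ∑ k ∈ Icc k0 k1, f k = ∑ i ∈ range n, f (k0 + i) := by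
  symm
  refine sum_nbij' (fun i : ℕ => k0 + (i : ℤ)) (fun k : ℤ => (k - k0).toNat) ?_ ?_ ?_ ?_ ?_
  · intro i hi
    have h1 := mem_range.1 hi
    exact mem_Icc.2 ⟨by omega, by omega⟩
  · intro k hk
    obtain ⟨h1, h2⟩ := mem_Icc.1 hk
    exact mem_range.2 (by omega)
  · intro i hi
    show (k0 + (i : ℤ) - k0).toNat = i
    omega
  · intro k hk
    obtain ⟨h1, h2⟩ := mem_Icc.1 hk
    show k0 + ((k - k0).toNat : ℤ) = k
    omega
  · intro i hi
    rfl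

private theorem zriem_small (F : ℝ → ℂ) (M : ℝ) (hM : ∀ x, ‖F x‖ ≤ M) (a b d : ℝ) (hab : a ≤ b)
    (hd : b - a ≤ d) (hM0 : 0 ≤ M) : ‖∫ x in a..b, F x‖ ≤ M * d := by
  have h1 := intervalIntegral.norm_integral_le_of_norm_le_const (a := a) (b := b) (f := F)
    (C := M) (fun x _ => hM x)
  rw [abs_of_nonneg (by linarith)] at h1
  exact h1.trans (mul_le_mul_of_nonneg_left hd hM0)

theorem riem_z (F : ℝ → ℂ) (lam M : ℝ) (hF : ∀ x y, ‖F x - F y‖ ≤ lam * |x - y|)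
    (hM : ∀ x, ‖F x‖ ≤ M) (G : ℕ) (hG : 0 < G) (s t : ℝ) (h : s ≤ t) :
    ‖(1 / (G : ℂ)) * ∑ k ∈ Icc ⌈(G : ℝ) * s⌉ ⌊(G : ℝ) * t⌋, F ((k : ℝ) / G) - ∫ x in s..t, F x‖ ≤
      (lam * (t - s + 1) + 3 * M) / G := by
  have hc := zriem_cont F lam hF
  have h0 := zriem_nonneg F lam hF
  have hM0 : 0 ≤ M := (norm_nonneg _).trans (hM 0)
  have hGr : (0 : ℝ) < G := by exact_mod_cast hG
  have hG1 : (1 : ℝ) ≤ G := by exact_mod_cast hG
  obtain ⟨k0, hk0⟩ : ∃ k0 : ℤ, k0 = ⌈(G : ℝ) * s⌉ := ⟨_, rfl⟩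
  obtain ⟨k1, hk1⟩ : ∃ k1 : ℤ, k1 = ⌊(G : ℝ) * t⌋ := ⟨_, rfl⟩
  have a1 : (G : ℝ) * s ≤ k0 := by rw [hk0]; exact Int.le_ceil _
  have a2 : (k0 : ℝ) < G * s + 1 := by rw [hk0]; exact Int.ceil_lt_add_one _
  have a3 : (k1 : ℝ) ≤ G * t := by rw [hk1]; exact Int.floor_le _
  have a4 : (G : ℝ) * t < k1 + 1 := by rw [hk1]; exact Int.lt_floor_add_one _
  have a5 : k0 ≤ k1 + 1 := by
    rw [hk0, Int.ceil_le]
    push_cast
    have := mul_le_mul_of_nonneg_left h hGr.le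
    linarith
  rw [← hk0, ← hk1]
  obtain ⟨n, hn⟩ : ∃ n : ℕ, (n : ℤ) = k1 + 1 - k0 := ⟨(k1 + 1 - k0).toNat, by omega⟩
  have hnR : (n : ℝ) = k1 + 1 - k0 := by
    have h2 : ((n : ℤ) : ℝ) = ((k1 + 1 - k0 : ℤ) : ℝ) := by rw [hn]
    push_cast at h2
    exact h2
  rw [zriem_sum (fun k : ℤ => F ((k : ℝ) / G)) k0 k1 n hn]
  have h3 := zriem_range F lam hF G hG k0 n
  have h4 : (k0 : ℝ) + n = k1 + 1 := by linarith
  have h5 : ∑ i ∈ range n, (fun k : ℤ => F ((k : ℝ) / G)) (k0 + i) =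
      ∑ i ∈ range n, F (((k0 : ℝ) + i) / G) := by
    refine sum_congr rfl fun i _ => ?_
    push_cast
    rfl
  rw [h5]
  rw [h4] at h3
  have b1 : s ≤ (k0 : ℝ) / G := by
    rw [le_div_iff₀ hGr]
    linarith
  have b2 : (k0 : ℝ) / G - s ≤ 1 / G := by
    rw [sub_le_iff_le_add, div_le_iff₀ hGr]
    have : (1 / (G : ℝ) + s) * G = 1 + G * s := by field_simp
    rw [this]
    linarith
  have b3 : t ≤ ((k1 : ℝ) + 1) / G := by
    rw [le_div_iff₀ hGr]
    linarith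
  have b4 : ((k1 : ℝ) + 1) / G - t ≤ 1 / G := by
    rw [sub_le_iff_le_add, div_le_iff₀ hGr]
    have : (1 / (G : ℝ) + t) * G = 1 + G * t := by field_simp
    rw [this]
    linarith
  have h6 := zriem_small F M hM s ((k0 : ℝ) / G) (1 / G) b1 b2 hM0
  have h7 := zriem_small F M hM t (((k1 : ℝ) + 1) / G) (1 / G) b3 b4 hM0
  have h8 : (∫ x in s..t, F x) = (∫ x in s..((k0 : ℝ) / G), F x) +
      (∫ x in ((k0 : ℝ) / G)..(((k1 : ℝ) + 1) / G), F x) -
      ∫ x in t..(((k1 : ℝ) + 1) / G), F x := by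
    have g2 := intervalIntegral.integral_add_adjacent_intervals
      (hc.intervalIntegrable (μ := MeasureTheory.volume) s t)
      (hc.intervalIntegrable (μ := MeasureTheory.volume) t (((k1 : ℝ) + 1) / G))
    rw [intervalIntegral.integral_add_adjacent_intervals (hc.intervalIntegrable _ _)
      (hc.intervalIntegrable _ _), ← g2]
    ring
  rw [h8]
  have h9 : lam * (n : ℝ) / (G : ℝ) ^ 2 ≤ lam * (t - s + 1) / G := by
    rw [div_le_div_iff₀ (by positivity) hGr]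
    have h10 : (n : ℝ) ≤ (t - s + 1) * G := by
      rw [hnR]
      nlinarith
    calc lam * (n : ℝ) * G ≤ lam * ((t - s + 1) * G) * G := by
          refine mul_le_mul_of_nonneg_right (mul_le_mul_of_nonneg_left h10 h0) hGr.le
      _ = lam * (t - s + 1) * (G : ℝ) ^ 2 := by ring
  obtain ⟨A, hA⟩ : ∃ A : ℂ, A = (1 / (G : ℂ)) * ∑ i ∈ range n, F (((k0 : ℝ) + i) / G) :=
    ⟨_, rfl⟩
  obtain ⟨B, hB⟩ : ∃ B : ℂ, B = ∫ x in ((k0 : ℝ) / G)..(((k1 : ℝ) + 1) / G), F x := ⟨_, rfl⟩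
  obtain ⟨C, hC⟩ : ∃ C : ℂ, C = ∫ x in s..((k0 : ℝ) / G), F x := ⟨_, rfl⟩
  obtain ⟨D, hD⟩ : ∃ D : ℂ, D = ∫ x in t..(((k1 : ℝ) + 1) / G), F x := ⟨_, rfl⟩
  rw [← hA, ← hB] at h3
  rw [← hC] at h6
  rw [← hD] at h7
  rw [← hA, ← hB, ← hC, ← hD]
  have e1 : A - (C + B - D) = (A - B) - C + D := by ring
  rw [e1]
  have e2 : ‖(A - B) - C + D‖ ≤ ‖A - B‖ + ‖C‖ + ‖D‖ :=
    (norm_add_le _ _).trans (add_le_add (norm_sub_le _ _) le_rfl)
  have e3 : (lam * (t - s + 1) + 3 * M) / G = lam * (t - s + 1) / G + 3 * (M * (1 / G)) := by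
    ring
  rw [e3]
  have e4 : 0 ≤ M * (1 / (G : ℝ)) := by positivity
  linarith

theorem grid_disc (F : ℝ → ℂ) (lam M : ℝ) (hper : ∀ x, F (x + 1) = F x)
    (hF : ∀ x y, ‖F x - F y‖ ≤ lam * |x - y|) (hM : ∀ x, ‖F x‖ ≤ M) (G : ℕ) [NeZero G]
    (c r : ℝ) (hr : 0 ≤ r) (hr2 : 2 * r < 1) :
    ‖(1 / (G : ℂ)) * ∑ j : ZMod G, din c r (al G j) * F (al G j) -
      ∫ x in (-r)..r, F (c + x)‖ ≤ (lam * 2 + 3 * M) / G := by
  classical
  have h0 := zriem_nonneg F lam hF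
  have hG : 0 < G := Nat.pos_of_ne_zero (NeZero.ne G)
  have hGr : (0 : ℝ) < G := by exact_mod_cast hG
  have hp : Function.Periodic F 1 := hper
  have hpz : ∀ (x : ℝ) (z : ℤ), F (x + z) = F x := by
    intro x z
    have := (hp.zsmul z) x
    simpa using this
  -- the value at the class of an integer
  have hal : ∀ k : ℤ, al G (k : ZMod G) = (k : ℝ) / G - ((k / (G : ℤ) : ℤ) : ℝ) := by
    intro k
    have h1 : (((k : ZMod G).val : ℤ)) = k % G := ZMod.val_intCast k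
    have h2 : (((k : ZMod G).val : ℤ)) = k - G * (k / G) := by
      rw [h1, Int.emod_def]
    have h3 : (((k : ZMod G).val : ℝ)) = k - G * ((k / (G : ℤ) : ℤ) : ℝ) := by
      have h4 : ((((k : ZMod G).val : ℤ)) : ℝ) = ((k - G * (k / G) : ℤ) : ℝ) := by rw [h2]
      push_cast at h4
      rw [← h4]
    unfold al
    rw [h3, sub_div, mul_div_cancel_left₀ _ hGr.ne']
  have hmem : ∀ k : ℤ, k ∈ Icc ⌈(G : ℝ) * (c - r)⌉ ⌊(G : ℝ) * (c + r)⌋ ↔
      |(k : ℝ) / G - c| ≤ r := by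
    intro k
    rw [mem_Icc, Int.ceil_le, Int.le_floor, abs_le]
    have e1 : -r ≤ (k : ℝ) / G - c ↔ (G : ℝ) * (c - r) ≤ k := by
      rw [show (-r ≤ (k : ℝ) / G - c) ↔ c - r ≤ (k : ℝ) / G by
        constructor <;> intro h <;> linarith, le_div_iff₀ hGr, mul_comm]
    have e2 : (k : ℝ) / G - c ≤ r ↔ (k : ℝ) ≤ (G : ℝ) * (c + r) := by
      rw [show ((k : ℝ) / G - c ≤ r) ↔ (k : ℝ) / G ≤ c + r by
        constructor <;> intro h <;> linarith, div_le_iff₀ hGr, mul_comm]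
    rw [e1, e2]
  have key : ∑ j : ZMod G, din c r (al G j) * F (al G j) =
      ∑ k ∈ Icc ⌈(G : ℝ) * (c - r)⌉ ⌊(G : ℝ) * (c + r)⌋, F ((k : ℝ) / G) := by
    have h1 : ∑ j : ZMod G, din c r (al G j) * F (al G j) =
        ∑ j ∈ univ.filter (fun j : ZMod G => ∃ z : ℤ, |al G j - c - z| ≤ r), F (al G j) := by
      rw [sum_filter]
      refine sum_congr rfl fun j _ => ?_
      unfold din
      split_ifs <;> simp
    rw [h1]
    symm
    refine sum_nbij (fun k : ℤ => (k : ZMod G)) ?_ ?_ ?_ ?_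
    · intro k hk
      rw [hmem] at hk
      refine mem_filter.2 ⟨mem_univ _, -(k / (G : ℤ)), ?_⟩
      have h2 : al G (k : ZMod G) - c - ((-(k / (G : ℤ)) : ℤ) : ℝ) = (k : ℝ) / G - c := by
        rw [hal]
        push_cast
        ring
      show |al G (k : ZMod G) - c - ((-(k / (G : ℤ)) : ℤ) : ℝ)| ≤ r
      rw [h2]
      exact hk
    · intro k hk k' hk' h2
      rw [mem_coe, hmem, abs_le] at hk hk'
      have h3 : (k : ZMod G) = (k' : ZMod G) := h2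
      rw [ZMod.intCast_eq_intCast_iff_dvd_sub] at h3
      have h4 : |k' - k| < (G : ℤ) := by
        have h5 : |((k' : ℝ) - k) / G| < 1 := by
          rw [sub_div, abs_lt]
          constructor <;> linarith [hk.1, hk.2, hk'.1, hk'.2]
        rw [abs_div, abs_of_pos hGr, div_lt_one hGr] at h5
        exact_mod_cast h5
      have h6 := Int.eq_zero_of_abs_lt_dvd h3 h4
      omega
    · intro j hj
      rw [mem_coe, mem_filter] at hj
      obtain ⟨-, z, hz⟩ := hj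
      refine ⟨(j.val : ℤ) - G * z, ?_, ?_⟩
      · rw [mem_coe, hmem]
        have h2 : ((((j.val : ℤ) - G * z : ℤ)) : ℝ) / G - c = al G j - c - z := by
          unfold al
          push_cast
          rw [sub_div, mul_div_cancel_left₀ _ hGr.ne']
          ring
        rw [h2]
        exact hz
      · show ((((j.val : ℤ) - G * z : ℤ)) : ZMod G) = j
        push_cast
        simp
    · intro k hk
      show F ((k : ℝ) / G) = F (al G (k : ZMod G))
      have h2 : (k : ℝ) / G = al G (k : ZMod G) + ((k / (G : ℤ) : ℤ) : ℝ) := by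
        rw [hal]
        ring
      rw [h2, hpz]
  rw [key]
  have h1 := riem_z F lam M hF hM G hG (c - r) (c + r) (by linarith)
  have h2 : (∫ x in (-r)..r, F (c + x)) = ∫ x in (c - r)..(c + r), F x := by
    rw [intervalIntegral.integral_comp_add_left (fun x => F x) c, ← sub_eq_add_neg]
  rw [h2]
  refine h1.trans ?_
  refine div_le_div_of_nonneg_right ?_ hGr.le
  have h3 : lam * (c + r - (c - r) + 1) ≤ lam * 2 :=
    mul_le_mul_of_nonneg_left (by linarith) h0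
  linarith

end Pool.MP_dd84fd_nt.HX
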