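import Pool.Agent.Lib.MP_dd84fd_nt.HX.GrDefs
import Pool.Agent.Lib.MP_dd84fd_nt.E2.FBound
import Pool.Agent.Lib.MP_dd84fd_nt.E2.MinorP
import Pool.Agent.Lib.MP_dd84fd_nt.PL.Overlap
import Pool.Agent.Lib.MP_dd84fd_nt.PL.Struct
import Pool.Agent.Lib.MP_dd84fd_nt.PL.Mass

/-!
# HX-GrNrm (0.5 h): coefficients and norms of `W_s = Σ (a + s f_a)(n) e(nθ)`

`coef_le`: `|an| ≤ 2^22` (`AnAbs`, `rg ≤ 1`), `|fa| = |1 - wD| f1 / log n ≤ (1 + C) (log X) (3/2)` (`WDabs`, `f1_le D'`, `0 ≤ f1`,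
`1/log n ≤ 3/2` for `n ≥ 2`, `fa = 0` for `n = 1` (division by `log 1 = 0`)), `wX D' X ≤ (log X)^D'` (floor); total `≤ (log X)^2` for large `X` (`MP_log_large`).
`WH_cont`: finite sum of continuous functions (unfold `ee`). `WH_per`: `ee (n (θ+1)) = ee (nθ)` (as in `PL/Mass.lean`). `WH_l2`: orthogonality on `[0,1]` (see
`PL/Mass.lean`, or `LargeSieve.int_Fs` / search `integral_norm_sq` in the library, e.g. `PL.N2_tp`, `L2` of `tp`). `WH_triv`: triangle inequality.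
-/

set_option autoImplicit false

namespace Pool.MP_dd84fd_nt.HX

open Finset Pool.MP_67663b_nt.Odd Pool.MP_dd84fd_nt.En Pool.MP_dd84fd_nt.E2 Pool.MP_dd84fd_nt.LS
open Pool.MP_dd84fd_nt.L2G (nrm)
open Pool.MP_dd84fd_nt.GX
open Pool.MP_dd84fd_nt.PL (rr Fam)

private theorem gn_ee_add (x y : ℝ) : ee (x + y) = ee x * ee y := by
  unfold ee
  rw [← Complex.exp_add]
  congr 1
  push_cast
  ring

private theorem gn_ee_cont : Continuous ee := by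
  unfold ee
  fun_prop

private theorem gn_ee_int (m : ℤ) : ee (m : ℝ) = 1 := by
  unfold ee
  have h : (2 * (Real.pi : ℂ) * ((m : ℝ) : ℂ) * Complex.I) = (m : ℂ) * (2 * Real.pi * Complex.I) := by
    push_cast
    ring
  rw [h]
  exact Complex.exp_int_mul_two_pi_mul_I m

theorem coef_le (h1 : AnAbs) (h2 : WDabs) (D' : ℕ) : ∃ X0 : ℕ, ∀ X : ℕ, X0 ≤ X → ∀ δ : ℝ, 0 < δ →
    δ ≤ 1 / 2000 → ∀ s : ℝ, |s| ≤ 1 → ∀ n ∈ Icc 1 X,
    |an δ X n + s * fa δ X (wX D' X) n| ≤ (Real.log X) ^ 2 := by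
  obtain ⟨X1, hX1⟩ := h1
  obtain ⟨C, X2, hX2⟩ := h2
  obtain ⟨X3, hX3⟩ := f1_le D'
  obtain ⟨X4, hX4⟩ := MP_log_large (2 ^ 22 + 2 * (1 + |C|) + 1)
  refine ⟨max (max X1 X2) (max X3 X4), fun X hX δ hδ hδ' s hs n hn => ?_⟩
  simp only [max_le_iff] at hX
  obtain ⟨⟨g1, g2⟩, g3, g4⟩ := hX
  have hL := hX4 X g4
  set L := Real.log (X : ℝ) with hLd
  have hC0 : 0 ≤ |C| := abs_nonneg C
  have hL0 : 0 ≤ L := by linarith
  have hL1 : 1 ≤ L := by linarith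
  have hw : ((wX D' X : ℕ) : ℝ) ≤ L ^ D' := by
    unfold wX
    exact Nat.floor_le (pow_nonneg hL0 D')
  obtain ⟨-, hf⟩ := hX3 X g3 (wX D' X) hw
  have ha := (hX1 X g1 δ hδ hδ' n hn).2
  have hwd := (hX2 X g2 δ hδ hδ').1 n hn
  have hrg : rg (zz X) n ≤ 1 := by
    unfold rg
    split_ifs <;> norm_num
  have ha1 : |an δ X n| ≤ 2 ^ 22 := ha.trans (by linarith)
  have hf0 : 0 ≤ f1 (wX D' X) n := by
    unfold f1
    split_ifs
    · positivity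
    · exact le_rfl
  have hinv : 0 ≤ (Real.log (n : ℝ))⁻¹ ∧ (Real.log (n : ℝ))⁻¹ ≤ 3 / 2 := by
    rcases Nat.lt_or_ge n 2 with h | h
    · have e1 : Real.log (n : ℝ) = 0 := by
        interval_cases n <;> simp
      rw [e1]
      norm_num
    · have e2 : (2 : ℝ) ≤ n := by exact_mod_cast h
      have e3 : Real.log 2 ≤ Real.log n := Real.log_le_log (by norm_num) e2
      have e4 := Real.log_two_gt_d9
      have e5 : 0 < Real.log (n : ℝ) := by linarith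
      refine ⟨by positivity, ?_⟩
      rw [inv_le_comm₀ e5 (by norm_num)]
      linarith
  have hfa : |fa δ X (wX D' X) n| ≤ 2 * (1 + |C|) * L := by
    unfold fa
    rw [div_eq_mul_inv, abs_mul, abs_mul, abs_of_nonneg hf0, abs_of_nonneg hinv.1]
    have e1 : |1 - wD δ X n| ≤ 1 + |C| := by
      calc |1 - wD δ X n| ≤ |(1 : ℝ)| + |wD δ X n| := abs_sub _ _
        _ ≤ 1 + |C| := by
          rw [abs_one]
          linarith [le_abs_self C]
    calc |1 - wD δ X n| * f1 (wX D' X) n * (Real.log (n : ℝ))⁻¹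
        ≤ (1 + |C|) * L * (3 / 2) :=
          mul_le_mul (mul_le_mul e1 (hf n) hf0 (by linarith)) hinv.2 hinv.1 (by positivity)
      _ ≤ 2 * (1 + |C|) * L := by nlinarith [mul_nonneg (by linarith : 0 ≤ 1 + |C|) hL0]
  calc |an δ X n + s * fa δ X (wX D' X) n|
      ≤ |an δ X n| + |s * fa δ X (wX D' X) n| := abs_add_le _ _
    _ ≤ 2 ^ 22 + 1 * (2 * (1 + |C|) * L) := by
        rw [abs_mul]
        exact add_le_add ha1 (mul_le_mul hs hfa (abs_nonneg _) (by norm_num))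
    _ ≤ 2 ^ 22 * L + 2 * (1 + |C|) * L := by nlinarith
    _ = (2 ^ 22 + 2 * (1 + |C|)) * L := by ring
    _ ≤ L * L := mul_le_mul_of_nonneg_right (by linarith) hL0
    _ = L ^ 2 := by ring

theorem WH_cont (s δ : ℝ) (w X : ℕ) : Continuous (WH s δ w X) := by
  unfold WH
  refine continuous_finsetSum _ fun k _ => ?_
  exact continuous_const.mul (gn_ee_cont.comp (continuous_const.mul continuous_id))

theorem WH_per (s δ : ℝ) (w X : ℕ) (θ : ℝ) : WH s δ w X (θ + 1) = WH s δ w X θ := by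
  unfold WH
  refine sum_congr rfl fun k _ => ?_
  rw [mul_add, mul_one, gn_ee_add]
  have := gn_ee_int (k : ℤ)
  rw [Int.cast_natCast] at this
  rw [this, mul_one]

theorem exp_l2 (X : ℕ) (c : ℕ → ℝ) :
    ∫ x in (0 : ℝ)..1, ‖∑ n ∈ Icc 1 X, (c n : ℂ) * ee ((n : ℝ) * x)‖ ^ 2 = ∑ n ∈ Icc 1 X, c n ^ 2 := by
  have h := PL.tp_l2 X (fun n => ((c n : ℝ) : ℂ))
  unfold PL.tp at h
  rw [h]
  refine sum_congr rfl fun k _ => ?_
  rw [Complex.norm_real, Real.norm_eq_abs, sq_abs]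

theorem WH_triv (h1 : AnAbs) (h2 : WDabs) (D' : ℕ) : ∃ X0 : ℕ, ∀ X : ℕ, X0 ≤ X → ∀ δ : ℝ, 0 < δ →
    δ ≤ 1 / 2000 → ∀ s : ℝ, |s| ≤ 1 → ∀ θ : ℝ, ‖WH s δ (wX D' X) X θ‖ ≤ X * (Real.log X) ^ 2 := by
  obtain ⟨X0, hX0⟩ := coef_le h1 h2 D'
  refine ⟨X0, fun X hX δ hδ hδ' s hs θ => ?_⟩
  unfold WH
  refine (norm_sum_le _ _).trans ?_
  refine (Finset.sum_le_card_nsmul _ _ ((Real.log X) ^ 2) fun k hk => ?_).trans (le_of_eq ?_)
  · rw [norm_mul, norm_ee, mul_one, Complex.norm_real, Real.norm_eq_abs]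
    exact hX0 X hX δ hδ hδ' s hs k hk
  · rw [Nat.card_Icc, nsmul_eq_mul, Nat.add_sub_cancel]

end Pool.MP_dd84fd_nt.HX
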