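import Pool.Agent.Lib.MP_dd84fd_nt.HX.GrDefs
import Pool.Agent.Lib.MP_dd84fd_nt.PL.Cover

/-!
# HX-GrCover (0.5 h): the moduli `D`, abstract version

Copy of `PL/Greedy.lean` (private lemmas `gr_card`, `md`, `md_nonneg`, `md_sum`, `md_part` and the proof of `greedy`) with the weight `w` instead of `Wt`: `m(d) = ∑_{Z < q ≤ P, d ∣ q, q ≤ Y d} w q`, `∑_d m(d) ≤ Y ∑_q w q ≤ Y W`,
`greedy_cover` for `E = {n ∈ Icc 1 X : η ≤ ∑_{d ∣ n} m(d)}`: `#D ≤ (Y W/η) log X + 1`; `m(d) > 0` gives `q > Z` with `q ≤ Y d`: `d > Z/Y`; `d ≤ P`.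
-/

set_option autoImplicit false

namespace Pool.MP_dd84fd_nt.HX

open Finset Pool.MP_67663b_nt.Odd Pool.MP_dd84fd_nt.En Pool.MP_dd84fd_nt.E2 Pool.MP_dd84fd_nt.LS
open Pool.MP_dd84fd_nt.L2G (nrm)
open Pool.MP_dd84fd_nt.GX
open Pool.MP_dd84fd_nt.PL (rr Fam)

/-- number of divisors `d` of `q` with `q / d ≤ Y` -/
private theorem gr_card (q P0 : ℕ) (Y : ℝ) (hY : 0 ≤ Y) (hq : 1 ≤ q) :
    (((Icc 1 P0).filter (fun d : ℕ => d ∣ q ∧ (q : ℝ) ≤ Y * d)).card : ℝ) ≤ Y := by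
  have h1 : ((Icc 1 P0).filter (fun d : ℕ => d ∣ q ∧ (q : ℝ) ≤ Y * d)).card ≤
      (Icc 1 ⌊Y⌋₊).card := by
    refine card_le_card_of_injOn (fun d => q / d) ?_ ?_
    · intro d hd
      rw [mem_coe, mem_filter, mem_Icc] at hd
      obtain ⟨⟨hd1, -⟩, hdq, hd3⟩ := hd
      rw [mem_coe, mem_Icc]
      have hd0 : (0 : ℝ) < d := by exact_mod_cast hd1
      refine ⟨Nat.div_pos (Nat.le_of_dvd (by omega) hdq) (by omega), ?_⟩
      refine Nat.le_floor ?_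
      rw [Nat.cast_div hdq hd0.ne', div_le_iff₀ hd0]
      exact hd3
    · intro d hd d' hd' h
      rw [mem_coe, mem_filter, mem_Icc] at hd hd'
      obtain ⟨⟨hd1, -⟩, ⟨u, hu⟩, -⟩ := hd
      obtain ⟨⟨hd1', -⟩, ⟨v, hv⟩, -⟩ := hd'
      simp only at h
      have e1 : q / d = u := by rw [hu]; exact Nat.mul_div_cancel_left u (by omega)
      have e2 : q / d' = v := by rw [hv]; exact Nat.mul_div_cancel_left v (by omega)
      have e3 : u = v := by rw [← e1, ← e2, h]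
      have hu0 : 0 < u := by
        rcases Nat.eq_zero_or_pos u with h0 | h0
        · rw [h0, mul_zero] at hu; omega
        · exact h0
      have e4 : d * u = d' * u := by rw [← hu, e3, ← hv]
      exact Nat.eq_of_mul_eq_mul_right hu0 e4
  have h2 : (((Icc 1 P0).filter (fun d : ℕ => d ∣ q ∧ (q : ℝ) ≤ Y * d)).card : ℝ) ≤
      ((Icc 1 ⌊Y⌋₊).card : ℝ) := by exact_mod_cast h1
  refine h2.trans ?_
  rw [Nat.card_Icc, Nat.add_sub_cancel]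
  exact Nat.floor_le hY

/-- the masses `m(d)` -/
private noncomputable def md (w : ℕ → ℝ) (P0 : ℕ) (Z Y : ℝ) (d : ℕ) : ℝ :=
  ∑ q ∈ (Icc 1 P0).filter (fun q : ℕ => Z < (q : ℝ) ∧ d ∣ q ∧ (q : ℝ) ≤ Y * d), w q

private theorem md_nonneg (w : ℕ → ℝ) (hw : ∀ q, 0 ≤ w q) (P0 : ℕ) (Z Y : ℝ) (d : ℕ) :
    0 ≤ md w P0 Z Y d := by
  unfold md
  exact sum_nonneg fun q _ => hw q

private theorem md_sum (w : ℕ → ℝ) (hw : ∀ q, 0 ≤ w q) (P0 : ℕ) (Z Y : ℝ) (hY : 0 ≤ Y) :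
    ∑ d ∈ Icc 1 P0, md w P0 Z Y d ≤ Y * ∑ q ∈ Icc 1 P0, w q := by
  unfold md
  calc ∑ d ∈ Icc 1 P0, ∑ q ∈ (Icc 1 P0).filter
        (fun q : ℕ => Z < (q : ℝ) ∧ d ∣ q ∧ (q : ℝ) ≤ Y * d), w q
      ≤ ∑ d ∈ Icc 1 P0, ∑ q ∈ Icc 1 P0, if d ∣ q ∧ (q : ℝ) ≤ Y * d then w q else 0 := by
        refine sum_le_sum fun d _ => ?_
        rw [← sum_filter]
        refine sum_le_sum_of_subset_of_nonneg ?_ fun q _ _ => hw q
        intro q hq
        rw [mem_filter] at hq ⊢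
        exact ⟨hq.1, hq.2.2⟩
    _ = ∑ q ∈ Icc 1 P0, ∑ d ∈ Icc 1 P0, if d ∣ q ∧ (q : ℝ) ≤ Y * d then w q else 0 := sum_comm
    _ = ∑ q ∈ Icc 1 P0, (((Icc 1 P0).filter (fun d : ℕ => d ∣ q ∧ (q : ℝ) ≤ Y * d)).card : ℝ) *
          w q := by
        refine sum_congr rfl fun q _ => ?_
        rw [← sum_filter, sum_const, nsmul_eq_mul]
    _ ≤ ∑ q ∈ Icc 1 P0, Y * w q := by
        refine sum_le_sum fun q hq => ?_
        exact mul_le_mul_of_nonneg_right (gr_card q P0 Y hY (mem_Icc.1 hq).1) (hw q)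
    _ = Y * ∑ q ∈ Icc 1 P0, w q := by rw [mul_sum]

private theorem md_part (w : ℕ → ℝ) (hw : ∀ q, 0 ≤ w q) (P0 : ℕ) (Z Y : ℝ) (n : ℕ) :
    ∑ q ∈ (Icc 1 P0).filter (fun q : ℕ => Z < (q : ℝ) ∧ (q : ℝ) ≤ Y * (Nat.gcd q n : ℝ)), w q ≤
      ∑ d ∈ (Icc 1 P0).filter (fun d => d ∣ n), md w P0 Z Y d := by
  have hmaps : ∀ q ∈ (Icc 1 P0).filter
      (fun q : ℕ => Z < (q : ℝ) ∧ (q : ℝ) ≤ Y * (Nat.gcd q n : ℝ)),
      Nat.gcd q n ∈ (Icc 1 P0).filter (fun d => d ∣ n) := by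
    intro q hq
    rw [mem_filter, mem_Icc] at hq ⊢
    obtain ⟨⟨h1, h2⟩, -⟩ := hq
    exact ⟨⟨Nat.gcd_pos_of_pos_left n (by omega), (Nat.gcd_le_left n (by omega)).trans h2⟩,
      Nat.gcd_dvd_right q n⟩
  rw [← sum_fiberwise_of_maps_to hmaps]
  refine sum_le_sum fun d _ => ?_
  unfold md
  refine sum_le_sum_of_subset_of_nonneg ?_ fun q _ _ => hw q
  intro q hq
  rw [mem_filter, mem_filter] at hq
  rw [mem_filter]
  obtain ⟨⟨h1, h2, h3⟩, h4⟩ := hq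
  refine ⟨h1, h2, ?_, ?_⟩
  · rw [← h4]
    exact Nat.gcd_dvd_left q n
  · rw [← h4]
    exact h3

theorem cover_abs (X P : ℕ) (hX : 1 ≤ X) (Z Y W η : ℝ) (w : ℕ → ℝ) (hw : ∀ q, 0 ≤ w q) (hY : 0 < Y)
    (hη : 0 < η) (hW : ∑ q ∈ Icc 1 P, w q ≤ W) : ∃ D : Finset ℕ,
    (D.card : ℝ) ≤ Y * W / η * Real.log X + 1 ∧ (∀ d ∈ D, Z < Y * (d : ℝ) ∧ d ≤ P) ∧
    ∀ n ∈ Icc 1 X, (∀ d ∈ D, ¬ d ∣ n) →
      ∑ q ∈ (Icc 1 P).filter (fun q : ℕ => Z < (q : ℝ) ∧ (q : ℝ) ≤ Y * (Nat.gcd q n : ℝ)), w q ≤ η := by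
  have hW0 : 0 ≤ W := (sum_nonneg fun q _ => hw q).trans hW
  have hL0 : 0 ≤ Real.log (X : ℝ) := Real.log_nonneg (by exact_mod_cast hX)
  have hm0 : ∀ d, 0 ≤ md w P Z Y d := fun d => md_nonneg w hw P Z Y d
  have hWW1 : ∑ d ∈ Icc 1 P, md w P Z Y d ≤ Y * W :=
    (md_sum w hw P Z Y hY.le).trans (mul_le_mul_of_nonneg_left hW hY.le)
  set E : Finset ℕ := (Icc 1 X).filter
    (fun n => η ≤ ∑ d ∈ (Icc 1 P).filter (fun d => d ∣ n), md w P Z Y d) with hE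
  obtain ⟨D, hD1, hD2, hD3⟩ := Pool.MP_dd84fd_nt.PL.greedy_cover E (Icc 1 P) (md w P Z Y) hm0
    (Y * W) η hη hWW1 (fun n hn => (mem_filter.1 hn).2)
  refine ⟨D, ?_, ?_, ?_⟩
  · have h1 : Real.log (E.card : ℝ) ≤ Real.log X := by
      have h2 : E.card ≤ X := (card_filter_le _ _).trans (by rw [Nat.card_Icc]; omega)
      rcases Nat.eq_zero_or_pos E.card with h3 | h3
      · rw [h3]
        simp only [Nat.cast_zero, Real.log_zero]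
        exact hL0
      · exact Real.log_le_log (by exact_mod_cast h3) (by exact_mod_cast h2)
    have h4 := mul_le_mul_of_nonneg_left h1 (by positivity : 0 ≤ Y * W / η)
    linarith
  · intro d hd
    have h1 := hD1 hd
    rw [mem_filter, mem_Icc] at h1
    obtain ⟨⟨h2, h3⟩, h4⟩ := h1
    refine ⟨?_, h3⟩
    have h5 : ∃ q ∈ (Icc 1 P).filter (fun q : ℕ => Z < (q : ℝ) ∧ d ∣ q ∧ (q : ℝ) ≤ Y * d),
        0 < w q := by
      by_contra hcon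
      push Not at hcon
      have h6 : md w P Z Y d ≤ 0 := by
        unfold md
        exact sum_nonpos fun q hq => hcon q hq
      linarith
    obtain ⟨q, hq, -⟩ := h5
    rw [mem_filter] at hq
    obtain ⟨-, hq1, -, hq2⟩ := hq
    exact lt_of_lt_of_le hq1 hq2
  · intro n hn hnd
    have hnE : n ∉ E := by
      intro h
      obtain ⟨d, hd, hdn⟩ := hD3 n h
      exact hnd d hd hdn
    have h1 : ∑ d ∈ (Icc 1 P).filter (fun d => d ∣ n), md w P Z Y d < η := by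
      by_contra hcon
      push Not at hcon
      exact hnE (mem_filter.2 ⟨hn, hcon⟩)
    exact (md_part w hw P Z Y n).trans h1.le

end Pool.MP_dd84fd_nt.HX
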