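import Pool.Agent.Lib.MP_dd84fd_nt.HX.GrDefs
import Pool.Agent.Lib.MP_dd84fd_nt.DivBound
import Pool.Agent.Lib.MP_dd84fd_nt.E2.MinorP

/-!
# HX-GrLight (0.4 h): the light denominators

The number of `q ∈ QQ` with `q ≤ L^K1 gcd(q,n)` is at most `τ(n) L^K1`: `q ↦ (gcd(q,n), q/gcd(q,n))` is injective into `n.divisors × Icc 1 ⌊L^K1⌋₊`. `τ(n) ≤ C n^(δ/4)`-type bound: `DivBound.div_bound k` with `k = ⌈4/δ⌉₊`:
`τ(n)^k ≤ C n ≤ C X`, so `τ(n) ≤ (C X)^(1/k) ≤ C X^(δ/4)`. Sum `≤ C X^(δ/4) L^K1 X^(1-δ) ≤ X/L^A`.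
-/

set_option autoImplicit false

namespace Pool.MP_dd84fd_nt.HX

open Finset Pool.MP_67663b_nt.Odd Pool.MP_dd84fd_nt.En Pool.MP_dd84fd_nt.E2 Pool.MP_dd84fd_nt.LS
open Pool.MP_dd84fd_nt.L2G (nrm)
open Pool.MP_dd84fd_nt.GX
open Pool.MP_dd84fd_nt.PL (rr Fam)

theorem light_h (A K1 : ℕ) (δ : ℝ) (hδ : 0 < δ) : ∃ X0 : ℕ, ∀ X : ℕ, X0 ≤ X →
    ∀ (wt : ℕ → ℝ) (QQ : Finset ℕ), ∀ n ∈ Icc 1 X,
    (∀ q ∈ QQ, 1 ≤ q ∧ (q : ℝ) ≤ (Real.log X) ^ K1 * (Nat.gcd q n : ℝ) ∧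
      wt q ≤ (X : ℝ) ^ (1 - δ)) → ∑ q ∈ QQ, wt q ≤ X / (Real.log X) ^ A := by
  set k : ℕ := ⌈4 / δ⌉₊ with hk
  have hk4 : 4 ≤ δ * k := by
    have h1 : 4 / δ ≤ k := Nat.le_ceil _
    rw [div_le_iff₀ hδ] at h1
    linarith
  have hk0 : k ≠ 0 := by
    intro h
    rw [h] at hk4
    norm_num at hk4
  obtain ⟨C, hC1, hC⟩ := Pool.Agent.Lib.MP_dd84fd_nt.DivBound.div_bound k
  obtain ⟨X1, hX1⟩ := MP_log_pow (C : ℝ) (k * (K1 + A)) (ε := 3) (by norm_num)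
  obtain ⟨X2, hX2⟩ := MP_log_large 1
  refine ⟨max (max X1 X2) 1, fun X hX wt QQ n hn hq => ?_⟩
  have hXX1 : X1 ≤ X := (le_max_left _ _).trans ((le_max_left _ _).trans hX)
  have hXX2 : X2 ≤ X := (le_max_right _ _).trans ((le_max_left _ _).trans hX)
  have hX1' : 1 ≤ X := (le_max_right _ _).trans hX
  have hXr : (1 : ℝ) ≤ X := by exact_mod_cast hX1'
  have hX0 : (0 : ℝ) < X := by linarith
  set L := Real.log X with hL
  have hL1 : 1 ≤ L := hX2 X hXX2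
  have hL0 : 0 < L := by linarith
  obtain ⟨hn1, hnX⟩ := mem_Icc.1 hn
  -- the number of denominators
  set M : ℕ := ⌊L ^ K1⌋₊ with hM
  have hcard : QQ.card ≤ n.divisors.card * M := by
    have hsub : QQ ⊆ (n.divisors ×ˢ Icc 1 M).image fun p => p.1 * p.2 := by
      intro q hqQ
      obtain ⟨hq1, hq2, -⟩ := hq q hqQ
      set g := Nat.gcd q n with hg
      have hgpos : 0 < g := Nat.gcd_pos_of_pos_left n hq1
      have hgq : g ∣ q := Nat.gcd_dvd_left q n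
      have hgn : g ∣ n := Nat.gcd_dvd_right q n
      rw [mem_image]
      refine ⟨(g, q / g), ?_, Nat.mul_div_cancel' hgq⟩
      rw [mem_product]
      refine ⟨Nat.mem_divisors.2 ⟨hgn, by omega⟩, mem_Icc.2 ⟨?_, ?_⟩⟩
      · exact Nat.div_pos (Nat.le_of_dvd hq1 hgq) hgpos
      · apply Nat.le_floor
        rw [Nat.cast_div hgq (by exact_mod_cast hgpos.ne')]
        rw [div_le_iff₀ (by exact_mod_cast hgpos)]
        exact hq2
    calc QQ.card ≤ ((n.divisors ×ˢ Icc 1 M).image fun p => p.1 * p.2).card := card_le_card hsub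
      _ ≤ (n.divisors ×ˢ Icc 1 M).card := card_image_le
      _ = n.divisors.card * M := by rw [card_product, Nat.card_Icc, Nat.add_sub_cancel]
  set τ : ℝ := (n.divisors.card : ℝ) with hτ
  have hτ0 : 0 ≤ τ := Nat.cast_nonneg _
  have hcard' : (QQ.card : ℝ) ≤ τ * L ^ K1 := by
    calc (QQ.card : ℝ) ≤ ((n.divisors.card * M : ℕ) : ℝ) := by exact_mod_cast hcard
      _ = τ * M := by push_cast; rfl
      _ ≤ τ * L ^ K1 := mul_le_mul_of_nonneg_left (Nat.floor_le (by positivity)) hτ0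
  -- the divisor bound
  have hmain : τ * L ^ (K1 + A) ≤ (X : ℝ) ^ δ := by
    have h1 : τ ^ k ≤ C * X := by
      have h2 := hC n (by omega)
      have h3 : τ ^ k ≤ C * n := by rw [hτ]; exact_mod_cast h2
      have h4 : (n : ℝ) ≤ X := by exact_mod_cast hnX
      exact h3.trans (mul_le_mul_of_nonneg_left h4 (by positivity))
    have h5 := hX1 X hXX1
    have h6 : (τ * L ^ (K1 + A)) ^ k ≤ ((X : ℝ) ^ δ) ^ k := by
      calc (τ * L ^ (K1 + A)) ^ k = τ ^ k * L ^ (k * (K1 + A)) := by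
            rw [mul_pow, ← pow_mul, mul_comm (K1 + A) k]
        _ ≤ (C * X) * L ^ (k * (K1 + A)) := mul_le_mul_of_nonneg_right h1 (by positivity)
        _ = (C * L ^ (k * (K1 + A))) * X := by ring
        _ ≤ (X : ℝ) ^ (3 : ℝ) * X := mul_le_mul_of_nonneg_right h5 hX0.le
        _ = (X : ℝ) ^ (4 : ℝ) := by
            have h7 : (X : ℝ) = (X : ℝ) ^ (1 : ℝ) := (Real.rpow_one _).symm
            conv_lhs => rw [h7]
            rw [← Real.rpow_mul hX0.le, ← Real.rpow_add hX0]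
            norm_num
        _ ≤ (X : ℝ) ^ (δ * k) := Real.rpow_le_rpow_of_exponent_le hXr hk4
        _ = ((X : ℝ) ^ δ) ^ k := by rw [Real.rpow_mul hX0.le, Real.rpow_natCast]
    exact le_of_pow_le_pow_left₀ hk0 (by positivity) h6
  calc ∑ q ∈ QQ, wt q ≤ ∑ q ∈ QQ, (X : ℝ) ^ (1 - δ) := sum_le_sum fun q h => (hq q h).2.2
    _ = QQ.card * (X : ℝ) ^ (1 - δ) := by rw [sum_const, nsmul_eq_mul]
    _ ≤ (τ * L ^ K1) * (X : ℝ) ^ (1 - δ) := mul_le_mul_of_nonneg_right hcard' (by positivity)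
    _ ≤ X / L ^ A := by
        rw [le_div_iff₀ (by positivity)]
        calc τ * L ^ K1 * (X : ℝ) ^ (1 - δ) * L ^ A = (τ * L ^ (K1 + A)) * (X : ℝ) ^ (1 - δ) := by
              rw [pow_add]; ring
          _ ≤ (X : ℝ) ^ δ * (X : ℝ) ^ (1 - δ) := mul_le_mul_of_nonneg_right hmain (by positivity)
          _ = X := by rw [← Real.rpow_add hX0]; norm_num

end Pool.MP_dd84fd_nt.HX
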