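import Pool.Agent.Lib.MP_dd84fd_nt.HX.GrNrm

/-!
# HX-GrSmall (0.5 h): the small denominators

`A2 = A + 2K + K2 + 6`, `MajH A2 (K + K2 + 2)` gives `D0`. For `q ≤ L^K`, `a ∈ rr q`, `|x| ≤ 2 L^K2/X`: `θ = a/q + x` satisfies `Ht (L^(K+K2+2)) X θ`: `(q, a)`: `Int.gcd a q = 1`, `q (1 + X|x|) ≤ L^K (1 + 2 L^K2) ≤ L^(K+K2+2)`.
So `‖W_-‖ ≤ X/L^A2`, `‖W_+‖ ≤ X L²` (`WH_triv`), `arcI ≤ (4 L^K2/X)(X/L^A2)(X L²)`; at most `L^K · L^K` pairs: `≤ 4 X L^(2K + K2 + 2 - A2) ≤ X/L^A`. (Model: `PL/SmallM.lean`.) `arcI_nonneg`.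
-/

set_option autoImplicit false

namespace Pool.MP_dd84fd_nt.HX

open Finset Pool.MP_67663b_nt.Odd Pool.MP_dd84fd_nt.En Pool.MP_dd84fd_nt.E2 Pool.MP_dd84fd_nt.LS
open Pool.MP_dd84fd_nt.L2G (nrm)
open Pool.MP_dd84fd_nt.GX
open Pool.MP_dd84fd_nt.PL (rr Fam)

theorem arcI_nonneg (δ : ℝ) (w X : ℕ) (r c : ℝ) (hr : 0 ≤ r) : 0 ≤ arcI δ w X r c := by
  unfold arcI
  have h : -r / (X : ℝ) ≤ r / X := by
    rw [neg_div]
    have : 0 ≤ r / (X : ℝ) := by positivity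
    linarith
  exact intervalIntegral.integral_nonneg h fun x _ => by positivity

theorem small_h (h : MajH) (h1 : AnAbs) (h2 : WDabs) (A K K2 : ℕ) : ∃ D0 : ℕ, ∀ D' : ℕ, D0 ≤ D' →
    ∀ δ : ℝ, 0 < δ → δ ≤ 1 / 2000 → ∃ X0 : ℕ, ∀ X : ℕ, X0 ≤ X →
    ∑ q ∈ Icc 1 ⌊(Real.log X) ^ K⌋₊, WtH δ (wX D' X) X (2 * (Real.log X) ^ K2) q ≤
      X / (Real.log X) ^ A := by
  obtain ⟨D0, hD0⟩ := h (A + 2 * K + K2 + 6) (K + K2 + 2)
  refine ⟨D0, fun D' hD' δ hδ hδ' => ?_⟩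
  obtain ⟨X1, hX1⟩ := hD0 D' hD' δ hδ hδ'
  obtain ⟨X2, hX2⟩ := WH_triv h1 h2 D'
  refine ⟨max (max X1 X2) ⌈Real.exp 2⌉₊, ?_⟩
  intro X hX
  have hXX1 : X1 ≤ X := (le_max_left _ _).trans ((le_max_left _ _).trans hX)
  have hXX2 : X2 ≤ X := (le_max_right _ _).trans ((le_max_left _ _).trans hX)
  have hXe : Real.exp 2 ≤ (X : ℝ) := Nat.ceil_le.mp ((le_max_right _ _).trans hX)
  have hX0 : (0 : ℝ) < X := lt_of_lt_of_le (Real.exp_pos 2) hXe
  have hL : 2 ≤ Real.log (X : ℝ) := by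
    rw [Real.le_log_iff_exp_le hX0]
    exact hXe
  have hWm := hX1 X hXX1
  have hWp := hX2 X hXX2 δ hδ hδ' 1 (by simp)
  set L := Real.log (X : ℝ) with hLdef
  have hL0 : 0 < L := by linarith
  set C : ℝ := X / L ^ (A + 2 * K + K2 + 6) * (X * L ^ 2) with hC
  have hC0 : 0 ≤ C := by positivity
  have hfl : (⌊L ^ K⌋₊ : ℝ) ≤ L ^ K := Nat.floor_le (by positivity)
  have hWt : ∀ q ∈ Icc 1 ⌊L ^ K⌋₊, WtH δ (wX D' X) X (2 * L ^ K2) q ≤
      L ^ K * (C * (4 * (L ^ K2 / X))) := by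
    intro q hq
    have hq1 : 1 ≤ q := (mem_Icc.1 hq).1
    have hqK : (q : ℝ) ≤ L ^ K := (Nat.le_floor_iff (by positivity)).1 (mem_Icc.1 hq).2
    have hq0 : (0 : ℝ) < q := by exact_mod_cast hq1
    unfold WtH arcI
    have h3 : ∀ a ∈ rr q, ∫ x in (-(2 * L ^ K2) / X)..(2 * L ^ K2 / X),
        ‖WH (-1) δ (wX D' X) X ((a : ℝ) / q + x)‖ * ‖WH 1 δ (wX D' X) X ((a : ℝ) / q + x)‖ ≤
        C * (4 * (L ^ K2 / X)) := by
      intro a ha
      have hco : Nat.Coprime a q := (mem_filter.1 ha).2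
      have hle : -(2 * L ^ K2) / (X : ℝ) ≤ 2 * L ^ K2 / X := by
        rw [neg_div]
        have : 0 ≤ 2 * L ^ K2 / (X : ℝ) := by positivity
        linarith
      have h4 := intervalIntegral.norm_integral_le_of_norm_le_const (a := -(2 * L ^ K2) / X)
        (b := 2 * L ^ K2 / X) (C := C) (f := fun x : ℝ =>
          ‖WH (-1) δ (wX D' X) X ((a : ℝ) / q + x)‖ * ‖WH 1 δ (wX D' X) X ((a : ℝ) / q + x)‖)
        (fun x hx => by
          rw [norm_mul, norm_norm, norm_norm]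
          rw [Set.uIoc_of_le hle] at hx
          have hx1 : |x| ≤ 2 * L ^ K2 / X := by
            rw [abs_le]
            refine ⟨?_, hx.2⟩
            have := hx.1.le
            rwa [neg_div] at this
          refine mul_le_mul (hWm _ ⟨q, (a : ℤ), hq1, ?_, ?_⟩) (hWp _) (norm_nonneg _)
            (by positivity)
          · rw [Int.gcd_natCast_natCast]
            exact hco
          · have e1 : (a : ℝ) / q + x - ((a : ℤ) : ℝ) / (q : ℝ) = x := by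
              rw [Int.cast_natCast]
              ring
            rw [e1]
            have e2 : (X : ℝ) * |x| ≤ 2 * L ^ K2 := by
              calc (X : ℝ) * |x| ≤ X * (2 * L ^ K2 / X) :=
                    mul_le_mul_of_nonneg_left hx1 hX0.le
                _ = 2 * L ^ K2 := by field_simp
            have e3 : (1 : ℝ) ≤ L ^ K2 := one_le_pow₀ (by linarith)
            calc (q : ℝ) * (1 + X * |x|) ≤ L ^ K * (1 + 2 * L ^ K2) :=
                  mul_le_mul hqK (by linarith) (by positivity) (by positivity)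
              _ ≤ L ^ K * (L ^ K2 * L ^ 2) := by
                  refine mul_le_mul_of_nonneg_left ?_ (by positivity)
                  have e4 : (4 : ℝ) ≤ L ^ 2 := by nlinarith
                  nlinarith
              _ = L ^ (K + K2 + 2) := by ring)
      have h5 : |2 * L ^ K2 / (X : ℝ) - -(2 * L ^ K2) / X| = 4 * (L ^ K2 / X) := by
        rw [neg_div, sub_neg_eq_add, abs_of_nonneg (by positivity)]
        ring
      rw [h5] at h4
      exact (le_abs_self _).trans h4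
    refine (Finset.sum_le_card_nsmul _ _ _ h3).trans ?_
    rw [nsmul_eq_mul]
    refine mul_le_mul_of_nonneg_right ?_ (by positivity)
    have h4 : (rr q).card ≤ q := by
      unfold rr
      exact (card_filter_le _ _).trans (le_of_eq (card_range q))
    have h6 : ((rr q).card : ℝ) ≤ q := by exact_mod_cast h4
    exact h6.trans hqK
  refine (Finset.sum_le_card_nsmul _ _ _ hWt).trans ?_
  rw [nsmul_eq_mul, Nat.card_Icc, Nat.add_sub_cancel]
  have h7 : (⌊L ^ K⌋₊ : ℝ) * (L ^ K * (C * (4 * (L ^ K2 / X)))) ≤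
      L ^ K * (L ^ K * (C * (4 * (L ^ K2 / X)))) :=
    mul_le_mul_of_nonneg_right hfl (by positivity)
  refine h7.trans ?_
  have h8 : L ^ K * (L ^ K * (C * (4 * (L ^ K2 / X)))) = 4 * X / (L ^ A * L ^ 4) := by
    rw [hC]
    have e1 : L ^ (A + 2 * K + K2 + 6) = L ^ A * L ^ K * L ^ K * L ^ K2 * L ^ 4 * L ^ 2 := by ring
    rw [e1]
    have : L ≠ 0 := hL0.ne'
    field_simp
  rw [h8, div_le_div_iff₀ (by positivity) (by positivity)]
  have h9 : (4 : ℝ) ≤ L ^ 4 := by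
    calc (4 : ℝ) ≤ 2 ^ 4 := by norm_num
      _ ≤ L ^ 4 := pow_le_pow_left₀ (by norm_num) hL 4
  calc 4 * (X : ℝ) * L ^ A = X * L ^ A * 4 := by ring
    _ ≤ X * L ^ A * L ^ 4 := mul_le_mul_of_nonneg_left h9 (by positivity)
    _ = X * (L ^ A * L ^ 4) := by ring

end Pool.MP_dd84fd_nt.HX
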