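import Pool.Agent.Lib.MP_dd84fd_nt.HX.GrLS
import Pool.Agent.Lib.MP_dd84fd_nt.HX.GrFrac

/-!
# HX-CeMain (0.4 h): the centre

`A0 = A + 6`, `r = 1/L^A0`. If `QQ = ∅` the sum is `0`. Otherwise `1 ≤ lcm(q,q) ≤ N`. `Finset.sum_sigma'`: the sum is `∑_{(q,a)} arcI δ w X r (a/q)` (`arcI` has the bounds `-r/X`, `r/X`;
`1/L^A0/X`: same expression), `ls_arcs` with `ρ = 1/N` (`fr_dist`, `lcm ≤ N`; `ρ ≤ 1`), `1/ρ = N ≤ X`: `≤ 2r/X · 14 X · X L^4 = 28 X L^(4 - A0) ≤ X/L^A` for `L ≥ 28`.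
-/

set_option autoImplicit false

namespace Pool.MP_dd84fd_nt.HX

open Finset Pool.MP_67663b_nt.Odd Pool.MP_dd84fd_nt.En Pool.MP_dd84fd_nt.E2 Pool.MP_dd84fd_nt.LS
open Pool.MP_dd84fd_nt.L2G (nrm)
open Pool.MP_dd84fd_nt.GX
open Pool.MP_dd84fd_nt.PL (rr Fam)

theorem centre_h (h1 : AnAbs) (h2 : WDabs) : CentreH := by
  intro A
  refine ⟨A + 6, fun δ D' hδ hδ' hD => ?_⟩
  obtain ⟨X1, hX1⟩ := ls_arcs h1 h2 D'
  obtain ⟨X2, hX2⟩ := MP_log_large 28
  refine ⟨max (max X1 X2) 1, fun X hX QQ N hQ hl hN => ?_⟩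
  simp only [max_le_iff] at hX
  obtain ⟨⟨g1, g2⟩, g3⟩ := hX
  have hL := hX2 X g2
  set L := Real.log (X : ℝ) with hLd
  have hL0 : 0 < L := by linarith
  have hXp : (0 : ℝ) < X := by exact_mod_cast g3
  rcases QQ.eq_empty_or_nonempty with h0 | ⟨q0, hq0⟩
  · rw [h0, sum_empty]
    positivity
  have hN1 : 1 ≤ N := by
    have h3 := hl q0 hq0 q0 hq0
    rw [Nat.lcm_self] at h3
    have h4 : (1 : ℝ) ≤ q0 := by exact_mod_cast hQ q0 hq0
    linarith
  have hN0 : 0 < N := by linarith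
  have key := hX1 X g1 δ hδ hδ' (1 / L ^ (A + 6)) (by positivity) (QQ.sigma rr)
    (fun p => (p.2 : ℝ) / p.1) (1 / N) (by positivity) (by
      rw [div_le_one hN0]
      exact hN1) (by
      rintro ⟨q, a⟩ hp ⟨q', a'⟩ hp' hne z
      rw [mem_sigma] at hp hp'
      simp only at hp hp'
      have h5 := fr_dist (hQ q hp.1) (hQ q' hp'.1) hp.2 hp'.2 (by
        rintro ⟨e1, e2⟩
        apply hne
        rw [e1, e2]) z
      refine le_trans ?_ h5
      have h6 : (0 : ℝ) < (Nat.lcm q q' : ℝ) := by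
        have := hQ q hp.1
        have := hQ q' hp'.1
        exact_mod_cast Nat.lcm_pos (by omega) (by omega)
      exact one_div_le_one_div_of_le h6 (hl q hp.1 q' hp'.1))
  rw [Finset.sum_sigma] at key
  simp only at key
  unfold arcI at key
  refine key.trans ?_
  have h7 : 1 / (1 / N) + 13 * (X : ℝ) ≤ 14 * X := by
    rw [one_div_one_div]
    linarith
  calc 2 * (1 / L ^ (A + 6)) / X * ((1 / (1 / N) + 13 * X) * (X * L ^ 4))
      ≤ 2 * (1 / L ^ (A + 6)) / X * ((14 * X) * (X * L ^ 4)) := by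
        refine mul_le_mul_of_nonneg_left ?_ (by positivity)
        exact mul_le_mul_of_nonneg_right h7 (by positivity)
    _ = 28 * X / L ^ (A + 2) := by
        have : L ≠ 0 := hL0.ne'
        have : (X : ℝ) ≠ 0 := hXp.ne'
        field_simp
        ring
    _ ≤ X / L ^ A := by
        rw [div_le_div_iff₀ (by positivity) (by positivity), pow_add]
        have h8 : (28 : ℝ) ≤ L ^ 2 := by nlinarith
        have h9 : 0 ≤ X * L ^ A := by positivity
        nlinarith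

end Pool.MP_dd84fd_nt.HX
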