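import Pool.Agent.Lib.MP_dd84fd_nt.HX.DcRg
import Pool.Agent.Lib.MP_dd84fd_nt.HX.Iface

/-!
# HX-DcAbs (0.6 h): bounds for `D`, `a`; the support of `D`

Proof. `|vv δ X m k| ≤ 3 * 2^20 * rg (zz X) k` for `k ∈ Icc 1 X` (`rg_divisors`: `card k.divisors ≤ 2^20` when `rg ≠ 0`; `c2_le`; the two indicators are `≤ 1`, `|μ| ≤ 1`). `|Dn n| ≤ Σ_{m ∣ n} Λ(m) rg m * 3 * 2^20 rg (n/m) = 3 * 2^20 rg n log n`
(`rg_mul`, `ArithmeticFunction.vonMangoldt_sum`). `|aL| ≤ log n + 3 * 2^20 log n` times `rg n` (`Λ(n) ≤ log n`); divide by `log n` (`n = 1`: `an = 0`).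
`dn_gap`: `Dn ≠ 0`: there is `m ∣ n` with `Λ(m) rg m vv m (n/m) ≠ 0`; so `rg (n/m) ≠ 0`, `rg n ≠ 0` (`n` rough; every divisor of `n` is rough); either `y2 < m ≤ y3`: `c = m`; or some `d ∣ n / m`, `d ≤ U`, `m ≤ U` with `y2 < d m ≤ y3`: `c = d m ∣ n`;
or `(n/m)/d ≤ U`, `c = (n/m)/d = n / (d m) ≥ n / U² ≥ X^(1-δ) / X^(2/3+6δ) = X^(1/3-7δ)`, `c ≤ U ≤ X^(1/3+3δ)`.
-/

set_option autoImplicit false

namespace Pool.MP_dd84fd_nt.HX

open Finset

open ArithmeticFunction in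
private theorem ind_le (p : Prop) : 0 ≤ ind p ∧ ind p ≤ 1 := by
  unfold ind
  split_ifs <;> norm_num

private theorem ind_ne {p : Prop} (h : ind p ≠ 0) : p := by
  unfold ind at h
  by_contra hp
  simp [hp] at h

private theorem mu_le (d : ℕ) : |((ArithmeticFunction.moebius d : ℤ) : ℝ)| ≤ 1 := by
  have h := ArithmeticFunction.abs_moebius_le_one (n := d)
  exact_mod_cast h

private theorem vv_le : ∃ X0 : ℕ, ∀ X : ℕ, X0 ≤ X → ∀ δ : ℝ, ∀ m : ℝ, ∀ k ∈ Icc 1 X,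
    |vv δ X m k| ≤ 3 * 2 ^ 20 * rg (zz X) k := by
  obtain ⟨X0, hX0⟩ := rg_divisors
  refine ⟨X0, fun X hX δ m k hk => ?_⟩
  unfold vv
  by_cases hr : Rgh (zz X) k
  · have hd : ((k.divisors.card : ℕ) : ℝ) ≤ 2 ^ 20 := by exact_mod_cast hX0 X hX k hk hr
    have hrg : rg (zz X) k = 1 := by
      unfold rg
      rw [if_pos hr]
    rw [hrg, one_mul, mul_one]
    have h1 : |-Pool.BV.c2 (Uu δ X) k * ind (y2 δ X < m ∧ m ≤ y3 δ X ∧ Uu δ X < k)| ≤ 2 ^ 20 := by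
      rw [abs_mul, abs_neg]
      obtain ⟨h2, h3⟩ := ind_le (y2 δ X < m ∧ m ≤ y3 δ X ∧ Uu δ X < k)
      rw [abs_of_nonneg h2]
      have h4 := c2_le (Uu δ X) k
      calc |Pool.BV.c2 (Uu δ X) k| * ind (y2 δ X < m ∧ m ≤ y3 δ X ∧ Uu δ X < k) ≤
          (k.divisors.card : ℝ) * 1 := mul_le_mul h4 h3 h2 (by positivity)
        _ ≤ 2 ^ 20 := by linarith
    have h2 : |∑ d ∈ k.divisors.filter (fun d => d ≤ Uu δ X),
        ((ArithmeticFunction.moebius d : ℤ) : ℝ) *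
          (ind (m ≤ Uu δ X ∧ y2 δ X < d * m ∧ d * m ≤ y3 δ X) +
            ind (m ≤ Uu δ X ∧ y3 δ X < d * m ∧ k / d ≤ Uu δ X))| ≤ 2 * 2 ^ 20 := by
      refine (abs_sum_le_sum_abs _ _).trans ?_
      have h3 : ∀ d ∈ k.divisors.filter (fun d => d ≤ Uu δ X),
          |((ArithmeticFunction.moebius d : ℤ) : ℝ) *
          (ind (m ≤ Uu δ X ∧ y2 δ X < d * m ∧ d * m ≤ y3 δ X) +
            ind (m ≤ Uu δ X ∧ y3 δ X < d * m ∧ k / d ≤ Uu δ X))| ≤ 2 := by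
        intro d _
        obtain ⟨a1, a2⟩ := ind_le (m ≤ Uu δ X ∧ y2 δ X < d * m ∧ d * m ≤ y3 δ X)
        obtain ⟨b1, b2⟩ := ind_le (m ≤ Uu δ X ∧ y3 δ X < d * m ∧ k / d ≤ Uu δ X)
        rw [abs_mul, abs_of_nonneg (add_nonneg a1 b1)]
        calc |((ArithmeticFunction.moebius d : ℤ) : ℝ)| *
            (ind (m ≤ Uu δ X ∧ y2 δ X < d * m ∧ d * m ≤ y3 δ X) +
            ind (m ≤ Uu δ X ∧ y3 δ X < d * m ∧ k / d ≤ Uu δ X)) ≤ 1 * 2 :=
              mul_le_mul (mu_le d) (by linarith) (add_nonneg a1 b1) (by norm_num)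
          _ = 2 := by norm_num
      have h4 := sum_le_card_nsmul _ _ _ h3
      rw [nsmul_eq_mul] at h4
      refine h4.trans ?_
      have h5 : (((k.divisors.filter (fun d => d ≤ Uu δ X)).card : ℕ) : ℝ) ≤ 2 ^ 20 := by
        refine le_trans ?_ hd
        exact_mod_cast card_filter_le _ _
      linarith
    refine (abs_add_le _ _).trans ?_
    linarith
  · have hrg : rg (zz X) k = 0 := by
      unfold rg
      rw [if_neg hr]
    rw [hrg, zero_mul, mul_zero, abs_zero]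

private theorem dn_le : ∃ X0 : ℕ, ∀ X : ℕ, X0 ≤ X → ∀ δ : ℝ, ∀ n ∈ Icc 1 X,
    |Dn δ X n| ≤ 3 * 2 ^ 20 * (Real.log n * rg (zz X) n) := by
  obtain ⟨X0, hX0⟩ := vv_le
  refine ⟨X0, fun X hX δ n hn => ?_⟩
  rw [mem_Icc] at hn
  unfold Dn
  rw [abs_neg]
  refine (abs_sum_le_sum_abs _ _).trans ?_
  have h1 : ∀ m ∈ n.divisors, |ArithmeticFunction.vonMangoldt m * rg (zz X) m *
      vv δ X m (n / m)| ≤ ArithmeticFunction.vonMangoldt m * (3 * 2 ^ 20 * rg (zz X) n) := by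
    intro m hm
    rw [Nat.mem_divisors] at hm
    have hm0 : 0 < m := Nat.pos_of_dvd_of_pos hm.1 (by omega)
    have hq : n / m ∈ Icc 1 X := by
      rw [mem_Icc]
      exact ⟨Nat.div_pos (Nat.le_of_dvd (by omega) hm.1) hm0, (Nat.div_le_self _ _).trans hn.2⟩
    have h2 := hX0 X hX δ m (n / m) hq
    have h3 : rg (zz X) n = rg (zz X) m * rg (zz X) (n / m) := by
      rw [← rg_mul, Nat.mul_div_cancel' hm.1]
    have h4 := ArithmeticFunction.vonMangoldt_nonneg (n := m)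
    obtain ⟨h5, h6⟩ := rg_nonneg (zz X) m
    rw [abs_mul, abs_of_nonneg (mul_nonneg h4 h5), h3]
    calc ArithmeticFunction.vonMangoldt m * rg (zz X) m * |vv δ X m (n / m)| ≤
        ArithmeticFunction.vonMangoldt m * rg (zz X) m * (3 * 2 ^ 20 * rg (zz X) (n / m)) :=
          mul_le_mul_of_nonneg_left h2 (mul_nonneg h4 h5)
      _ = _ := by ring
  refine (sum_le_sum h1).trans ?_
  rw [← sum_mul, ArithmeticFunction.vonMangoldt_sum]
  apply le_of_eq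
  ring

theorem an_abs : AnAbs := by
  obtain ⟨X0, hX0⟩ := dn_le
  refine ⟨X0, fun X hX δ _ _ n hn => ?_⟩
  have h1 := hX0 X hX δ n hn
  have hn' := hn
  rw [mem_Icc] at hn'
  have hlog : 0 ≤ Real.log n := Real.log_natCast_nonneg n
  obtain ⟨h5, h6⟩ := rg_nonneg (zz X) n
  have h7 : 0 ≤ Real.log n * rg (zz X) n := mul_nonneg hlog h5
  refine ⟨by linarith, ?_⟩
  rcases hlog.eq_or_lt with h0 | h0
  · unfold an
    rw [← h0, div_zero, abs_zero]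
    positivity
  · unfold an
    rw [abs_div, abs_of_pos h0, div_le_iff₀ h0]
    unfold aL
    have h8 : |rg (zz X) n * ArithmeticFunction.vonMangoldt n| ≤ Real.log n * rg (zz X) n := by
      rw [abs_of_nonneg (mul_nonneg h5 ArithmeticFunction.vonMangoldt_nonneg), mul_comm]
      exact mul_le_mul_of_nonneg_right ArithmeticFunction.vonMangoldt_le_log h5
    have h9 := abs_sub (rg (zz X) n * ArithmeticFunction.vonMangoldt n) (Dn δ X n)
    linarith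

private theorem gap_arith (δ : ℝ) (X n c e : ℕ) (hX : 1 ≤ X)
    (hn : (X : ℝ) ^ (1 - δ) < n) (he : (e : ℝ) ≤ (X : ℝ) ^ (2 / 3 + 6 * δ)) (hne : n = c * e) :
    (X : ℝ) ^ (1 / 3 - 7 * δ) ≤ c := by
  have hX0 : (0 : ℝ) < X := by exact_mod_cast hX
  have h2 : (X : ℝ) ^ (1 - δ) = (X : ℝ) ^ (1 / 3 - 7 * δ) * (X : ℝ) ^ (2 / 3 + 6 * δ) := by
    rw [← Real.rpow_add hX0]
    congr 1
    ring
  have h3 : (n : ℝ) = c * e := by exact_mod_cast hne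
  have h4 : (0 : ℝ) < (X : ℝ) ^ (2 / 3 + 6 * δ) := by positivity
  by_contra hlt
  push Not at hlt
  have h5 : (c : ℝ) * e ≤ (X : ℝ) ^ (1 / 3 - 7 * δ) * (X : ℝ) ^ (2 / 3 + 6 * δ) :=
    mul_le_mul hlt.le he (by positivity) (by positivity)
  linarith

theorem dn_gap (δ : ℝ) (h0 : 0 < δ) (h1 : δ ≤ 1 / 2000) : ∃ X0 : ℕ, ∀ X : ℕ, X0 ≤ X →
    ∀ n : ℕ, n ≤ X → (X : ℝ) ^ (1 - δ) < n → Dn δ X n ≠ 0 → ∃ c, c ∣ n ∧ Gap δ X c := by
  refine ⟨1, fun X hX n hnX hn hD => ?_⟩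
  have hX0 : (0 : ℝ) < X := by exact_mod_cast hX
  have hn0 : n ≠ 0 := by
    rintro rfl
    have : (0 : ℝ) < (X : ℝ) ^ (1 - δ) := by positivity
    simp only [Nat.cast_zero] at hn
    linarith
  unfold Dn at hD
  rw [neg_ne_zero] at hD
  obtain ⟨m, hm, hm2⟩ := exists_ne_zero_of_sum_ne_zero hD
  rw [Nat.mem_divisors] at hm
  have hm0 : 0 < m := Nat.pos_of_dvd_of_pos hm.1 (by omega)
  have hvm : vv δ X m (n / m) ≠ 0 := fun h => hm2 (by rw [h, mul_zero])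
  have hrm : rg (zz X) m ≠ 0 := fun h => hm2 (by rw [h, mul_zero, zero_mul])
  unfold vv at hvm
  have hrk : rg (zz X) (n / m) ≠ 0 := fun h => hvm (by rw [h, zero_mul])
  have hv2 : -Pool.BV.c2 (Uu δ X) (n / m) * ind (y2 δ X < (m : ℝ) ∧ (m : ℝ) ≤ y3 δ X ∧
      Uu δ X < n / m) +
      ∑ d ∈ (n / m).divisors.filter (fun d => d ≤ Uu δ X),
        ((ArithmeticFunction.moebius d : ℤ) : ℝ) *
        (ind ((m : ℝ) ≤ Uu δ X ∧ y2 δ X < d * m ∧ d * m ≤ y3 δ X) +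
          ind ((m : ℝ) ≤ Uu δ X ∧ y3 δ X < d * m ∧ n / m / d ≤ Uu δ X)) ≠ 0 :=
    fun h => hvm (by rw [h, mul_zero])
  have hrn : Rgh (zz X) n := by
    have h2 : rg (zz X) n ≠ 0 := by
      rw [← Nat.mul_div_cancel' hm.1, rg_mul]
      exact mul_ne_zero hrm hrk
    by_contra h3
    apply h2
    unfold rg
    rw [if_neg h3]
  have hrc : ∀ c, c ∣ n → Rgh (zz X) c := by
    intro c hc
    refine ⟨fun h => ?_, fun p hp => ?_⟩
    · rw [h, zero_dvd_iff] at hc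
      exact hn0 hc
    · exact hrn.2 p (Nat.primeFactors_mono hc hn0 hp)
  have hU : ((Uu δ X : ℕ) : ℝ) ≤ (X : ℝ) ^ (1 / 3 + 3 * δ) := Nat.floor_le (by positivity)
  by_cases hA : -Pool.BV.c2 (Uu δ X) (n / m) * ind (y2 δ X < (m : ℝ) ∧ (m : ℝ) ≤ y3 δ X ∧
      Uu δ X < n / m) = 0
  · rw [hA, zero_add] at hv2
    obtain ⟨d, hd, hd2⟩ := exists_ne_zero_of_sum_ne_zero hv2
    rw [mem_filter, Nat.mem_divisors] at hd
    have hsum : ind ((m : ℝ) ≤ Uu δ X ∧ y2 δ X < d * m ∧ d * m ≤ y3 δ X) +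
          ind ((m : ℝ) ≤ Uu δ X ∧ y3 δ X < d * m ∧ n / m / d ≤ Uu δ X) ≠ 0 :=
      fun h => hd2 (by rw [h, mul_zero])
    have hdm : d * m ∣ n := by
      obtain ⟨t, ht⟩ := hd.1.1
      refine ⟨t, ?_⟩
      rw [← Nat.mul_div_cancel' hm.1, ht]
      ring
    by_cases hB : ind ((m : ℝ) ≤ Uu δ X ∧ y2 δ X < d * m ∧ d * m ≤ y3 δ X) = 0
    · rw [hB, zero_add] at hsum
      obtain ⟨c1, c2, c3⟩ := ind_ne hsum
      have hc : n / m / d ∣ n := (Nat.div_dvd_of_dvd hd.1.1).trans (Nat.div_dvd_of_dvd hm.1)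
      refine ⟨n / m / d, hc, hrc _ hc, Or.inr ⟨?_, ?_⟩⟩
      · refine gap_arith δ X n (n / m / d) (d * m) hX hn ?_ ?_
        · push_cast
          have h2 : (d : ℝ) ≤ (X : ℝ) ^ (1 / 3 + 3 * δ) := by
            have : (d : ℝ) ≤ Uu δ X := by exact_mod_cast hd.2
            linarith
          have h3 : (X : ℝ) ^ (2 / 3 + 6 * δ) =
              (X : ℝ) ^ (1 / 3 + 3 * δ) * (X : ℝ) ^ (1 / 3 + 3 * δ) := by
            rw [← Real.rpow_add hX0]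
            congr 1
            ring
          rw [h3]
          exact mul_le_mul h2 (c1.trans hU) (by positivity) (by positivity)
        · rw [Nat.div_div_eq_div_mul, mul_comm m d]
          exact (Nat.div_mul_cancel hdm).symm
      · have h2 : ((n / m / d : ℕ) : ℝ) ≤ Uu δ X := by exact_mod_cast c3
        linarith
    · obtain ⟨c1, c2, c3⟩ := ind_ne hB
      refine ⟨d * m, hdm, hrc _ hdm, Or.inl ⟨?_, ?_⟩⟩
      · push_cast
        exact c2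
      · push_cast
        exact c3
  · have h2 : ind (y2 δ X < (m : ℝ) ∧ (m : ℝ) ≤ y3 δ X ∧ Uu δ X < n / m) ≠ 0 :=
      fun h => hA (by rw [h, mul_zero])
    obtain ⟨c1, c2, c3⟩ := ind_ne h2
    exact ⟨m, hm.1, hrc _ hm.1, Or.inl ⟨c1, c2⟩⟩

end Pool.MP_dd84fd_nt.HX
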