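import Pool.Agent.Lib.MP_dd84fd_nt.HX.DcRg
import Pool.Agent.Lib.MP_dd84fd_nt.HX.DcEE
import Pool.Agent.Lib.BV.DivMom

/-!
# HX-DcDif (0.7 h): `TS - TB` is small in mean square

Proof. `ts_tb_pt`: `cl κ` is monotone, so the condition of `TS` implies that of `TB`. A term `l` of the difference is non-zero only if `Cnd z U Z l` (otherwise `A1 = A2 = 0`), the `TB`-condition holds and there is a prime `p ∣ n / l`, `p < q0 := (sm z l).minFac`.
`sm z l ≠ 1` (`minFac 1 = 1` contradicts `Cnd`), so `q0` is a prime factor of `sm z l`, `q0 < z` (`sm_smo`), `q0 ∣ l ∣ n`; `cl κ q0 ≤ cl κ p ≤ cl κ q0`: `EEx κ z n` with `(p, q) := (q0, p)`. Each term is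
`≤ |A1| log n + |A2| ≤ log n + (log (sm z l) + |c1 U (ro z l)|) ≤ 3 log n` (`c1_le`, `ro z l ≤ l ≤ n`), at most `#divisors` terms.
`ts_tb`: Cauchy-Schwarz: `Σ_{EE} τ² (3L)² ≤ 9 L² (#EE)^(1/2) (Σ τ⁴)^(1/2) ≤ 9 L² (4 κ X (1+L))^(1/2) (X (1+L)^C)^(1/2)` (`ee_card`, `BV.div_mom 4`).
-/

set_option autoImplicit false

namespace Pool.MP_dd84fd_nt.HX

open Finset

theorem DcDif_cl_mono (κ : ℝ) (h0 : 0 < κ) {p q : ℕ} (h : p ≤ q) : cl κ p ≤ cl κ q := by
  unfold cl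
  apply Nat.floor_le_floor
  apply div_le_div_of_nonneg_right _ h0.le
  rcases Nat.eq_zero_or_pos p with hp | hp
  · rw [hp, Nat.cast_zero, Real.log_zero]
    exact Real.log_natCast_nonneg q
  · exact Real.log_le_log (by exact_mod_cast hp) (by exact_mod_cast h)

theorem DcDif_F (z U : ℕ) (Z : ℝ) (n l : ℕ) (hn : 1 ≤ n) (hl : l ∣ n) :
    |A1 z U Z l * Real.log ((n / l : ℕ) : ℝ) + A2 z U Z l| ≤ 3 * Real.log n := by
  have hl0 : 0 < l := Nat.pos_of_dvd_of_pos hl hn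
  have hln : l ≤ n := Nat.le_of_dvd hn hl
  have hmul := ro_mul_sm z l hl0.ne'
  have hs0 : 0 < sm z l := sm_pos z l
  have hr0 : 0 < ro z l := by
    rcases Nat.eq_zero_or_pos (ro z l) with h | h
    · rw [h, zero_mul] at hmul
      omega
    · exact h
  have hsn : sm z l ≤ n := (Nat.le_of_dvd hl0 ⟨ro z l, by rw [mul_comm]; exact hmul.symm⟩).trans hln
  have hrn : ro z l ≤ n := (Nat.le_of_dvd hl0 ⟨sm z l, hmul.symm⟩).trans hln
  have hL : 0 ≤ Real.log (n : ℝ) := Real.log_natCast_nonneg n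
  have hq : Real.log ((n / l : ℕ) : ℝ) ≤ Real.log n :=
    Real.log_le_log (by exact_mod_cast Nat.div_pos hln hl0)
      (by exact_mod_cast Nat.div_le_self n l)
  have hq0 : 0 ≤ Real.log ((n / l : ℕ) : ℝ) := Real.log_natCast_nonneg _
  have hs : Real.log (sm z l : ℝ) ≤ Real.log n :=
    Real.log_le_log (by exact_mod_cast hs0) (by exact_mod_cast hsn)
  have hsl0 : 0 ≤ Real.log (sm z l : ℝ) := Real.log_natCast_nonneg _
  have hr : Real.log (ro z l : ℝ) ≤ Real.log n :=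
    Real.log_le_log (by exact_mod_cast hr0) (by exact_mod_cast hrn)
  have hA1 : |A1 z U Z l| ≤ 1 := by
    unfold A1
    split_ifs
    · exact mr_le l
    · rw [abs_zero]
      exact zero_le_one
  have hA2 : |A2 z U Z l| ≤ 2 * Real.log n := by
    unfold A2
    split_ifs
    · rw [abs_mul]
      have h1 : |mr (ro z l) * Real.log (sm z l) - Pool.BV.c1 U (ro z l)| ≤ 2 * Real.log n := by
        have h2 : |mr (ro z l) * Real.log (sm z l)| ≤ Real.log n := by
          rw [abs_mul, abs_of_nonneg hsl0]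
          calc |mr (ro z l)| * Real.log (sm z l) ≤ 1 * Real.log (sm z l) :=
                mul_le_mul_of_nonneg_right (mr_le _) hsl0
            _ ≤ Real.log n := by rw [one_mul]; exact hs
        have h3 : |Pool.BV.c1 U (ro z l)| ≤ Real.log n := (c1_le U _).trans hr
        have h4 := abs_sub (mr (ro z l) * Real.log (sm z l)) (Pool.BV.c1 U (ro z l))
        linarith
      calc _ ≤ |mr (ro z l) * Real.log (sm z l) - Pool.BV.c1 U (ro z l)| * 1 :=
            mul_le_mul_of_nonneg_left (mr_le _) (abs_nonneg _)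
        _ ≤ 2 * Real.log n := by rw [mul_one]; exact h1
    · rw [abs_zero]
      positivity
  have h5 : |A1 z U Z l * Real.log ((n / l : ℕ) : ℝ)| ≤ Real.log n := by
    rw [abs_mul, abs_of_nonneg hq0]
    calc |A1 z U Z l| * Real.log ((n / l : ℕ) : ℝ) ≤ 1 * Real.log ((n / l : ℕ) : ℝ) :=
          mul_le_mul_of_nonneg_right hA1 hq0
      _ ≤ Real.log n := by rw [one_mul]; exact hq
  have h6 := abs_add_le (A1 z U Z l * Real.log ((n / l : ℕ) : ℝ)) (A2 z U Z l)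
  linarith

open Classical in
theorem DcDif_term (κ : ℝ) (z U : ℕ) (Z : ℝ) (n l : ℕ) (hn : 1 ≤ n) (h0 : 0 < κ) (hl : l ∣ n) :
    |(if (∀ p ∈ (n / l).primeFactors, (sm z l).minFac ≤ p) then
        A1 z U Z l * Real.log ((n / l : ℕ) : ℝ) + A2 z U Z l else 0) -
      (if (∀ p ∈ (n / l).primeFactors, cl κ (sm z l).minFac ≤ cl κ p) then
        A1 z U Z l * Real.log ((n / l : ℕ) : ℝ) + A2 z U Z l else 0)| ≤
      if EEx κ z n then 3 * Real.log n else 0 := by
  have hF := DcDif_F z U Z n l hn hl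
  have hL : 0 ≤ Real.log (n : ℝ) := Real.log_natCast_nonneg n
  have hrhs : (0 : ℝ) ≤ if EEx κ z n then 3 * Real.log n else 0 := by
    split_ifs
    · positivity
    · exact le_refl _
  by_cases hS : ∀ p ∈ (n / l).primeFactors, (sm z l).minFac ≤ p
  · have hB : ∀ p ∈ (n / l).primeFactors, cl κ (sm z l).minFac ≤ cl κ p :=
      fun p hp => DcDif_cl_mono κ h0 (hS p hp)
    rw [if_pos hS, if_pos hB, sub_self, abs_zero]
    exact hrhs
  · rw [if_neg hS]
    by_cases hB : ∀ p ∈ (n / l).primeFactors, cl κ (sm z l).minFac ≤ cl κ p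
    · rw [if_pos hB, zero_sub, abs_neg]
      have hl0 : 0 < l := Nat.pos_of_dvd_of_pos hl hn
      push Not at hS
      obtain ⟨p, hp, hpq⟩ := hS
      have hpp := Nat.prime_of_mem_primeFactors hp
      have hsm1 : sm z l ≠ 1 := by
        intro h
        rw [h, Nat.minFac_one] at hpq
        have := hpp.one_lt
        omega
      have hqp : (sm z l).minFac.Prime := Nat.minFac_prime hsm1
      have hq1 : (sm z l).minFac ∈ (sm z l).primeFactors :=
        Nat.mem_primeFactors.2 ⟨hqp, Nat.minFac_dvd _, (sm_pos z l).ne'⟩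
      have hqz := sm_smo z l _ hq1
      have hsl : sm z l ∣ l := ⟨ro z l, by rw [mul_comm]; exact (ro_mul_sm z l hl0.ne').symm⟩
      have hqn : (sm z l).minFac ∣ n := ((Nat.minFac_dvd _).trans hsl).trans hl
      have hpn : p ∣ n := (Nat.dvd_of_mem_primeFactors hp).trans (Nat.div_dvd_of_dvd hl)
      have hEE : EEx κ z n := by
        refine ⟨(sm z l).minFac, Nat.mem_primeFactors.2 ⟨hqp, hqn, by omega⟩, p,
          Nat.mem_primeFactors.2 ⟨hpp, hpn, by omega⟩, hpq, hqz, ?_⟩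
        exact le_antisymm (hB p hp) (DcDif_cl_mono κ h0 hpq.le)
      rw [if_pos hEE]
      exact hF
    · rw [if_neg hB, sub_zero, abs_zero]
      exact hrhs

open Classical in
theorem ts_tb_pt (κ : ℝ) (z U : ℕ) (Z : ℝ) (n : ℕ) (hn : 1 ≤ n) (h0 : 0 < κ) :
    |TS z U Z n - TB κ z U Z n| ≤
      if EEx κ z n then 3 * (n.divisors.card : ℝ) * Real.log n else 0 := by
  unfold TS TB
  rw [← Finset.sum_sub_distrib]
  refine (Finset.abs_sum_le_sum_abs _ _).trans ?_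
  refine (Finset.sum_le_sum fun l hl =>
    DcDif_term κ z U Z n l hn h0 (Nat.dvd_of_mem_divisors hl)).trans ?_
  rw [Finset.sum_const, nsmul_eq_mul]
  split_ifs
  · exact le_of_eq (by ring)
  · rw [mul_zero]

theorem ts_tb : ∃ C X0 : ℕ, ∀ X : ℕ, X0 ≤ X → ∀ (κ : ℝ) (z U : ℕ) (Z : ℝ), 0 < κ → κ ≤ 1 →
    ∑ n ∈ Icc 1 X, (TS z U Z n - TB κ z U Z n) ^ 2 ≤ Real.sqrt κ * (X * (Real.log X) ^ C) := by
  classical
  obtain ⟨C, hC⟩ := Pool.BV.div_mom 4
  obtain ⟨X0, hX0⟩ := exists_nat_ge (Real.exp (9 * 2 ^ (C + 2)))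
  refine ⟨C + 4, max X0 1, fun X hX κ z U Z h0 h1 => ?_⟩
  have hX1 : 1 ≤ X := (le_max_right _ _).trans hX
  have hXX : X0 ≤ X := (le_max_left _ _).trans hX
  have hXr : (0 : ℝ) < X := by exact_mod_cast hX1
  obtain ⟨L, hLd⟩ : ∃ L, L = Real.log (X : ℝ) := ⟨_, rfl⟩
  have hLbig : 9 * 2 ^ (C + 2) ≤ L := by
    rw [hLd, Real.le_log_iff_exp_le hXr]
    exact hX0.trans (by exact_mod_cast hXX)
  have h2p : (1 : ℝ) ≤ 2 ^ (C + 2) := one_le_pow₀ (by norm_num)
  have hL1 : 1 ≤ L := by linarith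
  have hEE := ee_card κ z X h0 h1 hX1
  have hM := (hC X hX1).1
  rw [← hLd] at hEE hM
  rw [← hLd]
  have hsum : ∑ n ∈ Icc 1 X, (TS z U Z n - TB κ z U Z n) ^ 2 ≤
      9 * L ^ 2 * ∑ n ∈ (Icc 1 X).filter (fun n => EEx κ z n), (n.divisors.card : ℝ) ^ 2 := by
    rw [Finset.mul_sum, Finset.sum_filter]
    refine Finset.sum_le_sum fun n hn => ?_
    have hn1 : 1 ≤ n := (mem_Icc.1 hn).1
    have hnX : n ≤ X := (mem_Icc.1 hn).2
    have hpt := ts_tb_pt κ z U Z n hn1 h0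
    have hlog : Real.log (n : ℝ) ≤ L := by
      rw [hLd]
      exact Real.log_le_log (by exact_mod_cast hn1) (by exact_mod_cast hnX)
    have hlog0 : 0 ≤ Real.log (n : ℝ) := Real.log_natCast_nonneg n
    by_cases hE : EEx κ z n
    · rw [if_pos hE] at hpt
      rw [if_pos hE, ← sq_abs]
      calc |TS z U Z n - TB κ z U Z n| ^ 2 ≤ (3 * (n.divisors.card : ℝ) * Real.log n) ^ 2 :=
            pow_le_pow_left₀ (abs_nonneg _) hpt 2
        _ ≤ (3 * (n.divisors.card : ℝ) * L) ^ 2 := by gcongr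
        _ = 9 * L ^ 2 * (n.divisors.card : ℝ) ^ 2 := by ring
    · rw [if_neg hE] at hpt
      rw [if_neg hE]
      have h3 : TS z U Z n - TB κ z U Z n = 0 :=
        abs_eq_zero.1 (le_antisymm hpt (abs_nonneg _))
      rw [h3]
      norm_num
  have hCS : (∑ n ∈ (Icc 1 X).filter (fun n => EEx κ z n), (n.divisors.card : ℝ) ^ 2) ^ 2 ≤
      (((Icc 1 X).filter (fun n => EEx κ z n)).card : ℝ) *
        ∑ n ∈ Icc 1 X, (n.divisors.card : ℝ) ^ 4 := by
    refine sq_sum_le_card_mul_sum_sq.trans ?_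
    refine mul_le_mul_of_nonneg_left ?_ (Nat.cast_nonneg _)
    calc ∑ n ∈ (Icc 1 X).filter (fun n => EEx κ z n), ((n.divisors.card : ℝ) ^ 2) ^ 2
        = ∑ n ∈ (Icc 1 X).filter (fun n => EEx κ z n), (n.divisors.card : ℝ) ^ 4 :=
          Finset.sum_congr rfl fun n _ => by ring
      _ ≤ ∑ n ∈ Icc 1 X, (n.divisors.card : ℝ) ^ 4 :=
          Finset.sum_le_sum_of_subset_of_nonneg (filter_subset _ _)
            (fun _ _ _ => by positivity)
  have hb : ∑ n ∈ (Icc 1 X).filter (fun n => EEx κ z n), (n.divisors.card : ℝ) ^ 2 ≤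
      2 * Real.sqrt κ * X * (1 + L) ^ (C + 1) := by
    have hnn : 0 ≤ ∑ n ∈ (Icc 1 X).filter (fun n => EEx κ z n), (n.divisors.card : ℝ) ^ 2 :=
      Finset.sum_nonneg fun _ _ => by positivity
    have hbn : 0 ≤ 2 * Real.sqrt κ * X * (1 + L) ^ (C + 1) := by positivity
    rw [← pow_le_pow_iff_left₀ hnn hbn two_ne_zero]
    have h1L : 1 ≤ 1 + L := by linarith
    calc (∑ n ∈ (Icc 1 X).filter (fun n => EEx κ z n), (n.divisors.card : ℝ) ^ 2) ^ 2
        ≤ (((Icc 1 X).filter (fun n => EEx κ z n)).card : ℝ) *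
          ∑ n ∈ Icc 1 X, (n.divisors.card : ℝ) ^ 4 := hCS
      _ ≤ (4 * κ * X * (1 + L)) * (X * (1 + L) ^ C) := by gcongr
      _ = 4 * κ * X ^ 2 * (1 + L) ^ (C + 1) := by ring
      _ ≤ 4 * κ * X ^ 2 * (1 + L) ^ (2 * (C + 1)) := by
          refine mul_le_mul_of_nonneg_left (pow_le_pow_right₀ h1L (by omega)) (by positivity)
      _ = 4 * (Real.sqrt κ) ^ 2 * X ^ 2 * (1 + L) ^ (2 * (C + 1)) := by
          rw [Real.sq_sqrt h0.le]
      _ = (2 * Real.sqrt κ * X * (1 + L) ^ (C + 1)) ^ 2 := by ring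
  have hsk : 0 ≤ Real.sqrt κ := Real.sqrt_nonneg κ
  calc ∑ n ∈ Icc 1 X, (TS z U Z n - TB κ z U Z n) ^ 2
      ≤ 9 * L ^ 2 * ∑ n ∈ (Icc 1 X).filter (fun n => EEx κ z n), (n.divisors.card : ℝ) ^ 2 :=
        hsum
    _ ≤ 9 * L ^ 2 * (2 * Real.sqrt κ * X * (1 + L) ^ (C + 1)) := by gcongr
    _ ≤ 9 * L ^ 2 * (2 * Real.sqrt κ * X * (2 * L) ^ (C + 1)) := by
        gcongr
        linarith
    _ = Real.sqrt κ * (X * ((9 * 2 ^ (C + 2)) * L ^ (C + 3))) := by ring
    _ ≤ Real.sqrt κ * (X * (L * L ^ (C + 3))) := by gcongr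
    _ = Real.sqrt κ * (X * L ^ (C + 4)) := by ring

end Pool.MP_dd84fd_nt.HX
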