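import Pool.Agent.Lib.MP_dd84fd_nt.HX.DcDefs

/-!
# HX-DcRep: closure properties of `BRep`
-/

set_option autoImplicit false

namespace Pool.MP_dd84fd_nt.HX

open Finset

theorem brep_congr {δ : ℝ} {X C B : ℕ} {F F' : ℕ → ℝ} (h : ∀ n ∈ Icc 1 X, F n = F' n)
    (hF : BRep δ X C B F) : BRep δ X C B F' := by
  obtain ⟨I, a, c, err, h1, h2, h3, h4, h5⟩ := hF
  exact ⟨I, a, c, err, h1, h2, h3, fun n hn => by rw [← h n hn]; exact h4 n hn, h5⟩

theorem brep_mono {δ : ℝ} {X C C' B : ℕ} {F : ℕ → ℝ} (hL : 1 ≤ Real.log X) (h : C ≤ C')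
    (hF : BRep δ X C B F) : BRep δ X C' B F := by
  obtain ⟨I, a, c, err, h1, h2, h3, h4, h5⟩ := hF
  exact ⟨I, a, c, err, h1.trans (pow_le_pow_right₀ hL h), h2, h3, h4, h5⟩

theorem brep_add {δ : ℝ} {X C B : ℕ} {F F' : ℕ → ℝ} (hL : 4 ≤ Real.log X)
    (hF : BRep δ X C (B + 1) F) (hF' : BRep δ X C (B + 1) F') :
    BRep δ X (C + 1) B (fun n => F n + F' n) := by
  obtain ⟨I, a, c, err, h1, h2, h3, h4, h5⟩ := hF
  obtain ⟨I', a', c', err', h1', h2', h3', h4', h5'⟩ := hF'
  have hL0 : (0 : ℝ) < Real.log X := by linarith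
  refine ⟨I + I', fun i => if i < I then a i else a' (i - I),
    fun i => if i < I then c i else c' (i - I), fun n => err n + err' n, ?_, ?_, ?_, ?_, ?_⟩
  · push_cast
    have h6 : (0 : ℝ) ≤ Real.log X ^ C := by positivity
    calc (I : ℝ) + (I' : ℝ) ≤ Real.log X ^ C + Real.log X ^ C := add_le_add h1 h1'
      _ ≤ Real.log X ^ C * Real.log X := by nlinarith
      _ = Real.log X ^ (C + 1) := (pow_succ _ _).symm
  · intro i n
    by_cases hi : i < I
    · simp only [hi, if_true]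
      exact h2 i n
    · simp only [hi, if_false]
      exact h2' (i - I) n
  · intro i m
    by_cases hi : i < I
    · simp only [hi, if_true]
      exact h3 i m
    · simp only [hi, if_false]
      exact h3' (i - I) m
  · intro n hn
    rw [Finset.sum_range_add]
    have e1 : ∑ i ∈ range I, ∑ m ∈ n.divisors,
        (if i < I then a i else a' (i - I)) m * (if i < I then c i else c' (i - I)) (n / m) =
        ∑ i ∈ range I, ∑ m ∈ n.divisors, a i m * c i (n / m) := by
      refine Finset.sum_congr rfl fun i hi => ?_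
      have hi' : i < I := mem_range.1 hi
      simp only [hi', if_true]
    have e2 : ∑ i ∈ range I', ∑ m ∈ n.divisors,
        (if I + i < I then a (I + i) else a' (I + i - I)) m *
          (if I + i < I then c (I + i) else c' (I + i - I)) (n / m) =
        ∑ i ∈ range I', ∑ m ∈ n.divisors, a' i m * c' i (n / m) := by
      refine Finset.sum_congr rfl fun i hi => ?_
      have hi' : ¬ (I + i < I) := by omega
      have hi2 : I + i - I = i := by omega
      simp only [hi', if_false, hi2]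
    rw [e1, e2]
    have h6 := h4 n hn
    have h7 := h4' n hn
    simp only [h6, h7]
    ring
  · have h6 : ∑ n ∈ Icc 1 X, (err n + err' n) ^ 2 ≤
        2 * (∑ n ∈ Icc 1 X, err n ^ 2) + 2 * (∑ n ∈ Icc 1 X, err' n ^ 2) := by
      rw [Finset.mul_sum, Finset.mul_sum, ← Finset.sum_add_distrib]
      refine Finset.sum_le_sum fun n _ => ?_
      nlinarith [sq_nonneg (err n - err' n)]
    have h7 : 4 * ((X : ℝ) / Real.log X ^ (B + 1)) ≤ (X : ℝ) / Real.log X ^ B := by
      rw [pow_succ, ← mul_div_assoc, div_le_div_iff₀ (by positivity) (by positivity)]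
      have h8 : (0 : ℝ) ≤ (X : ℝ) * Real.log X ^ B := by positivity
      nlinarith
    linarith

theorem brep_small {δ : ℝ} {X C B : ℕ} {F : ℕ → ℝ} (hL : 1 ≤ Real.log X)
    (h : ∑ n ∈ Icc 1 X, F n ^ 2 ≤ X / (Real.log X) ^ B) : BRep δ X C B F := by
  have hL0 : (0 : ℝ) < Real.log X := by linarith
  refine ⟨0, fun _ _ => 0, fun _ _ => 0, F, ?_, ?_, ?_, ?_, h⟩
  · simp only [Nat.cast_zero]
    positivity
  · intro i n
    simp only [abs_zero]
    exact ⟨by positivity, by positivity⟩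
  · intro i m hm
    exact absurd rfl hm
  · intro n _
    simp

open Classical in
theorem brep_cls {δ : ℝ} {X C B I : ℕ} (hL : 1 ≤ Real.log X) (hI : (I : ℝ) ≤ (Real.log X) ^ C)
    (a c : ℕ → ℝ) (τ : ℕ → ℕ) (Q : ℕ → ℕ → Prop)
    (ha : ∀ n, |a n| ≤ (Real.log X) ^ 2) (hc : ∀ n, |c n| ≤ (Real.log X) ^ 2)
    (hs : ∀ m, a m ≠ 0 → Uu δ X < m ∧ (m : ℝ) ≤ y2 δ X ∧ τ m < I) (F : ℕ → ℝ)
    (hF : ∀ n ∈ Icc 1 X, F n = ∑ l ∈ n.divisors, if Q (τ l) (n / l) then a l * c (n / l) else 0) :
    BRep δ X C B F := by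
  have hL0 : (0 : ℝ) < Real.log X := by linarith
  refine ⟨I, fun i m => if τ m = i then a m else 0, fun i s => if Q i s then c s else 0,
    fun _ => 0, hI, ?_, ?_, ?_, ?_⟩
  · intro i n
    constructor
    · by_cases h : τ n = i
      · simp only [h, if_true]
        exact ha n
      · simp only [h, if_false, abs_zero]
        positivity
    · by_cases h : Q i n
      · simp only [h, if_true]
        exact hc n
      · simp only [h, if_false, abs_zero]
        positivity
  · intro i m hm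
    have h1 : a m ≠ 0 := by
      intro h0
      apply hm
      simp only [h0, ite_self]
    exact ⟨(hs m h1).1, (hs m h1).2.1⟩
  · intro n hn
    rw [hF n hn, add_zero, Finset.sum_comm]
    refine Finset.sum_congr rfl fun m _ => ?_
    by_cases h0 : a m = 0
    · simp [h0]
    · have h1 : τ m ∈ range I := mem_range.2 (hs m h0).2.2
      rw [Finset.sum_eq_single (τ m)]
      · by_cases h2 : Q (τ m) (n / m)
        · simp only [h2, if_true]
        · simp only [h2, if_false, mul_zero]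
      · intro i _ hi
        have h3 : ¬ (τ m = i) := fun h => hi h.symm
        simp only [h3, if_false, zero_mul]
      · intro h
        exact absurd h1 h
  · simp only [ne_eq, OfNat.ofNat_ne_zero, not_false_eq_true, zero_pow, Finset.sum_const_zero]
    positivity

/-- one bilinear term -/
theorem brep_one {δ : ℝ} {X C B : ℕ} (hL : 1 ≤ Real.log X) (a c : ℕ → ℝ)
    (ha : ∀ n, |a n| ≤ (Real.log X) ^ 2) (hc : ∀ n, |c n| ≤ (Real.log X) ^ 2)
    (hs : ∀ m, a m ≠ 0 → Uu δ X < m ∧ (m : ℝ) ≤ y2 δ X) (F : ℕ → ℝ)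
    (hF : ∀ n ∈ Icc 1 X, F n = ∑ m ∈ n.divisors, a m * c (n / m)) :
    BRep δ X C B F := by
  have hL0 : (0 : ℝ) < Real.log X := by linarith
  refine ⟨1, fun _ => a, fun _ => c, fun _ => 0, ?_, fun _ n => ⟨ha n, hc n⟩, fun _ m hm => hs m hm,
    ?_, ?_⟩
  · rw [Nat.cast_one]
    exact one_le_pow₀ hL
  · intro n hn
    rw [hF n hn, add_zero, Finset.sum_range_one]
  · simp only [ne_eq, OfNat.ofNat_ne_zero, not_false_eq_true, zero_pow, Finset.sum_const_zero]
    positivity

/-- one bilinear term, other order -/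
theorem brep_one' {δ : ℝ} {X C B : ℕ} (hL : 1 ≤ Real.log X) (a c : ℕ → ℝ)
    (ha : ∀ n, |a n| ≤ (Real.log X) ^ 2) (hc : ∀ n, |c n| ≤ (Real.log X) ^ 2)
    (hs : ∀ m, a m ≠ 0 → Uu δ X < m ∧ (m : ℝ) ≤ y2 δ X) (F : ℕ → ℝ)
    (hF : ∀ n ∈ Icc 1 X, F n = ∑ m ∈ n.divisors, c m * a (n / m)) :
    BRep δ X C B F := by
  refine brep_one hL a c ha hc hs F fun n hn => ?_
  rw [hF n hn, ← Nat.sum_div_divisors n (fun m => a m * c (n / m))]
  refine Finset.sum_congr rfl fun m hm => ?_
  have hn0 : n ≠ 0 := (Nat.mem_divisors.1 hm).2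
  have hd : m ∣ n := (Nat.mem_divisors.1 hm).1
  rw [Nat.div_div_self hd hn0, mul_comm]

end Pool.MP_dd84fd_nt.HX
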