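import Pool.Agent.Lib.MP_dd84fd_nt.HX.DcPar
import Pool.Agent.Lib.MP_dd84fd_nt.HX.DcRg
import Pool.Agent.Lib.MP_dd84fd_nt.HX.DcRep

/-!
# HX-DcPc (0.8 h): the five simple pieces of `a_L` are of the form `BRep`

Proofs (`U = Uu δ X`, `z = zz X`, bounds `c1_le`, `c2_le`, `rg_divisors`: on rough `k ≤ X`: `|c2 U k| ≤ 2^20 ≤ L²`; `Λ(m) ≤ log m ≤ L` for `m ≤ X`):
`pc_E`: `brep_small`: `Σ_{n ≤ U} L² ≤ y2 L² ≤ X^(1/2) L² ≤ X / L^B` (`dc_log`).
`pc_b`: `brep_one` with `a m = -(if U < m ∧ m ≤ y2 then c1 U m * rg m else 0)` (`m ≤ y2 ≤ X`), `c k = rg k`.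
`pc_d`: `brep_one'` with `a k = if U < k ∧ k ≤ y2 then rg k else 0`, `c m = -(if y3 < m ∧ m ≤ X then c1 U m * rg m else 0)`; for `n ≤ X`, `m ∣ n`, `y3 < m`: `n / m ≤ X / y3 = y2`, `m ≤ X`.
`pc_4a`: `brep_one`, `a m = if U < m ∧ m ≤ y2 then Λ(m) rg m else 0`, `c k = if U < k ∧ k ≤ X then c2 U k * rg k else 0`.
`pc_4c`: `brep_one'`, `a k = if U < k ∧ k ≤ y2 then c2 U k * rg k else 0`, `c m = if y3 < m ∧ m ≤ X then Λ(m) rg m else 0`.
-/

set_option autoImplicit false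

namespace Pool.MP_dd84fd_nt.HX

open Finset

theorem pc_rg_abs (z n : ℕ) : |rg z n| ≤ 1 := by
  rw [abs_of_nonneg (rg_nonneg z n).1]; exact (rg_nonneg z n).2

theorem pc_La_abs (n : ℕ) : |La n| ≤ Real.log n := by
  unfold La
  rw [abs_of_nonneg ArithmeticFunction.vonMangoldt_nonneg]
  exact ArithmeticFunction.vonMangoldt_le_log

/-- for `m ≤ X`: `log m ≤ L²` -/
theorem pc_log_le {X m : ℕ} (h4 : 4 ≤ Real.log X) (hm : m ≤ X) :
    Real.log m ≤ (Real.log X) ^ 2 := by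
  have h1 : Real.log m ≤ Real.log X := by
    rcases Nat.eq_zero_or_pos m with h | h
    · subst h; simp; linarith
    · exact Real.log_le_log (by exact_mod_cast h) (by exact_mod_cast hm)
  nlinarith

theorem pc_c1_abs {X m U z : ℕ} (h4 : 4 ≤ Real.log X) (hm : m ≤ X) :
    |Pool.BV.c1 U m * rg z m| ≤ (Real.log X) ^ 2 := by
  rw [abs_mul]
  have h1 := c1_le U m
  have h2 := pc_rg_abs z m
  have h3 := pc_log_le h4 hm
  calc |Pool.BV.c1 U m| * |rg z m| ≤ |Pool.BV.c1 U m| * 1 :=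
        mul_le_mul_of_nonneg_left h2 (abs_nonneg _)
    _ ≤ _ := by linarith

theorem pc_La_rg {X m z : ℕ} (h4 : 4 ≤ Real.log X) (hm : m ≤ X) :
    |La m * rg z m| ≤ (Real.log X) ^ 2 := by
  rw [abs_mul]
  have h1 := pc_La_abs m
  have h2 := pc_rg_abs z m
  have h3 := pc_log_le h4 hm
  calc |La m| * |rg z m| ≤ |La m| * 1 := mul_le_mul_of_nonneg_left h2 (abs_nonneg _)
    _ ≤ _ := by linarith

theorem pc_c2_rg {X k U : ℕ} (h20 : (2 : ℝ) ^ 20 ≤ (Real.log X) ^ 2) (hk1 : 1 ≤ k) (hk : k ≤ X)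
    (hd : ∀ n ∈ Icc 1 X, Rgh (zz X) n → n.divisors.card ≤ 2 ^ 20) :
    |Pool.BV.c2 U k * rg (zz X) k| ≤ (Real.log X) ^ 2 := by
  rw [abs_mul]
  by_cases hr : Rgh (zz X) k
  · have h1 := c2_le U k
    have h2 := pc_rg_abs (zz X) k
    have h3 : ((k.divisors.card : ℕ) : ℝ) ≤ 2 ^ 20 := by
      exact_mod_cast hd k (mem_Icc.2 ⟨hk1, hk⟩) hr
    calc |Pool.BV.c2 U k| * |rg (zz X) k| ≤ |Pool.BV.c2 U k| * 1 :=
          mul_le_mul_of_nonneg_left h2 (abs_nonneg _)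
      _ ≤ _ := by linarith
  · have : rg (zz X) k = 0 := by unfold rg; rw [if_neg hr]
    rw [this]; simp; positivity

/-- `m ∣ n`, `n ≤ X`, `y3 < m`: the cofactor is at most `y2` -/
theorem pc_cof {δ : ℝ} {X n m : ℕ} (hX : 1 ≤ X) (h23 : y2 δ X * y3 δ X = X) (hn : n ≤ X)
    (hm : y3 δ X < (m : ℝ)) : ((n / m : ℕ) : ℝ) ≤ y2 δ X := by
  have hX0 : (0 : ℝ) < X := by exact_mod_cast hX
  have h3 : 0 < y3 δ X := by unfold y3; positivity
  have h2 : 0 < y2 δ X := by unfold y2; positivity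
  have hm0 : (0 : ℝ) < m := lt_trans h3 hm
  calc ((n / m : ℕ) : ℝ) ≤ (n : ℝ) / m := Nat.cast_div_le
    _ ≤ (X : ℝ) / m := by gcongr
    _ ≤ y2 δ X := by
        rw [div_le_iff₀ hm0, ← h23]
        exact mul_le_mul_of_nonneg_left hm.le h2.le

open Classical in
theorem pc_E (δ : ℝ) (h0 : 0 < δ) (h1 : δ ≤ 1 / 2000) (B : ℕ) : ∃ X0 : ℕ, ∀ X : ℕ, X0 ≤ X →
    BRep δ X 0 B (fun n => if n ≤ Uu δ X then rg (zz X) n * La n else 0) := by
  obtain ⟨X1, H1⟩ := dc_par δ h0 h1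
  obtain ⟨X2, H2⟩ := dc_log (B + 2)
  refine ⟨max X1 X2, fun X hX => ?_⟩
  obtain ⟨hX1, hU1, hUy, -, -, -, -, hy2X, -, -, -, -, h4⟩ := H1 X (le_trans (le_max_left _ _) hX)
  have hl := H2 X (le_trans (le_max_right _ _) hX)
  apply brep_small (by linarith)
  have hX0 : (0 : ℝ) < X := by exact_mod_cast hX1
  have hX1' : (1 : ℝ) ≤ X := by exact_mod_cast hX1
  have hL0 : 0 < Real.log X := by linarith
  have hterm : ∀ n ∈ Icc 1 X, (if n ≤ Uu δ X then rg (zz X) n * La n else 0) ^ 2 ≤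
      if n ≤ Uu δ X then (Real.log X) ^ 2 else 0 := by
    intro n hn
    by_cases h : n ≤ Uu δ X
    · rw [if_pos h, if_pos h]
      have hnX := (mem_Icc.1 hn).2
      have hn1 := (mem_Icc.1 hn).1
      rw [← sq_abs]
      have : |rg (zz X) n * La n| ≤ Real.log X := by
        rw [abs_mul]
        have h1 := pc_La_abs n
        have h2 := pc_rg_abs (zz X) n
        have h3 : Real.log n ≤ Real.log X :=
          Real.log_le_log (by exact_mod_cast hn1) (by exact_mod_cast hnX)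
        calc |rg (zz X) n| * |La n| ≤ 1 * |La n| :=
              mul_le_mul_of_nonneg_right h2 (abs_nonneg _)
          _ ≤ _ := by linarith
      exact pow_le_pow_left₀ (abs_nonneg _) this 2
    · rw [if_neg h, if_neg h]; simp
  refine (sum_le_sum hterm).trans ?_
  rw [← sum_filter, sum_const, nsmul_eq_mul]
  have hcard : (((Icc 1 X).filter (fun n => n ≤ Uu δ X)).card : ℝ) ≤ y2 δ X := by
    refine le_trans ?_ hUy
    have : ((Icc 1 X).filter (fun n => n ≤ Uu δ X)).card ≤ (Icc 1 (Uu δ X)).card := by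
      apply card_le_card
      intro n hn
      rw [mem_filter, mem_Icc] at hn
      rw [mem_Icc]; exact ⟨hn.1.1, hn.2⟩
    rw [Nat.card_Icc] at this
    have h' : ((Icc 1 X).filter (fun n => n ≤ Uu δ X)).card ≤ Uu δ X := by omega
    exact_mod_cast h'
  have hy2 : y2 δ X ≤ (X : ℝ) ^ (1 / 2 : ℝ) := by
    unfold y2
    exact Real.rpow_le_rpow_of_exponent_le hX1' (by linarith)
  have hLB : 0 < (Real.log X) ^ B := pow_pos hL0 B
  rw [le_div_iff₀ hLB]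
  calc (((Icc 1 X).filter (fun n => n ≤ Uu δ X)).card : ℝ) * (Real.log X) ^ 2 * (Real.log X) ^ B
      = (((Icc 1 X).filter (fun n => n ≤ Uu δ X)).card : ℝ) * (Real.log X) ^ (B + 2) := by ring
    _ ≤ (X : ℝ) ^ (1 / 2 : ℝ) * (X : ℝ) ^ (1 / 4 : ℝ) := by
        apply mul_le_mul (hcard.trans hy2) hl (pow_pos hL0 _).le (by positivity)
    _ = (X : ℝ) ^ (3 / 4 : ℝ) := by rw [← Real.rpow_add hX0]; norm_num
    _ ≤ (X : ℝ) ^ (1 : ℝ) := Real.rpow_le_rpow_of_exponent_le hX1' (by norm_num)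
    _ = X := Real.rpow_one _

open Classical in
theorem pc_b (δ : ℝ) (h0 : 0 < δ) (h1 : δ ≤ 1 / 2000) : ∃ X0 : ℕ, ∀ X : ℕ, X0 ≤ X → ∀ B : ℕ,
    BRep δ X 0 B (fun n => -∑ c ∈ n.divisors, (if Uu δ X < c ∧ (c : ℝ) ≤ y2 δ X then
        Pool.BV.c1 (Uu δ X) c * rg (zz X) c * rg (zz X) (n / c) else 0)) := by
  obtain ⟨X1, H1⟩ := dc_par δ h0 h1
  refine ⟨X1, fun X hX B => ?_⟩
  obtain ⟨hX1, hU1, hUy, -, -, -, -, hy2X, -, -, -, -, h4⟩ := H1 X hX
  refine brep_one (by linarith)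
    (fun m => -(if Uu δ X < m ∧ (m : ℝ) ≤ y2 δ X then Pool.BV.c1 (Uu δ X) m * rg (zz X) m else 0))
    (fun k => rg (zz X) k) ?_ ?_ ?_ _ ?_
  · intro m
    show |-(if Uu δ X < m ∧ (m : ℝ) ≤ y2 δ X then Pool.BV.c1 (Uu δ X) m * rg (zz X) m else 0)| ≤ _
    rw [abs_neg]
    split_ifs with h
    · exact pc_c1_abs h4 (by exact_mod_cast h.2.trans hy2X)
    · simp; positivity
  · intro k
    have := pc_rg_abs (zz X) k
    show |rg (zz X) k| ≤ _
    nlinarith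
  · intro m hm
    by_contra h
    apply hm
    show -(if Uu δ X < m ∧ (m : ℝ) ≤ y2 δ X then Pool.BV.c1 (Uu δ X) m * rg (zz X) m else 0) = 0
    rw [if_neg h, neg_zero]
  · intro n hn
    rw [← sum_neg_distrib]
    apply sum_congr rfl
    intro m hm
    split_ifs with h
    · ring
    · simp

open Classical in
theorem pc_d (δ : ℝ) (h0 : 0 < δ) (h1 : δ ≤ 1 / 2000) : ∃ X0 : ℕ, ∀ X : ℕ, X0 ≤ X → ∀ B : ℕ,
    BRep δ X 0 B (fun n => -∑ c ∈ n.divisors, (if y3 δ X < (c : ℝ) ∧ Uu δ X < n / c then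
        Pool.BV.c1 (Uu δ X) c * rg (zz X) c * rg (zz X) (n / c) else 0)) := by
  obtain ⟨X1, H1⟩ := dc_par δ h0 h1
  refine ⟨X1, fun X hX B => ?_⟩
  obtain ⟨hX1, hU1, hUy, -, -, -, h23, hy2X, -, -, -, -, h4⟩ := H1 X hX
  refine brep_one' (by linarith)
    (fun k => if Uu δ X < k ∧ (k : ℝ) ≤ y2 δ X then rg (zz X) k else 0)
    (fun m => -(if y3 δ X < (m : ℝ) ∧ m ≤ X then Pool.BV.c1 (Uu δ X) m * rg (zz X) m else 0))
    ?_ ?_ ?_ _ ?_
  · intro k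
    show |(if Uu δ X < k ∧ (k : ℝ) ≤ y2 δ X then rg (zz X) k else 0)| ≤ _
    split_ifs with h
    · have := pc_rg_abs (zz X) k
      nlinarith
    · simp; positivity
  · intro m
    show |-(if y3 δ X < (m : ℝ) ∧ m ≤ X then Pool.BV.c1 (Uu δ X) m * rg (zz X) m else 0)| ≤ _
    rw [abs_neg]
    split_ifs with h
    · exact pc_c1_abs h4 h.2
    · simp; positivity
  · intro m hm
    by_contra h
    apply hm
    show (if Uu δ X < m ∧ (m : ℝ) ≤ y2 δ X then rg (zz X) m else 0) = 0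
    rw [if_neg h]
  · intro n hn
    rw [← sum_neg_distrib]
    apply sum_congr rfl
    intro m hm
    have hmn := Nat.divisor_le hm
    have hnX := (mem_Icc.1 hn).2
    by_cases h3 : y3 δ X < (m : ℝ)
    · have hcof := pc_cof hX1 h23 hnX h3
      by_cases hU : Uu δ X < n / m
      · rw [if_pos ⟨h3, hU⟩, if_pos ⟨h3, hmn.trans hnX⟩, if_pos ⟨hU, hcof⟩]
        ring
      · rw [if_neg (show ¬(y3 δ X < (m : ℝ) ∧ Uu δ X < n / m) from fun h => hU h.2),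
          if_neg (show ¬(Uu δ X < n / m ∧ ((n / m : ℕ) : ℝ) ≤ y2 δ X) from fun h => hU h.1)]
        simp
    · rw [if_neg (show ¬(y3 δ X < (m : ℝ) ∧ Uu δ X < n / m) from fun h => h3 h.1),
        if_neg (show ¬(y3 δ X < (m : ℝ) ∧ m ≤ X) from fun h => h3 h.1)]
      simp

open Classical in
theorem pc_4a (δ : ℝ) (h0 : 0 < δ) (h1 : δ ≤ 1 / 2000) : ∃ X0 : ℕ, ∀ X : ℕ, X0 ≤ X → ∀ B : ℕ,
    BRep δ X 0 B (fun n => ∑ m ∈ n.divisors, (if Uu δ X < m ∧ (m : ℝ) ≤ y2 δ X ∧ Uu δ X < n / m then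
        La m * rg (zz X) m * (Pool.BV.c2 (Uu δ X) (n / m) * rg (zz X) (n / m)) else 0)) := by
  obtain ⟨X1, H1⟩ := dc_par δ h0 h1
  obtain ⟨X2, H2⟩ := rg_divisors
  refine ⟨max X1 X2, fun X hX B => ?_⟩
  obtain ⟨hX1, hU1, hUy, -, -, -, h23, hy2X, -, -, -, h20, h4⟩ :=
    H1 X (le_trans (le_max_left _ _) hX)
  have hd := H2 X (le_trans (le_max_right _ _) hX)
  refine brep_one (by linarith)
    (fun m => if Uu δ X < m ∧ (m : ℝ) ≤ y2 δ X then La m * rg (zz X) m else 0)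
    (fun k => if Uu δ X < k ∧ k ≤ X then Pool.BV.c2 (Uu δ X) k * rg (zz X) k else 0)
    ?_ ?_ ?_ _ ?_
  · intro m
    show |(if Uu δ X < m ∧ (m : ℝ) ≤ y2 δ X then La m * rg (zz X) m else 0)| ≤ _
    split_ifs with h
    · exact pc_La_rg h4 (by exact_mod_cast h.2.trans hy2X)
    · simp; positivity
  · intro k
    show |(if Uu δ X < k ∧ k ≤ X then Pool.BV.c2 (Uu δ X) k * rg (zz X) k else 0)| ≤ _
    split_ifs with h
    · exact pc_c2_rg h20 (by omega) h.2 hd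
    · simp; positivity
  · intro m hm
    by_contra h
    apply hm
    show (if Uu δ X < m ∧ (m : ℝ) ≤ y2 δ X then La m * rg (zz X) m else 0) = 0
    rw [if_neg h]
  · intro n hn
    apply sum_congr rfl
    intro m hm
    have hnX := (mem_Icc.1 hn).2
    have hq : n / m ≤ X := (Nat.div_le_self _ _).trans hnX
    by_cases hA : Uu δ X < m ∧ (m : ℝ) ≤ y2 δ X
    · by_cases hU : Uu δ X < n / m
      · rw [if_pos ⟨hA.1, hA.2, hU⟩, if_pos hA, if_pos ⟨hU, hq⟩]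
      · rw [if_neg (show ¬(Uu δ X < m ∧ (m : ℝ) ≤ y2 δ X ∧ Uu δ X < n / m) from
            fun h => hU h.2.2),
          if_neg (show ¬(Uu δ X < n / m ∧ n / m ≤ X) from fun h => hU h.1), mul_zero]
    · rw [if_neg (show ¬(Uu δ X < m ∧ (m : ℝ) ≤ y2 δ X ∧ Uu δ X < n / m) from
            fun h => hA ⟨h.1, h.2.1⟩), if_neg hA, zero_mul]

open Classical in
theorem pc_4c (δ : ℝ) (h0 : 0 < δ) (h1 : δ ≤ 1 / 2000) : ∃ X0 : ℕ, ∀ X : ℕ, X0 ≤ X → ∀ B : ℕ,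
    BRep δ X 0 B (fun n => ∑ m ∈ n.divisors, (if y3 δ X < (m : ℝ) ∧ Uu δ X < n / m then
        La m * rg (zz X) m * (Pool.BV.c2 (Uu δ X) (n / m) * rg (zz X) (n / m)) else 0)) := by
  obtain ⟨X1, H1⟩ := dc_par δ h0 h1
  obtain ⟨X2, H2⟩ := rg_divisors
  refine ⟨max X1 X2, fun X hX B => ?_⟩
  obtain ⟨hX1, hU1, hUy, -, -, -, h23, hy2X, -, -, -, h20, h4⟩ :=
    H1 X (le_trans (le_max_left _ _) hX)
  have hd := H2 X (le_trans (le_max_right _ _) hX)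
  refine brep_one' (by linarith)
    (fun k => if Uu δ X < k ∧ (k : ℝ) ≤ y2 δ X then Pool.BV.c2 (Uu δ X) k * rg (zz X) k else 0)
    (fun m => if y3 δ X < (m : ℝ) ∧ m ≤ X then La m * rg (zz X) m else 0)
    ?_ ?_ ?_ _ ?_
  · intro k
    show |(if Uu δ X < k ∧ (k : ℝ) ≤ y2 δ X then Pool.BV.c2 (Uu δ X) k * rg (zz X) k else 0)| ≤ _
    split_ifs with h
    · exact pc_c2_rg h20 (by omega) (by exact_mod_cast h.2.trans hy2X) hd
    · simp; positivity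
  · intro m
    show |(if y3 δ X < (m : ℝ) ∧ m ≤ X then La m * rg (zz X) m else 0)| ≤ _
    split_ifs with h
    · exact pc_La_rg h4 h.2
    · simp; positivity
  · intro m hm
    by_contra h
    apply hm
    show (if Uu δ X < m ∧ (m : ℝ) ≤ y2 δ X then Pool.BV.c2 (Uu δ X) m * rg (zz X) m else 0) = 0
    rw [if_neg h]
  · intro n hn
    apply sum_congr rfl
    intro m hm
    have hmn := Nat.divisor_le hm
    have hnX := (mem_Icc.1 hn).2
    by_cases h3 : y3 δ X < (m : ℝ)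
    · have hcof := pc_cof hX1 h23 hnX h3
      by_cases hU : Uu δ X < n / m
      · rw [if_pos ⟨h3, hU⟩, if_pos ⟨h3, hmn.trans hnX⟩, if_pos ⟨hU, hcof⟩]
      · rw [if_neg (show ¬(y3 δ X < (m : ℝ) ∧ Uu δ X < n / m) from fun h => hU h.2),
          if_neg (show ¬(Uu δ X < n / m ∧ ((n / m : ℕ) : ℝ) ≤ y2 δ X) from fun h => hU h.1),
          mul_zero]
    · rw [if_neg (show ¬(y3 δ X < (m : ℝ) ∧ Uu δ X < n / m) from fun h => h3 h.1),
        if_neg (show ¬(y3 δ X < (m : ℝ) ∧ m ≤ X) from fun h => h3 h.1), zero_mul]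

end Pool.MP_dd84fd_nt.HX
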