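import Pool.Agent.Lib.MP_dd84fd_nt.HX.DcPar
import Pool.Agent.Lib.MP_dd84fd_nt.HX.DcRg
import Pool.Agent.Lib.MP_dd84fd_nt.HX.DcRep

/-!
# HX-DcTB (0.7 h): the boxed sum `TB` is of the form `BRep`

Proof. `κ = 1 / L^B'`, `z = zz X`, `U = Uu δ X`, `Z = Z1 X`. `TB = TB1 + TB2` (coefficient `A1 l * log (n / l)`, resp. `A2 l`). Apply `brep_cls` (with `C = B' + 2`, `B + 1`) to both and `brep_add`:
`τ l = cl κ (sm z l).minFac`, `Q i s = ∀ p ∈ s.primeFactors, i ≤ cl κ p`, `I = ⌊L / κ⌋₊ + 1 ≤ L^(B'+2)`; `a = A1` (`|A1| ≤ 1`), `c s = if s ≤ X then log s else 0` resp. `a = A2`, `c s = 1`.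
If `A1 l ≠ 0` or `A2 l ≠ 0` then `Cnd`: `l ≥ Z > U`; `sm z l ≠ 1` (as `minFac 1 = 1`), so `q0 = (sm z l).minFac` is a prime `< z` (`sm_smo`), `l < Z q0 ≤ Z z ≤ y2 ≤ X`, `cl κ q0 ≤ ⌊L / κ⌋₊ < I` (`q0 < z ≤ X`).
`|A2 l| ≤ log (ro..)`: `|mr| ≤ 1`, `log (sm z l) ≤ log l ≤ L`, `|c1| ≤ log (ro z l) ≤ L`: `≤ 2L ≤ L²`.
-/

set_option autoImplicit false

namespace Pool.MP_dd84fd_nt.HX

open Finset

/-- the support of the coefficients -/
private theorem tb_supp {δ : ℝ} {X : ℕ} (hX1 : 1 ≤ X) (hUZ : (Uu δ X : ℝ) < Z1 X)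
    (hZz : Z1 X * (zz X : ℝ) ≤ y2 δ X) (hzX : zz X ≤ X) {κ : ℝ} (hκ : 0 < κ) {l : ℕ}
    (h : Cnd (zz X) (Uu δ X) (Z1 X) l) : Uu δ X < l ∧ (l : ℝ) ≤ y2 δ X ∧
    cl κ (sm (zz X) l).minFac < ⌊Real.log X / κ⌋₊ + 1 := by
  obtain ⟨-, h2, h3⟩ := h
  have hZ0 : 0 < Z1 X := lt_of_le_of_lt (Nat.cast_nonneg _) hUZ
  have hs1 : sm (zz X) l ≠ 1 := by
    intro hs
    rw [hs, Nat.minFac_one, Nat.cast_one, mul_one] at h3
    linarith
  have hp : (sm (zz X) l).minFac.Prime := Nat.minFac_prime hs1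
  have hs0 : sm (zz X) l ≠ 0 := by
    unfold sm
    refine Finset.prod_ne_zero_iff.2 fun p hp => ?_
    exact pow_ne_zero _ (Nat.prime_of_mem_primeFactors (Finset.mem_filter.1 hp).1).ne_zero
  have hlt : (sm (zz X) l).minFac < zz X := sm_smo (zz X) l _
    (Nat.mem_primeFactors.2 ⟨hp, Nat.minFac_dvd _, hs0⟩)
  have hlt' : ((sm (zz X) l).minFac : ℝ) ≤ (zz X : ℝ) := by exact_mod_cast hlt.le
  refine ⟨?_, ?_, ?_⟩
  · exact_mod_cast hUZ.trans_le h2
  · exact h3.le.trans ((mul_le_mul_of_nonneg_left hlt' hZ0.le).trans hZz)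
  · unfold cl
    rw [Nat.lt_succ_iff]
    refine Nat.floor_le_floor ?_
    refine div_le_div_of_nonneg_right ?_ hκ.le
    refine Real.log_le_log (by exact_mod_cast hp.pos) ?_
    exact_mod_cast hlt.le.trans hzX

private theorem tb_A1 {δ : ℝ} {X : ℕ} (hL : 4 ≤ Real.log X) (l : ℕ) :
    |A1 (zz X) (Uu δ X) (Z1 X) l| ≤ (Real.log X) ^ 2 := by
  unfold A1
  split_ifs
  · exact (mr_le l).trans (by nlinarith)
  · rw [abs_zero]
    positivity

private theorem tb_A2 {δ : ℝ} {X : ℕ} (hX1 : 1 ≤ X) (hUZ : (Uu δ X : ℝ) < Z1 X)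
    (hZz : Z1 X * (zz X : ℝ) ≤ y2 δ X) (hzX : zz X ≤ X) (hyX : y2 δ X ≤ X)
    (hL : 4 ≤ Real.log X) (l : ℕ) :
    |A2 (zz X) (Uu δ X) (Z1 X) l| ≤ (Real.log X) ^ 2 := by
  unfold A2
  split_ifs with h
  · obtain ⟨s1, s2, -⟩ := tb_supp hX1 hUZ hZz hzX one_pos h
    have hl0 : l ≠ 0 := by omega
    have hlX : (l : ℝ) ≤ X := s2.trans hyX
    have hmul := ro_mul_sm (zz X) l hl0
    have hsm0 : sm (zz X) l ≠ 0 := by
      intro hs
      rw [hs, mul_zero] at hmul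
      exact hl0 hmul.symm
    have hro0 : ro (zz X) l ≠ 0 := by
      intro hs
      rw [hs, zero_mul] at hmul
      exact hl0 hmul.symm
    have hsl : sm (zz X) l ≤ l := by
      conv_rhs => rw [← hmul]
      exact Nat.le_mul_of_pos_left _ (Nat.pos_of_ne_zero hro0)
    have hrl : ro (zz X) l ≤ l := by
      conv_rhs => rw [← hmul]
      exact Nat.le_mul_of_pos_right _ (Nat.pos_of_ne_zero hsm0)
    have g1 : Real.log (sm (zz X) l : ℝ) ≤ Real.log X := by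
      refine Real.log_le_log (by exact_mod_cast Nat.pos_of_ne_zero hsm0) ?_
      exact le_trans (by exact_mod_cast hsl) hlX
    have g2 : Real.log (ro (zz X) l : ℝ) ≤ Real.log X := by
      refine Real.log_le_log (by exact_mod_cast Nat.pos_of_ne_zero hro0) ?_
      exact le_trans (by exact_mod_cast hrl) hlX
    have g3 : 0 ≤ Real.log (sm (zz X) l : ℝ) := Real.log_natCast_nonneg _
    have g4 := c1_le (Uu δ X) (ro (zz X) l)
    have g5 := mr_le (ro (zz X) l)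
    have g6 := mr_le (sm (zz X) l)
    rw [abs_mul]
    have g7 : |mr (ro (zz X) l) * Real.log (sm (zz X) l : ℝ) -
        Pool.BV.c1 (Uu δ X) (ro (zz X) l)| ≤ 2 * Real.log X := by
      refine (abs_sub _ _).trans ?_
      rw [abs_mul, abs_of_nonneg g3]
      have g8 : |mr (ro (zz X) l)| * Real.log (sm (zz X) l : ℝ) ≤ 1 * Real.log X :=
        mul_le_mul g5 g1 g3 zero_le_one
      linarith
    calc |mr (ro (zz X) l) * Real.log (sm (zz X) l : ℝ) -
          Pool.BV.c1 (Uu δ X) (ro (zz X) l)| * |mr (sm (zz X) l)|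
        ≤ (2 * Real.log X) * 1 := mul_le_mul g7 g6 (abs_nonneg _) (by linarith)
      _ ≤ (Real.log X) ^ 2 := by nlinarith
  · rw [abs_zero]
    positivity

open Classical in
theorem tb_rep (δ : ℝ) (h0 : 0 < δ) (h1 : δ ≤ 1 / 2000) (B' : ℕ) : ∃ X0 : ℕ, ∀ X : ℕ, X0 ≤ X →
    ∀ B : ℕ, BRep δ X (B' + 3) B (TB (1 / (Real.log X) ^ B') (zz X) (Uu δ X) (Z1 X)) := by
  obtain ⟨X1, hP⟩ := dc_par δ h0 h1
  refine ⟨X1, fun X hX B => ?_⟩
  obtain ⟨hX1, -, -, -, hUZ, hZz, -, hyX, -, hzX, -, -, hL⟩ := hP X hX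
  obtain ⟨L, hLd⟩ : ∃ L : ℝ, L = Real.log X := ⟨_, rfl⟩
  have hL' : 4 ≤ L := by rw [hLd]; exact hL
  have hL0 : 0 < L := by linarith
  obtain ⟨κ, hκd⟩ : ∃ κ : ℝ, κ = 1 / (Real.log X) ^ B' := ⟨_, rfl⟩
  have hκ : 0 < κ := by rw [hκd, ← hLd]; positivity
  rw [← hκd]
  have hI : ((⌊Real.log X / κ⌋₊ + 1 : ℕ) : ℝ) ≤ (Real.log X) ^ (B' + 2) := by
    have e : Real.log X / κ = L ^ (B' + 1) := by
      rw [hκd, ← hLd, div_div_eq_mul_div, div_one, pow_succ, mul_comm]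
    rw [e, ← hLd]
    have e1 : ((⌊L ^ (B' + 1)⌋₊ : ℕ) : ℝ) ≤ L ^ (B' + 1) := Nat.floor_le (by positivity)
    have e2 : (1 : ℝ) ≤ L ^ (B' + 1) := one_le_pow₀ (by linarith)
    have e3 : L ^ (B' + 2) = L ^ (B' + 1) * L := pow_succ _ _
    rw [e3]
    push_cast
    nlinarith
  have key1 : BRep δ X (B' + 2) (B + 1) (fun n => ∑ l ∈ n.divisors,
      if (∀ p ∈ (n / l).primeFactors, cl κ (sm (zz X) l).minFac ≤ cl κ p) then
        A1 (zz X) (Uu δ X) (Z1 X) l *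
          (fun s : ℕ => if s ≤ X then Real.log (s : ℝ) else 0) (n / l) else 0) := by
    refine brep_cls (by linarith) hI (A1 (zz X) (Uu δ X) (Z1 X))
      (fun s : ℕ => if s ≤ X then Real.log (s : ℝ) else 0)
      (fun l => cl κ (sm (zz X) l).minFac) (fun i s => ∀ p ∈ s.primeFactors, i ≤ cl κ p)
      (tb_A1 hL) ?_ ?_ _ ?_
    · intro s
      split_ifs with hs
      · rcases Nat.eq_zero_or_pos s with h | h
        · rw [h, Nat.cast_zero, Real.log_zero, abs_zero]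
          positivity
        · have f1 : Real.log (s : ℝ) ≤ Real.log X :=
            Real.log_le_log (by exact_mod_cast h) (by exact_mod_cast hs)
          rw [abs_of_nonneg (Real.log_natCast_nonneg s)]
          nlinarith
      · rw [abs_zero]
        positivity
    · intro m hm
      have hc : Cnd (zz X) (Uu δ X) (Z1 X) m := by
        by_contra hc
        exact hm (by unfold A1; rw [if_neg hc])
      exact tb_supp hX1 hUZ hZz hzX hκ hc
    · intro n _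
      refine Finset.sum_congr rfl fun l _ => ?_
      by_cases hq : ∀ p ∈ (n / l).primeFactors, cl κ (sm (zz X) l).minFac ≤ cl κ p
      · rw [if_pos hq, if_pos hq]
      · rw [if_neg hq, if_neg hq]
  have key2 : BRep δ X (B' + 2) (B + 1) (fun n => ∑ l ∈ n.divisors,
      if (∀ p ∈ (n / l).primeFactors, cl κ (sm (zz X) l).minFac ≤ cl κ p) then
        A2 (zz X) (Uu δ X) (Z1 X) l * (fun _ : ℕ => (1 : ℝ)) (n / l) else 0) := by
    refine brep_cls (by linarith) hI (A2 (zz X) (Uu δ X) (Z1 X)) (fun _ : ℕ => (1 : ℝ))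
      (fun l => cl κ (sm (zz X) l).minFac) (fun i s => ∀ p ∈ s.primeFactors, i ≤ cl κ p)
      (tb_A2 hX1 hUZ hZz hzX hyX hL) ?_ ?_ _ ?_
    · intro s
      rw [abs_one]
      nlinarith
    · intro m hm
      have hc : Cnd (zz X) (Uu δ X) (Z1 X) m := by
        by_contra hc
        exact hm (by unfold A2; rw [if_neg hc])
      exact tb_supp hX1 hUZ hZz hzX hκ hc
    · intro n _
      refine Finset.sum_congr rfl fun l _ => ?_
      by_cases hq : ∀ p ∈ (n / l).primeFactors, cl κ (sm (zz X) l).minFac ≤ cl κ p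
      · rw [if_pos hq, if_pos hq]
      · rw [if_neg hq, if_neg hq]
  have key := brep_add hL key1 key2
  refine brep_congr ?_ key
  intro n hn
  dsimp only
  unfold TB
  rw [← Finset.sum_add_distrib]
  refine Finset.sum_congr rfl fun l _ => ?_
  by_cases hq : ∀ p ∈ (n / l).primeFactors, cl κ (sm (zz X) l).minFac ≤ cl κ p
  · have hnl : n / l ≤ X := (Nat.div_le_self _ _).trans (Finset.mem_Icc.1 hn).2
    rw [if_pos hq, if_pos hq, if_pos hq, if_pos hnl, mul_one]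
  · rw [if_neg hq, if_neg hq, if_neg hq, add_zero]

end Pool.MP_dd84fd_nt.HX
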