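import Pool.Agent.Lib.MP_dd84fd_nt.HX.DcSmo
import Pool.Agent.Lib.MP_dd84fd_nt.HX.DcRg

/-!
# HX-DcTS (0.8 h): `T2 - T3a` = type I + `TS`

Proof. For `c ∣ n`, `c ≤ U`, `c` rough: insert `rg_smo z c (n / c) Z` (`c ≤ U < Z`). The left side becomes a double sum over `c ∣ n` (rough, `≤ U`) and `f ∣ n / c` (smooth); put `l = c f`: `ro z l = c`, `sm z l = f`
(`ro_sm_unique`), `l ∣ n`, and conversely `l ∣ n` gives `c = ro z l`, `f = sm z l` (`ro_mul_sm`, `ro_rgh`, `sm_smo`): `Finset.sum_bij'` over sigma types (as in DcSplit). Values: `mr l = mr c * mr f` (coprime: `rgh_smo_coprime`,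
`ArithmeticFunction.isMultiplicative_moebius`), `log (n / c) = log n - log c` in the first sum: `(μ(c) log(n/c) - c1(c)) μ(f) = alC l * log n + beC l`; in the second sum `log (n / c) = log (n / l) + log f`, `n / c / f = n / l`:
`(μ(c) log(n/c) - c1(c)) μ(e) = A1 l * log (n / l) + A2 l`. `Cnd` is the condition `c ≤ U ∧ Z ≤ c e ∧ c e < Z minFac e`.
-/

set_option autoImplicit false

namespace Pool.MP_dd84fd_nt.HX

open Finset

/-- `Σ_{c ∣ n} Σ_{f ∣ n / c} = Σ_{l ∣ n} Σ_{c f = l}` -/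
theorem ts_swap (n : ℕ) (hn : n ≠ 0) (F : ℕ → ℕ → ℝ) :
    ∑ m ∈ n.divisors, ∑ d ∈ (n / m).divisors, F m d =
      ∑ c ∈ n.divisors, ∑ x ∈ c.divisorsAntidiagonal, F x.1 x.2 := by
  rw [Finset.sum_sigma', Finset.sum_sigma']
  refine Finset.sum_bij'
    (i := fun (a : Σ _ : ℕ, ℕ) _ => (⟨a.1 * a.2, (a.1, a.2)⟩ : Σ _ : ℕ, ℕ × ℕ))
    (j := fun (b : Σ _ : ℕ, ℕ × ℕ) _ => (⟨b.2.1, b.2.2⟩ : Σ _ : ℕ, ℕ)) ?_ ?_ ?_ ?_ ?_
  · rintro ⟨m, d⟩ h
    rw [mem_sigma] at h ⊢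
    obtain ⟨h1, h2⟩ := h
    have hm : m ∣ n := Nat.dvd_of_mem_divisors h1
    have hd : d ∣ n / m := Nat.dvd_of_mem_divisors h2
    have hmd : m * d ∣ n := Nat.mul_dvd_of_dvd_div hm hd
    refine ⟨Nat.mem_divisors.2 ⟨hmd, hn⟩, ?_⟩
    exact Nat.mem_divisorsAntidiagonal.2 ⟨rfl, fun h0 => hn (by
      simp only at h0
      rw [h0] at hmd
      exact Nat.eq_zero_of_zero_dvd hmd)⟩
  · rintro ⟨c, x⟩ h
    rw [mem_sigma] at h ⊢
    obtain ⟨h1, h2⟩ := h
    have hc : c ∣ n := Nat.dvd_of_mem_divisors h1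
    obtain ⟨hx, hc0⟩ := Nat.mem_divisorsAntidiagonal.1 h2
    simp only at hx hc0 ⊢
    have hxm : x.1 ∣ n := (Dvd.intro _ hx).trans hc
    refine ⟨Nat.mem_divisors.2 ⟨hxm, hn⟩, ?_⟩
    have hx1 : 0 < x.1 := Nat.pos_of_ne_zero (fun h0 => hc0 (by rw [← hx, h0, zero_mul]))
    refine Nat.mem_divisors.2 ⟨?_, ?_⟩
    · rw [Nat.dvd_div_iff_mul_dvd hxm, hx]
      exact hc
    · exact (Nat.div_pos (Nat.le_of_dvd (Nat.pos_of_ne_zero hn) hxm) hx1).ne'
  · rintro ⟨m, d⟩ _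
    rfl
  · rintro ⟨c, x⟩ h
    rw [mem_sigma] at h
    obtain ⟨hx, _⟩ := Nat.mem_divisorsAntidiagonal.1 h.2
    simp only at hx
    subst hx
    rfl
  · rintro ⟨m, d⟩ _
    rfl

open Classical in
theorem ts_one (z l : ℕ) (hl : l ≠ 0) (g : ℕ → ℕ → ℝ) :
    ∑ x ∈ l.divisorsAntidiagonal, (if Rgh z x.1 ∧ Smo z x.2 then g x.1 x.2 else 0) =
      g (ro z l) (sm z l) := by
  have h1 := ro_mul_sm z l hl
  have h2 := ro_rgh z l hl
  have h3 := sm_smo z l
  rw [Finset.sum_eq_single (ro z l, sm z l)]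
  · rw [if_pos ⟨h2, h3⟩]
  · rintro ⟨a, b⟩ hx hne
    obtain ⟨hab, -⟩ := Nat.mem_divisorsAntidiagonal.1 hx
    simp only at hab ⊢
    rw [if_neg]
    rintro ⟨ha, hb⟩
    apply hne
    have hb0 : b ≠ 0 := fun h => hl (by rw [← hab, h, mul_zero])
    obtain ⟨e1, e2⟩ := ro_sm_unique z a b ha hb0 hb
    rw [hab] at e1 e2
    rw [e1, e2]
  · intro h
    exact absurd (Nat.mem_divisorsAntidiagonal.2 ⟨h1, hl⟩) h

theorem mr_mul_of_coprime (a b : ℕ) (h : Nat.Coprime a b) : mr (a * b) = mr a * mr b := by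
  unfold mr
  rw [ArithmeticFunction.isMultiplicative_moebius.map_mul_of_coprime h]
  push_cast
  ring

open Classical in
theorem ts_id (z U : ℕ) (Z : ℝ) (n : ℕ) (hn : 1 ≤ n) (hUZ : (U : ℝ) < Z) :
    ∑ c ∈ n.divisors, (if c ≤ U then rg z c * rg z (n / c) *
        (mr c * Real.log ((n / c : ℕ) : ℝ) - Pool.BV.c1 U c) else 0) =
      ∑ l ∈ n.divisors, (alC z U Z l * Real.log n + beC z U Z l) + TS z U Z n := by
  have hn0 : n ≠ 0 := by omega
  obtain ⟨g, hg⟩ : ∃ g : ℕ → ℕ → ℝ, g = fun c f : ℕ => if c ≤ U then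
      (mr c * Real.log ((n / c : ℕ) : ℝ) - Pool.BV.c1 U c) *
        ((if (c : ℝ) * f < Z then mr f else 0) + (if Z ≤ (c : ℝ) * f ∧
          (c : ℝ) * f < Z * (f.minFac : ℝ) ∧ (∀ p ∈ (n / c / f).primeFactors, f.minFac ≤ p)
          then mr f else 0)) else 0 := ⟨_, rfl⟩
  have key : ∀ c ∈ n.divisors, (if c ≤ U then rg z c * rg z (n / c) *
        (mr c * Real.log ((n / c : ℕ) : ℝ) - Pool.BV.c1 U c) else 0) =
      ∑ f ∈ (n / c).divisors, (if Rgh z c ∧ Smo z f then g c f else 0) := by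
    intro c hc
    have hcn : c ∣ n := Nat.dvd_of_mem_divisors hc
    have hc0 : 0 < c := Nat.pos_of_mem_divisors hc
    have hk : n / c ≠ 0 := (Nat.div_pos (Nat.le_of_dvd hn hcn) hc0).ne'
    by_cases hcU : c ≤ U
    · by_cases hr : Rgh z c
      · have hcZ : (c : ℝ) < Z := lt_of_le_of_lt (by exact_mod_cast hcU) hUZ
        rw [if_pos hcU, rg_smo z c (n / c) Z hcZ hk, ← sum_add_distrib]
        have hrg : rg z c = 1 := by unfold rg; rw [if_pos hr]
        rw [hrg, one_mul, sum_mul]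
        refine sum_congr rfl fun f _ => ?_
        rw [hg]
        simp only
        rw [if_pos hcU]
        by_cases hf : Smo z f
        · simp only [hf, hr, true_and, and_self, if_true]
          ring
        · simp only [hf, and_false, false_and, if_false, add_zero, zero_mul]
      · have hrg : rg z c = 0 := by unfold rg; rw [if_neg hr]
        rw [if_pos hcU, hrg, zero_mul, zero_mul]
        symm
        exact sum_eq_zero fun f _ => if_neg (fun h => hr h.1)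
    · rw [if_neg hcU]
      symm
      refine sum_eq_zero fun f _ => ?_
      rw [hg]
      simp only
      rw [if_neg hcU]
      exact ite_self _
  rw [sum_congr rfl key, ts_swap n hn0, TS, ← sum_add_distrib]
  refine sum_congr rfl fun l hl => ?_
  have hln : l ∣ n := Nat.dvd_of_mem_divisors hl
  have hl0 : l ≠ 0 := (Nat.pos_of_mem_divisors hl).ne'
  rw [ts_one z l hl0 g]
  have h1 := ro_mul_sm z l hl0
  have h2 := ro_rgh z l hl0
  have h3 := sm_smo z l
  have hs0 : sm z l ≠ 0 := fun h => hl0 (by rw [← h1, h, mul_zero])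
  have hr0 : ro z l ≠ 0 := fun h => hl0 (by rw [← h1, h, zero_mul])
  have hcop := rgh_smo_coprime z (ro z l) (sm z l) h2 hs0 h3
  have hmr : mr l = mr (ro z l) * mr (sm z l) := by
    rw [← mr_mul_of_coprime _ _ hcop, h1]
  have hrn : ro z l ∣ n := (Dvd.intro _ h1).trans hln
  have hlc : ((ro z l : ℕ) : ℝ) * (sm z l : ℕ) = (l : ℝ) := by exact_mod_cast h1
  have hdd : n / ro z l / sm z l = n / l := by rw [Nat.div_div_eq_div_mul, h1]
  have hrpos : (0 : ℝ) < (ro z l : ℕ) := by exact_mod_cast Nat.pos_of_ne_zero hr0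
  have hspos : (0 : ℝ) < (sm z l : ℕ) := by exact_mod_cast Nat.pos_of_ne_zero hs0
  have hlpos : (0 : ℝ) < (l : ℝ) := by exact_mod_cast Nat.pos_of_ne_zero hl0
  have hnpos : (0 : ℝ) < (n : ℝ) := by exact_mod_cast hn
  have hlog1 : Real.log ((n / ro z l : ℕ) : ℝ) = Real.log n - Real.log (ro z l) := by
    rw [Nat.cast_div hrn hrpos.ne', Real.log_div hnpos.ne' hrpos.ne']
  have hlog2 : Real.log ((n / l : ℕ) : ℝ) = Real.log n - Real.log l := by
    rw [Nat.cast_div hln hlpos.ne', Real.log_div hnpos.ne' hlpos.ne']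
  have hlogl : Real.log l = Real.log (ro z l) + Real.log (sm z l) := by
    rw [← hlc, Real.log_mul hrpos.ne' hspos.ne']
  rw [hg]
  simp only
  rw [hdd, hlc]
  unfold alC beC A1 A2 Cnd
  by_cases hU : ro z l ≤ U
  · rw [if_pos hU]
    simp only [hU, true_and]
    by_cases hZ : (l : ℝ) < Z
    · have hZ' : ¬ Z ≤ (l : ℝ) := not_le.2 hZ
      rw [if_pos hZ, if_pos hZ, if_pos hZ, if_neg (fun h => hZ' h.1)]
      rw [if_neg (show ¬ (Z ≤ (l : ℝ) ∧ (l : ℝ) < Z * ((sm z l).minFac : ℝ)) from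
        fun h => hZ' h.1), if_neg (show ¬ (Z ≤ (l : ℝ) ∧ (l : ℝ) < Z * ((sm z l).minFac : ℝ)) from
        fun h => hZ' h.1)]
      rw [hlog1, hmr]
      simp only [zero_mul, add_zero, ite_self]
      ring
    · have hZ' : Z ≤ (l : ℝ) := not_lt.1 hZ
      rw [if_neg hZ, if_neg hZ, if_neg hZ]
      by_cases hM : (l : ℝ) < Z * ((sm z l).minFac : ℝ)
      · by_cases hP : ∀ p ∈ (n / l).primeFactors, (sm z l).minFac ≤ p
        · rw [if_pos ⟨hZ', hM, hP⟩, if_pos hP, if_pos ⟨hZ', hM⟩, if_pos ⟨hZ', hM⟩, hlog1, hlog2,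
            hlogl, hmr]
          ring
        · rw [if_neg (fun h => hP h.2.2), if_neg hP]
          ring
      · rw [if_neg (fun h => hM h.2.1)]
        rw [if_neg (show ¬ (Z ≤ (l : ℝ) ∧ (l : ℝ) < Z * ((sm z l).minFac : ℝ)) from
          fun h => hM h.2), if_neg (show ¬ (Z ≤ (l : ℝ) ∧ (l : ℝ) < Z * ((sm z l).minFac : ℝ)) from
          fun h => hM h.2)]
        simp only [zero_mul, add_zero, ite_self, mul_zero]
  · rw [if_neg hU]
    simp only [hU, false_and, if_false, zero_mul, add_zero, ite_self]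

end Pool.MP_dd84fd_nt.HX
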