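import Pool.Agent.Lib.MP_dd84fd_nt.HX.DcSplit
import Pool.Agent.Lib.MP_dd84fd_nt.HX.DcTS
import Pool.Agent.Lib.MP_dd84fd_nt.HX.DcDif
import Pool.Agent.Lib.MP_dd84fd_nt.HX.DcPc
import Pool.Agent.Lib.MP_dd84fd_nt.HX.DcTB
import Pool.Agent.Lib.MP_dd84fd_nt.HX.Iface

/-!
# HX-DcOne: Proposition 1 (assembly, helper33)
-/

set_option autoImplicit false

namespace Pool.MP_dd84fd_nt.HX

open Finset

/-- `a_L` minus its type I part is of the form `BRep` -/
theorem aL_rep (B : ℕ) : ∃ C : ℕ, ∀ δ : ℝ, 0 < δ → δ ≤ 1 / 2000 → ∃ X0 : ℕ, ∀ X : ℕ, X0 ≤ X →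
    BRep δ X C B (fun n => aL δ X n - ∑ l ∈ n.divisors,
      (alC (zz X) (Uu δ X) (Z1 X) l * Real.log n + beC (zz X) (Uu δ X) (Z1 X) l)) := by
  classical
  obtain ⟨C1, X1, hd⟩ := ts_tb
  set B' : ℕ := 2 * (B + 2 + C1) with hB'
  refine ⟨B' + 4, fun δ h0 h1 => ?_⟩
  obtain ⟨X2, hpar⟩ := dc_par δ h0 h1
  obtain ⟨X3, hE⟩ := pc_E δ h0 h1 (B + 6)
  obtain ⟨X4, hb⟩ := pc_b δ h0 h1
  obtain ⟨X5, hdd⟩ := pc_d δ h0 h1
  obtain ⟨X6, h4a⟩ := pc_4a δ h0 h1
  obtain ⟨X7, h4c⟩ := pc_4c δ h0 h1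
  obtain ⟨X8, htb⟩ := tb_rep δ h0 h1 B'
  refine ⟨max X1 (max X2 (max X3 (max X4 (max X5 (max X6 (max X7 X8)))))), fun X hX => ?_⟩
  simp only [max_le_iff] at hX
  obtain ⟨k1, k2, k3, k4, k5, k6, k7, k8⟩ := hX
  obtain ⟨q1, q2, q3, q4, q5, q6, q7, q8, q9, q10, q11, q12, q13⟩ := hpar X k2
  have hL : (1 : ℝ) ≤ Real.log X := by linarith
  have hL0 : (0 : ℝ) < Real.log X := by linarith
  -- the box error
  have hdif : BRep δ X 0 (B + 2) (fun n => TS (zz X) (Uu δ X) (Z1 X) n -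
      TB (1 / (Real.log X) ^ B') (zz X) (Uu δ X) (Z1 X) n) := by
    refine brep_small hL ?_
    have h2 := hd X k1 (1 / (Real.log X) ^ B') (zz X) (Uu δ X) (Z1 X) (by positivity) (by
      rw [div_le_one (by positivity)]
      exact one_le_pow₀ hL)
    refine h2.trans ?_
    have h3 : Real.sqrt (1 / (Real.log X) ^ B') = 1 / (Real.log X) ^ (B + 2 + C1) := by
      rw [hB', mul_comm, pow_mul, ← Real.sqrt_sq (show (0 : ℝ) ≤ 1 / (Real.log X) ^ (B + 2 + C1) by
        positivity)]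
      congr 1
      rw [div_pow, one_pow]
    rw [h3, pow_add (Real.log X) (B + 2) C1]
    apply le_of_eq
    have h4 : (Real.log X) ^ C1 ≠ 0 := by positivity
    field_simp
  have r1 := brep_add q13 (hE X k3) (hb X k4 (B + 6))
  have r2 := brep_add q13 r1 (brep_mono hL (Nat.zero_le _) (hdd X k5 (B + 5)))
  have r3 := brep_add q13 r2 (brep_mono hL (Nat.zero_le _) (h4a X k6 (B + 4)))
  have r4 := brep_add q13 r3 (brep_mono hL (Nat.zero_le _) (h4c X k7 (B + 3)))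
  have r5 := brep_add q13 r4 (brep_mono hL (Nat.zero_le _) hdif)
  have r6 := brep_add q13 (brep_mono hL (show 5 ≤ B' + 3 by omega) r5) (htb X k8 (B + 1))
  refine brep_congr ?_ r6
  intro n hn
  have hn1 : 1 ≤ n := (mem_Icc.1 hn).1
  rw [aL_split δ X n q2 q3 q4 hn1, ts_id (zz X) (Uu δ X) (Z1 X) n hn1 q5]
  ring

theorem alC_bd (z U : ℕ) (Z : ℝ) (l : ℕ) : |alC z U Z l| ≤ 1 := by
  unfold alC
  split_ifs
  · exact mr_le l
  · simp

theorem beC_bd (z U X : ℕ) (Z : ℝ) (l : ℕ) (hU : (U : ℝ) ≤ X) : |beC z U Z l| ≤ 2 * Real.log X := by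
  have hX0 : 0 ≤ Real.log (X : ℝ) := Real.log_natCast_nonneg X
  unfold beC
  split_ifs with h
  · rcases Nat.eq_zero_or_pos (ro z l) with h0 | h0
    · have h1 := c1_le U (ro z l)
      rw [h0] at h1 ⊢
      simp only [Nat.cast_zero, Real.log_zero, mul_zero, zero_add] at h1 ⊢
      have h2 : Pool.BV.c1 U 0 = 0 := abs_nonpos_iff.1 h1
      rw [h2]
      simp only [zero_mul, neg_zero, abs_zero]
      positivity
    · have h1 : Real.log (ro z l) ≤ Real.log X := by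
        apply Real.log_le_log (by exact_mod_cast h0)
        exact le_trans (by exact_mod_cast h.1) hU
      have h2 : 0 ≤ Real.log (ro z l) := Real.log_natCast_nonneg _
      have h3 := c1_le U (ro z l)
      rw [abs_neg, abs_mul]
      calc |mr (ro z l) * Real.log (ro z l) + Pool.BV.c1 U (ro z l)| * |mr (sm z l)|
          ≤ (|mr (ro z l) * Real.log (ro z l)| + |Pool.BV.c1 U (ro z l)|) * 1 := by
            gcongr
            · exact abs_add_le _ _
            · exact mr_le _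
        _ ≤ (1 * Real.log (ro z l) + Real.log (ro z l)) * 1 := by
            gcongr
            rw [abs_mul, abs_of_nonneg h2]
            gcongr
            exact mr_le _
        _ ≤ 2 * Real.log X := by linarith
  · simp only [abs_zero]
    positivity

theorem dec1 : Dec1 := by
  intro B
  obtain ⟨C, hC⟩ := aL_rep B
  refine ⟨C, fun δ h0 h1 => ?_⟩
  obtain ⟨X1, h2⟩ := hC δ h0 h1
  obtain ⟨X2, hpar⟩ := dc_par δ h0 h1
  refine ⟨max X1 X2, fun X hX => ?_⟩
  obtain ⟨q1, q2, q3, q4, q5, q6, q7, q8, q9, q10, q11, q12, q13⟩ :=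
    hpar X ((le_max_right _ _).trans hX)
  obtain ⟨I, a, c, err, e1, e2, e3, e4, e5⟩ := h2 X ((le_max_left _ _).trans hX)
  refine ⟨alC (zz X) (Uu δ X) (Z1 X), beC (zz X) (Uu δ X) (Z1 X), I, a, c, err, ?_, ?_, e1, e2, e3,
    ?_, e5⟩
  · exact fun l => ⟨alC_bd _ _ _ _, beC_bd _ _ _ _ _ (q3.trans q8)⟩
  · intro l hl
    have h3 : ¬ (l : ℝ) < Z1 X := by
      have := q11
      push Not
      linarith
    constructor
    · unfold alC
      rw [if_neg (fun h => h3 h.2)]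
    · unfold beC
      rw [if_neg (fun h => h3 h.2)]
  · intro n hn
    have h3 := e4 n hn
    simp only at h3
    linarith

end Pool.MP_dd84fd_nt.HX
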