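import Pool.Agent.Lib.MP_dd84fd_nt.HX.DcDefs

/-!
# HX-DcPar (0.5 h): inequalities between the parameters

Proof. All are comparisons of powers of `X` (`Real.rpow_le_rpow_of_exponent_le`, `Real.rpow_add`), `δ ≤ 1/2000`: exponents `1/3 + 3δ ≤ 0.335 < 0.35`, `Z1 X * zz X ≤ X^0.35 (X^0.05 + 1) ≤ 2 X^0.4 ≤ X^(0.4985) ≤ y2`; `y2 y3 = X` exactly;
`1 ≤ Uu` since `X^(1/3+3δ) ≥ 1`; `log X → ∞` for the last two.
-/

set_option autoImplicit false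

namespace Pool.MP_dd84fd_nt.HX

open Finset

theorem dc_par (δ : ℝ) (h0 : 0 < δ) (h1 : δ ≤ 1 / 2000) : ∃ X0 : ℕ, ∀ X : ℕ, X0 ≤ X →
    1 ≤ X ∧ 1 ≤ Uu δ X ∧ (Uu δ X : ℝ) ≤ y2 δ X ∧ y2 δ X ≤ y3 δ X ∧ (Uu δ X : ℝ) < Z1 X ∧
    Z1 X * (zz X : ℝ) ≤ y2 δ X ∧ y2 δ X * y3 δ X = X ∧ y2 δ X ≤ X ∧ y3 δ X ≤ X ∧
    zz X ≤ X ∧ Z1 X ≤ (X : ℝ) ^ (2 / 5 : ℝ) ∧ (2 : ℝ) ^ 20 ≤ (Real.log X) ^ 2 ∧
    4 ≤ Real.log X := by
  have hev : ∀ᶠ X : ℕ in Filter.atTop, (1024 : ℝ) ≤ Real.log (X : ℝ) :=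
    (Real.tendsto_log_atTop.comp tendsto_natCast_atTop_atTop).eventually_ge_atTop 1024
  obtain ⟨X0, hX0⟩ := Filter.eventually_atTop.1 hev
  refine ⟨max X0 2, fun X hX => ?_⟩
  have hlog : (1024 : ℝ) ≤ Real.log (X : ℝ) := hX0 X ((le_max_left _ _).trans hX)
  have hX2 : 2 ≤ X := (le_max_right _ _).trans hX
  have hX1 : 1 ≤ X := by omega
  have hXr : (1 : ℝ) < (X : ℝ) := by exact_mod_cast (by omega : 1 < X)
  have hX1r : (1 : ℝ) ≤ (X : ℝ) := hXr.le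
  have hXp : (0 : ℝ) < (X : ℝ) := by linarith
  have hmono : ∀ a b : ℝ, a ≤ b → (X : ℝ) ^ a ≤ (X : ℝ) ^ b := fun a b hab =>
    Real.rpow_le_rpow_of_exponent_le hX1r hab
  have hUle : (Uu δ X : ℝ) ≤ (X : ℝ) ^ (1 / 3 + 3 * δ) := Nat.floor_le (by positivity)
  have htwo : (2 : ℝ) ≤ (X : ℝ) ^ (197 / 2000 : ℝ) := by
    rw [Real.rpow_def_of_pos hXp]
    have h2 : (1 : ℝ) + Real.log X * (197 / 2000) ≤ Real.exp (Real.log X * (197 / 2000)) := by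
      have := Real.add_one_le_exp (Real.log X * (197 / 2000))
      linarith
    linarith
  have hzz : (zz X : ℝ) ≤ 2 * (X : ℝ) ^ (1 / 20 : ℝ) := by
    have h3 : (zz X : ℝ) < (X : ℝ) ^ (1 / 20 : ℝ) + 1 := Nat.ceil_lt_add_one (by positivity)
    have h4 : (1 : ℝ) ≤ (X : ℝ) ^ (1 / 20 : ℝ) := Real.one_le_rpow hX1r (by norm_num)
    linarith
  refine ⟨hX1, ?_, ?_, ?_, ?_, ?_, ?_, ?_, ?_, ?_, ?_, ?_, ?_⟩
  · exact Nat.le_floor (by simpa using Real.one_le_rpow hX1r (by positivity))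
  · exact hUle.trans (hmono _ _ (by linarith))
  · exact hmono _ _ (by linarith)
  · refine lt_of_le_of_lt hUle ?_
    exact Real.rpow_lt_rpow_of_exponent_lt hXr (by linarith)
  · calc Z1 X * (zz X : ℝ) ≤ (X : ℝ) ^ (7 / 20 : ℝ) * (2 * (X : ℝ) ^ (1 / 20 : ℝ)) :=
          mul_le_mul_of_nonneg_left hzz (Real.rpow_nonneg hXp.le _)
      _ = 2 * ((X : ℝ) ^ (7 / 20 : ℝ) * (X : ℝ) ^ (1 / 20 : ℝ)) := by ring
      _ = 2 * (X : ℝ) ^ (2 / 5 : ℝ) := by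
          rw [← Real.rpow_add hXp]
          norm_num
      _ ≤ (X : ℝ) ^ (197 / 2000 : ℝ) * (X : ℝ) ^ (2 / 5 : ℝ) :=
          mul_le_mul_of_nonneg_right htwo (by positivity)
      _ = (X : ℝ) ^ (997 / 2000 : ℝ) := by
          rw [← Real.rpow_add hXp]
          norm_num
      _ ≤ y2 δ X := hmono _ _ (by linarith)
  · rw [y2, y3, ← Real.rpow_add hXp]
    have h5 : 1 / 2 - 3 * δ + (1 / 2 + 3 * δ) = 1 := by ring
    rw [h5, Real.rpow_one]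
  · calc y2 δ X ≤ (X : ℝ) ^ (1 : ℝ) := hmono _ _ (by linarith)
      _ = X := Real.rpow_one _
  · calc y3 δ X ≤ (X : ℝ) ^ (1 : ℝ) := hmono _ _ (by linarith)
      _ = X := Real.rpow_one _
  · refine Nat.ceil_le.2 ?_
    calc (X : ℝ) ^ (1 / 20 : ℝ) ≤ (X : ℝ) ^ (1 : ℝ) := hmono _ _ (by norm_num)
      _ = X := Real.rpow_one _
  · exact hmono _ _ (by norm_num)
  · have h6 : (1024 : ℝ) ^ 2 ≤ (Real.log X) ^ 2 := pow_le_pow_left₀ (by norm_num) hlog 2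
    calc (2 : ℝ) ^ 20 = 1024 ^ 2 := by norm_num
      _ ≤ _ := h6
  · linarith

/-- powers of `log X` are smaller than `X^(1/2)` -/
theorem dc_log (k : ℕ) : ∃ X0 : ℕ, ∀ X : ℕ, X0 ≤ X →
    (Real.log X) ^ k ≤ (X : ℝ) ^ (1 / 4 : ℝ) := by
  have h := (isLittleO_log_rpow_rpow_atTop (k : ℝ) (by norm_num : (0 : ℝ) < 1 / 4)).bound
    (by norm_num : (0 : ℝ) < 1)
  have h2 : ∀ᶠ X : ℕ in Filter.atTop, ‖Real.log (X : ℝ) ^ (k : ℝ)‖ ≤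
      1 * ‖(X : ℝ) ^ (1 / 4 : ℝ)‖ := tendsto_natCast_atTop_atTop.eventually h
  obtain ⟨X0, hX0⟩ := Filter.eventually_atTop.1 h2
  refine ⟨X0, fun X hX => ?_⟩
  have h3 := hX0 X hX
  rw [one_mul, Real.rpow_natCast] at h3
  have h4 : 0 ≤ (X : ℝ) ^ (1 / 4 : ℝ) := by positivity
  rw [Real.norm_of_nonneg h4] at h3
  exact (le_abs_self _).trans h3

end Pool.MP_dd84fd_nt.HX
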