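import Pool.Agent.Lib.MP_dd84fd_nt.HX.DcVau
import Pool.Agent.Lib.MP_dd84fd_nt.HX.DcRg

/-!
# HX-DcSplit: `a_L = E1 + (T2 - T3a) - T3b - T3d + T4a + T4c` (helper33)
-/

set_option autoImplicit false

namespace Pool.MP_dd84fd_nt.HX

open Finset

/-- `Σ_{m ∣ n} Σ_{d ∣ n / m} = Σ_{c ∣ n} Σ_{m d = c}` -/
theorem divs_swap (n : ℕ) (hn : n ≠ 0) (f : ℕ → ℕ → ℕ → ℝ) :
    ∑ m ∈ n.divisors, ∑ d ∈ (n / m).divisors, f m d (n / m / d) =
      ∑ c ∈ n.divisors, ∑ x ∈ c.divisorsAntidiagonal, f x.1 x.2 (n / c) := by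
  rw [Finset.sum_sigma', Finset.sum_sigma']
  refine Finset.sum_bij'
    (i := fun (a : Σ _ : ℕ, ℕ) _ => (⟨a.1 * a.2, (a.1, a.2)⟩ : Σ _ : ℕ, ℕ × ℕ))
    (j := fun (b : Σ _ : ℕ, ℕ × ℕ) _ => (⟨b.2.1, b.2.2⟩ : Σ _ : ℕ, ℕ)) ?_ ?_ ?_ ?_ ?_
  · rintro ⟨m, d⟩ h
    rw [mem_sigma] at h ⊢
    obtain ⟨h1, h2⟩ := h
    have hm : m ∣ n := Nat.dvd_of_mem_divisors h1
    have hd : d ∣ n / m := Nat.dvd_of_mem_divisors h2
    have hmd : m * d ∣ n := Nat.mul_dvd_of_dvd_div hm hd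
    refine ⟨Nat.mem_divisors.2 ⟨hmd, hn⟩, ?_⟩
    exact Nat.mem_divisorsAntidiagonal.2 ⟨rfl, fun h0 => hn (by
      simp only at h0
      rw [h0] at hmd
      exact Nat.eq_zero_of_zero_dvd hmd)⟩
  · rintro ⟨c, x⟩ h
    rw [mem_sigma] at h ⊢
    obtain ⟨h1, h2⟩ := h
    have hc : c ∣ n := Nat.dvd_of_mem_divisors h1
    obtain ⟨hx, hc0⟩ := Nat.mem_divisorsAntidiagonal.1 h2
    simp only at hx hc0 ⊢
    have hxm : x.1 ∣ n := (Dvd.intro _ hx).trans hc
    refine ⟨Nat.mem_divisors.2 ⟨hxm, hn⟩, ?_⟩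
    have hx1 : 0 < x.1 := Nat.pos_of_ne_zero (fun h0 => hc0 (by rw [← hx, h0, zero_mul]))
    refine Nat.mem_divisors.2 ⟨?_, ?_⟩
    · rw [Nat.dvd_div_iff_mul_dvd hxm, hx]
      exact hc
    · exact (Nat.div_pos (Nat.le_of_dvd (Nat.pos_of_ne_zero hn) hxm) hx1).ne'
  · rintro ⟨m, d⟩ _
    rfl
  · rintro ⟨c, x⟩ h
    rw [mem_sigma] at h
    obtain ⟨hx, _⟩ := Nat.mem_divisorsAntidiagonal.1 h.2
    simp only at hx
    subst hx
    rfl
  · rintro ⟨m, d⟩ _
    simp only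
    rw [Nat.div_div_eq_div_mul]

theorem ind_eq (p : Prop) [Decidable p] : ind p = if p then 1 else 0 := by
  unfold ind
  split_ifs <;> rfl

open Classical in
/-- the second part of `- D` -/
theorem dn_part2 (δ : ℝ) (X n : ℕ) (hn : n ≠ 0) :
    ∑ m ∈ n.divisors, La m * rg (zz X) m * (rg (zz X) (n / m) *
      ∑ d ∈ (n / m).divisors.filter (fun d => d ≤ Uu δ X),
        ((ArithmeticFunction.moebius d : ℤ) : ℝ) *
        (ind ((m : ℝ) ≤ Uu δ X ∧ y2 δ X < d * (m : ℝ) ∧ d * (m : ℝ) ≤ y3 δ X) +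
          ind ((m : ℝ) ≤ Uu δ X ∧ y3 δ X < d * (m : ℝ) ∧ n / m / d ≤ Uu δ X))) =
      ∑ c ∈ n.divisors, rg (zz X) c * rg (zz X) (n / c) * Pool.BV.c1 (Uu δ X) c *
        (ind (y2 δ X < c ∧ (c : ℝ) ≤ y3 δ X) + ind (y3 δ X < c ∧ n / c ≤ Uu δ X)) := by
  obtain ⟨F, hF⟩ : ∃ F : ℕ → ℕ → ℕ → ℝ, F = fun m d e : ℕ => if m ≤ Uu δ X ∧ d ≤ Uu δ X then
        La m * mr d * rg (zz X) n * (ind (y2 δ X < ((m * d : ℕ) : ℝ) ∧ ((m * d : ℕ) : ℝ) ≤ y3 δ X) +
          ind (y3 δ X < ((m * d : ℕ) : ℝ) ∧ e ≤ Uu δ X)) else 0 := ⟨_, rfl⟩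
  have h1 : ∀ m ∈ n.divisors, La m * rg (zz X) m * (rg (zz X) (n / m) *
      ∑ d ∈ (n / m).divisors.filter (fun d => d ≤ Uu δ X),
        ((ArithmeticFunction.moebius d : ℤ) : ℝ) *
        (ind ((m : ℝ) ≤ Uu δ X ∧ y2 δ X < d * (m : ℝ) ∧ d * (m : ℝ) ≤ y3 δ X) +
          ind ((m : ℝ) ≤ Uu δ X ∧ y3 δ X < d * (m : ℝ) ∧ n / m / d ≤ Uu δ X))) =
      ∑ d ∈ (n / m).divisors, F m d (n / m / d) := by
    intro m hm
    have hmn : m * (n / m) = n := Nat.mul_div_cancel' (Nat.dvd_of_mem_divisors hm)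
    have hr : rg (zz X) m * rg (zz X) (n / m) = rg (zz X) n := by rw [← rg_mul, hmn]
    rw [mul_sum, mul_sum, sum_filter]
    refine sum_congr rfl fun d _ => ?_
    rw [hF]
    simp only
    have hmd : ((m * d : ℕ) : ℝ) = d * (m : ℝ) := by push_cast; ring
    by_cases hd : d ≤ Uu δ X
    · by_cases hmU : m ≤ Uu δ X
      · have hmU' : (m : ℝ) ≤ Uu δ X := by exact_mod_cast hmU
        rw [if_pos hd, if_pos ⟨hmU, hd⟩, hmd]
        simp only [hmU', true_and]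
        rw [← hr]
        unfold mr
        ring
      · have hmU' : ¬ (m : ℝ) ≤ Uu δ X := by
          intro h; exact hmU (by exact_mod_cast h)
        rw [if_pos hd, if_neg (fun h => hmU h.1)]
        simp only [hmU', false_and]
        rw [ind_eq, if_neg not_false]
        ring
    · rw [if_neg hd, if_neg (fun h => hd h.2)]
  rw [sum_congr rfl h1, divs_swap n hn]
  refine sum_congr rfl fun c hc => ?_
  have hcn : c * (n / c) = n := Nat.mul_div_cancel' (Nat.dvd_of_mem_divisors hc)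
  have hr : rg (zz X) c * rg (zz X) (n / c) = rg (zz X) n := by rw [← rg_mul, hcn]
  rw [hr]
  unfold Pool.BV.c1
  rw [sum_filter, mul_sum, sum_mul]
  refine sum_congr rfl fun x hx => ?_
  obtain ⟨hx1, _⟩ := Nat.mem_divisorsAntidiagonal.1 hx
  rw [hF]
  simp only
  rw [hx1]
  by_cases h : x.1 ≤ Uu δ X ∧ x.2 ≤ Uu δ X
  · rw [if_pos h, if_pos h]
    unfold La mr
    ring
  · rw [if_neg h, if_neg h]
    ring

open Classical in
theorem aL_split (δ : ℝ) (X n : ℕ) (hU : 1 ≤ Uu δ X) (hy : (Uu δ X : ℝ) ≤ y2 δ X)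
    (hy' : y2 δ X ≤ y3 δ X) (hn : 1 ≤ n) :
    aL δ X n = (if n ≤ Uu δ X then rg (zz X) n * La n else 0) +
      ∑ c ∈ n.divisors, (if c ≤ Uu δ X then rg (zz X) c * rg (zz X) (n / c) *
        (mr c * Real.log ((n / c : ℕ) : ℝ) - Pool.BV.c1 (Uu δ X) c) else 0) -
      ∑ c ∈ n.divisors, (if Uu δ X < c ∧ (c : ℝ) ≤ y2 δ X then
        Pool.BV.c1 (Uu δ X) c * rg (zz X) c * rg (zz X) (n / c) else 0) -
      ∑ c ∈ n.divisors, (if y3 δ X < (c : ℝ) ∧ Uu δ X < n / c then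
        Pool.BV.c1 (Uu δ X) c * rg (zz X) c * rg (zz X) (n / c) else 0) +
      ∑ m ∈ n.divisors, (if Uu δ X < m ∧ (m : ℝ) ≤ y2 δ X ∧ Uu δ X < n / m then
        La m * rg (zz X) m * (Pool.BV.c2 (Uu δ X) (n / m) * rg (zz X) (n / m)) else 0) +
      ∑ m ∈ n.divisors, (if y3 δ X < (m : ℝ) ∧ Uu δ X < n / m then
        La m * rg (zz X) m * (Pool.BV.c2 (Uu δ X) (n / m) * rg (zz X) (n / m)) else 0) := by
  have hn0 : n ≠ 0 := by omega
  have hrr : ∀ m ∈ n.divisors, rg (zz X) n = rg (zz X) m * rg (zz X) (n / m) := by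
    intro m hm
    rw [← rg_mul, Nat.mul_div_cancel' (Nat.dvd_of_mem_divisors hm)]
  have h1 : aL δ X n = rg (zz X) n * La n + ∑ m ∈ n.divisors, La m * rg (zz X) m *
      vv δ X m (n / m) := by
    unfold aL Dn La
    ring
  have h2 : ∑ m ∈ n.divisors, La m * rg (zz X) m * vv δ X m (n / m) =
      ∑ m ∈ n.divisors, La m * rg (zz X) m * (rg (zz X) (n / m) * (-Pool.BV.c2 (Uu δ X) (n / m) *
        ind (y2 δ X < (m : ℝ) ∧ (m : ℝ) ≤ y3 δ X ∧ Uu δ X < n / m))) +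
      ∑ c ∈ n.divisors, rg (zz X) c * rg (zz X) (n / c) * Pool.BV.c1 (Uu δ X) c *
        (ind (y2 δ X < c ∧ (c : ℝ) ≤ y3 δ X) + ind (y3 δ X < c ∧ n / c ≤ Uu δ X)) := by
    rw [← dn_part2 δ X n hn0, ← sum_add_distrib]
    refine sum_congr rfl fun m _ => ?_
    unfold vv
    ring
  have h3 := vau_pt (Uu δ X) n hU hn
  rw [h1, h2]
  -- distribute `rg n`
  have h4 : rg (zz X) n * ((if n ≤ Uu δ X then La n else 0) +
      ∑ d ∈ n.divisors, (if d ≤ Uu δ X then mr d * Real.log ((n / d : ℕ) : ℝ) else 0) -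
      ∑ c ∈ n.divisors, Pool.BV.c1 (Uu δ X) c +
      ∑ m ∈ n.divisors, (if Uu δ X < m ∧ Uu δ X < n / m then
        La m * Pool.BV.c2 (Uu δ X) (n / m) else 0)) =
      (if n ≤ Uu δ X then rg (zz X) n * La n else 0) +
      ∑ c ∈ n.divisors, (rg (zz X) c * rg (zz X) (n / c) *
        ((if c ≤ Uu δ X then mr c * Real.log ((n / c : ℕ) : ℝ) else 0) -
          Pool.BV.c1 (Uu δ X) c)) +
      ∑ m ∈ n.divisors, (rg (zz X) m * rg (zz X) (n / m) * (if Uu δ X < m ∧ Uu δ X < n / m then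
        La m * Pool.BV.c2 (Uu δ X) (n / m) else 0)) := by
    have e1 : ∑ c ∈ n.divisors, (rg (zz X) c * rg (zz X) (n / c) *
        ((if c ≤ Uu δ X then mr c * Real.log ((n / c : ℕ) : ℝ) else 0) -
          Pool.BV.c1 (Uu δ X) c)) = rg (zz X) n *
        (∑ d ∈ n.divisors, (if d ≤ Uu δ X then mr d * Real.log ((n / d : ℕ) : ℝ) else 0) -
          ∑ c ∈ n.divisors, Pool.BV.c1 (Uu δ X) c) := by
      rw [← sum_sub_distrib, mul_sum]
      exact sum_congr rfl fun c hc => by rw [← hrr c hc]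
    have e2 : ∑ m ∈ n.divisors, (rg (zz X) m * rg (zz X) (n / m) *
        (if Uu δ X < m ∧ Uu δ X < n / m then La m * Pool.BV.c2 (Uu δ X) (n / m) else 0)) =
        rg (zz X) n * ∑ m ∈ n.divisors, (if Uu δ X < m ∧ Uu δ X < n / m then
          La m * Pool.BV.c2 (Uu δ X) (n / m) else 0) := by
      rw [mul_sum]
      exact sum_congr rfl fun c hc => by rw [← hrr c hc]
    rw [e1, e2]
    split_ifs <;> ring
  have h7 := (congrArg (fun t => rg (zz X) n * t) h3).trans h4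
  -- the two families
  have h5 : ∑ c ∈ n.divisors, (rg (zz X) c * rg (zz X) (n / c) *
        ((if c ≤ Uu δ X then mr c * Real.log ((n / c : ℕ) : ℝ) else 0) -
          Pool.BV.c1 (Uu δ X) c)) +
      ∑ c ∈ n.divisors, rg (zz X) c * rg (zz X) (n / c) * Pool.BV.c1 (Uu δ X) c *
        (ind (y2 δ X < c ∧ (c : ℝ) ≤ y3 δ X) + ind (y3 δ X < c ∧ n / c ≤ Uu δ X)) =
      ∑ c ∈ n.divisors, (if c ≤ Uu δ X then rg (zz X) c * rg (zz X) (n / c) *
        (mr c * Real.log ((n / c : ℕ) : ℝ) - Pool.BV.c1 (Uu δ X) c) else 0) -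
      ∑ c ∈ n.divisors, (if Uu δ X < c ∧ (c : ℝ) ≤ y2 δ X then
        Pool.BV.c1 (Uu δ X) c * rg (zz X) c * rg (zz X) (n / c) else 0) -
      ∑ c ∈ n.divisors, (if y3 δ X < (c : ℝ) ∧ Uu δ X < n / c then
        Pool.BV.c1 (Uu δ X) c * rg (zz X) c * rg (zz X) (n / c) else 0) := by
    rw [← sum_add_distrib, ← sum_sub_distrib, ← sum_sub_distrib]
    refine sum_congr rfl fun c _ => ?_
    rw [ind_eq, ind_eq]
    by_cases a1 : c ≤ Uu δ X
    · have a2 : (c : ℝ) ≤ Uu δ X := by exact_mod_cast a1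
      rw [if_pos a1, if_pos a1, if_neg (fun h => absurd h.1 (by linarith)),
        if_neg (fun h => absurd h.1 (by linarith)), if_neg (fun h => absurd h.1 (by omega)),
        if_neg (fun h => absurd h.1 (by linarith))]
      ring
    · have a2 : Uu δ X < c := by omega
      rw [if_neg a1, if_neg a1]
      by_cases b1 : (c : ℝ) ≤ y2 δ X
      · rw [if_neg (fun h => absurd h.1 (by linarith)), if_neg (fun h => absurd h.1 (by linarith)),
          if_pos ⟨a2, b1⟩, if_neg (fun h => absurd h.1 (by linarith))]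
        ring
      · push Not at b1
        rw [if_neg (show ¬ (Uu δ X < c ∧ (c : ℝ) ≤ y2 δ X) from fun h => absurd h.2 (by linarith))]
        by_cases b2 : (c : ℝ) ≤ y3 δ X
        · rw [if_pos ⟨b1, b2⟩, if_neg (fun h => absurd h.1 (by linarith)),
            if_neg (fun h => absurd h.1 (by linarith))]
          ring
        · push Not at b2
          rw [if_neg (fun h => absurd h.2 (by linarith))]
          by_cases b3 : n / c ≤ Uu δ X
          · rw [if_pos ⟨b2, b3⟩, if_neg (fun h => absurd h.2 (by omega))]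
            ring
          · rw [if_neg (fun h => b3 h.2), if_pos ⟨b2, by omega⟩]
            ring
  have h6 : ∑ m ∈ n.divisors, (rg (zz X) m * rg (zz X) (n / m) *
        (if Uu δ X < m ∧ Uu δ X < n / m then La m * Pool.BV.c2 (Uu δ X) (n / m) else 0)) +
      ∑ m ∈ n.divisors, La m * rg (zz X) m * (rg (zz X) (n / m) * (-Pool.BV.c2 (Uu δ X) (n / m) *
        ind (y2 δ X < (m : ℝ) ∧ (m : ℝ) ≤ y3 δ X ∧ Uu δ X < n / m))) =
      ∑ m ∈ n.divisors, (if Uu δ X < m ∧ (m : ℝ) ≤ y2 δ X ∧ Uu δ X < n / m then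
        La m * rg (zz X) m * (Pool.BV.c2 (Uu δ X) (n / m) * rg (zz X) (n / m)) else 0) +
      ∑ m ∈ n.divisors, (if y3 δ X < (m : ℝ) ∧ Uu δ X < n / m then
        La m * rg (zz X) m * (Pool.BV.c2 (Uu δ X) (n / m) * rg (zz X) (n / m)) else 0) := by
    rw [← sum_add_distrib, ← sum_add_distrib]
    refine sum_congr rfl fun m _ => ?_
    rw [ind_eq]
    by_cases k : Uu δ X < n / m
    · by_cases a1 : Uu δ X < m
      · rw [if_pos ⟨a1, k⟩]
        by_cases b1 : (m : ℝ) ≤ y2 δ X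
        · rw [if_neg (fun h => absurd h.1 (by linarith)), if_pos ⟨a1, b1, k⟩,
            if_neg (fun h => absurd h.1 (by linarith))]
          ring
        · push Not at b1
          by_cases b2 : (m : ℝ) ≤ y3 δ X
          · rw [if_pos ⟨b1, b2, k⟩, if_neg (fun h => absurd h.2.1 (by linarith)),
              if_neg (fun h => absurd h.1 (by linarith))]
            ring
          · push Not at b2
            rw [if_neg (fun h => absurd h.2.1 (by linarith)),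
              if_neg (fun h => absurd h.2.1 (by linarith)), if_pos ⟨b2, k⟩]
            ring
      · have a2 : (m : ℝ) ≤ Uu δ X := by
          have : m ≤ Uu δ X := by omega
          exact_mod_cast this
        rw [if_neg (fun h => a1 h.1), if_neg (fun h => absurd h.1 (by linarith)),
          if_neg (fun h => a1 h.1), if_neg (fun h => absurd h.1 (by linarith))]
        ring
    · rw [if_neg (fun h => k h.2), if_neg (fun h => k h.2.2), if_neg (fun h => k h.2.2),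
        if_neg (fun h => k h.2)]
      ring
  linear_combination h7 + h5 + h6

end Pool.MP_dd84fd_nt.HX
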