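import Pool.Agent.Lib.MP_dd84fd_nt.HX.DcOne
import Pool.Agent.Lib.BV.DivMom

/-!
# HX-DcTwo (1 h): Proposition 1' from Proposition 1

Proof. Take `dec1 (B + 3)` (constant `C`), `κ = 1 / L^B2`, `B2` large in terms of `B`, `C` (below), `U = Uu δ X`, `M' j = min (U (1+κ)^j) y2`, `K' j = ⌊X / (M' j (1+κ))⌋₊`, `J = ⌊L / log (1+κ)⌋₊ + 2 ≤ L^(B2+2)` blocks. For `U < m ≤ y2` let `jj m` be the `j < J` with
`U (1+κ)^j < m ≤ U (1+κ)^(j+1)` (`jj m = ⌈log (m/U) / log (1+κ)⌉₊ - 1`; define it by `Nat.find` or ceiling). Index `t = i J + j` (`i = t / J`, `j = t % J`; `Σ_{t < I J} f (t / J) (t % J) = Σ_i Σ_j f i j`: induction on `I`, `Finset.sum_range_add`):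
`a' t m = if U < m ∧ m ≤ y2 ∧ jj m = t % J then a (t / J) m else 0`, `c' t k = c (t / J) k / log (M' (t % J) k)` for `k ≥ 1`, `0` for `k = 0` (`|c'| ≤ |c|`: `log (M' k) ≥ log U ≥ 1`), `M t = M' (t % J)`, `K t = K' (t % J)`; `M' ≥ U ≥ 1`, `M' ≤ y2`, `K' M' ≤ X`; `a' t m ≠ 0` gives `M' < m ≤ (1+κ) M' ≤ 2 M'`
(if `U (1+κ)^j > y2` there is no such `m ≤ y2`). `α, β` as in `dec1`.
Error at `n ≥ 2`: `err n / log n + Σ_i Σ_{m ∣ n} a_i(m) c_i(k) (1 / log n - [k ≤ K'] / log (M' k))`, `k = n / m`. If `k ≤ K'`: `0 ≤ 1 / log (M' k) - 1 / log (m k) ≤ log (m / M') ≤ κ` (logs `≥ 1`). If `k > K'` then `k (1+κ) M' > X`, `n = m k > M' k > X / (1+κ)`, and `1 / log n ≤ 1`.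
So `|error| ≤ 2 |err n| + L^(C+4) τ(n) (κ + [n > X / (1+κ)])`; `n = 1`: `an = 0`, `|α 1 + β 1 / 0| ≤ 1`, the bilinear terms vanish (`m > U ≥ 1`). Squares: `Σ τ² ≤ X (1+L)^C'`, `Σ_{X/(1+κ) < n ≤ X} τ² ≤ (κ X + 1)^(1/2) (Σ τ⁴)^(1/2)`
(Cauchy-Schwarz; `#{X/(1+κ) < n ≤ X} ≤ κ X + 1 ≤ 2 κ X`), so everything is `≤ X L^(2C + 8 + C'') κ^(1/2)`.
-/

set_option autoImplicit false

namespace Pool.MP_dd84fd_nt.HX

open Finset

/-- sums over pairs of indices -/
theorem dcw_sum (f : ℕ → ℕ → ℝ) (J : ℕ) (hJ : 0 < J) : ∀ I : ℕ,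
    ∑ t ∈ range (I * J), f (t / J) (t % J) = ∑ i ∈ range I, ∑ j ∈ range J, f i j := by
  intro I
  induction I with
  | zero => simp
  | succ I ih =>
    rw [Nat.succ_mul, Finset.sum_range_add, ih, Finset.sum_range_succ]
    congr 1
    refine Finset.sum_congr rfl fun j hj => ?_
    rw [Finset.mem_range] at hj
    have e1 : (I * J + j) / J = I := by
      rw [Nat.mul_comm, Nat.mul_add_div hJ, Nat.div_eq_of_lt hj, Nat.add_zero]
    have e2 : (I * J + j) % J = j := by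
      rw [Nat.mul_comm, Nat.mul_add_mod, Nat.mod_eq_of_lt hj]
    rw [e1, e2]

/-- the parameters of the blocks -/
theorem dcw_block {κ U y L : ℝ} (hκ : 0 < κ) (hκ1 : κ ≤ 1) (hU : 1 ≤ U) (hy : y ≤ Real.exp L * U)
    {J : ℕ} (hJ : 2 * L ≤ κ * J) (hJ0 : 0 < J) :
    ∃ jj : ℕ → ℕ, ∀ m : ℕ, U < m → (m : ℝ) ≤ y →
      U * (1 + κ) ^ (jj m) < m ∧ (m : ℝ) ≤ U * (1 + κ) ^ (jj m) * (1 + κ) ∧ jj m < J := by
  classical
  have hU0 : 0 < U := by linarith
  have h1 : ∀ m : ℕ, U < m → (m : ℝ) ≤ y → ∃ j, U * (1 + κ) ^ j < m ∧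
      (m : ℝ) ≤ U * (1 + κ) ^ j * (1 + κ) ∧ j < J := by
    intro m hm hmy
    have hexp : Real.exp L ≤ (1 + κ) ^ J := by
      have e1 : Real.exp (κ / 2) ≤ 1 + κ := by
        have := Real.exp_bound_div_one_sub_of_interval (x := κ / 2) (by linarith) (by linarith)
        refine this.trans ?_
        rw [div_le_iff₀ (by linarith)]
        nlinarith
      calc Real.exp L ≤ Real.exp (κ / 2 * J) := Real.exp_le_exp.mpr (by linarith)
        _ = Real.exp (κ / 2) ^ J := by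
          rw [← Real.exp_nat_mul]
          congr 1
          exact mul_comm _ _
        _ ≤ (1 + κ) ^ J := pow_le_pow_left₀ (Real.exp_pos _).le e1 J
    have hex : ∃ j, (m : ℝ) ≤ U * (1 + κ) ^ j * (1 + κ) ∧ j < J := by
      refine ⟨J - 1, ?_, by omega⟩
      have e2 : (1 + κ) ^ (J - 1) * (1 + κ) = (1 + κ) ^ J := by
        rw [← pow_succ]
        congr 1
        omega
      rw [mul_assoc, e2]
      calc (m : ℝ) ≤ y := hmy
        _ ≤ Real.exp L * U := hy
        _ ≤ (1 + κ) ^ J * U := mul_le_mul_of_nonneg_right hexp hU0.le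
        _ = U * (1 + κ) ^ J := mul_comm _ _
    obtain ⟨h3, h4⟩ := Nat.find_spec hex
    refine ⟨Nat.find hex, ?_, h3, h4⟩
    rcases Nat.eq_zero_or_pos (Nat.find hex) with h5 | h5
    · rw [h5, pow_zero, mul_one]
      exact hm
    · have h6 := Nat.find_min hex (m := Nat.find hex - 1) (by omega)
      by_contra h7
      apply h6
      refine ⟨?_, by omega⟩
      have e3 : (1 + κ) ^ (Nat.find hex - 1) * (1 + κ) = (1 + κ) ^ (Nat.find hex) := by
        rw [← pow_succ]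
        congr 1
        omega
      rw [mul_assoc, e3]
      exact not_lt.mp h7
  choose! jj hjj using h1
  exact ⟨jj, fun m h2 h3 => hjj m h2 h3⟩

/-- comparison of the weights -/
theorem dcw_weight {κ M X : ℝ} {m k K : ℕ} (hκ : 0 < κ) (hM : Real.exp 1 ≤ M)
    (h1 : M < m) (h2 : (m : ℝ) ≤ M * (1 + κ)) (hk : 1 ≤ k) (hK : K = ⌊X / (M * (1 + κ))⌋₊) :
    |1 / Real.log ((m * k : ℕ) : ℝ) - (if k ≤ K then 1 / Real.log (M * k) else 0)| ≤
      κ + (if X / (1 + κ) < ((m * k : ℕ) : ℝ) then 1 else 0) := by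
  have hM0 : 0 < M := lt_of_lt_of_le (Real.exp_pos 1) hM
  have hk1 : (1 : ℝ) ≤ k := by exact_mod_cast hk
  have hk0 : (0 : ℝ) < k := by linarith
  have hm0 : (0 : ℝ) < m := by linarith
  have hl1 : 1 ≤ Real.log (M * k) := by
    rw [Real.le_log_iff_exp_le (by positivity)]
    nlinarith
  have hmk : M * k < (m : ℝ) * k := mul_lt_mul_of_pos_right h1 hk0
  have hl2 : Real.log (M * k) ≤ Real.log ((m : ℝ) * k) :=
    Real.log_le_log (by positivity) hmk.le
  push_cast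
  by_cases h : k ≤ K
  · rw [if_pos h]
    have h3 : Real.log ((m : ℝ) * k) - Real.log (M * k) ≤ κ := by
      rw [Real.log_mul hm0.ne' hk0.ne', Real.log_mul hM0.ne' hk0.ne']
      have h4 : Real.log m ≤ Real.log M + Real.log (1 + κ) := by
        rw [← Real.log_mul hM0.ne' (by linarith)]
        exact Real.log_le_log hm0 h2
      have h5 := Real.log_le_sub_one_of_pos (show 0 < 1 + κ by linarith)
      linarith
    have h6 : |1 / Real.log ((m : ℝ) * k) - 1 / Real.log (M * k)| ≤ κ := by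
      have e : 1 / Real.log ((m : ℝ) * k) - 1 / Real.log (M * k) =
          -((Real.log ((m : ℝ) * k) - Real.log (M * k)) /
            (Real.log ((m : ℝ) * k) * Real.log (M * k))) := by
        have g1 : Real.log ((m : ℝ) * k) ≠ 0 := by linarith
        have g2 : Real.log (M * k) ≠ 0 := by linarith
        generalize Real.log ((m : ℝ) * k) = u at g1
        generalize Real.log (M * k) = v at g2
        field_simp
        ring
      rw [e, abs_neg, abs_of_nonneg (div_nonneg (by linarith) (by nlinarith))]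
      rw [div_le_iff₀ (by nlinarith)]
      have h7 : 1 ≤ Real.log ((m : ℝ) * k) * Real.log (M * k) := by nlinarith
      nlinarith
    have h8 : (0 : ℝ) ≤ (if X / (1 + κ) < (m : ℝ) * k then (1 : ℝ) else 0) := by
      split_ifs <;> norm_num
    linarith
  · rw [if_neg h, sub_zero]
    have h3 : X / (M * (1 + κ)) < k := by
      have := Nat.lt_floor_add_one (X / (M * (1 + κ)))
      have h4 : (K : ℝ) + 1 ≤ k := by exact_mod_cast (by omega : K + 1 ≤ k)
      rw [← hK] at this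
      linarith
    have h4 : X / (1 + κ) < (m : ℝ) * k := by
      rw [div_lt_iff₀ (by positivity)] at h3 ⊢
      nlinarith
    rw [if_pos h4, abs_of_nonneg (div_nonneg zero_le_one (by linarith))]
    have h5 : 1 / Real.log ((m : ℝ) * k) ≤ 1 := by
      rw [div_le_one (by linarith)]
      linarith
    linarith

/-- the pointwise comparison -/
theorem dcw_point {I J : ℕ} {a c : ℕ → ℕ → ℝ} {L κ X : ℝ} {Mp : ℕ → ℝ} {Kp : ℕ → ℕ} {jj : ℕ → ℕ}
    {P : ℕ → Prop} [DecidablePred P] (hJ : 0 < J) (hκ : 0 ≤ κ)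
    (hac : ∀ i n, |a i n| ≤ L ^ 2 ∧ |c i n| ≤ L ^ 2) (hP : ∀ i m, a i m ≠ 0 → P m)
    (hjj : ∀ m, P m → jj m < J)
    (hw : ∀ m k : ℕ, P m → 1 ≤ k → |1 / Real.log ((m * k : ℕ) : ℝ) -
      (if k ≤ Kp (jj m) then 1 / Real.log (Mp (jj m) * k) else 0)| ≤
        κ + (if X / (1 + κ) < ((m * k : ℕ) : ℝ) then 1 else 0)) {n : ℕ} (hn : 1 ≤ n) :
    |(∑ i ∈ range I, ∑ m ∈ n.divisors, a i m * c i (n / m)) / Real.log n -
      ∑ t ∈ range (I * J), ∑ m ∈ n.divisors, (if n / m ≤ Kp (t % J) then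
        (if P m ∧ jj m = t % J then a (t / J) m else 0) *
        (if n / m = 0 then 0 else c (t / J) (n / m) / Real.log (Mp (t % J) * ((n / m : ℕ) : ℝ)))
        else 0)| ≤
      I * (n.divisors.card : ℝ) * L ^ 4 * (κ + (if X / (1 + κ) < (n : ℝ) then 1 else 0)) := by
  have e1 := dcw_sum (fun i j => ∑ m ∈ n.divisors, (if n / m ≤ Kp j then
        (if P m ∧ jj m = j then a i m else 0) *
        (if n / m = 0 then 0 else c i (n / m) / Real.log (Mp j * ((n / m : ℕ) : ℝ)))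
        else 0)) J hJ I
  rw [e1, Finset.sum_div, ← Finset.sum_sub_distrib]
  have e2 : ∀ i ∈ range I, (∑ m ∈ n.divisors, a i m * c i (n / m)) / Real.log n -
      ∑ j ∈ range J, ∑ m ∈ n.divisors, (if n / m ≤ Kp j then
        (if P m ∧ jj m = j then a i m else 0) *
        (if n / m = 0 then 0 else c i (n / m) / Real.log (Mp j * ((n / m : ℕ) : ℝ)))
        else 0) = ∑ m ∈ n.divisors, a i m * c i (n / m) * (1 / Real.log n -
          (if n / m ≤ Kp (jj m) then 1 / Real.log (Mp (jj m) * ((n / m : ℕ) : ℝ)) else 0)) := by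
    intro i _
    rw [Finset.sum_comm, Finset.sum_div, ← Finset.sum_sub_distrib]
    refine Finset.sum_congr rfl fun m hm => ?_
    have hmn : m ∣ n := Nat.dvd_of_mem_divisors hm
    have hk : n / m ≠ 0 := by
      have h2 : 0 < n / m := Nat.div_pos (Nat.le_of_dvd hn hmn) (Nat.pos_of_dvd_of_pos hmn hn)
      omega
    by_cases ha : a i m = 0
    · rw [ha]
      simp
    · have hPm := hP i m ha
      rw [Finset.sum_eq_single_of_mem (jj m) (Finset.mem_range.mpr (hjj m hPm))]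
      · rw [if_pos (⟨hPm, rfl⟩ : P m ∧ jj m = jj m), if_neg hk]
        split_ifs <;> ring
      · intro j _ hj
        rw [if_neg (fun h : P m ∧ jj m = j => hj h.2.symm)]
        simp
  rw [Finset.sum_congr rfl e2]
  have e3 : ∀ i ∈ range I, |∑ m ∈ n.divisors, a i m * c i (n / m) * (1 / Real.log n -
          (if n / m ≤ Kp (jj m) then 1 / Real.log (Mp (jj m) * ((n / m : ℕ) : ℝ)) else 0))| ≤
      (n.divisors.card : ℝ) * (L ^ 4 * (κ + (if X / (1 + κ) < (n : ℝ) then 1 else 0))) := by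
    intro i _
    refine (Finset.abs_sum_le_sum_abs _ _).trans ?_
    rw [← nsmul_eq_mul, ← Finset.sum_const]
    refine Finset.sum_le_sum fun m hm => ?_
    have hmn : m ∣ n := Nat.dvd_of_mem_divisors hm
    have hk : 1 ≤ n / m := Nat.div_pos (Nat.le_of_dvd hn hmn) (Nat.pos_of_dvd_of_pos hmn hn)
    by_cases ha : a i m = 0
    · rw [ha, zero_mul, zero_mul, abs_zero]
      have h5 : 0 ≤ κ + (if X / (1 + κ) < (n : ℝ) then (1 : ℝ) else 0) := by
        have : (0 : ℝ) ≤ (if X / (1 + κ) < (n : ℝ) then (1 : ℝ) else 0) := by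
          split_ifs <;> norm_num
        linarith
      positivity
    · have hPm := hP i m ha
      have h2 := hw m (n / m) hPm hk
      rw [Nat.mul_div_cancel' hmn] at h2
      rw [abs_mul, abs_mul]
      have h3 := hac i m
      have h4 := hac i (n / m)
      have h5 : |a i m| * |c i (n / m)| ≤ L ^ 2 * L ^ 2 :=
        mul_le_mul h3.1 h4.2 (abs_nonneg _) (by positivity)
      calc _ ≤ (L ^ 2 * L ^ 2) * _ := mul_le_mul h5 h2 (abs_nonneg _) (by positivity)
        _ = _ := by ring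
  refine (Finset.abs_sum_le_sum_abs _ _).trans ((Finset.sum_le_sum e3).trans ?_)
  rw [Finset.sum_const, Finset.card_range, nsmul_eq_mul]
  apply le_of_eq
  ring

/-- the second moment of the error -/
theorem dcw_moment {X C2 C4 b : ℕ} {L κ : ℝ} (hX : 1 ≤ X) (hL : 2 ≤ L)
    (hκ : κ = 1 / L ^ (2 * b)) (hκX : L ^ (2 * b) ≤ X)
    (h2 : ∑ n ∈ Icc 1 X, (n.divisors.card : ℝ) ^ 2 ≤ X * (1 + L) ^ C2)
    (h4 : ∑ n ∈ Icc 1 X, (n.divisors.card : ℝ) ^ 4 ≤ X * (1 + L) ^ C4) :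
    ∑ n ∈ Icc 1 X, ((n.divisors.card : ℝ) *
      (κ + (if (X : ℝ) / (1 + κ) < (n : ℝ) then 1 else 0))) ^ 2 ≤
        6 * X * L ^ (2 * C2 + 2 * C4) / L ^ b := by
  classical
  have hL0 : 0 < L := by linarith
  have hX0 : (0 : ℝ) < X := by exact_mod_cast hX
  have hκ0 : 0 < κ := by rw [hκ]; positivity
  have hLb : 1 ≤ L ^ b := one_le_pow₀ (by linarith)
  have hL2 : 1 + L ≤ L ^ 2 := by nlinarith
  set A : Finset ℕ := (Icc 1 X).filter fun n => (X : ℝ) / (1 + κ) < (n : ℝ) with hA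
  have hcard : (A.card : ℝ) ≤ 2 * (κ * X) := by
    have h5 : A ⊆ Ioc ⌊(X : ℝ) / (1 + κ)⌋₊ X := by
      intro n hn
      rw [hA, Finset.mem_filter, Finset.mem_Icc] at hn
      rw [Finset.mem_Ioc]
      refine ⟨?_, hn.1.2⟩
      rw [Nat.floor_lt (by positivity)]
      exact hn.2
    have h6 : (A.card : ℝ) ≤ X - ⌊(X : ℝ) / (1 + κ)⌋₊ := by
      have h7 := Finset.card_le_card h5
      rw [Nat.card_Ioc] at h7
      have h8 : ⌊(X : ℝ) / (1 + κ)⌋₊ ≤ X := by
        have h9 : (⌊(X : ℝ) / (1 + κ)⌋₊ : ℝ) ≤ X := by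
          refine (Nat.floor_le (by positivity)).trans ?_
          rw [div_le_iff₀ (by linarith)]
          nlinarith
        exact_mod_cast h9
      have h10 : (A.card : ℝ) ≤ ((X - ⌊(X : ℝ) / (1 + κ)⌋₊ : ℕ) : ℝ) := by exact_mod_cast h7
      rw [Nat.cast_sub h8] at h10
      exact h10
    have h7 := Nat.lt_floor_add_one ((X : ℝ) / (1 + κ))
    have h8 : (X : ℝ) - X / (1 + κ) ≤ κ * X := by
      have h9 : (X : ℝ) - X / (1 + κ) = κ * X / (1 + κ) := by
        field_simp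
        ring
      rw [h9, div_le_iff₀ (by linarith)]
      nlinarith [mul_pos hκ0 hX0]
    have h9 : 1 ≤ κ * X := by
      rw [hκ, one_div, inv_mul_eq_div, le_div_iff₀ (by positivity), one_mul]
      exact hκX
    linarith
  have hT2 : ∑ n ∈ Icc 1 X, (n.divisors.card : ℝ) ^ 2 ≤ X * L ^ (2 * C2) := by
    refine h2.trans (mul_le_mul_of_nonneg_left ?_ hX0.le)
    rw [pow_mul]
    exact pow_le_pow_left₀ (by linarith) hL2 C2
  have hT4 : ∑ n ∈ A, (n.divisors.card : ℝ) ^ 4 ≤ X * L ^ (4 * C4) := by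
    have h5 : ∑ n ∈ A, (n.divisors.card : ℝ) ^ 4 ≤ ∑ n ∈ Icc 1 X, (n.divisors.card : ℝ) ^ 4 :=
      Finset.sum_le_sum_of_subset_of_nonneg (Finset.filter_subset _ _) fun _ _ _ => by positivity
    refine h5.trans (h4.trans (mul_le_mul_of_nonneg_left ?_ hX0.le))
    calc (1 + L) ^ C4 ≤ (L ^ 2) ^ C4 := pow_le_pow_left₀ (by linarith) hL2 C4
      _ = L ^ (2 * C4) := by rw [pow_mul]
      _ ≤ L ^ (4 * C4) := pow_le_pow_right₀ (by linarith) (by omega)
  have hSA : ∑ n ∈ A, (n.divisors.card : ℝ) ^ 2 ≤ 2 * X * L ^ (2 * C4) / L ^ b := by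
    have h5 : (∑ n ∈ A, (n.divisors.card : ℝ) ^ 2) ^ 2 ≤
        (A.card : ℝ) * ∑ n ∈ A, (n.divisors.card : ℝ) ^ 4 := by
      have h6 := sq_sum_le_card_mul_sum_sq (s := A) (f := fun n => (n.divisors.card : ℝ) ^ 2)
      refine h6.trans (le_of_eq ?_)
      congr 1
      refine Finset.sum_congr rfl fun n _ => ?_
      ring
    have h6 : (A.card : ℝ) * ∑ n ∈ A, (n.divisors.card : ℝ) ^ 4 ≤
        (2 * X * L ^ (2 * C4) / L ^ b) ^ 2 := by
      have h7 : (A.card : ℝ) * ∑ n ∈ A, (n.divisors.card : ℝ) ^ 4 ≤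
          2 * (κ * X) * (X * L ^ (4 * C4)) :=
        mul_le_mul hcard hT4 (Finset.sum_nonneg fun _ _ => by positivity) (by positivity)
      refine h7.trans ?_
      have h8 : (2 * X * L ^ (2 * C4) / L ^ b) ^ 2 = 4 * (κ * X) * (X * L ^ (4 * C4)) := by
        rw [hκ, div_pow, mul_pow, mul_pow, ← pow_mul, ← pow_mul, mul_comm b 2,
          show 2 * C4 * 2 = 4 * C4 by ring]
        field_simp
        ring
      rw [h8]
      have : 0 ≤ κ * X * (X * L ^ (4 * C4)) := by positivity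
      nlinarith
    exact le_of_sq_le_sq (h5.trans h6) (by positivity)
  have h5 : ∀ n ∈ Icc 1 X, ((n.divisors.card : ℝ) *
      (κ + (if (X : ℝ) / (1 + κ) < (n : ℝ) then 1 else 0))) ^ 2 ≤
      2 * κ ^ 2 * (n.divisors.card : ℝ) ^ 2 +
        2 * (if (X : ℝ) / (1 + κ) < (n : ℝ) then (n.divisors.card : ℝ) ^ 2 else 0) := by
    intro n _
    have h6 : 0 ≤ (n.divisors.card : ℝ) ^ 2 := by positivity
    split_ifs
    · have : (κ + 1) ^ 2 ≤ 2 * κ ^ 2 + 2 := by nlinarith [sq_nonneg (κ - 1)]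
      rw [mul_pow]
      nlinarith
    · rw [mul_pow]
      have : (κ + 0) ^ 2 ≤ 2 * κ ^ 2 := by nlinarith [sq_nonneg κ]
      nlinarith
  refine (Finset.sum_le_sum h5).trans ?_
  rw [Finset.sum_add_distrib, ← Finset.mul_sum, ← Finset.mul_sum, ← Finset.sum_filter]
  have h6 : κ ^ 2 ≤ 1 / L ^ b := by
    rw [hκ, div_pow, one_pow, ← pow_mul]
    exact one_div_le_one_div_of_le (by positivity) (pow_le_pow_right₀ (by linarith) (by omega))
  have h7 : κ ^ 2 * ∑ n ∈ Icc 1 X, (n.divisors.card : ℝ) ^ 2 ≤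
      1 / L ^ b * (X * L ^ (2 * C2)) :=
    mul_le_mul h6 hT2 (Finset.sum_nonneg fun _ _ => by positivity) (by positivity)
  have g1 : L ^ (2 * C2) ≤ L ^ (2 * C2 + 2 * C4) :=
    pow_le_pow_right₀ (by linarith) (by omega)
  have g2 : L ^ (2 * C4) ≤ L ^ (2 * C2 + 2 * C4) :=
    pow_le_pow_right₀ (by linarith) (by omega)
  have h8 : 1 / L ^ b * (X * L ^ (2 * C2)) ≤ X * L ^ (2 * C2 + 2 * C4) / L ^ b := by
    rw [one_div, inv_mul_eq_div]
    exact div_le_div_of_nonneg_right (mul_le_mul_of_nonneg_left g1 hX0.le) (by positivity)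
  have h9 : 2 * X * L ^ (2 * C4) / L ^ b ≤ 2 * (X * L ^ (2 * C2 + 2 * C4) / L ^ b) := by
    rw [mul_assoc, mul_div_assoc]
    exact mul_le_mul_of_nonneg_left
      (div_le_div_of_nonneg_right (mul_le_mul_of_nonneg_left g2 hX0.le) (by positivity))
      (by norm_num)
  have h10 : 6 * X * L ^ (2 * C2 + 2 * C4) / L ^ b =
      6 * (X * L ^ (2 * C2 + 2 * C4) / L ^ b) := by ring
  rw [h10]
  linarith

/-- the parameters -/
theorem dcw_par (k : ℕ) : ∃ X0 : ℕ, ∀ X : ℕ, X0 ≤ X → 1 ≤ X ∧ 8 ≤ Real.log X ∧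
    (Real.log X) ^ k ≤ X ∧ ∀ δ : ℝ, 0 < δ → δ ≤ 1 / 2000 → Real.exp 1 ≤ (Uu δ X : ℝ) ∧
      (Uu δ X : ℝ) ≤ y2 δ X ∧ y2 δ X ≤ Real.exp (Real.log X) * Uu δ X := by
  have h1 : ∀ᶠ x : ℝ in Filter.atTop, ‖(Real.log x) ^ k‖ ≤ 1 * ‖(id x : ℝ)‖ :=
    (Real.isLittleO_pow_log_id_atTop (n := k)).bound one_pos
  obtain ⟨Y, hY⟩ := Filter.eventually_atTop.mp h1
  refine ⟨max (max ⌈Y⌉₊ ⌈Real.exp 8⌉₊) 64, fun X hX => ?_⟩
  simp only [max_le_iff] at hX
  obtain ⟨⟨k1, k2⟩, k3⟩ := hX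
  have hX1 : (1 : ℝ) ≤ X := by exact_mod_cast (by omega : 1 ≤ X)
  have hX0 : (0 : ℝ) < X := by linarith
  have h8 : Real.exp 8 ≤ X := (Nat.le_ceil _).trans (by exact_mod_cast k2)
  have hlog : 8 ≤ Real.log X := by rwa [Real.le_log_iff_exp_le hX0]
  have hY1 := hY X ((Nat.le_ceil _).trans (by exact_mod_cast k1))
  rw [one_mul, Real.norm_of_nonneg (by positivity), id, Real.norm_of_nonneg hX0.le] at hY1
  refine ⟨by omega, hlog, hY1, fun δ h0 h1 => ?_⟩
  have hU4 : 4 ≤ Uu δ X := by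
    unfold Uu
    apply Nat.le_floor
    have e1 : (4 : ℝ) = (64 : ℝ) ^ (1 / 3 : ℝ) := by
      rw [show (64 : ℝ) = 4 ^ (3 : ℝ) by norm_num, ← Real.rpow_mul (by norm_num)]
      norm_num
    push_cast
    rw [e1]
    calc (64 : ℝ) ^ (1 / 3 : ℝ) ≤ (X : ℝ) ^ (1 / 3 : ℝ) :=
          Real.rpow_le_rpow (by norm_num) (by exact_mod_cast k3) (by norm_num)
      _ ≤ (X : ℝ) ^ (1 / 3 + 3 * δ) := Real.rpow_le_rpow_of_exponent_le hX1 (by linarith)
  have hU4' : (4 : ℝ) ≤ Uu δ X := by exact_mod_cast hU4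
  refine ⟨?_, ?_, ?_⟩
  · have := Real.exp_one_lt_d9
    linarith
  · calc (Uu δ X : ℝ) ≤ (X : ℝ) ^ (1 / 3 + 3 * δ) := Nat.floor_le (by positivity)
      _ ≤ (X : ℝ) ^ (1 / 2 - 3 * δ) := Real.rpow_le_rpow_of_exponent_le hX1 (by linarith)
  · rw [Real.exp_log hX0]
    have e2 : y2 δ X ≤ X := by
      calc y2 δ X ≤ (X : ℝ) ^ (1 : ℝ) := Real.rpow_le_rpow_of_exponent_le hX1 (by linarith)
        _ = X := Real.rpow_one _
    nlinarith

/-- the number of blocks -/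
theorem dcw_J {L J : ℝ} {k : ℕ} (hL : 8 ≤ L) (h : J < 2 * L * L ^ k + 1) : J ≤ L ^ (k + 2) := by
  have h3 : L ^ (k + 2) = L * (L * L ^ k) := by ring
  have h1 : 1 ≤ L ^ k := one_le_pow₀ (by linarith)
  have h4 : 1 ≤ L * L ^ k := by nlinarith
  rw [h3]
  nlinarith

/-- the square of the error -/
theorem dcw_alg {e l x E P : ℝ} (hl : 1 / 2 ≤ l) (hx : |x| ≤ P * E) :
    (e / l + x) ^ 2 ≤ 8 * e ^ 2 + 2 * P ^ 2 * E ^ 2 := by
  have hl0 : 0 < l := by linarith
  have e4 : |e / l| ≤ 2 * |e| := by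
    rw [abs_div, abs_of_pos hl0, div_le_iff₀ hl0]
    nlinarith [abs_nonneg e]
  have e5 : (e / l + x) ^ 2 ≤ 2 * (e / l) ^ 2 + 2 * x ^ 2 := by
    nlinarith [sq_nonneg (e / l - x)]
  have e6 : (e / l) ^ 2 ≤ 4 * e ^ 2 := by
    have := pow_le_pow_left₀ (abs_nonneg _) e4 2
    rw [sq_abs, mul_pow, sq_abs] at this
    linarith
  have e7 : x ^ 2 ≤ P ^ 2 * E ^ 2 := by
    have := pow_le_pow_left₀ (abs_nonneg _) hx 2
    rw [sq_abs, mul_pow] at this
    exact this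
  linarith

/-- the division by the logarithm -/
theorem dcw_div {x s1 s2 s3 S1 S2 e l : ℝ} (hl : l ≠ 0) (hs : s1 = l * s2)
    (hx : x = s1 + S1 + e) (h3 : s3 = x / l) : s3 - s2 - S2 = e / l + (S1 / l - S2) := by
  rw [h3, hx, hs]
  field_simp
  ring

/-- the final bound -/
theorem dcw_last {L X s1 s2 s3 : ℝ} {B : ℕ} (hL : 8 ≤ L) (hX : 0 ≤ X) (h1 : s1 ≤ 1)
    (h2 : s2 ≤ X / L ^ (B + 3)) (h3 : s3 ≤ 12 * (X / L ^ (B + 3))) (h4 : L ^ (B + 3) ≤ X) :
    s1 + (8 * s2 + s3) ≤ X / L ^ B := by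
  have hL0 : 0 < L := by linarith
  have g4 : (1 : ℝ) ≤ X / L ^ (B + 3) := by
    rw [le_div_iff₀ (by positivity), one_mul]
    exact h4
  have g5 : (21 : ℝ) * (X / L ^ (B + 3)) ≤ X / L ^ B := by
    have e1 : (21 : ℝ) ≤ L ^ 3 := by
      calc (21 : ℝ) ≤ 8 ^ 3 := by norm_num
        _ ≤ L ^ 3 := pow_le_pow_left₀ (by norm_num) hL 3
    rw [pow_add, ← div_div, ← mul_div_assoc, div_le_iff₀ (by positivity), mul_comm]
    exact mul_le_mul_of_nonneg_left e1 (by positivity)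
  linarith

theorem dec2_of_dec1 (h : Dec1) : Dec2 := by
  classical
  intro B
  obtain ⟨C, hC⟩ := h (B + 3)
  obtain ⟨C2, hC2⟩ := Pool.BV.div_mom 2
  obtain ⟨C4, hC4⟩ := Pool.BV.div_mom 4
  set b : ℕ := 2 * C + 8 + 2 * C2 + 2 * C4 + B + 3 with hb
  refine ⟨C + 2 * b + 2, fun δ h0 h1 => ?_⟩
  obtain ⟨X1, hX1⟩ := hC δ h0 h1
  obtain ⟨X2, hX2⟩ := dcw_par (2 * b)
  refine ⟨max X1 X2, fun X hX => ?_⟩
  obtain ⟨hX1', hlog, hlX, hpar⟩ := hX2 X ((le_max_right _ _).trans hX)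
  obtain ⟨hUe, hUy, hyU⟩ := hpar δ h0 h1
  obtain ⟨α, β, I, a, c, err, f1, f2, f3, f4, f5, f6, f7⟩ := hX1 X ((le_max_left _ _).trans hX)
  set L : ℝ := Real.log X with hL
  set U : ℕ := Uu δ X with hU
  set y : ℝ := y2 δ X with hy
  have hX0 : (0 : ℝ) < X := by exact_mod_cast hX1'
  have hL0 : 0 < L := by linarith
  have hU1 : (1 : ℝ) ≤ U := by
    have := Real.add_one_le_exp (1 : ℝ)
    linarith
  have hU0 : (0 : ℝ) < U := by linarith
  set κ : ℝ := 1 / L ^ (2 * b) with hκ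
  have hLb : (1 : ℝ) ≤ L ^ (2 * b) := one_le_pow₀ (by linarith)
  have hκ0 : 0 < κ := by rw [hκ]; positivity
  have hκ1 : κ ≤ 1 := by
    rw [hκ, div_le_one (by positivity)]
    exact hLb
  set J : ℕ := ⌈2 * L * L ^ (2 * b)⌉₊ with hJd
  have hJ0 : 0 < J := Nat.ceil_pos.mpr (by positivity)
  have hJ1 : 2 * L ≤ κ * J := by
    have h2 : 2 * L * L ^ (2 * b) ≤ J := Nat.le_ceil _
    rw [hκ, one_div, inv_mul_eq_div, le_div_iff₀ (by positivity)]
    exact h2
  have hJ2 : (J : ℝ) ≤ L ^ (2 * b + 2) := dcw_J hlog (Nat.ceil_lt_add_one (by positivity))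
  obtain ⟨jj, hjj⟩ := dcw_block hκ0 hκ1 hU1 hyU hJ1 hJ0
  set Mp : ℕ → ℝ := fun j => min (U * (1 + κ) ^ j) y with hMp
  set Kp : ℕ → ℕ := fun j => ⌊X / (Mp j * (1 + κ))⌋₊ with hKp
  have hMU : ∀ j, (U : ℝ) ≤ Mp j := by
    intro j
    refine le_min ?_ hUy
    have : (1 : ℝ) ≤ (1 + κ) ^ j := one_le_pow₀ (by linarith)
    nlinarith
  have hMy : ∀ j, Mp j ≤ y := fun j => min_le_right _ _
  have hKM : ∀ j, (Kp j : ℝ) * (Mp j * (1 + κ)) ≤ X := by
    intro j
    have h2 : 0 < Mp j * (1 + κ) := mul_pos (lt_of_lt_of_le hU0 (hMU j)) (by linarith)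
    have h3 : (Kp j : ℝ) ≤ X / (Mp j * (1 + κ)) := Nat.floor_le (by positivity)
    rwa [le_div_iff₀ h2] at h3
  have hblk : ∀ m : ℕ, ((U < m) ∧ (m : ℝ) ≤ y) → Mp (jj m) < m ∧
      (m : ℝ) ≤ Mp (jj m) * (1 + κ) ∧ jj m < J := by
    intro m hm
    obtain ⟨g1, g2, g3⟩ := hjj m (by exact_mod_cast hm.1) hm.2
    have e : Mp (jj m) = U * (1 + κ) ^ (jj m) := min_eq_left (g1.le.trans hm.2)
    rw [e]
    exact ⟨g1, g2, g3⟩
  have hlogM : ∀ (j k : ℕ), k ≠ 0 → 1 ≤ Real.log (Mp j * k) := by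
    intro j k hk
    have hk1 : (1 : ℝ) ≤ k := by exact_mod_cast Nat.one_le_iff_ne_zero.mpr hk
    have h2 : Real.exp 1 ≤ Mp j * k := by
      have := hMU j
      nlinarith [Real.exp_pos 1]
    rwa [Real.le_log_iff_exp_le (lt_of_lt_of_le (Real.exp_pos 1) h2)]
  set a' : ℕ → ℕ → ℝ := fun t m => if ((U < m ∧ (m : ℝ) ≤ y) ∧ jj m = t % J) then
    a (t / J) m else 0 with ha'
  set c' : ℕ → ℕ → ℝ := fun t k => if k = 0 then 0 else
    c (t / J) k / Real.log (Mp (t % J) * (k : ℝ)) with hc'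
  have ha0 : ∀ t m, a' t m ≠ 0 → (U < m ∧ (m : ℝ) ≤ y) ∧ jj m = t % J := by
    intro t m hne
    by_contra hcon
    exact hne (if_neg hcon)
  refine ⟨α, β, I * J, fun t => Mp (t % J), fun t => Kp (t % J), a', c', fun n => an δ X n -
    ∑ l ∈ n.divisors, (α l + β l / Real.log n) - ∑ t ∈ range (I * J), ∑ m ∈ n.divisors,
      (if n / m ≤ Kp (t % J) then a' t m * c' t (n / m) else 0), f1, f2, ?_, ?_, ?_, ?_, ?_, ?_, ?_⟩
  · push_cast
    calc (I : ℝ) * J ≤ L ^ C * L ^ (2 * b + 2) :=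
          mul_le_mul f3 hJ2 (by positivity) (by positivity)
      _ = L ^ (C + 2 * b + 2) := by rw [← pow_add]; rfl
  · intro t n
    constructor
    · simp only [ha']
      split_ifs
      · exact (f4 _ _).1
      · rw [abs_zero]; positivity
    · simp only [hc']
      split_ifs with hn
      · rw [abs_zero]; positivity
      · have h2 := hlogM (t % J) n hn
        rw [abs_div, abs_of_pos (by linarith : 0 < Real.log (Mp (t % J) * (n : ℝ)))]
        exact (div_le_self (abs_nonneg _) h2).trans (f4 _ _).2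
  · intro t
    refine ⟨hMU _, hMy _, ?_⟩
    have h2 := hKM (t % J)
    have h3 : (Kp (t % J) : ℝ) * Mp (t % J) ≤ Kp (t % J) * (Mp (t % J) * (1 + κ)) := by
      apply mul_le_mul_of_nonneg_left _ (by positivity)
      have := hMU (t % J)
      nlinarith
    exact h3.trans h2
  · intro t m hne
    obtain ⟨g1, g2⟩ := ha0 t m hne
    obtain ⟨g3, g4, _⟩ := hblk m g1
    rw [g2] at g3 g4
    refine ⟨g3, g4.trans ?_⟩
    have := hMU (t % J)
    nlinarith
  · intro t m hne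
    obtain ⟨g1, g2⟩ := ha0 t m hne
    obtain ⟨g3, g4, _⟩ := hblk m g1
    rw [g2] at g3 g4
    have h2 := hKM (t % J)
    calc (m : ℝ) * Kp (t % J) ≤ Mp (t % J) * (1 + κ) * Kp (t % J) :=
          mul_le_mul_of_nonneg_right g4 (by positivity)
      _ = Kp (t % J) * (Mp (t % J) * (1 + κ)) := by ring
      _ ≤ X := h2
  · intro n _
    ring
  · -- the error
    have hw : ∀ m k : ℕ, (U < m ∧ (m : ℝ) ≤ y) → 1 ≤ k → |1 / Real.log ((m * k : ℕ) : ℝ) -
        (if k ≤ Kp (jj m) then 1 / Real.log (Mp (jj m) * k) else 0)| ≤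
        κ + (if (X : ℝ) / (1 + κ) < ((m * k : ℕ) : ℝ) then 1 else 0) := by
      intro m k hm hk
      obtain ⟨g1, g2, _⟩ := hblk m hm
      exact dcw_weight hκ0 (hUe.trans (hMU _)) g1 g2 hk rfl
    have hpt : ∀ n ∈ Icc 1 X, (an δ X n - ∑ l ∈ n.divisors, (α l + β l / Real.log n) -
        ∑ t ∈ range (I * J), ∑ m ∈ n.divisors,
          (if n / m ≤ Kp (t % J) then a' t m * c' t (n / m) else 0)) ^ 2 ≤
        (if n = 1 then 1 else 0) + (8 * err n ^ 2 + 2 * L ^ (2 * C + 8) *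
          ((n.divisors.card : ℝ) * (κ + (if (X : ℝ) / (1 + κ) < (n : ℝ) then 1 else 0))) ^ 2) := by
      intro n hn
      have hn1 := (Finset.mem_Icc.mp hn).1
      rcases Nat.eq_or_lt_of_le hn1 with h2 | h2
      · subst h2
        have e1 : an δ X 1 = 0 := by
          unfold an
          rw [Nat.cast_one, Real.log_one, div_zero]
        have e2 : ∑ t ∈ range (I * J), ∑ m ∈ Nat.divisors 1,
            (if 1 / m ≤ Kp (t % J) then a' t m * c' t (1 / m) else 0) = 0 := by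
          refine Finset.sum_eq_zero fun t _ => ?_
          rw [Nat.divisors_one, Finset.sum_singleton]
          have e3 : a' t 1 = 0 := by
            simp only [ha']
            rw [if_neg]
            rintro ⟨⟨g, _⟩, _⟩
            have : (U : ℝ) < 1 := by exact_mod_cast g
            linarith
          rw [e3, zero_mul]
          split_ifs <;> rfl
        rw [e1, e2, Nat.divisors_one, Finset.sum_singleton, Nat.cast_one, Real.log_one, div_zero,
          if_pos rfl]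
        have e4 := (f1 1).1
        have e5 : (0 - (α 1 + 0) - 0 : ℝ) ^ 2 ≤ 1 := by
          rw [show (0 - (α 1 + 0) - 0 : ℝ) ^ 2 = |α 1| ^ 2 by rw [sq_abs]; ring]
          exact pow_le_one₀ (abs_nonneg _) e4
        have e6 : 0 ≤ 8 * err 1 ^ 2 + 2 * L ^ (2 * C + 8) *
          (((Finset.card {1} : ℕ) : ℝ) * (κ + (if (X : ℝ) / (1 + κ) < 1 then 1 else 0))) ^ 2 := by
          positivity
        linarith
      · have hln : 1 / 2 ≤ Real.log n := by
          have e1 : Real.log 2 ≤ Real.log n :=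
            Real.log_le_log (by norm_num) (by exact_mod_cast h2)
          have := Real.log_two_gt_d9
          linarith
        have hln0 : Real.log n ≠ 0 := by linarith
        have hpt1 := dcw_point (I := I) (J := J) (a := a) (c := c) (L := L) (κ := κ) (X := X)
          (Mp := Mp) (Kp := Kp) (jj := jj) (P := fun m => U < m ∧ (m : ℝ) ≤ y) hJ0 hκ0.le f4
          (fun i m hne => by
            obtain ⟨g1, g2⟩ := f5 i m hne
            exact ⟨g1, g2⟩) (fun m hm => (hblk m hm).2.2) hw hn1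
        set S1 : ℝ := ∑ i ∈ range I, ∑ m ∈ n.divisors, a i m * c i (n / m) with hS1
        set S2 : ℝ := ∑ t ∈ range (I * J), ∑ m ∈ n.divisors,
          (if n / m ≤ Kp (t % J) then a' t m * c' t (n / m) else 0) with hS2
        have hpt2 : |S1 / Real.log n - S2| ≤ I * (n.divisors.card : ℝ) * L ^ 4 *
          (κ + (if (X : ℝ) / (1 + κ) < (n : ℝ) then 1 else 0)) := hpt1
        have e2 : ∑ l ∈ n.divisors, (α l * Real.log n + β l) =
            Real.log n * ∑ l ∈ n.divisors, (α l + β l / Real.log n) := by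
          rw [Finset.mul_sum]
          refine Finset.sum_congr rfl fun l _ => ?_
          rw [mul_add, mul_div_cancel₀ _ hln0, mul_comm]
        have e1 : an δ X n - ∑ l ∈ n.divisors, (α l + β l / Real.log n) - S2 =
            err n / Real.log n + (S1 / Real.log n - S2) := dcw_div hln0 e2 (f6 n hn) rfl
        rw [e1, if_neg (Nat.ne_of_gt h2), zero_add]
        have e8 : L ^ (2 * C + 8) = (L ^ (C + 4)) ^ 2 := by
          rw [← pow_mul]
          congr 1
          ring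
        rw [e8]
        refine dcw_alg hln (hpt2.trans ?_)
        rw [pow_add]
        have e9 : 0 ≤ L ^ 4 * ((n.divisors.card : ℝ) *
            (κ + (if (X : ℝ) / (1 + κ) < (n : ℝ) then 1 else 0))) := by positivity
        calc _ = (I : ℝ) * (L ^ 4 * ((n.divisors.card : ℝ) *
            (κ + (if (X : ℝ) / (1 + κ) < (n : ℝ) then 1 else 0)))) := by ring
          _ ≤ L ^ C * (L ^ 4 * ((n.divisors.card : ℝ) *
            (κ + (if (X : ℝ) / (1 + κ) < (n : ℝ) then 1 else 0)))) :=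
              mul_le_mul_of_nonneg_right f3 e9
          _ = _ := by ring
    refine (Finset.sum_le_sum hpt).trans ?_
    rw [Finset.sum_add_distrib, Finset.sum_add_distrib, ← Finset.mul_sum, ← Finset.mul_sum]
    have g1 : ∑ n ∈ Icc 1 X, (if n = 1 then (1 : ℝ) else 0) ≤ 1 := by
      rw [Finset.sum_ite_eq']
      split_ifs <;> norm_num
    have g2 := dcw_moment (X := X) (C2 := C2) (C4 := C4) (b := b) (L := L) (κ := κ) hX1'
      (by linarith) hκ hlX (hC2 X hX1').1 (hC4 X hX1').1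
    have g3 : 2 * L ^ (2 * C + 8) * ∑ n ∈ Icc 1 X, ((n.divisors.card : ℝ) *
        (κ + (if (X : ℝ) / (1 + κ) < (n : ℝ) then 1 else 0))) ^ 2 ≤ 12 * X / L ^ (B + 3) := by
      refine (mul_le_mul_of_nonneg_left g2 (by positivity)).trans (le_of_eq ?_)
      have e1 : L ^ b = L ^ (2 * C + 8) * L ^ (2 * C2 + 2 * C4) * L ^ (B + 3) := by
        rw [← pow_add, ← pow_add]
        congr 1
        omega
      rw [e1]
      field_simp
      ring
    have g6 : 12 * X / L ^ (B + 3) = 12 * (X / L ^ (B + 3)) := by ring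
    rw [g6] at g3
    exact dcw_last hlog hX0.le g1 f7 g3
      ((pow_le_pow_right₀ (by linarith) (by omega)).trans hlX)

theorem dec2 : Dec2 := dec2_of_dec1 dec1

end Pool.MP_dd84fd_nt.HX
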