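import Pool.Agent.Lib.MP_dd84fd_nt.HX.DcDefs
import Pool.Agent.Lib.BV.Vaughan

/-!
# HX-DcVau (0.4 h): Vaughan's identity, pointwise

Proof. `BV.vaughan U n hU F` with `F k = if k = n then 1 else 0` (`X = n`): every sum `Σ_t Σ_{k ≤ n/t} c(t, k) F(t k)` collapses to the `t` dividing `n`, `k = n / t`
(`t * k = n ↔ t ∣ n ∧ k = n / t` for `t ≥ 1`). In the second sum `t ≤ U ^ 2` may be dropped: `BV.c1 U t = 0` for `t > U ^ 2` (filter empty). Everything is real: `Complex.ofReal_injective` (`exact_mod_cast`).
Alternative: copy the first lines of the proof of `BV.vaughan` (identity between arithmetic functions) and evaluate at `n`.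
-/

set_option autoImplicit false

namespace Pool.MP_dd84fd_nt.HX

open Finset

private noncomputable def restr (f : ArithmeticFunction ℝ) (p : ℕ → Prop) [DecidablePred p] :
    ArithmeticFunction ℝ :=
  ⟨fun n => if p n then f n else 0, by simp⟩

private theorem restr_apply (f : ArithmeticFunction ℝ) (p : ℕ → Prop) [DecidablePred p] (n : ℕ) :
    restr f p n = if p n then f n else 0 := rfl

private theorem mul_restr (U t : ℕ) :
    (restr ArithmeticFunction.vonMangoldt (fun n => n ≤ U) *
      restr (ArithmeticFunction.moebius : ArithmeticFunction ℝ) (fun n => n ≤ U)) t =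
      Pool.BV.c1 U t := by
  rw [ArithmeticFunction.mul_apply]
  unfold Pool.BV.c1
  rw [sum_filter]
  refine sum_congr rfl fun x _ => ?_
  rw [restr_apply, restr_apply]
  by_cases h1 : x.1 ≤ U <;> by_cases h2 : x.2 ≤ U <;> simp [h1, h2]

private theorem zeta_mul_restr (U k : ℕ) :
    ((ArithmeticFunction.zeta : ArithmeticFunction ℝ) *
      restr (ArithmeticFunction.moebius : ArithmeticFunction ℝ) (fun n => n ≤ U)) k =
      -Pool.BV.c2 U k := by
  rw [ArithmeticFunction.coe_zeta_mul_apply]
  unfold Pool.BV.c2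
  rw [neg_neg, sum_filter]
  refine sum_congr rfl fun d _ => ?_
  rw [restr_apply]
  rfl

private theorem one_sub_apply {U k : ℕ} (hU : 1 ≤ U) (_hk : 1 ≤ k) :
    ((1 : ArithmeticFunction ℝ) - (ArithmeticFunction.zeta : ArithmeticFunction ℝ) *
      restr (ArithmeticFunction.moebius : ArithmeticFunction ℝ) (fun n => n ≤ U)) k =
      if U < k then Pool.BV.c2 U k else 0 := by
  have h0 : ((1 : ArithmeticFunction ℝ) - (ArithmeticFunction.zeta : ArithmeticFunction ℝ) *
      restr (ArithmeticFunction.moebius : ArithmeticFunction ℝ) (fun n => n ≤ U)) k =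
      (1 : ArithmeticFunction ℝ) k - ((ArithmeticFunction.zeta : ArithmeticFunction ℝ) *
      restr (ArithmeticFunction.moebius : ArithmeticFunction ℝ) (fun n => n ≤ U)) k := by
    rw [sub_eq_add_neg, ArithmeticFunction.add_apply, ArithmeticFunction.neg_apply,
      ← sub_eq_add_neg]
  rw [h0]
  by_cases h : U < k
  · rw [if_pos h, zeta_mul_restr, ArithmeticFunction.one_apply_ne (by omega)]
    ring
  · rw [if_neg h]
    have h1 : ((ArithmeticFunction.zeta : ArithmeticFunction ℝ) *
        restr (ArithmeticFunction.moebius : ArithmeticFunction ℝ) (fun n => n ≤ U)) k =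
        ((ArithmeticFunction.zeta : ArithmeticFunction ℝ) *
        (ArithmeticFunction.moebius : ArithmeticFunction ℝ)) k := by
      rw [ArithmeticFunction.coe_zeta_mul_apply, ArithmeticFunction.coe_zeta_mul_apply]
      refine sum_congr rfl fun d hd => ?_
      rw [restr_apply, if_pos ((Nat.divisor_le hd).trans (not_lt.1 h))]
    rw [h1, ArithmeticFunction.coe_zeta_mul_coe_moebius, sub_self]

theorem vau_pt (U n : ℕ) (hU : 1 ≤ U) (hn : 1 ≤ n) :
    La n = (if n ≤ U then La n else 0) +
      ∑ d ∈ n.divisors, (if d ≤ U then mr d * Real.log ((n / d : ℕ) : ℝ) else 0) -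
      ∑ c ∈ n.divisors, Pool.BV.c1 U c +
      ∑ m ∈ n.divisors, (if U < m ∧ U < n / m then La m * Pool.BV.c2 U (n / m) else 0) := by
  set A := restr ArithmeticFunction.vonMangoldt (fun n => n ≤ U) with hA
  set B := restr ArithmeticFunction.vonMangoldt (fun n => U < n) with hB
  set M := restr (ArithmeticFunction.moebius : ArithmeticFunction ℝ) (fun n => n ≤ U) with hM
  set E := (1 : ArithmeticFunction ℝ) - (ArithmeticFunction.zeta : ArithmeticFunction ℝ) * M with hE
  have hAB : ArithmeticFunction.vonMangoldt = A + B := by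
    ext n
    rw [ArithmeticFunction.add_apply, hA, hB, restr_apply, restr_apply]
    by_cases h : n ≤ U
    · rw [if_pos h, if_neg (not_lt.2 h), add_zero]
    · rw [if_neg h, if_pos (not_le.1 h), zero_add]
  have hlog : ArithmeticFunction.log =
      (ArithmeticFunction.zeta : ArithmeticFunction ℝ) * (A + B) := by
    rw [← hAB, ArithmeticFunction.zeta_mul_vonMangoldt]
  have hid : ArithmeticFunction.vonMangoldt =
      A - (A * M) * (ArithmeticFunction.zeta : ArithmeticFunction ℝ) +
        M * ArithmeticFunction.log + B * E := by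
    rw [hlog, hE, hAB]
    ring
  have hidn : (ArithmeticFunction.vonMangoldt n : ℝ) =
      A n - ((A * M) * (ArithmeticFunction.zeta : ArithmeticFunction ℝ)) n +
        (M * ArithmeticFunction.log) n + (B * E) n := by
    conv_lhs => rw [hid]
    rw [ArithmeticFunction.add_apply, ArithmeticFunction.add_apply, sub_eq_add_neg,
      ArithmeticFunction.add_apply, ArithmeticFunction.neg_apply, ← sub_eq_add_neg]
  have e1 : A n = if n ≤ U then La n else 0 := by
    rw [hA, restr_apply]
    rfl
  have e2 : ((A * M) * (ArithmeticFunction.zeta : ArithmeticFunction ℝ)) n =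
      ∑ c ∈ n.divisors, Pool.BV.c1 U c := by
    rw [ArithmeticFunction.coe_mul_zeta_apply]
    refine sum_congr rfl fun c _ => ?_
    rw [hA, hM, mul_restr]
  have e3 : (M * ArithmeticFunction.log) n =
      ∑ d ∈ n.divisors, (if d ≤ U then mr d * Real.log ((n / d : ℕ) : ℝ) else 0) := by
    rw [ArithmeticFunction.mul_apply,
      Nat.sum_divisorsAntidiagonal (fun x y => M x * ArithmeticFunction.log y)]
    refine sum_congr rfl fun d _ => ?_
    rw [hM, restr_apply, ArithmeticFunction.log_apply]
    by_cases h : d ≤ U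
    · rw [if_pos h, if_pos h]
      rfl
    · rw [if_neg h, if_neg h, zero_mul]
  have e4 : (B * E) n =
      ∑ m ∈ n.divisors, (if U < m ∧ U < n / m then La m * Pool.BV.c2 U (n / m) else 0) := by
    rw [ArithmeticFunction.mul_apply, Nat.sum_divisorsAntidiagonal (fun x y => B x * E y)]
    refine sum_congr rfl fun m hm => ?_
    have hk : 1 ≤ n / m :=
      Nat.div_pos (Nat.divisor_le hm) (Nat.pos_of_mem_divisors hm)
    rw [hB, restr_apply, hE, hM, one_sub_apply hU hk]
    by_cases h1 : U < m <;> by_cases h2 : U < n / m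
    · rw [if_pos h1, if_pos h2, if_pos ⟨h1, h2⟩]
      rfl
    · rw [if_pos h1, if_neg h2, if_neg (fun h => h2 h.2), mul_zero]
    · rw [if_neg h1, zero_mul, if_neg (fun h : U < m ∧ U < n / m => h1 h.1)]
    · rw [if_neg h1, zero_mul, if_neg (fun h : U < m ∧ U < n / m => h1 h.1)]
  refine Eq.trans hidn ?_
  rw [e2, e3, e4, e1]
  ring

end Pool.MP_dd84fd_nt.HX
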