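import Pool.Agent.Lib.MP_dd84fd_nt.HX.FaI
import Pool.Agent.Lib.MP_dd84fd_nt.LS.Four
import Pool.Agent.Lib.MP_dd84fd_nt.E2.FBound
import Pool.Agent.Lib.MP_dd84fd_nt.FA.Lip

/-!
# HX-FaFacts (0.8 h): elementary facts about `WH` and `FFH`

`coef`: `|an| ≤ 2^22` (`HXI.an_abs`, `0 ≤ rg ≤ 1`), `|fa| = |1 - wD| f1 w n/log n ≤ (1 + |C|) · 1.5 L` (`HXI.wD_abs`, `E2.f1_le D'` with `w = wX D' X ≤ L^D'`, `Nat.floor_le`; `n = 1`: `log 1 = 0`; `log n ≥ log 2 > 2/3`), so `|an + s fa| ≤ L²` for large `X` (uniform in `δ`).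
`tr_um`, `tr_up`: `tr G X (um ..) j = WH (-1) (al j)`: `LS.tr_ee`, `um n = an n + (-1) fa n` (`sum_congr`). `ffh_grid`: with `LS.conj_chi`/`LS.chi_ee` as in `FA.fn_grid`.
`ffh_facts`: `‖WH s θ‖ ≤ X L²`, Lipschitz with constant `7 X² L²` (`‖ee a - ee b‖ ≤ 7 |a - b|`, see `FA/Lip`), period 1, so `FFH` is Lipschitz with constant `14 X³ L^4 + 7 X³ L^4 ≤ X^4` and bounded by `X² L^4 ≤ X³`.
`vbh_up`: `nm2 (tr up) = Σ up² ≤ X L^4` (`LS.parseval`, `X < G`), sup `≤ X L² ≤ X L^4`. `repH`: `tr um · tr up = (tr an)² - (tr fa)²` (`tr` additive), `LS.co_sq` with `Y = X`, as in `GX.Rep`.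
-/

set_option autoImplicit false

namespace Pool.MP_dd84fd_nt.HX

open Finset Pool.MP_67663b_nt.Odd Pool.MP_dd84fd_nt.En Pool.MP_dd84fd_nt.E2 Pool.MP_dd84fd_nt.LS
  Pool.MP_dd84fd_nt.GX

open Pool.MP_dd84fd_nt.L2G (nrm)

open Pool.MP_dd84fd_nt.PL (rr)

private theorem fa_wX_le (D' X : ℕ) : ((wX D' X : ℕ) : ℝ) ≤ (Real.log X) ^ D' := by
  unfold wX
  exact Nat.floor_le (pow_nonneg (Real.log_natCast_nonneg X) _)

private theorem fa_rg_le (z n : ℕ) : 0 ≤ rg z n ∧ rg z n ≤ 1 := by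
  unfold rg
  split_ifs <;> constructor <;> norm_num

private theorem fa_logbig (K : ℝ) : ∃ X0 : ℕ, ∀ X : ℕ, X0 ≤ X → K ≤ Real.log (X : ℝ) := by
  have h : Filter.Tendsto (fun n : ℕ => Real.log (n : ℝ)) Filter.atTop Filter.atTop :=
    Real.tendsto_log_atTop.comp tendsto_natCast_atTop_atTop
  exact Filter.eventually_atTop.1 (h.eventually_ge_atTop K)

theorem coef (D' : ℕ) : ∃ X0 : ℕ, ∀ X : ℕ, X0 ≤ X → ∀ δ : ℝ, 0 < δ → δ ≤ 1 / 2000 →
    ∀ s : ℝ, |s| ≤ 1 → ∀ n ∈ Icc 1 X, |an δ X n + s * fa δ X (wX D' X) n| ≤ (Real.log X) ^ 2 := by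
  obtain ⟨X1, hX1⟩ := f1_le D'
  obtain ⟨X2, hX2⟩ := HXI.an_abs
  obtain ⟨C, X3, hX3⟩ := HXI.wD_abs
  obtain ⟨X4, hX4⟩ := fa_logbig (2 ^ 22 + 3 / 2 * (1 + |C|))
  refine ⟨max (max X1 X2) (max X3 X4), fun X hX δ hδ hδ' s hs n hn => ?_⟩
  have h1 : X1 ≤ X := (le_max_left _ _).trans ((le_max_left _ _).trans hX)
  have h2 : X2 ≤ X := (le_max_right _ _).trans ((le_max_left _ _).trans hX)
  have h3 : X3 ≤ X := (le_max_left _ _).trans ((le_max_right _ _).trans hX)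
  have h4 : X4 ≤ X := (le_max_right _ _).trans ((le_max_right _ _).trans hX)
  have hLK := hX4 X h4
  set L : ℝ := Real.log (X : ℝ) with hLdef
  have hC0 : 0 ≤ |C| := abs_nonneg C
  have hL1 : 1 ≤ L := by linarith
  obtain ⟨_, hf⟩ := hX1 X h1 (wX D' X) (fa_wX_le D' X)
  obtain ⟨_, ha⟩ := hX2 X h2 δ hδ hδ' n hn
  have hw := (hX3 X h3 δ hδ hδ').1 n hn
  have ha' : |an δ X n| ≤ 2 ^ 22 := by
    refine ha.trans ?_
    have := (fa_rg_le (zz X) n).2
    nlinarith [this]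
  have hn1 : 1 ≤ n := (Finset.mem_Icc.1 hn).1
  have hfa : |fa δ X (wX D' X) n| ≤ 3 / 2 * (1 + |C|) * L := by
    unfold fa
    rcases Nat.eq_or_lt_of_le hn1 with h5 | h5
    · rw [← h5, Nat.cast_one, Real.log_one, div_zero, abs_zero]
      positivity
    · have h6 : Real.log 2 ≤ Real.log (n : ℝ) :=
        Real.log_le_log (by norm_num) (by exact_mod_cast h5)
      have h7 : (2 : ℝ) / 3 < Real.log 2 := by
        have := Real.log_two_gt_d9
        linarith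
      have h8 : (2 : ℝ) / 3 ≤ Real.log (n : ℝ) := h7.le.trans h6
      have h9 : 0 < Real.log (n : ℝ) := by linarith
      rw [abs_div, abs_mul, abs_of_pos h9, abs_of_nonneg (f1_nonneg (wX D' X) n), div_le_iff₀ h9]
      have h10 : |1 - wD δ X n| ≤ 1 + |C| := by
        calc |1 - wD δ X n| ≤ |(1 : ℝ)| + |wD δ X n| := abs_sub _ _
          _ ≤ 1 + |C| := by
            rw [abs_one]
            linarith [hw.trans (le_abs_self C)]
      have h11 : |1 - wD δ X n| * f1 (wX D' X) n ≤ (1 + |C|) * L :=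
        mul_le_mul h10 (hf n) (f1_nonneg _ _) (by positivity)
      have h12 : (1 + |C|) * L ≤ 3 / 2 * (1 + |C|) * L * Real.log (n : ℝ) := by
        have h13 : 0 ≤ (1 + |C|) * L := by positivity
        nlinarith
      exact h11.trans h12
  have hsf : |s * fa δ X (wX D' X) n| ≤ 3 / 2 * (1 + |C|) * L := by
    rw [abs_mul]
    calc |s| * |fa δ X (wX D' X) n| ≤ 1 * |fa δ X (wX D' X) n| :=
          mul_le_mul_of_nonneg_right hs (abs_nonneg _)
      _ ≤ _ := by rw [one_mul]; exact hfa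
  calc |an δ X n + s * fa δ X (wX D' X) n| ≤ |an δ X n| + |s * fa δ X (wX D' X) n| := abs_add_le _ _
    _ ≤ 2 ^ 22 * L + 3 / 2 * (1 + |C|) * L := by
        refine add_le_add ?_ hsf
        nlinarith
    _ = (2 ^ 22 + 3 / 2 * (1 + |C|)) * L := by ring
    _ ≤ L * L := mul_le_mul_of_nonneg_right hLK (by linarith)
    _ = L ^ 2 := by ring

private theorem fa_ee_cont : Continuous (fun x : ℝ => ee x) := by
  unfold ee
  fun_prop

theorem wh_cont (s δ : ℝ) (w X : ℕ) : Continuous (WH s δ w X) := by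
  unfold WH
  refine continuous_finsetSum _ fun n _ => ?_
  exact continuous_const.mul (fa_ee_cont.comp (continuous_const.mul continuous_id))

private theorem fa_um (G : ℕ) [NeZero G] (δ : ℝ) (X w : ℕ) (j : ZMod G) :
    tr G X (um δ X w) j = WH (-1) δ w X (al G j) := by
  rw [tr_ee]
  unfold WH al
  refine Finset.sum_congr rfl fun n _ => ?_
  unfold um
  congr 2
  ring

private theorem fa_up (G : ℕ) [NeZero G] (δ : ℝ) (X w : ℕ) (j : ZMod G) :
    tr G X (up δ X w) j = WH 1 δ w X (al G j) := by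
  rw [tr_ee]
  unfold WH al
  refine Finset.sum_congr rfl fun n _ => ?_
  unfold up
  congr 2
  ring

theorem ffh_grid (G : ℕ) [NeZero G] (δ : ℝ) (X w n : ℕ) (j : ZMod G) :
    tr G X (um δ X w) j * tr G X (up δ X w) j * ZMod.stdAddChar (-((n : ZMod G) * j)) =
      FFH δ w X n (al G j) := by
  have h : (ZMod.stdAddChar (-((n : ZMod G) * j)) : ℂ) = ee (-((n : ℝ) * al G j)) := by
    rw [← conj_chi, chi_ee]
    unfold ee al
    rw [← Complex.exp_conj]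
    congr 1
    simp only [map_mul, Complex.conj_I, Complex.conj_ofReal, map_ofNat]
    push_cast
    ring
  unfold FFH
  rw [fa_um, fa_up, h]

private theorem fa_wh (D' : ℕ) : ∃ X0 : ℕ, ∀ X : ℕ, X0 ≤ X → ∀ δ : ℝ, 0 < δ → δ ≤ 1 / 2000 →
    ∀ s : ℝ, |s| ≤ 1 → (∀ x, WH s δ (wX D' X) X (x + 1) = WH s δ (wX D' X) X x) ∧
      (∀ x, ‖WH s δ (wX D' X) X x‖ ≤ X * (Real.log X) ^ 2) ∧
      (∀ x y, ‖WH s δ (wX D' X) X x - WH s δ (wX D' X) X y‖ ≤
        7 * (X : ℝ) ^ 2 * (Real.log X) ^ 2 * |x - y|) := by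
  obtain ⟨X1, hX1⟩ := coef D'
  refine ⟨X1, fun X hX δ hδ hδ' s hs => ?_⟩
  have hc := hX1 X hX δ hδ hδ' s hs
  refine ⟨?_, ?_, ?_⟩
  · intro x
    unfold WH
    refine Finset.sum_congr rfl fun m _ => ?_
    congr 1
    have : (m : ℝ) * (x + 1) = (m : ℝ) * x + ((m : ℤ) : ℝ) := by push_cast; ring
    rw [this, ee_add_int]
  · intro x
    unfold WH
    refine (norm_sum_le _ _).trans ?_
    have h1 : ∑ m ∈ Icc 1 X, ‖((an δ X m + s * fa δ X (wX D' X) m : ℝ) : ℂ) * ee ((m : ℝ) * x)‖ ≤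
        ∑ _m ∈ Icc 1 X, (Real.log X) ^ 2 := by
      refine Finset.sum_le_sum fun m hm => ?_
      rw [norm_mul, norm_ee, mul_one, Complex.norm_real, Real.norm_eq_abs]
      exact hc m hm
    refine h1.trans (le_of_eq ?_)
    rw [Finset.sum_const, Nat.card_Icc, nsmul_eq_mul, Nat.add_sub_cancel]
  · intro x y
    unfold WH
    rw [← Finset.sum_sub_distrib]
    refine (norm_sum_le _ _).trans ?_
    have h1 : ∑ m ∈ Icc 1 X, ‖((an δ X m + s * fa δ X (wX D' X) m : ℝ) : ℂ) * ee ((m : ℝ) * x) -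
        ((an δ X m + s * fa δ X (wX D' X) m : ℝ) : ℂ) * ee ((m : ℝ) * y)‖ ≤
        ∑ _m ∈ Icc 1 X, (Real.log X) ^ 2 * (7 * (X * |x - y|)) := by
      refine Finset.sum_le_sum fun m hm => ?_
      obtain ⟨hm1, hm2⟩ := Finset.mem_Icc.mp hm
      rw [← mul_sub, norm_mul, Complex.norm_real, Real.norm_eq_abs]
      refine mul_le_mul (hc m hm) ?_ (norm_nonneg _) (by positivity)
      refine (FA.ee_lip _ _).trans ?_
      rw [← mul_sub, abs_mul, abs_of_nonneg (Nat.cast_nonneg m)]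
      have : (m : ℝ) ≤ X := by exact_mod_cast hm2
      gcongr
    refine h1.trans (le_of_eq ?_)
    rw [Finset.sum_const, Nat.card_Icc, nsmul_eq_mul, Nat.add_sub_cancel]
    ring

theorem ffh_facts (D' : ℕ) : ∃ X0 : ℕ, ∀ X : ℕ, X0 ≤ X → ∀ δ : ℝ, 0 < δ → δ ≤ 1 / 2000 →
    ∀ n : ℕ, n ≤ X → (∀ x, FFH δ (wX D' X) X n (x + 1) = FFH δ (wX D' X) X n x) ∧
      (∀ x y, ‖FFH δ (wX D' X) X n x - FFH δ (wX D' X) X n y‖ ≤ (X : ℝ) ^ 4 * |x - y|) ∧
      ∀ x, ‖FFH δ (wX D' X) X n x‖ ≤ (X : ℝ) ^ 3 := by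
  obtain ⟨X1, hX1⟩ := fa_wh D'
  obtain ⟨X2, hX2⟩ := MP_log_pow 21 4 (show (0 : ℝ) < 1 by norm_num)
  refine ⟨max (max X1 X2) 1, fun X hX δ hδ hδ' n hn => ?_⟩
  have h1 : X1 ≤ X := (le_max_left _ _).trans ((le_max_left _ _).trans hX)
  have h2 : X2 ≤ X := (le_max_right _ _).trans ((le_max_left _ _).trans hX)
  have h3 : 1 ≤ X := (le_max_right _ _).trans hX
  obtain ⟨p1, b1, l1⟩ := hX1 X h1 δ hδ hδ' (-1) (by norm_num)
  obtain ⟨p2, b2, l2⟩ := hX1 X h1 δ hδ hδ' 1 (by norm_num)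
  have hlog : 21 * Real.log (X : ℝ) ^ 4 ≤ X := by
    have := hX2 X h2
    rwa [Real.rpow_one] at this
  have hL0 : 0 ≤ Real.log (X : ℝ) := Real.log_natCast_nonneg X
  have hX0 : (0 : ℝ) < X := by exact_mod_cast h3
  have hnX : (n : ℝ) ≤ X := by exact_mod_cast hn
  set w := wX D' X with hw
  refine ⟨?_, ?_, ?_⟩
  · intro x
    unfold FFH
    rw [p1, p2]
    congr 1
    have : -((n : ℝ) * (x + 1)) = -((n : ℝ) * x) + ((-(n : ℤ) : ℤ) : ℝ) := by push_cast; ring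
    rw [this, ee_add_int]
  · intro x y
    unfold FFH
    have e : WH (-1) δ w X x * WH 1 δ w X x * ee (-((n : ℝ) * x)) -
        WH (-1) δ w X y * WH 1 δ w X y * ee (-((n : ℝ) * y)) =
        (WH (-1) δ w X x - WH (-1) δ w X y) * WH 1 δ w X x * ee (-((n : ℝ) * x)) +
        WH (-1) δ w X y * (WH 1 δ w X x - WH 1 δ w X y) * ee (-((n : ℝ) * x)) +
        WH (-1) δ w X y * WH 1 δ w X y * (ee (-((n : ℝ) * x)) - ee (-((n : ℝ) * y))) := by ring
    rw [e]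
    refine norm_add₃_le.trans ?_
    have c1 : ‖(WH (-1) δ w X x - WH (-1) δ w X y) * WH 1 δ w X x * ee (-((n : ℝ) * x))‖ ≤
        (7 * (X : ℝ) ^ 2 * Real.log X ^ 2 * |x - y|) * (X * Real.log X ^ 2) := by
      rw [norm_mul, norm_ee, mul_one, norm_mul]
      exact mul_le_mul (l1 x y) (b2 x) (norm_nonneg _) (by positivity)
    have c2 : ‖WH (-1) δ w X y * (WH 1 δ w X x - WH 1 δ w X y) * ee (-((n : ℝ) * x))‖ ≤
        (X * Real.log X ^ 2) * (7 * (X : ℝ) ^ 2 * Real.log X ^ 2 * |x - y|) := by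
      rw [norm_mul, norm_ee, mul_one, norm_mul]
      exact mul_le_mul (b1 y) (l2 x y) (norm_nonneg _) (by positivity)
    have c3 : ‖WH (-1) δ w X y * WH 1 δ w X y * (ee (-((n : ℝ) * x)) - ee (-((n : ℝ) * y)))‖ ≤
        (X * Real.log X ^ 2) * (X * Real.log X ^ 2) * (7 * (X * |x - y|)) := by
      rw [norm_mul, norm_mul]
      refine mul_le_mul (mul_le_mul (b1 y) (b2 y) (norm_nonneg _) (by positivity)) ?_
        (norm_nonneg _) (by positivity)
      refine (FA.ee_lip _ _).trans ?_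
      have e2 : -((n : ℝ) * x) - -((n : ℝ) * y) = -((n : ℝ) * (x - y)) := by ring
      rw [e2, abs_neg, abs_mul, abs_of_nonneg (Nat.cast_nonneg n)]
      gcongr
    have habs := abs_nonneg (x - y)
    calc _ ≤ (7 * (X : ℝ) ^ 2 * Real.log X ^ 2 * |x - y|) * (X * Real.log X ^ 2) +
          (X * Real.log X ^ 2) * (7 * (X : ℝ) ^ 2 * Real.log X ^ 2 * |x - y|) +
          (X * Real.log X ^ 2) * (X * Real.log X ^ 2) * (7 * (X * |x - y|)) :=
          add_le_add (add_le_add c1 c2) c3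
      _ = (21 * Real.log (X : ℝ) ^ 4) * ((X : ℝ) ^ 3 * |x - y|) := by ring
      _ ≤ X * ((X : ℝ) ^ 3 * |x - y|) := by gcongr
      _ = _ := by ring
  · intro x
    unfold FFH
    rw [norm_mul, norm_ee, mul_one, norm_mul]
    calc ‖WH (-1) δ w X x‖ * ‖WH 1 δ w X x‖ ≤ (X * Real.log X ^ 2) * (X * Real.log X ^ 2) :=
          mul_le_mul (b1 x) (b2 x) (norm_nonneg _) (by positivity)
      _ = (1 * Real.log (X : ℝ) ^ 4) * (X : ℝ) ^ 2 := by ring
      _ ≤ (21 * Real.log (X : ℝ) ^ 4) * (X : ℝ) ^ 2 := by gcongr; norm_num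
      _ ≤ X * (X : ℝ) ^ 2 := by gcongr
      _ = _ := by ring

theorem vbh_up (D' : ℕ) : ∃ X0 : ℕ, ∀ X : ℕ, X0 ≤ X → ∀ δ : ℝ, 0 < δ → δ ≤ 1 / 2000 →
    ∀ (G : ℕ) [NeZero G], 3 * X ≤ G → VBH G X 4 (tr G X (up δ X (wX D' X))) := by
  obtain ⟨X1, hX1⟩ := coef D'
  obtain ⟨X2, hX2⟩ := fa_wh D'
  obtain ⟨X3, hX3⟩ := fa_logbig 1
  refine ⟨max (max X1 X2) (max X3 1), fun X hX δ hδ hδ' G hGz hG => ?_⟩
  have h1 : X1 ≤ X := (le_max_left _ _).trans ((le_max_left _ _).trans hX)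
  have h2 : X2 ≤ X := (le_max_right _ _).trans ((le_max_left _ _).trans hX)
  have h3 : X3 ≤ X := (le_max_left _ _).trans ((le_max_right _ _).trans hX)
  have h4 : 1 ≤ X := (le_max_right _ _).trans ((le_max_right _ _).trans hX)
  have hL := hX3 X h3
  have hXG : X < G := by omega
  unfold VBH
  constructor
  · unfold nm2
    rw [parseval G X hXG]
    have h5 : ∑ n ∈ Icc 1 X, (up δ X (wX D' X) n) ^ 2 ≤ ∑ _n ∈ Icc 1 X, (Real.log X) ^ 4 := by
      refine Finset.sum_le_sum fun n hn => ?_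
      have h6 := hX1 X h1 δ hδ hδ' 1 (by norm_num) n hn
      rw [one_mul] at h6
      have h7 : |up δ X (wX D' X) n| ≤ (Real.log X) ^ 2 := h6
      calc (up δ X (wX D' X) n) ^ 2 = |up δ X (wX D' X) n| ^ 2 := (sq_abs _).symm
        _ ≤ ((Real.log X) ^ 2) ^ 2 := pow_le_pow_left₀ (abs_nonneg _) h7 2
        _ = _ := by ring
    refine h5.trans (le_of_eq ?_)
    rw [Finset.sum_const, Nat.card_Icc, nsmul_eq_mul, Nat.add_sub_cancel]
  · intro j
    rw [fa_up]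
    refine ((hX2 X h2 δ hδ hδ' 1 (by norm_num)).2.1 (al G j)).trans ?_
    have h8 : (Real.log (X : ℝ)) ^ 2 ≤ (Real.log X) ^ 4 := pow_le_pow_right₀ hL (by norm_num)
    exact mul_le_mul_of_nonneg_left h8 (Nat.cast_nonneg X)

theorem repH (X G w : ℕ) [NeZero G] (δ : ℝ) (hG : 3 * X ≤ G) (n : ℕ) (h1 : 1 ≤ n) (hn : n ≤ X) :
    PhH G δ X w (tr G X (up δ X w)) (fun _ => 1) n =
      ((cvv (an δ X) (an δ X) n - cvv (fa δ X w) (fa δ X w) n : ℝ) : ℂ) := by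
  have hX : 2 * X < G := by omega
  have hsub : ∀ j : ZMod G, tr G X (um δ X w) j = tr G X (an δ X) j - tr G X (fa δ X w) j := by
    intro j
    unfold tr
    rw [← Finset.sum_sub_distrib]
    refine Finset.sum_congr rfl fun m _ => ?_
    unfold um
    push_cast
    ring
  have hadd : ∀ j : ZMod G, tr G X (up δ X w) j = tr G X (an δ X) j + tr G X (fa δ X w) j := by
    intro j
    unfold tr
    rw [← Finset.sum_add_distrib]
    refine Finset.sum_congr rfl fun m _ => ?_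
    unfold up
    push_cast
    ring
  have h2 : PhH G δ X w (tr G X (up δ X w)) (fun _ => 1) n =
      co G (fun j => tr G X (an δ X) j ^ 2 - tr G X (fa δ X w) j ^ 2) n := by
    unfold PhH co
    congr 1
    refine Finset.sum_congr rfl fun j _ => ?_
    rw [hsub, hadd, one_mul]
    ring
  rw [h2, co_sub, co_sq G X hX (an δ X) n hn, co_sq G X hX (fa δ X w) n hn]
  unfold cvv
  push_cast
  ring

end Pool.MP_dd84fd_nt.HX
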