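import Pool.Agent.Lib.MP_dd84fd_nt.HX.FaAnn
import Pool.Agent.Lib.MP_dd84fd_nt.HX.FaQQ

/-!
# HX-FaBound (1 h): the structured part is small

Proof. `A1 = A + 4`. `pl_h A1` gives `K1`, `K2'`; `K2 = K2' + 1`; `centre_h A1` gives `A0`; `w = wX D' X`. `QQ = QQd`, `N = X^(δ/5) Λ` (`qq_facts`), `r q = rd q ∈ [1, X]`. `I` = least natural number with `2 L^A0 ≤ 2^I` (so `2^I ≤ 4 L^A0 + 2`, `I ≤ L`).
For `q ∈ QQ` let `c = Nat.log 2 ⌊r q⌋₊`, so `2^c ≤ r q < 2^(c+1)`, `c ≤ Nat.log 2 X`. `QQ_c` = those `q` with this `c`. `dsc_split` with `T = c + I` for `q ∈ QQ_c`: `Σ_{q ∈ QQ} dsc = Σ_c Σ_{t < c + I} Σ_{q ∈ QQ_c} ann (bq q) (2 bq q) + Σ_c Σ_{q ∈ QQ_c} dsc (r q/2^(c+I))`, `bq q = r q/2^(t+1)`.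
Annulus `(c, t)`: `b = 2^c/2^(t+1)`, `b ≤ bq q ≤ 2b`; `b ≥ 2^(-I)/2 ≥ 1/L^(A0+3)` (use `pl_h` with `A0 + 3`), `N b ≤ N r q ≤ X^(1/2+5δ/2)` (if `QQ_c` is not empty). If `L^K2' < b`: `pl_h` for `QQ_c`: `≤ X/L^A1`. Otherwise `pl_h` for the `q` with `L^K1 gcd(q,n) < q`,
and for the others `ann_le` with `v' = 2 L^K2` (`2 bq ≤ 4 b ≤ 4 L^K2' ≤ 2 L^K2`) and the hypothesis `GoodN`: together `≤ 2X/L^A1`. Centre: `r q/2^(c+I) ≤ 2/2^I ≤ 1/L^A0`, `dsc_le`, `centre_h` for `QQ` (sum over all `c` at once): `≤ X/L^A1` (`N ≤ X`).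
Number of `(c, t)`: `(Nat.log 2 X + 1)(I + Nat.log 2 X + 1) ≤ 2L · 4L`. Total `≤ (16 L² + 1) X/L^(A+4) ≤ X/L^A`.
-/

set_option autoImplicit false

namespace Pool.MP_dd84fd_nt.HX

open Finset Pool.MP_67663b_nt.Odd Pool.MP_dd84fd_nt.En Pool.MP_dd84fd_nt.E2 Pool.MP_dd84fd_nt.LS
  Pool.MP_dd84fd_nt.GX

open Pool.MP_dd84fd_nt.L2G (nrm)

open Pool.MP_dd84fd_nt.PL (rr)

private theorem fb_logbig (K : ℝ) : ∃ X0 : ℕ, ∀ X : ℕ, X0 ≤ X → K ≤ Real.log (X : ℝ) := by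
  have h : Filter.Tendsto (fun n : ℕ => Real.log (n : ℝ)) Filter.atTop Filter.atTop :=
    Real.tendsto_log_atTop.comp tendsto_natCast_atTop_atTop
  exact Filter.eventually_atTop.1 (h.eventually_ge_atTop K)

private theorem fb_exI (A0 : ℕ) : ∃ X0 : ℕ, ∀ X : ℕ, X0 ≤ X → ∃ I : ℕ,
    2 * (Real.log X) ^ A0 ≤ (2 : ℝ) ^ I ∧ (2 : ℝ) ^ I ≤ (Real.log X) ^ (A0 + 1) ∧
    (I : ℝ) ≤ Real.log X := by
  obtain ⟨X1, hX1⟩ := fb_logbig 6
  have hlit : (fun L : ℝ => ((A0 : ℝ) + 1) * Real.log L) =o[Filter.atTop] (id : ℝ → ℝ) :=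
    Asymptotics.IsLittleO.const_mul_left Real.isLittleO_log_id_atTop _
  have hev : ∀ᶠ L : ℝ in Filter.atTop, ‖((A0 : ℝ) + 1) * Real.log L‖ ≤ 1 / 2 * ‖L‖ :=
    hlit.def (by norm_num)
  have h : Filter.Tendsto (fun n : ℕ => Real.log (n : ℝ)) Filter.atTop Filter.atTop :=
    Real.tendsto_log_atTop.comp tendsto_natCast_atTop_atTop
  obtain ⟨X2, hX2⟩ := Filter.eventually_atTop.1 (h.eventually hev)
  refine ⟨max X1 X2, fun X hX => ?_⟩
  have h1 : 6 ≤ Real.log (X : ℝ) := hX1 X ((le_max_left _ _).trans hX)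
  have h2 := hX2 X ((le_max_right _ _).trans hX)
  set L : ℝ := Real.log (X : ℝ) with hL
  have hL0 : 0 < L := by linarith
  have hp1 : 1 ≤ L ^ A0 := one_le_pow₀ (by linarith)
  set m : ℕ := ⌈2 * L ^ A0⌉₊ with hm
  have hm1 : 2 * L ^ A0 ≤ (m : ℝ) := Nat.le_ceil _
  have hm2 : (m : ℝ) ≤ 2 * L ^ A0 + 1 := (Nat.ceil_lt_add_one (by positivity)).le
  have hm3 : 1 < m := by
    have : (1 : ℝ) < (m : ℝ) := by linarith
    exact_mod_cast this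
  have h3 : 2 * L ^ A0 ≤ (2 : ℝ) ^ (Nat.clog 2 m) := by
    have : (m : ℝ) ≤ (2 : ℝ) ^ (Nat.clog 2 m) := by
      exact_mod_cast Nat.le_pow_clog (by norm_num) m
    linarith
  have h4 : (2 : ℝ) ^ (Nat.clog 2 m) ≤ L ^ (A0 + 1) := by
    have h5 : 2 ^ (Nat.clog 2 m).pred < m := Nat.pow_pred_clog_lt_self (by norm_num) hm3
    have h6 : 0 < Nat.clog 2 m := Nat.clog_pos (by norm_num) hm3
    have h7 : 2 ^ (Nat.clog 2 m) ≤ 2 * m := by
      obtain ⟨k, hk⟩ := Nat.exists_eq_succ_of_ne_zero h6.ne'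
      rw [hk] at h5 ⊢
      rw [Nat.pred_succ] at h5
      rw [pow_succ]
      omega
    have h8 : (2 : ℝ) ^ (Nat.clog 2 m) ≤ 2 * m := by exact_mod_cast h7
    calc (2 : ℝ) ^ (Nat.clog 2 m) ≤ 2 * m := h8
      _ ≤ 2 * (2 * L ^ A0 + 1) := by linarith
      _ ≤ 6 * L ^ A0 := by linarith
      _ ≤ L * L ^ A0 := by gcongr
      _ = L ^ (A0 + 1) := by ring
  refine ⟨Nat.clog 2 m, h3, h4, ?_⟩
  have h9 : ((Nat.clog 2 m : ℕ) : ℝ) * Real.log 2 ≤ ((A0 : ℝ) + 1) * Real.log L := by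
    have := Real.log_le_log (by positivity) h4
    rw [Real.log_pow, Real.log_pow] at this
    push_cast at this
    exact this
  have h10 : ((A0 : ℝ) + 1) * Real.log L ≤ 1 / 2 * L := by
    have h11 := (le_abs_self _).trans (h2 : |((A0 : ℝ) + 1) * Real.log L| ≤ 1 / 2 * |L|)
    rw [Real.norm_eq_abs, abs_of_pos hL0] at h11
    exact h11
  have h12 : (1 : ℝ) / 2 ≤ Real.log 2 := by
    have := Real.log_two_gt_d9
    linarith
  have h13 : ((Nat.clog 2 m : ℕ) : ℝ) * (1 / 2) ≤ ((Nat.clog 2 m : ℕ) : ℝ) * Real.log 2 :=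
    mul_le_mul_of_nonneg_left h12 (Nat.cast_nonneg _)
  linarith

/-- one pair `(c, t)` -/
private theorem fb_one {δ : ℝ} {X w n A K1 K2' I c t : ℕ} {N : ℝ}
    (hX1 : 1 ≤ X) (hL2 : 2 ≤ Real.log (X : ℝ)) (Q : Finset ℕ) (r : ℕ → ℝ)
    (hQ1 : ∀ q ∈ Q, 1 ≤ q ∧ (2 : ℝ) ^ c ≤ r q ∧ r q ≤ 2 ^ (c + 1) ∧
      N * r q ≤ (X : ℝ) ^ (1 / 2 + 5 / 2 * δ))
    (hN0 : 0 ≤ N)
    (hQ2 : ∀ q ∈ Q, ∀ q' ∈ Q, (Nat.lcm q q' : ℝ) ≤ N) (hQ3 : (Q.card : ℝ) ≤ (X : ℝ) ^ (1 / 50 : ℝ))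
    (hN : N ≤ (X : ℝ) ^ (1 / 2 + 5 / 2 * δ)) {A0 : ℕ}
    (hI : (2 : ℝ) ^ I ≤ (Real.log X) ^ (A0 + 1)) (ht : t < c + I)
    (hpl : ∀ (QQ : Finset ℕ) (N b : ℝ) (bq : ℕ → ℝ), (∀ q ∈ QQ, 1 ≤ q ∧ b ≤ bq q ∧ bq q ≤ 2 * b) →
      (∀ q ∈ QQ, ∀ q' ∈ QQ, (Nat.lcm q q' : ℝ) ≤ N) → (QQ.card : ℝ) ≤ (X : ℝ) ^ (1 / 50 : ℝ) →
      1 / (Real.log X) ^ (A0 + 1) ≤ b → N * b ≤ (X : ℝ) ^ (1 / 2 + 5 / 2 * δ) →
      ((Real.log X) ^ K2' < b ∨ ∀ q ∈ QQ, (Real.log X) ^ K1 * (Nat.gcd q n : ℝ) < q) →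
      ∑ q ∈ QQ, ‖∑ a ∈ rr q, ((∫ x in (bq q / X)..(2 * bq q / X),
          FFH δ w X n ((a : ℝ) / q + x)) +
        ∫ x in (bq q / X)..(2 * bq q / X), FFH δ w X n ((a : ℝ) / q - x))‖ ≤
        X / (Real.log X) ^ (A + 4))
    (hgood : GoodN δ w X n (A + 4) K1 (K2' + 1)) :
    ‖∑ q ∈ Q, ann (FFH δ w X n) X q (r q / 2 ^ (t + 1)) (2 * (r q / 2 ^ (t + 1)))‖ ≤
      2 * (X / (Real.log X) ^ (A + 4)) := by
  classical
  set L : ℝ := Real.log (X : ℝ) with hLd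
  have hL0 : 0 < L := by linarith
  have hXr : (0 : ℝ) ≤ X := Nat.cast_nonneg X
  have hE0 : 0 ≤ (X : ℝ) / L ^ (A + 4) := by positivity
  rcases Finset.eq_empty_or_nonempty Q with hQe | ⟨q0, hq0⟩
  · rw [hQe, Finset.sum_empty, norm_zero]
    positivity
  set b : ℝ := 2 ^ c / 2 ^ (t + 1) with hb
  have hb0 : 0 < b := by positivity
  have hbq : ∀ q ∈ Q, 1 ≤ q ∧ b ≤ r q / 2 ^ (t + 1) ∧ r q / 2 ^ (t + 1) ≤ 2 * b := by
    intro q hq
    obtain ⟨h1, h2, h3, _⟩ := hQ1 q hq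
    refine ⟨h1, ?_, ?_⟩
    · rw [hb]
      gcongr
    · have : 2 * b = 2 ^ (c + 1) / 2 ^ (t + 1) := by
        rw [hb, pow_succ (2 : ℝ) c]
        ring
      rw [this]
      gcongr
  have hbI : 1 / L ^ (A0 + 1) ≤ b := by
    have h1 : (1 : ℝ) / L ^ (A0 + 1) ≤ 1 / 2 ^ I := by
      apply one_div_le_one_div_of_le (by positivity) hI
    refine h1.trans ?_
    rw [hb, div_le_div_iff₀ (by positivity) (by positivity), one_mul, ← pow_add]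
    exact pow_le_pow_right₀ (by norm_num) (by omega)
  have hNb : N * b ≤ (X : ℝ) ^ (1 / 2 + 5 / 2 * δ) := by
    obtain ⟨_, h2, _, h4⟩ := hQ1 q0 hq0
    refine le_trans ?_ h4
    apply mul_le_mul_of_nonneg_left _ hN0
    refine le_trans ?_ h2
    rw [hb]
    exact div_le_self (by positivity) (one_le_pow₀ (by norm_num))
  have hann : ∀ q : ℕ, ann (FFH δ w X n) X q (r q / 2 ^ (t + 1)) (2 * (r q / 2 ^ (t + 1))) =
      ∑ a ∈ rr q, ((∫ x in ((fun q => r q / 2 ^ (t + 1)) q / X)..(2 * (fun q => r q / 2 ^ (t + 1)) q / X),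
          FFH δ w X n ((a : ℝ) / q + x)) +
        ∫ x in ((fun q => r q / 2 ^ (t + 1)) q / X)..(2 * (fun q => r q / 2 ^ (t + 1)) q / X),
          FFH δ w X n ((a : ℝ) / q - x)) := fun q => rfl
  by_cases hK : L ^ K2' < b
  · refine (norm_sum_le _ _).trans ?_
    have h5 := hpl Q N b (fun q => r q / 2 ^ (t + 1)) hbq hQ2 hQ3 hbI hNb (Or.inl hK)
    have h6 : ∑ q ∈ Q, ‖ann (FFH δ w X n) X q (r q / 2 ^ (t + 1)) (2 * (r q / 2 ^ (t + 1)))‖ ≤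
        X / L ^ (A + 4) := h5
    linarith
  · push Not at hK
    rw [← Finset.sum_filter_add_sum_filter_not Q (fun q : ℕ => L ^ K1 * (Nat.gcd q n : ℝ) < q)]
    refine (norm_add_le _ _).trans ?_
    have hS1 : ‖∑ q ∈ Q.filter (fun q : ℕ => L ^ K1 * (Nat.gcd q n : ℝ) < q),
        ann (FFH δ w X n) X q (r q / 2 ^ (t + 1)) (2 * (r q / 2 ^ (t + 1)))‖ ≤ X / L ^ (A + 4) := by
      refine (norm_sum_le _ _).trans ?_
      have hsub : Q.filter (fun q : ℕ => L ^ K1 * (Nat.gcd q n : ℝ) < q) ⊆ Q :=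
        Finset.filter_subset _ _
      have h7 := hpl (Q.filter (fun q : ℕ => L ^ K1 * (Nat.gcd q n : ℝ) < q)) N b
        (fun q => r q / 2 ^ (t + 1)) (fun q hq => hbq q (hsub hq))
        (fun q hq q' hq' => hQ2 q (hsub hq) q' (hsub hq'))
        (le_trans (by exact_mod_cast Finset.card_le_card hsub) hQ3) hbI hNb
        (Or.inr fun q hq => (Finset.mem_filter.1 hq).2)
      exact h7
    have hS2 : ‖∑ q ∈ Q.filter (fun q : ℕ => ¬ (L ^ K1 * (Nat.gcd q n : ℝ) < q)),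
        ann (FFH δ w X n) X q (r q / 2 ^ (t + 1)) (2 * (r q / 2 ^ (t + 1)))‖ ≤ X / L ^ (A + 4) := by
      refine (norm_sum_le _ _).trans ?_
      have hsub : Q.filter (fun q : ℕ => ¬ (L ^ K1 * (Nat.gcd q n : ℝ) < q)) ⊆ Q :=
        Finset.filter_subset _ _
      have h8 := hgood (Q.filter (fun q : ℕ => ¬ (L ^ K1 * (Nat.gcd q n : ℝ) < q))) N
        (fun q hq => ⟨(hbq q (hsub hq)).1, not_lt.1 (Finset.mem_filter.1 hq).2⟩)
        (fun q hq q' hq' => hQ2 q (hsub hq) q' (hsub hq')) hN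
      refine le_trans (Finset.sum_le_sum fun q hq => ?_) h8
      obtain ⟨h9, h10, h11⟩ := hbq q (hsub hq)
      have h12 : 0 ≤ r q / 2 ^ (t + 1) := hb0.le.trans h10
      refine ann_le δ X w n q hX1 _ _ _ h12 (by linarith) ?_
      calc 2 * (r q / 2 ^ (t + 1)) ≤ 2 * (2 * b) := by linarith
        _ ≤ 2 * (2 * L ^ K2') := by linarith
        _ ≤ 2 * (L * L ^ K2') := by gcongr
        _ = 2 * L ^ (K2' + 1) := by ring
    linarith

theorem discs_bound (A : ℕ) : ∃ K1 K2 : ℕ, ∀ (δ : ℝ) (D' : ℕ), 0 < δ → δ ≤ 1 / 2000 → 1 ≤ D' →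
    ∃ X0 : ℕ, ∀ X : ℕ, X0 ≤ X → ∀ n : ℕ, X < 2 * n → n ≤ X →
    GoodN δ (wX D' X) X n (A + 4) K1 K2 → ∀ (Λ : ℕ) (bb : ℝ), 1 ≤ Λ → 1 ≤ bb →
    Λ * bb ≤ 2 * (X : ℝ) ^ (1 / 2 + 2 * δ) →
    ‖∑ q ∈ QQd δ X Λ, dsc (FFH δ (wX D' X) X n) X q (rd δ X Λ bb q)‖ ≤ X / (Real.log X) ^ A := by
  classical
  obtain ⟨K1, K2', hpl⟩ := HXI.pl_h (A + 4)
  obtain ⟨A0, hce⟩ := HXI.centre_h (A + 4)
  refine ⟨K1, K2' + 1, fun δ D' hδ hδ' hD => ?_⟩
  obtain ⟨X1, hX1⟩ := hpl δ D' (A0 + 1) hδ hδ' hD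
  obtain ⟨X2, hX2⟩ := hce δ D' hδ hδ' hD
  obtain ⟨X3, hX3⟩ := qq_facts δ hδ hδ'
  obtain ⟨X4, hX4⟩ := fb_exI A0
  obtain ⟨X5, hX5⟩ := fb_logbig 6
  refine ⟨max (max (max X1 X2) (max X3 X4)) (max X5 1), fun X hX n hn1 hn2 hgood Λ bb hΛ hbb hΛb => ?_⟩
  have g1 : X1 ≤ X := (le_max_left _ _).trans ((le_max_left _ _).trans ((le_max_left _ _).trans hX))
  have g2 : X2 ≤ X := (le_max_right _ _).trans ((le_max_left _ _).trans ((le_max_left _ _).trans hX))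
  have g3 : X3 ≤ X := (le_max_left _ _).trans ((le_max_right _ _).trans ((le_max_left _ _).trans hX))
  have g4 : X4 ≤ X := (le_max_right _ _).trans ((le_max_right _ _).trans ((le_max_left _ _).trans hX))
  have g5 : X5 ≤ X := (le_max_left _ _).trans ((le_max_right _ _).trans hX)
  have g6 : 1 ≤ X := (le_max_right _ _).trans ((le_max_right _ _).trans hX)
  have hpl' := hX1 X g1 n hn1 hn2
  have hce' := hX2 X g2
  obtain ⟨hq1, hq2, hq3, hq4⟩ := hX3 X g3 Λ bb hΛ hbb hΛb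
  obtain ⟨I, hI1, hI2, hI3⟩ := hX4 X g4
  have hL6 := hX5 X g5
  set L : ℝ := Real.log (X : ℝ) with hLd
  set w := wX D' X with hw
  set Q := QQd δ X Λ with hQ
  set N : ℝ := (X : ℝ) ^ (δ / 5) * Λ with hN
  have hL0 : 0 < L := by linarith
  have hXr : (1 : ℝ) ≤ X := by exact_mod_cast g6
  have hX0 : (0 : ℝ) < X := by linarith
  have hN0 : 0 ≤ N := by positivity
  have hNX : N ≤ X := by
    refine hq4.trans ?_
    calc (X : ℝ) ^ (1 / 2 + 5 / 2 * δ) ≤ (X : ℝ) ^ (1 : ℝ) :=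
          Real.rpow_le_rpow_of_exponent_le hXr (by linarith)
      _ = X := Real.rpow_one _
  have hrX : ∀ q ∈ Q, rd δ X Λ bb q ≤ X := by
    intro q hq
    obtain ⟨h1, h2, h3, _⟩ := hq1 q hq
    have h4 : rd δ X Λ bb q ≤ q * rd δ X Λ bb q := by
      have : (1 : ℝ) ≤ q := by exact_mod_cast h1
      nlinarith
    refine h4.trans (h3.trans ?_)
    unfold y3
    calc (X : ℝ) ^ (1 / 2 + 3 * δ) ≤ (X : ℝ) ^ (1 : ℝ) :=
          Real.rpow_le_rpow_of_exponent_le hXr (by linarith)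
      _ = X := Real.rpow_one _
  -- the index `c`
  set cc : ℕ → ℕ := fun q => Nat.log 2 ⌊rd δ X Λ bb q⌋₊ with hcc
  have hcc1 : ∀ q ∈ Q, (2 : ℝ) ^ (cc q) ≤ rd δ X Λ bb q ∧ rd δ X Λ bb q ≤ 2 ^ (cc q + 1) := by
    intro q hq
    obtain ⟨_, h2, _, _⟩ := hq1 q hq
    have h3 : ⌊rd δ X Λ bb q⌋₊ ≠ 0 := by
      have : 1 ≤ ⌊rd δ X Λ bb q⌋₊ := Nat.le_floor (by exact_mod_cast h2)
      omega
    constructor
    · have h4 : 2 ^ (cc q) ≤ ⌊rd δ X Λ bb q⌋₊ := Nat.pow_log_le_self 2 h3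
      calc (2 : ℝ) ^ (cc q) ≤ (⌊rd δ X Λ bb q⌋₊ : ℝ) := by exact_mod_cast h4
        _ ≤ _ := Nat.floor_le (by linarith)
    · have h4 : ⌊rd δ X Λ bb q⌋₊ < 2 ^ (cc q + 1) := Nat.lt_pow_succ_log_self (by norm_num) _
      have h5 : rd δ X Λ bb q < (⌊rd δ X Λ bb q⌋₊ : ℝ) + 1 := Nat.lt_floor_add_one _
      have h6 : (⌊rd δ X Λ bb q⌋₊ : ℝ) + 1 ≤ 2 ^ (cc q + 1) := by exact_mod_cast h4
      linarith
  have hcc2 : ∀ q ∈ Q, cc q < Nat.log 2 X + 1 := by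
    intro q hq
    have h1 : ⌊rd δ X Λ bb q⌋₊ ≤ X := by
      have := Nat.floor_le_floor (hrX q hq)
      rwa [Nat.floor_natCast] at this
    exact Nat.lt_succ_of_le (Nat.log_mono_right h1)
  -- the decomposition
  have hFc : Continuous (FFH δ w X n) := by
    have h1 := wh_cont (-1) δ w X
    have h2 := wh_cont 1 δ w X
    unfold FFH
    refine (h1.mul h2).mul ?_
    unfold ee
    fun_prop
  have hsplit : ∑ q ∈ Q, dsc (FFH δ w X n) X q (rd δ X Λ bb q) =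
      ∑ c ∈ range (Nat.log 2 X + 1), ∑ t ∈ range (c + I),
        ∑ q ∈ Q.filter (fun q => cc q = c), ann (FFH δ w X n) X q
          (rd δ X Λ bb q / 2 ^ (t + 1)) (2 * (rd δ X Λ bb q / 2 ^ (t + 1))) +
      ∑ q ∈ Q, dsc (FFH δ w X n) X q (rd δ X Λ bb q / 2 ^ (cc q + I)) := by
    have h1 : ∀ q ∈ Q, dsc (FFH δ w X n) X q (rd δ X Λ bb q) =
        ∑ t ∈ range (cc q + I), ann (FFH δ w X n) X q
          (rd δ X Λ bb q / 2 ^ (t + 1)) (2 * (rd δ X Λ bb q / 2 ^ (t + 1))) +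
        dsc (FFH δ w X n) X q (rd δ X Λ bb q / 2 ^ (cc q + I)) :=
      fun q _ => dsc_split (FFH δ w X n) hFc X q _ (cc q + I)
    rw [Finset.sum_congr rfl h1, Finset.sum_add_distrib]
    congr 1
    have h2 : ∀ c ∈ range (Nat.log 2 X + 1), ∑ t ∈ range (c + I),
        ∑ q ∈ Q.filter (fun q => cc q = c), ann (FFH δ w X n) X q
          (rd δ X Λ bb q / 2 ^ (t + 1)) (2 * (rd δ X Λ bb q / 2 ^ (t + 1))) =
        ∑ q ∈ Q.filter (fun q => cc q = c), ∑ t ∈ range (cc q + I), ann (FFH δ w X n) X q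
          (rd δ X Λ bb q / 2 ^ (t + 1)) (2 * (rd δ X Λ bb q / 2 ^ (t + 1))) := by
      intro c _
      rw [Finset.sum_comm]
      refine Finset.sum_congr rfl fun q hq => ?_
      rw [(Finset.mem_filter.1 hq).2]
    rw [Finset.sum_congr rfl h2]
    exact (Finset.sum_fiberwise_of_maps_to
      (fun q hq => Finset.mem_range.2 (hcc2 q hq)) _).symm
  have hE0 : 0 ≤ (X : ℝ) / L ^ (A + 4) := by positivity
  rw [hsplit]
  refine (norm_add_le _ _).trans ?_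
  -- centre
  have hcentre : ‖∑ q ∈ Q, dsc (FFH δ w X n) X q (rd δ X Λ bb q / 2 ^ (cc q + I))‖ ≤
      X / L ^ (A + 4) := by
    refine (norm_sum_le _ _).trans ?_
    have h1 := hce' Q N (fun q hq => (hq1 q hq).1) hq2 hNX
    refine le_trans (Finset.sum_le_sum fun q hq => ?_) h1
    obtain ⟨h2, h3⟩ := hcc1 q hq
    have h4 : 0 ≤ rd δ X Λ bb q / 2 ^ (cc q + I) :=
      div_nonneg (le_trans (by positivity) h2) (by positivity)
    refine dsc_le δ X w n q g6 _ (1 / L ^ A0) h4 ?_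
    calc rd δ X Λ bb q / 2 ^ (cc q + I) ≤ 2 ^ (cc q + 1) / 2 ^ (cc q + I) := by gcongr
      _ = 2 / 2 ^ I := by
        rw [pow_add, pow_add]
        field_simp
      _ ≤ 1 / L ^ A0 := by
        rw [div_le_div_iff₀ (by positivity) (by positivity)]
        linarith
  -- annuli
  have hann : ‖∑ c ∈ range (Nat.log 2 X + 1), ∑ t ∈ range (c + I),
        ∑ q ∈ Q.filter (fun q => cc q = c), ann (FFH δ w X n) X q
          (rd δ X Λ bb q / 2 ^ (t + 1)) (2 * (rd δ X Λ bb q / 2 ^ (t + 1)))‖ ≤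
      (2 * L) * ((4 * L) * (2 * (X / L ^ (A + 4)))) := by
    have hT : ((Nat.log 2 X + 1 : ℕ) : ℝ) ≤ 2 * L := by
      have h1 : 2 ^ (Nat.log 2 X) ≤ X := Nat.pow_log_le_self 2 (by omega)
      have h2 : (2 : ℝ) ^ (Nat.log 2 X) ≤ X := by exact_mod_cast h1
      have h3 := Real.log_le_log (by positivity) h2
      rw [Real.log_pow] at h3
      have h4 : (2 : ℝ) / 3 ≤ Real.log 2 := by
        have := Real.log_two_gt_d9
        linarith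
      have h5 : ((Nat.log 2 X : ℕ) : ℝ) * (2 / 3) ≤ ((Nat.log 2 X : ℕ) : ℝ) * Real.log 2 :=
        mul_le_mul_of_nonneg_left h4 (Nat.cast_nonneg _)
      push_cast
      linarith
    refine (norm_sum_le _ _).trans ?_
    have h1 : ∀ c ∈ range (Nat.log 2 X + 1), ‖∑ t ∈ range (c + I),
        ∑ q ∈ Q.filter (fun q => cc q = c), ann (FFH δ w X n) X q
          (rd δ X Λ bb q / 2 ^ (t + 1)) (2 * (rd δ X Λ bb q / 2 ^ (t + 1)))‖ ≤
        (4 * L) * (2 * (X / L ^ (A + 4))) := by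
      intro c hc
      refine (norm_sum_le _ _).trans ?_
      have h2 : ∀ t ∈ range (c + I), ‖∑ q ∈ Q.filter (fun q => cc q = c), ann (FFH δ w X n) X q
          (rd δ X Λ bb q / 2 ^ (t + 1)) (2 * (rd δ X Λ bb q / 2 ^ (t + 1)))‖ ≤
          2 * (X / L ^ (A + 4)) := by
        intro t ht
        have hsub : Q.filter (fun q => cc q = c) ⊆ Q := Finset.filter_subset _ _
        refine fb_one g6 (by linarith) (Q.filter (fun q => cc q = c))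
          (fun q => rd δ X Λ bb q) ?_ hN0 (fun q hq q' hq' => hq2 q (hsub hq) q' (hsub hq')) ?_ hq4
          hI2 (Finset.mem_range.1 ht) hpl' hgood
        · intro q hq
          obtain ⟨h3, h4⟩ := Finset.mem_filter.1 hq
          obtain ⟨h5, h6⟩ := hcc1 q h3
          rw [h4] at h5 h6
          exact ⟨(hq1 q h3).1, h5, h6, (hq1 q h3).2.2.2⟩
        · exact le_trans (by exact_mod_cast Finset.card_le_card hsub) hq3
      refine (Finset.sum_le_sum h2).trans ?_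
      rw [Finset.sum_const, Finset.card_range, nsmul_eq_mul]
      apply mul_le_mul_of_nonneg_right _ (by positivity)
      have hc' : c ≤ Nat.log 2 X := Nat.lt_succ_iff.1 (Finset.mem_range.1 hc)
      have hc'' : (c : ℝ) ≤ ((Nat.log 2 X + 1 : ℕ) : ℝ) := by exact_mod_cast hc'.trans (Nat.le_succ _)
      push_cast at hc'' hT ⊢
      linarith
    refine (Finset.sum_le_sum h1).trans ?_
    rw [Finset.sum_const, Finset.card_range, nsmul_eq_mul]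
    exact mul_le_mul_of_nonneg_right hT (by positivity)
  refine (add_le_add hann hcentre).trans ?_
  have hfin : (2 * L) * ((4 * L) * (2 * (X / L ^ (A + 4)))) + X / L ^ (A + 4) =
      (16 * L ^ 2 + 1) * (X / L ^ (A + 4)) := by ring
  rw [hfin]
  have h16 : 16 * L ^ 2 + 1 ≤ L ^ 4 := by
    have h1 : (36 : ℝ) ≤ L ^ 2 := by nlinarith
    nlinarith
  calc (16 * L ^ 2 + 1) * (X / L ^ (A + 4)) ≤ L ^ 4 * (X / L ^ (A + 4)) :=
        mul_le_mul_of_nonneg_right h16 hE0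
    _ = X / L ^ A := by
        rw [pow_add]
        field_simp

end Pool.MP_dd84fd_nt.HX
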