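import Pool.Agent.Lib.MP_dd84fd_nt.HX.FaScale
import Pool.Agent.Lib.MP_dd84fd_nt.E2.MinorP

/-!
# HX-FaFin: Theorem H

Proof. Scales `Y_i = X / 2^i` (ℕ division), `i ∈ range (Nat.log 2 X + 1)` with `X^(1/2-2δ) ≤ Y_i`.
`thin`: at one scale the moduli `d > Y^(1/2+3δ/2)` can be omitted: they have at most
`(log Y)^C Y^(1/2-3δ/2)` multiples up to `Y`. `core`: sum over the scales.
-/

set_option autoImplicit false

namespace Pool.MP_dd84fd_nt.HX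

open Finset Pool.MP_67663b_nt.Odd Pool.MP_dd84fd_nt.En Pool.MP_dd84fd_nt.E2 Pool.MP_dd84fd_nt.LS
  Pool.MP_dd84fd_nt.GX

open Pool.MP_dd84fd_nt.L2G (nrm)

open Pool.MP_dd84fd_nt.PL (rr)

private theorem fin_scale (X n : ℕ) (hn : 1 ≤ n) (hnX : n ≤ X) :
    ∃ i, i ≤ Nat.log 2 X ∧ n ≤ X / 2 ^ i ∧ X / 2 ^ i < 2 * n := by
  have h0 : X / n ≠ 0 := by
    have := Nat.div_pos hnX hn
    omega
  refine ⟨Nat.log 2 (X / n), ?_, ?_, ?_⟩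
  · exact Nat.log_mono_right (Nat.div_le_self _ _)
  · rw [Nat.le_div_iff_mul_le (by positivity)]
    have h1 := Nat.pow_log_le_self 2 h0
    have h2 : n * 2 ^ Nat.log 2 (X / n) ≤ n * (X / n) := Nat.mul_le_mul_left _ h1
    exact h2.trans (Nat.mul_div_le _ _)
  · rw [Nat.div_lt_iff_lt_mul (by positivity)]
    have h1 := Nat.lt_pow_succ_log_self (b := 2) (by norm_num) (X / n)
    rw [Nat.div_lt_iff_lt_mul hn, pow_succ] at h1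
    calc X < 2 ^ Nat.log 2 (X / n) * 2 * n := h1
      _ = 2 * n * 2 ^ Nat.log 2 (X / n) := by ring

private theorem fin_log2 (X : ℕ) (hL : 1 ≤ Real.log X) :
    ((Nat.log 2 X : ℕ) : ℝ) + 1 ≤ 3 * Real.log X := by
  have h1 := Real.natLog_le_logb X 2
  have h2 : (0.6931471803 : ℝ) < Real.log 2 := Real.log_two_gt_d9
  have h3 : Real.logb 2 X ≤ 2 * Real.log X := by
    rw [Real.logb, div_le_iff₀ (by linarith)]
    nlinarith
  push_cast at h1 h3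
  linarith

/-- the bad numbers at one scale -/
private def Bd (η : ℝ) (n : ℕ) : Prop := η * (SS n * JJ n) < |(g n : ℝ) - SS n * JJ n|

open Classical in
/-- the statement for one scale -/
private def Sc (δ η : ℝ) (C' K : ℕ) (e : ℝ) (R : ℕ → ℝ) : Prop :=
  ∃ Y0 : ℕ, ∀ Y : ℕ, Y0 ≤ Y → ∃ D : Finset ℕ, (D.card : ℝ) ≤ (Real.log Y) ^ C' ∧
      (∀ d ∈ D, (Real.log Y) ^ (K + 1) ≤ (d : ℝ) ∧ (d : ℝ) ≤ (Y : ℝ) ^ (1 / 2 + e * δ)) ∧
      (((Icc 1 Y).filter (fun n => Y < 2 * n ∧ Even n ∧ (∀ d ∈ D, ¬ d ∣ n) ∧ Bd η n)).card : ℝ) ≤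
        R Y

open Classical in
private theorem thin (δ η : ℝ) (h0 : 0 < δ) (C' K : ℕ)
    (hs : Sc δ η C' K 6 (fun Y => (Y : ℝ) ^ (1 / 2 - 2 * δ))) :
    Sc δ η C' K (3 / 2) (fun Y => (1 + (Real.log Y) ^ C') * (Y : ℝ) ^ (1 / 2 - 3 / 2 * δ)) := by
  obtain ⟨Y0, hY0⟩ := hs
  refine ⟨max Y0 1, fun Y hY => ?_⟩
  obtain ⟨D, h1, h2, h3⟩ := hY0 Y ((le_max_left _ _).trans hY)
  have hY1 : 1 ≤ Y := (le_max_right _ _).trans hY
  have hYR : (1 : ℝ) ≤ Y := by exact_mod_cast hY1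
  have hYp : (0 : ℝ) < Y := by linarith
  obtain ⟨D1, hD1⟩ : ∃ D1 : Finset ℕ, D1 = D.filter
    (fun d : ℕ => (d : ℝ) ≤ (Y : ℝ) ^ (1 / 2 + 3 / 2 * δ)) := ⟨_, rfl⟩
  obtain ⟨D2, hD2⟩ : ∃ D2 : Finset ℕ, D2 = D.filter
    (fun d : ℕ => ¬ (d : ℝ) ≤ (Y : ℝ) ^ (1 / 2 + 3 / 2 * δ)) := ⟨_, rfl⟩
  have hc1 : (D1.card : ℝ) ≤ D.card := by
    rw [hD1]
    exact_mod_cast card_filter_le _ _
  have hc2 : (D2.card : ℝ) ≤ D.card := by
    rw [hD2]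
    exact_mod_cast card_filter_le _ _
  refine ⟨D1, hc1.trans h1, fun d hd => ?_, ?_⟩
  · rw [hD1, mem_filter] at hd
    exact ⟨(h2 d hd.1).1, hd.2⟩
  · have hsub : (Icc 1 Y).filter (fun n => Y < 2 * n ∧ Even n ∧ (∀ d ∈ D1, ¬ d ∣ n) ∧ Bd η n) ⊆
        (Icc 1 Y).filter (fun n => Y < 2 * n ∧ Even n ∧ (∀ d ∈ D, ¬ d ∣ n) ∧ Bd η n) ∪
        D2.biUnion (fun d => (Ioc 0 Y).filter (fun n => d ∣ n)) := by
      intro n hn
      rw [mem_filter, mem_Icc] at hn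
      obtain ⟨⟨n1, n2⟩, n3, n4, n5, n6⟩ := hn
      rw [mem_union]
      by_cases hdiv : ∀ d ∈ D, ¬ d ∣ n
      · left
        rw [mem_filter, mem_Icc]
        exact ⟨⟨n1, n2⟩, n3, n4, hdiv, n6⟩
      · right
        push Not at hdiv
        obtain ⟨d, hd, hdn⟩ := hdiv
        rw [mem_biUnion]
        refine ⟨d, ?_, ?_⟩
        · rw [hD2, mem_filter]
          refine ⟨hd, fun hle => ?_⟩
          exact n5 d (by rw [hD1, mem_filter]; exact ⟨hd, hle⟩) hdn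
        · rw [mem_filter, mem_Ioc]
          exact ⟨⟨by omega, n2⟩, hdn⟩
    have h4 : (((Icc 1 Y).filter (fun n => Y < 2 * n ∧ Even n ∧ (∀ d ∈ D1, ¬ d ∣ n) ∧
        Bd η n)).card : ℝ) ≤ (((Icc 1 Y).filter (fun n => Y < 2 * n ∧ Even n ∧
        (∀ d ∈ D, ¬ d ∣ n) ∧ Bd η n)).card : ℝ) +
        ∑ d ∈ D2, (((Ioc 0 Y).filter (fun n => d ∣ n)).card : ℝ) := by
      have h5 := (card_le_card hsub).trans ((card_union_le _ _).trans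
        (Nat.add_le_add_left card_biUnion_le _))
      exact_mod_cast h5
    have h5 : ∀ d ∈ D2, (((Ioc 0 Y).filter (fun n => d ∣ n)).card : ℝ) ≤
        (Y : ℝ) ^ (1 / 2 - 3 / 2 * δ) := by
      intro d hd
      rw [hD2, mem_filter, not_le] at hd
      rw [Nat.Ioc_filter_dvd_card_eq_div]
      have h6 : (0 : ℝ) < (Y : ℝ) ^ (1 / 2 + 3 / 2 * δ) := by positivity
      have h7 : (0 : ℝ) < d := h6.trans hd.2
      calc ((Y / d : ℕ) : ℝ) ≤ (Y : ℝ) / d := Nat.cast_div_le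
        _ ≤ (Y : ℝ) / (Y : ℝ) ^ (1 / 2 + 3 / 2 * δ) :=
            div_le_div_of_nonneg_left hYp.le h6 hd.2.le
        _ = (Y : ℝ) ^ (1 / 2 - 3 / 2 * δ) := by
            rw [div_eq_iff h6.ne', ← Real.rpow_add hYp]
            rw [show (1 / 2 - 3 / 2 * δ + (1 / 2 + 3 / 2 * δ) : ℝ) = 1 by ring, Real.rpow_one]
    have h6 := sum_le_card_nsmul D2 _ _ h5
    rw [nsmul_eq_mul] at h6
    have h7 : (Y : ℝ) ^ (1 / 2 - 2 * δ) ≤ (Y : ℝ) ^ (1 / 2 - 3 / 2 * δ) :=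
      Real.rpow_le_rpow_of_exponent_le hYR (by linarith)
    have h8 : (0 : ℝ) < (Y : ℝ) ^ (1 / 2 - 3 / 2 * δ) := by positivity
    have h9 := mul_le_mul_of_nonneg_right (hc2.trans h1) h8.le
    show _ ≤ (1 + (Real.log Y) ^ C') * (Y : ℝ) ^ (1 / 2 - 3 / 2 * δ)
    rw [add_mul, one_mul]
    linarith

open Classical in
private theorem core (δ η : ℝ) (h0 : 0 < δ) (h1 : δ ≤ 1 / 4000) (C' K : ℕ)
    (hs : Sc δ η C' K 6 (fun Y => (Y : ℝ) ^ (1 / 2 - 2 * δ))) :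
    ∃ X0 : ℕ, ∀ X : ℕ, X0 ≤ X → ∃ (I : Finset ℕ) (f : ℕ → Finset ℕ),
      (I.card : ℝ) ≤ 3 * Real.log X ∧ 3 ^ (K + 1) ≤ Real.log X ∧ 10 ≤ Real.log X ∧ (1 : ℝ) ≤ X ∧
      (∀ i ∈ I, (1 : ℝ) ≤ (X / 2 ^ i : ℕ) ∧ ((X / 2 ^ i : ℕ) : ℝ) ≤ X ∧
        Real.log X / 3 ≤ Real.log (X / 2 ^ i : ℕ) ∧ Real.log (X / 2 ^ i : ℕ) ≤ Real.log X ∧
        ((f i).card : ℝ) ≤ (Real.log (X / 2 ^ i : ℕ)) ^ C' ∧
        (∀ d ∈ f i, (Real.log (X / 2 ^ i : ℕ)) ^ (K + 1) ≤ (d : ℝ) ∧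
          (d : ℝ) ≤ ((X / 2 ^ i : ℕ) : ℝ) ^ (1 / 2 + 3 / 2 * δ))) ∧
      ∀ P : ℕ → Prop, (∀ n, P n → 1 ≤ n → n ≤ X → (X : ℝ) ^ (1 / 3 : ℝ) ≤ n →
        ∀ i ∈ I, n ≤ X / 2 ^ i → X / 2 ^ i < 2 * n →
          Even n ∧ (∀ d ∈ f i, ¬ d ∣ n) ∧ Bd η n) →
        (((Icc 1 X).filter P).card : ℝ) ≤ (X : ℝ) ^ (1 / 2 - δ) := by
  obtain ⟨Y0, hY0⟩ := thin δ η h0 C' K hs
  obtain ⟨X1, hX1⟩ := MP_log_large (max 10 (3 ^ (K + 1)))
  obtain ⟨X4, hX4⟩ := MP_log_pow 7 (C' + 1) (ε := δ / 2) (by positivity)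
  refine ⟨max (max (Y0 ^ 3) X1) X4, fun X hX => ?_⟩
  have hXY : Y0 ^ 3 ≤ X := (le_max_left _ _).trans ((le_max_left _ _).trans hX)
  have hX1' : X1 ≤ X := (le_max_right _ _).trans ((le_max_left _ _).trans hX)
  have hX4' : X4 ≤ X := (le_max_right _ _).trans hX
  have hL := hX1 X hX1'
  have hL10 : 10 ≤ Real.log X := (le_max_left _ _).trans hL
  have hLK : 3 ^ (K + 1) ≤ Real.log X := (le_max_right _ _).trans hL
  have e4 := hX4 X hX4'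
  clear hX hX1 hX4
  have hXpos : (0 : ℝ) < X := by
    rcases Nat.eq_zero_or_pos X with h | h
    · exfalso
      subst h
      simp at hL10
      linarith
    · exact_mod_cast h
  have hX1R : (1 : ℝ) ≤ X := by
    have : 1 ≤ X := by
      have : 0 < X := by exact_mod_cast hXpos
      omega
    exact_mod_cast this
  -- the scales
  obtain ⟨I, hI⟩ : ∃ I : Finset ℕ, I = (range (Nat.log 2 X + 1)).filter
    (fun i => (X : ℝ) ^ (1 / 2 - 3 / 2 * δ) ≤ (X / 2 ^ i : ℕ)) := ⟨_, rfl⟩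
  have hIcard : (I.card : ℝ) ≤ 3 * Real.log X := by
    have h1 : I.card ≤ Nat.log 2 X + 1 := by
      rw [hI]
      exact (card_filter_le _ _).trans (by rw [card_range])
    have h2 := fin_log2 X (by linarith)
    have h3 : (I.card : ℝ) ≤ (Nat.log 2 X : ℝ) + 1 := by exact_mod_cast h1
    linarith
  have hthird : (X : ℝ) ^ (1 / 3 : ℝ) ≤ (X : ℝ) ^ (1 / 2 - 3 / 2 * δ) :=
    Real.rpow_le_rpow_of_exponent_le hX1R (by linarith)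
  have hcube : ((X : ℝ) ^ (1 / 3 : ℝ)) ^ 3 = X := by
    rw [← Real.rpow_natCast, ← Real.rpow_mul hXpos.le]
    norm_num
  have hYi : ∀ i ∈ I, (X : ℝ) ^ (1 / 3 : ℝ) ≤ (X / 2 ^ i : ℕ) := by
    intro i hi
    rw [hI, mem_filter] at hi
    exact hthird.trans hi.2
  have hex : ∀ i ∈ I, ∃ D : Finset ℕ, (D.card : ℝ) ≤ (Real.log (X / 2 ^ i : ℕ)) ^ C' ∧
      (∀ d ∈ D, (Real.log (X / 2 ^ i : ℕ)) ^ (K + 1) ≤ (d : ℝ) ∧
        (d : ℝ) ≤ ((X / 2 ^ i : ℕ) : ℝ) ^ (1 / 2 + 3 / 2 * δ)) ∧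
      (((Icc 1 (X / 2 ^ i)).filter (fun n => X / 2 ^ i < 2 * n ∧ Even n ∧ (∀ d ∈ D, ¬ d ∣ n) ∧
        Bd η n)).card : ℝ) ≤ (1 + (Real.log (X / 2 ^ i : ℕ)) ^ C') *
          ((X / 2 ^ i : ℕ) : ℝ) ^ (1 / 2 - 3 / 2 * δ) := by
    intro i hi
    refine hY0 (X / 2 ^ i) ?_
    have h1 : (Y0 : ℝ) ^ 3 ≤ ((X / 2 ^ i : ℕ) : ℝ) ^ 3 := by
      have h2 := pow_le_pow_left₀ (by positivity) (hYi i hi) 3
      rw [hcube] at h2
      have h3 : (Y0 : ℝ) ^ 3 ≤ X := by exact_mod_cast hXY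
      exact h3.trans h2
    have h2 := le_of_pow_le_pow_left₀ (by norm_num) (by positivity) h1
    exact_mod_cast h2
  choose! f hf1 hf2 hf3 using hex
  have hsc : ∀ i ∈ I, (1 : ℝ) ≤ (X / 2 ^ i : ℕ) ∧ ((X / 2 ^ i : ℕ) : ℝ) ≤ X ∧
      Real.log X / 3 ≤ Real.log (X / 2 ^ i : ℕ) ∧ Real.log (X / 2 ^ i : ℕ) ≤ Real.log X := by
    intro i hi
    have h1 := hYi i hi
    have h2 : (1 : ℝ) ≤ (X / 2 ^ i : ℕ) := (Real.one_le_rpow hX1R (by norm_num)).trans h1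
    have h3 : ((X / 2 ^ i : ℕ) : ℝ) ≤ X := by exact_mod_cast Nat.div_le_self _ _
    refine ⟨h2, h3, ?_, Real.log_le_log (by linarith) h3⟩
    have h4 := Real.log_le_log (by positivity) h1
    rw [Real.log_rpow hXpos] at h4
    linarith
  refine ⟨I, f, hIcard, hLK, hL10, hX1R, fun i hi => ?_, fun P hP => ?_⟩
  · obtain ⟨s1, s2, s3, s4⟩ := hsc i hi
    exact ⟨s1, s2, s3, s4, hf1 i hi, hf2 i hi⟩
  · have hsub : (Icc 1 X).filter P ⊆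
        Icc 1 ⌊(X : ℝ) ^ (1 / 2 - 3 / 2 * δ)⌋₊ ∪ I.biUnion (fun i => (Icc 1 (X / 2 ^ i)).filter
          (fun n => X / 2 ^ i < 2 * n ∧ Even n ∧ (∀ d ∈ f i, ¬ d ∣ n) ∧ Bd η n)) := by
      intro n hn
      rw [mem_filter, mem_Icc] at hn
      obtain ⟨⟨hn1, hnX⟩, hPn⟩ := hn
      rw [mem_union]
      by_cases hsq : n ≤ ⌊(X : ℝ) ^ (1 / 2 - 3 / 2 * δ)⌋₊
      · exact Or.inl (mem_Icc.2 ⟨hn1, hsq⟩)
      · right
        have hbig : (X : ℝ) ^ (1 / 2 - 3 / 2 * δ) < n :=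
          (Nat.floor_lt (by positivity)).1 (not_le.1 hsq)
        obtain ⟨i, hi1, hi2, hi3⟩ := fin_scale X n hn1 hnX
        have hi2' : (n : ℝ) ≤ (X / 2 ^ i : ℕ) := by exact_mod_cast hi2
        have hiI : i ∈ I := by
          rw [hI, mem_filter, mem_range]
          exact ⟨by omega, hbig.le.trans hi2'⟩
        rw [mem_biUnion]
        refine ⟨i, hiI, ?_⟩
        rw [mem_filter, mem_Icc]
        have h5 := hP n hPn hn1 hnX (hthird.trans hbig.le) i hiI hi2 hi3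
        exact ⟨⟨hn1, hi2⟩, hi3, h5⟩
    have h1 : (((Icc 1 X).filter P).card : ℝ) ≤
        (⌊(X : ℝ) ^ (1 / 2 - 3 / 2 * δ)⌋₊ : ℝ) + ∑ i ∈ I, (((Icc 1 (X / 2 ^ i)).filter
          (fun n => X / 2 ^ i < 2 * n ∧ Even n ∧ (∀ d ∈ f i, ¬ d ∣ n) ∧ Bd η n)).card : ℝ) := by
      have h2 := (card_le_card hsub).trans ((card_union_le _ _).trans
        (Nat.add_le_add_left card_biUnion_le _))
      rw [Nat.card_Icc, Nat.add_sub_cancel] at h2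
      exact_mod_cast h2
    obtain ⟨L, hLdef⟩ : ∃ L : ℝ, L = Real.log X := ⟨_, rfl⟩
    have hL0 : 0 < L := by linarith
    have hLC : 1 ≤ L ^ C' := one_le_pow₀ (by linarith)
    have h6 : (0 : ℝ) < (X : ℝ) ^ (1 / 2 - 3 / 2 * δ) := by positivity
    have h2 : ∀ i ∈ I, (((Icc 1 (X / 2 ^ i)).filter
          (fun n => X / 2 ^ i < 2 * n ∧ Even n ∧ (∀ d ∈ f i, ¬ d ∣ n) ∧ Bd η n)).card : ℝ) ≤
        2 * L ^ C' * (X : ℝ) ^ (1 / 2 - 3 / 2 * δ) := by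
      intro i hi
      obtain ⟨s1, s2, s3, s4⟩ := hsc i hi
      refine (hf3 i hi).trans ?_
      have h7 : ((X / 2 ^ i : ℕ) : ℝ) ^ (1 / 2 - 3 / 2 * δ) ≤ (X : ℝ) ^ (1 / 2 - 3 / 2 * δ) :=
        Real.rpow_le_rpow (by linarith) s2 (by linarith)
      have h8 : (Real.log (X / 2 ^ i : ℕ)) ^ C' ≤ L ^ C' := by
        rw [hLdef]
        exact pow_le_pow_left₀ (by linarith) s4 _
      have h9 : 0 ≤ (Real.log (X / 2 ^ i : ℕ)) ^ C' := pow_nonneg (by linarith) _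
      exact mul_le_mul (by linarith) h7 (by positivity) (by positivity)
    have h3 := sum_le_card_nsmul I _ _ h2
    rw [nsmul_eq_mul] at h3
    have h4 : ((⌊(X : ℝ) ^ (1 / 2 - 3 / 2 * δ)⌋₊ : ℕ) : ℝ) ≤ (X : ℝ) ^ (1 / 2 - 3 / 2 * δ) :=
      Nat.floor_le (by positivity)
    have h5 : (X : ℝ) ^ (1 / 2 - δ) = (X : ℝ) ^ (δ / 2) * (X : ℝ) ^ (1 / 2 - 3 / 2 * δ) := by
      rw [← Real.rpow_add hXpos]
      congr 1
      ring
    rw [h5]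
    rw [← hLdef] at e4 hIcard
    have h10 : 1 ≤ L * L ^ C' := by nlinarith
    have h11 : (I.card : ℝ) * (2 * L ^ C' * (X : ℝ) ^ (1 / 2 - 3 / 2 * δ)) ≤
        3 * L * (2 * L ^ C' * (X : ℝ) ^ (1 / 2 - 3 / 2 * δ)) :=
      mul_le_mul_of_nonneg_right hIcard (by positivity)
    have h12 : 7 * L ^ (C' + 1) * (X : ℝ) ^ (1 / 2 - 3 / 2 * δ) ≤
        (X : ℝ) ^ (δ / 2) * (X : ℝ) ^ (1 / 2 - 3 / 2 * δ) := mul_le_mul_of_nonneg_right e4 h6.le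
    have h13 : (X : ℝ) ^ (1 / 2 - 3 / 2 * δ) ≤ L * L ^ C' * (X : ℝ) ^ (1 / 2 - 3 / 2 * δ) :=
      le_mul_of_one_le_left h6.le h10
    have h14 : 7 * L ^ (C' + 1) * (X : ℝ) ^ (1 / 2 - 3 / 2 * δ) =
        3 * L * (2 * L ^ C' * (X : ℝ) ^ (1 / 2 - 3 / 2 * δ)) +
          L * L ^ C' * (X : ℝ) ^ (1 / 2 - 3 / 2 * δ) := by ring
    linarith

theorem fin_h : ∃ (C : ℕ) (c : ℝ), 0 < c ∧ c < 1 / 4 ∧ ∀ η : ℝ, 0 < η → η ≤ 1 →
    ∀ K : ℕ, ∃ X0 : ℕ, ∀ X : ℕ, X0 ≤ X → ∃ D : Finset ℕ, (D.card : ℝ) ≤ (Real.log X) ^ C ∧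
      (∀ d ∈ D, (Real.log X) ^ K ≤ (d : ℝ) ∧ (d : ℝ) ≤ (X : ℝ) ^ (1 / 2 + 2 * (c * η))) ∧
      ∀ P : ℕ → Prop, ∀ _ : DecidablePred P,
        (∀ n, P n → Even n ∧ (∀ d ∈ D, d ∣ n → (n : ℝ) ^ (1 / 2 + 2 * (c * η)) < d) ∧
          η * (SS n * JJ n) < |(g n : ℝ) - SS n * JJ n|) →
        (((Icc 1 X).filter P).card : ℝ) ≤ (X : ℝ) ^ (1 / 2 - c * η) := by
  obtain ⟨C', c0, hc0, hC'⟩ := scale_h
  refine ⟨C' + 2, min (c0 / 2) (1 / 4000), lt_min (by positivity) (by norm_num),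
    (min_le_right _ _).trans_lt (by norm_num), fun η hη hη1 K => ?_⟩
  obtain ⟨δ, hδdef⟩ : ∃ δ : ℝ, δ = min (c0 / 2) (1 / 4000) * η := ⟨_, rfl⟩
  have hδ0 : 0 < δ := by
    rw [hδdef]
    exact mul_pos (lt_min (by positivity) (by norm_num)) hη
  have hδ1 : δ ≤ 1 / 4000 := by
    rw [hδdef]
    have h1 : min (c0 / 2) (1 / 4000) ≤ 1 / 4000 := min_le_right _ _
    have h2 : (0 : ℝ) ≤ min (c0 / 2) (1 / 4000) := le_min (by positivity) (by norm_num)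
    calc min (c0 / 2) (1 / 4000) * η ≤ 1 / 4000 * 1 :=
          mul_le_mul h1 hη1 hη.le (by norm_num)
      _ = 1 / 4000 := mul_one _
  have hδ2 : 2 * δ ≤ c0 * η := by
    rw [hδdef]
    have h1 : min (c0 / 2) (1 / 4000) ≤ c0 / 2 := min_le_left _ _
    have h2 := mul_le_mul_of_nonneg_right h1 hη.le
    linarith
  rw [← hδdef]
  have hScl : Sc δ η C' K 6 (fun Y => (Y : ℝ) ^ (1 / 2 - 2 * δ)) := by
    obtain ⟨Y0, hY0⟩ := hC' η hη (2 * δ) (by positivity) (by linarith) hδ2 (K + 1)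
    refine ⟨Y0, fun Y hY => ?_⟩
    obtain ⟨D, h1, h2, h3⟩ := hY0 Y hY
    refine ⟨D, h1, fun d hd => ⟨(h2 d hd).1, ?_⟩, ?_⟩
    · rw [show (1 / 2 + 6 * δ : ℝ) = 1 / 2 + 3 * (2 * δ) by ring]
      exact (h2 d hd).2
    · convert h3 using 4
      exact Iff.rfl
  obtain ⟨X0, hX0⟩ := core δ η hδ0 hδ1 C' K hScl
  obtain ⟨X1, hX1⟩ : ∃ X1 : ℕ, ∀ X : ℕ, X1 ≤ X → (2 : ℝ) ≤ (X : ℝ) ^ (δ / 6) := by
    have h := ((tendsto_rpow_atTop (by positivity : (0 : ℝ) < δ / 6)).comp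
      (tendsto_natCast_atTop_atTop (R := ℝ))).eventually_ge_atTop 2
    obtain ⟨X0, h1⟩ := Filter.eventually_atTop.1 h
    exact ⟨X0, fun X hX => h1 X hX⟩
  refine ⟨max X0 X1, fun X hX => ?_⟩
  obtain ⟨I, f, hI, hLK, hL10, hX1R, hf, hcnt⟩ := hX0 X ((le_max_left _ _).trans hX)
  have h2X := hX1 X ((le_max_right _ _).trans hX)
  have hXpos : (0 : ℝ) < X := by linarith
  obtain ⟨L, hLdef⟩ : ∃ L : ℝ, L = Real.log X := ⟨_, rfl⟩
  rw [← hLdef] at hL10 hLK hI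
  have hL0 : 0 < L := by linarith
  refine ⟨I.biUnion f, ?_, ?_, ?_⟩
  · rw [← hLdef]
    have hci : ∀ i ∈ I, ((f i).card : ℝ) ≤ L ^ C' := by
      intro i hi
      obtain ⟨s1, s2, s3, s4, s5, s6⟩ := hf i hi
      rw [← hLdef] at s3 s4
      exact s5.trans (pow_le_pow_left₀ (by linarith) s4 _)
    have h1 : ((I.biUnion f).card : ℝ) ≤ ∑ i ∈ I, ((f i).card : ℝ) := by
      exact_mod_cast card_biUnion_le
    have h2 := sum_le_card_nsmul I _ _ hci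
    rw [nsmul_eq_mul] at h2
    have h3 : 0 < L ^ C' := by positivity
    calc ((I.biUnion f).card : ℝ) ≤ I.card * L ^ C' := h1.trans h2
      _ ≤ 3 * L * L ^ C' := mul_le_mul_of_nonneg_right hI h3.le
      _ ≤ L * L * L ^ C' := by
          refine mul_le_mul_of_nonneg_right ?_ h3.le
          exact mul_le_mul_of_nonneg_right (by linarith) hL0.le
      _ = L ^ (C' + 2) := by ring
  · intro d hd
    rw [mem_biUnion] at hd
    obtain ⟨i, hi, hd⟩ := hd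
    obtain ⟨s1, s2, s3, s4, s5, s6⟩ := hf i hi
    obtain ⟨d1, d2⟩ := s6 d hd
    rw [← hLdef] at s3 s4 ⊢
    refine ⟨?_, d2.trans ?_⟩
    · refine le_trans ?_ d1
      calc L ^ K = L ^ K * 1 := (mul_one _).symm
        _ ≤ L ^ K * (L / 3 ^ (K + 1)) := by
            refine mul_le_mul_of_nonneg_left ?_ (by positivity)
            rw [le_div_iff₀ (by positivity), one_mul]
            exact hLK
        _ = (L / 3) ^ (K + 1) := by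
            rw [_root_.div_pow, pow_succ L K]
            ring
        _ ≤ (Real.log (X / 2 ^ i : ℕ)) ^ (K + 1) := pow_le_pow_left₀ (by positivity) s3 _
    · calc ((X / 2 ^ i : ℕ) : ℝ) ^ (1 / 2 + 3 / 2 * δ) ≤ (X : ℝ) ^ (1 / 2 + 3 / 2 * δ) :=
            Real.rpow_le_rpow (by linarith) s2 (by positivity)
        _ ≤ (X : ℝ) ^ (1 / 2 + 2 * δ) :=
            Real.rpow_le_rpow_of_exponent_le hX1R (by linarith)
  · intro P _ hP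
    have h1 := hcnt P (by
      intro n hPn hn1 hnX hn3 i hi hi2 hi3
      obtain ⟨hev, hdiv, hbad⟩ := hP n hPn
      refine ⟨hev, fun d hd hdn => ?_, hbad⟩
      obtain ⟨s1, s2, s3, s4, s5, s6⟩ := hf i hi
      obtain ⟨d1, d2⟩ := s6 d hd
      have hnR : (1 : ℝ) ≤ n := by exact_mod_cast hn1
      have hn0 : (0 : ℝ) < n := by linarith
      have hi3' : ((X / 2 ^ i : ℕ) : ℝ) ≤ 2 * n := by exact_mod_cast hi3.le
      have h6 := hdiv d (mem_biUnion.2 ⟨i, hi, hd⟩) hdn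
      have h7 : ((X / 2 ^ i : ℕ) : ℝ) ^ (1 / 2 + 3 / 2 * δ) ≤
          (2 * (n : ℝ)) ^ (1 / 2 + 3 / 2 * δ) :=
        Real.rpow_le_rpow (by linarith) hi3' (by positivity)
      rw [Real.mul_rpow (by norm_num) hn0.le] at h7
      have h8 : (2 : ℝ) ^ (1 / 2 + 3 / 2 * δ) ≤ (n : ℝ) ^ (δ / 2) := by
        calc (2 : ℝ) ^ (1 / 2 + 3 / 2 * δ) ≤ (2 : ℝ) ^ (1 : ℝ) :=
              Real.rpow_le_rpow_of_exponent_le (by norm_num) (by linarith)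
          _ = 2 := by norm_num
          _ ≤ (X : ℝ) ^ (δ / 6) := h2X
          _ = ((X : ℝ) ^ (1 / 3 : ℝ)) ^ (δ / 2) := by
              rw [← Real.rpow_mul hXpos.le]
              congr 1
              ring
          _ ≤ (n : ℝ) ^ (δ / 2) := Real.rpow_le_rpow (by positivity) hn3 (by positivity)
      have h9 : (n : ℝ) ^ (1 / 2 + 2 * δ) =
          (n : ℝ) ^ (δ / 2) * (n : ℝ) ^ (1 / 2 + 3 / 2 * δ) := by
        rw [← Real.rpow_add hn0]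
        congr 1
        ring
      rw [h9] at h6
      have h10 := mul_le_mul_of_nonneg_right h8
        (by positivity : 0 ≤ (n : ℝ) ^ (1 / 2 + 3 / 2 * δ))
      linarith)
    convert h1 using 4

end Pool.MP_dd84fd_nt.HX
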