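import Pool.Agent.Lib.MP_dd84fd_nt.HX.SvF
import Pool.Agent.Lib.MP_dd84fd_nt.HX.SvRs
import Pool.Agent.Lib.MP_dd84fd_nt.HX.DcAbs

/-!
# HX-GpB (0.7 h): the number of representations with a gap number

Proof. `m ≤ X^(1-δ)`: at most `X^(1-δ)` values. `m > X^(1-δ)`: `dn_gap`: there is `c ∣ m` with `Gap δ X c`, `m = c k`, `k` rough (divisor of the rough `m`), `k ≤ n/c`, `n - c k` rough. So the number is at most `Σ_{c ≤ X, Gap c} #{k ≤ n/c : k, n - c k rough}` `≤ C SS n (n/L²) Σ_{Gap c} 1/c`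
(`sieve4`; `c ≤ X^(1/2+3δ) ≤ X^(9/10)`), and `Σ_{Gap c} 1/c ≤ Σ_{y2 ≤ c ≤ y3} rg c/c + Σ_{X^(1/3-7δ) ≤ c ≤ X^(1/3+3δ)} rg c/c ≤ C (6 δ L + 1)/L + C (10 δ L + 1)/L ≤ 16 C (δ + 1/L)` (`rs_sum`).
-/

set_option autoImplicit false

namespace Pool.MP_dd84fd_nt.HX

open Finset Pool.MP_67663b_nt.Odd Pool.MP_dd84fd_nt.En Pool.MP_dd84fd_nt.E2 Pool.MP_dd84fd_nt.LS
open Pool.MP_dd84fd_nt.L2G (nrm)
open Pool.MP_dd84fd_nt.GX

/-- sum of the reciprocals of the gap numbers -/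
private theorem gpb_sum : ∃ (C : ℝ) (X0 : ℕ), 0 < C ∧ ∀ X : ℕ, X0 ≤ X → ∀ δ : ℝ, 0 < δ →
    δ ≤ 1 / 2000 → ∀ S : Finset ℕ, (∀ c ∈ S, 1 ≤ c ∧ Gap δ X c) →
    ∑ c ∈ S, 1 / (c : ℝ) ≤ C * (δ + 1 / Real.log X) := by
  classical
  obtain ⟨C, X0, hC, h⟩ := rs_sum
  refine ⟨16 * C, max X0 3, by positivity, fun X hX δ hδ hδ' S hS => ?_⟩
  have g1 : X0 ≤ X := (le_max_left _ _).trans hX
  have g2 : 3 ≤ X := (le_max_right _ _).trans hX
  have hX3 : (3 : ℝ) ≤ X := by exact_mod_cast g2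
  have hX0 : (0 : ℝ) < X := by linarith
  have hX1 : (1 : ℝ) ≤ X := by linarith
  have hL : 0 < Real.log (X : ℝ) := Real.log_pos (by linarith)
  have hcmp : ∀ u v : ℝ, u ≤ v → (X : ℝ) ^ u ≤ (X : ℝ) ^ v := fun u v huv =>
    Real.rpow_le_rpow_of_exponent_le hX1 huv
  have hlog : ∀ u v : ℝ, Real.log ((X : ℝ) ^ u / (X : ℝ) ^ v) = (u - v) * Real.log X := by
    intro u v
    rw [← Real.rpow_sub hX0, Real.log_rpow hX0]
  have h1 := h X g1 ((X : ℝ) ^ (1 / 2 - 3 * δ)) ((X : ℝ) ^ (1 / 2 + 3 * δ))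
    (hcmp _ _ (by linarith)) (hcmp _ _ (by linarith))
  have h2 := h X g1 ((X : ℝ) ^ (1 / 3 - 7 * δ)) ((X : ℝ) ^ (1 / 3 + 3 * δ))
    (hcmp _ _ (by linarith)) (hcmp _ _ (by linarith))
  rw [hlog] at h1 h2
  set S1 : Finset ℕ := (Icc 1 ⌊(X : ℝ) ^ (1 / 2 + 3 * δ)⌋₊).filter
    (fun k : ℕ => (X : ℝ) ^ (1 / 2 - 3 * δ) ≤ (k : ℝ)) with hS1
  set S2 : Finset ℕ := (Icc 1 ⌊(X : ℝ) ^ (1 / 3 + 3 * δ)⌋₊).filter
    (fun k : ℕ => (X : ℝ) ^ (1 / 3 - 7 * δ) ≤ (k : ℝ)) with hS2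
  have hrg0 : ∀ k : ℕ, 0 ≤ rg (zz X) k / (k : ℝ) := fun k =>
    div_nonneg (rg_nonneg _ _).1 (Nat.cast_nonneg k)
  have h3 : ∑ c ∈ S, 1 / (c : ℝ) ≤ ∑ k ∈ S1, rg (zz X) k / k + ∑ k ∈ S2, rg (zz X) k / k := by
    have h4 : ∑ c ∈ S, 1 / (c : ℝ) = ∑ c ∈ S, rg (zz X) c / (c : ℝ) := by
      refine Finset.sum_congr rfl fun c hc => ?_
      have : rg (zz X) c = 1 := by
        unfold rg
        rw [if_pos (hS c hc).2.1]
      rw [this]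
    rw [h4]
    have h5 : S ⊆ S1 ∪ S2 := by
      intro c hc
      obtain ⟨hc1, -, hc2 | hc2⟩ := hS c hc
      · unfold y2 y3 at hc2
        rw [mem_union]
        left
        rw [hS1, mem_filter, mem_Icc]
        exact ⟨⟨hc1, Nat.le_floor hc2.2⟩, hc2.1.le⟩
      · rw [mem_union]
        right
        rw [hS2, mem_filter, mem_Icc]
        exact ⟨⟨hc1, Nat.le_floor hc2.2⟩, hc2.1⟩
    refine (Finset.sum_le_sum_of_subset_of_nonneg h5 fun k _ _ => hrg0 k).trans ?_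
    have h6 := Finset.sum_union_inter (s₁ := S1) (s₂ := S2)
      (f := fun k : ℕ => rg (zz X) k / (k : ℝ))
    have h7 : 0 ≤ ∑ k ∈ S1 ∩ S2, rg (zz X) k / (k : ℝ) := Finset.sum_nonneg fun k _ => hrg0 k
    linarith
  refine h3.trans ((add_le_add h1 h2).trans ?_)
  have e1 : C * ((1 / 2 + 3 * δ - (1 / 2 - 3 * δ)) * Real.log X + 1) / Real.log X =
      6 * C * δ + C * (1 / Real.log X) := by
    field_simp
    ring
  have e2 : C * ((1 / 3 + 3 * δ - (1 / 3 - 7 * δ)) * Real.log X + 1) / Real.log X =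
      10 * C * δ + C * (1 / Real.log X) := by
    field_simp
    ring
  rw [e1, e2]
  have h8 : 0 ≤ C * (1 / Real.log (X : ℝ)) := by positivity
  have e3 : 16 * C * (δ + 1 / Real.log X) = 16 * C * δ + 16 * (C * (1 / Real.log X)) := by ring
  rw [e3]
  linarith

theorem gap_count : ∃ C : ℝ, 0 < C ∧ ∀ δ : ℝ, 0 < δ → δ ≤ 1 / 2000 → ∃ X0 : ℕ, ∀ X : ℕ,
    X0 ≤ X → ∀ n : ℕ, X < 2 * n → n ≤ X → Even n →
    (((Icc 1 (n - 1)).filter (fun m => Rgh (zz X) m ∧ Rgh (zz X) (n - m) ∧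
      Dn δ X m ≠ 0)).card : ℝ) ≤
      C * (δ + 1 / Real.log X) * (SS n * n / (Real.log X) ^ 2) + (X : ℝ) ^ (1 - δ) := by
  classical
  obtain ⟨C1, X1, hC1, hsv⟩ := sieve4
  obtain ⟨C2', X2, hC2, hgs⟩ := gpb_sum
  refine ⟨C1 * C2', by positivity, fun δ hδ hδ' => ?_⟩
  obtain ⟨X3, hdg⟩ := dn_gap δ hδ hδ'
  refine ⟨max (max X1 X2) (max X3 3), fun X hX n hXn hnX hn => ?_⟩
  simp only [max_le_iff] at hX
  obtain ⟨⟨g1, g2⟩, g3, g4⟩ := hX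
  have hX3 : (3 : ℝ) ≤ X := by exact_mod_cast g4
  have hX0 : (0 : ℝ) < X := by linarith
  have hX1' : (1 : ℝ) ≤ X := by linarith
  have hL : 0 < Real.log (X : ℝ) := Real.log_pos (by linarith)
  have hn0 : 0 < n := by omega
  have hn0' : (0 : ℝ) < n := by exact_mod_cast hn0
  set G : Finset ℕ := (Icc 1 X).filter (fun c => Gap δ X c) with hG
  set Ac : ℕ → Finset ℕ := fun c => (Icc 1 (n / c)).filter
    (fun k => Rgh (zz X) k ∧ Rgh (zz X) (n - c * k)) with hAc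
  have hsub : (Icc 1 (n - 1)).filter (fun m => Rgh (zz X) m ∧ Rgh (zz X) (n - m) ∧
      Dn δ X m ≠ 0) ⊆ Icc 1 ⌊(X : ℝ) ^ (1 - δ)⌋₊ ∪
      G.biUnion (fun c => (Ac c).image (fun k => c * k)) := by
    intro m hm
    obtain ⟨hm1, hm2, hm3, hm4⟩ := mem_filter.1 hm
    rw [mem_Icc] at hm1
    rw [mem_union]
    rcases le_or_gt (m : ℝ) ((X : ℝ) ^ (1 - δ)) with h1 | h1
    · left
      rw [mem_Icc]
      exact ⟨hm1.1, Nat.le_floor h1⟩
    · right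
      obtain ⟨c, hc1, hc2⟩ := hdg X g3 m (by omega) h1 hm4
      obtain ⟨k, rfl⟩ := hc1
      have hck : 0 < c * k := hm1.1
      have hc0 : 0 < c := Nat.pos_of_mul_pos_right hck
      have hk0 : 0 < k := Nat.pos_of_mul_pos_left hck
      have hcle : c ≤ c * k := Nat.le_mul_of_pos_right c hk0
      rw [mem_biUnion]
      refine ⟨c, ?_, ?_⟩
      · rw [hG, mem_filter, mem_Icc]
        exact ⟨⟨hc0, by omega⟩, hc2⟩
      · rw [mem_image]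
        refine ⟨k, ?_, rfl⟩
        rw [hAc, mem_filter, mem_Icc]
        refine ⟨⟨hk0, ?_⟩, ((rgh_mul_iff _ _ _).1 hm2).2, hm3⟩
        rw [Nat.le_div_iff_mul_le hc0, mul_comm]
        omega
  have hcard := card_le_card hsub
  have h1 : (((Icc 1 (n - 1)).filter (fun m => Rgh (zz X) m ∧ Rgh (zz X) (n - m) ∧
      Dn δ X m ≠ 0)).card : ℝ) ≤ (⌊(X : ℝ) ^ (1 - δ)⌋₊ : ℝ) + ∑ c ∈ G, ((Ac c).card : ℝ) := by
    have h2 : ((Icc 1 (n - 1)).filter (fun m => Rgh (zz X) m ∧ Rgh (zz X) (n - m) ∧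
      Dn δ X m ≠ 0)).card ≤ ⌊(X : ℝ) ^ (1 - δ)⌋₊ + ∑ c ∈ G, (Ac c).card := by
      refine hcard.trans ((card_union_le _ _).trans ?_)
      rw [Nat.card_Icc, Nat.add_sub_cancel]
      refine Nat.add_le_add_left (card_biUnion_le.trans ?_) _
      exact Finset.sum_le_sum fun c _ => card_image_le
    exact_mod_cast h2
  have hfl : (⌊(X : ℝ) ^ (1 - δ)⌋₊ : ℝ) ≤ (X : ℝ) ^ (1 - δ) := Nat.floor_le (by positivity)
  have hSS : 0 < SS n := by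
    have h1 := SS_ge n
    have h2 := C2_pos
    linarith
  have h3 : ∑ c ∈ G, ((Ac c).card : ℝ) ≤
      ∑ c ∈ G, C1 * SS n * n / (Real.log X) ^ 2 * (1 / (c : ℝ)) := by
    refine Finset.sum_le_sum fun c hc => ?_
    obtain ⟨hc1, hc2⟩ := mem_filter.1 hc
    have hc9 : (c : ℝ) ≤ (X : ℝ) ^ (9 / 10 : ℝ) := by
      rcases hc2.2 with h4 | h4
      · refine h4.2.trans ?_
        unfold y3
        exact Real.rpow_le_rpow_of_exponent_le hX1' (by linarith)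
      · exact h4.2.trans (Real.rpow_le_rpow_of_exponent_le hX1' (by linarith))
    have hcp : (0 : ℝ) < c := by
      have := (mem_Icc.1 hc1).1
      exact_mod_cast this
    refine (hsv X g1 n c hXn hnX hn hc2.1 hc9).trans (le_of_eq ?_)
    field_simp
  have h4 := hgs X g2 δ hδ hδ' G (fun c hc => by
    obtain ⟨hc1, hc2⟩ := mem_filter.1 hc
    exact ⟨(mem_Icc.1 hc1).1, hc2⟩)
  rw [← Finset.mul_sum] at h3
  have h5 : C1 * SS n * n / (Real.log X) ^ 2 * ∑ c ∈ G, 1 / (c : ℝ) ≤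
      C1 * SS n * n / (Real.log X) ^ 2 * (C2' * (δ + 1 / Real.log X)) :=
    mul_le_mul_of_nonneg_left h4 (by positivity)
  have h6 : C1 * SS n * n / (Real.log X) ^ 2 * (C2' * (δ + 1 / Real.log X)) =
      C1 * C2' * (δ + 1 / Real.log X) * (SS n * n / (Real.log X) ^ 2) := by
    field_simp
  rw [h6] at h5
  linarith

end Pool.MP_dd84fd_nt.HX
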