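import Pool.Agent.Lib.MP_dd84fd_nt.HX.GpA
import Pool.Agent.Lib.MP_dd84fd_nt.HX.GpB

/-!
# HX-GpFin (0.6 h): the gap functions are small pointwise, `GapH`

Proof. `pz = an + D'`, `D' n = Dn n/log n` (`aL = rg Λ - Dn`), `|an| ≤ 2^22 rg`, `|D'| ≤ 2^22 rg` (`an_abs`; `n = 1`: all `0` because `log 1 = 0`). `pz m pz (n-m) - an m an (n-m) = an m D'(n-m) + D' m an (n-m) + D' m D'(n-m)`: at most `3 · 2^44` in absolute value, and `0` unless `m`, `n - m` are rough and `Dn m ≠ 0` or
`Dn (n-m) ≠ 0`. By the symmetry `m ↔ n - m` the sum is at most `6 · 2^44 #{...}` (`gap_count`). With `g_pz`: `|g - cvv an an| ≤ 6 · 2^44 (C ε (SS n n/L²) + X^(1-δ)) + X^(3/4)` and `6 · 2^44 X^(1-δ) + X^(3/4) ≤ X^(1-δ/2)` for `X ≥ X0(δ)`.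
-/

set_option autoImplicit false

namespace Pool.MP_dd84fd_nt.HX

open Finset Pool.MP_67663b_nt.Odd Pool.MP_dd84fd_nt.En Pool.MP_dd84fd_nt.E2 Pool.MP_dd84fd_nt.LS
open Pool.MP_dd84fd_nt.L2G (nrm)
open Pool.MP_dd84fd_nt.GX

/-- the elementary inequality for one term -/
private theorem gpf_term (a b c d r s M : ℝ) (hM : 0 ≤ M) (hr : 0 ≤ r) (hs : 0 ≤ s)
    (ha : |a| ≤ M * r) (hc : |c| ≤ M * s) (hb : |b| ≤ M * r) (hd : |d| ≤ M * s) :
    |(a + b) * (c + d) - a * c| ≤ 3 * M ^ 2 * (r * s) := by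
  have e : (a + b) * (c + d) - a * c = a * d + b * c + b * d := by ring
  rw [e]
  have h1 : |a * d| ≤ M * r * (M * s) := by
    rw [abs_mul]
    exact mul_le_mul ha hd (abs_nonneg _) (by positivity)
  have h2 : |b * c| ≤ M * r * (M * s) := by
    rw [abs_mul]
    exact mul_le_mul hb hc (abs_nonneg _) (by positivity)
  have h3 : |b * d| ≤ M * r * (M * s) := by
    rw [abs_mul]
    exact mul_le_mul hb hd (abs_nonneg _) (by positivity)
  calc |a * d + b * c + b * d| ≤ |a * d + b * c| + |b * d| := abs_add_le _ _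
    _ ≤ |a * d| + |b * c| + |b * d| := by linarith [abs_add_le (a * d) (b * c)]
    _ ≤ 3 * (M * r * (M * s)) := by linarith
    _ = 3 * M ^ 2 * (r * s) := by ring

theorem gap_h : GapH := by
  classical
  obtain ⟨C, hC, hgc⟩ := gap_count
  obtain ⟨X1, hgp⟩ := g_pz
  obtain ⟨X2, hab⟩ := an_abs
  refine ⟨6 * (2 ^ 22) ^ 2 * C, fun δ hδ hδ' => ?_⟩
  obtain ⟨X3, hgc⟩ := hgc δ hδ hδ'
  set M2 : ℝ := 6 * (2 ^ 22) ^ 2 with hM2
  have hM2p : 0 < M2 := by positivity
  refine ⟨max (max X1 X2) (max X3 (max 3 ⌈(M2 + 1) ^ (2 / δ)⌉₊)), fun X hX n hXn hnX hn => ?_⟩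
  simp only [max_le_iff] at hX
  obtain ⟨⟨g1, g2⟩, g3, g4, g5⟩ := hX
  have hX3 : (3 : ℝ) ≤ X := by exact_mod_cast g4
  have hX0 : (0 : ℝ) < X := by linarith
  have hX1' : (1 : ℝ) ≤ X := by linarith
  have hn0 : 0 < n := by omega
  have h1 := hgp X g1 n hnX
  have h2 := hgc X g3 n hXn hnX hn
  set F1 : Finset ℕ := (Icc 1 (n - 1)).filter (fun m => Rgh (zz X) m ∧ Rgh (zz X) (n - m) ∧
      Dn δ X m ≠ 0) with hF1
  set F2 : Finset ℕ := (Icc 1 (n - 1)).filter (fun m => Rgh (zz X) m ∧ Rgh (zz X) (n - m) ∧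
      Dn δ X (n - m) ≠ 0) with hF2
  -- the two sets have the same size
  have h3 : F2.card ≤ F1.card := by
    refine card_le_card_of_injOn (fun m => n - m) ?_ ?_
    · intro m hm
      rw [hF2, Finset.mem_coe, mem_filter, mem_Icc] at hm
      obtain ⟨⟨a1, a2⟩, a3, a4, a5⟩ := hm
      rw [hF1, Finset.mem_coe, mem_filter, mem_Icc]
      have b1 : 1 ≤ n - m := by omega
      have b2 : n - m ≤ n - 1 := by omega
      refine ⟨⟨b1, b2⟩, a4, ?_, a5⟩
      have b3 : n - (n - m) = m := Nat.sub_sub_self (by omega)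
      change Rgh (zz X) (n - (n - m))
      rw [b3]
      exact a3
    · intro m hm m' hm' he
      rw [hF2, Finset.mem_coe, mem_filter, mem_Icc] at hm hm'
      simp only at he
      omega
  -- the values
  set D1 : ℕ → ℝ := fun m => Dn δ X m / Real.log m with hD1
  have hpz : ∀ m, pz X m = an δ X m + D1 m := by
    intro m
    rw [hD1]
    unfold pz an aL
    rw [← add_div]
    congr 1
    ring
  have hD1b : ∀ m ∈ Icc 1 X, |D1 m| ≤ 2 ^ 22 * rg (zz X) m := by
    intro m hm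
    have h4 := (hab X g2 δ hδ hδ' m hm).1
    rw [hD1]
    simp only
    rcases (Real.log_natCast_nonneg m).eq_or_lt with h5 | h5
    · rw [← h5, div_zero, abs_zero]
      exact mul_nonneg (by norm_num) (rg_nonneg _ _).1
    · rw [abs_div, abs_of_pos h5, div_le_iff₀ h5]
      linarith
  have hterm : ∀ m ∈ Icc 1 (n - 1), |pz X m * pz X (n - m) - an δ X m * an δ X (n - m)| ≤
      3 * (2 ^ 22) ^ 2 * ((if m ∈ F1 then 1 else 0) + (if m ∈ F2 then 1 else 0)) := by
    intro m hm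
    have hm' := mem_Icc.1 hm
    have i1 : m ∈ Icc 1 X := mem_Icc.2 ⟨hm'.1, by omega⟩
    have i2 : n - m ∈ Icc 1 X := mem_Icc.2 ⟨by omega, by omega⟩
    have a1 := (hab X g2 δ hδ hδ' m i1).2
    have a2 := (hab X g2 δ hδ hδ' (n - m) i2).2
    have a3 := hD1b m i1
    have a4 := hD1b (n - m) i2
    have hmain := gpf_term (an δ X m) (D1 m) (an δ X (n - m)) (D1 (n - m)) (rg (zz X) m)
      (rg (zz X) (n - m)) (2 ^ 22) (by norm_num) (rg_nonneg _ _).1 (rg_nonneg _ _).1 a1 a2 a3 a4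
    rw [← hpz, ← hpz] at hmain
    have hi1 : (0 : ℝ) ≤ if m ∈ F1 then 1 else 0 := by split_ifs <;> norm_num
    have hi2 : (0 : ℝ) ≤ if m ∈ F2 then 1 else 0 := by split_ifs <;> norm_num
    by_cases hR : Rgh (zz X) m ∧ Rgh (zz X) (n - m)
    · by_cases hd1 : Dn δ X m = 0
      · by_cases hd2 : Dn δ X (n - m) = 0
        · have e1 : D1 m = 0 := by
            rw [hD1]
            simp only
            rw [hd1, zero_div]
          have e2 : D1 (n - m) = 0 := by
            rw [hD1]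
            simp only
            rw [hd2, zero_div]
          rw [hpz, hpz, e1, e2, add_zero, add_zero, sub_self, abs_zero]
          positivity
        · have hmem : m ∈ F2 := by
            rw [hF2, mem_filter]
            exact ⟨hm, hR.1, hR.2, hd2⟩
          rw [if_pos hmem]
          refine hmain.trans ?_
          refine mul_le_mul_of_nonneg_left ?_ (by norm_num)
          have b1 := rg_nonneg (zz X) m
          have b2 := rg_nonneg (zz X) (n - m)
          have b3 : rg (zz X) m * rg (zz X) (n - m) ≤ 1 := by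
            calc rg (zz X) m * rg (zz X) (n - m) ≤ 1 * 1 :=
                  mul_le_mul b1.2 b2.2 b2.1 zero_le_one
              _ = 1 := one_mul 1
          linarith
      · have hmem : m ∈ F1 := by
          rw [hF1, mem_filter]
          exact ⟨hm, hR.1, hR.2, hd1⟩
        rw [if_pos hmem]
        refine hmain.trans ?_
        refine mul_le_mul_of_nonneg_left ?_ (by norm_num)
        have b1 := rg_nonneg (zz X) m
        have b2 := rg_nonneg (zz X) (n - m)
        have b3 : rg (zz X) m * rg (zz X) (n - m) ≤ 1 := by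
          calc rg (zz X) m * rg (zz X) (n - m) ≤ 1 * 1 :=
                mul_le_mul b1.2 b2.2 b2.1 zero_le_one
            _ = 1 := one_mul 1
        linarith
    · have e0 : rg (zz X) m * rg (zz X) (n - m) = 0 := by
        unfold rg
        by_cases c1 : Rgh (zz X) m
        · have c2 : ¬ Rgh (zz X) (n - m) := fun c => hR ⟨c1, c⟩
          rw [if_neg c2, mul_zero]
        · rw [if_neg c1, zero_mul]
      rw [e0, mul_zero] at hmain
      refine hmain.trans ?_
      positivity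
  have h4 : |cvv (pz X) (pz X) n - cvv (an δ X) (an δ X) n| ≤ M2 * F1.card := by
    unfold cvv
    rw [← Finset.sum_sub_distrib]
    refine (abs_sum_le_sum_abs _ _).trans ((Finset.sum_le_sum hterm).trans ?_)
    rw [← Finset.mul_sum, Finset.sum_add_distrib]
    have k1 : ∑ m ∈ Icc 1 (n - 1), (if m ∈ F1 then (1 : ℝ) else 0) = F1.card := by
      rw [← Finset.sum_filter, Finset.filter_mem_eq_inter,
        Finset.inter_eq_right.2 (filter_subset _ _), Finset.sum_const, nsmul_eq_mul, mul_one]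
    have k2 : ∑ m ∈ Icc 1 (n - 1), (if m ∈ F2 then (1 : ℝ) else 0) = F2.card := by
      rw [← Finset.sum_filter, Finset.filter_mem_eq_inter,
        Finset.inter_eq_right.2 (filter_subset _ _), Finset.sum_const, nsmul_eq_mul, mul_one]
    rw [k1, k2, hM2]
    have k3 : (F2.card : ℝ) ≤ F1.card := by exact_mod_cast h3
    nlinarith
  have h5 : |(g n : ℝ) - cvv (an δ X) (an δ X) n| ≤ (X : ℝ) ^ (3 / 4 : ℝ) + M2 * F1.card := by
    have e : (g n : ℝ) - cvv (an δ X) (an δ X) n = ((g n : ℝ) - cvv (pz X) (pz X) n) +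
        (cvv (pz X) (pz X) n - cvv (an δ X) (an δ X) n) := by ring
    rw [e]
    exact (abs_add_le _ _).trans (add_le_add h1 h4)
  refine h5.trans ?_
  have h6 : M2 * (F1.card : ℝ) ≤ M2 * (C * (δ + 1 / Real.log X) * (SS n * n / (Real.log X) ^ 2) +
      (X : ℝ) ^ (1 - δ)) := mul_le_mul_of_nonneg_left h2 hM2p.le
  have h7 : (X : ℝ) ^ (3 / 4 : ℝ) ≤ (X : ℝ) ^ (1 - δ) :=
    Real.rpow_le_rpow_of_exponent_le hX1' (by linarith)
  have h8 : M2 + 1 ≤ (X : ℝ) ^ (δ / 2) := by
    have k1 : (M2 + 1) ^ (2 / δ) ≤ (X : ℝ) := Nat.ceil_le.mp g5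
    have k2 := Real.rpow_le_rpow (by positivity) k1 (show 0 ≤ δ / 2 by positivity)
    rw [← Real.rpow_mul (by positivity)] at k2
    have k3 : 2 / δ * (δ / 2) = 1 := by field_simp
    rw [k3, Real.rpow_one] at k2
    exact k2
  have h9 : (M2 + 1) * (X : ℝ) ^ (1 - δ) ≤ (X : ℝ) ^ (1 - δ / 2) := by
    calc (M2 + 1) * (X : ℝ) ^ (1 - δ) ≤ (X : ℝ) ^ (δ / 2) * (X : ℝ) ^ (1 - δ) :=
          mul_le_mul_of_nonneg_right h8 (by positivity)
      _ = (X : ℝ) ^ (1 - δ / 2) := by
          rw [← Real.rpow_add hX0]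
          congr 1
          ring
  have e1 : M2 * C * (δ + 1 / Real.log X) * (SS n * n / (Real.log X) ^ 2) =
      M2 * (C * (δ + 1 / Real.log X) * (SS n * n / (Real.log X) ^ 2)) := by ring
  rw [e1]
  have e2 : M2 * (C * (δ + 1 / Real.log X) * (SS n * n / (Real.log X) ^ 2) +
      (X : ℝ) ^ (1 - δ)) = M2 * (C * (δ + 1 / Real.log X) * (SS n * n / (Real.log X) ^ 2)) +
      M2 * (X : ℝ) ^ (1 - δ) := by ring
  rw [e2] at h6
  linarith

end Pool.MP_dd84fd_nt.HX
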