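import Pool.Agent.Lib.MP_dd84fd_nt.HX.GrFrac
import Pool.Agent.Lib.MP_dd84fd_nt.E2.MinorP

/-!
# HX-GrCoin (0.7 h): the number of coincident fractions

Let `(q,a)` be coincident with `(q',a')`, `z`: `v = a q' - (a' + z q') q` is an integer with `|v| = q q' |a/q - a'/q' - z|`, so `1 ≤ |v|` (`fr_dist`: the distance is `≥ 1/lcm ≥ 1/(q q')`, or directly `≠ 0`) and
`|v| ≤ P0² X^(-1+δ) = X^(6δ)`. `coin_large`: `1 ≤ q q' X^(-1+δ) ≤ q P0 X^(-1+δ)`, so `q ≥ X^(1-δ)/P0 = X^(1/2-7δ/2) ≥ X^(1/2-4δ)`.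
`coin_count`: for fixed `q, q'` the number of `a` is at most `∑_{0 < |v| ≤ V} |v|`, `V = ⌊X^(6δ)⌋`, (`sol_count` with `b = a' + z q'`; `a < q` by `rr`): `≤ V (V+1) ≤ 2 X^(12δ)`.
Sum over `q, q' ∈ QS`: `≤ #QS² · 2 X^(12δ) ≤ 2 X^(26δ)`.
-/

set_option autoImplicit false

namespace Pool.MP_dd84fd_nt.HX

open Finset Pool.MP_67663b_nt.Odd Pool.MP_dd84fd_nt.En Pool.MP_dd84fd_nt.E2 Pool.MP_dd84fd_nt.LS
open Pool.MP_dd84fd_nt.L2G (nrm)
open Pool.MP_dd84fd_nt.GX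
open Pool.MP_dd84fd_nt.PL (rr Fam)

/-- the integer attached to a coincidence -/
theorem coin_int (δ : ℝ) (X : ℕ) (QS : Finset ℕ) (hQ : ∀ q ∈ QS, 1 ≤ q ∧ (q : ℝ) ≤ P0 δ X)
    {q a : ℕ} (hq : q ∈ QS) (ha : a ∈ crr δ X QS q) :
    ∃ q' ∈ QS, ∃ b : ℤ, (a : ℤ) * q' - b * q ≠ 0 ∧
      |(((a : ℤ) * q' - b * q : ℤ) : ℝ)| ≤ (q : ℝ) * q' * (X : ℝ) ^ (-1 + δ) := by
  classical
  unfold crr at ha
  rw [mem_filter] at ha
  obtain ⟨har, q', hq', hne, a', ha', z, hz⟩ := ha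
  have hq1 := (hQ q hq).1
  have hq1' := (hQ q' hq').1
  have hqR : (0 : ℝ) < q := by exact_mod_cast hq1
  have hqR' : (0 : ℝ) < q' := by exact_mod_cast hq1'
  have hd := fr_dist hq1 hq1' har ha' (fun h => hne h.1.symm) z
  have hlcm : (0 : ℝ) < (Nat.lcm q q' : ℝ) := by
    exact_mod_cast Nat.lcm_pos (by omega) (by omega)
  have hpos : 0 < |(a : ℝ) / q - (a' : ℝ) / q' - z| :=
    lt_of_lt_of_le (by positivity) hd
  have hid : ((((a : ℤ) * q' - ((a' : ℤ) + z * q') * q : ℤ)) : ℝ) =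
      (q : ℝ) * q' * ((a : ℝ) / q - (a' : ℝ) / q' - z) := by
    push_cast
    field_simp
    ring
  have habs : |((((a : ℤ) * q' - ((a' : ℤ) + z * q') * q : ℤ)) : ℝ)| =
      (q : ℝ) * q' * |(a : ℝ) / q - (a' : ℝ) / q' - z| := by
    rw [hid, abs_mul, abs_of_pos (mul_pos hqR hqR')]
  refine ⟨q', hq', (a' : ℤ) + z * q', ?_, ?_⟩
  · intro h0
    rw [h0, Int.cast_zero, abs_zero] at habs
    have : 0 < (q : ℝ) * q' * |(a : ℝ) / q - (a' : ℝ) / q' - z| := by positivity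
    linarith
  · rw [habs]
    exact mul_le_mul_of_nonneg_left hz (by positivity)

theorem coin_large (δ : ℝ) (hδ : 0 < δ) (hδ1 : δ ≤ 1 / 2000) (X : ℕ) (hX : 1 ≤ X) (QS : Finset ℕ)
    (hQ : ∀ q ∈ QS, 1 ≤ q ∧ (q : ℝ) ≤ P0 δ X) : ∀ q ∈ QS, ∀ a ∈ crr δ X QS q,
    (X : ℝ) ^ (1 / 2 - 4 * δ) ≤ q := by
  intro q hq a ha
  obtain ⟨q', hq', b, hne, hle⟩ := coin_int δ X QS hQ hq ha
  have hX1 : (1 : ℝ) ≤ X := by exact_mod_cast hX
  have hX0 : (0 : ℝ) < X := by linarith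
  have h1 : (1 : ℝ) ≤ |(((a : ℤ) * q' - b * q : ℤ) : ℝ)| := by
    have := Int.one_le_abs hne
    exact_mod_cast this
  have h2 : (q' : ℝ) ≤ (X : ℝ) ^ (1 / 2 + 5 / 2 * δ) := (hQ q' hq').2
  have hq0 : (0 : ℝ) ≤ q := Nat.cast_nonneg q
  have hXd : 0 < (X : ℝ) ^ (-1 + δ) := Real.rpow_pos_of_pos hX0 _
  have h3 : (1 : ℝ) ≤ q * (X : ℝ) ^ (-1 / 2 + 7 / 2 * δ) := by
    calc (1 : ℝ) ≤ (q : ℝ) * q' * (X : ℝ) ^ (-1 + δ) := h1.trans hle
      _ ≤ (q : ℝ) * (X : ℝ) ^ (1 / 2 + 5 / 2 * δ) * (X : ℝ) ^ (-1 + δ) := by gcongr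
      _ = q * (X : ℝ) ^ (-1 / 2 + 7 / 2 * δ) := by
        rw [mul_assoc, ← Real.rpow_add hX0]
        congr 2
        ring
  have h4 : (X : ℝ) ^ (1 / 2 - 7 / 2 * δ) ≤ q := by
    have h5 : (X : ℝ) ^ (1 / 2 - 7 / 2 * δ) * 1 ≤
        (X : ℝ) ^ (1 / 2 - 7 / 2 * δ) * (q * (X : ℝ) ^ (-1 / 2 + 7 / 2 * δ)) :=
      mul_le_mul_of_nonneg_left h3 (Real.rpow_nonneg hX0.le _)
    have h6 : (X : ℝ) ^ (1 / 2 - 7 / 2 * δ) * (q * (X : ℝ) ^ (-1 / 2 + 7 / 2 * δ)) = q := by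
      rw [mul_left_comm, ← Real.rpow_add hX0]
      have : (1 / 2 - 7 / 2 * δ + (-1 / 2 + 7 / 2 * δ) : ℝ) = 0 := by ring
      rw [this, Real.rpow_zero, mul_one]
    rw [h6, mul_one] at h5
    exact h5
  refine le_trans ?_ h4
  exact Real.rpow_le_rpow_of_exponent_le hX1 (by linarith)

theorem coin_count (δ : ℝ) (hδ : 0 < δ) (hδ1 : δ ≤ 1 / 2000) (X : ℕ) (hX : 1 ≤ X) (QS : Finset ℕ)
    (hQ : ∀ q ∈ QS, 1 ≤ q ∧ (q : ℝ) ≤ P0 δ X) (hc : (QS.card : ℝ) ≤ (X : ℝ) ^ (7 * δ)) :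
    ((∑ q ∈ QS, (crr δ X QS q).card : ℕ) : ℝ) ≤ 2 * (X : ℝ) ^ (26 * δ) := by
  classical
  have hX1 : (1 : ℝ) ≤ X := by exact_mod_cast hX
  have hX0 : (0 : ℝ) < X := by linarith
  set V : ℕ := ⌊(X : ℝ) ^ (6 * δ)⌋₊ with hV
  have hVle : (V : ℝ) ≤ (X : ℝ) ^ (6 * δ) := Nat.floor_le (Real.rpow_nonneg hX0.le _)
  have key : ∀ q ∈ QS, (crr δ X QS q).card ≤ QS.card * (2 * V * V) := by
    intro q hq
    have hsub : crr δ X QS q ⊆ QS.biUnion (fun q' =>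
        ((Icc (-(V : ℤ)) V).erase 0).biUnion (fun v =>
          (range q).filter (fun a : ℕ => ∃ b : ℤ, (a : ℤ) * q' - b * q = v))) := by
      intro a ha
      obtain ⟨q', hq', b, hne, hle⟩ := coin_int δ X QS hQ hq ha
      rw [mem_biUnion]
      refine ⟨q', hq', ?_⟩
      rw [mem_biUnion]
      refine ⟨(a : ℤ) * q' - b * q, ?_, ?_⟩
      · rw [mem_erase, mem_Icc]
        refine ⟨hne, ?_⟩
        rw [← abs_le]
        have h1 : ((((a : ℤ) * q' - b * q).natAbs : ℕ) : ℝ) ≤ (X : ℝ) ^ (6 * δ) := by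
          rw [Nat.cast_natAbs, Int.cast_abs]
          refine hle.trans ?_
          have h2 : (q : ℝ) ≤ (X : ℝ) ^ (1 / 2 + 5 / 2 * δ) := (hQ q hq).2
          have h3 : (q' : ℝ) ≤ (X : ℝ) ^ (1 / 2 + 5 / 2 * δ) := (hQ q' hq').2
          calc (q : ℝ) * q' * (X : ℝ) ^ (-1 + δ) ≤ (X : ℝ) ^ (1 / 2 + 5 / 2 * δ) *
                (X : ℝ) ^ (1 / 2 + 5 / 2 * δ) * (X : ℝ) ^ (-1 + δ) := by gcongr
            _ = (X : ℝ) ^ (6 * δ) := by
              rw [← Real.rpow_add hX0, ← Real.rpow_add hX0]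
              congr 1
              ring
        have h4 : ((a : ℤ) * q' - b * q).natAbs ≤ V := Nat.le_floor h1
        rw [Int.abs_eq_natAbs]
        exact_mod_cast h4
      · rw [mem_filter]
        refine ⟨?_, b, rfl⟩
        unfold crr at ha
        have h5 := (mem_filter.1 ha).1
        unfold rr at h5
        exact (mem_filter.1 h5).1
    refine (card_le_card hsub).trans ?_
    refine (card_biUnion_le).trans ?_
    have hin : ∀ q' ∈ QS, (((Icc (-(V : ℤ)) V).erase 0).biUnion (fun v =>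
          (range q).filter (fun a : ℕ => ∃ b : ℤ, (a : ℤ) * q' - b * q = v))).card ≤
          2 * V * V := by
      intro q' hq'
      refine (card_biUnion_le).trans ?_
      have h6 : ∀ v ∈ (Icc (-(V : ℤ)) V).erase 0,
          ((range q).filter (fun a : ℕ => ∃ b : ℤ, (a : ℤ) * q' - b * q = v)).card ≤ V := by
        intro v hv
        rw [mem_erase, mem_Icc] at hv
        refine (sol_count q q' (hQ q hq).1 (hQ q' hq').1 v hv.1).trans ?_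
        omega
      refine (sum_le_card_nsmul _ _ _ h6).trans ?_
      have h7 : ((Icc (-(V : ℤ)) V).erase 0).card = 2 * V := by
        rw [card_erase_of_mem (by rw [mem_Icc]; omega), Int.card_Icc]
        omega
      rw [h7, smul_eq_mul]
    refine (sum_le_card_nsmul _ _ _ hin).trans ?_
    rw [smul_eq_mul]
  have h8 : ∑ q ∈ QS, (crr δ X QS q).card ≤ QS.card * (QS.card * (2 * V * V)) := by
    refine (sum_le_card_nsmul _ _ _ key).trans ?_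
    rw [smul_eq_mul]
  have h9 : ((∑ q ∈ QS, (crr δ X QS q).card : ℕ) : ℝ) ≤
      (QS.card : ℝ) * ((QS.card : ℝ) * (2 * V * V)) := by
    exact_mod_cast h8
  refine h9.trans ?_
  calc (QS.card : ℝ) * ((QS.card : ℝ) * (2 * V * V)) ≤
        (X : ℝ) ^ (7 * δ) * ((X : ℝ) ^ (7 * δ) * (2 * (X : ℝ) ^ (6 * δ) * (X : ℝ) ^ (6 * δ))) := by
        gcongr
    _ = 2 * ((X : ℝ) ^ (7 * δ) * (X : ℝ) ^ (7 * δ) * (X : ℝ) ^ (6 * δ) * (X : ℝ) ^ (6 * δ)) := by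
        ring
    _ = 2 * (X : ℝ) ^ (26 * δ) := by
        rw [← Real.rpow_add hX0, ← Real.rpow_add hX0, ← Real.rpow_add hX0]
        congr 2
        ring

end Pool.MP_dd84fd_nt.HX
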