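import Pool.Agent.Lib.MP_dd84fd_nt.HX.GrDefs
import Pool.Agent.Lib.MP_dd84fd_nt.GX.Den
import Pool.Agent.Lib.MP_dd84fd_nt.E2.MinorP
import Pool.Agent.Lib.MP_dd84fd_nt.L2G.ModelAux

/-!
# HX-GrHeight (0.4 h): the height on the arcs around fractions with large denominators

`α = a/q + x`, `h1 = X^(1/2-4δ)/4`. Suppose `ht X α < h1`, `D = qd X α` (`ht_spec`: `1 ≤ D ≤ ht < h1`, `X nrm (D α) ≤ ht < h1`), so `D < q` and `q ∤ D a` (`(a,q) = 1`, `0 < D < q`): `nrm (D a/q) ≥ 1/q ≥ X^(-1/2-5δ/2)`.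
But `nrm (D a/q) ≤ nrm (D α) + D |x| ≤ h1/X + h1 · 2 L^K2/X = (1 + 2 L^K2) X^(-1/2-4δ)/4 < X^(-1/2-5δ/2)` for large `X` (`MP_log_pow` with `3δ/2`). (`q = 1`: impossible since `q ≥ X^(1/2-4δ) > 1`.)
(`nrm` subadditive: search `nrm_add`, `nrm_le` in L2G / GX.)
-/

set_option autoImplicit false

namespace Pool.MP_dd84fd_nt.HX

open Finset Pool.MP_67663b_nt.Odd Pool.MP_dd84fd_nt.En Pool.MP_dd84fd_nt.E2 Pool.MP_dd84fd_nt.LS
open Pool.MP_dd84fd_nt.L2G (nrm)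
open Pool.MP_dd84fd_nt.GX
open Pool.MP_dd84fd_nt.PL (rr Fam)

theorem ht_arc (δ : ℝ) (hδ : 0 < δ) (hδ1 : δ ≤ 1 / 2000) (K2 : ℕ) : ∃ X0 : ℕ, ∀ X : ℕ, X0 ≤ X →
    ∀ (q a : ℕ) (x : ℝ), a ∈ rr q → (X : ℝ) ^ (1 / 2 - 4 * δ) ≤ q → (q : ℝ) ≤ P0 δ X →
    |x| ≤ 2 * (Real.log X) ^ K2 / X →
    (X : ℝ) ^ (1 / 2 - 4 * δ) / 4 ≤ ht X ((a : ℝ) / q + x) := by
  obtain ⟨X1, hX1⟩ := MP_log_pow 1 K2 (ε := 3 / 2 * δ) (by positivity)
  obtain ⟨X2, hX2⟩ := MP_log_large 1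
  refine ⟨X1 + X2 + 1, fun X hX q a x ha hq1 hq2 hx => ?_⟩
  have hLp := hX1 X (by omega)
  have hL1 := hX2 X (by omega)
  rw [one_mul] at hLp
  set L := Real.log X with hLdef
  have hx0 : (0 : ℝ) < X := by exact_mod_cast (by omega : 0 < X)
  have hLK : 1 ≤ L ^ K2 := one_le_pow₀ hL1
  set α : ℝ := (a : ℝ) / q + x with hα
  set h1 : ℝ := (X : ℝ) ^ (1 / 2 - 4 * δ) / 4 with hh1
  have hh0 : 0 < h1 := by positivity
  by_contra hcon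
  push Not at hcon
  obtain ⟨-, -, g3, g4⟩ := ht_spec X (by omega) α
  obtain ⟨q1, -, -, -⟩ := qd_spec X (by omega) α
  set D : ℕ := qd X α with hD
  have hDh : (D : ℝ) < h1 := lt_of_le_of_lt g3 hcon
  have hnh : (X : ℝ) * nrm ((D : ℝ) * α) < h1 := lt_of_le_of_lt g4 hcon
  have hq4 : 4 * h1 ≤ q := by rw [hh1]; linarith
  have hq0 : (0 : ℝ) < q := by linarith
  have hqn : 1 ≤ q := by exact_mod_cast hq0
  have hDq : D < q := by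
    have : (D : ℝ) < q := by linarith
    exact_mod_cast this
  have hcop : Nat.Coprime a q := (mem_filter.mp ha).2
  have hnd : ¬ (q : ℤ) ∣ ((D * a : ℕ) : ℤ) := by
    intro h
    have h' : q ∣ D * a := by exact_mod_cast h
    have h'' : q ∣ D := (Nat.Coprime.dvd_of_dvd_mul_right hcop.symm h')
    have := Nat.le_of_dvd (by omega) h''
    omega
  have hf := L2G.ma_nrm_frac ((D * a : ℕ) : ℤ) q hqn hnd
  have hadd := L2G.ma_nrm_add ((((D * a : ℕ) : ℤ) : ℝ) / q) ((D : ℝ) * x)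
  have e1 : (((D * a : ℕ) : ℤ) : ℝ) / q + (D : ℝ) * x = (D : ℝ) * α := by
    rw [hα]
    push_cast
    ring
  rw [e1] at hadd
  have h2 : 1 / (q : ℝ) ≤ nrm ((D : ℝ) * α) + (D : ℝ) * |x| := by
    rw [abs_mul, abs_of_nonneg (Nat.cast_nonneg D)] at hadd
    linarith
  have h3 : (X : ℝ) * (1 / (q : ℝ)) ≤ h1 + h1 * (2 * L ^ K2) := by
    calc (X : ℝ) * (1 / (q : ℝ)) ≤ X * (nrm ((D : ℝ) * α) + (D : ℝ) * |x|) :=
          mul_le_mul_of_nonneg_left h2 hx0.le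
      _ = X * nrm ((D : ℝ) * α) + (D : ℝ) * (X * |x|) := by ring
      _ ≤ h1 + h1 * (2 * L ^ K2) := by
          refine add_le_add hnh.le ?_
          refine mul_le_mul hDh.le ?_ (by positivity) hh0.le
          calc (X : ℝ) * |x| ≤ X * (2 * L ^ K2 / X) := mul_le_mul_of_nonneg_left hx hx0.le
            _ = 2 * L ^ K2 := by field_simp
  have h4 : (X : ℝ) ≤ q * (h1 * (3 * L ^ K2)) := by
    have h5 : h1 + h1 * (2 * L ^ K2) ≤ h1 * (3 * L ^ K2) := by nlinarith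
    have h6 := h3.trans h5
    rw [mul_one_div, div_le_iff₀ hq0] at h6
    linarith
  have h7 : (q : ℝ) * (h1 * (3 * L ^ K2)) ≤ P0 δ X * (h1 * (3 * (X : ℝ) ^ (3 / 2 * δ))) := by
    refine mul_le_mul hq2 ?_ (by positivity) (by unfold P0; positivity)
    exact mul_le_mul_of_nonneg_left (by linarith) hh0.le
  have h8 : P0 δ X * (h1 * (3 * (X : ℝ) ^ (3 / 2 * δ))) = 3 / 4 * X := by
    have e2 : P0 δ X * (h1 * (3 * (X : ℝ) ^ (3 / 2 * δ))) = 3 / 4 *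
        ((X : ℝ) ^ (1 / 2 + 5 / 2 * δ) * (X : ℝ) ^ (1 / 2 - 4 * δ) * (X : ℝ) ^ (3 / 2 * δ)) := by
      rw [hh1]
      unfold P0
      ring
    rw [e2, ← Real.rpow_add hx0, ← Real.rpow_add hx0]
    have e3 : 1 / 2 + 5 / 2 * δ + (1 / 2 - 4 * δ) + 3 / 2 * δ = 1 := by ring
    rw [e3, Real.rpow_one]
  linarith

end Pool.MP_dd84fd_nt.HX
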