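import Pool.Agent.Lib.MP_dd84fd_nt.HX.GrStr
import Pool.Agent.Lib.MP_dd84fd_nt.HX.GrCoin
import Pool.Agent.Lib.MP_dd84fd_nt.HX.GrHeight
import Pool.Agent.Lib.MP_dd84fd_nt.HX.GrNrm

/-!
# HX-GrCo (0.7 h): the mass of the coincident fractions

`r = 2 L^K2`, `w = wX D' X`. `str_h` with `A' = 2A + 10`: `W_- (θ) = V(θ) + E(θ)` (`WH (-1)`: `an + (-1) fa`; `V`, `E` = exponential sums with coefficients `an - fa - E n`, `E n`). On the arcs of a coincident `(q,a)`: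
`coin_large`, `ht_arc`: `‖V‖ ≤ X^(17/20)`. So `arcI ≤ ∫ X^(17/20) ‖W_+‖ + ∫ ‖E‖ ‖W_+‖`. First part: `‖W_+‖ ≤ X L²` (`WH_triv`), length `2r/X`: `≤ X^(17/20) · X L² · 4 L^K2/X`, at most `2 X^(26δ)` pairs (`coin_count` with
`QQ ⊆ QS`): total `≤ 8 X^(17/20+26δ) L^(K2+2) ≤ X/(2L^A)` (`26/2000 < 1/20`). Second part: `‖E‖‖W_+‖ ≤ (T ‖E‖² + ‖W_+‖²/T)/2`, `T = L^(A+6)`; sum over ALL `a ∈ rr q`, `q ∈ QQ` (`crr ⊆ rr`, nonnegative), `PL.overlap`
(`Fam QQ N`, `F = ‖E‖²` resp. `‖W_+‖²`, continuous, 1-periodic; `(2r/X) N + 1 ≤ 2` as `N ≤ P0`): `≤ T ∑E² + (1/T) ∑(an + fa)² ≤ L^(A+6) X/L^(2A+10) + X L^4/L^(A+6) ≤ X/(2L^A)` (`exp_l2`, `coef_le`). (`QQ = ∅`: trivial; otherwise `N ≥ 1`.)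
-/

set_option autoImplicit false

namespace Pool.MP_dd84fd_nt.HX

open Finset Pool.MP_67663b_nt.Odd Pool.MP_dd84fd_nt.En Pool.MP_dd84fd_nt.E2 Pool.MP_dd84fd_nt.LS
open Pool.MP_dd84fd_nt.L2G (nrm)
open Pool.MP_dd84fd_nt.GX
open Pool.MP_dd84fd_nt.PL (rr Fam)

private theorem gc_ee_cont : Continuous ee := by
  unfold ee
  fun_prop

private theorem gc_ee_per (n : ℕ) (x : ℝ) : ee ((n : ℝ) * (x + 1)) = ee ((n : ℝ) * x) := by
  unfold ee
  have h : (2 * (Real.pi : ℂ) * (((n : ℝ) * (x + 1) : ℝ) : ℂ) * Complex.I) =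
      2 * (Real.pi : ℂ) * (((n : ℝ) * x : ℝ) : ℂ) * Complex.I +
        ((n : ℤ) : ℂ) * (2 * Real.pi * Complex.I) := by
    push_cast
    ring
  rw [h, Complex.exp_add, Complex.exp_int_mul_two_pi_mul_I, mul_one]

/-- exponential sum with real coefficients -/
private noncomputable def gcS (X : ℕ) (c : ℕ → ℝ) (θ : ℝ) : ℂ :=
  ∑ n ∈ Icc 1 X, (c n : ℂ) * ee ((n : ℝ) * θ)

private theorem gcS_cont (X : ℕ) (c : ℕ → ℝ) : Continuous (gcS X c) := by
  unfold gcS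
  refine continuous_finsetSum _ fun k _ => ?_
  exact continuous_const.mul (gc_ee_cont.comp (continuous_const.mul continuous_id))

private theorem gcS_per (X : ℕ) (c : ℕ → ℝ) (x : ℝ) : gcS X c (x + 1) = gcS X c x := by
  unfold gcS
  exact sum_congr rfl fun k _ => by rw [gc_ee_per]

/-- a majorant of the product on one arc -/
private theorem gc_arc {X : ℕ} {δ r C1 T : ℝ} {w : ℕ} {c : ℝ} {V E : ℝ → ℂ}
    (hX : 1 ≤ X) (hr : 0 ≤ r) (hT : 0 < T) (hE : Continuous E)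
    (hVE : ∀ θ, WH (-1) δ w X θ = V θ + E θ) {v M : ℝ} (hv : 0 ≤ v)
    (hV : ∀ x : ℝ, |x| ≤ r / X → ‖V (c + x)‖ ≤ v) (hM : ∀ θ, ‖WH 1 δ w X θ‖ ≤ M)
    (hC1 : C1 = v * M) :
    arcI δ w X r c ≤ C1 * (2 * r / X) + ∫ x in (-r / X)..(r / X),
      (T * ‖E (c + x)‖ ^ 2 + ‖WH 1 δ w X (c + x)‖ ^ 2 / T) / 2 := by
  have hX0 : (0 : ℝ) < X := by exact_mod_cast hX
  have hrX : 0 ≤ r / X := by positivity
  have hle : -r / X ≤ r / X := by
    rw [neg_div]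
    linarith
  have hadd : Continuous (fun x : ℝ => c + x) := continuous_const.add continuous_id
  have hW1 : Continuous (fun x : ℝ => WH (-1) δ w X (c + x)) := (WH_cont _ _ _ _).comp hadd
  have hW2 : Continuous (fun x : ℝ => WH 1 δ w X (c + x)) := (WH_cont _ _ _ _).comp hadd
  have hE2 : Continuous (fun x : ℝ => E (c + x)) := hE.comp hadd
  have hF : Continuous (fun x : ℝ => (T * ‖E (c + x)‖ ^ 2 + ‖WH 1 δ w X (c + x)‖ ^ 2 / T) / 2) :=
    (((continuous_const.mul (hE2.norm.pow 2)).add ((hW2.norm.pow 2).div_const T)).div_const 2)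
  have hcst : ∫ x in (-r / X)..(r / X), C1 = C1 * (2 * r / X) := by
    rw [intervalIntegral.integral_const, smul_eq_mul]
    ring
  unfold arcI
  rw [← hcst, ← intervalIntegral.integral_add (continuous_const.intervalIntegrable _ _)
    (hF.intervalIntegrable _ _)]
  refine intervalIntegral.integral_mono_on hle ((hW1.norm.mul hW2.norm).intervalIntegrable _ _)
    ((continuous_const.add hF).intervalIntegrable _ _) ?_
  intro x hx
  have hx' : |x| ≤ r / X := by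
    rw [abs_le]
    constructor
    · have := hx.1
      rw [neg_div] at this
      exact this
    · exact hx.2
  have h1 : ‖WH (-1) δ w X (c + x)‖ ≤ v + ‖E (c + x)‖ := by
    rw [hVE]
    exact (norm_add_le _ _).trans (add_le_add (hV x hx') le_rfl)
  have h2 := hM (c + x)
  have h3 : 0 ≤ ‖WH 1 δ w X (c + x)‖ := norm_nonneg _
  have h4 : 0 ≤ ‖E (c + x)‖ := norm_nonneg _
  have h5 : ‖E (c + x)‖ * ‖WH 1 δ w X (c + x)‖ ≤
      (T * ‖E (c + x)‖ ^ 2 + ‖WH 1 δ w X (c + x)‖ ^ 2 / T) / 2 := by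
    have h6 : 0 ≤ (T * ‖E (c + x)‖ - ‖WH 1 δ w X (c + x)‖) ^ 2 / T := by positivity
    have h7 : (T * ‖E (c + x)‖ - ‖WH 1 δ w X (c + x)‖) ^ 2 / T =
        T * ‖E (c + x)‖ ^ 2 - 2 * (‖E (c + x)‖ * ‖WH 1 δ w X (c + x)‖) +
          ‖WH 1 δ w X (c + x)‖ ^ 2 / T := by
      field_simp
      ring
    rw [h7] at h6
    linarith
  calc ‖WH (-1) δ w X (c + x)‖ * ‖WH 1 δ w X (c + x)‖
      ≤ (v + ‖E (c + x)‖) * ‖WH 1 δ w X (c + x)‖ := mul_le_mul_of_nonneg_right h1 h3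
    _ = v * ‖WH 1 δ w X (c + x)‖ + ‖E (c + x)‖ * ‖WH 1 δ w X (c + x)‖ := by ring
    _ ≤ C1 + (T * ‖E (c + x)‖ ^ 2 + ‖WH 1 δ w X (c + x)‖ ^ 2 / T) / 2 := by
        refine add_le_add ?_ h5
        rw [hC1]
        exact mul_le_mul_of_nonneg_left h2 hv

theorem coin_mass (h1 : AnAbs) (h2 : WDabs) (h3 : Dec2) (A K2 D' : ℕ) (hD : 1 ≤ D') (δ : ℝ)
    (hδ : 0 < δ) (hδ1 : δ ≤ 1 / 2000) : ∃ X0 : ℕ, ∀ X : ℕ, X0 ≤ X → ∀ (QS QQ : Finset ℕ) (N : ℝ),
    (QS.card : ℝ) ≤ (X : ℝ) ^ (7 * δ) → (∀ q ∈ QS, 1 ≤ q ∧ (q : ℝ) ≤ P0 δ X) → QQ ⊆ QS →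
    (∀ q ∈ QQ, ∀ q' ∈ QQ, (Nat.lcm q q' : ℝ) ≤ N) → N ≤ P0 δ X →
    ∑ q ∈ QQ, ∑ a ∈ crr δ X QS q, arcI δ (wX D' X) X (2 * (Real.log X) ^ K2) ((a : ℝ) / q) ≤
      X / (Real.log X) ^ A := by
  classical
  obtain ⟨X1, hX1⟩ := str_h h3 h2 (2 * A + 10) D' hD δ hδ hδ1
  obtain ⟨X2, hX2⟩ := ht_arc δ hδ hδ1 K2
  obtain ⟨X3, hX3⟩ := coef_le h1 h2 D'
  obtain ⟨X4, hX4⟩ := WH_triv h1 h2 D'
  obtain ⟨X5, hX5⟩ := MP_log_pow 16 (K2 + 2 + A) (ε := 1 / 10) (by norm_num)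
  obtain ⟨X6, hX6⟩ := MP_log_pow 4 K2 (ε := 1 / 4) (by norm_num)
  obtain ⟨X7, hX7⟩ := MP_log_large 2
  refine ⟨max (max (max X1 X2) (max X3 X4)) (max (max X5 X6) (max X7 1)), ?_⟩
  intro X hX QS QQ N hQSc hQS hQQ hN hNP
  have hXX1 : X1 ≤ X := by
    exact le_trans (le_trans (le_max_left _ _) (le_trans (le_max_left _ _) (le_max_left _ _))) hX
  have hXX2 : X2 ≤ X := by
    exact le_trans (le_trans (le_max_right _ _) (le_trans (le_max_left _ _) (le_max_left _ _))) hX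
  have hXX3 : X3 ≤ X := by
    exact le_trans (le_trans (le_max_left _ _) (le_trans (le_max_right _ _) (le_max_left _ _))) hX
  have hXX4 : X4 ≤ X := by
    exact le_trans (le_trans (le_max_right _ _) (le_trans (le_max_right _ _) (le_max_left _ _))) hX
  have hXX5 : X5 ≤ X := by
    exact le_trans (le_trans (le_max_left _ _) (le_trans (le_max_left _ _) (le_max_right _ _))) hX
  have hXX6 : X6 ≤ X := by
    exact le_trans (le_trans (le_max_right _ _) (le_trans (le_max_left _ _) (le_max_right _ _))) hX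
  have hXX7 : X7 ≤ X := by
    exact le_trans (le_trans (le_max_left _ _) (le_trans (le_max_right _ _) (le_max_right _ _))) hX
  have hXn : 1 ≤ X := by
    exact le_trans (le_trans (le_max_right _ _) (le_trans (le_max_right _ _) (le_max_right _ _))) hX
  have hX1r : (1 : ℝ) ≤ X := by exact_mod_cast hXn
  have hX0 : (0 : ℝ) < X := by linarith
  have hL := hX7 X hXX7
  have hp5 := hX5 X hXX5
  have hp6 := hX6 X hXX6
  obtain ⟨E, hE1, hE2⟩ := hX1 X hXX1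
  have hht := hX2 X hXX2
  have hcoef := hX3 X hXX3 δ hδ hδ1 1 (by rw [abs_one])
  have htriv := hX4 X hXX4 δ hδ hδ1 1 (by rw [abs_one])
  obtain ⟨L, hLd⟩ : ∃ L : ℝ, L = Real.log X := ⟨_, rfl⟩
  rw [← hLd] at hL hp5 hp6 hE1 hht hcoef htriv ⊢
  have hL0 : 0 < L := by linarith
  obtain ⟨w, hw⟩ : ∃ w : ℕ, w = wX D' X := ⟨_, rfl⟩
  rw [← hw] at hE2 hcoef htriv ⊢
  obtain ⟨T, hT⟩ : ∃ T : ℝ, T = L ^ (A + 6) := ⟨_, rfl⟩
  have hT0 : 0 < T := by rw [hT]; positivity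
  rcases Finset.eq_empty_or_nonempty QQ with hemp | ⟨q0, hq0⟩
  · rw [hemp, Finset.sum_empty]
    positivity
  have hN1 : 1 ≤ N := by
    have g1 := hN q0 hq0 q0 hq0
    rw [Nat.lcm_self] at g1
    have g2 : (1 : ℝ) ≤ q0 := by exact_mod_cast (hQS q0 (hQQ hq0)).1
    linarith
  have hFam : Fam QQ N := ⟨fun q hq => (hQS q (hQQ hq)).1, hN⟩
  -- the two parts of `W_-`
  have hVE : ∀ θ, WH (-1) δ w X θ = gcS X (fun n => an δ X n - fa δ X w n - E n) θ + gcS X E θ := by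
    intro θ
    unfold WH gcS
    rw [← Finset.sum_add_distrib]
    refine Finset.sum_congr rfl fun n _ => ?_
    push_cast
    ring
  obtain ⟨C1, hC1⟩ : ∃ C1 : ℝ, C1 = (X : ℝ) ^ (17 / 20 : ℝ) * (X * L ^ 2) := ⟨_, rfl⟩
  have hC10 : 0 ≤ C1 := by rw [hC1]; positivity
  set r : ℝ := 2 * L ^ K2 with hr
  have hr0 : 0 ≤ r := by rw [hr]; positivity
  have hrX : 0 ≤ r / X := by positivity
  set F : ℝ → ℝ := fun θ => (T * ‖gcS X E θ‖ ^ 2 + ‖WH 1 δ w X θ‖ ^ 2 / T) / 2 with hF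
  have hF0 : ∀ θ, 0 ≤ F θ := fun θ => by rw [hF]; positivity
  have hFc : Continuous F :=
    (((continuous_const.mul ((gcS_cont X E).norm.pow 2)).add
      (((WH_cont 1 δ w X).norm.pow 2).div_const T)).div_const 2)
  have hFp : ∀ θ, F (θ + 1) = F θ := fun θ => by
    rw [hF]
    dsimp only
    rw [gcS_per, WH_per]
  have harc : ∀ q ∈ QQ, ∀ a ∈ crr δ X QS q, arcI δ w X r ((a : ℝ) / q) ≤
      C1 * (2 * r / X) + ∫ x in (-r / X)..(r / X), F ((a : ℝ) / q + x) := by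
    intro q hq a ha
    have hqS := hQQ hq
    have har : a ∈ rr q := by
      unfold crr at ha
      exact (Finset.mem_filter.1 ha).1
    refine gc_arc hXn hr0 hT0 (gcS_cont X E) hVE (v := (X : ℝ) ^ (17 / 20 : ℝ)) (M := X * L ^ 2)
      (by positivity) ?_ htriv hC1
    intro x hx
    refine hE2 _ (hht q a x har (coin_large δ hδ hδ1 X hXn QS hQS q hqS a ha) (hQS q hqS).2 ?_)
    exact hx
  -- the number of pairs
  have hcnt : ∑ q ∈ QQ, ((crr δ X QS q).card : ℝ) ≤ 2 * (X : ℝ) ^ (26 * δ) := by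
    have g1 := coin_count δ hδ hδ1 X hXn QS hQS hQSc
    refine le_trans ?_ g1
    push_cast
    exact Finset.sum_le_sum_of_subset_of_nonneg hQQ fun _ _ _ => Nat.cast_nonneg _
  -- the sum of the integrals
  have hov := PL.overlap QQ N hFam hN1 F hFc hF0 hFp (-r / X) (r / X) (by rw [neg_div]; linarith)
  have hFint : ∫ x in (0 : ℝ)..1, F x = (T * ∑ n ∈ Icc 1 X, E n ^ 2 +
      (∑ n ∈ Icc 1 X, (an δ X n + 1 * fa δ X w n) ^ 2) / T) / 2 := by
    have g1 := exp_l2 X E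
    have g2 := exp_l2 X (fun n => an δ X n + 1 * fa δ X w n)
    rw [← g1, ← g2, hF]
    have e1 : Continuous (fun x : ℝ => T * ‖gcS X E x‖ ^ 2) :=
      continuous_const.mul ((gcS_cont X E).norm.pow 2)
    have e2 : Continuous (fun x : ℝ => ‖WH 1 δ w X x‖ ^ 2 / T) :=
      ((WH_cont 1 δ w X).norm.pow 2).div_const T
    rw [intervalIntegral.integral_div, intervalIntegral.integral_add (e1.intervalIntegrable _ _)
      (e2.intervalIntegrable _ _), intervalIntegral.integral_const_mul,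
      intervalIntegral.integral_div]
    rfl
  have hsum2 : ∑ n ∈ Icc 1 X, (an δ X n + 1 * fa δ X w n) ^ 2 ≤ X * L ^ 4 := by
    have g1 : ∀ n ∈ Icc 1 X, (an δ X n + 1 * fa δ X w n) ^ 2 ≤ L ^ 4 := by
      intro n hn
      have g2 := hcoef n hn
      calc (an δ X n + 1 * fa δ X w n) ^ 2 = |an δ X n + 1 * fa δ X w n| ^ 2 := (sq_abs _).symm
        _ ≤ (L ^ 2) ^ 2 := pow_le_pow_left₀ (abs_nonneg _) g2 2
        _ = L ^ 4 := by ring
    refine (Finset.sum_le_card_nsmul _ _ _ g1).trans ?_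
    rw [Nat.card_Icc, nsmul_eq_mul, Nat.add_sub_cancel]
  have hlen : (r / X - -r / X) * N + 1 ≤ 2 := by
    have g1 : (r / X - -r / X) = 4 * L ^ K2 / X := by rw [hr]; ring
    have g2 : (r / X - -r / X) * N ≤ 1 := by
      rw [g1]
      have g3 : 4 * L ^ K2 / X * N ≤ (X : ℝ) ^ (1 / 4 : ℝ) / X * (X : ℝ) ^ (1 / 2 + 5 / 2 * δ) := by
        refine mul_le_mul (div_le_div_of_nonneg_right hp6 hX0.le) hNP (by linarith) (by positivity)
      refine g3.trans ?_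
      rw [div_mul_eq_mul_div, div_le_one hX0, ← Real.rpow_add hX0]
      calc (X : ℝ) ^ (1 / 4 + (1 / 2 + 5 / 2 * δ)) ≤ (X : ℝ) ^ (1 : ℝ) :=
            Real.rpow_le_rpow_of_exponent_le hX1r (by linarith)
        _ = X := Real.rpow_one _
    linarith
  have hI0 : 0 ≤ ∫ x in (0 : ℝ)..1, F x :=
    intervalIntegral.integral_nonneg zero_le_one fun x _ => hF0 x
  have hpart2 : ∑ q ∈ QQ, ∑ a ∈ rr q, ∫ x in (-r / X)..(r / X), F ((a : ℝ) / q + x) ≤
      X / L ^ A / 2 := by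
    refine hov.trans ((mul_le_mul_of_nonneg_right hlen hI0).trans ?_)
    rw [hFint]
    have g1 : T * ∑ n ∈ Icc 1 X, E n ^ 2 ≤ T * (X / L ^ (2 * A + 10)) :=
      mul_le_mul_of_nonneg_left hE1 hT0.le
    have g2 : (∑ n ∈ Icc 1 X, (an δ X n + 1 * fa δ X w n) ^ 2) / T ≤ X * L ^ 4 / T :=
      div_le_div_of_nonneg_right hsum2 hT0.le
    have g3 : T * (X / L ^ (2 * A + 10)) = X / L ^ A / L ^ 4 := by
      rw [hT, show 2 * A + 10 = (A + 6) + A + 4 by ring, pow_add, pow_add, pow_add]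
      field_simp
      ring
    have g4 : X * L ^ 4 / T = X / L ^ A / L ^ 2 := by
      rw [hT, show A + 6 = A + 2 + 4 by ring, pow_add, pow_add]
      field_simp
    have g5 : (0 : ℝ) ≤ X / L ^ A := by positivity
    have g6 : X / L ^ A / L ^ 4 ≤ X / L ^ A / 4 := by
      refine div_le_div_of_nonneg_left g5 (by norm_num) ?_
      have : (2 : ℝ) ^ 4 ≤ L ^ 4 := pow_le_pow_left₀ (by norm_num) hL 4
      linarith
    have g7 : X / L ^ A / L ^ 2 ≤ X / L ^ A / 4 := by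
      refine div_le_div_of_nonneg_left g5 (by norm_num) ?_
      have : (2 : ℝ) ^ 2 ≤ L ^ 2 := pow_le_pow_left₀ (by norm_num) hL 2
      linarith
    rw [g3] at g1
    rw [g4] at g2
    linarith
  have hpart1 : (2 * (X : ℝ) ^ (26 * δ)) * (C1 * (2 * r / X)) ≤ X / L ^ A / 2 := by
    have g1 : (2 * (X : ℝ) ^ (26 * δ)) * (C1 * (2 * r / X)) =
        8 * L ^ (K2 + 2) * ((X : ℝ) ^ (26 * δ) * (X : ℝ) ^ (17 / 20 : ℝ)) := by
      rw [hC1, hr, pow_add]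
      field_simp
      ring
    rw [g1, div_div, le_div_iff₀ (by positivity)]
    calc 8 * L ^ (K2 + 2) * ((X : ℝ) ^ (26 * δ) * (X : ℝ) ^ (17 / 20 : ℝ)) * (L ^ A * 2)
        = (16 * L ^ (K2 + 2 + A)) * ((X : ℝ) ^ (26 * δ) * (X : ℝ) ^ (17 / 20 : ℝ)) := by
          rw [pow_add L (K2 + 2) A]
          ring
      _ ≤ (X : ℝ) ^ (1 / 10 : ℝ) * ((X : ℝ) ^ (26 * δ) * (X : ℝ) ^ (17 / 20 : ℝ)) :=
          mul_le_mul_of_nonneg_right hp5 (by positivity)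
      _ = (X : ℝ) ^ (1 / 10 + (26 * δ + 17 / 20)) := by
          rw [← Real.rpow_add hX0, ← Real.rpow_add hX0]
      _ ≤ (X : ℝ) ^ (1 : ℝ) := Real.rpow_le_rpow_of_exponent_le hX1r (by linarith)
      _ = X := Real.rpow_one _
  calc ∑ q ∈ QQ, ∑ a ∈ crr δ X QS q, arcI δ w X r ((a : ℝ) / q)
      ≤ ∑ q ∈ QQ, ∑ a ∈ crr δ X QS q, (C1 * (2 * r / X) +
          ∫ x in (-r / X)..(r / X), F ((a : ℝ) / q + x)) :=
        Finset.sum_le_sum fun q hq => Finset.sum_le_sum fun a ha => harc q hq a ha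
    _ = (∑ q ∈ QQ, ((crr δ X QS q).card : ℝ)) * (C1 * (2 * r / X)) +
          ∑ q ∈ QQ, ∑ a ∈ crr δ X QS q, ∫ x in (-r / X)..(r / X), F ((a : ℝ) / q + x) := by
        rw [Finset.sum_mul, ← Finset.sum_add_distrib]
        refine Finset.sum_congr rfl fun q _ => ?_
        rw [Finset.sum_add_distrib, Finset.sum_const, nsmul_eq_mul]
    _ ≤ (2 * (X : ℝ) ^ (26 * δ)) * (C1 * (2 * r / X)) +
          ∑ q ∈ QQ, ∑ a ∈ rr q, ∫ x in (-r / X)..(r / X), F ((a : ℝ) / q + x) := by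
        refine add_le_add (mul_le_mul_of_nonneg_right hcnt (by positivity)) ?_
        refine Finset.sum_le_sum fun q _ => ?_
        refine Finset.sum_le_sum_of_subset_of_nonneg ?_ fun a _ _ => ?_
        · unfold crr
          exact Finset.filter_subset _ _
        · exact intervalIntegral.integral_nonneg (by rw [neg_div]; linarith) fun x _ => hF0 _
    _ ≤ X / L ^ A / 2 + X / L ^ A / 2 := add_le_add hpart1 hpart2
    _ = X / L ^ A := by ring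

end Pool.MP_dd84fd_nt.HX
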