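import Pool.Agent.Lib.MP_dd84fd_nt.HX.GrMass
import Pool.Agent.Lib.MP_dd84fd_nt.HX.GrCo
import Pool.Agent.Lib.MP_dd84fd_nt.HX.GrSmall
import Pool.Agent.Lib.MP_dd84fd_nt.HX.GrLight
import Pool.Agent.Lib.MP_dd84fd_nt.HX.GrCover

/-!
# HX-GrFin (1 h): greedy_h

`C = A + K1 + K2 + 9`. Given `K, δ`: `Z = L^(K+K1)`, `Y = L^K1`, `small_h (A+1) (K+K1) K2` (`D0`; also `D' ≥ 1`), `r = 2 L^K2`, `wt q = WtH δ w X r q ≥ 0`. Heavy: `QS = {q ∈ Icc 1 ⌊P0⌋₊ : Z < q ∧ X^(1-δ) < wt q}`: `#QS X^(1-δ) ≤ mass_h ≤ X^(1+6δ)`, so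
`#QS ≤ X^(7δ)`. `w q = ∑_{a ∈ nrr QS q} arcI` for `q ∈ QS`, `0` otherwise: `∑ w ≤ X L^(K2+5)` (`non_mass`). `cover_abs` with `P = ⌊P0⌋₊`, `W = X L^(K2+5)`, `η = X/(8 L^A)`: `#D ≤ 8 L^(K1+K2+5+A) L + 1 ≤ L^C`;
`d ∈ D`: `L^K < d` (`Z = L^K Y`), `d ≤ P0 ≤ X^(1/2+3δ)`. Let `n ∈ Icc 1 X` be no multiple of any `d ∈ D`, `QQ`, `N` as in the statement (`q ∈ QQ`: `q = lcm(q,q) ≤ N ≤ P0`). Split `QQ`: `q ≤ Z`: `small_h`, `≤ X/L^(A+1)`; `q > Z`, `q ∉ QS` (light): `light_h (A+1)`;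
`q ∈ QS`: `WtH_split`: coincident part: `coin_mass (A+1)` for `QQ ∩ QS`; the other part: `≤ η` by the cover. Total `≤ 3 X/L^(A+1) + X/(8L^A) ≤ X/L^A`. (The goal is literally `∑ q ∈ QQ, WtH δ w X (2 L^K2) q`; unfold `WtH`, `arcI`.)
-/

set_option autoImplicit false

namespace Pool.MP_dd84fd_nt.HX

open Finset Pool.MP_67663b_nt.Odd Pool.MP_dd84fd_nt.En Pool.MP_dd84fd_nt.E2 Pool.MP_dd84fd_nt.LS
open Pool.MP_dd84fd_nt.L2G (nrm)
open Pool.MP_dd84fd_nt.GX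
open Pool.MP_dd84fd_nt.PL (rr Fam)

theorem greedy_h (h1 : AnAbs) (h2 : WDabs) (h3 : Dec2) (h4 : MajH) : GreedyH := by
  intro A K1 K2
  refine ⟨A + K1 + K2 + 9, fun K δ hδ hδ1 => ?_⟩
  obtain ⟨D0, hD0⟩ := small_h h4 h1 h2 (A + 1) (K + K1) K2
  refine ⟨max 1 D0, fun D' hD' => ?_⟩
  have hD1 : 1 ≤ D' := le_trans (le_max_left _ _) hD'
  obtain ⟨X1, hX1⟩ := hD0 D' (le_trans (le_max_right _ _) hD') δ hδ hδ1
  obtain ⟨X2, hX2⟩ := mass_h h1 h2 K2 D' δ hδ hδ1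
  obtain ⟨X3, hX3⟩ := non_mass h1 h2 K2 D' δ hδ hδ1
  obtain ⟨X4, hX4⟩ := coin_mass h1 h2 h3 (A + 1) K2 D' hD1 δ hδ hδ1
  obtain ⟨X5, hX5⟩ := light_h (A + 1) K1 δ hδ
  refine ⟨max (max (max X1 X2) (max X3 X4)) (max X5 ⌈Real.exp 100⌉₊), fun X hX => ?_⟩
  simp only [max_le_iff] at hX
  obtain ⟨⟨⟨hXa, hXb⟩, hXc, hXd⟩, hXe, hXf⟩ := hX
  have hXf' : Real.exp 100 ≤ (X : ℝ) := (Nat.le_ceil _).trans (by exact_mod_cast hXf)
  have hXpos : (0 : ℝ) < X := (Real.exp_pos _).trans_le hXf'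
  have hXone : 1 ≤ X := by
    have : (0 : ℝ) < (X : ℝ) := hXpos
    exact_mod_cast this
  have hX1r : (1 : ℝ) ≤ X := by exact_mod_cast hXone
  set L := Real.log (X : ℝ) with hL
  have hL100 : 100 ≤ L := by
    rw [hL, Real.le_log_iff_exp_le hXpos]; exact hXf'
  have hL0 : 0 < L := by linarith
  have hL1 : 1 ≤ L := by linarith
  set w := wX D' X with hw
  set r := 2 * L ^ K2 with hr
  have hr0 : 0 ≤ r := by positivity
  have hwt : ∀ q, 0 ≤ WtH δ w X r q := fun q =>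
    sum_nonneg fun a _ => arcI_nonneg δ w X r _ hr0
  set P := ⌊P0 δ X⌋₊ with hP
  have hP0 : 0 ≤ P0 δ X := Real.rpow_nonneg hXpos.le _
  set Z := L ^ (K + K1) with hZ
  set Y := L ^ K1 with hY
  classical
  set QS : Finset ℕ := (Icc 1 P).filter
    (fun q : ℕ => Z < (q : ℝ) ∧ (X : ℝ) ^ (1 - δ) < WtH δ w X r q) with hQS
  have hQS1 : ∀ q ∈ QS, 1 ≤ q ∧ (q : ℝ) ≤ P0 δ X := by
    intro q hq
    rw [hQS, mem_filter, mem_Icc] at hq
    exact ⟨hq.1.1, (Nat.cast_le.mpr hq.1.2).trans (Nat.floor_le hP0)⟩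
  have hcard : (QS.card : ℝ) ≤ (X : ℝ) ^ (7 * δ) := by
    have e1 : (QS.card : ℝ) * (X : ℝ) ^ (1 - δ) ≤ (X : ℝ) ^ (1 + 6 * δ) := by
      calc (QS.card : ℝ) * (X : ℝ) ^ (1 - δ) = ∑ q ∈ QS, (X : ℝ) ^ (1 - δ) := by
            rw [sum_const, nsmul_eq_mul]
        _ ≤ ∑ q ∈ QS, WtH δ w X r q := sum_le_sum fun q hq => by
            rw [hQS, mem_filter] at hq
            exact hq.2.2.le
        _ ≤ ∑ q ∈ Icc 1 P, WtH δ w X r q :=
            sum_le_sum_of_subset_of_nonneg (filter_subset _ _) fun q _ _ => hwt q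
        _ ≤ _ := hX2 X hXb
    have e2 : (X : ℝ) ^ (1 + 6 * δ) = (X : ℝ) ^ (7 * δ) * (X : ℝ) ^ (1 - δ) := by
      rw [← Real.rpow_add hXpos]; ring_nf
    rw [e2] at e1
    exact le_of_mul_le_mul_right e1 (Real.rpow_pos_of_pos hXpos _)
  set wf : ℕ → ℝ := fun q => if q ∈ QS then
    ∑ a ∈ nrr δ X QS q, arcI δ w X r ((a : ℝ) / q) else 0 with hwf
  have hwf0 : ∀ q, 0 ≤ wf q := by
    intro q
    rw [hwf]
    dsimp only
    split_ifs
    · exact sum_nonneg fun a _ => arcI_nonneg δ w X r _ hr0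
    · exact le_refl 0
  have hwfs : ∑ q ∈ Icc 1 P, wf q ≤ X * L ^ (K2 + 5) := by
    have e1 : ∑ q ∈ Icc 1 P, wf q = ∑ q ∈ QS, ∑ a ∈ nrr δ X QS q, arcI δ w X r ((a : ℝ) / q) := by
      rw [hwf]
      dsimp only
      rw [← sum_filter]
      refine sum_congr ?_ fun _ _ => rfl
      ext q
      rw [mem_filter]
      refine ⟨fun h => h.2, fun h => ⟨?_, h⟩⟩
      rw [hQS, mem_filter] at h
      exact h.1
    rw [e1]
    exact hX3 X hXc QS hQS1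
  have hη : (0 : ℝ) < X / (8 * L ^ A) := by positivity
  obtain ⟨D, hDc, hDd, hDn⟩ := cover_abs X P hXone Z Y (X * L ^ (K2 + 5)) (X / (8 * L ^ A)) wf hwf0
    (by positivity) hη hwfs
  refine ⟨D, ?_, ?_, ?_⟩
  · refine hDc.trans ?_
    have e1 : Y * (X * L ^ (K2 + 5)) / (X / (8 * L ^ A)) * L = 8 * L ^ (A + K1 + K2 + 6) := by
      rw [hY]
      field_simp
      ring
    rw [e1]
    have e2 : L ^ (A + K1 + K2 + 9) = L ^ 3 * L ^ (A + K1 + K2 + 6) := by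
      rw [← pow_add]; ring_nf
    rw [e2]
    have e3 : (1 : ℝ) ≤ L ^ (A + K1 + K2 + 6) := one_le_pow₀ hL1
    have e4 : (9 : ℝ) ≤ L ^ 3 := by
      have : (100 : ℝ) ^ 3 ≤ L ^ 3 := pow_le_pow_left₀ (by norm_num) hL100 3
      linarith [this, (by norm_num : (9 : ℝ) ≤ 100 ^ 3)]
    nlinarith
  · intro d hd
    obtain ⟨e1, e2⟩ := hDd d hd
    constructor
    · have e3 : L ^ K * Y < Y * d := by
        have : Z = L ^ K * Y := by rw [hZ, hY, pow_add]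
        rw [← this]; exact e1
      have hYp : 0 < Y := by positivity
      nlinarith
    · calc (d : ℝ) ≤ P := by exact_mod_cast e2
        _ ≤ P0 δ X := Nat.floor_le hP0
        _ ≤ _ := Real.rpow_le_rpow_of_exponent_le hX1r (by linarith)
  · intro n hn hnd QQ N hQQ hN hNX
    change ∑ q ∈ QQ, WtH δ w X r q ≤ _
    have hNP : N ≤ P0 δ X := hNX
    have hqP : ∀ q ∈ QQ, (q : ℝ) ≤ P0 δ X := by
      intro q hq
      have := hN q hq q hq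
      rw [Nat.lcm_self] at this
      exact this.trans hNP
    have hsplit : ∑ q ∈ QQ, WtH δ w X r q =
        ∑ q ∈ QQ.filter (fun q : ℕ => (q : ℝ) ≤ Z), WtH δ w X r q +
        (∑ q ∈ (QQ.filter (fun q : ℕ => ¬ (q : ℝ) ≤ Z)).filter (fun q => q ∈ QS), WtH δ w X r q +
        ∑ q ∈ (QQ.filter (fun q : ℕ => ¬ (q : ℝ) ≤ Z)).filter (fun q => q ∉ QS), WtH δ w X r q) := by
      rw [sum_filter_add_sum_filter_not, sum_filter_add_sum_filter_not]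
    rw [hsplit]
    have b1 : ∑ q ∈ QQ.filter (fun q : ℕ => (q : ℝ) ≤ Z), WtH δ w X r q ≤ X / L ^ (A + 1) := by
      refine le_trans (sum_le_sum_of_subset_of_nonneg ?_ fun q _ _ => hwt q) (hX1 X hXa)
      intro q hq
      rw [mem_filter] at hq
      rw [mem_Icc]
      exact ⟨(hQQ q hq.1).1, Nat.le_floor hq.2⟩
    have b2 : ∑ q ∈ (QQ.filter (fun q : ℕ => ¬ (q : ℝ) ≤ Z)).filter (fun q => q ∉ QS),
        WtH δ w X r q ≤ X / L ^ (A + 1) := by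
      refine hX5 X hXe (fun q => WtH δ w X r q) _ n hn fun q hq => ?_
      rw [mem_filter, mem_filter] at hq
      obtain ⟨⟨hq1, hq2⟩, hq3⟩ := hq
      refine ⟨(hQQ q hq1).1, (hQQ q hq1).2, ?_⟩
      by_contra hcon
      apply hq3
      rw [hQS, mem_filter, mem_Icc]
      exact ⟨⟨(hQQ q hq1).1, Nat.le_floor (hqP q hq1)⟩, not_le.mp hq2, not_le.mp hcon⟩
    have b3 : ∑ q ∈ (QQ.filter (fun q : ℕ => ¬ (q : ℝ) ≤ Z)).filter (fun q => q ∈ QS),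
        WtH δ w X r q ≤ X / L ^ (A + 1) + X / (8 * L ^ A) := by
      set Q2 := (QQ.filter (fun q : ℕ => ¬ (q : ℝ) ≤ Z)).filter (fun q => q ∈ QS) with hQ2
      have hQ2s : Q2 ⊆ QS := fun q hq => (mem_filter.mp hq).2
      have hQ2q : ∀ q ∈ Q2, q ∈ QQ := fun q hq =>
        (mem_filter.mp (mem_filter.mp hq).1).1
      rw [sum_congr rfl fun q _ => WtH_split δ w X r QS q, sum_add_distrib]
      refine add_le_add ?_ ?_
      · exact hX4 X hXd QS Q2 N hcard hQS1 hQ2s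
          (fun q hq q' hq' => hN q (hQ2q q hq) q' (hQ2q q' hq')) hNP
      · refine le_trans ?_ (hDn n hn hnd)
        have e1 : ∑ q ∈ Q2, ∑ a ∈ nrr δ X QS q, arcI δ w X r ((a : ℝ) / q) = ∑ q ∈ Q2, wf q := by
          refine sum_congr rfl fun q hq => ?_
          rw [hwf]
          dsimp only
          rw [if_pos (hQ2s hq)]
        rw [e1]
        refine sum_le_sum_of_subset_of_nonneg ?_ fun q _ _ => hwf0 q
        intro q hq
        have hq1 := mem_filter.mp (mem_filter.mp hq).1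
        rw [mem_filter, mem_Icc]
        exact ⟨⟨(hQQ q hq1.1).1, Nat.le_floor (hqP q hq1.1)⟩, not_le.mp hq1.2, (hQQ q hq1.1).2⟩
    have e1 : (X : ℝ) / L ^ (A + 1) ≤ X / L ^ A / 100 := by
      rw [pow_succ, div_div, div_le_div_iff_of_pos_left hXpos (by positivity) (by positivity)]
      exact mul_le_mul_of_nonneg_left hL100 (by positivity)
    have e2 : (X : ℝ) / (8 * L ^ A) = X / L ^ A / 8 := by
      rw [div_div, mul_comm]
    have e3 : 0 ≤ (X : ℝ) / L ^ A := by positivity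
    rw [e2] at b3
    linarith

end Pool.MP_dd84fd_nt.HX
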