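import Pool.Agent.Lib.MP_dd84fd_nt.HX.MjLa
import Pool.Agent.Lib.MP_dd84fd_nt.HX.SvRs
import Pool.Agent.Lib.MP_dd84fd_nt.E2.MinorP

/-!
# HX-MjD (0.7 h): the gap function in residue classes

Proof. `Σ_{n ≤ t, n ≡ c} Dn n = - Σ_{k ≤ X} Σ_{m ≤ t/k, m k ≡ c (q)} Λ(m) rg(m) vv m k` (`n = m k`; `vv δ X m (n/m)` with `n/m = k`). `k` not rough: `rg k = 0`, all `e k i = 0`, both sides `0` (`VRep`).
`k` rough: every prime factor of `k` is `≥ z > L^B ≥ q`, so `k` is coprime to `q`; choose `c'` with `k c' ≡ c (q)`, then `m k ≡ c ↔ m ≡ c'`, `c'` coprime to `q`. If `t/k < z`: the inner sum is `0` (`Λ(m) rg(m) = 0` for `m < z`) and `len = 0`.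
If `t/k ≥ z`: `VRep` and `la_class (A+1)` with `Y = t/k`: error `≤ Σ_i |e k i| (t/k)/L^(A+1) ≤ 2^42 rg k X/(k L^(A+1))`. Sum over `k` with `rs_all`: `≤ 2^42 C X/L^(A+1) ≤ X/L^A`.
-/

set_option autoImplicit false

namespace Pool.MP_dd84fd_nt.HX

open Finset Pool.MP_67663b_nt.Odd Pool.MP_dd84fd_nt.En Pool.MP_dd84fd_nt.E2 Pool.MP_dd84fd_nt.LS
open Pool.MP_dd84fd_nt.L2G (nrm)
open Pool.MP_dd84fd_nt.GX

/-- sums over the divisors of the elements of a set as sums over pairs -/
private theorem mjd_reindex (X t : ℕ) (ht : t ≤ X) (P : ℕ → Prop) [DecidablePred P]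
    (F : ℕ → ℕ → ℝ) :
    ∑ n ∈ (Icc 1 t).filter P, ∑ m ∈ n.divisors, F m (n / m) =
      ∑ k ∈ Icc 1 X, ∑ m ∈ (Icc 1 (t / k)).filter (fun m => P (m * k)), F m k := by
  rw [Finset.sum_sigma', Finset.sum_sigma']
  refine Finset.sum_bij' (fun x _ => ⟨x.1 / x.2, x.2⟩) (fun x _ => ⟨x.2 * x.1, x.2⟩) ?_ ?_ ?_ ?_ ?_
  · rintro ⟨n, m⟩ h
    simp only [mem_sigma, mem_filter, mem_Icc, Nat.mem_divisors] at h ⊢
    obtain ⟨⟨⟨h1, h2⟩, h3⟩, h4, h5⟩ := h
    obtain ⟨k, rfl⟩ := h4
    have hm : 0 < m := Nat.pos_of_ne_zero fun h => h5 (by rw [h, zero_mul])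
    have hk : 0 < k := Nat.pos_of_ne_zero fun h => h5 (by rw [h, mul_zero])
    rw [Nat.mul_div_cancel_left k hm]
    refine ⟨⟨hk, ?_⟩, ⟨hm, ?_⟩, h3⟩
    · calc k = 1 * k := (one_mul k).symm
        _ ≤ m * k := Nat.mul_le_mul_right k hm
        _ ≤ X := h2.trans ht
    · rw [Nat.le_div_iff_mul_le hk]
      exact h2
  · rintro ⟨k, m⟩ h
    simp only [mem_sigma, mem_filter, mem_Icc, Nat.mem_divisors] at h ⊢
    obtain ⟨⟨h1, h2⟩, ⟨h3, h4⟩, h5⟩ := h
    rw [Nat.le_div_iff_mul_le (by omega)] at h4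
    have hmk : 0 < m * k := Nat.mul_pos (by omega) (by omega)
    exact ⟨⟨⟨hmk, h4⟩, h5⟩, Nat.dvd_mul_right _ _, by omega⟩
  · rintro ⟨n, m⟩ h
    simp only [mem_sigma, mem_filter, mem_Icc, Nat.mem_divisors] at h ⊢
    rw [Nat.mul_div_cancel' h.2.1]
  · rintro ⟨k, m⟩ h
    simp only [mem_sigma, mem_filter, mem_Icc, Nat.mem_divisors] at h ⊢
    rw [Nat.mul_div_cancel_left k (by omega)]
  · rintro ⟨n, m⟩ h
    rfl

private theorem mjd_small {z m : ℕ} (hm : m < z) :
    ArithmeticFunction.vonMangoldt m * rg z m = 0 := by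
  rcases Nat.lt_or_ge 1 m with h | h
  · have h1 : ¬ Rgh z m := by
      rintro ⟨-, h2⟩
      obtain ⟨p, hp, hpm⟩ := Nat.exists_prime_and_dvd (by omega : m ≠ 1)
      have h3 := h2 p (Nat.mem_primeFactors.2 ⟨hp, hpm, by omega⟩)
      have h4 := Nat.le_of_dvd (by omega) hpm
      omega
    unfold rg
    rw [if_neg h1, mul_zero]
  · interval_cases m
    · simp
    · simp

private theorem mjd_inv {k q : ℕ} (hq : 1 ≤ q) (h : Nat.Coprime k q) :
    ∃ k' : ℕ, k * k' ≡ 1 [MOD q] := by
  rcases Nat.lt_or_ge 1 q with h1 | h1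
  · obtain ⟨k', hk'⟩ := Nat.exists_mul_mod_eq_one_of_coprime h h1
    refine ⟨k', ?_⟩
    unfold Nat.ModEq
    rw [hk'.2, Nat.mod_eq_of_lt h1]
  · have hq1 : q = 1 := by omega
    subst hq1
    exact ⟨0, Nat.modEq_one⟩

theorem dn_cls (A B : ℕ) : ∃ X0 : ℕ, ∀ X : ℕ, X0 ≤ X → ∀ δ : ℝ,
    ∀ (J : ℕ → ℕ) (e a b : ℕ → ℕ → ℝ), VRep δ X J e a b → ∀ q c t : ℕ, 1 ≤ q →
    (q : ℝ) ≤ (Real.log X) ^ B → Nat.Coprime c q → t ≤ X →
    |∑ n ∈ (Icc 1 t).filter (fun n => n ≡ c [MOD q]), Dn δ X n +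
      lensum X J e a b t / (Nat.totient q : ℝ)| ≤ X / (Real.log X) ^ A := by
  obtain ⟨X1, hla⟩ := la_class (A + 1) B
  obtain ⟨C, X2, hC, hrs⟩ := rs_all
  obtain ⟨X3, hlog⟩ := E2.MP_log_pow 2 B (ε := 1 / 20) (by norm_num)
  refine ⟨max (max X1 X2) (max X3 (⌈Real.exp (2 ^ 42 * C + 1)⌉₊ + 1)), ?_⟩
  intro X hX δ J e a b hV q c t hq hqL hcq ht
  have hX1 : X1 ≤ X := by omega
  have hX2 : X2 ≤ X := by omega
  have hX3 : X3 ≤ X := by omega
  have hXe : ⌈Real.exp (2 ^ 42 * C + 1)⌉₊ ≤ X := by omega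
  have hXn : 1 ≤ X := by omega
  have hX0 : (0 : ℝ) < X := by exact_mod_cast hXn
  have hL : 2 ^ 42 * C + 1 ≤ Real.log X := by
    rw [Real.le_log_iff_exp_le hX0]
    exact (Nat.le_ceil _).trans (by exact_mod_cast hXe)
  have hL1 : 1 ≤ Real.log X := by
    have : 0 < 2 ^ 42 * C := by positivity
    linarith
  have hL0 : 0 < Real.log X := by linarith
  -- `q < z`
  have hz : (X : ℝ) ^ (1 / 20 : ℝ) ≤ zz X := Nat.le_ceil _
  have hqz : q < zz X := by
    have h1 := hlog X hX3
    have h2 : 0 < (Real.log X) ^ B := by positivity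
    have h3 : (q : ℝ) < zz X := by linarith
    exact_mod_cast h3
  have hre : ∑ n ∈ (Icc 1 t).filter (fun n => n ≡ c [MOD q]), Dn δ X n =
      - ∑ k ∈ Icc 1 X, ∑ m ∈ (Icc 1 (t / k)).filter (fun m => m * k ≡ c [MOD q]),
        ArithmeticFunction.vonMangoldt m * rg (zz X) m * vv δ X m k := by
    unfold Dn
    rw [Finset.sum_neg_distrib, mjd_reindex X t ht (fun n => n ≡ c [MOD q])
      (fun m k => ArithmeticFunction.vonMangoldt m * rg (zz X) m * vv δ X m k)]
  have hφ0 : (0 : ℝ) < (Nat.totient q : ℝ) := by exact_mod_cast Nat.totient_pos.2 hq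
  -- one `k`
  have hone : ∀ k ∈ Icc 1 X,
      |∑ m ∈ (Icc 1 (t / k)).filter (fun m => m * k ≡ c [MOD q]),
        ArithmeticFunction.vonMangoldt m * rg (zz X) m * vv δ X m k -
        (∑ i ∈ range (J k), e k i * len (a k i) (b k i) (zz X) ((t : ℝ) / k)) /
          (Nat.totient q : ℝ)| ≤
      2 ^ 42 * X / (Real.log X) ^ (A + 1) * (rg (zz X) k / k) := by
    intro k hk
    obtain ⟨hJ, he, -, hvv⟩ := hV k hk
    rw [mem_Icc] at hk
    have hk0 : (0 : ℝ) < k := by exact_mod_cast hk.1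
    have hrhs : 0 ≤ 2 ^ 42 * X / (Real.log X) ^ (A + 1) * (rg (zz X) k / k) := by
      have : 0 ≤ rg (zz X) k := by unfold rg; split_ifs <;> norm_num
      positivity
    by_cases hr : Rgh (zz X) k
    · have hrg : rg (zz X) k = 1 := by unfold rg; rw [if_pos hr]
      have hcop : Nat.Coprime k q := by
        by_contra hcon
        obtain ⟨p, hp, hpk, hpq⟩ := Nat.Prime.not_coprime_iff_dvd.1 hcon
        have h1 := hr.2 p (Nat.mem_primeFactors.2 ⟨hp, hpk, by omega⟩)
        have h2 := Nat.le_of_dvd (by omega) hpq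
        omega
      obtain ⟨k', hk'⟩ := mjd_inv hq hcop
      have hmod : ∀ m : ℕ, m * k ≡ c [MOD q] ↔ m ≡ k' * c [MOD q] := by
        intro m
        constructor
        · intro h
          have h1 : m * k * k' ≡ c * k' [MOD q] := h.mul_right k'
          have h2 : m * (k * k') ≡ m * 1 [MOD q] := hk'.mul_left m
          calc m = m * 1 := (mul_one m).symm
            _ ≡ m * (k * k') [MOD q] := h2.symm
            _ = m * k * k' := by ring
            _ ≡ c * k' [MOD q] := h1
            _ = k' * c := by ring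
        · intro h
          have h1 : m * k ≡ k' * c * k [MOD q] := h.mul_right k
          have h2 : c * (k * k') ≡ c * 1 [MOD q] := hk'.mul_left c
          calc m * k ≡ k' * c * k [MOD q] := h1
            _ = c * (k * k') := by ring
            _ ≡ c * 1 [MOD q] := h2
            _ = c := mul_one c
      have hcop' : Nat.Coprime (k' * c) q := by
        refine Nat.Coprime.mul_left ?_ hcq
        have h1 : Nat.gcd (k * k') q = Nat.gcd 1 q := hk'.gcd_eq
        rw [Nat.gcd_one_left] at h1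
        exact Nat.Coprime.coprime_mul_left (k := k) h1
      have hfl : ⌊(t : ℝ) / k⌋₊ = t / k := Nat.floor_div_eq_div t k
      have hset : (Icc 1 (t / k)).filter (fun m => m * k ≡ c [MOD q]) =
          (Icc 1 ⌊(t : ℝ) / k⌋₊).filter (fun m => m ≡ k' * c [MOD q]) := by
        rw [hfl]
        exact Finset.filter_congr fun m _ => hmod m
      rcases lt_or_ge ((t : ℝ) / k) (zz X) with hlt | hge
      · -- trivial range
        have hz0 : ∑ m ∈ (Icc 1 (t / k)).filter (fun m => m * k ≡ c [MOD q]),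
            ArithmeticFunction.vonMangoldt m * rg (zz X) m * vv δ X m k = 0 := by
          refine Finset.sum_eq_zero fun m hm => ?_
          rw [mem_filter, mem_Icc] at hm
          have h1 : t / k < zz X := by
            have h2 : ((t / k : ℕ) : ℝ) < zz X := Nat.cast_div_le.trans_lt hlt
            exact_mod_cast h2
          rw [mjd_small (by omega : m < zz X), zero_mul]
        have hl0 : ∀ i, len (a k i) (b k i) (zz X) ((t : ℝ) / k) = 0 := by
          intro i
          unfold len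
          refine max_eq_left ?_
          have h1 := min_le_right (b k i) ((t : ℝ) / k)
          have h2 := le_max_right (a k i) (zz X : ℝ)
          linarith
        rw [hz0]
        simp only [hl0, mul_zero, Finset.sum_const_zero, zero_div, sub_zero, abs_zero]
        exact hrhs
      · rw [hset]
        have hYX : (t : ℝ) / k ≤ X := by
          rw [div_le_iff₀ hk0]
          have h1 : (t : ℝ) ≤ X := by exact_mod_cast ht
          have h2 : (1 : ℝ) ≤ k := by exact_mod_cast hk.1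
          nlinarith
        have hexp : ∑ m ∈ (Icc 1 ⌊(t : ℝ) / k⌋₊).filter (fun m => m ≡ k' * c [MOD q]),
            ArithmeticFunction.vonMangoldt m * rg (zz X) m * vv δ X m k =
            ∑ i ∈ range (J k), e k i *
              ∑ m ∈ (Icc 1 ⌊(t : ℝ) / k⌋₊).filter (fun m => m ≡ k' * c [MOD q]),
                ArithmeticFunction.vonMangoldt m * rg (zz X) m *
                  ind (a k i < (m : ℝ) ∧ (m : ℝ) ≤ b k i) := by
          simp only [Finset.mul_sum]
          rw [Finset.sum_comm]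
          refine Finset.sum_congr rfl fun m _ => ?_
          rw [hvv m, Finset.mul_sum]
          refine Finset.sum_congr rfl fun i _ => ?_
          ring
        rw [hexp, Finset.sum_div, ← Finset.sum_sub_distrib]
        refine (Finset.abs_sum_le_sum_abs _ _).trans ?_
        calc ∑ i ∈ range (J k), |e k i *
              ∑ m ∈ (Icc 1 ⌊(t : ℝ) / k⌋₊).filter (fun m => m ≡ k' * c [MOD q]),
                ArithmeticFunction.vonMangoldt m * rg (zz X) m *
                  ind (a k i < (m : ℝ) ∧ (m : ℝ) ≤ b k i) -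
              e k i * len (a k i) (b k i) (zz X) ((t : ℝ) / k) / (Nat.totient q : ℝ)|
            ≤ ∑ i ∈ range (J k), 2 ^ 20 * ((X : ℝ) / k / (Real.log X) ^ (A + 1)) := by
              refine Finset.sum_le_sum fun i _ => ?_
              rw [mul_div_assoc, ← mul_sub, abs_mul]
              have h1 := hla X hX1 q (k' * c) hq hqL hcop' ((t : ℝ) / k) (a k i) (b k i) hge hYX
              have h2 : (t : ℝ) / k / (Real.log X) ^ (A + 1) ≤
                  (X : ℝ) / k / (Real.log X) ^ (A + 1) := by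
                have h3 : (t : ℝ) ≤ X := by exact_mod_cast ht
                gcongr
              have h4 := he i
              rw [hrg, mul_one] at h4
              exact mul_le_mul h4 (h1.trans h2) (abs_nonneg _) (by positivity)
          _ = (J k : ℝ) * (2 ^ 20 * ((X : ℝ) / k / (Real.log X) ^ (A + 1))) := by
              rw [Finset.sum_const, card_range, nsmul_eq_mul]
          _ ≤ 2 ^ 22 * (2 ^ 20 * ((X : ℝ) / k / (Real.log X) ^ (A + 1))) := by
              refine mul_le_mul_of_nonneg_right ?_ (by positivity)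
              exact_mod_cast hJ
          _ = 2 ^ 42 * X / (Real.log X) ^ (A + 1) * (rg (zz X) k / k) := by
              rw [hrg]; ring
    · have hrg : rg (zz X) k = 0 := by unfold rg; rw [if_neg hr]
      have hv0 : ∀ m : ℝ, vv δ X m k = 0 := by
        intro m
        unfold vv
        rw [hrg, zero_mul]
      have he0 : ∀ i, e k i = 0 := by
        intro i
        have h1 := he i
        rw [hrg, mul_zero] at h1
        exact abs_nonpos_iff.1 h1
      simp only [hv0, he0, mul_zero, zero_mul, Finset.sum_const_zero, zero_div, sub_zero, abs_zero]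
      exact hrhs
  have hfin : |∑ k ∈ Icc 1 X, (∑ m ∈ (Icc 1 (t / k)).filter (fun m => m * k ≡ c [MOD q]),
        ArithmeticFunction.vonMangoldt m * rg (zz X) m * vv δ X m k -
        (∑ i ∈ range (J k), e k i * len (a k i) (b k i) (zz X) ((t : ℝ) / k)) /
          (Nat.totient q : ℝ))| ≤ X / (Real.log X) ^ A := by
    refine (Finset.abs_sum_le_sum_abs _ _).trans ((Finset.sum_le_sum hone).trans ?_)
    rw [← Finset.mul_sum]
    calc 2 ^ 42 * X / (Real.log X) ^ (A + 1) * ∑ k ∈ Icc 1 X, rg (zz X) k / k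
        ≤ 2 ^ 42 * X / (Real.log X) ^ (A + 1) * C :=
          mul_le_mul_of_nonneg_left (hrs X hX2) (by positivity)
      _ = (2 ^ 42 * C) * (X / (Real.log X) ^ (A + 1)) := by ring
      _ ≤ Real.log X * (X / (Real.log X) ^ (A + 1)) :=
          mul_le_mul_of_nonneg_right (by linarith) (by positivity)
      _ = X / (Real.log X) ^ A := by
          rw [pow_succ]; field_simp
  have heq : ∑ n ∈ (Icc 1 t).filter (fun n => n ≡ c [MOD q]), Dn δ X n +
      lensum X J e a b t / (Nat.totient q : ℝ) =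
      - ∑ k ∈ Icc 1 X, (∑ m ∈ (Icc 1 (t / k)).filter (fun m => m * k ≡ c [MOD q]),
        ArithmeticFunction.vonMangoldt m * rg (zz X) m * vv δ X m k -
        (∑ i ∈ range (J k), e k i * len (a k i) (b k i) (zz X) ((t : ℝ) / k)) /
          (Nat.totient q : ℝ)) := by
    rw [hre, Finset.sum_sub_distrib]
    unfold lensum
    rw [Finset.sum_div]
    ring
  rw [heq, abs_neg]
  exact hfin

end Pool.MP_dd84fd_nt.HX
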