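import Pool.Agent.Lib.MP_dd84fd_nt.HX.MjDefs
import Pool.Agent.Lib.MP_dd84fd_nt.HX.DcRg

/-!
# HX-MjV (0.6 h): `v(m, k)` as a function of `m`

Proof. For `k ∈ Icc 1 X` rough: `#k.divisors ≤ 2^20` (`rg_divisors`), `|c2 U k| ≤ 2^20` (`c2_le`), `|μ| ≤ 1`, `ind ≤ 1`; for `k` not rough `rg k = 0` and `vv = 0` (take `J k = 0`).
`vrep_exists`: intervals: `(y2, y3]` with coefficient `- rg k c2(U,k) [U < k]`; for `d ∣ k`, `d ≤ U`: `(y2/d, min(U, y3/d)]` with coefficient `rg k μ(d)` and `(y3/d, U]` with coefficient `rg k μ(d) [k/d ≤ U]`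
(`d ≥ 1`: `y2 < d m ↔ y2/d < m`, `d m ≤ y3 ↔ m ≤ y3/d`). At most `1 + 2 · 2^20 ≤ 2^22` intervals. Index the divisors by `range` with `Finset.equivFin` / `List.get` of `k.divisors.toList`
(or: a combination of indicators indexed by a finset of cardinality `≤ J` can be indexed by `range J`, one general lemma). All left end points are `≥ 0`.
-/

set_option autoImplicit false

namespace Pool.MP_dd84fd_nt.HX

open Finset Pool.MP_67663b_nt.Odd Pool.MP_dd84fd_nt.En Pool.MP_dd84fd_nt.E2 Pool.MP_dd84fd_nt.LS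
open Pool.MP_dd84fd_nt.L2G (nrm)
open Pool.MP_dd84fd_nt.GX

private theorem mjv_ind_le (p : Prop) : 0 ≤ ind p ∧ ind p ≤ 1 := by
  unfold ind
  by_cases h : p
  · simp [h]
  · simp [h]

private theorem mjv_ind_pos {p : Prop} (h : p) : ind p = 1 := by
  unfold ind
  simp [h]

private theorem mjv_ind_neg {p : Prop} (h : ¬ p) : ind p = 0 := by
  unfold ind
  simp [h]

private theorem mjv_ind_congr {p q : Prop} (h : p ↔ q) : ind p = ind q := by
  rw [propext h]

private theorem mjv_ind_and {p q : Prop} : ind (p ∧ q) = ind q * ind p := by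
  by_cases hp : p
  · by_cases hq : q
    · rw [mjv_ind_pos ⟨hp, hq⟩, mjv_ind_pos hp, mjv_ind_pos hq, one_mul]
    · rw [mjv_ind_neg (fun h => hq h.2), mjv_ind_neg hq, zero_mul]
  · rw [mjv_ind_neg (fun h => hp h.1), mjv_ind_neg hp, mul_zero]

private theorem mjv_mu_le (d : ℕ) : |((ArithmeticFunction.moebius d : ℤ) : ℝ)| ≤ 1 := by
  have h := ArithmeticFunction.abs_moebius_le_one (n := d)
  exact_mod_cast h

theorem vv_abs : ∃ X0 : ℕ, ∀ X : ℕ, X0 ≤ X → ∀ δ m : ℝ, ∀ k ∈ Icc 1 X,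
    |vv δ X m k| ≤ 2 ^ 22 * rg (zz X) k := by
  obtain ⟨X0, hX0⟩ := rg_divisors
  refine ⟨X0, fun X hX δ m k hk => ?_⟩
  unfold vv
  by_cases hr : Rgh (zz X) k
  · have hd : ((k.divisors.card : ℕ) : ℝ) ≤ 2 ^ 20 := by exact_mod_cast hX0 X hX k hk hr
    have hrg : rg (zz X) k = 1 := by
      unfold rg
      rw [if_pos hr]
    rw [hrg, one_mul, mul_one]
    have h1 : |-Pool.BV.c2 (Uu δ X) k * ind (y2 δ X < m ∧ m ≤ y3 δ X ∧ Uu δ X < k)| ≤ 2 ^ 20 := by
      rw [abs_mul, abs_neg]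
      obtain ⟨h2, h3⟩ := mjv_ind_le (y2 δ X < m ∧ m ≤ y3 δ X ∧ Uu δ X < k)
      rw [abs_of_nonneg h2]
      have h4 := c2_le (Uu δ X) k
      calc |Pool.BV.c2 (Uu δ X) k| * ind (y2 δ X < m ∧ m ≤ y3 δ X ∧ Uu δ X < k) ≤
          (k.divisors.card : ℝ) * 1 := mul_le_mul h4 h3 h2 (by positivity)
        _ ≤ 2 ^ 20 := by linarith
    have h2 : |∑ d ∈ k.divisors.filter (fun d => d ≤ Uu δ X),
        ((ArithmeticFunction.moebius d : ℤ) : ℝ) *
          (ind (m ≤ Uu δ X ∧ y2 δ X < d * m ∧ d * m ≤ y3 δ X) +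
            ind (m ≤ Uu δ X ∧ y3 δ X < d * m ∧ k / d ≤ Uu δ X))| ≤ 2 * 2 ^ 20 := by
      refine (abs_sum_le_sum_abs _ _).trans ?_
      have h3 : ∀ d ∈ k.divisors.filter (fun d => d ≤ Uu δ X),
          |((ArithmeticFunction.moebius d : ℤ) : ℝ) *
          (ind (m ≤ Uu δ X ∧ y2 δ X < d * m ∧ d * m ≤ y3 δ X) +
            ind (m ≤ Uu δ X ∧ y3 δ X < d * m ∧ k / d ≤ Uu δ X))| ≤ 2 := by
        intro d _
        obtain ⟨a1, a2⟩ := mjv_ind_le (m ≤ Uu δ X ∧ y2 δ X < d * m ∧ d * m ≤ y3 δ X)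
        obtain ⟨b1, b2⟩ := mjv_ind_le (m ≤ Uu δ X ∧ y3 δ X < d * m ∧ k / d ≤ Uu δ X)
        rw [abs_mul, abs_of_nonneg (add_nonneg a1 b1)]
        calc |((ArithmeticFunction.moebius d : ℤ) : ℝ)| *
            (ind (m ≤ Uu δ X ∧ y2 δ X < d * m ∧ d * m ≤ y3 δ X) +
            ind (m ≤ Uu δ X ∧ y3 δ X < d * m ∧ k / d ≤ Uu δ X)) ≤ 1 * 2 :=
              mul_le_mul (mjv_mu_le d) (by linarith) (add_nonneg a1 b1) (by norm_num)
          _ = 2 := by norm_num
      have h4 := sum_le_card_nsmul _ _ _ h3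
      rw [nsmul_eq_mul] at h4
      refine h4.trans ?_
      have h5 : (((k.divisors.filter (fun d => d ≤ Uu δ X)).card : ℕ) : ℝ) ≤ 2 ^ 20 := by
        refine le_trans ?_ hd
        exact_mod_cast card_filter_le _ _
      linarith
    refine (abs_add_le _ _).trans ?_
    linarith
  · have hrg : rg (zz X) k = 0 := by
      unfold rg
      rw [if_neg hr]
    rw [hrg, zero_mul, mul_zero, abs_zero]

/-- a combination of indicator functions indexed by a finite set can be indexed by `range` -/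
private theorem mjv_combine {ι : Type*} (s : Finset ι) (E A B : ι → ℝ) (K : ℝ) (hK : 0 ≤ K)
    (hE : ∀ x ∈ s, |E x| ≤ K) (hA : ∀ x ∈ s, 0 ≤ A x) :
    ∃ e a b : ℕ → ℝ, (∀ i, |e i| ≤ K) ∧ (∀ i, 0 ≤ a i) ∧
      ∀ m : ℝ, ∑ x ∈ s, E x * ind (A x < m ∧ m ≤ B x) =
        ∑ i ∈ range s.card, e i * ind (a i < m ∧ m ≤ b i) := by
  classical
  refine ⟨fun i => if h : i < s.card then E (s.equivFin.symm ⟨i, h⟩) else 0,
    fun i => if h : i < s.card then A (s.equivFin.symm ⟨i, h⟩) else 0,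
    fun i => if h : i < s.card then B (s.equivFin.symm ⟨i, h⟩) else 0, ?_, ?_, ?_⟩
  · intro i
    by_cases h : i < s.card
    · simp only [h, dite_true]
      exact hE _ (s.equivFin.symm ⟨i, h⟩).2
    · simp only [h, dite_false, abs_zero]
      exact hK
  · intro i
    by_cases h : i < s.card
    · simp only [h, dite_true]
      exact hA _ (s.equivFin.symm ⟨i, h⟩).2
    · simp only [h, dite_false]
      exact le_refl _
  · intro m
    rw [Finset.sum_range]
    rw [← Finset.sum_coe_sort s, ← Equiv.sum_comp s.equivFin.symm]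
    refine Finset.sum_congr rfl fun i _ => ?_
    simp only [i.2, dite_true, Fin.eta]

theorem vrep_exists : ∃ X0 : ℕ, ∀ X : ℕ, X0 ≤ X → ∀ δ : ℝ,
    ∃ (J : ℕ → ℕ) (e a b : ℕ → ℕ → ℝ), VRep δ X J e a b := by
  classical
  obtain ⟨X0, hX0⟩ := rg_divisors
  refine ⟨X0, fun X hX δ => ?_⟩
  have key : ∀ k : ℕ, ∃ (J : ℕ) (e a b : ℕ → ℝ), k ∈ Icc 1 X → (J ≤ 2 ^ 22 ∧
      (∀ i, |e i| ≤ 2 ^ 20 * rg (zz X) k) ∧ (∀ i, 0 ≤ a i) ∧
      ∀ m : ℝ, vv δ X m k = ∑ i ∈ range J, e i * ind (a i < m ∧ m ≤ b i)) := by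
    intro k
    by_cases hk : k ∈ Icc 1 X
    swap
    · exact ⟨0, fun _ => 0, fun _ => 0, fun _ => 0, fun h => absurd h hk⟩
    by_cases hr : Rgh (zz X) k
    swap
    · refine ⟨0, fun _ => 0, fun _ => 0, fun _ => 0, fun _ => ⟨Nat.zero_le _, ?_, ?_, ?_⟩⟩
      · intro i
        rw [abs_zero]
        exact mul_nonneg (by positivity) (rg_nonneg _ _).1
      · intro i; exact le_refl _
      · intro m
        have hrg : rg (zz X) k = 0 := by
          unfold rg
          rw [if_neg hr]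
        unfold vv
        rw [hrg, zero_mul, sum_range_zero]
    have hd := hX0 X hX k hk hr
    have hdR : ((k.divisors.card : ℕ) : ℝ) ≤ 2 ^ 20 := by exact_mod_cast hd
    have hrg : rg (zz X) k = 1 := by
      unfold rg
      rw [if_pos hr]
    have hy2 : 0 ≤ y2 δ X := by unfold y2; positivity
    have hy3 : 0 ≤ y3 δ X := by unfold y3; positivity
    obtain ⟨D, hD⟩ : ∃ D : Finset ℕ, D = k.divisors.filter (fun d => d ≤ Uu δ X) := ⟨_, rfl⟩
    have hD1 : ∀ d ∈ D, 1 ≤ d := by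
      intro d hdD
      rw [hD, mem_filter] at hdD
      exact Nat.pos_of_mem_divisors hdD.1
    have hDc : D.card ≤ 2 ^ 20 := by
      rw [hD]
      exact (card_filter_le _ _).trans hd
    obtain ⟨s, hs⟩ : ∃ s : Finset (ℕ × ℕ), s = insert (0, 0) (D ×ˢ ({1, 2} : Finset ℕ)) := ⟨_, rfl⟩
    have h00 : ((0, 0) : ℕ × ℕ) ∉ D ×ˢ ({1, 2} : Finset ℕ) := by
      rw [mem_product]
      rintro ⟨_, h⟩
      simp at h
    obtain ⟨E, hE⟩ : ∃ E : ℕ × ℕ → ℝ, E = fun z => if z.2 = 0 then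
      -Pool.BV.c2 (Uu δ X) k * ind (Uu δ X < k) else if z.2 = 1 then
      ((ArithmeticFunction.moebius z.1 : ℤ) : ℝ) else
      ((ArithmeticFunction.moebius z.1 : ℤ) : ℝ) * ind (k / z.1 ≤ Uu δ X) := ⟨_, rfl⟩
    obtain ⟨A, hA⟩ : ∃ A : ℕ × ℕ → ℝ, A = fun z => if z.2 = 0 then y2 δ X else if z.2 = 1 then
      y2 δ X / z.1 else y3 δ X / z.1 := ⟨_, rfl⟩
    obtain ⟨B, hB⟩ : ∃ B : ℕ × ℕ → ℝ, B = fun z => if z.2 = 0 then y3 δ X else if z.2 = 1 then
      min (Uu δ X : ℝ) (y3 δ X / z.1) else (Uu δ X : ℝ) := ⟨_, rfl⟩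
    have hEb : ∀ z ∈ s, |E z| ≤ 2 ^ 20 := by
      intro z _
      rw [hE]
      dsimp only
      split_ifs
      · rw [abs_mul, abs_neg]
        obtain ⟨h2, h3⟩ := mjv_ind_le (Uu δ X < k)
        rw [abs_of_nonneg h2]
        calc |Pool.BV.c2 (Uu δ X) k| * ind (Uu δ X < k) ≤ (k.divisors.card : ℝ) * 1 :=
            mul_le_mul (c2_le _ _) h3 h2 (by positivity)
          _ ≤ 2 ^ 20 := by linarith
      · exact (mjv_mu_le _).trans (by norm_num)
      · rw [abs_mul]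
        obtain ⟨h2, h3⟩ := mjv_ind_le (k / z.1 ≤ Uu δ X)
        rw [abs_of_nonneg h2]
        calc _ ≤ (1 : ℝ) * 1 := mul_le_mul (mjv_mu_le _) h3 h2 zero_le_one
          _ ≤ 2 ^ 20 := by norm_num
    have hAb : ∀ z ∈ s, 0 ≤ A z := by
      intro z _
      rw [hA]
      dsimp only
      split_ifs
      · exact hy2
      · positivity
      · positivity
    obtain ⟨e, a, b, he, ha, hsum⟩ := mjv_combine s E A B (2 ^ 20) (by positivity) hEb hAb
    refine ⟨s.card, e, a, b, fun _ => ⟨?_, ?_, ha, ?_⟩⟩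
    · rw [hs, card_insert_of_notMem h00, card_product]
      have : ({1, 2} : Finset ℕ).card = 2 := rfl
      rw [this]
      omega
    · intro i
      rw [hrg, mul_one]
      exact he i
    · intro m
      rw [← hsum, hs, sum_insert h00, sum_product]
      unfold vv
      rw [hrg, one_mul, ← hD]
      congr 1
      · rw [hE, hA, hB]
        simp only [if_true]
        rw [mul_assoc, ← mjv_ind_and]
        congr 1
        exact mjv_ind_congr (by tauto)
      · refine sum_congr rfl fun d hdD => ?_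
        have hd1 : (0 : ℝ) < d := by exact_mod_cast hD1 d hdD
        rw [sum_pair (by norm_num), hE, hA, hB]
        simp only [one_ne_zero, if_false, if_true, OfNat.ofNat_ne_zero, OfNat.ofNat_ne_one]
        rw [mul_add, mul_assoc, ← mjv_ind_and]
        congr 1
        · congr 1
          refine mjv_ind_congr ?_
          rw [div_lt_iff₀' hd1, le_min_iff, le_div_iff₀' hd1]
          tauto
        · congr 1
          refine mjv_ind_congr ?_
          rw [div_lt_iff₀' hd1]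
          tauto
  choose J e a b h using key
  exact ⟨J, e, a, b, fun k hk => h k hk⟩

end Pool.MP_dd84fd_nt.HX
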