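import Pool.Agent.Lib.MP_dd84fd_nt.HX.MjF1
import Pool.Agent.Lib.MP_dd84fd_nt.HX.SvRs
import Pool.Agent.Lib.MP_dd84fd_nt.E2.MinorP

/-!
# HX-MjWf (0.5 h): `w_D f1` in residue classes

Proof. `Σ_{n ≤ t, n ≡ c} wD n f1 n = - Σ_{k ≤ X} (1/k) Σ_{i < J k} e k i Σ_{n ≤ t, n ≡ c} f1 n [z k ≤ n] ind(a < n/k ≤ b)` (`wD`, `VRep` at `m = n/k`) `= - Σ_k (1/k) Σ_i e k i (k len/φ(q) + O(X^(1-η)))` (`f1_cls`)
`= - lensum/φ(q) + O(Σ_k (1/k) 2^42 rg k X^(1-η))`, and `Σ rg k/k ≤ C` (`rs_all`); `2^42 C X^(1-η) ≤ X/L^A` for `X` large (`MP_log_pow` in E2/MinorP).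
-/

set_option autoImplicit false

namespace Pool.MP_dd84fd_nt.HX

open Finset Pool.MP_67663b_nt.Odd Pool.MP_dd84fd_nt.En Pool.MP_dd84fd_nt.E2 Pool.MP_dd84fd_nt.LS
open Pool.MP_dd84fd_nt.L2G (nrm)
open Pool.MP_dd84fd_nt.GX

theorem wf_cls (A B D' : ℕ) (hD : 1 ≤ D') (hB : B ≤ D') : ∃ X0 : ℕ, ∀ X : ℕ, X0 ≤ X →
    ∀ δ : ℝ, ∀ (J : ℕ → ℕ) (e a b : ℕ → ℕ → ℝ), VRep δ X J e a b → ∀ q c t : ℕ, 1 ≤ q →
    (q : ℝ) ≤ (Real.log X) ^ B → Nat.Coprime c q → t ≤ X →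
    |∑ n ∈ (Icc 1 t).filter (fun n => n ≡ c [MOD q]), wD δ X n * f1 (wX D' X) n +
      lensum X J e a b t / (Nat.totient q : ℝ)| ≤ X / (Real.log X) ^ A := by
  obtain ⟨η, hη, X1, hX1⟩ := f1_cls D' B hD hB
  obtain ⟨C, X2, hC, hX2⟩ := rs_all
  obtain ⟨X3, hX3⟩ := MP_log_pow (2 ^ 42 * C) A hη
  refine ⟨max (max X1 X2) (max X3 3), fun X hX δ J e a b hV q c t hq hqB hcq ht => ?_⟩
  have hXa : X1 ≤ X := le_trans (le_trans (le_max_left _ _) (le_max_left _ _)) hX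
  have hXb : X2 ≤ X := le_trans (le_trans (le_max_right _ _) (le_max_left _ _)) hX
  have hXc : X3 ≤ X := le_trans (le_trans (le_max_left _ _) (le_max_right _ _)) hX
  have hXd : 3 ≤ X := le_trans (le_trans (le_max_right _ _) (le_max_right _ _)) hX
  have hXpos : (0 : ℝ) < X := by
    have : 0 < X := by omega
    exact_mod_cast this
  have hX1' : (1 : ℝ) < X := by
    have : 1 < X := by omega
    exact_mod_cast this
  have hL : 0 < Real.log X := Real.log_pos hX1'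
  set S := (Icc 1 t).filter (fun n => n ≡ c [MOD q]) with hS
  set T : ℕ → ℕ → ℝ := fun k i => ∑ n ∈ S, f1 (wX D' X) n *
        (if zz X * k ≤ n then ind (a k i < (n : ℝ) / k ∧ (n : ℝ) / k ≤ b k i) else 0) with hT
  have hmain : ∑ n ∈ S, wD δ X n * f1 (wX D' X) n =
      - ∑ k ∈ Icc 1 X, ∑ i ∈ range (J k), 1 / (k : ℝ) * e k i * T k i := by
    have h1 : ∀ n ∈ S, wD δ X n * f1 (wX D' X) n =
        - ∑ k ∈ Icc 1 X, ∑ i ∈ range (J k), 1 / (k : ℝ) * e k i * (f1 (wX D' X) n *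
          (if zz X * k ≤ n then ind (a k i < (n : ℝ) / k ∧ (n : ℝ) / k ≤ b k i) else 0)) := by
      intro n _
      unfold wD
      rw [neg_mul, Finset.sum_mul]
      congr 1
      refine Finset.sum_congr rfl (fun k hk => ?_)
      obtain ⟨-, -, -, hvv⟩ := hV k hk
      by_cases hc : zz X * k ≤ n
      · simp only [if_pos hc]
        rw [hvv ((n : ℝ) / k), Finset.mul_sum, Finset.sum_mul]
        refine Finset.sum_congr rfl (fun i _ => ?_)
        ring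
      · simp only [if_neg hc]
        simp
    rw [Finset.sum_congr rfl h1, Finset.sum_neg_distrib, Finset.sum_comm]
    congr 1
    refine Finset.sum_congr rfl (fun k _ => ?_)
    rw [Finset.sum_comm]
    refine Finset.sum_congr rfl (fun i _ => ?_)
    rw [hT, Finset.mul_sum]
  have hlen : lensum X J e a b t / (Nat.totient q : ℝ) =
      ∑ k ∈ Icc 1 X, ∑ i ∈ range (J k), 1 / (k : ℝ) * e k i *
        (k * len (a k i) (b k i) (zz X) ((t : ℝ) / k) / (Nat.totient q : ℝ)) := by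
    unfold lensum
    rw [Finset.sum_div]
    refine Finset.sum_congr rfl (fun k hk => ?_)
    rw [Finset.sum_div]
    refine Finset.sum_congr rfl (fun i _ => ?_)
    have hk0 : (k : ℝ) ≠ 0 := by
      have := (Finset.mem_Icc.mp hk).1
      have h2 : k ≠ 0 := by omega
      exact_mod_cast h2
    field_simp
  have hcomb : ∑ n ∈ S, wD δ X n * f1 (wX D' X) n +
      lensum X J e a b t / (Nat.totient q : ℝ) =
      - ∑ k ∈ Icc 1 X, ∑ i ∈ range (J k), 1 / (k : ℝ) * e k i *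
        (T k i - k * len (a k i) (b k i) (zz X) ((t : ℝ) / k) / (Nat.totient q : ℝ)) := by
    rw [hmain, hlen, ← Finset.sum_neg_distrib, ← Finset.sum_neg_distrib,
      ← Finset.sum_add_distrib]
    refine Finset.sum_congr rfl (fun k _ => ?_)
    rw [← Finset.sum_neg_distrib, ← Finset.sum_neg_distrib, ← Finset.sum_add_distrib]
    refine Finset.sum_congr rfl (fun i _ => ?_)
    ring
  rw [hcomb, abs_neg]
  have hY : (0 : ℝ) ≤ (X : ℝ) ^ (1 - η) := Real.rpow_nonneg hXpos.le _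
  have hterm : ∀ k ∈ Icc 1 X, |∑ i ∈ range (J k), 1 / (k : ℝ) * e k i *
      (T k i - k * len (a k i) (b k i) (zz X) ((t : ℝ) / k) / (Nat.totient q : ℝ))| ≤
      2 ^ 42 * (X : ℝ) ^ (1 - η) * (rg (zz X) k / k) := by
    intro k hk
    obtain ⟨hJ, he, ha, -⟩ := hV k hk
    have hk1 : 1 ≤ k := (Finset.mem_Icc.mp hk).1
    have hk0 : (0 : ℝ) < k := by exact_mod_cast hk1
    have hrg : 0 ≤ rg (zz X) k := by unfold rg; split_ifs <;> norm_num
    have h1 : ∀ i ∈ range (J k), |1 / (k : ℝ) * e k i *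
        (T k i - k * len (a k i) (b k i) (zz X) ((t : ℝ) / k) / (Nat.totient q : ℝ))| ≤
        2 ^ 20 * (X : ℝ) ^ (1 - η) * (rg (zz X) k / k) := by
      intro i _
      have hb := hX1 X hXa q c hq hqB hcq t k (a k i) (b k i) ht hk1 (ha i)
      rw [abs_mul, abs_mul, abs_of_nonneg (by positivity : (0 : ℝ) ≤ 1 / (k : ℝ))]
      calc 1 / (k : ℝ) * |e k i| *
            |T k i - k * len (a k i) (b k i) (zz X) ((t : ℝ) / k) / (Nat.totient q : ℝ)|
          ≤ 1 / (k : ℝ) * (2 ^ 20 * rg (zz X) k) * (X : ℝ) ^ (1 - η) := by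
            refine mul_le_mul (mul_le_mul_of_nonneg_left (he i) (by positivity)) hb
              (abs_nonneg _) (by positivity)
        _ = 2 ^ 20 * (X : ℝ) ^ (1 - η) * (rg (zz X) k / k) := by ring
    have hJ' : (J k : ℝ) ≤ 2 ^ 22 := by exact_mod_cast hJ
    have hz : 0 ≤ 2 ^ 20 * (X : ℝ) ^ (1 - η) * (rg (zz X) k / k) := by positivity
    calc |∑ i ∈ range (J k), 1 / (k : ℝ) * e k i *
          (T k i - k * len (a k i) (b k i) (zz X) ((t : ℝ) / k) / (Nat.totient q : ℝ))|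
        ≤ ∑ i ∈ range (J k), |1 / (k : ℝ) * e k i *
          (T k i - k * len (a k i) (b k i) (zz X) ((t : ℝ) / k) / (Nat.totient q : ℝ))| :=
          Finset.abs_sum_le_sum_abs _ _
      _ ≤ ∑ i ∈ range (J k), 2 ^ 20 * (X : ℝ) ^ (1 - η) * (rg (zz X) k / k) :=
          Finset.sum_le_sum h1
      _ = (J k : ℝ) * (2 ^ 20 * (X : ℝ) ^ (1 - η) * (rg (zz X) k / k)) := by
          rw [Finset.sum_const, Finset.card_range, nsmul_eq_mul]
      _ ≤ 2 ^ 22 * (2 ^ 20 * (X : ℝ) ^ (1 - η) * (rg (zz X) k / k)) :=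
          mul_le_mul_of_nonneg_right hJ' hz
      _ = 2 ^ 42 * (X : ℝ) ^ (1 - η) * (rg (zz X) k / k) := by ring
  have hpow : (X : ℝ) ^ (1 - η) * (X : ℝ) ^ η = X := by
    rw [← Real.rpow_add hXpos]
    simp
  have hfin := hX3 X hXc
  have hsum := hX2 X hXb
  calc |∑ k ∈ Icc 1 X, ∑ i ∈ range (J k), 1 / (k : ℝ) * e k i *
        (T k i - k * len (a k i) (b k i) (zz X) ((t : ℝ) / k) / (Nat.totient q : ℝ))|
      ≤ ∑ k ∈ Icc 1 X, |∑ i ∈ range (J k), 1 / (k : ℝ) * e k i *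
        (T k i - k * len (a k i) (b k i) (zz X) ((t : ℝ) / k) / (Nat.totient q : ℝ))| :=
        Finset.abs_sum_le_sum_abs _ _
    _ ≤ ∑ k ∈ Icc 1 X, 2 ^ 42 * (X : ℝ) ^ (1 - η) * (rg (zz X) k / k) :=
        Finset.sum_le_sum hterm
    _ = 2 ^ 42 * (X : ℝ) ^ (1 - η) * ∑ k ∈ Icc 1 X, rg (zz X) k / k := by
        rw [Finset.mul_sum]
    _ ≤ 2 ^ 42 * (X : ℝ) ^ (1 - η) * C :=
        mul_le_mul_of_nonneg_left hsum (by positivity)
    _ ≤ X / (Real.log X) ^ A := by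
        rw [le_div_iff₀ (pow_pos hL A)]
        calc 2 ^ 42 * (X : ℝ) ^ (1 - η) * C * (Real.log X) ^ A
            = (X : ℝ) ^ (1 - η) * (2 ^ 42 * C * (Real.log X) ^ A) := by ring
          _ ≤ (X : ℝ) ^ (1 - η) * (X : ℝ) ^ η := mul_le_mul_of_nonneg_left hfin hY
          _ = X := hpow

end Pool.MP_dd84fd_nt.HX
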