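import Pool.Agent.Lib.MP_dd84fd_nt.HX.MjLa
import Pool.Agent.Lib.MP_dd84fd_nt.HX.DcAbs
import Pool.Agent.Lib.MP_dd84fd_nt.E2.RoughClass

/-!
# HX-MjZ (0.5 h): classes not coprime to the modulus; `rg Λ` and `f1` in the coprime classes

Proof. `non_cop`: `n ≡ c (q)`, `p ∣ (c, q)` prime: `p ∣ n`, `p ≤ q ≤ L^B`, so `p ≤ wX D' X` (`B ≤ D'`): `n` is not coprime to `primorial (wX D' X)` and `f1 = 0`; `p ≤ L^B < zz X` for `X` large, so `rg (zz X) n = 0`; `|Dn n| ≤ C rg n` (`an_abs`), so `Dn n = 0` and `aL n = 0`.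
`la_all`: `la_class (A+1, B)` with `a = 0`, `b = X`, `Y = t` if `t ≥ z`: `len 0 X z t = t - z`; `z ≤ X^(1/10)`. If `t < z`: the sum is `0` (`Λ(m) rg(m) = 0` for `m < z`) and `t/φ(q) ≤ z`. `X/L^(A+1) + X^(1/10) ≤ X/L^A`.
`f1_all`: `rough_class` (`p ∣ q → p ≤ q ≤ L^B ≤ L^D'`, `p ≤ wX D' X`), `X^(1-η) ≤ X/L^A`.
-/

set_option autoImplicit false

namespace Pool.MP_dd84fd_nt.HX

open Finset Pool.MP_67663b_nt.Odd Pool.MP_dd84fd_nt.En Pool.MP_dd84fd_nt.E2 Pool.MP_dd84fd_nt.LS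
open Pool.MP_dd84fd_nt.L2G (nrm)
open Pool.MP_dd84fd_nt.GX

private lemma mz_log_pow (C : ℝ) (K : ℕ) {ε : ℝ} (hε : 0 < ε) :
    ∃ X0 : ℕ, ∀ X : ℕ, X0 ≤ X → C * (Real.log X) ^ K ≤ (X : ℝ) ^ ε := by
  have h1 := (isLittleO_log_rpow_rpow_atTop (K : ℝ) hε).bound
    (show (0 : ℝ) < 1 / (|C| + 1) by positivity)
  have h2 := tendsto_natCast_atTop_atTop (R := ℝ) |>.eventually h1
  obtain ⟨X0, hX0⟩ := Filter.eventually_atTop.mp h2
  refine ⟨max X0 1, fun X hX => ?_⟩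
  have hX1 : (1 : ℝ) ≤ X := by exact_mod_cast (le_max_right X0 1).trans hX
  have h3 := hX0 X ((le_max_left _ _).trans hX)
  have hlog : 0 ≤ Real.log X := Real.log_nonneg hX1
  rw [Real.rpow_natCast, Real.norm_of_nonneg (pow_nonneg hlog K),
    Real.norm_of_nonneg (Real.rpow_nonneg (by linarith) ε), one_div_mul_eq_div,
    le_div_iff₀ (by positivity)] at h3
  have h4 : C * Real.log X ^ K ≤ Real.log X ^ K * (|C| + 1) := by
    have h5 : 0 ≤ Real.log X ^ K := pow_nonneg hlog K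
    have h6 := le_abs_self C
    nlinarith
  linarith

private lemma mz_log (c : ℝ) : ∃ X0 : ℕ, ∀ X : ℕ, X0 ≤ X → c ≤ Real.log X := by
  have := (Real.tendsto_log_atTop.comp tendsto_natCast_atTop_atTop).eventually_ge_atTop c
  exact Filter.eventually_atTop.mp this

private lemma mz_small (z m : ℕ) (hm : 1 ≤ m) (h : m < z) :
    rg z m * ArithmeticFunction.vonMangoldt m = 0 := by
  rcases Nat.eq_or_lt_of_le hm with h2 | h2
  · rw [← h2, ArithmeticFunction.vonMangoldt_apply_one, mul_zero]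
  · have h3 : ¬ Rgh z m := by
      intro h4
      have h5 : m.minFac ∈ m.primeFactors :=
        Nat.mem_primeFactors.2 ⟨Nat.minFac_prime (by omega), Nat.minFac_dvd m, by omega⟩
      have h6 := h4.2 _ h5
      have h7 := Nat.minFac_le (n := m) (by omega)
      omega
    unfold rg
    rw [if_neg h3, zero_mul]

private lemma mz_zz (X : ℕ) (hX : 1 ≤ X) : (X : ℝ) ^ (1 / 20 : ℝ) ≤ (zz X : ℝ) ∧
    (zz X : ℝ) ≤ 2 * (X : ℝ) ^ (1 / 20 : ℝ) := by
  have hx : (1 : ℝ) ≤ X := by exact_mod_cast hX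
  have h1 : 1 ≤ (X : ℝ) ^ (1 / 20 : ℝ) := Real.one_le_rpow hx (by norm_num)
  unfold zz
  refine ⟨Nat.le_ceil _, ?_⟩
  have h2 := Nat.ceil_lt_add_one (show 0 ≤ (X : ℝ) ^ (1 / 20 : ℝ) by linarith)
  linarith

theorem non_cop (B D' : ℕ) (hB : B ≤ D') : ∃ X0 : ℕ, ∀ X : ℕ, X0 ≤ X → ∀ δ : ℝ,
    0 < δ → δ ≤ 1 / 2000 → ∀ q c : ℕ, 1 ≤ q → (q : ℝ) ≤ (Real.log X) ^ B → ¬ Nat.Coprime c q →
    ∀ n ∈ Icc 1 X, n ≡ c [MOD q] → aL δ X n = 0 ∧ f1 (wX D' X) n = 0 := by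
  obtain ⟨X1, h1⟩ := an_abs
  obtain ⟨X2, h2⟩ := mz_log_pow 2 B (ε := 1 / 20) (by norm_num)
  obtain ⟨X3, h3⟩ := mz_log 1
  refine ⟨max X1 (max X2 (max X3 1)), ?_⟩
  intro X hX δ hδ hδ' q c hq hqL hcop n hn hnc
  simp only [max_le_iff] at hX
  obtain ⟨hXa, hXb, hXc, hXd⟩ := hX
  have hL1 : 1 ≤ Real.log X := h3 X hXc
  have hLB : 1 ≤ (Real.log X) ^ B := one_le_pow₀ hL1
  have hz := (mz_zz X hXd).1
  obtain ⟨p, hp, hpc, hpq⟩ := Nat.Prime.not_coprime_iff_dvd.1 hcop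
  have hpn : p ∣ n := (Nat.ModEq.dvd_iff hnc hpq).2 hpc
  have hpqle : p ≤ q := Nat.le_of_dvd (by omega) hpq
  have hpL : (p : ℝ) ≤ (Real.log X) ^ B := le_trans (by exact_mod_cast hpqle) hqL
  rw [mem_Icc] at hn
  have hrg : rg (zz X) n = 0 := by
    unfold rg
    rw [if_neg]
    intro hr
    have h4 := hr.2 p (Nat.mem_primeFactors.2 ⟨hp, hpn, by omega⟩)
    have h5 : (zz X : ℝ) ≤ p := by exact_mod_cast h4
    have h6 := h2 X hXb
    linarith
  refine ⟨?_, ?_⟩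
  · have h4 := (h1 X hXa δ hδ hδ' n (mem_Icc.2 hn)).1
    rw [hrg, mul_zero] at h4
    have h5 : Dn δ X n = 0 := abs_eq_zero.1 (le_antisymm h4 (abs_nonneg _))
    unfold aL
    rw [hrg, h5, zero_mul, sub_zero]
  · have hpw : p ≤ wX D' X := by
      unfold wX
      refine Nat.le_floor (hpL.trans ?_)
      exact pow_le_pow_right₀ hL1 hB
    unfold f1
    rw [if_neg]
    exact Nat.not_coprime_of_dvd_of_dvd hp.one_lt hpn
      ((hp.dvd_primorial_iff).2 hpw)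

theorem la_all (A B : ℕ) : ∃ X0 : ℕ, ∀ X : ℕ, X0 ≤ X → ∀ q c t : ℕ, 1 ≤ q →
    (q : ℝ) ≤ (Real.log X) ^ B → Nat.Coprime c q → t ≤ X →
    |∑ n ∈ (Icc 1 t).filter (fun n => n ≡ c [MOD q]),
        rg (zz X) n * ArithmeticFunction.vonMangoldt n - t / (Nat.totient q : ℝ)| ≤
      X / (Real.log X) ^ A := by
  obtain ⟨X1, h1⟩ := la_class (A + 1) B
  obtain ⟨X2, h2⟩ := mz_log_pow 4 A (ε := 19 / 20) (by norm_num)
  obtain ⟨X3, h3⟩ := mz_log 2
  refine ⟨max X1 (max X2 (max X3 1)), ?_⟩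
  intro X hX q c t hq hqL hcop htX
  simp only [max_le_iff] at hX
  obtain ⟨hXa, hXb, hXc, hXd⟩ := hX
  have hL2 : 2 ≤ Real.log X := h3 X hXc
  have hL0 : 0 < Real.log X := by linarith
  have hX0 : (0 : ℝ) < X := by exact_mod_cast (by omega : 0 < X)
  have hz2 := (mz_zz X hXd).2
  have hφ : (1 : ℝ) ≤ (Nat.totient q : ℝ) := by exact_mod_cast Nat.totient_pos.2 (by omega)
  have htX' : (t : ℝ) ≤ X := by exact_mod_cast htX
  have hzX : (zz X : ℝ) ≤ X / (2 * (Real.log X) ^ A) := by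
    rw [le_div_iff₀ (by positivity)]
    calc (zz X : ℝ) * (2 * (Real.log X) ^ A) ≤ (2 * (X : ℝ) ^ (1 / 20 : ℝ)) *
          (2 * (Real.log X) ^ A) := mul_le_mul_of_nonneg_right hz2 (by positivity)
      _ = (X : ℝ) ^ (1 / 20 : ℝ) * (4 * (Real.log X) ^ A) := by ring
      _ ≤ (X : ℝ) ^ (1 / 20 : ℝ) * (X : ℝ) ^ (19 / 20 : ℝ) :=
          mul_le_mul_of_nonneg_left (h2 X hXb) (by positivity)
      _ = X := by
          rw [← Real.rpow_add hX0]
          norm_num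
  have hXA : X / (Real.log X) ^ (A + 1) ≤ X / (2 * (Real.log X) ^ A) := by
    refine div_le_div_of_nonneg_left hX0.le (by positivity) ?_
    rw [pow_succ, mul_comm]
    exact mul_le_mul_of_nonneg_left hL2 (by positivity)
  have hsum : X / (2 * (Real.log X) ^ A) + X / (2 * (Real.log X) ^ A) = X / (Real.log X) ^ A := by
    field_simp
    ring
  rcases lt_or_ge t (zz X) with ht | ht
  · have h4 : ∑ n ∈ (Icc 1 t).filter (fun n => n ≡ c [MOD q]),
        rg (zz X) n * ArithmeticFunction.vonMangoldt n = 0 := by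
      refine Finset.sum_eq_zero fun n hn => ?_
      rw [mem_filter, mem_Icc] at hn
      exact mz_small (zz X) n hn.1.1 (by omega)
    rw [h4, zero_sub, abs_neg, abs_of_nonneg (by positivity)]
    have h5 : (t : ℝ) / (Nat.totient q : ℝ) ≤ t := div_le_self (Nat.cast_nonneg _) hφ
    have h6 : (t : ℝ) ≤ zz X := by exact_mod_cast ht.le
    have h7 : 0 ≤ X / (2 * (Real.log X) ^ A) := by positivity
    linarith
  · have h4 := h1 X hXa q c hq hqL hcop (t : ℝ) 0 (X : ℝ) (by exact_mod_cast ht) htX'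
    rw [Nat.floor_natCast] at h4
    have h5 : ∑ m ∈ (Icc 1 t).filter (fun m => m ≡ c [MOD q]),
        ArithmeticFunction.vonMangoldt m * rg (zz X) m * ind (0 < (m : ℝ) ∧ (m : ℝ) ≤ X) =
        ∑ n ∈ (Icc 1 t).filter (fun n => n ≡ c [MOD q]),
        rg (zz X) n * ArithmeticFunction.vonMangoldt n := by
      refine Finset.sum_congr rfl fun m hm => ?_
      rw [mem_filter, mem_Icc] at hm
      have h6 : ind (0 < (m : ℝ) ∧ (m : ℝ) ≤ X) = 1 := by
        unfold ind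
        rw [if_pos]
        exact ⟨by exact_mod_cast (by omega : 0 < m), by exact_mod_cast hm.1.2.trans htX⟩
      rw [h6]
      ring
    have h6 : len 0 (X : ℝ) (zz X) t = (t : ℝ) - zz X := by
      unfold len
      have a1 : (zz X : ℝ) ≤ t := by exact_mod_cast ht
      rw [min_eq_right htX', max_eq_right (Nat.cast_nonneg (zz X)), max_eq_right (by linarith)]
    rw [h5, h6] at h4
    have h7 : (t : ℝ) / (Real.log X) ^ (A + 1) ≤ X / (Real.log X) ^ (A + 1) :=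
      div_le_div_of_nonneg_right htX' (by positivity)
    have h8 : ((t : ℝ) - zz X) / (Nat.totient q : ℝ) = t / (Nat.totient q : ℝ) -
        zz X / (Nat.totient q : ℝ) := sub_div _ _ _
    have h9 : (zz X : ℝ) / (Nat.totient q : ℝ) ≤ zz X := div_le_self (Nat.cast_nonneg _) hφ
    have h10 : 0 ≤ (zz X : ℝ) / (Nat.totient q : ℝ) := by positivity
    rw [h8] at h4
    rw [abs_le] at h4 ⊢
    constructor <;> linarith [h4.1, h4.2]

theorem f1_all (A B D' : ℕ) (hD : 1 ≤ D') (hB : B ≤ D') : ∃ X0 : ℕ, ∀ X : ℕ, X0 ≤ X →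
    ∀ q c t : ℕ, 1 ≤ q → (q : ℝ) ≤ (Real.log X) ^ B → Nat.Coprime c q → t ≤ X →
    |∑ n ∈ (Icc 1 t).filter (fun n => n ≡ c [MOD q]), f1 (wX D' X) n -
      t / (Nat.totient q : ℝ)| ≤ X / (Real.log X) ^ A := by
  obtain ⟨η, hη, hη', X1, h1⟩ := rough_class D' hD
  obtain ⟨X2, h2⟩ := mz_log_pow 1 A hη
  obtain ⟨X3, h3⟩ := mz_log 1
  obtain ⟨X4, h4⟩ := mz_log_pow 1 B (ε := 1) (by norm_num)
  refine ⟨max X1 (max X2 (max X3 (max X4 1))), ?_⟩
  intro X hX q c t hq hqL hcop htX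
  simp only [max_le_iff] at hX
  obtain ⟨hXa, hXb, hXc, hXd, hXe⟩ := hX
  have hL1 : 1 ≤ Real.log X := h3 X hXc
  have hL0 : 0 < Real.log X := by linarith
  have hX0 : (0 : ℝ) < X := by exact_mod_cast (by omega : 0 < X)
  have hqX : q ≤ X := by
    have h5 := h4 X hXd
    rw [Real.rpow_one, one_mul] at h5
    exact_mod_cast hqL.trans h5
  have h6 := h1 X hXa (wX D' X) (by
    unfold wX
    exact Nat.floor_le (by positivity)) q hq hqX (by
      intro p _ hpq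
      have hpqle : p ≤ q := Nat.le_of_dvd (by omega) hpq
      unfold wX
      refine Nat.le_floor ?_
      calc (p : ℝ) ≤ q := by exact_mod_cast hpqle
        _ ≤ (Real.log X) ^ B := hqL
        _ ≤ (Real.log X) ^ D' := pow_le_pow_right₀ hL1 hB) c hcop t htX
  refine h6.trans ?_
  rw [le_div_iff₀ (by positivity)]
  have h7 := h2 X hXb
  rw [one_mul] at h7
  calc (X : ℝ) ^ (1 - η) * (Real.log X) ^ A ≤ (X : ℝ) ^ (1 - η) * (X : ℝ) ^ η :=
        mul_le_mul_of_nonneg_left h7 (by positivity)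
    _ = X := by
        rw [← Real.rpow_add hX0]
        norm_num

end Pool.MP_dd84fd_nt.HX
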