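import Pool.Agent.Lib.MP_dd84fd_nt.HX.MjE
import Pool.Agent.Lib.MP_dd84fd_nt.HX.MjD
import Pool.Agent.Lib.MP_dd84fd_nt.HX.MjWf
import Pool.Agent.Lib.MP_dd84fd_nt.HX.MjZ
import Pool.Agent.Lib.MP_dd84fd_nt.HX.MjV

/-!
# HX-MjFin (0.5 h): the major arcs, `MajH`

Proof. `D0 = B + 1`. `WH (-1) θ = Σ (an n - fa n) e(n θ)`, `an n - fa n = u n / log n`, `u = aL - (1 - wD) f1`. `class_exp`: need the class sums `≤ X/L^(A+B+1)`. Class not coprime: `non_cop`, all terms `0`.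
Coprime: `u = (rg Λ - f1) + (wD f1 - Dn)`; with the representation `VRep` of `vrep_exists`: `la_all`, `f1_all`, `wf_cls`, `dn_cls`, each with exponent `A+B+2`: the main terms cancel, total error `4 X/L^(A+B+2) ≤ X/L^(A+B+1)`.
-/

set_option autoImplicit false

namespace Pool.MP_dd84fd_nt.HX

open Finset Pool.MP_67663b_nt.Odd Pool.MP_dd84fd_nt.En Pool.MP_dd84fd_nt.E2 Pool.MP_dd84fd_nt.LS
open Pool.MP_dd84fd_nt.L2G (nrm)
open Pool.MP_dd84fd_nt.GX

theorem maj_h : MajH := by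
  intro A B
  refine ⟨B + 1, fun D' hD' δ hδ hδ2 => ?_⟩
  have hD1 : 1 ≤ D' := by omega
  have hBD : B ≤ D' := by omega
  obtain ⟨X1, h1⟩ := class_exp A B
  obtain ⟨X2, h2⟩ := non_cop B D' hBD
  obtain ⟨X3, h3⟩ := la_all (A + B + 2) B
  obtain ⟨X4, h4⟩ := f1_all (A + B + 2) B D' hD1 hBD
  obtain ⟨X5, h5⟩ := wf_cls (A + B + 2) B D' hD1 hBD
  obtain ⟨X6, h6⟩ := dn_cls (A + B + 2) B
  obtain ⟨X7, h7⟩ := vrep_exists
  obtain ⟨X8, h8⟩ := Filter.eventually_atTop.1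
    ((Real.tendsto_log_atTop.comp tendsto_natCast_atTop_atTop).eventually_ge_atTop (4 : ℝ))
  refine ⟨X1 + X2 + X3 + X4 + X5 + X6 + X7 + X8, fun X hX θ hθ => ?_⟩
  have hL : (4 : ℝ) ≤ Real.log X := h8 X (by omega)
  obtain ⟨J, e, a, b, hV⟩ := h7 X (by omega) δ
  have hX0 : (0 : ℝ) ≤ X := Nat.cast_nonneg X
  have hLp : ∀ k : ℕ, 0 < (Real.log X) ^ k := fun k => by positivity
  have hkey := h1 X (by omega)
    (fun n => aL δ X n - (1 - wD δ X n) * f1 (wX D' X) n) ?_ θ hθ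
  · have e1 : WH (-1) δ (wX D' X) X θ = ∑ n ∈ Icc 1 X,
        (((aL δ X n - (1 - wD δ X n) * f1 (wX D' X) n) / Real.log n : ℝ) : ℂ) *
          ee ((n : ℝ) * θ) := by
      unfold WH
      refine sum_congr rfl fun n _ => ?_
      have e2 : an δ X n + (-1) * fa δ X (wX D' X) n =
          (aL δ X n - (1 - wD δ X n) * f1 (wX D' X) n) / Real.log n := by
        unfold an fa
        ring
      rw [e2]
    rw [e1]
    exact hkey
  · intro q c t hq hqB ht
    by_cases hc : Nat.Coprime c q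
    · have g3 := h3 X (by omega) q c t hq hqB hc ht
      have g4 := h4 X (by omega) q c t hq hqB hc ht
      have g5 := h5 X (by omega) δ J e a b hV q c t hq hqB hc ht
      have g6 := h6 X (by omega) δ J e a b hV q c t hq hqB hc ht
      obtain ⟨S1, hS1⟩ : ∃ S : ℝ, S = ∑ n ∈ (Icc 1 t).filter (fun n => n ≡ c [MOD q]),
        rg (zz X) n * ArithmeticFunction.vonMangoldt n := ⟨_, rfl⟩
      obtain ⟨S2, hS2⟩ : ∃ S : ℝ, S = ∑ n ∈ (Icc 1 t).filter (fun n => n ≡ c [MOD q]),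
        f1 (wX D' X) n := ⟨_, rfl⟩
      obtain ⟨S3, hS3⟩ : ∃ S : ℝ, S = ∑ n ∈ (Icc 1 t).filter (fun n => n ≡ c [MOD q]),
        wD δ X n * f1 (wX D' X) n := ⟨_, rfl⟩
      obtain ⟨S4, hS4⟩ : ∃ S : ℝ, S = ∑ n ∈ (Icc 1 t).filter (fun n => n ≡ c [MOD q]),
        Dn δ X n := ⟨_, rfl⟩
      have e3 : ∑ n ∈ (Icc 1 t).filter (fun n => n ≡ c [MOD q]),
          (aL δ X n - (1 - wD δ X n) * f1 (wX D' X) n) = S1 - S2 + S3 - S4 := by
        rw [hS1, hS2, hS3, hS4, ← sum_sub_distrib, ← sum_add_distrib, ← sum_sub_distrib]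
        refine sum_congr rfl fun n _ => ?_
        unfold aL
        ring
      rw [← hS1] at g3
      rw [← hS2] at g4
      rw [← hS3] at g5
      rw [← hS4] at g6
      have e4 : 4 * ((X : ℝ) / (Real.log X) ^ (A + B + 2)) ≤
          X / (Real.log X) ^ (A + B + 1) := by
        have e5 : (Real.log X) ^ (A + B + 2) = (Real.log X) ^ (A + B + 1) * Real.log X := by
          rw [← pow_succ]
        rw [e5, ← div_div, ← mul_div_assoc]
        rw [div_le_iff₀ (by linarith)]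
        rw [mul_comm]
        exact mul_le_mul_of_nonneg_left hL (div_nonneg hX0 (hLp _).le)
      show |∑ n ∈ (Icc 1 t).filter (fun n => n ≡ c [MOD q]),
          (aL δ X n - (1 - wD δ X n) * f1 (wX D' X) n)| ≤ X / (Real.log X) ^ (A + B + 1)
      rw [e3]
      refine le_trans ?_ e4
      rw [abs_le] at g3 g4 g5 g6 ⊢
      constructor <;> linarith [g3.1, g3.2, g4.1, g4.2, g5.1, g5.2, g6.1, g6.2]
    · have e6 : ∑ n ∈ (Icc 1 t).filter (fun n => n ≡ c [MOD q]),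
          (aL δ X n - (1 - wD δ X n) * f1 (wX D' X) n) = 0 := by
        refine sum_eq_zero fun n hn => ?_
        obtain ⟨hn1, hn2⟩ := mem_filter.1 hn
        obtain ⟨hn3, hn4⟩ := mem_Icc.1 hn1
        obtain ⟨k1, k2⟩ := h2 X (by omega) δ hδ hδ2 q c hq hqB hc n
          (mem_Icc.2 ⟨hn3, hn4.trans ht⟩) hn2
        rw [k1, k2]
        ring
      show |∑ n ∈ (Icc 1 t).filter (fun n => n ≡ c [MOD q]),
          (aL δ X n - (1 - wD δ X n) * f1 (wX D' X) n)| ≤ X / (Real.log X) ^ (A + B + 1)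
      rw [e6, abs_zero]
      exact div_nonneg hX0 (hLp _).le

end Pool.MP_dd84fd_nt.HX
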