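import Pool.Agent.Lib.MP_dd84fd_nt.HX.MjV
import Pool.Agent.Lib.MP_dd84fd_nt.HX.SvRs

/-!
# HX-MjWa: `w_D` is bounded and has bounded variation
-/

set_option autoImplicit false

namespace Pool.MP_dd84fd_nt.HX

open Finset Pool.MP_67663b_nt.Odd Pool.MP_dd84fd_nt.En Pool.MP_dd84fd_nt.E2 Pool.MP_dd84fd_nt.LS
open Pool.MP_dd84fd_nt.L2G (nrm)
open Pool.MP_dd84fd_nt.GX

private theorem mw_ind_nonneg (p : Prop) : 0 ≤ ind p := by
  unfold ind
  split_ifs
  · exact zero_le_one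
  · exact le_refl _

private theorem mw_ind_le (p : Prop) : ind p ≤ 1 := by
  unfold ind
  split_ifs
  · exact le_refl _
  · exact zero_le_one

private theorem mw_ind_mono {p q : Prop} (h : p → q) : ind p ≤ ind q := by
  unfold ind
  by_cases hp : p
  · rw [if_pos hp, if_pos (h hp)]
  · rw [if_neg hp]
    split_ifs
    · exact zero_le_one
    · exact le_refl _

private theorem mw_ind_and (p q : Prop) : ind (p ∧ q) = ind p * ind q := by
  unfold ind
  by_cases hp : p
  · by_cases hq : q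
    · simp [hp, hq]
    · simp [hq]
  · simp [hp]

private theorem mw_step {S S' T T' : Prop} (h1 : S → S') (h2 : T' → T) :
    |ind (S' ∧ T') - ind (S ∧ T)| ≤ (ind S' - ind S) + (ind T - ind T') := by
  rw [mw_ind_and, mw_ind_and, abs_le]
  have a1 := mw_ind_mono h1
  have a2 := mw_ind_mono h2
  have a3 := mw_ind_nonneg S
  have a4 := mw_ind_nonneg T'
  have a5 := mw_ind_le S'
  have a6 := mw_ind_le T
  have e1 : ind S' * ind T' - ind S * ind T = ind T' * (ind S' - ind S) -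
      ind S * (ind T - ind T') := by ring
  have b1 : ind T' * (ind S' - ind S) ≤ ind S' - ind S := by
    have := mul_le_mul_of_nonneg_right ((a2.trans a6)) (sub_nonneg.2 a1)
    rwa [one_mul] at this
  have b2 : ind S * (ind T - ind T') ≤ ind T - ind T' := by
    have := mul_le_mul_of_nonneg_right ((a1.trans a5)) (sub_nonneg.2 a2)
    rwa [one_mul] at this
  have b3 : 0 ≤ ind T' * (ind S' - ind S) := mul_nonneg a4 (sub_nonneg.2 a1)
  have b4 : 0 ≤ ind S * (ind T - ind T') := mul_nonneg a3 (sub_nonneg.2 a2)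
  rw [e1]
  constructor <;> linarith

private theorem mw_var (S T : ℕ → Prop) (hS : ∀ n, S n → S (n + 1)) (hT : ∀ n, T (n + 1) → T n)
    (X : ℕ) (hX : 1 ≤ X) :
    ∑ n ∈ Ico 1 X, |ind (S (n + 1) ∧ T (n + 1)) - ind (S n ∧ T n)| ≤ 2 := by
  calc ∑ n ∈ Ico 1 X, |ind (S (n + 1) ∧ T (n + 1)) - ind (S n ∧ T n)|
      ≤ ∑ n ∈ Ico 1 X, ((ind (S (n + 1)) - ind (S n)) + (ind (T n) - ind (T (n + 1)))) :=
        Finset.sum_le_sum fun n _ => mw_step (hS n) (hT n)
    _ = (∑ n ∈ Ico 1 X, (ind (S (n + 1)) - ind (S n))) -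
        ∑ n ∈ Ico 1 X, (ind (T (n + 1)) - ind (T n)) := by
        rw [← Finset.sum_sub_distrib]
        exact Finset.sum_congr rfl fun n _ => by ring
    _ = (ind (S X) - ind (S 1)) - (ind (T X) - ind (T 1)) := by
        rw [Finset.sum_Ico_sub (fun n => ind (S n)) hX, Finset.sum_Ico_sub (fun n => ind (T n)) hX]
    _ ≤ 2 := by
        have := mw_ind_le (S X)
        have := mw_ind_nonneg (S 1)
        have := mw_ind_nonneg (T X)
        have := mw_ind_le (T 1)
        linarith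

theorem wd_abs : WDabs := by
  obtain ⟨C, X1, hC, h1⟩ := rs_all
  obtain ⟨X2, h2⟩ := vv_abs
  obtain ⟨X3, h3⟩ := vrep_exists
  refine ⟨2 ^ 43 * C, X1 + X2 + X3 + 1, fun X hX δ _ _ => ?_⟩
  have hX1 : 1 ≤ X := by omega
  have hrs := h1 X (by omega)
  have hvv := h2 X (by omega) δ
  obtain ⟨J, e, a, b, hrep⟩ := h3 X (by omega) δ
  have hrg : ∀ k, 0 ≤ rg (zz X) k / (k : ℝ) := fun k =>
    div_nonneg (rg_nonneg (zz X) k).1 (Nat.cast_nonneg k)
  constructor
  · intro n _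
    unfold wD
    rw [abs_neg]
    calc |∑ k ∈ Icc 1 X, if zz X * k ≤ n then 1 / (k : ℝ) * vv δ X ((n : ℝ) / k) k else 0|
        ≤ ∑ k ∈ Icc 1 X, |if zz X * k ≤ n then 1 / (k : ℝ) * vv δ X ((n : ℝ) / k) k else 0| :=
          Finset.abs_sum_le_sum_abs _ _
      _ ≤ ∑ k ∈ Icc 1 X, 2 ^ 22 * (rg (zz X) k / k) := by
          refine Finset.sum_le_sum fun k hk => ?_
          have hk0 : (0 : ℝ) ≤ 1 / (k : ℝ) := by positivity
          split_ifs
          · rw [abs_mul, abs_of_nonneg hk0]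
            calc 1 / (k : ℝ) * |vv δ X ((n : ℝ) / k) k|
                ≤ 1 / (k : ℝ) * (2 ^ 22 * rg (zz X) k) :=
                  mul_le_mul_of_nonneg_left (hvv _ k hk) hk0
              _ = 2 ^ 22 * (rg (zz X) k / k) := by ring
          · rw [abs_zero]
            exact mul_nonneg (by norm_num) (hrg k)
      _ = 2 ^ 22 * ∑ k ∈ Icc 1 X, rg (zz X) k / k := by rw [Finset.mul_sum]
      _ ≤ 2 ^ 22 * C := mul_le_mul_of_nonneg_left hrs (by norm_num)
      _ ≤ 2 ^ 43 * C := mul_le_mul_of_nonneg_right (by norm_num) hC.le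
  · -- the variation
    have hw : ∀ n : ℕ, wD δ X n = - ∑ k ∈ Icc 1 X, ∑ i ∈ range (J k), (1 / (k : ℝ)) * e k i *
        ind ((zz X * k ≤ n ∧ a k i < (n : ℝ) / k) ∧ (n : ℝ) / k ≤ b k i) := by
      intro n
      unfold wD
      congr 1
      refine Finset.sum_congr rfl fun k hk => ?_
      have hr := (hrep k hk).2.2.2 ((n : ℝ) / k)
      split_ifs with hz
      · rw [hr, Finset.mul_sum]
        refine Finset.sum_congr rfl fun i _ => ?_
        have : ((zz X * k ≤ n ∧ a k i < (n : ℝ) / k) ∧ (n : ℝ) / k ≤ b k i) =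
            (a k i < (n : ℝ) / k ∧ (n : ℝ) / k ≤ b k i) := by
          apply propext
          constructor
          · rintro ⟨⟨_, h4⟩, h5⟩
            exact ⟨h4, h5⟩
          · rintro ⟨h4, h5⟩
            exact ⟨⟨hz, h4⟩, h5⟩
        rw [this]
        ring
      · symm
        refine Finset.sum_eq_zero fun i _ => ?_
        have : ind ((zz X * k ≤ n ∧ a k i < (n : ℝ) / k) ∧ (n : ℝ) / k ≤ b k i) = 0 := by
          unfold ind
          rw [if_neg]
          rintro ⟨⟨h4, _⟩, _⟩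
          exact hz h4
        rw [this, mul_zero]
    have hdiff : ∀ n : ℕ, |wD δ X (n + 1) - wD δ X n| ≤ ∑ k ∈ Icc 1 X, ∑ i ∈ range (J k),
        (1 / (k : ℝ)) * |e k i| *
        |ind ((zz X * k ≤ n + 1 ∧ a k i < ((n + 1 : ℕ) : ℝ) / k) ∧ ((n + 1 : ℕ) : ℝ) / k ≤ b k i) -
          ind ((zz X * k ≤ n ∧ a k i < (n : ℝ) / k) ∧ (n : ℝ) / k ≤ b k i)| := by
      intro n
      rw [hw, hw]
      have e1 : (-∑ k ∈ Icc 1 X, ∑ i ∈ range (J k), (1 / (k : ℝ)) * e k i *
          ind ((zz X * k ≤ n + 1 ∧ a k i < ((n + 1 : ℕ) : ℝ) / k) ∧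
            ((n + 1 : ℕ) : ℝ) / k ≤ b k i)) -
          (-∑ k ∈ Icc 1 X, ∑ i ∈ range (J k), (1 / (k : ℝ)) * e k i *
          ind ((zz X * k ≤ n ∧ a k i < (n : ℝ) / k) ∧ (n : ℝ) / k ≤ b k i)) =
          -∑ k ∈ Icc 1 X, ∑ i ∈ range (J k), (1 / (k : ℝ)) * e k i *
          (ind ((zz X * k ≤ n + 1 ∧ a k i < ((n + 1 : ℕ) : ℝ) / k) ∧
            ((n + 1 : ℕ) : ℝ) / k ≤ b k i) -
          ind ((zz X * k ≤ n ∧ a k i < (n : ℝ) / k) ∧ (n : ℝ) / k ≤ b k i)) := by
        rw [neg_sub_neg, ← Finset.sum_sub_distrib, ← Finset.sum_neg_distrib]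
        refine Finset.sum_congr rfl fun k _ => ?_
        rw [← Finset.sum_sub_distrib, ← Finset.sum_neg_distrib]
        exact Finset.sum_congr rfl fun i _ => by ring
      rw [e1, abs_neg]
      refine (Finset.abs_sum_le_sum_abs _ _).trans (Finset.sum_le_sum fun k _ => ?_)
      refine (Finset.abs_sum_le_sum_abs _ _).trans (Finset.sum_le_sum fun i _ => ?_)
      rw [abs_mul, abs_mul, abs_of_nonneg (by positivity : (0 : ℝ) ≤ 1 / (k : ℝ))]
    calc ∑ n ∈ Ico 1 X, |wD δ X (n + 1) - wD δ X n|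
        ≤ ∑ n ∈ Ico 1 X, ∑ k ∈ Icc 1 X, ∑ i ∈ range (J k), (1 / (k : ℝ)) * |e k i| *
        |ind ((zz X * k ≤ n + 1 ∧ a k i < ((n + 1 : ℕ) : ℝ) / k) ∧ ((n + 1 : ℕ) : ℝ) / k ≤ b k i) -
          ind ((zz X * k ≤ n ∧ a k i < (n : ℝ) / k) ∧ (n : ℝ) / k ≤ b k i)| :=
          Finset.sum_le_sum fun n _ => hdiff n
      _ = ∑ k ∈ Icc 1 X, ∑ i ∈ range (J k), (1 / (k : ℝ)) * |e k i| * ∑ n ∈ Ico 1 X,
        |ind ((zz X * k ≤ n + 1 ∧ a k i < ((n + 1 : ℕ) : ℝ) / k) ∧ ((n + 1 : ℕ) : ℝ) / k ≤ b k i) -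
          ind ((zz X * k ≤ n ∧ a k i < (n : ℝ) / k) ∧ (n : ℝ) / k ≤ b k i)| := by
          rw [Finset.sum_comm]
          refine Finset.sum_congr rfl fun k _ => ?_
          rw [Finset.sum_comm]
          refine Finset.sum_congr rfl fun i _ => ?_
          rw [Finset.mul_sum]
      _ ≤ ∑ k ∈ Icc 1 X, ∑ i ∈ range (J k), 2 ^ 21 * (rg (zz X) k / k) := by
          refine Finset.sum_le_sum fun k hk => Finset.sum_le_sum fun i _ => ?_
          have hk1 : (0 : ℝ) < (k : ℝ) := by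
            exact_mod_cast (mem_Icc.1 hk).1
          have hv := mw_var (fun n => zz X * k ≤ n ∧ a k i < (n : ℝ) / k)
            (fun n => (n : ℝ) / k ≤ b k i) (by
              rintro n ⟨h4, h5⟩
              refine ⟨by omega, h5.trans_le ?_⟩
              push_cast
              exact div_le_div_of_nonneg_right (by linarith) hk1.le)
            (by
              intro n h4
              refine le_trans ?_ h4
              push_cast
              exact div_le_div_of_nonneg_right (by linarith) hk1.le) X hX1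
          have he := (hrep k hk).2.1 i
          have hk0 : (0 : ℝ) ≤ 1 / (k : ℝ) := by positivity
          calc (1 / (k : ℝ)) * |e k i| * ∑ n ∈ Ico 1 X,
              |ind ((zz X * k ≤ n + 1 ∧ a k i < ((n + 1 : ℕ) : ℝ) / k) ∧
                ((n + 1 : ℕ) : ℝ) / k ≤ b k i) -
                ind ((zz X * k ≤ n ∧ a k i < (n : ℝ) / k) ∧ (n : ℝ) / k ≤ b k i)|
              ≤ (1 / (k : ℝ)) * |e k i| * 2 :=
                mul_le_mul_of_nonneg_left hv (mul_nonneg hk0 (abs_nonneg _))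
            _ ≤ (1 / (k : ℝ)) * (2 ^ 20 * rg (zz X) k) * 2 := by
                refine mul_le_mul_of_nonneg_right ?_ (by norm_num)
                exact mul_le_mul_of_nonneg_left he hk0
            _ = 2 ^ 21 * (rg (zz X) k / k) := by ring
      _ ≤ ∑ k ∈ Icc 1 X, 2 ^ 43 * (rg (zz X) k / k) := by
          refine Finset.sum_le_sum fun k hk => ?_
          rw [Finset.sum_const, card_range, nsmul_eq_mul]
          have hJ : (J k : ℝ) ≤ 2 ^ 22 := by
            exact_mod_cast (hrep k hk).1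
          calc (J k : ℝ) * (2 ^ 21 * (rg (zz X) k / k))
              ≤ 2 ^ 22 * (2 ^ 21 * (rg (zz X) k / k)) :=
                mul_le_mul_of_nonneg_right hJ (mul_nonneg (by norm_num) (hrg k))
            _ = 2 ^ 43 * (rg (zz X) k / k) := by ring
      _ = 2 ^ 43 * ∑ k ∈ Icc 1 X, rg (zz X) k / k := by rw [Finset.mul_sum]
      _ ≤ 2 ^ 43 * C := mul_le_mul_of_nonneg_left hrs (by norm_num)

end Pool.MP_dd84fd_nt.HX
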