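import Pool.Agent.Lib.MP_dd84fd_nt.HX.MjV
import Pool.Agent.Lib.MP_dd84fd_nt.HX.SvRs
import Pool.Agent.Lib.MP_dd84fd_nt.E2.MinorP

/-!
# HX-MjWs (0.7 h): `w_D(n)` is small for `n > X^(1-δ)`

Proof. Let `X^(1-δ) < n ≤ X`, `1 ≤ k ≤ X`, `vv (n/k) k ≠ 0`; then `k` is rough and
`|vv (n/k) k| ≤ rg k (2^20 [n/y3 ≤ k ≤ n/y2] + Σ_{d ∣ k} ([n/y3 ≤ k/d ≤ n/y2] + [X^(1/3-7δ) ≤ k/d ≤ X^(1/3+3δ)]))`: first part `y2 < n/k ≤ y3`; second part `y2 < d n/k ≤ y3`, that is `n/y3 ≤ k/d < n/y2`;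
third part: `n/k ≤ U`, `d ≤ U`, `k/d ≤ U ≤ X^(1/3+3δ)`, so `k/d ≥ n/(U d) ≥ n/U² ≥ X^(1-δ) X^(-2/3-6δ)`.
Sum with `1/k = (1/d)(1/(k/d))`, `rg k = rg d rg (k/d)` (`rg_mul`): `|wD n| ≤ 2^20 S1 + (Σ_{d ≤ X} rg d/d)(S1 + S2)`, `S1 = Σ_{n/y3 ≤ k ≤ n/y2} rg k/k ≤ C (6 δ L + 1)/L` (`rs_sum`, `n/y3 ≥ X^(1/2-4δ) ≥ X^(1/20)`,
`y3/y2 = X^(6δ)`), `S2 = Σ_{X^(1/3-7δ) ≤ k ≤ X^(1/3+3δ)} rg k/k ≤ C (10 δ L + 1)/L`, `Σ rg d/d ≤ C` (`rs_all`). The bijection `(k, d) ↔ (d, k')`, `k = d k' ≤ X`: `Nat.sum_divisors`-type swap, or bound by the sum over all pairs.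
-/

set_option autoImplicit false

namespace Pool.MP_dd84fd_nt.HX

open Finset Pool.MP_67663b_nt.Odd Pool.MP_dd84fd_nt.En Pool.MP_dd84fd_nt.E2 Pool.MP_dd84fd_nt.LS
open Pool.MP_dd84fd_nt.L2G (nrm)
open Pool.MP_dd84fd_nt.GX

private theorem mjWs_ind_nonneg (p : Prop) : 0 ≤ ind p := by
  unfold ind
  split_ifs <;> norm_num

private theorem mjWs_ind_mono {p q : Prop} (h : p → q) : ind p ≤ ind q := by
  unfold ind
  by_cases hp : p
  · rw [if_pos hp, if_pos (h hp)]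
  · rw [if_neg hp]
    split_ifs <;> norm_num

/-- the sum over the multiples of `d` -/
private theorem mjWs_mult (d t : ℕ) (hd : 0 < d) (g : ℕ → ℝ) :
    ∑ n ∈ (Icc 1 t).filter (fun n => d ∣ n), g n = ∑ k ∈ Icc 1 (t / d), g (d * k) := by
  symm
  refine sum_bij (fun k _ => d * k) ?_ ?_ ?_ ?_
  · intro k hk
    rw [mem_Icc] at hk
    rw [mem_filter, mem_Icc]
    refine ⟨⟨Nat.mul_pos hd hk.1, ?_⟩, dvd_mul_right d k⟩
    calc d * k ≤ d * (t / d) := Nat.mul_le_mul_left d hk.2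
      _ ≤ t := Nat.mul_div_le t d
  · intro k _ k' _ h
    exact Nat.eq_of_mul_eq_mul_left hd h
  · intro n hn
    rw [mem_filter, mem_Icc] at hn
    obtain ⟨k, rfl⟩ := hn.2
    refine ⟨k, ?_, rfl⟩
    rw [mem_Icc]
    constructor
    · exact Nat.pos_of_mul_pos_left hn.1.1
    · rw [Nat.le_div_iff_mul_le hd, mul_comm]
      exact hn.1.2
  · intro k _
    rfl

private theorem mjWs_conv (X : ℕ) (f g : ℕ → ℝ) (hf : ∀ n, 0 ≤ f n) (hg : ∀ n, 0 ≤ g n) :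
    ∑ k ∈ Icc 1 X, ∑ d ∈ k.divisors, f d * g (k / d) ≤
      (∑ d ∈ Icc 1 X, f d) * ∑ k ∈ Icc 1 X, g k := by
  have h1 : ∀ k ∈ Icc 1 X, ∑ d ∈ k.divisors, f d * g (k / d) =
      ∑ d ∈ Icc 1 X, if d ∣ k then f d * g (k / d) else 0 := by
    intro k hk
    rw [mem_Icc] at hk
    rw [← Finset.sum_filter]
    refine Finset.sum_congr ?_ fun _ _ => rfl
    ext d
    rw [Nat.mem_divisors, mem_filter, mem_Icc]
    constructor
    · rintro ⟨h1, h2⟩
      exact ⟨⟨Nat.pos_of_dvd_of_pos h1 (by omega), (Nat.le_of_dvd (by omega) h1).trans hk.2⟩, h1⟩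
    · rintro ⟨-, h1⟩
      exact ⟨h1, by omega⟩
  rw [Finset.sum_congr rfl h1, Finset.sum_comm, Finset.sum_mul]
  refine Finset.sum_le_sum fun d hd => ?_
  have hd0 : 0 < d := (mem_Icc.1 hd).1
  rw [← Finset.sum_filter, mjWs_mult d X hd0 (fun k => f d * g (k / d)), ← Finset.mul_sum]
  apply mul_le_mul_of_nonneg_left _ (hf d)
  have h2 : ∀ k ∈ Icc 1 (X / d), g (d * k / d) = g k := by
    intro k _
    rw [Nat.mul_div_cancel_left k hd0]
  rw [Finset.sum_congr rfl h2]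
  apply Finset.sum_le_sum_of_subset_of_nonneg
  · apply Finset.Icc_subset_Icc le_rfl
    exact Nat.div_le_self _ _
  · intro k _ _
    exact hg k

/-- the majorant of the divisor sum -/
private noncomputable def mjG (δ : ℝ) (X : ℕ) (n : ℝ) (k : ℕ) : ℝ :=
  ind (y2 δ X < n / k ∧ n / k ≤ y3 δ X) + ind ((X : ℝ) ^ (1 / 3 - 7 * δ) ≤ k ∧ k ≤ Uu δ X)

private theorem mjG_nonneg (δ : ℝ) (X : ℕ) (n : ℝ) (k : ℕ) : 0 ≤ mjG δ X n k :=
  add_nonneg (mjWs_ind_nonneg _) (mjWs_ind_nonneg _)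

private theorem mjWs_U (δ : ℝ) (X : ℕ) : (Uu δ X : ℝ) ≤ (X : ℝ) ^ (1 / 3 + 3 * δ) :=
  Nat.floor_le (by positivity)

private theorem mjWs_vv (δ : ℝ) (X k : ℕ) (hX : 1 ≤ X) (n : ℝ) (hn : (X : ℝ) ^ (1 - δ) < n)
    (hk : 1 ≤ k) (hc : Rgh (zz X) k → k.divisors.card ≤ 2 ^ 20) :
    |vv δ X (n / k) k| ≤ rg (zz X) k * (2 ^ 20 * ind (y2 δ X < n / k ∧ n / k ≤ y3 δ X) +
      ∑ d ∈ k.divisors, mjG δ X n (k / d)) := by
  have hX0 : (0 : ℝ) < X := by exact_mod_cast hX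
  by_cases hr : Rgh (zz X) k
  swap
  · have h0 : rg (zz X) k = 0 := if_neg hr
    unfold vv
    rw [h0, zero_mul, zero_mul, abs_zero]
  unfold vv
  rw [abs_mul, abs_of_nonneg (rg_nonneg (zz X) k).1]
  apply mul_le_mul_of_nonneg_left _ (rg_nonneg (zz X) k).1
  refine (abs_add_le _ _).trans (add_le_add ?_ ?_)
  · rw [abs_mul, abs_neg, abs_of_nonneg (mjWs_ind_nonneg _)]
    apply mul_le_mul _ (mjWs_ind_mono fun h => ⟨h.1, h.2.1⟩) (mjWs_ind_nonneg _) (by positivity)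
    refine (c2_le _ _).trans ?_
    exact_mod_cast hc hr
  · refine (Finset.abs_sum_le_sum_abs _ _).trans ?_
    refine le_trans (Finset.sum_le_sum (g := fun d => mjG δ X n (k / d)) fun d hd => ?_)
      (Finset.sum_le_sum_of_subset_of_nonneg (Finset.filter_subset _ _)
        fun d _ _ => mjG_nonneg δ X n (k / d))
    rw [mem_filter] at hd
    obtain ⟨hd1, hdU⟩ := hd
    have hdk : d * (k / d) = k := Nat.mul_div_cancel' (Nat.dvd_of_mem_divisors hd1)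
    have hd0 : 0 < d := Nat.pos_of_mem_divisors hd1
    have hk'0 : 0 < k / d := by
      rcases Nat.eq_zero_or_pos (k / d) with h | h
      · rw [h, mul_zero] at hdk
        omega
      · exact h
    have hdr : (0 : ℝ) < d := by exact_mod_cast hd0
    have hkr : (0 : ℝ) < ((k / d : ℕ) : ℝ) := by exact_mod_cast hk'0
    have hkk : (k : ℝ) = d * ((k / d : ℕ) : ℝ) := by
      rw [← Nat.cast_mul, hdk]
    have hm : (d : ℝ) * (n / k) = n / ((k / d : ℕ) : ℝ) := by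
      rw [hkk]
      field_simp
    rw [abs_mul]
    have hmu : |((ArithmeticFunction.moebius d : ℤ) : ℝ)| ≤ 1 := mr_le d
    have hnn : 0 ≤ ind (n / k ≤ Uu δ X ∧ y2 δ X < d * (n / k) ∧ d * (n / k) ≤ y3 δ X) +
        ind (n / k ≤ Uu δ X ∧ y3 δ X < d * (n / k) ∧ k / d ≤ Uu δ X) :=
      add_nonneg (mjWs_ind_nonneg _) (mjWs_ind_nonneg _)
    rw [abs_of_nonneg hnn]
    refine (mul_le_of_le_one_left hnn hmu).trans ?_
    unfold mjG
    apply add_le_add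
    · apply mjWs_ind_mono
      rintro ⟨-, h2, h3⟩
      rw [hm] at h2 h3
      exact ⟨h2, h3⟩
    · apply mjWs_ind_mono
      rintro ⟨h1, -, h3⟩
      refine ⟨?_, h3⟩
      have hU := mjWs_U δ X
      have hU0 : (0 : ℝ) ≤ Uu δ X := Nat.cast_nonneg _
      have hdU' : (d : ℝ) ≤ Uu δ X := by exact_mod_cast hdU
      have hk0 : (0 : ℝ) < k := by exact_mod_cast hk
      rw [div_le_iff₀ hk0, hkk] at h1
      have h4 : n ≤ (X : ℝ) ^ (2 / 3 + 6 * δ) * ((k / d : ℕ) : ℝ) := by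
        calc n ≤ (Uu δ X : ℝ) * (d * ((k / d : ℕ) : ℝ)) := h1
          _ ≤ (X : ℝ) ^ (1 / 3 + 3 * δ) * ((X : ℝ) ^ (1 / 3 + 3 * δ) * ((k / d : ℕ) : ℝ)) := by
              apply mul_le_mul hU _ (by positivity) (by positivity)
              exact mul_le_mul_of_nonneg_right (hdU'.trans hU) hkr.le
          _ = (X : ℝ) ^ (2 / 3 + 6 * δ) * ((k / d : ℕ) : ℝ) := by
              rw [← mul_assoc, ← Real.rpow_add hX0]
              congr 2
              ring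
      have h5 : (X : ℝ) ^ (2 / 3 + 6 * δ) * (X : ℝ) ^ (1 / 3 - 7 * δ) ≤
          (X : ℝ) ^ (2 / 3 + 6 * δ) * ((k / d : ℕ) : ℝ) := by
        rw [← Real.rpow_add hX0]
        refine le_trans (le_of_eq ?_) (hn.le.trans h4)
        congr 1
        ring
      exact le_of_mul_le_mul_left h5 (by positivity)

theorem wd_small : ∃ C : ℝ, 0 < C ∧ ∀ δ : ℝ, 0 < δ → δ ≤ 1 / 2000 → ∃ X0 : ℕ, ∀ X : ℕ, X0 ≤ X →
    ∀ n : ℕ, n ≤ X → (X : ℝ) ^ (1 - δ) < n → |wD δ X n| ≤ C * (δ + 1 / Real.log X) := by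
  classical
  obtain ⟨X1, hdiv⟩ := rg_divisors
  obtain ⟨C1, X2, hC1, hsum⟩ := rs_sum
  obtain ⟨C2, X3, hC2, hall⟩ := rs_all
  obtain ⟨X4, hlog⟩ := MP_log_large 1
  refine ⟨(2 ^ 20 + C2) * (6 * C1) + C2 * (10 * C1), by positivity, fun δ hδ hδ' =>
    ⟨max (max X1 X2) (max X3 (max X4 1)), fun X hX n hnX hn => ?_⟩⟩
  simp only [max_le_iff] at hX
  obtain ⟨⟨hX1, hX2⟩, hX3, hX4, hXone⟩ := hX
  have hX0 : (0 : ℝ) < X := by exact_mod_cast hXone
  have hX1r : (1 : ℝ) ≤ X := by exact_mod_cast hXone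
  have hL := hlog X hX4
  set L := Real.log X with hLdef
  have hL0 : 0 < L := by linarith
  have hn0 : (0 : ℝ) < n := lt_trans (by positivity) hn
  have hy2 : 0 < y2 δ X := by unfold y2; positivity
  have hy3 : 0 < y3 δ X := by unfold y3; positivity
  have hrg0 : ∀ k : ℕ, 0 ≤ rg (zz X) k / k := fun k =>
    div_nonneg (rg_nonneg _ _).1 (Nat.cast_nonneg k)
  -- the three sums
  have hS1 : ∑ k ∈ Icc 1 X, rg (zz X) k / k * ind (y2 δ X < (n : ℝ) / k ∧ (n : ℝ) / k ≤ y3 δ X) ≤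
      6 * C1 * (δ + 1 / L) := by
    have hA : (X : ℝ) ^ (1 / 20 : ℝ) ≤ (n : ℝ) / y3 δ X := by
      rw [le_div_iff₀ hy3]
      unfold y3
      rw [← Real.rpow_add hX0]
      refine le_trans ?_ hn.le
      apply Real.rpow_le_rpow_of_exponent_le hX1r
      linarith
    have hAB : (n : ℝ) / y3 δ X ≤ (n : ℝ) / y2 δ X := by
      apply div_le_div_of_nonneg_left hn0.le hy2
      unfold y2 y3
      apply Real.rpow_le_rpow_of_exponent_le hX1r
      linarith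
    have h1 := hsum X hX2 _ _ hA hAB
    have h2 : (n : ℝ) / y2 δ X / ((n : ℝ) / y3 δ X) = (X : ℝ) ^ (6 * δ) := by
      have h3 : (n : ℝ) / y2 δ X / ((n : ℝ) / y3 δ X) = y3 δ X / y2 δ X := by
        field_simp
      rw [h3]
      unfold y2 y3
      rw [← Real.rpow_sub hX0]
      congr 1
      ring
    rw [h2, Real.log_rpow hX0] at h1
    refine le_trans ?_ (h1.trans ?_)
    · have h3 : ∀ k ∈ Icc 1 X,
          rg (zz X) k / k * ind (y2 δ X < (n : ℝ) / k ∧ (n : ℝ) / k ≤ y3 δ X) =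
          if (y2 δ X < (n : ℝ) / k ∧ (n : ℝ) / k ≤ y3 δ X) then rg (zz X) k / k else 0 := by
        intro k _
        unfold ind
        split_ifs
        · rw [mul_one]
        · rw [mul_zero]
      rw [Finset.sum_congr rfl h3, ← Finset.sum_filter]
      apply Finset.sum_le_sum_of_subset_of_nonneg
      · intro k hk
        rw [mem_filter, mem_Icc] at hk
        obtain ⟨⟨hk1, hk2⟩, hk3, hk4⟩ := hk
        have hk0 : (0 : ℝ) < k := by exact_mod_cast hk1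
        rw [mem_filter, mem_Icc]
        refine ⟨⟨hk1, ?_⟩, ?_⟩
        · apply Nat.le_floor
          rw [le_div_iff₀ hy2]
          rw [lt_div_iff₀ hk0] at hk3
          linarith
        · rw [div_le_iff₀ hy3]
          rw [div_le_iff₀ hk0] at hk4
          linarith
      · intro k _ _
        exact hrg0 k
    · rw [div_le_iff₀ hL0]
      have h5 : 6 * C1 * (δ + 1 / L) * L = 6 * C1 * (δ * L) + 6 * C1 := by
        field_simp
      rw [h5]
      nlinarith [hC1, hL0, hδ]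
  have hS2 : ∑ k ∈ Icc 1 X, rg (zz X) k / k *
      ind ((X : ℝ) ^ (1 / 3 - 7 * δ) ≤ k ∧ k ≤ Uu δ X) ≤ 10 * C1 * (δ + 1 / L) := by
    have hA : (X : ℝ) ^ (1 / 20 : ℝ) ≤ (X : ℝ) ^ (1 / 3 - 7 * δ) := by
      apply Real.rpow_le_rpow_of_exponent_le hX1r
      linarith
    have hAB : (X : ℝ) ^ (1 / 3 - 7 * δ) ≤ (X : ℝ) ^ (1 / 3 + 3 * δ) := by
      apply Real.rpow_le_rpow_of_exponent_le hX1r
      linarith
    have h1 := hsum X hX2 _ _ hA hAB
    have h2 : (X : ℝ) ^ (1 / 3 + 3 * δ) / (X : ℝ) ^ (1 / 3 - 7 * δ) = (X : ℝ) ^ (10 * δ) := by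
      rw [← Real.rpow_sub hX0]
      congr 1
      ring
    rw [h2, Real.log_rpow hX0] at h1
    refine le_trans ?_ (h1.trans ?_)
    · have h3 : ∀ k ∈ Icc 1 X,
          rg (zz X) k / k * ind ((X : ℝ) ^ (1 / 3 - 7 * δ) ≤ k ∧ k ≤ Uu δ X) =
          if ((X : ℝ) ^ (1 / 3 - 7 * δ) ≤ k ∧ k ≤ Uu δ X) then rg (zz X) k / k else 0 := by
        intro k _
        unfold ind
        split_ifs
        · rw [mul_one]
        · rw [mul_zero]
      rw [Finset.sum_congr rfl h3, ← Finset.sum_filter]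
      apply Finset.sum_le_sum_of_subset_of_nonneg
      · intro k hk
        rw [mem_filter, mem_Icc] at hk
        obtain ⟨⟨hk1, hk2⟩, hk3, hk4⟩ := hk
        rw [mem_filter, mem_Icc]
        exact ⟨⟨hk1, hk4⟩, hk3⟩
      · intro k _ _
        exact hrg0 k
    · rw [div_le_iff₀ hL0]
      have h5 : 10 * C1 * (δ + 1 / L) * L = 10 * C1 * (δ * L) + 10 * C1 := by
        field_simp
      rw [h5]
      nlinarith [hC1, hL0, hδ]
  have hS3 := hall X hX3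
  -- the majorant
  have hmaj : |wD δ X n| ≤ ∑ k ∈ Icc 1 X, (2 ^ 20 * (rg (zz X) k / k *
      ind (y2 δ X < (n : ℝ) / k ∧ (n : ℝ) / k ≤ y3 δ X)) +
      ∑ d ∈ k.divisors, (rg (zz X) d / d) * (rg (zz X) (k / d) / ((k / d : ℕ) : ℝ) *
        mjG δ X n (k / d))) := by
    unfold wD
    rw [abs_neg]
    refine (Finset.abs_sum_le_sum_abs _ _).trans (Finset.sum_le_sum fun k hk => ?_)
    have hk1 := (mem_Icc.1 hk).1
    have hk0 : (0 : ℝ) < k := by exact_mod_cast hk1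
    have hnn : 0 ≤ 2 ^ 20 * (rg (zz X) k / k *
        ind (y2 δ X < (n : ℝ) / k ∧ (n : ℝ) / k ≤ y3 δ X)) +
        ∑ d ∈ k.divisors, (rg (zz X) d / d) * (rg (zz X) (k / d) / ((k / d : ℕ) : ℝ) *
        mjG δ X n (k / d)) := by
      apply add_nonneg
      · exact mul_nonneg (by positivity) (mul_nonneg (hrg0 k) (mjWs_ind_nonneg _))
      · exact Finset.sum_nonneg fun d _ =>
          mul_nonneg (hrg0 d) (mul_nonneg (hrg0 _) (mjG_nonneg _ _ _ _))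
    split_ifs with hz
    · rw [abs_mul, abs_of_nonneg (by positivity)]
      refine (mul_le_mul_of_nonneg_left (mjWs_vv δ X k hXone n hn hk1
        (fun h => hdiv X hX1 k hk h)) (by positivity)).trans (le_of_eq ?_)
      rw [mul_add, mul_add]
      congr 1
      · ring
      · rw [Finset.mul_sum, Finset.mul_sum]
        refine Finset.sum_congr rfl fun d hd => ?_
        have hdk : d * (k / d) = k := Nat.mul_div_cancel' (Nat.dvd_of_mem_divisors hd)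
        have hr : rg (zz X) k = rg (zz X) d * rg (zz X) (k / d) := by
          rw [← rg_mul, hdk]
        have hkk : (k : ℝ) = d * ((k / d : ℕ) : ℝ) := by
          rw [← Nat.cast_mul, hdk]
        rw [hr, hkk]
        have hd0 : (d : ℝ) ≠ 0 := by
          intro h
          rw [h, zero_mul] at hkk
          linarith
        have hk'0 : ((k / d : ℕ) : ℝ) ≠ 0 := by
          intro h
          rw [h, mul_zero] at hkk
          linarith
        field_simp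
    · rw [abs_zero]
      exact hnn
  refine hmaj.trans ?_
  rw [Finset.sum_add_distrib, ← Finset.mul_sum]
  have hconv := mjWs_conv X (fun d => rg (zz X) d / d)
    (fun k => rg (zz X) k / (k : ℝ) * mjG δ X n k) hrg0
    (fun k => mul_nonneg (hrg0 k) (mjG_nonneg _ _ _ _))
  have hG : ∑ k ∈ Icc 1 X, rg (zz X) k / (k : ℝ) * mjG δ X n k ≤
      6 * C1 * (δ + 1 / L) + 10 * C1 * (δ + 1 / L) := by
    unfold mjG
    refine le_trans (le_of_eq ?_) (add_le_add hS1 hS2)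
    rw [← Finset.sum_add_distrib]
    refine Finset.sum_congr rfl fun k _ => ?_
    ring
  have hG0 : 0 ≤ ∑ k ∈ Icc 1 X, rg (zz X) k / (k : ℝ) * mjG δ X n k :=
    Finset.sum_nonneg fun k _ => mul_nonneg (hrg0 k) (mjG_nonneg _ _ _ _)
  have h6 : (∑ d ∈ Icc 1 X, rg (zz X) d / d) *
      ∑ k ∈ Icc 1 X, rg (zz X) k / (k : ℝ) * mjG δ X n k ≤
      C2 * (6 * C1 * (δ + 1 / L) + 10 * C1 * (δ + 1 / L)) :=
    mul_le_mul hS3 hG hG0 hC2.le
  have h7 : 2 ^ 20 * ∑ k ∈ Icc 1 X, rg (zz X) k / k *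
      ind (y2 δ X < (n : ℝ) / k ∧ (n : ℝ) / k ≤ y3 δ X) ≤ 2 ^ 20 * (6 * C1 * (δ + 1 / L)) :=
    mul_le_mul_of_nonneg_left hS1 (by positivity)
  calc 2 ^ 20 * ∑ k ∈ Icc 1 X, rg (zz X) k / k *
      ind (y2 δ X < (n : ℝ) / k ∧ (n : ℝ) / k ≤ y3 δ X) +
      ∑ k ∈ Icc 1 X, ∑ d ∈ k.divisors, (rg (zz X) d / d) *
        (rg (zz X) (k / d) / ((k / d : ℕ) : ℝ) * mjG δ X n (k / d))
      ≤ 2 ^ 20 * (6 * C1 * (δ + 1 / L)) +
        C2 * (6 * C1 * (δ + 1 / L) + 10 * C1 * (δ + 1 / L)) := add_le_add h7 (hconv.trans h6)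
    _ = ((2 ^ 20 + C2) * (6 * C1) + C2 * (10 * C1)) * (δ + 1 / L) := by ring

end Pool.MP_dd84fd_nt.HX
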