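import Pool.Agent.Lib.MP_dd84fd_nt.HX.MnA
import Pool.Agent.Lib.MP_dd84fd_nt.HX.MjWa
import Pool.Agent.Lib.MP_dd84fd_nt.HX.MjWs
import Pool.Agent.Lib.MP_dd84fd_nt.E2.FBound
import Pool.Agent.Lib.MP_dd84fd_nt.E2.SingRate

/-!
# HX-MnB (0.7 h): the main term, `MainH`

Proof. `fa = (1 - wD) f2`, `f2 = f1/log`, so `cvv fa fa n - conv2 w n = Σ_{m=1}^{n-1} ((1 - wD m)(1 - wD (n-m)) - 1) f2 m f2 (n-m)`, `f2 ≥ 0`, `f2 ≤ 2 L` (`f1_le`: `f1 ≤ L`, `log n ≥ 1/2` for `n ≥ 2`, `f2 w 1 = 0`).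
If `m, n - m > X^(1-δ)`: `|...| ≤ 2 C ε + C² ε²`, `ε = δ + 1/L ≤ 2` (`wd_small`), so `≤ C' ε`. Otherwise (at most `2 X^(1-δ) + 2` values of `m`) `|...| ≤ (1 + C)² + 1` (`wd_abs`), term `≤ C'' L²`.
So `|cvv fa fa n - conv2| ≤ C' ε conv2 n + C'' L² (2 X^(1-δ) + 2)`; with `conv2_ss (A := 12)`: `conv2 ≤ SS JJ + X/L^12`, total `|cvv fa fa n - SS JJ| ≤ C' ε SS JJ + (C' ε + 1) X/L^12 + ... ≤ C' ε SS JJ + X/L^10`.
-/

set_option autoImplicit false

namespace Pool.MP_dd84fd_nt.HX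

open Finset Pool.MP_67663b_nt.Odd Pool.MP_dd84fd_nt.En Pool.MP_dd84fd_nt.E2 Pool.MP_dd84fd_nt.LS
open Pool.MP_dd84fd_nt.L2G (nrm)
open Pool.MP_dd84fd_nt.GX

theorem mnb_count1 (T : ℝ) (hT : 0 ≤ T) (n : ℕ) :
    (((Icc 1 (n - 1)).filter (fun m : ℕ => (m : ℝ) ≤ T)).card : ℝ) ≤ T := by
  have h : (Icc 1 (n - 1)).filter (fun m : ℕ => (m : ℝ) ≤ T) ⊆ Icc 1 ⌊T⌋₊ := by
    intro m hm
    rw [mem_filter, mem_Icc] at hm
    exact mem_Icc.2 ⟨hm.1.1, Nat.le_floor hm.2⟩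
  have h2 := Finset.card_le_card h
  rw [Nat.card_Icc, Nat.add_sub_cancel] at h2
  have h3 : (⌊T⌋₊ : ℝ) ≤ T := Nat.floor_le hT
  exact le_trans (by exact_mod_cast h2) h3

theorem mnb_count2 (T : ℝ) (hT : 0 ≤ T) (n : ℕ) :
    (((Icc 1 (n - 1)).filter (fun m : ℕ => ((n - m : ℕ) : ℝ) ≤ T)).card : ℝ) ≤ T := by
  have h2 : ((Icc 1 (n - 1)).filter (fun m : ℕ => ((n - m : ℕ) : ℝ) ≤ T)).card ≤
      (Icc 1 ⌊T⌋₊).card := by
    refine Finset.card_le_card_of_injOn (fun m => n - m) ?_ ?_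
    · intro m hm
      rw [mem_coe, mem_filter, mem_Icc] at hm
      have h1 : 1 ≤ n - m := by omega
      exact mem_coe.2 (mem_Icc.2 ⟨h1, Nat.le_floor hm.2⟩)
    · intro m hm m' hm' h
      rw [mem_coe, mem_filter, mem_Icc] at hm hm'
      have h4 : n - m = n - m' := h
      omega
  rw [Nat.card_Icc, Nat.add_sub_cancel] at h2
  have h3 : (⌊T⌋₊ : ℝ) ≤ T := Nat.floor_le hT
  exact le_trans (by exact_mod_cast h2) h3

theorem mnb_f2_nonneg (w n : ℕ) : 0 ≤ f2 w n := by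
  unfold f2
  exact div_nonneg (f1_nonneg w n) (Real.log_natCast_nonneg _)

theorem mnb_f2_le (w n : ℕ) (L : ℝ) (hL : 0 ≤ L) (h : f1 w n ≤ L) : f2 w n ≤ 2 * L := by
  unfold f2
  rcases Nat.lt_or_ge n 2 with h1 | h1
  · have h2 : Real.log (n : ℝ) = 0 := by
      have : n = 0 ∨ n = 1 := by omega
      rcases this with h0 | h0 <;> subst h0 <;> simp
    rw [h2, div_zero]
    linarith
  · have h2 : Real.log 2 ≤ Real.log (n : ℝ) :=
      Real.log_le_log (by norm_num) (by exact_mod_cast h1)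
    have h3 := Real.log_two_gt_d9
    have h4 : 1 / 2 ≤ Real.log (n : ℝ) := by linarith
    rw [div_le_iff₀ (by linarith)]
    nlinarith

theorem mnb_pair (a b e : ℝ) (ha : |a| ≤ e) (hb : |b| ≤ e) :
    |(1 - a) * (1 - b) - 1| ≤ 2 * e + e ^ 2 := by
  have he : 0 ≤ e := (abs_nonneg a).trans ha
  calc |(1 - a) * (1 - b) - 1| = |a * b - (a + b)| := by congr 1; ring
    _ ≤ |a * b| + |a + b| := abs_sub _ _
    _ ≤ |a| * |b| + (|a| + |b|) := by rw [abs_mul]; gcongr; exact abs_add_le _ _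
    _ ≤ e * e + (e + e) := by gcongr
    _ = 2 * e + e ^ 2 := by ring

theorem mnb_sum (n : ℕ) (v F : ℕ → ℝ) (e K B T : ℝ) (hT : 0 ≤ T) (hK0 : 0 ≤ K) (hB0 : 0 ≤ B)
    (he0 : 0 ≤ e)
    (hF0 : ∀ m, 0 ≤ F m) (hFB : ∀ m, F m ≤ B) (hK : ∀ m ∈ Icc 1 (n - 1), |v m| ≤ K)
    (he : ∀ m ∈ Icc 1 (n - 1), T < (m : ℝ) → |v m| ≤ e) :
    |∑ m ∈ Icc 1 (n - 1), ((1 - v m) * F m) * ((1 - v (n - m)) * F (n - m)) -
      ∑ m ∈ Icc 1 (n - 1), F m * F (n - m)| ≤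
      (2 * e + e ^ 2) * ∑ m ∈ Icc 1 (n - 1), F m * F (n - m) +
        2 * T * ((2 * K + K ^ 2) * (B * B)) := by
  set W : ℝ := (2 * K + K ^ 2) * (B * B) with hW
  have hW0 : 0 ≤ W := by rw [hW]; positivity
  rw [← Finset.sum_sub_distrib]
  refine (Finset.abs_sum_le_sum_abs _ _).trans ?_
  have hterm : ∀ m ∈ Icc 1 (n - 1),
      |((1 - v m) * F m) * ((1 - v (n - m)) * F (n - m)) - F m * F (n - m)| ≤
      (2 * e + e ^ 2) * (F m * F (n - m)) + ((if (m : ℝ) ≤ T then W else 0) +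
        (if ((n - m : ℕ) : ℝ) ≤ T then W else 0)) := by
    intro m hm
    have hm1 := mem_Icc.1 hm
    have hnm : n - m ∈ Icc 1 (n - 1) := mem_Icc.2 ⟨by omega, by omega⟩
    have hFF : 0 ≤ F m * F (n - m) := mul_nonneg (hF0 _) (hF0 _)
    have h1 : |((1 - v m) * F m) * ((1 - v (n - m)) * F (n - m)) - F m * F (n - m)| =
        |(1 - v m) * (1 - v (n - m)) - 1| * (F m * F (n - m)) := by
      rw [← abs_of_nonneg hFF, ← abs_mul, abs_of_nonneg hFF]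
      congr 1
      ring
    rw [h1]
    have h0 : 0 ≤ (2 * e + e ^ 2) * (F m * F (n - m)) := by positivity
    have hbig : |(1 - v m) * (1 - v (n - m)) - 1| * (F m * F (n - m)) ≤ W := by
      rw [hW]
      exact mul_le_mul (mnb_pair _ _ K (hK m hm) (hK _ hnm))
        (mul_le_mul (hFB _) (hFB _) (hF0 _) hB0) hFF (by positivity)
    by_cases ha : (m : ℝ) ≤ T
    · rw [if_pos ha]
      have : 0 ≤ (if ((n - m : ℕ) : ℝ) ≤ T then W else 0) := by split_ifs <;> linarith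
      linarith
    · by_cases hb : ((n - m : ℕ) : ℝ) ≤ T
      · rw [if_neg ha, if_pos hb]
        linarith
      · rw [if_neg ha, if_neg hb, add_zero, add_zero]
        exact mul_le_mul_of_nonneg_right
          (mnb_pair _ _ e (he m hm (not_le.1 ha)) (he _ hnm (not_le.1 hb))) hFF
  refine (Finset.sum_le_sum hterm).trans ?_
  rw [Finset.sum_add_distrib, Finset.sum_add_distrib, ← Finset.mul_sum, ← Finset.sum_filter,
    ← Finset.sum_filter, Finset.sum_const, Finset.sum_const, nsmul_eq_mul, nsmul_eq_mul]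
  have h1 := mul_le_mul_of_nonneg_right (mnb_count1 T hT n) hW0
  have h2 := mul_le_mul_of_nonneg_right (mnb_count2 T hT n) hW0
  linarith

theorem main_h : MainH := by
  obtain ⟨Cw, Xw, hw⟩ := wd_abs
  obtain ⟨Cs, hCs, hs⟩ := wd_small
  obtain ⟨D0, hD0, hcs⟩ := conv2_ss 12
  refine ⟨2 * Cs + 2 * Cs ^ 2, D0, ?_⟩
  intro δ hδ hδ' D' hD'
  obtain ⟨X1, hX1⟩ := hs δ hδ hδ'
  obtain ⟨X2, hX2⟩ := hcs D' hD'
  obtain ⟨X3, hX3⟩ := f1_le D'
  set K : ℝ := max Cw 0 with hKd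
  have hK0 : 0 ≤ K := le_max_right _ _
  set C' : ℝ := 2 * Cs + 2 * Cs ^ 2 with hC'
  have hC'0 : 0 ≤ C' := by rw [hC']; positivity
  obtain ⟨X4, hX4⟩ := MP_log_pow (16 * (2 * K + K ^ 2)) 12 hδ
  obtain ⟨X5, hX5⟩ := MP_log_large (4 * C' + 3)
  refine ⟨max (max (max Xw X1) (max X2 X3)) (max (max X4 X5) 3), ?_⟩
  intro X hX n hn hnX hev
  have e1 : Xw ≤ X := by omega
  have e2 : X1 ≤ X := by omega
  have e3 : X2 ≤ X := by omega
  have e4 : X3 ≤ X := by omega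
  have e5 : X4 ≤ X := by omega
  have e6 : X5 ≤ X := by omega
  have e7 : 3 ≤ X := by omega
  set L := Real.log (X : ℝ) with hL
  set w := wX D' X with hwd
  have hL3 : 4 * C' + 3 ≤ L := hX5 X e6
  have hL1 : 1 ≤ L := by linarith
  have hXp : (0 : ℝ) < X := by
    have : (3 : ℝ) ≤ X := by exact_mod_cast e7
    linarith
  have hwL : (w : ℝ) ≤ L ^ D' := by
    rw [hwd]
    unfold wX
    exact Nat.floor_le (pow_nonneg (by linarith) _)
  have hf1 : ∀ m, f1 w m ≤ L := (hX3 X e4 w hwL).2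
  have hwa := (hw X e1 δ hδ hδ').1
  have hc := hX2 X e3 n (by omega) hnX hev
  set ε : ℝ := δ + 1 / L with hε
  have hε0 : 0 < ε := by positivity
  have hε2 : ε ≤ 2 := by
    have : 1 / L ≤ 1 := by rw [div_le_one (by linarith)]; exact hL1
    rw [hε]
    linarith
  set T : ℝ := (X : ℝ) ^ (1 - δ) with hT
  have hT0 : 0 ≤ T := by rw [hT]; positivity
  have hsum := mnb_sum n (wD δ X) (f2 w) (Cs * ε) K (2 * L) T hT0 hK0 (by linarith)
    (by positivity) (mnb_f2_nonneg w) (fun m => mnb_f2_le w m L (by linarith) (hf1 m))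
    (fun m hm => (hwa m (mem_Icc.2 ⟨(mem_Icc.1 hm).1, by
      have := (mem_Icc.1 hm).2
      omega⟩)).trans (le_max_left _ _))
    (fun m hm hTm => hX1 X e2 m (by
      have := (mem_Icc.1 hm).2
      omega) hTm)
  have hcv : cvv (fa δ X w) (fa δ X w) n =
      ∑ m ∈ Icc 1 (n - 1), ((1 - wD δ X m) * f2 w m) * ((1 - wD δ X (n - m)) * f2 w (n - m)) := by
    unfold cvv fa f2
    refine Finset.sum_congr rfl fun m _ => ?_
    rw [mul_div_assoc, mul_div_assoc]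
  have hc2 : conv2 w n = ∑ m ∈ Icc 1 (n - 1), f2 w m * f2 w (n - m) := rfl
  rw [← hcv, ← hc2] at hsum
  have hc20 : 0 ≤ conv2 w n := by
    rw [hc2]
    exact Finset.sum_nonneg fun m _ => mul_nonneg (mnb_f2_nonneg _ _) (mnb_f2_nonneg _ _)
  have hce : 2 * (Cs * ε) + (Cs * ε) ^ 2 ≤ C' * ε := by
    rw [hC']
    have : Cs ^ 2 * ε * ε ≤ Cs ^ 2 * ε * 2 := mul_le_mul_of_nonneg_left hε2 (by positivity)
    nlinarith
  have hc3 := abs_le.1 hc
  have hup : conv2 w n ≤ SS n * JJ n + X / L ^ 12 := by linarith [hc3.2]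
  have hXL : 0 ≤ (X : ℝ) / L ^ 12 := by positivity
  have h1 : (2 * (Cs * ε) + (Cs * ε) ^ 2) * conv2 w n ≤
      C' * ε * (SS n * JJ n) + 2 * C' * (X / L ^ 12) := by
    calc (2 * (Cs * ε) + (Cs * ε) ^ 2) * conv2 w n ≤ C' * ε * conv2 w n :=
          mul_le_mul_of_nonneg_right hce hc20
      _ ≤ C' * ε * (SS n * JJ n + X / L ^ 12) :=
          mul_le_mul_of_nonneg_left hup (by positivity)
      _ = C' * ε * (SS n * JJ n) + C' * ε * (X / L ^ 12) := by ring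
      _ ≤ C' * ε * (SS n * JJ n) + 2 * C' * (X / L ^ 12) := by
          have : C' * ε * (X / L ^ 12) ≤ C' * 2 * (X / L ^ 12) :=
            mul_le_mul_of_nonneg_right (mul_le_mul_of_nonneg_left hε2 hC'0) hXL
          linarith
  have h2 : (2 * C' + 1) * (X / L ^ 12) ≤ 1 / 2 * (X / L ^ 10) := by
    have h3 : (X : ℝ) / L ^ 12 = X / L ^ 10 * (1 / L ^ 2) := by
      field_simp
    rw [h3]
    have h4 : (2 * C' + 1) * (1 / L ^ 2) ≤ 1 / 2 := by
      rw [mul_one_div, div_le_iff₀ (by positivity)]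
      nlinarith
    have h5 : 0 ≤ (X : ℝ) / L ^ 10 := by positivity
    nlinarith
  have h3 : 2 * T * ((2 * K + K ^ 2) * (2 * L * (2 * L))) ≤ 1 / 2 * (X / L ^ 10) := by
    have h4 := hX4 X e5
    have h5 : T * (X : ℝ) ^ δ = X := by
      rw [hT, ← Real.rpow_add hXp]
      norm_num
    have h6 : T * (16 * (2 * K + K ^ 2) * L ^ 12) ≤ X := by
      rw [← h5]
      exact mul_le_mul_of_nonneg_left h4 hT0
    have h7 : 2 * T * ((2 * K + K ^ 2) * (2 * L * (2 * L))) =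
        1 / 2 * (T * (16 * (2 * K + K ^ 2) * L ^ 12) / L ^ 10) := by
      field_simp
      ring
    rw [h7]
    refine mul_le_mul_of_nonneg_left ?_ (by norm_num)
    exact div_le_div_of_nonneg_right h6 (by positivity)
  calc |cvv (fa δ X w) (fa δ X w) n - SS n * JJ n| =
        |(cvv (fa δ X w) (fa δ X w) n - conv2 w n) + (conv2 w n - SS n * JJ n)| := by
        congr 1
        ring
    _ ≤ |cvv (fa δ X w) (fa δ X w) n - conv2 w n| + |conv2 w n - SS n * JJ n| :=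
        abs_add_le _ _
    _ ≤ ((2 * (Cs * ε) + (Cs * ε) ^ 2) * conv2 w n +
        2 * T * ((2 * K + K ^ 2) * (2 * L * (2 * L)))) + X / L ^ 12 := add_le_add hsum hc
    _ ≤ C' * ε * (SS n * JJ n) + X / L ^ 10 := by linarith

end Pool.MP_dd84fd_nt.HX
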