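import Pool.Agent.Lib.MP_dd84fd_nt.HX.FaDefs
import Pool.Agent.Lib.MP_dd84fd_nt.HX.DcAbs
import Pool.Agent.Lib.MP_dd84fd_nt.HX.DcTwo
import Pool.Agent.Lib.MP_dd84fd_nt.HX.MjWa
import Pool.Agent.Lib.MP_dd84fd_nt.HX.MjFin
import Pool.Agent.Lib.MP_dd84fd_nt.HX.MnB
import Pool.Agent.Lib.MP_dd84fd_nt.HX.GpFin
import Pool.Agent.Lib.MP_dd84fd_nt.HX.StRed
import Pool.Agent.Lib.MP_dd84fd_nt.HX.StFin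
import Pool.Agent.Lib.MP_dd84fd_nt.HX.TrFin
import Pool.Agent.Lib.MP_dd84fd_nt.HX.PlFin
import Pool.Agent.Lib.MP_dd84fd_nt.HX.GrFin
import Pool.Agent.Lib.MP_dd84fd_nt.HX.CeMain

/-!
# Theorem H, assembly: the results of sections 1-6
-/

set_option autoImplicit false

namespace Pool.MP_dd84fd_nt.HXI

open Finset Pool.MP_67663b_nt.Odd Pool.MP_dd84fd_nt.En Pool.MP_dd84fd_nt.E2 Pool.MP_dd84fd_nt.LS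
  Pool.MP_dd84fd_nt.GX Pool.MP_dd84fd_nt.HX

open Pool.MP_dd84fd_nt.PL (rr)

theorem an_abs : ∃ X0 : ℕ, ∀ X : ℕ, X0 ≤ X → ∀ δ : ℝ, 0 < δ → δ ≤ 1 / 2000 → ∀ n ∈ Icc 1 X,
    |Dn δ X n| ≤ 2 ^ 22 * Real.log n * rg (zz X) n ∧ |an δ X n| ≤ 2 ^ 22 * rg (zz X) n := HX.an_abs

theorem wD_abs : ∃ C : ℝ, ∃ X0 : ℕ, ∀ X : ℕ, X0 ≤ X → ∀ δ : ℝ, 0 < δ → δ ≤ 1 / 2000 →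
    (∀ n ∈ Icc 1 X, |wD δ X n| ≤ C) ∧ ∑ n ∈ Ico 1 X, |wD δ X (n + 1) - wD δ X n| ≤ C := HX.wd_abs

theorem main_h : ∃ (C : ℝ) (D0 : ℕ), ∀ δ : ℝ, 0 < δ → δ ≤ 1 / 2000 → ∀ D' : ℕ, D0 ≤ D' →
    ∃ X0 : ℕ, ∀ X : ℕ, X0 ≤ X → ∀ n : ℕ, X < 2 * n → n ≤ X → Even n →
    |cvv (fa δ X (wX D' X)) (fa δ X (wX D' X)) n - SS n * JJ n| ≤
      C * (δ + 1 / Real.log X) * (SS n * JJ n) + X / (Real.log X) ^ 10 := HX.main_h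

theorem gap_h : ∃ C : ℝ, ∀ δ : ℝ, 0 < δ → δ ≤ 1 / 2000 → ∃ X0 : ℕ, ∀ X : ℕ, X0 ≤ X →
    ∀ n : ℕ, X < 2 * n → n ≤ X → Even n →
    |(g n : ℝ) - cvv (an δ X) (an δ X) n| ≤
      C * (δ + 1 / Real.log X) * (SS n * n / (Real.log X) ^ 2) + (X : ℝ) ^ (1 - δ / 2) := HX.gap_h

theorem tree_h (A CV : ℕ) (δ : ℝ) (hδ : 0 < δ) (hδ' : δ ≤ 1 / 2000) (D' : ℕ) (hD : 1 ≤ D') :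
    ∃ X0 : ℕ, ∀ X : ℕ, X0 ≤ X → ∀ (G : ℕ) [NeZero G], 3 * X ≤ G →
    ∀ V : ZMod G → ℂ, VBH G X CV V → ∀ B : Finset ℕ, B ⊆ Icc 1 X →
    (∀ n ∈ B, ∀ (Λ : ℕ) (bb : ℝ), 1 ≤ Λ → 1 ≤ bb → Λ * bb ≤ 2 * (X : ℝ) ^ (1 / 2 + 2 * δ) →
      X / (Real.log X) ^ A < ‖PhH G δ X (wX D' X) V (wS G δ X Λ bb) n‖) →
    (B.card : ℝ) ≤ (X : ℝ) ^ (1 / 2 - δ) :=
  HX.tree_h (HX.st_h (HX.red_h HX.dec1 HX.wd_abs)) A CV δ hδ hδ' D' hD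

theorem pl_h (A : ℕ) : ∃ K1 K2 : ℕ, ∀ (δ : ℝ) (D' A0 : ℕ), 0 < δ → δ ≤ 1 / 2000 → 1 ≤ D' →
    ∃ X0 : ℕ, ∀ X : ℕ, X0 ≤ X → ∀ n : ℕ, X < 2 * n → n ≤ X →
    ∀ (QQ : Finset ℕ) (N b : ℝ) (bq : ℕ → ℝ), (∀ q ∈ QQ, 1 ≤ q ∧ b ≤ bq q ∧ bq q ≤ 2 * b) →
    (∀ q ∈ QQ, ∀ q' ∈ QQ, (Nat.lcm q q' : ℝ) ≤ N) → (QQ.card : ℝ) ≤ (X : ℝ) ^ (1 / 50 : ℝ) →
    1 / (Real.log X) ^ A0 ≤ b → N * b ≤ (X : ℝ) ^ (1 / 2 + 5 / 2 * δ) →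
    ((Real.log X) ^ K2 < b ∨ ∀ q ∈ QQ, (Real.log X) ^ K1 * (Nat.gcd q n : ℝ) < q) →
    ∑ q ∈ QQ, ‖∑ a ∈ rr q, ((∫ x in (bq q / X)..(2 * bq q / X),
        FFH δ (wX D' X) X n ((a : ℝ) / q + x)) +
      ∫ x in (bq q / X)..(2 * bq q / X), FFH δ (wX D' X) X n ((a : ℝ) / q - x))‖ ≤
      X / (Real.log X) ^ A :=
  HXP.pl_h HX.an_abs HX.wd_abs HX.dec2 A

theorem greedy_h (A K1 K2 : ℕ) : ∃ C : ℕ, ∀ (K : ℕ) (δ : ℝ), 0 < δ → δ ≤ 1 / 2000 →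
    ∃ D0 : ℕ, ∀ D' : ℕ, D0 ≤ D' → ∃ X0 : ℕ, ∀ X : ℕ, X0 ≤ X → ∃ D : Finset ℕ,
      (D.card : ℝ) ≤ (Real.log X) ^ C ∧
      (∀ d ∈ D, (Real.log X) ^ K ≤ (d : ℝ) ∧ (d : ℝ) ≤ (X : ℝ) ^ (1 / 2 + 3 * δ)) ∧
      ∀ n ∈ Icc 1 X, (∀ d ∈ D, ¬ d ∣ n) → ∀ (QQ : Finset ℕ) (N : ℝ),
        (∀ q ∈ QQ, 1 ≤ q ∧ (q : ℝ) ≤ (Real.log X) ^ K1 * (Nat.gcd q n : ℝ)) →
        (∀ q ∈ QQ, ∀ q' ∈ QQ, (Nat.lcm q q' : ℝ) ≤ N) → N ≤ (X : ℝ) ^ (1 / 2 + 5 / 2 * δ) →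
        ∑ q ∈ QQ, ∑ a ∈ rr q, ∫ x in (-(2 * (Real.log X) ^ K2) / X)..(2 * (Real.log X) ^ K2 / X),
          ‖WH (-1) δ (wX D' X) X ((a : ℝ) / q + x)‖ * ‖WH 1 δ (wX D' X) X ((a : ℝ) / q + x)‖ ≤
        X / (Real.log X) ^ A :=
  HX.greedy_h HX.an_abs HX.wd_abs HX.dec2 HX.maj_h A K1 K2

theorem centre_h (A : ℕ) : ∃ A0 : ℕ, ∀ (δ : ℝ) (D' : ℕ), 0 < δ → δ ≤ 1 / 2000 → 1 ≤ D' →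
    ∃ X0 : ℕ, ∀ X : ℕ, X0 ≤ X → ∀ (QQ : Finset ℕ) (N : ℝ), (∀ q ∈ QQ, 1 ≤ q) →
    (∀ q ∈ QQ, ∀ q' ∈ QQ, (Nat.lcm q q' : ℝ) ≤ N) → N ≤ X →
    ∑ q ∈ QQ, ∑ a ∈ rr q, ∫ x in (-(1 / (Real.log X) ^ A0) / X)..(1 / (Real.log X) ^ A0 / X),
      ‖WH (-1) δ (wX D' X) X ((a : ℝ) / q + x)‖ * ‖WH 1 δ (wX D' X) X ((a : ℝ) / q + x)‖ ≤
    X / (Real.log X) ^ A :=
  HX.centre_h HX.an_abs HX.wd_abs A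

end Pool.MP_dd84fd_nt.HXI
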