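import Pool.Agent.Lib.MP_dd84fd_nt.HX.FaI
import Pool.Agent.Lib.MP_dd84fd_nt.En.Sing

/-!
# HX-FaNum (0.5 h): numerical part

`jj_ge`: `JJ n = Σ_{m ∈ Icc 2 (n-2)} 1/(log m log(n-m)) ≥ (n - 3)/(log n)²` (each factor `0 < log ≤ log n`), so `n/(log n)² ≤ 2 JJ n` for `n ≥ 6`. `SS n ≥ 2 C2 > 0` (`En.SS_ge`, `En.C2_pos`).
`num_h`: `n/L² ≤ n/(log n)² ≤ 2 JJ n` (`log n ≤ L`), so by `gap_h`: `|g - cvv an an| ≤ 2 |C1| (δ + 1/L) SS JJ + X^(1-δ/2)`, by hypothesis `|cvv an an - cvv fa fa| ≤ X/L^5`, by `main_h`: `≤ |C2'| (δ + 1/L) SS JJ + X/L^10`. And `X/L² ≤ 2n/L² ≤ 4 JJ n ≤ 4 SS n JJ n/(2 C2)`, so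
`X^(1-δ/2) + X/L^5 + X/L^10 ≤ 3 X/L^4 ≤ (1/L) (X/L²)·(3/L) ≤ (1/L) SS n JJ n` for large `X`.
-/

set_option autoImplicit false

namespace Pool.MP_dd84fd_nt.HX

open Finset Pool.MP_67663b_nt.Odd Pool.MP_dd84fd_nt.En Pool.MP_dd84fd_nt.E2 Pool.MP_dd84fd_nt.LS
  Pool.MP_dd84fd_nt.GX

open Pool.MP_dd84fd_nt.L2G (nrm)

open Pool.MP_dd84fd_nt.PL (rr)

theorem jj_ge (n : ℕ) (hn : 6 ≤ n) : (n : ℝ) / (Real.log n) ^ 2 ≤ 2 * JJ n := by
  have hnr : (6 : ℝ) ≤ n := by exact_mod_cast hn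
  have hL : 0 < Real.log n := Real.log_pos (by linarith)
  have h1 : ∑ _m ∈ Icc 2 (n - 2), 1 / (Real.log n) ^ 2 ≤ JJ n := by
    unfold JJ
    refine Finset.sum_le_sum fun m hm => ?_
    rw [Finset.mem_Icc] at hm
    have hm1 : (2 : ℝ) ≤ m := by exact_mod_cast hm.1
    have hm2 : 2 ≤ n - m := by omega
    have hm3 : (2 : ℝ) ≤ ((n - m : ℕ) : ℝ) := by exact_mod_cast hm2
    have a1 : 0 < Real.log (m : ℝ) := Real.log_pos (by linarith)
    have a2 : 0 < Real.log ((n - m : ℕ) : ℝ) := Real.log_pos (by linarith)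
    have a3 : Real.log (m : ℝ) ≤ Real.log n := by
      refine Real.log_le_log (by linarith) ?_
      have : m ≤ n := by omega
      exact_mod_cast this
    have a4 : Real.log ((n - m : ℕ) : ℝ) ≤ Real.log n := by
      refine Real.log_le_log (by linarith) ?_
      have : n - m ≤ n := by omega
      exact_mod_cast this
    refine one_div_le_one_div_of_le (mul_pos a1 a2) ?_
    rw [sq]
    exact mul_le_mul a3 a4 a2.le hL.le
  rw [Finset.sum_const, nsmul_eq_mul, Nat.card_Icc] at h1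
  have h2 : ((n - 2 + 1 - 2 : ℕ) : ℝ) = (n : ℝ) - 3 := by
    have : n - 2 + 1 - 2 + 3 = n := by omega
    have h3 : (((n - 2 + 1 - 2 : ℕ) : ℝ)) + 3 = n := by exact_mod_cast this
    linarith
  rw [h2] at h1
  refine le_trans ?_ (mul_le_mul_of_nonneg_left h1 (by norm_num : (0 : ℝ) ≤ 2))
  rw [div_eq_mul_one_div]
  have h4 : 0 < 1 / (Real.log n) ^ 2 := by positivity
  nlinarith

theorem sj_pos (n : ℕ) (hn : 6 ≤ n) : 0 < SS n * JJ n := by
  have hnr : (6 : ℝ) ≤ n := by exact_mod_cast hn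
  have hL : 0 < Real.log n := Real.log_pos (by linarith)
  have h1 : 0 < SS n := lt_of_lt_of_le (mul_pos two_pos C2_pos) (SS_ge n)
  have h2 : 0 < (n : ℝ) / (Real.log n) ^ 2 := by positivity
  have h3 := jj_ge n hn
  exact mul_pos h1 (by linarith)

private theorem fan_ev (δ : ℝ) (hδ : 0 < δ) : ∃ X0 : ℕ, ∀ X : ℕ, X0 ≤ X →
    (X : ℝ) ^ (1 - δ / 2) ≤ X / (Real.log X) ^ 4 ∧ 1 ≤ Real.log X ∧ 6 / C2 ≤ Real.log X ∧
      6 < X := by
  have h1 : ∀ᶠ x : ℝ in Filter.atTop, ‖Real.log x ^ (4 : ℝ)‖ ≤ 1 * ‖x ^ (δ / 2)‖ :=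
    (isLittleO_log_rpow_rpow_atTop 4 (by linarith : 0 < δ / 2)).bound one_pos
  have h2 : ∀ᶠ x : ℝ in Filter.atTop, 1 ≤ Real.log x :=
    Real.tendsto_log_atTop.eventually_ge_atTop 1
  have h3 : ∀ᶠ x : ℝ in Filter.atTop, 6 / C2 ≤ Real.log x :=
    Real.tendsto_log_atTop.eventually_ge_atTop _
  have h5 : ∀ᶠ X : ℕ in Filter.atTop, (‖Real.log (X : ℝ) ^ (4 : ℝ)‖ ≤ 1 * ‖(X : ℝ) ^ (δ / 2)‖ ∧
      1 ≤ Real.log (X : ℝ)) ∧ 6 / C2 ≤ Real.log (X : ℝ) ∧ 6 < X :=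
    (tendsto_natCast_atTop_atTop.eventually (h1.and h2)).and
      ((tendsto_natCast_atTop_atTop.eventually h3).and (Filter.eventually_gt_atTop 6))
  obtain ⟨X0, hX0⟩ := Filter.eventually_atTop.1 h5
  refine ⟨X0, fun X hX => ?_⟩
  obtain ⟨⟨a1, a2⟩, a3, a4⟩ := hX0 X hX
  refine ⟨?_, a2, a3, a4⟩
  have hX1 : (0 : ℝ) < X := by
    have : 0 < X := by omega
    exact_mod_cast this
  have hL : 0 < Real.log (X : ℝ) := by linarith
  rw [one_mul, Real.norm_of_nonneg (Real.rpow_nonneg hL.le _),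
    Real.norm_of_nonneg (Real.rpow_nonneg hX1.le _)] at a1
  have a5 : Real.log (X : ℝ) ^ 4 ≤ (X : ℝ) ^ (δ / 2) := by
    have : Real.log (X : ℝ) ^ (4 : ℝ) = Real.log (X : ℝ) ^ 4 := by
      rw [← Real.rpow_natCast]
      norm_num
    rw [← this]
    exact a1
  rw [le_div_iff₀ (by positivity)]
  calc (X : ℝ) ^ (1 - δ / 2) * Real.log X ^ 4 ≤ (X : ℝ) ^ (1 - δ / 2) * (X : ℝ) ^ (δ / 2) :=
        mul_le_mul_of_nonneg_left a5 (Real.rpow_nonneg hX1.le _)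
    _ = (X : ℝ) := by
        rw [← Real.rpow_add hX1]
        norm_num

theorem num_h : ∃ (C : ℝ) (D0 : ℕ), 0 < C ∧ ∀ δ : ℝ, 0 < δ → δ ≤ 1 / 2000 → ∀ D' : ℕ, D0 ≤ D' →
    ∃ X0 : ℕ, ∀ X : ℕ, X0 ≤ X → ∀ n : ℕ, X < 2 * n → n ≤ X → Even n →
    |cvv (an δ X) (an δ X) n - cvv (fa δ X (wX D' X)) (fa δ X (wX D' X)) n| ≤
      X / (Real.log X) ^ 5 →
    |(g n : ℝ) - SS n * JJ n| ≤ C * (δ + 1 / Real.log X) * (SS n * JJ n) := by
  obtain ⟨C1, hgap⟩ := Pool.MP_dd84fd_nt.HXI.gap_h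
  obtain ⟨C2', D0, hmain⟩ := Pool.MP_dd84fd_nt.HXI.main_h
  refine ⟨2 * |C1| + |C2'| + 1, D0, by positivity, ?_⟩
  intro δ hδ hδ' D' hD'
  obtain ⟨X1, hX1⟩ := hgap δ hδ hδ'
  obtain ⟨X2, hX2⟩ := hmain δ hδ hδ' D' hD'
  obtain ⟨X3, hX3⟩ := fan_ev δ hδ
  refine ⟨max (max X1 X2) (max X3 12), fun X hX n hn hnX hev hdiff => ?_⟩
  have g1 := hX1 X (by omega) n hn hnX hev
  have g2 := hX2 X (by omega) n hn hnX hev
  obtain ⟨e1, e2, e3, e4⟩ := hX3 X (by omega)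
  have hn6 : 6 ≤ n := by omega
  have hXr : (0 : ℝ) < X := by
    have : 0 < X := by omega
    exact_mod_cast this
  have hnr : (6 : ℝ) ≤ n := by exact_mod_cast hn6
  have hL : 0 < Real.log (X : ℝ) := by linarith
  have hln : 0 < Real.log (n : ℝ) := Real.log_pos (by linarith)
  have hlnX : Real.log (n : ℝ) ≤ Real.log (X : ℝ) :=
    Real.log_le_log (by linarith) (by exact_mod_cast hnX)
  have hSS : 0 < SS n := lt_of_lt_of_le (mul_pos two_pos C2_pos) (SS_ge n)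
  have hSJ := sj_pos n hn6
  have hJ := jj_ge n hn6
  have hnL : (n : ℝ) / Real.log X ^ 2 ≤ 2 * JJ n := by
    refine le_trans ?_ hJ
    exact div_le_div_of_nonneg_left (by linarith) (by positivity)
      (pow_le_pow_left₀ hln.le hlnX 2)
  have hSn : SS n * n / Real.log X ^ 2 ≤ 2 * (SS n * JJ n) := by
    have := mul_le_mul_of_nonneg_left hnL hSS.le
    calc SS n * n / Real.log X ^ 2 = SS n * (n / Real.log X ^ 2) := by ring
      _ ≤ SS n * (2 * JJ n) := this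
      _ = 2 * (SS n * JJ n) := by ring
  have hC2 := C2_pos
  have hX2n : (X : ℝ) ≤ 2 * n := by
    have : X ≤ 2 * n := hn.le
    exact_mod_cast this
  have hlow : C2 * (X / Real.log X ^ 2) ≤ 2 * (SS n * JJ n) := by
    have k1 : (X : ℝ) / Real.log X ^ 2 ≤ 4 * JJ n := by
      calc (X : ℝ) / Real.log X ^ 2 ≤ (2 * n) / Real.log X ^ 2 :=
            div_le_div_of_nonneg_right hX2n (by positivity)
        _ = 2 * (n / Real.log X ^ 2) := by ring
        _ ≤ 4 * JJ n := by linarith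
    have k2 : 0 < JJ n := by
      have : 0 < (n : ℝ) / Real.log n ^ 2 := by positivity
      linarith
    have k3 := SS_ge n
    calc C2 * (X / Real.log X ^ 2) ≤ C2 * (4 * JJ n) := mul_le_mul_of_nonneg_left k1 hC2.le
      _ = 2 * (2 * C2 * JJ n) := by ring
      _ ≤ 2 * (SS n * JJ n) := by
          have := mul_le_mul_of_nonneg_right k3 k2.le
          linarith
  have hsmall : (X : ℝ) ^ (1 - δ / 2) + X / Real.log X ^ 5 + X / Real.log X ^ 10 ≤
      1 / Real.log X * (SS n * JJ n) := by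
    have k1 : (X : ℝ) / Real.log X ^ 5 ≤ X / Real.log X ^ 4 :=
      div_le_div_of_nonneg_left hXr.le (by positivity) (pow_le_pow_right₀ e2 (by norm_num))
    have k2 : (X : ℝ) / Real.log X ^ 10 ≤ X / Real.log X ^ 4 :=
      div_le_div_of_nonneg_left hXr.le (by positivity) (pow_le_pow_right₀ e2 (by norm_num))
    have k3 : 3 * ((X : ℝ) / Real.log X ^ 4) ≤
        1 / Real.log X * (C2 * (X / Real.log X ^ 2) / 2) := by
      rw [div_le_iff₀ hC2] at e3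
      have e5 : 1 / Real.log X * (C2 * (X / Real.log X ^ 2) / 2) - 3 * ((X : ℝ) / Real.log X ^ 4) =
          (Real.log X * C2 - 6) * (X / (2 * Real.log X ^ 4)) := by
        field_simp
        ring
      have e6 : 0 ≤ (Real.log X * C2 - 6) * (X / (2 * Real.log X ^ 4)) :=
        mul_nonneg (by linarith) (by positivity)
      linarith
    have k4 : 1 / Real.log X * (C2 * (X / Real.log X ^ 2) / 2) ≤
        1 / Real.log X * (SS n * JJ n) :=
      mul_le_mul_of_nonneg_left (by linarith) (by positivity)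
    linarith
  have hdl : 0 < δ + 1 / Real.log X := by positivity
  have b1 : C1 * (δ + 1 / Real.log X) * (SS n * n / Real.log X ^ 2) ≤
      2 * |C1| * (δ + 1 / Real.log X) * (SS n * JJ n) := by
    have c1 : 0 ≤ SS n * n / Real.log X ^ 2 := by positivity
    calc C1 * (δ + 1 / Real.log X) * (SS n * n / Real.log X ^ 2) ≤
          |C1| * (δ + 1 / Real.log X) * (SS n * n / Real.log X ^ 2) :=
          mul_le_mul_of_nonneg_right (mul_le_mul_of_nonneg_right (le_abs_self _) hdl.le) c1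
      _ ≤ |C1| * (δ + 1 / Real.log X) * (2 * (SS n * JJ n)) :=
          mul_le_mul_of_nonneg_left hSn (by positivity)
      _ = _ := by ring
  have b2 : C2' * (δ + 1 / Real.log X) * (SS n * JJ n) ≤
      |C2'| * (δ + 1 / Real.log X) * (SS n * JJ n) :=
    mul_le_mul_of_nonneg_right (mul_le_mul_of_nonneg_right (le_abs_self _) hdl.le) hSJ.le
  have b3 : 1 / Real.log X * (SS n * JJ n) ≤ (δ + 1 / Real.log X) * (SS n * JJ n) :=
    mul_le_mul_of_nonneg_right (by linarith) hSJ.le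
  have tri : |(g n : ℝ) - SS n * JJ n| ≤ |(g n : ℝ) - cvv (an δ X) (an δ X) n| +
      |cvv (an δ X) (an δ X) n - cvv (fa δ X (wX D' X)) (fa δ X (wX D' X)) n| +
      |cvv (fa δ X (wX D' X)) (fa δ X (wX D' X)) n - SS n * JJ n| := by
    have t1 : (g n : ℝ) - SS n * JJ n = ((g n : ℝ) - cvv (an δ X) (an δ X) n) +
        (cvv (an δ X) (an δ X) n - cvv (fa δ X (wX D' X)) (fa δ X (wX D' X)) n) +
        (cvv (fa δ X (wX D' X)) (fa δ X (wX D' X)) n - SS n * JJ n) := by ring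
    rw [t1]
    exact (abs_add_le _ _).trans (add_le_add_left (abs_add_le _ _) _)
  calc |(g n : ℝ) - SS n * JJ n| ≤ _ := tri
    _ ≤ (C1 * (δ + 1 / Real.log X) * (SS n * n / Real.log X ^ 2) + (X : ℝ) ^ (1 - δ / 2)) +
        X / Real.log X ^ 5 +
        (C2' * (δ + 1 / Real.log X) * (SS n * JJ n) + X / Real.log X ^ 10) := by
        linarith
    _ ≤ (2 * |C1| * (δ + 1 / Real.log X) * (SS n * JJ n)) +
        |C2'| * (δ + 1 / Real.log X) * (SS n * JJ n) +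
        1 / Real.log X * (SS n * JJ n) := by linarith
    _ ≤ (2 * |C1| + |C2'| + 1) * (δ + 1 / Real.log X) * (SS n * JJ n) := by
        have : (2 * |C1| + |C2'| + 1) * (δ + 1 / Real.log X) * (SS n * JJ n) =
          (2 * |C1| * (δ + 1 / Real.log X) * (SS n * JJ n)) +
          |C2'| * (δ + 1 / Real.log X) * (SS n * JJ n) +
          (δ + 1 / Real.log X) * (SS n * JJ n) := by ring
        rw [this]
        linarith

end Pool.MP_dd84fd_nt.HX
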