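import Pool.Agent.Lib.MP_dd84fd_nt.HX.FaArcs
import Pool.Agent.Lib.MP_dd84fd_nt.HX.FaBound
import Pool.Agent.Lib.MP_dd84fd_nt.HX.FaNum

/-!
# HX-FaScale (0.7 h): Theorem H at one scale

Proof. `discs_bound 6` gives `K1`, `K2` (absolute); `greedy_h 10 K1 K2` gives `C`; `num_h` gives `C1`, `D1`. `c = 1/(4 C1)`. Given `η`, `δ ≤ c η`, `K`: `D0` from `greedy_h`, `D' = max D0 (max D1 1)`. `G = X^10` (`NeZero`), `V = tr G X (up ..)`, `VBH G X 4 V` (`vbh_up`).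
`D` from `greedy_h`; its conclusion for `n` is `GoodN δ w X n 10 K1 K2` (unfold; `10 = 6 + 4`). Let `B` be the set of the `n ∈ Icc 1 X`, `X < 2n`, `n` even, no `d ∈ D` divides `n`, `ExcH η n`. Claim: every `n ∈ B` satisfies the hypothesis of `tree_h` with `A = 6`, `CV = 4`: suppose
`‖PhH V (wS Λ bb) n‖ ≤ X/L^6` for some `Λ, bb`. Then `ph_one`, `ph_discs`, `discs_bound 6` give `‖PhH V 1 n‖ ≤ 2X/L^6 + 1 ≤ X/L^5`, `repH` gives the hypothesis of `num_h`, so `|g - SS JJ| ≤ C1 (δ + 1/L) SS JJ ≤ η SS JJ` (`C1 δ ≤ η/4`, `L` large): contradiction with `ExcH η n`. So `#B ≤ X^(1/2-δ)`.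
-/

set_option autoImplicit false

namespace Pool.MP_dd84fd_nt.HX

open Finset Pool.MP_67663b_nt.Odd Pool.MP_dd84fd_nt.En Pool.MP_dd84fd_nt.E2 Pool.MP_dd84fd_nt.LS
  Pool.MP_dd84fd_nt.GX

open Pool.MP_dd84fd_nt.L2G (nrm)

open Pool.MP_dd84fd_nt.PL (rr)

theorem scale_h : ∃ (C : ℕ) (c : ℝ), 0 < c ∧ ∀ η : ℝ, 0 < η → ∀ δ : ℝ, 0 < δ →
    δ ≤ 1 / 2000 → δ ≤ c * η → ∀ K : ℕ,
    ∃ X0 : ℕ, ∀ X : ℕ, X0 ≤ X → ∃ D : Finset ℕ, (D.card : ℝ) ≤ (Real.log X) ^ C ∧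
      (∀ d ∈ D, (Real.log X) ^ K ≤ (d : ℝ) ∧ (d : ℝ) ≤ (X : ℝ) ^ (1 / 2 + 3 * δ)) ∧
      (((Icc 1 X).filter (fun n => X < 2 * n ∧ Even n ∧ (∀ d ∈ D, ¬ d ∣ n) ∧
        η * (SS n * JJ n) < |(g n : ℝ) - SS n * JJ n|)).card : ℝ) ≤ (X : ℝ) ^ (1 / 2 - δ) := by
  obtain ⟨K1, K2, hdb⟩ := discs_bound 6
  obtain ⟨C, hgr⟩ := HXI.greedy_h 10 K1 K2
  obtain ⟨C1, D1, hC1, hnum⟩ := num_h
  refine ⟨C, 1 / (4 * C1), by positivity, fun η hη δ hδ hδ' hδc K => ?_⟩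
  have hδ'' : C1 * δ ≤ η / 4 := by
    calc C1 * δ ≤ C1 * (1 / (4 * C1) * η) := mul_le_mul_of_nonneg_left hδc hC1.le
      _ = η / 4 := by
        field_simp
  obtain ⟨D0, hgr0⟩ := hgr K δ hδ hδ'
  obtain ⟨D', hD0, hD1, hD'1⟩ : ∃ D' : ℕ, D0 ≤ D' ∧ D1 ≤ D' ∧ 1 ≤ D' :=
    ⟨max D0 (max D1 1), le_max_left _ _, (le_max_left _ _).trans (le_max_right _ _),
      (le_max_right _ _).trans (le_max_right _ _)⟩
  obtain ⟨Xg, hXg⟩ := hgr0 D' hD0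
  obtain ⟨Xn, hXn⟩ := hnum δ hδ hδ' D' hD1
  obtain ⟨Xd, hXd⟩ := hdb δ D' hδ hδ' hD'1
  obtain ⟨Xp, hXp⟩ := ph_discs δ hδ hδ' D'
  obtain ⟨Xv, hXv⟩ := vbh_up D'
  obtain ⟨Xt, hXt⟩ := HXI.tree_h 6 4 δ hδ hδ' D' hD'1
  obtain ⟨Xl, hXl⟩ : ∃ Xl : ℕ, ∀ X : ℕ, Xl ≤ X → 3 ≤ Real.log X ∧ 4 * C1 / η ≤ Real.log X ∧
      (Real.log X) ^ 6 ≤ X := by
    have h1 : ∀ᶠ x : ℝ in Filter.atTop, 3 ≤ Real.log x :=
      Real.tendsto_log_atTop.eventually_ge_atTop 3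
    have h2 : ∀ᶠ x : ℝ in Filter.atTop, 4 * C1 / η ≤ Real.log x :=
      Real.tendsto_log_atTop.eventually_ge_atTop _
    have h3 : ∀ᶠ x : ℝ in Filter.atTop, (Real.log x) ^ 6 ≤ x := by
      have h4 := (Real.isLittleO_pow_log_id_atTop (n := 6)).bound one_pos
      filter_upwards [h4, Filter.eventually_ge_atTop 1] with x hx hx1
      rw [one_mul, Real.norm_eq_abs, Real.norm_eq_abs, id, abs_of_pos (by linarith : 0 < x)] at hx
      exact (le_abs_self _).trans hx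
    have h5 := (tendsto_natCast_atTop_atTop (R := ℝ)).eventually (h1.and (h2.and h3))
    obtain ⟨N, hN⟩ := Filter.eventually_atTop.1 h5
    exact ⟨N, fun X hX => hN X hX⟩
  refine ⟨Xg + Xn + Xd + Xp + Xv + Xt + Xl + 20, fun X hX => ?_⟩
  obtain ⟨D, hDc, hDd, hDg⟩ := hXg X (by omega)
  refine ⟨D, hDc, hDd, ?_⟩
  obtain ⟨hL3, hL4, hL6⟩ := hXl X (by omega)
  have hX20 : 20 ≤ X := by omega
  have hXR : (0 : ℝ) < X := by
    have : 0 < X := by omega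
    exact_mod_cast this
  have : NeZero (X ^ 10) := ⟨pow_ne_zero _ (by omega)⟩
  have hG3 : 3 * X ≤ X ^ 10 := by
    have h1 : X ^ 10 = X * X ^ 9 := by ring
    have h2 : 3 ≤ X ^ 9 := by
      calc 3 ≤ X := by omega
        _ = X ^ 1 := (pow_one X).symm
        _ ≤ X ^ 9 := Nat.pow_le_pow_right (by omega) (by norm_num)
    rw [h1, mul_comm 3]
    exact Nat.mul_le_mul_left _ h2
  refine hXt X (by omega) (X ^ 10) hG3 (tr (X ^ 10) X (up δ X (wX D' X)))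
    (hXv X (by omega) δ hδ hδ' (X ^ 10) hG3) _ (filter_subset _ _) ?_
  intro n hn Λ bb hΛ hbb hΛb
  rw [mem_filter, mem_Icc] at hn
  obtain ⟨⟨hn1, hnX⟩, hn2, hne, hnd, hnexc⟩ := hn
  by_contra hcon
  rw [not_lt] at hcon
  have hgood : GoodN δ (wX D' X) X n (6 + 4) K1 K2 := fun QQ N h1 h2 h3 =>
    hDg n (mem_Icc.2 ⟨hn1, hnX⟩) hnd QQ N h1 h2 h3
  have hd1 := hXd X (by omega) n hn2 hnX hgood Λ bb hΛ hbb hΛb
  have hd2 := hXp X (by omega) Λ bb hΛ hbb hΛb (X ^ 10) le_rfl n hnX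
  have hrep := repH X (X ^ 10) (wX D' X) δ hG3 n hn1 hnX
  have hone := ph_one (X ^ 10) δ X (wX D' X) Λ n bb (tr (X ^ 10) X (up δ X (wX D' X)))
  have hnorm : ‖PhH (X ^ 10) δ X (wX D' X) (tr (X ^ 10) X (up δ X (wX D' X))) (fun _ => 1) n‖ ≤
      X / (Real.log X) ^ 6 + 1 + X / (Real.log X) ^ 6 := by
    rw [hone]
    refine (norm_add_le _ _).trans (add_le_add ?_ hcon)
    calc _ = ‖(∑ q ∈ QQd δ X Λ, dsc (FFH δ (wX D' X) X n) X q (rd δ X Λ bb q)) +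
          (PhH (X ^ 10) δ X (wX D' X) (tr (X ^ 10) X (up δ X (wX D' X)))
            (fun j => 1 - wS (X ^ 10) δ X Λ bb j) n -
          ∑ q ∈ QQd δ X Λ, dsc (FFH δ (wX D' X) X n) X q (rd δ X Λ bb q))‖ := by
            rw [add_sub_cancel]
      _ ≤ _ := (norm_add_le _ _).trans (add_le_add hd1 hd2)
  have hle : X / (Real.log X) ^ 6 + 1 + X / (Real.log X) ^ 6 ≤ X / (Real.log X) ^ 5 := by
    have hLpos : 0 < Real.log X := by linarith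
    have h1 : (X : ℝ) / (Real.log X) ^ 5 = Real.log X * (X / (Real.log X) ^ 6) := by
      field_simp
    have h2 : 1 ≤ (X : ℝ) / (Real.log X) ^ 6 := by
      rw [le_div_iff₀ (by positivity), one_mul]
      exact hL6
    rw [h1]
    nlinarith
  have hcv : |cvv (an δ X) (an δ X) n - cvv (fa δ X (wX D' X)) (fa δ X (wX D' X)) n| ≤
      X / (Real.log X) ^ 5 := by
    rw [hrep, Complex.norm_real, Real.norm_eq_abs] at hnorm
    exact hnorm.trans hle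
  have hfin := hXn X (by omega) n hn2 hnX hne hcv
  have hsj : 0 < SS n * JJ n := sj_pos n (by omega)
  have hLpos : 0 < Real.log X := by linarith
  have h6 : C1 * (1 / Real.log X) ≤ η / 4 := by
    rw [div_le_iff₀ hη] at hL4
    rw [mul_one_div, div_le_div_iff₀ hLpos (by norm_num)]
    linarith
  have h7 : C1 * (δ + 1 / Real.log X) ≤ η := by
    rw [mul_add]
    linarith
  have h8 := mul_le_mul_of_nonneg_right h7 hsj.le
  linarith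

end Pool.MP_dd84fd_nt.HX
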