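import Pool.Agent.Lib.MP_dd84fd_nt.HX.MjDefs
import Pool.Agent.Lib.MP_dd84fd_nt.HX.DcRg

/-!
# HX-GpA: Goldbach representations and the rough prime powers
-/

set_option autoImplicit false

namespace Pool.MP_dd84fd_nt.HX

open Finset Pool.MP_67663b_nt.Odd Pool.MP_dd84fd_nt.En Pool.MP_dd84fd_nt.E2 Pool.MP_dd84fd_nt.LS
open Pool.MP_dd84fd_nt.L2G (nrm)
open Pool.MP_dd84fd_nt.GX

theorem pz_le (X n : ℕ) : 0 ≤ pz X n ∧ pz X n ≤ rg (zz X) n := by
  have hr := rg_nonneg (zz X) n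
  have h0 : 0 ≤ ArithmeticFunction.vonMangoldt n := ArithmeticFunction.vonMangoldt_nonneg
  have h1 : ArithmeticFunction.vonMangoldt n ≤ Real.log n :=
    ArithmeticFunction.vonMangoldt_le_log
  have h2 : 0 ≤ Real.log (n : ℝ) := Real.log_natCast_nonneg n
  unfold pz
  refine ⟨div_nonneg (mul_nonneg hr.1 h0) h2, ?_⟩
  rcases h2.eq_or_lt with h | h
  · rw [← h, div_zero]
    exact hr.1
  · rw [div_le_iff₀ h]
    exact mul_le_mul_of_nonneg_left h1 hr.1

/-- indicator of the primes -/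
private noncomputable def gpP (m : ℕ) : ℝ := if Nat.Prime m then 1 else 0

/-- the bad numbers -/
private def GpBad (z m : ℕ) : Prop := m < z ∨ (IsPrimePow m ∧ ¬ Nat.Prime m)

open Classical in
private noncomputable def gpB (z m : ℕ) : ℝ := if GpBad z m then 1 else 0

private theorem gpB_nonneg (z m : ℕ) : 0 ≤ gpB z m := by
  unfold gpB
  split_ifs <;> norm_num

private theorem gpP_mem (m : ℕ) : 0 ≤ gpP m ∧ gpP m ≤ 1 := by
  unfold gpP
  split_ifs <;> norm_num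

private theorem gp_term (X m : ℕ) : |gpP m - pz X m| ≤ gpB (zz X) m := by
  have hz := pz_le X m
  have hr := rg_nonneg (zz X) m
  have hP := gpP_mem m
  by_cases hb : GpBad (zz X) m
  · rw [gpB, if_pos hb, abs_le]
    constructor <;> linarith [hz.1, hz.2, hr.1, hr.2, hP.1, hP.2]
  · rw [gpB, if_neg hb]
    have hle : zz X ≤ m := not_lt.mp fun h => hb (Or.inl h)
    have heq : gpP m = pz X m := by
      by_cases hp : Nat.Prime m
      · have hR : Rgh (zz X) m := by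
          refine ⟨hp.ne_zero, fun p hp' => ?_⟩
          rw [hp.primeFactors, mem_singleton] at hp'
          rw [hp']
          exact hle
        have hlog : 0 < Real.log (m : ℝ) := Real.log_pos (by exact_mod_cast hp.one_lt)
        rw [gpP, if_pos hp, pz, rg, if_pos hR, one_mul,
          ArithmeticFunction.vonMangoldt_apply_prime hp, div_self hlog.ne']
      · have hpp : ¬ IsPrimePow m := fun h => hb (Or.inr ⟨h, hp⟩)
        rw [gpP, if_neg hp, pz, ArithmeticFunction.vonMangoldt_apply, if_neg hpp, mul_zero,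
          zero_div]
    rw [heq, sub_self, abs_zero]

private theorem gp_g (n : ℕ) : (g n : ℝ) = ∑ m ∈ Icc 1 (n - 1), gpP m * gpP (n - m) := by
  unfold g
  rw [card_filter, Nat.cast_sum]
  have h1 : ∀ m, (((if Nat.Prime m ∧ Nat.Prime (n - m) then 1 else 0 : ℕ)) : ℝ) =
      gpP m * gpP (n - m) := by
    intro m
    unfold gpP
    by_cases h1 : Nat.Prime m <;> by_cases h2 : Nat.Prime (n - m) <;> simp [h1, h2]
  rw [sum_congr rfl fun m _ => h1 m]
  symm
  apply sum_subset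
  · intro m hm
    rw [mem_Icc] at hm
    rw [mem_range]
    omega
  · intro m hm hm'
    rw [mem_range] at hm
    rw [mem_Icc] at hm'
    have h2 : m = 0 ∨ n - m = 0 := by omega
    rcases h2 with h | h
    · rw [h, gpP, if_neg Nat.not_prime_zero, zero_mul]
    · rw [h, gpP, gpP, if_neg Nat.not_prime_zero, mul_zero]

private theorem gp_bad_card (z X : ℕ) :
    ∑ m ∈ Icc 1 X, gpB z m ≤ z + Nat.sqrt X * Nat.log 2 X := by
  classical
  have h1 : ∑ m ∈ Icc 1 X, gpB z m = (((Icc 1 X).filter (GpBad z)).card : ℝ) := by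
    rw [card_filter, Nat.cast_sum]
    refine sum_congr rfl fun m _ => ?_
    unfold gpB
    split_ifs <;> simp
  rw [h1]
  have h2 : (Icc 1 X).filter (GpBad z) ⊆
      range z ∪ ((Icc 1 (Nat.sqrt X)) ×ˢ (Icc 1 (Nat.log 2 X))).image (fun q => q.1 ^ q.2) := by
    intro m hm
    rw [mem_filter, mem_Icc] at hm
    obtain ⟨⟨hm1, hmX⟩, hb⟩ := hm
    rw [mem_union]
    rcases hb with hb | ⟨hpp, hnp⟩
    · left
      exact mem_range.2 hb
    · right
      rw [isPrimePow_nat_iff] at hpp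
      obtain ⟨p, k, hp, hk, hpk⟩ := hpp
      have hk2 : 2 ≤ k := by
        by_contra h
        have hk1 : k = 1 := by omega
        rw [hk1, pow_one] at hpk
        rw [← hpk] at hnp
        exact hnp hp
      rw [mem_image]
      refine ⟨(p, k), ?_, hpk⟩
      rw [mem_product, mem_Icc, mem_Icc]
      refine ⟨⟨hp.one_lt.le, ?_⟩, ⟨hk, ?_⟩⟩
      · show p ≤ Nat.sqrt X
        rw [Nat.le_sqrt']
        calc p ^ 2 ≤ p ^ k := Nat.pow_le_pow_right hp.pos hk2
          _ = m := hpk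
          _ ≤ X := hmX
      · show k ≤ Nat.log 2 X
        refine Nat.le_log_of_pow_le (by norm_num) ?_
        calc 2 ^ k ≤ p ^ k := Nat.pow_le_pow_left hp.two_le k
          _ = m := hpk
          _ ≤ X := hmX
  have h3 := (card_le_card h2).trans ((card_union_le _ _).trans
    (add_le_add (card_range z).le (card_image_le.trans (card_product _ _).le)))
  rw [Nat.card_Icc, Nat.card_Icc, Nat.add_sub_cancel, Nat.add_sub_cancel] at h3
  exact_mod_cast h3

private theorem gp_num {X : ℕ} (hX : 36 ^ 8 ≤ X) :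
    2 * ((zz X : ℝ) + (Nat.sqrt X : ℝ) * (Nat.log 2 X : ℝ)) ≤ (X : ℝ) ^ (3 / 4 : ℝ) := by
  have hX' : ((36 : ℝ)) ^ (8 : ℕ) ≤ (X : ℝ) := by exact_mod_cast hX
  have hX1 : (1 : ℝ) ≤ X := le_trans (by norm_num) hX'
  have hX0 : (0 : ℝ) < X := by linarith
  have hz : (zz X : ℝ) ≤ (X : ℝ) ^ (1 / 20 : ℝ) + 1 := by
    unfold zz
    exact (Nat.ceil_lt_add_one (by positivity)).le
  have h1 : (X : ℝ) ^ (1 / 20 : ℝ) ≤ (X : ℝ) ^ (5 / 8 : ℝ) :=
    Real.rpow_le_rpow_of_exponent_le hX1 (by norm_num)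
  have h2 : (1 : ℝ) ≤ (X : ℝ) ^ (5 / 8 : ℝ) := Real.one_le_rpow hX1 (by norm_num)
  have hs : (Nat.sqrt X : ℝ) ≤ (X : ℝ) ^ (1 / 2 : ℝ) := by
    rw [← Real.sqrt_eq_rpow]
    exact Real.nat_sqrt_le_real_sqrt
  have hl : (Nat.log 2 X : ℝ) ≤ 16 * (X : ℝ) ^ (1 / 8 : ℝ) := by
    have hXn : X ≠ 0 := by
      intro h
      rw [h] at hX1
      norm_num at hX1
    have h3 : ((2 : ℝ)) ^ (Nat.log 2 X) ≤ (X : ℝ) := by
      exact_mod_cast Nat.pow_log_le_self 2 hXn
    have h4 := Real.log_le_log (by positivity) h3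
    rw [Real.log_pow] at h4
    have h5 := Real.log_le_rpow_div hX0.le (by norm_num : (0 : ℝ) < 1 / 8)
    have h6 : (1 : ℝ) / 2 ≤ Real.log 2 := by
      have := Real.log_two_gt_d9
      linarith
    have h7 : (Nat.log 2 X : ℝ) * (1 / 2) ≤ (Nat.log 2 X : ℝ) * Real.log 2 :=
      mul_le_mul_of_nonneg_left h6 (Nat.cast_nonneg _)
    have h8 : (X : ℝ) ^ (1 / 8 : ℝ) / (1 / 8) = 8 * (X : ℝ) ^ (1 / 8 : ℝ) := by ring
    rw [h8] at h5
    linarith
  have hmul : (Nat.sqrt X : ℝ) * (Nat.log 2 X : ℝ) ≤ 16 * (X : ℝ) ^ (5 / 8 : ℝ) := by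
    calc (Nat.sqrt X : ℝ) * (Nat.log 2 X : ℝ)
        ≤ (X : ℝ) ^ (1 / 2 : ℝ) * (16 * (X : ℝ) ^ (1 / 8 : ℝ)) :=
          mul_le_mul hs hl (Nat.cast_nonneg _) (by positivity)
      _ = 16 * ((X : ℝ) ^ (1 / 2 : ℝ) * (X : ℝ) ^ (1 / 8 : ℝ)) := by ring
      _ = 16 * (X : ℝ) ^ (5 / 8 : ℝ) := by
          rw [← Real.rpow_add hX0]
          norm_num
  have h36 : (36 : ℝ) ≤ (X : ℝ) ^ (1 / 8 : ℝ) := by
    calc (36 : ℝ) = (((36 : ℝ)) ^ (8 : ℕ)) ^ (1 / 8 : ℝ) := by
          rw [← Real.rpow_natCast, ← Real.rpow_mul (by norm_num)]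
          norm_num
      _ ≤ (X : ℝ) ^ (1 / 8 : ℝ) := Real.rpow_le_rpow (by norm_num) hX' (by norm_num)
  calc 2 * ((zz X : ℝ) + (Nat.sqrt X : ℝ) * (Nat.log 2 X : ℝ))
      ≤ 36 * (X : ℝ) ^ (5 / 8 : ℝ) := by linarith
    _ ≤ (X : ℝ) ^ (1 / 8 : ℝ) * (X : ℝ) ^ (5 / 8 : ℝ) :=
        mul_le_mul_of_nonneg_right h36 (by positivity)
    _ = (X : ℝ) ^ (3 / 4 : ℝ) := by
        rw [← Real.rpow_add hX0]
        norm_num

theorem g_pz : ∃ X0 : ℕ, ∀ X : ℕ, X0 ≤ X → ∀ n : ℕ, n ≤ X →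
    |(g n : ℝ) - cvv (pz X) (pz X) n| ≤ (X : ℝ) ^ (3 / 4 : ℝ) := by
  refine ⟨36 ^ 8, fun X hX n hn => ?_⟩
  rw [gp_g, cvv, ← sum_sub_distrib]
  have hsub : Icc 1 (n - 1) ⊆ Icc 1 X := by
    intro m hm
    rw [mem_Icc] at hm ⊢
    omega
  have hA : ∑ m ∈ Icc 1 (n - 1), gpB (zz X) m ≤ ∑ m ∈ Icc 1 X, gpB (zz X) m :=
    sum_le_sum_of_subset_of_nonneg hsub fun m _ _ => gpB_nonneg _ _
  have hB : ∑ m ∈ Icc 1 (n - 1), gpB (zz X) (n - m) = ∑ m ∈ Icc 1 (n - 1), gpB (zz X) m := by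
    refine sum_bij' (fun m _ => n - m) (fun m _ => n - m) ?_ ?_ ?_ ?_ ?_
    · intro m hm
      rw [mem_Icc] at hm ⊢
      omega
    · intro m hm
      rw [mem_Icc] at hm ⊢
      omega
    · intro m hm
      rw [mem_Icc] at hm
      show n - (n - m) = m
      omega
    · intro m hm
      rw [mem_Icc] at hm
      show n - (n - m) = m
      omega
    · intro m _
      rfl
  calc |∑ m ∈ Icc 1 (n - 1), (gpP m * gpP (n - m) - pz X m * pz X (n - m))|
      ≤ ∑ m ∈ Icc 1 (n - 1), |gpP m * gpP (n - m) - pz X m * pz X (n - m)| :=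
        abs_sum_le_sum_abs _ _
    _ ≤ ∑ m ∈ Icc 1 (n - 1), (gpB (zz X) m + gpB (zz X) (n - m)) := by
        refine sum_le_sum fun m _ => ?_
        have h1 := gp_term X m
        have h2 := gp_term X (n - m)
        have h3 := gpP_mem (n - m)
        have h4 := pz_le X m
        have h5 := rg_nonneg (zz X) m
        have h6 : gpP m * gpP (n - m) - pz X m * pz X (n - m) =
            (gpP m - pz X m) * gpP (n - m) + pz X m * (gpP (n - m) - pz X (n - m)) := by ring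
        rw [h6]
        refine (abs_add_le _ _).trans (add_le_add ?_ ?_)
        · rw [abs_mul, abs_of_nonneg h3.1]
          exact (mul_le_of_le_one_right (abs_nonneg _) h3.2).trans h1
        · rw [abs_mul, abs_of_nonneg h4.1]
          exact (mul_le_of_le_one_left (abs_nonneg _) (h4.2.trans h5.2)).trans h2
    _ = 2 * ∑ m ∈ Icc 1 (n - 1), gpB (zz X) m := by
        rw [sum_add_distrib, hB]
        ring
    _ ≤ 2 * ((zz X : ℝ) + (Nat.sqrt X : ℝ) * (Nat.log 2 X : ℝ)) := by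
        have := gp_bad_card (zz X) X
        linarith
    _ ≤ (X : ℝ) ^ (3 / 4 : ℝ) := gp_num hX

end Pool.MP_dd84fd_nt.HX
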