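import Pool.Agent.Lib.MP_dd84fd_nt.HX.Iface

/-!
# Theorem H, section 6 (greedy, centre): definitions

`arcI`: the integral of `|W_- W_+|` over the arc of radius `r/X` around `c`. `WtH`: sum over the reduced fractions
with denominator `q`. `Coin QS q a`: `a/q` is very near to a fraction with another denominator in `QS`.
-/

set_option autoImplicit false

namespace Pool.MP_dd84fd_nt.HX

open Finset Pool.MP_67663b_nt.Odd Pool.MP_dd84fd_nt.En Pool.MP_dd84fd_nt.E2 Pool.MP_dd84fd_nt.LS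
open Pool.MP_dd84fd_nt.L2G (nrm)
open Pool.MP_dd84fd_nt.GX
open Pool.MP_dd84fd_nt.PL (rr Fam)

/-- the integral of `|W_- W_+|` over the arc of radius `r/X` around `c` -/
noncomputable def arcI (δ : ℝ) (w X : ℕ) (r c : ℝ) : ℝ :=
  ∫ x in (-r / X)..(r / X), ‖WH (-1) δ w X (c + x)‖ * ‖WH 1 δ w X (c + x)‖

/-- the mass of the arcs of radius `r/X` around the reduced fractions with denominator `q` -/
noncomputable def WtH (δ : ℝ) (w X : ℕ) (r : ℝ) (q : ℕ) : ℝ :=
  ∑ a ∈ rr q, arcI δ w X r ((a : ℝ) / q)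

/-- `X^(1/2 + 5δ/2)` -/
noncomputable def P0 (δ : ℝ) (X : ℕ) : ℝ := (X : ℝ) ^ (1 / 2 + 5 / 2 * δ)

/-- `a/q` is at distance `≤ X^(-1+δ)` (mod 1) of a reduced fraction with another denominator in `QS` -/
def Coin (δ : ℝ) (X : ℕ) (QS : Finset ℕ) (q a : ℕ) : Prop :=
  ∃ q' ∈ QS, q' ≠ q ∧ ∃ a' ∈ rr q', ∃ z : ℤ,
    |(a : ℝ) / q - (a' : ℝ) / q' - z| ≤ (X : ℝ) ^ (-1 + δ)

/-- the numerators of the coincident fractions -/
noncomputable def crr (δ : ℝ) (X : ℕ) (QS : Finset ℕ) (q : ℕ) : Finset ℕ :=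
  open Classical in (rr q).filter (fun a => Coin δ X QS q a)

/-- the numerators of the other fractions -/
noncomputable def nrr (δ : ℝ) (X : ℕ) (QS : Finset ℕ) (q : ℕ) : Finset ℕ :=
  open Classical in (rr q).filter (fun a => ¬ Coin δ X QS q a)

theorem WtH_split (δ : ℝ) (w X : ℕ) (r : ℝ) (QS : Finset ℕ) (q : ℕ) :
    WtH δ w X r q = ∑ a ∈ crr δ X QS q, arcI δ w X r ((a : ℝ) / q) +
      ∑ a ∈ nrr δ X QS q, arcI δ w X r ((a : ℝ) / q) := by
  classical
  unfold WtH crr nrr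
  rw [sum_filter_add_sum_filter_not]

end Pool.MP_dd84fd_nt.HX
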