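import Pool.Agent.Lib.MP_dd84fd_nt.HX.GrDefs
import Pool.Agent.Lib.MP_dd84fd_nt.GX.Den2
import Pool.Agent.Lib.MP_dd84fd_nt.PL.TypeI
import Pool.Agent.Lib.MP_dd84fd_nt.E2.MinorP

/-!
# HX-GrExpI (0.6 h): exponential sums of type I

`(Icc 1 X) × divisors`: `n = l k` (as `VTail_swap` in `GX/VTail.lean`, `model_mult` in `PL/Model.lean`): the sum is `∑_{l ≤ X} ∑_{k ≤ X/l} (α_l + β_l/log(lk)) ee(lkθ)`; for `lk ≥ 2`:
`α_l + β_l/log(lk) = (α_l log k + (α_l log l + β_l))/log(lk)`, i.e. `ti X l (α_l) (α_l log l + β_l) θ` up to the term `n = 1` (error `≤ 1`: there `log 1 = 0`). `PL.ti_le` (`R = 3 log X`; `|α_l log l + β_l| ≤ 3 log X` as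
`l ≤ X`): `≤ C R mn(X/l)(lθ)` (`En.mn`, `den2_mn`), `typeI_ker` with `R = ⌊X^(2/5)⌋₊`: `∑_{l ≤ R} mn ≤ C (X/ht + R) log X`. Total `≤ C' (X/ht + X^(2/5)) L²`; for large `X`: `≤ (…) L³`.
-/

set_option autoImplicit false

namespace Pool.MP_dd84fd_nt.HX

open Finset Pool.MP_67663b_nt.Odd Pool.MP_dd84fd_nt.En Pool.MP_dd84fd_nt.E2 Pool.MP_dd84fd_nt.LS
open Pool.MP_dd84fd_nt.L2G (nrm)
open Pool.MP_dd84fd_nt.GX
open Pool.MP_dd84fd_nt.PL (rr Fam)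

private theorem ei_swap (N : ℕ) (F : ℕ → ℕ → ℂ) :
    ∑ n ∈ Icc 1 N, ∑ d ∈ n.divisors, F d n =
      ∑ d ∈ Icc 1 N, ∑ e ∈ Icc 1 (N / d), F d (d * e) := by
  rw [Finset.sum_sigma', Finset.sum_sigma']
  refine Finset.sum_bij' (fun p _ => (⟨p.2, p.1 / p.2⟩ : Σ _ : ℕ, ℕ))
    (fun p _ => (⟨p.1 * p.2, p.1⟩ : Σ _ : ℕ, ℕ)) ?_ ?_ ?_ ?_ ?_
  · rintro ⟨n, d⟩ h
    rw [Finset.mem_sigma, Finset.mem_Icc, Nat.mem_divisors] at h
    obtain ⟨⟨h1, h2⟩, h3, h4⟩ := h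
    simp only at h1 h2 h3 h4
    rw [Finset.mem_sigma, Finset.mem_Icc, Finset.mem_Icc]
    have hd : 0 < d := Nat.pos_of_dvd_of_pos h3 (by omega)
    have hdn : d ≤ n := Nat.le_of_dvd (by omega) h3
    refine ⟨⟨hd, by simp only; omega⟩, ?_, ?_⟩
    · exact Nat.div_pos hdn hd
    · exact Nat.div_le_div_right h2
  · rintro ⟨d, e⟩ h
    rw [Finset.mem_sigma, Finset.mem_Icc, Finset.mem_Icc] at h
    obtain ⟨⟨h1, h2⟩, h3, h4⟩ := h
    simp only at h1 h2 h3 h4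
    rw [Finset.mem_sigma, Finset.mem_Icc, Nat.mem_divisors]
    have hde : d * e ≤ N := by
      calc d * e ≤ d * (N / d) := Nat.mul_le_mul_left _ h4
        _ ≤ N := Nat.mul_div_le N d
    refine ⟨⟨Nat.mul_pos h1 h3, hde⟩, Dvd.intro _ rfl, ?_⟩
    exact (Nat.mul_pos h1 h3).ne'
  · rintro ⟨n, d⟩ h
    rw [Finset.mem_sigma, Finset.mem_Icc, Nat.mem_divisors] at h
    obtain ⟨⟨h1, h2⟩, h3, h4⟩ := h
    simp only at h3
    simp only [Nat.mul_div_cancel' h3]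
  · rintro ⟨d, e⟩ h
    rw [Finset.mem_sigma, Finset.mem_Icc, Finset.mem_Icc] at h
    obtain ⟨⟨h1, h2⟩, h3, h4⟩ := h
    simp only at h1
    simp only [Nat.mul_div_cancel_left e (show 0 < d from h1)]
  · rintro ⟨n, d⟩ h
    rw [Finset.mem_sigma, Finset.mem_Icc, Nat.mem_divisors] at h
    obtain ⟨⟨h1, h2⟩, h3, h4⟩ := h
    simp only at h3
    simp only [Nat.mul_div_cancel' h3]

private theorem ei_mn0 (M x : ℝ) (hM : 0 ≤ M) : 0 ≤ L2G.mn M x := by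
  rw [den2_mn]
  have h := En.norm_sum_Ioc_le_mn 0 0 M x (by simpa using hM)
  exact (norm_nonneg _).trans h

/-- a divisor sum twisted by `ee (n θ)` -/
private theorem ei_main (X t R : ℕ) (ht : t ≤ X) (γ : ℕ → ℝ) (R0 θ : ℝ) (hR0 : 0 ≤ R0)
    (hγ : ∀ l, |γ l| ≤ R0) (hs : ∀ l, R < l → γ l = 0) :
    ‖∑ n ∈ Icc 1 t, ((∑ l ∈ n.divisors, γ l : ℝ) : ℂ) * ee ((n : ℝ) * θ)‖ ≤
      R0 * ∑ l ∈ Icc 1 R, L2G.mn ((X : ℝ) / l) ((l : ℝ) * θ) := by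
  have e1 : ∑ n ∈ Icc 1 t, ((∑ l ∈ n.divisors, γ l : ℝ) : ℂ) * ee ((n : ℝ) * θ) =
      ∑ n ∈ Icc 1 t, ∑ l ∈ n.divisors, ((γ l : ℝ) : ℂ) * ee ((n : ℝ) * θ) := by
    refine sum_congr rfl fun n _ => ?_
    push_cast
    rw [Finset.sum_mul]
  rw [e1, ei_swap t (fun l n => ((γ l : ℝ) : ℂ) * ee ((n : ℝ) * θ))]
  have h1 : ∀ d ∈ Icc 1 t, ‖∑ e ∈ Icc 1 (t / d), ((γ d : ℝ) : ℂ) * ee (((d * e : ℕ) : ℝ) * θ)‖ ≤
      if d ∈ Icc 1 R then R0 * L2G.mn ((X : ℝ) / d) ((d : ℝ) * θ) else 0 := by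
    intro d hd
    have hd1 := (mem_Icc.mp hd).1
    split_ifs with hR
    · rw [← Finset.mul_sum, norm_mul, Complex.norm_real, Real.norm_eq_abs]
      refine mul_le_mul (hγ d) ?_ (norm_nonneg _) hR0
      rw [den2_mn]
      have e2 : Icc 1 (t / d) = Ioc 0 (t / d) := by
        ext k
        simp only [Finset.mem_Ioc, Finset.mem_Icc]
        omega
      rw [e2]
      have e3 : ∀ e : ℕ, ee (((d * e : ℕ) : ℝ) * θ) = ee ((e : ℝ) * ((d : ℝ) * θ)) := by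
        intro e
        congr 1
        push_cast
        ring
      simp only [e3]
      refine En.norm_sum_Ioc_le_mn 0 (t / d) _ _ ?_
      rw [Nat.sub_zero]
      have h2 : ((t / d : ℕ) : ℝ) ≤ (t : ℝ) / d := Nat.cast_div_le
      refine h2.trans ?_
      exact div_le_div_of_nonneg_right (by exact_mod_cast ht) (Nat.cast_nonneg d)
    · have hRd : R < d := by
        by_contra hcon
        exact hR (mem_Icc.mpr ⟨hd1, by omega⟩)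
      rw [hs d hRd]
      simp
  refine (norm_sum_le _ _).trans ((sum_le_sum h1).trans ?_)
  rw [← Finset.sum_filter, Finset.mul_sum]
  refine sum_le_sum_of_subset_of_nonneg ?_ ?_
  · intro d hd
    exact (mem_filter.mp hd).2
  · intro d _ _
    exact mul_nonneg hR0 (ei_mn0 _ _ (by positivity))

theorem expI_h : ∃ X0 : ℕ, ∀ X : ℕ, X0 ≤ X → ∀ (α β : ℕ → ℝ) (θ : ℝ),
    (∀ l, |α l| ≤ 1 ∧ |β l| ≤ 2 * Real.log X) →
    (∀ l : ℕ, (X : ℝ) ^ (2 / 5 : ℝ) < l → α l = 0 ∧ β l = 0) →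
    ‖∑ n ∈ Icc 1 X, ((∑ l ∈ n.divisors, (α l + β l / Real.log n) : ℝ) : ℂ) * ee ((n : ℝ) * θ)‖ ≤
      ((X : ℝ) / ht X θ + (X : ℝ) ^ (2 / 5 : ℝ)) * (Real.log X) ^ 3 := by
  obtain ⟨C, hC, X1, hX1⟩ := typeI_ker
  obtain ⟨X2, hX2⟩ := MP_log_large (max 1 (7 * C))
  refine ⟨X1 + X2 + 3, fun X hX α β θ hαβ hsup => ?_⟩
  have hL' := hX2 X (by omega)
  have hx1 : (1 : ℝ) ≤ X := by exact_mod_cast (by omega : 1 ≤ X)
  set L := Real.log X with hLdef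
  have hL1 : 1 ≤ L := (le_max_left _ _).trans hL'
  have hLC : 7 * C ≤ L := (le_max_right _ _).trans hL'
  set R : ℕ := ⌊(X : ℝ) ^ (2 / 5 : ℝ)⌋₊ with hRdef
  have hR25 : (R : ℝ) ≤ (X : ℝ) ^ (2 / 5 : ℝ) := Nat.floor_le (by positivity)
  have hRX : R ≤ X := by
    have : (R : ℝ) ≤ X := by
      refine hR25.trans ?_
      calc (X : ℝ) ^ (2 / 5 : ℝ) ≤ (X : ℝ) ^ (1 : ℝ) :=
            Real.rpow_le_rpow_of_exponent_le hx1 (by norm_num)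
        _ = X := Real.rpow_one _
    exact_mod_cast this
  have hsR : ∀ l : ℕ, R < l → α l = 0 ∧ β l = 0 := by
    intro l hl
    refine hsup l ?_
    exact (Nat.floor_lt (by positivity)).mp hl
  set S : ℝ := ∑ l ∈ Icc 1 R, L2G.mn ((X : ℝ) / l) ((l : ℝ) * θ) with hSdef
  have hS0 : 0 ≤ S := sum_nonneg fun l _ => ei_mn0 _ _ (by positivity)
  have hS : S ≤ C * ((X : ℝ) / ht X θ + R) * L := hX1 X (by omega) θ R hRX
  have hα := ei_main X X R le_rfl α 1 θ zero_le_one (fun l => (hαβ l).1) (fun l hl => (hsR l hl).1)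
  have hβ : ∀ t ≤ X, ‖∑ n ∈ Icc 1 t, ((∑ l ∈ n.divisors, β l : ℝ) : ℂ) * ee ((n : ℝ) * θ)‖ ≤
      2 * L * S := fun t ht =>
    ei_main X t R ht β (2 * L) θ (by positivity) (fun l => (hαβ l).2) (fun l hl => (hsR l hl).2)
  have hab := MP_abel _ _ X hβ
  have e1 : ∑ n ∈ Icc 1 X, ((∑ l ∈ n.divisors, (α l + β l / Real.log n) : ℝ) : ℂ) *
      ee ((n : ℝ) * θ) = ∑ n ∈ Icc 1 X, ((∑ l ∈ n.divisors, α l : ℝ) : ℂ) * ee ((n : ℝ) * θ) +
      ∑ n ∈ Icc 1 X, ((1 / Real.log (n : ℝ) : ℝ) : ℂ) *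
        (((∑ l ∈ n.divisors, β l : ℝ) : ℂ) * ee ((n : ℝ) * θ)) := by
    rw [← sum_add_distrib]
    refine sum_congr rfl fun n _ => ?_
    rw [sum_add_distrib, ← Finset.sum_div, Complex.ofReal_add, add_mul, div_eq_mul_one_div,
      Complex.ofReal_mul (∑ l ∈ n.divisors, β l)]
    ring
  rw [e1]
  refine (norm_add_le _ _).trans ((add_le_add hα hab).trans ?_)
  have hht : 0 ≤ (X : ℝ) / ht X θ + (X : ℝ) ^ (2 / 5 : ℝ) := by
    have := (ht_spec X (by omega) θ).1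
    have h0 : 0 < ht X θ := by linarith
    positivity
  calc 1 * S + 3 * (2 * L * S) = (1 + 6 * L) * S := by ring
    _ ≤ (7 * L) * (C * ((X : ℝ) / ht X θ + R) * L) := by
        refine mul_le_mul (by linarith) hS hS0 (by positivity)
    _ = ((X : ℝ) / ht X θ + R) * (7 * C * L ^ 2) := by ring
    _ ≤ ((X : ℝ) / ht X θ + (X : ℝ) ^ (2 / 5 : ℝ)) * (7 * C * L ^ 2) := by
        refine mul_le_mul_of_nonneg_right (by linarith) (by positivity)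
    _ ≤ ((X : ℝ) / ht X θ + (X : ℝ) ^ (2 / 5 : ℝ)) * L ^ 3 := by
        refine mul_le_mul_of_nonneg_left ?_ hht
        calc 7 * C * L ^ 2 ≤ L * L ^ 2 := mul_le_mul_of_nonneg_right hLC (by positivity)
          _ = L ^ 3 := by ring

end Pool.MP_dd84fd_nt.HX
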