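import Pool.Agent.Lib.MP_dd84fd_nt.HX.GrMod
import Pool.Agent.Lib.MP_dd84fd_nt.HX.GrBV
import Pool.Agent.Lib.MP_dd84fd_nt.GX.Den2

/-!
# HX-GrFa (0.5 h): the exponential sum of `f_a` away from the major arcs

`fa n = (1 - wD n) f1 n / log n = g(n) (∑_{d ∣ n} v d + e n)` (`model_coef`, `g(n) = (1 - wD n)/log n`). `E n = g(n) e n`: `∑ E² ≤ C² X^(1-η') ≤ X^(1-η)` with `η = η'/2` (`gw_var`).
`∑_n (fa - E)(n) ee(nθ) = ∑_{d ≤ X} v d ∑_{k ≤ X/d} g(dk) ee(dkθ)` (swap as in `PL/Model.lean` `model_mult`, `GX/VTail.lean` `VTail_swap`), `gw_exp`, `typeI_ker` with `R = ⌊X^(1/4)⌋₊`: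
`≤ L C C' (X/ht + X^(1/4)) L ≤ (…) L³`.
-/

set_option autoImplicit false

namespace Pool.MP_dd84fd_nt.HX

open Finset Pool.MP_67663b_nt.Odd Pool.MP_dd84fd_nt.En Pool.MP_dd84fd_nt.E2 Pool.MP_dd84fd_nt.LS
open Pool.MP_dd84fd_nt.L2G (nrm)
open Pool.MP_dd84fd_nt.GX
open Pool.MP_dd84fd_nt.PL (rr Fam)

private theorem gfa_swap (N : ℕ) (F : ℕ → ℕ → ℂ) :
    ∑ n ∈ Icc 1 N, ∑ d ∈ n.divisors, F d (n / d) =
      ∑ d ∈ Icc 1 N, ∑ e ∈ Icc 1 (N / d), F d e := by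
  rw [Finset.sum_sigma', Finset.sum_sigma']
  refine Finset.sum_bij' (fun p _ => (⟨p.2, p.1 / p.2⟩ : Σ _ : ℕ, ℕ))
    (fun p _ => (⟨p.1 * p.2, p.1⟩ : Σ _ : ℕ, ℕ)) ?_ ?_ ?_ ?_ ?_
  · rintro ⟨n, d⟩ h
    rw [Finset.mem_sigma, Finset.mem_Icc, Nat.mem_divisors] at h
    obtain ⟨⟨h1, h2⟩, h3, h4⟩ := h
    simp only at h1 h2 h3 h4
    rw [Finset.mem_sigma, Finset.mem_Icc, Finset.mem_Icc]
    have hd : 0 < d := Nat.pos_of_dvd_of_pos h3 (by omega)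
    have hdn : d ≤ n := Nat.le_of_dvd (by omega) h3
    refine ⟨⟨hd, by simp only; omega⟩, ?_, ?_⟩
    · exact Nat.div_pos hdn hd
    · exact Nat.div_le_div_right h2
  · rintro ⟨d, e⟩ h
    rw [Finset.mem_sigma, Finset.mem_Icc, Finset.mem_Icc] at h
    obtain ⟨⟨h1, h2⟩, h3, h4⟩ := h
    simp only at h1 h2 h3 h4
    rw [Finset.mem_sigma, Finset.mem_Icc, Nat.mem_divisors]
    have hde : d * e ≤ N := by
      calc d * e ≤ d * (N / d) := Nat.mul_le_mul_left _ h4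
        _ ≤ N := Nat.mul_div_le N d
    refine ⟨⟨Nat.mul_pos h1 h3, hde⟩, Dvd.intro _ rfl, ?_⟩
    exact (Nat.mul_pos h1 h3).ne'
  · rintro ⟨n, d⟩ h
    rw [Finset.mem_sigma, Finset.mem_Icc, Nat.mem_divisors] at h
    obtain ⟨⟨h1, h2⟩, h3, h4⟩ := h
    simp only at h3
    simp only [Nat.mul_div_cancel' h3]
  · rintro ⟨d, e⟩ h
    rw [Finset.mem_sigma, Finset.mem_Icc, Finset.mem_Icc] at h
    obtain ⟨⟨h1, h2⟩, h3, h4⟩ := h
    simp only at h1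
    simp only [Nat.mul_div_cancel_left e (show 0 < d from h1)]
  · rintro ⟨n, d⟩ h
    rfl

theorem fa_exp (h2 : WDabs) (D' : ℕ) (hD : 1 ≤ D') : ∃ η : ℝ, 0 < η ∧ ∃ X0 : ℕ, ∀ X : ℕ, X0 ≤ X →
    ∀ δ : ℝ, 0 < δ → δ ≤ 1 / 2000 → ∃ E : ℕ → ℝ, ∑ n ∈ Icc 1 X, E n ^ 2 ≤ (X : ℝ) ^ (1 - η) ∧
    ∀ θ : ℝ, ‖∑ n ∈ Icc 1 X, ((fa δ X (wX D' X) n - E n : ℝ) : ℂ) * ee ((n : ℝ) * θ)‖ ≤
      ((X : ℝ) / ht X θ + (X : ℝ) ^ (1 / 4 : ℝ)) * (Real.log X) ^ 3 := by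
  obtain ⟨η, hη, X1, hX1⟩ := model_coef D' hD
  obtain ⟨C1, X2, hC1, hX2⟩ := gw_var h2
  obtain ⟨C2, X3, hC2, hX3⟩ := gw_exp h2
  obtain ⟨C3, hC3, X4, hX4⟩ := typeI_ker
  refine ⟨η / 2, by positivity, max (max (max X1 X2) (max X3 X4))
    (max ⌈Real.exp (1 + C2 * C3)⌉₊ ⌈(C1 ^ 2) ^ (2 / η)⌉₊), fun X hX δ hδ hδ' => ?_⟩
  simp only [max_le_iff] at hX
  obtain ⟨⟨⟨g1, g2⟩, g3, g4⟩, g5, g6⟩ := hX
  have hXe : Real.exp (1 + C2 * C3) ≤ (X : ℝ) := Nat.ceil_le.mp g5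
  have hX0 : (0 : ℝ) < X := lt_of_lt_of_le (Real.exp_pos _) hXe
  have hXn : 0 < X := by exact_mod_cast hX0
  have hL : 1 + C2 * C3 ≤ Real.log (X : ℝ) := by
    rw [Real.le_log_iff_exp_le hX0]
    exact hXe
  have hCC : 0 < C2 * C3 := mul_pos hC2 hC3
  have hX1' : (1 : ℝ) ≤ X := by exact_mod_cast hXn
  obtain ⟨v, e, hv, hv0, he, hf⟩ := hX1 X g1
  obtain ⟨hg, -⟩ := hX2 X g2 δ hδ hδ'
  have hk := hX3 X g3 δ hδ hδ'
  set L := Real.log (X : ℝ) with hLd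
  have hL0 : 0 ≤ L := by linarith
  set g : ℕ → ℝ := fun n => (1 - wD δ X n) / Real.log n with hgd
  refine ⟨fun n => g n * e n, ?_, fun θ => ?_⟩
  · -- the remainder
    have h3 : ∑ n ∈ Icc 1 X, (g n * e n) ^ 2 ≤ C1 ^ 2 * ∑ n ∈ Icc 1 X, e n ^ 2 := by
      rw [Finset.mul_sum]
      refine Finset.sum_le_sum fun n hn => ?_
      rw [mul_pow]
      refine mul_le_mul_of_nonneg_right ?_ (sq_nonneg _)
      rw [← sq_abs (g n)]
      exact pow_le_pow_left₀ (abs_nonneg _) (hg n hn) 2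
    refine h3.trans ((mul_le_mul_of_nonneg_left he (sq_nonneg _)).trans ?_)
    have h4 : C1 ^ 2 ≤ (X : ℝ) ^ (η / 2) := by
      have h5 : (C1 ^ 2) ^ (2 / η) ≤ (X : ℝ) := Nat.ceil_le.mp g6
      have h6 := Real.rpow_le_rpow (by positivity) h5 (show 0 ≤ η / 2 by positivity)
      rw [← Real.rpow_mul (sq_nonneg C1)] at h6
      have h7 : 2 / η * (η / 2) = 1 := by field_simp
      rw [h7, Real.rpow_one] at h6
      exact h6
    calc C1 ^ 2 * (X : ℝ) ^ (1 - η) ≤ (X : ℝ) ^ (η / 2) * (X : ℝ) ^ (1 - η) :=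
          mul_le_mul_of_nonneg_right h4 (by positivity)
      _ = (X : ℝ) ^ (1 - η / 2) := by
          rw [← Real.rpow_add hX0]
          congr 1
          ring
  · -- the exponential sum
    have h3 : ∑ n ∈ Icc 1 X, ((fa δ X (wX D' X) n - g n * e n : ℝ) : ℂ) * ee ((n : ℝ) * θ) =
        ∑ d ∈ Icc 1 X, ((v d : ℝ) : ℂ) * ∑ k ∈ Icc 1 (X / d),
          (((1 - wD δ X (d * k)) / Real.log (d * k : ℕ) : ℝ) : ℂ) *
            ee (((d * k : ℕ) : ℝ) * θ) := by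
      have h4 := gfa_swap X (fun d k => ((v d : ℝ) : ℂ) *
        ((((1 - wD δ X (d * k)) / Real.log (d * k : ℕ) : ℝ) : ℂ) * ee (((d * k : ℕ) : ℝ) * θ)))
      simp only [← Finset.mul_sum] at h4
      rw [← h4]
      refine Finset.sum_congr rfl fun n hn => ?_
      have h5 : ∀ d ∈ n.divisors, ((v d : ℝ) : ℂ) *
          ((((1 - wD δ X (d * (n / d))) / Real.log (d * (n / d) : ℕ) : ℝ) : ℂ) *
            ee (((d * (n / d) : ℕ) : ℝ) * θ)) =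
          ((v d : ℝ) : ℂ) * (((g n : ℝ) : ℂ) * ee ((n : ℝ) * θ)) := by
        intro d hd
        rw [Nat.mul_div_cancel' (Nat.dvd_of_mem_divisors hd)]
      rw [Finset.sum_congr rfl h5, ← Finset.sum_mul]
      have h6 : fa δ X (wX D' X) n - g n * e n = g n * ∑ d ∈ n.divisors, v d := by
        unfold fa
        rw [hf n hn, hgd]
        ring
      rw [h6]
      push_cast
      ring
    rw [h3]
    set R : ℕ := ⌊(X : ℝ) ^ (1 / 4 : ℝ)⌋₊ with hRd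
    have hXq : (X : ℝ) ^ (1 / 4 : ℝ) ≤ X := by
      have := Real.rpow_le_rpow_of_exponent_le hX1' (show (1 / 4 : ℝ) ≤ 1 by norm_num)
      rwa [Real.rpow_one] at this
    have hR : (R : ℝ) ≤ (X : ℝ) ^ (1 / 4 : ℝ) := Nat.floor_le (by positivity)
    have hRX : R ≤ X := by exact_mod_cast hR.trans hXq
    have h7 : ∑ d ∈ Icc 1 X, ((v d : ℝ) : ℂ) * ∑ k ∈ Icc 1 (X / d),
          (((1 - wD δ X (d * k)) / Real.log (d * k : ℕ) : ℝ) : ℂ) * ee (((d * k : ℕ) : ℝ) * θ) =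
        ∑ d ∈ Icc 1 R, ((v d : ℝ) : ℂ) * ∑ k ∈ Icc 1 (X / d),
          (((1 - wD δ X (d * k)) / Real.log (d * k : ℕ) : ℝ) : ℂ) *
            ee (((d * k : ℕ) : ℝ) * θ) := by
      symm
      refine Finset.sum_subset (Finset.Icc_subset_Icc le_rfl hRX) fun d hd hd' => ?_
      have h8 : R < d := by
        rw [mem_Icc] at hd hd'
        omega
      have h9 : (X : ℝ) ^ (1 / 4 : ℝ) < d := (Nat.floor_lt (by positivity)).1 h8
      rw [hv0 d h9]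
      simp
    rw [h7]
    have h10 : ‖∑ d ∈ Icc 1 R, ((v d : ℝ) : ℂ) * ∑ k ∈ Icc 1 (X / d),
          (((1 - wD δ X (d * k)) / Real.log (d * k : ℕ) : ℝ) : ℂ) *
            ee (((d * k : ℕ) : ℝ) * θ)‖ ≤
        ∑ d ∈ Icc 1 R, L * (C2 * L2G.mn ((X : ℝ) / d) ((d : ℝ) * θ)) := by
      refine norm_sum_le_of_le _ fun d hd => ?_
      rw [mem_Icc] at hd
      rw [norm_mul, Complex.norm_real, Real.norm_eq_abs]
      exact mul_le_mul (hv d) (hk d θ hd.1 (hd.2.trans hRX)) (norm_nonneg _) hL0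
    refine h10.trans ?_
    rw [← Finset.mul_sum, ← Finset.mul_sum]
    have h11 := hX4 X g4 θ R hRX
    have hht : 0 ≤ (X : ℝ) / ht X θ := by
      have := (ht_spec X hXn θ).1
      positivity
    have h12 : C3 * ((X : ℝ) / ht X θ + R) * L ≤
        C3 * ((X : ℝ) / ht X θ + (X : ℝ) ^ (1 / 4 : ℝ)) * L := by
      refine mul_le_mul_of_nonneg_right (mul_le_mul_of_nonneg_left ?_ hC3.le) hL0
      linarith
    set Y : ℝ := (X : ℝ) / ht X θ + (X : ℝ) ^ (1 / 4 : ℝ) with hY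
    have hY0 : 0 ≤ Y := by positivity
    calc L * (C2 * ∑ d ∈ Icc 1 R, L2G.mn ((X : ℝ) / d) ((d : ℝ) * θ))
        ≤ L * (C2 * (C3 * Y * L)) :=
          mul_le_mul_of_nonneg_left (mul_le_mul_of_nonneg_left (h11.trans h12) hC2.le) hL0
      _ = C2 * C3 * (Y * L ^ 2) := by ring
      _ ≤ L * (Y * L ^ 2) := mul_le_mul_of_nonneg_right (by linarith) (by positivity)
      _ = Y * L ^ 3 := by ring

end Pool.MP_dd84fd_nt.HX
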