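import Pool.Agent.Lib.MP_dd84fd_nt.HX.GrNrm
import Pool.Agent.Lib.MP_67663b_nt.OddB.LSieve

/-!
# HX-GrLS (0.5 h): the large sieve for `W_s` and for arcs

`ls_pts`: `large_sieve_c` (namespace `Pool.MP_67663b_nt.Odd`, `δ := ρ`, `N := X`, `A := Icc 1 X`), `4π ≤ 13`, `coef_le`: `∑ |c_n|² ≤ X (log X)^4`.
`ls_arcs`: interchange the finite sum and the integral (`intervalIntegral.integral_finsetSum`, everything continuous); for every `x`: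
`∑_i ‖W_-‖‖W_+‖(x_i + x) ≤ (1/2) ∑_i (‖W_-‖² + ‖W_+‖²) ≤ (1/ρ + 13 X) X (log X)^4` (`ls_pts` for the points `x_i + x`, same spacing); the interval has length `2r/X`
(`intervalIntegral.integral_mono_on`, or `norm_integral_le_of_norm_le_const`).
-/

set_option autoImplicit false

namespace Pool.MP_dd84fd_nt.HX

open Finset Pool.MP_67663b_nt.Odd Pool.MP_dd84fd_nt.En Pool.MP_dd84fd_nt.E2 Pool.MP_dd84fd_nt.LS
open Pool.MP_dd84fd_nt.L2G (nrm)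
open Pool.MP_dd84fd_nt.GX
open Pool.MP_dd84fd_nt.PL (rr Fam)

theorem ls_pts (h1 : AnAbs) (h2 : WDabs) (D' : ℕ) : ∃ X0 : ℕ, ∀ X : ℕ, X0 ≤ X → ∀ δ : ℝ, 0 < δ →
    δ ≤ 1 / 2000 → ∀ s : ℝ, |s| ≤ 1 → ∀ (S : Finset (Σ _ : ℕ, ℕ)) (x : (Σ _ : ℕ, ℕ) → ℝ) (ρ : ℝ),
    0 < ρ → ρ ≤ 1 → (∀ i ∈ S, ∀ j ∈ S, i ≠ j → ∀ z : ℤ, ρ ≤ |x i - x j - z|) →
    ∑ i ∈ S, ‖WH s δ (wX D' X) X (x i)‖ ^ 2 ≤ (1 / ρ + 13 * X) * (X * (Real.log X) ^ 4) := by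
  obtain ⟨X0, hX0⟩ := coef_le h1 h2 D'
  refine ⟨max X0 1, fun X hX δ hδ hδ' s hs S x ρ hρ hρ1 hsp => ?_⟩
  have hXp : (0 : ℝ) < X := by
    have : 1 ≤ X := (le_max_right _ _).trans hX
    exact_mod_cast this
  have hc := hX0 X ((le_max_left _ _).trans hX) δ hδ hδ' s hs
  have h := large_sieve_c S x hρ hρ1 hsp (Icc 1 X)
    (fun n => ((an δ X n + s * fa δ X (wX D' X) n : ℝ) : ℂ)) (N := (X : ℝ)) hXp
    (fun n hn => by exact_mod_cast (mem_Icc.1 hn).2)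
  have e1 : ∑ i ∈ S, ‖WH s δ (wX D' X) X (x i)‖ ^ 2 = ∑ i ∈ S,
      ‖∑ n ∈ Icc 1 X, ((an δ X n + s * fa δ X (wX D' X) n : ℝ) : ℂ) * ee (n * x i)‖ ^ 2 := rfl
  rw [e1]
  refine h.trans ?_
  have h3 : ∑ n ∈ Icc 1 X, ‖((an δ X n + s * fa δ X (wX D' X) n : ℝ) : ℂ)‖ ^ 2 ≤
      X * (Real.log X) ^ 4 := by
    refine (Finset.sum_le_card_nsmul _ _ ((Real.log X) ^ 4) fun n hn => ?_).trans (le_of_eq ?_)
    · rw [Complex.norm_real, Real.norm_eq_abs]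
      calc |an δ X n + s * fa δ X (wX D' X) n| ^ 2 ≤ ((Real.log X) ^ 2) ^ 2 :=
            pow_le_pow_left₀ (abs_nonneg _) (hc n hn) 2
        _ = (Real.log X) ^ 4 := by ring
    · rw [Nat.card_Icc, nsmul_eq_mul, Nat.add_sub_cancel]
  have hpi : 4 * Real.pi ≤ 13 := by
    have := Real.pi_lt_d2
    linarith
  have h4 : ρ⁻¹ + 4 * Real.pi * X ≤ 1 / ρ + 13 * X := by
    rw [one_div]
    have := mul_le_mul_of_nonneg_right hpi hXp.le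
    linarith
  exact mul_le_mul h4 h3 (sum_nonneg fun _ _ => by positivity) (by positivity)

theorem ls_arcs (h1 : AnAbs) (h2 : WDabs) (D' : ℕ) : ∃ X0 : ℕ, ∀ X : ℕ, X0 ≤ X → ∀ δ : ℝ, 0 < δ →
    δ ≤ 1 / 2000 → ∀ (r : ℝ), 0 ≤ r → ∀ (S : Finset (Σ _ : ℕ, ℕ)) (x : (Σ _ : ℕ, ℕ) → ℝ) (ρ : ℝ),
    0 < ρ → ρ ≤ 1 → (∀ i ∈ S, ∀ j ∈ S, i ≠ j → ∀ z : ℤ, ρ ≤ |x i - x j - z|) →
    ∑ i ∈ S, arcI δ (wX D' X) X r (x i) ≤ 2 * r / X * ((1 / ρ + 13 * X) * (X * (Real.log X) ^ 4)) := by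
  obtain ⟨X0, hX0⟩ := ls_pts h1 h2 D'
  refine ⟨max X0 1, fun X hX δ hδ hδ' r hr S x ρ hρ hρ1 hsp => ?_⟩
  have hXp : (0 : ℝ) < X := by
    have : 1 ≤ X := (le_max_right _ _).trans hX
    exact_mod_cast this
  have hp := hX0 X ((le_max_left _ _).trans hX) δ hδ hδ'
  set B : ℝ := (1 / ρ + 13 * X) * (X * (Real.log X) ^ 4) with hB
  set w := wX D' X with hw
  have hrX : -r / (X : ℝ) ≤ r / X := by
    rw [neg_div]
    have : 0 ≤ r / (X : ℝ) := by positivity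
    linarith
  have hcont : ∀ i : (Σ _ : ℕ, ℕ), Continuous (fun y : ℝ => ‖WH (-1) δ w X (x i + y)‖ *
      ‖WH 1 δ w X (x i + y)‖) := fun i =>
    (((WH_cont (-1) δ w X).comp (continuous_const.add continuous_id)).norm).mul
      (((WH_cont 1 δ w X).comp (continuous_const.add continuous_id)).norm)
  unfold arcI
  rw [← intervalIntegral.integral_finsetSum
    (fun i _ => (hcont i).intervalIntegrable _ _)]
  have hle : ∫ y in (-r / (X : ℝ))..(r / X), ∑ i ∈ S, ‖WH (-1) δ w X (x i + y)‖ *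
      ‖WH 1 δ w X (x i + y)‖ ≤ ∫ _y in (-r / (X : ℝ))..(r / X), B := by
    refine intervalIntegral.integral_mono_on hrX
      ((continuous_finsetSum _ fun i _ => hcont i).intervalIntegrable _ _)
      (continuous_const.intervalIntegrable _ _) ?_
    intro y _
    have hsp' : ∀ i ∈ S, ∀ j ∈ S, i ≠ j → ∀ z : ℤ, ρ ≤ |(x i + y) - (x j + y) - z| := by
      intro i hi j hj hij z
      have := hsp i hi j hj hij z
      rwa [show (x i + y) - (x j + y) - (z : ℝ) = x i - x j - z by ring]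
    have hm := hp (-1) (by norm_num) S (fun i => x i + y) ρ hρ hρ1 hsp'
    have hq := hp 1 (by norm_num) S (fun i => x i + y) ρ hρ hρ1 hsp'
    calc ∑ i ∈ S, ‖WH (-1) δ w X (x i + y)‖ * ‖WH 1 δ w X (x i + y)‖
        ≤ ∑ i ∈ S, (‖WH (-1) δ w X (x i + y)‖ ^ 2 + ‖WH 1 δ w X (x i + y)‖ ^ 2) / 2 := by
          refine sum_le_sum fun i _ => ?_
          nlinarith [sq_nonneg (‖WH (-1) δ w X (x i + y)‖ - ‖WH 1 δ w X (x i + y)‖)]
      _ = (∑ i ∈ S, ‖WH (-1) δ w X (x i + y)‖ ^ 2 +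
            ∑ i ∈ S, ‖WH 1 δ w X (x i + y)‖ ^ 2) / 2 := by
          rw [← sum_add_distrib, sum_div]
      _ ≤ B := by linarith
  refine hle.trans (le_of_eq ?_)
  rw [intervalIntegral.integral_const, smul_eq_mul]
  ring

end Pool.MP_dd84fd_nt.HX
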