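import Pool.Agent.Lib.MP_dd84fd_nt.HX.GrLS
import Pool.Agent.Lib.MP_dd84fd_nt.HX.GrFrac

/-!
# HX-GrMass (0.6 h): the total mass, and the mass of the non-coincident fractions

`mass_h`: `ls_arcs` with `r = 2 L^K2`, `S = (Icc 1 ⌊P0⌋₊).sigma rr`, `ρ = 1/P0^2` (`fr_dist`, `lcm(q,q') ≤ q q' ≤ P0²`): `≤ 4 L^K2/X (P0² + 13 X) X L^4`, `P0² = X^(1+5δ)`: `≤ 56 L^(K2+4) X^(1+5δ) ≤ X^(1+6δ)` (`MP_log_pow`).
`non_mass`: `S = QS.sigma (nrr δ X QS)`, `ρ = 1/X`: for `(q,a) ≠ (q',a')`: `q = q'`: `fr_dist` gives `≥ 1/lcm(q,q) = 1/q ≥ 1/P0 ≥ 1/X`; `q ≠ q'`: not coincident, so `> X^(-1+δ) ≥ X^(-1)`.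
`≤ 4 L^K2/X · 14 X · X L^4 = 56 X L^(K2+4) ≤ X L^(K2+5)`.
-/

set_option autoImplicit false

namespace Pool.MP_dd84fd_nt.HX

open Finset Pool.MP_67663b_nt.Odd Pool.MP_dd84fd_nt.En Pool.MP_dd84fd_nt.E2 Pool.MP_dd84fd_nt.LS
open Pool.MP_dd84fd_nt.L2G (nrm)
open Pool.MP_dd84fd_nt.GX
open Pool.MP_dd84fd_nt.PL (rr Fam)

private theorem gm_one_le_P0 {δ : ℝ} (hδ : 0 < δ) {X : ℕ} (hX : 1 ≤ X) : 1 ≤ P0 δ X := by
  unfold P0
  exact Real.one_le_rpow (by exact_mod_cast hX) (by linarith)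

private theorem gm_P0_sq {δ : ℝ} {X : ℕ} (hX : 1 ≤ X) : P0 δ X ^ 2 = (X : ℝ) ^ (1 + 5 * δ) := by
  have hX0 : (0 : ℝ) < X := by exact_mod_cast hX
  unfold P0
  rw [sq, ← Real.rpow_add hX0]
  congr 1
  ring

theorem mass_h (h1 : AnAbs) (h2 : WDabs) (K2 D' : ℕ) (δ : ℝ) (hδ : 0 < δ) (hδ1 : δ ≤ 1 / 2000) :
    ∃ X0 : ℕ, ∀ X : ℕ, X0 ≤ X →
    ∑ q ∈ Icc 1 ⌊P0 δ X⌋₊, WtH δ (wX D' X) X (2 * (Real.log X) ^ K2) q ≤ (X : ℝ) ^ (1 + 6 * δ) := by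
  obtain ⟨X1, hls⟩ := ls_arcs h1 h2 D'
  obtain ⟨X2, hlog⟩ := E2.MP_log_pow 56 (K2 + 4) hδ
  refine ⟨max (max X1 X2) 1, ?_⟩
  intro X hX
  have hX1 : X1 ≤ X := by omega
  have hX2 : X2 ≤ X := by omega
  have hXn : 1 ≤ X := by omega
  have hX0 : (0 : ℝ) < X := by exact_mod_cast hXn
  have hXr : (1 : ℝ) ≤ X := by exact_mod_cast hXn
  have hL0 : 0 ≤ Real.log X := Real.log_nonneg hXr
  have hP1 := gm_one_le_P0 hδ hXn
  have hP0 : 0 < P0 δ X := by linarith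
  set S : Finset (Σ _ : ℕ, ℕ) := (Icc 1 ⌊P0 δ X⌋₊).sigma (fun q => rr q) with hS
  have hspace : ∀ i ∈ S, ∀ j ∈ S, i ≠ j → ∀ z : ℤ,
      1 / P0 δ X ^ 2 ≤ |(i.2 : ℝ) / i.1 - (j.2 : ℝ) / j.1 - z| := by
    intro i hi j hj hij z
    rw [hS, mem_sigma, mem_Icc] at hi hj
    have e1 : (i.1 : ℝ) ≤ P0 δ X :=
      (Nat.cast_le.2 hi.1.2).trans (Nat.floor_le hP0.le)
    have e2 : (j.1 : ℝ) ≤ P0 δ X :=
      (Nat.cast_le.2 hj.1.2).trans (Nat.floor_le hP0.le)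
    refine le_trans ?_ (fr_dist hi.1.1 hj.1.1 hi.2 hj.2 ?_ z)
    · have hlcm0 : 0 < Nat.lcm i.1 j.1 := Nat.lcm_pos (by omega) (by omega)
      have hlcm : (Nat.lcm i.1 j.1 : ℝ) ≤ P0 δ X ^ 2 := by
        have h3 : Nat.lcm i.1 j.1 ≤ i.1 * j.1 :=
          Nat.le_of_dvd (Nat.mul_pos (by omega) (by omega))
            (Nat.lcm_dvd (Nat.dvd_mul_right _ _) (Nat.dvd_mul_left _ _))
        calc (Nat.lcm i.1 j.1 : ℝ) ≤ (i.1 : ℝ) * j.1 := by exact_mod_cast h3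
          _ ≤ P0 δ X * P0 δ X := mul_le_mul e1 e2 (by positivity) hP0.le
          _ = P0 δ X ^ 2 := (sq _).symm
      exact one_div_le_one_div_of_le (by exact_mod_cast hlcm0) hlcm
    · rintro ⟨h3, h4⟩
      exact hij (Sigma.ext h3 (heq_of_eq h4))
  have hρ1 : 1 / P0 δ X ^ 2 ≤ 1 := by
    rw [div_le_one (by positivity)]
    exact one_le_pow₀ hP1
  have hmain := hls X hX1 δ hδ hδ1 (2 * (Real.log X) ^ K2) (by positivity) S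
    (fun i => (i.2 : ℝ) / i.1) (1 / P0 δ X ^ 2) (by positivity) hρ1 hspace
  have hsum : ∑ q ∈ Icc 1 ⌊P0 δ X⌋₊, WtH δ (wX D' X) X (2 * (Real.log X) ^ K2) q =
      ∑ i ∈ S, arcI δ (wX D' X) X (2 * (Real.log X) ^ K2) ((i.2 : ℝ) / i.1) := by
    unfold WtH
    rw [hS, Finset.sum_sigma]
  rw [hsum]
  refine hmain.trans ?_
  rw [one_div_one_div, gm_P0_sq hXn]
  have hXle : (X : ℝ) ≤ (X : ℝ) ^ (1 + 5 * δ) := by
    calc (X : ℝ) = (X : ℝ) ^ (1 : ℝ) := (Real.rpow_one _).symm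
      _ ≤ _ := Real.rpow_le_rpow_of_exponent_le hXr (by linarith)
  calc 2 * (2 * (Real.log X) ^ K2) / X *
        (((X : ℝ) ^ (1 + 5 * δ) + 13 * X) * (X * (Real.log X) ^ 4))
      = 4 * (Real.log X) ^ (K2 + 4) * ((X : ℝ) ^ (1 + 5 * δ) + 13 * X) := by
        rw [pow_add]; field_simp; ring
    _ ≤ 4 * (Real.log X) ^ (K2 + 4) * (14 * (X : ℝ) ^ (1 + 5 * δ)) :=
        mul_le_mul_of_nonneg_left (by linarith) (by positivity)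
    _ = 56 * (Real.log X) ^ (K2 + 4) * (X : ℝ) ^ (1 + 5 * δ) := by ring
    _ ≤ (X : ℝ) ^ δ * (X : ℝ) ^ (1 + 5 * δ) :=
        mul_le_mul_of_nonneg_right (hlog X hX2) (by positivity)
    _ = (X : ℝ) ^ (1 + 6 * δ) := by
        rw [← Real.rpow_add hX0]; congr 1; ring

theorem non_mass (h1 : AnAbs) (h2 : WDabs) (K2 D' : ℕ) (δ : ℝ) (hδ : 0 < δ) (hδ1 : δ ≤ 1 / 2000) :
    ∃ X0 : ℕ, ∀ X : ℕ, X0 ≤ X → ∀ QS : Finset ℕ, (∀ q ∈ QS, 1 ≤ q ∧ (q : ℝ) ≤ P0 δ X) →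
    ∑ q ∈ QS, ∑ a ∈ nrr δ X QS q, arcI δ (wX D' X) X (2 * (Real.log X) ^ K2) ((a : ℝ) / q) ≤
      X * (Real.log X) ^ (K2 + 5) := by
  classical
  obtain ⟨X1, hls⟩ := ls_arcs h1 h2 D'
  refine ⟨max X1 (⌈Real.exp 56⌉₊ + 1), ?_⟩
  intro X hX QS hQS
  have hX1 : X1 ≤ X := by omega
  have hXe : ⌈Real.exp 56⌉₊ ≤ X := by omega
  have hXn : 1 ≤ X := by omega
  have hX0 : (0 : ℝ) < X := by exact_mod_cast hXn
  have hXr : (1 : ℝ) ≤ X := by exact_mod_cast hXn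
  have hL : 56 ≤ Real.log X := by
    rw [Real.le_log_iff_exp_le hX0]
    exact (Nat.le_ceil _).trans (by exact_mod_cast hXe)
  have hL0 : 0 ≤ Real.log X := by linarith
  have hPX : P0 δ X ≤ X := by
    unfold P0
    calc (X : ℝ) ^ (1 / 2 + 5 / 2 * δ) ≤ (X : ℝ) ^ (1 : ℝ) :=
          Real.rpow_le_rpow_of_exponent_le hXr (by linarith)
      _ = X := Real.rpow_one _
  set S : Finset (Σ _ : ℕ, ℕ) := QS.sigma (fun q => nrr δ X QS q) with hS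
  have hspace : ∀ i ∈ S, ∀ j ∈ S, i ≠ j → ∀ z : ℤ,
      1 / (X : ℝ) ≤ |(i.2 : ℝ) / i.1 - (j.2 : ℝ) / j.1 - z| := by
    intro i hi j hj hij z
    rw [hS, mem_sigma] at hi hj
    have hi2 := hi.2
    have hj2 := hj.2
    unfold nrr at hi2 hj2
    rw [mem_filter] at hi2 hj2
    by_cases hq : i.1 = j.1
    · refine le_trans ?_ (fr_dist (hQS _ hi.1).1 (hQS _ hj.1).1 hi2.1 hj2.1 ?_ z)
      · rw [← hq, Nat.lcm_self]
        exact one_div_le_one_div_of_le (by exact_mod_cast (hQS _ hi.1).1)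
          ((hQS _ hi.1).2.trans hPX)
      · rintro ⟨h3, h4⟩
        exact hij (Sigma.ext h3 (heq_of_eq h4))
    · have h3 : (X : ℝ) ^ (-1 + δ) < |(i.2 : ℝ) / i.1 - (j.2 : ℝ) / j.1 - z| := by
        by_contra hcon
        exact hi2.2 ⟨j.1, hj.1, fun h => hq h.symm, j.2, hj2.1, z, not_lt.1 hcon⟩
      refine le_trans ?_ h3.le
      calc 1 / (X : ℝ) = (X : ℝ) ^ (-1 : ℝ) := by rw [Real.rpow_neg_one, one_div]
        _ ≤ (X : ℝ) ^ (-1 + δ) := Real.rpow_le_rpow_of_exponent_le hXr (by linarith)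
  have hρ1 : 1 / (X : ℝ) ≤ 1 := by
    rw [div_le_one hX0]; exact hXr
  have hmain := hls X hX1 δ hδ hδ1 (2 * (Real.log X) ^ K2) (by positivity) S
    (fun i => (i.2 : ℝ) / i.1) (1 / (X : ℝ)) (by positivity) hρ1 hspace
  have hsum : ∑ q ∈ QS, ∑ a ∈ nrr δ X QS q,
      arcI δ (wX D' X) X (2 * (Real.log X) ^ K2) ((a : ℝ) / q) =
      ∑ i ∈ S, arcI δ (wX D' X) X (2 * (Real.log X) ^ K2) ((i.2 : ℝ) / i.1) := by
    rw [hS, Finset.sum_sigma]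
  rw [hsum]
  refine hmain.trans ?_
  rw [one_div_one_div]
  calc 2 * (2 * (Real.log X) ^ K2) / X * (((X : ℝ) + 13 * X) * (X * (Real.log X) ^ 4))
      = X * (Real.log X) ^ (K2 + 4) * 56 := by
        rw [pow_add]; field_simp; ring
    _ ≤ X * (Real.log X) ^ (K2 + 4) * Real.log X :=
        mul_le_mul_of_nonneg_left hL (by positivity)
    _ = X * (Real.log X) ^ (K2 + 5) := by rw [mul_assoc, ← pow_succ]

end Pool.MP_dd84fd_nt.HX
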