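import Pool.Agent.Lib.MP_dd84fd_nt.HX.GrExpI
import Pool.Agent.Lib.MP_dd84fd_nt.HX.GrExpII
import Pool.Agent.Lib.MP_dd84fd_nt.HX.GrFa

/-!
# HX-GrStr: `W_-` is structured plus an `L²`-small remainder

`Dec2` with `B = A + 2`: `an = typeI + ∑_{i < I} typeII_i + err`; `fa_exp`: `fa = (fa - E') + E'`. `E n = err n - E' n`: `∑ E² ≤ 2 X/L^(A+2) + 2 X^(1-η) ≤ X/L^A`.
`∑ (an - fa - E)(n) ee(nθ) = ∑ typeI + ∑_i ∑ typeII_i - ∑ (fa - E')`. `ht ≥ X^(1/2-4δ)/4`: `X/ht ≤ 4 X^(1/2+4δ) ≤ X^(11/20)`. `expI_h`: `≤ (X^(11/20) + X^(2/5)) L³`; `expII_h` with `M = M_i`: `M_i ≥ U ≥ X^(1/3)` (`Uu = ⌊X^(1/3+3δ)⌋₊`),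
`M_i ≤ y2 ≤ X^(1/2)`: `‖.‖² ≤ X (X^(2/3) + X^(11/20) + X^(1/2)) L^10 ≤ 3 X^(5/3) L^10`, `‖.‖ ≤ 2 X^(5/6) L^5`, `I ≤ L^C`; `fa_exp`: `≤ (X^(11/20) + X^(1/4)) L³`. Total `≤ X^(17/20)` (`5/6 < 17/20`, `MP_log_pow`).
-/

set_option autoImplicit false

namespace Pool.MP_dd84fd_nt.HX

open Finset Pool.MP_67663b_nt.Odd Pool.MP_dd84fd_nt.En Pool.MP_dd84fd_nt.E2 Pool.MP_dd84fd_nt.LS
open Pool.MP_dd84fd_nt.L2G (nrm)
open Pool.MP_dd84fd_nt.GX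
open Pool.MP_dd84fd_nt.PL (rr Fam)

/-- numerical end of `str_h` -/
theorem str_num (C A : ℕ) (δ η : ℝ) (hδ : 0 < δ) (hη : 0 < η) : ∃ X0 : ℕ,
    ∀ X : ℕ, X0 ≤ X → 1 ≤ X ∧ 2 ≤ Real.log X ∧ 4 * (Real.log X) ^ A ≤ (X : ℝ) ^ η ∧
      13 * (Real.log X) ^ (C + 5) ≤ (X : ℝ) ^ (1 / 60 : ℝ) ∧
      (X : ℝ) ^ (1 / 3 : ℝ) / 2 ≤ Uu δ X ∧ 1 ≤ (X : ℝ) ^ (1 / 3 : ℝ) / 2 := by
  obtain ⟨X1, h1⟩ := MP_log_large 2
  obtain ⟨X2, h2⟩ := MP_log_pow 4 A hη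
  obtain ⟨X3, h3⟩ := MP_log_pow 13 (C + 5) (show (0 : ℝ) < 1 / 60 by norm_num)
  obtain ⟨X4, h4⟩ := MP_log_pow 2 0 (show (0 : ℝ) < 1 / 3 by norm_num)
  refine ⟨max (max (max X1 X2) (max X3 X4)) 1, fun X hX => ?_⟩
  simp only [max_le_iff] at hX
  obtain ⟨⟨⟨g1, g2⟩, g3, g4⟩, g5⟩ := hX
  have k4 := h4 X g4
  rw [pow_zero, mul_one] at k4
  have hX1 : (1 : ℝ) ≤ X := by exact_mod_cast g5
  refine ⟨g5, h1 X g1, h2 X g2, h3 X g3, ?_, by linarith⟩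
  have k5 : (X : ℝ) ^ (1 / 3 : ℝ) ≤ (X : ℝ) ^ (1 / 3 + 3 * δ) :=
    Real.rpow_le_rpow_of_exponent_le hX1 (by linarith)
  have k6 := Nat.lt_floor_add_one ((X : ℝ) ^ (1 / 3 + 3 * δ))
  unfold Uu
  linarith

theorem str_h (h1 : Dec2) (h2 : WDabs) (A D' : ℕ) (hD : 1 ≤ D') (δ : ℝ) (hδ : 0 < δ)
    (hδ1 : δ ≤ 1 / 2000) : ∃ X0 : ℕ, ∀ X : ℕ, X0 ≤ X → ∃ E : ℕ → ℝ,
    ∑ n ∈ Icc 1 X, E n ^ 2 ≤ X / (Real.log X) ^ A ∧
    ∀ θ : ℝ, (X : ℝ) ^ (1 / 2 - 4 * δ) / 4 ≤ ht X θ →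
    ‖∑ n ∈ Icc 1 X, ((an δ X n - fa δ X (wX D' X) n - E n : ℝ) : ℂ) * ee ((n : ℝ) * θ)‖ ≤
      (X : ℝ) ^ (17 / 20 : ℝ) := by
  obtain ⟨C, hC⟩ := h1 (A + 2)
  obtain ⟨X1, hX1⟩ := hC δ hδ hδ1
  obtain ⟨η, hη, X2, hX2⟩ := fa_exp h2 D' hD
  obtain ⟨X3, hX3⟩ := expI_h
  obtain ⟨X4, hX4⟩ := expII_h
  obtain ⟨X5, hX5⟩ := str_num C A δ η hδ hη
  refine ⟨max (max (max X1 X2) (max X3 X4)) X5, fun X hX => ?_⟩
  simp only [max_le_iff] at hX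
  obtain ⟨⟨⟨g1, g2⟩, g3, g4⟩, g5⟩ := hX
  obtain ⟨m1, m2, m3, m4, m5, m6⟩ := hX5 X g5
  obtain ⟨α, β, I, M, K, a, c, err, c1, c2, c3, c4, c5, c6, _, c8, c9⟩ := hX1 X g1
  obtain ⟨E', e1, e2⟩ := hX2 X g2 δ hδ hδ1
  have hXp : (1 : ℝ) ≤ X := by exact_mod_cast m1
  have hX0 : (0 : ℝ) < X := by linarith
  set L := Real.log (X : ℝ) with hL
  have hL0 : 0 < L := by linarith
  refine ⟨fun n => err n - E' n, ?_, ?_⟩
  · have f1 : ∑ n ∈ Icc 1 X, (err n - E' n) ^ 2 ≤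
        2 * (∑ n ∈ Icc 1 X, err n ^ 2) + 2 * (∑ n ∈ Icc 1 X, E' n ^ 2) := by
      rw [mul_sum, mul_sum, ← sum_add_distrib]
      apply sum_le_sum
      intro n _
      nlinarith [sq_nonneg (err n + E' n)]
    have f2 : (X : ℝ) ^ (1 - η) * (4 * L ^ A) ≤ X := by
      calc (X : ℝ) ^ (1 - η) * (4 * L ^ A) ≤ (X : ℝ) ^ (1 - η) * (X : ℝ) ^ η := by
            apply mul_le_mul_of_nonneg_left m3
            positivity
        _ = X := by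
            rw [← Real.rpow_add hX0]
            norm_num
    have hLA : 0 < L ^ A := by positivity
    have f3 : 2 * (X : ℝ) ^ (1 - η) ≤ X / L ^ A / 2 := by
      rw [div_div, le_div_iff₀ (by positivity)]
      nlinarith
    have f4 : 2 * (X / L ^ (A + 2)) ≤ X / L ^ A / 2 := by
      have : X / L ^ (A + 2) = X / L ^ A / L ^ 2 := by
        rw [div_div, ← pow_add]
      rw [this]
      have f5 : X / L ^ A / L ^ 2 ≤ X / L ^ A / 4 := by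
        apply div_le_div_of_nonneg_left (by positivity) (by norm_num)
        nlinarith
      linarith
    linarith
  · intro θ hθ
    have hhp : 0 < ht X θ := lt_of_lt_of_le (by positivity) hθ
    -- `X / ht ≤ 4 X^(51/100)`
    have b1 : (X : ℝ) / ht X θ ≤ 4 * (X : ℝ) ^ (51 / 100 : ℝ) := by
      rw [div_le_iff₀ hhp]
      have b2 : (X : ℝ) ≤ (X : ℝ) ^ (51 / 100 : ℝ) * (X : ℝ) ^ (1 / 2 - 4 * δ) := by
        rw [← Real.rpow_add hX0]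
        nth_rewrite 1 [← Real.rpow_one (X : ℝ)]
        exact Real.rpow_le_rpow_of_exponent_le hXp (by linarith)
      have b3 : 0 < (X : ℝ) ^ (51 / 100 : ℝ) := by positivity
      nlinarith
    have hle : ∀ s t : ℝ, s ≤ t → (X : ℝ) ^ s ≤ (X : ℝ) ^ t :=
      fun s t h => Real.rpow_le_rpow_of_exponent_le hXp h
    -- decomposition
    have dec : ∑ n ∈ Icc 1 X, ((an δ X n - fa δ X (wX D' X) n - (err n - E' n) : ℝ) : ℂ) *
          ee ((n : ℝ) * θ) =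
        (∑ n ∈ Icc 1 X, ((∑ l ∈ n.divisors, (α l + β l / Real.log n) : ℝ) : ℂ) *
          ee ((n : ℝ) * θ)) +
        (∑ i ∈ range I, ∑ n ∈ Icc 1 X, ((∑ m ∈ n.divisors,
          (if n / m ≤ K i then a i m * c i (n / m) else 0) : ℝ) : ℂ) * ee ((n : ℝ) * θ)) -
        ∑ n ∈ Icc 1 X, ((fa δ X (wX D' X) n - E' n : ℝ) : ℂ) * ee ((n : ℝ) * θ) := by
      rw [sum_comm (s := range I), ← sum_add_distrib, ← sum_sub_distrib]
      apply sum_congr rfl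
      intro n hn
      rw [c8 n hn, ← sum_mul, ← add_mul, ← sub_mul]
      congr 1
      push_cast
      ring
    have t1 : ‖∑ n ∈ Icc 1 X, ((∑ l ∈ n.divisors, (α l + β l / Real.log n) : ℝ) : ℂ) *
        ee ((n : ℝ) * θ)‖ ≤ 5 * (X : ℝ) ^ (5 / 6 : ℝ) * L ^ 5 := by
      refine (hX3 X g3 α β θ c1 c2).trans ?_
      have e3 : (X : ℝ) / ht X θ + (X : ℝ) ^ (2 / 5 : ℝ) ≤ 5 * (X : ℝ) ^ (5 / 6 : ℝ) := by
        have := hle (2 / 5) (5 / 6) (by norm_num)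
        have := hle (51 / 100) (5 / 6) (by norm_num)
        linarith
      have e4 : L ^ 3 ≤ L ^ 5 := pow_le_pow_right₀ (by linarith) (by norm_num)
      exact mul_le_mul e3 e4 (by positivity) (by positivity)
    have t3 : ‖∑ n ∈ Icc 1 X, ((fa δ X (wX D' X) n - E' n : ℝ) : ℂ) * ee ((n : ℝ) * θ)‖ ≤
        5 * (X : ℝ) ^ (5 / 6 : ℝ) * L ^ 5 := by
      refine (e2 θ).trans ?_
      have e3 : (X : ℝ) / ht X θ + (X : ℝ) ^ (1 / 4 : ℝ) ≤ 5 * (X : ℝ) ^ (5 / 6 : ℝ) := by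
        have := hle (1 / 4) (5 / 6) (by norm_num)
        have := hle (51 / 100) (5 / 6) (by norm_num)
        linarith
      have e4 : L ^ 3 ≤ L ^ 5 := pow_le_pow_right₀ (by linarith) (by norm_num)
      exact mul_le_mul e3 e4 (by positivity) (by positivity)
    have t2 : ∀ i, ‖∑ n ∈ Icc 1 X, ((∑ m ∈ n.divisors,
        (if n / m ≤ K i then a i m * c i (n / m) else 0) : ℝ) : ℂ) * ee ((n : ℝ) * θ)‖ ≤
        3 * (X : ℝ) ^ (5 / 6 : ℝ) * L ^ 5 := by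
      intro i
      obtain ⟨d1, d2, d3⟩ := c5 i
      have d4 : (X : ℝ) ^ (1 / 3 : ℝ) / 2 ≤ M i := m5.trans d1
      have d5 : M i ≤ (X : ℝ) ^ (1 / 2 : ℝ) :=
        d2.trans (hle _ _ (by linarith))
      have d6 : M i ≤ X := by
        refine d5.trans ?_
        nth_rewrite 2 [← Real.rpow_one (X : ℝ)]
        exact hle _ _ (by norm_num)
      have d7 := hX4 X g4 (M i) (K i) (a i) (c i) θ (m6.trans d4) d6 d3 (fun n => c4 i n)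
        (fun m hm => c6 i m hm)
      have d8 : (X : ℝ) / M i ≤ 2 * (X : ℝ) ^ (2 / 3 : ℝ) := by
        rw [div_le_iff₀ (by linarith)]
        have d9 : (X : ℝ) = (X : ℝ) ^ (2 / 3 : ℝ) * (X : ℝ) ^ (1 / 3 : ℝ) := by
          rw [← Real.rpow_add hX0]
          norm_num
        have d10 : 0 < (X : ℝ) ^ (2 / 3 : ℝ) := by positivity
        nlinarith
      have d11 : (X : ℝ) / M i + X / ht X θ + M i ≤ 9 * (X : ℝ) ^ (2 / 3 : ℝ) := by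
        have := hle (51 / 100) (2 / 3) (by norm_num)
        have := hle (1 / 2) (2 / 3) (by norm_num)
        linarith
      have d12 : X * ((X : ℝ) / M i + X / ht X θ + M i) * L ^ 10 ≤
          (3 * (X : ℝ) ^ (5 / 6 : ℝ) * L ^ 5) ^ 2 := by
        have e5 : (3 * (X : ℝ) ^ (5 / 6 : ℝ) * L ^ 5) ^ 2 =
            X * (9 * (X : ℝ) ^ (2 / 3 : ℝ)) * L ^ 10 := by
          have e6 : ((X : ℝ) ^ (5 / 6 : ℝ)) ^ 2 = X * (X : ℝ) ^ (2 / 3 : ℝ) := by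
            rw [← Real.rpow_natCast, ← Real.rpow_mul hX0.le]
            nth_rewrite 2 [← Real.rpow_one (X : ℝ)]
            rw [← Real.rpow_add hX0]
            norm_num
          rw [mul_pow, mul_pow, e6]
          ring
        rw [e5]
        apply mul_le_mul_of_nonneg_right _ (by positivity)
        exact mul_le_mul_of_nonneg_left d11 hX0.le
      exact abs_le_of_sq_le_sq' (d7.trans d12) (by positivity) |>.2
    rw [dec]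
    refine (norm_sub_le _ _).trans ?_
    have t4 : ‖∑ i ∈ range I, ∑ n ∈ Icc 1 X, ((∑ m ∈ n.divisors,
        (if n / m ≤ K i then a i m * c i (n / m) else 0) : ℝ) : ℂ) * ee ((n : ℝ) * θ)‖ ≤
        L ^ C * (3 * (X : ℝ) ^ (5 / 6 : ℝ) * L ^ 5) := by
      refine (norm_sum_le _ _).trans ?_
      refine (sum_le_sum (fun i _ => t2 i)).trans ?_
      rw [sum_const, card_range, nsmul_eq_mul]
      exact mul_le_mul_of_nonneg_right c3 (by positivity)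
    have t5 : 1 ≤ L ^ C := one_le_pow₀ (by linarith)
    have t6 : 0 < (X : ℝ) ^ (5 / 6 : ℝ) * L ^ 5 := by positivity
    have t7 := norm_add_le (∑ n ∈ Icc 1 X, ((∑ l ∈ n.divisors, (α l + β l / Real.log n) : ℝ) : ℂ) *
          ee ((n : ℝ) * θ)) (∑ i ∈ range I, ∑ n ∈ Icc 1 X, ((∑ m ∈ n.divisors,
          (if n / m ≤ K i then a i m * c i (n / m) else 0) : ℝ) : ℂ) * ee ((n : ℝ) * θ))
    have t8 : (X : ℝ) ^ (17 / 20 : ℝ) = (X : ℝ) ^ (5 / 6 : ℝ) * (X : ℝ) ^ (1 / 60 : ℝ) := by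
      rw [← Real.rpow_add hX0]
      norm_num
    have t9 : (X : ℝ) ^ (5 / 6 : ℝ) * (13 * L ^ (C + 5)) ≤
        (X : ℝ) ^ (5 / 6 : ℝ) * (X : ℝ) ^ (1 / 60 : ℝ) :=
      mul_le_mul_of_nonneg_left m4 (by positivity)
    rw [t8]
    refine le_trans ?_ t9
    have t10 : (X : ℝ) ^ (5 / 6 : ℝ) * (13 * L ^ (C + 5)) =
        L ^ C * (3 * (X : ℝ) ^ (5 / 6 : ℝ) * L ^ 5) +
          10 * (L ^ C * ((X : ℝ) ^ (5 / 6 : ℝ) * L ^ 5)) := by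
      rw [pow_add]
      ring
    rw [t10]
    nlinarith

end Pool.MP_dd84fd_nt.HX
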