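import Pool.Agent.Lib.MP_dd84fd_nt.HX.KsApd1

/-!
# HX-KsApd2 (1.2 h): the number of approximations is at most `128 X^(12δ)`

Put `h1 = X / (4 y3)` (`y3 = X^(1/2+3δ) ≥ √X`, so `h1 ≤ √X/4`), `y3 / h1 = 4 y3² / X = 4 X^(6δ)`.
* `apd_ht`: suppose `ht X α < h1`. Let `D = qd X α`, `a0 = round (D α)`; `qd_apd`. For each `d ∈ Apd`, `a = round (d α)`:
  `|d a0 - D a| ≤ d nrm (D α) + D nrm (d α) ≤ y3 h1 / X + h1 y3 / X = 1/2 < 1` (`D ≤ ht < h1`, `X nrm (D α) ≤ ht < h1`), so `d a0 = D a`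
  and as in `apd_det` (or by its first part, contrapositive) `d = D`. So `d = D = d'`, contradiction.
* `apd_card`: if `card ≤ 1` trivial (`X^(12δ) ≥ 1`). Otherwise pick two elements: `ht X α ≥ h1` by `apd_ht`. The map
  `d ↦ (⌊d / h1⌋, ⌊X (d α - round (d α)) / h1⌋) ∈ ℤ × ℤ` is injective on `Apd`: if `d' < d` have the same image, `D = d - d'`:
  `1 ≤ D < h1` and `X |D α - (a - a')| < h1`, so `X nrm (D α) < h1` (`nrm x ≤ |x - m|` for every integer `m`: look for `L2G` lemmas on `nrm`, `round_le`);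
  `GX.near_frac` (`h1 ≤ √X/4`, `h1/X ≤ 1/(4√X)`): `qd ∣ D` and `(D/qd) ht = max D (X nrm (D α)) < h1`, `D/qd ≥ 1`: `ht < h1`, contradiction.
  The image lies in `[0, ⌊y3/h1⌋] × [⌊-y3/h1⌋, ⌊y3/h1⌋]`: at most `(4 X^(6δ) + 1)(8 X^(6δ) + 2) ≤ 50 X^(12δ)` elements.
-/

set_option autoImplicit false

namespace Pool.MP_dd84fd_nt.HX

open Finset Pool.MP_67663b_nt.Odd Pool.MP_dd84fd_nt.En Pool.MP_dd84fd_nt.E2 Pool.MP_dd84fd_nt.LS
open Pool.MP_dd84fd_nt.L2G (nrm)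
open Pool.MP_dd84fd_nt.GX

private theorem k2_det (α : ℝ) (d d' : ℕ) (a a' : ℤ) :
    |(d : ℝ) * a' - d' * a| ≤ d * |d' * α - a'| + d' * |d * α - a| := by
  have h1 : (d : ℝ) * a' - d' * a = d' * (d * α - a) - d * (d' * α - a') := by ring
  rw [h1]
  refine (abs_sub _ _).trans ?_
  have e1 : |(d' : ℝ) * (d * α - a)| = d' * |d * α - a| := by
    rw [abs_mul, abs_of_nonneg (Nat.cast_nonneg d')]
  have e2 : |(d : ℝ) * (d' * α - a')| = d * |d' * α - a'| := by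
    rw [abs_mul, abs_of_nonneg (Nat.cast_nonneg d)]
  rw [e1, e2]
  linarith

/-- two primitive vectors on one line -/
private theorem k2_prim (d d' : ℕ) (a a' : ℤ) (hd : 1 ≤ d) (hd' : 1 ≤ d') (h : (d : ℤ) * a' = d' * a)
    (hg : Int.gcd a d = 1) (hg' : Int.gcd a' d' = 1) : d = d' ∧ a = a' := by
  have h1 : (d : ℤ) ∣ d' := by
    have h2 : (d : ℤ) ∣ d' * a := ⟨a', h.symm⟩
    have hc : IsCoprime (d : ℤ) a := by
      rw [Int.isCoprime_iff_gcd_eq_one, Int.gcd_comm]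
      exact hg
    exact hc.dvd_of_dvd_mul_right h2
  have h3 : (d' : ℤ) ∣ d := by
    have h2 : (d' : ℤ) ∣ d * a' := ⟨a, h⟩
    have hc : IsCoprime (d' : ℤ) a' := by
      rw [Int.isCoprime_iff_gcd_eq_one, Int.gcd_comm]
      exact hg'
    exact hc.dvd_of_dvd_mul_right h2
  have h4 : d = d' := Nat.dvd_antisymm (Int.natCast_dvd_natCast.1 h1) (Int.natCast_dvd_natCast.1 h3)
  subst h4
  refine ⟨rfl, ?_⟩
  have hd0 : (d : ℤ) ≠ 0 := by
    have : (1 : ℤ) ≤ d := by exact_mod_cast hd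
    omega
  exact (mul_left_cancel₀ hd0 h).symm

/-- if a vector is very short, `Apd` has at most one element -/
theorem ap_short (δ : ℝ) (X : ℕ) (hX : 1 ≤ X) (α : ℝ) (D : ℕ) (a0 : ℤ) (hD : 1 ≤ D)
    (h1 : (D : ℝ) < X / (4 * y3 δ X)) (h2 : X * |D * α - a0| < X / (4 * y3 δ X)) (d d' : ℕ)
    (hd : d ∈ Apd δ X α) (hd' : d' ∈ Apd δ X α) : d = d' := by
  have hX0 : (0 : ℝ) < X := by exact_mod_cast hX
  have hy : 0 < y3 δ X := Real.rpow_pos_of_pos hX0 _
  have key : ∀ c : ℕ, c ∈ Apd δ X α → (c : ℤ) * a0 = D * round (c * α) := by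
    intro c hc
    rw [apd_mem] at hc
    have h3 := k2_det α c D (round ((c : ℝ) * α)) a0
    have h4 : (c : ℝ) * |D * α - a0| < 1 / 4 := by
      have h5 : |D * α - a0| < 1 / (4 * y3 δ X) := by
        rw [lt_div_iff₀ (by positivity)]
        rw [lt_div_iff₀ (by positivity)] at h2
        have h6 : X * (|D * α - a0| * (4 * y3 δ X)) < X * 1 := by linarith
        exact lt_of_mul_lt_mul_left h6 hX0.le
      calc (c : ℝ) * |D * α - a0| ≤ y3 δ X * |D * α - a0| :=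
            mul_le_mul_of_nonneg_right hc.2.1 (abs_nonneg _)
        _ < y3 δ X * (1 / (4 * y3 δ X)) := mul_lt_mul_of_pos_left h5 hy
        _ = 1 / 4 := by field_simp
    have h7 : (D : ℝ) * |c * α - (round ((c : ℝ) * α) : ℤ)| ≤ 1 / 4 := by
      have h8 : |(c : ℝ) * α - (round ((c : ℝ) * α) : ℤ)| ≤ y3 δ X / X := by
        rw [le_div_iff₀ hX0, mul_comm]
        exact hc.2.2.1
      calc (D : ℝ) * |c * α - (round ((c : ℝ) * α) : ℤ)| ≤ (X / (4 * y3 δ X)) * (y3 δ X / X) :=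
            mul_le_mul h1.le h8 (abs_nonneg _) (by positivity)
        _ = 1 / 4 := by field_simp
    have h9 : |(((c : ℤ) * a0 - D * round ((c : ℝ) * α) : ℤ) : ℝ)| < 1 := by
      push_cast
      linarith
    have h10 : |((c : ℤ) * a0 - D * round ((c : ℝ) * α) : ℤ)| < 1 := by exact_mod_cast h9
    have h11 := Int.abs_lt_one_iff.1 h10
    linarith
  have k1 := key d hd
  have k2 := key d' hd'
  rw [apd_mem] at hd hd'
  have hD0 : (D : ℤ) ≠ 0 := by
    have : (1 : ℤ) ≤ D := by exact_mod_cast hD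
    omega
  have h3 : (d : ℤ) * round ((d' : ℝ) * α) = d' * round ((d : ℝ) * α) := by
    have h4 : (D : ℤ) * (d * round ((d' : ℝ) * α)) = D * (d' * round ((d : ℝ) * α)) := by
      calc (D : ℤ) * (d * round ((d' : ℝ) * α)) = d * (D * round ((d' : ℝ) * α)) := by ring
        _ = d * (d' * a0) := by rw [← k2]
        _ = d' * (d * a0) := by ring
        _ = d' * (D * round ((d : ℝ) * α)) := by rw [k1]
        _ = D * (d' * round ((d : ℝ) * α)) := by ring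
    exact mul_left_cancel₀ hD0 h4
  exact (k2_prim d d' _ _ hd.1 hd'.1 h3 hd.2.2.2 hd'.2.2.2).1

theorem apd_ht (δ : ℝ) (hδ : 0 ≤ δ) (X : ℕ) (hX : 1 ≤ X) (α : ℝ) (d d' : ℕ)
    (h : d ∈ Apd δ X α) (h' : d' ∈ Apd δ X α) (hne : d ≠ d') :
    (X : ℝ) / (4 * y3 δ X) ≤ ht X α := by
  by_contra hc
  have hc' := not_le.1 hc
  obtain ⟨h1, h2⟩ := ht_spec X hX α
  have h3 := qd_spec X hX α
  refine hne (ap_short δ X hX α (qd X α) (round ((qd X α : ℝ) * α)) h3.1
    (lt_of_le_of_lt h2.2.1 hc') (lt_of_le_of_lt ?_ hc') d d' h h')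
  exact h2.2.2

theorem apd_card (δ : ℝ) (hδ : 0 ≤ δ) (X : ℕ) (hX : 1 ≤ X) (α : ℝ) :
    ((Apd δ X α).card : ℝ) ≤ 128 * (X : ℝ) ^ (12 * δ) := by
  have hX1 : (1 : ℝ) ≤ X := by exact_mod_cast hX
  have hX0 : (0 : ℝ) < X := by linarith
  have hy : 0 < y3 δ X := Real.rpow_pos_of_pos hX0 _
  obtain ⟨h1, hh1⟩ : ∃ h1 : ℝ, h1 = X / (4 * y3 δ X) := ⟨_, rfl⟩
  have hh10 : 0 < h1 := by rw [hh1]; positivity
  obtain ⟨K, hK⟩ : ∃ K : ℝ, K = y3 δ X / h1 := ⟨_, rfl⟩
  have hyy : y3 δ X ^ 2 = X * (X : ℝ) ^ (6 * δ) := by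
    unfold y3
    rw [← Real.rpow_natCast, ← Real.rpow_mul hX0.le]
    nth_rewrite 2 [← Real.rpow_one (X : ℝ)]
    rw [← Real.rpow_add hX0]
    congr 1
    push_cast
    ring
  have hK4 : K = 4 * (X : ℝ) ^ (6 * δ) := by
    rw [hK, hh1, div_div_eq_mul_div, div_eq_iff hX0.ne']
    calc y3 δ X * (4 * y3 δ X) = 4 * y3 δ X ^ 2 := by ring
      _ = 4 * (X : ℝ) ^ (6 * δ) * X := by rw [hyy]; ring
  have hX6 : 1 ≤ (X : ℝ) ^ (6 * δ) := Real.one_le_rpow hX1 (by positivity)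
  have hK1 : 4 ≤ K := by rw [hK4]; linarith
  have hX12 : (X : ℝ) ^ (12 * δ) = ((X : ℝ) ^ (6 * δ)) ^ 2 := by
    rw [← Real.rpow_natCast, ← Real.rpow_mul hX0.le]
    congr 1
    push_cast
    ring
  by_cases hc : (Apd δ X α).card ≤ 1
  · have h2 : ((Apd δ X α).card : ℝ) ≤ 1 := by exact_mod_cast hc
    rw [hX12]
    nlinarith
  · have hc2 : 1 < (Apd δ X α).card := not_le.1 hc
    obtain ⟨d0, hd0, d1, hd1, hne⟩ := Finset.one_lt_card.1 hc2
    have hno : ∀ (D : ℕ) (a0 : ℤ), 1 ≤ D → (D : ℝ) < h1 → ¬ X * |D * α - a0| < h1 := by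
      intro D a0 hD hD1 hD2
      rw [hh1] at hD1 hD2
      exact hne (ap_short δ X hX α D a0 hD hD1 hD2 d0 d1 hd0 hd1)
    -- the pigeonhole map
    let f : ℕ → ℕ × ℕ := fun d => (⌊(d : ℝ) / h1⌋₊,
      ⌊(X * (d * α - (round ((d : ℝ) * α) : ℤ)) + y3 δ X) / h1⌋₊)
    have hmaps : Set.MapsTo f (Apd δ X α) (range (⌊K⌋₊ + 1) ×ˢ range (⌊2 * K⌋₊ + 1) : Finset (ℕ × ℕ)) := by
      intro d hd
      have hd' : d ∈ Apd δ X α := hd
      rw [apd_mem] at hd'
      obtain ⟨e1, e2, e3, e4⟩ := hd'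
      have e5 : |X * ((d : ℝ) * α - (round ((d : ℝ) * α) : ℤ))| ≤ y3 δ X := by
        rw [abs_mul, abs_of_pos hX0]
        exact e3
      rw [abs_le] at e5
      show f d ∈ (range (⌊K⌋₊ + 1) ×ˢ range (⌊2 * K⌋₊ + 1) : Finset (ℕ × ℕ))
      rw [Finset.mem_product, Finset.mem_range, Finset.mem_range]
      refine ⟨Nat.lt_succ_of_le (Nat.floor_le_floor ?_), Nat.lt_succ_of_le (Nat.floor_le_floor ?_)⟩
      · rw [hK]
        exact div_le_div_of_nonneg_right e2 hh10.le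
      · rw [hK, ← mul_div_assoc]
        exact div_le_div_of_nonneg_right (by linarith [e5.2]) hh10.le
    have hinj : Set.InjOn f (Apd δ X α) := by
      have key : ∀ d d' : ℕ, d ∈ Apd δ X α → d' ∈ Apd δ X α → f d = f d' → ¬ d < d' := by
        intro d d' hd hd' hf hlt
        rw [apd_mem] at hd hd'
        obtain ⟨e1, e2, e3, e4⟩ := hd
        obtain ⟨e1', e2', e3', e4'⟩ := hd'
        have hf1 : ⌊(d : ℝ) / h1⌋₊ = ⌊(d' : ℝ) / h1⌋₊ := (Prod.ext_iff.1 hf).1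
        have hf2 : ⌊(X * (d * α - (round ((d : ℝ) * α) : ℤ)) + y3 δ X) / h1⌋₊ =
          ⌊(X * (d' * α - (round ((d' : ℝ) * α) : ℤ)) + y3 δ X) / h1⌋₊ := (Prod.ext_iff.1 hf).2
        have b : |X * ((d : ℝ) * α - (round ((d : ℝ) * α) : ℤ))| ≤ y3 δ X := by
          rw [abs_mul, abs_of_pos hX0]
          exact e3
        have b' : |X * ((d' : ℝ) * α - (round ((d' : ℝ) * α) : ℤ))| ≤ y3 δ X := by
          rw [abs_mul, abs_of_pos hX0]
          exact e3'
        rw [abs_le] at b b'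
        have hfl : ∀ x y : ℝ, 0 ≤ x → 0 ≤ y → ⌊x⌋₊ = ⌊y⌋₊ → |y - x| < 1 := by
          intro x y hx hy hxy
          have a1 := Nat.floor_le hx
          have a2 := Nat.lt_floor_add_one x
          have a3 := Nat.floor_le hy
          have a4 := Nat.lt_floor_add_one y
          rw [hxy] at a1 a2
          rw [abs_lt]
          constructor <;> linarith
        have c1 := hfl _ _ (by positivity) (by positivity) hf1
        have c2 := hfl _ _ (div_nonneg (by linarith [b.1]) hh10.le)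
          (div_nonneg (by linarith [b'.1]) hh10.le) hf2
        refine hno (d' - d) (round ((d' : ℝ) * α) - round ((d : ℝ) * α)) (by omega) ?_ ?_
        · rw [Nat.cast_sub hlt.le]
          rw [← sub_div, abs_div, abs_of_pos hh10, div_lt_one hh10] at c1
          exact lt_of_le_of_lt (le_abs_self _) c1
        · rw [← sub_div, abs_div, abs_of_pos hh10, div_lt_one hh10] at c2
          rw [Nat.cast_sub hlt.le]
          push_cast
          have e : (X * ((d' : ℝ) * α - (round ((d' : ℝ) * α) : ℤ)) + y3 δ X) -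
              (X * ((d : ℝ) * α - (round ((d : ℝ) * α) : ℤ)) + y3 δ X) =
              X * (((d' : ℝ) - d) * α - ((round ((d' : ℝ) * α) : ℤ) - (round ((d : ℝ) * α) : ℤ))) := by
            ring
          rw [e, abs_mul, abs_of_pos hX0] at c2
          exact c2
      intro d hd d' hd' hf
      have hd2 : d ∈ Apd δ X α := hd
      have hd2' : d' ∈ Apd δ X α := hd'
      rcases lt_trichotomy d d' with h | h | h
      · exact absurd h (key d d' hd2 hd2' hf)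
      · exact h
      · exact absurd h (key d' d hd2' hd2 hf.symm)
    have hcard := Finset.card_le_card_of_injOn f hmaps hinj
    rw [Finset.card_product, Finset.card_range, Finset.card_range] at hcard
    have h2 : ((Apd δ X α).card : ℝ) ≤ (⌊K⌋₊ + 1) * (⌊2 * K⌋₊ + 1) := by exact_mod_cast hcard
    have h3 : (⌊K⌋₊ : ℝ) ≤ K := Nat.floor_le (by linarith)
    have h4 : (⌊2 * K⌋₊ : ℝ) ≤ 2 * K := Nat.floor_le (by linarith)
    calc ((Apd δ X α).card : ℝ) ≤ (⌊K⌋₊ + 1) * (⌊2 * K⌋₊ + 1) := h2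
      _ ≤ (K + 1) * (2 * K + 1) := mul_le_mul (by linarith) (by linarith) (by positivity) (by linarith)
      _ ≤ 8 * K ^ 2 := by nlinarith
      _ = 128 * (X : ℝ) ^ (12 * δ) := by rw [hK4, hX12]; ring

end Pool.MP_dd84fd_nt.HX
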