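import Pool.Agent.Lib.MP_dd84fd_nt.HX.KsApd1
import Pool.Agent.Lib.MP_dd84fd_nt.GX.RelCnt

/-!
# HX-KsCc (1.5 h): two denominators rarely occur at the same point

* `cc_pair`: by symmetry `d' < d`, so `d ≥ X/(2 y3)` (`apd_det`; if no `j` satisfies the condition the count is `0`). `V0 = 2 y3²/X = 2 X^(6δ)`, `g = gcd(d, d')`.
  For `j` counted put `a = round (d α_j) ∈ [0, d]`, `a' = round (d' α_j)`, `v = d a' - d' a` (`0 ≤ α_j < 1`). `v ≠ 0`, `g ∣ v`, `|v| ≤ V0`, so `g ≤ V0`. Number of possible `a`: for given `v`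
  two solutions `(a1, a1'), (a2, a2')` satisfy `d (a1' - a2') = d' (a1 - a2)`, so `(d/g) ∣ a1 - a2`: at most `g + 1 ≤ V0 + 1` values `a ∈ [0, d]`; there are `≤ 2 V0 + 1` values `v`: at most
  `(2 V0 + 1)(V0 + 1) ≤ 5 V0² = 20 X^(12δ)` values of `a` (`V0 ≥ 2`). For each `a`: `|α_j - a/d| ≤ y3/(X d) ≤ 2 y3²/X² = 2 X^(6δ)/X`, `α_j = j.val/G`: `j.val` lies in an interval of length
  `4 X^(6δ) G/X`, so at most `4 X^(6δ) G/X + 1 ≤ 5 X^(6δ) G/X` values (`G ≥ X`; `GX.relcnt_Icc`). Total `≤ 100 X^(18δ) G/X`.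
* `cc_count`: union bound over the pairs of elements of `P`: `(1/G) X^(60δ) 200 X^(18δ) G/X ≤ X^(-1+80δ)` for `X ≥ X0` (`200 ≤ X^(2δ)`).
-/

set_option autoImplicit false

namespace Pool.MP_dd84fd_nt.HX

open Finset Pool.MP_67663b_nt.Odd Pool.MP_dd84fd_nt.En Pool.MP_dd84fd_nt.E2 Pool.MP_dd84fd_nt.LS
open Pool.MP_dd84fd_nt.L2G (nrm)
open Pool.MP_dd84fd_nt.GX

private theorem cc_fib {α β : Type*} [DecidableEq β] (s : Finset α) (f : α → β) (c : ℝ)
    (h : ∀ b ∈ s.image f, ((s.filter (fun x => f x = b)).card : ℝ) ≤ c) :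
    (s.card : ℝ) ≤ c * (s.image f).card := by
  rw [card_eq_sum_card_image f s]
  push_cast
  have := sum_le_card_nsmul (s.image f) (fun b => ((s.filter (fun x => f x = b)).card : ℝ)) c h
  rw [nsmul_eq_mul] at this
  linarith [this]

private theorem cc_ap (S : Finset ℤ) (d m : ℤ) (hm : 0 < m) (hd : 0 ≤ d)
    (h : ∀ x ∈ S, 0 ≤ x ∧ x ≤ d)
    (hdiv : ∀ x ∈ S, ∀ y ∈ S, m ∣ x - y) : (S.card : ℝ) ≤ (d : ℝ) / m + 1 := by
  have hm' : (0 : ℝ) < m := by exact_mod_cast hm
  have hd' : (0 : ℝ) ≤ d := by exact_mod_cast hd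
  rcases S.eq_empty_or_nonempty with h0 | ⟨x0, hx0⟩
  · rw [h0]
    simp
    positivity
  · have h1 : S.card ≤ (Icc ⌈-((x0 : ℝ) / m)⌉ ⌊((d : ℝ) - x0) / m⌋).card := by
      apply card_le_card_of_injOn (fun x => (x - x0) / m)
      · intro x hx
        obtain ⟨k, hk⟩ := hdiv x hx x0 hx0
        have h2 : (x - x0) / m = k := by
          rw [hk]
          exact Int.mul_ediv_cancel_left k hm.ne'
        have h3 := h x hx
        have hkr : (m : ℝ) * k = x - x0 := by exact_mod_cast hk.symm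
        have h5 : (0 : ℝ) ≤ x := by exact_mod_cast h3.1
        have h6 : (x : ℝ) ≤ d := by exact_mod_cast h3.2
        simp only [coe_Icc, Set.mem_Icc, h2]
        constructor
        · apply Int.ceil_le.mpr
          rw [neg_le, ← sub_nonneg]
          have : (x0 : ℝ) / m - -(k : ℝ) = (x0 + m * k) / m := by
            field_simp
            ring
          rw [this, hkr]
          apply div_nonneg _ hm'.le
          linarith
        · apply Int.le_floor.mpr
          rw [le_div_iff₀ hm']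
          linarith [mul_comm (k : ℝ) m]
      · intro x hx y hy hxy
        obtain ⟨k, hk⟩ := hdiv x hx x0 hx0
        obtain ⟨l, hl⟩ := hdiv y hy x0 hx0
        simp only [hk, hl, Int.mul_ediv_cancel_left _ hm.ne'] at hxy
        rw [hxy] at hk
        linarith
    have h2 := relcnt_Icc (-((x0 : ℝ) / m)) (((d : ℝ) - x0) / m) (by
      have := h x0 hx0
      have h5 : (0 : ℝ) ≤ x0 := by exact_mod_cast this.1
      have h6 : (x0 : ℝ) ≤ d := by exact_mod_cast this.2
      have h7 : 0 ≤ (x0 : ℝ) / m := by positivity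
      have h8 : 0 ≤ ((d : ℝ) - x0) / m := div_nonneg (by linarith) hm'.le
      linarith)
    have h3 : (S.card : ℝ) ≤ ((Icc ⌈-((x0 : ℝ) / m)⌉ ⌊((d : ℝ) - x0) / m⌋).card : ℝ) := by
      exact_mod_cast h1
    have h4 : ((d : ℝ) - x0) / m - -((x0 : ℝ) / m) = d / m := by ring
    linarith

private theorem cc_y3 (δ : ℝ) (X : ℕ) (hX : 1 ≤ X) :
    y3 δ X ^ 2 = (X : ℝ) * (X : ℝ) ^ (6 * δ) := by
  have hX' : (0 : ℝ) < X := by exact_mod_cast hX
  unfold y3
  rw [← Real.rpow_natCast, ← Real.rpow_mul hX'.le]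
  nth_rewrite 2 [← Real.rpow_one (X : ℝ)]
  rw [← Real.rpow_add hX']
  congr 1
  push_cast
  ring

private theorem cc_al (G : ℕ) [NeZero G] (j : ZMod G) : 0 ≤ al G j ∧ al G j ≤ 1 := by
  have hG : (0 : ℝ) < G := by exact_mod_cast Nat.pos_of_ne_zero (NeZero.ne G)
  unfold al
  constructor
  · positivity
  · rw [div_le_one hG]
    exact_mod_cast (ZMod.val_lt j).le

private theorem cc_round (d : ℕ) (α : ℝ) (h0 : 0 ≤ α) (h1 : α ≤ 1) :
    0 ≤ round ((d : ℝ) * α) ∧ round ((d : ℝ) * α) ≤ d := by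
  have hd : (0 : ℝ) ≤ d := by positivity
  constructor
  · rw [round_eq]
    apply Int.le_floor.mpr
    push_cast
    have := mul_nonneg hd h0
    linarith
  · rw [round_eq]
    have h2 : (d : ℝ) * α ≤ d := mul_le_of_le_one_right hd h1
    have h3 : ⌊(d : ℝ) * α + 1 / 2⌋ < (d : ℤ) + 1 := by
      apply Int.floor_lt.mpr
      push_cast
      linarith
    linarith

open Classical in
private theorem cc_fiber (δ : ℝ) (X G : ℕ) [NeZero G] (hX : 1 ≤ X) (hG : 3 * X ≤ G)
    (hδ : 0 < δ) (d : ℕ) (hd1 : (X : ℝ) / (2 * y3 δ X) ≤ d) (a : ℤ) :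
    ((((univ : Finset (ZMod G)).filter
      (fun j => (X : ℝ) * nrm ((d : ℝ) * al G j) ≤ y3 δ X ∧
        round ((d : ℝ) * al G j) = a)).card : ℕ) : ℝ) ≤
      5 * (X : ℝ) ^ (6 * δ) * ((G : ℝ) / X) := by
  have hX' : (0 : ℝ) < X := by exact_mod_cast hX
  have hX1 : (1 : ℝ) ≤ X := by exact_mod_cast hX
  have hG' : (0 : ℝ) < G := by exact_mod_cast Nat.pos_of_ne_zero (NeZero.ne G)
  have hy : 0 < y3 δ X := by unfold y3; positivity
  have hd0 : (0 : ℝ) < d := lt_of_lt_of_le (by positivity) hd1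
  have hy2 := cc_y3 δ X hX
  have hP : 1 ≤ (X : ℝ) ^ (6 * δ) := Real.one_le_rpow hX1 (by positivity)
  set c : ℝ := (G : ℝ) * a / d with hc
  set r : ℝ := 2 * (X : ℝ) ^ (6 * δ) * ((G : ℝ) / X) with hr
  have hr0 : 0 ≤ r := by positivity
  have h1 : (((univ : Finset (ZMod G)).filter
      (fun j => (X : ℝ) * nrm ((d : ℝ) * al G j) ≤ y3 δ X ∧
        round ((d : ℝ) * al G j) = a)).card) ≤ (Icc ⌈c - r⌉ ⌊c + r⌋).card := by
    apply card_le_card_of_injOn (fun j => (j.val : ℤ))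
    · intro j hj
      simp only [coe_filter, mem_univ, true_and, Set.mem_ofPred_eq] at hj
      obtain ⟨h2, h3⟩ := hj
      unfold L2G.nrm at h2
      rw [h3] at h2
      have h4 : |(d : ℝ) * al G j - a| ≤ y3 δ X / X := by
        rw [le_div_iff₀ hX']
        linarith [mul_comm (X : ℝ) |(d : ℝ) * al G j - a|]
      have h5 : (j.val : ℝ) = G * al G j := by
        unfold al
        field_simp
      have h6 : |(j.val : ℝ) - c| ≤ r := by
        have h7 : (j.val : ℝ) - c = (G : ℝ) / d * ((d : ℝ) * al G j - a) := by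
          rw [h5, hc]
          field_simp
        rw [h7, abs_mul, abs_of_pos (by positivity : (0 : ℝ) < (G : ℝ) / d)]
        have h8 : (G : ℝ) / d ≤ G * (2 * y3 δ X / X) := by
          rw [div_le_iff₀ hd0]
          have h9 : 1 ≤ 2 * y3 δ X / X * d := by
            rw [div_le_iff₀ (by positivity)] at hd1
            rw [div_mul_eq_mul_div, le_div_iff₀ hX']
            linarith [mul_comm (d : ℝ) (2 * y3 δ X)]
          calc (G : ℝ) = G * 1 := by ring
            _ ≤ G * (2 * y3 δ X / X * d) := mul_le_mul_of_nonneg_left h9 hG'.le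
            _ = _ := by ring
        calc (G : ℝ) / d * |(d : ℝ) * al G j - a|
            ≤ (G * (2 * y3 δ X / X)) * (y3 δ X / X) := by
              apply mul_le_mul h8 h4 (abs_nonneg _) (by positivity)
          _ = 2 * (y3 δ X ^ 2) / X * (G / X) := by
              field_simp
          _ = r := by
              rw [hy2, hr]
              field_simp
      rw [abs_le] at h6
      simp only [coe_Icc, Set.mem_Icc]
      constructor
      · apply Int.ceil_le.mpr
        push_cast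
        linarith [h6.1]
      · apply Int.le_floor.mpr
        push_cast
        linarith [h6.2]
    · intro x hx y hy' hxy
      simp only [Nat.cast_inj] at hxy
      exact ZMod.val_injective G hxy
  have h2 := relcnt_Icc (c - r) (c + r) (by linarith)
  have h3 : ((((univ : Finset (ZMod G)).filter
      (fun j => (X : ℝ) * nrm ((d : ℝ) * al G j) ≤ y3 δ X ∧
        round ((d : ℝ) * al G j) = a)).card : ℕ) : ℝ) ≤ ((Icc ⌈c - r⌉ ⌊c + r⌋).card : ℝ) := by
    exact_mod_cast h1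
  have h4 : (1 : ℝ) ≤ (G : ℝ) / X := by
    rw [le_div_iff₀ hX']
    have : (3 * X : ℝ) ≤ G := by exact_mod_cast hG
    linarith
  have h5 : 1 ≤ (X : ℝ) ^ (6 * δ) * ((G : ℝ) / X) := by
    calc (1 : ℝ) = 1 * 1 := by ring
      _ ≤ _ := mul_le_mul hP h4 zero_le_one (by positivity)
  have h6 : c + r - (c - r) = 4 * ((X : ℝ) ^ (6 * δ) * ((G : ℝ) / X)) := by
    rw [hr]
    ring
  linarith

open Classical in
private theorem cc_pair_aux (δ : ℝ) (hδ : 0 < δ) (X G : ℕ) [NeZero G] (hX : 1 ≤ X)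
    (hG : 3 * X ≤ G) (d d' : ℕ) (hlt : d' < d) :
    ((((univ : Finset (ZMod G)).filter
      (fun j => d ∈ Apd δ X (al G j) ∧ d' ∈ Apd δ X (al G j))).card : ℕ) : ℝ) ≤
      100 * (X : ℝ) ^ (18 * δ) * ((G : ℝ) / X) := by
  have hX' : (0 : ℝ) < X := by exact_mod_cast hX
  have hX1 : (1 : ℝ) ≤ X := by exact_mod_cast hX
  have hG' : (0 : ℝ) < G := by exact_mod_cast Nat.pos_of_ne_zero (NeZero.ne G)
  have hne : d ≠ d' := by omega
  set S := ((univ : Finset (ZMod G)).filter
      (fun j => d ∈ Apd δ X (al G j) ∧ d' ∈ Apd δ X (al G j))) with hS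
  rcases S.eq_empty_or_nonempty with h0 | ⟨j0, hj0⟩
  · rw [h0]
    simp only [card_empty, Nat.cast_zero]
    positivity
  have hy2 := cc_y3 δ X hX
  set P : ℝ := (X : ℝ) ^ (6 * δ) with hPdef
  have hP : 1 ≤ P := Real.one_le_rpow hX1 (by positivity)
  have hV0 : 2 * y3 δ X ^ 2 / X = 2 * P := by
    rw [hy2]
    field_simp
  have hmem : ∀ j ∈ S, d ∈ Apd δ X (al G j) ∧ d' ∈ Apd δ X (al G j) := by
    intro j hj
    rw [hS, mem_filter] at hj
    exact hj.2
  obtain ⟨hj1, hj2⟩ := hmem j0 hj0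
  have hdet := fun j (hj : j ∈ S) => apd_det δ X hX (al G j) d d' (hmem j hj).1 (hmem j hj).2 hne
  have hd1 : (X : ℝ) / (2 * y3 δ X) ≤ d := by
    have h1 := (hdet j0 hj0).2.2
    rwa [max_eq_left (by exact_mod_cast hlt.le)] at h1
  have hdpos : 0 < d := by omega
  -- the two maps
  set a : ZMod G → ℤ := fun j => round ((d : ℝ) * al G j) with ha
  set a' : ZMod G → ℤ := fun j => round ((d' : ℝ) * al G j) with ha'
  set v : ZMod G → ℤ := fun j => (d : ℤ) * a' j - d' * a j with hv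
  set T := S.image (fun j => (v j, a j)) with hT
  have hstep1 : (S.card : ℝ) ≤ (5 * P * ((G : ℝ) / X)) * T.card := by
    apply cc_fib
    intro b hb
    refine le_trans ?_ (cc_fiber δ X G hX hG hδ d hd1 b.2)
    have : ((S.filter (fun x => (v x, a x) = b)).card) ≤ (((univ : Finset (ZMod G)).filter
      (fun j => (X : ℝ) * nrm ((d : ℝ) * al G j) ≤ y3 δ X ∧
        round ((d : ℝ) * al G j) = b.2)).card) := by
      apply card_le_card
      intro j hj
      rw [mem_filter] at hj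
      rw [mem_filter]
      refine ⟨mem_univ _, ?_, ?_⟩
      · exact ((apd_mem δ X (al G j) d).mp (hmem j hj.1).1).2.2.1
      · rw [← hj.2]
    exact_mod_cast this
  -- g ≤ V0
  have hg0 : 0 < Nat.gcd d d' := Nat.gcd_pos_of_pos_left _ hdpos
  have hvle : ∀ j ∈ S, |(v j : ℝ)| ≤ 2 * P := by
    intro j hj
    have h1 := (hdet j hj).2.1
    rw [hV0] at h1
    rw [hv]
    push_cast
    exact h1
  have hg : (Nat.gcd d d' : ℝ) ≤ 2 * P := by
    have h1 := (hdet j0 hj0).1
    have h2 : ((Nat.gcd d d' : ℕ) : ℤ) ∣ v j0 := by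
      have h3 : ((Nat.gcd d d' : ℕ) : ℤ) ∣ (d : ℤ) := by exact_mod_cast Nat.gcd_dvd_left d d'
      have h4 : ((Nat.gcd d d' : ℕ) : ℤ) ∣ (d' : ℤ) := by exact_mod_cast Nat.gcd_dvd_right d d'
      exact dvd_sub (h3.mul_right _) (h4.mul_right _)
    have h3 : ((Nat.gcd d d' : ℕ) : ℤ) ≤ |v j0| := by
      apply Int.le_of_dvd (abs_pos.mpr h1)
      rwa [dvd_abs]
    have h4 : ((Nat.gcd d d' : ℕ) : ℝ) ≤ |(v j0 : ℝ)| := by exact_mod_cast h3
    exact h4.trans (hvle j0 hj0)
  -- number of pairs (v, a)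
  have hstep2 : (T.card : ℝ) ≤ (2 * P + 1) * (T.image Prod.fst).card := by
    apply cc_fib
    intro b hb
    obtain ⟨m, hm⟩ := Nat.gcd_dvd_left d d'
    obtain ⟨m', hm'⟩ := Nat.gcd_dvd_right d d'
    have hm0 : 0 < m := by
      rcases Nat.eq_zero_or_pos m with h | h
      · rw [h] at hm
        omega
      · exact h
    have hcop : Nat.Coprime m m' := by
      have h1 := Nat.coprime_div_gcd_div_gcd hg0
      have h2 : d / Nat.gcd d d' = m := Nat.div_eq_of_eq_mul_right hg0 hm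
      have h3 : d' / Nat.gcd d d' = m' := Nat.div_eq_of_eq_mul_right hg0 hm'
      rwa [h2, h3] at h1
    have hcard : (T.filter (fun x => x.1 = b)).card ≤
        ((T.filter (fun x => x.1 = b)).image Prod.snd).card := by
      rw [card_image_of_injOn]
      intro x hx y hy hxy
      simp only [coe_filter, Set.mem_ofPred_eq] at hx hy
      exact Prod.ext (hx.2.trans hy.2.symm) hxy
    have h1 : (((T.filter (fun x => x.1 = b)).image Prod.snd).card : ℝ) ≤
        ((d : ℤ) : ℝ) / ((m : ℤ) : ℝ) + 1 := by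
      apply cc_ap _ _ _ (by exact_mod_cast hm0) (by positivity)
      · intro x hx
        rw [mem_image] at hx
        obtain ⟨p, hp, rfl⟩ := hx
        rw [mem_filter, hT, mem_image] at hp
        obtain ⟨⟨j, hj, rfl⟩, -⟩ := hp
        exact cc_round d (al G j) (cc_al G j).1 (cc_al G j).2
      · intro x hx y hy
        rw [mem_image] at hx hy
        obtain ⟨p, hp, rfl⟩ := hx
        obtain ⟨q, hq, rfl⟩ := hy
        rw [mem_filter, hT, mem_image] at hp hq
        obtain ⟨⟨j, hj, rfl⟩, hpb⟩ := hp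
        obtain ⟨⟨k, hk, rfl⟩, hqb⟩ := hq
        simp only at hpb hqb ⊢
        have h2 : v j = v k := hpb.trans hqb.symm
        rw [hv] at h2
        simp only at h2
        have h3 : (d : ℤ) * (a' j - a' k) = d' * (a j - a k) := by linarith
        have h4 : (m : ℤ) * (a' j - a' k) = m' * (a j - a k) := by
          have h5 : (d : ℤ) = (Nat.gcd d d' : ℤ) * m := by exact_mod_cast hm
          have h6 : (d' : ℤ) = (Nat.gcd d d' : ℤ) * m' := by exact_mod_cast hm'
          rw [h5, h6] at h3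
          have h7 : ((Nat.gcd d d' : ℕ) : ℤ) ≠ 0 := by exact_mod_cast hg0.ne'
          apply mul_left_cancel₀ h7
          have h8 : (Nat.gcd (Nat.gcd d d' * m) (Nat.gcd d d' * m')) = Nat.gcd d d' := by
            rw [← hm, ← hm']
          linarith
        have h5 : (m : ℤ) ∣ m' * (a j - a k) := ⟨_, h4.symm⟩
        exact (Nat.isCoprime_iff_coprime.mpr hcop).dvd_of_dvd_mul_left h5
    have h2 : ((d : ℤ) : ℝ) / ((m : ℤ) : ℝ) = (Nat.gcd d d' : ℝ) := by
      have h3 : (m : ℝ) ≠ 0 := by exact_mod_cast hm0.ne'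
      have h4 : (d : ℝ) = (Nat.gcd d d' : ℝ) * m := by exact_mod_cast hm
      push_cast
      rw [div_eq_iff h3]
      exact h4
    rw [h2] at h1
    have h3 : ((T.filter (fun x => x.1 = b)).card : ℝ) ≤
        (((T.filter (fun x => x.1 = b)).image Prod.snd).card : ℝ) := by exact_mod_cast hcard
    linarith
  have hstep3 : ((T.image Prod.fst).card : ℝ) ≤ 4 * P + 1 := by
    have h1 : (T.image Prod.fst).card ≤ (Icc ⌈-(2 * P)⌉ ⌊2 * P⌋).card := by
      apply card_le_card
      intro x hx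
      rw [mem_image] at hx
      obtain ⟨p, hp, rfl⟩ := hx
      rw [hT, mem_image] at hp
      obtain ⟨j, hj, rfl⟩ := hp
      have h2 := hvle j hj
      rw [abs_le] at h2
      rw [mem_Icc]
      exact ⟨Int.ceil_le.mpr h2.1, Int.le_floor.mpr h2.2⟩
    have h2 := relcnt_Icc (-(2 * P)) (2 * P) (by linarith)
    have h3 : ((T.image Prod.fst).card : ℝ) ≤ ((Icc ⌈-(2 * P)⌉ ⌊2 * P⌋).card : ℝ) := by
      exact_mod_cast h1
    linarith
  have hP3 : (X : ℝ) ^ (18 * δ) = P ^ 3 := by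
    rw [hPdef, ← Real.rpow_natCast, ← Real.rpow_mul hX'.le]
    congr 1
    push_cast
    ring
  rw [hP3]
  have hGX : 0 ≤ (G : ℝ) / X := by positivity
  have h1 : (T.card : ℝ) ≤ 20 * P ^ 2 := by
    calc (T.card : ℝ) ≤ (2 * P + 1) * (T.image Prod.fst).card := hstep2
      _ ≤ (2 * P + 1) * (4 * P + 1) := mul_le_mul_of_nonneg_left hstep3 (by linarith)
      _ ≤ 20 * P ^ 2 := by nlinarith
  calc (S.card : ℝ) ≤ (5 * P * ((G : ℝ) / X)) * T.card := hstep1
    _ ≤ (5 * P * ((G : ℝ) / X)) * (20 * P ^ 2) :=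
        mul_le_mul_of_nonneg_left h1 (by positivity)
    _ = 100 * P ^ 3 * ((G : ℝ) / X) := by ring

open Classical in
theorem cc_pair (δ : ℝ) (hδ : 0 < δ) (X G : ℕ) [NeZero G] (hX : 1 ≤ X) (hG : 3 * X ≤ G)
    (d d' : ℕ) (hne : d ≠ d') :
    ((((univ : Finset (ZMod G)).filter
      (fun j => d ∈ Apd δ X (al G j) ∧ d' ∈ Apd δ X (al G j))).card : ℕ) : ℝ) ≤
      200 * (X : ℝ) ^ (18 * δ) * ((G : ℝ) / X) := by
  have h0 : 0 ≤ (X : ℝ) ^ (18 * δ) * ((G : ℝ) / X) := by positivity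
  rcases lt_or_gt_of_ne hne with h | h
  · have h1 := cc_pair_aux δ hδ X G hX hG d' d h
    have h2 : ((univ : Finset (ZMod G)).filter
        (fun j => d ∈ Apd δ X (al G j) ∧ d' ∈ Apd δ X (al G j))) =
        ((univ : Finset (ZMod G)).filter
        (fun j => d' ∈ Apd δ X (al G j) ∧ d ∈ Apd δ X (al G j))) := by
      apply filter_congr
      intro j _
      exact and_comm
    rw [h2]
    linarith
  · have h1 := cc_pair_aux δ hδ X G hX hG d d' h
    linarith

open Classical in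
theorem cc_count (δ : ℝ) (hδ : 0 < δ) : ∃ X0 : ℕ, ∀ X : ℕ, X0 ≤ X → ∀ (G : ℕ) [NeZero G],
    3 * X ≤ G → ∀ P : Finset ℕ, (P.card : ℝ) ≤ (X : ℝ) ^ (30 * δ) →
    (1 / (G : ℝ)) * ((((univ : Finset (ZMod G)).filter (fun j => Coi G δ X P j)).card : ℕ) : ℝ) ≤
      (X : ℝ) ^ (-1 + 80 * δ) := by
  refine ⟨⌈(200 : ℝ) ^ (1 / (2 * δ))⌉₊ + 1, ?_⟩
  intro X hX G _ hG P hP
  have hXpos : 1 ≤ X := by omega
  have hX' : (0 : ℝ) < X := by exact_mod_cast hXpos
  have hX1 : (1 : ℝ) ≤ X := by exact_mod_cast hXpos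
  have hG' : (0 : ℝ) < G := by exact_mod_cast Nat.pos_of_ne_zero (NeZero.ne G)
  have h200 : (200 : ℝ) ≤ (X : ℝ) ^ (2 * δ) := by
    have h1 : (200 : ℝ) ^ (1 / (2 * δ)) ≤ X := by
      have h2 := Nat.le_ceil ((200 : ℝ) ^ (1 / (2 * δ)))
      have h3 : (⌈(200 : ℝ) ^ (1 / (2 * δ))⌉₊ : ℝ) + 1 ≤ X := by exact_mod_cast hX
      linarith
    have h2 := Real.rpow_le_rpow (by positivity) h1 (by positivity : 0 ≤ 2 * δ)
    rw [← Real.rpow_mul (by norm_num)] at h2
    have h3 : 1 / (2 * δ) * (2 * δ) = 1 := by field_simp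
    rw [h3, Real.rpow_one] at h2
    exact h2
  have hsub : ((univ : Finset (ZMod G)).filter (fun j => Coi G δ X P j)) ⊆
      (P ×ˢ P).biUnion (fun p => if p.1 = p.2 then ∅ else (univ : Finset (ZMod G)).filter
        (fun j => p.1 ∈ Apd δ X (al G j) ∧ p.2 ∈ Apd δ X (al G j))) := by
    intro j hj
    rw [mem_filter] at hj
    obtain ⟨d, hd, d', hd', hne, h1, h2⟩ := hj.2
    rw [mem_biUnion]
    refine ⟨(d, d'), mem_product.mpr ⟨hd, hd'⟩, ?_⟩
    simp only [if_neg hne, mem_filter]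
    exact ⟨mem_univ _, h1, h2⟩
  have hcard : (((univ : Finset (ZMod G)).filter (fun j => Coi G δ X P j)).card : ℝ) ≤
      ((P.card : ℝ) * P.card) * (200 * (X : ℝ) ^ (18 * δ) * ((G : ℝ) / X)) := by
    calc (((univ : Finset (ZMod G)).filter (fun j => Coi G δ X P j)).card : ℝ)
        ≤ (((P ×ˢ P).biUnion (fun p => if p.1 = p.2 then ∅ else
            (univ : Finset (ZMod G)).filter
            (fun j => p.1 ∈ Apd δ X (al G j) ∧ p.2 ∈ Apd δ X (al G j)))).card : ℝ) := by
          exact_mod_cast card_le_card hsub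
      _ ≤ ∑ p ∈ P ×ˢ P, (((if p.1 = p.2 then ∅ else
            (univ : Finset (ZMod G)).filter
            (fun j => p.1 ∈ Apd δ X (al G j) ∧ p.2 ∈ Apd δ X (al G j)))).card : ℝ) := by
          exact_mod_cast card_biUnion_le
      _ ≤ ∑ p ∈ P ×ˢ P, (200 * (X : ℝ) ^ (18 * δ) * ((G : ℝ) / X)) := by
          apply sum_le_sum
          intro p _
          by_cases h : p.1 = p.2
          · rw [if_pos h]
            simp only [card_empty, Nat.cast_zero]
            positivity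
          · rw [if_neg h]
            exact cc_pair δ hδ X G hXpos hG p.1 p.2 h
      _ = ((P.card : ℝ) * P.card) * (200 * (X : ℝ) ^ (18 * δ) * ((G : ℝ) / X)) := by
          rw [sum_const, nsmul_eq_mul, card_product]
          push_cast
          ring
  have hPP : (P.card : ℝ) * P.card ≤ (X : ℝ) ^ (60 * δ) := by
    calc (P.card : ℝ) * P.card ≤ (X : ℝ) ^ (30 * δ) * (X : ℝ) ^ (30 * δ) :=
          mul_le_mul hP hP (by positivity) (by positivity)
      _ = (X : ℝ) ^ (60 * δ) := by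
          rw [← Real.rpow_add hX']
          congr 1
          ring
  calc (1 / (G : ℝ)) * ((((univ : Finset (ZMod G)).filter (fun j => Coi G δ X P j)).card : ℕ) : ℝ)
      ≤ (1 / (G : ℝ)) * (((P.card : ℝ) * P.card) *
          (200 * (X : ℝ) ^ (18 * δ) * ((G : ℝ) / X))) :=
        mul_le_mul_of_nonneg_left hcard (by positivity)
    _ ≤ (1 / (G : ℝ)) * ((X : ℝ) ^ (60 * δ) *
          (200 * (X : ℝ) ^ (18 * δ) * ((G : ℝ) / X))) := by
        apply mul_le_mul_of_nonneg_left _ (by positivity)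
        exact mul_le_mul_of_nonneg_right hPP (by positivity)
    _ = 200 * ((X : ℝ) ^ (60 * δ) * (X : ℝ) ^ (18 * δ) * (X : ℝ) ^ (-1 : ℝ)) := by
        rw [Real.rpow_neg_one]
        field_simp
    _ = 200 * (X : ℝ) ^ (-1 + 78 * δ) := by
        rw [← Real.rpow_add hX', ← Real.rpow_add hX']
        congr 2
        ring
    _ ≤ (X : ℝ) ^ (2 * δ) * (X : ℝ) ^ (-1 + 78 * δ) :=
        mul_le_mul_of_nonneg_right h200 (by positivity)
    _ = (X : ℝ) ^ (-1 + 80 * δ) := by
        rw [← Real.rpow_add hX']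
        congr 1
        ring

end Pool.MP_dd84fd_nt.HX
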