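import Pool.Agent.Lib.MP_dd84fd_nt.HX.Defs

/-!
# Theorem H, sections 3 and 4: auxiliary definitions
-/

set_option autoImplicit false

namespace Pool.MP_dd84fd_nt.HX

open Finset Pool.MP_67663b_nt.Odd Pool.MP_dd84fd_nt.En Pool.MP_dd84fd_nt.E2 Pool.MP_dd84fd_nt.LS
open Pool.MP_dd84fd_nt.L2G (nrm)
open Pool.MP_dd84fd_nt.GX

open Classical in
/-- the points `j` of the support of `ω` such that `d` is the denominator of an approximation with
height in `[2^t, 2^(t+1))` -/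
noncomputable def Jdt (G : ℕ) [NeZero G] (δ : ℝ) (X : ℕ) (ω : ZMod G → ℂ) (d t : ℕ) :
    Finset (ZMod G) :=
  (univ : Finset (ZMod G)).filter (fun j => ω j ≠ 0 ∧ d ∈ Apd δ X (al G j) ∧
    (2 : ℝ) ^ t ≤ hd X (al G j) d ∧ hd X (al G j) d < 2 ^ (t + 1))

open Classical in
/-- the popular denominators: some progression of difference `d` and length `⌊X / (16·2^t)⌋`
contains more than `X^(-14δ) |E|` elements of `E` -/
noncomputable def Pop (δ : ℝ) (X : ℕ) (E : Finset ℕ) : Finset ℕ :=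
  (Icc 1 X).filter (fun d => ∃ t ∈ range (Nat.log 2 X + 1), ∃ c : ℤ,
    (X : ℝ) ^ (-(14 * δ)) * E.card < ((inAP E c d (X / (16 * 2 ^ t))).card : ℝ))

/-- two different elements of `P` are denominators of approximations of `j / G` -/
def Coi (G : ℕ) (δ : ℝ) (X : ℕ) (P : Finset ℕ) (j : ZMod G) : Prop :=
  ∃ d ∈ P, ∃ d' ∈ P, d ≠ d' ∧ d ∈ Apd δ X (al G j) ∧ d' ∈ Apd δ X (al G j)

end Pool.MP_dd84fd_nt.HX
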