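import Pool.Agent.Lib.MP_dd84fd_nt.HX.KsRed
import Pool.Agent.Lib.MP_dd84fd_nt.GX.KerD

/-!
# HX-KsKerD (1 h): the kernel at one scale `Δ`

Adapt `GX/KerD.lean` (`GX.ker_delta`). `kt` with `2N` in place of `N`; `r` the cardinality. All five terms of the right side are nonnegative.
(a) `r ≤ 648 N² Δ`: `(1/Δ) r ≤ 648 N²`.
(b) `D r ≤ 216 N²`, `nrm (D α) r, nrm (D α') r ≤ 108 N Δ`. Put `hh = max D (max (X nrm (D α)) (X nrm (D α')))`. `(1/Δ) r hh ≤ 432 N X`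
(as in `GX.ker_delta`: `e1`, `e2`). If `hh > y3`: `(1/Δ) r ≤ 432 N X / y3`. Otherwise `res_ge`: `(1/Δ) r ≤ 432 N X / hh ≤ 432 N X Res`.
(c) as in `GX.ker_delta`, with `J = Nat.log 2 X / 6` instead of `/ 8`: `k ≥ 1`, `rel X k α α'`, `(1/Δ) r k ≤ 8 X`. If `k ≤ 2^(J+1)`: least `i`
with `k ≤ 2^i`: `(1/Δ) r ≤ 16 X / 2^i ≤ 16 RkH`. If `k > 2^(J+1) ≥ X^(1/6)` (`X < 2^(Nat.log 2 X + 1) ≤ 2^(6 (J+1))`): `(1/Δ) r ≤ 8 X^(5/6)`.
-/

set_option autoImplicit false

namespace Pool.MP_dd84fd_nt.HX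

open Finset Pool.MP_67663b_nt.Odd Pool.MP_dd84fd_nt.En Pool.MP_dd84fd_nt.E2 Pool.MP_dd84fd_nt.LS
open Pool.MP_dd84fd_nt.L2G (nrm)
open Pool.MP_dd84fd_nt.GX

theorem ker_delta_h (δ : ℝ) (X : ℕ) (hX : 1 ≤ X) (h3 : 4 * y3 δ X < X) (M N : ℕ) (hN : 1 ≤ N)
    (hMN : M * N ≤ X) (Δ : ℝ) (hΔ : 0 < Δ) (hΔM : 1 / Δ ≤ 2 * M) (α α' : ℝ) :
    (1 / Δ) * ((((Icc 1 (2 * N)) ×ˢ (Icc 1 (2 * N))).filter
      (fun z : ℕ × ℕ => nrm ((z.1 : ℝ) * α - (z.2 : ℝ) * α') ≤ Δ)).card : ℝ) ≤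
      1728 * ((N : ℝ) ^ 2 + N * X / y3 δ X + (X : ℝ) ^ (5 / 6 : ℝ) + N * X * Res δ X α α' +
        RkH X α α') := by
  classical
  obtain ⟨r, hr⟩ : ∃ r, r = (((Icc 1 (2 * N)) ×ˢ (Icc 1 (2 * N))).filter
      (fun z : ℕ × ℕ => nrm ((z.1 : ℝ) * α - (z.2 : ℝ) * α') ≤ Δ)).card := ⟨_, rfl⟩
  rw [← hr]
  have hX0 : (0 : ℝ) < X := by exact_mod_cast hX
  have hN0 : (0 : ℝ) < N := by exact_mod_cast hN
  have hMN' : (M : ℝ) * N ≤ X := by exact_mod_cast hMN
  have hΔ' : 0 < 1 / Δ := by positivity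
  have hr0 : (0 : ℝ) ≤ r := Nat.cast_nonneg _
  have hnn : ∀ x : ℝ, 0 ≤ nrm x := fun x => abs_nonneg _
  have hy0 : 0 < y3 δ X := by unfold y3; positivity
  have hRes := res_nonneg δ X α α'
  -- nonnegativity of the terms
  have t1 : (0 : ℝ) ≤ (N : ℝ) ^ 2 := by positivity
  have t2 : (0 : ℝ) ≤ N * X / y3 δ X := by positivity
  have t3 : (0 : ℝ) ≤ (X : ℝ) ^ (5 / 6 : ℝ) := by positivity
  have t4 : (0 : ℝ) ≤ N * X * Res δ X α α' := by positivity
  have hnnj : ∀ j ∈ range (Nat.log 2 X / 6 + 4),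
      (0 : ℝ) ≤ if rel X (2 ^ j) α α' then (X : ℝ) / 2 ^ j else 0 := by
    intro j _
    split_ifs <;> positivity
  have t5 : (0 : ℝ) ≤ RkH X α α' := sum_nonneg hnnj
  rcases kt (2 * N) Δ hΔ α α' r hr with h | h | h
  · -- (a)
    have : (1 / Δ) * r ≤ 648 * (N : ℝ) ^ 2 := by
      calc (1 / Δ) * r ≤ (1 / Δ) * (162 * ((2 * N : ℕ) : ℝ) ^ 2 * Δ) := by gcongr
        _ = 648 * (N : ℝ) ^ 2 := by
            push_cast
            field_simp
            ring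
    linarith
  · -- (b)
    obtain ⟨D, hD1, hD, ha, ha'⟩ := h
    have hD0 : (0 : ℝ) < D := by exact_mod_cast hD1
    have e1 : (1 / Δ) * r * D ≤ 432 * (N * X) := by
      calc (1 / Δ) * r * D = (1 / Δ) * (D * r) := by ring
        _ ≤ (1 / Δ) * (54 * ((2 * N : ℕ) : ℝ) ^ 2) := by gcongr
        _ ≤ (2 * M) * (54 * ((2 * N : ℕ) : ℝ) ^ 2) := by gcongr
        _ = 432 * (N * (M * N)) := by push_cast; ring
        _ ≤ 432 * (N * X) := by gcongr
    have e2 : ∀ t : ℝ, nrm (D * t) * r ≤ 54 * ((2 * N : ℕ) : ℝ) * Δ →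
        (1 / Δ) * r * (X * nrm (D * t)) ≤ 432 * (N * X) := by
      intro t hb
      calc (1 / Δ) * r * (X * nrm (D * t)) = (1 / Δ) * X * (nrm (D * t) * r) := by ring
        _ ≤ (1 / Δ) * X * (54 * ((2 * N : ℕ) : ℝ) * Δ) := by gcongr
        _ = 108 * (N * X) := by push_cast; field_simp; ring
        _ ≤ 432 * (N * X) := by nlinarith [mul_pos hN0 hX0]
    have f1 := e2 α ha
    have f2 := e2 α' ha'
    set hh : ℝ := max (D : ℝ) (max (X * nrm (D * α)) (X * nrm (D * α'))) with hhdef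
    have hh1 : (D : ℝ) ≤ hh := le_max_left _ _
    have hh2 : X * nrm (D * α) ≤ hh := (le_max_left _ _).trans (le_max_right _ _)
    have hh3 : X * nrm (D * α') ≤ hh := (le_max_right _ _).trans (le_max_right _ _)
    have hh0 : 0 < hh := hD0.trans_le hh1
    have g1 : (1 / Δ) * r * hh ≤ 432 * (N * X) := by
      rw [hhdef]
      rcases max_choice (D : ℝ) (max (X * nrm (D * α)) (X * nrm (D * α'))) with h | h
      · rw [h]; exact e1
      · rw [h]
        rcases max_choice (X * nrm (D * α)) (X * nrm (D * α')) with h' | h'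
        · rw [h']; exact f1
        · rw [h']; exact f2
    have g2 : (1 / Δ) * r ≤ 432 * (N * X) / hh := by
      rw [le_div_iff₀ hh0]; exact g1
    by_cases hbig : y3 δ X < hh
    · have g3 : 432 * (N * X) / hh ≤ 432 * (N * X / y3 δ X) := by
        rw [mul_div_assoc]
        gcongr
      linarith
    · push Not at hbig
      have g3 := res_ge δ X h3 α α' D hD1 hh hh1 hh2 hh3 hbig
      have g4 : 432 * (N * X) / hh ≤ 432 * (N * X * Res δ X α α') := by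
        calc 432 * (N * X) / hh = 432 * (N * X * (1 / hh)) := by ring
          _ ≤ 432 * (N * X * Res δ X α α') := by gcongr
      linarith
  · -- (c)
    obtain ⟨m, m', hm1, _, hm1', _, hm, hm', hk⟩ := h
    have e1 : (1 / Δ) * r * m ≤ 4 * X := by
      calc (1 / Δ) * r * m = (1 / Δ) * (m * r) := by ring
        _ ≤ (1 / Δ) * ((2 * N : ℕ) : ℝ) := by gcongr
        _ ≤ 2 * M * ((2 * N : ℕ) : ℝ) := by gcongr
        _ = 4 * (M * N) := by push_cast; ring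
        _ ≤ 4 * X := by gcongr
    have e1' : (1 / Δ) * r * m' ≤ 4 * X := by
      calc (1 / Δ) * r * m' = (1 / Δ) * (m' * r) := by ring
        _ ≤ (1 / Δ) * ((2 * N : ℕ) : ℝ) := by gcongr
        _ ≤ 2 * M * ((2 * N : ℕ) : ℝ) := by gcongr
        _ = 4 * (M * N) := by push_cast; ring
        _ ≤ 4 * X := by gcongr
    have e2 : (1 / Δ) * r * (X * nrm (m * α - m' * α')) ≤ 4 * X := by
      calc (1 / Δ) * r * (X * nrm (m * α - m' * α'))
          = (1 / Δ) * X * (nrm (m * α - m' * α') * r) := by ring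
        _ ≤ (1 / Δ) * X * Δ := by gcongr
        _ = X := by field_simp
        _ ≤ 4 * X := by linarith
    -- the least j with max ≤ 2 ^ j
    have hex : ∃ j : ℕ, (m : ℝ) ≤ 2 ^ j ∧ (m' : ℝ) ≤ 2 ^ j ∧ X * nrm (m * α - m' * α') ≤ 2 ^ j := by
      obtain ⟨j, hj⟩ := pow_unbounded_of_one_lt ((m : ℝ) + m' + X * nrm (m * α - m' * α'))
        (by norm_num : (1 : ℝ) < 2)
      have a1 : (0 : ℝ) ≤ m := Nat.cast_nonneg _
      have a2 : (0 : ℝ) ≤ m' := Nat.cast_nonneg _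
      have a3 : (0 : ℝ) ≤ X * nrm (m * α - m' * α') := mul_nonneg hX0.le (hnn _)
      exact ⟨j, by linarith, by linarith, by linarith⟩
    obtain ⟨j, hj, hjmin⟩ : ∃ j : ℕ, ((m : ℝ) ≤ 2 ^ j ∧ (m' : ℝ) ≤ 2 ^ j ∧
        X * nrm (m * α - m' * α') ≤ 2 ^ j) ∧ ∀ j' < j, ¬ ((m : ℝ) ≤ 2 ^ j' ∧ (m' : ℝ) ≤ 2 ^ j' ∧
        X * nrm (m * α - m' * α') ≤ 2 ^ j') := ⟨Nat.find hex, Nat.find_spec hex, fun _ h => Nat.find_min hex h⟩
    obtain ⟨j1, j2, j3⟩ := hj
    have e3 : (1 / Δ) * r * 2 ^ j ≤ 8 * X := by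
      rcases Nat.eq_zero_or_pos j with h0 | h0
      · have hm1R : (1 : ℝ) ≤ m := by exact_mod_cast hm1
        rw [h0, pow_zero, mul_one]
        have : (1 / Δ) * r ≤ (1 / Δ) * r * m := le_mul_of_one_le_right (by positivity) hm1R
        linarith
      · have hj' := hjmin (j - 1) (by omega)
        have hpj : (2 : ℝ) ^ j = 2 * 2 ^ (j - 1) := by
          rw [← pow_succ']
          congr 1
          omega
        rw [not_and_or, not_and_or, not_le, not_le, not_le] at hj'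
        rw [hpj]
        have base : (1 / Δ) * r * 2 ^ (j - 1) ≤ 4 * X := by
          rcases hj' with h | h | h
          · exact le_trans (by gcongr) e1
          · exact le_trans (by gcongr) e1'
          · exact le_trans (by gcongr) e2
        linarith
    have h2j : (0 : ℝ) < 2 ^ j := by positivity
    have e4 : (1 / Δ) * r ≤ 8 * (X / 2 ^ j) := by
      rw [← mul_div_assoc, le_div_iff₀ h2j]
      exact e3
    by_cases hsm : j < Nat.log 2 X / 6 + 4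
    · have hrel : rel X (2 ^ j) α α' := by
        refine ⟨m, m', hm1, by exact_mod_cast j1, hm1', by exact_mod_cast j2, ?_⟩
        rw [le_div_iff₀ hX0]
        push_cast
        linarith
      have hs := single_le_sum hnnj (mem_range.mpr hsm)
      rw [if_pos hrel] at hs
      have hs' : (X : ℝ) / 2 ^ j ≤ RkH X α α' := hs
      linarith
    · push Not at hsm
      have e5 : (1 / Δ) * r ≤ 8 * (X : ℝ) ^ (5 / 6 : ℝ) := by
        refine e4.trans ?_
        have hlt : X < 2 ^ (Nat.log 2 X + 1) := Nat.lt_pow_succ_log_self (by norm_num) _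
        have hle : 2 ^ (Nat.log 2 X + 1) ≤ 2 ^ (6 * j) := Nat.pow_le_pow_right (by norm_num) (by omega)
        have hXj : (X : ℝ) ≤ (2 ^ j : ℝ) ^ 6 := by
          rw [← pow_mul, mul_comm]
          exact_mod_cast (hlt.le.trans hle)
        have h8 : (X : ℝ) ^ (1 / 6 : ℝ) ≤ 2 ^ j := by
          calc (X : ℝ) ^ (1 / 6 : ℝ) ≤ ((2 ^ j : ℝ) ^ 6) ^ (1 / 6 : ℝ) := by gcongr
            _ = 2 ^ j := by
                rw [← Real.rpow_natCast ((2 : ℝ) ^ j) 6, ← Real.rpow_mul h2j.le]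
                norm_num
        have hdiv : (X : ℝ) / 2 ^ j ≤ (X : ℝ) ^ (5 / 6 : ℝ) := by
          rw [div_le_iff₀ h2j]
          calc (X : ℝ) = (X : ℝ) ^ (5 / 6 : ℝ) * (X : ℝ) ^ (1 / 6 : ℝ) := by
                rw [← Real.rpow_add hX0]
                norm_num
            _ ≤ (X : ℝ) ^ (5 / 6 : ℝ) * 2 ^ j := by gcongr
        linarith
      linarith

end Pool.MP_dd84fd_nt.HX
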