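import Pool.Agent.Lib.MP_dd84fd_nt.HX.KsApd1
import Pool.Agent.Lib.MP_dd84fd_nt.GX.KMass

/-!
# HX-KsMass (0.8 h): the mass of `K` and of `x` on `J(d, t)`

* `jmass`: if `Jdt` is empty the left side is `0` and `m ≥ 0` by `hm 0`. Otherwise take `j` in it: `1 ≤ d ≤ hd < 2^(t+1)`, `2^t ≤ hd ≤ y3 ≤ X/16` (`hd_bd`), so
  `T = X / (16·2^t) ≥ 1`, `T ≤ X/(16·2^t) ≤ 2 T` (real numbers; `Nat.div` facts), `d T ≤ 2·2^t T ≤ X`; every `j ∈ Jdt` has `nrm (d α_j) ≤ hd/X < 2^(t+1)/X ≤ 1/(8 T)`.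
  `GX.kmass` with `q = d`, `T`: `≤ (4/T) |E| m ≤ 128 (2^t/X) |E| m`.
* `jsum`: Cauchy-Schwarz on `S`: `‖x j‖ ≤ ‖V j‖ ‖K j‖` (`‖ω‖ ≤ 1`), then `jmass` (sum over `S ⊆ Jdt`).
-/

set_option autoImplicit false

namespace Pool.MP_dd84fd_nt.HX

open Finset Pool.MP_67663b_nt.Odd Pool.MP_dd84fd_nt.En Pool.MP_dd84fd_nt.E2 Pool.MP_dd84fd_nt.LS
open Pool.MP_dd84fd_nt.L2G (nrm)
open Pool.MP_dd84fd_nt.GX

theorem jmass (X G : ℕ) [NeZero G] (hX : 1 ≤ X) (hG : 3 * X ≤ G) (δ : ℝ)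
    (h16 : 16 * y3 δ X ≤ X) (ω : ZMod G → ℂ) (E : Finset ℕ) (hE : E ⊆ Icc 1 X) (e : ℕ → ℂ)
    (he : ∀ n, ‖e n‖ ≤ 1) (d t : ℕ) (m : ℝ)
    (hm : ∀ c : ℤ, ((inAP E c d (X / (16 * 2 ^ t))).card : ℝ) ≤ m) :
    (1 / (G : ℝ)) * ∑ j ∈ Jdt G δ X ω d t, ‖KE G E e j‖ ^ 2 ≤
      128 * (2 ^ t / X) * E.card * m := by
  classical
  have hm0 : 0 ≤ m := (Nat.cast_nonneg _).trans (hm 0)
  have hX0 : (0 : ℝ) < X := by exact_mod_cast hX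
  have hG0 : (0 : ℝ) < G := by exact_mod_cast Nat.pos_of_ne_zero (NeZero.ne G)
  rcases (Jdt G δ X ω d t).eq_empty_or_nonempty with h0 | ⟨j0, hj0⟩
  · rw [h0, sum_empty, mul_zero]
    positivity
  obtain ⟨-, -, k1, k2, k3⟩ : j0 ∈ univ ∧ ω j0 ≠ 0 ∧ d ∈ Apd δ X (al G j0) ∧
      (2 : ℝ) ^ t ≤ hd X (al G j0) d ∧ hd X (al G j0) d < 2 ^ (t + 1) := by
    simpa [Jdt] using hj0
  obtain ⟨b1, b2, b3, b4⟩ := hd_bd δ X _ d k1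
  obtain ⟨hd1, -, -, -⟩ := (apd_mem δ X _ d).1 k1
  have hpow : (2 : ℝ) ^ (t + 1) = 2 * 2 ^ t := by ring
  have e1 : 16 * 2 ^ t ≤ X := by
    have h1 : (16 : ℝ) * 2 ^ t ≤ X := by linarith
    exact_mod_cast h1
  have e2 : d < 2 ^ (t + 1) := by
    have h1 : (d : ℝ) < 2 ^ (t + 1) := lt_of_le_of_lt b3 k3
    exact_mod_cast h1
  obtain ⟨T, hT⟩ : ∃ T : ℕ, T = X / (16 * 2 ^ t) := ⟨_, rfl⟩
  have e3 : T * (16 * 2 ^ t) ≤ X := by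
    rw [hT]
    exact Nat.div_mul_le_self _ _
  have e4 : X < (T + 1) * (16 * 2 ^ t) := by
    rw [hT, mul_comm]
    exact Nat.lt_mul_div_succ X (by positivity)
  have e5 : 1 ≤ T := by
    rw [hT]
    exact Nat.div_pos e1 (by positivity)
  have e6 : d * T ≤ X := by
    have h1 : d * T ≤ 2 ^ (t + 1) * T := Nat.mul_le_mul_right _ e2.le
    have h2 : 2 ^ (t + 1) * T ≤ T * (16 * 2 ^ t) := by
      rw [pow_succ]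
      nlinarith [Nat.zero_le (T * 2 ^ t)]
    exact h1.trans (h2.trans e3)
  rw [← hT] at hm
  have hk := kmass X G hG E hE e he d T hd1 e5 e6 m hm
  have hT0 : (0 : ℝ) < T := by exact_mod_cast e5
  have e3R : (T : ℝ) * (16 * 2 ^ t) ≤ X := by exact_mod_cast e3
  have e4R : (X : ℝ) < (T + 1) * (16 * 2 ^ t) := by exact_mod_cast e4
  have hT1 : (1 : ℝ) ≤ T := by exact_mod_cast e5
  have hsub : Jdt G δ X ω d t ⊆ (univ : Finset (ZMod G)).filter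
      (fun j => nrm ((d : ℝ) * al G j) ≤ 1 / (8 * (T : ℝ))) := by
    intro j hj
    obtain ⟨-, -, l1, l2, l3⟩ : j ∈ univ ∧ ω j ≠ 0 ∧ d ∈ Apd δ X (al G j) ∧
        (2 : ℝ) ^ t ≤ hd X (al G j) d ∧ hd X (al G j) d < 2 ^ (t + 1) := by
      simpa [Jdt] using hj
    obtain ⟨-, -, -, c4⟩ := hd_bd δ X _ d l1
    refine mem_filter.2 ⟨mem_univ _, ?_⟩
    rw [le_div_iff₀ (by positivity)]
    have h1 : (X : ℝ) * (nrm ((d : ℝ) * al G j) * (8 * T)) ≤ X * 1 := by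
      have h2 : (X : ℝ) * nrm ((d : ℝ) * al G j) * (8 * T) ≤ (2 * 2 ^ t) * (8 * T) :=
        mul_le_mul_of_nonneg_right (by linarith) (by positivity)
      have h3 : (2 * 2 ^ t) * (8 * (T : ℝ)) = T * (16 * 2 ^ t) := by ring
      linarith
    exact le_of_mul_le_mul_left h1 hX0
  have h1 : (1 / (G : ℝ)) * ∑ j ∈ Jdt G δ X ω d t, ‖KE G E e j‖ ^ 2 ≤
      (1 / (G : ℝ)) * ∑ j ∈ (univ : Finset (ZMod G)).filter
        (fun j => nrm ((d : ℝ) * al G j) ≤ 1 / (8 * (T : ℝ))), ‖KE G E e j‖ ^ 2 :=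
    mul_le_mul_of_nonneg_left (sum_le_sum_of_subset_of_nonneg hsub fun _ _ _ => by positivity)
      (by positivity)
  refine h1.trans (hk.trans ?_)
  refine mul_le_mul_of_nonneg_right (mul_le_mul_of_nonneg_right ?_ (Nat.cast_nonneg _)) hm0
  rw [← mul_div_assoc, div_le_div_iff₀ hT0 hX0]
  have h2 : (0 : ℝ) < 2 ^ t := by positivity
  have h3 : ((T : ℝ) + 1) * (16 * 2 ^ t) ≤ (2 * T) * (16 * 2 ^ t) :=
    mul_le_mul_of_nonneg_right (by linarith) (by positivity)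
  have h4 : (2 * (T : ℝ)) * (16 * 2 ^ t) = 32 * 2 ^ t * T := by ring
  linarith

theorem jsum (X G : ℕ) [NeZero G] (hX : 1 ≤ X) (hG : 3 * X ≤ G) (δ : ℝ)
    (h16 : 16 * y3 δ X ≤ X) (V ω : ZMod G → ℂ) (hω : ∀ j, ‖ω j‖ ≤ 1) (E : Finset ℕ)
    (hE : E ⊆ Icc 1 X) (e : ℕ → ℂ) (he : ∀ n, ‖e n‖ ≤ 1) (d t : ℕ) (m : ℝ)
    (hm : ∀ c : ℤ, ((inAP E c d (X / (16 * 2 ^ t))).card : ℝ) ≤ m) (S : Finset (ZMod G))
    (hS : S ⊆ Jdt G δ X ω d t) :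
    ((1 / (G : ℝ)) * ∑ j ∈ S, ‖xx G V ω E e j‖) ^ 2 ≤
      ((1 / (G : ℝ)) * ∑ j ∈ S, ‖V j‖ ^ 2) * (128 * (2 ^ t / X) * E.card * m) := by
  have hG0 : (0 : ℝ) < G := by exact_mod_cast Nat.pos_of_ne_zero (NeZero.ne G)
  have h1 := jmass X G hX hG δ h16 ω E hE e he d t m hm
  have h2 : (1 / (G : ℝ)) * ∑ j ∈ S, ‖KE G E e j‖ ^ 2 ≤ 128 * (2 ^ t / X) * E.card * m :=
    (mul_le_mul_of_nonneg_left (sum_le_sum_of_subset_of_nonneg hS fun _ _ _ => by positivity)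
      (by positivity)).trans h1
  have h3 : ∑ j ∈ S, ‖xx G V ω E e j‖ ≤ ∑ j ∈ S, ‖V j‖ * ‖KE G E e j‖ := by
    refine sum_le_sum fun j _ => ?_
    unfold xx
    rw [norm_mul, norm_mul]
    have h4 : ‖ω j‖ * ‖V j‖ * ‖KE G E e j‖ ≤ 1 * ‖V j‖ * ‖KE G E e j‖ :=
      mul_le_mul_of_nonneg_right (mul_le_mul_of_nonneg_right (hω j) (norm_nonneg _))
        (norm_nonneg _)
    rwa [one_mul] at h4
  have h4 : 0 ≤ ∑ j ∈ S, ‖xx G V ω E e j‖ := sum_nonneg fun _ _ => norm_nonneg _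
  have h5 : (∑ j ∈ S, ‖xx G V ω E e j‖) ^ 2 ≤ (∑ j ∈ S, ‖V j‖ ^ 2) * ∑ j ∈ S, ‖KE G E e j‖ ^ 2 :=
    (pow_le_pow_left₀ h4 h3 2).trans (sum_mul_sq_le_sq_mul_sq _ _ _)
  have h6 : ((1 / (G : ℝ)) * ∑ j ∈ S, ‖xx G V ω E e j‖) ^ 2 ≤
      ((1 / (G : ℝ)) * ∑ j ∈ S, ‖V j‖ ^ 2) * ((1 / (G : ℝ)) * ∑ j ∈ S, ‖KE G E e j‖ ^ 2) := by
    have h7 := mul_le_mul_of_nonneg_left h5 (show (0 : ℝ) ≤ (1 / (G : ℝ)) ^ 2 by positivity)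
    calc ((1 / (G : ℝ)) * ∑ j ∈ S, ‖xx G V ω E e j‖) ^ 2
        = (1 / (G : ℝ)) ^ 2 * (∑ j ∈ S, ‖xx G V ω E e j‖) ^ 2 := by ring
      _ ≤ _ := h7
      _ = _ := by ring
  refine h6.trans (mul_le_mul_of_nonneg_left h2 ?_)
  exact mul_nonneg (by positivity) (sum_nonneg fun _ _ => by positivity)

end Pool.MP_dd84fd_nt.HX
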