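import Pool.Agent.Lib.MP_dd84fd_nt.HX.KsDefs
import Pool.Agent.Lib.MP_dd84fd_nt.GX.DivPow
import Pool.Agent.Lib.MP_dd84fd_nt.E2.MinorP

/-!
# HX-KsPop (1 h): there are few popular denominators

* `pop_T`: let `P = {d ∈ Icc 1 X : ∃ c, X^(-14δ) |E| < |inAP E c d T|}`. For `d ∈ P` with its `c`, `m = |inAP E c d T| > X^(-14δ)|E| ≥ 2` (as `|E| ≥ X^(1/2-2δ)`), and
  `#{(n, n') ∈ E × E : n < n', d ∣ n' - n} ≥ m (m-1)/2 ≥ m²/4` (all elements of `inAP E c d T` are `≡ c mod d`; e.g. use ordered pairs `n ≠ n'` of `inAP` (offDiag, card `m² - m`)). Sum over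
  `d ∈ P` and exchange: `|P| (X^(-14δ)|E|)²/2 ≤ #{(n, n', d) : n ≠ n' ∈ E, d ≥ 1, d ∣ n - n'} ≤ |E|² max_{1 ≤ k ≤ X} τ(k) ≤ |E|² C X^(δ/2)` (`GX.div_pow` with `η = δ/2`).
  So `|P| ≤ 2 C X^(28δ + δ/2) ≤ X^(29δ)`.
* `pop_count`: `Pop ⊆ ⋃_{t ≤ log_2 X} P_t`, `(Nat.log 2 X + 1) X^(29δ) ≤ X^(30δ)`.
-/

set_option autoImplicit false

namespace Pool.MP_dd84fd_nt.HX

open Finset Pool.MP_67663b_nt.Odd Pool.MP_dd84fd_nt.En Pool.MP_dd84fd_nt.E2 Pool.MP_dd84fd_nt.LS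
open Pool.MP_dd84fd_nt.L2G (nrm)
open Pool.MP_dd84fd_nt.GX

/-- growth: `C * X ^ a ≤ X ^ b` eventually, for `a < b` -/
private theorem ksPop_grow (C a b : ℝ) (hab : a < b) : ∃ X0 : ℕ, ∀ X : ℕ, X0 ≤ X →
    C * (X : ℝ) ^ a ≤ (X : ℝ) ^ b := by
  have h1 : Filter.Tendsto (fun X : ℕ => ((X : ℝ)) ^ (b - a)) Filter.atTop Filter.atTop :=
    (tendsto_rpow_atTop (sub_pos.2 hab)).comp tendsto_natCast_atTop_atTop
  obtain ⟨X0, hX0⟩ := Filter.eventually_atTop.1 (h1.eventually_ge_atTop C)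
  refine ⟨max X0 1, fun X hX => ?_⟩
  have hX1 : (0 : ℝ) < X := by
    have : 1 ≤ X := le_trans (le_max_right _ _) hX
    exact_mod_cast this
  have h2 := hX0 X (le_trans (le_max_left _ _) hX)
  calc C * (X : ℝ) ^ a ≤ (X : ℝ) ^ (b - a) * (X : ℝ) ^ a := by
        apply mul_le_mul_of_nonneg_right h2
        positivity
    _ = (X : ℝ) ^ b := by
        rw [← Real.rpow_add hX1]
        congr 1
        ring

open Classical in
private theorem ksPop_pairs {X : ℕ} {E : Finset ℕ} (hE : E ⊆ Icc 1 X) (D : ℝ)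
    (hD : ∀ k : ℕ, 1 ≤ k → k ≤ X → (k.divisors.card : ℝ) ≤ D) (P : Finset ℕ) :
    ∑ d ∈ P, ((E.offDiag.filter (fun z => (d : ℤ) ∣ (z.1 : ℤ) - z.2)).card : ℝ) ≤
      (E.card : ℝ) ^ 2 * D := by
  have h1 : ∑ d ∈ P, ((E.offDiag.filter (fun z => (d : ℤ) ∣ (z.1 : ℤ) - z.2)).card : ℝ) =
      ∑ z ∈ E.offDiag, ((P.filter (fun d : ℕ => (d : ℤ) ∣ (z.1 : ℤ) - z.2)).card : ℝ) := by
    have := Finset.sum_card_bipartiteAbove_eq_sum_card_bipartiteBelow (s := P) (t := E.offDiag)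
      (fun (d : ℕ) (z : ℕ × ℕ) => (d : ℤ) ∣ (z.1 : ℤ) - z.2)
    unfold Finset.bipartiteAbove Finset.bipartiteBelow at this
    exact_mod_cast this
  rw [h1]
  have h2 : ∀ z ∈ E.offDiag,
      ((P.filter (fun d : ℕ => (d : ℤ) ∣ (z.1 : ℤ) - z.2)).card : ℝ) ≤ D := by
    intro z hz
    rw [Finset.mem_offDiag] at hz
    obtain ⟨hz1, hz2, hz3⟩ := hz
    have h11 := Finset.mem_Icc.1 (hE hz1)
    have h22 := Finset.mem_Icc.1 (hE hz2)
    have hk1 : 1 ≤ ((z.1 : ℤ) - z.2).natAbs := by omega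
    have hk2 : ((z.1 : ℤ) - z.2).natAbs ≤ X := by omega
    refine le_trans ?_ (hD _ hk1 hk2)
    have hsub : P.filter (fun d : ℕ => (d : ℤ) ∣ (z.1 : ℤ) - z.2) ⊆
        ((z.1 : ℤ) - z.2).natAbs.divisors := by
      intro d hd
      rw [Finset.mem_filter] at hd
      rw [Nat.mem_divisors]
      refine ⟨?_, by omega⟩
      exact Int.natCast_dvd.1 hd.2
    exact_mod_cast Finset.card_le_card hsub
  have hD0 : 0 ≤ D ∨ E.offDiag = ∅ := by
    rcases Finset.eq_empty_or_nonempty E.offDiag with h | ⟨z, hz⟩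
    · exact Or.inr h
    · exact Or.inl (le_trans (Nat.cast_nonneg _) (h2 z hz))
  rcases hD0 with hD0 | h0
  · calc ∑ z ∈ E.offDiag, ((P.filter (fun d : ℕ => (d : ℤ) ∣ (z.1 : ℤ) - z.2)).card : ℝ)
        ≤ ∑ _z ∈ E.offDiag, D := Finset.sum_le_sum h2
      _ = (E.offDiag.card : ℝ) * D := by rw [Finset.sum_const, nsmul_eq_mul]
      _ ≤ (E.card : ℝ) ^ 2 * D := by
          apply mul_le_mul_of_nonneg_right _ hD0
          have : E.offDiag.card ≤ E.card ^ 2 := by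
            rw [Finset.offDiag_card, sq]
            exact Nat.sub_le _ _
          exact_mod_cast this
  · rw [h0, Finset.sum_empty]
    rcases Finset.eq_empty_or_nonempty E with he | ⟨n, hn⟩
    · rw [he]; simp
    · have hn' := Finset.mem_Icc.1 (hE hn)
      have := hD 1 le_rfl (by omega)
      have hD1 : 0 ≤ D := le_trans (Nat.cast_nonneg _) this
      positivity

open Classical in
theorem pop_T (δ : ℝ) (hδ : 0 < δ) (hδ' : δ ≤ 1 / 2000) : ∃ X0 : ℕ, ∀ X : ℕ, X0 ≤ X →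
    ∀ E : Finset ℕ, E ⊆ Icc 1 X → (X : ℝ) ^ (1 / 2 - 2 * δ) ≤ E.card → ∀ T : ℕ,
    (((Icc 1 X).filter (fun d : ℕ => ∃ c : ℤ,
      (X : ℝ) ^ (-(14 * δ)) * E.card < ((inAP E c d T).card : ℝ))).card : ℝ) ≤
      (X : ℝ) ^ (29 * δ) := by
  obtain ⟨C, hC1, hC⟩ := div_pow (δ / 2) (by positivity)
  obtain ⟨X1, hX1⟩ := ksPop_grow (2 * C) (57 / 2 * δ) (29 * δ) (by linarith)
  obtain ⟨X2, hX2⟩ := ksPop_grow 2 0 (1 / 2 - 16 * δ) (by linarith)
  refine ⟨max (max X1 X2) 1, fun X hX E hE hEc T => ?_⟩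
  have hXX1 : X1 ≤ X := le_trans (le_trans (le_max_left _ _) (le_max_left _ _)) hX
  have hXX2 : X2 ≤ X := le_trans (le_trans (le_max_right _ _) (le_max_left _ _)) hX
  have hXone : 1 ≤ X := le_trans (le_max_right _ _) hX
  have hX0 : (0 : ℝ) < X := by exact_mod_cast hXone
  have hX1' : (1 : ℝ) ≤ X := by exact_mod_cast hXone
  set P := (Icc 1 X).filter (fun d : ℕ => ∃ c : ℤ,
      (X : ℝ) ^ (-(14 * δ)) * E.card < ((inAP E c d T).card : ℝ)) with hPdef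
  have hepos : (0 : ℝ) < E.card := lt_of_lt_of_le (by positivity) hEc
  set M : ℝ := (X : ℝ) ^ (-(14 * δ)) * E.card with hM
  have hMpos : 0 < M := by positivity
  have hM2 : 2 ≤ M := by
    have h1 := hX2 X hXX2
    rw [Real.rpow_zero, mul_one] at h1
    refine h1.trans ?_
    calc (X : ℝ) ^ (1 / 2 - 16 * δ) = (X : ℝ) ^ (-(14 * δ)) * (X : ℝ) ^ (1 / 2 - 2 * δ) := by
          rw [← Real.rpow_add hX0]
          congr 1
          ring
      _ ≤ M := by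
          rw [hM]
          exact mul_le_mul_of_nonneg_left hEc (by positivity)
  have hD : ∀ k : ℕ, 1 ≤ k → k ≤ X → (k.divisors.card : ℝ) ≤ C * (X : ℝ) ^ (δ / 2) := by
    intro k hk1 hkX
    refine (hC k hk1).trans ?_
    apply mul_le_mul_of_nonneg_left _ (by linarith)
    apply Real.rpow_le_rpow (Nat.cast_nonneg _) _ (by positivity)
    exact_mod_cast hkX
  have h1 := ksPop_pairs hE _ hD P
  have h2 : ∀ d ∈ P, M ^ 2 / 2 ≤
      ((E.offDiag.filter (fun z => (d : ℤ) ∣ (z.1 : ℤ) - z.2)).card : ℝ) := by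
    intro d hd
    rw [hPdef, Finset.mem_filter] at hd
    obtain ⟨-, c, hc⟩ := hd
    have hsub : (inAP E c d T).offDiag ⊆
        E.offDiag.filter (fun z => (d : ℤ) ∣ (z.1 : ℤ) - z.2) := by
      intro z hz
      rw [Finset.mem_offDiag] at hz
      obtain ⟨hz1, hz2, hz3⟩ := hz
      unfold inAP at hz1 hz2
      rw [Finset.mem_filter] at hz1 hz2
      obtain ⟨hz11, i, -, hi⟩ := hz1
      obtain ⟨hz21, j, -, hj⟩ := hz2
      rw [Finset.mem_filter, Finset.mem_offDiag]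
      refine ⟨⟨hz11, hz21, hz3⟩, ⟨(i : ℤ) - j, ?_⟩⟩
      rw [hi, hj]
      ring
    have hcard : ((inAP E c d T).offDiag.card : ℝ) =
        ((inAP E c d T).card : ℝ) ^ 2 - (inAP E c d T).card := by
      rw [Finset.offDiag_card, Nat.cast_sub (Nat.le_mul_self _)]
      push_cast
      ring
    have hle : ((inAP E c d T).offDiag.card : ℝ) ≤
        ((E.offDiag.filter (fun z => (d : ℤ) ∣ (z.1 : ℤ) - z.2)).card : ℝ) := by
      exact_mod_cast Finset.card_le_card hsub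
    refine le_trans ?_ hle
    rw [hcard]
    nlinarith [hc, hM2]
  have h3 : (P.card : ℝ) * (M ^ 2 / 2) ≤ (E.card : ℝ) ^ 2 * (C * (X : ℝ) ^ (δ / 2)) := by
    refine le_trans ?_ h1
    rw [← nsmul_eq_mul]
    exact Finset.card_nsmul_le_sum _ _ _ h2
  have hM2' : M ^ 2 = (X : ℝ) ^ (-(28 * δ)) * (E.card : ℝ) ^ 2 := by
    rw [hM, mul_pow, ← Real.rpow_natCast ((X : ℝ) ^ (-(14 * δ))) 2, ← Real.rpow_mul hX0.le]
    congr 2
    push_cast
    ring
  have h4 : (P.card : ℝ) * (X : ℝ) ^ (-(28 * δ)) ≤ 2 * C * (X : ℝ) ^ (δ / 2) := by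
    have he2 : (0 : ℝ) < (E.card : ℝ) ^ 2 := by positivity
    rw [hM2'] at h3
    have h5 : ((P.card : ℝ) * (X : ℝ) ^ (-(28 * δ))) * (E.card : ℝ) ^ 2 ≤
        (2 * C * (X : ℝ) ^ (δ / 2)) * (E.card : ℝ) ^ 2 := by
      nlinarith [h3]
    exact le_of_mul_le_mul_right h5 he2
  calc (P.card : ℝ) = (P.card : ℝ) * (X : ℝ) ^ (-(28 * δ)) * (X : ℝ) ^ (28 * δ) := by
        rw [mul_assoc, ← Real.rpow_add hX0]
        simp
    _ ≤ 2 * C * (X : ℝ) ^ (δ / 2) * (X : ℝ) ^ (28 * δ) := by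
        apply mul_le_mul_of_nonneg_right h4
        positivity
    _ = 2 * C * (X : ℝ) ^ (57 / 2 * δ) := by
        rw [mul_assoc, ← Real.rpow_add hX0]
        congr 2
        ring
    _ ≤ (X : ℝ) ^ (29 * δ) := hX1 X hXX1

theorem pop_count (δ : ℝ) (hδ : 0 < δ) (hδ' : δ ≤ 1 / 2000) : ∃ X0 : ℕ, ∀ X : ℕ, X0 ≤ X →
    ∀ E : Finset ℕ, E ⊆ Icc 1 X → (X : ℝ) ^ (1 / 2 - 2 * δ) ≤ E.card →
    ((Pop δ X E).card : ℝ) ≤ (X : ℝ) ^ (30 * δ) := by
  classical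
  obtain ⟨X1, hX1⟩ := pop_T δ hδ hδ'
  have hlog : ∃ X0 : ℕ, ∀ X : ℕ, X0 ≤ X → ((Nat.log 2 X + 1 : ℕ) : ℝ) ≤ (X : ℝ) ^ δ := by
    have h1 : (fun X : ℕ => Real.log (X : ℝ)) =o[Filter.atTop] fun X : ℕ => (X : ℝ) ^ δ :=
      (isLittleO_log_rpow_atTop hδ).comp_tendsto tendsto_natCast_atTop_atTop
    have h2 := h1.bound (show (0 : ℝ) < 1 / 4 by norm_num)
    have h3 : Filter.Tendsto (fun X : ℕ => ((X : ℝ)) ^ δ) Filter.atTop Filter.atTop :=
      (tendsto_rpow_atTop hδ).comp tendsto_natCast_atTop_atTop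
    obtain ⟨X0, hX0⟩ := Filter.eventually_atTop.1 (h2.and (h3.eventually_ge_atTop 2))
    refine ⟨max X0 1, fun X hX => ?_⟩
    obtain ⟨h4, h5⟩ := hX0 X (le_trans (le_max_left _ _) hX)
    have hX1 : 1 ≤ X := le_trans (le_max_right _ _) hX
    have hX1r : (1 : ℝ) ≤ X := by exact_mod_cast hX1
    have hXp : (0 : ℝ) ≤ (X : ℝ) ^ δ := by positivity
    rw [Real.norm_of_nonneg (Real.log_nonneg hX1r), Real.norm_of_nonneg hXp] at h4
    have h6 : (Nat.log 2 X : ℝ) ≤ Real.log X / Real.log 2 := by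
      have h7 : (2 : ℝ) ^ (Nat.log 2 X) ≤ X := by
        exact_mod_cast Nat.pow_log_le_self 2 (by omega)
      have h8 := Real.log_le_log (by positivity) h7
      rw [Real.log_pow] at h8
      rw [le_div_iff₀ (Real.log_pos one_lt_two)]
      exact h8
    have h9 : Real.log X / Real.log 2 ≤ 2 * Real.log X := by
      rw [div_le_iff₀ (Real.log_pos one_lt_two)]
      have := Real.log_two_gt_d9
      nlinarith [Real.log_nonneg hX1r]
    push_cast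
    linarith
  obtain ⟨X2, hX2⟩ := hlog
  refine ⟨max (max X1 X2) 1, fun X hX E hE hEc => ?_⟩
  have hXX1 : X1 ≤ X := le_trans (le_trans (le_max_left _ _) (le_max_left _ _)) hX
  have hXX2 : X2 ≤ X := le_trans (le_trans (le_max_right _ _) (le_max_left _ _)) hX
  have hXone : 1 ≤ X := le_trans (le_max_right _ _) hX
  have hX0 : (0 : ℝ) < X := by exact_mod_cast hXone
  have hsub : Pop δ X E ⊆ (range (Nat.log 2 X + 1)).biUnion (fun t =>
      (Icc 1 X).filter (fun d : ℕ => ∃ c : ℤ,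
        (X : ℝ) ^ (-(14 * δ)) * E.card < ((inAP E c d (X / (16 * 2 ^ t))).card : ℝ))) := by
    intro d hd
    unfold Pop at hd
    simp only [Finset.mem_filter] at hd
    obtain ⟨hd1, t, ht, hc⟩ := hd
    rw [Finset.mem_biUnion]
    exact ⟨t, ht, Finset.mem_filter.2 ⟨hd1, hc⟩⟩
  have h1 : ((Pop δ X E).card : ℝ) ≤ ((Nat.log 2 X + 1 : ℕ) : ℝ) * (X : ℝ) ^ (29 * δ) := by
    have h2 := (Finset.card_le_card hsub).trans Finset.card_biUnion_le
    have h3 : ((Pop δ X E).card : ℝ) ≤ ∑ t ∈ range (Nat.log 2 X + 1),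
        (((Icc 1 X).filter (fun d : ℕ => ∃ c : ℤ,
        (X : ℝ) ^ (-(14 * δ)) * E.card < ((inAP E c d (X / (16 * 2 ^ t))).card : ℝ))).card : ℝ) := by
      exact_mod_cast h2
    refine h3.trans ?_
    refine (Finset.sum_le_card_nsmul _ _ _ (fun t _ => hX1 X hXX1 E hE hEc _)).trans ?_
    rw [Finset.card_range, nsmul_eq_mul]
  refine h1.trans ?_
  calc ((Nat.log 2 X + 1 : ℕ) : ℝ) * (X : ℝ) ^ (29 * δ) ≤ (X : ℝ) ^ δ * (X : ℝ) ^ (29 * δ) := by
        apply mul_le_mul_of_nonneg_right (hX2 X hXX2)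
        positivity
    _ = (X : ℝ) ^ (30 * δ) := by
        rw [← Real.rpow_add hX0]
        congr 1
        ring

end Pool.MP_dd84fd_nt.HX
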