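import Pool.Agent.Lib.MP_dd84fd_nt.HX.KsDefs
import Pool.Agent.Lib.MP_dd84fd_nt.GX.TIIexp
import Pool.Agent.Lib.MP_dd84fd_nt.GX.Den2
import Pool.Agent.Lib.MP_dd84fd_nt.En.Recip2

/-!
# HX-KsPt (0.9 h): a pointwise type II bound

* `bker_diag`: `Bker M N α α = Σ_{s, s' ∈ (N, 2N]} mn M ((s - s') α)`. `mn M 0 = M`-type bound (`L2G.mn_le`, `mn ≤ M`) for `s = s'`; `mn M (-x) = mn M x`;
  for each `s` the `s' ≠ s` give `r = |s - s'| ∈ [1, N]`, each at most twice: `Bker ≤ N (M + 2 Σ_{r ≤ N} mn M (r α))`. `GX.den2`: a denominator `r0`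
  with `|α - a/r0| ≤ 1/r0²`, `r0 ≤ 4X/ht`, `X/r0 ≤ 4X/ht`; the standard bound
  `Σ_{r ≤ N} min(M, 1/(2 nrm (r α))) ≤ C (N/r0 + 1)(M + r0 log r0) ≤ C L (N M/r0 + M + N + r0)`: see `En/Recip2.lean` (`sum_mn`, `sum_mn'`; `GX.den2_mn`
  converts `L2G.mn` into `En.mn`), `N M / r0 ≤ X/r0`. So `Bker ≤ C' L N (M + N + X/ht)`.
* `typeII_pt`: `GX.typeII_exp` with `x = (G : ℂ)` at `j` and `0` elsewhere: `FF G x n = χ(n j)` and the right side is `M · Bker M N α_j α_j`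
  (`‖x j‖² (1/G)² = 1`); `M N ≤ X`.
-/

set_option autoImplicit false

namespace Pool.MP_dd84fd_nt.HX

open Finset Pool.MP_67663b_nt.Odd Pool.MP_dd84fd_nt.En Pool.MP_dd84fd_nt.E2 Pool.MP_dd84fd_nt.LS
open Pool.MP_dd84fd_nt.L2G (nrm)
open Pool.MP_dd84fd_nt.GX

private theorem kp_mn_mono {M M' : ℝ} (hM : 0 ≤ M) (h : M ≤ M') (x : ℝ) :
    L2G.mn M x ≤ L2G.mn M' x := by
  rw [den2_mn, den2_mn]
  exact En.mn_mono hM h x

private theorem kp_nrm_neg (x : ℝ) : nrm (-x) = nrm x := by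
  have key : ∀ y : ℝ, nrm (-y) ≤ nrm y := by
    intro y
    have h1 : |(-y) - ((round (-y) : ℤ) : ℝ)| ≤ |(-y) - ((-(round y) : ℤ) : ℝ)| :=
      round_le (-y) (-(round y))
    have h2 : (-y) - ((-(round y) : ℤ) : ℝ) = -(y - ((round y : ℤ) : ℝ)) := by
      push_cast
      ring
    rw [h2, abs_neg] at h1
    exact h1
  refine le_antisymm (key x) ?_
  have := key (-x)
  rwa [neg_neg] at this

private theorem kp_mn_neg (M x : ℝ) : L2G.mn M (-x) = L2G.mn M x := by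
  unfold L2G.mn
  rw [kp_nrm_neg]

private theorem kp_row (M : ℝ) (hM : 0 ≤ M) (N : ℕ) (α : ℝ) (s : ℕ) (hs : s ∈ Ioc N (2 * N)) :
    ∑ s' ∈ Ioc N (2 * N), L2G.mn M ((s : ℝ) * α - (s' : ℝ) * α) ≤
      M + 2 * ∑ r ∈ Icc 1 N, L2G.mn M ((r : ℝ) * α) := by
  rw [Finset.mem_Ioc] at hs
  have hnn : ∀ x, 0 ≤ L2G.mn M x := fun x => L2G.mn_nonneg M x hM
  rw [← Finset.sum_filter_add_sum_filter_not (Ioc N (2 * N)) (fun s' => s' ≤ s)]
  have h1 : ∑ s' ∈ (Ioc N (2 * N)).filter (fun s' => s' ≤ s),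
      L2G.mn M ((s : ℝ) * α - (s' : ℝ) * α) ≤ ∑ r ∈ range (N + 1), L2G.mn M ((r : ℝ) * α) := by
    have hinj : Set.InjOn (fun s' => s - s')
        (((Ioc N (2 * N)).filter (fun s' => s' ≤ s) : Finset ℕ) : Set ℕ) := by
      intro a ha b hb hab
      simp only [Finset.coe_filter, Finset.mem_Ioc, Set.mem_ofPred_eq] at ha hb
      simp only at hab
      omega
    have h2 : ∑ s' ∈ (Ioc N (2 * N)).filter (fun s' => s' ≤ s),
        L2G.mn M ((s : ℝ) * α - (s' : ℝ) * α) =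
        ∑ r ∈ ((Ioc N (2 * N)).filter (fun s' => s' ≤ s)).image (fun s' => s - s'),
          L2G.mn M ((r : ℝ) * α) := by
      rw [Finset.sum_image hinj]
      refine Finset.sum_congr rfl fun s' hs' => ?_
      rw [Finset.mem_filter] at hs'
      rw [Nat.cast_sub hs'.2, sub_mul]
    rw [h2]
    refine Finset.sum_le_sum_of_subset_of_nonneg ?_ fun r _ _ => hnn _
    intro r hr
    rw [Finset.mem_image] at hr
    obtain ⟨s', hs', rfl⟩ := hr
    rw [Finset.mem_filter, Finset.mem_Ioc] at hs'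
    rw [Finset.mem_range]
    omega
  have h3 : ∑ s' ∈ (Ioc N (2 * N)).filter (fun s' => ¬ s' ≤ s),
      L2G.mn M ((s : ℝ) * α - (s' : ℝ) * α) ≤ ∑ r ∈ Icc 1 N, L2G.mn M ((r : ℝ) * α) := by
    have hinj : Set.InjOn (fun s' => s' - s)
        (((Ioc N (2 * N)).filter (fun s' => ¬ s' ≤ s) : Finset ℕ) : Set ℕ) := by
      intro a ha b hb hab
      simp only [Finset.coe_filter, Finset.mem_Ioc, Set.mem_ofPred_eq] at ha hb
      simp only at hab
      omega
    have h2 : ∑ s' ∈ (Ioc N (2 * N)).filter (fun s' => ¬ s' ≤ s),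
        L2G.mn M ((s : ℝ) * α - (s' : ℝ) * α) =
        ∑ r ∈ ((Ioc N (2 * N)).filter (fun s' => ¬ s' ≤ s)).image (fun s' => s' - s),
          L2G.mn M ((r : ℝ) * α) := by
      rw [Finset.sum_image hinj]
      refine Finset.sum_congr rfl fun s' hs' => ?_
      rw [Finset.mem_filter] at hs'
      rw [Nat.cast_sub (by omega), ← kp_mn_neg]
      congr 1
      ring
    rw [h2]
    refine Finset.sum_le_sum_of_subset_of_nonneg ?_ fun r _ _ => hnn _
    intro r hr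
    rw [Finset.mem_image] at hr
    obtain ⟨s', hs', rfl⟩ := hr
    rw [Finset.mem_filter, Finset.mem_Ioc] at hs'
    rw [Finset.mem_Icc]
    omega
  have h4 : ∑ r ∈ range (N + 1), L2G.mn M ((r : ℝ) * α) ≤
      M + ∑ r ∈ Icc 1 N, L2G.mn M ((r : ℝ) * α) := by
    rw [Finset.range_eq_Ico, Finset.sum_eq_sum_Ico_succ_bot (Nat.succ_pos N)]
    have h5 : Finset.Ico (0 + 1) (N + 1) = Icc 1 N := by
      ext r
      simp only [Finset.mem_Ico, Finset.mem_Icc]
      omega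
    rw [h5]
    have := L2G.mn_le M (((0 : ℕ) : ℝ) * α) hM
    linarith
  linarith

theorem bker_diag : ∃ C : ℝ, 0 < C ∧ ∃ X0 : ℕ, ∀ X : ℕ, X0 ≤ X → ∀ (M N : ℕ), 1 ≤ M → 1 ≤ N →
    M * N ≤ X → ∀ α : ℝ, Bker M N α α ≤
      C * Real.log X * N * (M + N + (X : ℝ) / ht X α) := by
  obtain ⟨C, hC, X0, h⟩ := typeI_ker
  refine ⟨1 + 2 * C, by positivity, max X0 3, ?_⟩
  intro X hX M N hM hN hMN α
  have hX3 : 3 ≤ X := le_trans (le_max_right _ _) hX
  have hX3r : (3 : ℝ) ≤ X := by exact_mod_cast hX3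
  have hN0 : (0 : ℝ) < N := by exact_mod_cast hN
  have hM0 : (0 : ℝ) < M := by exact_mod_cast hM
  have hNX : N ≤ X := le_trans (Nat.le_mul_of_pos_left N hM) hMN
  have hlog : 1 ≤ Real.log X := by
    have h1 : Real.exp 1 ≤ X := by
      have := Real.exp_one_lt_d9
      linarith
    have h2 := Real.log_le_log (Real.exp_pos 1) h1
    rwa [Real.log_exp] at h2
  have hht : 0 ≤ (X : ℝ) / ht X α := by
    obtain ⟨g1, -, -, -⟩ := ht_spec X (by omega) α
    positivity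
  have h1 := h X (le_trans (le_max_left _ _) hX) α N hNX
  have h2 : ∑ r ∈ Icc 1 N, L2G.mn M ((r : ℝ) * α) ≤
      ∑ r ∈ Icc 1 N, L2G.mn ((X : ℝ) / r) ((r : ℝ) * α) := by
    refine Finset.sum_le_sum fun r hr => kp_mn_mono hM0.le ?_ _
    rw [Finset.mem_Icc] at hr
    have hr0 : (0 : ℝ) < r := by exact_mod_cast hr.1
    rw [le_div_iff₀ hr0]
    have h3 : M * r ≤ X := le_trans (Nat.mul_le_mul_left M hr.2) hMN
    exact_mod_cast h3
  have h4 : Bker M N α α ≤ ∑ _s ∈ Ioc N (2 * N),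
      ((M : ℝ) + 2 * ∑ r ∈ Icc 1 N, L2G.mn M ((r : ℝ) * α)) := by
    unfold Bker
    exact Finset.sum_le_sum fun s hs => kp_row M hM0.le N α s hs
  rw [Finset.sum_const, Nat.card_Ioc, nsmul_eq_mul] at h4
  have h5 : ((2 * N - N : ℕ) : ℝ) = N := by
    have : 2 * N - N = N := by omega
    rw [this]
  rw [h5] at h4
  have h6 : (M : ℝ) + 2 * ∑ r ∈ Icc 1 N, L2G.mn M ((r : ℝ) * α) ≤
      (1 + 2 * C) * Real.log X * (M + N + (X : ℝ) / ht X α) := by
    have h7 : (M : ℝ) ≤ Real.log X * (M + N + (X : ℝ) / ht X α) := by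
      calc (M : ℝ) ≤ 1 * (M + N + (X : ℝ) / ht X α) := by linarith
        _ ≤ Real.log X * (M + N + (X : ℝ) / ht X α) :=
          mul_le_mul_of_nonneg_right hlog (by positivity)
    have h8 : C * ((X : ℝ) / ht X α + N) * Real.log X ≤
        C * Real.log X * (M + N + (X : ℝ) / ht X α) := by
      calc C * ((X : ℝ) / ht X α + N) * Real.log X = C * Real.log X * ((X : ℝ) / ht X α + N) := by
            ring
        _ ≤ C * Real.log X * (M + N + (X : ℝ) / ht X α) :=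
          mul_le_mul_of_nonneg_left (by linarith) (by positivity)
    calc (M : ℝ) + 2 * ∑ r ∈ Icc 1 N, L2G.mn M ((r : ℝ) * α)
        ≤ Real.log X * (M + N + (X : ℝ) / ht X α) +
          2 * (C * Real.log X * (M + N + (X : ℝ) / ht X α)) := by linarith
      _ = (1 + 2 * C) * Real.log X * (M + N + (X : ℝ) / ht X α) := by ring
  calc Bker M N α α ≤ N * ((M : ℝ) + 2 * ∑ r ∈ Icc 1 N, L2G.mn M ((r : ℝ) * α)) := h4
    _ ≤ N * ((1 + 2 * C) * Real.log X * (M + N + (X : ℝ) / ht X α)) :=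
      mul_le_mul_of_nonneg_left h6 hN0.le
    _ = (1 + 2 * C) * Real.log X * N * (M + N + (X : ℝ) / ht X α) := by ring

theorem typeII_pt : ∃ C : ℝ, 0 < C ∧ ∃ X0 : ℕ, ∀ X : ℕ, X0 ≤ X → ∀ (G : ℕ) [NeZero G],
    ∀ (j : ZMod G) (M N t : ℕ) (a b : ℕ → ℂ), (∀ n, ‖a n‖ ≤ 1) → (∀ n, ‖b n‖ ≤ 1) →
    1 ≤ M → 1 ≤ N → M * N ≤ X →
    ‖∑ l ∈ Ioc M (2 * M), ∑ s ∈ (Ioc N (2 * N)).filter (fun s => l * s ≤ t),
      a l * b s * ZMod.stdAddChar (((l * s : ℕ) : ZMod G) * j)‖ ^ 2 ≤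
      C * Real.log X * X * (M + N + (X : ℝ) / ht X (al G j)) := by
  obtain ⟨C, hC, X0, h⟩ := bker_diag
  refine ⟨C, hC, max X0 1, ?_⟩
  intro X hX G _ j M N t a b ha hb hM hN hMN
  classical
  have hG0 : (G : ℝ) ≠ 0 := by exact_mod_cast NeZero.ne G
  have hG0c : (G : ℂ) ≠ 0 := by exact_mod_cast NeZero.ne G
  have hX1 : 1 ≤ X := le_trans (le_max_right _ _) hX
  have h1 := h X (le_trans (le_max_left _ _) hX) M N hM hN hMN (al G j)
  set x : ZMod G → ℂ := fun j' => if j' = j then (G : ℂ) else 0 with hx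
  have hFF : ∀ n : ℕ, FF G x n = ZMod.stdAddChar ((n : ZMod G) * j) := by
    intro n
    unfold FF
    rw [Finset.sum_eq_single j]
    · rw [hx]
      simp only [if_true]
      field_simp
    · intro j' _ hj'
      rw [hx]
      simp only [if_neg hj', zero_mul]
    · intro hj
      exact absurd (Finset.mem_univ j) hj
  have h2 := typeII_exp G x M N t a b ha hb
  simp only [hFF] at h2
  have hnx : ∀ j', ‖x j'‖ = if j' = j then (G : ℝ) else 0 := by
    intro j'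
    rw [hx]
    simp only
    split_ifs
    · exact Complex.norm_natCast G
    · exact norm_zero
  have h3 : ∑ j₁ : ZMod G, ∑ j₂ : ZMod G, ‖x j₁‖ * ‖x j₂‖ * Bker M N (al G j₁) (al G j₂) =
      (G : ℝ) * G * Bker M N (al G j) (al G j) := by
    simp only [hnx]
    rw [Finset.sum_eq_single j, Finset.sum_eq_single j]
    · simp only [if_true]
    · intro j' _ hj'
      simp only [if_neg hj', mul_zero, zero_mul]
    · intro hj
      exact absurd (Finset.mem_univ j) hj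
    · intro j' _ hj'
      refine Finset.sum_eq_zero fun j'' _ => ?_
      simp only [if_neg hj', zero_mul]
    · intro hj
      exact absurd (Finset.mem_univ j) hj
  rw [h3] at h2
  have h4 : (M : ℝ) * ((1 / (G : ℝ)) ^ 2 * ((G : ℝ) * G * Bker M N (al G j) (al G j))) =
      M * Bker M N (al G j) (al G j) := by
    field_simp
  rw [h4] at h2
  refine h2.trans ?_
  have hlog : 0 ≤ Real.log X := Real.log_natCast_nonneg X
  have hht : 0 ≤ (X : ℝ) / ht X (al G j) := by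
    obtain ⟨g1, -, -, -⟩ := ht_spec X hX1 (al G j)
    positivity
  have hMNr : (M : ℝ) * N ≤ X := by exact_mod_cast hMN
  calc (M : ℝ) * Bker M N (al G j) (al G j)
      ≤ M * (C * Real.log X * N * (M + N + (X : ℝ) / ht X (al G j))) :=
        mul_le_mul_of_nonneg_left h1 (Nat.cast_nonneg M)
    _ = C * Real.log X * (M * N) * (M + N + (X : ℝ) / ht X (al G j)) := by ring
    _ ≤ C * Real.log X * X * (M + N + (X : ℝ) / ht X (al G j)) := by
        refine mul_le_mul_of_nonneg_right ?_ (by positivity)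
        exact mul_le_mul_of_nonneg_left hMNr (by positivity)

end Pool.MP_dd84fd_nt.HX
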