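import Pool.Agent.Lib.MP_dd84fd_nt.HX.KsRS
import Pool.Agent.Lib.MP_dd84fd_nt.HX.KsApd2
import Pool.Agent.Lib.MP_dd84fd_nt.GX.DivPow
import Pool.Agent.Lib.MP_dd84fd_nt.E2.MinorP

/-!
# HX-KsRB (0.8 h): bound for the resonance sum

`res_sum` with `ρ d = if d ∈ Pop δ X E then X^(-η) else X^(-14δ)`. `hρ`: if `d ∈ Pop` this is `NoAPH`; if `d ∉ Pop`: `1 ≤ d ≤ y3 ≤ X`, `t ≤ Nat.log 2 X` (`2^t ≤ hd ≤ y3 ≤ X`), unfold `Pop`:
every `c` has `card ≤ X^(-14δ)|E|`. For `ω j ≠ 0`: at most one `d ∈ Apd` is in `Pop` (`¬ Coi`), `|Apd| ≤ 128 X^(12δ)` (`apd_card`), `τ(d) ≤ C X^(η/16)` (`GX.div_pow`), so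
`Σ_{d ∈ Apd} τ(d) ρ(d) ≤ C X^(η/16) (X^(-η) + 128 X^(12δ-14δ)) ≤ 129 C X^(η/16 - η)` (`η ≤ δ`). With `nm2 V ≤ X L^CV`: total `≤ 128 (1+L)(log_2 X + 1) (|E|²/X) X L^CV 129 C X^(-15η/16) ≤ X^(-3η/4) |E|²`.
-/

set_option autoImplicit false

namespace Pool.MP_dd84fd_nt.HX

open Finset Pool.MP_67663b_nt.Odd Pool.MP_dd84fd_nt.En Pool.MP_dd84fd_nt.E2 Pool.MP_dd84fd_nt.LS
open Pool.MP_dd84fd_nt.L2G (nrm)
open Pool.MP_dd84fd_nt.GX

/-- the sum over the denominators of one point -/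
private theorem rb_pt {X : ℕ} {δ η C : ℝ} (hX1 : (1 : ℝ) ≤ X) (hδ : 0 < δ)
    (hη' : η ≤ δ) (hC : 1 ≤ C) (h3X : y3 δ X ≤ X)
    (hCd : ∀ q : ℕ, 1 ≤ q → (q.divisors.card : ℝ) ≤ C * (q : ℝ) ^ (η / 16)) (hη : 0 < η)
    (E : Finset ℕ) {G : ℕ} [NeZero G] (j : ZMod G) (hCoi : ¬ Coi G δ X (Pop δ X E) j) (ρ : ℕ → ℝ)
    (hρ : ρ = fun d => if d ∈ Pop δ X E then (X : ℝ) ^ (-η) else (X : ℝ) ^ (-(14 * δ))) :
    ∑ d ∈ Apd δ X (al G j), (d.divisors.card : ℝ) * ρ d ≤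
      129 * C * (X : ℝ) ^ (-(15 / 16 * η)) := by
  classical
  have hX0 : (0 : ℝ) < X := by linarith
  have hXn : 1 ≤ X := by exact_mod_cast hX1
  set A := Apd δ X (al G j) with hA
  have hρ0 : ∀ d, 0 ≤ ρ d := by
    intro d
    rw [hρ]
    dsimp only
    split_ifs <;> positivity
  have hdiv : ∀ d ∈ A, (d.divisors.card : ℝ) ≤ C * (X : ℝ) ^ (η / 16) := by
    intro d hd
    obtain ⟨h1, h2, -, -⟩ := (apd_mem δ X (al G j) d).1 hd
    refine (hCd d h1).trans ?_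
    refine mul_le_mul_of_nonneg_left ?_ (by linarith)
    exact Real.rpow_le_rpow (Nat.cast_nonneg d) (h2.trans h3X) (by linarith)
  have h1 : ∑ d ∈ A, (d.divisors.card : ℝ) * ρ d ≤ C * (X : ℝ) ^ (η / 16) * ∑ d ∈ A, ρ d := by
    rw [mul_sum]
    exact sum_le_sum fun d hd => mul_le_mul_of_nonneg_right (hdiv d hd) (hρ0 d)
  have hpop : ((A.filter (fun d => d ∈ Pop δ X E)).card : ℝ) ≤ 1 := by
    have : (A.filter (fun d => d ∈ Pop δ X E)).card ≤ 1 := by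
      rw [Finset.card_le_one]
      intro a ha b hb
      by_contra hne
      rw [Finset.mem_filter] at ha hb
      exact hCoi ⟨a, ha.2, b, hb.2, hne, ha.1, hb.1⟩
    exact_mod_cast this
  have h2 : ∑ d ∈ A, ρ d ≤ (X : ℝ) ^ (-η) + 128 * (X : ℝ) ^ (12 * δ) * (X : ℝ) ^ (-(14 * δ)) := by
    have e : ∑ d ∈ A, ρ d = ∑ d ∈ A.filter (fun d => d ∈ Pop δ X E), ρ d +
        ∑ d ∈ A.filter (fun d => ¬ d ∈ Pop δ X E), ρ d :=
      (Finset.sum_filter_add_sum_filter_not A _ _).symm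
    rw [e]
    refine add_le_add ?_ ?_
    · have e1 : ∑ d ∈ A.filter (fun d => d ∈ Pop δ X E), ρ d =
          ((A.filter (fun d => d ∈ Pop δ X E)).card : ℝ) * (X : ℝ) ^ (-η) := by
        rw [← nsmul_eq_mul, ← Finset.sum_const]
        refine Finset.sum_congr rfl fun d hd => ?_
        rw [hρ]
        exact if_pos (Finset.mem_filter.1 hd).2
      rw [e1]
      have : (0 : ℝ) ≤ (X : ℝ) ^ (-η) := by positivity
      nlinarith
    · have e1 : ∑ d ∈ A.filter (fun d => ¬ d ∈ Pop δ X E), ρ d =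
          ((A.filter (fun d => ¬ d ∈ Pop δ X E)).card : ℝ) * (X : ℝ) ^ (-(14 * δ)) := by
        rw [← nsmul_eq_mul, ← Finset.sum_const]
        refine Finset.sum_congr rfl fun d hd => ?_
        rw [hρ]
        exact if_neg (Finset.mem_filter.1 hd).2
      rw [e1]
      refine mul_le_mul_of_nonneg_right ?_ (by positivity)
      refine le_trans ?_ (apd_card δ hδ.le X hXn (al G j))
      exact_mod_cast Finset.card_filter_le _ _
  have h3 : (X : ℝ) ^ (12 * δ) * (X : ℝ) ^ (-(14 * δ)) ≤ (X : ℝ) ^ (-η) := by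
    rw [← Real.rpow_add hX0]
    exact Real.rpow_le_rpow_of_exponent_le hX1 (by linarith)
  have h4 : ∑ d ∈ A, ρ d ≤ 129 * (X : ℝ) ^ (-η) := by
    refine h2.trans ?_
    nlinarith
  refine h1.trans ?_
  have h5 : C * (X : ℝ) ^ (η / 16) * ∑ d ∈ A, ρ d ≤
      C * (X : ℝ) ^ (η / 16) * (129 * (X : ℝ) ^ (-η)) :=
    mul_le_mul_of_nonneg_left h4 (by positivity)
  refine h5.trans (le_of_eq ?_)
  have h6 : (X : ℝ) ^ (η / 16) * (X : ℝ) ^ (-η) = (X : ℝ) ^ (-(15 / 16 * η)) := by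
    rw [← Real.rpow_add hX0]
    congr 1
    ring
  calc C * (X : ℝ) ^ (η / 16) * (129 * (X : ℝ) ^ (-η))
      = 129 * C * ((X : ℝ) ^ (η / 16) * (X : ℝ) ^ (-η)) := by ring
    _ = _ := by rw [h6]

theorem res_bound (CV : ℕ) (δ η : ℝ) (hδ : 0 < δ) (hδ' : δ ≤ 1 / 2000) (hη : 0 < η)
    (hη' : η ≤ δ) : ∃ X0 : ℕ, ∀ X : ℕ, X0 ≤ X → ∀ (G : ℕ) [NeZero G], 3 * X ≤ G →
    ∀ V : ZMod G → ℂ, VBH G X CV V → ∀ ω : ZMod G → ℂ, (∀ j, ‖ω j‖ ≤ 1) → ∀ E : Finset ℕ,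
    E ⊆ Icc 1 X → ∀ e : ℕ → ℂ, (∀ n, ‖e n‖ ≤ 1) → NoAPH G δ X ω E ((X : ℝ) ^ (-η)) →
    (∀ j, ω j ≠ 0 → ¬ Coi G δ X (Pop δ X E) j) →
    (1 / (G : ℝ)) ^ 2 * ∑ j : ZMod G, ∑ j' : ZMod G, ‖xx G V ω E e j‖ * ‖xx G V ω E e j'‖ *
      Res δ X (al G j) (al G j') ≤ (X : ℝ) ^ (-(3 / 4 * η)) * (E.card : ℝ) ^ 2 := by
  classical
  obtain ⟨C, hC, hCd⟩ := div_pow (η / 16) (by positivity)
  obtain ⟨X1, hX1⟩ := MP_log_pow (128 * 129 * 6 * C) (CV + 2) (ε := 3 / 16 * η) (by positivity)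
  obtain ⟨X2, hX2⟩ := MP_log_large 1
  refine ⟨max (max X1 X2) 65536, fun X hX G _ hG V hV ω hω E hE e he hNo hCoi => ?_⟩
  have hXX1 : X1 ≤ X := ((le_max_left _ _).trans (le_max_left _ _)).trans hX
  have hXX2 : X2 ≤ X := ((le_max_right _ _).trans (le_max_left _ _)).trans hX
  have hXb : 65536 ≤ X := (le_max_right _ _).trans hX
  have hXbr : (65536 : ℝ) ≤ X := by exact_mod_cast hXb
  have hX1r : (1 : ℝ) ≤ X := by linarith
  have hX0 : (0 : ℝ) < X := by linarith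
  have hL := hX2 X hXX2
  have hlog := hX1 X hXX1
  set L := Real.log (X : ℝ) with hLdef
  -- `16 y3 ≤ X`
  have h16 : 16 * y3 δ X ≤ X := by
    unfold y3
    have a1 : (16 : ℝ) ≤ (X : ℝ) ^ (1 / 4 : ℝ) := by
      have a2 : ((65536 : ℝ)) ^ (1 / 4 : ℝ) = 16 := by
        rw [show (65536 : ℝ) = 16 ^ (4 : ℕ) by norm_num, ← Real.rpow_natCast,
          ← Real.rpow_mul (by norm_num)]
        norm_num
      rw [← a2]
      exact Real.rpow_le_rpow (by norm_num) hXbr (by norm_num)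
    have a3 : (X : ℝ) ^ (1 / 4 : ℝ) * (X : ℝ) ^ (1 / 2 + 3 * δ) ≤ X := by
      rw [← Real.rpow_add hX0]
      calc (X : ℝ) ^ (1 / 4 + (1 / 2 + 3 * δ)) ≤ (X : ℝ) ^ (1 : ℝ) :=
            Real.rpow_le_rpow_of_exponent_le hX1r (by linarith)
        _ = X := Real.rpow_one _
    refine le_trans ?_ a3
    exact mul_le_mul_of_nonneg_right a1 (by positivity)
  have h3X : y3 δ X ≤ X := by
    have : 0 ≤ y3 δ X := by unfold y3; positivity
    linarith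
  obtain ⟨ρ, hρ⟩ : ∃ ρ : ℕ → ℝ, ρ = fun d => if d ∈ Pop δ X E then (X : ℝ) ^ (-η) else
      (X : ℝ) ^ (-(14 * δ)) := ⟨_, rfl⟩
  have hρ0 : ∀ d, 0 ≤ ρ d := by
    intro d
    rw [hρ]
    dsimp only
    split_ifs <;> positivity
  have hρN : ∀ j, ω j ≠ 0 → ∀ d ∈ Apd δ X (al G j), ∀ t : ℕ, (2 : ℝ) ^ t ≤ hd X (al G j) d →
      hd X (al G j) d < 2 ^ (t + 1) →
      ∀ c : ℤ, ((inAP E c d (X / (16 * 2 ^ t))).card : ℝ) ≤ ρ d * E.card := by
    intro j hj d hd t ht1 ht2 c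
    rw [hρ]
    dsimp only
    split_ifs with hp
    · exact hNo j hj d hd t ht1 ht2 c
    · by_contra hcon
      push Not at hcon
      apply hp
      obtain ⟨g1, g2, -, -⟩ := (apd_mem δ X (al G j) d).1 hd
      simp only [Pop, Finset.mem_filter, Finset.mem_Icc]
      refine ⟨⟨g1, ?_⟩, t, ?_, c, hcon⟩
      · exact_mod_cast g2.trans h3X
      · rw [Finset.mem_range, Nat.lt_succ_iff]
        have g3 : (2 : ℝ) ^ t ≤ X := (ht1.trans (hd_bd δ X (al G j) d hd).2.1).trans h3X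
        have g4 : 2 ^ t ≤ X := by exact_mod_cast g3
        exact Nat.le_log_of_pow_le (by norm_num) g4
  have hres := res_sum X G (by omega) hG δ hδ.le h16 V ω hω E hE e he ρ hρ0 hρN
  refine hres.trans ?_
  -- the inner sum
  have hin : (1 / (G : ℝ)) * ∑ j : ZMod G, (if ω j ≠ 0 then ‖V j‖ ^ 2 *
      ∑ d ∈ Apd δ X (al G j), (d.divisors.card : ℝ) * ρ d else 0) ≤
      129 * C * (X : ℝ) ^ (-(15 / 16 * η)) * (X * L ^ CV) := by
    have b1 : ∀ j : ZMod G, (if ω j ≠ 0 then ‖V j‖ ^ 2 *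
        ∑ d ∈ Apd δ X (al G j), (d.divisors.card : ℝ) * ρ d else 0) ≤
        129 * C * (X : ℝ) ^ (-(15 / 16 * η)) * ‖V j‖ ^ 2 := by
      intro j
      split_ifs with hj
      · rw [mul_comm]
        refine mul_le_mul_of_nonneg_right ?_ (by positivity)
        exact rb_pt hX1r hδ hη' hC h3X hCd hη E j (hCoi j hj) ρ hρ
      · positivity
    calc (1 / (G : ℝ)) * ∑ j : ZMod G, (if ω j ≠ 0 then ‖V j‖ ^ 2 *
          ∑ d ∈ Apd δ X (al G j), (d.divisors.card : ℝ) * ρ d else 0)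
        ≤ (1 / (G : ℝ)) * ∑ j : ZMod G, 129 * C * (X : ℝ) ^ (-(15 / 16 * η)) * ‖V j‖ ^ 2 := by
          refine mul_le_mul_of_nonneg_left (sum_le_sum fun j _ => b1 j) (by positivity)
      _ = 129 * C * (X : ℝ) ^ (-(15 / 16 * η)) * nm2 G V := by
          rw [← mul_sum]
          unfold nm2
          ring
      _ ≤ 129 * C * (X : ℝ) ^ (-(15 / 16 * η)) * (X * L ^ CV) :=
          mul_le_mul_of_nonneg_left hV.1 (by positivity)
  -- the logarithms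
  have hlog2 : ((Nat.log 2 X : ℕ) : ℝ) + 1 ≤ 3 * L := by
    have c1 : 2 ^ Nat.log 2 X ≤ X := Nat.pow_log_le_self 2 (by omega)
    have c2 : ((2 : ℝ)) ^ Nat.log 2 X ≤ X := by exact_mod_cast c1
    have c3 := Real.log_le_log (by positivity) c2
    rw [Real.log_pow] at c3
    have c4 := Real.log_two_gt_d9
    have c5 : (0 : ℝ) ≤ (Nat.log 2 X : ℕ) := Nat.cast_nonneg _
    nlinarith
  have hcard : (0 : ℝ) ≤ (E.card : ℝ) ^ 2 := by positivity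
  have hpow : (X : ℝ) ^ (-(15 / 16 * η)) * (X : ℝ) ^ (3 / 16 * η) = (X : ℝ) ^ (-(3 / 4 * η)) := by
    rw [← Real.rpow_add hX0]
    congr 1
    ring
  have hfac : 128 * (1 + L) * ((Nat.log 2 X : ℕ) + 1 : ℝ) ≤ 128 * 6 * L ^ 2 := by
    have d1 : (1 + L) * ((Nat.log 2 X : ℕ) + 1 : ℝ) ≤ (2 * L) * (3 * L) :=
      mul_le_mul (by linarith) hlog2 (by positivity) (by linarith)
    nlinarith
  calc 128 * (1 + L) * ((Nat.log 2 X : ℕ) + 1 : ℝ) * ((E.card : ℝ) ^ 2 / X) *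
        ((1 / (G : ℝ)) * ∑ j : ZMod G, if ω j ≠ 0 then ‖V j‖ ^ 2 *
          ∑ d ∈ Apd δ X (al G j), (d.divisors.card : ℝ) * ρ d else 0)
      ≤ 128 * (1 + L) * ((Nat.log 2 X : ℕ) + 1 : ℝ) * ((E.card : ℝ) ^ 2 / X) *
        (129 * C * (X : ℝ) ^ (-(15 / 16 * η)) * (X * L ^ CV)) := by
        refine mul_le_mul_of_nonneg_left hin ?_
        have : 0 ≤ 1 + L := by linarith
        positivity
    _ ≤ 128 * 6 * L ^ 2 * ((E.card : ℝ) ^ 2 / X) *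
        (129 * C * (X : ℝ) ^ (-(15 / 16 * η)) * (X * L ^ CV)) := by
        refine mul_le_mul_of_nonneg_right ?_ ?_
        · exact mul_le_mul_of_nonneg_right hfac (by positivity)
        · have : 0 ≤ L := by linarith
          positivity
    _ = (128 * 129 * 6 * C * L ^ (CV + 2)) * ((X : ℝ) ^ (-(15 / 16 * η)) * (E.card : ℝ) ^ 2) := by
        rw [pow_add]
        field_simp
    _ ≤ (X : ℝ) ^ (3 / 16 * η) * ((X : ℝ) ^ (-(15 / 16 * η)) * (E.card : ℝ) ^ 2) :=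
        mul_le_mul_of_nonneg_right hlog (by positivity)
    _ = (X : ℝ) ^ (-(3 / 4 * η)) * (E.card : ℝ) ^ 2 := by
        rw [← hpow]
        ring

end Pool.MP_dd84fd_nt.HX
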