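import Pool.Agent.Lib.MP_dd84fd_nt.HX.KsDefs
import Pool.Agent.Lib.MP_dd84fd_nt.GX.GcdSum

/-!
# HX-KsSch (1 h): a quadratic form with the kernel `√(d d') / lcm(d, d')`

`√(d d')/lcm = gcd(d, d')/√(d d') = Σ_{g ∣ d, g ∣ d'} φ(g)/√(d d')` (`Nat.sum_totient`). So the sum is `Σ_{g ≤ Y} φ(g) A_g B_g`,
`A_g = Σ_{d ≤ Y, g ∣ d} a_d/√d`. Cauchy over `g`: `≤ (Σ φ(g) A_g²)^(1/2) (Σ φ(g) B_g²)^(1/2)`. `A_g² ≤ (Σ_{g ∣ d ≤ Y} 1/d)(Σ_{g ∣ d ≤ Y} a_d²) ≤ (1/g)(1 + log Y) Σ_{g ∣ d} a_d²`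
(`d = g k`, `k ≤ Y`, `Σ 1/k ≤ 1 + log Y`: `harmonic_le_one_add_log` or a library lemma), `φ(g)/g ≤ 1`: `Σ_g φ(g) A_g² ≤ (1 + log Y) Σ_d τ(d) a_d²`.
(`GX/GcdSum.lean` proves the dyadic version: copy the parts that you need.)
-/

set_option autoImplicit false

namespace Pool.MP_dd84fd_nt.HX

open Finset Pool.MP_67663b_nt.Odd Pool.MP_dd84fd_nt.En Pool.MP_dd84fd_nt.E2 Pool.MP_dd84fd_nt.LS
open Pool.MP_dd84fd_nt.L2G (nrm)
open Pool.MP_dd84fd_nt.GX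

private theorem ksSch_mult (d t : ℕ) (hd : 0 < d) (g : ℕ → ℝ) :
    ∑ n ∈ (Icc 1 t).filter (fun n => d ∣ n), g n = ∑ k ∈ Icc 1 (t / d), g (d * k) := by
  symm
  refine sum_bij (fun k _ => d * k) ?_ ?_ ?_ ?_
  · intro k hk
    rw [mem_Icc] at hk
    rw [mem_filter, mem_Icc]
    refine ⟨⟨Nat.mul_pos hd hk.1, ?_⟩, dvd_mul_right d k⟩
    calc d * k ≤ d * (t / d) := Nat.mul_le_mul_left d hk.2
      _ ≤ t := Nat.mul_div_le t d
  · intro k _ k' _ h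
    exact Nat.eq_of_mul_eq_mul_left hd h
  · intro n hn
    rw [mem_filter, mem_Icc] at hn
    obtain ⟨k, rfl⟩ := hn.2
    refine ⟨k, ?_, rfl⟩
    rw [mem_Icc]
    constructor
    · exact Nat.pos_of_mul_pos_left hn.1.1
    · rw [Nat.le_div_iff_mul_le hd, mul_comm]
      exact hn.1.2
  · intro k _
    rfl

private theorem ksSch_harm (g Y : ℕ) (hg : 0 < g) (hY : 1 ≤ Y) :
    ∑ d ∈ (Icc 1 Y).filter (fun d => g ∣ d), 1 / (d : ℝ) ≤ (1 / (g : ℝ)) * (1 + Real.log Y) := by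
  rw [ksSch_mult g Y hg fun d => 1 / (d : ℝ)]
  have h1 : ∑ k ∈ Icc 1 (Y / g), 1 / ((g * k : ℕ) : ℝ) =
      (1 / (g : ℝ)) * ∑ k ∈ Icc 1 (Y / g), ((k : ℝ))⁻¹ := by
    rw [Finset.mul_sum]
    refine Finset.sum_congr rfl fun k _ => ?_
    push_cast
    rw [one_div, one_div, mul_inv]
  rw [h1]
  refine mul_le_mul_of_nonneg_left ?_ (by positivity)
  have h2 : ∑ k ∈ Icc 1 (Y / g), ((k : ℝ))⁻¹ ≤ ∑ k ∈ Icc 1 Y, ((k : ℝ))⁻¹ := by
    refine Finset.sum_le_sum_of_subset_of_nonneg ?_ fun k _ _ => by positivity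
    exact Finset.Icc_subset_Icc le_rfl (Nat.div_le_self Y g)
  refine h2.trans ?_
  have h3 := harmonic_le_one_add_log Y
  rw [harmonic_eq_sum_Icc] at h3
  push_cast at h3
  exact h3

private noncomputable def ksSch_A (Y : ℕ) (a : ℕ → ℝ) (g : ℕ) : ℝ :=
  ∑ d ∈ (Icc 1 Y).filter (fun d => g ∣ d), a d / Real.sqrt d

private theorem ksSch_sq (Y : ℕ) (hY : 1 ≤ Y) (a : ℕ → ℝ) :
    ∑ g ∈ Icc 1 Y, (g.totient : ℝ) * ksSch_A Y a g ^ 2 ≤
      (1 + Real.log Y) * ∑ d ∈ Icc 1 Y, (d.divisors.card : ℝ) * a d ^ 2 := by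
  have hL : 0 ≤ 1 + Real.log Y := by
    have := Real.log_nonneg (x := (Y : ℝ)) (by exact_mod_cast hY)
    linarith
  have h1 : ∀ g ∈ Icc 1 Y, (g.totient : ℝ) * ksSch_A Y a g ^ 2 ≤
      (1 + Real.log Y) * ∑ d ∈ (Icc 1 Y).filter (fun d => g ∣ d), a d ^ 2 := by
    intro g hg
    have hg0 : 0 < g := (mem_Icc.1 hg).1
    have hgR : (0 : ℝ) < g := by exact_mod_cast hg0
    have hcs : ksSch_A Y a g ^ 2 ≤ (∑ d ∈ (Icc 1 Y).filter (fun d => g ∣ d), a d ^ 2) *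
        ∑ d ∈ (Icc 1 Y).filter (fun d => g ∣ d), 1 / (d : ℝ) := by
      have h := Finset.sum_mul_sq_le_sq_mul_sq ((Icc 1 Y).filter (fun d => g ∣ d)) a
        (fun d => 1 / Real.sqrt d)
      have e1 : ∑ d ∈ (Icc 1 Y).filter (fun d => g ∣ d), a d * (1 / Real.sqrt (d : ℝ)) =
          ksSch_A Y a g := by
        unfold ksSch_A
        refine Finset.sum_congr rfl fun d _ => ?_
        rw [mul_one_div]
      have e2 : ∑ d ∈ (Icc 1 Y).filter (fun d => g ∣ d), (1 / Real.sqrt (d : ℝ)) ^ 2 =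
          ∑ d ∈ (Icc 1 Y).filter (fun d => g ∣ d), 1 / (d : ℝ) := by
        refine Finset.sum_congr rfl fun d _ => ?_
        rw [div_pow, one_pow, Real.sq_sqrt (Nat.cast_nonneg d)]
      rw [e1, e2] at h
      exact h
    have hS : 0 ≤ ∑ d ∈ (Icc 1 Y).filter (fun d => g ∣ d), a d ^ 2 :=
      Finset.sum_nonneg fun d _ => sq_nonneg _
    have hh := ksSch_harm g Y hg0 hY
    have hphi : (g.totient : ℝ) ≤ g := by exact_mod_cast Nat.totient_le g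
    calc (g.totient : ℝ) * ksSch_A Y a g ^ 2
        ≤ (g.totient : ℝ) * ((∑ d ∈ (Icc 1 Y).filter (fun d => g ∣ d), a d ^ 2) *
          ((1 / (g : ℝ)) * (1 + Real.log Y))) :=
          mul_le_mul_of_nonneg_left (hcs.trans (mul_le_mul_of_nonneg_left hh hS))
            (Nat.cast_nonneg _)
      _ ≤ (g : ℝ) * ((∑ d ∈ (Icc 1 Y).filter (fun d => g ∣ d), a d ^ 2) *
          ((1 / (g : ℝ)) * (1 + Real.log Y))) :=
          mul_le_mul_of_nonneg_right hphi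
            (mul_nonneg hS (mul_nonneg (by positivity) hL))
      _ = (1 + Real.log Y) * ∑ d ∈ (Icc 1 Y).filter (fun d => g ∣ d), a d ^ 2 := by
          field_simp
  refine (Finset.sum_le_sum h1).trans ?_
  rw [← Finset.mul_sum]
  refine mul_le_mul_of_nonneg_left (le_of_eq ?_) hL
  simp_rw [Finset.sum_filter]
  rw [Finset.sum_comm]
  refine Finset.sum_congr rfl fun d hd => ?_
  rw [mem_Icc] at hd
  rw [← Finset.sum_filter, Finset.sum_const, nsmul_eq_mul]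
  have h2 : (Icc 1 Y).filter (fun g => g ∣ d) = d.divisors := by
    ext g
    rw [mem_filter, mem_Icc, Nat.mem_divisors]
    constructor
    · rintro ⟨_, h3⟩
      exact ⟨h3, by omega⟩
    · rintro ⟨h3, _⟩
      have h4 := Nat.le_of_dvd (by omega) h3
      have h5 := Nat.pos_of_dvd_of_pos h3 (by omega)
      exact ⟨⟨h5, by omega⟩, h3⟩
  rw [h2]

private theorem ksSch_gcd (Y d d' : ℕ) (hd : d ∈ Icc 1 Y) :
    (Nat.gcd d d' : ℝ) = ∑ g ∈ Icc 1 Y, (if g ∣ d then 1 else 0) * (if g ∣ d' then 1 else 0) *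
      (g.totient : ℝ) := by
  rw [mem_Icc] at hd
  have h1 := Nat.sum_totient (Nat.gcd d d')
  rw [← h1]
  push_cast
  have h2 : (Nat.gcd d d').divisors = (Icc 1 Y).filter (fun g => g ∣ d ∧ g ∣ d') := by
    ext g
    rw [mem_filter, mem_Icc, Nat.mem_divisors]
    constructor
    · rintro ⟨h3, _⟩
      have h4 := h3.trans (Nat.gcd_dvd_left d d')
      have h5 := Nat.le_of_dvd (by omega) h4
      have h6 := Nat.pos_of_dvd_of_pos h4 (by omega)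
      exact ⟨⟨h6, by omega⟩, h4, h3.trans (Nat.gcd_dvd_right d d')⟩
    · rintro ⟨_, h3, h4⟩
      refine ⟨Nat.dvd_gcd h3 h4, ?_⟩
      intro h5
      have := (Nat.gcd_eq_zero_iff.1 h5).1
      omega
  rw [h2, Finset.sum_filter]
  refine Finset.sum_congr rfl fun g _ => ?_
  by_cases h3 : g ∣ d <;> by_cases h4 : g ∣ d' <;> simp [h3, h4]

theorem schur (Y : ℕ) (hY : 1 ≤ Y) (a b : ℕ → ℝ) (ha : ∀ d, 0 ≤ a d) (hb : ∀ d, 0 ≤ b d) :
    ∑ d ∈ Icc 1 Y, ∑ d' ∈ Icc 1 Y,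
      a d * b d' * (Real.sqrt ((d : ℝ) * d') / (Nat.lcm d d' : ℝ)) ≤
      (1 + Real.log Y) * (Real.sqrt (∑ d ∈ Icc 1 Y, (d.divisors.card : ℝ) * a d ^ 2) *
        Real.sqrt (∑ d ∈ Icc 1 Y, (d.divisors.card : ℝ) * b d ^ 2)) := by
  have hL : 0 ≤ 1 + Real.log Y := by
    have := Real.log_nonneg (x := (Y : ℝ)) (by exact_mod_cast hY)
    linarith
  have h1 : ∑ d ∈ Icc 1 Y, ∑ d' ∈ Icc 1 Y,
      a d * b d' * (Real.sqrt ((d : ℝ) * d') / (Nat.lcm d d' : ℝ)) =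
      ∑ g ∈ Icc 1 Y, (g.totient : ℝ) * (ksSch_A Y a g * ksSch_A Y b g) := by
    have e1 : ∀ d ∈ Icc 1 Y, ∀ d' ∈ Icc 1 Y,
        a d * b d' * (Real.sqrt ((d : ℝ) * d') / (Nat.lcm d d' : ℝ)) =
        ∑ g ∈ Icc 1 Y, (g.totient : ℝ) * ((if g ∣ d then a d / Real.sqrt d else 0) *
          (if g ∣ d' then b d' / Real.sqrt d' else 0)) := by
      intro d hd d' hd'
      have hd0 : 1 ≤ d := (mem_Icc.1 hd).1
      have hd0' : 1 ≤ d' := (mem_Icc.1 hd').1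
      have hdR : (0 : ℝ) < d := by exact_mod_cast hd0
      have hdR' : (0 : ℝ) < d' := by exact_mod_cast hd0'
      have hl : (Nat.gcd d d' : ℝ) * (Nat.lcm d d' : ℝ) = d * d' := by
        exact_mod_cast Nat.gcd_mul_lcm d d'
      have hl0 : (0 : ℝ) < (Nat.lcm d d' : ℝ) := by
        exact_mod_cast Nat.lcm_pos hd0 hd0'
      have hs : (0 : ℝ) < Real.sqrt d := Real.sqrt_pos.2 hdR
      have hs' : (0 : ℝ) < Real.sqrt d' := Real.sqrt_pos.2 hdR'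
      have e2 : Real.sqrt ((d : ℝ) * d') / (Nat.lcm d d' : ℝ) =
          (Nat.gcd d d' : ℝ) / (Real.sqrt d * Real.sqrt d') := by
        rw [Real.sqrt_mul hdR.le, div_eq_div_iff hl0.ne' (by positivity), hl]
        calc Real.sqrt d * Real.sqrt d' * (Real.sqrt d * Real.sqrt d') =
              (Real.sqrt d * Real.sqrt d) * (Real.sqrt d' * Real.sqrt d') := by ring
          _ = d * d' := by rw [Real.mul_self_sqrt hdR.le, Real.mul_self_sqrt hdR'.le]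
      rw [e2, ksSch_gcd Y d d' hd, Finset.sum_div, Finset.mul_sum]
      refine Finset.sum_congr rfl fun g _ => ?_
      by_cases h3 : g ∣ d
      · by_cases h4 : g ∣ d'
        · rw [if_pos h3, if_pos h4, if_pos h3, if_pos h4]
          field_simp
        · rw [if_pos h3, if_neg h4, if_pos h3, if_neg h4]
          simp
      · rw [if_neg h3, if_neg h3]
        simp
    calc ∑ d ∈ Icc 1 Y, ∑ d' ∈ Icc 1 Y,
          a d * b d' * (Real.sqrt ((d : ℝ) * d') / (Nat.lcm d d' : ℝ))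
        = ∑ d ∈ Icc 1 Y, ∑ d' ∈ Icc 1 Y, ∑ g ∈ Icc 1 Y, (g.totient : ℝ) *
          ((if g ∣ d then a d / Real.sqrt d else 0) *
            (if g ∣ d' then b d' / Real.sqrt d' else 0)) :=
          Finset.sum_congr rfl fun d hd => Finset.sum_congr rfl fun d' hd' => e1 d hd d' hd'
      _ = ∑ g ∈ Icc 1 Y, ∑ d ∈ Icc 1 Y, ∑ d' ∈ Icc 1 Y, (g.totient : ℝ) *
          ((if g ∣ d then a d / Real.sqrt d else 0) *
            (if g ∣ d' then b d' / Real.sqrt d' else 0)) := by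
          rw [Finset.sum_comm]
          refine (Finset.sum_congr rfl fun d' _ => Finset.sum_comm).trans ?_
          rw [Finset.sum_comm]
          exact Finset.sum_congr rfl fun g _ => Finset.sum_comm
      _ = ∑ g ∈ Icc 1 Y, (g.totient : ℝ) * (ksSch_A Y a g * ksSch_A Y b g) := by
          refine Finset.sum_congr rfl fun g _ => ?_
          unfold ksSch_A
          rw [Finset.sum_filter, Finset.sum_filter, Finset.sum_mul_sum, Finset.mul_sum]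
          refine Finset.sum_congr rfl fun d _ => ?_
          rw [Finset.mul_sum]
  rw [h1]
  have h2 : ∑ g ∈ Icc 1 Y, (g.totient : ℝ) * (ksSch_A Y a g * ksSch_A Y b g) ≤
      Real.sqrt (∑ g ∈ Icc 1 Y, (g.totient : ℝ) * ksSch_A Y a g ^ 2) *
        Real.sqrt (∑ g ∈ Icc 1 Y, (g.totient : ℝ) * ksSch_A Y b g ^ 2) := by
    have h := Real.sum_mul_le_sqrt_mul_sqrt (Icc 1 Y)
      (fun g => Real.sqrt (g.totient : ℝ) * ksSch_A Y a g)
      (fun g => Real.sqrt (g.totient : ℝ) * ksSch_A Y b g)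
    have e1 : ∀ g : ℕ, Real.sqrt (g.totient : ℝ) * Real.sqrt (g.totient : ℝ) = g.totient :=
      fun g => Real.mul_self_sqrt (Nat.cast_nonneg _)
    have e2 : ∑ g ∈ Icc 1 Y, (Real.sqrt (g.totient : ℝ) * ksSch_A Y a g) *
        (Real.sqrt (g.totient : ℝ) * ksSch_A Y b g) =
        ∑ g ∈ Icc 1 Y, (g.totient : ℝ) * (ksSch_A Y a g * ksSch_A Y b g) := by
      refine Finset.sum_congr rfl fun g _ => ?_
      linear_combination (ksSch_A Y a g * ksSch_A Y b g) * e1 g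
    have e3 : ∀ c : ℕ → ℝ, ∑ g ∈ Icc 1 Y, (Real.sqrt (g.totient : ℝ) * ksSch_A Y c g) ^ 2 =
        ∑ g ∈ Icc 1 Y, (g.totient : ℝ) * ksSch_A Y c g ^ 2 := by
      intro c
      refine Finset.sum_congr rfl fun g _ => ?_
      rw [mul_pow, Real.sq_sqrt (Nat.cast_nonneg _)]
    rw [e2, e3 a, e3 b] at h
    exact h
  refine h2.trans ?_
  have h3 := Real.sqrt_le_sqrt (ksSch_sq Y hY a)
  have h4 := Real.sqrt_le_sqrt (ksSch_sq Y hY b)
  refine (mul_le_mul h3 h4 (Real.sqrt_nonneg _) (Real.sqrt_nonneg _)).trans (le_of_eq ?_)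
  rw [Real.sqrt_mul hL, Real.sqrt_mul hL]
  calc Real.sqrt (1 + Real.log Y) * Real.sqrt (∑ d ∈ Icc 1 Y, (d.divisors.card : ℝ) * a d ^ 2) *
        (Real.sqrt (1 + Real.log Y) * Real.sqrt (∑ d ∈ Icc 1 Y, (d.divisors.card : ℝ) * b d ^ 2))
      = (Real.sqrt (1 + Real.log Y) * Real.sqrt (1 + Real.log Y)) *
        (Real.sqrt (∑ d ∈ Icc 1 Y, (d.divisors.card : ℝ) * a d ^ 2) *
          Real.sqrt (∑ d ∈ Icc 1 Y, (d.divisors.card : ℝ) * b d ^ 2)) := by ring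
    _ = _ := by rw [Real.mul_self_sqrt hL]

end Pool.MP_dd84fd_nt.HX
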