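import Pool.Agent.Lib.MP_dd84fd_nt.HX.KsApd1

/-!
# HX-KsRed (0.8 h): every denominator `D` of small height is a multiple of an element of `Apd`

Proof. `b = round (D α)`, `g = Int.gcd b D ≥ 1`, `D = g d`, `b = g a`, `gcd(a, d) = 1`. `|d α - a| = |D α - b| / g = nrm (D α) / g ≤ y3 / X < 1/4`, so
`a = round (d α)` (a number at distance `< 1/2` of an integer) and `nrm (d α) = nrm (D α) / g`. So `d ∈ Apd` (`apd_mem`), `D/d = g` and
`g max (d) (X nrm (d α)) = max (g d) (X g nrm (d α)) = max D (X nrm (D α))`.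
`res_ge`: apply `apd_red` to `α` and `α'`: `d, d' ∣ D`, so `lcm(d, d') ∣ D` and `lcm ≤ D`; `(D/d) hd ≤ hh`, `(D/d') hd' ≤ hh`; multiply:
`D² hd hd' ≤ hh² d d'`, so `lcm √(hd hd') ≤ hh √(d d')`, i.e. `1/hh ≤ √(d d')/(lcm √(hd hd'))`, which is one term of `Res`; the others are nonnegative
(`Finset.single_le_sum` twice).
-/

set_option autoImplicit false

namespace Pool.MP_dd84fd_nt.HX

open Finset Pool.MP_67663b_nt.Odd Pool.MP_dd84fd_nt.En Pool.MP_dd84fd_nt.E2 Pool.MP_dd84fd_nt.LS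
open Pool.MP_dd84fd_nt.L2G (nrm)
open Pool.MP_dd84fd_nt.GX

private theorem ksRed_round {x : ℝ} {a : ℤ} (h : |x - a| < 1 / 4) : round x = a := by
  have h1 : |x - round x| ≤ |x - a| := round_le x a
  have h2 : |((round x - a : ℤ) : ℝ)| < 1 := by
    have e : ((round x - a : ℤ) : ℝ) = (x - a) - (x - round x) := by
      push_cast
      ring
    rw [e]
    have := abs_sub (x - a) (x - round x)
    linarith
  have h3 : |round x - a| < 1 := by exact_mod_cast h2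
  have h4 := Int.abs_lt_one_iff.1 h3
  linarith

theorem apd_red (δ : ℝ) (X : ℕ) (h3 : 4 * y3 δ X < X) (α : ℝ) (D : ℕ) (hD : 1 ≤ D)
    (h1 : (D : ℝ) ≤ y3 δ X) (h2 : (X : ℝ) * nrm ((D : ℝ) * α) ≤ y3 δ X) :
    ∃ d ∈ Apd δ X α, d ∣ D ∧
      ((D : ℝ) / d) * hd X α d = max (D : ℝ) ((X : ℝ) * nrm ((D : ℝ) * α)) := by
  have hD0 : (0 : ℝ) < D := by exact_mod_cast hD
  have hy : 0 < y3 δ X := hD0.trans_le h1
  have hX0 : (0 : ℝ) < X := by linarith
  set b : ℤ := round ((D : ℝ) * α) with hb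
  have hgpos : 0 < Int.gcd b D := Int.gcd_pos_of_ne_zero_right _ (by
    have : (1 : ℤ) ≤ D := by exact_mod_cast hD
    omega)
  obtain ⟨a, ha⟩ : (Int.gcd b D : ℤ) ∣ b := Int.gcd_dvd_left ..
  obtain ⟨d₀, hd₀⟩ : (Int.gcd b D : ℤ) ∣ D := Int.gcd_dvd_right ..
  have hcop0 : Int.gcd (b / (Int.gcd b D : ℤ)) ((D : ℤ) / (Int.gcd b D : ℤ)) = 1 :=
    Int.gcd_ediv_gcd_ediv_gcd hgpos
  set g := Int.gcd b D with hg
  have hgz : (0 : ℤ) < g := by exact_mod_cast hgpos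
  have hgR : (0 : ℝ) < g := by exact_mod_cast hgpos
  have hg1 : (1 : ℝ) ≤ g := by exact_mod_cast hgpos
  have hDz : (0 : ℤ) < D := by exact_mod_cast hD
  have hd0pos : 0 < d₀ := by
    rw [hd₀] at hDz
    exact pos_of_mul_pos_right hDz hgz.le
  obtain ⟨d, rfl⟩ : ∃ d : ℕ, d₀ = d := ⟨d₀.toNat, by omega⟩
  have hd1 : 1 ≤ d := by omega
  have hDd : D = g * d := by exact_mod_cast hd₀
  have hdR : (0 : ℝ) < d := by exact_mod_cast hd1
  have hcop : Int.gcd a (d : ℤ) = 1 := by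
    have e1 : b / (g : ℤ) = a := by
      rw [ha, Int.mul_ediv_cancel_left _ hgz.ne']
    have e2 : (D : ℤ) / (g : ℤ) = d := by
      rw [hd₀, Int.mul_ediv_cancel_left _ hgz.ne']
    rwa [e1, e2] at hcop0
  have hDg : (D : ℝ) = g * d := by exact_mod_cast hDd
  have hbg : (b : ℝ) = g * a := by exact_mod_cast ha
  have hkey : nrm ((D : ℝ) * α) = g * |(d : ℝ) * α - a| := by
    have e1 : nrm ((D : ℝ) * α) = |(D : ℝ) * α - b| := rfl
    rw [e1, hDg, hbg]
    have e2 : (g : ℝ) * d * α - g * a = g * ((d : ℝ) * α - a) := by ring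
    rw [e2, abs_mul, abs_of_pos hgR]
  have hle : |(d : ℝ) * α - a| ≤ nrm ((D : ℝ) * α) := by
    rw [hkey]
    exact le_mul_of_one_le_left (abs_nonneg _) hg1
  have hlt : |(d : ℝ) * α - a| < 1 / 4 := by
    have e1 : nrm ((D : ℝ) * α) ≤ y3 δ X / X := by
      rw [le_div_iff₀ hX0, mul_comm]
      exact h2
    have e2 : y3 δ X / X < 1 / 4 := by
      rw [div_lt_iff₀ hX0]
      linarith
    linarith
  have hround : round ((d : ℝ) * α) = a := ksRed_round hlt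
  have hnd : nrm ((d : ℝ) * α) = |(d : ℝ) * α - a| := by
    unfold nrm
    rw [hround]
  have hkey' : nrm ((D : ℝ) * α) = g * nrm ((d : ℝ) * α) := by rw [hnd, hkey]
  refine ⟨d, (apd_mem δ X α d).2 ⟨hd1, ?_, ?_, ?_⟩, ⟨g, by rw [hDd, mul_comm]⟩, ?_⟩
  · refine le_trans ?_ h1
    rw [hDg]
    exact le_mul_of_one_le_left hdR.le hg1
  · refine le_trans (mul_le_mul_of_nonneg_left ?_ hX0.le) h2
    rw [hnd]
    exact hle
  · rw [hround]
    exact hcop
  · have e1 : (D : ℝ) / d = g := by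
      rw [hDg]
      field_simp
    rw [e1, hkey']
    unfold hd
    rw [mul_max_of_nonneg _ _ hgR.le, hDg]
    congr 1
    ring

theorem res_nonneg (δ : ℝ) (X : ℕ) (α α' : ℝ) : 0 ≤ Res δ X α α' := by
  unfold Res
  refine Finset.sum_nonneg fun d _ => Finset.sum_nonneg fun d' _ => ?_
  exact div_nonneg (Real.sqrt_nonneg _) (mul_nonneg (Nat.cast_nonneg _) (Real.sqrt_nonneg _))

theorem res_ge (δ : ℝ) (X : ℕ) (h3 : 4 * y3 δ X < X) (α α' : ℝ) (D : ℕ) (hD : 1 ≤ D) (hh : ℝ)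
    (h1 : (D : ℝ) ≤ hh) (h2 : (X : ℝ) * nrm ((D : ℝ) * α) ≤ hh)
    (h2' : (X : ℝ) * nrm ((D : ℝ) * α') ≤ hh) (hy : hh ≤ y3 δ X) :
    1 / hh ≤ Res δ X α α' := by
  obtain ⟨d, hd1, hd2, hd3⟩ := apd_red δ X h3 α D hD (h1.trans hy) (h2.trans hy)
  obtain ⟨d', hd1', hd2', hd3'⟩ := apd_red δ X h3 α' D hD (h1.trans hy) (h2'.trans hy)
  have hD0 : (0 : ℝ) < D := by exact_mod_cast hD
  have hh0 : 0 < hh := hD0.trans_le h1
  have hdp : (0 : ℝ) < d := by
    have := ((apd_mem δ X α d).1 hd1).1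
    exact_mod_cast this
  have hdp' : (0 : ℝ) < d' := by
    have := ((apd_mem δ X α' d').1 hd1').1
    exact_mod_cast this
  have k1 : (0 : ℝ) < hd X α d := one_pos.trans_le (hd_bd δ X α d hd1).1
  have k1' : (0 : ℝ) < hd X α' d' := one_pos.trans_le (hd_bd δ X α' d' hd1').1
  have m1 : hd X α d ≤ hh / D * d := by
    have e : ((D : ℝ) / d) * hd X α d ≤ hh := by
      rw [hd3]
      exact max_le h1 h2
    have e2 : hd X α d = (((D : ℝ) / d) * hd X α d) / D * d := by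
      field_simp
    rw [e2]
    exact mul_le_mul_of_nonneg_right (div_le_div_of_nonneg_right e hD0.le) hdp.le
  have m1' : hd X α' d' ≤ hh / D * d' := by
    have e : ((D : ℝ) / d') * hd X α' d' ≤ hh := by
      rw [hd3']
      exact max_le h1 h2'
    have e2 : hd X α' d' = (((D : ℝ) / d') * hd X α' d') / D * d' := by
      field_simp
    rw [e2]
    exact mul_le_mul_of_nonneg_right (div_le_div_of_nonneg_right e hD0.le) hdp'.le
  have hl : (Nat.lcm d d' : ℝ) ≤ D := by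
    exact_mod_cast Nat.le_of_dvd hD (Nat.lcm_dvd hd2 hd2')
  have hl0 : (0 : ℝ) < Nat.lcm d d' := by
    have a1 : 0 < d := by exact_mod_cast hdp
    have a2 : 0 < d' := by exact_mod_cast hdp'
    exact_mod_cast Nat.lcm_pos a1 a2
  have hT : Real.sqrt (hd X α d * hd X α' d') ≤ hh / D * Real.sqrt ((d : ℝ) * d') := by
    have e1 : hd X α d * hd X α' d' ≤ (hh / D) ^ 2 * ((d : ℝ) * d') := by
      have e2 := mul_le_mul m1 m1' k1'.le (by positivity)
      calc _ ≤ _ := e2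
        _ = _ := by ring
    refine (Real.sqrt_le_sqrt e1).trans_eq ?_
    rw [Real.sqrt_mul (by positivity), Real.sqrt_sq (by positivity)]
  have hT0 : 0 < Real.sqrt (hd X α d * hd X α' d') := Real.sqrt_pos.2 (mul_pos k1 k1')
  have hterm : 1 / hh ≤ Real.sqrt ((d : ℝ) * d') /
      ((Nat.lcm d d' : ℝ) * Real.sqrt (hd X α d * hd X α' d')) := by
    rw [div_le_div_iff₀ hh0 (mul_pos hl0 hT0), one_mul]
    calc (Nat.lcm d d' : ℝ) * Real.sqrt (hd X α d * hd X α' d')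
        ≤ D * (hh / D * Real.sqrt ((d : ℝ) * d')) := mul_le_mul hl hT hT0.le hD0.le
      _ = Real.sqrt ((d : ℝ) * d') * hh := by
        field_simp
  refine hterm.trans ?_
  unfold Res
  have hnn : ∀ x y : ℕ, 0 ≤ Real.sqrt ((x : ℝ) * y) /
      ((Nat.lcm x y : ℝ) * Real.sqrt (hd X α x * hd X α' y)) := fun x y =>
    div_nonneg (Real.sqrt_nonneg _) (mul_nonneg (Nat.cast_nonneg _) (Real.sqrt_nonneg _))
  have s1 := Finset.single_le_sum (f := fun y : ℕ => Real.sqrt ((d : ℝ) * y) /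
      ((Nat.lcm d y : ℝ) * Real.sqrt (hd X α d * hd X α' y))) (fun y _ => hnn d y) hd1'
  have s2 := Finset.single_le_sum (f := fun x : ℕ => ∑ y ∈ Apd δ X α', Real.sqrt ((x : ℝ) * y) /
      ((Nat.lcm x y : ℝ) * Real.sqrt (hd X α x * hd X α' y)))
      (fun x _ => Finset.sum_nonneg fun y _ => hnn x y) hd1
  exact s1.trans s2

end Pool.MP_dd84fd_nt.HX
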