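import Pool.Agent.Lib.MP_dd84fd_nt.HX.KsDefs
import Pool.Agent.Lib.MP_dd84fd_nt.GX.RelCnt

/-!
# HX-KsRel (0.6 h): the rank one kernel

For `k = 2^i`: `Σ_{j,j'} ‖x j‖ ‖x j'‖ 1[rel] ≤ Σ_{j,j'} (‖x j‖² + ‖x j'‖²)/2 · 1[rel] ≤ Σ_j ‖x j‖² #{j' : rel_k(α_j, α_j')}` (`GX.rel_symm`), `GX.rel_count`: `≤ 10 k³ (G/X) Σ ‖x j‖²`
(`k ≤ X`). So the term `i` contributes `(1/G)² (X/k) 10 k³ (G/X) Σ ‖x j‖² = 10 k² nm2 x = 10 · 4^i nm2 x`; `Σ_{i < J} 4^i ≤ 4^J`, `J = Nat.log 2 X / 6 + 4`: `4^J ≤ 256 · 4^(log_2 X/6) ≤ 256 X^(1/3)`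
(crude: `2^(6 · (Nat.log 2 X / 6)) ≤ X`). `k = 2^i ≤ 2^(Nat.log 2 X / 6 + 3) ≤ X` for `X ≥ X0`.
-/

set_option autoImplicit false

namespace Pool.MP_dd84fd_nt.HX

open Finset Pool.MP_67663b_nt.Odd Pool.MP_dd84fd_nt.En Pool.MP_dd84fd_nt.E2 Pool.MP_dd84fd_nt.LS
open Pool.MP_dd84fd_nt.L2G (nrm)
open Pool.MP_dd84fd_nt.GX

open Classical in
private theorem ksrel_one (X G k : ℕ) [NeZero G] (hX : 1 ≤ X) (hG : 3 * X ≤ G) (hk : 1 ≤ k)
    (hkX : k ≤ X) (x : ZMod G → ℂ) :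
    ∑ j : ZMod G, ∑ j' : ZMod G, (if rel X k (al G j) (al G j') then ‖x j‖ * ‖x j'‖ else 0) ≤
      10 * (k : ℝ) ^ 3 * ((G : ℝ) / X) * ∑ j : ZMod G, ‖x j‖ ^ 2 := by
  have h1 : ∑ j : ZMod G, ∑ j' : ZMod G,
      (if rel X k (al G j) (al G j') then ‖x j‖ * ‖x j'‖ else 0) ≤
      ∑ j : ZMod G, ∑ j' : ZMod G, ((if rel X k (al G j) (al G j') then ‖x j‖ ^ 2 / 2 else 0) +
        (if rel X k (al G j) (al G j') then ‖x j'‖ ^ 2 / 2 else 0)) := by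
    refine sum_le_sum fun j _ => sum_le_sum fun j' _ => ?_
    split_ifs with h
    · nlinarith [sq_nonneg (‖x j‖ - ‖x j'‖)]
    · simp
  have h2 : ∑ j : ZMod G, ∑ j' : ZMod G,
      (if rel X k (al G j) (al G j') then ‖x j'‖ ^ 2 / 2 else 0) =
      ∑ j : ZMod G, ∑ j' : ZMod G,
      (if rel X k (al G j) (al G j') then ‖x j‖ ^ 2 / 2 else 0) := by
    rw [sum_comm]
    refine sum_congr rfl fun j _ => sum_congr rfl fun j' _ => ?_
    have h3 : rel X k (al G j') (al G j) ↔ rel X k (al G j) (al G j') :=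
      ⟨rel_symm X k _ _, rel_symm X k _ _⟩
    by_cases h : rel X k (al G j) (al G j')
    · rw [if_pos h, if_pos (h3.2 h)]
    · rw [if_neg h, if_neg (fun h' => h (h3.1 h'))]
  have h4 : ∀ j : ZMod G, ∑ j' : ZMod G,
      (if rel X k (al G j) (al G j') then ‖x j‖ ^ 2 / 2 else 0) ≤
      (10 * (k : ℝ) ^ 3 * ((G : ℝ) / X)) * (‖x j‖ ^ 2 / 2) := by
    intro j
    rw [← sum_filter, sum_const, nsmul_eq_mul]
    exact mul_le_mul_of_nonneg_right (rel_count X G hX hG k hk hkX (al G j)) (by positivity)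
  have h5 : ∑ j : ZMod G, ∑ j' : ZMod G,
      (if rel X k (al G j) (al G j') then ‖x j‖ ^ 2 / 2 else 0) ≤
      ∑ j : ZMod G, (10 * (k : ℝ) ^ 3 * ((G : ℝ) / X)) * (‖x j‖ ^ 2 / 2) :=
    sum_le_sum fun j _ => h4 j
  refine h1.trans ?_
  simp only [sum_add_distrib]
  rw [h2]
  have h6 : ∑ j : ZMod G, (10 * (k : ℝ) ^ 3 * ((G : ℝ) / X)) * (‖x j‖ ^ 2 / 2) =
      10 * (k : ℝ) ^ 3 * ((G : ℝ) / X) * (∑ j : ZMod G, ‖x j‖ ^ 2) / 2 := by
    rw [← mul_sum, ← sum_div]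
    ring
  rw [h6] at h5
  linarith

private theorem ksrel_geom (J : ℕ) : ∑ i ∈ range J, (4 : ℝ) ^ i ≤ 4 ^ J := by
  induction J with
  | zero => simp
  | succ J ih =>
    rw [sum_range_succ, pow_succ]
    have : (0 : ℝ) < 4 ^ J := by positivity
    linarith

private theorem ksrel_m (X : ℕ) (hX : 8 ≤ X) : 2 ^ (6 * (Nat.log 2 X / 6)) ≤ X := by
  refine le_trans (Nat.pow_le_pow_right (by norm_num) ?_) (Nat.pow_log_le_self 2 (by omega))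
  omega

theorem rel_sum_h : ∃ X0 : ℕ, ∀ X : ℕ, X0 ≤ X → ∀ (G : ℕ) [NeZero G], 3 * X ≤ G →
    ∀ x : ZMod G → ℂ,
    (1 / (G : ℝ)) ^ 2 * ∑ j : ZMod G, ∑ j' : ZMod G, ‖x j‖ * ‖x j'‖ *
      RkH X (al G j) (al G j') ≤ 4000 * (X : ℝ) ^ (1 / 3 : ℝ) * nm2 G x := by
  refine ⟨8, fun X hX G _ hG x => ?_⟩
  classical
  have hX0 : (0 : ℝ) < X := by
    have : 0 < X := by omega
    exact_mod_cast this
  have hG0 : (0 : ℝ) < G := by
    have : 0 < G := by omega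
    exact_mod_cast this
  set m := Nat.log 2 X / 6 with hm
  have hmX := ksrel_m X hX
  rw [← hm] at hmX
  have e1 : ∑ j : ZMod G, ∑ j' : ZMod G, ‖x j‖ * ‖x j'‖ * RkH X (al G j) (al G j') =
      ∑ i ∈ range (m + 4), (X : ℝ) / 2 ^ i * ∑ j : ZMod G, ∑ j' : ZMod G,
        (if rel X (2 ^ i) (al G j) (al G j') then ‖x j‖ * ‖x j'‖ else 0) := by
    have : ∀ j j' : ZMod G, ‖x j‖ * ‖x j'‖ * RkH X (al G j) (al G j') =
        ∑ i ∈ range (m + 4), (X : ℝ) / 2 ^ i *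
          (if rel X (2 ^ i) (al G j) (al G j') then ‖x j‖ * ‖x j'‖ else 0) := by
      intro j j'
      unfold RkH
      rw [mul_sum]
      refine sum_congr rfl fun i _ => ?_
      split_ifs
      · ring
      · ring
    simp only [this]
    simp only [mul_sum]
    calc ∑ j : ZMod G, ∑ j' : ZMod G, ∑ i ∈ range (m + 4), (X : ℝ) / 2 ^ i *
          (if rel X (2 ^ i) (al G j) (al G j') then ‖x j‖ * ‖x j'‖ else 0)
        = ∑ j : ZMod G, ∑ i ∈ range (m + 4), ∑ j' : ZMod G, (X : ℝ) / 2 ^ i *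
          (if rel X (2 ^ i) (al G j) (al G j') then ‖x j‖ * ‖x j'‖ else 0) :=
          sum_congr rfl fun j _ => sum_comm
      _ = _ := sum_comm
  rw [e1, mul_sum]
  have hN : (0 : ℝ) ≤ ∑ j : ZMod G, ‖x j‖ ^ 2 := sum_nonneg fun j _ => by positivity
  have h1 : ∀ i ∈ range (m + 4), (1 / (G : ℝ)) ^ 2 * ((X : ℝ) / 2 ^ i *
      ∑ j : ZMod G, ∑ j' : ZMod G,
        (if rel X (2 ^ i) (al G j) (al G j') then ‖x j‖ * ‖x j'‖ else 0)) ≤
      4 ^ i * (10 * nm2 G x) := by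
    intro i hi
    rw [mem_range] at hi
    have hk : 1 ≤ 2 ^ i := Nat.one_le_two_pow
    have hkX : 2 ^ i ≤ X := by
      rcases Nat.eq_zero_or_pos m with h | h
      · have : 2 ^ i ≤ 2 ^ 3 := Nat.pow_le_pow_right (by norm_num) (by omega)
        omega
      · have : 2 ^ i ≤ 2 ^ (6 * m) := Nat.pow_le_pow_right (by norm_num) (by omega)
        omega
    have h2 := ksrel_one X G (2 ^ i) (by omega) hG hk hkX x
    have h3 : (1 / (G : ℝ)) ^ 2 * ((X : ℝ) / 2 ^ i * ∑ j : ZMod G, ∑ j' : ZMod G,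
        (if rel X (2 ^ i) (al G j) (al G j') then ‖x j‖ * ‖x j'‖ else 0)) ≤
        (1 / (G : ℝ)) ^ 2 * ((X : ℝ) / 2 ^ i * (10 * ((2 ^ i : ℕ) : ℝ) ^ 3 * ((G : ℝ) / X) *
          ∑ j : ZMod G, ‖x j‖ ^ 2)) :=
      mul_le_mul_of_nonneg_left (mul_le_mul_of_nonneg_left h2 (by positivity)) (by positivity)
    refine h3.trans (le_of_eq ?_)
    unfold nm2
    push_cast
    have e2 : (4 : ℝ) ^ i = 2 ^ i * 2 ^ i := by
      rw [← mul_pow]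
      norm_num
    rw [e2]
    field_simp
  refine (sum_le_sum h1).trans ?_
  rw [← sum_mul]
  have h4 := ksrel_geom (m + 4)
  have hnm : 0 ≤ nm2 G x := by
    unfold nm2
    positivity
  have h5 : (4 : ℝ) ^ m ≤ (X : ℝ) ^ (1 / 3 : ℝ) := by
    have h6 : ((2 : ℝ) ^ (6 * m)) ≤ X := by exact_mod_cast hmX
    have h7 : (4 : ℝ) ^ m = ((2 : ℝ) ^ (6 * m)) ^ (1 / 3 : ℝ) := by
      have : (2 : ℝ) ^ (6 * m) = ((4 : ℝ) ^ m) ^ (3 : ℕ) := by
        rw [← pow_mul, show (4 : ℝ) = 2 ^ 2 by norm_num, ← pow_mul]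
        congr 1
        ring
      rw [this, ← Real.rpow_natCast ((4 : ℝ) ^ m) 3, ← Real.rpow_mul (by positivity)]
      norm_num
    rw [h7]
    exact Real.rpow_le_rpow (by positivity) h6 (by norm_num)
  have h8 : (4 : ℝ) ^ (m + 4) = 256 * 4 ^ m := by
    rw [pow_add]
    norm_num
    ring
  calc (∑ i ∈ range (m + 4), (4 : ℝ) ^ i) * (10 * nm2 G x) ≤
        (256 * (X : ℝ) ^ (1 / 3 : ℝ)) * (10 * nm2 G x) := by
        refine mul_le_mul_of_nonneg_right ?_ (by positivity)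
        rw [h8] at h4
        linarith
    _ ≤ 4000 * (X : ℝ) ^ (1 / 3 : ℝ) * nm2 G x := by
        have : 0 ≤ (X : ℝ) ^ (1 / 3 : ℝ) * nm2 G x := by positivity
        nlinarith

end Pool.MP_dd84fd_nt.HX
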