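import Pool.Agent.Lib.MP_dd84fd_nt.HX.KsKer
import Pool.Agent.Lib.MP_dd84fd_nt.HX.KsNorm
import Pool.Agent.Lib.MP_dd84fd_nt.HX.KsRB
import Pool.Agent.Lib.MP_dd84fd_nt.HX.KsRel
import Pool.Agent.Lib.MP_dd84fd_nt.GX.TIIexp

/-!
# HX-KsTII (1.2 h): the type II bound, main part (weights outside the coincident set)

`x = xx G V ω E e`. `GX.typeII_exp`: `‖·‖² ≤ M (1/G)² Σ ‖x j‖ ‖x j'‖ Bker M N`; `ker_h` for the kernel (`N ≥ 1` since `Uu ≥ 2`), so (`S1 = nm1 x ≤ L^CV √(X|E|)`, `(1/G)² Σ ‖x j‖ ‖x j'‖ = S1²`)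
`‖·‖² ≤ M C L [ (N² + N X/y3 + X^(5/6)) S1² + N X · res + rel ]`, `res ≤ X^(-3η/4)|E|²` (`res_bound`), `rel ≤ 4000 X^(1/3) X L^CV |E|²` (`rel_sum_h`, `norms_h`). `M N ≤ X`, `N ≤ y2 = X^(1/2-3δ)`,
`M ≤ X/N ≤ 2X/Uu ≤ 4 X^(2/3-3δ)`:
`M N² S1² ≤ X · X^(1/2-3δ) L^(2CV) X |E|`, `M N (X/y3) S1² ≤ X · X^(1/2-3δ) L^(2CV) X |E|`, `M X^(5/6) S1² ≤ 4 X^(5/2-3δ) L^(2CV) |E|`: all `≤ 4 L^(2CV) X^(5/2-3δ) |E| ≤ 4 L^(2CV) X^(2-δ) |E|²`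
(`|E| ≥ X^(1/2-2δ)`); `M N X res ≤ X^(2-3η/4)|E|²`; `M rel ≤ 16000 X^(2-3δ) L^CV |E|²`. Total `≤ X^(2-η/2) |E|²` for `X ≥ X0` (`η ≤ δ`).
-/

set_option autoImplicit false

namespace Pool.MP_dd84fd_nt.HX

open Finset Pool.MP_67663b_nt.Odd Pool.MP_dd84fd_nt.En Pool.MP_dd84fd_nt.E2 Pool.MP_dd84fd_nt.LS
open Pool.MP_dd84fd_nt.L2G (nrm)
open Pool.MP_dd84fd_nt.GX

private theorem tii_split {ι : Type} (s : Finset ι) (A R1 R2 : ι → ι → ℝ) (g c p q : ℝ) :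
    g * ∑ j ∈ s, ∑ j' ∈ s, A j j' * (c * (p + q * R1 j j' + R2 j j')) =
      c * (p * (g * ∑ j ∈ s, ∑ j' ∈ s, A j j') + q * (g * ∑ j ∈ s, ∑ j' ∈ s, A j j' * R1 j j') +
        g * ∑ j ∈ s, ∑ j' ∈ s, A j j' * R2 j j') := by
  have h : ∀ j ∈ s, ∀ j' ∈ s, A j j' * (c * (p + q * R1 j j' + R2 j j')) =
      c * p * A j j' + c * q * (A j j' * R1 j j') + c * (A j j' * R2 j j') := by
    intro j _ j' _
    ring
  rw [Finset.sum_congr rfl fun j hj => Finset.sum_congr rfl fun j' hj' => h j hj j' hj']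
  simp only [Finset.sum_add_distrib, ← Finset.mul_sum]
  ring

theorem tii_main (CV : ℕ) (δ η : ℝ) (hδ : 0 < δ) (hδ' : δ ≤ 1 / 2000) (hη : 0 < η)
    (hη' : η ≤ δ) : ∃ X0 : ℕ, ∀ X : ℕ, X0 ≤ X → ∀ (G : ℕ) [NeZero G], 3 * X ≤ G →
    ∀ V : ZMod G → ℂ, VBH G X CV V → ∀ ω : ZMod G → ℂ, (∀ j, ‖ω j‖ ≤ 1) → ∀ E : Finset ℕ,
    E ⊆ Icc 1 X → (X : ℝ) ^ (1 / 2 - 2 * δ) ≤ E.card → ∀ e : ℕ → ℂ, (∀ n, ‖e n‖ ≤ 1) →
    NoAPH G δ X ω E ((X : ℝ) ^ (-η)) → (∀ j, ω j ≠ 0 → ¬ Coi G δ X (Pop δ X E) j) →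
    TIIH δ X (FF G (xx G V ω E e)) ((X : ℝ) ^ (1 - η / 4) * E.card) := by
  obtain ⟨C, hC, X1, hker⟩ := ker_h
  obtain ⟨X2, hres⟩ := res_bound CV δ η hδ hδ' hη hη'
  obtain ⟨X3, hrel⟩ := rel_sum_h
  obtain ⟨X4, hlog⟩ := E2.MP_log_pow (16007 * C) (2 * CV + 1) (ε := η / 4) (by positivity)
  refine ⟨max (max X1 X2) (max X3 (max X4 8)), ?_⟩
  intro X hX G _ hG V hV ω hω E hE hEc e he hNo hCoi M N t a b ht ha hb hM hNU hN2 hMN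
  have hX1 : X1 ≤ X := by omega
  have hX2 : X2 ≤ X := by omega
  have hX3 : X3 ≤ X := by omega
  have hX4 : X4 ≤ X := by omega
  have hX8 : 8 ≤ X := by omega
  have hXr : (8 : ℝ) ≤ X := by exact_mod_cast hX8
  have hX0 : (0 : ℝ) < X := by linarith
  have hX1' : (1 : ℝ) ≤ X := by linarith
  -- logarithm
  set L : ℝ := Real.log X with hL
  have hL1 : 1 ≤ L := by
    rw [hL, Real.le_log_iff_exp_le hX0]
    have := Real.exp_one_lt_d9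
    linarith
  have hL0 : 0 < L := by linarith
  -- N ≥ 1
  have hU2 : (2 : ℝ) ≤ (X : ℝ) ^ (1 / 3 + 3 * δ) := by
    calc (2 : ℝ) = (8 : ℝ) ^ (1 / 3 : ℝ) := by
          rw [show (8 : ℝ) = 2 ^ (3 : ℝ) by norm_num, ← Real.rpow_mul (by norm_num)]
          norm_num
      _ ≤ (X : ℝ) ^ (1 / 3 : ℝ) := Real.rpow_le_rpow (by norm_num) hXr (by norm_num)
      _ ≤ (X : ℝ) ^ (1 / 3 + 3 * δ) := Real.rpow_le_rpow_of_exponent_le hX1' (by linarith)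
  have hUge : (X : ℝ) ^ (1 / 3 + 3 * δ) / 2 ≤ (Uu δ X : ℝ) := by
    have h1 := Nat.lt_floor_add_one ((X : ℝ) ^ (1 / 3 + 3 * δ))
    unfold Uu
    linarith
  have hNr : (X : ℝ) ^ (1 / 3 + 3 * δ) / 4 ≤ N := by linarith
  have hN0 : (0 : ℝ) < N := by
    have : 0 < (X : ℝ) ^ (1 / 3 + 3 * δ) := by positivity
    linarith
  have hN1 : 1 ≤ N := by
    have : 0 < N := by exact_mod_cast hN0
    omega
  have hM0 : (0 : ℝ) < M := by exact_mod_cast hM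
  have hMNr : (M : ℝ) * N ≤ X := by exact_mod_cast hMN
  -- the norms
  obtain ⟨hn1, hn2, -⟩ := norms_h X G CV (by omega) hG V ω hV hω E hE e he
  set x := xx G V ω E e with hx
  set S1 := nm1 G x with hS1
  have hS1eq : (1 / (G : ℝ)) ^ 2 * ∑ j : ZMod G, ∑ j' : ZMod G, ‖x j‖ * ‖x j'‖ = S1 ^ 2 := by
    rw [hS1]
    unfold nm1
    rw [mul_pow, sq (∑ j : ZMod G, ‖x j‖), Finset.sum_mul_sum]
  have hS10 : 0 ≤ S1 := by rw [hS1]; unfold nm1; positivity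
  have hEc0 : (0 : ℝ) ≤ E.card := by positivity
  have hS1sq : S1 ^ 2 ≤ L ^ (2 * CV) * ((X : ℝ) * E.card) := by
    calc S1 ^ 2 ≤ (L ^ CV * Real.sqrt ((X : ℝ) * E.card)) ^ 2 := pow_le_pow_left₀ hS10 hn1 2
      _ = L ^ (2 * CV) * ((X : ℝ) * E.card) := by
          rw [mul_pow, Real.sq_sqrt (by positivity), ← pow_mul, mul_comm CV 2]
  have hy3 : 0 < y3 δ X := by unfold y3; positivity
  have hy2 : 0 < y2 δ X := by unfold y2; positivity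
  -- kernel
  have hexp := typeII_exp G x M N t a b ha hb
  have hsum : (1 / (G : ℝ)) ^ 2 * ∑ j : ZMod G, ∑ j' : ZMod G,
      ‖x j‖ * ‖x j'‖ * Bker M N (al G j) (al G j') ≤
      C * L * (((N : ℝ) ^ 2 + N * X / y3 δ X + (X : ℝ) ^ (5 / 6 : ℝ)) * S1 ^ 2 +
        N * X * ((X : ℝ) ^ (-(3 / 4 * η)) * (E.card : ℝ) ^ 2) +
        4000 * (X : ℝ) ^ (1 / 3 : ℝ) * (X * L ^ CV * (E.card : ℝ) ^ 2)) := by
    have h1 : (1 / (G : ℝ)) ^ 2 * ∑ j : ZMod G, ∑ j' : ZMod G,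
        ‖x j‖ * ‖x j'‖ * Bker M N (al G j) (al G j') ≤
        (1 / (G : ℝ)) ^ 2 * ∑ j : ZMod G, ∑ j' : ZMod G,
        ‖x j‖ * ‖x j'‖ * (C * L * ((N : ℝ) ^ 2 + N * X / y3 δ X + (X : ℝ) ^ (5 / 6 : ℝ) +
          N * X * Res δ X (al G j) (al G j') + RkH X (al G j) (al G j'))) := by
      refine mul_le_mul_of_nonneg_left (Finset.sum_le_sum fun j _ => Finset.sum_le_sum fun j' _ =>
        mul_le_mul_of_nonneg_left (hker X hX1 δ hδ hδ' M N hM hN1 hMN _ _) (by positivity))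
        (by positivity)
    rw [tii_split univ (fun j j' => ‖x j‖ * ‖x j'‖) (fun j j' => Res δ X (al G j) (al G j'))
      (fun j j' => RkH X (al G j) (al G j')), hS1eq] at h1
    refine h1.trans (mul_le_mul_of_nonneg_left (add_le_add (add_le_add le_rfl
      (mul_le_mul_of_nonneg_left
        (hres X hX2 G hG V hV ω hω E hE e he hNo hCoi) (by positivity)))
      ((hrel X hX3 G hG x).trans (mul_le_mul_of_nonneg_left hn2 (by positivity))))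
      (by positivity))
  -- powers of X
  have hEge : (X : ℝ) ^ (5 / 2 - 3 * δ) * E.card ≤ (X : ℝ) ^ (2 - 3 / 4 * η) * (E.card : ℝ) ^ 2 := by
    calc (X : ℝ) ^ (5 / 2 - 3 * δ) * E.card
        = (X : ℝ) ^ (2 - δ) * (X : ℝ) ^ (1 / 2 - 2 * δ) * E.card := by
          rw [← Real.rpow_add hX0]; congr 2; ring
      _ ≤ (X : ℝ) ^ (2 - 3 / 4 * η) * E.card * E.card := by
          refine mul_le_mul_of_nonneg_right (mul_le_mul (Real.rpow_le_rpow_of_exponent_le hX1'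
            (by linarith)) hEc (by positivity) (by positivity)) hEc0
      _ = _ := by ring
  have hNy : (N : ℝ) ≤ (X : ℝ) ^ (1 / 2 - 3 * δ) := hN2
  have hM2 : (M : ℝ) ≤ 4 * (X : ℝ) ^ (2 / 3 - 3 * δ) := by
    have h1 : (M : ℝ) * ((X : ℝ) ^ (1 / 3 + 3 * δ) / 4) ≤ X :=
      (mul_le_mul_of_nonneg_left hNr hM0.le).trans hMNr
    have h2 : (X : ℝ) = (X : ℝ) ^ (2 / 3 - 3 * δ) * (X : ℝ) ^ (1 / 3 + 3 * δ) := by
      rw [← Real.rpow_add hX0]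
      norm_num
    have h3 : 0 < (X : ℝ) ^ (1 / 3 + 3 * δ) := by positivity
    have h4 : (M : ℝ) * (X : ℝ) ^ (1 / 3 + 3 * δ) ≤
        4 * (X : ℝ) ^ (2 / 3 - 3 * δ) * (X : ℝ) ^ (1 / 3 + 3 * δ) := by
      nlinarith
    exact le_of_mul_le_mul_right h4 h3
  have hT1 : (M : ℝ) * ((N : ℝ) ^ 2 * S1 ^ 2) ≤
      L ^ (2 * CV) * ((X : ℝ) ^ (5 / 2 - 3 * δ) * E.card) := by
    calc (M : ℝ) * ((N : ℝ) ^ 2 * S1 ^ 2) = (M * N) * N * S1 ^ 2 := by ring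
      _ ≤ X * (X : ℝ) ^ (1 / 2 - 3 * δ) * (L ^ (2 * CV) * ((X : ℝ) * E.card)) := by
          refine mul_le_mul (mul_le_mul hMNr hNy hN0.le hX0.le) hS1sq (by positivity)
            (by positivity)
      _ = L ^ (2 * CV) * ((X : ℝ) ^ (2 : ℝ) * (X : ℝ) ^ (1 / 2 - 3 * δ) * E.card) := by
          rw [Real.rpow_two]; ring
      _ = _ := by rw [← Real.rpow_add hX0]; congr 3; ring
  have hT2 : (M : ℝ) * (N * X / y3 δ X * S1 ^ 2) ≤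
      L ^ (2 * CV) * ((X : ℝ) ^ (5 / 2 - 3 * δ) * E.card) := by
    have h1 : (X : ℝ) / y3 δ X = (X : ℝ) ^ (1 / 2 - 3 * δ) := by
      unfold y3
      nth_rewrite 1 [← Real.rpow_one (X : ℝ)]
      rw [← Real.rpow_sub hX0]
      congr 1
      ring
    calc (M : ℝ) * (N * X / y3 δ X * S1 ^ 2) = (M * N) * (X / y3 δ X) * S1 ^ 2 := by ring
      _ ≤ X * (X : ℝ) ^ (1 / 2 - 3 * δ) * (L ^ (2 * CV) * ((X : ℝ) * E.card)) := by
          rw [h1]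
          refine mul_le_mul (mul_le_mul_of_nonneg_right hMNr (by positivity)) hS1sq
            (by positivity) (by positivity)
      _ = L ^ (2 * CV) * ((X : ℝ) ^ (2 : ℝ) * (X : ℝ) ^ (1 / 2 - 3 * δ) * E.card) := by
          rw [Real.rpow_two]; ring
      _ = _ := by rw [← Real.rpow_add hX0]; congr 3; ring
  have hT3 : (M : ℝ) * ((X : ℝ) ^ (5 / 6 : ℝ) * S1 ^ 2) ≤
      4 * L ^ (2 * CV) * ((X : ℝ) ^ (5 / 2 - 3 * δ) * E.card) := by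
    calc (M : ℝ) * ((X : ℝ) ^ (5 / 6 : ℝ) * S1 ^ 2)
        ≤ 4 * (X : ℝ) ^ (2 / 3 - 3 * δ) *
          ((X : ℝ) ^ (5 / 6 : ℝ) * (L ^ (2 * CV) * ((X : ℝ) * E.card))) :=
          mul_le_mul hM2 (mul_le_mul_of_nonneg_left hS1sq (by positivity)) (by positivity)
            (by positivity)
      _ = 4 * L ^ (2 * CV) * ((X : ℝ) ^ (2 / 3 - 3 * δ) * (X : ℝ) ^ (5 / 6 : ℝ) *
          (X : ℝ) ^ (1 : ℝ) * E.card) := by rw [Real.rpow_one]; ring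
      _ = _ := by rw [← Real.rpow_add hX0, ← Real.rpow_add hX0]; congr 3; ring
  have hT4 : (M : ℝ) * (N * X * ((X : ℝ) ^ (-(3 / 4 * η)) * (E.card : ℝ) ^ 2)) ≤
      (X : ℝ) ^ (2 - 3 / 4 * η) * (E.card : ℝ) ^ 2 := by
    calc (M : ℝ) * (N * X * ((X : ℝ) ^ (-(3 / 4 * η)) * (E.card : ℝ) ^ 2))
        = (M * N) * (X * ((X : ℝ) ^ (-(3 / 4 * η)) * (E.card : ℝ) ^ 2)) := by ring
      _ ≤ X * (X * ((X : ℝ) ^ (-(3 / 4 * η)) * (E.card : ℝ) ^ 2)) :=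
          mul_le_mul_of_nonneg_right hMNr (by positivity)
      _ = (X : ℝ) ^ (2 : ℝ) * (X : ℝ) ^ (-(3 / 4 * η)) * (E.card : ℝ) ^ 2 := by
          rw [Real.rpow_two]; ring
      _ = _ := by rw [← Real.rpow_add hX0]; congr 2
  have hT5 : (M : ℝ) * (4000 * (X : ℝ) ^ (1 / 3 : ℝ) * (X * L ^ CV * (E.card : ℝ) ^ 2)) ≤
      16000 * L ^ CV * ((X : ℝ) ^ (2 - 3 / 4 * η) * (E.card : ℝ) ^ 2) := by
    calc (M : ℝ) * (4000 * (X : ℝ) ^ (1 / 3 : ℝ) * (X * L ^ CV * (E.card : ℝ) ^ 2))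
        ≤ 4 * (X : ℝ) ^ (2 / 3 - 3 * δ) *
          (4000 * (X : ℝ) ^ (1 / 3 : ℝ) * (X * L ^ CV * (E.card : ℝ) ^ 2)) :=
          mul_le_mul_of_nonneg_right hM2 (by positivity)
      _ = 16000 * L ^ CV * ((X : ℝ) ^ (2 / 3 - 3 * δ) * (X : ℝ) ^ (1 / 3 : ℝ) *
          (X : ℝ) ^ (1 : ℝ) * (E.card : ℝ) ^ 2) := by rw [Real.rpow_one]; ring
      _ ≤ 16000 * L ^ CV * ((X : ℝ) ^ (2 - 3 / 4 * η) * (E.card : ℝ) ^ 2) := by
          rw [← Real.rpow_add hX0, ← Real.rpow_add hX0]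
          refine mul_le_mul_of_nonneg_left (mul_le_mul_of_nonneg_right
            (Real.rpow_le_rpow_of_exponent_le hX1' (by linarith)) (by positivity)) (by positivity)
  set Z : ℝ := (X : ℝ) ^ (2 - 3 / 4 * η) * (E.card : ℝ) ^ 2 with hZ
  have hZ0 : 0 ≤ Z := by rw [hZ]; positivity
  have hLC : L ^ CV ≤ L ^ (2 * CV) := pow_le_pow_right₀ hL1 (by omega)
  have hL2 : 1 ≤ L ^ (2 * CV) := one_le_pow₀ hL1
  have hfin : ‖∑ l ∈ Ioc M (2 * M), ∑ s ∈ (Ioc N (2 * N)).filter (fun s => l * s ≤ t),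
      a l * b s * FF G x (l * s)‖ ^ 2 ≤ ((X : ℝ) ^ (1 - η / 4) * E.card) ^ 2 := by
    have hstep : (M : ℝ) * (C * L * (((N : ℝ) ^ 2 + N * X / y3 δ X + (X : ℝ) ^ (5 / 6 : ℝ)) *
        S1 ^ 2 + N * X * ((X : ℝ) ^ (-(3 / 4 * η)) * (E.card : ℝ) ^ 2) +
        4000 * (X : ℝ) ^ (1 / 3 : ℝ) * (X * L ^ CV * (E.card : ℝ) ^ 2))) ≤
        16007 * C * L ^ (2 * CV + 1) * Z := by
      have e1 : (M : ℝ) * (C * L * (((N : ℝ) ^ 2 + N * X / y3 δ X + (X : ℝ) ^ (5 / 6 : ℝ)) *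
        S1 ^ 2 + N * X * ((X : ℝ) ^ (-(3 / 4 * η)) * (E.card : ℝ) ^ 2) +
        4000 * (X : ℝ) ^ (1 / 3 : ℝ) * (X * L ^ CV * (E.card : ℝ) ^ 2))) =
        C * L * ((M : ℝ) * ((N : ℝ) ^ 2 * S1 ^ 2) + (M : ℝ) * (N * X / y3 δ X * S1 ^ 2) +
          (M : ℝ) * ((X : ℝ) ^ (5 / 6 : ℝ) * S1 ^ 2) +
          (M : ℝ) * (N * X * ((X : ℝ) ^ (-(3 / 4 * η)) * (E.card : ℝ) ^ 2)) +
          (M : ℝ) * (4000 * (X : ℝ) ^ (1 / 3 : ℝ) * (X * L ^ CV * (E.card : ℝ) ^ 2))) := by ring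
      rw [e1]
      have e2 : 16007 * C * L ^ (2 * CV + 1) * Z = C * L * (16007 * L ^ (2 * CV) * Z) := by
        rw [pow_succ]; ring
      rw [e2]
      refine mul_le_mul_of_nonneg_left ?_ (by positivity)
      have f1 : L ^ (2 * CV) * ((X : ℝ) ^ (5 / 2 - 3 * δ) * E.card) ≤ L ^ (2 * CV) * Z :=
        mul_le_mul_of_nonneg_left hEge (by positivity)
      have f2 : L ^ CV * Z ≤ L ^ (2 * CV) * Z := mul_le_mul_of_nonneg_right hLC hZ0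
      have f3 : 1 * Z ≤ L ^ (2 * CV) * Z := mul_le_mul_of_nonneg_right hL2 hZ0
      linarith
    refine hexp.trans ((mul_le_mul_of_nonneg_left hsum hM0.le).trans (hstep.trans ?_))
    calc 16007 * C * L ^ (2 * CV + 1) * Z ≤ (X : ℝ) ^ (η / 4) * Z :=
          mul_le_mul_of_nonneg_right (hlog X hX4) hZ0
      _ = (X : ℝ) ^ (2 - η / 2) * (E.card : ℝ) ^ 2 := by
          rw [hZ, ← mul_assoc, ← Real.rpow_add hX0]; congr 2; ring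
      _ = ((X : ℝ) ^ (1 - η / 4) * E.card) ^ 2 := by
          rw [mul_pow, ← Real.rpow_natCast ((X : ℝ) ^ (1 - η / 4)) 2, ← Real.rpow_mul hX0.le]
          congr 2
          push_cast
          ring
  exact le_of_sq_le_sq hfin (by positivity)


end Pool.MP_dd84fd_nt.HX
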