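import Pool.Agent.Lib.MP_dd84fd_nt.HX.KsPt
import Pool.Agent.Lib.MP_dd84fd_nt.HX.KsNorm
import Pool.Agent.Lib.MP_dd84fd_nt.HX.KsPop
import Pool.Agent.Lib.MP_dd84fd_nt.HX.KsCc
import Pool.Agent.Lib.MP_dd84fd_nt.HX.KsApd2
import Pool.Agent.Lib.MP_dd84fd_nt.E2.MinorP

/-!
# HX-KsTIIc (0.8 h): the type II bound for a weight supported on the coincident set

`x = xx G V ω E e`, `‖x j‖ ≤ X L^CV |E|`, `x j = 0` unless `Coi` holds, and then `ht X α_j ≥ X/(4 y3)` (`apd_ht`). The type II sum of `FF G x` is `(1/G) Σ_j x j · Σ_{l,s} a_l b_s χ(l s j)` (unfold `FF`, exchange the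
sums), `typeII_pt`: the inner sum is at most `(C L X (M + N + X/ht))^(1/2)`, `M ≤ 4 X^(2/3-3δ)` (see KsTII), `N ≤ X^(1/2)`, `X/ht ≤ 4 y3 ≤ 4 X^(2/3)`: `≤ (9 C L X^(5/3))^(1/2) = 3 (C L)^(1/2) X^(5/6)`. So the norm is
`≤ (1/G) #Coi · X L^CV |E| · 3 (C L)^(1/2) X^(5/6)`, `(1/G) #Coi ≤ X^(-1+80δ)` (`pop_count`, `cc_count`): `≤ 3 (CL)^(1/2) L^CV X^(5/6+80δ)|E| ≤ X^(1-δ)|E|` (`81 δ < 1/6`).
-/

set_option autoImplicit false

namespace Pool.MP_dd84fd_nt.HX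

open Finset Pool.MP_67663b_nt.Odd Pool.MP_dd84fd_nt.En Pool.MP_dd84fd_nt.E2 Pool.MP_dd84fd_nt.LS
open Pool.MP_dd84fd_nt.L2G (nrm)
open Pool.MP_dd84fd_nt.GX

private theorem tiicc_expand (G : ℕ) [NeZero G] (x : ZMod G → ℂ) (M N t : ℕ) (a b : ℕ → ℂ) :
    ∑ l ∈ Ioc M (2 * M), ∑ s ∈ (Ioc N (2 * N)).filter (fun s => l * s ≤ t),
      a l * b s * FF G x (l * s) =
    (1 / (G : ℂ)) * ∑ j : ZMod G, x j * ∑ l ∈ Ioc M (2 * M),
      ∑ s ∈ (Ioc N (2 * N)).filter (fun s => l * s ≤ t),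
      a l * b s * ZMod.stdAddChar (((l * s : ℕ) : ZMod G) * j) := by
  unfold FF
  have h1 : ∀ j : ZMod G, x j * ∑ l ∈ Ioc M (2 * M),
      ∑ s ∈ (Ioc N (2 * N)).filter (fun s => l * s ≤ t),
      a l * b s * ZMod.stdAddChar (((l * s : ℕ) : ZMod G) * j) =
      ∑ l ∈ Ioc M (2 * M), ∑ s ∈ (Ioc N (2 * N)).filter (fun s => l * s ≤ t),
      x j * (a l * b s * ZMod.stdAddChar (((l * s : ℕ) : ZMod G) * j)) := by
    intro j
    rw [mul_sum]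
    refine sum_congr rfl fun l _ => ?_
    rw [mul_sum]
  simp_rw [h1]
  rw [sum_comm, mul_sum]
  refine sum_congr rfl fun l _ => ?_
  rw [sum_comm, mul_sum]
  refine sum_congr rfl fun s _ => ?_
  rw [mul_sum, mul_sum, mul_sum]
  refine sum_congr rfl fun j _ => ?_
  ring

theorem tii_cc (CV : ℕ) (δ : ℝ) (hδ : 0 < δ) (hδ' : δ ≤ 1 / 2000) : ∃ X0 : ℕ, ∀ X : ℕ,
    X0 ≤ X → ∀ (G : ℕ) [NeZero G], 3 * X ≤ G →
    ∀ V : ZMod G → ℂ, VBH G X CV V → ∀ ω : ZMod G → ℂ, (∀ j, ‖ω j‖ ≤ 1) → ∀ E : Finset ℕ,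
    E ⊆ Icc 1 X → (X : ℝ) ^ (1 / 2 - 2 * δ) ≤ E.card → ∀ e : ℕ → ℂ, (∀ n, ‖e n‖ ≤ 1) →
    (∀ j, ω j ≠ 0 → Coi G δ X (Pop δ X E) j) →
    TIIH δ X (FF G (xx G V ω E e)) ((X : ℝ) ^ (1 - δ) * E.card) := by
  classical
  obtain ⟨C, hC, X1, h1⟩ := typeII_pt
  obtain ⟨X2, h2⟩ := pop_count δ hδ hδ'
  obtain ⟨X3, h3⟩ := cc_count δ hδ
  obtain ⟨X4, h4⟩ := MP_log_pow (3 * Real.sqrt C) (CV + 1) (show (0 : ℝ) < 1 / 10 by norm_num)
  refine ⟨max (max X1 X2) (max (max X3 X4) 64), ?_⟩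
  intro X hX G _ hG V hV ω hω E hE hEc e he hCoi M N t a b htX ha hb hM hN1 hN2 hMN
  have hX1 : X1 ≤ X := le_trans (le_trans (le_max_left _ _) (le_max_left _ _)) hX
  have hX2 : X2 ≤ X := le_trans (le_trans (le_max_right _ _) (le_max_left _ _)) hX
  have hX3 : X3 ≤ X :=
    le_trans (le_trans (le_trans (le_max_left _ _) (le_max_left _ _)) (le_max_right _ _)) hX
  have hX4 : X4 ≤ X :=
    le_trans (le_trans (le_trans (le_max_right _ _) (le_max_left _ _)) (le_max_right _ _)) hX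
  have hX64 : 64 ≤ X := le_trans (le_trans (le_max_right _ _) (le_max_right _ _)) hX
  have hXr : (64 : ℝ) ≤ X := by exact_mod_cast hX64
  have hX0 : (0 : ℝ) < X := by linarith
  have hX1r : (1 : ℝ) ≤ X := by linarith
  have hL : 1 ≤ Real.log X := by
    rw [Real.le_log_iff_exp_le hX0]
    linarith [Real.exp_one_lt_d9]
  -- the size of `N`
  have hy : (X : ℝ) ^ (1 / 3 : ℝ) ≤ (X : ℝ) ^ (1 / 3 + 3 * δ) :=
    Real.rpow_le_rpow_of_exponent_le hX1r (by linarith)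
  have h43 : (4 : ℝ) ≤ (X : ℝ) ^ (1 / 3 : ℝ) := by
    have h5 : (4 : ℝ) = ((4 : ℝ) ^ (3 : ℝ)) ^ (1 / 3 : ℝ) := by
      rw [← Real.rpow_mul (by norm_num)]
      norm_num
    rw [h5]
    refine Real.rpow_le_rpow (by positivity) ?_ (by norm_num)
    have h6 : (4 : ℝ) ^ (3 : ℝ) = 64 := by
      rw [show (3 : ℝ) = ((3 : ℕ) : ℝ) by norm_num, Real.rpow_natCast]
      norm_num
    rw [h6]
    exact hXr
  have hUu : (X : ℝ) ^ (1 / 3 + 3 * δ) - 1 < (Uu δ X : ℝ) := by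
    unfold Uu
    exact Nat.sub_one_lt_floor _
  have hNlow : (X : ℝ) ^ (1 / 3 : ℝ) / 4 ≤ N := by linarith
  have hNpos : 1 ≤ N := by
    have h5 : (0 : ℝ) < N := by linarith
    exact_mod_cast h5
  have h23 : (X : ℝ) = (X : ℝ) ^ (2 / 3 : ℝ) * (X : ℝ) ^ (1 / 3 : ℝ) := by
    rw [← Real.rpow_add hX0]
    norm_num
  have hMN' : (M : ℝ) * N ≤ X := by exact_mod_cast hMN
  have hM0 : (0 : ℝ) ≤ M := Nat.cast_nonneg _
  have hMup : (M : ℝ) ≤ 4 * (X : ℝ) ^ (2 / 3 : ℝ) := by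
    have h5 : (M : ℝ) * ((X : ℝ) ^ (1 / 3 : ℝ) / 4) ≤ X :=
      le_trans (mul_le_mul_of_nonneg_left hNlow hM0) hMN'
    have h6 : (M : ℝ) * (X : ℝ) ^ (1 / 3 : ℝ) ≤
        4 * (X : ℝ) ^ (2 / 3 : ℝ) * (X : ℝ) ^ (1 / 3 : ℝ) := by
      have h7 : 4 * (X : ℝ) ^ (2 / 3 : ℝ) * (X : ℝ) ^ (1 / 3 : ℝ) = 4 * X := by
        rw [mul_assoc, ← h23]
      rw [h7]
      linarith
    exact le_of_mul_le_mul_right h6 (by linarith)
  have hNup : (N : ℝ) ≤ (X : ℝ) ^ (2 / 3 : ℝ) := by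
    refine le_trans hN2 ?_
    unfold y2
    exact Real.rpow_le_rpow_of_exponent_le hX1r (by linarith)
  have hy3 : y3 δ X ≤ (X : ℝ) ^ (2 / 3 : ℝ) := by
    unfold y3
    exact Real.rpow_le_rpow_of_exponent_le hX1r (by linarith)
  have hy3pos : 0 < y3 δ X := by
    unfold y3
    exact Real.rpow_pos_of_pos hX0 _
  -- the pointwise bound
  set B : ℝ := 3 * Real.sqrt C * Real.log X * (X : ℝ) ^ (5 / 6 : ℝ) with hB
  have hB0 : 0 ≤ B := by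
    rw [hB]
    have := Real.sqrt_nonneg C
    positivity
  have hBsq : B ^ 2 = 9 * C * (Real.log X) ^ 2 * (X : ℝ) * (X : ℝ) ^ (2 / 3 : ℝ) := by
    have h5 : ((X : ℝ) ^ (5 / 6 : ℝ)) ^ 2 = (X : ℝ) * (X : ℝ) ^ (2 / 3 : ℝ) := by
      rw [← Real.rpow_natCast, ← Real.rpow_mul hX0.le]
      have h6 : (X : ℝ) * (X : ℝ) ^ (2 / 3 : ℝ) = (X : ℝ) ^ (1 + 2 / 3 : ℝ) := by
        rw [Real.rpow_add hX0, Real.rpow_one]
      rw [h6]
      norm_num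
    have h7 : Real.sqrt C ^ 2 = C := Real.sq_sqrt hC.le
    rw [hB, mul_pow, mul_pow, mul_pow, h5, h7]
    ring
  have hS : ∀ j : ZMod G, ω j ≠ 0 → ‖∑ l ∈ Ioc M (2 * M),
      ∑ s ∈ (Ioc N (2 * N)).filter (fun s => l * s ≤ t),
      a l * b s * ZMod.stdAddChar (((l * s : ℕ) : ZMod G) * j)‖ ≤ B := by
    intro j hj
    obtain ⟨d, -, d', -, hne, hd, hd'⟩ := hCoi j hj
    have h5 := apd_ht δ hδ.le X (by omega) (al G j) d d' hd hd' hne
    have h6 := h1 X hX1 G j M N t a b ha hb hM hNpos hMN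
    have hhtpos : 0 < GX.ht X (al G j) := lt_of_lt_of_le (by positivity) h5
    have h7 : (X : ℝ) / GX.ht X (al G j) ≤ 4 * (X : ℝ) ^ (2 / 3 : ℝ) := by
      rw [div_le_iff₀ hhtpos]
      rw [div_le_iff₀ (by positivity)] at h5
      nlinarith
    have h8 : (M : ℝ) + N + (X : ℝ) / GX.ht X (al G j) ≤ 9 * (X : ℝ) ^ (2 / 3 : ℝ) := by linarith
    have h9 : C * Real.log X * X * (M + N + (X : ℝ) / GX.ht X (al G j)) ≤ B ^ 2 := by
      rw [hBsq]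
      have h10 : C * Real.log X * X * (M + N + (X : ℝ) / GX.ht X (al G j)) ≤
          C * Real.log X * X * (9 * (X : ℝ) ^ (2 / 3 : ℝ)) :=
        mul_le_mul_of_nonneg_left h8 (by positivity)
      refine le_trans h10 ?_
      have h11 : C * Real.log X * X * (9 * (X : ℝ) ^ (2 / 3 : ℝ)) * 1 ≤
          C * Real.log X * X * (9 * (X : ℝ) ^ (2 / 3 : ℝ)) * Real.log X :=
        mul_le_mul_of_nonneg_left hL (by positivity)
      calc C * Real.log X * X * (9 * (X : ℝ) ^ (2 / 3 : ℝ))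
          = C * Real.log X * X * (9 * (X : ℝ) ^ (2 / 3 : ℝ)) * 1 := by ring
        _ ≤ C * Real.log X * X * (9 * (X : ℝ) ^ (2 / 3 : ℝ)) * Real.log X := h11
        _ = _ := by ring
    exact (pow_le_pow_iff_left₀ (norm_nonneg _) hB0 two_ne_zero).1 (h6.trans h9)
  have hnorm := (norms_h X G CV (by omega) hG V ω hV hω E hE e he).2.2
  set W : ℝ := X * (Real.log X) ^ CV * E.card with hW
  have hL0 : 0 ≤ Real.log X := by linarith
  have hE0 : (0 : ℝ) ≤ E.card := Nat.cast_nonneg _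
  have hW0 : 0 ≤ W := by
    rw [hW]
    exact mul_nonneg (mul_nonneg hX0.le (pow_nonneg hL0 _)) hE0
  have hWB0 : 0 ≤ W * B := mul_nonneg hW0 hB0
  rw [tiicc_expand]
  have hGpos : (0 : ℝ) < G := by
    have : 0 < G := by omega
    exact_mod_cast this
  have hcount := h3 X hX3 G hG (Pop δ X E) (h2 X hX2 E hE hEc)
  set J := (univ : Finset (ZMod G)).filter (fun j => Coi G δ X (Pop δ X E) j) with hJ
  have hsum : ‖∑ j : ZMod G, xx G V ω E e j * ∑ l ∈ Ioc M (2 * M),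
      ∑ s ∈ (Ioc N (2 * N)).filter (fun s => l * s ≤ t),
      a l * b s * ZMod.stdAddChar (((l * s : ℕ) : ZMod G) * j)‖ ≤ J.card * (W * B) := by
    refine (norm_sum_le _ _).trans ?_
    have h5 : ∀ j : ZMod G, ‖xx G V ω E e j * ∑ l ∈ Ioc M (2 * M),
        ∑ s ∈ (Ioc N (2 * N)).filter (fun s => l * s ≤ t),
        a l * b s * ZMod.stdAddChar (((l * s : ℕ) : ZMod G) * j)‖ ≤
        if Coi G δ X (Pop δ X E) j then W * B else 0 := by
      intro j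
      by_cases hj : ω j = 0
      · have h6 : xx G V ω E e j = 0 := by
          unfold xx
          rw [hj, zero_mul, zero_mul]
        rw [h6, zero_mul, norm_zero]
        split_ifs
        · exact hWB0
        · exact le_rfl
      · rw [if_pos (hCoi j hj), norm_mul]
        exact mul_le_mul (hnorm j) (hS j hj) (norm_nonneg _) hW0
    refine (sum_le_sum fun j _ => h5 j).trans ?_
    rw [← sum_filter, sum_const, nsmul_eq_mul]
  rw [norm_mul]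
  have hG1 : ‖(1 / (G : ℂ))‖ = 1 / (G : ℝ) := by
    rw [norm_div, norm_one, Complex.norm_natCast]
  rw [hG1]
  have h5 : 1 / (G : ℝ) * ‖∑ j : ZMod G, xx G V ω E e j * ∑ l ∈ Ioc M (2 * M),
      ∑ s ∈ (Ioc N (2 * N)).filter (fun s => l * s ≤ t),
      a l * b s * ZMod.stdAddChar (((l * s : ℕ) : ZMod G) * j)‖ ≤
      (X : ℝ) ^ (-1 + 80 * δ) * (W * B) := by
    refine (mul_le_mul_of_nonneg_left hsum (by positivity)).trans ?_
    rw [← mul_assoc]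
    exact mul_le_mul_of_nonneg_right hcount hWB0
  refine h5.trans ?_
  have h6 := h4 X hX4
  have h7 : (X : ℝ) ^ (-1 + 80 * δ) * (W * B) =
      (3 * Real.sqrt C * Real.log X ^ (CV + 1)) *
        ((X : ℝ) ^ (-1 + 80 * δ) * (X : ℝ) ^ (1 : ℝ) * (X : ℝ) ^ (5 / 6 : ℝ)) * E.card := by
    rw [hW, hB, Real.rpow_one]
    ring
  rw [h7, ← Real.rpow_add hX0, ← Real.rpow_add hX0]
  refine mul_le_mul_of_nonneg_right ?_ hE0
  calc (3 * Real.sqrt C * Real.log X ^ (CV + 1)) * (X : ℝ) ^ (-1 + 80 * δ + 1 + 5 / 6)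
      ≤ (X : ℝ) ^ (1 / 10 : ℝ) * (X : ℝ) ^ (-1 + 80 * δ + 1 + 5 / 6) :=
        mul_le_mul_of_nonneg_right h6 (by positivity)
    _ = (X : ℝ) ^ (1 / 10 + (-1 + 80 * δ + 1 + 5 / 6)) := (Real.rpow_add hX0 _ _).symm
    _ ≤ (X : ℝ) ^ (1 - δ) := Real.rpow_le_rpow_of_exponent_le hX1r (by linarith)

end Pool.MP_dd84fd_nt.HX
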