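import Pool.Agent.Lib.MP_dd84fd_nt.HX.Iface

/-!
# Theorem H, section 2 (majorants, major arcs, sieve): definitions (helper5)

`len a b z T` = length of `(a, b] ∩ [z, T]`. `VRep`: `v(., k)` is a combination of at most `2^22`
indicator functions of intervals. `lensum` = `Σ_k ∫_z^{t/k} v(m, k) dm`. `pz = rg Λ / log`.
`hw n p = w(p) / (p - w(p))`, `w(p) = 1` if `p ∣ n`, `2` otherwise.
-/

set_option autoImplicit false

namespace Pool.MP_dd84fd_nt.HX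

open Finset Pool.MP_67663b_nt.Odd Pool.MP_dd84fd_nt.En Pool.MP_dd84fd_nt.E2 Pool.MP_dd84fd_nt.LS
open Pool.MP_dd84fd_nt.L2G (nrm)
open Pool.MP_dd84fd_nt.GX

/-- the length of `(a, b] ∩ [z, T]` -/
noncomputable def len (a b z T : ℝ) : ℝ := max 0 (min b T - max a z)

/-- `v(., k)` is a combination of indicator functions of the intervals `(a_i, b_i]` -/
def VRep (δ : ℝ) (X : ℕ) (J : ℕ → ℕ) (e a b : ℕ → ℕ → ℝ) : Prop :=
  ∀ k ∈ Icc 1 X, J k ≤ 2 ^ 22 ∧ (∀ i, |e k i| ≤ 2 ^ 20 * rg (zz X) k) ∧ (∀ i, 0 ≤ a k i) ∧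
    ∀ m : ℝ, vv δ X m k = ∑ i ∈ range (J k), e k i * ind (a k i < m ∧ m ≤ b k i)

/-- `Σ_k ∫_z^{t/k} v(m, k) dm` -/
noncomputable def lensum (X : ℕ) (J : ℕ → ℕ) (e a b : ℕ → ℕ → ℝ) (t : ℕ) : ℝ :=
  ∑ k ∈ Icc 1 X, ∑ i ∈ range (J k), e k i * len (a k i) (b k i) (zz X) ((t : ℝ) / k)

/-- the weight of the rough prime powers -/
noncomputable def pz (X n : ℕ) : ℝ :=
  rg (zz X) n * ArithmeticFunction.vonMangoldt n / Real.log n

/-- `w(p) / (p - w(p))` -/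
noncomputable def hw (n p : ℕ) : ℝ := if p ∣ n then 1 / ((p : ℝ) - 1) else 2 / ((p : ℝ) - 2)

end Pool.MP_dd84fd_nt.HX
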