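import Pool.Agent.Lib.MP_dd84fd_nt.HX.MjDefs
import Pool.Agent.Lib.MP_dd84fd_nt.E2.RoughClass

/-!
# HX-MjF1 (0.5 h): the model `f1` over intervals in residue classes

Proof. The conditions say `n ∈ (N1, N2]`, `N2 = min(⌊k b⌋, t)`, `N1 = max(⌊k a⌋, z k - 1)` (integers; empty if `N2 ≤ N1`). `rough_class (D := D')` (`wX D' X ≤ L^D'`; every prime `p ∣ q` is `≤ q ≤ L^B ≤ L^D'`, so `p ≤ wX D' X`; `q ≤ X`) at `N1` and `N2`:
`(N2 - N1)/φ(q) + O(2 X^(1-η))`, and `|(N2 - N1) - (min(k b, t) - max(k a, k z))| ≤ 2`; `k len a b z (t/k) = max 0 (min(k b, t) - max(k a, k z))`. If `N2 ≤ N1` the sum is empty and `k len ≤ 2`. (`b` may be negative: then the sum is empty and `len = 0` because `0 ≤ a`; `ind` is `0/1`.)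
-/

set_option autoImplicit false

namespace Pool.MP_dd84fd_nt.HX

open Finset Pool.MP_67663b_nt.Odd Pool.MP_dd84fd_nt.En Pool.MP_dd84fd_nt.E2 Pool.MP_dd84fd_nt.LS
open Pool.MP_dd84fd_nt.L2G (nrm)
open Pool.MP_dd84fd_nt.GX

/-- endpoints of the integer interval -/
private theorem mjf1_ends (z k t : ℕ) (a b : ℝ) (hk : 1 ≤ k) (hz : 1 ≤ z) (ha : 0 ≤ a) :
    ∃ N1 N2 : ℕ, N2 ≤ t ∧
      (∀ n : ℕ, 1 ≤ n → n ≤ t →
        ((if z * k ≤ n then ind (a < (n : ℝ) / k ∧ (n : ℝ) / k ≤ b) else 0) =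
          if N1 < n ∧ n ≤ N2 then (1 : ℝ) else 0)) ∧
      (N1 < N2 → |((N2 : ℝ) - N1) - k * len a b z ((t : ℝ) / k)| ≤ 1) ∧
      (N2 ≤ N1 → |(k : ℝ) * len a b z ((t : ℝ) / k)| ≤ 1) := by
  have hk0 : (0 : ℝ) < k := by exact_mod_cast hk
  have hka : 0 ≤ (k : ℝ) * a := by positivity
  have hzk : 1 ≤ z * k := Nat.mul_pos hz hk
  have hzkr : (1 : ℝ) ≤ (z : ℝ) * k := by exact_mod_cast hzk
  set F : ℕ := ⌊(k : ℝ) * a⌋₊ with hF
  set G : ℕ := ⌊(k : ℝ) * b⌋₊ with hG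
  have hF1 : (F : ℝ) ≤ k * a := Nat.floor_le hka
  have hF2 : (k : ℝ) * a < F + 1 := Nat.lt_floor_add_one _
  have hG2 : (k : ℝ) * b < G + 1 := Nat.lt_floor_add_one _
  have hsub : ((z * k - 1 : ℕ) : ℝ) = (z : ℝ) * k - 1 := by
    rw [Nat.cast_sub hzk]; push_cast; ring
  have hlen : (k : ℝ) * len a b z ((t : ℝ) / k) =
      max 0 (min ((k : ℝ) * b) t - max ((k : ℝ) * a) (k * z)) := by
    unfold len
    rw [mul_max_of_nonneg _ _ hk0.le, mul_zero, mul_sub, mul_min_of_nonneg _ _ hk0.le,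
      mul_max_of_nonneg _ _ hk0.le, mul_div_cancel₀ _ hk0.ne']
  have hN1u : ((max F (z * k - 1) : ℕ) : ℝ) ≤ max ((k : ℝ) * a) (k * z) := by
    push_cast
    apply max_le
    · exact hF1.trans (le_max_left _ _)
    · rw [hsub]
      have : (k : ℝ) * z ≤ max ((k : ℝ) * a) (k * z) := le_max_right _ _
      nlinarith
  have hN1l : max ((k : ℝ) * a) (k * z) - 1 ≤ ((max F (z * k - 1) : ℕ) : ℝ) := by
    push_cast
    rw [hsub, sub_le_iff_le_add]
    apply max_le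
    · have := le_max_left (F : ℝ) ((z : ℝ) * k - 1)
      linarith
    · have := le_max_right (F : ℝ) ((z : ℝ) * k - 1)
      linarith
  have hM0 : 0 ≤ max ((k : ℝ) * a) (k * z) := hka.trans (le_max_left _ _)
  have hN2l : min ((k : ℝ) * b) t - 1 ≤ ((min G t : ℕ) : ℝ) := by
    push_cast
    apply le_min
    · have := min_le_left ((k : ℝ) * b) (t : ℝ)
      linarith
    · have := min_le_right ((k : ℝ) * b) (t : ℝ)
      linarith
  refine ⟨max F (z * k - 1), min G t, min_le_right _ _, ?_, ?_, ?_⟩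
  · intro n hn hnt
    have e1 : (a < (n : ℝ) / k) ↔ F < n := by
      rw [lt_div_iff₀ hk0, hF, Nat.floor_lt hka, mul_comm]
    have e2 : ((n : ℝ) / k ≤ b) ↔ n ≤ G := by
      rw [div_le_iff₀ hk0, hG, Nat.le_floor_iff' (by omega), mul_comm]
    unfold ind
    by_cases h1 : z * k ≤ n
    · rw [if_pos h1]
      by_cases h2 : F < n ∧ n ≤ G
      · rw [if_pos (by rw [e1, e2]; exact h2), if_pos]
        refine ⟨max_lt h2.1 (by omega), le_min h2.2 hnt⟩
      · rw [if_neg (by rw [e1, e2]; exact h2), if_neg]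
        rintro ⟨h3, h4⟩
        exact h2 ⟨(le_max_left _ _).trans_lt h3, h4.trans (min_le_left _ _)⟩
    · rw [if_neg h1, if_neg]
      rintro ⟨h3, -⟩
      have := (le_max_right F (z * k - 1)).trans_lt h3
      omega
  · intro h
    have hG0 : 1 ≤ G := by
      have := min_le_left G t
      omega
    have hb0 : 0 ≤ (k : ℝ) * b := by
      by_contra hb
      have : G = 0 := Nat.floor_of_nonpos (by linarith)
      omega
    have hN2u : ((min G t : ℕ) : ℝ) ≤ min ((k : ℝ) * b) t := by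
      push_cast
      exact min_le_min (Nat.floor_le hb0) le_rfl
    have h' : ((max F (z * k - 1) : ℕ) : ℝ) + 1 ≤ ((min G t : ℕ) : ℝ) := by exact_mod_cast h
    rw [hlen]
    rcases le_total 0 (min ((k : ℝ) * b) t - max ((k : ℝ) * a) (k * z)) with h0 | h0
    · rw [max_eq_right h0, abs_le]
      constructor <;> linarith
    · rw [max_eq_left h0, abs_le]
      constructor <;> linarith
  · intro h
    have h' : ((min G t : ℕ) : ℝ) ≤ ((max F (z * k - 1) : ℕ) : ℝ) := by exact_mod_cast h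
    rw [hlen, abs_of_nonneg (le_max_left _ _)]
    apply max_le zero_le_one
    linarith

/-- large `X` -/
private theorem mjf1_large (B : ℕ) (κ : ℝ) (hκ : 0 < κ) : ∃ X0 : ℕ, ∀ X : ℕ, X0 ≤ X →
    (Real.log X) ^ B ≤ X ∧ 3 ≤ (X : ℝ) ^ κ ∧ 1 ≤ Real.log X ∧ 1 ≤ X := by
  have h1 : ∀ᶠ x : ℝ in Filter.atTop, (Real.log x) ^ B ≤ x := by
    have := (Real.isLittleO_pow_log_id_atTop (n := B)).bound (c := 1) one_pos
    filter_upwards [this, Filter.eventually_ge_atTop (1 : ℝ)] with x hx hx1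
    have h2 : 0 ≤ Real.log x := Real.log_nonneg hx1
    simpa [abs_of_nonneg h2, abs_of_nonneg (zero_le_one.trans hx1)] using hx
  have h2 : ∀ᶠ x : ℝ in Filter.atTop, 3 ≤ x ^ κ :=
    (tendsto_rpow_atTop hκ).eventually_ge_atTop 3
  have h3 : ∀ᶠ x : ℝ in Filter.atTop, 1 ≤ Real.log x :=
    Real.tendsto_log_atTop.eventually_ge_atTop 1
  have h4 := tendsto_natCast_atTop_atTop.eventually (h1.and (h2.and h3))
  obtain ⟨X0, hX0⟩ := Filter.eventually_atTop.1 (h4.and (Filter.eventually_ge_atTop 1))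
  exact ⟨X0, fun X hX => ⟨(hX0 X hX).1.1, (hX0 X hX).1.2.1, (hX0 X hX).1.2.2, (hX0 X hX).2⟩⟩

theorem f1_cls (D' B : ℕ) (hD : 1 ≤ D') (hB : B ≤ D') : ∃ η : ℝ, 0 < η ∧ ∃ X0 : ℕ, ∀ X : ℕ,
    X0 ≤ X → ∀ q c : ℕ, 1 ≤ q → (q : ℝ) ≤ (Real.log X) ^ B → Nat.Coprime c q →
    ∀ (t k : ℕ) (a b : ℝ), t ≤ X → 1 ≤ k → 0 ≤ a →
    |∑ n ∈ (Icc 1 t).filter (fun n => n ≡ c [MOD q]), f1 (wX D' X) n *
        (if zz X * k ≤ n then ind (a < (n : ℝ) / k ∧ (n : ℝ) / k ≤ b) else 0) -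
      k * len a b (zz X) ((t : ℝ) / k) / (Nat.totient q : ℝ)| ≤ (X : ℝ) ^ (1 - η) := by
  obtain ⟨η, hη0, hη1, X1, hX1⟩ := rough_class D' hD
  obtain ⟨X2, hX2⟩ := mjf1_large B (η / 2) (by positivity)
  refine ⟨η / 2, by positivity, max X1 X2, ?_⟩
  intro X hX q c hq hqL hc t k a b ht hk ha
  obtain ⟨hL1, hL2, hL3, hX1'⟩ := hX2 X ((le_max_right _ _).trans hX)
  have hXr : (1 : ℝ) ≤ X := by exact_mod_cast hX1'
  have hX0 : (0 : ℝ) < X := by linarith
  have hrc := hX1 X ((le_max_left _ _).trans hX) (wX D' X)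
    (Nat.floor_le (pow_nonneg (by linarith) _)) q hq
    (by exact_mod_cast hqL.trans hL1) (by
      intro p hp hpq
      apply Nat.le_floor
      have h1 : (p : ℝ) ≤ q := by exact_mod_cast Nat.le_of_dvd (by omega) hpq
      exact h1.trans (hqL.trans (pow_le_pow_right₀ hL3 hB))) c hc
  have hz : 1 ≤ zz X := by
    unfold zz
    exact Nat.one_le_ceil_iff.2 (Real.rpow_pos_of_pos hX0 _)
  obtain ⟨N1, N2, hN2t, hind, hlt, hge⟩ := mjf1_ends (zz X) k t a b hk hz ha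
  have hφ : (1 : ℝ) ≤ (Nat.totient q : ℝ) := by
    exact_mod_cast Nat.totient_pos.2 (by omega)
  have hφ0 : (0 : ℝ) < (Nat.totient q : ℝ) := by linarith
  have hfin : 2 * (X : ℝ) ^ (1 - η) + 1 ≤ (X : ℝ) ^ (1 - η / 2) := by
    have e : (X : ℝ) ^ (1 - η / 2) = (X : ℝ) ^ (1 - η) * (X : ℝ) ^ (η / 2) := by
      rw [← Real.rpow_add hX0]
      congr 1
      ring
    have h1 : (1 : ℝ) ≤ (X : ℝ) ^ (1 - η) := Real.one_le_rpow hXr (by linarith)
    rw [e]
    nlinarith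
  have hsum : ∑ n ∈ (Icc 1 t).filter (fun n => n ≡ c [MOD q]), f1 (wX D' X) n *
        (if zz X * k ≤ n then ind (a < (n : ℝ) / k ∧ (n : ℝ) / k ≤ b) else 0) =
      ∑ n ∈ (Icc 1 t).filter (fun n => n ≡ c [MOD q]), f1 (wX D' X) n *
        (if N1 < n ∧ n ≤ N2 then (1 : ℝ) else 0) := by
    apply sum_congr rfl
    intro n hn
    rw [mem_filter, mem_Icc] at hn
    rw [hind n hn.1.1 hn.1.2]
  rw [hsum]
  have hpos1 : 0 ≤ (X : ℝ) ^ (1 - η) := by positivity
  rcases lt_or_ge N1 N2 with hN | hN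
  · have hN1t : N1 ≤ t := hN.le.trans hN2t
    have hsplit : ∑ n ∈ (Icc 1 t).filter (fun n => n ≡ c [MOD q]), f1 (wX D' X) n *
          (if N1 < n ∧ n ≤ N2 then (1 : ℝ) else 0) =
        ∑ n ∈ (Icc 1 N2).filter (fun n => n ≡ c [MOD q]), f1 (wX D' X) n -
        ∑ n ∈ (Icc 1 N1).filter (fun n => n ≡ c [MOD q]), f1 (wX D' X) n := by
      have e1 : ∀ T : ℕ, T ≤ t →
          ∑ n ∈ (Icc 1 T).filter (fun n => n ≡ c [MOD q]), f1 (wX D' X) n =
          ∑ n ∈ (Icc 1 t).filter (fun n => n ≡ c [MOD q]), f1 (wX D' X) n *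
            (if n ≤ T then (1 : ℝ) else 0) := by
        intro T hT
        have e2 : (Icc 1 T).filter (fun n => n ≡ c [MOD q]) =
            ((Icc 1 t).filter (fun n => n ≡ c [MOD q])).filter (fun n => n ≤ T) := by
          ext n
          simp only [mem_filter, mem_Icc]
          constructor
          · rintro ⟨⟨h1, h2⟩, h3⟩
            exact ⟨⟨⟨h1, h2.trans hT⟩, h3⟩, h2⟩
          · rintro ⟨⟨⟨h1, -⟩, h3⟩, h2⟩
            exact ⟨⟨h1, h2⟩, h3⟩
        rw [e2, sum_filter (p := fun n => n ≤ T)]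
        apply sum_congr rfl
        intro n _
        split_ifs <;> simp
      rw [e1 N2 hN2t, e1 N1 hN1t, ← sum_sub_distrib]
      apply sum_congr rfl
      intro n _
      rw [← mul_sub]
      congr 1
      by_cases h1 : n ≤ N1
      · rw [if_neg (by omega), if_pos (by omega), if_pos h1]
        ring
      · by_cases h2 : n ≤ N2
        · rw [if_pos (by omega), if_pos h2, if_neg h1]
          ring
        · rw [if_neg (by omega), if_neg h2, if_neg h1]
          ring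
    rw [hsplit]
    have h1 := hrc N2 (hN2t.trans ht)
    have h2 := hrc N1 (hN1t.trans ht)
    have h3 := hlt hN
    have h4 : |(((N2 : ℝ) - N1) - k * len a b (zz X) ((t : ℝ) / k)) / (Nat.totient q : ℝ)| ≤ 1 := by
      rw [abs_div, abs_of_pos hφ0, div_le_one hφ0]
      linarith
    rw [sub_div, sub_div] at h4
    rw [abs_le] at h1 h2 h4 ⊢
    constructor <;> linarith [h1.1, h1.2, h2.1, h2.2, h4.1, h4.2]
  · have hzero : ∑ n ∈ (Icc 1 t).filter (fun n => n ≡ c [MOD q]), f1 (wX D' X) n *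
          (if N1 < n ∧ n ≤ N2 then (1 : ℝ) else 0) = 0 := by
      apply sum_eq_zero
      intro n _
      rw [if_neg (by omega), mul_zero]
    rw [hzero, zero_sub, abs_neg, abs_div, abs_of_pos hφ0]
    have h3 := hge hN
    have h4 : |(k : ℝ) * len a b (zz X) ((t : ℝ) / k)| / (Nat.totient q : ℝ) ≤ 1 := by
      rw [div_le_one hφ0]
      linarith
    linarith

end Pool.MP_dd84fd_nt.HX
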