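import Pool.Agent.Lib.MP_dd84fd_nt.HX.MjDefs
import Pool.Agent.Lib.MP_dd84fd_nt.HX.DcRg
import Pool.Agent.Lib.MP_dd84fd_nt.SW.SWPsi

/-!
# HX-MjLa (0.8 h): rough von Mangoldt sums over intervals in residue classes

Proof. `z = zz X ≥ X^(1/20)`, `α = max a z`, `β = min b Y`, `L = log X`. Non-zero terms have `m ≥ z` (`1 < m < z` is not rough, `Λ(1) = 0`) and `a < m ≤ b`, `m ≤ Y`: so `α ≤ m ≤ β`, and apart from `m = α` (one term, `≤ L`) they are in `(α, β]`.
If `β ≤ α` the sum is at most `L` and `len = 0`. Otherwise the sum over `(α, β]` of `Λ(m)` (all `m ≡ c`) minus the non-rough `m`: these are prime powers `p^j ≥ z` with `p < z`, so `j ≥ 2`: at most `√Y (log Y/log 2 + 1)` of them (squares, cubes, ...),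
contribution `≤ 3 √Y L²`. Siegel-Walfisz `sw_psi (A', B+1)` at `⌊α⌋, ⌊β⌋ ≥ ⌊z⌋`: `log y ≥ L/25`, so `q ≤ L^B ≤ (log y)^(B+1)`, error `≤ Y 25^A' / L^A'` each; `A' = A + 1`. Floors: error `2`. All the small errors are `≤ Y/(10 L^A)` since `Y ≥ X^(1/20)`
and `X` is large (`MP_log_pow` in E2/MinorP).
-/

set_option autoImplicit false

namespace Pool.MP_dd84fd_nt.HX

open Finset Pool.MP_67663b_nt.Odd Pool.MP_dd84fd_nt.En Pool.MP_dd84fd_nt.E2 Pool.MP_dd84fd_nt.LS
open Pool.MP_dd84fd_nt.L2G (nrm)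
open Pool.MP_dd84fd_nt.GX

private theorem mjla_log_pow (C : ℝ) (K : ℕ) {ε : ℝ} (hε : 0 < ε) :
    ∃ X0 : ℕ, ∀ X : ℕ, X0 ≤ X → C * (Real.log X) ^ K ≤ (X : ℝ) ^ ε := by
  have h1 := (isLittleO_log_rpow_rpow_atTop (K : ℝ) hε).bound
    (show (0 : ℝ) < 1 / (|C| + 1) by positivity)
  have h2 := tendsto_natCast_atTop_atTop (R := ℝ) |>.eventually h1
  obtain ⟨X0, hX0⟩ := Filter.eventually_atTop.mp h2
  refine ⟨max X0 1, fun X hX => ?_⟩
  have hX1 : (1 : ℝ) ≤ X := by exact_mod_cast (le_max_right X0 1).trans hX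
  have h3 := hX0 X ((le_max_left _ _).trans hX)
  have hlog : 0 ≤ Real.log X := Real.log_nonneg hX1
  rw [Real.rpow_natCast, Real.norm_of_nonneg (pow_nonneg hlog K),
    Real.norm_of_nonneg (Real.rpow_nonneg (by linarith) ε), one_div_mul_eq_div,
    le_div_iff₀ (by positivity)] at h3
  have h4 : C * Real.log X ^ K ≤ Real.log X ^ K * (|C| + 1) := by
    have h5 : 0 ≤ Real.log X ^ K := pow_nonneg hlog K
    have h6 := le_abs_self C
    nlinarith
  linarith

private theorem mjla_pt (z m : ℕ) (hm : 1 ≤ m) (N : ℕ) (hmN : m ≤ N) (a b Y : ℝ)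
    (hY : (m : ℝ) ≤ Y) (hN : 1 ≤ N) :
    |ArithmeticFunction.vonMangoldt m * rg z m * ind (a < (m : ℝ) ∧ (m : ℝ) ≤ b) -
      ArithmeticFunction.vonMangoldt m * ind (max a z < (m : ℝ) ∧ (m : ℝ) ≤ min b Y)| ≤
      (if ¬ m.Prime then ArithmeticFunction.vonMangoldt m else 0) +
        (if m = z then Real.log N else 0) := by
  have hL0 : 0 ≤ ArithmeticFunction.vonMangoldt m := ArithmeticFunction.vonMangoldt_nonneg
  have hlog : ArithmeticFunction.vonMangoldt m ≤ Real.log N :=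
    ArithmeticFunction.vonMangoldt_le_log.trans
      (Real.log_le_log (by exact_mod_cast hm) (by exact_mod_cast hmN))
  have hlN : 0 ≤ Real.log N := Real.log_nonneg (by exact_mod_cast hN)
  have hrg := rg_nonneg z m
  have hind : ∀ P : Prop, 0 ≤ ind P ∧ ind P ≤ 1 := by
    intro P
    unfold ind
    split_ifs
    · exact ⟨zero_le_one, le_refl _⟩
    · exact ⟨le_refl _, zero_le_one⟩
  have hgen : |ArithmeticFunction.vonMangoldt m * rg z m * ind (a < (m : ℝ) ∧ (m : ℝ) ≤ b) -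
      ArithmeticFunction.vonMangoldt m * ind (max a z < (m : ℝ) ∧ (m : ℝ) ≤ min b Y)| ≤
      ArithmeticFunction.vonMangoldt m := by
    have h1 : 0 ≤ ArithmeticFunction.vonMangoldt m * rg z m *
        ind (a < (m : ℝ) ∧ (m : ℝ) ≤ b) ∧
        ArithmeticFunction.vonMangoldt m * rg z m * ind (a < (m : ℝ) ∧ (m : ℝ) ≤ b) ≤
        ArithmeticFunction.vonMangoldt m := by
      refine ⟨mul_nonneg (mul_nonneg hL0 hrg.1) (hind _).1, ?_⟩
      calc ArithmeticFunction.vonMangoldt m * rg z m * ind (a < (m : ℝ) ∧ (m : ℝ) ≤ b)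
          ≤ ArithmeticFunction.vonMangoldt m * rg z m :=
            mul_le_of_le_one_right (mul_nonneg hL0 hrg.1) (hind _).2
        _ ≤ ArithmeticFunction.vonMangoldt m := mul_le_of_le_one_right hL0 hrg.2
    have h2 : 0 ≤ ArithmeticFunction.vonMangoldt m *
        ind (max a z < (m : ℝ) ∧ (m : ℝ) ≤ min b Y) ∧ ArithmeticFunction.vonMangoldt m *
        ind (max a z < (m : ℝ) ∧ (m : ℝ) ≤ min b Y) ≤ ArithmeticFunction.vonMangoldt m :=
      ⟨mul_nonneg hL0 (hind _).1, mul_le_of_le_one_right hL0 (hind _).2⟩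
    rw [abs_le]
    constructor <;> linarith [h1.1, h1.2, h2.1, h2.2]
  rcases lt_trichotomy m z with h | h | h
  · -- `m < z`
    have h1 : ArithmeticFunction.vonMangoldt m * rg z m = 0 := by
      rcases Nat.eq_or_lt_of_le hm with h2 | h2
      · rw [← h2, ArithmeticFunction.vonMangoldt_apply_one, zero_mul]
      · have h3 : ¬ Rgh z m := by
          intro h4
          have h5 : m.minFac ∈ m.primeFactors :=
            Nat.mem_primeFactors.2 ⟨Nat.minFac_prime (by omega), Nat.minFac_dvd m, by omega⟩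
          have h6 := h4.2 _ h5
          have h7 := Nat.minFac_le (n := m) (by omega)
          omega
        unfold rg
        rw [if_neg h3, mul_zero]
    have h2 : ind (max a z < (m : ℝ) ∧ (m : ℝ) ≤ min b Y) = 0 := by
      unfold ind
      rw [if_neg]
      rintro ⟨h3, -⟩
      have h4 : (z : ℝ) ≤ max a z := le_max_right _ _
      have h5 : (m : ℝ) < z := by exact_mod_cast h
      linarith
    rw [h1, h2, zero_mul, mul_zero, sub_zero, abs_zero]
    have h3 : 0 ≤ (if ¬ m.Prime then ArithmeticFunction.vonMangoldt m else 0) := by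
      split_ifs <;> first | exact hL0 | exact le_refl _
    have h4 : 0 ≤ (if m = z then Real.log N else 0) := by
      split_ifs
      · exact hlN
      · exact le_refl _
    linarith
  · rw [if_pos h]
    have h3 : 0 ≤ (if ¬ m.Prime then ArithmeticFunction.vonMangoldt m else 0) := by
      split_ifs <;> first | exact hL0 | exact le_refl _
    linarith
  · rw [if_neg (by omega : ¬ m = z), add_zero]
    by_cases hp : m.Prime
    · rw [if_neg (by simpa using hp)]
      have h1 : rg z m = 1 := by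
        unfold rg
        rw [if_pos]
        refine ⟨by omega, fun p hp' => ?_⟩
        rw [Nat.Prime.primeFactors hp, Finset.mem_singleton] at hp'
        omega
      have h2 : ind (max a z < (m : ℝ) ∧ (m : ℝ) ≤ min b Y) =
          ind (a < (m : ℝ) ∧ (m : ℝ) ≤ b) := by
        have h3 : (z : ℝ) < m := by exact_mod_cast h
        congr 1
        apply propext
        constructor
        · rintro ⟨h4, h5⟩
          exact ⟨lt_of_le_of_lt (le_max_left _ _) h4, h5.trans (min_le_left _ _)⟩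
        · rintro ⟨h4, h5⟩
          exact ⟨max_lt h4 h3, le_min h5 hY⟩
      rw [h1, h2, mul_one, sub_self, abs_zero]
    · rw [if_pos hp]
      exact hgen

private theorem mjla_cut (n N : ℕ) (hn : n ≤ N) (q c : ℕ) (f : ℕ → ℝ) :
    ∑ m ∈ (Icc 1 n).filter (fun m => m ≡ c [MOD q]), f m =
      ∑ m ∈ (Icc 1 N).filter (fun m => m ≡ c [MOD q]), if m ≤ n then f m else 0 := by
  rw [← Finset.sum_filter]
  congr 1
  ext m
  simp only [mem_filter, mem_Icc]
  constructor
  · rintro ⟨⟨h1, h2⟩, h3⟩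
    exact ⟨⟨⟨h1, h2.trans hn⟩, h3⟩, h2⟩
  · rintro ⟨⟨⟨h1, h2⟩, h3⟩, h4⟩
    exact ⟨⟨h1, h4⟩, h3⟩

theorem la_class (A B : ℕ) : ∃ X0 : ℕ, ∀ X : ℕ, X0 ≤ X → ∀ q c : ℕ, 1 ≤ q →
    (q : ℝ) ≤ (Real.log X) ^ B → Nat.Coprime c q → ∀ Y a b : ℝ, (zz X : ℝ) ≤ Y → Y ≤ X →
    |∑ m ∈ (Icc 1 ⌊Y⌋₊).filter (fun m => m ≡ c [MOD q]),
        ArithmeticFunction.vonMangoldt m * rg (zz X) m * ind (a < (m : ℝ) ∧ (m : ℝ) ≤ b) -
      len a b (zz X) Y / (Nat.totient q : ℝ)| ≤ Y / (Real.log X) ^ A := by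
  classical
  obtain ⟨X1, hX1⟩ := SW.sw_psi (A + 1) (B + 1)
  obtain ⟨C0, hC0⟩ := Chebyshev.psi_sub_theta_le_mul_sqrt
  obtain ⟨C, hC⟩ : ∃ C : ℝ, C = max C0 1 := ⟨_, rfl⟩
  have hC1 : 1 ≤ C := by rw [hC]; exact le_max_right _ _
  have hCC : C0 ≤ C := by rw [hC]; exact le_max_left _ _
  obtain ⟨X2, hX2⟩ := mjla_log_pow (4 * C) A (ε := 1 / 40) (by norm_num)
  obtain ⟨X3, hX3⟩ := mjla_log_pow 8 (A + 1) (ε := 1 / 20) (by norm_num)
  have hev1 : ∀ᶠ X : ℕ in Filter.atTop, (1 + 20 ^ (B + 1) + 8 * 20 ^ (A + 1) : ℝ) ≤ Real.log X :=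
    (Real.tendsto_log_atTop.comp tendsto_natCast_atTop_atTop).eventually_ge_atTop _
  have hev2 : ∀ᶠ X : ℕ in Filter.atTop, (X1 : ℝ) + 1 ≤ (X : ℝ) ^ (1 / 20 : ℝ) :=
    ((tendsto_rpow_atTop (by norm_num : (0 : ℝ) < 1 / 20)).comp
      tendsto_natCast_atTop_atTop).eventually_ge_atTop _
  obtain ⟨X4, hX4⟩ := Filter.eventually_atTop.1 (hev1.and hev2)
  refine ⟨max 2 (max X2 (max X3 X4)), ?_⟩
  intro X hX q c hq hqL hcop Y a b hzY hYX
  have hXa : 2 ≤ X := le_trans (le_max_left _ _) hX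
  have hXb : X2 ≤ X := le_trans ((le_max_left _ _).trans (le_max_right _ _)) hX
  have hXc : X3 ≤ X := le_trans ((le_max_left _ _).trans ((le_max_right _ _).trans
    (le_max_right _ _))) hX
  have hXd : X4 ≤ X := le_trans ((le_max_right _ _).trans ((le_max_right _ _).trans
    (le_max_right _ _))) hX
  have h2 := hX2 X hXb
  have h3 := hX3 X hXc
  obtain ⟨h4, h5⟩ := hX4 X hXd
  obtain ⟨L, hL⟩ : ∃ L : ℝ, L = Real.log X := ⟨_, rfl⟩
  rw [← hL] at h2 h3 h4 hqL ⊢
  have h20A : (0 : ℝ) < 20 ^ (A + 1) := by positivity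
  have h20B : (0 : ℝ) < 20 ^ (B + 1) := by positivity
  have hL1 : 1 ≤ L := by linarith
  have hL0 : 0 < L := by linarith
  have hX0 : (0 : ℝ) < X := by exact_mod_cast (by omega : 0 < X)
  have hz1 : (X : ℝ) ^ (1 / 20 : ℝ) ≤ (zz X : ℝ) := by unfold zz; exact Nat.le_ceil _
  obtain ⟨z, hz⟩ : ∃ z : ℕ, z = zz X := ⟨_, rfl⟩
  rw [← hz] at hz1 hzY ⊢
  have hzX1 : X1 ≤ z := by
    have : (X1 : ℝ) ≤ z := by linarith
    exact_mod_cast this
  have hz0 : (0 : ℝ) < z := by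
    have : (0 : ℝ) ≤ X1 := Nat.cast_nonneg _
    linarith
  have hzlog : L / 20 ≤ Real.log z := by
    have h6 : Real.log ((X : ℝ) ^ (1 / 20 : ℝ)) ≤ Real.log z :=
      Real.log_le_log (by positivity) hz1
    rw [Real.log_rpow hX0, ← hL] at h6
    linarith
  have hY0 : 0 < Y := by linarith
  have hY1 : 1 ≤ Y := by
    have h6 : (0 : ℝ) ≤ X1 := Nat.cast_nonneg _
    linarith
  -- Siegel-Walfisz for `n ≥ z`
  have hSW : ∀ n : ℕ, z ≤ n → (n : ℝ) ≤ Y →
      |∑ m ∈ (Icc 1 n).filter (fun m => m ≡ c [MOD q]), ArithmeticFunction.vonMangoldt m -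
        n / (Nat.totient q : ℝ)| ≤ Y / (8 * L ^ A) := by
    intro n hn hnY
    have hn0 : (0 : ℝ) < n := lt_of_lt_of_le hz0 (by exact_mod_cast hn)
    have hlog : L / 20 ≤ Real.log n :=
      hzlog.trans (Real.log_le_log hz0 (by exact_mod_cast hn))
    have hqn : (q : ℝ) ≤ Real.log n ^ (B + 1) := by
      calc (q : ℝ) ≤ L ^ B := hqL
        _ ≤ (L / 20) ^ (B + 1) := by
            rw [div_pow, le_div_iff₀ h20B, pow_succ L]
            exact mul_le_mul_of_nonneg_left (by linarith) (by positivity)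
        _ ≤ Real.log n ^ (B + 1) := pow_le_pow_left₀ (by positivity) hlog _
    refine (hX1 n (hzX1.trans hn) q c hq hqn hcop).trans ?_
    calc (n : ℝ) / Real.log n ^ (A + 1) ≤ Y / (L / 20) ^ (A + 1) :=
          div_le_div₀ hY0.le hnY (by positivity) (pow_le_pow_left₀ (by positivity) hlog _)
      _ ≤ Y / (8 * L ^ A) := by
          apply div_le_div_of_nonneg_left hY0.le (by positivity)
          rw [div_pow, le_div_iff₀ h20A, pow_succ L]
          nlinarith [pow_pos hL0 A]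
  -- the comparison
  obtain ⟨N, hN⟩ : ∃ N : ℕ, N = ⌊Y⌋₊ := ⟨_, rfl⟩
  have hNY : (N : ℝ) ≤ Y := by rw [hN]; exact Nat.floor_le hY0.le
  have hN1 : 1 ≤ N := by rw [hN, Nat.one_le_floor_iff]; exact hY1
  have hlogN : Real.log N ≤ L := by
    rw [hL]
    exact Real.log_le_log (by exact_mod_cast hN1) (by linarith)
  rw [← hN]
  obtain ⟨α, hα⟩ : ∃ α : ℝ, α = max a z := ⟨_, rfl⟩
  obtain ⟨β, hβ⟩ : ∃ β : ℝ, β = min b Y := ⟨_, rfl⟩
  have hαz : (z : ℝ) ≤ α := by rw [hα]; exact le_max_right _ _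
  have hβY : β ≤ Y := by rw [hβ]; exact min_le_right _ _
  obtain ⟨S1, hS1⟩ : ∃ S1 : ℝ, S1 = ∑ m ∈ (Icc 1 N).filter (fun m => m ≡ c [MOD q]),
      ArithmeticFunction.vonMangoldt m * rg z m * ind (a < (m : ℝ) ∧ (m : ℝ) ≤ b) := ⟨_, rfl⟩
  obtain ⟨S2, hS2⟩ : ∃ S2 : ℝ, S2 = ∑ m ∈ (Icc 1 N).filter (fun m => m ≡ c [MOD q]),
      ArithmeticFunction.vonMangoldt m * ind (α < (m : ℝ) ∧ (m : ℝ) ≤ β) := ⟨_, rfl⟩
  rw [← hS1]
  have hcmp : |S1 - S2| ≤ C * Real.sqrt Y + L := by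
    rw [hS1, hS2, ← Finset.sum_sub_distrib]
    refine (Finset.abs_sum_le_sum_abs _ _).trans ?_
    have h6 : ∀ m ∈ (Icc 1 N).filter (fun m => m ≡ c [MOD q]),
        |ArithmeticFunction.vonMangoldt m * rg z m * ind (a < (m : ℝ) ∧ (m : ℝ) ≤ b) -
          ArithmeticFunction.vonMangoldt m * ind (α < (m : ℝ) ∧ (m : ℝ) ≤ β)| ≤
          (if ¬ m.Prime then ArithmeticFunction.vonMangoldt m else 0) +
          (if m = z then Real.log N else 0) := by
      intro m hm
      rw [mem_filter, mem_Icc] at hm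
      rw [hα, hβ]
      refine mjla_pt z m hm.1.1 N hm.1.2 a b Y ?_ hN1
      exact le_trans (by exact_mod_cast hm.1.2) hNY
    refine (Finset.sum_le_sum h6).trans ?_
    have h7 : ∑ m ∈ (Icc 1 N).filter (fun m => m ≡ c [MOD q]),
        ((if ¬ m.Prime then ArithmeticFunction.vonMangoldt m else 0) +
          (if m = z then Real.log N else 0)) ≤
        ∑ m ∈ Icc 1 N, ((if ¬ m.Prime then ArithmeticFunction.vonMangoldt m else 0) +
          (if m = z then Real.log N else 0)) := by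
      apply Finset.sum_le_sum_of_subset_of_nonneg (Finset.filter_subset _ _)
      intro m _ _
      apply add_nonneg
      · split_ifs <;> first | exact ArithmeticFunction.vonMangoldt_nonneg | exact le_refl _
      · split_ifs
        · exact Real.log_nonneg (by exact_mod_cast hN1)
        · exact le_refl _
    refine h7.trans ?_
    rw [Finset.sum_add_distrib]
    apply add_le_add
    · have h8 := hC0 Y
      rw [Chebyshev.psi_sub_theta_eq_sum_not_prime, ← hN] at h8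
      refine le_trans (le_of_eq ?_) (h8.trans (mul_le_mul_of_nonneg_right hCC
        (Real.sqrt_nonneg _)))
      rw [← Finset.sum_filter]
      congr 1
    · rw [Finset.sum_ite_eq']
      split_ifs
      · exact hlogN
      · exact hL0.le
  have herr1 : C * Real.sqrt Y ≤ Y / (4 * L ^ A) := by
    rw [le_div_iff₀ (by positivity)]
    have h6 : (X : ℝ) ^ (1 / 40 : ℝ) ≤ Real.sqrt Y := by
      apply Real.le_sqrt_of_sq_le
      rw [← Real.rpow_natCast, ← Real.rpow_mul hX0.le]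
      norm_num
      exact hz1.trans hzY
    have h7 : 4 * C * L ^ A ≤ Real.sqrt Y := h2.trans h6
    calc C * Real.sqrt Y * (4 * L ^ A) = (4 * C * L ^ A) * Real.sqrt Y := by ring
      _ ≤ Real.sqrt Y * Real.sqrt Y := mul_le_mul_of_nonneg_right h7 (Real.sqrt_nonneg _)
      _ = Y := Real.mul_self_sqrt hY0.le
  have herr2 : L + 1 ≤ Y / (4 * L ^ A) := by
    rw [le_div_iff₀ (by positivity)]
    have h6 : 8 * L ^ (A + 1) ≤ Y := h3.trans (hz1.trans hzY)
    rw [pow_succ] at h6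
    nlinarith [pow_pos hL0 A]
  have hsum : Y / (4 * L ^ A) + Y / (4 * L ^ A) + 2 * (Y / (8 * L ^ A)) ≤ Y / L ^ A := by
    have h6 : 0 < L ^ A := by positivity
    have h7 : Y / (4 * L ^ A) = Y / L ^ A / 4 := by rw [mul_comm, div_div]
    have h8 : Y / (8 * L ^ A) = Y / L ^ A / 8 := by rw [mul_comm, div_div]
    have h9 : 0 ≤ Y / L ^ A := by positivity
    rw [h7, h8]
    linarith
  have herr0 : 0 ≤ Y / (8 * L ^ A) := by positivity
  have hlen : len a b z Y = max 0 (β - α) := by rw [hα, hβ]; rfl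
  rw [hlen]
  have hcmp' := abs_le.1 hcmp
  rcases le_or_gt β α with hba | hab
  · have h6 : S2 = 0 := by
      rw [hS2]
      apply Finset.sum_eq_zero
      intro m _
      have h7 : ind (α < (m : ℝ) ∧ (m : ℝ) ≤ β) = 0 := by
        unfold ind
        rw [if_neg]
        rintro ⟨h8, h9⟩
        linarith
      rw [h7, mul_zero]
    rw [max_eq_left (by linarith), zero_div, sub_zero]
    rw [h6, sub_zero] at hcmp
    linarith
  · rw [max_eq_right (by linarith)]
    have hα0 : 0 ≤ α := hz0.le.trans hαz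
    have hβ0 : 0 ≤ β := by linarith
    have hfa : z ≤ ⌊α⌋₊ := Nat.le_floor hαz
    have hfb : z ≤ ⌊β⌋₊ := Nat.le_floor (by linarith)
    have hfa1 : (⌊α⌋₊ : ℝ) ≤ α := Nat.floor_le hα0
    have hfb1 : (⌊β⌋₊ : ℝ) ≤ β := Nat.floor_le hβ0
    have hfa2 : α < ⌊α⌋₊ + 1 := Nat.lt_floor_add_one α
    have hfb2 : β < ⌊β⌋₊ + 1 := Nat.lt_floor_add_one β
    have hfaN : ⌊α⌋₊ ≤ N := by rw [hN]; exact Nat.floor_le_floor (by linarith)
    have hfbN : ⌊β⌋₊ ≤ N := by rw [hN]; exact Nat.floor_le_floor hβY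
    have h6 : S2 = ∑ m ∈ (Icc 1 ⌊β⌋₊).filter (fun m => m ≡ c [MOD q]),
        ArithmeticFunction.vonMangoldt m - ∑ m ∈ (Icc 1 ⌊α⌋₊).filter (fun m => m ≡ c [MOD q]),
        ArithmeticFunction.vonMangoldt m := by
      rw [mjla_cut _ N hfbN, mjla_cut _ N hfaN, ← Finset.sum_sub_distrib, hS2]
      refine Finset.sum_congr rfl fun m _ => ?_
      have h7 : (m : ℝ) ≤ β ↔ m ≤ ⌊β⌋₊ := (Nat.le_floor_iff hβ0).symm
      have h8 : (m : ℝ) ≤ α ↔ m ≤ ⌊α⌋₊ := (Nat.le_floor_iff hα0).symm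
      unfold ind
      by_cases h9 : m ≤ ⌊α⌋₊
      · have h10 : m ≤ ⌊β⌋₊ := by
          rw [← h8] at h9
          rw [← h7]
          linarith
        rw [if_neg (fun h => absurd h.1 (not_lt.2 (h8.2 h9))), if_pos h9, if_pos h10]
        ring
      · rw [if_neg h9]
        have h11 : α < (m : ℝ) := by
          rw [← h8] at h9
          exact not_le.1 h9
        by_cases h10 : m ≤ ⌊β⌋₊
        · rw [if_pos ⟨h11, h7.2 h10⟩, if_pos h10]
          ring
        · rw [if_neg (fun h => h10 (h7.1 h.2)), if_neg h10]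
          ring
    have h7 := abs_le.1 (hSW _ hfa (by linarith))
    have h8 := abs_le.1 (hSW _ hfb (by linarith))
    have hφ : (1 : ℝ) ≤ (Nat.totient q : ℝ) := by
      exact_mod_cast Nat.totient_pos.2 (by omega)
    have hφ0 : (0 : ℝ) < (Nat.totient q : ℝ) := by linarith
    have h9 : |((⌊β⌋₊ : ℝ) / (Nat.totient q : ℝ) - (⌊α⌋₊ : ℝ) / (Nat.totient q : ℝ)) -
        (β - α) / (Nat.totient q : ℝ)| ≤ 1 := by
      rw [← sub_div, ← sub_div, abs_div, abs_of_pos hφ0, div_le_one hφ0]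
      refine le_trans ?_ hφ
      rw [abs_le]
      constructor <;> linarith
    have h10 := abs_le.1 h9
    rw [h6] at hcmp'
    rw [abs_le]
    constructor <;> linarith [h7.1, h7.2, h8.1, h8.2, h10.1, h10.2, hcmp'.1, hcmp'.2]

end Pool.MP_dd84fd_nt.HX
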