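import Pool.Agent.Lib.MP_dd84fd_nt.HX.Iface

/-!
# Theorem H, section 5 (PL_H): definitions

Paper: /team-store/H98_paper.md section 5 (and F_helper3.md).  `L = log X`.
`cq q c`: the coefficients `c k` with `(k, q) = 1`.  `StdH`, `BlkH`: standing hypotheses and blocks, as
`PL.Std`, `PL.Blk` with `N b ≤ X^(1/2+5δ/2)`, `X^(1/3) ≤ M ≤ X^(1/2-3δ)`.
`BVw X R γ`: `|γ| ≤ R` and total variation `≤ R` on `[1, X]`.  `iw X d γ θ = ∑_{k ≤ X/d} γ(dk) e(dkθ)`.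
-/

set_option autoImplicit false

namespace Pool.MP_dd84fd_nt.HXP

open Finset Pool.MP_67663b_nt.Odd Pool.MP_dd84fd_nt.PL Pool.MP_dd84fd_nt.HX

/-- the coefficients `c k`, `(k, q) = 1` -/
def cq (q : ℕ) (c : ℕ → ℂ) (k : ℕ) : ℂ := if Nat.Coprime k q then c k else 0

/-- a type II block: `m ∈ MM ⊆ (M, 2M]`, `|a_m| ≤ Am`, `∑_{k ≤ K} |c_k|² ≤ S X / M` -/
def BlkH (X : ℕ) (δ M : ℝ) (K : ℕ) (MM : Finset ℕ) (a c : ℕ → ℂ) (Am S : ℝ) : Prop :=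
  (X : ℝ) ^ (1 / 3 : ℝ) ≤ M ∧ M ≤ (X : ℝ) ^ (1 / 2 - 3 * δ) ∧ K ≤ X ∧
    (∀ m ∈ MM, M < (m : ℝ) ∧ (m : ℝ) ≤ 2 * M) ∧ (∀ m ∈ MM, ‖a m‖ ≤ Am) ∧
    ∑ k ∈ Icc 1 K, ‖c k‖ ^ 2 ≤ S * X / M

/-- the standing hypotheses of PL_H on `X, n, b, N, σ, QQ, bq` -/
def StdH (X n : ℕ) (δ : ℝ) (A1 : ℕ) (b N σ : ℝ) (QQ : Finset ℕ) (bq : ℕ → ℝ) : Prop :=
  X < 2 * n ∧ n ≤ X ∧ (σ = 1 ∨ σ = -1) ∧ (Real.log X) ^ (-(A1 : ℝ)) ≤ b ∧ 1 ≤ N ∧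
    N * b ≤ (X : ℝ) ^ (1 / 2 + 5 / 2 * δ) ∧ Fam QQ N ∧ (QQ.card : ℝ) ≤ (X : ℝ) ^ (1 / 50 : ℝ) ∧
    ∀ q ∈ QQ, b ≤ bq q ∧ bq q ≤ 2 * b

/-- weights of bounded variation -/
def BVw (X : ℕ) (R : ℝ) (γ : ℕ → ℝ) : Prop :=
  (∀ n ∈ Icc 1 X, |γ n| ≤ R) ∧ ∑ n ∈ Ico 1 X, |γ (n + 1) - γ n| ≤ R

/-- the inner sum with weight `γ` -/
noncomputable def iw (X d : ℕ) (γ : ℕ → ℝ) (θ : ℝ) : ℂ :=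
  ∑ k ∈ Icc 1 (X / d), ((γ (d * k) : ℝ) : ℂ) * ee (((d * k : ℕ) : ℝ) * θ)

/-- `WH` on the half arcs -/
noncomputable def WHa (s δ σ : ℝ) (w X q a : ℕ) (x : ℝ) : ℂ :=
  WH s δ w X ((a : ℝ) / q + σ * x)

end Pool.MP_dd84fd_nt.HXP
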