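import Pool.Agent.Lib.MP_dd84fd_nt.HX.PlDefs

/-!
# PL_H-OvA: removing the condition `(k, p) = 1` at one prime

`ov_star`.  Let `q2 = q/p`, `T = tp K c`, `Tp = tp K (cq p c)` (both have period `1`).
`Tp(θ) = T(θ) - (1/p) ∑_{j<p} T(θ + j/p)`  (`∑_{j<p} ee(k j/p) = p` if `p ∣ k`, `0` otherwise).
The reduced residues `y` modulo `q` are `y ≡ y2 + j q2` with `y2 ∈ rr q2`, `j < p` if `p ∣ q2`, and those of them not
divisible by `p` if `p ∤ q2` (write `y/q = y2/q2·(1/p)..`: `(y2 + j q2)/q = y2/q + j/p`).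
For fixed `y2`: `θ_j = (y2 + j q2)/q + x`, `t_j = T(θ_j)`, `u_j = Tp(θ_j) = t_j - m`, `m = (1/p) ∑_j t_j`, `∑_j u_j = 0`.
* `p ∣ q2`: all `j` are allowed, `∑_j |t_j - m|² ≤ ∑_j |t_j|²`.
* `p ∤ q2`: exactly one `j0 < p` has `p ∣ y2 + j0 q2 = p y'`, and `θ_{j0} = y'/q2 + x`, `y' ∈ rr q2` (`y' < q2`), `y2 ↦ y'` is a
  bijection of `rr q2` (injective: `p y' ≡ y2` modulo `q2`).  `t_j = u_j + m`:
  `∑_{j≠j0} |t_j|² = ∑_{j≠j0} |u_j|² + 2 Re(m̄ ∑_{j≠j0} u_j) + (p-1)|m|² = ∑_{j≠j0}|u_j|² - 2 Re(m̄ u_{j0}) + (p-1)|m|²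
   ≥ ∑_{j≠j0}|u_j|² - |u_{j0}|²/(p-1)`.
Sum over `y2` (in the case `p ∣ q2` the extra term is `≥ 0`).
-/

set_option autoImplicit false

namespace Pool.MP_dd84fd_nt.HXP

open Finset Pool.MP_67663b_nt.Odd Pool.MP_dd84fd_nt.PL Pool.MP_dd84fd_nt.HX

private theorem oa_ee_add (x y : ℝ) : ee (x + y) = ee x * ee y := by
  unfold ee
  rw [← Complex.exp_add]
  congr 1
  push_cast
  ring

private theorem oa_ee_int (m : ℤ) : ee (m : ℝ) = 1 := by
  unfold ee
  have h : (2 * (Real.pi : ℂ) * ((m : ℝ) : ℂ) * Complex.I) = (m : ℂ) * (2 * Real.pi * Complex.I) := by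
    push_cast
    ring
  rw [h]
  exact Complex.exp_int_mul_two_pi_mul_I m

private theorem oa_ee_nat (m : ℕ) : ee (m : ℝ) = 1 := by
  have h := oa_ee_int (m : ℤ)
  rwa [Int.cast_natCast] at h

private theorem oa_tp_per (K : ℕ) (c : ℕ → ℂ) (x : ℝ) : tp K c (x + 1) = tp K c x := by
  unfold tp
  refine sum_congr rfl fun k _ => ?_
  rw [mul_add, mul_one, oa_ee_add, oa_ee_nat, mul_one]

private theorem oa_orth (N : ℕ) (hN : 0 < N) (k : ℕ) (hk : ¬ N ∣ k) :
    ∑ j ∈ range N, ee ((k : ℝ) * ((j : ℝ) / N)) = 0 := by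
  have hN' : (N : ℝ) ≠ 0 := by exact_mod_cast hN.ne'
  have hpow : ∀ j : ℕ, ee ((k : ℝ) * ((j : ℝ) / N)) = ee ((k : ℝ) / N) ^ j := by
    intro j
    induction j with
    | zero =>
      have := oa_ee_nat 0
      simpa using this
    | succ j ih =>
      rw [pow_succ, ← ih, ← oa_ee_add]
      congr 1
      push_cast
      field_simp
  have h1 : ee ((k : ℝ) / N) ≠ 1 := by
    intro h1
    unfold ee at h1
    rw [Complex.exp_eq_one_iff] at h1
    obtain ⟨n, hn⟩ := h1
    apply hk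
    have hpi : (2 * Real.pi * Complex.I : ℂ) ≠ 0 := by
      simp [Real.pi_ne_zero]
    have h2 : (((k : ℝ) / N : ℝ) : ℂ) = (n : ℂ) := by
      have h3 : (2 * Real.pi * Complex.I : ℂ) * (((k : ℝ) / N : ℝ) : ℂ) =
          (2 * Real.pi * Complex.I : ℂ) * n := by
        rw [show (2 * Real.pi * Complex.I : ℂ) * n = n * (2 * Real.pi * Complex.I) by ring, ← hn]
        ring
      exact mul_left_cancel₀ hpi h3
    have h4 : (k : ℝ) / N = (n : ℝ) := by exact_mod_cast h2
    have h5 : (k : ℝ) = N * n := by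
      field_simp at h4
      linarith
    have h6 : (k : ℤ) = N * n := by exact_mod_cast h5
    exact_mod_cast (Dvd.intro n h6.symm : (N : ℤ) ∣ (k : ℤ))
  simp only [hpow]
  rw [geom_sum_eq h1]
  have h6 : ee ((k : ℝ) / N) ^ N = 1 := by
    rw [← hpow N]
    have : (k : ℝ) * ((N : ℝ) / N) = (k : ℝ) := by
      field_simp
    rw [this, oa_ee_nat]
  rw [h6, sub_self, zero_div]

/-- sums of periodic functions over a period are invariant under shifts -/
private theorem oa_shift {E : Type*} [AddCommGroup E] (q : ℕ) (g : ℕ → E)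
    (hg : ∀ y, g (y + q) = g y) (m : ℕ) :
    ∑ y ∈ range q, g (y + m) = ∑ y ∈ range q, g y := by
  induction m with
  | zero => simp
  | succ m ih =>
    rw [← ih]
    have h1 := sum_range_succ (fun y => g (y + m)) q
    have h2 := sum_range_succ' (fun y => g (y + m)) q
    have h3 : g (q + m) = g (0 + m) := by
      rw [zero_add, add_comm q m, hg]
    have h4 : ∑ y ∈ range q, g (y + (m + 1)) = ∑ y ∈ range q, g (y + 1 + m) :=
      sum_congr rfl fun y _ => by rw [add_assoc y 1 m, add_comm 1 m]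
    rw [h4]
    have h5 : ∑ y ∈ range q, g (y + m) + g (q + m) = ∑ y ∈ range q, g (y + 1 + m) + g (0 + m) := by
      rw [← h1, ← h2]
    rw [h3] at h5
    exact (add_right_cancel h5).symm

private theorem oa_elem {u v : ℂ} {p : ℝ} (hp : 1 < p) :
    ‖u + v‖ ^ 2 ≤ ‖u‖ ^ 2 + 1 / (p - 1) * ‖u‖ ^ 2 + p * ‖v‖ ^ 2 := by
  have h1 : ‖u + v‖ ^ 2 ≤ (‖u‖ + ‖v‖) ^ 2 :=
    pow_le_pow_left₀ (norm_nonneg _) (norm_add_le u v) 2
  have h2 : 0 < p - 1 := by linarith
  have h3 : 2 * (‖u‖ * ‖v‖) ≤ 1 / (p - 1) * ‖u‖ ^ 2 + (p - 1) * ‖v‖ ^ 2 := by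
    have h4 : 1 / (p - 1) * ‖u‖ ^ 2 + (p - 1) * ‖v‖ ^ 2 - 2 * (‖u‖ * ‖v‖) =
        1 / (p - 1) * (‖u‖ - (p - 1) * ‖v‖) ^ 2 := by
      field_simp
      ring
    have h5 : 0 ≤ 1 / (p - 1) * (‖u‖ - (p - 1) * ‖v‖) ^ 2 := by positivity
    linarith
  calc ‖u + v‖ ^ 2 ≤ (‖u‖ + ‖v‖) ^ 2 := h1
    _ = ‖u‖ ^ 2 + 2 * (‖u‖ * ‖v‖) + ‖v‖ ^ 2 := by ring
    _ ≤ _ := by linarith

theorem ov_star (q p K : ℕ) (hp : p.Prime) (hq : 1 ≤ q) (hpq : p ∣ q) (c : ℕ → ℂ) (x : ℝ) :
    ∑ y ∈ rr q, ‖tp K (cq p c) ((y : ℝ) / q + x)‖ ^ 2 ≤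
      ∑ y ∈ rr q, ‖tp K c ((y : ℝ) / q + x)‖ ^ 2 +
      1 / ((p : ℝ) - 1) * ∑ y ∈ rr (q / p), ‖tp K (cq p c) ((y : ℝ) / ((q / p : ℕ) : ℝ) + x)‖ ^ 2 := by
  have hp0 : 0 < p := hp.pos
  have hp1 : (1 : ℝ) < p := by exact_mod_cast hp.one_lt
  have hp0r : (p : ℝ) ≠ 0 := by positivity
  have hq0r : (q : ℝ) ≠ 0 := by positivity
  obtain ⟨r, hr⟩ := hpq
  have hqp : q / p = r := by rw [hr, Nat.mul_div_cancel_left r hp0]
  rw [hqp]
  have hr0 : 0 < r := by
    rcases Nat.eq_zero_or_pos r with h | h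
    · rw [h, mul_zero] at hr; omega
    · exact h
  have hr0r : (r : ℝ) ≠ 0 := by positivity
  have hqr : (q : ℝ) = p * r := by exact_mod_cast hr
  set cV : ℕ → ℂ := fun k => if p ∣ k then c k else 0 with hcV
  set A : ℕ → ℂ := fun y => tp K c ((y : ℝ) / q + x) with hA
  set U : ℕ → ℂ := fun y => tp K (cq p c) ((y : ℝ) / q + x) with hU
  set V : ℕ → ℂ := fun y => tp K cV ((y : ℝ) / q + x) with hV
  set P : ℕ → ℝ := fun y => if Nat.Coprime y r then 1 else 0 with hP
  have hP0 : ∀ y, 0 ≤ P y := by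
    intro y
    rw [hP]
    simp only
    split_ifs <;> norm_num
  -- basic facts
  have hAUV : ∀ y, A y = U y + V y := by
    intro y
    rw [hA, hU, hV]
    simp only [tp]
    rw [← sum_add_distrib]
    refine sum_congr rfl fun k _ => ?_
    rw [← add_mul]
    congr 1
    rw [hcV]
    simp only [cq]
    have h1 : Nat.Coprime k p ↔ ¬ p ∣ k := by
      rw [Nat.coprime_comm]
      exact Nat.Prime.coprime_iff_not_dvd hp
    by_cases h2 : p ∣ k
    · rw [if_neg (by rw [h1]; exact fun h => h h2), if_pos h2, zero_add]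
    · rw [if_pos (h1.2 h2), if_neg h2, add_zero]
  have hper : ∀ (e : ℕ → ℂ) (y : ℕ), tp K e (((y + q : ℕ) : ℝ) / q + x) = tp K e ((y : ℝ) / q + x) := by
    intro e y
    rw [← oa_tp_per K e ((y : ℝ) / q + x)]
    congr 1
    push_cast
    field_simp
    ring
  have hPr : ∀ y, P (y + r) = P y := by
    intro y
    rw [hP]
    simp only [Nat.coprime_add_self_left]
  have hPri : ∀ i y, P (y + i * r) = P y := by
    intro i y
    rw [hP]
    simp only [Nat.coprime_add_mul_right_left]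
  have hPq : ∀ y, P (y + q) = P y := by
    intro y
    rw [hr]
    exact hPri p y
  have hVr : ∀ i y, V (y + i * r) = V y := by
    intro i y
    rw [hV]
    simp only [tp]
    refine sum_congr rfl fun k _ => ?_
    rw [hcV]
    simp only
    split_ifs with h
    · congr 1
      obtain ⟨m, hm⟩ := h
      have h1 : (k : ℝ) * (((y + i * r : ℕ) : ℝ) / q + x) = (k : ℝ) * ((y : ℝ) / q + x) + ((m * i : ℕ) : ℝ) := by
        rw [hm, hqr]
        push_cast
        field_simp
        ring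
      rw [h1, oa_ee_add, oa_ee_nat, mul_one]
    · rw [zero_mul, zero_mul]
  have hUsum : ∀ y, ∑ i ∈ range p, U (y + i * r) = 0 := by
    intro y
    rw [hU]
    simp only [tp]
    rw [sum_comm]
    refine sum_eq_zero fun k _ => ?_
    rw [← mul_sum]
    simp only [cq]
    split_ifs with h
    · have h2 : ¬ p ∣ k := by
        rw [Nat.coprime_comm, Nat.Prime.coprime_iff_not_dvd hp] at h
        exact h
      have h1 : ∑ i ∈ range p, ee ((k : ℝ) * (((y + i * r : ℕ) : ℝ) / q + x)) =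
          ee ((k : ℝ) * ((y : ℝ) / q + x)) * ∑ i ∈ range p, ee ((k : ℝ) * ((i : ℝ) / p)) := by
        rw [mul_sum]
        refine sum_congr rfl fun i _ => ?_
        rw [← oa_ee_add]
        congr 1
        rw [hqr]
        push_cast
        field_simp
        ring
      rw [h1, oa_orth p hp0 k h2, mul_zero, mul_zero]
    · rw [zero_mul]
  -- F1
  have hF1 : ∑ y ∈ range q, P y * ‖A y‖ ^ 2 =
      ∑ y ∈ range q, P y * ‖U y‖ ^ 2 + ∑ y ∈ range q, P y * ‖V y‖ ^ 2 := by
    set g : ℕ → ℂ := fun y => (P y : ℂ) * (U y * (starRingEnd ℂ) (V y)) with hg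
    have hgq : ∀ y, g (y + q) = g y := by
      intro y
      rw [hg, hU, hV]
      simp only
      rw [hPq, hper, hper]
    have h1 : (p : ℂ) * ∑ y ∈ range q, g y = 0 := by
      have h2 : (p : ℂ) * ∑ y ∈ range q, g y = ∑ i ∈ range p, ∑ y ∈ range q, g (y + i * r) := by
        simp only [oa_shift q g hgq]
        rw [sum_const, card_range, nsmul_eq_mul]
      rw [h2, sum_comm]
      refine sum_eq_zero fun y _ => ?_
      have h3 : ∑ i ∈ range p, g (y + i * r) =
          (P y : ℂ) * ((∑ i ∈ range p, U (y + i * r)) * (starRingEnd ℂ) (V y)) := by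
        rw [sum_mul, mul_sum]
        refine sum_congr rfl fun i _ => ?_
        rw [hg]
        simp only
        rw [hPri, hVr]
      rw [h3, hUsum, zero_mul, mul_zero]
    have h2 : ∑ y ∈ range q, g y = 0 := by
      rcases mul_eq_zero.1 h1 with h | h
      · exact absurd h (by exact_mod_cast hp0.ne')
      · exact h
    have h3 : ∑ y ∈ range q, P y * ‖A y‖ ^ 2 =
        ∑ y ∈ range q, (P y * ‖U y‖ ^ 2 + P y * ‖V y‖ ^ 2 + 2 * (g y).re) := by
      refine sum_congr rfl fun y _ => ?_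
      rw [hAUV y, hg]
      simp only
      rw [Complex.re_ofReal_mul, ← Complex.normSq_eq_norm_sq, ← Complex.normSq_eq_norm_sq,
        ← Complex.normSq_eq_norm_sq, Complex.normSq_add]
      ring
    rw [h3, sum_add_distrib, sum_add_distrib, ← mul_sum, ← Complex.re_sum, h2, Complex.zero_re, mul_zero,
      add_zero]
  by_cases hpr : p ∣ r
  · -- all residues coprime to r are coprime to q
    have hrr : ∀ F : ℕ → ℝ, ∑ y ∈ rr q, F y = ∑ y ∈ range q, P y * F y := by
      intro F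
      unfold rr
      rw [sum_filter]
      refine sum_congr rfl fun y _ => ?_
      have h1 : Nat.Coprime y q ↔ Nat.Coprime y r := by
        rw [hr, Nat.coprime_mul_iff_right]
        refine ⟨fun h => h.2, fun h => ⟨Nat.Coprime.coprime_dvd_right hpr h, h⟩⟩
      rw [hP]
      simp only
      by_cases h2 : Nat.Coprime y r
      · rw [if_pos (h1.2 h2), if_pos h2, one_mul]
      · rw [if_neg (fun h => h2 (h1.1 h)), if_neg h2, zero_mul]
    rw [hrr, hrr]
    have h4 : 0 ≤ ∑ y ∈ range q, P y * ‖V y‖ ^ 2 :=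
      sum_nonneg fun y _ => mul_nonneg (hP0 y) (by positivity)
    have h5 : 0 ≤ 1 / ((p : ℝ) - 1) * ∑ y ∈ rr r, ‖tp K (cq p c) ((y : ℝ) / ((r : ℕ) : ℝ) + x)‖ ^ 2 := by
      have h6 : 0 < (p : ℝ) - 1 := by linarith
      have h7 : 0 ≤ ∑ y ∈ rr r, ‖tp K (cq p c) ((y : ℝ) / ((r : ℕ) : ℝ) + x)‖ ^ 2 :=
        sum_nonneg fun y _ => by positivity
      positivity
    linarith
  · set D : ℕ → ℝ := fun y => if p ∣ y then 1 else 0 with hD
    have hrr : ∀ F : ℕ → ℝ, ∑ y ∈ rr q, F y = ∑ y ∈ range q, P y * F y - ∑ y ∈ range q, P y * D y * F y := by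
      intro F
      unfold rr
      rw [sum_filter, ← sum_sub_distrib]
      refine sum_congr rfl fun y _ => ?_
      have h1 : Nat.Coprime y q ↔ (¬ p ∣ y ∧ Nat.Coprime y r) := by
        rw [hr, Nat.coprime_mul_iff_right, Nat.coprime_comm (n := y) (m := p),
          Nat.Prime.coprime_iff_not_dvd hp]
      rw [hP, hD]
      simp only
      by_cases h2 : Nat.Coprime y r
      · by_cases h3 : p ∣ y
        · rw [if_neg (fun h => (h1.1 h).1 h3), if_pos h2, if_pos h3]; ring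
        · rw [if_pos (h1.2 ⟨h3, h2⟩), if_pos h2, if_neg h3]; ring
      · rw [if_neg (fun h => h2 (h1.1 h).2), if_neg h2]; ring
    -- F2
    have hF2 : (p : ℝ) * ∑ y ∈ range q, P y * D y * ‖V y‖ ^ 2 ≤ ∑ y ∈ range q, P y * ‖V y‖ ^ 2 := by
      set g : ℕ → ℝ := fun y => P y * D y * ‖V y‖ ^ 2 with hg
      have hDq : ∀ y, D (y + q) = D y := by
        intro y
        rw [hD]
        simp only
        have : p ∣ y + q ↔ p ∣ y := by
          rw [hr]
          exact (Nat.dvd_add_iff_left (Dvd.intro r rfl)).symm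
        simp only [this]
      have hgq : ∀ y, g (y + q) = g y := by
        intro y
        rw [hg, hV]
        simp only
        rw [hPq, hper, hDq]
      have h2 : (p : ℝ) * ∑ y ∈ range q, g y = ∑ i ∈ range p, ∑ y ∈ range q, g (y + i * r) := by
        simp only [oa_shift q g hgq]
        rw [sum_const, card_range, nsmul_eq_mul]
      rw [h2, sum_comm]
      refine sum_le_sum fun y _ => ?_
      have h3 : ∑ i ∈ range p, g (y + i * r) = (P y * ‖V y‖ ^ 2) * ∑ i ∈ range p, D (y + i * r) := by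
        rw [mul_sum]
        refine sum_congr rfl fun i _ => ?_
        rw [hg]
        simp only
        rw [hPri, hVr]
        ring
      rw [h3]
      have h4 : ∑ i ∈ range p, D (y + i * r) ≤ 1 := by
        rw [hD]
        simp only
        rw [← sum_filter, sum_const, nsmul_eq_mul, mul_one]
        have h5 : ((range p).filter (fun i => p ∣ y + i * r)).card ≤ 1 := by
          rw [card_le_one]
          intro i hi j hj
          rw [mem_filter, mem_range] at hi hj
          have h6 : (p : ℤ) ∣ ((i : ℤ) - j) * r := by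
            have h7 : (p : ℤ) ∣ ((y + i * r : ℕ) : ℤ) := by exact_mod_cast hi.2
            have h8 : (p : ℤ) ∣ ((y + j * r : ℕ) : ℤ) := by exact_mod_cast hj.2
            have h9 := dvd_sub h7 h8
            have h10 : ((y + i * r : ℕ) : ℤ) - ((y + j * r : ℕ) : ℤ) = ((i : ℤ) - j) * r := by
              push_cast
              ring
            rwa [h10] at h9
          have hpi : Prime (p : ℤ) := Nat.prime_iff_prime_int.1 hp
          rcases hpi.dvd_or_dvd h6 with h11 | h11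
          · have h12 := Int.eq_zero_of_abs_lt_dvd h11 (by rw [abs_lt]; constructor <;> omega)
            omega
          · exact absurd (by exact_mod_cast h11) hpr
        exact_mod_cast h5
      have h5 : 0 ≤ P y * ‖V y‖ ^ 2 := mul_nonneg (hP0 y) (by positivity)
      calc _ ≤ (P y * ‖V y‖ ^ 2) * 1 := mul_le_mul_of_nonneg_left h4 h5
        _ = _ := mul_one _
    -- F3
    have hF3 : ∑ y ∈ range q, P y * D y * ‖U y‖ ^ 2 =
        ∑ y ∈ rr r, ‖tp K (cq p c) ((y : ℝ) / ((r : ℕ) : ℝ) + x)‖ ^ 2 := by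
      have h1 : ∑ y ∈ range q, P y * D y * ‖U y‖ ^ 2 =
          ∑ y ∈ (range q).filter (fun y => p ∣ y), P y * ‖U y‖ ^ 2 := by
        rw [sum_filter]
        refine sum_congr rfl fun y _ => ?_
        rw [hD]
        simp only
        split_ifs <;> ring
      have h2 : (range q).filter (fun y => p ∣ y) = (range r).image (fun j => p * j) := by
        ext y
        simp only [Finset.mem_filter, Finset.mem_range, Finset.mem_image]
        constructor
        · rintro ⟨h5, j, rfl⟩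
          refine ⟨j, ?_, rfl⟩
          rw [hr] at h5
          exact Nat.lt_of_mul_lt_mul_left h5
        · rintro ⟨j, h5, rfl⟩
          refine ⟨?_, Dvd.intro _ rfl⟩
          rw [hr]
          exact Nat.mul_lt_mul_of_pos_left h5 hp0
      rw [h1, h2, Finset.sum_image (fun x _ y _ h => Nat.eq_of_mul_eq_mul_left hp0 h)]
      unfold rr
      rw [sum_filter]
      refine sum_congr rfl fun j _ => ?_
      have hpr' : Nat.Coprime p r := (Nat.Prime.coprime_iff_not_dvd hp).2 hpr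
      have h3 : Nat.Coprime (p * j) r ↔ Nat.Coprime j r := by
        rw [Nat.coprime_mul_iff_left]
        exact ⟨fun h => h.2, fun h => ⟨hpr', h⟩⟩
      have h4 : ((p * j : ℕ) : ℝ) / q = (j : ℝ) / r := by
        rw [hqr]
        push_cast
        field_simp
      rw [hP, hU]
      simp only
      rw [h4]
      by_cases h5 : Nat.Coprime j r
      · rw [if_pos (h3.2 h5), if_pos h5, one_mul]
      · rw [if_neg (fun h => h5 (h3.1 h)), if_neg h5, zero_mul]
    rw [hrr, hrr, ← hF3]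
    have h6 : ∑ y ∈ range q, P y * D y * ‖A y‖ ^ 2 ≤ ∑ y ∈ range q, P y * D y * ‖U y‖ ^ 2 +
        1 / ((p : ℝ) - 1) * ∑ y ∈ range q, P y * D y * ‖U y‖ ^ 2 +
        (p : ℝ) * ∑ y ∈ range q, P y * D y * ‖V y‖ ^ 2 := by
      rw [mul_sum, mul_sum, ← sum_add_distrib, ← sum_add_distrib]
      refine sum_le_sum fun y _ => ?_
      have hD0 : 0 ≤ D y := by
        rw [hD]
        simp only
        split_ifs <;> norm_num
      have h7 : 0 ≤ P y * D y := mul_nonneg (hP0 y) hD0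
      have h8 := mul_le_mul_of_nonneg_left (oa_elem (u := U y) (v := V y) hp1) h7
      rw [hAUV y]
      refine h8.trans (le_of_eq ?_)
      ring
    have h9 : ∑ y ∈ range q, P y * ‖A y‖ ^ 2 =
      ∑ y ∈ range q, P y * ‖U y‖ ^ 2 + ∑ y ∈ range q, P y * ‖V y‖ ^ 2 := hF1
    have h10 : ∑ y ∈ range q, P y * ‖tp K (cq p c) ((y : ℝ) / q + x)‖ ^ 2 =
        ∑ y ∈ range q, P y * ‖U y‖ ^ 2 := rfl
    have h11 : ∑ y ∈ range q, P y * D y * ‖tp K (cq p c) ((y : ℝ) / q + x)‖ ^ 2 =
        ∑ y ∈ range q, P y * D y * ‖U y‖ ^ 2 := rfl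
    have h12 : ∑ y ∈ range q, P y * ‖tp K c ((y : ℝ) / q + x)‖ ^ 2 =
        ∑ y ∈ range q, P y * ‖A y‖ ^ 2 := rfl
    have h13 : ∑ y ∈ range q, P y * D y * ‖tp K c ((y : ℝ) / q + x)‖ ^ 2 =
        ∑ y ∈ range q, P y * D y * ‖A y‖ ^ 2 := rfl
    linarith

end Pool.MP_dd84fd_nt.HXP
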