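import Pool.Agent.Lib.MP_dd84fd_nt.HX.PlOvA

/-!
# PL_H-OvB: removing the condition `(k, q) = 1`

`ov_ind`: induction on `S` (`Finset.induction_on`, for all `q`, `c` with `S ⊆ q.primeFactors`).  `S = insert p S'`, `P' = ∏ S'`:
`cq (p P') c = cq p (cq P' c)`; `ov_star` for the coefficients `cq P' c` gives
`∑_{rr q} |tp (cq (pP') c)|² ≤ ∑_{rr q} |tp (cq P' c)|² + (1/(p-1)) ∑_{rr (q/p)} |tp (cq (pP') c)|²`.
First term: induction for `q`, `c`.  Second: `S' ⊆ (q/p).primeFactors` (the primes of `S'` are different from `p`),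
`cq (pP') c = cq P' (cq p c)`: induction for `q/p`, `cq p c`; `φ(p t) = (p-1) φ(t)`, `(q/p)/t = q/(pt)`,
`cq t (cq p c) = cq (pt) c`.  `Finset.sum_powerset_insert` adds the two.
`ov_prod`: `S = q.primeFactors`, `(k, ∏ S) = 1 ↔ (k, q) = 1`; the map `T ↦ ∏ T` from the subsets of `q.primeFactors` to
`q.divisors` is injective, all terms are `≥ 0`.
-/

set_option autoImplicit false

namespace Pool.MP_dd84fd_nt.HXP

open Finset Pool.MP_67663b_nt.Odd Pool.MP_dd84fd_nt.PL Pool.MP_dd84fd_nt.HX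

private theorem ob_cq_mul (a b : ℕ) (c : ℕ → ℂ) : cq (a * b) c = cq a (cq b c) := by
  funext k
  unfold cq
  by_cases h1 : Nat.Coprime k a
  · by_cases h2 : Nat.Coprime k b
    · rw [if_pos (Nat.Coprime.mul_right h1 h2), if_pos h1, if_pos h2]
    · rw [if_neg (fun h => h2 (Nat.coprime_mul_iff_right.1 h).2), if_pos h1, if_neg h2]
  · rw [if_neg (fun h => h1 (Nat.coprime_mul_iff_right.1 h).1), if_neg h1]

private theorem ob_cq_one (c : ℕ → ℂ) : cq 1 c = c := by
  funext k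
  unfold cq
  rw [if_pos (Nat.coprime_one_right k)]

private theorem ob_prime_of_mem {q : ℕ} {S : Finset ℕ} (hS : S ⊆ q.primeFactors) {p : ℕ} (hp : p ∈ S) :
    p.Prime := Nat.prime_of_mem_primeFactors (hS hp)

theorem ov_ind (K : ℕ) (x : ℝ) (S : Finset ℕ) (q : ℕ) (hq : 1 ≤ q) (hS : S ⊆ q.primeFactors)
    (c : ℕ → ℂ) :
    ∑ y ∈ rr q, ‖tp K (cq (∏ p ∈ S, p) c) ((y : ℝ) / q + x)‖ ^ 2 ≤
      ∑ T ∈ S.powerset, 1 / (Nat.totient (∏ p ∈ T, p) : ℝ) *
        ∑ y ∈ rr (q / ∏ p ∈ T, p),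
          ‖tp K (cq (∏ p ∈ T, p) c) ((y : ℝ) / ((q / ∏ p ∈ T, p : ℕ) : ℝ) + x)‖ ^ 2 := by
  induction S using Finset.induction_on generalizing q c with
  | empty =>
    simp only [prod_empty, powerset_empty, sum_singleton, Nat.totient_one, Nat.cast_one, div_one, one_mul,
      Nat.div_one, ob_cq_one]
    exact le_refl _
  | insert p S' hpS ih =>
    have hpq : p ∈ q.primeFactors := hS (mem_insert_self p S')
    have hp : p.Prime := Nat.prime_of_mem_primeFactors hpq
    have hpd : p ∣ q := Nat.dvd_of_mem_primeFactors hpq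
    have hS' : S' ⊆ q.primeFactors := fun a ha => hS (mem_insert_of_mem ha)
    have hq1 : 1 ≤ q / p := Nat.div_pos (Nat.le_of_dvd hq hpd) hp.pos
    have hS2 : S' ⊆ (q / p).primeFactors := by
      intro a ha
      have ha1 : a.Prime := ob_prime_of_mem hS' ha
      have ha2 : a ∣ q := Nat.dvd_of_mem_primeFactors (hS' ha)
      rw [Nat.mem_primeFactors]
      refine ⟨ha1, ?_, by omega⟩
      have h1 : a ∣ p * (q / p) := by rwa [Nat.mul_div_cancel' hpd]
      rcases (Nat.Prime.dvd_mul ha1).1 h1 with h2 | h2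
      · exfalso
        apply hpS
        rwa [← (Nat.prime_dvd_prime_iff_eq ha1 hp).1 h2]
      · exact h2
    rw [prod_insert hpS, ob_cq_mul]
    have h1 := ov_star q p K hp hq hpd (cq (∏ p ∈ S', p) c) x
    have h2 := ih q hq hS' c
    have h3 := ih (q / p) hq1 hS2 (cq p c)
    have h4 : cq p (cq (∏ p ∈ S', p) c) = cq (∏ p ∈ S', p) (cq p c) := by
      rw [← ob_cq_mul, ← ob_cq_mul, mul_comm]
    have hp1 : (0 : ℝ) < (p : ℝ) - 1 := by
      have : (1 : ℝ) < p := by exact_mod_cast hp.one_lt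
      linarith
    rw [sum_powerset_insert hpS]
    refine h1.trans (add_le_add h2 ?_)
    rw [h4]
    refine (mul_le_mul_of_nonneg_left h3 (by positivity)).trans (le_of_eq ?_)
    rw [mul_sum]
    refine sum_congr rfl fun T hT => ?_
    rw [mem_powerset] at hT
    have hpT : p ∉ T := fun h => hpS (hT h)
    have hT1 : ∀ a ∈ T, a.Prime := fun a ha => ob_prime_of_mem hS' (hT ha)
    have hcop : Nat.Coprime p (∏ p ∈ T, p) := by
      rw [Nat.coprime_prod_right_iff]
      intro a ha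
      rw [Nat.coprime_primes hp (hT1 a ha)]
      rintro rfl
      exact hpT ha
    rw [prod_insert hpT, Nat.totient_mul hcop, Nat.totient_prime hp, Nat.div_div_eq_div_mul, ← mul_assoc]
    congr 1
    · push_cast [Nat.cast_sub hp.one_lt.le]
      rw [div_mul_div_comm, one_mul]
    · refine sum_congr rfl fun y _ => ?_
      rw [← ob_cq_mul, mul_comm p]

private theorem ob_coprime_iff (k q : ℕ) (hq : 1 ≤ q) :
    Nat.Coprime k (∏ p ∈ q.primeFactors, p) ↔ Nat.Coprime k q := by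
  rw [Nat.coprime_prod_right_iff]
  constructor
  · intro h
    by_contra h1
    obtain ⟨p, hp, h2, h3⟩ := Nat.Prime.not_coprime_iff_dvd.1 h1
    have h4 := h p (Nat.mem_primeFactors.2 ⟨hp, h3, by omega⟩)
    rw [Nat.coprime_comm, Nat.Prime.coprime_iff_not_dvd hp] at h4
    exact h4 h2
  · intro h p hp
    exact Nat.Coprime.coprime_dvd_right (Nat.dvd_of_mem_primeFactors hp) h

theorem ov_prod (q K : ℕ) (hq : 1 ≤ q) (c : ℕ → ℂ) (x : ℝ) :
    ∑ y ∈ rr q, ‖tp K (cq q c) ((y : ℝ) / q + x)‖ ^ 2 ≤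
      ∑ t ∈ q.divisors, 1 / (Nat.totient t : ℝ) *
        ∑ y ∈ rr (q / t), ‖tp K (cq t c) ((y : ℝ) / ((q / t : ℕ) : ℝ) + x)‖ ^ 2 := by
  have h1 : cq q c = cq (∏ p ∈ q.primeFactors, p) c := by
    funext k
    unfold cq
    simp only [ob_coprime_iff k q hq]
  have h2 := ov_ind K x q.primeFactors q hq (Subset.refl _) c
  rw [← h1] at h2
  refine h2.trans ?_
  have hinj : Set.InjOn (fun T : Finset ℕ => ∏ p ∈ T, p) (q.primeFactors.powerset : Set (Finset ℕ)) := by
    intro T hT T' hT' h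
    rw [mem_coe, mem_powerset] at hT hT'
    have h3 : (∏ p ∈ T, p).primeFactors = T :=
      Nat.primeFactors_prod fun p hp => ob_prime_of_mem hT hp
    have h4 : (∏ p ∈ T', p).primeFactors = T' :=
      Nat.primeFactors_prod fun p hp => ob_prime_of_mem hT' hp
    have h5 : (∏ p ∈ T, p) = ∏ p ∈ T', p := h
    rw [← h3, ← h4, h5]
  have h3 := sum_image (s := q.primeFactors.powerset) (g := fun T : Finset ℕ => ∏ p ∈ T, p)
    (f := fun t => 1 / (Nat.totient t : ℝ) *
        ∑ y ∈ rr (q / t), ‖tp K (cq t c) ((y : ℝ) / ((q / t : ℕ) : ℝ) + x)‖ ^ 2) hinj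
  rw [← h3]
  refine sum_le_sum_of_subset_of_nonneg ?_ fun t _ _ => ?_
  · intro t ht
    rw [mem_image] at ht
    obtain ⟨T, hT, rfl⟩ := ht
    rw [mem_powerset] at hT
    rw [Nat.mem_divisors]
    refine ⟨?_, by omega⟩
    exact (prod_dvd_prod_of_subset T q.primeFactors _ hT).trans (Nat.prod_primeFactors_dvd q)
  · have : 0 ≤ ∑ y ∈ rr (q / t), ‖tp K (cq t c) ((y : ℝ) / ((q / t : ℕ) : ℝ) + x)‖ ^ 2 :=
      sum_nonneg fun y _ => by positivity
    positivity

end Pool.MP_dd84fd_nt.HXP
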