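import Pool.Agent.Lib.MP_dd84fd_nt.HX.PlOv
import Pool.Agent.Lib.MP_dd84fd_nt.PL.LamTwo

/-!
# PL_H-Two: type II against type II

As `PL.two_two` (`PL/TwoTwo.lean`), with `tp K_i (cq q c_i)` in place of `tp K_i c_i` (for one `q` nothing changes) and
`bmass_c`: `∑_q B_i(q) ≤ C L² (8N + X/(M_i b)) S X/M_i`.
`(M(2hT+M)) V ≤ C L² S X (X/b)[9 + 18 hT X^(-1/3)]`: `N b M ≤ X^(1-δ/2)`, `M ≥ X^(1/3)`, `N b ≤ X^(1/2+5δ/2) ≤ X^(2/3)`;
`κ/√T ≤ D H^(-1/4)`; `(κ/√T) hT X^(-1/3) ≤ X^(-1/20)`: `κ² h ≤ τ³ ≤ D X^(1/100)`, `hT ≤ N(1+b) ≤ X^(1/2+5δ/2)(1 + L^A1)`.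
-/

set_option autoImplicit false

namespace Pool.MP_dd84fd_nt.HXP

open Finset Pool.MP_67663b_nt.Odd Pool.MP_dd84fd_nt.PL Pool.MP_dd84fd_nt.HX

theorem h2_tp_cont (K : ℕ) (c : ℕ → ℂ) : Continuous (tp K c) := by
  unfold tp ee
  fun_prop

theorem h2_tp_per (K : ℕ) (c : ℕ → ℂ) : ∀ x, tp K c (x + 1) = tp K c x := by
  intro x
  unfold tp
  refine Finset.sum_congr rfl fun k _ => ?_
  congr 1
  unfold ee
  rw [Complex.exp_eq_exp_iff_exists_int]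
  exact ⟨k, by push_cast; ring⟩

theorem h2_f2f_cont (MM : Finset ℕ) (a : ℕ → ℂ) (K : ℕ) (c : ℕ → ℂ) (σ : ℝ) (q a' : ℕ) :
    Continuous (f2f MM a (tp K c) σ q a') := by
  unfold f2f
  refine continuous_finsetSum _ fun m _ => ?_
  refine continuous_const.mul ((h2_tp_cont K c).comp ?_)
  fun_prop

theorem h2_one : ∃ C : ℝ, 0 < C ∧ ∀ (X n q : ℕ) [NeZero q] (β σ : ℝ), 1 ≤ X → n ≤ X → X < 2 * n →
    0 < β → (σ = 1 ∨ σ = -1) → ∀ (M1 M2 Am : ℝ) (K1 K2 : ℕ) (MM1 MM2 : Finset ℕ)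
    (a1 a2 c1 c2 : ℕ → ℂ), 1 ≤ M1 → 1 ≤ M2 → 0 ≤ Am →
    (∀ m ∈ MM1, M1 < (m : ℝ) ∧ (m : ℝ) ≤ 2 * M1) → (∀ m ∈ MM2, M2 < (m : ℝ) ∧ (m : ℝ) ≤ 2 * M2) →
    (∀ m ∈ MM1, ‖a1 m‖ ≤ Am) → (∀ m ∈ MM2, ‖a2 m‖ ≤ Am) →
    ∀ (Bs Bd : ℝ) (J : ℕ), (∀ x, ‖tp K1 c1 x‖ ≤ Bs) → (∀ x, ‖tp K2 c2 x‖ ≤ Bs) →
    2 * M1 * Am * Bs ≤ Bd → 2 * M2 * Am * Bs ≤ Bd → 1 ≤ J → 8 * β ≤ J →
    ‖Bq X β σ n q (f2f MM1 a1 (tp K1 c1) σ q) (f2f MM2 a2 (tp K2 c2) σ q)‖ ≤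
      β / X * (C * (1 + Real.log J) * ltK (hq q n) *
        (Real.sqrt (∑ r ∈ rr q, ∫ t in (0 : ℝ)..1,
            ‖tp K1 c1 ((r : ℝ) / q + σ * (M1 * (β / X)) * Real.exp (2 * Int.fract t))‖ ^ 2) *
          Real.sqrt (∑ r ∈ rr q, ∫ t in (0 : ℝ)..1,
            ‖tp K2 c2 ((r : ℝ) / q + σ * (M2 * (β / X)) * Real.exp (2 * Int.fract t))‖ ^ 2)) *
        (Am ^ 2 * (Real.sqrt (M1 * (hq q n * (1 + β) + M1)) *
          Real.sqrt (M2 * (hq q n * (1 + β) + M2))) / Real.sqrt (1 + β)) +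
      C * Nat.totient q * Bd ^ 2 / Real.sqrt J) := by
  obtain ⟨C0, hC0, h0⟩ := one_q
  obtain ⟨C1, hC1, h1⟩ := cvf_struct
  refine ⟨C0 * (1 + 2 * C1), by positivity, ?_⟩
  intro X n q _ β σ hX hn hnX hβ hσ M1 M2 Am K1 K2 MM1 MM2 a1 a2 c1 c2 hM1 hM2 hAm hMM1 hMM2 ha1 ha2
    Bs Bd J hBs1 hBs2 hMB1 hMB2 hJ hβJ
  have hX0 : (0 : ℝ) < X := by exact_mod_cast hX
  have hq1 : 1 ≤ q := Nat.pos_of_ne_zero (NeZero.ne q)
  have hd : hq q n ∣ q := Nat.div_dvd_of_dvd (Nat.gcd_dvd_left q n)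
  have hh1 : 1 ≤ hq q n := by
    unfold hq
    exact Nat.div_pos (Nat.le_of_dvd hq1 (Nat.gcd_dvd_left q n)) (Nat.gcd_pos_of_pos_left _ hq1)
  have : NeZero (hq q n) := ⟨by omega⟩
  have hBs0 : 0 ≤ Bs := (norm_nonneg _).trans (hBs1 0)
  have hBd0 : 0 ≤ Bd := le_trans (by positivity) hMB1
  set r1 := σ * (M1 * (β / X)) with hr1
  set r2 := σ * (M2 * (β / X)) with hr2
  obtain ⟨hgm1, hgb1, α1, β1, hα1, hβ1, hab1, hcos1, hsum1, hts1⟩ :=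
    h1 q (hq q n) hd M1 Am r1 MM1 a1 (tp K1 c1) Bs hM1 hAm hMM1 ha1 (h2_tp_cont K1 c1) hBs1
  obtain ⟨hgm2, hgb2, α2, β2, hα2, hβ2, hab2, hcos2, hsum2, hts2⟩ :=
    h1 q (hq q n) hd M2 Am r2 MM2 a2 (tp K2 c2) Bs hM2 hAm hMM2 ha2 (h2_tp_cont K2 c2) hBs2
  -- rewrite Bq
  have e1 := Bq_eq X hX β σ hβ n q (f2f MM1 a1 (tp K1 c1) σ q) (f2f MM2 a2 (tp K2 c2) σ q)
    (cvf q MM1 a1 M1 r1 (tp K1 c1)) (cvf q MM2 a2 M2 r2 (tp K2 c2))
    (fun a' => h2_f2f_cont MM1 a1 K1 c1 σ q a')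
    (fun a' => h2_f2f_cont MM2 a2 K2 c2 σ q a')
    (by
      intro a' _ t ht ht'
      rw [hr1]
      exact cvf_eq q MM1 a1 M1 (β / X) σ (tp K1 c1) (by linarith) hMM1 (h2_tp_per K1 c1) a' t ht ht')
    (by
      intro a' _ t ht ht'
      rw [hr2]
      exact cvf_eq q MM2 a2 M2 (β / X) σ (tp K2 c2) (by linarith) hMM2 (h2_tp_per K2 c2) a' t ht ht')
  rw [e1, norm_mul, Complex.norm_real, Real.norm_of_nonneg (by positivity)]
  refine mul_le_mul_of_nonneg_left ?_ (by positivity)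
  set ρ : ℝ := -((n : ℝ) * σ * β / X) with hρ
  have hρe : |ρ| = n * β / X := by
    rw [hρ, abs_neg, abs_div, abs_mul, abs_mul, abs_of_pos hX0, abs_of_pos hβ,
      abs_of_nonneg (Nat.cast_nonneg n)]
    have hs1 : |σ| = 1 := by rcases hσ with h | h <;> rw [h] <;> norm_num
    rw [hs1, mul_one]
  have hρa : |ρ| ≤ β := by
    rw [hρe, div_le_iff₀ hX0]
    have : (n : ℝ) ≤ X := by exact_mod_cast hn
    nlinarith
  have hρb : β ≤ 2 * |ρ| := by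
    rw [hρe, ← mul_div_assoc, le_div_iff₀ hX0]
    have : (X : ℝ) ≤ 2 * n := by exact_mod_cast hnX.le
    nlinarith
  have h2 := h0 q (hq q n) n rfl hd (cvf q MM1 a1 M1 r1 (tp K1 c1)) (cvf q MM2 a2 M2 r2 (tp K2 c2))
    Bd hBd0 hgm1 hgm2 (fun y t => (hgb1 y t).trans hMB1) (fun y t => (hgb2 y t).trans hMB2)
    α1 β1 α2 β2 hα1 hβ1 hα2 hβ2 hab1 hab2
    (C1 * Am ^ 2 * M1 * Nat.totient (hq q n)) (C1 * Am ^ 2 * M1 * M1)
    (C1 * Am ^ 2 * M2 * Nat.totient (hq q n)) (C1 * Am ^ 2 * M2 * M2)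
    ((1 / (Nat.totient q : ℝ)) *
        ∑ y ∈ univ.filter (fun y : ZMod q => IsUnit y), ∫ t in (0 : ℝ)..1,
          ‖Bt q (tp K1 c1) r1 y t‖ ^ 2)
    ((1 / (Nat.totient q : ℝ)) *
        ∑ y ∈ univ.filter (fun y : ZMod q => IsUnit y), ∫ t in (0 : ℝ)..1,
          ‖Bt q (tp K2 c2) r2 y t‖ ^ 2)
    (by positivity) (by positivity) (by positivity) (by positivity)
    (fun T hT χ k => (hcos1 T hT χ k).trans (le_of_eq (by ring)))
    (fun T hT χ k => (hcos2 T hT χ k).trans (le_of_eq (by ring)))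
    hsum1 hts1 hsum2 hts2 ρ J hJ (by linarith [abs_nonneg ρ])
  refine h2.trans ?_
  have hsu : ∀ (K : ℕ) (c : ℕ → ℂ) (r : ℝ), ∑ y ∈ univ.filter (fun y : ZMod q => IsUnit y),
      ∫ t in (0 : ℝ)..1, ‖Bt q (tp K c) r y t‖ ^ 2 = ∑ r' ∈ rr q, ∫ t in (0 : ℝ)..1,
    ‖tp K c ((r' : ℝ) / q + r * Real.exp (2 * Int.fract t))‖ ^ 2 := by
    intro K c r
    rw [← sum_units q (fun r' : ℕ => ∫ t in (0 : ℝ)..1,
      ‖tp K c ((r' : ℝ) / q + r * Real.exp (2 * Int.fract t))‖ ^ 2)]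
    rfl
  rw [hsu K1 c1 r1, hsu K2 c2 r2]
  set Z1 := ∑ r' ∈ rr q, ∫ t in (0 : ℝ)..1,
    ‖tp K1 c1 ((r' : ℝ) / q + r1 * Real.exp (2 * Int.fract t))‖ ^ 2 with hZ1
  set Z2 := ∑ r' ∈ rr q, ∫ t in (0 : ℝ)..1,
    ‖tp K2 c2 ((r' : ℝ) / q + r2 * Real.exp (2 * Int.fract t))‖ ^ 2 with hZ2
  have hZ10 : 0 ≤ Z1 := by
    rw [hZ1]
    refine Finset.sum_nonneg fun r' _ => ?_
    refine intervalIntegral.integral_nonneg (by norm_num) fun t _ => by positivity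
  have hZ20 : 0 ≤ Z2 := by
    rw [hZ2]
    refine Finset.sum_nonneg fun r' _ => ?_
    refine intervalIntegral.integral_nonneg (by norm_num) fun t _ => by positivity
  have hφ : (0 : ℝ) < Nat.totient q := by exact_mod_cast Nat.totient_pos.2 hq1
  have hφh : (0 : ℝ) < Nat.totient (hq q n) := by exact_mod_cast Nat.totient_pos.2 hh1
  have hφh' : (Nat.totient (hq q n) : ℝ) ≤ hq q n := by exact_mod_cast Nat.totient_le _
  have hh0 : (0 : ℝ) ≤ hq q n := Nat.cast_nonneg _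
  have e2 : (Nat.totient q : ℝ) * Real.sqrt (1 / (Nat.totient q : ℝ) * Z1 *
      (1 / (Nat.totient q : ℝ) * Z2)) = Real.sqrt Z1 * Real.sqrt Z2 := by
    have e3 : 1 / (Nat.totient q : ℝ) * Z1 * (1 / (Nat.totient q : ℝ) * Z2) =
        (1 / (Nat.totient q : ℝ)) ^ 2 * (Z1 * Z2) := by ring
    rw [e3, Real.sqrt_mul (by positivity), Real.sqrt_sq (by positivity), Real.sqrt_mul hZ10]
    field_simp
  have hp : (0 : ℝ) < 1 + |ρ| := by positivity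
  have hpb : (0 : ℝ) < 1 + β := by positivity
  have e3 : Real.sqrt ((C1 * Am ^ 2 * M1 * Nat.totient (hq q n) * (1 + |ρ|) + C1 * Am ^ 2 * M1 * M1) *
      (C1 * Am ^ 2 * M2 * Nat.totient (hq q n) * (1 + |ρ|) + C1 * Am ^ 2 * M2 * M2)) /
        Real.sqrt (1 + |ρ|) ≤
      2 * C1 * (Am ^ 2 * (Real.sqrt (M1 * (hq q n * (1 + β) + M1)) *
          Real.sqrt (M2 * (hq q n * (1 + β) + M2))) / Real.sqrt (1 + β)) := by
    have e4 : (C1 * Am ^ 2 * M1 * Nat.totient (hq q n) * (1 + |ρ|) + C1 * Am ^ 2 * M1 * M1) *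
      (C1 * Am ^ 2 * M2 * Nat.totient (hq q n) * (1 + |ρ|) + C1 * Am ^ 2 * M2 * M2) =
      (C1 * Am ^ 2) ^ 2 * ((M1 * (Nat.totient (hq q n) * (1 + |ρ|) + M1)) *
        (M2 * (Nat.totient (hq q n) * (1 + |ρ|) + M2))) := by ring
    rw [e4, Real.sqrt_mul (by positivity), Real.sqrt_sq (by positivity), Real.sqrt_mul (by positivity)]
    have m1 : ∀ M : ℝ, 1 ≤ M → Real.sqrt (M * (Nat.totient (hq q n) * (1 + |ρ|) + M)) ≤
        Real.sqrt (M * (hq q n * (1 + β) + M)) := by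
      intro M hM
      refine Real.sqrt_le_sqrt (mul_le_mul_of_nonneg_left (add_le_add ?_ le_rfl) (by linarith))
      exact mul_le_mul hφh' (by linarith) hp.le hh0
    have m2 : 1 / Real.sqrt (1 + |ρ|) ≤ 2 / Real.sqrt (1 + β) := by
      rw [div_le_div_iff₀ (Real.sqrt_pos.2 hp) (Real.sqrt_pos.2 hpb), one_mul]
      rw [Real.sqrt_le_left (by positivity), mul_pow, Real.sq_sqrt hp.le]
      linarith [abs_nonneg ρ]
    have hA2 : 0 ≤ C1 * Am ^ 2 := by positivity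
    calc C1 * Am ^ 2 * (Real.sqrt (M1 * (Nat.totient (hq q n) * (1 + |ρ|) + M1)) *
          Real.sqrt (M2 * (Nat.totient (hq q n) * (1 + |ρ|) + M2))) / Real.sqrt (1 + |ρ|)
        = C1 * Am ^ 2 * (Real.sqrt (M1 * (Nat.totient (hq q n) * (1 + |ρ|) + M1)) *
          Real.sqrt (M2 * (Nat.totient (hq q n) * (1 + |ρ|) + M2))) * (1 / Real.sqrt (1 + |ρ|)) := by
          ring
      _ ≤ C1 * Am ^ 2 * (Real.sqrt (M1 * (hq q n * (1 + β) + M1)) *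
          Real.sqrt (M2 * (hq q n * (1 + β) + M2))) * (2 / Real.sqrt (1 + β)) := by
          refine mul_le_mul (mul_le_mul_of_nonneg_left (mul_le_mul (m1 M1 hM1) (m1 M2 hM2)
            (Real.sqrt_nonneg _) (Real.sqrt_nonneg _)) hA2) m2 (by positivity) (by positivity)
      _ = _ := by ring
  have hlog : 0 ≤ Real.log J := Real.log_nonneg (by exact_mod_cast hJ)
  have hκ0 : 0 ≤ ltK (hq q n) := ltK_nonneg _
  set E := Am ^ 2 * (Real.sqrt (M1 * (hq q n * (1 + β) + M1)) *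
          Real.sqrt (M2 * (hq q n * (1 + β) + M2))) / Real.sqrt (1 + β) with hE
  have hE0 : 0 ≤ E := by positivity
  refine add_le_add ?_ ?_
  · have e5 : C0 * (1 + Real.log J) *
        (Real.sqrt ((hq q n : ℝ) * (hq q n).divisors.card) / Nat.totient (hq q n)) *
        Nat.totient q * Real.sqrt (1 / (Nat.totient q : ℝ) * Z1 * (1 / (Nat.totient q : ℝ) * Z2)) *
        Real.sqrt ((C1 * Am ^ 2 * M1 * Nat.totient (hq q n) * (1 + |ρ|) + C1 * Am ^ 2 * M1 * M1) *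
          (C1 * Am ^ 2 * M2 * Nat.totient (hq q n) * (1 + |ρ|) + C1 * Am ^ 2 * M2 * M2)) /
        Real.sqrt (1 + |ρ|) = (C0 * (1 + Real.log J) * ltK (hq q n) *
        (Nat.totient q * Real.sqrt (1 / (Nat.totient q : ℝ) * Z1 * (1 / (Nat.totient q : ℝ) * Z2)))) *
        (Real.sqrt ((C1 * Am ^ 2 * M1 * Nat.totient (hq q n) * (1 + |ρ|) + C1 * Am ^ 2 * M1 * M1) *
          (C1 * Am ^ 2 * M2 * Nat.totient (hq q n) * (1 + |ρ|) + C1 * Am ^ 2 * M2 * M2)) /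
        Real.sqrt (1 + |ρ|)) := by
      unfold ltK
      ring
    rw [e5, e2]
    have h4 : 0 ≤ C0 * (1 + Real.log J) * ltK (hq q n) * (Real.sqrt Z1 * Real.sqrt Z2) := by
      positivity
    refine (mul_le_mul_of_nonneg_left e3 h4).trans ?_
    nlinarith [mul_nonneg h4 hE0]
  · have h6 : 0 ≤ C0 * Nat.totient q * Bd ^ 2 / Real.sqrt J := by positivity
    have e7 : C0 * (1 + 2 * C1) * Nat.totient q * Bd ^ 2 / Real.sqrt J =
      (1 + 2 * C1) * (C0 * Nat.totient q * Bd ^ 2 / Real.sqrt J) := by ring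
    rw [e7]
    nlinarith


theorem h2_D : ∃ D : ℝ, 1 ≤ D ∧ ∀ h : ℕ, 1 ≤ h → ltK h ^ 4 * h ≤ D := by
  obtain ⟨D, hD, h6⟩ := lt_tau 6
  refine ⟨D, hD, fun h hh => ?_⟩
  have hh0 : (0 : ℝ) < h := by exact_mod_cast hh
  have h0 := ltK_sq h hh
  have h1 : ltK h ^ 4 ≤ ((h.divisors.card : ℝ) ^ 3 / h) ^ 2 := by
    calc ltK h ^ 4 = (ltK h ^ 2) ^ 2 := by ring
      _ ≤ _ := pow_le_pow_left₀ (by positivity) h0 2
  calc ltK h ^ 4 * h ≤ ((h.divisors.card : ℝ) ^ 3 / h) ^ 2 * h :=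
        mul_le_mul_of_nonneg_right h1 hh0.le
    _ = (h.divisors.card : ℝ) ^ 6 / h := by field_simp
    _ ≤ D := by rw [div_le_iff₀ hh0]; exact h6 h hh

theorem h2_num1 (κ T h H D : ℝ) (hκ : 0 ≤ κ) (hT : 1 ≤ T) (hh : 0 < h) (hH : 1 ≤ H) (hHT : H ≤ h * T)
    (hD : 1 ≤ D) (h4 : κ ^ 4 * h ≤ D) : κ / Real.sqrt T ≤ D * H ^ (-(1 / 4) : ℝ) := by
  have hT0 : 0 < T := by linarith
  have hH0 : 0 < H := by linarith
  have h1 : (κ / Real.sqrt T) ^ 4 ≤ D / H := by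
    have e1 : (κ / Real.sqrt T) ^ 4 = κ ^ 4 / T ^ 2 := by
      rw [div_pow, show Real.sqrt T ^ 4 = (Real.sqrt T ^ 2) ^ 2 by ring, Real.sq_sqrt hT0.le]
    rw [e1, div_le_div_iff₀ (by positivity) hH0]
    calc κ ^ 4 * H ≤ κ ^ 4 * (h * T) := mul_le_mul_of_nonneg_left hHT (by positivity)
      _ = (κ ^ 4 * h) * T := by ring
      _ ≤ D * T := mul_le_mul_of_nonneg_right h4 hT0.le
      _ ≤ D * T ^ 2 := mul_le_mul_of_nonneg_left (by nlinarith) (by linarith)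
  have h2 : (D * H ^ (-(1 / 4) : ℝ)) ^ 4 = D ^ 4 / H := by
    rw [mul_pow, ← Real.rpow_natCast (H ^ (-(1 / 4) : ℝ)) 4, ← Real.rpow_mul hH0.le]
    norm_num
    rw [Real.rpow_neg_one, div_eq_mul_inv]
  have h3 : (κ / Real.sqrt T) ^ 4 ≤ (D * H ^ (-(1 / 4) : ℝ)) ^ 4 := by
    rw [h2]
    refine h1.trans (div_le_div_of_nonneg_right ?_ hH0.le)
    calc D = D ^ 1 := (pow_one D).symm
      _ ≤ D ^ 4 := pow_le_pow_right₀ hD (by norm_num)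
  exact le_of_pow_le_pow_left₀ (by norm_num) (by positivity) h3



theorem h2_per (C X b β φ κ Z1 Z2 Am M1 M2 h L Bd JJ : ℝ) (hC : 0 < C) (hX : 1 ≤ X) (hb : 0 < b)
    (hβ1 : b ≤ β) (hβ2 : β ≤ 2 * b) (hbX : b ≤ X) 
    (hφ0 : 0 ≤ φ) (hφ : φ ≤ X) (hκ : 0 ≤ κ) (hM1 : 0 ≤ M1) (hM2 : 0 ≤ M2)
    (hh : 0 ≤ h) (hL : 1 ≤ L) (hBd : Bd = 8 * X ^ 4) (hJJ : JJ = X ^ 24) :
    β / X * (C * (1 + 24 * L) * κ * (Real.sqrt Z1 * Real.sqrt Z2) *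
        (Am ^ 2 * (Real.sqrt (M1 * (h * (1 + β) + M1)) * Real.sqrt (M2 * (h * (1 + β) + M2))) /
          Real.sqrt (1 + β)) + C * φ * Bd ^ 2 / Real.sqrt JJ) ≤
      50 * C * L * Am ^ 2 * (b / X) * (Real.sqrt Z1 * Real.sqrt Z2 * (κ / Real.sqrt (1 + b) *
        (Real.sqrt (M1 * (2 * (h * (1 + b)) + M1)) * Real.sqrt (M2 * (2 * (h * (1 + b)) + M2))))) +
      128 * C / X ^ 3 := by
  have hX0 : 0 < X := by linarith
  have hβ0 : 0 < β := by linarith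
  have e3 : Real.sqrt JJ = X ^ 12 := by
    rw [hJJ, show X ^ 24 = (X ^ 12) ^ 2 by ring, Real.sqrt_sq (by positivity)]
  have m1 : ∀ M : ℝ, 0 ≤ M → Real.sqrt (M * (h * (1 + β) + M)) ≤
      Real.sqrt (M * (2 * (h * (1 + b)) + M)) := by
    intro M hM
    refine Real.sqrt_le_sqrt (mul_le_mul_of_nonneg_left ?_ hM)
    have : h * (1 + β) ≤ h * (2 * (1 + b)) := mul_le_mul_of_nonneg_left (by linarith) hh
    linarith
  have m2 : 1 / Real.sqrt (1 + β) ≤ 1 / Real.sqrt (1 + b) :=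
    one_div_le_one_div_of_le (Real.sqrt_pos.2 (by linarith)) (Real.sqrt_le_sqrt (by linarith))
  have p1 : β / X * (C * (1 + 24 * L) * κ * (Real.sqrt Z1 * Real.sqrt Z2) *
        (Am ^ 2 * (Real.sqrt (M1 * (h * (1 + β) + M1)) * Real.sqrt (M2 * (h * (1 + β) + M2))) /
          Real.sqrt (1 + β))) ≤
      50 * C * L * Am ^ 2 * (b / X) * (Real.sqrt Z1 * Real.sqrt Z2 * (κ / Real.sqrt (1 + b) *
        (Real.sqrt (M1 * (2 * (h * (1 + b)) + M1)) *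
          Real.sqrt (M2 * (2 * (h * (1 + b)) + M2))))) := by
    calc β / X * (C * (1 + 24 * L) * κ * (Real.sqrt Z1 * Real.sqrt Z2) *
        (Am ^ 2 * (Real.sqrt (M1 * (h * (1 + β) + M1)) * Real.sqrt (M2 * (h * (1 + β) + M2))) /
          Real.sqrt (1 + β))) =
        (C * κ * (Real.sqrt Z1 * Real.sqrt Z2) * Am ^ 2) * (β / X * (1 + 24 * L)) *
          (Real.sqrt (M1 * (h * (1 + β) + M1)) * Real.sqrt (M2 * (h * (1 + β) + M2))) *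
          (1 / Real.sqrt (1 + β)) := by ring
      _ ≤ (C * κ * (Real.sqrt Z1 * Real.sqrt Z2) * Am ^ 2) * (50 * (b / X) * L) *
          (Real.sqrt (M1 * (2 * (h * (1 + b)) + M1)) *
            Real.sqrt (M2 * (2 * (h * (1 + b)) + M2))) * (1 / Real.sqrt (1 + b)) := by
          refine mul_le_mul (mul_le_mul (mul_le_mul_of_nonneg_left ?_ (by positivity))
            (mul_le_mul (m1 M1 hM1) (m1 M2 hM2) (by positivity) (by positivity))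
            (by positivity) (by positivity)) m2 (by positivity) (by positivity)
          calc β / X * (1 + 24 * L) ≤ (2 * b / X) * (25 * L) :=
                mul_le_mul (div_le_div_of_nonneg_right hβ2 hX0.le) (by linarith) (by positivity)
                  (by positivity)
            _ = 50 * (b / X) * L := by ring
      _ = _ := by ring
  have p2 : β / X * (C * φ * Bd ^ 2 / Real.sqrt JJ) ≤ 128 * C / X ^ 3 := by
    rw [e3, hBd]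
    calc β / X * (C * φ * (8 * X ^ 4) ^ 2 / X ^ 12) ≤ (2 * X) / X * (C * X * (8 * X ^ 4) ^ 2 / X ^ 12) := by
          refine mul_le_mul (div_le_div_of_nonneg_right (by linarith) hX0.le)
            (div_le_div_of_nonneg_right (mul_le_mul_of_nonneg_right
              (mul_le_mul_of_nonneg_left (by linarith) hC.le) (by positivity)) (by positivity))
            (by positivity) (by positivity)
      _ = 128 * C / X ^ 3 := by
          field_simp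
          ring
  rw [mul_add]
  exact add_le_add p1 p2

theorem h2_cs (QQ : Finset ℕ) (Z1 Z2 G : ℕ → ℝ) (G0 : ℝ) (h1 : ∀ q ∈ QQ, 0 ≤ Z1 q)
    (h2 : ∀ q ∈ QQ, 0 ≤ Z2 q) (hG : ∀ q ∈ QQ, G q ≤ G0) :
    ∑ q ∈ QQ, Real.sqrt (Z1 q) * Real.sqrt (Z2 q) * G q ≤
      Real.sqrt (∑ q ∈ QQ, Z1 q) * Real.sqrt (∑ q ∈ QQ, Z2 q) * max G0 0 := by
  have h3 := Real.sum_mul_le_sqrt_mul_sqrt QQ (fun q => Real.sqrt (Z1 q)) (fun q => Real.sqrt (Z2 q))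
  have e1 : ∑ q ∈ QQ, Real.sqrt (Z1 q) ^ 2 = ∑ q ∈ QQ, Z1 q :=
    Finset.sum_congr rfl fun q hq' => Real.sq_sqrt (h1 q hq')
  have e2 : ∑ q ∈ QQ, Real.sqrt (Z2 q) ^ 2 = ∑ q ∈ QQ, Z2 q :=
    Finset.sum_congr rfl fun q hq' => Real.sq_sqrt (h2 q hq')
  rw [e1, e2] at h3
  refine le_trans ?_ (mul_le_mul_of_nonneg_right h3 (le_max_right G0 0))
  rw [Finset.sum_mul]
  refine Finset.sum_le_sum fun q hq => ?_
  exact mul_le_mul_of_nonneg_left ((hG q hq).trans (le_max_left _ _)) (by positivity)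


theorem h2_num2 (κ T h τ3 x3 X δ L1 : ℝ) (hT : 1 ≤ T) (hX : 1 ≤ X)
    (hy : x3 = X ^ (1 / 3 : ℝ)) (h2 : κ ^ 2 * h ≤ τ3) (hτ : 0 ≤ τ3) (hh : 0 < h)
    (hhT : h * T ≤ X ^ (1 / 2 + 5 / 2 * δ) * L1) (h3 : τ3 * L1 * X ^ (5 / 2 * δ) ≤ X ^ (1 / 20 : ℝ)) :
    κ / Real.sqrt T * (h * T / x3) ≤ X ^ (-(1 / 20) : ℝ) := by
  have hT0 : 0 < T := by linarith
  have hX0 : 0 < X := by linarith
  have hy0 : 0 < x3 := by rw [hy]; positivity
  refine (abs_le_of_sq_le_sq ?_ (by positivity)).trans' (le_abs_self _)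
  have e1 : (κ / Real.sqrt T * (h * T / x3)) ^ 2 = (κ ^ 2 * h) * (h * T) / x3 ^ 2 := by
    rw [mul_pow, div_pow, Real.sq_sqrt hT0.le]
    field_simp
  have e2 : x3 ^ 2 = X ^ (2 / 3 : ℝ) := by
    rw [hy, ← Real.rpow_natCast, ← Real.rpow_mul hX0.le]
    norm_num
  have e3 : (X ^ (-(1 / 20) : ℝ)) ^ 2 = X ^ (-(1 / 10) : ℝ) := by
    rw [← Real.rpow_natCast, ← Real.rpow_mul hX0.le]
    norm_num
  rw [e1, e2, e3, div_le_iff₀ (by positivity), ← Real.rpow_add hX0]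
  have hXe : X ^ (1 / 2 + 5 / 2 * δ) = X ^ (1 / 2 : ℝ) * X ^ (5 / 2 * δ) := Real.rpow_add hX0 _ _
  calc κ ^ 2 * h * (h * T) ≤ τ3 * (X ^ (1 / 2 + 5 / 2 * δ) * L1) :=
        mul_le_mul h2 hhT (by positivity) hτ
    _ = X ^ (1 / 2 : ℝ) * (τ3 * L1 * X ^ (5 / 2 * δ)) := by rw [hXe]; ring
    _ ≤ X ^ (1 / 2 : ℝ) * X ^ (1 / 20 : ℝ) := mul_le_mul_of_nonneg_left h3 (by positivity)
    _ ≤ X ^ (-(1 / 10) + 2 / 3 : ℝ) := by
        rw [← Real.rpow_add hX0]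
        exact Real.rpow_le_rpow_of_exponent_le hX (by norm_num)

theorem h2_ev (A1 : ℕ) : ∃ X0 : ℕ, ∀ X : ℕ, X0 ≤ X → ∀ h : ℕ, 1 ≤ h → h ≤ X →
      ∀ δ : ℝ, δ ≤ 1 / 2000 →
      (h.divisors.card : ℝ) ^ 3 * (1 + (Real.log X) ^ (A1 : ℝ)) * (X : ℝ) ^ (5 / 2 * δ) ≤
        (X : ℝ) ^ (1 / 20 : ℝ) := by
  obtain ⟨D, hD, hk⟩ := lt_tau 300
  have h1 : ∀ᶠ x : ℝ in Filter.atTop, (Real.log x) ^ (A1 : ℝ) ≤ x ^ (1 / 400 : ℝ) := by
    have h := isLittleO_log_rpow_rpow_atTop (A1 : ℝ) (show (0 : ℝ) < 1 / 400 by norm_num)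
    filter_upwards [h.bound (show (0 : ℝ) < 1 by norm_num), Filter.eventually_ge_atTop (1 : ℝ)]
      with x hx hx1
    rw [Real.norm_of_nonneg (Real.rpow_nonneg (Real.log_nonneg hx1) _),
      Real.norm_of_nonneg (Real.rpow_nonneg (by linarith) _), one_mul] at hx
    exact hx
  have h2 : ∀ᶠ x : ℝ in Filter.atTop, 2 ≤ x ^ (1 / 400 : ℝ) :=
    (tendsto_rpow_atTop (show (0 : ℝ) < 1 / 400 by norm_num)).eventually_ge_atTop 2
  have h2' : ∀ᶠ x : ℝ in Filter.atTop, D ≤ x ^ (1 / 100 : ℝ) :=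
    (tendsto_rpow_atTop (show (0 : ℝ) < 1 / 100 by norm_num)).eventually_ge_atTop D
  have h3 := (h1.and h2).and (h2'.and (Filter.eventually_ge_atTop (1 : ℝ)))
  have h4 := tendsto_natCast_atTop_atTop (R := ℝ) |>.eventually h3
  obtain ⟨X0, hX0⟩ := Filter.eventually_atTop.1 h4
  refine ⟨X0, fun X hX h hh hhX δ hδ => ?_⟩
  obtain ⟨⟨h5, h6⟩, h7, h8⟩ := hX0 X hX
  have hXp : (0 : ℝ) < X := by linarith
  have hhX' : (h : ℝ) ≤ X := by exact_mod_cast hhX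
  have hh0 : (0 : ℝ) < h := by exact_mod_cast hh
  have hτ0 : (0 : ℝ) ≤ (h.divisors.card : ℝ) := Nat.cast_nonneg _
  have h9 : (h.divisors.card : ℝ) ^ 3 ≤ (X : ℝ) ^ (1 / 100 : ℝ) * (X : ℝ) ^ (1 / 100 : ℝ) := by
    calc (h.divisors.card : ℝ) ^ 3 = ((h.divisors.card : ℝ) ^ 300) ^ (1 / 100 : ℝ) := by
          rw [← Real.rpow_natCast, ← Real.rpow_natCast, ← Real.rpow_mul hτ0]
          norm_num
      _ ≤ (D * X) ^ (1 / 100 : ℝ) :=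
          Real.rpow_le_rpow (by positivity) ((hk h hh).trans
            (mul_le_mul_of_nonneg_left hhX' (by linarith))) (by norm_num)
      _ = D ^ (1 / 100 : ℝ) * (X : ℝ) ^ (1 / 100 : ℝ) := Real.mul_rpow (by linarith) hXp.le
      _ ≤ D ^ (1 : ℝ) * (X : ℝ) ^ (1 / 100 : ℝ) := by
          refine mul_le_mul_of_nonneg_right ?_ (by positivity)
          exact Real.rpow_le_rpow_of_exponent_le hD (by norm_num)
      _ ≤ _ := by
          rw [Real.rpow_one]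
          exact mul_le_mul_of_nonneg_right h7 (by positivity)
  have h10 : 1 + (Real.log X) ^ (A1 : ℝ) ≤ (X : ℝ) ^ (1 / 200 : ℝ) := by
    have e : (X : ℝ) ^ (1 / 200 : ℝ) = (X : ℝ) ^ (1 / 400 : ℝ) * (X : ℝ) ^ (1 / 400 : ℝ) := by
      rw [← Real.rpow_add hXp]
      norm_num
    rw [e]
    nlinarith
  have hL0 : 0 ≤ 1 + (Real.log X) ^ (A1 : ℝ) := by
    have : 0 ≤ (Real.log X) ^ (A1 : ℝ) := Real.rpow_nonneg (Real.log_nonneg h8) _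
    linarith
  have h11 : (X : ℝ) ^ (5 / 2 * δ) ≤ (X : ℝ) ^ (1 / 200 : ℝ) :=
    Real.rpow_le_rpow_of_exponent_le h8 (by linarith)
  calc (h.divisors.card : ℝ) ^ 3 * (1 + (Real.log X) ^ (A1 : ℝ)) * (X : ℝ) ^ (5 / 2 * δ)
      ≤ ((X : ℝ) ^ (1 / 100 : ℝ) * (X : ℝ) ^ (1 / 100 : ℝ)) * (X : ℝ) ^ (1 / 200 : ℝ) *
          (X : ℝ) ^ (1 / 200 : ℝ) :=
        mul_le_mul (mul_le_mul h9 h10 hL0 (by positivity)) h11 (by positivity) (by positivity)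
    _ = (X : ℝ) ^ (3 / 100 : ℝ) := by
        rw [← Real.rpow_add hXp, ← Real.rpow_add hXp, ← Real.rpow_add hXp]
        norm_num
    _ ≤ (X : ℝ) ^ (1 / 20 : ℝ) := Real.rpow_le_rpow_of_exponent_le h8 (by norm_num)

/-- numerical step: one factor -/
theorem h2_num3 (x3 Y b N M S V hT Λ : ℝ) (hx3 : 0 < x3) (hY : 0 < Y) (hb : 0 < b) (hN : 0 ≤ N)
    (hM1 : x3 ≤ M) (hNM : N * b * M ≤ Y) (hNb : N * b * x3 ≤ Y) (hS : 0 ≤ S) (hT0 : 0 ≤ hT)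
    (hΛ : 0 ≤ Λ) (hV : V ≤ Λ * (8 * N + Y / (M * b)) * (S * Y / M)) :
    (M * (2 * hT + M)) * V ≤ Λ * (S * Y ^ 2 / b * (9 + 18 * (hT / x3))) := by
  have hM : 0 < M := lt_of_lt_of_le hx3 hM1
  have h1 : (M * (2 * hT + M)) * V ≤
      (M * (2 * hT + M)) * (Λ * (8 * N + Y / (M * b)) * (S * Y / M)) :=
    mul_le_mul_of_nonneg_left hV (by positivity)
  refine h1.trans ?_
  have e1 : (M * (2 * hT + M)) * (Λ * (8 * N + Y / (M * b)) * (S * Y / M)) =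
      Λ * (S * Y / b * (16 * (N * b) * hT + 8 * ((N * b) * M) + 2 * hT * (Y / M) + Y)) := by
    field_simp
    ring
  rw [e1]
  have e2 : S * Y ^ 2 / b * (9 + 18 * (hT / x3)) =
      S * Y / b * (16 * (Y / x3) * hT + 8 * Y + 2 * hT * (Y / x3) + Y) := by
    field_simp
    ring
  rw [e2]
  refine mul_le_mul_of_nonneg_left (mul_le_mul_of_nonneg_left ?_ (by positivity)) hΛ
  have h2 : N * b ≤ Y / x3 := by rwa [le_div_iff₀ hx3]
  have h4 : Y / M ≤ Y / x3 := div_le_div_of_nonneg_left hY.le hx3 hM1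
  have h5 : 16 * (N * b) * hT ≤ 16 * (Y / x3) * hT :=
    mul_le_mul_of_nonneg_right (by linarith) hT0
  have h6 : 2 * hT * (Y / M) ≤ 2 * hT * (Y / x3) :=
    mul_le_mul_of_nonneg_left h4 (by linarith)
  linarith


theorem h2_cs2 (QQ : Finset ℕ) (Z1 Z2 G : ℕ → ℝ) (V1 V2 E : ℝ) (h1 : ∀ q ∈ QQ, 0 ≤ Z1 q)
    (h2 : ∀ q ∈ QQ, 0 ≤ Z2 q) (hG0 : ∀ q ∈ QQ, 0 ≤ G q) (hV1 : ∑ q ∈ QQ, Z1 q ≤ V1)
    (hV2 : ∑ q ∈ QQ, Z2 q ≤ V2) (hE : 0 ≤ E)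
    (hG : ∀ q ∈ QQ, Real.sqrt V1 * Real.sqrt V2 * G q ≤ E) :
    ∑ q ∈ QQ, Real.sqrt (Z1 q) * Real.sqrt (Z2 q) * G q ≤ E := by
  rcases QQ.eq_empty_or_nonempty with h | h
  · subst h
    simpa using hE
  obtain ⟨q0, hq0, hmax⟩ := Finset.exists_max_image QQ G h
  have h3 := Real.sum_mul_le_sqrt_mul_sqrt QQ (fun q => Real.sqrt (Z1 q)) (fun q => Real.sqrt (Z2 q))
  have e1 : ∑ q ∈ QQ, Real.sqrt (Z1 q) ^ 2 = ∑ q ∈ QQ, Z1 q :=
    Finset.sum_congr rfl fun q hq' => Real.sq_sqrt (h1 q hq')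
  have e2 : ∑ q ∈ QQ, Real.sqrt (Z2 q) ^ 2 = ∑ q ∈ QQ, Z2 q :=
    Finset.sum_congr rfl fun q hq' => Real.sq_sqrt (h2 q hq')
  rw [e1, e2] at h3
  have h4 : ∑ q ∈ QQ, Real.sqrt (Z1 q) * Real.sqrt (Z2 q) ≤ Real.sqrt V1 * Real.sqrt V2 :=
    h3.trans (mul_le_mul (Real.sqrt_le_sqrt hV1) (Real.sqrt_le_sqrt hV2) (Real.sqrt_nonneg _)
      (Real.sqrt_nonneg _))
  calc ∑ q ∈ QQ, Real.sqrt (Z1 q) * Real.sqrt (Z2 q) * G q
      ≤ ∑ q ∈ QQ, Real.sqrt (Z1 q) * Real.sqrt (Z2 q) * G q0 :=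
        Finset.sum_le_sum fun q hq => mul_le_mul_of_nonneg_left (hmax q hq) (by positivity)
    _ = (∑ q ∈ QQ, Real.sqrt (Z1 q) * Real.sqrt (Z2 q)) * G q0 := by rw [Finset.sum_mul]
    _ ≤ Real.sqrt V1 * Real.sqrt V2 * G q0 := mul_le_mul_of_nonneg_right h4 (hG0 q0 hq0)
    _ ≤ E := hG q0 hq0

theorem h2_cq_norm (q K : ℕ) (c : ℕ → ℂ) :
    ∑ k ∈ Icc 1 K, ‖cq q c k‖ ^ 2 ≤ ∑ k ∈ Icc 1 K, ‖c k‖ ^ 2 := by
  refine Finset.sum_le_sum fun k _ => ?_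
  unfold cq
  split_ifs
  · exact le_rfl
  · simp

theorem two_two_h : ∃ C : ℝ, 0 < C ∧ ∀ (δ : ℝ) (A1 : ℕ), 0 < δ → δ ≤ 1 / 2000 → ∃ X0 : ℕ,
    ∀ X : ℕ, X0 ≤ X → ∀ (n : ℕ) (b N σ : ℝ) (QQ : Finset ℕ) (bq : ℕ → ℝ),
    StdH X n δ A1 b N σ QQ bq → ∀ H : ℝ, 1 ≤ H → (∀ q ∈ QQ, H ≤ (hq q n : ℝ) * (1 + b)) →
    ∀ (M1 M2 Am S : ℝ) (K1 K2 : ℕ) (MM1 MM2 : Finset ℕ) (a1 a2 c1 c2 : ℕ → ℂ),
    0 ≤ Am → Am ≤ X → 0 ≤ S → S ≤ X → BlkH X δ M1 K1 MM1 a1 c1 Am S →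
    BlkH X δ M2 K2 MM2 a2 c2 Am S →
    ∑ q ∈ QQ, ‖Bq X (bq q) σ n q (f2f MM1 a1 (tp K1 (cq q c1)) σ q)
        (f2f MM2 a2 (tp K2 (cq q c2)) σ q)‖ ≤
      C * (Real.log X) ^ 3 * Am ^ 2 * S * X * (H ^ (-(1 / 4) : ℝ) + (X : ℝ) ^ (-(1 / 20) : ℝ)) +
        1 := by
  obtain ⟨C, hC, h1⟩ := h2_one
  obtain ⟨D, hD, h4⟩ := h2_D
  refine ⟨600 * C * (9 * D + 18), by positivity, ?_⟩
  intro δ A1 hδ hδ'
  obtain ⟨X0, hX0⟩ := lt_ev A1 C
  obtain ⟨X1, hX1⟩ := h2_ev A1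
  refine ⟨max X0 X1, ?_⟩
  intro X hX n b N σ QQ bq hstd H hH hHq M1 M2 Am S K1 K2 MM1 MM2 a1 a2 c1 c2 hAm hAmX hS hSX
    hblk1 hblk2
  obtain ⟨h2n, hnX, hσ, hbA, hN1, hNb, hFam, -, hbq⟩ := hstd
  obtain ⟨hM11, hM12, hK1, hMM1, ha1, hc1⟩ := hblk1
  obtain ⟨hM21, hM22, hK2, hMM2, ha2, hc2⟩ := hblk2
  obtain ⟨hX16, hL1, hLA, hXC⟩ := hX0 X ((le_max_left _ _).trans hX)
  have hτ := hX1 X ((le_max_right _ _).trans hX)
  have hX16' : (16 : ℝ) ≤ X := by exact_mod_cast hX16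
  have hXp : (0 : ℝ) < X := by linarith
  have hX1 : 1 ≤ X := by omega
  have hX1' : (1 : ℝ) ≤ X := by linarith
  obtain ⟨x3, hx3⟩ : ∃ x : ℝ, x = (X : ℝ) ^ (1 / 3 : ℝ) := ⟨_, rfl⟩
  rw [← hx3] at hM11 hM21
  have hx30 : 0 < x3 := by rw [hx3]; positivity
  have hx31 : 1 ≤ x3 := by rw [hx3]; exact Real.one_le_rpow hX1' (by norm_num)
  have hb0 : 0 < b := lt_of_lt_of_le (Real.rpow_pos_of_pos (by linarith) _) hbA
  have hN0 : 0 ≤ N := by linarith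
  have hNbx : N * b * x3 ≤ X := by
    calc N * b * x3 ≤ (X : ℝ) ^ (1 / 2 + 5 / 2 * δ) * (X : ℝ) ^ (1 / 3 : ℝ) := by
          rw [hx3]
          exact mul_le_mul_of_nonneg_right hNb (by positivity)
      _ = (X : ℝ) ^ (1 / 2 + 5 / 2 * δ + 1 / 3) := (Real.rpow_add hXp _ _).symm
      _ ≤ (X : ℝ) ^ (1 : ℝ) := Real.rpow_le_rpow_of_exponent_le hX1' (by linarith)
      _ = X := Real.rpow_one _
  have hNbM : ∀ M : ℝ, M ≤ (X : ℝ) ^ (1 / 2 - 3 * δ) → 0 ≤ M → N * b * M ≤ X := by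
    intro M hM hM0
    calc N * b * M ≤ (X : ℝ) ^ (1 / 2 + 5 / 2 * δ) * (X : ℝ) ^ (1 / 2 - 3 * δ) :=
          mul_le_mul hNb hM hM0 (by positivity)
      _ = (X : ℝ) ^ (1 / 2 + 5 / 2 * δ + (1 / 2 - 3 * δ)) := (Real.rpow_add hXp _ _).symm
      _ ≤ (X : ℝ) ^ (1 : ℝ) := Real.rpow_le_rpow_of_exponent_le hX1' (by linarith)
      _ = X := Real.rpow_one _
  have hNb3 : N * b ≤ (X : ℝ) ^ (51 / 100 : ℝ) :=
    hNb.trans (Real.rpow_le_rpow_of_exponent_le hX1' (by linarith))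
  have hLA0 : 0 ≤ (Real.log X) ^ (A1 : ℝ) := Real.rpow_nonneg (by linarith) _
  have hNbL : N ≤ (N * b) * (Real.log X) ^ (A1 : ℝ) := by
    have h2 : 1 ≤ b * (Real.log X) ^ (A1 : ℝ) := by
      have h3 : (0 : ℝ) < (Real.log X) ^ (A1 : ℝ) := Real.rpow_pos_of_pos (by linarith) _
      have h4 := mul_le_mul_of_nonneg_right hbA h3.le
      rwa [Real.rpow_neg (by linarith), inv_mul_cancel₀ h3.ne'] at h4
    calc N = N * 1 := (mul_one N).symm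
      _ ≤ N * (b * (Real.log X) ^ (A1 : ℝ)) := mul_le_mul_of_nonneg_left h2 (by linarith)
      _ = (N * b) * (Real.log X) ^ (A1 : ℝ) := by ring
  have hNX : N ≤ X := by
    have h5 := hτ 1 le_rfl hX1 0 (by norm_num)
    simp only [Nat.divisors_one, Finset.card_singleton, Nat.cast_one, one_pow, one_mul, mul_zero,
      Real.rpow_zero, mul_one] at h5
    calc N ≤ (N * b) * (Real.log X) ^ (A1 : ℝ) := hNbL
      _ ≤ (X : ℝ) ^ (51 / 100 : ℝ) * (X : ℝ) ^ (1 / 20 : ℝ) :=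
          mul_le_mul hNb3 (by linarith) hLA0 (by positivity)
      _ = (X : ℝ) ^ (51 / 100 + 1 / 20 : ℝ) := (Real.rpow_add hXp _ _).symm
      _ ≤ (X : ℝ) ^ (1 : ℝ) := Real.rpow_le_rpow_of_exponent_le hX1' (by norm_num)
      _ = X := Real.rpow_one _
  have hbX : b ≤ X := by
    have h5 : (X : ℝ) ^ (51 / 100 : ℝ) ≤ (X : ℝ) ^ (1 : ℝ) :=
      Real.rpow_le_rpow_of_exponent_le hX1' (by norm_num)
    rw [Real.rpow_one] at h5
    nlinarith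
  have hM1 : 1 ≤ M1 := hx31.trans hM11
  have hM2 : 1 ≤ M2 := hx31.trans hM21
  have hMX : ∀ M : ℝ, M ≤ (X : ℝ) ^ (1 / 2 - 3 * δ) → M ≤ X := by
    intro M hM
    refine hM.trans ?_
    have h5 : (X : ℝ) ^ (1 / 2 - 3 * δ) ≤ (X : ℝ) ^ (1 : ℝ) :=
      Real.rpow_le_rpow_of_exponent_le hX1' (by linarith)
    rwa [Real.rpow_one] at h5
  have hqq : ∀ q ∈ QQ, 1 ≤ q ∧ q ≤ X := by
    intro q hqm
    refine ⟨hFam.1 q hqm, ?_⟩
    have h2 := hFam.2 q hqm q hqm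
    rw [Nat.lcm_self] at h2
    exact_mod_cast h2.trans hNX
  -- bound of the inner polynomial
  have hBs : ∀ (M : ℝ) (K : ℕ) (c : ℕ → ℂ), 1 ≤ M → K ≤ X →
      ∑ k ∈ Icc 1 K, ‖c k‖ ^ 2 ≤ S * X / M → ∀ x, ‖tp K c x‖ ≤ 2 * (X : ℝ) ^ 2 := by
    intro M K c hM hK hc x
    unfold tp
    refine (norm_sum_le _ _).trans ?_
    have h2 : ∀ k ∈ Icc 1 K, ‖c k * ee ((k : ℝ) * x)‖ ≤ 1 + ‖c k‖ ^ 2 := by
      intro k _
      have h3 : ‖ee ((k : ℝ) * x)‖ = 1 := by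
        unfold ee
        rw [Complex.norm_exp]
        simp
      rw [norm_mul, h3, mul_one]
      nlinarith [sq_nonneg (‖c k‖ - 1), norm_nonneg (c k)]
    refine (Finset.sum_le_sum h2).trans ?_
    rw [Finset.sum_add_distrib]
    have h5 : ∑ _k ∈ Icc 1 K, (1 : ℝ) ≤ X := by
      simp only [Finset.sum_const, Nat.card_Icc, nsmul_eq_mul, mul_one]
      have : K + 1 - 1 = K := by omega
      rw [this]
      exact_mod_cast hK
    have h6 : S * X / M ≤ X ^ 2 := by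
      rw [div_le_iff₀ (by linarith)]
      nlinarith
    nlinarith [hc.trans h6]
  -- the masses
  obtain ⟨Z, hZ⟩ : ∃ Z : ℝ → ℕ → (ℕ → ℂ) → ℕ → ℝ, Z = fun M K c q => ∑ r ∈ rr q,
    ∫ t in (0 : ℝ)..1,
    ‖tp K (cq q c) ((r : ℝ) / q + σ * (M * (bq q / X)) * Real.exp (2 * Int.fract t))‖ ^ 2 :=
    ⟨_, rfl⟩
  have hZ0 : ∀ (M : ℝ) (K : ℕ) (c : ℕ → ℂ), ∀ q ∈ QQ, 0 ≤ Z M K c q := by
    intro M K c q _
    rw [hZ]
    refine Finset.sum_nonneg fun r _ => ?_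
    refine intervalIntegral.integral_nonneg (by norm_num) fun t _ => by positivity
  obtain ⟨Λ, hΛ⟩ : ∃ Λ : ℝ, Λ = 12 * (Real.log X) ^ 2 := ⟨_, rfl⟩
  have hΛ0 : 0 ≤ Λ := by rw [hΛ]; positivity
  have hlogN : 3 * (1 + Real.log N) ^ 2 ≤ Λ := by
    have h5 : Real.log N ≤ Real.log X := Real.log_le_log (by linarith) hNX
    have h6 : 0 ≤ Real.log N := Real.log_nonneg hN1
    have h7 : (1 + Real.log N) ^ 2 ≤ (2 * Real.log X) ^ 2 :=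
      pow_le_pow_left₀ (by linarith) (by linarith) 2
    rw [hΛ]
    nlinarith
  have hZs : ∀ (M : ℝ) (K : ℕ) (c : ℕ → ℂ), 1 ≤ M →
      ∑ k ∈ Icc 1 K, ‖c k‖ ^ 2 ≤ S * X / M →
      ∑ q ∈ QQ, Z M K c q ≤ Λ * (8 * N + X / (M * b)) * (S * X / M) := by
    intro M K c hM hc
    have h2 := bmass_c X hX1 b N σ M hb0 hN1 (by linarith) hσ QQ hFam bq hbq K c
    rw [hZ]
    refine h2.trans ?_
    have hc0 : 0 ≤ ∑ k ∈ Icc 1 K, ‖c k‖ ^ 2 := Finset.sum_nonneg fun k _ => by positivity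
    have h5 : 0 ≤ 8 * N + X / (M * b) := by positivity
    exact mul_le_mul (mul_le_mul_of_nonneg_right hlogN h5) hc hc0 (by positivity)
  -- the bound for one modulus
  have hper : ∀ q ∈ QQ,
      ‖Bq X (bq q) σ n q (f2f MM1 a1 (tp K1 (cq q c1)) σ q)
        (f2f MM2 a2 (tp K2 (cq q c2)) σ q)‖ ≤
      50 * C * Real.log X * Am ^ 2 * (b / X) * (Real.sqrt (Z M1 K1 c1 q) *
        Real.sqrt (Z M2 K2 c2 q) * (ltK (hq q n) / Real.sqrt (1 + b) *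
        (Real.sqrt (M1 * (2 * (hq q n * (1 + b)) + M1)) *
          Real.sqrt (M2 * (2 * (hq q n * (1 + b)) + M2))))) + 128 * C / (X : ℝ) ^ 3 := by
    intro q hqm
    obtain ⟨hq1, hqX⟩ := hqq q hqm
    have hqX' : (q : ℝ) ≤ X := by exact_mod_cast hqX
    have : NeZero q := ⟨by omega⟩
    have hβ := hbq q hqm
    have hMB : ∀ M : ℝ, 1 ≤ M → M ≤ (X : ℝ) ^ (1 / 2 - 3 * δ) →
        2 * M * Am * (2 * (X : ℝ) ^ 2) ≤ 8 * (X : ℝ) ^ 4 := by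
      intro M hM hM'
      have hMX' := hMX M hM'
      calc 2 * M * Am * (2 * (X : ℝ) ^ 2) ≤ 2 * (2 * X) * X * (2 * (X : ℝ) ^ 2) := by
            refine mul_le_mul_of_nonneg_right (mul_le_mul (by linarith) hAmX hAm (by linarith))
              (by positivity)
        _ = 8 * (X : ℝ) ^ 4 := by ring
    have h2 := h1 X n q (bq q) σ hX1 hnX h2n (by linarith) hσ M1 M2 Am K1 K2 MM1 MM2 a1 a2
      (cq q c1) (cq q c2)
      hM1 hM2 hAm hMM1 hMM2 ha1 ha2 (2 * (X : ℝ) ^ 2) (8 * (X : ℝ) ^ 4) (X ^ 24)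
      (hBs M1 K1 (cq q c1) hM1 hK1 ((h2_cq_norm q K1 c1).trans hc1))
      (hBs M2 K2 (cq q c2) hM2 hK2 ((h2_cq_norm q K2 c2).trans hc2)) (hMB M1 hM1 hM12)
      (hMB M2 hM2 hM22)
      (Nat.one_le_pow _ _ hX1)
      (by
        have h3 : bq q ≤ 2 * X := by linarith [hβ.2]
        have h5 : (16 : ℝ) * X ≤ X ^ 24 := by
          calc (16 : ℝ) * X ≤ X * X := by nlinarith
            _ = X ^ 2 := by ring
            _ ≤ X ^ 24 := pow_le_pow_right₀ hX1' (by norm_num)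
        push_cast
        linarith)
    refine h2.trans ?_
    have hlogJ : Real.log ((X ^ 24 : ℕ) : ℝ) = 24 * Real.log X := by
      push_cast
      rw [Real.log_pow]
      norm_num
    rw [hlogJ]
    have h3 := h2_per C X b (bq q) (Nat.totient q) (ltK (hq q n)) (Z M1 K1 c1 q) (Z M2 K2 c2 q)
      Am M1 M2 (hq q n) (Real.log X) (8 * (X : ℝ) ^ 4) ((X ^ 24 : ℕ) : ℝ) hC hX1' hb0 hβ.1 hβ.2 hbX
      (Nat.cast_nonneg _) (le_trans (by exact_mod_cast Nat.totient_le q) hqX') (ltK_nonneg _)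
      (by linarith) (by linarith)
      (Nat.cast_nonneg _) hL1 rfl (by push_cast; ring)
    rw [hZ] at h3 ⊢
    exact h3
  have hh1 : ∀ q ∈ QQ, 1 ≤ hq q n ∧ hq q n ≤ X := by
    intro q hqm
    obtain ⟨hq1, hqX⟩ := hqq q hqm
    unfold hq
    exact ⟨Nat.div_pos (Nat.le_of_dvd hq1 (Nat.gcd_dvd_left q n))
      (Nat.gcd_pos_of_pos_left _ hq1), (Nat.div_le_self _ _).trans hqX⟩
  refine (Finset.sum_le_sum hper).trans ?_
  rw [Finset.sum_add_distrib]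
  have htail : ∑ _q ∈ QQ, 128 * C / (X : ℝ) ^ 3 ≤ 1 := by
    rw [Finset.sum_const, nsmul_eq_mul]
    have hcard : (QQ.card : ℝ) ≤ X := by
      have : QQ.card ≤ X := by
        calc QQ.card ≤ (Icc 1 X).card := Finset.card_le_card fun q hqm => Finset.mem_Icc.2 (hqq q hqm)
          _ = X := by simp
      exact_mod_cast this
    calc (QQ.card : ℝ) * (128 * C / (X : ℝ) ^ 3) ≤ X * (128 * C / (X : ℝ) ^ 3) :=
          mul_le_mul_of_nonneg_right hcard (by positivity)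
      _ = 128 * C / X ^ 2 := by field_simp
      _ ≤ 1 := by
          rw [div_le_one (by positivity)]
          nlinarith
  refine add_le_add ?_ htail
  rw [← Finset.mul_sum]
  obtain ⟨V1, hV1⟩ : ∃ V : ℝ, V = Λ * (8 * N + X / (M1 * b)) * (S * X / M1) := ⟨_, rfl⟩
  obtain ⟨V2, hV2⟩ : ∃ V : ℝ, V = Λ * (8 * N + X / (M2 * b)) * (S * X / M2) := ⟨_, rfl⟩
  have hM10 : 0 < M1 := by linarith
  have hM20 : 0 < M2 := by linarith
  have hV10 : 0 ≤ V1 := by rw [hV1]; positivity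
  have hV20 : 0 ≤ V2 := by rw [hV2]; positivity
  have hη : 0 < H ^ (-(1 / 4) : ℝ) + (X : ℝ) ^ (-(1 / 20) : ℝ) := by
    have : 0 < H := by linarith
    positivity
  -- one modulus, with the masses bounded
  have hG : ∀ q ∈ QQ, Real.sqrt V1 * Real.sqrt V2 * (ltK (hq q n) / Real.sqrt (1 + b) *
        (Real.sqrt (M1 * (2 * (hq q n * (1 + b)) + M1)) *
          Real.sqrt (M2 * (2 * (hq q n * (1 + b)) + M2)))) ≤
      Λ * (S * (X : ℝ) ^ 2 / b) *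
        ((9 * D + 18) * (H ^ (-(1 / 4) : ℝ) + (X : ℝ) ^ (-(1 / 20) : ℝ))) := by
    intro q hqm
    obtain ⟨hh1', hhX⟩ := hh1 q hqm
    have hh0 : (0 : ℝ) < hq q n := by exact_mod_cast hh1'
    have hhT0 : 0 ≤ (hq q n : ℝ) * (1 + b) := by positivity
    have n1 := h2_num3 x3 X b N M1 S V1 (hq q n * (1 + b)) Λ hx30 hXp hb0 hN0 hM11
      (hNbM M1 hM12 hM10.le) hNbx hS hhT0 hΛ0 hV1.le
    have n2 := h2_num3 x3 X b N M2 S V2 (hq q n * (1 + b)) Λ hx30 hXp hb0 hN0 hM21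
      (hNbM M2 hM22 hM20.le) hNbx hS hhT0 hΛ0 hV2.le
    obtain ⟨E, hE⟩ : ∃ E : ℝ, E = Λ * (S * (X : ℝ) ^ 2 / b *
      (9 + 18 * (hq q n * (1 + b) / x3))) := ⟨_, rfl⟩
    rw [← hE] at n1 n2
    have hE0 : 0 ≤ E := by rw [hE]; positivity
    have s1 : Real.sqrt V1 * Real.sqrt (M1 * (2 * (hq q n * (1 + b)) + M1)) ≤ Real.sqrt E := by
      rw [← Real.sqrt_mul hV10]
      exact Real.sqrt_le_sqrt (by linarith)
    have s2 : Real.sqrt V2 * Real.sqrt (M2 * (2 * (hq q n * (1 + b)) + M2)) ≤ Real.sqrt E := by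
      rw [← Real.sqrt_mul hV20]
      exact Real.sqrt_le_sqrt (by linarith)
    have s3 : (Real.sqrt V1 * Real.sqrt (M1 * (2 * (hq q n * (1 + b)) + M1))) *
        (Real.sqrt V2 * Real.sqrt (M2 * (2 * (hq q n * (1 + b)) + M2))) ≤ E := by
      calc _ ≤ Real.sqrt E * Real.sqrt E := mul_le_mul s1 s2 (by positivity) (by positivity)
        _ = E := Real.mul_self_sqrt hE0
    have t1 := h2_num1 (ltK (hq q n)) (1 + b) (hq q n) H D (ltK_nonneg _) (by linarith) hh0 hH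
      (hHq q hqm) hD (h4 _ hh1')
    have hκ3 := ltK_sq (hq q n) hh1'
    rw [le_div_iff₀ hh0] at hκ3
    have t2 := h2_num2 (ltK (hq q n)) (1 + b) (hq q n) ((hq q n).divisors.card ^ 3) x3 X δ
      (1 + (Real.log X) ^ (A1 : ℝ)) (by linarith) hX1' hx3 hκ3
      (by positivity) hh0 (by
        have hhq : (hq q n : ℝ) ≤ N := by
          have h5 := hFam.2 q hqm q hqm
          rw [Nat.lcm_self] at h5
          have h6 : hq q n ≤ q := Nat.div_le_self _ _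
          have h6' : (hq q n : ℝ) ≤ q := by exact_mod_cast h6
          linarith
        calc (hq q n : ℝ) * (1 + b) ≤ N * (1 + b) := mul_le_mul_of_nonneg_right hhq (by linarith)
          _ = N + N * b := by ring
          _ ≤ (N * b) * (Real.log X) ^ (A1 : ℝ) + N * b := by linarith
          _ = (N * b) * (1 + (Real.log X) ^ (A1 : ℝ)) := by ring
          _ ≤ _ := mul_le_mul_of_nonneg_right hNb (by linarith)) (hτ _ hh1' hhX δ hδ')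
    have hκT : 0 ≤ ltK (hq q n) / Real.sqrt (1 + b) := div_nonneg (ltK_nonneg _) (Real.sqrt_nonneg _)
    calc Real.sqrt V1 * Real.sqrt V2 * (ltK (hq q n) / Real.sqrt (1 + b) *
        (Real.sqrt (M1 * (2 * (hq q n * (1 + b)) + M1)) *
          Real.sqrt (M2 * (2 * (hq q n * (1 + b)) + M2)))) =
        ltK (hq q n) / Real.sqrt (1 + b) *
        ((Real.sqrt V1 * Real.sqrt (M1 * (2 * (hq q n * (1 + b)) + M1))) *
        (Real.sqrt V2 * Real.sqrt (M2 * (2 * (hq q n * (1 + b)) + M2)))) := by ring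
      _ ≤ ltK (hq q n) / Real.sqrt (1 + b) * E := mul_le_mul_of_nonneg_left s3 hκT
      _ = Λ * (S * (X : ℝ) ^ 2 / b) * (9 * (ltK (hq q n) / Real.sqrt (1 + b)) +
          18 * (ltK (hq q n) / Real.sqrt (1 + b) * (hq q n * (1 + b) / x3))) := by
          rw [hE]; ring
      _ ≤ Λ * (S * (X : ℝ) ^ 2 / b) *
          ((9 * D + 18) * (H ^ (-(1 / 4) : ℝ) + (X : ℝ) ^ (-(1 / 20) : ℝ))) := by
          refine mul_le_mul_of_nonneg_left ?_ (by positivity)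
          have hH4 : 0 ≤ H ^ (-(1 / 4) : ℝ) := Real.rpow_nonneg (by linarith) _
          have hX8 : 0 ≤ (X : ℝ) ^ (-(1 / 20) : ℝ) := by positivity
          have : 0 ≤ D := by linarith
          nlinarith [mul_nonneg this hX8]
  have hcs := h2_cs2 QQ (Z M1 K1 c1) (Z M2 K2 c2) (fun q => ltK (hq q n) / Real.sqrt (1 + b) *
        (Real.sqrt (M1 * (2 * (hq q n * (1 + b)) + M1)) *
          Real.sqrt (M2 * (2 * (hq q n * (1 + b)) + M2)))) V1 V2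
      (Λ * (S * (X : ℝ) ^ 2 / b) *
        ((9 * D + 18) * (H ^ (-(1 / 4) : ℝ) + (X : ℝ) ^ (-(1 / 20) : ℝ))))
      (hZ0 M1 K1 c1) (hZ0 M2 K2 c2)
      (fun q _ => mul_nonneg (div_nonneg (ltK_nonneg _) (Real.sqrt_nonneg _)) (by positivity))
      (by rw [hV1]; exact hZs M1 K1 c1 hM1 hc1) (by rw [hV2]; exact hZs M2 K2 c2 hM2 hc2)
      (by positivity) hG
  have hc0 : 0 ≤ 50 * C * Real.log X * Am ^ 2 * (b / X) := by
    have : 0 ≤ Real.log X := by linarith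
    positivity
  refine (mul_le_mul_of_nonneg_left hcs hc0).trans (le_of_eq ?_)
  rw [hΛ]
  field_simp
  ring

end Pool.MP_dd84fd_nt.HXP
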