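import Pool.Agent.Lib.MP_dd84fd_nt.HX.PlArc
import Pool.Agent.Lib.MP_dd84fd_nt.HX.PlTwo
import Pool.Agent.Lib.MP_dd84fd_nt.HX.PlLam
import Pool.Agent.Lib.MP_dd84fd_nt.PL.LamLam
import Pool.Agent.Lib.MP_dd84fd_nt.PL.DivSum

/-!
# PL_H-Sig: the pointwise lemma PL_H, one side of the arcs

Copy of `PL.pl_sigma` (`PL/PlSigma.lean`) with `arc_h`, `two_two_h`, `lam_two_h`, `PL.lam_lam`, `PL.div_sum`, `WH_l2` + `N2_tp`
(`N2(WHa) ≤ 4 X L^3`).  `AE = 2A + 10`, `C = C(AE)` of `arc_h`, `I ≤ L^C`, `Am = L²`, `S = L^4`, `Λ0 = L^4`;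
`K2 ≥ AE + 12` and `K2 ≥ 4(2C + A + 20)`; `K1 ≥ 8(2C + K2 + A + 40)`.
-/

set_option autoImplicit false

namespace Pool.MP_dd84fd_nt.HXP

open Finset Pool.MP_67663b_nt.Odd Pool.MP_dd84fd_nt.E2 Pool.MP_dd84fd_nt.PL Pool.MP_dd84fd_nt.HX

private theorem WH_cont' (s δ : ℝ) (w X : ℕ) : Continuous (WH s δ w X) := by
  have h : Continuous ee := by
    unfold ee
    fun_prop
  unfold WH
  fun_prop

theorem WHa_cont (s δ σ : ℝ) (w X q a : ℕ) : Continuous (WHa s δ σ w X q a) := by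
  unfold WHa
  have h := WH_cont' s δ w X
  fun_prop

private theorem Bq_add_right (X : ℕ) (b σ : ℝ) (n q : ℕ) (f g g' : ℕ → ℝ → ℂ)
    (hf : ∀ a, Continuous (f a)) (hg : ∀ a, Continuous (g a)) (hg' : ∀ a, Continuous (g' a)) :
    Bq X b σ n q f (fun a x => g a x + g' a x) = Bq X b σ n q f g + Bq X b σ n q f g' := by
  rw [Bq_comm, Bq_add_left X b σ n q g g' f hg hg' hf, Bq_comm X b σ n q g f,
    Bq_comm X b σ n q g' f]

private theorem Bq_sum_right (X : ℕ) (b σ : ℝ) (n q I : ℕ) (f : ℕ → ℝ → ℂ) (g : ℕ → ℕ → ℝ → ℂ)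
    (hf : ∀ a, Continuous (f a)) (hg : ∀ i a, Continuous (g i a)) :
    Bq X b σ n q f (fun a x => ∑ i ∈ range I, g i a x) = ∑ i ∈ range I, Bq X b σ n q f (g i) := by
  rw [Bq_comm, Bq_sum_left X b σ n q I g f hg hf]
  exact sum_congr rfl fun i _ => Bq_comm _ _ _ _ _ _ _

private theorem expand (X n : ℕ) (bq : ℕ → ℝ) (σ : ℝ) (QQ : Finset ℕ) (hb : ∀ q ∈ QQ, 0 < bq q)
    (M1 E1 M2 E2 : ℕ → ℕ → ℝ → ℂ) (hM1 : ∀ q a, Continuous (M1 q a))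
    (hE1 : ∀ q a, Continuous (E1 q a)) (hM2 : ∀ q a, Continuous (M2 q a))
    (hE2 : ∀ q a, Continuous (E2 q a)) :
    ∑ q ∈ QQ, ‖Bq X (bq q) σ n q (fun a x => M1 q a x + E1 q a x)
        (fun a x => M2 q a x + E2 q a x)‖ ≤
      ∑ q ∈ QQ, ‖Bq X (bq q) σ n q (M1 q) (M2 q)‖ +
      Real.sqrt (N2 X bq QQ E1) * Real.sqrt (N2 X bq QQ (fun q a x => M2 q a x + E2 q a x)) +
      Real.sqrt (N2 X bq QQ (fun q a x => M1 q a x + E1 q a x)) * Real.sqrt (N2 X bq QQ E2) +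
      Real.sqrt (N2 X bq QQ E1) * Real.sqrt (N2 X bq QQ E2) := by
  have key : ∀ q ∈ QQ, ‖Bq X (bq q) σ n q (fun a x => M1 q a x + E1 q a x)
        (fun a x => M2 q a x + E2 q a x)‖ ≤
      ‖Bq X (bq q) σ n q (M1 q) (M2 q)‖ +
      ‖Bq X (bq q) σ n q (E1 q) (fun a x => M2 q a x + E2 q a x)‖ +
      ‖Bq X (bq q) σ n q (fun a x => M1 q a x + E1 q a x) (E2 q)‖ +
      ‖Bq X (bq q) σ n q (E1 q) (E2 q)‖ := by
    intro q _
    have h1 := Bq_add_left X (bq q) σ n q (M1 q) (E1 q) (fun a x => M2 q a x + E2 q a x)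
      (hM1 q) (hE1 q) (fun a => (hM2 q a).add (hE2 q a))
    have h2 := Bq_add_right X (bq q) σ n q (M1 q) (M2 q) (E2 q) (hM1 q) (hM2 q) (hE2 q)
    have h3 := Bq_add_left X (bq q) σ n q (M1 q) (E1 q) (E2 q) (hM1 q) (hE1 q) (hE2 q)
    have h4 : Bq X (bq q) σ n q (fun a x => M1 q a x + E1 q a x)
        (fun a x => M2 q a x + E2 q a x) =
        Bq X (bq q) σ n q (M1 q) (M2 q) +
        Bq X (bq q) σ n q (E1 q) (fun a x => M2 q a x + E2 q a x) +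
        Bq X (bq q) σ n q (fun a x => M1 q a x + E1 q a x) (E2 q) -
        Bq X (bq q) σ n q (E1 q) (E2 q) := by
      rw [h1, h2, h3]
      ring
    rw [h4]
    refine (norm_sub_le _ _).trans ?_
    have h5 := norm_add_le (Bq X (bq q) σ n q (M1 q) (M2 q) +
        Bq X (bq q) σ n q (E1 q) (fun a x => M2 q a x + E2 q a x))
        (Bq X (bq q) σ n q (fun a x => M1 q a x + E1 q a x) (E2 q))
    have h6 := norm_add_le (Bq X (bq q) σ n q (M1 q) (M2 q))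
        (Bq X (bq q) σ n q (E1 q) (fun a x => M2 q a x + E2 q a x))
    linarith
  refine (sum_le_sum key).trans ?_
  rw [sum_add_distrib, sum_add_distrib, sum_add_distrib]
  have c1 : ∑ q ∈ QQ, ‖Bq X (bq q) σ n q (E1 q) (fun a x => M2 q a x + E2 q a x)‖ ≤
      Real.sqrt (N2 X bq QQ E1) * Real.sqrt (N2 X bq QQ (fun q a x => M2 q a x + E2 q a x)) :=
    Bq_cauchy X bq σ n QQ hb E1 (fun q a x => M2 q a x + E2 q a x) hE1
      (fun q a => (hM2 q a).add (hE2 q a))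
  have c2 : ∑ q ∈ QQ, ‖Bq X (bq q) σ n q (fun a x => M1 q a x + E1 q a x) (E2 q)‖ ≤
      Real.sqrt (N2 X bq QQ (fun q a x => M1 q a x + E1 q a x)) * Real.sqrt (N2 X bq QQ E2) :=
    Bq_cauchy X bq σ n QQ hb (fun q a x => M1 q a x + E1 q a x) E2
      (fun q a => (hM1 q a).add (hE1 q a)) hE2
  have c3 := Bq_cauchy X bq σ n QQ hb E1 E2 hE1 hE2
  linarith

private theorem sum_one (X n I : ℕ) (bq : ℕ → ℝ) (σ : ℝ) (QQ : Finset ℕ)
    (g : ℕ → ℕ → ℝ → ℂ) (hg : ∀ q a, Continuous (g q a))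
    (F : ℕ → ℕ → ℕ → ℝ → ℂ) (hF : ∀ i q a, Continuous (F i q a)) (R : ℝ)
    (h : ∀ i < I, ∑ q ∈ QQ, ‖Bq X (bq q) σ n q (g q) (F i q)‖ ≤ R) :
    ∑ q ∈ QQ, ‖Bq X (bq q) σ n q (g q) (fun a x => ∑ i ∈ range I, F i q a x)‖ ≤ I * R := by
  have h1 : ∀ q ∈ QQ, ‖Bq X (bq q) σ n q (g q) (fun a x => ∑ i ∈ range I, F i q a x)‖ ≤
      ∑ i ∈ range I, ‖Bq X (bq q) σ n q (g q) (F i q)‖ := by
    intro q _
    rw [Bq_sum_right X (bq q) σ n q I (g q) (fun i => F i q) (hg q) (fun i a => hF i q a)]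
    exact norm_sum_le _ _
  refine (sum_le_sum h1).trans ?_
  rw [sum_comm]
  have h2 : ∑ i ∈ range I, ∑ q ∈ QQ, ‖Bq X (bq q) σ n q (g q) (F i q)‖ ≤
      ∑ _i ∈ range I, R := sum_le_sum fun i hi => h i (mem_range.1 hi)
  rw [sum_const, card_range, nsmul_eq_mul] at h2
  exact h2

private theorem sum_two (X n I : ℕ) (bq : ℕ → ℝ) (σ : ℝ) (QQ : Finset ℕ)
    (F : ℕ → ℕ → ℕ → ℝ → ℂ) (hF : ∀ i q a, Continuous (F i q a)) (R : ℝ)
    (h : ∀ i < I, ∀ j < I, ∑ q ∈ QQ, ‖Bq X (bq q) σ n q (F i q) (F j q)‖ ≤ R) :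
    ∑ q ∈ QQ, ‖Bq X (bq q) σ n q (fun a x => ∑ i ∈ range I, F i q a x)
      (fun a x => ∑ i ∈ range I, F i q a x)‖ ≤ I * (I * R) := by
  refine sum_one X n I bq σ QQ (fun q a x => ∑ i ∈ range I, F i q a x)
    (fun q a => continuous_finsetSum _ fun i _ => hF i q a) F hF (I * R) fun i hi => ?_
  have h1 := sum_one X n I bq σ QQ (fun q => F i q) (fun q a => hF i q a) F hF R (fun j hj => h i hi j hj)
  refine le_trans (le_of_eq ?_) h1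
  exact sum_congr rfl fun q _ => by rw [Bq_comm]

private theorem hroot {L : ℝ} (hL : 0 < L) (m : ℕ) :
    (L ^ (4 * m)) ^ (-(1 / 4) : ℝ) = (L ^ m)⁻¹ := by
  have h0 : 0 ≤ L ^ m := pow_nonneg hL.le m
  rw [Real.rpow_neg (pow_nonneg hL.le _), show 4 * m = m * 4 by ring, pow_mul,
    show (1 / 4 : ℝ) = ((4 : ℕ) : ℝ)⁻¹ by norm_num, Real.pow_rpow_inv_natCast h0 (by norm_num)]

private theorem ev_pow (K : ℕ) (η : ℝ) (hη : 0 < η) :
    ∀ᶠ X : ℕ in Filter.atTop, (Real.log X) ^ K ≤ (X : ℝ) ^ η := by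
  have h := (isLittleO_log_rpow_rpow_atTop (K : ℝ) hη).bound (c := 1) one_pos
  have h2 := (tendsto_natCast_atTop_atTop (R := ℝ)).eventually h
  filter_upwards [h2, Filter.eventually_ge_atTop 1] with X hX h1
  have h3 : 0 ≤ Real.log X := Real.log_nonneg (by exact_mod_cast h1)
  have h4 : 0 ≤ (X : ℝ) ^ η := Real.rpow_nonneg (Nat.cast_nonneg X) _
  rw [one_mul, Real.norm_eq_abs, Real.norm_eq_abs, Real.rpow_natCast, abs_of_nonneg h4,
    abs_of_nonneg (pow_nonneg h3 K)] at hX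
  exact hX

private theorem ev_log (c : ℝ) : ∀ᶠ X : ℕ in Filter.atTop, c ≤ Real.log X :=
  (Real.tendsto_log_atTop.comp (tendsto_natCast_atTop_atTop (R := ℝ))).eventually_ge_atTop c

/-- the size of `W` -/
private theorem W_N2 (h1 : AnAbs) (h2 : WDabs) (D' : ℕ) (hD : 1 ≤ D') : ∃ X0 : ℕ, ∀ X : ℕ, X0 ≤ X →
    ∀ δ : ℝ, 0 < δ → δ ≤ 1 / 2000 → ∀ s : ℝ, |s| ≤ 1 →
    ∀ (b N σ : ℝ) (QQ : Finset ℕ) (bq : ℕ → ℝ), 0 < b → 1 ≤ N → N * b ≤ X → (σ = 1 ∨ σ = -1) →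
    Fam QQ N → (∀ q ∈ QQ, b ≤ bq q ∧ bq q ≤ 2 * b) →
    N2 X bq QQ (fun q a x => WHa s δ σ (wX D' X) X q a x) ≤ 4 * X * (Real.log X) ^ 3 := by
  obtain ⟨X0, h⟩ := WH_l2 h1 h2 D' hD
  refine ⟨max X0 1, fun X hX δ hδ hδ1 s hs b N σ QQ bq hb hN1 hNb hσ hN hbq => ?_⟩
  obtain ⟨e, h2, h3⟩ := h X ((le_max_left _ _).trans hX) δ hδ hδ1 s hs
  have h4 := N2_tp X ((le_max_right _ _).trans hX) b N σ hb hN1 hNb hσ QQ hN bq hbq X e
  have h5 : (fun (q a : ℕ) (x : ℝ) => WHa s δ σ (wX D' X) X q a x) =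
      fun (q a : ℕ) (x : ℝ) => tp X e ((a : ℝ) / q + σ * x) := by
    funext q a x
    exact h3 _
  rw [h5]
  refine h4.trans ?_
  linarith

/-- the error terms -/
private theorem err_bound {Xr L N1 N2' W1 W2 : ℝ} (A : ℕ) (hX : 0 ≤ Xr) (hL : 1 ≤ L)
    (h1 : N1 ≤ 4 * Xr / L ^ (2 * (A + 6))) (h2 : N2' ≤ 4 * Xr / L ^ (2 * (A + 6)))
    (h3 : W1 ≤ 4 * Xr * L ^ 3) (h4 : W2 ≤ 4 * Xr * L ^ 3) :
    Real.sqrt N1 * Real.sqrt W2 + Real.sqrt W1 * Real.sqrt N2' + Real.sqrt N1 * Real.sqrt N2' ≤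
      12 * (Xr / L ^ (A + 4)) := by
  have hL0 : 0 < L := by linarith
  have e1 : Real.sqrt (4 * Xr / L ^ (2 * (A + 6))) = 2 * Real.sqrt Xr / L ^ (A + 6) := by
    rw [show 4 * Xr / L ^ (2 * (A + 6)) = (2 / L ^ (A + 6)) ^ 2 * Xr by
      rw [div_pow, ← pow_mul, show (A + 6) * 2 = 2 * (A + 6) by ring]
      ring, Real.sqrt_mul (by positivity), Real.sqrt_sq (by positivity)]
    ring
  have e2 : Real.sqrt (4 * Xr * L ^ 4) = 2 * Real.sqrt Xr * L ^ 2 := by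
    rw [show 4 * Xr * L ^ 4 = (2 * L ^ 2) ^ 2 * Xr by ring, Real.sqrt_mul (by positivity),
      Real.sqrt_sq (by positivity)]
    ring
  have h34 : 4 * Xr * L ^ 3 ≤ 4 * Xr * L ^ 4 := by
    apply mul_le_mul_of_nonneg_left _ (by positivity)
    exact pow_le_pow_right₀ hL (by norm_num)
  have a1 : Real.sqrt N1 ≤ 2 * Real.sqrt Xr / L ^ (A + 6) := e1 ▸ Real.sqrt_le_sqrt h1
  have a2 : Real.sqrt N2' ≤ 2 * Real.sqrt Xr / L ^ (A + 6) := e1 ▸ Real.sqrt_le_sqrt h2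
  have a3 : Real.sqrt W1 ≤ 2 * Real.sqrt Xr * L ^ 2 := e2 ▸ Real.sqrt_le_sqrt (h3.trans h34)
  have a4 : Real.sqrt W2 ≤ 2 * Real.sqrt Xr * L ^ 2 := e2 ▸ Real.sqrt_le_sqrt (h4.trans h34)
  have hs : Real.sqrt Xr * Real.sqrt Xr = Xr := Real.mul_self_sqrt hX
  have hsn := Real.sqrt_nonneg Xr
  have hLL : L ^ 2 / L ^ (A + 6) = 1 / L ^ (A + 4) := by
    rw [show A + 6 = (A + 4) + 2 by ring, pow_add L (A + 4) 2]
    field_simp
  have p1 : Real.sqrt N1 * Real.sqrt W2 ≤ 4 * (Xr / L ^ (A + 4)) := by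
    calc Real.sqrt N1 * Real.sqrt W2
        ≤ (2 * Real.sqrt Xr / L ^ (A + 6)) * (2 * Real.sqrt Xr * L ^ 2) :=
          mul_le_mul a1 a4 (Real.sqrt_nonneg _) (by positivity)
      _ = 4 * (Real.sqrt Xr * Real.sqrt Xr) * (L ^ 2 / L ^ (A + 6)) := by ring
      _ = 4 * (Xr / L ^ (A + 4)) := by
          rw [hs, hLL]
          ring
  have p2 : Real.sqrt W1 * Real.sqrt N2' ≤ 4 * (Xr / L ^ (A + 4)) := by
    calc Real.sqrt W1 * Real.sqrt N2'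
        ≤ (2 * Real.sqrt Xr * L ^ 2) * (2 * Real.sqrt Xr / L ^ (A + 6)) :=
          mul_le_mul a3 a2 (Real.sqrt_nonneg _) (by positivity)
      _ = 4 * (Real.sqrt Xr * Real.sqrt Xr) * (L ^ 2 / L ^ (A + 6)) := by ring
      _ = 4 * (Xr / L ^ (A + 4)) := by
          rw [hs, hLL]
          ring
  have p3 : Real.sqrt N1 * Real.sqrt N2' ≤ 4 * (Xr / L ^ (A + 4)) := by
    calc Real.sqrt N1 * Real.sqrt N2'
        ≤ (2 * Real.sqrt Xr / L ^ (A + 6)) * (2 * Real.sqrt Xr / L ^ (A + 6)) :=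
          mul_le_mul a1 a2 (Real.sqrt_nonneg _) (by positivity)
      _ = 4 * ((Real.sqrt Xr * Real.sqrt Xr) / (L ^ (A + 6) * L ^ (A + 6))) := by ring
      _ ≤ 4 * (Xr / L ^ (A + 4)) := by
          rw [hs]
          apply mul_le_mul_of_nonneg_left _ (by norm_num)
          apply div_le_div_of_nonneg_left hX (by positivity)
          rw [← pow_add]
          exact pow_le_pow_right₀ hL (by omega)
  linarith

/-- type II against type II -/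
private theorem gg_bound {Xr L C2 I' h δx : ℝ} (C0 E P : ℕ) (hC2 : 0 < C2) (hX : 0 ≤ Xr)
    (hL : 1 ≤ L) (hI0 : 0 ≤ I') (hI : I' ≤ L ^ C0) (hP : P = E + (2 * C0 + 11))
    (hh : h ≤ (L ^ P)⁻¹) (hδ : δx ≤ (L ^ P)⁻¹) (h1 : 1 ≤ Xr * (L ^ P)⁻¹) :
    I' * (I' * (C2 * L ^ 3 * (L ^ 2) ^ 2 * L ^ 4 * Xr * (h + δx) + 1)) ≤
      (2 * C2 + 1) * (Xr / L ^ E) := by
  have hL0 : 0 < L := by linarith
  have hy : 0 < (L ^ P)⁻¹ := by positivity
  have h2 : C2 * L ^ 3 * (L ^ 2) ^ 2 * L ^ 4 * Xr * (h + δx) + 1 ≤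
      (2 * C2 + 1) * L ^ 11 * (Xr * (L ^ P)⁻¹) := by
    have h3 : C2 * L ^ 3 * (L ^ 2) ^ 2 * L ^ 4 * Xr * (h + δx) ≤
        C2 * L ^ 3 * (L ^ 2) ^ 2 * L ^ 4 * Xr * (2 * (L ^ P)⁻¹) := by
      apply mul_le_mul_of_nonneg_left _ (by positivity)
      linarith
    have h4 : 1 ≤ L ^ 11 * (Xr * (L ^ P)⁻¹) := by
      have : 1 ≤ L ^ 11 := one_le_pow₀ hL
      nlinarith
    have h5 : C2 * L ^ 3 * (L ^ 2) ^ 2 * L ^ 4 * Xr * (2 * (L ^ P)⁻¹) =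
        2 * C2 * (L ^ 11 * (Xr * (L ^ P)⁻¹)) := by
      ring
    have h6 : (2 * C2 + 1) * L ^ 11 * (Xr * (L ^ P)⁻¹) =
        2 * C2 * (L ^ 11 * (Xr * (L ^ P)⁻¹)) + L ^ 11 * (Xr * (L ^ P)⁻¹) := by ring
    linarith
  have h7 : 0 ≤ (2 * C2 + 1) * L ^ 11 * (Xr * (L ^ P)⁻¹) := by positivity
  calc I' * (I' * (C2 * L ^ 3 * (L ^ 2) ^ 2 * L ^ 4 * Xr * (h + δx) + 1))
      ≤ I' * (I' * ((2 * C2 + 1) * L ^ 11 * (Xr * (L ^ P)⁻¹))) := by
        apply mul_le_mul_of_nonneg_left _ hI0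
        exact mul_le_mul_of_nonneg_left h2 hI0
    _ ≤ L ^ C0 * (L ^ C0 * ((2 * C2 + 1) * L ^ 11 * (Xr * (L ^ P)⁻¹))) := by
        apply mul_le_mul hI _ (by positivity) (by positivity)
        exact mul_le_mul_of_nonneg_right hI h7
    _ = (2 * C2 + 1) * (Xr * (L ^ (2 * C0 + 11) * (L ^ P)⁻¹)) := by
        rw [show 2 * C0 + 11 = C0 + (C0 + 11) by ring, pow_add L C0, pow_add L C0]
        ring
    _ = (2 * C2 + 1) * (Xr / L ^ E) := by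
        rw [hP, pow_add L E]
        field_simp

/-- a function independent of `a` against type II -/
private theorem lt_bound {Xr L C3 C5 I' b Sg x16 : ℝ} (C0 K2 E T : ℕ) (hC3 : 0 < C3)
    (hC5 : 0 < C5) (hX : 0 ≤ Xr)
    (hL : 1 ≤ L) (hI0 : 0 ≤ I') (hI : I' ≤ L ^ C0) (hb0 : 0 < b) (hb : b ≤ L ^ K2)
    (hT : E + (C0 + 13 + K2) ≤ T)
    (hS : Sg ≤ 2 * C5 * L * ((L ^ T)⁻¹) ^ 2) (hx : x16 ≤ (L ^ T)⁻¹) (h1 : 1 ≤ Xr * (L ^ T)⁻¹) :
    I' * (C3 * L ^ 2 * L ^ 4 * L ^ 2 * Real.sqrt (L ^ 4) * (1 + b) * Xr * (Real.sqrt Sg + x16) + 1) ≤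
      (2 * C3 * (2 * C5 + 2) + 1) * (Xr / L ^ E) := by
  have hL0 : 0 < L := by linarith
  have hy : 0 < (L ^ T)⁻¹ := by positivity
  have s1 : Real.sqrt (L ^ 4) ≤ L ^ 4 := by
    rw [Real.sqrt_le_left (by positivity)]
    have : 1 ≤ L ^ 4 := one_le_pow₀ hL
    nlinarith
  have s2 : Real.sqrt Sg ≤ (2 * C5 + 1) * L * (L ^ T)⁻¹ := by
    rw [Real.sqrt_le_left (by positivity)]
    refine hS.trans ?_
    rw [mul_pow]
    apply mul_le_mul_of_nonneg_right _ (by positivity)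
    nlinarith [mul_pos hC5 hL0, mul_nonneg hC5.le (sub_nonneg.2 hL), sq_nonneg (C5 * L)]
  have s3 : Real.sqrt Sg + x16 ≤ (2 * C5 + 2) * L * (L ^ T)⁻¹ := by
    have : (L ^ T)⁻¹ ≤ L * (L ^ T)⁻¹ := by nlinarith
    nlinarith
  have s4 : 1 + b ≤ 2 * L ^ K2 := by
    have : 1 ≤ L ^ K2 := one_le_pow₀ hL
    linarith
  have s5 : C3 * L ^ 2 * L ^ 4 * L ^ 2 * Real.sqrt (L ^ 4) * (1 + b) * Xr * (Real.sqrt Sg + x16) ≤
      C3 * L ^ 2 * L ^ 4 * L ^ 2 * L ^ 4 * (2 * L ^ K2) * Xr * ((2 * C5 + 2) * L * (L ^ T)⁻¹) := by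
    have t1 : C3 * L ^ 2 * L ^ 4 * L ^ 2 * Real.sqrt (L ^ 4) * (1 + b) * Xr ≤
        C3 * L ^ 2 * L ^ 4 * L ^ 2 * L ^ 4 * (2 * L ^ K2) * Xr := by
      apply mul_le_mul_of_nonneg_right _ hX
      apply mul_le_mul _ s4 (by linarith) (by positivity)
      exact mul_le_mul_of_nonneg_left s1 (by positivity)
    have t2 : 0 ≤ C3 * L ^ 2 * L ^ 4 * L ^ 2 * Real.sqrt (L ^ 4) * (1 + b) * Xr := by
      have : 0 < 1 + b := by linarith
      positivity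
    calc C3 * L ^ 2 * L ^ 4 * L ^ 2 * Real.sqrt (L ^ 4) * (1 + b) * Xr * (Real.sqrt Sg + x16)
        ≤ C3 * L ^ 2 * L ^ 4 * L ^ 2 * Real.sqrt (L ^ 4) * (1 + b) * Xr *
          ((2 * C5 + 2) * L * (L ^ T)⁻¹) := mul_le_mul_of_nonneg_left s3 t2
      _ ≤ _ := mul_le_mul_of_nonneg_right t1 (by positivity)
  set Q := L ^ (13 + K2) * (Xr * (L ^ T)⁻¹) with hQ
  have s6 : C3 * L ^ 2 * L ^ 4 * L ^ 2 * L ^ 4 * (2 * L ^ K2) * Xr *
      ((2 * C5 + 2) * L * (L ^ T)⁻¹) = 2 * C3 * (2 * C5 + 2) * Q := by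
    rw [hQ, pow_add]
    ring
  have s7 : 1 ≤ Q := by
    rw [hQ]
    have : 1 ≤ L ^ (13 + K2) := one_le_pow₀ hL
    nlinarith
  have s8 : C3 * L ^ 2 * L ^ 4 * L ^ 2 * Real.sqrt (L ^ 4) * (1 + b) * Xr *
      (Real.sqrt Sg + x16) + 1 ≤ (2 * C3 * (2 * C5 + 2) + 1) * Q := by
    have : (2 * C3 * (2 * C5 + 2) + 1) * Q = 2 * C3 * (2 * C5 + 2) * Q + Q := by ring
    linarith
  have s9 : L ^ C0 * Q ≤ Xr / L ^ E := by
    rw [hQ]
    calc L ^ C0 * (L ^ (13 + K2) * (Xr * (L ^ T)⁻¹))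
        = Xr * (L ^ (C0 + 13 + K2) / L ^ T) := by
          rw [show C0 + 13 + K2 = C0 + (13 + K2) by ring, pow_add L C0]
          ring
      _ ≤ Xr * (1 / L ^ E) := by
          apply mul_le_mul_of_nonneg_left _ hX
          rw [div_le_div_iff₀ (by positivity) (by positivity), one_mul, ← pow_add]
          exact pow_le_pow_right₀ hL (by omega)
      _ = Xr / L ^ E := by ring
  have hQ0 : 0 ≤ Q := by linarith
  calc I' * (C3 * L ^ 2 * L ^ 4 * L ^ 2 * Real.sqrt (L ^ 4) * (1 + b) * Xr *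
        (Real.sqrt Sg + x16) + 1)
      ≤ I' * ((2 * C3 * (2 * C5 + 2) + 1) * Q) := mul_le_mul_of_nonneg_left s8 hI0
    _ ≤ L ^ C0 * ((2 * C3 * (2 * C5 + 2) + 1) * Q) :=
        mul_le_mul_of_nonneg_right hI (by positivity)
    _ = (2 * C3 * (2 * C5 + 2) + 1) * (L ^ C0 * Q) := by ring
    _ ≤ (2 * C3 * (2 * C5 + 2) + 1) * (Xr / L ^ E) :=
        mul_le_mul_of_nonneg_left s9 (by positivity)

/-- two functions independent of `a` -/
private theorem ll_bound {Xr L C4 C5 b Sg : ℝ} (K2 E T : ℕ) (hC4 : 0 < C4)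
    (hC5 : 0 < C5) (hX : 0 ≤ Xr) (hL : 1 ≤ L) (hb0 : 0 < b) (hb : b ≤ L ^ K2)
    (hT : E + (9 + K2) ≤ T) (hS : Sg ≤ 2 * C5 * L * ((L ^ T)⁻¹) ^ 2) :
    C4 * (L ^ 4) ^ 2 * b * Xr * Sg ≤ 2 * C4 * C5 * (Xr / L ^ E) := by
  have hL0 : 0 < L := by linarith
  have hy : 0 < (L ^ T)⁻¹ := by positivity
  have hy1 : (L ^ T)⁻¹ ≤ 1 := inv_le_one_of_one_le₀ (one_le_pow₀ hL)
  have h1 : C4 * (L ^ 4) ^ 2 * b * Xr * Sg ≤
      C4 * (L ^ 4) ^ 2 * L ^ K2 * Xr * (2 * C5 * L * (L ^ T)⁻¹) := by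
    have t1 : C4 * (L ^ 4) ^ 2 * b * Xr ≤ C4 * (L ^ 4) ^ 2 * L ^ K2 * Xr := by
      apply mul_le_mul_of_nonneg_right _ hX
      exact mul_le_mul_of_nonneg_left hb (by positivity)
    have t2 : Sg ≤ 2 * C5 * L * (L ^ T)⁻¹ := by
      refine hS.trans ?_
      apply mul_le_mul_of_nonneg_left _ (by positivity)
      nlinarith
    calc C4 * (L ^ 4) ^ 2 * b * Xr * Sg
        ≤ C4 * (L ^ 4) ^ 2 * b * Xr * (2 * C5 * L * (L ^ T)⁻¹) :=
          mul_le_mul_of_nonneg_left t2 (by positivity)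
      _ ≤ _ := mul_le_mul_of_nonneg_right t1 (by positivity)
  refine h1.trans ?_
  calc C4 * (L ^ 4) ^ 2 * L ^ K2 * Xr * (2 * C5 * L * (L ^ T)⁻¹)
      = 2 * C4 * C5 * (Xr * (L ^ (9 + K2) / L ^ T)) := by
        rw [pow_add L 9]
        ring
    _ ≤ 2 * C4 * C5 * (Xr * (1 / L ^ E)) := by
        apply mul_le_mul_of_nonneg_left _ (by positivity)
        apply mul_le_mul_of_nonneg_left _ hX
        rw [div_le_div_iff₀ (by positivity) (by positivity), one_mul, ← pow_add]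
        exact pow_le_pow_right₀ hL (by omega)
    _ = 2 * C4 * C5 * (Xr / L ^ E) := by ring

private theorem four (X n : ℕ) (bq : ℕ → ℝ) (σ : ℝ) (QQ : Finset ℕ)
    (l1 l2 G : ℕ → ℕ → ℝ → ℂ) (h1 : ∀ q a, Continuous (l1 q a)) (h2 : ∀ q a, Continuous (l2 q a))
    (hG : ∀ q a, Continuous (G q a)) :
    ∑ q ∈ QQ, ‖Bq X (bq q) σ n q (fun a x => l1 q a x + G q a x) (fun a x => l2 q a x + G q a x)‖ ≤
      ∑ q ∈ QQ, ‖Bq X (bq q) σ n q (l1 q) (l2 q)‖ + ∑ q ∈ QQ, ‖Bq X (bq q) σ n q (l1 q) (G q)‖ +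
      ∑ q ∈ QQ, ‖Bq X (bq q) σ n q (l2 q) (G q)‖ + ∑ q ∈ QQ, ‖Bq X (bq q) σ n q (G q) (G q)‖ := by
  rw [← sum_add_distrib, ← sum_add_distrib, ← sum_add_distrib]
  refine sum_le_sum fun q _ => ?_
  have e1 := Bq_add_left X (bq q) σ n q (l1 q) (G q) (fun a x => l2 q a x + G q a x)
    (h1 q) (hG q) (fun a => (h2 q a).add (hG q a))
  have e2 := Bq_add_right X (bq q) σ n q (l1 q) (l2 q) (G q) (h1 q) (h2 q) (hG q)
  have e3 := Bq_add_right X (bq q) σ n q (G q) (l2 q) (G q) (hG q) (h2 q) (hG q)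
  have e4 := Bq_comm X (bq q) σ n q (G q) (l2 q)
  rw [e1, e2, e3, e4]
  have t1 := norm_add_le (Bq X (bq q) σ n q (l1 q) (l2 q) + Bq X (bq q) σ n q (l1 q) (G q))
    (Bq X (bq q) σ n q (l2 q) (G q) + Bq X (bq q) σ n q (G q) (G q))
  have t2 := norm_add_le (Bq X (bq q) σ n q (l1 q) (l2 q)) (Bq X (bq q) σ n q (l1 q) (G q))
  have t3 := norm_add_le (Bq X (bq q) σ n q (l2 q) (G q)) (Bq X (bq q) σ n q (G q) (G q))
  linarith

theorem pl_sigma_h (h1 : AnAbs) (h2 : WDabs) (h3 : Dec2) (A : ℕ) : ∃ K1 K2 : ℕ,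
    ∀ (δ : ℝ) (A1 D' : ℕ), 0 < δ → δ ≤ 1 / 2000 → 1 ≤ D' →
    ∃ X0 : ℕ, ∀ X : ℕ, X0 ≤ X → ∀ (n : ℕ) (b N σ : ℝ) (QQ : Finset ℕ) (bq : ℕ → ℝ),
    StdH X n δ A1 b N σ QQ bq →
    ((Real.log X) ^ K2 < b ∨ ∀ q ∈ QQ, (Real.log X) ^ K1 * (Nat.gcd q n : ℝ) < q) →
    ∑ q ∈ QQ, ‖Bq X (bq q) σ n q (WHa (-1) δ σ (wX D' X) X q) (WHa 1 δ σ (wX D' X) X q)‖ ≤
      X / (Real.log X) ^ A := by
  obtain ⟨AE, hAE⟩ : ∃ AE, AE = 2 * (A + 6) := ⟨_, rfl⟩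
  obtain ⟨C0, harc⟩ := arc_h h1 h2 h3 AE
  obtain ⟨C2, hC2, htt⟩ := two_two_h
  obtain ⟨C3, hC3, hlt⟩ := lam_two_h
  obtain ⟨C4, hC4, hll⟩ := lam_lam
  obtain ⟨C5, hC5, hds⟩ := div_sum
  obtain ⟨P, hP⟩ : ∃ P, P = (A + 4) + (2 * C0 + 11) := ⟨_, rfl⟩
  obtain ⟨K2, hK2⟩ : ∃ K2, K2 = 4 * (AE + 12 + P) := ⟨_, rfl⟩
  obtain ⟨T, hT⟩ : ∃ T, T = (A + 4) + (C0 + 13 + K2) + P := ⟨_, rfl⟩
  refine ⟨8 * T, K2, fun δ A1 D' hδ hδ8 hD' => ?_⟩
  obtain ⟨Xa, ha⟩ := harc δ A1 K2 D' hδ hδ8 hD'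
  obtain ⟨Xt, ht⟩ := htt δ A1 hδ hδ8
  obtain ⟨Xl, hl⟩ := hlt δ A1 hδ hδ8
  obtain ⟨Xw, hw⟩ := W_N2 h1 h2 D' hD'
  obtain ⟨Ct, hCt⟩ : ∃ Ct, Ct = 12 + (2 * C2 + 1) + 2 * (2 * C3 * (2 * C5 + 2) + 1) +
    2 * C4 * C5 := ⟨_, rfl⟩
  have ev := ((ev_log (max 1 Ct)).and (ev_pow T (1 / 20) (by norm_num))).and
    (Filter.eventually_ge_atTop (max (max Xa Xt) (max (max Xl Xw) 1)))
  obtain ⟨X0, h0⟩ := Filter.eventually_atTop.1 ev
  refine ⟨X0, fun X hX n b N σ QQ bq hstd hcase => ?_⟩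
  obtain ⟨⟨hLm, hx16⟩, hXm⟩ := h0 X hX
  have hXa : Xa ≤ X := by
    have := le_max_left (max Xa Xt) (max (max Xl Xw) 1)
    have := le_max_left Xa Xt
    omega
  have hXt : Xt ≤ X := by
    have := le_max_left (max Xa Xt) (max (max Xl Xw) 1)
    have := le_max_right Xa Xt
    omega
  have hXl : Xl ≤ X := by
    have := le_max_right (max Xa Xt) (max (max Xl Xw) 1)
    have := le_max_left (max Xl Xw) 1
    have := le_max_left Xl Xw
    omega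
  have hXw : Xw ≤ X := by
    have := le_max_right (max Xa Xt) (max (max Xl Xw) 1)
    have := le_max_left (max Xl Xw) 1
    have := le_max_right Xl Xw
    omega
  have hX1' : 1 ≤ X := by
    have := le_max_right (max Xa Xt) (max (max Xl Xw) 1)
    have := le_max_right (max Xl Xw) 1
    omega
  have hX1 : (1 : ℝ) ≤ X := by exact_mod_cast hX1'
  have hX0 : (0 : ℝ) < X := by linarith
  obtain ⟨L, hLdef⟩ : ∃ L, L = Real.log (X : ℝ) := ⟨_, rfl⟩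
  rw [← hLdef] at hLm hx16 hcase ⊢
  have hL1 : 1 ≤ L := (le_max_left _ _).trans hLm
  have hLC : Ct ≤ L := (le_max_right _ _).trans hLm
  have hL0 : 0 < L := by linarith
  have hTX : L ^ T ≤ X := by
    refine hx16.trans ?_
    calc (X : ℝ) ^ (1 / 20 : ℝ) ≤ (X : ℝ) ^ (1 : ℝ) :=
          Real.rpow_le_rpow_of_exponent_le hX1 (by norm_num)
      _ = X := Real.rpow_one _
  have hLX : ∀ k : ℕ, k ≤ T → L ^ k ≤ X := fun k hk => (pow_le_pow_right₀ hL1 hk).trans hTX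
  have hLT0 : 0 < L ^ T := by positivity
  have hyT : (X : ℝ) ^ (-(1 / 20) : ℝ) ≤ (L ^ T)⁻¹ := by
    rw [Real.rpow_neg hX0.le]
    exact inv_anti₀ hLT0 hx16
  have hPT : (L ^ T)⁻¹ ≤ (L ^ P)⁻¹ :=
    inv_anti₀ (by positivity) (pow_le_pow_right₀ hL1 (by omega))
  have h1T : 1 ≤ (X : ℝ) * (L ^ T)⁻¹ := by
    rw [← div_eq_mul_inv, one_le_div hLT0]
    exact hTX
  have h1P : 1 ≤ (X : ℝ) * (L ^ P)⁻¹ := h1T.trans (mul_le_mul_of_nonneg_left hPT hX0.le)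
  have hstd' := hstd
  obtain ⟨hXn, hnX, hσ, hbl, hN1, hNb, hFam, hcard, hbq⟩ := hstd'
  have hb0 : 0 < b := by
    refine lt_of_lt_of_le ?_ hbl
    rw [← hLdef]
    exact Real.rpow_pos_of_pos hL0 _
  have hNbX : N * b ≤ X := by
    refine hNb.trans ?_
    calc (X : ℝ) ^ (1 / 2 + 5 / 2 * δ) ≤ (X : ℝ) ^ (1 : ℝ) :=
          Real.rpow_le_rpow_of_exponent_le hX1 (by linarith)
      _ = X := Real.rpow_one _
  have hn1 : 1 ≤ n := by omega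
  have hbq0 : ∀ q ∈ QQ, 0 < bq q := fun q hq' => lt_of_lt_of_le hb0 (hbq q hq').1
  have hq1 : ∀ q ∈ QQ, 1 ≤ q := hFam.1
  have hm1 : |(-1 : ℝ)| ≤ 1 := by norm_num
  have hp1 : |(1 : ℝ)| ≤ 1 := by norm_num
  have hwN := fun (s : ℝ) (hs : |s| ≤ 1) => hw X hXw δ hδ hδ8 s hs b N σ QQ bq hb0 hN1 hNbX hσ hFam hbq
  rw [← hLdef] at hwN
  obtain ⟨I, M, K, MM, ca, c, hI, hBlk, hdec⟩ := ha X hXa
  rw [← hLdef] at hI hBlk hdec
  obtain ⟨F, hF⟩ : ∃ F : ℕ → ℕ → ℕ → ℝ → ℂ, F = fun i q =>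
    f2f (MM i) (ca i) (tp (K i) (cq q (c i))) σ q := ⟨_, rfl⟩
  have hFc : ∀ i q a, Continuous (F i q a) := by
    intro i q a
    rw [hF]
    exact f2f_cont _ _ _ _ _ _ _
  have hGc : ∀ q a, Continuous fun x => ∑ i ∈ range I, F i q a x := fun q a =>
    continuous_finsetSum _ fun i _ => hFc i q a
  have hWc : ∀ s q a, Continuous fun x => WHa s δ σ (wX D' X) X q a x := fun s q a =>
    WHa_cont s δ σ (wX D' X) X q a
  have hS0 : 0 ≤ L ^ 4 := by positivity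
  have hSX : L ^ 4 ≤ X := hLX 4 (by omega)
  have hA0 : 0 ≤ L ^ 2 := by positivity
  have hAX : L ^ 2 ≤ X := hLX 2 (by omega)
  have GG : ∀ H : ℝ, 1 ≤ H → (∀ q ∈ QQ, H ≤ (hq q n : ℝ) * (1 + b)) →
      H ^ (-(1 / 4) : ℝ) ≤ (L ^ P)⁻¹ →
      ∑ q ∈ QQ, ‖Bq X (bq q) σ n q (fun a x => ∑ i ∈ range I, F i q a x)
        (fun a x => ∑ i ∈ range I, F i q a x)‖ ≤ (2 * C2 + 1) * (X / L ^ (A + 4)) := by
    intro H hH hHq hHr
    refine (sum_two X n I bq σ QQ F hFc (C2 * L ^ 3 * (L ^ 2) ^ 2 * L ^ 4 * X *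
      (H ^ (-(1 / 4) : ℝ) + (X : ℝ) ^ (-(1 / 20) : ℝ)) + 1) fun i hi j hj => ?_).trans
      (gg_bound C0 (A + 4) P hC2 hX0.le hL1 (Nat.cast_nonneg I) hI hP hHr
        (hyT.trans hPT) h1P)
    have h := ht X hXt n b N σ QQ bq hstd H hH hHq (M i) (M j) (L ^ 2) (L ^ 4) (K i) (K j) (MM i)
      (MM j) _ _ _ _ hA0 hAX hS0 hSX (hBlk i hi) (hBlk j hj)
    rw [← hLdef] at h
    rw [hF]
    exact h
  have hfin : ∀ Y : ℝ, Y ≤ Ct * (X / L ^ (A + 4)) → Y ≤ X / L ^ A := by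
    intro Y hY
    refine hY.trans ?_
    calc Ct * ((X : ℝ) / L ^ (A + 4)) ≤ L ^ 4 * ((X : ℝ) / L ^ (A + 4)) := by
          apply mul_le_mul_of_nonneg_right _ (by positivity)
          exact hLC.trans (le_self_pow₀ hL1 (by norm_num))
      _ = X / L ^ A := by
          rw [pow_add]
          field_simp
  have hXE0 : 0 ≤ (X : ℝ) / L ^ (A + 4) := by positivity
  by_cases hb2 : L ^ K2 < b
  · -- large `b`
    obtain ⟨E, hE⟩ : ∃ E : ℝ → ℕ → ℕ → ℝ → ℂ, E = fun s q a x => WHa s δ σ (wX D' X) X q a x -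
      ∑ i ∈ range I, F i q a x := ⟨_, rfl⟩
    have hEc : ∀ s q a, Continuous (E s q a) := by
      intro s q a
      rw [hE]
      exact (hWc s q a).sub (hGc q a)
    have hEN : ∀ s : ℝ, |s| ≤ 1 → N2 X bq QQ (E s) ≤ 4 * X / L ^ (2 * (A + 6)) := by
      intro s hs
      have h := (hdec n b N σ QQ bq hstd s hs).2 hb2
      have h' : N2 X bq QQ (E s) ≤ X / L ^ AE + X * L ^ 12 / L ^ K2 := by
        rw [hE, hF]
        exact h
      refine h'.trans ?_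
      have h3 : (X : ℝ) * L ^ 12 / L ^ K2 ≤ X / L ^ AE := by
        rw [div_le_div_iff₀ (by positivity) (by positivity), mul_assoc, ← pow_add]
        apply mul_le_mul_of_nonneg_left _ hX0.le
        exact pow_le_pow_right₀ hL1 (by omega)
      rw [← hAE]
      have h4 : 0 ≤ (X : ℝ) / L ^ AE := by positivity
      have h5 : 4 * (X : ℝ) / L ^ AE = 4 * (X / L ^ AE) := by ring
      linarith
    have hWE : ∀ s : ℝ, (fun q a x => WHa s δ σ (wX D' X) X q a x) =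
        fun q a x => (∑ i ∈ range I, F i q a x) + E s q a x := by
      intro s
      rw [hE]
      funext q a x
      ring
    have hW1 : N2 X bq QQ (fun q a x => (∑ i ∈ range I, F i q a x) + E (-1) q a x) ≤
        4 * X * L ^ 3 := by
      rw [← hWE]
      exact hwN (-1) hm1
    have hW2 : N2 X bq QQ (fun q a x => (∑ i ∈ range I, F i q a x) + E 1 q a x) ≤
        4 * X * L ^ 3 := by
      rw [← hWE]
      exact hwN 1 hp1
    have hexp := expand X n bq σ QQ hbq0 (fun q a x => ∑ i ∈ range I, F i q a x) (E (-1))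
      (fun q a x => ∑ i ∈ range I, F i q a x) (E 1) hGc (hEc _) hGc (hEc _)
    have herr := err_bound A hX0.le hL1 (hEN (-1) hm1) (hEN 1 hp1) hW1 hW2
    have hgg := GG (L ^ K2) (one_le_pow₀ hL1) (by
      intro q hq'
      have h3 : 1 ≤ (hq q n : ℝ) := by
        have : 1 ≤ hq q n := by
          unfold hq
          exact (Nat.one_le_div_iff (Nat.gcd_pos_of_pos_left n (hq1 q hq'))).2
            (Nat.gcd_le_left n (hq1 q hq'))
        exact_mod_cast this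
      nlinarith) (by
      rw [hK2, hroot hL0]
      exact inv_anti₀ (by positivity) (pow_le_pow_right₀ hL1 (by omega)))
    have hgoal : ∑ q ∈ QQ, ‖Bq X (bq q) σ n q (WHa (-1) δ σ (wX D' X) X q)
        (WHa 1 δ σ (wX D' X) X q)‖ =
        ∑ q ∈ QQ, ‖Bq X (bq q) σ n q (fun a x => (∑ i ∈ range I, F i q a x) + E (-1) q a x)
        (fun a x => (∑ i ∈ range I, F i q a x) + E 1 q a x)‖ := by
      refine sum_congr rfl fun q _ => ?_
      have e1 := congrFun (hWE (-1)) q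
      have e2 := congrFun (hWE 1) q
      rw [← e1, ← e2]
    apply hfin
    rw [hgoal, hCt]
    refine hexp.trans ?_
    have hc1 : 0 ≤ 2 * C3 * (2 * C5 + 2) + 1 := by positivity
    have hc2 : 0 ≤ 2 * C4 * C5 := by positivity
    have hc3 := mul_nonneg hc1 hXE0
    have hc4 := mul_nonneg hc2 hXE0
    linarith
  · -- small `b`
    have hb2' : b ≤ L ^ K2 := not_lt.1 hb2
    have hqq : ∀ q ∈ QQ, L ^ (8 * T) ≤ (hq q n : ℝ) := by
      rcases hcase with h | h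
      · exact absurd h hb2
      · intro q hq'
        have h3 := h q hq'
        have h4 : (Nat.gcd q n : ℝ) * (hq q n : ℝ) = q := by
          unfold hq
          exact_mod_cast Nat.mul_div_cancel' (Nat.gcd_dvd_left q n)
        have h5 : (0 : ℝ) < (Nat.gcd q n : ℝ) := by
          exact_mod_cast Nat.gcd_pos_of_pos_left n (hq1 q hq')
        rw [← h4, mul_comm] at h3
        exact (lt_of_mul_lt_mul_left h3 h5.le).le
    have hlam := fun (s : ℝ) (hs : |s| ≤ 1) => (hdec n b N σ QQ bq hstd s hs).1 hb2'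
    obtain ⟨l1, hl1c, hl1b, hl1N⟩ := hlam (-1) hm1
    obtain ⟨l2, hl2c, hl2b, hl2N⟩ := hlam 1 hp1
    have hSg : ∑ q ∈ QQ, 1 / ((q : ℝ) * (hq q n : ℝ) ^ (1 / 4 : ℝ)) ≤
        2 * C5 * L * ((L ^ T)⁻¹) ^ 2 := by
      refine (hds n QQ (L ^ (8 * T)) hn1 (one_le_pow₀ hL1) fun q hq' =>
        ⟨hq1 q hq', hqq q hq'⟩).trans ?_
      rw [show 8 * T = 4 * (T + T) by ring, hroot hL0, pow_add, mul_inv]
      have h3 : 1 + Real.log n ≤ 2 * L := by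
        have : Real.log n ≤ L := by
          rw [hLdef]
          exact Real.log_le_log (by exact_mod_cast hn1) (by exact_mod_cast hnX)
        linarith
      have h4 : C5 * (1 + Real.log n) ≤ C5 * (2 * L) := mul_le_mul_of_nonneg_left h3 hC5.le
      calc C5 * (1 + Real.log n) * ((L ^ T)⁻¹ * (L ^ T)⁻¹)
          ≤ C5 * (2 * L) * ((L ^ T)⁻¹ * (L ^ T)⁻¹) :=
            mul_le_mul_of_nonneg_right h4 (by positivity)
        _ = 2 * C5 * L * ((L ^ T)⁻¹) ^ 2 := by ring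
    have hgg := GG (L ^ (8 * T)) (one_le_pow₀ hL1) (by
      intro q hq'
      have h3 := hqq q hq'
      have h4 : (0 : ℝ) ≤ (hq q n : ℝ) := Nat.cast_nonneg _
      exact h3.trans (le_mul_of_one_le_right h4 (le_add_of_nonneg_right hb0.le))) (by
      rw [show 8 * T = 4 * (T + T) by ring, hroot hL0]
      exact inv_anti₀ (by positivity) (pow_le_pow_right₀ hL1 (by omega)))
    have hL3X : L ^ 4 ≤ X := hLX 4 (by omega)
    have hLT : ∀ l : ℕ → ℝ → ℂ, (∀ q, Continuous (l q)) →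
        (∀ q ∈ QQ, ∀ x, ‖l q x‖ ≤ L ^ 4 * X / q) →
        ∑ q ∈ QQ, ‖Bq X (bq q) σ n q (fun _ x => l q x)
          (fun a x => ∑ i ∈ range I, F i q a x)‖ ≤
          (2 * C3 * (2 * C5 + 2) + 1) * (X / L ^ (A + 4)) := by
      intro l hlc hlb
      refine (sum_one X n I bq σ QQ (fun q _ x => l q x) (fun q _ => hlc q) F hFc
        (C3 * L ^ 2 * L ^ 4 * L ^ 2 * Real.sqrt (L ^ 4) * (1 + b) * X *
        (Real.sqrt (∑ q ∈ QQ, 1 / ((q : ℝ) * (hq q n : ℝ) ^ (1 / 4 : ℝ))) +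
          (X : ℝ) ^ (-(1 / 20) : ℝ)) + 1) fun i hi => ?_).trans
        (lt_bound C0 K2 (A + 4) T hC3 hC5 hX0.le hL1 (Nat.cast_nonneg I) hI hb0 hb2'
          (by omega) hSg hyT h1T)
      have h := hl X hXl n b N σ QQ bq hstd l (L ^ 4) hlc (by positivity) hL3X hlb
        (M i) (L ^ 2) (L ^ 4) (K i) (MM i) _ _ hA0 hAX hS0 hSX (hBlk i hi)
      rw [← hLdef] at h
      rw [hF]
      exact h
    have hLL : ∑ q ∈ QQ, ‖Bq X (bq q) σ n q (fun _ x => l1 q x) (fun _ x => l2 q x)‖ ≤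
        2 * C4 * C5 * (X / L ^ (A + 4)) :=
      (hll X n b σ QQ bq hX1' hb0 hσ hq1 hn1 hbq l1 l2 (L ^ 4) hl1c hl2c (by positivity)
        hl1b hl2b).trans
        (ll_bound K2 (A + 4) T hC4 hC5 hX0.le hL1 hb0 hb2' (by omega) hSg)
    obtain ⟨E1, hE1⟩ : ∃ E1 : ℕ → ℕ → ℝ → ℂ, E1 = fun q a x =>
      WHa (-1) δ σ (wX D' X) X q a x - l1 q x - ∑ i ∈ range I, F i q a x := ⟨_, rfl⟩
    obtain ⟨E2, hE2⟩ : ∃ E2 : ℕ → ℕ → ℝ → ℂ, E2 = fun q a x =>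
      WHa 1 δ σ (wX D' X) X q a x - l2 q x - ∑ i ∈ range I, F i q a x := ⟨_, rfl⟩
    have hE1c : ∀ q a, Continuous (E1 q a) := by
      intro q a
      rw [hE1]
      exact ((hWc (-1) q a).sub (hl1c q)).sub (hGc q a)
    have hE2c : ∀ q a, Continuous (E2 q a) := by
      intro q a
      rw [hE2]
      exact ((hWc 1 q a).sub (hl2c q)).sub (hGc q a)
    have h4X : (X : ℝ) / L ^ AE ≤ 4 * X / L ^ (2 * (A + 6)) := by
      rw [← hAE]
      have h4 : 0 ≤ (X : ℝ) / L ^ AE := by positivity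
      have h5 : 4 * (X : ℝ) / L ^ AE = 4 * (X / L ^ AE) := by ring
      linarith
    have hE1N : N2 X bq QQ E1 ≤ 4 * X / L ^ (2 * (A + 6)) := by
      refine le_trans ?_ h4X
      rw [hE1, hF]
      exact hl1N
    have hE2N : N2 X bq QQ E2 ≤ 4 * X / L ^ (2 * (A + 6)) := by
      refine le_trans ?_ h4X
      rw [hE2, hF]
      exact hl2N
    have hWE1 : (fun q a x => WHa (-1) δ σ (wX D' X) X q a x) =
        fun q a x => (l1 q x + ∑ i ∈ range I, F i q a x) + E1 q a x := by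
      rw [hE1]
      funext q a x
      ring
    have hWE2 : (fun q a x => WHa 1 δ σ (wX D' X) X q a x) =
        fun q a x => (l2 q x + ∑ i ∈ range I, F i q a x) + E2 q a x := by
      rw [hE2]
      funext q a x
      ring
    have hW1 : N2 X bq QQ (fun q a x => (l1 q x + ∑ i ∈ range I, F i q a x) + E1 q a x) ≤
        4 * X * L ^ 3 := by
      rw [← hWE1]
      exact hwN (-1) hm1
    have hW2 : N2 X bq QQ (fun q a x => (l2 q x + ∑ i ∈ range I, F i q a x) + E2 q a x) ≤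
        4 * X * L ^ 3 := by
      rw [← hWE2]
      exact hwN 1 hp1
    have hexp := expand X n bq σ QQ hbq0 (fun q a x => l1 q x + ∑ i ∈ range I, F i q a x) E1
      (fun q a x => l2 q x + ∑ i ∈ range I, F i q a x) E2
      (fun q a => (hl1c q).add (hGc q a)) hE1c (fun q a => (hl2c q).add (hGc q a)) hE2c
    have herr := err_bound A hX0.le hL1 hE1N hE2N hW1 hW2
    have hfour := four X n bq σ QQ (fun q _ x => l1 q x) (fun q _ x => l2 q x)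
      (fun q a x => ∑ i ∈ range I, F i q a x) (fun q _ => hl1c q) (fun q _ => hl2c q) hGc
    have hlt1 := hLT l1 hl1c hl1b
    have hlt2 := hLT l2 hl2c hl2b
    have hgoal : ∑ q ∈ QQ, ‖Bq X (bq q) σ n q (WHa (-1) δ σ (wX D' X) X q)
        (WHa 1 δ σ (wX D' X) X q)‖ =
        ∑ q ∈ QQ, ‖Bq X (bq q) σ n q
          (fun a x => (l1 q x + ∑ i ∈ range I, F i q a x) + E1 q a x)
          (fun a x => (l2 q x + ∑ i ∈ range I, F i q a x) + E2 q a x)‖ := by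
      refine sum_congr rfl fun q _ => ?_
      have e1 := congrFun hWE1 q
      have e2 := congrFun hWE2 q
      rw [← e1, ← e2]
    apply hfin
    rw [hgoal, hCt]
    refine hexp.trans ?_
    linarith

end Pool.MP_dd84fd_nt.HXP
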