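import Pool.Agent.Lib.MP_dd84fd_nt.HX.PlTI
import Pool.Agent.Lib.MP_dd84fd_nt.HX.PlAlg
import Pool.Agent.Lib.MP_dd84fd_nt.PL.BqN2
import Pool.Agent.Lib.MP_dd84fd_nt.PL.Overlap
import Pool.Agent.Lib.MP_dd84fd_nt.PL.LamTwo

/-!
# PL_H-TIN: type I sums on the arcs, `L²` norms

`L = log X`.  `N2_sup`: if `‖f q a x‖ ≤ F q` for `a ∈ rr q`, `b_q/X ≤ x ≤ 2b_q/X`, then `N2 f ≤ ∑_q φ(q) (b_q/X) F(q)²`.
`tia_N2`: `D ≤ X^(2/5)`: for `g ∣ q`, `g ≠ q`, and `(l,q) = 1` the number `q/g > 1` does not divide `l`: `ti_rest` with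
`4 D q x ≤ 4 X^(2/5) · q · 4b/X ≤ 1` (`qb ≤ Nb ≤ X^(1/2+5δ/2)`), `R = L²`: the sum over `g` is `≤ τ(q) C L² (X^(2/5)+q)(1+L) ≤ X^(1/2+5δ/2+1/100)`
(`q ≤ N ≤ Nb L^A1`; `τ(q) ≤ C X^(1/200)` from `PL.lt_tau 200`), `∑_q φ(q) ≤ 2N` (`count`): `N2 ≤ (4Nb/X) X^(1+5δ+1/50) ≤ X^(1/2+8δ+1/40) ≤ X^(3/4)`.
`tim_N2`: `D = V0 X ≤ X^(1/4)`, `g = 1`, `S = {d ≤ V0 : ¬ q ∣ d}`, the same.
`tila_N2` (`L^A1`-independent): `lam_iw_large` at `b_q/X ≤ x ≤ 2b_q/X`: `‖·‖ ≤ R(1+L)/(q b_q/X) ≤ L^4 X/(q b)`,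
`N2 ≤ ∑_q q (2b/X) L^8 X²/(q²b²) = 2 L^8 (X/b) ∑ 1/q ≤ X L^10/b`.
-/

set_option autoImplicit false

namespace Pool.MP_dd84fd_nt.HXP

open Finset Pool.MP_67663b_nt.Odd Pool.MP_dd84fd_nt.PL Pool.MP_dd84fd_nt.HX

private theorem tn_log (K : ℕ) (A η : ℝ) (hη : 0 < η) : ∃ X0 : ℕ, ∀ X : ℕ, X0 ≤ X →
    A * (Real.log X) ^ K ≤ (X : ℝ) ^ η := by
  have h1 := (isLittleO_log_rpow_rpow_atTop (K : ℝ) hη).bound
    (show (0 : ℝ) < 1 / (|A| + 1) by positivity)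
  obtain ⟨x0, hx0⟩ := Filter.eventually_atTop.1 h1
  refine ⟨max ⌈x0⌉₊ 1, fun X hX => ?_⟩
  have hX1 : 1 ≤ X := (le_max_right _ _).trans hX
  have hX2 : x0 ≤ X := (Nat.le_ceil x0).trans (by exact_mod_cast (le_max_left _ _).trans hX)
  have h2 := hx0 X hX2
  have hL : 0 ≤ Real.log X := Real.log_natCast_nonneg X
  have hXp : (0 : ℝ) ≤ (X : ℝ) ^ η := Real.rpow_nonneg (Nat.cast_nonneg X) _
  rw [Real.rpow_natCast, Real.norm_eq_abs, Real.norm_eq_abs, abs_of_nonneg (pow_nonneg hL K),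
    abs_of_nonneg hXp] at h2
  calc A * (Real.log X) ^ K ≤ |A| * (Real.log X) ^ K :=
        mul_le_mul_of_nonneg_right (le_abs_self A) (pow_nonneg hL K)
    _ ≤ |A| * (1 / (|A| + 1) * (X : ℝ) ^ η) := mul_le_mul_of_nonneg_left h2 (abs_nonneg A)
    _ = (|A| / (|A| + 1)) * (X : ℝ) ^ η := by ring
    _ ≤ 1 * (X : ℝ) ^ η := by
        apply mul_le_mul_of_nonneg_right _ hXp
        rw [div_le_one (by positivity)]
        linarith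
    _ = (X : ℝ) ^ η := one_mul _

private theorem tn_big (T : ℝ) : ∃ X0 : ℕ, ∀ X : ℕ, X0 ≤ X → T ≤ Real.log X := by
  refine ⟨⌈Real.exp T⌉₊, fun X hX => ?_⟩
  have h1 : Real.exp T ≤ X := (Nat.le_ceil _).trans (by exact_mod_cast hX)
  rw [Real.le_log_iff_exp_le ((Real.exp_pos T).trans_le h1)]
  exact h1

private theorem tn_V0 (X : ℕ) (hX : 1 ≤ X) : (V0 X : ℝ) ≤ (X : ℝ) ^ (2 / 5 : ℝ) := by
  have hX0 : (0 : ℝ) < X := by exact_mod_cast hX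
  have hX1 : (1 : ℝ) ≤ X := by exact_mod_cast hX
  have h3 : (V0 X : ℝ) ≤ Real.sqrt (Nat.sqrt X) := Real.nat_sqrt_le_real_sqrt
  have h4 : Real.sqrt (Nat.sqrt X) ≤ Real.sqrt (Real.sqrt X) :=
    Real.sqrt_le_sqrt Real.nat_sqrt_le_real_sqrt
  have h5 : Real.sqrt (Real.sqrt X) = (X : ℝ) ^ (1 / 4 : ℝ) := by
    rw [Real.sqrt_eq_rpow, Real.sqrt_eq_rpow, ← Real.rpow_mul hX0.le]
    norm_num
  exact ((h3.trans h4).trans h5.le).trans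
    (Real.rpow_le_rpow_of_exponent_le hX1 (by norm_num))

private theorem tn_harm (QQ : Finset ℕ) (N : ℝ) (hN : Fam QQ N) (hN1 : 1 ≤ N) :
    ∑ q ∈ QQ, 1 / (q : ℝ) ≤ 1 + Real.log N := by
  have hsub : QQ ⊆ Icc 1 ⌊N⌋₊ := by
    intro q hq
    rw [mem_Icc]
    refine ⟨hN.1 q hq, Nat.le_floor ?_⟩
    have := hN.2 q hq q hq
    rwa [Nat.lcm_self] at this
  have h1 : ∑ q ∈ QQ, 1 / (q : ℝ) ≤ ∑ q ∈ Icc 1 ⌊N⌋₊, 1 / (q : ℝ) :=
    sum_le_sum_of_subset_of_nonneg hsub fun _ _ _ => by positivity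
  have h2 := harmonic_le_one_add_log ⌊N⌋₊
  rw [harmonic_eq_sum_Icc] at h2
  push_cast at h2
  have h3 : ∑ q ∈ Icc 1 ⌊N⌋₊, 1 / (q : ℝ) = ∑ q ∈ Icc 1 ⌊N⌋₊, ((q : ℝ))⁻¹ :=
    sum_congr rfl fun _ _ => one_div _
  have h4 : Real.log ⌊N⌋₊ ≤ Real.log N := by
    apply Real.log_le_log
    · have : 1 ≤ ⌊N⌋₊ := Nat.le_floor (by exact_mod_cast hN1)
      exact_mod_cast this
    · exact Nat.floor_le (by linarith)
  rw [← h3] at h2
  linarith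

theorem N2_sup (X : ℕ) (hX : 1 ≤ X) (bq : ℕ → ℝ) (QQ : Finset ℕ) (hb : ∀ q ∈ QQ, 0 < bq q)
    (f : ℕ → ℕ → ℝ → ℂ) (hf : ∀ q a, Continuous (f q a)) (F : ℕ → ℝ)
    (h : ∀ q ∈ QQ, ∀ a ∈ rr q, ∀ x : ℝ, bq q / X ≤ x → x ≤ 2 * bq q / X → ‖f q a x‖ ≤ F q) :
    N2 X bq QQ f ≤ ∑ q ∈ QQ, (Nat.totient q : ℝ) * (bq q / X) * F q ^ 2 := by
  unfold N2
  apply sum_le_sum
  intro q hq
  have hb := (hb q hq).le
  have hle : bq q / X ≤ 2 * bq q / X := by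
    apply div_le_div_of_nonneg_right _ (Nat.cast_nonneg X)
    linarith
  have hcard : (Nat.totient q : ℝ) = ((rr q).card : ℝ) := by
    unfold rr
    rw [Nat.totient_eq_card_coprime]
    congr 2
    refine Finset.filter_congr fun a _ => ?_
    exact Nat.coprime_comm
  rw [hcard, mul_assoc, ← nsmul_eq_mul]
  apply sum_le_card_nsmul
  intro a ha
  have h1 : ‖∫ x in (bq q / X)..(2 * bq q / X), ‖f q a x‖ ^ 2‖ ≤
      F q ^ 2 * |2 * bq q / X - bq q / X| := by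
    apply intervalIntegral.norm_integral_le_of_norm_le_const
    intro x hx
    rw [Set.uIoc_of_le hle] at hx
    rw [Real.norm_eq_abs, abs_of_nonneg (by positivity)]
    exact pow_le_pow_left₀ (norm_nonneg _) (h q hq a ha x hx.1.le hx.2) 2
  have h2 : |2 * bq q / X - bq q / X| = bq q / X := by
    rw [abs_of_nonneg (by linarith)]
    ring
  rw [h2, Real.norm_eq_abs, mul_comm (F q ^ 2)] at h1
  exact (le_abs_self _).trans h1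

/-- facts for large `X` -/
private theorem tn_facts (δ : ℝ) (A1 : ℕ) (hδ' : δ ≤ 1 / 2000) : ∃ X0 : ℕ, ∀ X : ℕ,
    X0 ≤ X → ∀ (n : ℕ) (b N σ : ℝ) (QQ : Finset ℕ) (bq : ℕ → ℝ), StdH X n δ A1 b N σ QQ bq →
    1 ≤ X ∧ 2 ≤ Real.log X ∧ 0 < b ∧ N * b ≤ (X : ℝ) ^ (51 / 100 : ℝ) ∧
    N ≤ (X : ℝ) ^ (52 / 100 : ℝ) ∧ (∀ q ∈ QQ, 1 ≤ q ∧ (q : ℝ) ≤ N ∧ q ≤ X) ∧
    (∀ q ∈ QQ, ∀ x : ℝ, x ≤ 2 * bq q / X → 4 * (X : ℝ) ^ (2 / 5 : ℝ) * q * x ≤ 1) := by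
  obtain ⟨X1, hX1⟩ := tn_log A1 1 (1 / 100) (by norm_num)
  obtain ⟨X2, hX2⟩ := tn_big 2
  obtain ⟨X3, hX3⟩ := tn_log 0 16 (9 / 100) (by norm_num)
  refine ⟨max (max X1 X2) (max X3 1), ?_⟩
  intro X hX n b N σ QQ bq hstd
  have g1 := hX1 X ((le_max_left _ _).trans ((le_max_left _ _).trans hX))
  have g2 := hX2 X ((le_max_right _ _).trans ((le_max_left _ _).trans hX))
  have g3 := hX3 X ((le_max_left _ _).trans ((le_max_right _ _).trans hX))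
  have hX1' : 1 ≤ X := (le_max_right _ _).trans ((le_max_right _ _).trans hX)
  have hX0 : (0 : ℝ) < X := by exact_mod_cast hX1'
  have hX1R : (1 : ℝ) ≤ X := by exact_mod_cast hX1'
  obtain ⟨-, -, hσ, hbL, hN1, hNb, hfam, -, hbq⟩ := hstd
  obtain ⟨L, hL⟩ : ∃ L : ℝ, L = Real.log X := ⟨_, rfl⟩
  rw [← hL] at g1 g2 hbL
  rw [pow_zero, mul_one] at g3
  rw [one_mul] at g1
  have hL0 : 0 < L := by linarith
  have hb0 : 0 < b := lt_of_lt_of_le (Real.rpow_pos_of_pos hL0 _) hbL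
  have hNb' : N * b ≤ (X : ℝ) ^ (51 / 100 : ℝ) :=
    hNb.trans (Real.rpow_le_rpow_of_exponent_le hX1R (by linarith))
  have hNle : N ≤ (X : ℝ) ^ (52 / 100 : ℝ) := by
    have h1 : 1 ≤ b * L ^ A1 := by
      have h2 : L ^ (-(A1 : ℝ)) * L ^ A1 = 1 := by
        rw [← Real.rpow_natCast, ← Real.rpow_add hL0]
        simp
      calc 1 = L ^ (-(A1 : ℝ)) * L ^ A1 := h2.symm
        _ ≤ b * L ^ A1 := mul_le_mul_of_nonneg_right hbL (by positivity)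
    calc N = N * 1 := (mul_one N).symm
      _ ≤ N * (b * L ^ A1) := mul_le_mul_of_nonneg_left h1 (by linarith)
      _ = (N * b) * L ^ A1 := by ring
      _ ≤ (X : ℝ) ^ (51 / 100 : ℝ) * (X : ℝ) ^ (1 / 100 : ℝ) := by
          apply mul_le_mul hNb' g1 (by positivity) (by positivity)
      _ = (X : ℝ) ^ (52 / 100 : ℝ) := by
          rw [← Real.rpow_add hX0]
          norm_num
  have hq : ∀ q ∈ QQ, 1 ≤ q ∧ (q : ℝ) ≤ N ∧ q ≤ X := by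
    intro q hq
    have h1 := hfam.2 q hq q hq
    rw [Nat.lcm_self] at h1
    refine ⟨hfam.1 q hq, h1, ?_⟩
    have h2 : (X : ℝ) ^ (52 / 100 : ℝ) ≤ (X : ℝ) ^ (1 : ℝ) :=
      Real.rpow_le_rpow_of_exponent_le hX1R (by norm_num)
    rw [Real.rpow_one] at h2
    exact_mod_cast (h1.trans (hNle.trans h2))
  refine ⟨hX1', by rw [← hL]; exact g2, hb0, hNb', hNle, hq, ?_⟩
  intro q hqq x hx
  have h1 := (hq q hqq).2.1
  have h2 : x ≤ 4 * b / X := by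
    refine hx.trans ?_
    apply div_le_div_of_nonneg_right _ hX0.le
    linarith [(hbq q hqq).2]
  have hXe : (X : ℝ) ^ (2 / 5 : ℝ) * (X : ℝ) ^ (51 / 100 : ℝ) * (X : ℝ) ^ (9 / 100 : ℝ) = X := by
    rw [← Real.rpow_add hX0, ← Real.rpow_add hX0]
    norm_num
  calc 4 * (X : ℝ) ^ (2 / 5 : ℝ) * q * x ≤ 4 * (X : ℝ) ^ (2 / 5 : ℝ) * q * (4 * b / X) := by
        apply mul_le_mul_of_nonneg_left h2 (by positivity)
    _ ≤ 4 * (X : ℝ) ^ (2 / 5 : ℝ) * N * (4 * b / X) := by gcongr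
    _ = 16 * ((X : ℝ) ^ (2 / 5 : ℝ) * (N * b)) / X := by ring
    _ ≤ (X : ℝ) ^ (9 / 100 : ℝ) * ((X : ℝ) ^ (2 / 5 : ℝ) * (X : ℝ) ^ (51 / 100 : ℝ)) / X := by
        gcongr
    _ = ((X : ℝ) ^ (2 / 5 : ℝ) * (X : ℝ) ^ (51 / 100 : ℝ) * (X : ℝ) ^ (9 / 100 : ℝ)) / X := by
        ring
    _ = 1 := by
        rw [hXe]
        exact div_self hX0.ne'

/-- a pointwise bound `X^(11/20)` suffices -/
private theorem tn_fin (δ : ℝ) (A1 : ℕ) (hδ' : δ ≤ 1 / 2000) : ∃ X0 : ℕ, ∀ X : ℕ,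
    X0 ≤ X → ∀ (n : ℕ) (b N σ : ℝ) (QQ : Finset ℕ) (bq : ℕ → ℝ), StdH X n δ A1 b N σ QQ bq →
    ∀ f : ℕ → ℕ → ℝ → ℂ, (∀ q a, Continuous (f q a)) →
    (∀ q ∈ QQ, ∀ a ∈ rr q, ∀ x : ℝ, bq q / X ≤ x → x ≤ 2 * bq q / X →
      ‖f q a x‖ ≤ (X : ℝ) ^ (55 / 100 : ℝ)) →
    N2 X bq QQ f ≤ (X : ℝ) ^ (3 / 4 : ℝ) := by
  obtain ⟨X1, hX1⟩ := tn_facts δ A1 hδ'
  obtain ⟨X2, hX2⟩ := tn_log 0 4 (14 / 100) (by norm_num)
  refine ⟨max X1 X2, ?_⟩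
  intro X hX n b N σ QQ bq hstd f hf h
  obtain ⟨hX1', -, hb0, hNb, -, -, -⟩ := hX1 X ((le_max_left _ _).trans hX) n b N σ QQ bq hstd
  have g2 := hX2 X ((le_max_right _ _).trans hX)
  rw [pow_zero, mul_one] at g2
  have hX0 : (0 : ℝ) < X := by exact_mod_cast hX1'
  obtain ⟨-, -, -, -, hN1, -, hfam, -, hbq⟩ := hstd
  have h0 := N2_sup X hX1' bq QQ (fun q hq => hb0.trans_le (hbq q hq).1) f hf
    (fun _ => (X : ℝ) ^ (55 / 100 : ℝ)) h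
  refine h0.trans ?_
  have hcount := count QQ N hfam hN1
  have h1 : ∑ q ∈ QQ, (Nat.totient q : ℝ) * (bq q / X) * ((X : ℝ) ^ (55 / 100 : ℝ)) ^ 2 ≤
      ∑ q ∈ QQ, (Nat.totient q : ℝ) * ((2 * b / X) * ((X : ℝ) ^ (55 / 100 : ℝ)) ^ 2) := by
    apply sum_le_sum
    intro q hq
    have h6 := (hbq q hq).2
    rw [mul_assoc]
    gcongr
  refine h1.trans ?_
  rw [← sum_mul]
  have h8 : ((X : ℝ) ^ (55 / 100 : ℝ)) ^ 2 = (X : ℝ) * (X : ℝ) ^ (10 / 100 : ℝ) := by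
    rw [← Real.rpow_natCast, ← Real.rpow_mul hX0.le]
    nth_rewrite 2 [← Real.rpow_one (X : ℝ)]
    rw [← Real.rpow_add hX0]
    norm_num
  calc (∑ q ∈ QQ, (Nat.totient q : ℝ)) * ((2 * b / X) * ((X : ℝ) ^ (55 / 100 : ℝ)) ^ 2)
      ≤ (2 * N) * ((2 * b / X) * ((X : ℝ) ^ (55 / 100 : ℝ)) ^ 2) := by
        apply mul_le_mul_of_nonneg_right _ (by positivity)
        linarith
    _ = 4 * (N * b) * (X : ℝ) ^ (10 / 100 : ℝ) := by
        rw [h8]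
        field_simp
        ring
    _ ≤ (X : ℝ) ^ (14 / 100 : ℝ) * (X : ℝ) ^ (51 / 100 : ℝ) * (X : ℝ) ^ (10 / 100 : ℝ) := by
        gcongr
    _ = (X : ℝ) ^ (3 / 4 : ℝ) := by
        rw [← Real.rpow_add hX0, ← Real.rpow_add hX0]
        norm_num

private theorem tn_tau : ∃ D : ℝ, 1 ≤ D ∧ ∀ h X : ℕ, 1 ≤ h → h ≤ X →
    (h.divisors.card : ℝ) ≤ D * (X : ℝ) ^ (1 / 50 : ℝ) := by
  obtain ⟨D, hD, h4⟩ := lt_tau 50
  refine ⟨D, hD, fun h X hh hX => ?_⟩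
  have hX' : (h : ℝ) ≤ X := by exact_mod_cast hX
  have hτ0 : (0 : ℝ) ≤ (h.divisors.card : ℝ) := Nat.cast_nonneg _
  calc (h.divisors.card : ℝ) = ((h.divisors.card : ℝ) ^ 50) ^ (1 / 50 : ℝ) := by
        rw [← Real.rpow_natCast, ← Real.rpow_mul hτ0]
        norm_num
    _ ≤ (D * X) ^ (1 / 50 : ℝ) :=
        Real.rpow_le_rpow (by positivity) ((h4 h hh).trans
          (mul_le_mul_of_nonneg_left hX' (by linarith))) (by norm_num)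
    _ = D ^ (1 / 50 : ℝ) * (X : ℝ) ^ (1 / 50 : ℝ) := Real.mul_rpow (by linarith) (by positivity)
    _ ≤ D ^ (1 : ℝ) * (X : ℝ) ^ (1 / 50 : ℝ) := by
        refine mul_le_mul_of_nonneg_right ?_ (by positivity)
        exact Real.rpow_le_rpow_of_exponent_le hD (by norm_num)
    _ = D * (X : ℝ) ^ (1 / 50 : ℝ) := by rw [Real.rpow_one]

/-- size of one type I sum -/
private theorem tn_size (C D0 : ℝ) (hC : 0 < C) (hD0 : 1 ≤ D0) : ∃ X0 : ℕ, ∀ X : ℕ, X0 ≤ X →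
    ∀ (q D : ℕ) (N : ℝ), 1 ≤ X → 2 ≤ Real.log X → 1 ≤ q → q ≤ X → (q : ℝ) ≤ N →
    N ≤ (X : ℝ) ^ (52 / 100 : ℝ) → (D : ℝ) ≤ (X : ℝ) ^ (2 / 5 : ℝ) →
    (D0 * (X : ℝ) ^ (1 / 50 : ℝ)) * (C * (Real.log X) ^ 2 * ((D : ℝ) + q) * (1 + Real.log q)) ≤
      (X : ℝ) ^ (55 / 100 : ℝ) := by
  obtain ⟨X1, hX1⟩ := tn_log 3 (4 * C * D0) (1 / 100) (by norm_num)
  refine ⟨X1, ?_⟩
  intro X hX q D N hX1' hL2 hq1 hqX hqN hN hD
  have g1 := hX1 X hX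
  have hX0 : (0 : ℝ) < X := by exact_mod_cast hX1'
  have hX1R : (1 : ℝ) ≤ X := by exact_mod_cast hX1'
  have hlog : 1 + Real.log q ≤ 2 * Real.log X := by
    have : Real.log q ≤ Real.log X :=
      Real.log_le_log (by exact_mod_cast hq1) (by exact_mod_cast hqX)
    linarith
  have hlog0 : 0 ≤ 1 + Real.log q := by
    have := Real.log_natCast_nonneg q
    linarith
  have hDq : (D : ℝ) + q ≤ 2 * (X : ℝ) ^ (52 / 100 : ℝ) := by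
    have h1 : (X : ℝ) ^ (2 / 5 : ℝ) ≤ (X : ℝ) ^ (52 / 100 : ℝ) :=
      Real.rpow_le_rpow_of_exponent_le hX1R (by norm_num)
    linarith
  have hL0 : 0 ≤ Real.log X := by linarith
  calc (D0 * (X : ℝ) ^ (1 / 50 : ℝ)) *
        (C * (Real.log X) ^ 2 * ((D : ℝ) + q) * (1 + Real.log q))
      ≤ (D0 * (X : ℝ) ^ (1 / 50 : ℝ)) *
        (C * (Real.log X) ^ 2 * (2 * (X : ℝ) ^ (52 / 100 : ℝ)) * (2 * Real.log X)) := by
        gcongr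
    _ = (4 * C * D0 * (Real.log X) ^ 3) *
        ((X : ℝ) ^ (1 / 50 : ℝ) * (X : ℝ) ^ (52 / 100 : ℝ)) := by ring
    _ ≤ (X : ℝ) ^ (1 / 100 : ℝ) * ((X : ℝ) ^ (1 / 50 : ℝ) * (X : ℝ) ^ (52 / 100 : ℝ)) := by
        gcongr
    _ = (X : ℝ) ^ (55 / 100 : ℝ) := by
        rw [← Real.rpow_add hX0, ← Real.rpow_add hX0]
        norm_num

private theorem tn_moebius (g : ℕ) : ‖((ArithmeticFunction.moebius g : ℤ) : ℂ)‖ ≤ 1 := by
  rw [Complex.norm_intCast]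
  exact_mod_cast ArithmeticFunction.abs_moebius_le_one

theorem tia_N2 (δ : ℝ) (A1 : ℕ) (hδ : 0 < δ) (hδ' : δ ≤ 1 / 2000) : ∃ X0 : ℕ, ∀ X : ℕ, X0 ≤ X →
    ∀ (n : ℕ) (b N σ : ℝ) (QQ : Finset ℕ) (bq : ℕ → ℝ), StdH X n δ A1 b N σ QQ bq →
    ∀ (D : ℕ) (γ : ℕ → ℕ → ℝ), (D : ℝ) ≤ (X : ℝ) ^ (2 / 5 : ℝ) →
    (∀ l, BVw X ((Real.log X) ^ 2) (γ l)) →
    N2 X bq QQ (fun q a x => ∑ g ∈ q.divisors.filter (fun g => g ≠ q),
      ((ArithmeticFunction.moebius g : ℤ) : ℂ) *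
        ∑ l ∈ (Icc 1 D).filter (fun l => Nat.Coprime l q),
          iw X (l * g) (γ l) ((a : ℝ) / q + σ * x)) ≤ (X : ℝ) ^ (3 / 4 : ℝ) := by
  obtain ⟨C, hC, hti⟩ := ti_rest
  obtain ⟨D0, hD0, htau⟩ := tn_tau
  obtain ⟨X1, hX1⟩ := tn_facts δ A1 hδ'
  obtain ⟨X2, hX2⟩ := tn_fin δ A1 hδ'
  obtain ⟨X3, hX3⟩ := tn_size C D0 hC hD0
  refine ⟨max X1 (max X2 X3), ?_⟩
  intro X hX n b N σ QQ bq hstd D γ hD hγ
  obtain ⟨hX1', hL2, hb0, hNb, hN, hq, hx4⟩ := hX1 X ((le_max_left _ _).trans hX) n b N σ QQ bq hstd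
  have hX0 : (0 : ℝ) < X := by exact_mod_cast hX1'
  refine hX2 X ((le_max_left _ _).trans ((le_max_right _ _).trans hX)) n b N σ QQ bq hstd _ ?_ ?_
  · intro q a
    refine continuous_finsetSum _ fun g _ => continuous_const.mul ?_
    refine continuous_finsetSum _ fun l _ => ?_
    exact (iw_cont X (l * g) (γ l)).comp (by fun_prop)
  · intro q hqq a ha x hx1 hx2
    obtain ⟨hq1, hqN, hqX⟩ := hq q hqq
    have hcop : Nat.Coprime a q := by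
      unfold rr at ha
      exact (mem_filter.1 ha).2
    have hbq := hstd.2.2.2.2.2.2.2.2 q hqq
    have hx0 : 0 ≤ x := le_trans (div_nonneg (hb0.le.trans hbq.1) hX0.le) hx1
    have hsz := hX3 X ((le_max_right _ _).trans ((le_max_right _ _).trans hX)) q D N hX1' hL2 hq1
      hqX hqN hN hD
    have hDx : 4 * (D : ℝ) * q * x ≤ 1 := by
      refine le_trans ?_ (hx4 q hqq x hx2)
      gcongr
    refine le_trans ?_ hsz
    have hB0 : 0 ≤ C * (Real.log X) ^ 2 * ((D : ℝ) + q) * (1 + Real.log q) := by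
      have := Real.log_natCast_nonneg q
      positivity
    have h1 : ∀ g ∈ q.divisors.filter (fun g => g ≠ q),
        ‖((ArithmeticFunction.moebius g : ℤ) : ℂ) *
          ∑ l ∈ (Icc 1 D).filter (fun l => Nat.Coprime l q),
            iw X (l * g) (γ l) ((a : ℝ) / q + σ * x)‖ ≤
        C * (Real.log X) ^ 2 * ((D : ℝ) + q) * (1 + Real.log q) := by
      intro g hg
      rw [mem_filter, Nat.mem_divisors] at hg
      obtain ⟨⟨hgq, hq0⟩, hne⟩ := hg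
      rw [norm_mul]
      have h2 := hti X q a g D ((Icc 1 D).filter (fun l => Nat.Coprime l q)) γ ((Real.log X) ^ 2) x
        σ hq1 hcop hgq (by
          intro l hl
          rw [mem_filter, mem_Icc] at hl
          refine ⟨hl.1.1, hl.1.2, fun hdv => ?_⟩
          have h3 : q / g ∣ q := Nat.div_dvd_of_dvd hgq
          have h4 : q / g ∣ 1 := by
            have := Nat.dvd_gcd hdv h3
            rwa [hl.2] at this
          have h5 : q / g = 1 := Nat.dvd_one.1 h4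
          apply hne
          have h6 := Nat.div_mul_cancel hgq
          rw [h5, one_mul] at h6
          exact h6) hstd.2.2.1 hx0 hDx (by positivity) (fun l _ => hγ l)
      calc ‖((ArithmeticFunction.moebius g : ℤ) : ℂ)‖ * _ ≤ 1 * _ :=
            mul_le_mul_of_nonneg_right (tn_moebius g) (norm_nonneg _)
        _ ≤ _ := by rw [one_mul]; exact h2
    refine (norm_sum_le _ _).trans ((sum_le_card_nsmul _ _ _ h1).trans ?_)
    rw [nsmul_eq_mul]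
    apply mul_le_mul_of_nonneg_right _ hB0
    refine le_trans ?_ (htau q X hq1 hqX)
    exact_mod_cast card_le_card (filter_subset _ _)

theorem tim_N2 (δ : ℝ) (A1 : ℕ) (hδ : 0 < δ) (hδ' : δ ≤ 1 / 2000) : ∃ X0 : ℕ, ∀ X : ℕ, X0 ≤ X →
    ∀ (n : ℕ) (b N σ : ℝ) (QQ : Finset ℕ) (bq : ℕ → ℝ), StdH X n δ A1 b N σ QQ bq →
    ∀ (γ : ℕ → ℕ → ℝ), (∀ l, BVw X ((Real.log X) ^ 2) (γ l)) →
    N2 X bq QQ (fun q a x => ∑ d ∈ (Icc 1 (V0 X)).filter (fun d => ¬ q ∣ d),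
      iw X d (γ d) ((a : ℝ) / q + σ * x)) ≤ (X : ℝ) ^ (3 / 4 : ℝ) := by
  obtain ⟨C, hC, hti⟩ := ti_rest
  obtain ⟨X1, hX1⟩ := tn_facts δ A1 hδ'
  obtain ⟨X2, hX2⟩ := tn_fin δ A1 hδ'
  obtain ⟨X3, hX3⟩ := tn_size C 1 hC le_rfl
  refine ⟨max X1 (max X2 X3), ?_⟩
  intro X hX n b N σ QQ bq hstd γ hγ
  obtain ⟨hX1', hL2, hb0, hNb, hN, hq, hx4⟩ := hX1 X ((le_max_left _ _).trans hX) n b N σ QQ bq hstd
  have hX0 : (0 : ℝ) < X := by exact_mod_cast hX1'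
  have hX1R : (1 : ℝ) ≤ X := by exact_mod_cast hX1'
  refine hX2 X ((le_max_left _ _).trans ((le_max_right _ _).trans hX)) n b N σ QQ bq hstd _ ?_ ?_
  · intro q a
    refine continuous_finsetSum _ fun l _ => ?_
    exact (iw_cont X l (γ l)).comp (by fun_prop)
  · intro q hqq a ha x hx1 hx2
    obtain ⟨hq1, hqN, hqX⟩ := hq q hqq
    have hcop : Nat.Coprime a q := by
      unfold rr at ha
      exact (mem_filter.1 ha).2
    have hbq := hstd.2.2.2.2.2.2.2.2 q hqq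
    have hx0 : 0 ≤ x := le_trans (div_nonneg (hb0.le.trans hbq.1) hX0.le) hx1
    have hD := tn_V0 X hX1'
    have hsz := hX3 X ((le_max_right _ _).trans ((le_max_right _ _).trans hX)) q (V0 X) N hX1' hL2
      hq1 hqX hqN hN hD
    have hDx : 4 * (V0 X : ℝ) * q * x ≤ 1 := by
      refine le_trans ?_ (hx4 q hqq x hx2)
      gcongr
    have hB0 : 0 ≤ C * (Real.log X) ^ 2 * ((V0 X : ℝ) + q) * (1 + Real.log q) := by
      have := Real.log_natCast_nonneg q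
      positivity
    have h2 := hti X q a 1 (V0 X) ((Icc 1 (V0 X)).filter (fun d => ¬ q ∣ d)) γ ((Real.log X) ^ 2) x
      σ hq1 hcop (one_dvd q) (by
        intro l hl
        rw [mem_filter, mem_Icc] at hl
        rw [Nat.div_one]
        exact ⟨hl.1.1, hl.1.2, hl.2⟩) hstd.2.2.1 hx0 hDx (by positivity) (fun l _ => hγ l)
    simp only [mul_one] at h2
    refine h2.trans (le_trans ?_ hsz)
    have h3 : (1 : ℝ) ≤ 1 * (X : ℝ) ^ (1 / 50 : ℝ) := by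
      rw [one_mul]
      exact Real.one_le_rpow hX1R (by norm_num)
    exact le_mul_of_one_le_left hB0 h3

theorem tila_N2 (δ : ℝ) (A1 : ℕ) (hδ : 0 < δ) (hδ' : δ ≤ 1 / 2000) : ∃ X0 : ℕ, ∀ X : ℕ, X0 ≤ X →
    ∀ (n : ℕ) (b N σ : ℝ) (QQ : Finset ℕ) (bq : ℕ → ℝ), StdH X n δ A1 b N σ QQ bq →
    ∀ (S : ℕ → Finset ℕ) (γ : ℕ → ℕ → ℕ → ℝ),
    (∀ q, ∀ l ∈ S q, 1 ≤ l ∧ (l : ℝ) ≤ (X : ℝ) ^ (2 / 5 : ℝ)) →
    (∀ q l, BVw X ((Real.log X) ^ 2) (γ q l)) →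
    N2 X bq QQ (fun q _ x => ∑ l ∈ S q, iw X (l * q) (γ q l) (σ * x)) ≤
      X * (Real.log X) ^ 10 / b := by
  obtain ⟨X1, hX1⟩ := tn_facts δ A1 hδ'
  refine ⟨X1, ?_⟩
  intro X hX n b N σ QQ bq hstd S γ hS hγ
  obtain ⟨hX1', hL2, hb0, hNb, hN, hq, hx4⟩ := hX1 X hX n b N σ QQ bq hstd
  have hX0 : (0 : ℝ) < X := by exact_mod_cast hX1'
  have hX1R : (1 : ℝ) ≤ X := by exact_mod_cast hX1'
  obtain ⟨-, -, hσ, -, hN1, -, hfam, -, hbq⟩ := hstd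
  obtain ⟨L, hL⟩ : ∃ L : ℝ, L = Real.log X := ⟨_, rfl⟩
  have hL0 : 0 < L := by linarith
  have hbq0 : ∀ q ∈ QQ, 0 < bq q := fun q hqq => hb0.trans_le (hbq q hqq).1
  have h0 := N2_sup X hX1' bq QQ hbq0 (fun q _ x => ∑ l ∈ S q, iw X (l * q) (γ q l) (σ * x))
    (fun q a => continuous_finsetSum _ fun l _ => (iw_cont X (l * q) (γ q l)).comp (by fun_prop))
    (fun q => L ^ 2 * (1 + L) * X / (q * bq q)) (by
      intro q hqq a ha x hx1 hx2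
      obtain ⟨hq1, hqN, hqX⟩ := hq q hqq
      have hq0 : (0 : ℝ) < q := by exact_mod_cast hq1
      have hb1 := hbq0 q hqq
      have hx0 : 0 < x := lt_of_lt_of_le (div_pos hb1 hX0) hx1
      have hD1 : ((⌊(X : ℝ) ^ (2 / 5 : ℝ)⌋₊ : ℕ) : ℝ) ≤ (X : ℝ) ^ (2 / 5 : ℝ) :=
        Nat.floor_le (by positivity)
      have h1 := lam_iw_large X q ⌊(X : ℝ) ^ (2 / 5 : ℝ)⌋₊ (S q) (γ q) ((Real.log X) ^ 2) x σ hX1'
        hq1 (by
          have h2 : (X : ℝ) ^ (2 / 5 : ℝ) ≤ (X : ℝ) ^ (1 : ℝ) :=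
            Real.rpow_le_rpow_of_exponent_le hX1R (by norm_num)
          rw [Real.rpow_one] at h2
          exact_mod_cast hD1.trans h2)
        (fun l hl => ⟨(hS q l hl).1, Nat.le_floor (hS q l hl).2⟩) (by positivity)
        (fun l _ => hγ q l) hσ hx0 (by
          refine le_trans ?_ (hx4 q hqq x hx2)
          gcongr)
      refine h1.trans ?_
      rw [← hL]
      have h2 : (q : ℝ) * (bq q / X) ≤ q * x := mul_le_mul_of_nonneg_left hx1 hq0.le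
      calc L ^ 2 * (1 + L) / (q * x) ≤ L ^ 2 * (1 + L) / (q * (bq q / X)) := by gcongr
        _ = L ^ 2 * (1 + L) * X / (q * bq q) := by field_simp)
  refine h0.trans ?_
  rw [← hL]
  have hterm : ∀ q ∈ QQ, (Nat.totient q : ℝ) * (bq q / X) *
      (L ^ 2 * (1 + L) * X / (q * bq q)) ^ 2 ≤ (L ^ 2 * (1 + L)) ^ 2 * (X / b) * (1 / (q : ℝ)) := by
    intro q hqq
    obtain ⟨hq1, hqN, hqX⟩ := hq q hqq
    have hq0 : (0 : ℝ) < q := by exact_mod_cast hq1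
    have hb1 := hbq0 q hqq
    have ht : (Nat.totient q : ℝ) ≤ q := by exact_mod_cast Nat.totient_le q
    have e1 : (Nat.totient q : ℝ) * (bq q / X) * (L ^ 2 * (1 + L) * X / (q * bq q)) ^ 2 =
        (L ^ 2 * (1 + L)) ^ 2 * (X / bq q) * ((Nat.totient q : ℝ) / q ^ 2) := by
      field_simp
    rw [e1]
    have e2 : (Nat.totient q : ℝ) / q ^ 2 ≤ 1 / q := by
      rw [div_le_div_iff₀ (by positivity) hq0]
      nlinarith
    have e3 : (X : ℝ) / bq q ≤ X / b := by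
      have := (hbq q hqq).1
      gcongr
    gcongr
  refine (sum_le_sum hterm).trans ?_
  rw [← mul_sum]
  have hharm := tn_harm QQ N hfam hN1
  have hlogN : Real.log N ≤ L := by
    rw [hL]
    apply Real.log_le_log (by linarith)
    have h2 : (X : ℝ) ^ (52 / 100 : ℝ) ≤ (X : ℝ) ^ (1 : ℝ) :=
      Real.rpow_le_rpow_of_exponent_le hX1R (by norm_num)
    rw [Real.rpow_one] at h2
    linarith
  rw [← hL] at hL2
  have h5 : ∑ q ∈ QQ, 1 / (q : ℝ) ≤ 2 * L := by linarith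
  calc (L ^ 2 * (1 + L)) ^ 2 * (X / b) * ∑ q ∈ QQ, 1 / (q : ℝ)
      ≤ (L ^ 2 * (2 * L)) ^ 2 * (X / b) * (2 * L) := by
        have : 1 + L ≤ 2 * L := by linarith
        gcongr
    _ = (X / b) * (8 * L ^ 7) := by ring
    _ ≤ (X / b) * (L ^ 3 * L ^ 7) := by
        have : (8 : ℝ) ≤ L ^ 3 := by
          calc (8 : ℝ) = 2 ^ 3 := by norm_num
            _ ≤ L ^ 3 := pow_le_pow_left₀ (by norm_num) hL2 3
        gcongr
    _ = X * L ^ 10 / b := by ring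

end Pool.MP_dd84fd_nt.HXP
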