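import Pool.Agent.Lib.MP_dd84fd_nt.HX.StRed
import Pool.Agent.Lib.MP_dd84fd_nt.HX.KsTI
import Pool.Agent.Lib.MP_dd84fd_nt.HX.KsTII
import Pool.Agent.Lib.MP_dd84fd_nt.HX.KsTIIc
import Pool.Agent.Lib.MP_dd84fd_nt.GX.FFb

/-!
# HX-StFin (1 h): the structure theorem from the reduction theorem

`x = xx G V ω E e`, `F = FF G x`. `pair_h` (copy of `GX.ff_pair` with `UU` replaced by `tr G X (um δ X w)`): `Σ_{n ∈ E} e n PhH n = Σ_{n ∈ Icc 1 X} um n F n`.
`tii_h`: `ω = ω1 + ω2`, `ω1 j = if Coi then 0 else ω j`: `F = FF (xx V ω1) + FF (xx V ω2)`, `NoAPH` for `ω1` follows from that of `ω` (`ω1 j ≠ 0 → ω j ≠ 0`); `tii_main` and `tii_cc`: the type II sums are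
`≤ X^(1-η/4)|E| + X^(1-δ)|E| ≤ X^(1-η/8)|E|`.
`st_h`: `RedH` with `A + CV + 1`; `B1 = X^(1-η/4)|E|` (`ti_h`), `B2 = X^(1-η/8)|E|`, `B3 = |E| (X L^CV)^(1/2)` (`GX.ff_l2`, `norms_h`), `B4 = nm1 x ≤ L^CV √(X|E|)` (`GX.ff_sup`):
`√X B4 ≤ X |E| L^CV X^(-1/4+δ)`, `√X B3/L^(A+CV+1) ≤ X|E|/L^(A+1)`; sum `≤ X |E|/L^A` for `X ≥ X0`.
-/

set_option autoImplicit false

namespace Pool.MP_dd84fd_nt.HX

open Finset Pool.MP_67663b_nt.Odd Pool.MP_dd84fd_nt.En Pool.MP_dd84fd_nt.E2 Pool.MP_dd84fd_nt.LS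
open Pool.MP_dd84fd_nt.L2G (nrm)
open Pool.MP_dd84fd_nt.GX

theorem pair_h (X G w : ℕ) [NeZero G] (δ : ℝ) (V ω : ZMod G → ℂ) (E : Finset ℕ) (e : ℕ → ℂ) :
    ∑ n ∈ E, e n * PhH G δ X w V ω n =
      ∑ n ∈ Icc 1 X, ((um δ X w n : ℝ) : ℂ) * FF G (xx G V ω E e) n := by
  have hL : ∑ n ∈ E, e n * PhH G δ X w V ω n =
      (1 / (G : ℂ)) * ∑ j : ZMod G, xx G V ω E e j * tr G X (um δ X w) j := by
    have h1 : ∀ n ∈ E, e n * PhH G δ X w V ω n = (1 / (G : ℂ)) * ∑ j : ZMod G,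
        (ω j * V j * tr G X (um δ X w) j) * (e n * ZMod.stdAddChar (-((n : ZMod G) * j))) := by
      intro n _
      unfold PhH
      rw [mul_left_comm, Finset.mul_sum]
      congr 1
      refine Finset.sum_congr rfl fun j _ => ?_
      ring
    rw [Finset.sum_congr rfl h1, ← Finset.mul_sum, Finset.sum_comm]
    congr 1
    refine Finset.sum_congr rfl fun j _ => ?_
    rw [← Finset.mul_sum]
    unfold xx KE
    ring
  have hR : ∑ n ∈ Icc 1 X, ((um δ X w n : ℝ) : ℂ) * FF G (xx G V ω E e) n =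
      (1 / (G : ℂ)) * ∑ j : ZMod G, xx G V ω E e j * tr G X (um δ X w) j := by
    have h1 : ∀ n ∈ Icc 1 X, ((um δ X w n : ℝ) : ℂ) * FF G (xx G V ω E e) n =
        (1 / (G : ℂ)) * ∑ j : ZMod G, xx G V ω E e j *
          (((um δ X w n : ℝ) : ℂ) * ZMod.stdAddChar ((n : ZMod G) * j)) := by
      intro n _
      unfold FF
      rw [mul_left_comm, Finset.mul_sum]
      congr 1
      refine Finset.sum_congr rfl fun j _ => ?_
      ring
    rw [Finset.sum_congr rfl h1, ← Finset.mul_sum, Finset.sum_comm]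
    congr 1
    refine Finset.sum_congr rfl fun j _ => ?_
    rw [← Finset.mul_sum]
    rfl
  rw [hL, hR]

private theorem stfin_split (G : ℕ) [NeZero G] (V ω ω1 ω2 : ZMod G → ℂ) (h : ∀ j, ω j = ω1 j + ω2 j)
    (E : Finset ℕ) (e : ℕ → ℂ) (n : ℕ) :
    FF G (xx G V ω E e) n = FF G (xx G V ω1 E e) n + FF G (xx G V ω2 E e) n := by
  unfold FF xx
  rw [← mul_add, ← Finset.sum_add_distrib]
  congr 1
  refine Finset.sum_congr rfl fun j _ => ?_
  rw [h j]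
  ring

theorem tii_h (CV : ℕ) (δ η : ℝ) (hδ : 0 < δ) (hδ' : δ ≤ 1 / 2000) (hη : 0 < η)
    (hη' : η ≤ δ) : ∃ X0 : ℕ, ∀ X : ℕ, X0 ≤ X → ∀ (G : ℕ) [NeZero G], 3 * X ≤ G →
    ∀ V : ZMod G → ℂ, VBH G X CV V → ∀ ω : ZMod G → ℂ, (∀ j, ‖ω j‖ ≤ 1) → ∀ E : Finset ℕ,
    E ⊆ Icc 1 X → (X : ℝ) ^ (1 / 2 - 2 * δ) ≤ E.card → ∀ e : ℕ → ℂ, (∀ n, ‖e n‖ ≤ 1) →
    NoAPH G δ X ω E ((X : ℝ) ^ (-η)) →
    TIIH δ X (FF G (xx G V ω E e)) ((X : ℝ) ^ (1 - η / 8) * E.card) := by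
  classical
  obtain ⟨X1, hX1⟩ := tii_main CV δ η hδ hδ' hη hη'
  obtain ⟨X2, hX2⟩ := tii_cc CV δ hδ hδ'
  obtain ⟨X3, hX3⟩ := MP_log_pow 2 0 (ε := η / 8) (by linarith)
  refine ⟨max (max X1 X2) (max X3 1), ?_⟩
  intro X hX G _ hG V hV ω hω E hE hcard e he hN
  have hXX1 : X1 ≤ X := (le_max_left _ _).trans ((le_max_left _ _).trans hX)
  have hXX2 : X2 ≤ X := (le_max_right _ _).trans ((le_max_left _ _).trans hX)
  have hXX3 : X3 ≤ X := (le_max_left _ _).trans ((le_max_right _ _).trans hX)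
  have hXp : 1 ≤ X := (le_max_right _ _).trans ((le_max_right _ _).trans hX)
  have hX0 : (0 : ℝ) < X := by exact_mod_cast hXp
  have hX1r : (1 : ℝ) ≤ X := by exact_mod_cast hXp
  set ω1 : ZMod G → ℂ := fun j => if Coi G δ X (Pop δ X E) j then 0 else ω j with hω1
  set ω2 : ZMod G → ℂ := fun j => if Coi G δ X (Pop δ X E) j then ω j else 0 with hω2
  have h1 : ∀ j, ‖ω1 j‖ ≤ 1 := by
    intro j
    rw [hω1]
    simp only
    split_ifs
    · simp
    · exact hω j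
  have h2 : ∀ j, ‖ω2 j‖ ≤ 1 := by
    intro j
    rw [hω2]
    simp only
    split_ifs
    · exact hω j
    · simp
  have hs : ∀ j, ω j = ω1 j + ω2 j := by
    intro j
    rw [hω1, hω2]
    simp only
    split_ifs
    · simp
    · simp
  have hne1 : ∀ j, ω1 j ≠ 0 → ω j ≠ 0 ∧ ¬ Coi G δ X (Pop δ X E) j := by
    intro j hj
    rw [hω1] at hj
    simp only at hj
    split_ifs at hj with hc
    · exact absurd rfl hj
    · exact ⟨hj, hc⟩
  have hne2 : ∀ j, ω2 j ≠ 0 → Coi G δ X (Pop δ X E) j := by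
    intro j hj
    rw [hω2] at hj
    simp only at hj
    split_ifs at hj with hc
    · exact hc
    · exact absurd rfl hj
  have hN1 : NoAPH G δ X ω1 E ((X : ℝ) ^ (-η)) := fun j hj => hN j (hne1 j hj).1
  have hT1 := hX1 X hXX1 G hG V hV ω1 h1 E hE hcard e he hN1 (fun j hj => (hne1 j hj).2)
  have hT2 := hX2 X hXX2 G hG V hV ω2 h2 E hE hcard e he hne2
  intro M N t a b ht ha hb hM hN' hN'' hMN
  have hT1' := hT1 M N t a b ht ha hb hM hN' hN'' hMN
  have hT2' := hT2 M N t a b ht ha hb hM hN' hN'' hMN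
  have hsum : ∑ l ∈ Ioc M (2 * M), ∑ s ∈ (Ioc N (2 * N)).filter (fun s => l * s ≤ t),
      a l * b s * FF G (xx G V ω E e) (l * s) =
      ∑ l ∈ Ioc M (2 * M), ∑ s ∈ (Ioc N (2 * N)).filter (fun s => l * s ≤ t),
        a l * b s * FF G (xx G V ω1 E e) (l * s) +
      ∑ l ∈ Ioc M (2 * M), ∑ s ∈ (Ioc N (2 * N)).filter (fun s => l * s ≤ t),
        a l * b s * FF G (xx G V ω2 E e) (l * s) := by
    rw [← Finset.sum_add_distrib]
    refine Finset.sum_congr rfl fun l _ => ?_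
    rw [← Finset.sum_add_distrib]
    refine Finset.sum_congr rfl fun s _ => ?_
    rw [stfin_split G V ω ω1 ω2 hs E e (l * s)]
    ring
  rw [hsum]
  refine (norm_add_le _ _).trans ((add_le_add hT1' hT2').trans ?_)
  have h3 : (X : ℝ) ^ (1 - δ) ≤ (X : ℝ) ^ (1 - η / 4) :=
    Real.rpow_le_rpow_of_exponent_le hX1r (by linarith)
  have h4 := hX3 X hXX3
  rw [pow_zero, mul_one] at h4
  have h5 : 2 * (X : ℝ) ^ (1 - η / 4) ≤ (X : ℝ) ^ (1 - η / 8) := by
    calc 2 * (X : ℝ) ^ (1 - η / 4) ≤ (X : ℝ) ^ (η / 8) * (X : ℝ) ^ (1 - η / 4) :=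
          mul_le_mul_of_nonneg_right h4 (Real.rpow_nonneg hX0.le _)
      _ = (X : ℝ) ^ (1 - η / 8) := by
          rw [← Real.rpow_add hX0]
          congr 1
          ring
  have h6 : (0 : ℝ) ≤ E.card := Nat.cast_nonneg _
  calc (X : ℝ) ^ (1 - η / 4) * E.card + (X : ℝ) ^ (1 - δ) * E.card
      ≤ (2 * (X : ℝ) ^ (1 - η / 4)) * E.card := by
        have := mul_le_mul_of_nonneg_right h3 h6
        linarith
    _ ≤ (X : ℝ) ^ (1 - η / 8) * E.card := mul_le_mul_of_nonneg_right h5 h6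

theorem st_h (h : RedH) : StH := by
  intro A CV δ η hδ hδ' hη hη' D' hD'
  obtain ⟨C, hC⟩ := h (A + CV + 1)
  obtain ⟨X1, hX1⟩ := hC δ hδ hδ' D' hD'
  obtain ⟨X2, hX2⟩ := ti_h CV δ η hδ hδ' hη hη'
  obtain ⟨X3, hX3⟩ := tii_h CV δ η hδ hδ' hη hη'
  obtain ⟨X4, hX4⟩ := MP_log_pow 6 (C + CV + A) (ε := η / 8) (by linarith)
  refine ⟨max (max (max X1 X2) (max X3 X4)) 8, ?_⟩
  intro X hX G _ hG V hV ω hω E hE hcard e he hN
  have hXa := (le_max_left _ _).trans hX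
  have hX8 : 8 ≤ X := (le_max_right _ _).trans hX
  have hXX1 : X1 ≤ X := (le_max_left _ _).trans ((le_max_left _ _).trans hXa)
  have hXX2 : X2 ≤ X := (le_max_right _ _).trans ((le_max_left _ _).trans hXa)
  have hXX3 : X3 ≤ X := (le_max_left _ _).trans ((le_max_right _ _).trans hXa)
  have hXX4 : X4 ≤ X := (le_max_right _ _).trans ((le_max_right _ _).trans hXa)
  have hXp : 1 ≤ X := by omega
  have hX0 : (0 : ℝ) < X := by exact_mod_cast hXp
  have hX1r : (1 : ℝ) ≤ X := by exact_mod_cast hXp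
  set L : ℝ := Real.log X with hLdef
  have hL2 : 2 ≤ L := by
    have h1 : Real.log 8 ≤ L := Real.log_le_log (by norm_num) (by exact_mod_cast hX8)
    have h2 : Real.log 8 = 3 * Real.log 2 := by
      rw [show (8 : ℝ) = 2 ^ 3 by norm_num, Real.log_pow]
      norm_num
    have h3 := Real.log_two_gt_d9
    linarith
  have hL1 : 1 ≤ L := by linarith
  have hL0 : 0 < L := by linarith
  have hE1 : 1 ≤ (E.card : ℝ) := by
    refine le_trans ?_ hcard
    exact Real.one_le_rpow hX1r (by linarith)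
  have hE0 : (0 : ℝ) < E.card := by linarith
  obtain ⟨hn1, hn2, hn3⟩ := norms_h X G CV (by omega) hG V ω hV hω E hE e he
  have hB3 : ∑ n ∈ Icc 1 X, ‖FF G (xx G V ω E e) n‖ ^ 2 ≤
      (Real.sqrt (X * L ^ CV) * E.card) ^ 2 := by
    refine (ff_l2 X G hG _).trans (hn2.trans (le_of_eq ?_))
    rw [mul_pow, Real.sq_sqrt (by positivity)]
  have hB4 : ∀ n, ‖FF G (xx G V ω E e) n‖ ≤ L ^ CV * Real.sqrt ((X : ℝ) * E.card) :=
    fun n => (ff_sup G _ n).trans hn1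
  have hmain := hX1 X hXX1 (FF G (xx G V ω E e)) _ _ (Real.sqrt (X * L ^ CV) * E.card)
    (L ^ CV * Real.sqrt ((X : ℝ) * E.card))
    (hX2 X hXX2 G hG V hV ω hω E hE hcard e he hN)
    (hX3 X hXX3 G hG V hV ω hω E hE hcard e he hN) hB3 hB4 (by positivity)
  rw [pair_h]
  refine hmain.trans ?_
  -- the powers
  have hq := hX4 X hXX4
  have hsX : Real.sqrt X * Real.sqrt X = X := Real.mul_self_sqrt hX0.le
  have hP : (X : ℝ) ^ (1 - η / 4) ≤ (X : ℝ) ^ (1 - η / 8) :=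
    Real.rpow_le_rpow_of_exponent_le hX1r (by linarith)
  have hLCV : 1 ≤ L ^ CV := one_le_pow₀ hL1
  have hsE : Real.sqrt X * Real.sqrt ((X : ℝ) * E.card) ≤ (X : ℝ) ^ (1 - η / 8) * E.card := by
    have h1 : Real.sqrt ((X : ℝ) * E.card) = Real.sqrt X * Real.sqrt E.card :=
      Real.sqrt_mul hX0.le _
    have h2 : (X : ℝ) ^ (1 / 4 - δ) ≤ Real.sqrt E.card := by
      apply Real.le_sqrt_of_sq_le
      refine le_trans (le_of_eq ?_) hcard
      rw [← Real.rpow_natCast, ← Real.rpow_mul hX0.le]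
      congr 1
      push_cast
      ring
    have h3 : Real.sqrt E.card * Real.sqrt E.card = E.card := Real.mul_self_sqrt hE0.le
    have h4 : (X : ℝ) = (X : ℝ) ^ (3 / 4 + δ) * (X : ℝ) ^ (1 / 4 - δ) := by
      rw [← Real.rpow_add hX0]
      have : 3 / 4 + δ + (1 / 4 - δ) = 1 := by ring
      rw [this, Real.rpow_one]
    have h5 : (X : ℝ) ^ (3 / 4 + δ) ≤ (X : ℝ) ^ (1 - η / 8) :=
      Real.rpow_le_rpow_of_exponent_le hX1r (by linarith)
    calc Real.sqrt X * Real.sqrt ((X : ℝ) * E.card)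
        = X * Real.sqrt E.card := by rw [h1, ← mul_assoc, hsX]
      _ = (X : ℝ) ^ (3 / 4 + δ) * ((X : ℝ) ^ (1 / 4 - δ) * Real.sqrt E.card) := by
          rw [← mul_assoc, ← h4]
      _ ≤ (X : ℝ) ^ (3 / 4 + δ) * (Real.sqrt E.card * Real.sqrt E.card) :=
          mul_le_mul_of_nonneg_left (mul_le_mul_of_nonneg_right h2 (Real.sqrt_nonneg _))
            (Real.rpow_nonneg hX0.le _)
      _ = (X : ℝ) ^ (3 / 4 + δ) * E.card := by rw [h3]
      _ ≤ _ := mul_le_mul_of_nonneg_right h5 hE0.le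
  have hpow0 : 0 ≤ (X : ℝ) ^ (1 - η / 8) := Real.rpow_nonneg hX0.le _
  have hpart1 : L ^ C * ((X : ℝ) ^ (1 - η / 4) * E.card + (X : ℝ) ^ (1 - η / 8) * E.card +
      Real.sqrt X * (L ^ CV * Real.sqrt ((X : ℝ) * E.card))) ≤
      3 * L ^ (C + CV) * ((X : ℝ) ^ (1 - η / 8) * E.card) := by
    have h1 : (X : ℝ) ^ (1 - η / 4) * E.card ≤ L ^ CV * ((X : ℝ) ^ (1 - η / 8) * E.card) := by
      calc (X : ℝ) ^ (1 - η / 4) * E.card ≤ (X : ℝ) ^ (1 - η / 8) * E.card :=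
            mul_le_mul_of_nonneg_right hP hE0.le
        _ = 1 * ((X : ℝ) ^ (1 - η / 8) * E.card) := by ring
        _ ≤ _ := mul_le_mul_of_nonneg_right hLCV (by positivity)
    have h2 : (X : ℝ) ^ (1 - η / 8) * E.card ≤ L ^ CV * ((X : ℝ) ^ (1 - η / 8) * E.card) := by
      calc (X : ℝ) ^ (1 - η / 8) * E.card = 1 * ((X : ℝ) ^ (1 - η / 8) * E.card) := by ring
        _ ≤ _ := mul_le_mul_of_nonneg_right hLCV (by positivity)
    have h3 : Real.sqrt X * (L ^ CV * Real.sqrt ((X : ℝ) * E.card)) ≤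
        L ^ CV * ((X : ℝ) ^ (1 - η / 8) * E.card) := by
      calc Real.sqrt X * (L ^ CV * Real.sqrt ((X : ℝ) * E.card))
          = L ^ CV * (Real.sqrt X * Real.sqrt ((X : ℝ) * E.card)) := by ring
        _ ≤ _ := mul_le_mul_of_nonneg_left hsE (by positivity)
    calc L ^ C * ((X : ℝ) ^ (1 - η / 4) * E.card + (X : ℝ) ^ (1 - η / 8) * E.card +
        Real.sqrt X * (L ^ CV * Real.sqrt ((X : ℝ) * E.card)))
        ≤ L ^ C * (3 * (L ^ CV * ((X : ℝ) ^ (1 - η / 8) * E.card))) :=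
          mul_le_mul_of_nonneg_left (by linarith) (by positivity)
      _ = _ := by rw [pow_add]; ring
  have hhalf1 : 3 * L ^ (C + CV) * ((X : ℝ) ^ (1 - η / 8) * E.card) ≤
      1 / 2 * (X * E.card / L ^ A) := by
    have h1 : (X : ℝ) ^ (η / 8) * (X : ℝ) ^ (1 - η / 8) = X := by
      rw [← Real.rpow_add hX0]
      have : η / 8 + (1 - η / 8) = 1 := by ring
      rw [this, Real.rpow_one]
    have h2 : 1 / 2 * ((X : ℝ) * E.card / L ^ A) = (X : ℝ) * E.card / (2 * L ^ A) := by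
      field_simp
    rw [h2, le_div_iff₀ (by positivity)]
    calc 3 * L ^ (C + CV) * ((X : ℝ) ^ (1 - η / 8) * E.card) * (2 * L ^ A)
        = (6 * L ^ (C + CV + A)) * ((X : ℝ) ^ (1 - η / 8) * E.card) := by
          rw [pow_add L (C + CV) A]; ring
      _ ≤ (X : ℝ) ^ (η / 8) * ((X : ℝ) ^ (1 - η / 8) * E.card) :=
          mul_le_mul_of_nonneg_right hq (by positivity)
      _ = (X : ℝ) * E.card := by rw [← mul_assoc, h1]
  have hhalf2 : Real.sqrt X * (Real.sqrt (X * L ^ CV) * E.card) / L ^ (A + CV + 1) ≤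
      1 / 2 * (X * E.card / L ^ A) := by
    have h1 : Real.sqrt (X * L ^ CV) ≤ Real.sqrt X * L ^ CV := by
      rw [Real.sqrt_mul hX0.le]
      refine mul_le_mul_of_nonneg_left ?_ (Real.sqrt_nonneg _)
      rw [Real.sqrt_le_left (by positivity)]
      nlinarith
    have h2 : 1 / 2 * ((X : ℝ) * E.card / L ^ A) = (X : ℝ) * E.card / (2 * L ^ A) := by
      field_simp
    rw [h2, div_le_div_iff₀ (by positivity) (by positivity)]
    calc Real.sqrt X * (Real.sqrt (X * L ^ CV) * E.card) * (2 * L ^ A)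
        ≤ Real.sqrt X * ((Real.sqrt X * L ^ CV) * E.card) * (2 * L ^ A) := by
          refine mul_le_mul_of_nonneg_right ?_ (by positivity)
          refine mul_le_mul_of_nonneg_left ?_ (Real.sqrt_nonneg _)
          exact mul_le_mul_of_nonneg_right h1 hE0.le
      _ = (Real.sqrt X * Real.sqrt X) * E.card * (2 * (L ^ A * L ^ CV)) := by ring
      _ = X * E.card * (2 * (L ^ A * L ^ CV)) := by rw [hsX]
      _ ≤ X * E.card * (L * (L ^ A * L ^ CV)) := by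
          refine mul_le_mul_of_nonneg_left ?_ (by positivity)
          exact mul_le_mul_of_nonneg_right hL2 (by positivity)
      _ = X * E.card * L ^ (A + CV + 1) := by
          rw [pow_succ, pow_add]; ring
  linarith

end Pool.MP_dd84fd_nt.HX
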