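import Pool.Agent.Lib.MP_dd84fd_nt.HX.KsDefs
import Pool.Agent.Lib.MP_dd84fd_nt.E2.MinorP

/-!
# HX-StTI (0.9 h): the type I part of `a_L`

`R = ⌊X^(2/5)⌋₊`. For a coefficient function `γ` with `|γ l| ≤ 1`, `γ l = 0` for `l > X^(2/5)`, and `t ≤ X`: `Σ_{n ≤ t} (Σ_{l ∣ n} γ l) F n = Σ_{l ≤ R} γ l Σ_{k ≤ t/l} F(l k)`, so its norm is `≤ B1`
(`TIH` with `y l = t/l`). (i) `γ = β/(2 log X)`; (ii) `γ = α` and Abel summation in `n` for the weight `log n` (`Σ_{n ≤ t} log n · s_n = log t · S_t - Σ_{n < t} (log(n+1) - log n) S_n`, `|S_n| ≤ B1`): `≤ 2 log X · B1`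
(see `E2.MP_abel` for the pattern). Total `≤ 4 log X · B1`. `B1 ≥ 0` follows from `TIH` itself.
-/

set_option autoImplicit false

namespace Pool.MP_dd84fd_nt.HX

open Finset Pool.MP_67663b_nt.Odd Pool.MP_dd84fd_nt.En Pool.MP_dd84fd_nt.E2 Pool.MP_dd84fd_nt.LS
open Pool.MP_dd84fd_nt.L2G (nrm)
open Pool.MP_dd84fd_nt.GX

/-- the divisor sum rearranged -/
theorem st_ti_swap (t R : ℕ) (γ : ℕ → ℝ) (hγ : ∀ l : ℕ, R < l → γ l = 0) (F : ℕ → ℂ) :
    ∑ n ∈ Icc 1 t, ((∑ l ∈ n.divisors, γ l : ℝ) : ℂ) * F n =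
      ∑ l ∈ Icc 1 R, (γ l : ℂ) * ∑ k ∈ Icc 1 (t / l), F (l * k) := by
  have h1 : ∀ n ∈ Icc 1 t, ((∑ l ∈ n.divisors, γ l : ℝ) : ℂ) * F n =
      ∑ l ∈ Icc 1 R, if l ∣ n then (γ l : ℂ) * F n else 0 := by
    intro n hn
    rw [mem_Icc] at hn
    rw [← Finset.sum_filter, Complex.ofReal_sum, Finset.sum_mul]
    symm
    apply Finset.sum_subset
    · intro l hl
      rw [mem_filter, mem_Icc] at hl
      exact Nat.mem_divisors.2 ⟨hl.2, by omega⟩
    · intro l hl hl'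
      have hR : R < l := by
        by_contra hcon
        apply hl'
        rw [mem_filter, mem_Icc]
        exact ⟨⟨Nat.pos_of_mem_divisors hl, by omega⟩, Nat.dvd_of_mem_divisors hl⟩
      rw [hγ l hR]
      simp
  rw [Finset.sum_congr rfl h1, Finset.sum_comm]
  refine Finset.sum_congr rfl fun l hl => ?_
  rw [mem_Icc] at hl
  have hl0 : 0 < l := by omega
  rw [← Finset.sum_filter, Finset.mul_sum]
  symm
  refine Finset.sum_nbij' (fun k => l * k) (fun n => n / l) ?_ ?_ ?_ ?_ ?_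
  · intro k hk
    rw [mem_Icc] at hk
    rw [mem_filter, mem_Icc]
    refine ⟨⟨?_, ?_⟩, dvd_mul_right l k⟩
    · exact Nat.one_le_iff_ne_zero.2 (Nat.mul_ne_zero (by omega) (by omega))
    · calc l * k ≤ l * (t / l) := Nat.mul_le_mul_left _ hk.2
        _ ≤ t := Nat.mul_div_le t l
  · intro n hn
    rw [mem_filter, mem_Icc] at hn
    rw [mem_Icc]
    refine ⟨?_, Nat.div_le_div_right hn.1.2⟩
    exact Nat.div_pos (Nat.le_of_dvd (by omega) hn.2) hl0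
  · intro k _
    exact Nat.mul_div_cancel_left k hl0
  · intro n hn
    rw [mem_filter] at hn
    exact Nat.mul_div_cancel' hn.2
  · intro k _
    rfl

/-- bounded coefficients -/
theorem st_ti_one (X : ℕ) (F : ℕ → ℂ) (B1 : ℝ) (hB : TIH X F B1) (γ : ℕ → ℝ)
    (hγ : ∀ l, |γ l| ≤ 1) (hs : ∀ l : ℕ, (X : ℝ) ^ (2 / 5 : ℝ) < l → γ l = 0) (t : ℕ)
    (ht : t ≤ X) :
    ‖∑ n ∈ Icc 1 t, ((∑ l ∈ n.divisors, γ l : ℝ) : ℂ) * F n‖ ≤ B1 := by
  set R : ℕ := ⌊(X : ℝ) ^ (2 / 5 : ℝ)⌋₊ with hR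
  have hR1 : (R : ℝ) ≤ (X : ℝ) ^ (2 / 5 : ℝ) :=
    Nat.floor_le (Real.rpow_nonneg (Nat.cast_nonneg X) _)
  rw [st_ti_swap t R γ (fun l hl => hs l ((Nat.floor_lt
    (Real.rpow_nonneg (Nat.cast_nonneg X) _)).1 hl)) F]
  refine hB R (fun l => (γ l : ℂ)) (fun l => t / l) hR1 (fun l => ?_) (fun l _ => ?_)
  · rw [Complex.norm_real, Real.norm_eq_abs]
    exact hγ l
  · exact (Nat.mul_div_le t l).trans ht

theorem st_ti (X : ℕ) (hX : 3 ≤ X) (F : ℕ → ℂ) (B1 : ℝ) (hB : TIH X F B1) (α β : ℕ → ℝ)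
    (hα : ∀ l, |α l| ≤ 1) (hβ : ∀ l, |β l| ≤ 2 * Real.log X)
    (hs : ∀ l : ℕ, (X : ℝ) ^ (2 / 5 : ℝ) < l → α l = 0 ∧ β l = 0) (t : ℕ) (ht : t ≤ X) :
    ‖∑ n ∈ Icc 1 t, ((∑ l ∈ n.divisors, (α l * Real.log n + β l) : ℝ) : ℂ) * F n‖ ≤
      5 * Real.log X * B1 := by
  have hX3 : (3 : ℝ) ≤ X := by exact_mod_cast hX
  have hX0 : (0 : ℝ) < X := by linarith
  have hL : 0 < Real.log X := Real.log_pos (by linarith)
  have hB0 : 0 ≤ B1 := by
    have := hB 0 (fun _ => 0) (fun _ => 0)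
      (by rw [Nat.cast_zero]; exact Real.rpow_nonneg hX0.le _) (by simp) (by simp)
    simpa using this
  -- the part with `β`
  have h1 : ‖∑ n ∈ Icc 1 t, ((∑ l ∈ n.divisors, β l : ℝ) : ℂ) * F n‖ ≤
      2 * Real.log X * B1 := by
    have h2 := st_ti_one X F B1 hB (fun l => β l / (2 * Real.log X))
      (fun l => by
        rw [abs_div, abs_of_pos (show (0 : ℝ) < 2 * Real.log X by positivity)]
        exact (div_le_one (by positivity)).2 (hβ l))
      (fun l hl => by rw [(hs l hl).2, zero_div]) t ht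
    have h3 : ∑ n ∈ Icc 1 t, ((∑ l ∈ n.divisors, β l : ℝ) : ℂ) * F n =
        ((2 * Real.log X : ℝ) : ℂ) *
          ∑ n ∈ Icc 1 t, ((∑ l ∈ n.divisors, β l / (2 * Real.log X) : ℝ) : ℂ) * F n := by
      rw [Finset.mul_sum]
      refine Finset.sum_congr rfl fun n _ => ?_
      rw [← Finset.sum_div, ← mul_assoc, ← Complex.ofReal_mul, mul_div_cancel₀ _
        (show (2 * Real.log X : ℝ) ≠ 0 by positivity)]
    rw [h3, norm_mul, Complex.norm_real, Real.norm_of_nonneg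
      (show (0 : ℝ) ≤ 2 * Real.log X by positivity)]
    exact mul_le_mul_of_nonneg_left h2 (by positivity)
  -- the part with `α`
  have hS : ∀ t' ≤ t, ‖∑ n ∈ Icc 1 t', ((∑ l ∈ n.divisors, α l : ℝ) : ℂ) * F n‖ ≤ B1 :=
    fun t' ht' => st_ti_one X F B1 hB α hα (fun l hl => (hs l hl).1) t' (ht'.trans ht)
  set b : ℕ → ℝ := fun n => Real.log X - Real.log (min (max (n : ℝ) 1) X) with hb
  have hpos : ∀ n : ℕ, 0 < min (max (n : ℝ) 1) (X : ℝ) := fun n =>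
    lt_min (lt_of_lt_of_le one_pos (le_max_right _ _)) hX0
  have hbanti : Antitone b := by
    intro m n hmn
    simp only [hb]
    have : Real.log (min (max (m : ℝ) 1) X) ≤ Real.log (min (max (n : ℝ) 1) X) := by
      apply Real.log_le_log (hpos m)
      exact min_le_min_right _ (max_le_max_right 1 (by exact_mod_cast hmn))
    linarith
  have hb0 : ∀ n, 0 ≤ b n := fun n => by
    simp only [hb]
    have : Real.log (min (max (n : ℝ) 1) X) ≤ Real.log X :=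
      Real.log_le_log (hpos n) (min_le_right _ _)
    linarith
  have hb00 : b 0 = Real.log X := by
    simp only [hb, Nat.cast_zero]
    rw [max_eq_right zero_le_one, min_eq_left (by linarith), Real.log_one, sub_zero]
  have h4 := MP_abel0 (fun n => ((∑ l ∈ n.divisors, α l : ℝ) : ℂ) * F n) b hbanti hb0 B1 t hS
  rw [hb00] at h4
  have h5 : ‖∑ n ∈ Icc 1 t, ((∑ l ∈ n.divisors, α l * Real.log n : ℝ) : ℂ) * F n‖ ≤
      2 * Real.log X * B1 := by
    have h6 : ∑ n ∈ Icc 1 t, ((∑ l ∈ n.divisors, α l * Real.log n : ℝ) : ℂ) * F n =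
        ((Real.log X : ℝ) : ℂ) * ∑ n ∈ Icc 1 t, ((∑ l ∈ n.divisors, α l : ℝ) : ℂ) * F n -
          ∑ n ∈ Icc 1 t, (b n : ℂ) * (((∑ l ∈ n.divisors, α l : ℝ) : ℂ) * F n) := by
      rw [Finset.mul_sum, ← Finset.sum_sub_distrib]
      refine Finset.sum_congr rfl fun n hn => ?_
      rw [mem_Icc] at hn
      have hn1 : (1 : ℝ) ≤ n := by exact_mod_cast hn.1
      have hnX : (n : ℝ) ≤ X := by exact_mod_cast hn.2.trans ht
      have hbn : b n = Real.log X - Real.log n := by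
        simp only [hb]
        rw [max_eq_left hn1, min_eq_left hnX]
      rw [hbn, ← Finset.sum_mul]
      push_cast
      ring
    rw [h6]
    refine (norm_sub_le _ _).trans ?_
    have h7 : ‖((Real.log X : ℝ) : ℂ) *
        ∑ n ∈ Icc 1 t, ((∑ l ∈ n.divisors, α l : ℝ) : ℂ) * F n‖ ≤ Real.log X * B1 := by
      rw [norm_mul, Complex.norm_real, Real.norm_of_nonneg hL.le]
      exact mul_le_mul_of_nonneg_left (hS t le_rfl) hL.le
    linarith
  have h8 : ∑ n ∈ Icc 1 t, ((∑ l ∈ n.divisors, (α l * Real.log n + β l) : ℝ) : ℂ) * F n =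
      ∑ n ∈ Icc 1 t, ((∑ l ∈ n.divisors, α l * Real.log n : ℝ) : ℂ) * F n +
        ∑ n ∈ Icc 1 t, ((∑ l ∈ n.divisors, β l : ℝ) : ℂ) * F n := by
    rw [← Finset.sum_add_distrib]
    refine Finset.sum_congr rfl fun n _ => ?_
    rw [Finset.sum_add_distrib, Complex.ofReal_add, add_mul]
  rw [h8]
  refine (norm_add_le _ _).trans ?_
  have h9 : 0 ≤ Real.log X * B1 := mul_nonneg hL.le hB0
  linarith

end Pool.MP_dd84fd_nt.HX
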