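import Pool.Agent.Lib.MP_dd84fd_nt.HX.SvJa
import Pool.Agent.Lib.MP_dd84fd_nt.En.Mon
import Pool.Agent.Lib.MP_dd84fd_nt.En.Sing

/-!
# HX-SvJb (0.4 h): the sum of the sieve weights, lower bound

Proof. `j_pairs` and `sum_inv_phi_ge`, `sum_inv_phi_coprime_ge` (`En/Mon.lean`, `R = Q`, `⌊(Q:ℝ)⌋₊ = Q`): the sum is at least `(log Q) (φ(n)/n) (log Q)`. `n/φ(n) = Π_{p ∣ n} p/(p-1) = 2 Π_{p ∣ n, p > 2} p/(p-1) ≤ 2 Π_{p ∣ n, p > 2} (p-1)/(p-2) = SS n / C2`
(`p (p-2) ≤ (p-1)²`; `Nat.totient_eq_mul_prod_factors`). So `φ(n)/n ≥ C2/SS n`; `c = C2` (`C2_pos`).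
-/

set_option autoImplicit false

namespace Pool.MP_dd84fd_nt.HX

open Finset Pool.MP_67663b_nt.Odd Pool.MP_dd84fd_nt.En Pool.MP_dd84fd_nt.E2 Pool.MP_dd84fd_nt.LS
open Pool.MP_dd84fd_nt.L2G (nrm)
open Pool.MP_dd84fd_nt.GX

theorem j_lower : ∃ c : ℝ, 0 < c ∧ ∀ n Q : ℕ, Even n → 0 < n → 1 ≤ Q →
    c * (Real.log Q) ^ 2 / SS n ≤
      ∑ s ∈ (Icc 1 (Q ^ 2)).filter Squarefree, ∏ p ∈ s.primeFactors, hw n p := by
  classical
  refine ⟨C2, C2_pos, fun n Q hn hn0 hQ => ?_⟩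
  have hC := C2_pos
  have hQr : (1 : ℝ) ≤ Q := by exact_mod_cast hQ
  have hL : 0 ≤ Real.log Q := Real.log_nonneg hQr
  have h1 := sum_inv_phi_ge (Q : ℝ) hQr
  have h2 := sum_inv_phi_coprime_ge (Q : ℝ) hQr n hn0
  rw [Nat.floor_natCast] at h1 h2
  have h3 := j_pairs n Q hn hn0.ne'
  have h4 : C2 / SS n ≤ (Nat.totient n : ℝ) / n := by
    have hn0r : (0 : ℝ) < n := by exact_mod_cast hn0
    have h5 : (Nat.totient n : ℝ) / n = ∏ p ∈ n.primeFactors, (1 - (p : ℝ)⁻¹) := by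
      have h6 := Nat.totient_eq_mul_prod_factors n
      have h7 : (Nat.totient n : ℝ) = n * ∏ p ∈ n.primeFactors, (1 - (p : ℝ)⁻¹) := by
        have h8 := congrArg (fun x : ℚ => (x : ℝ)) h6
        push_cast at h8
        exact h8
      rw [h7, mul_div_cancel_left₀ _ hn0r.ne']
    rw [h5]
    have h2mem : 2 ∈ n.primeFactors := Nat.mem_primeFactors.2 ⟨Nat.prime_two, hn.two_dvd, hn0.ne'⟩
    have h6 : n.primeFactors.filter (fun p => 2 < p) = n.primeFactors.erase 2 := by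
      ext p
      rw [mem_filter, mem_erase]
      constructor
      · rintro ⟨h7, h8⟩
        exact ⟨by omega, h7⟩
      · rintro ⟨h7, h8⟩
        have := (Nat.prime_of_mem_primeFactors h8).two_le
        exact ⟨h8, by omega⟩
    have h7 : ∏ p ∈ n.primeFactors, (1 - (p : ℝ)⁻¹) =
        (1 / 2) * ∏ p ∈ n.primeFactors.filter (fun p => 2 < p), (1 - (p : ℝ)⁻¹) := by
      rw [h6, ← Finset.mul_prod_erase _ _ h2mem]
      norm_num
    rw [h7]
    have h8 : ∀ p ∈ n.primeFactors.filter (fun p => 2 < p), 0 < ((p : ℝ) - 1) / ((p : ℝ) - 2) := by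
      intro p hp
      have h9 : (3 : ℝ) ≤ p := by exact_mod_cast (mem_filter.1 hp).2
      apply div_pos <;> linarith
    have h9 : 0 < ∏ p ∈ n.primeFactors.filter (fun p => 2 < p), ((p : ℝ) - 1) / ((p : ℝ) - 2) :=
      prod_pos h8
    have h10 : (∏ p ∈ n.primeFactors.filter (fun p => 2 < p), ((p : ℝ) - 1) / ((p : ℝ) - 2))⁻¹ ≤
        ∏ p ∈ n.primeFactors.filter (fun p => 2 < p), (1 - (p : ℝ)⁻¹) := by
      rw [← prod_inv_distrib]
      refine prod_le_prod (fun p hp => (inv_pos.2 (h8 p hp)).le) fun p hp => ?_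
      have h9 : (3 : ℝ) ≤ p := by exact_mod_cast (mem_filter.1 hp).2
      rw [inv_div, div_le_iff₀ (by linarith)]
      have h11 : (1 - (p : ℝ)⁻¹) * ((p : ℝ) - 1) = (p : ℝ) - 2 + (p : ℝ)⁻¹ := by
        field_simp
        ring
      rw [h11]
      have : 0 < (p : ℝ)⁻¹ := by positivity
      linarith
    have h11 : C2 / SS n =
        (1 / 2) * (∏ p ∈ n.primeFactors.filter (fun p => 2 < p), ((p : ℝ) - 1) / ((p : ℝ) - 2))⁻¹ := by
      unfold SS
      field_simp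
    rw [h11]
    exact mul_le_mul_of_nonneg_left h10 (by norm_num)
  calc C2 * (Real.log Q) ^ 2 / SS n = Real.log Q * (C2 / SS n * Real.log Q) := by ring
    _ ≤ Real.log Q * ((Nat.totient n : ℝ) / n * Real.log Q) := by gcongr
    _ ≤ (∑ r ∈ (Icc 1 Q).filter Squarefree, 1 / (Nat.totient r : ℝ)) *
      (∑ r ∈ (Icc 1 Q).filter (fun r => Squarefree r ∧ Nat.Coprime r n),
        1 / (Nat.totient r : ℝ)) := by
        apply mul_le_mul h1 h2 (by positivity)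
        exact sum_nonneg fun r _ => by positivity
    _ ≤ _ := h3

end Pool.MP_dd84fd_nt.HX
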