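import Pool.Agent.Lib.MP_dd84fd_nt.HX.SvLs
import Pool.Agent.Lib.MP_dd84fd_nt.HX.SvJb
import Pool.Agent.Lib.MP_dd84fd_nt.HX.DcRg

/-!
# HX-SvF (0.7 h): the binary sieve bound

Proof. `Q1 = ⌊X^(1/50)⌋`, `Q = Q1²` (`≤ X^(1/25) < zz X`, `Q² ≤ X^(2/25) ≤ n/c` since `n/c ≥ X^(1/10)/2`), `A` = the set, `N = n/c`. For a prime `p ≤ Q`: `p < zz X`, so `p ∤ k`, `p ∤ n - c k` (`k ∈ A`), `p ∤ c`. Let `r_p < p` with `c r_p ≡ n (p)`, `Ω p = {0, r_p}`:
`k % p ≠ 0` and `k % p ≠ r_p` (otherwise `p ∣ n - c k`; note `c k ≤ n`). `#Ω p = 1` if `p ∣ n` (then `r_p = 0`), otherwise `2 < p` (`n` is even, so `p ≥ 3`). So `#Ω/(p - #Ω) = hw n p`. `arith_ls` and `j_lower` (with `Q1`): `#A c0 (log Q1)²/SS n ≤ Q² + 13 N ≤ 14 N`,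
`log Q1 ≥ L/60`.
-/

set_option autoImplicit false

namespace Pool.MP_dd84fd_nt.HX

open Finset Pool.MP_67663b_nt.Odd Pool.MP_dd84fd_nt.En Pool.MP_dd84fd_nt.E2 Pool.MP_dd84fd_nt.LS
open Pool.MP_dd84fd_nt.L2G (nrm)
open Pool.MP_dd84fd_nt.GX

/-- the forbidden residues -/
private def svfO (n c p : ℕ) : Finset ℕ :=
  (range p).filter (fun r => r = 0 ∨ n ≡ c * r [MOD p])

private theorem svfO_dvd (n c p : ℕ) (hp : p.Prime) (hc : ¬ p ∣ c) (hn : p ∣ n) :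
    svfO n c p = {0} := by
  ext r
  unfold svfO
  rw [mem_filter, mem_range, mem_singleton]
  constructor
  · rintro ⟨h1, h2 | h2⟩
    · exact h2
    · have h3 : p ∣ c * r := (h2.dvd_iff dvd_rfl).1 hn
      rcases (hp.dvd_mul).1 h3 with h4 | h4
      · exact absurd h4 hc
      · exact Nat.eq_zero_of_dvd_of_lt h4 h1
  · rintro rfl
    exact ⟨hp.pos, Or.inl rfl⟩

private theorem svfO_not (n c p : ℕ) (hp : p.Prime) (hc : ¬ p ∣ c) (hn : ¬ p ∣ n) :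
    (svfO n c p).card = 2 := by
  have : Fact p.Prime := ⟨hp⟩
  have hc0 : (c : ZMod p) ≠ 0 := by
    rw [Ne, ZMod.natCast_eq_zero_iff]
    exact hc
  set r0 : ℕ := ((n : ZMod p) * (c : ZMod p)⁻¹).val with hr0
  have h1 : n ≡ c * r0 [MOD p] := by
    rw [← ZMod.natCast_eq_natCast_iff]
    push_cast
    rw [hr0, ZMod.natCast_zmod_val]
    field_simp
  have h2 : r0 < p := ZMod.val_lt _
  have h3 : r0 ≠ 0 := by
    intro h
    rw [h, Nat.mul_zero] at h1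
    exact hn ((Nat.modEq_zero_iff_dvd).1 h1)
  have hcop : Nat.Coprime p c := (Nat.Prime.coprime_iff_not_dvd hp).2 hc
  have h4 : svfO n c p = {0, r0} := by
    ext r
    unfold svfO
    rw [mem_filter, mem_range, mem_insert, mem_singleton]
    constructor
    · rintro ⟨h5, h6 | h6⟩
      · exact Or.inl h6
      · right
        have h7 : c * r ≡ c * r0 [MOD p] := h6.symm.trans h1
        have h8 : r ≡ r0 [MOD p] := Nat.ModEq.cancel_left_of_coprime hcop h7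
        exact Nat.ModEq.eq_of_lt_of_lt h8 h5 h2
    · rintro (rfl | rfl)
      · exact ⟨hp.pos, Or.inl rfl⟩
      · exact ⟨h2, Or.inr h1⟩
  rw [h4, card_pair (Ne.symm h3)]

/-- the weights are the weights `hw` -/
private theorem svfO_hw (n c p : ℕ) (hn : Even n) (hp : p.Prime) (hc : ¬ p ∣ c) :
    (svfO n c p).card < p ∧ ((svfO n c p).card : ℝ) / ((p : ℝ) - (svfO n c p).card) = hw n p := by
  unfold hw
  by_cases h : p ∣ n
  · rw [if_pos h, svfO_dvd n c p hp hc h, card_singleton]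
    refine ⟨hp.one_lt, ?_⟩
    push_cast
    rfl
  · rw [if_neg h, svfO_not n c p hp hc h]
    refine ⟨?_, ?_⟩
    · rcases hp.two_le.eq_or_lt with h2 | h2
      · exfalso
        rw [← h2] at h
        exact h hn.two_dvd
      · exact h2
    · push_cast
      rfl

theorem sieve4 : ∃ (C : ℝ) (X0 : ℕ), 0 < C ∧ ∀ X : ℕ, X0 ≤ X → ∀ n c : ℕ, X < 2 * n → n ≤ X →
    Even n → Rgh (zz X) c → (c : ℝ) ≤ (X : ℝ) ^ (9 / 10 : ℝ) →
    (((Icc 1 (n / c)).filter (fun k => Rgh (zz X) k ∧ Rgh (zz X) (n - c * k))).card : ℝ) ≤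
      C * SS n * ((n : ℝ) / c) / (Real.log X) ^ 2 := by
  obtain ⟨c0, hc0, hj⟩ := j_lower
  refine ⟨14 * 3600 / c0, ⌈Real.exp 300⌉₊, by positivity, ?_⟩
  intro X hX n c hXn hnX hn hc hcX
  have hXe : Real.exp 300 ≤ (X : ℝ) := Nat.ceil_le.mp hX
  have hX0 : (0 : ℝ) < X := lt_of_lt_of_le (Real.exp_pos _) hXe
  have hXN : 0 < X := by exact_mod_cast hX0
  have hX1 : (1 : ℝ) ≤ X := by exact_mod_cast hXN
  have hL : 300 ≤ Real.log (X : ℝ) := by
    rw [Real.le_log_iff_exp_le hX0]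
    exact hXe
  have hX1' : (1 : ℝ) < X := by
    by_contra hcon
    have : (X : ℝ) = 1 := le_antisymm (not_lt.1 hcon) hX1
    rw [this, Real.log_one] at hL
    linarith
  have hcpos : 0 < c := Nat.pos_of_ne_zero hc.1
  have hc0' : (0 : ℝ) < c := by exact_mod_cast hcpos
  have hn0 : 0 < n := by omega
  have hn0' : (0 : ℝ) < n := by exact_mod_cast hn0
  -- the parameters
  set Q1 : ℕ := ⌊(X : ℝ) ^ (1 / 50 : ℝ)⌋₊ with hQ1d
  have hx1 : (1 : ℝ) ≤ (X : ℝ) ^ (1 / 50 : ℝ) := Real.one_le_rpow hX1 (by norm_num)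
  have hQ1 : 1 ≤ Q1 := by
    rw [hQ1d, Nat.le_floor_iff (by positivity)]
    simpa using hx1
  have hQ1u : (Q1 : ℝ) ≤ (X : ℝ) ^ (1 / 50 : ℝ) := Nat.floor_le (by positivity)
  have hQ1l : (X : ℝ) ^ (1 / 50 : ℝ) / 2 ≤ Q1 := by
    have h1 := Nat.lt_floor_add_one ((X : ℝ) ^ (1 / 50 : ℝ))
    rw [← hQ1d] at h1
    have h2 : (1 : ℝ) ≤ Q1 := by exact_mod_cast hQ1
    linarith
  have hlogQ : Real.log X / 60 ≤ Real.log Q1 := by
    have h1 : Real.log ((X : ℝ) ^ (1 / 50 : ℝ) / 2) ≤ Real.log Q1 :=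
      Real.log_le_log (by positivity) hQ1l
    rw [Real.log_div (by positivity) (by norm_num), Real.log_rpow hX0] at h1
    have h2 : Real.log 2 ≤ 1 := by
      have := Real.log_two_lt_d9
      linarith
    linarith
  have hQ2 : ((Q1 ^ 2 : ℕ) : ℝ) ≤ (X : ℝ) ^ (1 / 25 : ℝ) := by
    push_cast
    calc (Q1 : ℝ) ^ 2 ≤ ((X : ℝ) ^ (1 / 50 : ℝ)) ^ 2 := pow_le_pow_left₀ (by positivity) hQ1u 2
      _ = (X : ℝ) ^ (1 / 25 : ℝ) := by
          rw [← Real.rpow_natCast, ← Real.rpow_mul hX0.le]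
          norm_num
  have hQz : Q1 ^ 2 < zz X := by
    have h1 : (X : ℝ) ^ (1 / 25 : ℝ) < (X : ℝ) ^ (1 / 20 : ℝ) :=
      Real.rpow_lt_rpow_of_exponent_lt hX1' (by norm_num)
    have h2 : (X : ℝ) ^ (1 / 20 : ℝ) ≤ zz X := Nat.le_ceil _
    have h3 : ((Q1 ^ 2 : ℕ) : ℝ) < zz X := hQ2.trans_lt (h1.trans_le h2)
    exact_mod_cast h3
  have hQQ : ((Q1 ^ 2 : ℕ) : ℝ) ^ 2 ≤ (n : ℝ) / c := by
    have h1 : ((Q1 ^ 2 : ℕ) : ℝ) ^ 2 ≤ ((X : ℝ) ^ (1 / 25 : ℝ)) ^ 2 :=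
      pow_le_pow_left₀ (by positivity) hQ2 2
    have h2 : ((X : ℝ) ^ (1 / 25 : ℝ)) ^ 2 = (X : ℝ) ^ (2 / 25 : ℝ) := by
      rw [← Real.rpow_natCast, ← Real.rpow_mul hX0.le]
      norm_num
    have h3 : (2 : ℝ) ≤ (X : ℝ) ^ (1 / 50 : ℝ) := by
      rw [Real.le_rpow_iff_log_le (by norm_num) hX0]
      have := Real.log_two_lt_d9
      linarith
    have h4 : (X : ℝ) ^ (2 / 25 : ℝ) * (X : ℝ) ^ (9 / 10 : ℝ) * 2 ≤ X := by
      calc (X : ℝ) ^ (2 / 25 : ℝ) * (X : ℝ) ^ (9 / 10 : ℝ) * 2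
          ≤ (X : ℝ) ^ (2 / 25 : ℝ) * (X : ℝ) ^ (9 / 10 : ℝ) * (X : ℝ) ^ (1 / 50 : ℝ) :=
            mul_le_mul_of_nonneg_left h3 (by positivity)
        _ = X := by
            rw [← Real.rpow_add hX0, ← Real.rpow_add hX0]
            norm_num
    rw [le_div_iff₀ hc0']
    have h5 : ((Q1 ^ 2 : ℕ) : ℝ) ^ 2 * c ≤ (X : ℝ) ^ (2 / 25 : ℝ) * (X : ℝ) ^ (9 / 10 : ℝ) := by
      rw [← h2]
      exact mul_le_mul h1 hcX hc0'.le (by positivity)
    have h6 : (X : ℝ) < 2 * n := by exact_mod_cast hXn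
    linarith
  -- the sieve
  set A : Finset ℕ := (Icc 1 (n / c)).filter
    (fun k => Rgh (zz X) k ∧ Rgh (zz X) (n - c * k)) with hA
  have hpc : ∀ p : ℕ, p.Prime → p ≤ Q1 ^ 2 → ¬ p ∣ c := by
    intro p hp hpQ hdvd
    have h1 := hc.2 p (Nat.mem_primeFactors.2 ⟨hp, hdvd, hc.1⟩)
    omega
  have hls := arith_ls (svfO n c) A ((n : ℝ) / c) (Q1 ^ 2) (by positivity)
    (Nat.one_le_pow _ _ hQ1) (fun k hk => by
      have h1 : k ≤ n / c := (mem_Icc.1 (mem_filter.1 hk).1).2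
      have h2 : (k : ℝ) ≤ ((n / c : ℕ) : ℝ) := by exact_mod_cast h1
      exact h2.trans Nat.cast_div_le)
    (fun p hp hpQ => by
      refine ⟨filter_subset _ _, (svfO_hw n c p hn hp (hpc p hp hpQ)).1, fun k hk hmem => ?_⟩
      obtain ⟨hk1, hk2, hk3⟩ := mem_filter.1 hk
      unfold svfO at hmem
      rw [mem_filter] at hmem
      rcases hmem.2 with h1 | h1
      · have h2 := hk2.2 p (Nat.mem_primeFactors.2 ⟨hp, Nat.dvd_of_mod_eq_zero h1, hk2.1⟩)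
        omega
      · have h2 : c * (k % p) ≡ c * k [MOD p] := Nat.ModEq.mul_left c (Nat.mod_modEq k p)
        have h3 : c * k ≡ n [MOD p] := (h1.trans h2).symm
        have h4 : c * k ≤ n := by
          calc c * k ≤ c * (n / c) := Nat.mul_le_mul_left c (mem_Icc.1 hk1).2
            _ ≤ n := Nat.mul_div_le n c
        have h5 : p ∣ n - c * k := (Nat.modEq_iff_dvd' h4).1 h3
        have h6 := hk3.2 p (Nat.mem_primeFactors.2 ⟨hp, h5, hk3.1⟩)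
        omega)
  have hsum : ∑ s ∈ (Icc 1 (Q1 ^ 2)).filter Squarefree,
      ∏ p ∈ s.primeFactors, ((svfO n c p).card : ℝ) / ((p : ℝ) - (svfO n c p).card) =
      ∑ s ∈ (Icc 1 (Q1 ^ 2)).filter Squarefree, ∏ p ∈ s.primeFactors, hw n p := by
    refine Finset.sum_congr rfl fun s hs => Finset.prod_congr rfl fun p hp => ?_
    have hs1 := mem_Icc.1 (mem_filter.1 hs).1
    have hp' := Nat.mem_primeFactors.1 hp
    have hps : p ≤ Q1 ^ 2 := (Nat.le_of_dvd (by omega) hp'.2.1).trans hs1.2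
    exact (svfO_hw n c p hn hp'.1 (hpc p hp'.1 hps)).2
  rw [hsum] at hls
  have hjl := hj n Q1 hn hn0 hQ1
  have hSS : 0 < SS n := by
    have h1 := SS_ge n
    have h2 := C2_pos
    linarith
  have hA0 : (0 : ℝ) ≤ A.card := Nat.cast_nonneg _
  have h1 : (A.card : ℝ) * (c0 * (Real.log Q1) ^ 2 / SS n) ≤ 14 * ((n : ℝ) / c) := by
    have h2 := mul_le_mul_of_nonneg_left hjl hA0
    linarith
  have h2 : (A.card : ℝ) * (c0 * (Real.log X / 60) ^ 2 / SS n) ≤ 14 * ((n : ℝ) / c) := by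
    refine le_trans (mul_le_mul_of_nonneg_left ?_ hA0) h1
    refine div_le_div_of_nonneg_right ?_ hSS.le
    exact mul_le_mul_of_nonneg_left (pow_le_pow_left₀ (by linarith) hlogQ 2) hc0.le
  have hL0 : 0 < Real.log (X : ℝ) := by linarith
  rw [le_div_iff₀ (by positivity)]
  have h3 : (A.card : ℝ) * (c0 * (Real.log X / 60) ^ 2 / SS n) =
      (A.card : ℝ) * (Real.log X) ^ 2 * (c0 / (3600 * SS n)) := by
    field_simp
    norm_num
  rw [h3] at h2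
  have h4 : 14 * 3600 / c0 * SS n * ((n : ℝ) / c) = 14 * ((n : ℝ) / c) / (c0 / (3600 * SS n)) := by
    field_simp
  rw [h4, le_div_iff₀ (by positivity)]
  exact h2

end Pool.MP_dd84fd_nt.HX
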