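import Pool.Agent.Lib.MP_dd84fd_nt.HX.MjDefs

/-!
# HX-SvJa (0.8 h): the sum of the sieve weights, first step

Proof. The left side is the sum over pairs `(s1, s2)`, squarefree `≤ Q`, `s2` coprime to `n`, of `1/(φ(s1) φ(s2)) = Π_{p ∣ s1} 1/(p-1) Π_{p ∣ s2} 1/(p-1)`. Group by `s = lcm(s1, s2)`, squarefree, `≤ Q²`. For fixed `s` the pairs with `lcm = s` correspond to the functions
`s.primeFactors → {only s1, only s2, both}` where a prime `p ∣ n` must be `only s1`; so their sum is at most `Π_{p ∣ s} g(p)`, `g(p) = 1/(p-1)` for `p ∣ n`, `g(p) = 2/(p-1) + 1/(p-1)² = (2p-1)/(p-1)² ≤ 2/(p-2)` for `p ∤ n` (then `p ≥ 3`, `n` even).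
Formal: `s2 = (s/s1) g`, `g = gcd(s1, s2) ∣ s1`: `Σ_{pairs} ≤ Σ_{s1 ∣ s} x(s1) y(s/s1) Σ_{g ∣ s1} y(g)` with the multiplicative weights `x(s) = Π_{p ∣ s} 1/(p-1)`, `y(s) = Π_{p ∣ s} y_p`, `y_p = [p ∤ n]/(p-1)`; `Σ_{g ∣ s1} y(g) = Π_{p ∣ s1} (1 + y_p)`;
in terms of sets of primes: `T = s.primeFactors`, `Σ_{T1 ⊆ T} Π_{T1} x_p (1 + y_p) Π_{T \ T1} y_p = Π_T (x_p (1 + y_p) + y_p)` (`Finset.prod_add`). (Or induction over the primes.)
-/

set_option autoImplicit false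

namespace Pool.MP_dd84fd_nt.HX

open Finset Pool.MP_67663b_nt.Odd Pool.MP_dd84fd_nt.En Pool.MP_dd84fd_nt.E2 Pool.MP_dd84fd_nt.LS
open Pool.MP_dd84fd_nt.L2G (nrm)
open Pool.MP_dd84fd_nt.GX

private noncomputable def svJa_x (p : ℕ) : ℝ := 1 / ((p : ℝ) - 1)

private noncomputable def svJa_y (n p : ℕ) : ℝ := if p ∣ n then 0 else 1 / ((p : ℝ) - 1)

private theorem svJa_x0 (p : ℕ) (hp : p.Prime) : 0 ≤ svJa_x p := by
  have h1 : (1 : ℝ) < p := by exact_mod_cast hp.one_lt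
  unfold svJa_x
  apply div_nonneg zero_le_one
  linarith

private theorem svJa_y0 (n p : ℕ) (hp : p.Prime) : 0 ≤ svJa_y n p := by
  have h1 : (1 : ℝ) < p := by exact_mod_cast hp.one_lt
  unfold svJa_y
  split_ifs
  · exact le_refl _
  · apply div_nonneg zero_le_one
    linarith

private theorem svJa_tot (r : ℕ) (hr : Squarefree r) :
    1 / (Nat.totient r : ℝ) = ∏ p ∈ r.primeFactors, svJa_x p := by
  have h1 := Nat.totient_mul_prod_primeFactors r
  rw [Nat.prod_primeFactors_of_squarefree hr, mul_comm] at h1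
  have hr0 : 0 < r := Nat.pos_of_ne_zero hr.ne_zero
  have h2 : Nat.totient r = ∏ p ∈ r.primeFactors, (p - 1) := Nat.eq_of_mul_eq_mul_left hr0 h1
  unfold svJa_x
  rw [prod_div_distrib, prod_const_one, h2, Nat.cast_prod]
  congr 1
  refine prod_congr rfl fun p hp => ?_
  rw [Nat.cast_sub (Nat.prime_of_mem_primeFactors hp).one_lt.le, Nat.cast_one]

private theorem svJa_sum (n : ℕ) (T : Finset ℕ) :
    ∑ T1 ∈ T.powerset, ∑ G ∈ T1.powerset, (∏ p ∈ T1, svJa_x p) * (∏ p ∈ T \ T1, svJa_y n p) *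
      (∏ p ∈ G, svJa_y n p) = ∏ p ∈ T, (svJa_x p * (1 + svJa_y n p) + svJa_y n p) := by
  rw [prod_add]
  refine sum_congr rfl fun T1 _ => ?_
  rw [← mul_sum, ← prod_one_add, prod_mul_distrib]
  ring

private theorem svJa_loc (n p : ℕ) (hn : Even n) (hp : p.Prime) :
    svJa_x p * (1 + svJa_y n p) + svJa_y n p ≤ hw n p := by
  have h1 : (1 : ℝ) < p := by exact_mod_cast hp.one_lt
  unfold svJa_x svJa_y hw
  split_ifs with h
  · simp
  · have h2 : 2 < p := by
      rcases Nat.lt_or_ge 2 p with h3 | h3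
      · exact h3
      · exfalso
        have h4 : p = 2 := le_antisymm h3 hp.two_le
        rw [h4] at h
        exact h (even_iff_two_dvd.1 hn)
    have h3 : (2 : ℝ) < p := by exact_mod_cast h2
    have h4 : (0 : ℝ) < (p : ℝ) - 1 := by linarith
    have h5 : (0 : ℝ) < (p : ℝ) - 2 := by linarith
    have h6 : 1 / ((p : ℝ) - 1) * (1 + 1 / ((p : ℝ) - 1)) + 1 / ((p : ℝ) - 1) =
        (2 * (p : ℝ) - 1) / ((p : ℝ) - 1) ^ 2 := by
      field_simp
      ring
    rw [h6, div_le_div_iff₀ (by positivity) h5]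
    nlinarith

private theorem svJa_lcm (a b : ℕ) (ha : Squarefree a) (hb : Squarefree b) :
    Squarefree (Nat.lcm a b) ∧ (Nat.lcm a b).primeFactors = a.primeFactors ∪ b.primeFactors := by
  have ha0 := ha.ne_zero
  have hb0 := hb.ne_zero
  have h0 : Nat.lcm a b ≠ 0 := Nat.lcm_ne_zero ha0 hb0
  constructor
  · rw [Nat.squarefree_iff_factorization_le_one h0]
    intro p
    rw [Nat.factorization_lcm ha0 hb0]
    have h1 := (Nat.squarefree_iff_factorization_le_one ha0).1 ha p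
    have h2 := (Nat.squarefree_iff_factorization_le_one hb0).1 hb p
    simpa using ⟨h1, h2⟩
  · ext p
    simp only [mem_union, Nat.mem_primeFactors]
    constructor
    · rintro ⟨hp, hd, _⟩
      have h3 : p ∣ a * b := hd.trans (Nat.lcm_dvd_mul a b)
      rcases (Nat.Prime.dvd_mul hp).1 h3 with h | h
      · exact Or.inl ⟨hp, h, ha0⟩
      · exact Or.inr ⟨hp, h, hb0⟩
    · rintro (⟨hp, hd, _⟩ | ⟨hp, hd, _⟩)
      · exact ⟨hp, hd.trans (Nat.dvd_lcm_left a b), h0⟩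
      · exact ⟨hp, hd.trans (Nat.dvd_lcm_right a b), h0⟩

private theorem svJa_inj (a a' : ℕ) (ha : Squarefree a) (ha' : Squarefree a')
    (h : a.primeFactors = a'.primeFactors) : a = a' := by
  rw [← Nat.prod_primeFactors_of_squarefree ha, ← Nat.prod_primeFactors_of_squarefree ha', h]

private theorem svJa_fib (n : ℕ) (F : Finset (ℕ × ℕ)) (s : ℕ)
    (hF : ∀ t ∈ F, Squarefree t.1 ∧ Squarefree t.2 ∧ Nat.lcm t.1 t.2 = s) :
    ∑ t ∈ F, (∏ p ∈ t.1.primeFactors, svJa_x p) * (∏ p ∈ t.2.primeFactors, svJa_y n p) ≤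
      ∏ p ∈ s.primeFactors, (svJa_x p * (1 + svJa_y n p) + svJa_y n p) := by
  set T := s.primeFactors with hT
  have hu : ∀ t ∈ F, T = t.1.primeFactors ∪ t.2.primeFactors := by
    intro t ht
    obtain ⟨h1, h2, h3⟩ := hF t ht
    rw [hT, ← h3]
    exact (svJa_lcm _ _ h1 h2).2
  rw [← svJa_sum, sum_sigma']
  set e : ℕ × ℕ → (Σ _ : Finset ℕ, Finset ℕ) :=
    fun t => ⟨t.1.primeFactors, t.1.primeFactors ∩ t.2.primeFactors⟩ with he
  set g : (Σ _ : Finset ℕ, Finset ℕ) → ℝ := fun u =>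
    (∏ p ∈ u.1, svJa_x p) * (∏ p ∈ T \ u.1, svJa_y n p) * (∏ p ∈ u.2, svJa_y n p) with hg
  have h1 : ∑ t ∈ F, (∏ p ∈ t.1.primeFactors, svJa_x p) * (∏ p ∈ t.2.primeFactors, svJa_y n p) =
      ∑ t ∈ F, g (e t) := by
    refine sum_congr rfl fun t ht => ?_
    simp only [hg, he]
    rw [mul_assoc]
    congr 1
    have h2 : T \ t.1.primeFactors = t.2.primeFactors \ t.1.primeFactors := by
      rw [hu t ht]
      ext p
      simp only [mem_sdiff, mem_union]
      tauto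
    rw [h2, inter_comm, mul_comm, prod_inter_mul_prod_sdiff]
  have h2 : Set.InjOn e (F : Set (ℕ × ℕ)) := by
    rintro ⟨a, b⟩ h3 ⟨a', b'⟩ h4 h5
    have h3' : (a, b) ∈ F := h3
    have h4' : (a', b') ∈ F := h4
    simp only [he, Sigma.mk.injEq, heq_eq_eq] at h5
    obtain ⟨h6, h7⟩ := h5
    have ha := hF _ h3'
    have ha' := hF _ h4'
    have hu1 := hu _ h3'
    have hu2 := hu _ h4'
    simp only at ha ha' hu1 hu2
    have h8 : a = a' := svJa_inj a a' ha.1 ha'.1 h6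
    have h9 : b.primeFactors = b'.primeFactors := by
      subst h8
      rw [hu1] at hu2
      ext p
      have h10 := Finset.ext_iff.1 hu2 p
      have h11 := Finset.ext_iff.1 h7 p
      simp only [mem_union, mem_inter] at h10 h11
      tauto
    have h10 : b = b' := svJa_inj b b' ha.2.1 ha'.2.1 h9
    rw [h8, h10]
  rw [h1, ← sum_image h2]
  apply sum_le_sum_of_subset_of_nonneg
  · intro u hu'
    obtain ⟨t, ht, rfl⟩ := mem_image.1 hu'
    simp only [he, mem_sigma, mem_powerset]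
    refine ⟨?_, inter_subset_left⟩
    rw [hu t ht]
    exact subset_union_left
  · rintro ⟨T1, G⟩ hu' _
    simp only [mem_sigma, mem_powerset] at hu'
    simp only [hg]
    have hpr : ∀ p ∈ T, p.Prime := fun p hp => Nat.prime_of_mem_primeFactors hp
    refine mul_nonneg (mul_nonneg ?_ ?_) ?_
    · exact prod_nonneg fun p hp => svJa_x0 p (hpr p (hu'.1 hp))
    · exact prod_nonneg fun p hp => svJa_y0 n p (hpr p (mem_sdiff.1 hp).1)
    · exact prod_nonneg fun p hp => svJa_y0 n p (hpr p (hu'.1 (hu'.2 hp)))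

theorem j_pairs (n Q : ℕ) (hn : Even n) (hn0 : n ≠ 0) :
    (∑ r ∈ (Icc 1 Q).filter Squarefree, 1 / (Nat.totient r : ℝ)) *
      (∑ r ∈ (Icc 1 Q).filter (fun r => Squarefree r ∧ Nat.Coprime r n),
        1 / (Nat.totient r : ℝ)) ≤
      ∑ s ∈ (Icc 1 (Q ^ 2)).filter Squarefree, ∏ p ∈ s.primeFactors, hw n p := by
  have h1 : ∑ r ∈ (Icc 1 Q).filter Squarefree, 1 / (Nat.totient r : ℝ) =
      ∑ r ∈ (Icc 1 Q).filter Squarefree, ∏ p ∈ r.primeFactors, svJa_x p :=
    sum_congr rfl fun r hr => svJa_tot r (mem_filter.1 hr).2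
  have h2 : ∑ r ∈ (Icc 1 Q).filter (fun r => Squarefree r ∧ Nat.Coprime r n),
        1 / (Nat.totient r : ℝ) =
      ∑ r ∈ (Icc 1 Q).filter (fun r => Squarefree r ∧ Nat.Coprime r n),
        ∏ p ∈ r.primeFactors, svJa_y n p := by
    refine sum_congr rfl fun r hr => ?_
    obtain ⟨_, hr1, hr2⟩ := mem_filter.1 hr
    rw [svJa_tot r hr1]
    refine prod_congr rfl fun p hp => ?_
    unfold svJa_x svJa_y
    rw [if_neg]
    intro h3
    have h4 := Nat.eq_one_of_dvd_coprimes hr2 (Nat.dvd_of_mem_primeFactors hp) h3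
    exact (Nat.prime_of_mem_primeFactors hp).one_lt.ne' h4
  rw [h1, h2, sum_mul_sum, ← sum_product']
  set P := (Icc 1 Q).filter Squarefree ×ˢ
    (Icc 1 Q).filter (fun r => Squarefree r ∧ Nat.Coprime r n) with hP
  have hmap : ∀ t ∈ P, Nat.lcm t.1 t.2 ∈ (Icc 1 (Q ^ 2)).filter Squarefree := by
    rintro ⟨a, b⟩ ht
    simp only [hP, mem_product, mem_filter, mem_Icc] at ht ⊢
    obtain ⟨⟨⟨a1, a2⟩, a3⟩, ⟨b1, b2⟩, b3, _⟩ := ht
    refine ⟨⟨Nat.pos_of_ne_zero (Nat.lcm_ne_zero a3.ne_zero b3.ne_zero), ?_⟩,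
      (svJa_lcm a b a3 b3).1⟩
    calc Nat.lcm a b ≤ a * b := Nat.le_of_dvd (Nat.mul_pos a1 b1) (Nat.lcm_dvd_mul a b)
      _ ≤ Q * Q := Nat.mul_le_mul a2 b2
      _ = Q ^ 2 := by ring
  rw [← sum_fiberwise_of_maps_to hmap]
  refine sum_le_sum fun s hs => ?_
  refine (svJa_fib n _ s ?_).trans ?_
  · intro t ht
    obtain ⟨ht1, ht2⟩ := mem_filter.1 ht
    simp only [hP, mem_product, mem_filter] at ht1
    exact ⟨ht1.1.2, ht1.2.2.1, ht2⟩
  · refine prod_le_prod (fun p hp => ?_) fun p hp =>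
      svJa_loc n p hn (Nat.prime_of_mem_primeFactors hp)
    have hpp := Nat.prime_of_mem_primeFactors hp
    have hx := svJa_x0 p hpp
    have hy := svJa_y0 n p hpp
    positivity

end Pool.MP_dd84fd_nt.HX
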