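import Pool.Agent.Lib.MP_dd84fd_nt.HX.SvM
import Pool.Agent.Lib.MP_67663b_nt.OddB.LSieve

/-!
# HX-SvLs (0.5 h): the arithmetic large sieve

Proof. `mont_sqf` at `ψ = 0` for all squarefree `s ≤ Q` (its prime factors are `≤ Q`): `#A² Σ_s Π h ≤ Σ_{s ≤ Q} Σ_{b mod s}* |Z(b/s)|²`. `large_sieve_c` (`OddB/LSieve.lean`) for the points `b/s`, `s ≤ Q` squarefree, `b` reduced: distances mod 1 of different points
`≥ 1/(s s') ≥ 1/Q²` (`b/s - b'/s' - z = (b s' - b' s - z s s')/(s s')`, non-zero because `b/s`, `b'/s'` are different reduced fractions in `[0,1)`): `≤ (Q² + 4π N) #A`, `4π ≤ 13`. Divide by `#A` (if `A` is empty the claim is `0 ≤ ...`).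
-/

set_option autoImplicit false

namespace Pool.MP_dd84fd_nt.HX

open Finset Pool.MP_67663b_nt.Odd Pool.MP_dd84fd_nt.En Pool.MP_dd84fd_nt.E2 Pool.MP_dd84fd_nt.LS
open Pool.MP_dd84fd_nt.L2G (nrm)
open Pool.MP_dd84fd_nt.GX

theorem arith_ls (Ω : ℕ → Finset ℕ) (A : Finset ℕ) (N : ℝ) (Q : ℕ) (hN : 0 < N) (hQ : 1 ≤ Q)
    (hA : ∀ n ∈ A, (n : ℝ) ≤ N)
    (hΩ : ∀ p : ℕ, p.Prime → p ≤ Q → Ω p ⊆ range p ∧ (Ω p).card < p ∧ ∀ n ∈ A, n % p ∉ Ω p) :
    (A.card : ℝ) * ∑ s ∈ (Icc 1 Q).filter Squarefree,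
      ∏ p ∈ s.primeFactors, ((Ω p).card : ℝ) / ((p : ℝ) - (Ω p).card) ≤
      (Q : ℝ) ^ 2 + 13 * N := by
  classical
  have hQ0 : (0 : ℝ) < Q := by exact_mod_cast hQ
  set S := (Icc 1 Q).filter Squarefree with hS
  set I : Finset ((_ : ℕ) × ℕ) := S.sigma (fun s => (range s).filter (Nat.Coprime s)) with hI
  have hδ0 : (0 : ℝ) < 1 / (Q : ℝ) ^ 2 := by positivity
  have hδ1 : 1 / (Q : ℝ) ^ 2 ≤ 1 := by
    rw [div_le_one (by positivity)]
    have : (1 : ℝ) ≤ Q := by exact_mod_cast hQ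
    exact one_le_pow₀ this
  have hsp : ∀ i ∈ I, ∀ j ∈ I, i ≠ j → ∀ z : ℤ, 1 / (Q : ℝ) ^ 2 ≤
      |(i.2 : ℝ) / i.1 - (j.2 : ℝ) / j.1 - z| := by
    rintro ⟨s, b⟩ hi ⟨s', b'⟩ hj hne z
    rw [hI, mem_sigma, hS, mem_filter, mem_Icc, mem_filter, mem_range] at hi hj
    obtain ⟨⟨⟨hs1, hsQ⟩, -⟩, hb, hc⟩ := hi
    obtain ⟨⟨⟨hs1', hsQ'⟩, -⟩, hb', hc'⟩ := hj
    simp only at hs1 hsQ hb hc hs1' hsQ' hb' hc'
    have hs0 : (0 : ℝ) < s := by exact_mod_cast hs1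
    have hs0' : (0 : ℝ) < s' := by exact_mod_cast hs1'
    set w : ℤ := (b : ℤ) * s' - b' * s - z * s * s' with hw
    have h1 : (b : ℝ) / s - (b' : ℝ) / s' - z = (w : ℝ) / (s * s') := by
      rw [hw]
      push_cast
      field_simp
    have hw0 : w ≠ 0 := by
      intro h0
      have h2 : (b : ℝ) / s - (b' : ℝ) / s' = z := by
        rw [h0, Int.cast_zero, zero_div] at h1
        linarith
      have h3 : 0 ≤ (b : ℝ) / s := by positivity
      have h4 : (b : ℝ) / s < 1 := by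
        rw [div_lt_one hs0]
        exact_mod_cast hb
      have h5 : 0 ≤ (b' : ℝ) / s' := by positivity
      have h6 : (b' : ℝ) / s' < 1 := by
        rw [div_lt_one hs0']
        exact_mod_cast hb'
      have h7 : z < 1 := by
        have : (z : ℝ) < 1 := by linarith
        exact_mod_cast this
      have h8 : -1 < z := by
        have : (-1 : ℝ) < z := by linarith
        exact_mod_cast this
      have h9 : z = 0 := by omega
      rw [h9] at hw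
      have h10 : b * s' = b' * s := by
        have : (b : ℤ) * s' = b' * s := by
          rw [h0] at hw
          linarith
        exact_mod_cast this
      have h11 : s ∣ s' := Nat.Coprime.dvd_of_dvd_mul_left hc ⟨b', by rw [h10]; ring⟩
      have h12 : s' ∣ s := Nat.Coprime.dvd_of_dvd_mul_left hc' ⟨b, by rw [← h10]; ring⟩
      have h13 : s = s' := Nat.dvd_antisymm h11 h12
      subst h13
      have h14 : b = b' := Nat.eq_of_mul_eq_mul_right (by omega) h10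
      subst h14
      exact hne rfl
    rw [h1, abs_div, abs_of_pos (by positivity : (0 : ℝ) < (s : ℝ) * s')]
    have h2 : (1 : ℝ) ≤ |(w : ℝ)| := by
      have := Int.one_le_abs hw0
      exact_mod_cast this
    have h3 : (s : ℝ) * s' ≤ (Q : ℝ) ^ 2 := by
      have e1 : (s : ℝ) ≤ Q := by exact_mod_cast hsQ
      have e2 : (s' : ℝ) ≤ Q := by exact_mod_cast hsQ'
      rw [sq]
      exact mul_le_mul e1 e2 hs0'.le hQ0.le
    calc 1 / (Q : ℝ) ^ 2 ≤ 1 / ((s : ℝ) * s') := by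
          apply one_div_le_one_div_of_le (by positivity) h3
      _ ≤ |(w : ℝ)| / ((s : ℝ) * s') := by gcongr
  have hls := large_sieve_c I (fun i => (i.2 : ℝ) / i.1) hδ0 hδ1 hsp A (fun _ => 1) hN hA
  have h1 : ∑ i ∈ I, ‖∑ n ∈ A, (1 : ℂ) * ee (n * ((i.2 : ℝ) / i.1))‖ ^ 2 =
      ∑ s ∈ S, ∑ b ∈ (range s).filter (Nat.Coprime s), ‖∑ n ∈ A, ee ((n : ℝ) * ((b : ℝ) / s))‖ ^ 2 := by
    rw [hI, sum_sigma]
    simp only [one_mul]
  have h2 : ∑ n ∈ A, ‖(1 : ℂ)‖ ^ 2 = (A.card : ℝ) := by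
    simp
  rw [h1, h2] at hls
  have h3 : ∀ s ∈ S, (∏ p ∈ s.primeFactors, ((Ω p).card : ℝ) / ((p : ℝ) - (Ω p).card)) *
      (A.card : ℝ) ^ 2 ≤ ∑ b ∈ (range s).filter (Nat.Coprime s),
        ‖∑ n ∈ A, ee ((n : ℝ) * ((b : ℝ) / s))‖ ^ 2 := by
    intro s hs
    rw [hS, mem_filter, mem_Icc] at hs
    have h4 := mont_sqf Ω A s hs.2 (fun p hp => hΩ p (Nat.prime_of_mem_primeFactors hp)
      ((Nat.le_of_dvd (by omega) (Nat.dvd_of_mem_primeFactors hp)).trans hs.1.2)) 0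
    have h5 : ∑ n ∈ A, ee ((n : ℝ) * 0) = (A.card : ℂ) := by
      have : ∀ n ∈ A, ee ((n : ℝ) * 0) = 1 := by
        intro n _
        unfold ee
        simp
      rw [sum_congr rfl this]
      simp
    rw [h5, Complex.norm_natCast] at h4
    simp only [zero_add] at h4
    exact h4
  have h4 : (∑ s ∈ S, ∏ p ∈ s.primeFactors, ((Ω p).card : ℝ) / ((p : ℝ) - (Ω p).card)) *
      (A.card : ℝ) ^ 2 ≤ ((1 / (Q : ℝ) ^ 2)⁻¹ + 4 * Real.pi * N) * A.card := by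
    rw [sum_mul]
    exact (sum_le_sum h3).trans hls
  rcases Nat.eq_zero_or_pos A.card with h0 | h0
  · rw [h0]
    simp only [Nat.cast_zero, zero_mul]
    positivity
  · have h0r : (0 : ℝ) < A.card := by exact_mod_cast h0
    have h5 : (A.card : ℝ) * (∑ s ∈ S, ∏ p ∈ s.primeFactors,
        ((Ω p).card : ℝ) / ((p : ℝ) - (Ω p).card)) ≤ (1 / (Q : ℝ) ^ 2)⁻¹ + 4 * Real.pi * N := by
      refine le_of_mul_le_mul_right ?_ h0r
      calc _ = (∑ s ∈ S, ∏ p ∈ s.primeFactors, ((Ω p).card : ℝ) / ((p : ℝ) - (Ω p).card)) *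
            (A.card : ℝ) ^ 2 := by ring
        _ ≤ _ := h4
    refine h5.trans ?_
    have h6 : (1 / (Q : ℝ) ^ 2)⁻¹ = (Q : ℝ) ^ 2 := by
      rw [one_div, inv_inv]
    rw [h6]
    have h7 := Real.pi_lt_d2
    nlinarith

end Pool.MP_dd84fd_nt.HX
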