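import Pool.Agent.Lib.MP_dd84fd_nt.HX.SvP

/-!
# HX-SvM (0.7 h): the sieve inequality for squarefree moduli

Proof. Induction over the prime factors of `r` (`Nat.recOnMul`/`induction_on_primes`, or `Nat.recOnPrimeCoprime`): `r = 1`: the sum has the term `b = 0` only. `r = p s`, `p ∤ s`: by induction for `s` (at `ψ`) and `mont_prime` (at `ψ + b/s`)
`Π_{p' ∣ r} h(p') |Z(ψ)|² ≤ Σ_{b mod s}* h(p) |Z(ψ + b/s)|² ≤ Σ_{b mod s}* Σ_{b'=1}^{p-1} |Z(ψ + b/s + b'/p)|²` and `b/s + b'/p = (b p + b' s)/(p s)`; `(b, b') ↦ (b p + b' s) mod p s` is a bijection from (reduced mod `s`) × `[1, p-1]`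
to the reduced residues mod `p s` (Chinese remainder theorem; injective plus coprimality plus `φ(p s) = (p-1) φ(s)`, or only injective into the reduced residues: the inequality needs only that), and `e(n x)` is `1`-periodic in `x` for integers `n`.
-/

set_option autoImplicit false

namespace Pool.MP_dd84fd_nt.HX

open Finset Pool.MP_67663b_nt.Odd Pool.MP_dd84fd_nt.En Pool.MP_dd84fd_nt.E2 Pool.MP_dd84fd_nt.LS
open Pool.MP_dd84fd_nt.L2G (nrm)
open Pool.MP_dd84fd_nt.GX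

private theorem svM_inj (p s : ℕ) (hp : p.Prime) (hs : 0 < s) (hc : Nat.Coprime p s) :
    Set.InjOn (fun t : ℕ × ℕ => (t.1 * p + t.2 * s) % (p * s))
      (((range s).filter (Nat.Coprime s) ×ˢ Icc 1 (p - 1) : Finset (ℕ × ℕ)) : Set (ℕ × ℕ)) := by
  rintro ⟨b, c⟩ h1 ⟨b', c'⟩ h2 h
  simp only [coe_product, Set.mem_prod, mem_coe, mem_filter, mem_range, mem_Icc] at h1 h2
  have h3 : b * p + c * s ≡ b' * p + c' * s [MOD (p * s)] := h
  have h4 : b * p + c * s ≡ b' * p + c' * s [MOD p] := Nat.ModEq.of_mul_right s h3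
  have h5 : b * p + c * s ≡ b' * p + c' * s [MOD s] := Nat.ModEq.of_mul_left p h3
  have e1 : ∀ x y : ℕ, x * p + y * s ≡ y * s [MOD p] := fun x y => by
    unfold Nat.ModEq
    rw [Nat.add_comm, Nat.add_mul_mod_self_right]
  have e2 : ∀ x y : ℕ, x * p + y * s ≡ x * p [MOD s] := fun x y => by
    unfold Nat.ModEq
    rw [Nat.add_mul_mod_self_right]
  have h6 : c * s ≡ c' * s [MOD p] := ((e1 b c).symm.trans h4).trans (e1 b' c')
  have h7 : b * p ≡ b' * p [MOD s] := ((e2 b c).symm.trans h5).trans (e2 b' c')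
  have h8 : c ≡ c' [MOD p] := Nat.ModEq.cancel_right_of_coprime hc h6
  have h9 : b ≡ b' [MOD s] := Nat.ModEq.cancel_right_of_coprime hc.symm h7
  have hp1 := hp.one_lt
  have h10 : c = c' := Nat.ModEq.eq_of_lt_of_lt h8 (by omega) (by omega)
  have h11 : b = b' := Nat.ModEq.eq_of_lt_of_lt h9 h1.1.1 h2.1.1
  rw [h10, h11]

private theorem svM_map (p s : ℕ) (hp : p.Prime) (hs : 0 < s) (hc : Nat.Coprime p s)
    (t : ℕ × ℕ) (ht : t ∈ (range s).filter (Nat.Coprime s) ×ˢ Icc 1 (p - 1)) :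
    (t.1 * p + t.2 * s) % (p * s) ∈ (range (p * s)).filter (Nat.Coprime (p * s)) := by
  obtain ⟨b, c⟩ := t
  simp only [mem_product, mem_filter, mem_range, mem_Icc] at ht
  have hp1 := hp.one_lt
  simp only [mem_filter, mem_range]
  refine ⟨Nat.mod_lt _ (Nat.mul_pos hp.pos hs), ?_⟩
  have h1 : Nat.Coprime (p * s) (b * p + c * s) := by
    apply Nat.Coprime.mul_left
    · rw [Nat.Prime.coprime_iff_not_dvd hp]
      intro h
      have h2 : p ∣ c * s := (Nat.dvd_add_right (Dvd.intro_left b rfl)).1 h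
      rcases (Nat.Prime.dvd_mul hp).1 h2 with h3 | h3
      · have := Nat.le_of_dvd (by omega) h3
        omega
      · exact (Nat.Prime.coprime_iff_not_dvd hp).1 hc h3
    · rw [Nat.coprime_add_mul_right_right]
      exact Nat.Coprime.mul_right ht.1.2 hc.symm
  unfold Nat.Coprime at h1 ⊢
  rw [Nat.gcd_comm, ← Nat.gcd_rec]
  exact h1

private theorem svM_term (p s : ℕ) (hp : 0 < p) (hs : 0 < s) (A : Finset ℕ) (ψ : ℝ) (b c : ℕ) :
    ∑ n ∈ A, ee ((n : ℝ) * (ψ + (b : ℝ) / s + (c : ℝ) / p)) =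
      ∑ n ∈ A, ee ((n : ℝ) * (ψ + (((b * p + c * s) % (p * s) : ℕ) : ℝ) / ((p * s : ℕ) : ℝ))) := by
  refine sum_congr rfl fun n _ => ?_
  have h1 : (((b * p + c * s) % (p * s) : ℕ) : ℝ) + ((p * s : ℕ) : ℝ) *
      (((b * p + c * s) / (p * s) : ℕ) : ℝ) = (b : ℝ) * p + (c : ℝ) * s := by
    have h2 := Nat.mod_add_div (b * p + c * s) (p * s)
    exact_mod_cast h2
  have hp0 : (p : ℝ) ≠ 0 := by positivity
  have hs0 : (s : ℝ) ≠ 0 := by positivity
  have h3 : (n : ℝ) * (ψ + (b : ℝ) / s + (c : ℝ) / p) =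
      (n : ℝ) * (ψ + (((b * p + c * s) % (p * s) : ℕ) : ℝ) / ((p * s : ℕ) : ℝ)) +
        (((n : ℤ) * ((((b * p + c * s) / (p * s) : ℕ) : ℤ)) : ℤ) : ℝ) := by
    have h4 : (b : ℝ) / s + (c : ℝ) / p = (((b * p + c * s) % (p * s) : ℕ) : ℝ) /
        ((p * s : ℕ) : ℝ) + (((b * p + c * s) / (p * s) : ℕ) : ℝ) := by
      have h5 : (b : ℝ) / s + (c : ℝ) / p = ((b : ℝ) * p + (c : ℝ) * s) / ((p * s : ℕ) : ℝ) := by
        push_cast
        field_simp
      rw [h5, ← h1, add_div, mul_div_cancel_left₀]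
      push_cast
      positivity
    rw [add_assoc, h4, Int.cast_mul, Int.cast_natCast, Int.cast_natCast]
    ring
  rw [h3, ee_add_int]

theorem mont_sqf (Ω : ℕ → Finset ℕ) (A : Finset ℕ) (r : ℕ) (hr : Squarefree r)
    (hΩ : ∀ p ∈ r.primeFactors, Ω p ⊆ range p ∧ (Ω p).card < p ∧ ∀ n ∈ A, n % p ∉ Ω p)
    (ψ : ℝ) :
    (∏ p ∈ r.primeFactors, ((Ω p).card : ℝ) / ((p : ℝ) - (Ω p).card)) *
      ‖∑ n ∈ A, ee ((n : ℝ) * ψ)‖ ^ 2 ≤
      ∑ b ∈ (range r).filter (Nat.Coprime r),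
        ‖∑ n ∈ A, ee ((n : ℝ) * (ψ + (b : ℝ) / r))‖ ^ 2 := by
  induction r using Nat.strong_induction_on generalizing ψ with
  | _ r ih =>
  rcases Nat.lt_trichotomy r 1 with h0 | h1 | h2
  · exfalso
    have : r = 0 := by omega
    rw [this] at hr
    exact not_squarefree_zero hr
  · subst h1
    have e1 : (range 1).filter (Nat.Coprime 1) = {0} := by
      ext b
      simp
    rw [e1]
    simp
  · set p := r.minFac with hpd
    have hp : p.Prime := Nat.minFac_prime (by omega)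
    obtain ⟨s, hs⟩ := Nat.minFac_dvd r
    rw [← hpd] at hs
    have hs0 : 0 < s := by
      rcases Nat.eq_zero_or_pos s with h | h
      · rw [h, mul_zero] at hs
        omega
      · exact h
    have hsr : s < r := by
      rw [hs]
      have := hp.one_lt
      nlinarith
    have hr' : Squarefree (p * s) := by rw [← hs]; exact hr
    have hc : Nat.Coprime p s := Nat.coprime_of_squarefree_mul hr'
    have hsq : Squarefree s := hr'.of_mul_right
    have hpf : r.primeFactors = insert p s.primeFactors := by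
      rw [hs, Nat.Coprime.primeFactors_mul hc, Nat.Prime.primeFactors hp]
      rfl
    have hpn : p ∉ s.primeFactors := by
      intro h
      exact (Nat.Prime.coprime_iff_not_dvd hp).1 hc (Nat.dvd_of_mem_primeFactors h)
    have hΩp := hΩ p (by rw [hpf]; exact mem_insert_self _ _)
    have hΩs : ∀ p ∈ s.primeFactors, Ω p ⊆ range p ∧ (Ω p).card < p ∧ ∀ n ∈ A, n % p ∉ Ω p :=
      fun p' hp' => hΩ p' (by rw [hpf]; exact mem_insert_of_mem hp')
    have hden : (0 : ℝ) < (p : ℝ) - (Ω p).card := by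
      have : ((Ω p).card : ℝ) < p := by exact_mod_cast hΩp.2.1
      linarith
    have hh0 : (0 : ℝ) ≤ ((Ω p).card : ℝ) / ((p : ℝ) - (Ω p).card) :=
      div_nonneg (Nat.cast_nonneg _) hden.le
    have hone : ∀ φ : ℝ, ((Ω p).card : ℝ) / ((p : ℝ) - (Ω p).card) *
        ‖∑ n ∈ A, ee ((n : ℝ) * φ)‖ ^ 2 ≤
        ∑ b ∈ Icc 1 (p - 1), ‖∑ n ∈ A, ee ((n : ℝ) * (φ + (b : ℝ) / p))‖ ^ 2 := by
      intro φ
      have h := mont_prime p hp (Ω p) hΩp.1 A hΩp.2.2 φ
      rw [div_mul_eq_mul_div, div_le_iff₀ hden]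
      linarith
    have h3 := ih s hsr hsq hΩs ψ
    rw [hpf, prod_insert hpn, mul_assoc]
    calc ((Ω p).card : ℝ) / ((p : ℝ) - (Ω p).card) *
          ((∏ p ∈ s.primeFactors, ((Ω p).card : ℝ) / ((p : ℝ) - (Ω p).card)) *
            ‖∑ n ∈ A, ee ((n : ℝ) * ψ)‖ ^ 2)
        ≤ ((Ω p).card : ℝ) / ((p : ℝ) - (Ω p).card) *
          ∑ b ∈ (range s).filter (Nat.Coprime s),
            ‖∑ n ∈ A, ee ((n : ℝ) * (ψ + (b : ℝ) / s))‖ ^ 2 :=
          mul_le_mul_of_nonneg_left h3 hh0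
      _ = ∑ b ∈ (range s).filter (Nat.Coprime s), ((Ω p).card : ℝ) / ((p : ℝ) - (Ω p).card) *
            ‖∑ n ∈ A, ee ((n : ℝ) * (ψ + (b : ℝ) / s))‖ ^ 2 := by rw [mul_sum]
      _ ≤ ∑ b ∈ (range s).filter (Nat.Coprime s), ∑ c ∈ Icc 1 (p - 1),
            ‖∑ n ∈ A, ee ((n : ℝ) * (ψ + (b : ℝ) / s + (c : ℝ) / p))‖ ^ 2 :=
          sum_le_sum fun b _ => hone _
      _ = ∑ t ∈ (range s).filter (Nat.Coprime s) ×ˢ Icc 1 (p - 1),
            ‖∑ n ∈ A, ee ((n : ℝ) * (ψ + (t.1 : ℝ) / s + (t.2 : ℝ) / p))‖ ^ 2 := by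
          rw [sum_product]
      _ = ∑ t ∈ (range s).filter (Nat.Coprime s) ×ˢ Icc 1 (p - 1),
            ‖∑ n ∈ A, ee ((n : ℝ) * (ψ + (((t.1 * p + t.2 * s) % (p * s) : ℕ) : ℝ) /
              ((p * s : ℕ) : ℝ)))‖ ^ 2 := by
          refine sum_congr rfl fun t _ => ?_
          rw [svM_term p s hp.pos hs0]
      _ = ∑ u ∈ ((range s).filter (Nat.Coprime s) ×ˢ Icc 1 (p - 1)).image
            (fun t : ℕ × ℕ => (t.1 * p + t.2 * s) % (p * s)),
            ‖∑ n ∈ A, ee ((n : ℝ) * (ψ + (u : ℝ) / ((p * s : ℕ) : ℝ)))‖ ^ 2 := by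
          rw [sum_image (svM_inj p s hp hs0 hc)]
      _ ≤ ∑ b ∈ (range (p * s)).filter (Nat.Coprime (p * s)),
            ‖∑ n ∈ A, ee ((n : ℝ) * (ψ + (b : ℝ) / ((p * s : ℕ) : ℝ)))‖ ^ 2 := by
          apply sum_le_sum_of_subset_of_nonneg
          · intro u hu
            obtain ⟨t, ht, rfl⟩ := mem_image.1 hu
            exact svM_map p s hp hs0 hc t ht
          · intro _ _ _
            positivity
      _ = _ := by rw [← hs]

end Pool.MP_dd84fd_nt.HX
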