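import Pool.Agent.Lib.MP_dd84fd_nt.HX.MjDefs

/-!
# HX-SvP (0.6 h): the sieve inequality for one prime

Proof. `Z(ψ) = Σ_{n ∈ A} e(n ψ)`, `w = #Ω`, `T(b) = Σ_{h ∈ Ω} e(-h b/p)`. For `n % p ∉ Ω`: `Σ_{b=1}^{p-1} e(n b/p) T(b) = Σ_{h ∈ Ω} (p [n ≡ h (p)] - 1) = -w` (geometric sums, `Σ_{b=0}^{p-1} e(k b/p) = p [p ∣ k]`;
see `mont_geom` in Pool/Agent/Lib/MP_67663b_nt/OddB/Montgomery.lean). So `-w Z(ψ) = Σ_{b=1}^{p-1} T(b) Z(ψ + b/p)`. Cauchy: `w² |Z(ψ)|² ≤ (Σ_{b=1}^{p-1} |T(b)|²) Σ_b |Z(ψ + b/p)|²`, and `Σ_{b=1}^{p-1} |T(b)|² = p w - w²`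
(expand: `Σ_{h,h'} (p [h = h'] - 1)`, `h, h' < p`). If `w = 0` trivial, otherwise divide by `w`.
-/

set_option autoImplicit false

namespace Pool.MP_dd84fd_nt.HX

open Finset Pool.MP_67663b_nt.Odd Pool.MP_dd84fd_nt.En Pool.MP_dd84fd_nt.E2 Pool.MP_dd84fd_nt.LS
open Pool.MP_dd84fd_nt.L2G (nrm)
open Pool.MP_dd84fd_nt.GX

theorem SvP_geom (p : ℕ) (hp : 0 < p) (k : ℤ) :
    ∑ b ∈ range p, ee ((k : ℝ) * ((b : ℝ) / p)) = if (p : ℤ) ∣ k then (p : ℂ) else 0 := by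
  have hp0 : (p : ℝ) ≠ 0 := by positivity
  have hpow : ∀ j : ℕ, ee ((k : ℝ) * ((j : ℝ) / p)) = ee ((k : ℝ) / p) ^ j := by
    intro j
    induction j with
    | zero => simp [ee_zero]
    | succ j ih =>
      rw [pow_succ, ← ih, ← ee_add]
      congr 1
      push_cast
      ring
  simp only [hpow]
  split_ifs with h1
  · obtain ⟨c, hc⟩ := h1
    have h2 : ee ((k : ℝ) / p) = 1 := by
      have h3 : (k : ℝ) / p = ((c : ℤ) : ℝ) := by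
        rw [hc]
        push_cast
        field_simp
      rw [h3, ee_int]
    simp only [h2, one_pow, sum_const, card_range, nsmul_eq_mul, mul_one]
  · have hne : ee ((k : ℝ) / p) ≠ 1 := by
      intro he
      unfold ee at he
      rw [Complex.exp_eq_one_iff] at he
      obtain ⟨c, hc⟩ := he
      have hpi : (2 * Real.pi * Complex.I : ℂ) ≠ 0 := Complex.two_pi_I_ne_zero
      have h2 : (((k : ℝ) / p : ℝ) : ℂ) = (c : ℂ) := by
        have h3 : (((k : ℝ) / p : ℝ) : ℂ) * (2 * Real.pi * Complex.I) =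
            (c : ℂ) * (2 * Real.pi * Complex.I) := by
          rw [← hc]
          ring
        exact mul_right_cancel₀ hpi h3
      have h4 : ((k : ℝ) / p : ℝ) = (c : ℝ) := by exact_mod_cast h2
      rw [div_eq_iff hp0] at h4
      have h5 : k = c * p := by exact_mod_cast h4
      exact h1 ⟨c, by rw [h5]; ring⟩
    have hone : ee ((k : ℝ) / p) ^ p = 1 := by
      rw [← hpow]
      have : (k : ℝ) * ((p : ℝ) / p) = ((k : ℤ) : ℝ) := by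
        rw [div_self hp0, mul_one]
      rw [this, ee_int]
    rw [geom_sum_eq hne, hone, sub_self, zero_div]

theorem SvP_split (p : ℕ) (hp : 0 < p) (f : ℕ → ℂ) :
    ∑ b ∈ range p, f b = f 0 + ∑ b ∈ Icc 1 (p - 1), f b := by
  have h1 : range p = insert 0 (Icc 1 (p - 1)) := by
    ext b
    simp only [mem_range, mem_insert, mem_Icc]
    omega
  rw [h1, sum_insert (by simp)]

theorem SvP_splitR (p : ℕ) (hp : 0 < p) (f : ℕ → ℝ) :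
    ∑ b ∈ range p, f b = f 0 + ∑ b ∈ Icc 1 (p - 1), f b := by
  have h1 : range p = insert 0 (Icc 1 (p - 1)) := by
    ext b
    simp only [mem_range, mem_insert, mem_Icc]
    omega
  rw [h1, sum_insert (by simp)]

theorem SvP_T (p : ℕ) (hp : 0 < p) (Ω : Finset ℕ) (hΩ : Ω ⊆ range p) :
    ∑ b ∈ Icc 1 (p - 1), ‖∑ h ∈ Ω, ee (-((h : ℝ) * ((b : ℝ) / p)))‖ ^ 2 =
      (p : ℝ) * Ω.card - (Ω.card : ℝ) ^ 2 := by
  have h0 : ∑ b ∈ range p, ‖∑ h ∈ Ω, ee (-((h : ℝ) * ((b : ℝ) / p)))‖ ^ 2 =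
      (p : ℝ) * Ω.card := by
    have h1 : ((∑ b ∈ range p, ‖∑ h ∈ Ω, ee (-((h : ℝ) * ((b : ℝ) / p)))‖ ^ 2 : ℝ) : ℂ) =
        (((p : ℝ) * Ω.card : ℝ) : ℂ) := by
      rw [Complex.ofReal_sum]
      have h2 : ∀ b ∈ range p, ((‖∑ h ∈ Ω, ee (-((h : ℝ) * ((b : ℝ) / p)))‖ ^ 2 : ℝ) : ℂ) =
          ∑ h ∈ Ω, ∑ h' ∈ Ω, ee ((((h' : ℤ) - (h : ℤ) : ℤ) : ℝ) * ((b : ℝ) / p)) := by
        intro b _
        have h3 : ((‖∑ h ∈ Ω, ee (-((h : ℝ) * ((b : ℝ) / p)))‖ ^ 2 : ℝ) : ℂ) =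
            (∑ h ∈ Ω, ee (-((h : ℝ) * ((b : ℝ) / p)))) *
              (starRingEnd ℂ) (∑ h ∈ Ω, ee (-((h : ℝ) * ((b : ℝ) / p)))) := by
          rw [Complex.mul_conj, Complex.normSq_eq_norm_sq]
        rw [h3, map_sum, sum_mul_sum]
        refine sum_congr rfl fun h _ => sum_congr rfl fun h' _ => ?_
        rw [conj_ee, ← ee_add]
        congr 1
        push_cast
        ring
      rw [sum_congr rfl h2, sum_comm]
      have h4 : ∀ h ∈ Ω, ∑ b ∈ range p, ∑ h' ∈ Ω,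
          ee ((((h' : ℤ) - (h : ℤ) : ℤ) : ℝ) * ((b : ℝ) / p)) = (p : ℂ) := by
        intro h hh
        rw [sum_comm]
        have h5 : ∀ h' ∈ Ω, ∑ b ∈ range p,
            ee ((((h' : ℤ) - (h : ℤ) : ℤ) : ℝ) * ((b : ℝ) / p)) =
            if h' = h then (p : ℂ) else 0 := by
          intro h' hh'
          rw [SvP_geom p hp]
          have h6 : ((p : ℤ) ∣ (h' : ℤ) - (h : ℤ)) ↔ h' = h := by
            have a1 := mem_range.1 (hΩ hh)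
            have a2 := mem_range.1 (hΩ hh')
            constructor
            · intro h7
              have h8 : (h' : ℤ) - (h : ℤ) = 0 := by
                apply Int.eq_zero_of_abs_lt_dvd h7
                rw [abs_lt]
                constructor <;> omega
              omega
            · rintro rfl
              simp
          simp only [h6]
        rw [sum_congr rfl h5, sum_ite_eq' Ω h, if_pos hh]
      rw [sum_congr rfl h4, sum_const, nsmul_eq_mul]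
      push_cast
      ring
    exact_mod_cast h1
  rw [SvP_splitR p hp] at h0
  have h9 : ‖∑ h ∈ Ω, ee (-((h : ℝ) * (((0 : ℕ) : ℝ) / p)))‖ ^ 2 = (Ω.card : ℝ) ^ 2 := by
    have h10 : ∀ h ∈ Ω, ee (-((h : ℝ) * (((0 : ℕ) : ℝ) / p))) = 1 := by
      intro h _
      rw [Nat.cast_zero, zero_div, mul_zero, neg_zero, ee_zero]
    rw [sum_congr rfl h10, sum_const, nsmul_eq_mul, mul_one, Complex.norm_natCast]
  rw [h9] at h0
  linarith

theorem mont_prime (p : ℕ) (hp : p.Prime) (Ω : Finset ℕ) (hΩ : Ω ⊆ range p) (A : Finset ℕ)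
    (hA : ∀ n ∈ A, n % p ∉ Ω) (ψ : ℝ) :
    (Ω.card : ℝ) * ‖∑ n ∈ A, ee ((n : ℝ) * ψ)‖ ^ 2 ≤ ((p : ℝ) - Ω.card) *
      ∑ b ∈ Icc 1 (p - 1), ‖∑ n ∈ A, ee ((n : ℝ) * (ψ + (b : ℝ) / p))‖ ^ 2 := by
  have hp0 : 0 < p := hp.pos
  have hS0 : 0 ≤ ∑ b ∈ Icc 1 (p - 1), ‖∑ n ∈ A, ee ((n : ℝ) * (ψ + (b : ℝ) / p))‖ ^ 2 :=
    sum_nonneg fun b _ => by positivity
  have hcard : Ω.card ≤ p := by
    have := card_le_card hΩ
    rwa [card_range] at this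
  have hcardR : (Ω.card : ℝ) ≤ p := by exact_mod_cast hcard
  rcases Nat.eq_zero_or_pos Ω.card with hw | hw
  · rw [hw, Nat.cast_zero, zero_mul, sub_zero]
    positivity
  have hwR : (0 : ℝ) < Ω.card := by exact_mod_cast hw
  -- the identity
  have hid : ∀ n ∈ A, ∑ b ∈ Icc 1 (p - 1), (∑ h ∈ Ω, ee (-((h : ℝ) * ((b : ℝ) / p)))) *
      ee ((n : ℝ) * ((b : ℝ) / p)) = -(Ω.card : ℂ) := by
    intro n hn
    have h1 : ∀ b ∈ Icc 1 (p - 1), (∑ h ∈ Ω, ee (-((h : ℝ) * ((b : ℝ) / p)))) *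
        ee ((n : ℝ) * ((b : ℝ) / p)) =
        ∑ h ∈ Ω, ee ((((n : ℤ) - (h : ℤ) : ℤ) : ℝ) * ((b : ℝ) / p)) := by
      intro b _
      rw [sum_mul]
      refine sum_congr rfl fun h _ => ?_
      rw [← ee_add]
      congr 1
      push_cast
      ring
    rw [sum_congr rfl h1, sum_comm]
    have h2 : ∀ h ∈ Ω, ∑ b ∈ Icc 1 (p - 1),
        ee ((((n : ℤ) - (h : ℤ) : ℤ) : ℝ) * ((b : ℝ) / p)) = -1 := by
      intro h hh
      have h3 := SvP_geom p hp0 ((n : ℤ) - (h : ℤ))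
      rw [SvP_split p hp0, if_neg] at h3
      · rw [Nat.cast_zero, zero_div, mul_zero, ee_zero] at h3
        linear_combination h3
      · intro h4
        apply hA n hn
        have h5 : h < p := mem_range.1 (hΩ hh)
        have h6 : n % p = h := by
          have h7 : (n : ℤ) % p = (h : ℤ) % p := Int.ModEq.symm ((Int.modEq_iff_dvd).2 h4)
          have h8 : ((h : ℤ)) % p = h := Int.emod_eq_of_lt (by omega) (by omega)
          rw [h8] at h7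
          exact_mod_cast h7
        rw [h6]
        exact hh
    rw [sum_congr rfl h2, sum_const, nsmul_eq_mul]
    ring
  have hZ : -(Ω.card : ℂ) * ∑ n ∈ A, ee ((n : ℝ) * ψ) =
      ∑ b ∈ Icc 1 (p - 1), (∑ h ∈ Ω, ee (-((h : ℝ) * ((b : ℝ) / p)))) *
        ∑ n ∈ A, ee ((n : ℝ) * (ψ + (b : ℝ) / p)) := by
    have h1 : ∀ b ∈ Icc 1 (p - 1), (∑ h ∈ Ω, ee (-((h : ℝ) * ((b : ℝ) / p)))) *
        ∑ n ∈ A, ee ((n : ℝ) * (ψ + (b : ℝ) / p)) =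
        ∑ n ∈ A, ((∑ h ∈ Ω, ee (-((h : ℝ) * ((b : ℝ) / p)))) *
          ee ((n : ℝ) * ((b : ℝ) / p))) * ee ((n : ℝ) * ψ) := by
      intro b _
      rw [mul_sum]
      refine sum_congr rfl fun n _ => ?_
      rw [mul_add, ee_add]
      ring
    rw [sum_congr rfl h1, sum_comm, mul_sum]
    refine sum_congr rfl fun n hn => ?_
    rw [← sum_mul, hid n hn]
  have hC : ((Ω.card : ℝ) * ‖∑ n ∈ A, ee ((n : ℝ) * ψ)‖) ^ 2 ≤
      ((p : ℝ) * Ω.card - (Ω.card : ℝ) ^ 2) *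
        ∑ b ∈ Icc 1 (p - 1), ‖∑ n ∈ A, ee ((n : ℝ) * (ψ + (b : ℝ) / p))‖ ^ 2 := by
    rw [← SvP_T p hp0 Ω hΩ]
    have h1 : (Ω.card : ℝ) * ‖∑ n ∈ A, ee ((n : ℝ) * ψ)‖ ≤
        ∑ b ∈ Icc 1 (p - 1), ‖∑ h ∈ Ω, ee (-((h : ℝ) * ((b : ℝ) / p)))‖ *
          ‖∑ n ∈ A, ee ((n : ℝ) * (ψ + (b : ℝ) / p))‖ := by
      have h2 : (Ω.card : ℝ) * ‖∑ n ∈ A, ee ((n : ℝ) * ψ)‖ =
          ‖-(Ω.card : ℂ) * ∑ n ∈ A, ee ((n : ℝ) * ψ)‖ := by
        rw [norm_mul, norm_neg, Complex.norm_natCast]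
      rw [h2, hZ]
      refine (norm_sum_le _ _).trans (le_of_eq ?_)
      refine sum_congr rfl fun b _ => ?_
      rw [norm_mul]
    calc ((Ω.card : ℝ) * ‖∑ n ∈ A, ee ((n : ℝ) * ψ)‖) ^ 2 ≤
        (∑ b ∈ Icc 1 (p - 1), ‖∑ h ∈ Ω, ee (-((h : ℝ) * ((b : ℝ) / p)))‖ *
          ‖∑ n ∈ A, ee ((n : ℝ) * (ψ + (b : ℝ) / p))‖) ^ 2 := by
          apply pow_le_pow_left₀ (by positivity) h1
      _ ≤ _ := Finset.sum_mul_sq_le_sq_mul_sq _ _ _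
  have h3 : (Ω.card : ℝ) * ((Ω.card : ℝ) * ‖∑ n ∈ A, ee ((n : ℝ) * ψ)‖ ^ 2) ≤
      (Ω.card : ℝ) * (((p : ℝ) - Ω.card) *
        ∑ b ∈ Icc 1 (p - 1), ‖∑ n ∈ A, ee ((n : ℝ) * (ψ + (b : ℝ) / p))‖ ^ 2) := by
    calc (Ω.card : ℝ) * ((Ω.card : ℝ) * ‖∑ n ∈ A, ee ((n : ℝ) * ψ)‖ ^ 2) =
        ((Ω.card : ℝ) * ‖∑ n ∈ A, ee ((n : ℝ) * ψ)‖) ^ 2 := by ring
      _ ≤ _ := hC
      _ = _ := by ring
  exact le_of_mul_le_mul_left h3 hwR

end Pool.MP_dd84fd_nt.HX
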